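import Pool.Agent.H30.MulM

/-! A register machine given by a finite graph of instruction nodes. -/

namespace Pool.Agent.H77.Trs

open Pool.Agent.H38.CM Pool.Agent.H30.MulM Function Relation

/-- kind `0` increment, `1` decrement, `2` zero test, otherwise nothing -/
def cond (k a : ℕ) : Prop := (k = 1 → a ≠ 0) ∧ (k = 2 → a = 0)

def nw (k a : ℕ) : ℕ := if k = 0 then a + 1 else if k = 1 then a - 1 else a

def rin : (w : W) → St w → Bool → Option (St w) × ℕ × ℕ
  | .inc r, _, _ => (none, 0, r)
  | .skip, _, _ => (none, 3, 0)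
  | .seq a b, .inl s, x => (jmp .inl (some (.inr (entry b))) (rin a s x).1, (rin a s x).2)
  | .seq _ b, .inr s, x => (jmp .inr none (rin b s x).1, (rin b s x).2)
  | .loop r b, none, true => (some (some (entry b)), 1, r)
  | .loop r _, none, false => (none, 2, r)
  | .loop _ b, some s, x => (jmp some (some none) (rin b s x).1, (rin b s x).2)

def RS (w : W) (c d : Option (St w) × (ℕ → ℕ)) : Prop :=
  ∃ s b, c.1 = some s ∧ d.1 = (rin w s b).1 ∧ cond (rin w s b).2.1 (c.2 (rin w s b).2.2) ∧
    d.2 = update c.2 (rin w s b).2.2 (nw (rin w s b).2.1 (c.2 (rin w s b).2.2))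

theorem rlift {a w : W} (f : St a → St w) (e : Option (St w))
    (h : ∀ s x, rin w (f s) x = (jmp f e (rin a s x).1, (rin a s x).2))
    {c d : Option (St a) × (ℕ → ℕ)} (hr : ReflTransGen (RS a) c d) :
    ReflTransGen (RS w) (jmp f e c.1, c.2) (jmp f e d.1, d.2) := by
  induction hr with
  | refl => exact ReflTransGen.refl
  | tail _ hs ih =>
    obtain ⟨s, x, e1, e2, e3, e4⟩ := hs
    exact ih.tail ⟨f s, x, by rw [e1]; rfl, by rw [e2, h], by rw [h]; exact e3,
      by rw [h]; exact e4⟩

theorem rrun {w : W} {v v' : ℕ → ℕ} (h : Ev w v v') :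
    ReflTransGen (RS w) (some (entry w), v) (none, v') := by
  induction h with
  | inc r v => exact .single ⟨(), true, rfl, rfl, by simp [rin, cond], by simp [rin, nw]⟩
  | skip v => exact .single ⟨(), true, rfl, rfl, by simp [rin, cond], by simp [rin, nw]⟩
  | @seq a b _ _ _ _ _ r1 r2 =>
    exact (rlift (w := .seq a b) .inl (some (.inr (entry b))) (fun _ _ => rfl) r1).trans
      (rlift (w := .seq a b) .inr none (fun _ _ => rfl) r2)
  | @l0 r b v h0 =>
    exact .single ⟨none, false, rfl, rfl, by simp [rin, cond, h0], by simp [rin, nw]⟩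
  | @l1 r b v u w n h0 _ _ r1 r2 =>
    refine ReflTransGen.head (b := (some (some (entry b)), update v r n))
      ⟨none, true, rfl, rfl, by simp [rin, cond, h0], by simp [rin, nw, h0]⟩ ?_
    exact (rlift (w := .loop r b) some (some none) (fun _ _ => rfl) r1).trans r2

theorem rK_step : ∀ (w : W) (s : St w) (b : Bool) {v v' : ℕ → ℕ},
    cond (rin w s b).2.1 (v (rin w s b).2.2) →
    K' w (rin w s b).1 (update v (rin w s b).2.2 (nw (rin w s b).2.1 (v (rin w s b).2.2))) v' →
    K w s v v'
  | .inc r, _, _, v, v', _, h => by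
    obtain rfl : v' = update v r (v r + 1) := by simpa [rin, nw, K'] using h
    exact Ev.inc _ _
  | .skip, _, _, v, v', _, h => by
    obtain rfl : v' = v := by simpa [rin, nw, K'] using h
    exact Ev.skip _
  | .seq a c, .inl s, b, v, v', h, h' => by
    have := fun u => rK_step a s b (v' := u) h
    simp only [rin] at h'
    rcases e : (rin a s b).1 with _ | t <;> rw [e] at h' this
    · exact ⟨_, this _ rfl, K_entry c h'⟩
    · obtain ⟨u, h1, h2⟩ := h'
      exact ⟨u, this u h1, h2⟩
  | .seq a c, .inr s, b, v, v', h, h' => by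
    have := rK_step c s b (v' := v') h
    simp only [rin] at h'
    rcases e : (rin c s b).1 with _ | t <;> rw [e] at h' this <;> exact this h'
  | .loop r c, none, true, v, v', h, h' => by
    obtain ⟨u, h1, h2⟩ := h'
    have h0 : v r ≠ 0 := by simpa [rin, cond] using h
    refine Ev.l1 (n := v r - 1) (by omega) ?_ h2
    simpa [rin, nw] using K_entry c h1
  | .loop r c, none, false, v, v', h, h' => by
    have h0 : v r = 0 := by simpa [rin, cond] using h
    obtain rfl : v' = v := by simpa [rin, nw, K'] using h'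
    exact Ev.l0 h0
  | .loop r c, some s, b, v, v', h, h' => by
    have := fun u => rK_step c s b (v' := u) h
    simp only [rin] at h'
    rcases e : (rin c s b).1 with _ | t <;> rw [e] at h' this
    · exact ⟨_, this _ rfl, h'⟩
    · obtain ⟨u, h1, h2⟩ := h'
      exact ⟨u, this u h1, h2⟩

/-- Node `q` started on `v` reaches the restart node `z` in `m` steps. -/
inductive RH (z : ℕ) (kd rg : ℕ → ℕ) (al : ℕ → ℕ → Prop) : ℕ → (ℕ → ℕ) → ℕ → Prop
  | stop (v : ℕ → ℕ) : RH z kd rg al z v 0
  | step {q q' m : ℕ} {v : ℕ → ℕ} : q ≠ z → cond (kd q) (v (rg q)) → al q q' →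
      RH z kd rg al q' (update v (rg q) (nw (kd q) (v (rg q)))) m → RH z kd rg al q v (m + 1)

theorem exists_rm : ∃ (n k z : ℕ) (kd rg : ℕ → ℕ) (al : ℕ → ℕ → Prop), z < n ∧
    (∀ q, rg q < k) ∧ (∀ q q', al q q' → q < n ∧ q' < n) ∧
    ¬ ComputablePred fun x : ℕ => ∃ q m, al z q ∧ RH z kd rg al q (init x) m := by
  classical
  obtain ⟨w, hw⟩ := Pool.Agent.H38.CM.exists_undec
  have := St.finite w
  obtain ⟨n, ⟨e⟩⟩ := Finite.exists_equiv_fin (Option (St w × Bool))
  obtain ⟨k, hk⟩ := Finite.exists_le fun y : St w × Bool => (rin w y.1 y.2).2.2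
  let c : Option (St w × Bool) → ℕ := fun y => (e y).val
  have ci : ∀ {y y'}, c y = c y' → y = y' := fun h => e.injective (Fin.ext h)
  let kd : ℕ → ℕ := fun q => if h : ∃ y, c (some y) = q then (rin w h.choose.1 h.choose.2).2.1 else 0
  let rg : ℕ → ℕ := fun q => if h : ∃ y, c (some y) = q then (rin w h.choose.1 h.choose.2).2.2 else 0
  have hkd : ∀ y, kd (c (some y)) = (rin w y.1 y.2).2.1 := fun y => by
    have h : ∃ y', c (some y') = c (some y) := ⟨y, rfl⟩
    have := Option.some.inj (ci h.choose_spec)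
    simp only [kd, dif_pos h, this]
  have hrg : ∀ y, rg (c (some y)) = (rin w y.1 y.2).2.2 := fun y => by
    have h : ∃ y', c (some y') = c (some y) := ⟨y, rfl⟩
    have := Option.some.inj (ci h.choose_spec)
    simp only [rg, dif_pos h, this]
  let nx : Option (St w × Bool) → Option (St w) := fun y =>
    match y with
    | none => some (entry w)
    | some y => (rin w y.1 y.2).1
  let al : ℕ → ℕ → Prop := fun q q' => ∃ y y', q = c y ∧ q' = c y' ∧ nx y = y'.map Prod.fst
  refine ⟨n, k + 1, c none, kd, rg, al, (e none).2, fun q => ?_, ?_, fun h => hw (h.of_eq fun x => ?_)⟩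
  · by_cases h : ∃ y, c (some y) = q
    · obtain ⟨y, rfl⟩ := h
      rw [hrg]; exact Nat.lt_succ_of_le (hk y)
    · simp only [rg, dif_neg h]; omega
  · rintro q q' ⟨y, y', rfl, rfl, -⟩
    exact ⟨(e y).2, (e y').2⟩
  · constructor
    · rintro ⟨q, m, ⟨y0, y, h0, rfl, h1⟩, h2⟩
      have key : ∀ q v m, RH (c none) kd rg al q v m → ∀ y, q = c y →
          ∃ v', K' w (y.map Prod.fst) v v' := by
        intro q v m h
        induction h with
        | stop v =>
          intro y hy
          obtain rfl := ci hy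
          exact ⟨v, rfl⟩
        | step a1 a2 a3 _ ih =>
          intro y hy
          subst hy
          obtain ⟨y1, y2, b1, b2, b3⟩ := a3
          obtain rfl := ci b1
          rcases y with _ | y
          · exact absurd rfl a1
          obtain ⟨v', hv⟩ := ih y2 b2
          rw [hkd, hrg] at a2 hv
          rw [← b3] at hv
          exact ⟨v', rK_step w y.1 y.2 a2 hv⟩
      obtain rfl := ci h0
      obtain ⟨v', hv⟩ := key _ _ _ h2 y rfl
      rw [← h1] at hv
      exact ⟨v', K_entry w hv⟩
    · rintro ⟨v', hv⟩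
      have key : ∀ d, ReflTransGen (RS w) d (none, v') →
          ∃ y m, y.map Prod.fst = d.1 ∧ RH (c none) kd rg al (c y) d.2 m := by
        intro d hd
        induction hd using ReflTransGen.head_induction_on with
        | refl => exact ⟨none, 0, rfl, .stop _⟩
        | head hs _ ih =>
          obtain ⟨s, b, e1, e2, e3, e4⟩ := hs
          obtain ⟨y, m, h1, h2⟩ := ih
          refine ⟨some (s, b), m + 1, e1.symm, .step (q' := c y) (fun h => by cases ci h) ?_
            ⟨some (s, b), y, rfl, rfl, by rw [h1, e2]⟩ ?_⟩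
          · rw [hkd, hrg]; exact e3
          · rw [hkd, hrg, ← e4]; exact h2
      obtain ⟨y, m, h1, h2⟩ := key _ (rrun hv)
      exact ⟨c y, m, ⟨none, y, rfl, rfl, h1.symm⟩, h2⟩

end Pool.Agent.H77.Trs
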