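import Mathlib

set_option autoImplicit false

namespace Pool.Agent.H77.AxB

open Filter Topology Set Pointwise

variable {S : Type} [TopologicalSpace S] [Group S] [IsTopologicalGroup S]

def Hom {V : Type} [AddCommGroup V] (ψ : V → S) : Prop := ∀ x y, ψ (x + y) = ψ x * ψ y

omit [TopologicalSpace S] [IsTopologicalGroup S] in
theorem Hom.sub {V : Type} [AddCommGroup V] {ψ : V → S} (h : Hom ψ) (x y : V) :
    ψ (x - y) = ψ x / ψ y := by
  rw [eq_div_iff_mul_eq', ← h, sub_add_cancel]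

omit [TopologicalSpace S] [IsTopologicalGroup S] in
theorem Hom.zero {V : Type} [AddCommGroup V] {ψ : V → S} (h : Hom ψ) : ψ 0 = 1 := by
  simpa using h.sub 0 0

omit [TopologicalSpace S] [IsTopologicalGroup S] in
theorem Hom.neg {V : Type} [AddCommGroup V] {ψ : V → S} (h : Hom ψ) (x : V) :
    ψ (-x) = (ψ x)⁻¹ := by
  simpa [h.zero] using h.sub 0 x

theorem cover {K U : Set S} (hK : IsCompact K) (hU : U ∈ 𝓝 (1 : S)) : ∃ N : ℕ,
    ∀ (V : Type) [AddCommGroup V] (ψ : V → S), Hom ψ →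
      ∃ F : Finset V, F.card ≤ N ∧ ∀ x, ψ x ∈ K → ∃ f ∈ F, ψ (x - f) ∈ U := by
  classical
  obtain ⟨U', h1, h2⟩ := exists_nhds_split_inv hU
  obtain ⟨t, -, ht⟩ := hK.elim_nhds_subcover (fun s => {y | y / s ∈ U'}) fun s _ =>
    (continuous_id.div' continuous_const).continuousAt.preimage_mem_nhds (by simpa using h1)
  refine ⟨t.card, fun V _ ψ h => ?_⟩
  choose! g hg using fun (s : S) (h : ∃ x, ψ x / s ∈ U') => h
  refine ⟨t.image g, Finset.card_image_le, fun x hx => ?_⟩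
  obtain ⟨s, hs, h3⟩ := mem_iUnion₂.1 (ht hx)
  refine ⟨g s, Finset.mem_image_of_mem _ hs, ?_⟩
  simpa [h.sub] using h2 _ h3 _ (hg s ⟨x, h3⟩)

theorem weil [LocallyCompactSpace S] (g : S) {K : Set S} (hK : IsCompact K)
    (hinf : {j : ℤ | g ^ j ∈ K}.Infinite) : ∃ K', IsCompact K' ∧ ∀ j : ℤ, g ^ j ∈ K' := by
  have hh : Hom fun j : ℤ => g ^ j := zpow_add g
  have a : ∀ U ∈ 𝓝 (1 : S), ∃ j : ℤ, 0 < j ∧ g ^ j ∈ U := by
    intro U hU
    obtain ⟨U', h1, h2⟩ := exists_nhds_split_inv hU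
    obtain ⟨F, -, hF⟩ := (cover hK h1).choose_spec ℤ _ hh
    choose! f f1 f2 using hF
    obtain ⟨i, hi, j, hj, hij, e⟩ := hinf.exists_lt_map_eq_of_mapsTo (f := f) f1 F.finite_toSet
    refine ⟨j - i, by omega, ?_⟩
    have := h2 _ (f2 j hj) _ (f2 i hi)
    rwa [e, div_eq_mul_inv, ← zpow_sub, sub_sub_sub_cancel_right] at this
  have b : ∀ m : ℕ, ∀ U ∈ 𝓝 (1 : S), ∃ j : ℤ, m < j ∧ g ^ j ∈ U := by
    intro m
    induction m with
    | zero => exact a
    | succ m ih =>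
      intro U hU
      obtain ⟨U', h1, h2⟩ := exists_nhds_one_split hU
      obtain ⟨i, a1, a2⟩ := a U' h1
      obtain ⟨j, b1, b2⟩ := ih U' h1
      exact ⟨i + j, by omega, zpow_add g i j ▸ h2 _ a2 _ b2⟩
  obtain ⟨W, hW, hW'⟩ := exists_compact_mem_nhds (1 : S)
  obtain ⟨O, h1, h2⟩ := exists_nhds_one_split hW'
  obtain ⟨F, -, hF⟩ := (cover hW h1).choose_spec ℤ _ hh
  choose p p1 p2 using fun f : ℤ => b f.toNat O h1
  obtain ⟨M, hM⟩ := (F.finite_toSet.image fun f => p f - f).bddAbove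
  have c : ∀ i : ℕ, ∃ a : ℤ, g ^ a ∈ W ∧ i ≤ a ∧ a ≤ i + max M 0 := by
    intro i
    induction i with
    | zero => exact ⟨0, by simpa using mem_of_mem_nhds hW', by simp, by simp⟩
    | succ i ih =>
      obtain ⟨a, a1, a2, a3⟩ := ih
      by_cases h : a = i
      · obtain ⟨f, f1, f2⟩ := hF a a1
        have := hM ⟨f, f1, rfl⟩
        have := p1 f
        refine ⟨a - f + p f, zpow_add g _ _ ▸ h2 _ f2 _ (p2 f), ?_, ?_⟩ <;> simp only at * <;> omega
      · exact ⟨a, a1, by omega, by omega⟩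
  have hc := hW.mul ((finite_Icc (-max M 0) 0).image fun j : ℤ => g ^ j).isCompact
  have d : ∀ i : ℕ, g ^ (i : ℤ) ∈ W * (fun j : ℤ => g ^ j) '' Icc (-max M 0) 0 := fun i => by
    obtain ⟨a, a1, a2, a3⟩ := c i
    exact ⟨_, a1, _, ⟨i - a, ⟨by omega, by omega⟩, rfl⟩, by simp only [← zpow_add]; simp⟩
  refine ⟨_, hc.union hc.inv, fun j => ?_⟩
  obtain ⟨i, rfl | rfl⟩ := j.eq_nat_or_neg
  · exact Or.inl (d i)
  · exact Or.inr (by rw [Set.mem_inv, zpow_neg, inv_inv]; exact d i)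

theorem nondisc [SecondCountableTopology S] {ψ : ℝ → S} (h : Hom ψ) (hi : Function.Injective ψ)
    {U : Set S} (hU : U ∈ 𝓝 (1 : S)) : ∃ a ≠ 0, ψ a ∈ U := by
  by_contra hc
  obtain ⟨U', h1, h2⟩ := exists_nhds_one_split hU
  have h3 := interior_mem_nhds.2 (inter_mem h1 (inv_mem_nhds_one S h1))
  refine not_countable (α := ℝ) (Pairwise.countable_of_isOpen_disjoint
    (s := fun a => {y | y⁻¹ * ψ a ∈ interior (U' ∩ U'⁻¹)}) (fun a b hab => ?_)
    (fun a => isOpen_interior.preimage (by fun_prop)) fun a => ⟨ψ a, by simpa using mem_of_mem_nhds h3⟩)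
  refine disjoint_left.2 fun y ha hb => hc ⟨-a + b, fun e => hab (by linarith), ?_⟩
  simpa [h _ _, h.neg] using h2 _ (interior_subset ha).2 _ (interior_subset hb).1

def sc (c : ℝ) (A : AddSubgroup ℝ) : AddSubgroup ℝ := A.map (AddMonoidHom.mulLeft c)

theorem sc_rel {c : ℝ} (hc : c ≠ 0) (A B : AddSubgroup ℝ) :
    (sc c A).relIndex (sc c B) = A.relIndex B :=
  AddSubgroup.relIndex_map_map_of_injective A B (mul_right_injective₀ hc)

theorem sc_sc (c d : ℝ) (A : AddSubgroup ℝ) : sc c (sc d A) = sc (c * d) A := by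
  ext x
  simp [sc, mul_assoc]

theorem noidx (P : AddSubgroup ℝ → Prop) (L : AddSubgroup ℝ)
    (h1 : ∀ A, P A → A.relIndex L ≠ 0) (h2 : ∀ A c, 0 < c → P A → P (sc c A)) (h3 : P L)
    (h4 : ∀ (f : ℕ → AddSubgroup ℝ) (m : ℕ), (∀ i, P (f i)) → P (⨅ i < m, f i))
    {c : ℝ} (hc : 0 < c) (h5 : sc c L ≤ L) : L ≤ sc c L := by
  by_contra h
  have k0 := h1 _ (h2 L c hc h3)
  have k1 := AddSubgroup.relIndex_eq_one.not.2 h
  set k := (sc c L).relIndex L with hk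
  obtain ⟨d, hd, e⟩ : ∃ d : ℝ, 0 < d ∧ d ^ k = c :=
    ⟨c ^ (k : ℝ)⁻¹, Real.rpow_pos_of_pos hc _, Real.rpow_inv_natCast_pow hc.le k0⟩
  let C : AddSubgroup ℝ := ⨅ i < k, sc (d ^ i)⁻¹ L
  have m : ∀ x, x ∈ C ↔ ∀ i < k, d ^ i * x ∈ L := fun x => by
    simp only [C, AddSubgroup.mem_iInf, sc, AddSubgroup.mem_map]
    refine forall₂_congr fun i _ => ⟨?_, fun h => ⟨_, h, ?_⟩⟩
    · rintro ⟨y, hy, rfl⟩
      simpa [← mul_assoc, (pow_pos hd i).ne'] using hy
    · simp [← mul_assoc, (pow_pos hd i).ne']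
  have CL : C ≤ L := fun x hx => by simpa using (m x).1 hx 0 (by omega)
  have dC : sc d C ≤ C := by
    rintro _ ⟨x, hx, rfl⟩
    refine (m _).2 fun i hi => ?_
    rw [AddMonoidHom.coe_mulLeft, ← mul_assoc, ← pow_succ]
    by_cases h : i + 1 = k
    · exact h5 ⟨x, CL hx, by rw [h, e]; rfl⟩
    · exact (m x).1 hx _ (by omega)
  have p : ∀ i, sc (d ^ i) C ≤ C ∧ (sc (d ^ i) C).relIndex C = (sc d C).relIndex C ^ i := by
    intro i
    induction i with
    | zero => simp [sc, show AddMonoidHom.mulLeft (1 : ℝ) = AddMonoidHom.id ℝ by ext; simp]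
    | succ i ih =>
      have : sc (d ^ i) (sc d C) ≤ sc (d ^ i) C := AddSubgroup.map_mono dC
      rw [pow_succ, ← sc_sc, ← AddSubgroup.relIndex_mul_relIndex _ _ _ this ih.1, ih.2,
        sc_rel (pow_pos hd i).ne', pow_succ']
      exact ⟨this.trans ih.1, rfl⟩
  obtain ⟨p1, p2⟩ := p k
  rw [e] at p1 p2
  have a := AddSubgroup.relIndex_mul_relIndex (sc c C) _ _ (AddSubgroup.map_mono CL) h5
  have b := AddSubgroup.relIndex_mul_relIndex _ _ _ p1 CL
  change (sc c C).relIndex (sc c L) * k = _ at a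
  rw [sc_rel hc.ne', ← b, mul_comm, p2] at a
  have a := mul_right_cancel₀ (h1 C (h4 _ k fun i => h2 L _ (by positivity) h3)) a
  generalize (sc d C).relIndex C = j at a
  rcases j with _ | _ | j
  · exact k0 (by rw [a, zero_pow k0])
  · exact k1 (by rw [a]; simp)
  · exact (Nat.lt_pow_self (by omega : 1 < j + 1 + 1)).ne a

theorem axb [LocallyCompactSpace S] [T2Space S] [SecondCountableTopology S] {ψ σ : ℝ → S}
    (h : Hom ψ) (hi : Function.Injective ψ) (hs : Hom σ)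
    (hc : ∀ a x, ψ (Real.exp a * x) = σ a * ψ x * (σ a)⁻¹) {K : Set S} (hK : IsCompact K)
    {x : ℝ} (hx : x ≠ 0) : {j : ℤ | ψ (j * x) ∈ K}.Finite := by
  classical
  by_contra hinf
  have z : ∀ (x : ℝ) (j : ℤ), ψ (j * x) = ψ x ^ j := fun x j => by
    have := map_zsmul (AddMonoidHom.mk' (fun x => Additive.ofMul (ψ x)) h) j x
    rw [zsmul_eq_mul] at this
    exact this
  let B : AddSubgroup ℝ → Prop := fun A => ∃ K, IsCompact K ∧ ∀ x ∈ A, ψ x ∈ K
  have cj : ∀ c : ℝ, 0 < c → ∃ s, ∀ x, ψ (c * x) = s * ψ x * s⁻¹ := fun c hc' =>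
    ⟨σ (Real.log c), fun x => by rw [← hc, Real.exp_log hc']⟩
  have b1 : ∀ y, B (AddSubgroup.zmultiples y) := by
    intro y
    obtain ⟨K', h1, h2⟩ := weil (ψ x) hK (by simp only [← z]; exact hinf)
    by_cases hy : y = 0
    · exact ⟨{1}, isCompact_singleton, by simp [hy, h.zero]⟩
    obtain ⟨s, hs⟩ := cj |y / x| (abs_pos.2 (div_ne_zero hy hx))
    refine ⟨_, h1.image (f := fun k => s * k * s⁻¹) (by fun_prop), ?_⟩
    rintro _ ⟨j, rfl⟩
    rcases abs_choice (y / x) with e | e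
    · exact ⟨_, h2 j, by simp only [← z, ← hs, e]; congr 1; field_simp; simp [mul_comm]⟩
    · exact ⟨_, h2 (-j), by simp only [← z, ← hs, e]; congr 1; field_simp; simp [mul_comm]⟩
  have b2 : ∀ F : Finset ℝ, ∃ H, B H ∧ ∀ f ∈ F, f ∈ H := by
    intro F
    induction F using Finset.induction_on with
    | empty => exact ⟨_, b1 0, by simp⟩
    | insert y F _ ih =>
      obtain ⟨H, ⟨K1, h1, h2⟩, h3⟩ := ih
      obtain ⟨K2, h4, h5⟩ := b1 y
      refine ⟨H ⊔ AddSubgroup.zmultiples y, ⟨_, h1.mul h4, fun w hw => ?_⟩, fun f hf => ?_⟩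
      · obtain ⟨a, ha, b, hb, rfl⟩ := AddSubgroup.mem_sup.1 hw
        exact ⟨_, h2 a ha, _, h5 b hb, (h a b).symm⟩
      · rcases Finset.mem_insert.1 hf with rfl | hf
        · exact AddSubgroup.mem_sup_right (AddSubgroup.mem_zmultiples _)
        · exact AddSubgroup.mem_sup_left (h3 f hf)
  obtain ⟨W0, hW0, hW1⟩ := exists_compact_mem_nhds (1 : S)
  have hW := hW0.union hW0.inv
  have hW' : W0 ∪ W0⁻¹ ∈ 𝓝 (1 : S) := mem_of_superset hW1 subset_union_left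
  have hW2 : ∀ y, ψ y ∈ W0 ∪ W0⁻¹ → ψ (-y) ∈ W0 ∪ W0⁻¹ := fun y hy => by
    rw [h.neg]; simpa [or_comm] using hy
  generalize W0 ∪ W0⁻¹ = W at hW hW' hW2
  obtain ⟨F, -, hF⟩ := (cover (hW.mul hW) hW').choose_spec ℝ _ h
  obtain ⟨H, ⟨K1, h1, h2⟩, h3⟩ := b2 F
  let L : AddSubgroup ℝ :=
    { carrier := {y | ∃ a ∈ H, ψ (y - a) ∈ W}
      zero_mem' := ⟨0, zero_mem _, by simpa [h.zero] using mem_of_mem_nhds hW'⟩
      add_mem' := by
        rintro y y' ⟨a, ha, hy⟩ ⟨a', ha', hy'⟩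
        obtain ⟨f, f1, f2⟩ := hF (y - a + (y' - a')) ⟨_, hy, _, hy', (h _ _).symm⟩
        exact ⟨a + a' + f, add_mem (add_mem ha ha') (h3 f f1), by convert f2 using 2; ring⟩
      neg_mem' := by
        rintro y ⟨a, ha, hy⟩
        exact ⟨-a, neg_mem ha, by convert hW2 _ hy using 2; ring⟩ }
  have hL := hW.mul h1
  have l1 : ∀ y ∈ L, ψ y ∈ W * K1 := fun y ⟨a, ha, hy⟩ =>
    ⟨_, hy, _, h2 a ha, by simp only [← h _ _, sub_add_cancel]⟩
  have l2 : ∀ y, ψ y ∈ W → y ∈ L := fun y hy => ⟨0, zero_mem _, by simpa using hy⟩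
  obtain ⟨x0, x1, x2⟩ := nondisc h hi hW'
  have n1 : ({ψ x0}ᶜ : Set S) ∈ 𝓝 1 := isOpen_compl_singleton.mem_nhds fun e =>
    x1 (hi (h.zero.trans e).symm)
  have n2 : ({ψ (-x0)}ᶜ : Set S) ∈ 𝓝 1 := isOpen_compl_singleton.mem_nhds fun e =>
    x1 (neg_eq_zero.1 (hi (h.zero.trans e).symm))
  have ev : ∀ᶠ s in 𝓝 (1 : S), ∀ k ∈ W * K1, s * k * s⁻¹ / k ∈ W ∩ ({ψ x0}ᶜ ∩ {ψ (-x0)}ᶜ) :=
    hL.eventually_forall_of_forall_eventually (P := fun s k =>
      s * k * s⁻¹ / k ∈ W ∩ ({ψ x0}ᶜ ∩ {ψ (-x0)}ᶜ)) fun k _ =>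
      (show Continuous fun p : S × S => p.1 * p.2 * p.1⁻¹ / p.2 by
        fun_prop).continuousAt.preimage_mem_nhds (by
          rw [show (1 : S) * k * 1⁻¹ / k = 1 by simp]; exact inter_mem hW' (inter_mem n1 n2))
  have si : Function.Injective σ := fun a b e => by
    have : ψ (Real.exp a * 1) = ψ (Real.exp b * 1) := by rw [hc, hc, e]
    simpa using hi this
  obtain ⟨a, a1, a2⟩ := nondisc hs si ev
  have a3 : ∀ y ∈ L, ψ ((Real.exp a - 1) * y) ∈ W ∩ ({ψ x0}ᶜ ∩ {ψ (-x0)}ᶜ) := fun y hy => by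
    rw [sub_mul, one_mul, h.sub, hc]; exact a2 _ (l1 y hy)
  have a4 : ∀ y ∈ L, ψ (|Real.exp a - 1| * y) ∈ W ∧ |Real.exp a - 1| * y ≠ x0 := fun y hy => by
    rcases abs_choice (Real.exp a - 1) with e | e <;> rw [e]
    · exact ⟨(a3 y hy).1, fun e => (a3 y hy).2.1 (congrArg ψ e)⟩
    · exact ⟨by rw [neg_mul]; exact hW2 _ (a3 y hy).1,
        fun e => (a3 y hy).2.2 (congrArg ψ (by rw [← e]; ring))⟩
  have := noidx (fun A => ∃ U ∈ 𝓝 (1 : S), ∀ y, ψ y ∈ U → y ∈ A) L ?_ ?_ ⟨W, hW', l2⟩ ?_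
    (c := |Real.exp a - 1|) (abs_pos.2 (by simpa [sub_eq_zero] using a1)) ?_
  · obtain ⟨y, hy, e⟩ := this (l2 _ x2)
    exact (a4 y hy).2 e
  · rintro A ⟨U, hU, hA⟩
    obtain ⟨F, -, hF⟩ := (cover hL hU).choose_spec ℝ _ h
    rw [← QuotientAddGroup.ker_mk' A, AddSubgroup.relIndex_ker]
    refine Nat.card_ne_zero.2 ⟨inferInstance,
      (F.finite_toSet.image (QuotientAddGroup.mk' A)).subset ?_⟩
    rintro _ ⟨y, hy, rfl⟩
    obtain ⟨f, f1, f2⟩ := hF y (l1 y hy)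
    exact ⟨f, f1, (QuotientAddGroup.eq_iff_sub_mem.2 (hA _ f2)).symm⟩
  · rintro A c hc ⟨U, hU, hA⟩
    obtain ⟨s, hs⟩ := cj c⁻¹ (inv_pos.2 hc)
    refine ⟨_, (show Continuous fun k : S => s * k * s⁻¹ by
      fun_prop).continuousAt.preimage_mem_nhds (by simpa using hU), fun y hy => ?_⟩
    exact ⟨c⁻¹ * y, hA _ (hs y ▸ hy), by simp [← mul_assoc, hc.ne']⟩
  · intro f m hf
    choose U h1 h2 using hf
    refine ⟨_, (biInter_mem (finite_lt_nat m)).2 fun i _ => h1 i, fun y hy => ?_⟩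
    simp only [AddSubgroup.mem_iInf]
    exact fun i hi => h2 i y (mem_iInter₂.1 hy i hi)
  · rintro _ ⟨y, hy, rfl⟩
    exact l2 _ (a4 y hy).1

def Ax : Type := ℝ × ℝ

instance : TopologicalSpace Ax := inferInstanceAs (TopologicalSpace (ℝ × ℝ))
instance : LocallyCompactSpace Ax := inferInstanceAs (LocallyCompactSpace (ℝ × ℝ))
instance : T2Space Ax := inferInstanceAs (T2Space (ℝ × ℝ))
instance : SecondCountableTopology Ax := inferInstanceAs (SecondCountableTopology (ℝ × ℝ))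
instance : ConnectedSpace Ax := inferInstanceAs (ConnectedSpace (ℝ × ℝ))

noncomputable instance : Mul Ax := ⟨fun p q => (p.1 + Real.exp p.2 * q.1, p.2 + q.2)⟩
noncomputable instance : One Ax := ⟨(0, 0)⟩
noncomputable instance : Inv Ax := ⟨fun p => (-(Real.exp (-p.2) * p.1), -p.2)⟩

theorem mul_def (p q : Ax) : p * q = (p.1 + Real.exp p.2 * q.1, p.2 + q.2) := rfl
theorem inv_def (p : Ax) : p⁻¹ = (-(Real.exp (-p.2) * p.1), -p.2) := rfl
theorem one_def : (1 : Ax) = (0, 0) := rfl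

noncomputable instance : Group Ax := Group.ofLeftAxioms
  (fun a b c => Prod.ext (by simp only [mul_def, Real.exp_add]; ring)
    (by simp only [mul_def]; ring))
  (fun a => Prod.ext (by simp [mul_def, one_def]) (by simp [mul_def, one_def]))
  fun a => Prod.ext (by simp [mul_def, one_def, inv_def]) (by simp [mul_def, one_def, inv_def])

instance : IsTopologicalGroup Ax where
  continuous_mul := show Continuous fun p : (ℝ × ℝ) × ℝ × ℝ =>
    ((p.1.1 + Real.exp p.1.2 * p.2.1, p.1.2 + p.2.2) : ℝ × ℝ) by fun_prop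
  continuous_inv := show Continuous fun p : ℝ × ℝ =>
    ((-(Real.exp (-p.2) * p.1), -p.2) : ℝ × ℝ) by fun_prop

theorem main [LocallyCompactSpace S] [T2Space S] [SecondCountableTopology S]
    (h : ∀ n : ℕ, ∃ f : (Fin n → Ax) →* S, Function.Injective f) : False := by
  classical
  obtain ⟨W, hW, hW'⟩ := exists_compact_mem_nhds (1 : S)
  obtain ⟨N, hN⟩ := cover (hW.mul hW) hW'
  obtain ⟨f, hf⟩ := h (N + 1)
  let ψ : Fin (N + 1) → ℝ → S := fun i x => f (Pi.mulSingle i ((x, 0) : Ax))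
  let σ : Fin (N + 1) → ℝ → S := fun i x => f (Pi.mulSingle i ((0, x) : Ax))
  have h1 : ∀ i, Hom (ψ i) := fun i x y => by
    simp only [ψ, ← map_mul, ← Pi.mulSingle_mul, mul_def]; simp
  have h2 : ∀ i, Hom (σ i) := fun i x y => by
    simp only [σ, ← map_mul, ← Pi.mulSingle_mul, mul_def]; simp
  have h3 : ∀ i, Function.Injective (ψ i) := fun i x y e =>
    congrArg Prod.fst (Pi.mulSingle_injective i (hf e))
  have h4 : ∀ i a x, ψ i (Real.exp a * x) = σ i a * ψ i x * (σ i a)⁻¹ := fun i a x => by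
    rw [eq_mul_inv_iff_mul_eq]
    simp only [ψ, σ, ← map_mul, ← Pi.mulSingle_mul, mul_def]; simp
  choose e e1 e2 using fun i => nondisc (h1 i) (h3 i) hW'
  let Ψ : (Fin (N + 1) → ℤ) → S := fun j => f fun i => ((j i * e i, 0) : Ax)
  have h5 : Hom Ψ := fun x y => by
    simp only [Ψ, ← map_mul]
    congr 1
    funext i
    refine Eq.trans ?_ (mul_def (x i * e i, 0) (y i * e i, 0)).symm
    simp [add_mul]
  have h6 : ∀ i, Ψ (Pi.single i 1) = ψ i (e i) := fun i => by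
    simp only [Ψ, ψ]
    congr 1
    funext k
    by_cases hk : k = i
    · subst hk; simp
    · simp [hk, one_def]
  have h7 : ∀ i j, ψ i (j i * e i) * Ψ j = σ i (Real.log 2) * Ψ j * (σ i (Real.log 2))⁻¹ := by
    intro i j
    rw [eq_mul_inv_iff_mul_eq]
    simp only [Ψ, ψ, σ, ← map_mul]
    congr 1
    funext k
    by_cases hk : k = i
    · subst hk; simp [mul_def, Real.exp_log, two_mul]
    · simp [hk]
  have fin : {j | Ψ j ∈ W}.Finite := by
    refine (Finite.pi' fun i => axb (h1 i) (h3 i) (h2 i) (h4 i) (hW.image (f := fun k =>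
      σ i (Real.log 2) * k * (σ i (Real.log 2))⁻¹ * k⁻¹) (by fun_prop)) (e1 i)).subset ?_
    exact fun j hj i => ⟨_, hj, by simp only [← h7, mul_inv_cancel_right]⟩
  obtain ⟨F, hF, hF'⟩ := hN _ Ψ h5
  have key : ∀ i, ∃ k : ℤ, k ≠ 0 ∧ k • (Pi.single i (1 : ℤ) : Fin (N + 1) → ℤ) ∈ Submodule.span ℤ (F : Set _) := by
    intro i
    have : ∀ m : ℕ, ∃ w, Ψ w ∈ W ∧
        (m : ℤ) • (Pi.single i (1 : ℤ) : Fin (N + 1) → ℤ) - w ∈ Submodule.span ℤ (F : Set _) := by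
      intro m
      induction m with
      | zero => exact ⟨0, h5.zero ▸ mem_of_mem_nhds hW', by simp⟩
      | succ m ih =>
        obtain ⟨w, w1, w2⟩ := ih
        obtain ⟨g, g1, g2⟩ := hF' (w + Pi.single i 1) ⟨_, w1, _, h6 i ▸ e2 i, (h5 _ _).symm⟩
        refine ⟨_, g2, ?_⟩
        have := add_mem w2 (Submodule.subset_span g1)
        rwa [show ((m + 1 : ℕ) : ℤ) • (Pi.single i (1 : ℤ) : Fin (N + 1) → ℤ) - (w + Pi.single i 1 - g) =
          (m : ℤ) • (Pi.single i (1 : ℤ) : Fin (N + 1) → ℤ) - w + g by rw [Nat.cast_succ, add_smul, one_smul]; abel]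
    choose w w1 w2 using this
    obtain ⟨a, -, b, -, hab, e⟩ := infinite_univ.exists_ne_map_eq_of_mapsTo (f := w)
      (fun m _ => w1 m) fin
    refine ⟨a - b, by omega, ?_⟩
    simpa [e, sub_smul] using sub_mem (w2 a) (w2 b)
  choose k k1 k2 using key
  have li : LinearIndependent ℤ fun i => k i • (Pi.single i (1 : ℤ) : Fin (N + 1) → ℤ) := by
    refine Fintype.linearIndependent_iff.2 fun g hg i => ?_
    simpa [Pi.single_apply, k1 i] using congrFun hg i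
  have := linearIndependent_le_span' _ li (F : Set _) (by rintro _ ⟨i, rfl⟩; exact k2 i)
  simp at this
  norm_cast at this
  omega

end Pool.Agent.H77.AxB
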