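import Pool.Agent.H77.BpaDefs

namespace Pool.Agent.H77.Bpa

variable {L L' : Type}

theorem bisim_of (R : Tm L → Tm L → Prop) (hs : ∀ p q, R p q → R q p)
    (h : ∀ p q, R p q → ∀ a x, Step p a x → ∃ y, Step q a y ∧ Option.Rel R x y) {p q : Tm L}
    (hpq : R p q) : Bisim p q := by
  refine ⟨R, hs, hpq, fun p q r => ⟨fun a p' s => ?_, fun a s => ?_⟩⟩
  · obtain ⟨y, h1, h2⟩ := h p q r a _ s
    cases h2 with
    | some h2 => exact ⟨_, h1, h2⟩
  · obtain ⟨y, h1, h2⟩ := h p q r a _ s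
    cases h2
    exact h1

theorem Bisim.step {p q : Tm L} (h : Bisim p q) {a x} (s : Step p a x) :
    ∃ y, Step q a y ∧ Option.Rel Bisim x y := by
  obtain ⟨R, hs, hr, h⟩ := h
  cases x with
  | none => exact ⟨none, (h p q hr).2 a s, .none⟩
  | some p' =>
    obtain ⟨q', h1, h2⟩ := (h p q hr).1 a p' s
    exact ⟨some q', h1, .some ⟨R, hs, h2, h⟩⟩

theorem Bisim.symm {p q : Tm L} (h : Bisim p q) : Bisim q p := by
  obtain ⟨R, hs, hr, h⟩ := h
  exact ⟨R, hs, hs _ _ hr, h⟩

theorem rel_refl {R : Tm L → Tm L → Prop} (h : ∀ p, R p p) (x : Option (Tm L)) :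
    Option.Rel R x x := by
  cases x
  · exact .none
  · exact .some (h _)

theorem rel_mono {R S : Tm L → Tm L → Prop} (h : ∀ p q, R p q → S p q) {x y : Option (Tm L)}
    (r : Option.Rel R x y) : Option.Rel S x y := by
  cases r with
  | none => exact .none
  | some r => exact .some (h _ _ r)

theorem Bisim.refl (p : Tm L) : Bisim p p :=
  bisim_of Eq (fun _ _ => Eq.symm) (fun _ _ e _ x s => ⟨x, e ▸ s, rel_refl (fun _ => rfl) x⟩) rfl

theorem Bisim.trans {p q r : Tm L} (h : Bisim p q) (h' : Bisim q r) : Bisim p r := by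
  refine bisim_of (fun p r => ∃ q, Bisim p q ∧ Bisim q r)
    (fun _ _ ⟨q, a, b⟩ => ⟨q, b.symm, a.symm⟩) ?_ ⟨q, h, h'⟩
  rintro p r ⟨q, h, h'⟩ a x s
  obtain ⟨y, s1, r1⟩ := h.step s
  obtain ⟨z, s2, r2⟩ := h'.step s1
  refine ⟨z, s2, ?_⟩
  cases r1 with
  | none => cases r2; exact .none
  | some r1 =>
    cases r2 with
    | some r2 => exact .some ⟨_, r1, r2⟩

abbrev OB (x y : Option (Tm L)) : Prop := Option.Rel Bisim x y

theorem OB.refl (x : Option (Tm L)) : OB x x := rel_refl Bisim.refl x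

theorem OB.symm {x y : Option (Tm L)} (h : OB x y) : OB y x := by
  cases h with
  | none => exact .none
  | some h => exact .some h.symm

theorem OB.trans {x y z : Option (Tm L)} (h : OB x y) (h' : OB y z) : OB x z := by
  cases h with
  | none => exact h'
  | some h =>
    cases h' with
    | some h' => exact .some (h.trans h')

theorem bisim_upto (S : Tm L → Tm L → Prop) (hs : ∀ p q, S p q → S q p)
    (h : ∀ p q, S p q → ∀ a x, Step p a x → ∃ y, Step q a y ∧
      (OB x y ∨ ∃ u v, OB x (some u) ∧ S u v ∧ OB (some v) y)) {p q : Tm L} (hpq : S p q) :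
    Bisim p q := by
  refine bisim_of (fun p q => Bisim p q ∨ ∃ u v, Bisim p u ∧ S u v ∧ Bisim v q) ?_ ?_
    (Or.inr ⟨p, q, .refl _, hpq, .refl _⟩)
  · rintro p q (h | ⟨u, v, a, b, c⟩)
    · exact Or.inl h.symm
    · exact Or.inr ⟨v, u, c.symm, hs _ _ b, a.symm⟩
  · rintro p q (h' | ⟨u, v, a, b, c⟩) l x s
    · obtain ⟨y, s1, r⟩ := h'.step s
      exact ⟨y, s1, rel_mono (fun _ _ => Or.inl) r⟩
    · obtain ⟨x1, s1, r1⟩ := a.step s
      obtain ⟨x2, s2, r2⟩ := h _ _ b _ _ s1
      obtain ⟨x3, s3, r3⟩ := c.step s2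
      refine ⟨x3, s3, ?_⟩
      rcases r2 with r2 | ⟨u', v', a', b', c'⟩
      · exact rel_mono (fun _ _ => Or.inl) ((OB.trans r1 r2).trans r3)
      · have e1 := OB.trans r1 a'
        have e2 := c'.trans r3
        cases e1 with
        | some e1 =>
          cases e2 with
          | some e2 => exact .some (Or.inr ⟨_, _, e1, b', e2⟩)

theorem step_mul {p q : Tm L} {a y} (s : Step (.mul p q) a y) :
    ∃ x, Step p a x ∧ y = some (seq x q) := by
  cases s with
  | mul s => exact ⟨_, s, rfl⟩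

theorem seq_congr {x y : Option (Tm L)} {q r : Tm L} (h : OB x y) (h' : Bisim q r) :
    Bisim (seq x q) (seq y r) := by
  cases h with
  | none => exact h'
  | some h =>
    refine bisim_upto (fun u v => ∃ p p' q q', Bisim p p' ∧ Bisim q q' ∧ u = .mul p q ∧
      v = .mul p' q') ?_ ?_ ⟨_, _, _, _, h, h', rfl, rfl⟩
    · rintro _ _ ⟨p, p', q, q', a, b, rfl, rfl⟩
      exact ⟨p', p, q', q, a.symm, b.symm, rfl, rfl⟩
    · rintro _ _ ⟨p, p', q, q', a, b, rfl, rfl⟩ l z s
      obtain ⟨x, s', rfl⟩ := step_mul s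
      obtain ⟨y, s1, r⟩ := a.step s'
      refine ⟨_, s1.mul, ?_⟩
      cases r with
      | none => exact Or.inl (.some b)
      | some r => exact Or.inr ⟨_, _, .refl _, ⟨_, _, _, _, r, b, rfl, rfl⟩, .refl _⟩

theorem seq_assoc (x : Option (Tm L)) (q r : Tm L) :
    Bisim (.mul (seq x q) r) (seq x (.mul q r)) := by
  cases x with
  | none => exact .refl _
  | some p =>
    refine bisim_upto (fun u v => ∃ p, (u = .mul (.mul p q) r ∧ v = .mul p (.mul q r)) ∨
      (v = .mul (.mul p q) r ∧ u = .mul p (.mul q r))) ?_ ?_ ⟨p, Or.inl ⟨rfl, rfl⟩⟩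
    · rintro _ _ ⟨p, h⟩
      exact ⟨p, h.symm⟩
    · rintro _ _ ⟨p, ⟨rfl, rfl⟩ | ⟨rfl, rfl⟩⟩ l z s
      · obtain ⟨_, s1, rfl⟩ := step_mul s
        obtain ⟨x, s2, rfl⟩ := step_mul s1
        refine ⟨_, s2.mul, ?_⟩
        cases x with
        | none => exact Or.inl (.refl _)
        | some p => exact Or.inr ⟨_, _, .refl _, ⟨p, Or.inl ⟨rfl, rfl⟩⟩, .refl _⟩
      · obtain ⟨x, s1, rfl⟩ := step_mul s
        refine ⟨_, s1.mul.mul, ?_⟩
        cases x with
        | none => exact Or.inl (.refl _)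
        | some p => exact Or.inr ⟨_, _, .refl _, ⟨p, Or.inr ⟨rfl, rfl⟩⟩, .refl _⟩

def sq (x : Option (Tm L)) : Option (Tm L) → Option (Tm L)
  | none => x
  | some q => some (seq x q)

theorem key (f : L → Tm L') {x y : Option (Tm L')} {p : Option (Tm L)} (q : Tm L)
    (h : OB x (sq y (p.map (Tm.bind f)))) :
    OB (some (seq x (q.bind f))) (sq y ((some (seq p q)).map (Tm.bind f))) := by
  cases p with
  | none => exact .some (seq_congr h (.refl _))
  | some p => exact .some ((seq_congr h (.refl _)).trans (seq_assoc _ _ _))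

theorem bind_fwd (f : L → Tm L') (s : Tm L) {a z} (h : Step (s.bind f) a z) :
    ∃ l s' y, Step s l s' ∧ Step (f l) a y ∧ OB z (sq y (s'.map (Tm.bind f))) := by
  induction s generalizing z with
  | act l => exact ⟨l, none, z, .act l, h, .refl _⟩
  | dl => cases h
  | add p q hp hq =>
    cases h with
    | addl h =>
      obtain ⟨l, s', y, a, b⟩ := hp h
      exact ⟨l, s', y, a.addl, b⟩
    | addr h =>
      obtain ⟨l, s', y, a, b⟩ := hq h
      exact ⟨l, s', y, a.addr, b⟩
  | mul p q hp hq =>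
    obtain ⟨x, h1, rfl⟩ := step_mul h
    obtain ⟨l, s', y, a, b, c⟩ := hp h1
    exact ⟨l, _, y, a.mul, b, key f q c⟩
  | star p q hp hq =>
    cases h with
    | starl h =>
      obtain ⟨l, s', y, a, b, c⟩ := hp h
      exact ⟨l, _, y, a.starl, b, key f (.star p q) c⟩
    | starr h =>
      obtain ⟨l, s', y, a, b⟩ := hq h
      exact ⟨l, s', y, a.starr, b⟩

theorem bind_bwd (f : L → Tm L') {s : Tm L} {l s'} (h : Step s l s') {a y} (h' : Step (f l) a y) :
    ∃ z, Step (s.bind f) a z ∧ OB z (sq y (s'.map (Tm.bind f))) := by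
  induction h with
  | act l => exact ⟨y, h', .refl _⟩
  | addl _ ih =>
    obtain ⟨z, a, b⟩ := ih h'
    exact ⟨z, a.addl, b⟩
  | addr _ ih =>
    obtain ⟨z, a, b⟩ := ih h'
    exact ⟨z, a.addr, b⟩
  | mul _ ih =>
    obtain ⟨z, a, b⟩ := ih h'
    exact ⟨_, a.mul, key f _ b⟩
  | @starl p q _ _ _ ih =>
    obtain ⟨z, a, b⟩ := ih h'
    exact ⟨_, a.starl, key f (.star p q) b⟩
  | starr _ ih =>
    obtain ⟨z, a, b⟩ := ih h'
    exact ⟨z, a.starr, b⟩

theorem Bisim.bind (f : L → Tm L') {s t : Tm L} (h : Bisim s t) : Bisim (s.bind f) (t.bind f) := by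
  refine bisim_upto (fun u v => ∃ y s t, Bisim s t ∧ u = seq y (s.bind f) ∧ v = seq y (t.bind f))
    ?_ ?_ ⟨none, s, t, h, rfl, rfl⟩
  · rintro _ _ ⟨y, s, t, h, rfl, rfl⟩
    exact ⟨y, t, s, h.symm, rfl, rfl⟩
  · rintro _ _ ⟨_ | p, s, t, h, rfl, rfl⟩ a z st
    · obtain ⟨l, s', y, h1, h2, h3⟩ := bind_fwd f s st
      obtain ⟨t', h4, r⟩ := h.step h1
      obtain ⟨z', h5, h6⟩ := bind_bwd f h4 h2
      refine ⟨z', h5, ?_⟩
      cases r with
      | none => exact Or.inl (h3.trans h6.symm)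
      | some r => exact Or.inr ⟨_, _, h3, ⟨y, _, _, r, rfl, rfl⟩, h6.symm⟩
    · obtain ⟨x, st', rfl⟩ := step_mul st
      exact ⟨_, st'.mul, Or.inr ⟨_, _, .refl _, ⟨x, s, t, h, rfl, rfl⟩, .refl _⟩⟩

def DS : Tm L → Set (Tm L)
  | .act a => {.act a}
  | .dl => {.dl}
  | .add p q => insert (.add p q) (DS p ∪ DS q)
  | .mul p q => (fun u => u.mul q) '' DS p ∪ DS q
  | .star p q => insert (.star p q) ((fun u => u.mul (.star p q)) '' DS p ∪ DS q)

theorem DS_fin (t : Tm L) : (DS t).Finite := by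
  induction t with
  | act => exact Set.finite_singleton _
  | dl => exact Set.finite_singleton _
  | add p q hp hq => exact (hp.union hq).insert _
  | mul p q hp hq => exact (hp.image _).union hq
  | star p q hp hq => exact ((hp.image _).union hq).insert _

theorem DS_self (t : Tm L) : t ∈ DS t := by
  induction t with
  | mul p q hp hq => exact Or.inl ⟨p, hp, rfl⟩
  | _ => simp [DS]

theorem DS_step (t : Tm L) {u v : Tm L} {l} (hu : u ∈ DS t) (s : Step u l (some v)) : v ∈ DS t := by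
  induction t generalizing u v with
  | act a => obtain rfl : u = _ := hu; cases s
  | dl => obtain rfl : u = _ := hu; cases s
  | add p q hp hq =>
    rcases hu with rfl | hu | hu
    · cases s with
      | addl s => exact Or.inr (Or.inl (hp (DS_self _) s))
      | addr s => exact Or.inr (Or.inr (hq (DS_self _) s))
    · exact Or.inr (Or.inl (hp hu s))
    · exact Or.inr (Or.inr (hq hu s))
  | mul p q hp hq =>
    rcases hu with ⟨u, hu, rfl⟩ | hu
    · obtain ⟨_ | x, s', e⟩ := step_mul s <;> rw [Option.some.inj e]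
      · exact Or.inr (DS_self _)
      · exact Or.inl ⟨x, hp hu s', rfl⟩
    · exact Or.inr (hq hu s)
  | star p q hp hq =>
    have : ∀ u ∈ DS p, ∀ x, Step u l x → seq x (.star p q) ∈ DS (.star p q) := by
      rintro u hu (_ | x) s
      · exact Or.inl rfl
      · exact Or.inr (Or.inl ⟨x, hp hu s, rfl⟩)
    rcases hu with rfl | ⟨u, hu, rfl⟩ | hu
    · cases s with
      | starl s => exact this _ (DS_self _) _ s
      | starr s => exact Or.inr (Or.inr (hq (DS_self _) s))
    · obtain ⟨x, s', e⟩ := step_mul s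
      rw [Option.some.inj e]
      exact this _ hu _ s'
    · exact Or.inr (Or.inr (hq hu s))

end Pool.Agent.H77.Bpa
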