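import Pool.Agent.H77.BpaA

namespace Pool.Agent.H77.Bpa

variable {A : Type} (a : A) (N : ℕ)

def Ch : ℕ → Tm A
  | 0 => .dl
  | k + 1 => .mul (.act a) (Ch k)

variable {a}

theorem step_Ch {k b x} (s : Step (Ch a k) b x) : ∃ j, k = j + 1 ∧ x = some (Ch a j) := by
  cases k with
  | zero => cases s
  | succ k =>
    obtain ⟨y, s', rfl⟩ := step_mul s
    cases s'
    exact ⟨k, rfl, rfl⟩

theorem Ch_step (k : ℕ) : Step (Ch a (k + 1)) a (some (Ch a k)) := (Step.act a).mul

theorem OB.of_some {L : Type} {p q : Tm L} (h : OB (some p) (some q)) : Bisim p q := by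
  cases h with
  | some h => exact h

theorem Ch_inj {j k : ℕ} (h : Bisim (Ch a j) (Ch a k)) : j = k := by
  induction j generalizing k with
  | zero =>
    cases k with
    | zero => rfl
    | succ k =>
      obtain ⟨y, s, -⟩ := h.symm.step (Ch_step k)
      cases s
  | succ j ih =>
    obtain ⟨y, s, r⟩ := h.step (Ch_step j)
    obtain ⟨k, rfl, rfl⟩ := step_Ch s
    rw [ih (OB.of_some r)]

theorem Ch_abs (k : ℕ) (r : Tm A) : Bisim (.mul (Ch a k) r) (Ch a k) := by
  refine bisim_of (fun u v => ∃ k, (u = .mul (Ch a k) r ∧ v = Ch a k) ∨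
    (v = .mul (Ch a k) r ∧ u = Ch a k)) (fun _ _ ⟨k, h⟩ => ⟨k, h.symm⟩) ?_ ⟨k, Or.inl ⟨rfl, rfl⟩⟩
  rintro _ _ ⟨k, ⟨rfl, rfl⟩ | ⟨rfl, rfl⟩⟩ b x s
  · obtain ⟨y, s', rfl⟩ := step_mul s
    obtain ⟨j, rfl, rfl⟩ := step_Ch s'
    exact ⟨_, s', .some ⟨j, Or.inl ⟨rfl, rfl⟩⟩⟩
  · obtain ⟨j, rfl, rfl⟩ := step_Ch s
    exact ⟨_, s.mul, .some ⟨j, Or.inr ⟨rfl, rfl⟩⟩⟩

variable (a)

def Md (i : ℕ) : Tm A := .add (.act a) (Ch a (N + i + 1))

def gad (i : ℕ) : Tm A := .mul (.act a) (Md a N i)

def mid (i : ℕ) : Option (Tm A) → Tm A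
  | none => Md a N i
  | some r => .mul (Md a N i) r

abbrev hat : Tm (A ⊕ ℕ) → Tm A := Tm.bind (Sum.elim .act (gad a N))

variable {a N}

theorem sq_Md (i : ℕ) (r : Option (Tm A)) : sq (some (Md a N i)) r = some (mid a N i r) := by
  cases r <;> rfl

theorem sq_none {L : Type} (r : Option (Tm L)) : sq none r = r := by cases r <;> rfl

theorem step_mid {i r b z} (s : Step (mid a N i r) b z) : z = r ∨ OB z (some (Ch a (N + i))) := by
  have h : ∀ y, Step (Md a N i) b y → y = none ∨ y = some (Ch a (N + i)) := by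
    intro y s
    cases s with
    | addl s => cases s; exact Or.inl rfl
    | addr s =>
      obtain ⟨j, e, rfl⟩ := step_Ch s
      rw [Nat.succ_injective e]
      exact Or.inr rfl
  cases r with
  | none => exact (h z s).imp id fun e => by rw [e]; exact .refl _
  | some r =>
    obtain ⟨y, s', rfl⟩ := step_mul s
    rcases h y s' with rfl | rfl
    · exact Or.inl rfl
    · exact Or.inr (.some (Ch_abs _ _))

theorem mid_step (i : ℕ) (r : Option (Tm A)) : Step (mid a N i r) a r := by
  cases r with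
  | none => exact (Step.act a).addl
  | some r => exact (Step.act a).addl.mul

theorem mid_step' (i : ℕ) (r : Option (Tm A)) :
    ∃ z, Step (mid a N i r) a z ∧ OB z (some (Ch a (N + i))) := by
  cases r with
  | none => exact ⟨_, (Ch_step _).addr, .refl _⟩
  | some r => exact ⟨_, (Ch_step _).addr.mul, .some (Ch_abs _ _)⟩

theorem hat_fwd {s b z} (h : Step (hat a N s) b z) :
    (∃ s', Step s (.inl b) s' ∧ OB z (s'.map (hat a N))) ∨
      ∃ i s', Step s (.inr i) s' ∧ OB z (some (mid a N i (s'.map (hat a N)))) := by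
  obtain ⟨c | i, s', y, h1, h2, h3⟩ := bind_fwd _ _ h
  · cases h2
    rw [sq_none] at h3
    exact Or.inl ⟨s', h1, h3⟩
  · obtain ⟨w, h4, rfl⟩ := step_mul h2
    cases h4
    exact Or.inr ⟨i, s', h1, sq_Md i _ ▸ h3⟩

theorem valid_bisim [Nonempty A] {t u : Tm (A ⊕ ℕ)} (hv : Valid t u) : Bisim t u := by
  obtain ⟨a⟩ := ‹Nonempty A›
  let D := DS t ∪ DS u
  have : Finite D := ((DS_fin t).union (DS_fin u)).to_subtype
  have hD : ∀ {s v l}, s ∈ D → Step s l (some v) → v ∈ D := fun h s =>
    h.imp (fun h => DS_step _ h s) fun h => DS_step _ h s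
  let m := Nat.card D
  let N := m + 3
  let f : ℕ → Prop := fun k => ∃ s ∈ D, Bisim (hat a N s) (Ch a k)
  have f0 : ∀ {s l s' k}, s ∈ D → Step s l s' → OB (s'.map (hat a N)) (some (Ch a k)) → f k := by
    rintro s l (_ | s') k hs st h
    · cases h
    · exact ⟨s', hD hs st, h.of_some⟩
  have mC : ∀ {s l s' i k}, s ∈ D → Step s l s' → Bisim (mid a N i (s'.map (hat a N))) (Ch a k) →
      ∃ j, k = j + 1 ∧ N ≤ j ∧ f j := by
    intro s l s' i k hs st h
    obtain ⟨z, s1, r1⟩ := mid_step' (a := a) (N := N) i (s'.map (hat a N))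
    obtain ⟨_, s2, r2⟩ := h.step s1
    obtain ⟨j, rfl, rfl⟩ := step_Ch s2
    obtain ⟨_, s3, r3⟩ := h.step (mid_step _ _)
    obtain ⟨j', e, rfl⟩ := step_Ch s3
    obtain rfl : j = j' := by omega
    have := Ch_inj (r1.symm.trans r2).of_some
    exact ⟨j, rfl, by omega, f0 hs st r3⟩
  have down : ∀ k, f (k + 1) → f k ∨ ∃ j, k = j + 1 ∧ N ≤ j ∧ f j := by
    rintro k ⟨s, hs, h⟩
    obtain ⟨z, s1, r⟩ := h.symm.step (Ch_step k)
    rcases hat_fwd s1 with ⟨s', st, r'⟩ | ⟨i, s', st, r'⟩
    · exact Or.inl (f0 hs st (OB.trans r r').symm)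
    · exact Or.inr (mC hs st (OB.trans r r').symm.of_some)
  have nf : ∀ k, m ≤ k → ¬ f k := by
    have h1 : ∀ k, m ≤ k → f k → f m := by
      intro k
      induction k using Nat.strong_induction_on with
      | _ k ih =>
        intro hk h
        rcases hk.eq_or_lt with rfl | hk
        · exact h
        · obtain ⟨k, rfl⟩ : ∃ j, k = j + 1 := ⟨k - 1, by omega⟩
          rcases down k h with h | ⟨j, rfl, hj, h⟩
          · exact ih k (by omega) (by omega) h
          · exact ih j (by omega) (by omega) h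
    intro k hk h
    have h2 : ∀ d j, j + d = m → f j := by
      intro d
      induction d with
      | zero => rintro j rfl; exact h1 k hk h
      | succ d ih =>
        intro j hj
        rcases down j (ih (j + 1) (by omega)) with h | ⟨i, rfl, hi, -⟩
        · exact h
        · omega
    choose g hg hg' using fun j : Fin (m + 1) => h2 (m - j) j (by omega)
    have : Nat.card (Fin (m + 1)) ≤ m :=
      Nat.card_le_card_of_injective (fun j => (⟨g j, hg j⟩ : D)) fun j j' e => by
        have e' : g j = g j' := Subtype.ext_iff.1 e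
        exact Fin.ext (Ch_inj ((hg' j).symm.trans (by rw [e']; exact hg' j')))
    simp only [Nat.card_fin] at this
    omega
  have nm : ∀ {s i r}, s ∈ D → ¬ Bisim (hat a N s) (mid a N i r) := by
    intro s i r hs h
    obtain ⟨z, s1, r1⟩ := mid_step' (a := a) (N := N) i r
    obtain ⟨z', s2, r2⟩ := h.symm.step s1
    have r3 := (OB.symm r2).trans r1
    rcases hat_fwd s2 with ⟨s', st, r'⟩ | ⟨i', s', st, r'⟩
    · exact nf _ (by omega) (f0 hs st (r'.symm.trans r3))
    · obtain ⟨j, -, hj, h⟩ := mC hs st (r'.symm.trans r3).of_some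
      exact nf _ (by omega) h
  have lift : ∀ {s s' l l' x y}, s ∈ D → s' ∈ D → Step s l x → Step s' l' y →
      OB (x.map (hat a N)) (y.map (hat a N)) →
      Option.Rel (fun s s' => s ∈ D ∧ s' ∈ D ∧ Bisim (hat a N s) (hat a N s')) x y := by
    rintro s s' l l' (_ | x) (_ | y) hs hs' st st' h
    · exact .none
    · cases h
    · cases h
    · exact .some ⟨hD hs st, hD hs' st', h.of_some⟩
  refine bisim_of (fun s s' => s ∈ D ∧ s' ∈ D ∧ Bisim (hat a N s) (hat a N s'))
    (fun _ _ h => ⟨h.2.1, h.1, h.2.2.symm⟩) ?_ ⟨Or.inl (DS_self _), Or.inr (DS_self _), hv _⟩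
  rintro s s' ⟨hs, hs', h⟩ (b | i) x st
  · obtain ⟨z, s1, r1⟩ := bind_bwd (Sum.elim .act (gad a N)) st (Step.act b)
    rw [sq_none] at r1
    obtain ⟨z', s2, r2⟩ := h.step s1
    have r3 := r1.symm.trans r2
    rcases hat_fwd s2 with ⟨y, st', r'⟩ | ⟨i', y, st', r'⟩
    · exact ⟨y, st', lift hs hs' st st' (r3.trans r')⟩
    · cases x with
      | none => cases r3.trans r'
      | some x => exact absurd (r3.trans r').of_some (nm (hD hs st))
  · obtain ⟨z, s1, r1⟩ := bind_bwd (Sum.elim .act (gad a N)) st (Step.act a).mul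
    rw [show seq none (Md a N i) = Md a N i from rfl, sq_Md] at r1
    obtain ⟨z', s2, r2⟩ := h.step s1
    have r3 := r1.symm.trans r2
    rcases hat_fwd s2 with ⟨y, st', r'⟩ | ⟨i', y, st', r'⟩
    · cases y with
      | none => cases r3.trans r'
      | some y => exact absurd (r3.trans r').of_some.symm (nm (hD hs' st'))
    · have hm := (r3.trans r').of_some
      obtain ⟨w, s4, r4⟩ := mid_step' (a := a) (N := N) i (x.map (hat a N))
      obtain ⟨w', s5, r5⟩ := hm.step s4
      obtain rfl : i = i' := by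
        rcases step_mid s5 with rfl | r6
        · exact absurd (f0 hs' st' ((OB.symm r5).trans r4)) (nf _ (by omega))
        · have := Ch_inj ((r4.symm.trans r5).trans r6).of_some
          omega
      obtain ⟨v, s6, r6⟩ := hm.step (mid_step _ _)
      rcases step_mid s6 with rfl | r7
      · exact ⟨y, st', lift hs hs' st st' r6⟩
      · exact absurd (f0 hs st (OB.trans r6 r7)) (nf _ (by omega))

end Pool.Agent.H77.Bpa
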