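import Pool.Agent.H77.BpaB

namespace Pool.Agent.H77.Bpa

open Pointwise

variable {L L' : Type}

inductive Pa : Option (Tm L) → List L → Option (Tm L) → Prop
  | nil (x) : Pa x [] x
  | cons {p l y w x} : Step p l y → Pa y w x → Pa (some p) (l :: w) x

theorem Pa.append {x y z : Option (Tm L)} {w w'} (h : Pa x w y) (h' : Pa y w' z) :
    Pa x (w ++ w') z := by
  induction h with
  | nil => exact h'
  | cons s _ ih => exact .cons s (ih h')

theorem Pa.lift (q : Tm L) {y y' : Option (Tm L)} {w} (h : Pa y w y') :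
    Pa (some (seq y q)) w (some (seq y' q)) := by
  induction h with
  | nil => exact .nil _
  | cons s _ ih => exact .cons s.mul ih

theorem pa_seq {q : Tm L} {y x : Option (Tm L)} {w} (h : Pa (some (seq y q)) w x) :
    (∃ p', Pa y w (some p') ∧ x = some (.mul p' q)) ∨
      ∃ w1 w2, w = w1 ++ w2 ∧ Pa y w1 none ∧ Pa (some q) w2 x := by
  induction w generalizing y with
  | nil =>
    cases h
    cases y with
    | none => exact Or.inr ⟨[], [], rfl, .nil _, .nil _⟩
    | some p => exact Or.inl ⟨p, .nil _, rfl⟩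
  | cons l w ih =>
    cases y with
    | none => exact Or.inr ⟨[], _, rfl, .nil _, h⟩
    | some p =>
      cases h with
      | cons s h =>
        obtain ⟨y', s', rfl⟩ := step_mul s
        rcases ih h with ⟨p', a, b⟩ | ⟨w1, w2, rfl, a, b⟩
        · exact Or.inl ⟨p', .cons s' a, b⟩
        · exact Or.inr ⟨l :: w1, w2, rfl, .cons s' a, b⟩

theorem Pa.bisim {x y x' : Option (Tm L)} {w} (h : Pa x w x') (r : OB x y) :
    ∃ y', Pa y w y' ∧ OB x' y' := by
  induction h generalizing y with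
  | nil => exact ⟨y, .nil _, r⟩
  | cons s _ ih =>
    cases r with
    | some r =>
      obtain ⟨z, s', r'⟩ := r.step s
      obtain ⟨y', a, b⟩ := ih r'
      exact ⟨y', .cons s' a, b⟩

theorem Pa.ds {t : Tm L} {x x' : Option (Tm L)} {w} (h : Pa x w x') (hu : ∀ u, x = some u → u ∈ DS t) :
    ∀ u, x' = some u → u ∈ DS t := by
  induction h with
  | nil => exact hu
  | cons s _ ih => exact ih fun u e => DS_step t (hu _ rfl) (e ▸ s)

theorem Pa.first {p q : Tm L} (h : ∀ l y, Step p l y → Step q l y) {w x} (hw : w ≠ [])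
    (a : Pa (some p) w x) : Pa (some q) w x := by
  cases a with
  | nil => exact absurd rfl hw
  | cons s a => exact .cons (h _ _ s) a

theorem pa_add {p q : Tm L} {w x} (hw : w ≠ []) (a : Pa (some (.add p q)) w x) :
    Pa (some p) w x ∨ Pa (some q) w x := by
  cases a with
  | nil => exact absurd rfl hw
  | cons s a =>
    cases s with
    | addl s => exact Or.inl (.cons s a)
    | addr s => exact Or.inr (.cons s a)

theorem Pa.ne {p : Tm L} {w} (h : Pa (some p) w none) : w ≠ [] := by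
  rintro rfl; cases h

theorem Pa.starl {p : Tm L} (q : Tm L) {w y} (hw : w ≠ []) (a : Pa (some p) w y) :
    Pa (some (.star p q)) w (some (seq y (.star p q))) := by
  cases a with
  | nil => exact absurd rfl hw
  | cons s a => exact .cons s.starl (a.lift _)

theorem pa_star {p q : Tm L} (Q : List L → Prop) (h0 : Q [])
    (h1 : ∀ w1 w2, Pa (some p) w1 none → Q w2 → Q (w1 ++ w2)) {w x}
    (h : Pa (some (.star p q)) w x) : ∃ w1 w2, w = w1 ++ w2 ∧ Q w1 ∧
      ((w2 = [] ∧ x = some (.star p q)) ∨ (∃ p', Pa (some p) w2 (some p') ∧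
        x = some (.mul p' (.star p q))) ∨ (w2 ≠ [] ∧ Pa (some q) w2 x)) := by
  induction hn : w.length using Nat.strong_induction_on generalizing w with
  | _ n ih =>
    cases h with
    | nil => exact ⟨[], [], rfl, h0, Or.inl ⟨rfl, rfl⟩⟩
    | @cons _ l _ w _ s h =>
      cases s with
      | starr s => exact ⟨[], _, rfl, h0, Or.inr (Or.inr ⟨by simp, .cons s h⟩)⟩
      | starl s =>
        rcases pa_seq h with ⟨p', a, b⟩ | ⟨w1, w2, rfl, a, b⟩
        · exact ⟨[], _, rfl, h0, Or.inr (Or.inl ⟨p', .cons s a, b⟩)⟩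
        · obtain ⟨w3, w4, rfl, c, d⟩ := ih w2.length (by simp at hn; omega) b rfl
          exact ⟨(l :: w1) ++ w3, w4, by simp, h1 _ _ (.cons s a) c, d⟩

variable {G : Type} [Group G] (N : Subgroup G)

def ev (m : L → Set G × Prop × Prop) : Tm L → Set G × Prop × Prop
  | .act l => m l
  | .dl => (∅, False, False)
  | .add p q => ((ev m p).1 ∪ (ev m q).1, (ev m p).2.1 ∨ (ev m q).2.1, (ev m p).2.2 ∨ (ev m q).2.2)
  | .mul p q => ((ev m p).1 * (ev m q).1, (ev m p).2.1 ∧ (ev m q).2.1,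
      (ev m p).2.2 ∨ ((ev m p).2.1 ∧ (ev m q).2.2))
  | .star p q => ((Submonoid.closure (ev m p).1 : Set G) * (ev m q).1, (ev m q).2.1,
      (ev m p).2.2 ∨ (ev m q).2.2 ∨ N ≤ Subgroup.closure (ev m p).1)

theorem ev_bind (m : L' → Set G × Prop × Prop) (f : L → Tm L') (t : Tm L) :
    ev N m (t.bind f) = ev N (fun l => ev N m (f l)) t := by
  induction t <;> simp [ev, Tm.bind, *]

def Ok (m : L → Set G × Prop × Prop) : Prop := ∀ l, (m l).1.Nonempty → (m l).2.1

theorem ok_ev {m : L → Set G × Prop × Prop} (h : Ok m) : Ok (ev N m) := by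
  intro t
  induction t with
  | act l => exact h l
  | dl => simp [ev]
  | add p q hp hq => exact fun e => (Set.union_nonempty.1 e).imp hp hq
  | mul p q hp hq => exact fun e => ⟨hp e.of_mul_left, hq e.of_mul_right⟩
  | star p q hp hq => exact fun e => hq e.of_mul_right

variable (m : L → Set G × Prop × Prop)

def Im (w : List L) : Set G := (w.map fun l => (m l).1).prod

def Al (w : List L) : Prop := ∀ l ∈ w, (m l).2.1

theorem Im_nil : Im m [] = 1 := rfl

theorem Im_append (w w' : List L) : Im m (w ++ w') = Im m w * Im m w' := by simp [Im]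

theorem Al_append {w w' : List L} : Al m (w ++ w') ↔ Al m w ∧ Al m w' := by
  simp [Al, or_imp, forall_and]

theorem Al_nil : Al m [] := by simp [Al]

variable {m}

theorem Ok.al (h : Ok m) {w : List L} {g} (hg : g ∈ Im m w) : Al m w := by
  induction w generalizing g with
  | nil => exact Al_nil m
  | cons l w ih =>
    obtain ⟨a, ha, b, hb, -⟩ : g ∈ (m l).1 * Im m w := by simpa [Im] using hg
    exact (Al_append m (w := [l])).2 ⟨by simpa [Al] using h l ⟨a, ha⟩, ih hb⟩

theorem pa_act {l : L} {w x} (h : Pa (some (.act l)) w x) :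
    (w = [] ∧ x = some (.act l)) ∨ (w = [l] ∧ x = none) := by
  cases h with
  | nil => exact Or.inl ⟨rfl, rfl⟩
  | cons s h =>
    cases s
    cases h
    exact Or.inr ⟨rfl, rfl⟩

theorem pa_dl {w} {x : Option (Tm L)} (h : Pa (some .dl) w x) : w = [] ∧ x = some .dl := by
  cases h with
  | nil => exact ⟨rfl, rfl⟩
  | cons s h => cases s

theorem tr_iff (t : Tm L) (g : G) : g ∈ (ev N m t).1 ↔ ∃ w, Pa (some t) w none ∧ g ∈ Im m w := by
  induction t generalizing g with
  | act l =>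
    refine ⟨fun h => ⟨[l], .cons (.act l) (.nil _), by simpa [Im, ev] using h⟩, ?_⟩
    rintro ⟨w, a, b⟩
    rcases pa_act a with ⟨-, e⟩ | ⟨rfl, -⟩
    · cases e
    · simpa [Im, ev] using b
  | dl => exact ⟨False.elim, fun ⟨w, a, _⟩ => by cases (pa_dl a).2⟩
  | add p q hp hq =>
    constructor
    · rintro (h | h)
      · obtain ⟨w, a, b⟩ := (hp g).1 h
        exact ⟨w, a.first (fun _ _ => .addl) a.ne, b⟩
      · obtain ⟨w, a, b⟩ := (hq g).1 h
        exact ⟨w, a.first (fun _ _ => .addr) a.ne, b⟩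
    · rintro ⟨w, a, b⟩
      exact (pa_add a.ne a).imp (fun a => (hp g).2 ⟨w, a, b⟩) fun a => (hq g).2 ⟨w, a, b⟩
  | mul p q hp hq =>
    constructor
    · rintro ⟨g1, h1, g2, h2, rfl⟩
      obtain ⟨w, a, b⟩ := (hp _).1 h1
      obtain ⟨w', a', b'⟩ := (hq _).1 h2
      exact ⟨w ++ w', (a.lift q).append a', Im_append m _ _ ▸ Set.mul_mem_mul b b'⟩
    · rintro ⟨w, a, b⟩
      rcases pa_seq (y := some p) a with ⟨_, -, e⟩ | ⟨w1, w2, rfl, a1, a2⟩
      · cases e
      · rw [Im_append] at b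
        obtain ⟨g1, h1, g2, h2, rfl⟩ := b
        exact Set.mul_mem_mul ((hp _).2 ⟨_, a1, h1⟩) ((hq _).2 ⟨_, a2, h2⟩)
  | star p q hp hq =>
    constructor
    · rintro ⟨g1, h1, g2, h2, rfl⟩
      obtain ⟨w', a', b'⟩ := (hq _).1 h2
      obtain ⟨w, a, b⟩ : ∃ w, Pa (some (.star p q)) w (some (.star p q)) ∧ g1 ∈ Im m w := by
        induction h1 using Submonoid.closure_induction with
        | mem g h =>
          obtain ⟨w, a, b⟩ := (hp _).1 h
          exact ⟨w, a.starl q a.ne, b⟩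
        | one => exact ⟨[], .nil _, rfl⟩
        | mul _ _ _ _ h h' =>
          obtain ⟨w, a, b⟩ := h
          obtain ⟨w', a', b'⟩ := h'
          exact ⟨w ++ w', a.append a', Im_append m _ _ ▸ Set.mul_mem_mul b b'⟩
      exact ⟨w ++ w', a.append (a'.first (fun _ _ => .starr) a'.ne),
        Im_append m _ _ ▸ Set.mul_mem_mul b b'⟩
    · rintro ⟨w, a, b⟩
      obtain ⟨w1, w2, rfl, c, d⟩ := pa_star (fun w => Im m w ⊆ Submonoid.closure (ev N m p).1)
        (fun g h => h ▸ one_mem _) (fun w1 w2 a h => by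
          rw [Im_append]
          rintro _ ⟨g1, h1, g2, h2, rfl⟩
          exact mul_mem (Submonoid.subset_closure ((hp _).2 ⟨_, a, h1⟩)) (h h2)) a
      rw [Im_append] at b
      obtain ⟨g1, h1, g2, h2, rfl⟩ := b
      rcases d with ⟨-, e⟩ | ⟨_, -, e⟩ | ⟨-, d⟩
      · cases e
      · cases e
      · exact Set.mul_mem_mul (c h1) ((hq _).2 ⟨_, d, h2⟩)

theorem te_iff (t : Tm L) : (ev N m t).2.1 ↔ ∃ w, Pa (some t) w none ∧ Al m w := by
  induction t with
  | act l =>
    refine ⟨fun h => ⟨[l], .cons (.act l) (.nil _), by simpa [Al, ev] using h⟩, ?_⟩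
    rintro ⟨w, a, b⟩
    rcases pa_act a with ⟨-, e⟩ | ⟨rfl, -⟩
    · cases e
    · simpa [Al, ev] using b
  | dl => exact ⟨False.elim, fun ⟨w, a, _⟩ => by cases (pa_dl a).2⟩
  | add p q hp hq =>
    constructor
    · rintro (h | h)
      · obtain ⟨w, a, b⟩ := hp.1 h
        exact ⟨w, a.first (fun _ _ => .addl) a.ne, b⟩
      · obtain ⟨w, a, b⟩ := hq.1 h
        exact ⟨w, a.first (fun _ _ => .addr) a.ne, b⟩
    · rintro ⟨w, a, b⟩
      exact (pa_add a.ne a).imp (fun a => hp.2 ⟨w, a, b⟩) fun a => hq.2 ⟨w, a, b⟩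
  | mul p q hp hq =>
    constructor
    · rintro ⟨h1, h2⟩
      obtain ⟨w, a, b⟩ := hp.1 h1
      obtain ⟨w', a', b'⟩ := hq.1 h2
      exact ⟨w ++ w', (a.lift q).append a', (Al_append m).2 ⟨b, b'⟩⟩
    · rintro ⟨w, a, b⟩
      rcases pa_seq (y := some p) a with ⟨_, -, e⟩ | ⟨w1, w2, rfl, a1, a2⟩
      · cases e
      · rw [Al_append] at b
        exact ⟨hp.2 ⟨_, a1, b.1⟩, hq.2 ⟨_, a2, b.2⟩⟩
  | star p q hp hq =>
    constructor
    · intro h2
      obtain ⟨w', a', b'⟩ := hq.1 h2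
      exact ⟨w', a'.first (fun _ _ => .starr) a'.ne, b'⟩
    · rintro ⟨w, a, b⟩
      obtain ⟨w1, w2, rfl, -, d⟩ := pa_star (fun _ => True) trivial (fun _ _ _ _ => trivial) a
      rcases d with ⟨-, e⟩ | ⟨_, -, e⟩ | ⟨-, d⟩
      · cases e
      · cases e
      · exact hq.2 ⟨_, d, ((Al_append m).1 b).2⟩

end Pool.Agent.H77.Bpa
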