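import Pool.Agent.H77.BpaC

namespace Pool.Agent.H77.Bpa

open Pointwise

variable {L : Type} {G : Type} [Group G] (N : Subgroup G) (m : L → Set G × Prop × Prop)

def Rc (t u : Tm L) : Prop := ∃ w, Pa (some t) w (some u) ∧ Al m w

def R1 (t u : Tm L) : Prop := ∃ w, w ≠ [] ∧ Pa (some t) w (some u) ∧ Al m w

def KK (u : Tm L) : Set G := {g | ∃ w, Pa (some u) w (some u) ∧ g ∈ Im m w}

def F1 (t : Tm L) : Prop := ∃ u l x, Rc m t u ∧ (m l).2.2 ∧ Step u l x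

def F2 (t : Tm L) : Prop := ∃ u, Rc m t u ∧ N ≤ Subgroup.closure (KK m u)

variable {m N}

theorem Rc.refl (t : Tm L) : Rc m t t := ⟨[], .nil _, Al_nil m⟩

theorem Rc.cases {t u : Tm L} (h : Rc m t u) : u = t ∨ R1 m t u := by
  obtain ⟨w, a, b⟩ := h
  by_cases hw : w = []
  · subst hw; cases a; exact Or.inl rfl
  · exact Or.inr ⟨w, hw, a, b⟩

theorem R1.rc {t u : Tm L} (h : R1 m t u) : Rc m t u := h.imp fun _ h => h.2

theorem Rc.trans {t u v : Tm L} (h : Rc m t u) (h' : Rc m u v) : Rc m t v := by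
  obtain ⟨w, a, b⟩ := h
  obtain ⟨w', a', b'⟩ := h'
  exact ⟨w ++ w', a.append a', (Al_append m).2 ⟨b, b'⟩⟩

theorem R1.trans {t u v : Tm L} (h : R1 m t u) (h' : Rc m u v) : R1 m t v := by
  obtain ⟨w, e, a, b⟩ := h
  obtain ⟨w', a', b'⟩ := h'
  exact ⟨w ++ w', by simp [e], a.append a', (Al_append m).2 ⟨b, b'⟩⟩

theorem R1.first {p q u : Tm L} (h : ∀ l y, Step p l y → Step q l y) (a : R1 m p u) : Rc m q u := by
  obtain ⟨w, e, a, b⟩ := a
  exact ⟨w, a.first h e, b⟩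

theorem rc_add {p q u : Tm L} (h : R1 m (.add p q) u) : Rc m p u ∨ Rc m q u := by
  obtain ⟨w, e, a, b⟩ := h
  exact (pa_add e a).imp (fun a => ⟨w, a, b⟩) fun a => ⟨w, a, b⟩

theorem Rc.mull {p u : Tm L} (q : Tm L) (h : Rc m p u) : Rc m (.mul p q) (.mul u q) :=
  h.imp fun _ h => ⟨h.1.lift q, h.2⟩

theorem Rc.mulr {p q u : Tm L} (hp : (ev N m p).2.1) (h : Rc m q u) : Rc m (.mul p q) u := by
  obtain ⟨w, a, b⟩ := (te_iff N p).1 hp
  exact Rc.trans ⟨w, a.lift q, b⟩ h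

theorem rc_mul {p q u : Tm L} (h : Rc m (.mul p q) u) :
    (∃ p', Rc m p p' ∧ u = .mul p' q) ∨ ((ev N m p).2.1 ∧ Rc m q u) := by
  obtain ⟨w, a, b⟩ := h
  rcases pa_seq (y := some p) a with ⟨p', c, e⟩ | ⟨w1, w2, rfl, a1, a2⟩
  · exact Or.inl ⟨p', ⟨w, c, b⟩, Option.some.inj e⟩
  · rw [Al_append] at b
    exact Or.inr ⟨(te_iff N p).2 ⟨_, a1, b.1⟩, _, a2, b.2⟩

theorem R1.starl {p u : Tm L} (q : Tm L) (h : R1 m p u) :
    Rc m (.star p q) (.mul u (.star p q)) := by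
  obtain ⟨w, e, a, b⟩ := h
  exact ⟨w, a.starl q e, b⟩

theorem rc_star {p q u : Tm L} (h : Rc m (.star p q) u) :
    u = .star p q ∨ (∃ p', Rc m p p' ∧ u = .mul p' (.star p q)) ∨ R1 m q u := by
  obtain ⟨w, a, b⟩ := h
  obtain ⟨w1, w2, rfl, -, d⟩ := pa_star (fun _ => True) trivial (fun _ _ _ _ => trivial) a
  rw [Al_append] at b
  rcases d with ⟨-, e⟩ | ⟨p', c, e⟩ | ⟨e, d⟩
  · exact Or.inl (Option.some.inj e)
  · exact Or.inr (Or.inl ⟨p', ⟨_, c, b.2⟩, Option.some.inj e⟩)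
  · exact Or.inr (Or.inr ⟨_, e, d, b.2⟩)

theorem F1.first {p q : Tm L} (h : ∀ l y, Step p l y → Step q l y) (a : F1 m p) : F1 m q := by
  obtain ⟨u, l, x, a, b, c⟩ := a
  rcases a.cases with rfl | a
  · exact ⟨q, l, x, .refl _, b, h _ _ c⟩
  · exact ⟨u, l, x, a.first h, b, c⟩

theorem F1_add {p q : Tm L} : F1 m (.add p q) ↔ F1 m p ∨ F1 m q := by
  refine ⟨?_, fun h => h.elim (F1.first fun _ _ => .addl) (F1.first fun _ _ => .addr)⟩
  rintro ⟨u, l, x, a, b, c⟩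
  rcases a.cases with rfl | a
  · cases c with
    | addl c => exact Or.inl ⟨_, l, x, .refl _, b, c⟩
    | addr c => exact Or.inr ⟨_, l, x, .refl _, b, c⟩
  · exact (rc_add a).imp (fun a => ⟨u, l, x, a, b, c⟩) fun a => ⟨u, l, x, a, b, c⟩

theorem F1_mul {p q : Tm L} : F1 m (.mul p q) ↔ F1 m p ∨ ((ev N m p).2.1 ∧ F1 m q) := by
  constructor
  · rintro ⟨u, l, x, a, b, c⟩
    rcases rc_mul (N := N) a with ⟨p', a', rfl⟩ | ⟨a1, a2⟩
    · obtain ⟨y, c', -⟩ := step_mul c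
      exact Or.inl ⟨p', l, y, a', b, c'⟩
    · exact Or.inr ⟨a1, u, l, x, a2, b, c⟩
  · rintro (⟨u, l, x, a, b, c⟩ | ⟨h, u, l, x, a, b, c⟩)
    · exact ⟨_, l, _, a.mull q, b, c.mul⟩
    · exact ⟨u, l, x, a.mulr h, b, c⟩

theorem F1_star {p q : Tm L} : F1 m (.star p q) ↔ F1 m p ∨ F1 m q := by
  constructor
  · rintro ⟨u, l, x, a, b, c⟩
    rcases rc_star a with rfl | ⟨p', a', rfl⟩ | a'
    · cases c with
      | starl c => exact Or.inl ⟨_, l, _, .refl _, b, c⟩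
      | starr c => exact Or.inr ⟨_, l, x, .refl _, b, c⟩
    · obtain ⟨y, c', -⟩ := step_mul c
      exact Or.inl ⟨p', l, y, a', b, c'⟩
    · exact Or.inr ⟨u, l, x, a'.rc, b, c⟩
  · rintro (⟨u, l, x, a, b, c⟩ | h)
    · rcases a.cases with rfl | a
      · exact ⟨_, l, _, .refl _, b, c.starl⟩
      · exact ⟨_, l, _, a.starl q, b, c.mul⟩
    · exact h.first fun _ _ => .starr

theorem big_ne (hN : N ≠ ⊥) {u : Tm L} (h : N ≤ Subgroup.closure (KK m u)) :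
    ∃ w g, w ≠ [] ∧ Pa (some u) w (some u) ∧ g ∈ Im m w := by
  by_contra! hc
  refine hN (le_bot_iff.1 (h.trans ((Subgroup.closure_le _).2 ?_)))
  rintro g ⟨w, a, b⟩
  by_cases hw : w = []
  · subst hw; exact b
  · exact absurd b (hc w g hw a)

theorem F2_R1 (hN : N ≠ ⊥) (ok : Ok m) {t : Tm L} (h : F2 N m t) :
    ∃ u, R1 m t u ∧ N ≤ Subgroup.closure (KK m u) := by
  obtain ⟨u, a, b⟩ := h
  refine ⟨u, ?_, b⟩
  rcases a.cases with rfl | a
  · obtain ⟨w, g, e, c, d⟩ := big_ne hN b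
    exact ⟨w, e, c, ok.al d⟩
  · exact a

theorem KK_mul (u q : Tm L) : KK m u ⊆ KK m (.mul u q) := fun _ h => h.imp fun _ h =>
  ⟨h.1.lift q, h.2⟩

theorem F2_add (hN : N ≠ ⊥) (ok : Ok m) {p q : Tm L} : F2 N m (.add p q) ↔ F2 N m p ∨ F2 N m q := by
  constructor
  · intro h
    obtain ⟨u, a, b⟩ := F2_R1 hN ok h
    exact (rc_add a).imp (fun a => ⟨u, a, b⟩) fun a => ⟨u, a, b⟩
  · rintro (h | h) <;> obtain ⟨u, a, b⟩ := F2_R1 hN ok h
    · exact ⟨u, a.first fun _ _ => .addl, b⟩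
    · exact ⟨u, a.first fun _ _ => .addr, b⟩

theorem F2_mul (ok : Ok m) {p q : Tm L} :
    F2 N m (.mul p q) ↔ F2 N m p ∨ ((ev N m p).2.1 ∧ F2 N m q) := by
  constructor
  · rintro ⟨u, a, b⟩
    by_cases h : (ev N m p).2.1 ∧ Rc m q u
    · exact Or.inr ⟨h.1, u, h.2, b⟩
    · obtain ⟨p', ⟨w0, a0, b0⟩, rfl⟩ := (rc_mul (N := N) a).resolve_right h
      refine Or.inl ⟨p', ⟨w0, a0, b0⟩, b.trans (Subgroup.closure_mono ?_)⟩
      rintro g ⟨w, c, d⟩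
      rcases pa_seq (y := some p') c with ⟨p'', c', e⟩ | ⟨w1, w2, rfl, a1, a2⟩
      · cases e
        exact ⟨w, c', d⟩
      · have := (Al_append m).1 (ok.al d)
        exact absurd ⟨(te_iff N p).2 ⟨_, a0.append a1, (Al_append m).2 ⟨b0, this.1⟩⟩, _, a2,
          this.2⟩ h
  · rintro (⟨u, a, b⟩ | ⟨h, u, a, b⟩)
    · exact ⟨_, a.mull q, b.trans (Subgroup.closure_mono (KK_mul _ _))⟩
    · exact ⟨u, a.mulr h, b⟩

theorem F2_star [N.Normal] (hN : N ≠ ⊥) (ok : Ok m) {p q : Tm L} : F2 N m (.star p q) ↔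
    F2 N m p ∨ F2 N m q ∨ N ≤ Subgroup.closure (ev N m p).1 := by
  constructor
  · rintro ⟨u, a, b⟩
    by_cases hq : R1 m q u
    · exact Or.inr (Or.inl ⟨u, hq.rc, b⟩)
    have hs : KK m (.star p q) ⊆ Subgroup.closure (ev N m p).1 := by
      rintro g ⟨w, c, d⟩
      obtain ⟨w1, w2, rfl, cc, e⟩ := pa_star (fun w => Im m w ⊆ Subgroup.closure (ev N m p).1)
        (fun g h => h ▸ one_mem _) (fun w1 w2 a h => by
          rw [Im_append]
          rintro _ ⟨g1, h1, g2, h2, rfl⟩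
          exact mul_mem (Subgroup.subset_closure ((tr_iff N p _).2 ⟨_, a, h1⟩)) (h h2)) c
      rcases e with ⟨rfl, -⟩ | ⟨_, -, e⟩ | ⟨e, f⟩
      · exact cc (by simpa using d)
      · cases e
      · exact absurd (R1.trans ⟨_, e, f, ((Al_append m).1 (ok.al d)).2⟩ a) hq
    rcases rc_star a with rfl | ⟨p', a', rfl⟩ | a'
    · exact Or.inr (Or.inr (b.trans ((Subgroup.closure_le _).2 hs)))
    · by_cases hK : KK m (.mul p' (.star p q)) ⊆ KK m p'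
      · exact Or.inl ⟨p', a', b.trans (Subgroup.closure_mono hK)⟩
      obtain ⟨g0, ⟨w, c, d⟩, hg⟩ := Set.not_subset.1 hK
      rcases pa_seq (y := some p') c with ⟨p'', c', e⟩ | ⟨w1, w2, rfl, a1, a2⟩
      · cases e
        exact absurd ⟨w, c', d⟩ hg
      rw [Im_append] at d
      obtain ⟨c1, h1, c2, h2, -⟩ := d
      have a3 := a1.lift (.star p q)
      refine Or.inr (Or.inr fun n hn => ?_)
      have : Subgroup.closure (KK m (.mul p' (.star p q))) ≤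
          (Subgroup.closure (ev N m p).1).comap (MulAut.conj c1⁻¹).toMonoidHom := by
        rw [Subgroup.closure_le]
        rintro g ⟨w, c, d⟩
        have e1 := hs ⟨_, a2.append a3, Im_append m _ _ ▸ Set.mul_mem_mul h2 h1⟩
        have e2 := hs ⟨_, a2.append (c.append a3), by
          rw [Im_append, Im_append]; exact Set.mul_mem_mul h2 (Set.mul_mem_mul d h1)⟩
        simpa [mul_assoc] using mul_mem (inv_mem e1) e2
      simpa [mul_assoc] using this (b (‹N.Normal›.conj_mem n hn c1))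
    · exact absurd a' hq
  · rintro (h | h | h)
    · obtain ⟨u, a, b⟩ := F2_R1 hN ok h
      exact ⟨_, a.starl q, b.trans (Subgroup.closure_mono (KK_mul _ _))⟩
    · obtain ⟨u, a, b⟩ := F2_R1 hN ok h
      exact ⟨u, a.first fun _ _ => .starr, b⟩
    · refine ⟨_, .refl _, h.trans (Subgroup.closure_mono fun g hg => ?_)⟩
      obtain ⟨w, a, b⟩ := (tr_iff N p g).1 hg
      exact ⟨w, a.starl q a.ne, b⟩

theorem fg_iff [N.Normal] (hN : N ≠ ⊥) (ok : Ok m) (t : Tm L) :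
    (ev N m t).2.2 ↔ F1 m t ∨ F2 N m t := by
  induction t with
  | act l =>
    refine ⟨fun h => Or.inl ⟨_, l, _, .refl _, h, .act l⟩, ?_⟩
    rintro (⟨u, l', x, ⟨w, a, -⟩, b, c⟩ | h)
    · rcases pa_act a with ⟨-, e⟩ | ⟨-, e⟩ <;> cases e
      cases c
      exact b
    · obtain ⟨u, ⟨w, e, a, -⟩, -⟩ := F2_R1 hN ok h
      rcases pa_act a with ⟨e', -⟩ | ⟨-, e'⟩
      · exact absurd e' e
      · cases e'
  | dl =>
    refine ⟨False.elim, ?_⟩
    rintro (⟨u, l', x, ⟨w, a, -⟩, b, c⟩ | h)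
    · cases (pa_dl a).2
      cases c
    · obtain ⟨u, ⟨w, e, a, -⟩, -⟩ := F2_R1 hN ok h
      exact absurd (pa_dl a).1 e
  | add p q hp hq => rw [F1_add, F2_add hN ok, ev, hp, hq]; tauto
  | mul p q hp hq => rw [F1_mul (N := N), F2_mul ok, ev]; simp only [hp, hq]; tauto
  | star p q hp hq => rw [F1_star, F2_star hN ok, ev]; simp only [hp, hq]; tauto

theorem core (ok : Ok m) {t t' s : Tm L} (h : Bisim t t') (hs : Rc m t s) :
    ∃ s0, Rc m t' s0 ∧ ∀ w g, Pa (some s) w (some s) → g ∈ Im m w → ∃ v ∈ DS t',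
      Pa (some s0) w (some v) ∧ ∃ w' c, Pa (some v) w' (some s0) ∧ c ∈ Im m w' := by
  let C : Tm L → Set (Tm L) := fun v => {v' | Bisim s v' ∧ ∃ w g, Pa (some s) w (some s) ∧
    g ∈ Im m w ∧ Pa (some v) w (some v')}
  have tr : ∀ {a b c}, b ∈ C a → c ∈ C b → c ∈ C a := by
    rintro a b c ⟨-, w, g, h1, h2, h3⟩ ⟨e, w', g', h1', h2', h3'⟩
    exact ⟨e, w ++ w', _, h1.append h1', Im_append m _ _ ▸ Set.mul_mem_mul h2 h2', h3.append h3'⟩
  have fin : ∀ v ∈ DS t', C v ⊆ DS t' := by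
    rintro v hv v' ⟨-, w, -, -, -, a⟩
    exact a.ds (fun u e => Option.some.inj e ▸ hv) _ rfl
  obtain ⟨w0, a0, b0⟩ := hs
  obtain ⟨_, a1, r⟩ := a0.bisim (.some h)
  cases r with
  | @some _ s1 r =>
  have d1 : s1 ∈ DS t' := a1.ds (fun u e => Option.some.inj e ▸ DS_self _) _ rfl
  obtain ⟨s0, h0, hmin⟩ := ((DS_fin t').subset (fin s1 d1)).exists_minimalFor
    (fun v => (C v).ncard) _ ⟨s1, r, [], 1, .nil _, rfl, .nil _⟩
  have d0 := fin s1 d1 h0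
  refine ⟨s0, ?_, fun w g a b => ?_⟩
  · obtain ⟨-, w, g, -, h2, h3⟩ := h0
    exact ⟨_, a1.append h3, (Al_append m).2 ⟨b0, ok.al h2⟩⟩
  · obtain ⟨_, a2, r2⟩ := a.bisim (.some h0.1)
    cases r2 with
    | @some _ v r2 =>
    have hv : v ∈ C s0 := ⟨r2, w, g, a, b, a2⟩
    have hsub : C v ⊆ C s0 := fun _ e => tr hv e
    have hf := (DS_fin t').subset (fin s0 d0)
    have : C v = C s0 := Set.eq_of_subset_of_ncard_le hsub
      (hmin (tr h0 hv) (Set.ncard_le_ncard hsub hf)) hf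
    obtain ⟨-, w', c, -, h2, h3⟩ : s0 ∈ C v := this ▸ ⟨h0.1, [], 1, .nil _, rfl, .nil _⟩
    exact ⟨v, fin s0 d0 hv, a2, w', c, h3, h2⟩

end Pool.Agent.H77.Bpa
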