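import Mathlib

namespace Pool.Agent.H77.Bpa

/-- terms over a set `L` of atoms: closed terms have `L = A`, open terms `L = A ⊕ ℕ` -/
inductive Tm (L : Type) : Type
  | act (a : L) : Tm L
  | dl : Tm L
  | add (p q : Tm L) : Tm L
  | mul (p q : Tm L) : Tm L
  | star (p q : Tm L) : Tm L

/-- continue with `q` after the result of a step (`none` is successful termination) -/
def seq {L : Type} : Option (Tm L) → Tm L → Tm L
  | none, q => q
  | some p, q => .mul p q

/-- the transition relation; target `none` is successful termination -/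
inductive Step {L : Type} : Tm L → L → Option (Tm L) → Prop
  | act (a : L) : Step (.act a) a none
  | addl {p q a x} : Step p a x → Step (.add p q) a x
  | addr {p q a x} : Step q a x → Step (.add p q) a x
  | mul {p q a x} : Step p a x → Step (.mul p q) a (some (seq x q))
  | starl {p q a x} : Step p a x → Step (.star p q) a (some (seq x (.star p q)))
  | starr {p q a x} : Step q a x → Step (.star p q) a x

/-- strong bisimilarity -/
def Bisim {L : Type} (p q : Tm L) : Prop :=
  ∃ R : Tm L → Tm L → Prop, (∀ p q, R p q → R q p) ∧ R p q ∧ ∀ p q, R p q →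
    (∀ a p', Step p a (some p') → ∃ q', Step q a (some q') ∧ R p' q') ∧
      ∀ a, Step p a none → Step q a none

/-- replace every atom `l` by the term `f l` -/
def Tm.bind {L L' : Type} (f : L → Tm L') : Tm L → Tm L'
  | .act a => f a
  | .dl => .dl
  | .add p q => .add (p.bind f) (q.bind f)
  | .mul p q => .mul (p.bind f) (q.bind f)
  | .star p q => .star (p.bind f) (q.bind f)

/-- all closed instances are bisimilar -/
def Valid {A : Type} (t u : Tm (A ⊕ ℕ)) : Prop :=
  ∀ σ : ℕ → Tm A, Bisim (t.bind (Sum.elim .act σ)) (u.bind (Sum.elim .act σ))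

/-- equational logic -/
inductive Deriv {A : Type} (E : Set (Tm (A ⊕ ℕ) × Tm (A ⊕ ℕ))) : Tm (A ⊕ ℕ) → Tm (A ⊕ ℕ) → Prop
  | ax {t u} (h : (t, u) ∈ E) (σ : ℕ → Tm (A ⊕ ℕ)) :
      Deriv E (t.bind (Sum.elim (fun a => .act (.inl a)) σ))
        (u.bind (Sum.elim (fun a => .act (.inl a)) σ))
  | refl (t) : Deriv E t t
  | symm {t u} : Deriv E t u → Deriv E u t
  | trans {t u v} : Deriv E t u → Deriv E u v → Deriv E t v
  | add {t u t' u'} : Deriv E t u → Deriv E t' u' → Deriv E (.add t t') (.add u u')
  | mul {t u t' u'} : Deriv E t u → Deriv E t' u' → Deriv E (.mul t t') (.mul u u')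
  | star {t u t' u'} : Deriv E t u → Deriv E t' u' → Deriv E (.star t t') (.star u u')

/-- the atom `l` occurs in the term -/
def Occ {L : Type} (l : L) : Tm L → Prop
  | .act a => a = l
  | .dl => False
  | .add p q => Occ l p ∨ Occ l q
  | .mul p q => Occ l p ∨ Occ l q
  | .star p q => Occ l p ∨ Occ l q

/-- at least two distinct variables occur in the equation -/
def TwoVar {A : Type} (e : Tm (A ⊕ ℕ) × Tm (A ⊕ ℕ)) : Prop :=
  ∃ i j, i ≠ j ∧ (Occ (.inr i) e.1 ∨ Occ (.inr i) e.2) ∧ (Occ (.inr j) e.1 ∨ Occ (.inr j) e.2)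

end Pool.Agent.H77.Bpa
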