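import Pool.Agent.H77.BpaD

namespace Pool.Agent.H77.Bpa

open Pointwise

variable {L : Type} {G : Type} [Group G] [Finite G] {N : Subgroup G} {m : L → Set G × Prop × Prop}

theorem mem_cl {s : Set G} {g : G} (h : g ∈ Subgroup.closure s) : g ∈ Submonoid.closure s := by
  rw [← Subgroup.closure_toSubmonoid_of_finite]; exact h

theorem closure_KK {u : Tm L} {g : G} (h : g ∈ Subgroup.closure (KK m u)) : g ∈ KK m u := by
  have := mem_cl h
  clear h
  induction this using Submonoid.closure_induction with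
  | mem g h => exact h
  | one => exact ⟨[], .nil _, rfl⟩
  | mul _ _ _ _ h h' =>
    obtain ⟨w, a, b⟩ := h
    obtain ⟨w', a', b'⟩ := h'
    exact ⟨w ++ w', a.append a', Im_append m _ _ ▸ Set.mul_mem_mul b b'⟩

theorem idx {X : Type} [IsSimpleGroup N] {k : ℕ} (hk : k.factorial < Nat.card N) (H : Subgroup G)
    {D : Set X} (hD : D.Finite) (hc : D.ncard ≤ k) (c : X → G)
    (h : ∀ n ∈ N, ∃ v ∈ D, n * c v ∈ H) : N ≤ H := by
  let K := H.subgroupOf N
  choose v hv hv' using fun n : N => h n n.2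
  have : Finite D := hD.to_subtype
  have h1 : K.index ≤ k := by
    refine le_trans (Nat.card_le_card_of_injective
      (fun q : N ⧸ K => (⟨v (q.out⁻¹ : N), hv _⟩ : D)) fun q q' e => ?_) hc
    have e' : v (q.out⁻¹ : N) = v (q'.out⁻¹ : N) := Subtype.ext_iff.1 e
    rw [← q.out_eq, ← q'.out_eq]
    refine QuotientGroup.eq.2 (Subgroup.mem_subgroupOf.2 ?_)
    have := mul_mem (hv' q.out⁻¹) (inv_mem (hv' q'.out⁻¹))
    rw [e'] at this
    simpa using this
  have h2 : K.normalCore.index ∣ K.index.factorial := by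
    rw [Subgroup.normalCore_eq_ker, Subgroup.index_ker, Subgroup.index_eq_card, ← Nat.card_perm]
    exact Subgroup.card_subgroup_dvd_card (MulAction.toPermHom N (N ⧸ K)).range
  rcases K.normalCore_normal.eq_bot_or_eq_top with e | e
  · rw [e, Subgroup.index_bot] at h2
    have := (Nat.le_of_dvd (Nat.factorial_pos _) h2).trans (Nat.factorial_le h1)
    omega
  · exact Subgroup.subgroupOf_eq_top.1 (top_le_iff.1 (e ▸ K.normalCore_le))

theorem cyc (hN : ⁅N, N⁆ = N) {T : Set G} (j : ℕ) (h : N ≤ Subgroup.closure T) :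
    N ≤ Subgroup.closure (T ^ (j + 1)) := by
  rcases T.eq_empty_or_nonempty with rfl | ⟨s, hs⟩
  · exact h.trans (by simp)
  set H := Subgroup.closure (T ^ (j + 1))
  have h1 : ∀ a ∈ T, ∀ b ∈ T, a * b⁻¹ ∈ H := fun a ha b hb => by
    have e1 : a * b ^ j ∈ H :=
      Subgroup.subset_closure (pow_succ' T j ▸ Set.mul_mem_mul ha (Set.pow_mem_pow hb))
    have e2 : b ^ (j + 1) ∈ H := Subgroup.subset_closure (Set.pow_mem_pow hb)
    convert mul_mem e1 (inv_mem e2) using 1
    group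
  have h2 : ∀ x ∈ H, s * x * s⁻¹ ∈ H := fun x hx => by
    have : H ≤ H.comap (MulAut.conj s).toMonoidHom := by
      refine (Subgroup.closure_le _).2 fun x hx => ?_
      rw [pow_succ] at hx
      obtain ⟨y, hy, t, ht, rfl⟩ := hx
      have e1 : s * y ∈ H := Subgroup.subset_closure (pow_succ' T j ▸ Set.mul_mem_mul hs hy)
      simpa [mul_assoc] using mul_mem e1 (h1 t ht s hs)
    exact this hx
  have h3 : ∀ k : ℕ, ∀ x ∈ H, s ^ k * x * (s ^ k)⁻¹ ∈ H := fun k x hx => by
    induction k with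
    | zero => simpa using hx
    | succ k ih =>
      convert h2 _ ih using 1
      group
  have h4 : ∀ a ∈ N, ∃ k : ℕ, a * (s ^ k)⁻¹ ∈ H := fun a ha => by
    have := mem_cl (h ha)
    clear ha
    induction this using Submonoid.closure_induction with
    | mem g hg => exact ⟨1, by simpa using h1 g hg s hs⟩
    | one => exact ⟨0, by simp⟩
    | mul a b _ _ ha hb =>
      obtain ⟨k, ha⟩ := ha
      obtain ⟨l, hb⟩ := hb
      refine ⟨k + l, ?_⟩
      convert mul_mem ha (h3 k _ hb) using 1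
      group
  rw [← hN, Subgroup.commutator_le]
  intro a ha b hb
  obtain ⟨k, ha⟩ := h4 a ha
  obtain ⟨l, hb⟩ := h4 b hb
  convert mul_mem (mul_mem (mul_mem ha (h3 k _ hb)) (h3 l _ (inv_mem ha))) (inv_mem hb) using 1
  rw [commutatorElement_def]
  group

theorem F2_small [IsSimpleGroup N] {k : ℕ} (hk : k.factorial < Nat.card N) (ok : Ok m)
    {t t' : Tm L} (h : Bisim t t') (hc : (DS t').ncard ≤ k) (a : F2 N m t) : F2 N m t' := by
  obtain ⟨s, a, b⟩ := a
  obtain ⟨s0, a0, hs⟩ := core ok h a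
  have : ∀ v, ∃ c, (∃ w' c, Pa (some v) w' (some s0) ∧ c ∈ Im m w') →
      ∃ w', Pa (some v) w' (some s0) ∧ c ∈ Im m w' := fun v => by
    by_cases e : ∃ w' c, Pa (some v) w' (some s0) ∧ c ∈ Im m w'
    · obtain ⟨w', c, e⟩ := e
      exact ⟨c, fun _ => ⟨w', e⟩⟩
    · exact ⟨1, fun e' => absurd e' e⟩
  choose c hc' using this
  refine ⟨s0, a0, idx hk _ (DS_fin t') hc c fun n hn => ?_⟩
  obtain ⟨w, d, e⟩ := closure_KK (b hn)
  obtain ⟨v, hv, f, g⟩ := hs w n d e
  obtain ⟨w', g1, g2⟩ := hc' v g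
  exact ⟨v, hv, Subgroup.subset_closure ⟨_, f.append g1, Im_append m _ _ ▸ Set.mul_mem_mul e g2⟩⟩

omit [Finite G] in
theorem Im_one {l0 : L} (h1 : ∀ l, l ≠ l0 → (m l).1 = ∅) {w : List L} {g} (hg : g ∈ Im m w) :
    Im m w = (m l0).1 ^ w.length := by
  induction w generalizing g with
  | nil => rfl
  | cons l w ih =>
    obtain ⟨a, ha, b, hb, -⟩ : g ∈ (m l).1 * Im m w := by simpa [Im] using hg
    obtain rfl : l = l0 := by
      by_contra e
      simp [h1 l e] at ha
    rw [List.length_cons, pow_succ', ← ih hb]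
    simp [Im]

theorem F2_one (hN : N ≠ ⊥) (hN' : ⁅N, N⁆ = N) (ok : Ok m) {l0 : L}
    (h1 : ∀ l, l ≠ l0 → (m l).1 = ∅) {t t' : Tm L} (h : Bisim t t') (a : F2 N m t) : F2 N m t' := by
  obtain ⟨s, a, b⟩ := a
  obtain ⟨s0, a0, hs⟩ := core ok h a
  obtain ⟨w, g, e, c, d⟩ := big_ne hN b
  obtain ⟨v, -, f, w', g', f', d'⟩ := hs w g c d
  have h2 : N ≤ Subgroup.closure (m l0).1 := b.trans ((Subgroup.closure_le _).2 (by
    rintro g ⟨w, -, d⟩
    rw [Im_one h1 d] at d
    generalize w.length = j at d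
    induction j generalizing g with
    | zero => exact d ▸ one_mem _
    | succ j ih =>
      rw [pow_succ] at d
      obtain ⟨a, ha, b, hb, rfl⟩ := d
      exact mul_mem (ih ha) (Subgroup.subset_closure hb)))
  obtain ⟨j, hj⟩ : ∃ j, (w ++ w').length = j + 1 :=
    Nat.exists_eq_succ_of_ne_zero (by simp [e])
  refine ⟨s0, a0, (cyc hN' j h2).trans (Subgroup.closure_mono fun x hx => ⟨_, f.append f', ?_⟩)⟩
  rwa [Im_one h1 (Im_append m _ _ ▸ Set.mul_mem_mul d d'), hj]

omit [Finite G] in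
theorem ev_eq [N.Normal] (hN : N ≠ ⊥) (ok : Ok m) {t t' : Tm L} (h : Bisim t t')
    (h2 : F2 N m t ↔ F2 N m t') : ev N m t = ev N m t' := by
  have e0 : ∀ {t t' : Tm L} {w}, Bisim t t' → Pa (some t) w none → Pa (some t') w none := by
    intro t t' w h a
    obtain ⟨_, b, r⟩ := a.bisim (.some h)
    cases r
    exact b
  have e1 : ∀ {t t' : Tm L}, Bisim t t' → F1 m t → F1 m t' := by
    rintro t t' h ⟨u, l, x, ⟨w, a, b⟩, c, d⟩
    obtain ⟨_, a', r⟩ := a.bisim (.some h)
    cases r with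
    | some r =>
      obtain ⟨y, d', -⟩ := r.step d
      exact ⟨_, l, y, ⟨w, a', b⟩, c, d'⟩
  refine Prod.ext (Set.ext fun g => ?_) (Prod.ext (propext ?_) (propext ?_))
  · simp only [tr_iff]
    exact exists_congr fun w => and_congr_left fun _ => ⟨e0 h, e0 h.symm⟩
  · simp only [te_iff]
    exact exists_congr fun w => and_congr_left fun _ => ⟨e0 h, e0 h.symm⟩
  · rw [fg_iff hN ok, fg_iff hN ok, h2]
    exact or_congr_left ⟨e1 h, e1 h.symm⟩

omit [Finite G] in
theorem ev_congr {m' : L → Set G × Prop × Prop} {t : Tm L} (h : ∀ l, Occ l t → m l = m' l) :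
    ev N m t = ev N m' t := by
  induction t with
  | act l => exact h l rfl
  | dl => rfl
  | add p q hp hq => rw [ev, ev, hp fun l a => h l (.inl a), hq fun l a => h l (.inr a)]
  | mul p q hp hq => rw [ev, ev, hp fun l a => h l (.inl a), hq fun l a => h l (.inr a)]
  | star p q hp hq => rw [ev, ev, hp fun l a => h l (.inl a), hq fun l a => h l (.inr a)]

theorem sound {A : Type} [Nonempty A] [N.Normal] [IsSimpleGroup N] (hN' : ⁅N, N⁆ = N) {k : ℕ}
    (hk : k.factorial < Nat.card N) {E : Set (Tm (A ⊕ ℕ) × Tm (A ⊕ ℕ))}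
    (hE : ∀ e ∈ E, Valid e.1 e.2 ∧ (TwoVar e → (DS e.1).ncard ≤ k ∧ (DS e.2).ncard ≤ k))
    {t u} (h : Deriv E t u) (m : A ⊕ ℕ → Set G × Prop × Prop) (ok : Ok m)
    (hm : ∀ a, m (.inl a) = (∅, True, False)) : ev N m t = ev N m u := by
  have hN : N ≠ ⊥ := (Subgroup.nontrivial_iff_ne_bot N).1 inferInstance
  induction h with
  | refl => rfl
  | symm _ ih => exact ih.symm
  | trans _ _ ih ih' => exact ih.trans ih'
  | add _ _ ih ih' => rw [ev, ev, ih, ih']
  | mul _ _ ih ih' => rw [ev, ev, ih, ih']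
  | star _ _ ih ih' => rw [ev, ev, ih, ih']
  | @ax t u h σ =>
    rw [ev_bind, ev_bind]
    set m1 : A ⊕ ℕ → Set G × Prop × Prop :=
      fun l => ev N m (Sum.elim (fun a => .act (.inl a)) σ l)
    have ok1 : Ok m1 := fun l => ok_ev N ok _
    have hb := valid_bisim (hE _ h).1
    by_cases h2 : TwoVar (t, u)
    · exact ev_eq hN ok1 hb ⟨F2_small hk ok1 hb ((hE _ h).2 h2).2,
        F2_small hk ok1 hb.symm ((hE _ h).2 h2).1⟩
    classical
    let m2 : A ⊕ ℕ → Set G × Prop × Prop :=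
      fun l => if Occ l t ∨ Occ l u then m1 l else (∅, True, False)
    have ok2 : Ok m2 := fun l => by
      simp only [m2]
      split_ifs
      · exact ok1 l
      · exact fun _ => trivial
    obtain ⟨i, hi⟩ : ∃ i, ∀ j, j ≠ i → ¬ (Occ (.inr j) t ∨ Occ (.inr j) u) := by
      by_cases e : ∃ i, Occ (.inr i) t ∨ Occ (.inr i) u
      · obtain ⟨i, e⟩ := e
        exact ⟨i, fun j hj e' => h2 ⟨j, i, hj, e', e⟩⟩
      · exact ⟨0, fun j _ e' => e ⟨j, e'⟩⟩
    have h1 : ∀ l, l ≠ .inr i → (m2 l).1 = ∅ := by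
      rintro (a | j) hl
      · simp only [m2]
        split_ifs
        · exact congrArg Prod.fst (hm a)
        · rfl
      · simp only [m2, if_neg (hi j fun e => hl (congrArg _ e))]
    rw [ev_congr (m' := m2) fun l a => by simp [m2, a], ev_congr (m' := m2) (t := u)
      fun l a => by simp [m2, a]]
    exact ev_eq hN ok2 hb ⟨F2_one hN hN' ok2 h1 hb, F2_one hN hN' ok2 h1 hb.symm⟩

section
variable (x y : L)

def ww : Tm L := .add (.act x) (.act y)

def VV : ℕ → Tm L
  | 0 => .mul (ww x y) (.star (.mul (.act y) (ww x y)) (.act x))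
  | k + 1 => .mul (.star (.act y) (.act x)) (VV k)

inductive Gd : Tm L → Prop
  | w : Gd (ww x y)
  | mul {p q} : Gd p → Gd q → Gd (.mul p q)
  | s1 : Gd (.star (.act y) (.act x))
  | s2 : Gd (.star (.mul (.act y) (ww x y)) (.act x))
  | loop {p} : Gd p → Gd (.star p .dl)

variable {x y}

theorem Gd.step {p : Tm L} (h : Gd x y p) : (∀ l, l = x ∨ l = y → ∃ z, Step p l z) ∧
    ∀ l z, Step p l z → (l = x ∨ l = y) ∧ ∀ p', z = some p' → Gd x y p' := by
  have sq : ∀ {z q}, (∀ p', z = some p' → Gd x y p') → Gd x y q → ∀ p', some (seq z q) = some p' →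
      Gd x y p' := by
    rintro (_ | z) q h h' _ ⟨⟩
    · exact h'
    · exact (h z rfl).mul h'
  induction h with
  | w =>
    refine ⟨?_, fun l z s => ?_⟩
    · rintro _ (rfl | rfl)
      exacts [⟨_, (Step.act _).addl⟩, ⟨_, (Step.act _).addr⟩]
    · cases s with
      | addl s => cases s; simp
      | addr s => cases s; simp
  | mul _ hq hp _ =>
    refine ⟨fun l h => (hp.1 l h).elim fun _ s => ⟨_, s.mul⟩, fun l z s => ?_⟩
    obtain ⟨z', s', rfl⟩ := step_mul s
    exact ⟨(hp.2 _ _ s').1, sq (hp.2 _ _ s').2 hq⟩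
  | s1 =>
    refine ⟨?_, fun l z s => ?_⟩
    · rintro _ (rfl | rfl)
      exacts [⟨_, (Step.act _).starr⟩, ⟨_, (Step.act _).starl⟩]
    · cases s with
      | starl s => cases s; exact ⟨.inr rfl, sq (by simp) .s1⟩
      | starr s => cases s; simp
  | s2 =>
    refine ⟨?_, fun l z s => ?_⟩
    · rintro _ (rfl | rfl)
      exacts [⟨_, (Step.act _).starr⟩, ⟨_, (Step.act _).mul.starl⟩]
    · cases s with
      | starl s =>
        obtain ⟨z', s', rfl⟩ := step_mul s
        cases s'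
        exact ⟨.inr rfl, sq (sq (by simp) .w) .s2⟩
      | starr s => cases s; simp
  | loop h hp =>
    refine ⟨fun l h => (hp.1 l h).elim fun _ s => ⟨_, s.starl⟩, fun l z s => ?_⟩
    cases s with
    | starl s => exact ⟨(hp.2 _ _ s).1, sq (hp.2 _ _ s).2 h.loop⟩
    | starr s => cases s

inductive Nt : Tm L → Prop
  | loop (p) : Nt (.star p .dl)
  | mul (p) {q} : Nt q → Nt (.mul p q)

theorem Nt.step {p : Tm L} (h : Nt p) {l z} (s : Step p l z) : ∃ p', z = some p' ∧ Nt p' := by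
  have sq : ∀ z {q : Tm L}, Nt q → Nt (seq z q) := by
    rintro (_ | z) q h
    exacts [h, h.mul z]
  cases h with
  | loop p =>
    cases s with
    | starl s => exact ⟨_, rfl, sq _ (.loop p)⟩
    | starr s => cases s
  | mul p h =>
    obtain ⟨z', -, rfl⟩ := step_mul s
    exact ⟨_, rfl, sq _ h⟩

theorem VV_bisim (k : ℕ) : Bisim (.star (VV x y k) .dl) (.star (ww x y) .dl) := by
  have : Gd x y (VV x y k) := by
    induction k with
    | zero => exact .mul .w .s2
    | succ k ih => exact .mul .s1 ih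
  refine bisim_of (fun p q => (Gd x y p ∧ Nt p) ∧ Gd x y q ∧ Nt q) (fun _ _ h => h.symm) ?_
    ⟨⟨this.loop, .loop _⟩, Gd.w.loop, .loop _⟩
  rintro p q ⟨⟨h1, h2⟩, h3, h4⟩ l z s
  obtain ⟨z', s'⟩ := h3.step.1 l (h1.step.2 _ _ s).1
  obtain ⟨p', rfl, a⟩ := h2.step s
  obtain ⟨q', rfl, b⟩ := h4.step s'
  exact ⟨_, s', .some ⟨⟨(h1.step.2 _ _ s).2 _ rfl, a⟩, (h3.step.2 _ _ s').2 _ rfl, b⟩⟩

end

theorem mfix {X : Type} {T : Set (Equiv.Perm X)} {c : X} (h : ∀ g ∈ T, g c = c) {g : Equiv.Perm X}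
    (hg : g ∈ Subgroup.closure T) : g c = c :=
  (Subgroup.closure_le (MulAction.stabilizer (Equiv.Perm X) c)).2 h hg

theorem nfix {n : ℕ} {T : Set (Equiv.Perm (Fin (n + 3)))} (c : Fin (n + 3)) (h : ∀ g ∈ T, g c = c) :
    ¬ alternatingGroup (Fin (n + 3)) ≤ Subgroup.closure T := fun e => by
  obtain ⟨d, hd⟩ := exists_ne c
  obtain ⟨g, hg⟩ := (alternatingGroup.isPretransitive_of_three_le_card (Fin (n + 3))
    (by simp)).exists_smul_eq c d
  exact hd (hg.symm.trans (mfix h (e g.2)))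

theorem main (A : Type) [Nonempty A] (E : Set (Tm (A ⊕ ℕ) × Tm (A ⊕ ℕ)))
    (hE : ∀ t u, Deriv E t u ↔ Valid t u) : {e | e ∈ E ∧ TwoVar e}.Infinite := by
  intro hf
  obtain ⟨k, hk⟩ : ∃ k, ∀ e ∈ E, TwoVar e → (DS e.1).ncard ≤ k ∧ (DS e.2).ncard ≤ k := by
    obtain ⟨k, hk⟩ := (hf.image fun e => max (DS e.1).ncard (DS e.2).ncard).bddAbove
    exact ⟨k, fun e a b => max_le_iff.1 (hk ⟨e, ⟨a, b⟩, rfl⟩)⟩
  let N := alternatingGroup (Fin (k + 2 + 3))
  have h5 : 5 ≤ Nat.card (Fin (k + 2 + 3)) := by simp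
  have : IsSimpleGroup N := alternatingGroup.isSimpleGroup h5
  have hc : k.factorial < Nat.card N := by
    have := two_mul_nat_card_alternatingGroup (α := Fin (k + 2 + 3))
    rw [Nat.card_perm, Nat.card_fin, Nat.factorial_succ] at this
    have h1 : k.factorial ≤ (k + 2 + 2).factorial := Nat.factorial_le (by omega)
    have := Nat.factorial_pos k
    nlinarith
  let ρ := finRotate (k + 2 + 3)
  let τ := Equiv.swap 0 (ρ 0)
  let m : A ⊕ ℕ → Set (Equiv.Perm (Fin (k + 2 + 3))) × Prop × Prop :=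
    Sum.elim (fun _ => (∅, True, False)) fun i => ({if i = 0 then ρ else τ}, True, False)
  have id : ∀ t : Tm (A ⊕ ℕ),
      t.bind (Sum.elim (fun a => .act (.inl a)) fun i => .act (.inr i)) = t := by
    intro t
    induction t with
    | act l => cases l <;> rfl
    | _ => simp [Tm.bind, *]
  have h := congrArg (·.2.2) (sound (commutator_alternatingGroup_eq_self h5) hc
    (fun e he => ⟨(hE _ _).1 (by simpa [id] using Deriv.ax (E := E) he fun i => .act (.inr i)),
      hk e he⟩) ((hE _ _).2 fun σ => (VV_bisim (x := (.inr 0 : A ⊕ ℕ)) (y := .inr 1) (k + 3)).bind _) m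
    (by rintro (a | i) - <;> trivial) fun _ => rfl)
  have sub : ∀ {T : Set (Equiv.Perm (Fin (k + 2 + 3)))} {g}, g ∈ Submonoid.closure T →
      g ∈ Subgroup.closure T := fun h => Subgroup.le_closure_toSubmonoid _ h
  have hw : ∀ g ∈ (ev N m (ww (.inr 0) (.inr 1))).1, g 0 = ρ 0 := by
    rintro g (rfl | rfl) <;> simp [τ]
  have h1 : ∀ j (hj : j + 1 < k + 2 + 3), ¬ (ev N m (VV (.inr 0) (.inr 1) j)).2.2 ∧
      ∀ g ∈ (ev N m (VV (.inr 0) (.inr 1) j)).1, g (Fin.last _) = ⟨j + 1, hj⟩ := by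
    intro j
    induction j with
    | zero =>
      intro hj
      have h0 : ∀ g ∈ (ev N m (.mul (.act (.inr 1)) (ww (.inr 0) (.inr 1)))).1, g 0 = 0 := by
        rintro _ ⟨_, rfl, g, hg, rfl⟩
        simp [hw g hg, τ]
      refine ⟨?_, ?_⟩
      · have := nfix 0 h0
        simp only [VV, ww, ev] at this ⊢
        simp only [m, Sum.elim_inr] at this ⊢
        tauto
      · rintro _ ⟨a, ha, _, ⟨b, hb, _, rfl, rfl⟩, rfl⟩
        have : ρ (Fin.last _) = 0 := finRotate_last
        simp only [if_true, Equiv.Perm.mul_apply, this, mfix h0 (sub hb), hw a ha]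
        exact finRotate_of_lt (k := 0) (by omega)
    | succ j ih =>
      intro hj
      obtain ⟨i1, i2⟩ := ih (by omega)
      have h0 : ∀ g ∈ (ev N m (.act (.inr 1))).1, g ⟨j + 1 + 1, hj⟩ = ⟨j + 1 + 1, hj⟩ := by
        rintro _ rfl
        refine Equiv.swap_apply_of_ne_of_ne (by simp [Fin.ext_iff]) ?_
        rw [show ρ 0 = _ from finRotate_of_lt (k := 0) (by omega)]
        simp [Fin.ext_iff]
      refine ⟨?_, ?_⟩
      · have := nfix _ h0
        simp only [VV, ev] at this ⊢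
        simp only [m, Sum.elim_inr] at this i1 ⊢
        tauto
      · rintro _ ⟨_, ⟨b, hb, _, rfl, rfl⟩, g, hg, rfl⟩
        have : ρ ⟨j + 1, by omega⟩ = ⟨j + 1 + 1, hj⟩ := finRotate_of_lt (by omega)
        simp only [if_true, Equiv.Perm.mul_apply, i2 g hg, this, mfix h0 (sub hb)]
  obtain ⟨h2, h3⟩ := h1 (k + 3) (by omega)
  have h4 : (ev N m (.star (ww (.inr 0) (.inr 1)) .dl)).2.2 := Or.inr (Or.inr (by
    refine le_top.trans (ge_of_eq ?_)
    exact Equiv.Perm.closure_cycle_adjacent_swap isCycle_finRotate support_finRotate 0))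
  rcases h.mpr h4 with e | e | e
  · exact h2 e
  · exact e
  · exact nfix (Fin.last _) h3 e

end Pool.Agent.H77.Bpa
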