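import Mathlib

set_option autoImplicit false

namespace Pool.Agent.H77.Burau

open Matrix Set Complex
open scoped ComplexOrder

variable {n : Type} [Fintype n] [DecidableEq n]

theorem core {X : Type} [TopologicalSpace X] [PreconnectedSpace X] (H : X → Matrix n n ℂ)
    (hc : Continuous H) (hh : ∀ x, (H x).IsHermitian) (hd : ∀ x v, H x *ᵥ v = 0 → v = 0) (x0 : X)
    (h0 : (H x0).PosSemidef) (x : X) : (H x).PosSemidef := by
  have r : ∀ x, (H x).PosSemidef ↔ ∀ v, 0 ≤ (star v ⬝ᵥ H x *ᵥ v).re := fun x =>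
    ⟨fun h => h.re_dotProduct_nonneg, fun h => .of_dotProduct_mulVec_nonneg (hh x) fun v =>
      Complex.nonneg_iff.2 ⟨h v, ((hh x).im_star_dotProduct_mulVec_self v).symm⟩⟩
  have c : Continuous fun p : X × (n → ℂ) => (star p.2 ⬝ᵥ H p.1 *ᵥ p.2).re := by fun_prop
  have : IsClopen {x | (H x).PosSemidef} := by
    refine ⟨?_, isClosed_compl_iff.1 ?_⟩
    · simp only [r, setOf_forall]
      exact isClosed_iInter fun v => isClosed_le continuous_const (c.comp (.prodMk_left v))
    · have := isClosedMap_fst_of_compactSpace (X := X) (Y := Metric.sphere (0 : n → ℂ) 1) _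
        (isClosed_le (c.comp (continuous_id.prodMap continuous_subtype_val)) (continuous_const (y := 0)))
      convert this using 1
      ext x
      refine ⟨fun h => ?_, fun ⟨⟨_, v⟩, h, e⟩ k => ?_⟩
      · obtain ⟨v, hv⟩ := not_forall.1 (mt (r x).2 h)
        have : v ≠ 0 := by rintro rfl; simp at hv
        refine ⟨⟨x, ‖v‖⁻¹ • v, by simp [norm_smul, this]⟩, ?_, rfl⟩
        simp only [mem_setOf, Function.comp, Prod.map, id, star_smul, mulVec_smul, smul_dotProduct,
          dotProduct_smul, smul_re, star_trivial, smul_eq_mul]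
        have p := inv_nonneg.2 (norm_nonneg v)
        exact mul_nonpos_of_nonneg_of_nonpos p (mul_nonpos_of_nonneg_of_nonpos p (not_le.1 hv).le)
      · subst e
        have := hd _ _ ((PosSemidef.dotProduct_mulVec_zero_iff k v).1 (Complex.ext
          (le_antisymm h ((r _).1 k v)) ((hh _).im_star_dotProduct_mulVec_self _)))
        simpa [this] using v.2
  exact (this.eq_univ ⟨x0, h0⟩).ge (mem_univ x)

theorem flip (G P : Circle → Matrix n n ℂ) (h1 : Continuous G) (h2 : Continuous P)
    (h3 : ∀ s, (G s).IsHermitian) (h4 : ∀ s, P s * P s = P s) (h5 : ∀ s, (P s)ᴴ * G s * P s = G s * P s)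
    (h6 : ∀ s y, G s *ᵥ y = 0 → P s *ᵥ y = y) (h7 : ∀ s, G (-s) = -G s) (h8 : ∀ s, P (-s) = P s)
    (h9 : (G 1).PosSemidef) (s : Circle) : P s = 1 := by
  have a : ∀ s, (P s)ᴴ * G s = G s * P s := fun s => by
    have := congrArg conjTranspose (h5 s)
    simp only [conjTranspose_mul, conjTranspose_conjTranspose, (h3 s).eq, ← mul_assoc] at this
    rw [← this, h5]
  have b : ∀ s, G s - G s * P s = (1 - P s)ᴴ * G s * (1 - P s) := fun s => by
    simp [sub_mul, mul_sub, a, mul_assoc, h4]
  have q : ∀ s y, P s *ᵥ (y - P s *ᵥ y) = 0 := fun s y => by simp [mulVec_sub, h4]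
  have d : ∀ s y, (G s - G s * P s + (P s)ᴴ * P s) *ᵥ y = 0 → y = 0 := fun s y h => by
    have e : (P s)ᴴ * (G s - G s * P s + (P s)ᴴ * P s) = (P s)ᴴ * P s := by
      rw [mul_add, mul_sub, ← mul_assoc, h5, a, sub_self, zero_add, ← mul_assoc, ← conjTranspose_mul, h4]
    have k : ((P s)ᴴ * P s) *ᵥ y = 0 := by rw [← e, ← mulVec_mulVec, h, mulVec_zero]
    rw [add_mulVec, k, add_zero, sub_mulVec, ← mulVec_mulVec, ← mulVec_sub] at h
    have := (h6 s _ h).symm.trans (q s y)
    rwa [(conjTranspose_mul_self_mulVec_eq_zero _ _).1 k, sub_zero] at this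
  have c := core (fun s => G s - G s * P s + (P s)ᴴ * P s) (by fun_prop) (fun s => by
    rw [b]; exact (isHermitian_conjTranspose_mul_mul _ (h3 s)).add (isHermitian_conjTranspose_mul_self _))
    d 1 (by
      rw [b]; exact (h9.conjTranspose_mul_mul_same _).add (posSemidef_conjTranspose_mul_self _))
  refine ext_of_mulVec_single fun i => ?_
  generalize (Pi.single i 1 : n → ℂ) = y
  rw [one_mulVec, eq_comm, ← sub_eq_zero]
  refine d s _ (((c s).dotProduct_mulVec_zero_iff _).1 (le_antisymm ?_ ((c s).dotProduct_mulVec_nonneg _)))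
  have := (c (-s)).dotProduct_mulVec_nonneg (y - P s *ᵥ y)
  simp only [h7, h8, add_mulVec, sub_mulVec, ← mulVec_mulVec, q, mulVec_zero, sub_zero, add_zero,
    neg_mulVec, dotProduct_neg] at this ⊢
  exact neg_nonneg.1 this

def Good (G : Matrix n n ℂ) : Submonoid (Matrix n n ℂ) where
  carrier := {M | Mᴴ * G * M = G ∧ ∀ y, G *ᵥ y = 0 → M *ᵥ y = y}
  one_mem' := by simp
  mul_mem' := fun {a b} h k => ⟨by
    rw [conjTranspose_mul, ← mul_assoc, mul_assoc _ aᴴ, mul_assoc _ _ a, h.1, k.1],
    fun y e => by rw [← mulVec_mulVec, k.2 y e, h.2 y e]⟩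

theorem refl {G : Matrix n n ℂ} (h : G.IsHermitian) {a l : n → ℂ} {κ : ℂ} (h1 : star a ᵥ* G = κ • l)
    (h2 : star l = l) (h3 : κ ≠ 0) (h4 : κ + star κ + κ * (l ⬝ᵥ a) = 0) :
    1 + vecMulVec a l ∈ Good G := by
  refine ⟨?_, fun y e => ?_⟩
  · have : G *ᵥ a = star κ • l := by
      have := congrArg star h1
      rwa [star_vecMul, star_star, h.eq, star_smul, h2] at this
    simp only [conjTranspose_add, conjTranspose_one, conjTranspose_vecMulVec, h2, add_mul, mul_add,
      one_mul, mul_one, vecMulVec_mul, mul_vecMulVec, h1, this, add_mulVec, vecMulVec_mulVec]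
    ext i j
    simp only [Matrix.add_apply, vecMulVec_apply, Pi.smul_apply, Pi.add_apply, smul_eq_mul, smul_dotProduct,
      op_smul_eq_smul]
    linear_combination l i * l j * h4
  · have : l ⬝ᵥ y = 0 := by
      have := congrArg (star a ⬝ᵥ ·) e
      simpa [dotProduct_mulVec, h1, h3] using this
    simp [add_mulVec, vecMulVec_mulVec, this]

theorem fin_ord (G M : Circle → Matrix n n ℂ) (h1 : Continuous G) (h2 : Continuous M)
    (h3 : ∀ s, (G s).IsHermitian) (h4 : ∀ s, M s ∈ Good (G s)) (h7 : ∀ s, G (-s) = -G s)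
    (h8 : ∀ s, M (-s) = M s) (h9 : (G 1).PosSemidef) {k : ℕ} (hk : 0 < k) (h : ∀ s, M s ^ k = 1)
    (s : Circle) : M s = 1 := by
  have : (k : ℂ) ≠ 0 := by positivity
  let P : Circle → Matrix n n ℂ := fun s => (k : ℂ)⁻¹ • ∑ j ∈ Finset.range k, M s ^ j
  have a : ∀ s, M s * P s = P s := fun s => by
    have := mul_geom_sum (M s) k
    rw [h, sub_self, sub_mul, one_mul, sub_eq_zero] at this
    rw [mul_smul_comm, this]
  have b : ∀ s j, M s ^ j * P s = P s := fun s j => by
    induction j with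
    | zero => simp
    | succ j ih => rw [pow_succ, mul_assoc, a, ih]
  have c := flip G P h1 (by fun_prop) h3 (fun s => ?_) (fun s => ?_) (fun s y e => ?_) h7
    (fun s => by simp only [P, h8]) h9 s
  · simpa [c] using a s
  · change (_ • _) * P s = P s
    simp [Finset.sum_mul, b, ← Nat.cast_smul_eq_nsmul ℂ, smul_smul, this]
  · have e : ∀ j, (M s ^ j)ᴴ * G s * P s = G s * P s := fun j => by
      rw [← b s j, ← mul_assoc, (pow_mem (h4 s) j).1, b]
    change (_ • _)ᴴ * G s * P s = G s * P s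
    simp [conjTranspose_sum, Finset.sum_mul, e, ← Nat.cast_smul_eq_nsmul ℂ, smul_smul, this,
      -conjTranspose_pow]
  · simp [P, smul_mulVec, sum_mulVec, (pow_mem (h4 s) _).2 y e, ← Nat.cast_smul_eq_nsmul ℂ,
      smul_smul, this]

noncomputable def ev (s : Circle) : LaurentPolynomial ℤ →+* ℂ :=
  LaurentPolynomial.eval₂ (Int.castRingHom ℂ) (Circle.toUnits (s ^ 2))

theorem ev_T (s : Circle) (m : ℤ) : ev s (LaurentPolynomial.T m) = ((s : ℂ) ^ 2) ^ m := by
  simp [ev]

theorem ev_cont (f : LaurentPolynomial ℤ) : Continuous fun s => ev s f := by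
  induction f using LaurentPolynomial.induction_on' with
  | add p q a b => simpa only [map_add] using a.fun_add b
  | C_mul_T m a =>
    simp only [map_mul, ev_T]
    simp only [ev, LaurentPolynomial.eval₂_C]
    exact continuous_const.mul ((continuous_subtype_val.pow 2).zpow₀ _ fun s => Or.inl (by simp))

theorem ev_inj {f : LaurentPolynomial ℤ} (h : ∀ s, ev s f = 0) : f = 0 := by
  obtain ⟨m, g, e⟩ := f.exists_T_pow
  haveI : Nontrivial Circle := ⟨-1, 1, Circle.neg_ne_self 1⟩
  haveI : Infinite Circle := PreconnectedSpace.infinite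
  have : Polynomial.expand ℂ 2 (g.map (Int.castRingHom ℂ)) = 0 :=
    Polynomial.eq_zero_of_infinite_isRoot _ ((infinite_range_of_injective (α := Circle) Circle.coe_injective).mono
      (by
        rintro _ ⟨s, rfl⟩
        have := congrArg (ev s) e
        rw [map_mul, h, zero_mul, ev, LaurentPolynomial.eval₂_toLaurent] at this
        simpa [Polynomial.expand_eval, Polynomial.eval_map] using this))
  rw [Polynomial.expand_eq_zero two_pos, Polynomial.map_eq_zero_iff Int.cast_injective] at this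
  rw [this, map_zero, eq_comm] at e
  exact (LaurentPolynomial.isUnit_T _).mul_left_eq_zero.1 e

noncomputable def G (n : ℕ) (s : Circle) : Matrix (Fin n) (Fin n) ℂ := of fun i j =>
  (s : ℂ) ^ (2 * (j : ℕ)) * (s : ℂ)⁻¹ ^ (2 * (i : ℕ)) *
    ((if i ≤ j then (s : ℂ) else 0) + if j ≤ i then (s : ℂ)⁻¹ else 0)

theorem G_herm (n : ℕ) (s : Circle) : (G n s).IsHermitian := by
  ext i j
  have : star (s : ℂ) = (s : ℂ)⁻¹ := (Circle.coe_inv s ▸ Circle.coe_inv_eq_conj s).symm
  simp only [G, conjTranspose_apply, of_apply, star_mul', star_add, star_pow, star_inv₀, this,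
    apply_ite star, star_zero, inv_inv]
  ring

theorem G_cont (n : ℕ) : Continuous (G n) := continuous_matrix fun i j => by
  have : Continuous fun s : Circle => (s : ℂ) := continuous_subtype_val
  have : Continuous fun s : Circle => (s : ℂ)⁻¹ := this.inv₀ (by simp)
  simp only [G, of_apply]
  split_ifs <;> fun_prop

theorem G_neg (n : ℕ) (s : Circle) : G n (-s) = -G n s := by
  ext i j
  simp only [G, of_apply, Circle.coe_neg, inv_neg, pow_mul, neg_sq, Matrix.neg_apply]
  split_ifs <;> ring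

theorem G_one (n : ℕ) : (G n 1).PosSemidef := by
  convert PosSemidef.one.add (posSemidef_vecMulVec_self_star (1 : Fin n → ℂ))
  ext i j
  simp only [G, of_apply, Matrix.add_apply, Matrix.one_apply, vecMulVec_apply]
  split_ifs <;> first | omega | simp

theorem G_row {n : ℕ} (s : Circle) (a b : Fin n) (h : (b : ℕ) = a + 1) :
    G n s b - ((s : ℂ) ^ 2)⁻¹ • G n s a = -(s : ℂ)⁻¹ • (Pi.single a 1 - Pi.single b 1) := by
  ext j
  have := s.coe_ne_zero
  simp only [G, of_apply, Pi.sub_apply, Pi.smul_apply, Pi.single_apply, h, smul_eq_mul, Fin.le_def,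
    Fin.ext_iff, inv_pow]
  generalize (s : ℂ) = z at this
  generalize (a : ℕ) = a
  generalize (j : ℕ) = j
  split_ifs <;> first | omega | (subst_vars; field_simp; ring)

theorem gen {n : ℕ} (s : Circle) (a b : Fin n) (h : (b : ℕ) = a + 1) (c : ℂ)
    (hc : c = 1 ∨ c = ((s : ℂ) ^ 2)⁻¹) :
    1 + vecMulVec (c • (Pi.single b 1 - (s : ℂ) ^ 2 • Pi.single a 1))
      (Pi.single a 1 - Pi.single b 1) ∈ Good (G n s) := by
  have z := s.coe_ne_zero
  have e : star (s : ℂ) = (s : ℂ)⁻¹ := (Circle.coe_inv s ▸ Circle.coe_inv_eq_conj s).symm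
  have k : a ≠ b := by rintro rfl; omega
  refine refl (G_herm n s) (κ := star c * -(s : ℂ)⁻¹) ?_ (by simp [Pi.single_star]) ?_ ?_
  · rw [mul_smul, ← G_row s a b h]
    simp only [star_smul, star_sub, smul_vecMul, sub_vecMul, ← Pi.single_star, star_one, star_pow, e,
      single_one_vecMul, inv_pow]
    rfl
  · rcases hc with rfl | rfl <;> simp
  · simp only [star_mul', star_neg, star_star, star_inv₀, e, inv_inv, dotProduct_smul, dotProduct_sub,
      sub_dotProduct, single_dotProduct, Pi.single_apply, k, k.symm, if_true, if_false, smul_eq_mul]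
    rcases hc with rfl | rfl <;> simp only [star_one, star_inv₀, star_pow, e] <;> field_simp <;> ring

theorem main {n : ℕ} {S : Set (Matrix (Fin n) (Fin n) (LaurentPolynomial ℤ))}
    (hS : ∀ A ∈ S, ∀ s, (ev s).mapMatrix A ∈ Good (G n s)) {M} (hM : M ∈ Submonoid.closure S) {k : ℕ}
    (hk : 0 < k) (h : M ^ k = 1) : M = 1 := by
  have := fin_ord (G n) (fun s => (ev s).mapMatrix M) (G_cont n)
    (continuous_matrix fun i j => ev_cont _) (G_herm n)
    (fun s => Submonoid.closure_le (S := (Good (G n s)).comap (ev s).mapMatrix) |>.2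
      (fun A hA => hS A hA s) hM) (G_neg n) (fun s => by simp only [ev, neg_sq]) (G_one n) hk
    fun s => by rw [← map_pow, h, map_one]
  ext1 i j
  refine sub_eq_zero.1 (ev_inj fun s => ?_)
  have e : (ev s).mapMatrix (M - 1) = 0 := by rw [map_sub, this, map_one, sub_self]
  exact congrFun₂ e i j

end Pool.Agent.H77.Burau
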