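import Pool.Agent.H77.CmDefsO

namespace Pool.Agent.H77.Cm

variable {σ : Type} {M : CM σ}

theorem rev_le (t : SignType) (ht : t ≠ 0) (l : List SignType) :
    ∀ s, rev s l ≤ (if s = -t then 1 else 0) + rev t l := by
  induction l with
  | nil => intro s; simp [rev]
  | cons x l ih =>
    intro s
    simp only [rev]
    split_ifs with h1 h2 h3 h4 h5 h6 h7 h8
    all_goals first | omega | (simpa [*] using ih s) | skip
    all_goals
      exfalso
      clear ih
      revert s t x
      decide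

theorem rev_drop (l₂ l₃ : List SignType) : ∀ s, rev s l₃ ≤ rev s (l₂ ++ l₃) := by
  induction l₂ with
  | nil => intro s; simp
  | cons x l ih =>
    intro s
    simp only [List.cons_append, rev]
    split_ifs with h1 h2
    · exact ih s
    · have := rev_le x h1 l₃ s
      have := ih x
      simp only [h2, if_true] at *
      omega
    · have := rev_le x h1 l₃ s
      have := ih x
      simp only [h2, if_false] at *
      omega

theorem rev_cut (l₁ l₂ l₃ : List SignType) : ∀ s, rev s (l₁ ++ l₃) ≤ rev s (l₁ ++ l₂ ++ l₃) := by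
  induction l₁ with
  | nil => intro s; simpa using rev_drop l₂ l₃ s
  | cons x l ih =>
    intro s
    simp only [List.cons_append, rev]
    split_ifs
    · exact ih s
    · exact Nat.add_le_add_left (ih x) _
    · exact Nat.add_le_add_left (ih x) _

theorem Run.trans {c c' c'' : Cfg M} {τ τ' : List (Fin M.k → SignType)} (h : Run M c τ c')
    (h' : Run M c' τ' c'') : Run M c (τ ++ τ') c'' := by
  induction h with
  | nil c => exact h'
  | cons hs _ ih => exact Run.cons hs (ih h')

theorem Run.sum {c c' : Cfg M} {τ : List (Fin M.k → SignType)} (h : Run M c τ c') (i : Fin M.k) :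
    (c'.2.1 i : ℤ) = c.2.1 i + (τ.map fun u => (u i : ℤ)).sum := by
  induction h with
  | nil c => simp
  | cons hs _ ih =>
    obtain ⟨mv, -, h2, -⟩ := hs
    rw [ih, h2]
    simp [add_assoc]

/-- The computation that reads exactly `w`, ending with the move past its last letter. -/
inductive Seg (M : CM σ) : Fin M.n → (Fin M.k → ℕ) → List σ → List (Fin M.k → SignType) →
    Fin M.n → (Fin M.k → ℕ) → Prop
  | nil (q v) : Seg M q v [] [] q v
  | cons {q v a w q₁ v₁ u τ q' v'} (mv : Bool) :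
      (q₁, u, mv) ∈ M.δ q (some a) (fun i => decide (v i = 0)) →
      (∀ i, (v₁ i : ℤ) = v i + (u i : ℤ)) → Seg M q₁ v₁ (if mv then w else a :: w) τ q' v' →
      Seg M q v (a :: w) (u :: τ) q' v'

theorem Seg.run {q v w τ q' v'} (h : Seg M q v w τ q' v') (y : List σ) :
    Run M (q, v, w ++ y) τ (q', v', y) := by
  induction h with
  | nil q v => exact Run.nil _
  | @cons q v a w q₁ v₁ u τ q' v' mv h1 h2 _ ih =>
    refine Run.cons (c' := (q₁, v₁, (if mv then w else a :: w) ++ y)) ⟨mv, h1, h2, ?_⟩ ih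
    cases mv <;> simp

theorem Run.split {c c' : Cfg M} {τ : List (Fin M.k → SignType)} (h : Run M c τ c')
    (hc : c'.2.2 = []) : ∀ w y, c.2.2 = w ++ y → ∃ τ₁ τ₂ q v, τ = τ₁ ++ τ₂ ∧
      Seg M c.1 c.2.1 w τ₁ q v ∧ Run M (q, v, y) τ₂ c' := by
  induction h with
  | nil c =>
    intro w y e
    rw [hc] at e
    obtain ⟨rfl, rfl⟩ := List.append_eq_nil_iff.1 e.symm
    exact ⟨[], [], c.1, c.2.1, rfl, Seg.nil _ _, by rw [← hc]; exact Run.nil _⟩
  | @cons c c₁ c' u τ hs hr ih =>
    intro w y e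
    cases w with
    | nil =>
      refine ⟨[], u :: τ, c.1, c.2.1, rfl, Seg.nil _ _, ?_⟩
      rw [show y = c.2.2 by simpa using e.symm]
      exact Run.cons hs hr
    | cons a w =>
      obtain ⟨mv, h1, h2, h3⟩ := hs
      rw [e] at h1 h3
      obtain ⟨τ₁, τ₂, q, v, rfl, h4, h5⟩ := ih hc (if mv then w else a :: w) y (by
        cases mv
        · simpa using h3
        · obtain ⟨b, hb⟩ : ∃ b, a :: w ++ y = b :: c₁.2.2 := h3
          exact (List.cons.inj hb).2.symm)
      exact ⟨u :: τ₁, τ₂, q, v, rfl, Seg.cons mv h1 h2 h4, h5⟩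

theorem Seg.uniq (hd : Det M) (hb : Blind M) {q v w τ q' v'} (h : Seg M q v w τ q' v') :
    ∀ {x τ' q'' x'}, Seg M q x w τ' q'' x' → τ = τ' ∧ q' = q'' := by
  induction h with
  | nil q v =>
    intro x τ' q'' x' h'
    cases h'
    exact ⟨rfl, rfl⟩
  | cons mv h1 _ _ ih =>
    intro x τ' q'' x' h'
    cases h' with
    | cons mv' h1' _ h3' =>
      rw [hb _ _ _ (fun _ => true)] at h1 h1'
      obtain ⟨rfl, rfl, rfl⟩ := hd _ _ _ h1 h1'
      obtain ⟨rfl, rfl⟩ := ih h3'
      exact ⟨rfl, rfl⟩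

theorem Seg.sum {q v w τ q' v'} (h : Seg M q v w τ q' v') (i : Fin M.k) :
    (v' i : ℤ) = v i + (τ.map fun u => (u i : ℤ)).sum := (h.run []).sum i

theorem Seg.append {q v w τ q' v' w' τ' q'' v''} (h : Seg M q v w τ q' v')
    (h' : Seg M q' v' w' τ' q'' v'') : Seg M q v (w ++ w') (τ ++ τ') q'' v'' := by
  induction h with
  | nil q v => exact h'
  | cons mv h1 h2 _ ih =>
    refine Seg.cons mv h1 h2 ?_
    have := ih h'
    cases mv <;> exact this

theorem tail_uniq (hd : Det M) (hb : Blind M) {c c' : Cfg M} {τ} (h : Run M c τ c')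
    (hc : c.2.2 = []) : ∀ {x τ' c''}, Run M (c.1, x, []) τ' c'' → τ.length = τ'.length → τ = τ' := by
  induction h with
  | nil c =>
    intro x τ' c'' _ e
    exact (List.length_eq_zero_iff.1 e.symm).symm
  | @cons c c₁ c' u τ hs _ ih =>
    intro x τ' c'' h' e
    cases h' with
    | nil => simp at e
    | @cons _ c₂ _ u' τ'' hs' hr' =>
      obtain ⟨mv, h1, -, h3⟩ := hs
      obtain ⟨mv', h1', -, h3'⟩ := hs'
      rw [hc] at h1 h3
      rw [hb _ _ _ (fun _ => true)] at h1 h1'
      have e2 := hd _ _ _ h1 h1'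
      simp only [Prod.mk.injEq] at e2
      obtain ⟨e3, rfl, rfl⟩ := e2
      cases mv
      · simp only [Bool.false_eq_true, if_false] at h3 h3'
        obtain ⟨q₂, v₂, w₂⟩ := c₂
        simp only at h3' e3
        subst h3' e3
        rw [ih h3 hr' (by simpa using e)]
      · simp at h3

/-- The word `aⁿ bᵐ`. -/
def ab (n m : ℕ) : List Bool := List.replicate n false ++ List.replicate m true

/-- The witness language. -/
def LL : Set (List Bool) := {w | ∃ n m, n ≤ m ∧ w = ab n m}

theorem ab_inj {n m n' m' : ℕ} (e : ab n m = ab n' m') : n = n' ∧ m = m' := by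
  have h1 := congrArg (List.count false) e
  have h2 := congrArg (List.count true) e
  simp [ab, List.count_replicate] at h1 h2
  exact ⟨h1, h2⟩

theorem ab_add (n j t : ℕ) : ab n (j + t) = ab n j ++ List.replicate t true := by
  rw [ab, ab, List.replicate_add, List.append_assoc]

theorem lower (B : CM Bool) (hq : QR B) (hd : Det B) (hb : Blind B) (c : ℕ) : LR c B ≠ LL := by
  intro hL
  obtain ⟨d, hq⟩ := hq
  set n := B.n + 1 with hn
  have acc : ∀ m, n ≤ m → ab n m ∈ LR c B := fun m hm => by rw [hL]; exact ⟨n, m, hm, rfl⟩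
  have ex : ∀ j t, ∃ τ₁ q v τ₂ q' v', Seg B B.q₀ (fun _ => 0) (ab n j) τ₁ q v ∧
      Seg B q v (List.replicate t true) τ₂ q' v' := by
    intro j t
    obtain ⟨τ, f, -, h, -⟩ := acc (j + (t + n)) (by omega)
    obtain ⟨τ₁, τ₂, q, v, -, h1, h2⟩ := h.split rfl (ab n j) (List.replicate (t + n) true)
      (ab_add _ _ _)
    obtain ⟨τ₃, -, q', v', -, h3, -⟩ := h2.split rfl (List.replicate t true) (List.replicate n true)
      (List.replicate_add _ _ _)
    exact ⟨τ₁, q, v, τ₃, q', v', h1, h3⟩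
  choose T s v _ _ _ hs _ using fun j => ex j 0
  have uq : ∀ j τ q x, Seg B B.q₀ (fun _ => 0) (ab n j) τ q x → τ = T j ∧ q = s j ∧ x = v j := by
    intro j τ q x h
    obtain ⟨rfl, rfl⟩ := h.uniq hd hb (hs j)
    refine ⟨rfl, rfl, funext fun i => ?_⟩
    have h1 := h.sum i
    have h2 := (hs j).sum i
    omega
  have ext : ∀ j t, ∃ ρ, T (j + t) = T j ++ ρ ∧
      Seg B (s j) (v j) (List.replicate t true) ρ (s (j + t)) (v (j + t)) := by
    intro j t
    obtain ⟨τ₁, q, x, τ₂, q', x', h1, h2⟩ := ex j t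
    obtain ⟨rfl, rfl, rfl⟩ := uq _ _ _ _ h1
    have h3 := h1.append h2
    rw [← ab_add] at h3
    obtain ⟨e, rfl, rfl⟩ := uq _ _ _ _ h3
    exact ⟨τ₂, e.symm, h2⟩
  obtain ⟨i, p, hp, hi, hsp⟩ : ∃ i p, 0 < p ∧ i < n ∧ s (i + p) = s i := by
    obtain ⟨a, b, hab, e⟩ := Fintype.exists_ne_map_eq_of_card_lt (fun a : Fin n => s a)
      (by simp [hn])
    rcases lt_or_gt_of_ne (Fin.val_ne_of_ne hab) with h | h
    · exact ⟨a, b - a, by omega, a.2, by rw [show a.1 + (b - a) = b by omega, e]⟩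
    · exact ⟨b, a - b, by omega, b.2, by rw [show b.1 + (a - b) = a by omega, e]⟩
  obtain ⟨ρ, -, hρ⟩ := ext i p
  have per : ∀ r, s (i + r * p) = s i ∧
      ∀ x, (v (i + r * p) x : ℤ) = v i x + r * (ρ.map fun u => (u x : ℤ)).sum := by
    intro r
    induction r with
    | zero => simp
    | succ r ih =>
      obtain ⟨ρ', -, h⟩ := ext (i + r * p) p
      rw [show i + r * p + p = i + (r + 1) * p by ring] at h
      have h' := h
      rw [ih.1] at h'
      obtain ⟨rfl, e⟩ := h'.uniq hd hb hρ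
      refine ⟨e.trans hsp, fun x => ?_⟩
      rw [h.sum x, ih.2 x]
      push_cast
      ring
  have tl : ∀ r : ℕ, ∃ τ, ∃ f ∈ B.F, Run B (s i, v (i + (n + r) * p), []) τ (f, fun _ => 0, []) ∧
      τ.length ≤ d ∧ ∑ x, rev 0 ((T (i + (n + r) * p) ++ τ).map fun u => u x) ≤ c := by
    intro r
    obtain ⟨τ, f, hf, h, hc⟩ := acc (i + (n + r) * p) (by nlinarith)
    obtain ⟨τ₁, τ₂, q, x, rfl, h1, h2⟩ := h.split rfl (ab n (i + (n + r) * p)) [] (by simp)
    have h3 := hq _ _ _ _ _ (by simpa using h1.run []) h2 rfl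
    obtain ⟨rfl, rfl, rfl⟩ := uq _ _ _ _ h1
    rw [(per _).1] at h2
    exact ⟨τ₂, f, hf, h2, h3, hc⟩
  choose R f hf hR hl hc using tl
  obtain ⟨a, b, hab, e⟩ := Fintype.exists_ne_map_eq_of_card_lt
    (fun a : Fin (d + 2) => (⟨(R a).length, Nat.lt_succ_of_le (hl a)⟩ : Fin (d + 1))) (by simp)
  have e2 := tail_uniq hd hb (hR a) rfl (hR b) (by simpa using e)
  have e3 : v (i + (n + a) * p) = v i := by
    funext x
    have h1 := (hR a).sum x
    have h2 := (hR b).sum x
    have h3 := (per (n + a)).2 x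
    have h4 := (per (n + b)).2 x
    rw [e2] at h1
    simp only at h1 h2
    have h5 : ((a : ℕ) - (b : ℕ) : ℤ) * (ρ.map fun u => (u x : ℤ)).sum = 0 := by
      push_cast at h3 h4
      linarith
    have h6 := (mul_eq_zero.1 h5).resolve_left (by
      have := Fin.val_ne_of_ne hab
      omega)
    rw [h6] at h3
    simpa using h3
  have hin : ab n i ∈ LR c B := by
    refine ⟨T i ++ R a, f a, hf a, ?_, le_trans (Finset.sum_le_sum fun x _ => ?_) (hc a)⟩
    · have := (hs i).run []
      rw [List.append_nil] at this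
      refine this.trans ?_
      rw [← e3]
      exact hR a
    · obtain ⟨ρ', h, -⟩ := ext i ((n + a) * p)
      rw [h]
      simpa using rev_cut _ _ _ 0
  rw [hL] at hin
  obtain ⟨n', m', h1, h2⟩ := hin
  obtain ⟨rfl, rfl⟩ := ab_inj h2
  omega

end Pool.Agent.H77.Cm
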