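import Pool.Agent.H77.CmA

namespace Pool.Agent.H77.Cm

/-- The moves of the one-counter machine. -/
def dA (q : Fin 2) (a : Option Bool) (z : Fin 1 → Bool) : Set (Fin 2 × (Fin 1 → SignType) × Bool) :=
  match a with
  | none => ∅
  | some false => {m | q = 0 ∧ m = (0, fun _ => 1, true)}
  | some true => {(1, fun _ => if z 0 then 0 else -1, true)}

/-- The one-counter machine. -/
abbrev A : CM Bool := ⟨2, 1, 0, Set.univ, dA⟩

theorem A_det : Det A := by
  rintro q (_ | _ | _) z
  · exact Set.subsingleton_empty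
  · rintro x ⟨-, rfl⟩ y ⟨-, rfl⟩
    rfl
  · exact Set.subsingleton_singleton

theorem A_step {c c' : Cfg A} {u} (h : Step A c u c') :
    (c.1 = (0 : Fin 2) ∧ c'.1 = (0 : Fin 2) ∧ c.2.2 = false :: c'.2.2 ∧
      c'.2.1 (0 : Fin 1) = c.2.1 (0 : Fin 1) + 1) ∨
    (c'.1 = (1 : Fin 2) ∧ c.2.2 = true :: c'.2.2 ∧ c.2.1 (0 : Fin 1) ≤ c'.2.1 (0 : Fin 1) + 1) := by
  obtain ⟨q, v, w⟩ := c
  obtain ⟨q', v', w'⟩ := c'
  obtain ⟨mv, h1, h2, h3⟩ := h
  have h4 := h2 (0 : Fin 1)
  rcases w with _ | ⟨_ | _, w⟩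
  · exact absurd h1 (Set.notMem_empty _)
  · obtain ⟨h5, h6⟩ := h1
    simp only [Prod.mk.injEq] at h6
    obtain ⟨rfl, rfl, rfl⟩ := h6
    obtain ⟨a, ha⟩ := h3
    obtain ⟨rfl, rfl⟩ := List.cons.inj ha
    refine Or.inl ⟨h5, rfl, rfl, ?_⟩
    simp only [SignType.coe_one] at h4
    exact_mod_cast h4
  · have h6 : (q', u, mv) = ((1 : Fin 2), fun _ => if decide (v (0 : Fin 1) = 0) then 0 else -1,
      true) := h1
    simp only [Prod.mk.injEq] at h6
    obtain ⟨rfl, rfl, rfl⟩ := h6
    obtain ⟨a, ha⟩ := h3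
    obtain ⟨rfl, rfl⟩ := List.cons.inj ha
    refine Or.inr ⟨rfl, rfl, ?_⟩
    simp only at h4 ⊢
    split_ifs at h4 <;> simp at h4 <;> omega

theorem A_len {c c' : Cfg A} {τ} (h : Run A c τ c') : c.2.2.length = τ.length + c'.2.2.length := by
  induction h with
  | nil c => simp
  | cons hs _ ih =>
    rcases A_step hs with ⟨-, -, h, -⟩ | ⟨-, h, -⟩ <;>
    · rw [h, List.length_cons, ih, List.length_cons]
      omega

theorem A_qr : QR A := ⟨0, fun _ _ _ _ _ _ h e => by
  have := A_len h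
  rw [e] at this
  omega⟩

theorem A_sound {c c' : Cfg A} {τ} (h : Run A c τ c') (h1 : c'.2.2 = [])
    (h2 : c'.2.1 (0 : Fin 1) = 0) : ∃ n m, c.2.2 = ab n m ∧ c.2.1 (0 : Fin 1) + n ≤ m ∧
      (c.1 = (1 : Fin 2) → n = 0) := by
  induction h with
  | nil c => exact ⟨0, 0, h1, by omega, fun _ => rfl⟩
  | cons hs _ ih =>
    obtain ⟨n, m, e, hle, h0⟩ := ih h1 h2
    rcases A_step hs with ⟨h3, -, h4, h5⟩ | ⟨h3, h4, h5⟩
    · exact ⟨n + 1, m, by rw [h4, e]; rfl, by omega, fun h => absurd (h3.symm.trans h) (by decide)⟩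
    · obtain rfl := h0 h3
      exact ⟨0, m + 1, by rw [h4, e]; rfl, by omega, fun _ => rfl⟩

theorem A_up (n : ℕ) (w : List Bool) : ∀ v : ℕ, Run A ((0 : Fin 2), fun _ => v,
    List.replicate n false ++ w) (List.replicate n fun _ => 1) ((0 : Fin 2), fun _ => v + n, w) := by
  induction n with
  | zero => exact fun v => Run.nil _
  | succ n ih =>
    intro v
    have := ih (v + 1)
    rw [show v + 1 + n = v + (n + 1) by ring] at this
    exact Run.cons (c' := ((0 : Fin 2), fun _ => v + 1, List.replicate n false ++ w))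
      ⟨true, ⟨rfl, rfl⟩, fun _ => by simp, ⟨false, rfl⟩⟩ this

theorem A_down (n : ℕ) (w : List Bool) : ∀ q : Fin 2, ∃ q' : Fin 2, Run A (q, fun _ => n,
    List.replicate n true ++ w) (List.replicate n fun _ => -1) (q', fun _ => 0, w) := by
  induction n with
  | zero => exact fun q => ⟨q, Run.nil _⟩
  | succ n ih =>
    intro q
    obtain ⟨q', h⟩ := ih 1
    exact ⟨q', Run.cons (c' := ((1 : Fin 2), fun _ => n, List.replicate n true ++ w))
      ⟨true, Set.mem_singleton_iff.2 rfl, fun _ => by simp, ⟨true, rfl⟩⟩ h⟩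

theorem A_rest (n : ℕ) : ∀ q : Fin 2, ∃ q' : Fin 2, Run A (q, fun _ => 0,
    List.replicate n true) (List.replicate n fun _ => 0) (q', fun _ => 0, []) := by
  induction n with
  | zero => exact fun q => ⟨q, Run.nil _⟩
  | succ n ih =>
    intro q
    obtain ⟨q', h⟩ := ih 1
    exact ⟨q', Run.cons (c' := ((1 : Fin 2), fun _ => 0, List.replicate n true))
      ⟨true, Set.mem_singleton_iff.2 rfl, fun _ => by simp, ⟨true, rfl⟩⟩ h⟩

theorem rev_zero (s : SignType) (n : ℕ) : rev s (List.replicate n 0) = 0 := by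
  induction n with
  | zero => rfl
  | succ n ih => simpa [List.replicate_succ, rev] using ih

theorem rev_same (s : SignType) (hs : s ≠ 0) (n : ℕ) (l : List SignType) :
    rev s (List.replicate n s ++ l) = rev s l := by
  have : s ≠ -s := by revert s; decide
  induction n with
  | zero => rfl
  | succ n ih => simpa [List.replicate_succ, rev, hs, this] using ih

theorem A_lang (c : ℕ) (hc : 1 ≤ c) : LR c A = LL := by
  ext w
  constructor
  · rintro ⟨τ, f, -, h, -⟩
    obtain ⟨n, m, e, hle, -⟩ := A_sound h rfl rfl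
    exact ⟨n, m, by omega, e⟩
  · rintro ⟨n, m, hle, rfl⟩
    obtain ⟨t, rfl⟩ := Nat.exists_eq_add_of_le hle
    have h1 := A_up n (List.replicate n true ++ List.replicate t true) 0
    obtain ⟨q, h2⟩ := A_down n (List.replicate t true) 0
    obtain ⟨q', h3⟩ := A_rest t q
    rw [Nat.zero_add] at h1
    refine ⟨_, q', trivial, by rw [ab, List.replicate_add]; exact h1.trans (h2.trans h3), ?_⟩
    have e : ∀ g : Fin A.k → ℕ, ∑ i, g i = g (0 : Fin 1) := fun g => Fin.sum_univ_one g
    rw [e]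
    simp only [List.map_append, List.map_replicate]
    have a1 := rev_le 1 (by decide) (List.replicate n 1 ++ (List.replicate n (-1) ++
      List.replicate t 0)) 0
    have a2 := rev_le (-1) (by decide) (List.replicate n (-1) ++ List.replicate t 0) 1
    rw [rev_same _ (by decide)] at a1 a2
    rw [rev_zero] at a2
    simp at a1 a2
    omega

end Pool.Agent.H77.Cm
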