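import Mathlib

/-! Factorizations, distance and the monotone catenary degree of a commutative monoid. -/

namespace H77.Cm

open Classical

variable {H : Type*} [CommMonoid H]

/-- `z` is a factorization of `a`: a multiset of atoms of `H_red` with product `a H^×`. -/
def IsFact (a : H) (z : Multiset (Associates H)) : Prop :=
  (∀ p ∈ z, Irreducible p) ∧ z.prod = Associates.mk a

/-- The distance of two factorizations (`z - z'` is `z` with `gcd(z, z')` removed). -/
noncomputable def dist (z z' : Multiset (Associates H)) : ℕ :=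
  max (Multiset.card (z - z')) (Multiset.card (z' - z))

/-- `z` and `z'` are joined by a monotone `N`-chain of factorizations of `a`. -/
def MonoChain (a : H) (N : ℕ∞) (z z' : Multiset (Associates H)) : Prop :=
  ∃ (r : ℕ) (c : ℕ → Multiset (Associates H)), c 0 = z ∧ c r = z' ∧
    (∀ i ≤ r, IsFact a (c i)) ∧ (∀ i < r, (dist (c i) (c (i + 1)) : ℕ∞) ≤ N) ∧
    ((∀ i < r, Multiset.card (c i) ≤ Multiset.card (c (i + 1))) ∨
      (∀ i < r, Multiset.card (c (i + 1)) ≤ Multiset.card (c i)))

/-- The equal catenary degree of an element. -/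
noncomputable def cEqAt (a : H) : ℕ∞ :=
  sInf {N : ℕ∞ | ∀ z z', IsFact a z → IsFact a z' → Multiset.card z = Multiset.card z' →
    MonoChain a N z z'}

/-- The set of lengths. -/
def lengths (a : H) : Set ℕ := {k | ∃ z, IsFact a z ∧ Multiset.card z = k}

/-- `k < l` are adjacent lengths of `a`. -/
def Adjacent (a : H) (k l : ℕ) : Prop :=
  k ∈ lengths a ∧ l ∈ lengths a ∧ k < l ∧ ∀ j ∈ lengths a, ¬ (k < j ∧ j < l)

/-- The adjacent catenary degree of an element. -/
noncomputable def cAdjAt (a : H) : ℕ∞ :=
  ⨆ (k : ℕ) (l : ℕ) (_ : Adjacent a k l),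
    sInf {d : ℕ∞ | ∃ z z', IsFact a z ∧ IsFact a z' ∧ Multiset.card z = k ∧
      Multiset.card z' = l ∧ d = dist z z'}

variable (H)

/-- The equal catenary degree of the monoid. -/
noncomputable def cEq : ℕ∞ := ⨆ a : H, cEqAt a

/-- The adjacent catenary degree of the monoid. -/
noncomputable def cAdj : ℕ∞ := ⨆ a : H, cAdjAt a

/-- The monotone catenary degree of the monoid. -/
noncomputable def cMon : ℕ∞ := max (cEq H) (cAdj H)

variable {H}

/-- `S` is a conductor submonoid of `F`: every non-invertible `a ∈ S` has `a F ⊆ S`. -/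
def IsConductor {F : Type*} [CommMonoid F] (S : Submonoid F) : Prop :=
  ∀ a : S, ¬ IsUnit a → ∀ f : F, (a : F) * f ∈ S

end H77.Cm
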