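import Mathlib

/-! One-way multicounter machines, reversals. -/

namespace Pool.Agent.H77.Cm

/-- A one-way multicounter machine with `n` states and `k` counters.  A move (new state, change
of each counter, whether the head advances) depends on the state, the scanned symbol (`none`
once the input is read) and on which counters are zero. -/
structure CM (σ : Type) : Type where
  n : ℕ
  k : ℕ
  q₀ : Fin n
  F : Set (Fin n)
  δ : Fin n → Option σ → (Fin k → Bool) → Set (Fin n × (Fin k → SignType) × Bool)

variable {σ : Type}

/-- Configurations: state, counters, unread input. -/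
abbrev Cfg (M : CM σ) : Type := Fin M.n × (Fin M.k → ℕ) × List σ

/-- One step with counter changes `u`; a move making a counter negative is blocked. -/
def Step (M : CM σ) (c : Cfg M) (u : Fin M.k → SignType) (c' : Cfg M) : Prop :=
  ∃ mv : Bool, (c'.1, u, mv) ∈ M.δ c.1 c.2.2.head? (fun i => decide (c.2.1 i = 0)) ∧
    (∀ i, (c'.2.1 i : ℤ) = c.2.1 i + (u i : ℤ)) ∧
    (if mv then ∃ a, c.2.2 = a :: c'.2.2 else c'.2.2 = c.2.2)

/-- Computations, with the list of counter changes. -/
inductive Run (M : CM σ) : Cfg M → List (Fin M.k → SignType) → Cfg M → Prop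
  | nil (c : Cfg M) : Run M c [] c
  | cons {c c' c'' : Cfg M} {u : Fin M.k → SignType} {τ : List (Fin M.k → SignType)} :
      Step M c u c' → Run M c' τ c'' → Run M c (u :: τ) c''

/-- At most one move in every situation. -/
def Det (M : CM σ) : Prop := ∀ q a z, (M.δ q a z).Subsingleton

/-- The moves do not depend on the zero tests. -/
def Blind (M : CM σ) : Prop := ∀ q a z z', M.δ q a z = M.δ q a z'

/-- No move is made once the input is read. -/
def NoEnd (M : CM σ) : Prop := ∀ q z, M.δ q none z = ∅

/-- Quasi-realtime: the head stays on a cell for at most `d` steps. -/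
def QR (M : CM σ) : Prop :=
  ∃ d : ℕ, ∀ w τ₁ c τ c', Run M (M.q₀, fun _ => 0, w) τ₁ c → Run M c τ c' → c'.2.2 = c.2.2 →
    τ.length ≤ d

/-- Reversals of one counter; the first argument is the last nonzero change (`0` if none). -/
def rev : SignType → List SignType → ℕ
  | _, [] => 0
  | s, x :: l => if x = 0 then rev s l else (if s = -x then 1 else 0) + rev x l

/-- The words with an accepting computation making at most `c` reversals in total. -/
def LR (c : ℕ) (M : CM σ) : Set (List σ) :=
  {w | ∃ τ, ∃ f ∈ M.F, Run M (M.q₀, fun _ => 0, w) τ (f, fun _ => 0, []) ∧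
    ∑ i, rev 0 (τ.map fun u => u i) ≤ c}

end Pool.Agent.H77.Cm
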