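import Pool.Agent.H77.CwDefs

namespace H77.Cw

open Classical

theorem exists_fast (s : ℕ → ℚ) : ∃ f : ℚ → ℚ, Monotone f ∧ Function.Bijective f ∧
    ∀ n : ℕ, s n < f (n + 1) := by
  let T : ℤ → ℚ := fun z => z + ∑ k ∈ Finset.range z.toNat, |s k|
  have hT : ∀ z, T z + 1 ≤ T (z + 1) := by
    intro z
    have : ∑ k ∈ Finset.range z.toNat, |s k| ≤ ∑ k ∈ Finset.range (z + 1).toNat, |s k| :=
      Finset.sum_le_sum_of_subset_of_nonneg (Finset.range_mono (by omega))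
        (fun _ _ _ => abs_nonneg _)
    simp only [T]
    push_cast
    linarith
  have hm : Monotone T := monotone_int_of_le_succ (fun z => by have := hT z; linarith)
  have hge : ∀ z : ℤ, (z : ℚ) ≤ T z := by
    intro z
    have : 0 ≤ ∑ k ∈ Finset.range z.toNat, |s k| := Finset.sum_nonneg (fun _ _ => abs_nonneg _)
    simp only [T]; linarith
  let f : ℚ → ℚ := fun x => T ⌊x⌋ + Int.fract x * (T (⌊x⌋ + 1) - T ⌊x⌋)
  have hs : StrictMono f := by
    intro x y hxy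
    have h1 := Int.fract_nonneg x
    have h2 := Int.fract_lt_one x
    have h3 := Int.fract_nonneg y
    have h4 := hT ⌊x⌋
    have h5 := hT ⌊y⌋
    rcases (Int.floor_mono hxy.le).eq_or_lt with h | h
    · have : Int.fract x < Int.fract y := by
        rw [Int.fract, Int.fract, h]; linarith
      simp only [f, ← h]
      nlinarith
    · have := hm (show ⌊x⌋ + 1 ≤ ⌊y⌋ from h)
      simp only [f]
      nlinarith
  refine ⟨f, hs.monotone, ⟨hs.injective, ?_⟩, ?_⟩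
  · intro y
    obtain ⟨z, hz, hz'⟩ := Int.exists_greatest_of_bdd (P := fun z => T z ≤ y)
      ⟨⌊y⌋, fun z hz => Int.le_floor.2 ((hge z).trans hz)⟩
      ⟨min ⌊y⌋ 0, by
        have : (min ⌊y⌋ 0).toNat = 0 := by omega
        simp only [T, this, Finset.range_zero, Finset.sum_empty, add_zero]
        exact Int.le_floor.1 (min_le_left _ _)⟩
    have h1 : y < T (z + 1) := by
      by_contra h
      have := hz' _ (not_lt.1 h)
      omega
    have h2 := hT z
    have h3 : 0 < T (z + 1) - T z := by linarith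
    let r := (y - T z) / (T (z + 1) - T z)
    have r0 : 0 ≤ r := div_nonneg (by linarith) h3.le
    have r1 : r < 1 := (div_lt_one h3).2 (by linarith)
    have hf : ⌊(z : ℚ) + r⌋ = z := Int.floor_eq_iff.2 ⟨by linarith, by linarith⟩
    refine ⟨z + r, ?_⟩
    simp only [f, Int.fract, hf, add_sub_cancel_left, r]
    field_simp
    ring
  · intro n
    have e : ((n : ℚ) + 1) = ((n + 1 : ℤ) : ℚ) := by push_cast; rfl
    simp only [f, e, Int.floor_intCast, Int.fract_intCast, zero_mul, add_zero, T]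
    have : ((n : ℤ) + 1).toNat = n + 1 := by omega
    rw [this, Finset.sum_range_succ]
    have h1 : 0 ≤ ∑ k ∈ Finset.range n, |s k| := Finset.sum_nonneg (fun _ _ => abs_nonneg _)
    have h2 := le_abs_self (s n)
    have h3 : (0 : ℚ) ≤ n := Nat.cast_nonneg n
    push_cast
    linarith

theorem comm_bound (C : Set (ℚ → ℚ)) (hm : ∀ a ∈ C, Monotone a)
    (hc : ∀ a ∈ C, ∀ b ∈ C, ∀ x, a (b x) = b (a x)) :
    ∃ h : ℚ → ℚ → ℚ, ∀ a ∈ C, ∃ q, ∀ y, a y ≤ h q y := by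
  by_cases h : ∃ x, ∀ y, ∃ b ∈ C, y ≤ b x
  · obtain ⟨x, hx⟩ := h
    choose b hb hb' using hx
    refine ⟨fun q y => b y q, fun a ha => ⟨a x, fun y => ?_⟩⟩
    show a y ≤ b y (a x)
    rw [← hc a ha _ (hb y)]
    exact hm a ha (hb' y)
  · push Not at h
    choose u hu using h
    exact ⟨fun _ y => u y, fun a ha => ⟨0, fun y => (hu y a ha).le⟩⟩

theorem prod_bound (S : Submonoid (Function.End ℚ)) (hS : ∀ f ∈ S, Monotone (f : ℚ → ℚ)) (n : ℕ)
    (C : Fin n → Submonoid S) (hC : ∀ i, ∀ a ∈ C i, ∀ b ∈ C i, a * b = b * a) :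
    ∃ H : Set (ℚ → ℚ), H.Countable ∧ ∀ c : Fin n → S, (∀ i, c i ∈ C i) →
      ∃ h ∈ H, ∀ y, ((List.ofFn c).prod : S).1 y ≤ h y := by
  induction n with
  | zero => exact ⟨{id}, Set.countable_singleton _, fun c _ => ⟨id, rfl, fun y => le_rfl⟩⟩
  | succ n ih =>
    obtain ⟨H, h1, h2⟩ := ih (fun i => C i.succ) (fun i => hC i.succ)
    obtain ⟨g, hg⟩ := comm_bound ((fun a : S => (a.1 : ℚ → ℚ)) '' (C 0)) (by
      rintro _ ⟨a, -, rfl⟩; exact hS _ a.2) (by
      rintro _ ⟨a, ha, rfl⟩ _ ⟨b, hb, rfl⟩ x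
      exact congrFun (congrArg Subtype.val (hC 0 a ha b hb)) x)
    refine ⟨Set.image2 (fun q h => g q ∘ h) Set.univ H, Set.countable_univ.image2 h1 _, ?_⟩
    intro c hc
    obtain ⟨h, h3, h4⟩ := h2 (fun i => c i.succ) (fun i => hc i.succ)
    obtain ⟨q, hq⟩ := hg _ ⟨c 0, hc 0, rfl⟩
    refine ⟨g q ∘ h, ⟨q, trivial, h, h3, rfl⟩, fun y => ?_⟩
    rw [List.ofFn_succ, List.prod_cons]
    exact (hS _ (c 0).2 (h4 y)).trans (hq _)

theorem not_prod (S : Submonoid (Function.End ℚ)) (hS : ∀ f ∈ S, Monotone (f : ℚ → ℚ))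
    (hS' : ∀ f : ℚ → ℚ, Monotone f → Function.Bijective f → (f : Function.End ℚ) ∈ S) (n : ℕ) :
    ¬ IsProd S n := by
  rintro ⟨C, hC, h⟩
  obtain ⟨H, h1, h2⟩ := prod_bound S hS n C hC
  obtain ⟨g, hg⟩ := h1.exists_eq_range (by
    obtain ⟨h, h3, -⟩ := h2 (fun _ => 1) (fun i => one_mem _)
    exact ⟨h, h3⟩)
  obtain ⟨f, f1, f2, f3⟩ := exists_fast (fun k => g k (k + 1))
  obtain ⟨c, c1, c2⟩ := h ⟨f, hS' f f1 f2⟩
  obtain ⟨h, h3, h4⟩ := h2 c c1
  rw [hg] at h3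
  obtain ⟨k, rfl⟩ := h3
  have := h4 (k + 1)
  rw [← c2] at this
  exact absurd (f3 k) (not_lt.2 this)

theorem rec_choice {D V : Type} [Nonempty V] (e : D → ℕ) (P : D → (D → V) → V → Prop)
    (hdep : ∀ a f f' z, (∀ b, e b < e a → f b = f' b) → P a f z → P a f' z)
    (hex : ∀ a f, ∃ z, P a f z) : ∃ j : D → V, ∀ a, P a j (j a) := by
  let F : ∀ a : D, (∀ b, e b < e a → V) → V := fun a g =>
    (hex a (fun b => if h : e b < e a then g b h else Classical.arbitrary V)).choose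
  let j : D → V := (measure e).wf.fix F
  refine ⟨j, fun a => ?_⟩
  have h1 : j a = F a (fun b _ => j b) := WellFounded.fix_eq _ _ _
  rw [h1]
  refine hdep a _ j _ ?_ (hex a _).choose_spec
  intro b hb
  simp only [hb, dif_pos]

variable {V : Type} {G : SimpleGraph V}

theorem fin_lt {D : Type} {e : D → ℕ} (he : Function.Injective e) (n : ℕ) :
    {b | e b < n}.Finite :=
  (Set.finite_lt_nat n).preimage he.injOn

theorem IsRandom.ext (h : IsRandom G) {U W : Set V} (hU : U.Finite) (hW : W.Finite) :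
    ∃ z, z ∉ U ∧ z ∉ W ∧ (∀ u ∈ U, G.Adj z u) ∧ ∀ w ∈ W, w ∉ U → ¬ G.Adj z w := by
  obtain ⟨z, h1, h2, h3, h4⟩ := h hU.toFinset (hW.toFinset \ hU.toFinset) Finset.disjoint_sdiff
  simp only [Set.Finite.mem_toFinset, Finset.mem_sdiff] at h1 h2 h3 h4
  exact ⟨z, h1, fun hz => h2 ⟨hz, h1⟩, h3, fun w hw hw' => h4 w ⟨hw, hw'⟩⟩

theorem exists_emb [Countable V] (h : IsRandom G) {D : Type} [Countable D] (A : D → D → Prop)
    (hs : ∀ a b, A a b → A b a) (hi : ∀ a, ¬ A a a) :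
    ∃ j : D → V, Function.Injective j ∧ (∀ a b, G.Adj (j a) (j b) ↔ A a b) ∧
      ∀ v, v ∉ Set.range j → {a | G.Adj (j a) v}.Finite := by
  obtain ⟨e, he⟩ := exists_injective_nat D
  obtain ⟨eV, heV⟩ := exists_injective_nat V
  haveI : Nonempty V := ⟨(h ∅ ∅ (by simp)).choose⟩
  obtain ⟨j, hj⟩ := rec_choice e (fun a f z => (∀ b, e b < e a → z ≠ f b) ∧
      (∀ b, e b < e a → A a b → G.Adj z (f b)) ∧
      ∀ v, ((∃ b, e b < e a ∧ v = f b) ∨ eV v < e a) →
        (¬ ∃ b, e b < e a ∧ A a b ∧ v = f b) → ¬ G.Adj z v) (by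
    rintro a f f' z hf ⟨h1, h2, h3⟩
    refine ⟨fun b hb => hf b hb ▸ h1 b hb, fun b hb hA => hf b hb ▸ h2 b hb hA, ?_⟩
    intro v hv hv'
    refine h3 v (hv.imp_left ?_) ?_
    · rintro ⟨b, hb, rfl⟩; exact ⟨b, hb, (hf b hb).symm⟩
    · rintro ⟨b, hb, hA, rfl⟩; exact hv' ⟨b, hb, hA, hf b hb⟩) (by
    intro a f
    obtain ⟨z, h1, h2, h3, h4⟩ := h.ext (U := f '' {b | e b < e a ∧ A a b})
      (W := f '' {b | e b < e a} ∪ {v | eV v < e a})
      (((fin_lt he _).subset (fun b hb => hb.1)).image f)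
      (((fin_lt he _).image f).union (fin_lt heV _))
    refine ⟨z, fun b hb hz => h2 (Or.inl ⟨b, hb, hz.symm⟩), fun b hb hA => h3 _ ⟨b, ⟨hb, hA⟩, rfl⟩,
      fun v hv hv' => h4 v (hv.imp_left ?_) ?_⟩
    · rintro ⟨b, hb, rfl⟩; exact ⟨b, hb, rfl⟩
    · rintro ⟨b, ⟨hb, hA⟩, rfl⟩; exact hv' ⟨b, hb, hA, rfl⟩)
  have hinj : Function.Injective j := by
    intro a b hab
    rcases lt_trichotomy (e a) (e b) with h1 | h1 | h1
    · exact absurd hab.symm ((hj b).1 a h1)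
    · exact he h1
    · exact absurd hab ((hj a).1 b h1)
  have key : ∀ a b, e b < e a → (G.Adj (j a) (j b) ↔ A a b) := by
    intro a b hb
    refine ⟨fun hadj => ?_, (hj a).2.1 b hb⟩
    by_contra hA
    refine (hj a).2.2 _ (Or.inl ⟨b, hb, rfl⟩) ?_ hadj
    rintro ⟨b', -, hA', hb'⟩
    rw [← hinj hb'] at hA'
    exact hA hA'
  refine ⟨j, hinj, ?_, ?_⟩
  · intro a b
    rcases lt_trichotomy (e a) (e b) with h1 | h1 | h1
    · rw [G.adj_comm, key b a h1]; exact ⟨hs _ _, hs _ _⟩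
    · rw [he h1]; exact ⟨fun h => absurd h G.irrefl, fun h => absurd h (hi _)⟩
    · exact key a b h1
  · intro v hv
    refine (fin_lt he (eV v + 1)).subset ?_
    intro a ha
    by_contra hlt
    refine (hj a).2.2 v (Or.inr (by simpa using hlt)) ?_ ha
    rintro ⟨b, -, -, rfl⟩
    exact hv ⟨b, rfl⟩

theorem exists_ext [Countable V] (h : IsRandom G) {D : Type} {A : D → D → Prop} {j : D → V}
    (hinj : Function.Injective j) (hA : ∀ a b, G.Adj (j a) (j b) ↔ A a b)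
    (hf : ∀ v, v ∉ Set.range j → {a | G.Adj (j a) v}.Finite) (g : D → V)
    (hg : ∀ a b, A a b → G.Adj (g a) (g b)) :
    ∃ H : V → V, (∀ x y, G.Adj x y → G.Adj (H x) (H y)) ∧ ∀ a, H (j a) = g a := by
  obtain ⟨e, he⟩ := exists_injective_nat V
  haveI : Nonempty V := ⟨(h ∅ ∅ (by simp)).choose⟩
  obtain ⟨H, hH⟩ := rec_choice e (fun v f z => (∀ a, v = j a → z = g a) ∧
      (v ∉ Set.range j → (∀ a, G.Adj (j a) v → G.Adj z (g a)) ∧
        ∀ w, e w < e v → G.Adj z (f w))) (by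
    rintro a f f' z hf ⟨h1, h2⟩
    exact ⟨h1, fun hv => ⟨(h2 hv).1, fun w hw => hf w hw ▸ (h2 hv).2 w hw⟩⟩) (by
    intro v f
    by_cases hv : v ∈ Set.range j
    · obtain ⟨a, rfl⟩ := hv
      exact ⟨g a, fun b hb => by rw [hinj hb], fun hv => absurd ⟨a, rfl⟩ hv⟩
    · obtain ⟨z, -, -, h3, -⟩ := h.ext (U := g '' {a | G.Adj (j a) v} ∪ f '' {w | e w < e v})
        (W := ∅) (((hf v hv).image g).union ((fin_lt he _).image f)) Set.finite_empty
      exact ⟨z, fun a ha => absurd ⟨a, ha.symm⟩ hv, fun _ =>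
        ⟨fun a ha => h3 _ (Or.inl ⟨a, ha, rfl⟩), fun w hw => h3 _ (Or.inr ⟨w, hw, rfl⟩)⟩⟩)
  have h1 : ∀ a, H (j a) = g a := fun a => (hH _).1 a rfl
  refine ⟨H, ?_, h1⟩
  intro x y hxy
  by_cases hx : x ∈ Set.range j <;> by_cases hy : y ∈ Set.range j
  · obtain ⟨a, rfl⟩ := hx
    obtain ⟨b, rfl⟩ := hy
    rw [h1, h1]; exact hg _ _ ((hA _ _).1 hxy)
  · obtain ⟨a, rfl⟩ := hx
    rw [h1]; exact (((hH y).2 hy).1 a hxy).symm
  · obtain ⟨a, rfl⟩ := hy
    rw [h1]; exact ((hH x).2 hx).1 a hxy.symm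
  · rcases lt_trichotomy (e x) (e y) with h2 | h2 | h2
    · exact (((hH y).2 hy).2 x h2).symm
    · exact absurd (he h2) hxy.ne
    · exact ((hH x).2 hx).2 y h2

theorem end_three [Countable V] (h : IsRandom G) : IsProd (EndG G) 3 := by
  let A : V ⊕ V × V → V ⊕ V × V → Prop := fun a b =>
    match a, b with
    | Sum.inl x, Sum.inl y => G.Adj x y
    | Sum.inr x, Sum.inr y => G.Adj x.1 y.1 ∧ G.Adj x.2 y.2
    | _, _ => False
  obtain ⟨j, j1, j2, j3⟩ := exists_emb h A (by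
    rintro (a | a) (b | b) hab
    · exact hab.symm
    · exact hab
    · exact hab
    · exact ⟨hab.1.symm, hab.2.symm⟩) (by
    rintro (a | a) ha
    · exact G.irrefl ha
    · exact G.irrefl ha.1)
  have hfst : ∀ f : EndG G, ∃ H : V → V, (∀ x y, G.Adj x y → G.Adj (H x) (H y)) ∧
      ∀ a, H (j a) = Sum.elim (f.1 : V → V) Prod.fst a := by
    intro f
    apply exists_ext h j1 j2 j3
    rintro (a | a) (b | b) hab
    · exact f.2 _ _ hab
    · exact hab.elim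
    · exact hab.elim
    · exact hab.1
  obtain ⟨p, p1, p2⟩ := hfst 1
  obtain ⟨r, r1, r2⟩ := exists_ext h j1 j2 j3 (Sum.elim id Prod.snd) (by
    rintro (a | a) (b | b) hab
    · exact hab
    · exact hab.elim
    · exact hab.elim
    · exact hab.2)
  let R : EndG G := ⟨r, r1⟩
  let E : EndG G := ⟨fun x => j (Sum.inl x), fun x y hxy => (j2 _ _).2 hxy⟩
  let Q : EndG G → Prop := fun c => (∀ w, ∃ y, c.1 w = j (Sum.inr (p w, y))) ∧
    ∀ x y, c.1 (j (Sum.inr (x, y))) = j (Sum.inr (x, x))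
  have hQ : ∀ c c', Q c → Q c' → ∀ w, (c * c').1 w = j (Sum.inr (p w, p w)) := by
    intro c c' h1 h2 w
    obtain ⟨y, hy⟩ := h2.1 w
    show c.1 (c'.1 w) = _
    rw [hy, h1.2]
  let C : Submonoid (EndG G) :=
    { carrier := {c | c = 1 ∨ Q c}
      one_mem' := Or.inl rfl
      mul_mem' := by
        rintro c c' (rfl | h1) (rfl | h2)
        · left; simp
        · right; rwa [one_mul]
        · right; rwa [mul_one]
        · right
          refine ⟨fun w => ⟨_, hQ c c' h1 h2 w⟩, fun x y => ?_⟩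
          rw [hQ c c' h1 h2, p2]; rfl }
  refine ⟨![Submonoid.powers R, C, Submonoid.powers E], ?_, ?_⟩
  · intro i
    fin_cases i
    · rintro _ ⟨a, rfl⟩ _ ⟨b, rfl⟩; exact pow_mul_comm _ _ _
    · rintro c (rfl | h1) c' (rfl | h2)
      · rfl
      · simp
      · simp
      · exact Subtype.ext (funext fun w => by rw [hQ c c' h1 h2, hQ c' c h2 h1])
    · rintro _ ⟨a, rfl⟩ _ ⟨b, rfl⟩; exact pow_mul_comm _ _ _
  · intro f
    obtain ⟨F, F1, F2⟩ := hfst f
    let c : EndG G := ⟨fun w => j (Sum.inr (p w, F w)), fun x y hxy =>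
      (j2 _ _).2 ⟨p1 _ _ hxy, F1 _ _ hxy⟩⟩
    refine ⟨![R, c, E], ?_, ?_⟩
    · intro i
      fin_cases i
      · exact Submonoid.mem_powers _
      · refine Or.inr ⟨fun w => ⟨_, rfl⟩, fun x y => ?_⟩
        show j (Sum.inr (p _, F _)) = _
        rw [p2, F2]; rfl
      · exact Submonoid.mem_powers _
    · refine Subtype.ext (funext fun x => ?_)
      show f.1 x = r (j (Sum.inr (p _, F (j (Sum.inl x)))))
      rw [r2, F2]; rfl

end H77.Cw
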