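import Mathlib

namespace H77.Cw

/-- `M = C₁ ⋯ Cₙ` for some commutative submonoids `C₁, …, Cₙ`. -/
def IsProd (M : Type) [Monoid M] (n : ℕ) : Prop :=
  ∃ C : Fin n → Submonoid M, (∀ i, ∀ a ∈ C i, ∀ b ∈ C i, a * b = b * a) ∧
    ∀ m : M, ∃ c : Fin n → M, (∀ i, c i ∈ C i) ∧ m = (List.ofFn c).prod

/-- The extension property of the random graph. -/
def IsRandom {V : Type} (G : SimpleGraph V) : Prop :=
  ∀ U W : Finset V, Disjoint U W →
    ∃ z, z ∉ U ∧ z ∉ W ∧ (∀ u ∈ U, G.Adj z u) ∧ ∀ w ∈ W, ¬ G.Adj z w

/-- The monoid of maps sending adjacent vertices to adjacent vertices. -/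
def EndG {V : Type} (G : SimpleGraph V) : Submonoid (Function.End V) where
  carrier := {f | ∀ x y, G.Adj x y → G.Adj (f x) (f y)}
  one_mem' := fun _ _ h => h
  mul_mem' := fun hf hg x y h => hf _ _ (hg x y h)

/-- The monoid of order-preserving maps of the rationals. -/
def EndQ : Submonoid (Function.End ℚ) where
  carrier := {f | Monotone f}
  one_mem' := monotone_id
  mul_mem' := fun hf hg => Monotone.comp hf hg

/-- The order-preserving bijections of the rationals, under composition. -/
def AutQ : Submonoid (Function.End ℚ) where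
  carrier := {f | Monotone f ∧ Function.Bijective f}
  one_mem' := ⟨monotone_id, Function.bijective_id⟩
  mul_mem' := fun hf hg => ⟨Monotone.comp hf.1 hg.1, Function.Bijective.comp hf.2 hg.2⟩

end H77.Cw
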