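import Mathlib

namespace H77.Dv

open Finset Real

def l1 (w : ℂ) : ℝ := |w.re| + |w.im|

theorem step_re {w z : ℂ} {m ν : ℝ} (hw : m < |w.re|) (hz : |z.re| ≤ m)
    (hν : ν ≤ |z.re| - |z.im|) : l1 (w - z) ≤ l1 w - ν ∨ l1 (w + z) ≤ l1 w - ν := by
  unfold l1
  simp only [Complex.sub_re, Complex.sub_im, Complex.add_re, Complex.add_im]
  have h1 := abs_sub w.im z.im
  have h2 := abs_add_le w.im z.im
  rcases abs_cases w.re with a | a <;> rcases abs_cases z.re with b | b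
  · left; rw [abs_of_nonneg (by linarith : 0 ≤ w.re - z.re)]; linarith
  · right; rw [abs_of_nonneg (by linarith : 0 ≤ w.re + z.re)]; linarith
  · right; rw [abs_of_nonpos (by linarith : w.re + z.re ≤ 0)]; linarith
  · left; rw [abs_of_nonpos (by linarith : w.re - z.re ≤ 0)]; linarith

theorem step_im {w z : ℂ} {m ν : ℝ} (hw : m < |w.im|) (hz : |z.im| ≤ m)
    (hν : ν ≤ |z.im| - |z.re|) : l1 (w - z) ≤ l1 w - ν ∨ l1 (w + z) ≤ l1 w - ν := by
  unfold l1
  simp only [Complex.sub_re, Complex.sub_im, Complex.add_re, Complex.add_im]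
  have h1 := abs_sub w.re z.re
  have h2 := abs_add_le w.re z.re
  rcases abs_cases w.im with a | a <;> rcases abs_cases z.im with b | b
  · left; rw [abs_of_nonneg (by linarith : 0 ≤ w.im - z.im)]; linarith
  · right; rw [abs_of_nonneg (by linarith : 0 ≤ w.im + z.im)]; linarith
  · right; rw [abs_of_nonpos (by linarith : w.im + z.im ≤ 0)]; linarith
  · left; rw [abs_of_nonpos (by linarith : w.im - z.im ≤ 0)]; linarith

theorem greedy (z : ℕ → ℂ) (ν m : ℝ) (hν : 0 ≤ ν) : ∀ (n : ℕ) (S T : Finset ℕ),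
    S.card + T.card = n → Disjoint S T →
    (∀ p ∈ S, ν ≤ |(z p).re| - |(z p).im| ∧ |(z p).re| ≤ m) →
    (∀ p ∈ T, ν ≤ |(z p).im| - |(z p).re| ∧ |(z p).im| ≤ m) →
    ∀ w : ℂ, ∃ P N : Finset ℕ, P ⊆ S ∪ T ∧ N ⊆ S ∪ T ∧
      l1 (w - ∑ p ∈ P, z p + ∑ p ∈ N, z p) ≤ max (2 * m) (l1 w - ν * min S.card T.card) := by
  intro n
  induction n with
  | zero =>
    intro S T h _ _ _ w
    have : S.card = 0 := by omega
    refine ⟨∅, ∅, by simp, by simp, ?_⟩
    simp [this]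
  | succ n ih =>
    intro S T h hd hS hT w
    by_cases hw : l1 w ≤ 2 * m
    · exact ⟨∅, ∅, by simp, by simp, by simp [hw]⟩
    have key : ∀ (p : ℕ) (S' T' : Finset ℕ), S'.card + T'.card = n → Disjoint S' T' → S' ⊆ S →
        T' ⊆ T → p ∈ S ∪ T → p ∉ S' ∪ T' → S.card ≤ S'.card + 1 → T.card ≤ T'.card + 1 →
        (l1 (w - z p) ≤ l1 w - ν ∨ l1 (w + z p) ≤ l1 w - ν) →
        ∃ P N : Finset ℕ, P ⊆ S ∪ T ∧ N ⊆ S ∪ T ∧
        l1 (w - ∑ p ∈ P, z p + ∑ p ∈ N, z p) ≤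
          max (2 * m) (l1 w - ν * min S.card T.card) := by
      intro p S' T' hc hd' hS' hT' hp hp' c1 c2 hstep
      have hsub : S' ∪ T' ⊆ S ∪ T := union_subset_union hS' hT'
      have hmin : ((min S.card T.card : ℕ) : ℝ) ≤ (min S'.card T'.card : ℕ) + 1 := by
        exact_mod_cast (by omega : min S.card T.card ≤ min S'.card T'.card + 1)
      have hmul := mul_le_mul_of_nonneg_left hmin hν
      rcases hstep with hs | hs
      · obtain ⟨P, N, hP, hN, hl⟩ := ih S' T' hc hd' (fun q hq => hS q (hS' hq))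
          (fun q hq => hT q (hT' hq)) (w - z p)
        refine ⟨insert p P, N, insert_subset hp (hP.trans hsub), hN.trans hsub, ?_⟩
        rw [sum_insert fun h => hp' (hP h), ← sub_sub]
        exact hl.trans (max_le_max le_rfl (by linarith))
      · obtain ⟨P, N, hP, hN, hl⟩ := ih S' T' hc hd' (fun q hq => hS q (hS' hq))
          (fun q hq => hT q (hT' hq)) (w + z p)
        refine ⟨P, insert p N, hP.trans hsub, insert_subset hp (hN.trans hsub), ?_⟩
        rw [sum_insert fun h => hp' (hN h)]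
        have : w - ∑ p ∈ P, z p + (z p + ∑ p ∈ N, z p) =
            w + z p - ∑ p ∈ P, z p + ∑ p ∈ N, z p := by ring
        rw [this]
        exact hl.trans (max_le_max le_rfl (by linarith))
    by_cases hre : m < |w.re|
    · rcases S.eq_empty_or_nonempty with rfl | ⟨p, hp⟩
      · exact ⟨∅, ∅, by simp, by simp, by simp⟩
      have hc := card_erase_add_one hp
      refine key p (S.erase p) T (by omega) (hd.mono_left (erase_subset _ _)) (erase_subset _ _)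
        Subset.rfl (mem_union_left _ hp) ?_ (by omega) (by omega)
        (step_re hre (hS p hp).2 (hS p hp).1)
      simp only [mem_union, mem_erase, ne_eq, not_true, false_and, false_or]
      exact disjoint_left.1 hd hp
    · have him : m < |w.im| := by unfold l1 at hw; linarith
      rcases T.eq_empty_or_nonempty with rfl | ⟨p, hp⟩
      · exact ⟨∅, ∅, by simp, by simp, by simp⟩
      have hc := card_erase_add_one hp
      refine key p S (T.erase p) (by omega) (hd.mono_right (erase_subset _ _)) Subset.rfl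
        (erase_subset _ _) (mem_union_right _ hp) ?_ (by omega) (by omega)
        (step_im him (hT p hp).2 (hT p hp).1)
      simp only [mem_union, mem_erase, ne_eq, not_true, false_and, or_false]
      exact disjoint_right.1 hd hp

/-- primes in `(4^j, 4^(j+1)]` -/
def PP (j : ℕ) : Finset ℕ := (Ioc (4 ^ j) (4 ^ (j + 1))).filter Nat.Prime

theorem cheb : ∃ j0 : ℕ, ∀ j ≥ j0, (4 : ℝ) ^ j ≤ (PP j).card * (2 * (j + 1)) := by
  obtain ⟨C, hC⟩ := Chebyshev.psi_sub_theta_le_mul_sqrt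
  obtain ⟨j0, hj0⟩ : ∃ j0 : ℕ, (8 + 2 * C) / 0.38 ≤ 2 ^ j0 :=
    (pow_unbounded_of_one_lt _ (by norm_num : (1 : ℝ) < 2)).imp fun _ h => h.le
  refine ⟨j0, fun j hj => ?_⟩
  set u : ℝ := 2 ^ j with hu
  have hu1 : 1 ≤ u := one_le_pow₀ (by norm_num)
  have hu0 : (8 + 2 * C) / 0.38 ≤ u := hj0.trans (pow_le_pow_right₀ (by norm_num) hj)
  have h4 : (4 : ℝ) ^ j = u ^ 2 := by rw [hu, ← pow_mul, mul_comm, pow_mul]; norm_num
  have h4' : (4 : ℝ) ^ (j + 1) = (2 * u) ^ 2 := by rw [pow_succ, h4]; ring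
  have h1 := Chebyshev.psi_ge (4 ^ (j + 1))
  have h2 := hC ((4 ^ (j + 1) : ℕ) : ℝ)
  have h3 := Chebyshev.theta_le_log4_mul_x (x := ((4 ^ j : ℕ) : ℝ)) (by positivity)
  have hsum : Chebyshev.theta ((4 ^ (j + 1) : ℕ) : ℝ) - Chebyshev.theta ((4 ^ j : ℕ) : ℝ) =
      ∑ p ∈ PP j, log p := by
    rw [Chebyshev.theta_eq_sum_primesLE_log, Chebyshev.theta_eq_sum_primesLE_log]
    have hs : Nat.primesLE (4 ^ j) ⊆ Nat.primesLE (4 ^ (j + 1)) := by
      intro p hp
      rw [Nat.mem_primesLE] at hp ⊢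
      exact ⟨hp.1.trans (Nat.pow_le_pow_right (by norm_num) (by omega)), hp.2⟩
    rw [← sum_sdiff hs, add_sub_cancel_right]
    congr 1
    ext p
    simp only [mem_sdiff, Nat.mem_primesLE, PP, mem_filter, mem_Ioc]
    constructor
    · rintro ⟨⟨a, b⟩, c⟩
      exact ⟨⟨by by_contra h; exact c ⟨by omega, b⟩, a⟩, b⟩
    · rintro ⟨⟨a, b⟩, c⟩
      exact ⟨⟨b, c⟩, fun h => by omega⟩
  have hl4 : log 4 = 2 * log 2 := by
    rw [show (4 : ℝ) = 2 ^ 2 by norm_num, log_pow]; norm_num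
  have hl2 := Real.log_two_gt_d9
  have hl2' := Real.log_two_lt_d9
  have hle : ∑ p ∈ PP j, log p ≤ (PP j).card * (2 * (j + 1)) := by
    rw [← nsmul_eq_mul]
    refine sum_le_card_nsmul _ _ _ fun p hp => ?_
    simp only [PP, mem_filter, mem_Ioc] at hp
    have : log p ≤ log (4 ^ (j + 1)) :=
      log_le_log (by exact_mod_cast hp.2.pos) (by exact_mod_cast hp.1.2)
    rw [log_pow, hl4] at this
    push_cast at this
    nlinarith
  push_cast at h1 h2 h3 hsum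
  rw [h4'] at h1 h2
  rw [h4', h4] at hsum
  rw [h4] at h3 ⊢
  rw [sqrt_sq (by linarith)] at h2
  have h5 : log ((2 * u) ^ 2 + 1) ≤ 8 * u := by
    have : (2 * u) ^ 2 + 1 ≤ (4 * u) ^ 2 := by nlinarith
    refine (log_le_log (by positivity) this).trans ?_
    rw [log_pow]
    have := log_le_sub_one_of_pos (by linarith : 0 < 4 * u)
    push_cast
    linarith
  rw [div_le_iff₀ (by norm_num)] at hu0
  rw [hl4] at h3
  nlinarith [mul_le_mul_of_nonneg_right hu0 (by linarith : 0 ≤ u), sq_nonneg u]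

theorem cheb2 : ∃ j0 : ℕ, ∀ j ≥ j0, (4 : ℝ) ^ j ≤ (PP j).card * (2 * (j + 1)) ∧
    4 ^ 41 ≤ (PP j).card := by
  obtain ⟨j0, h⟩ := cheb
  refine ⟨max j0 84, fun j hj => ⟨h j (le_of_max_le_left hj), ?_⟩⟩
  have h1 := h j (le_of_max_le_left hj)
  have hj' : 84 ≤ j := le_of_max_le_right hj
  have h2 : j + 1 ≤ 2 ^ j := Nat.lt_two_pow_self
  have h3 : 2 ^ 84 ≤ 2 ^ j := Nat.pow_le_pow_right (by norm_num) hj'
  have h4 : 4 ^ j ≤ (PP j).card * (2 * (j + 1)) := by exact_mod_cast h1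
  have h5 : 4 ^ j = 2 ^ j * 2 ^ j := by rw [← mul_pow]; norm_num
  by_contra hlt
  push Not at hlt
  have h6 : (PP j).card * (2 * (j + 1)) ≤ 4 ^ 41 * (2 * 2 ^ j) :=
    Nat.mul_le_mul hlt.le (by omega)
  have h7 : 2 ^ 84 * 2 ^ j ≤ 2 ^ j * 2 ^ j := Nat.mul_le_mul_right _ h3
  have h8 : 0 < 2 ^ j := by positivity
  have h9 : 2 ^ 84 * 2 ^ j ≤ 4 ^ 41 * (2 * 2 ^ j) := h7.trans (h5 ▸ h4.trans h6)
  generalize 2 ^ j = x at h8 h9
  omega

noncomputable def tt : ℝ := π / (12 * log 4)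

noncomputable def cc (s : ℝ) : ℂ := ⟨-s, tt⟩

theorem log4_pos : 0 < log 4 := log_pos (by norm_num)

theorem tt_pos : 0 < tt := div_pos pi_pos (by have := log4_pos; positivity)

theorem cpow_re (s : ℝ) {p : ℕ} (hp : 0 < p) :
    ((p : ℂ) ^ cc s).re = (p : ℝ) ^ (-s) * cos (tt * log p) ∧
    ((p : ℂ) ^ cc s).im = (p : ℝ) ^ (-s) * sin (tt * log p) := by
  have hp' : (0 : ℝ) < p := by exact_mod_cast hp
  rw [Complex.cpow_def_of_ne_zero (by exact_mod_cast hp.ne'), Complex.exp_re, Complex.exp_im,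
    ← Complex.natCast_log, rpow_def_of_pos hp', Complex.re_ofReal_mul, Complex.im_ofReal_mul,
    mul_comm tt]
  exact ⟨rfl, rfl⟩

theorem angle {j p : ℕ} (hp : p ∈ PP j) :
    ∃ φ : ℝ, 0 ≤ φ ∧ φ ≤ 0.27 ∧ tt * log p = φ + j * (π / 12) := by
  simp only [PP, mem_filter, mem_Ioc] at hp
  have h1 : log (4 ^ j) ≤ log p := log_le_log (by positivity) (by exact_mod_cast hp.1.1.le)
  have h2 : log p ≤ log (4 ^ (j + 1)) :=
    log_le_log (by exact_mod_cast hp.2.pos) (by exact_mod_cast hp.1.2)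
  rw [log_pow] at h1 h2
  have ht : tt * log 4 = π / 12 := by
    unfold tt; have := log4_pos; field_simp
  have h3 := mul_le_mul_of_nonneg_left h1 tt_pos.le
  have h4 := mul_le_mul_of_nonneg_left h2 tt_pos.le
  have := pi_lt_d2
  push_cast at h4
  refine ⟨tt * log p - j * (π / 12), by rw [← ht]; linarith, ?_, by ring⟩
  have : tt * ((j + 1) * log 4) = j * (π / 12) + π / 12 := by rw [← ht]; ring
  linarith

noncomputable def zz (s : ℝ) (p : ℕ) : ℂ := Complex.log (1 + (p : ℂ) ^ cc s)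

theorem zz_near {s : ℝ} (hs : 1 ≤ s) {p : ℕ} (hp : 10 ≤ p) :
    ‖zz s p - (p : ℂ) ^ cc s‖ ≤ 0.06 * (p : ℝ) ^ (-s) := by
  have hn : ‖(p : ℂ) ^ cc s‖ = (p : ℝ) ^ (-s) := Complex.norm_natCast_cpow_of_pos (by omega) _
  have hp' : (10 : ℝ) ≤ p := by exact_mod_cast hp
  have h1 : (p : ℝ) ^ (-s) ≤ 1 / 10 := by
    refine (rpow_le_rpow_of_exponent_le (by linarith) (by linarith : -s ≤ -1)).trans ?_
    rw [rpow_neg_one, one_div]
    exact inv_anti₀ (by norm_num) hp'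
  have h0 : 0 ≤ (p : ℝ) ^ (-s) := by positivity
  have := Complex.norm_log_one_add_sub_self_le (z := (p : ℂ) ^ cc s) (by rw [hn]; linarith)
  rw [hn] at this
  refine this.trans ?_
  have h2 : (1 - (p : ℝ) ^ (-s))⁻¹ ≤ 10 / 9 := by
    rw [inv_le_comm₀ (by linarith) (by norm_num)]; linarith
  have h3 : ((p : ℝ) ^ (-s)) ^ 2 ≤ 1 / 10 * (p : ℝ) ^ (-s) := by nlinarith
  have h4 := mul_le_mul h3 h2 (inv_nonneg.2 (by linarith)) (by positivity)
  linarith

theorem sector {s : ℝ} (hs : 1 ≤ s) {k : ℕ} (hk : 1 ≤ k) :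
    (∀ p ∈ PP (12 * k), 0.4 * (p : ℝ) ^ (-s) ≤ |(zz s p).re| - |(zz s p).im| ∧
      |(zz s p).re| ≤ 2 * (p : ℝ) ^ (-s)) ∧
    (∀ p ∈ PP (12 * k + 6), 0.4 * (p : ℝ) ^ (-s) ≤ |(zz s p).im| - |(zz s p).re| ∧
      |(zz s p).im| ≤ 2 * (p : ℝ) ^ (-s)) := by
  have big : ∀ j p, 2 ≤ j → p ∈ PP j → 10 ≤ p := by
    intro j p hj hp
    simp only [PP, mem_filter, mem_Ioc] at hp
    have := Nat.pow_le_pow_right (by norm_num : 0 < 4) hj
    omega
  have trig : ∀ φ : ℝ, 0 ≤ φ → φ ≤ 0.27 → 0.96 ≤ |cos φ| ∧ |cos φ| ≤ 1 ∧ |sin φ| ≤ 0.27 := by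
    intro φ h0 h1
    refine ⟨le_trans ?_ (le_abs_self _), abs_cos_le_one _, abs_sin_le_abs.trans ?_⟩
    · have := one_sub_sq_div_two_le_cos (x := φ); nlinarith
    · rwa [abs_of_nonneg h0]
  have fin : ∀ (μ a b a' b' x y : ℝ), 0 ≤ μ → |a - a'| ≤ 0.06 * μ → |b - b'| ≤ 0.06 * μ →
      |a'| = μ * x → |b'| = μ * y → 0.96 ≤ x → x ≤ 1 → y ≤ 0.27 →
      0.4 * μ ≤ |a| - |b| ∧ |a| ≤ 2 * μ := by
    intro μ a b a' b' x y h0 h1 h2 h3 h4 h5 h6 h7
    have e1 := abs_sub_abs_le_abs_sub a a'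
    have e2 := abs_sub_abs_le_abs_sub a' a
    have e3 := abs_sub_abs_le_abs_sub b b'
    rw [abs_sub_comm a' a] at e2
    constructor <;> nlinarith
  constructor
  · intro p hp
    have h10 := big _ p (by omega) hp
    obtain ⟨φ, h0, h1, h2⟩ := angle hp
    obtain ⟨r1, r2⟩ := cpow_re s (by omega : 0 < p)
    have e : tt * log p = φ + k * π := by rw [h2]; push_cast; ring
    rw [e, cos_add_nat_mul_pi] at r1
    rw [e, sin_add_nat_mul_pi] at r2
    have hn := zz_near hs h10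
    obtain ⟨t1, t2, t3⟩ := trig φ h0 h1
    refine fin _ _ _ ((p : ℂ) ^ cc s).re ((p : ℂ) ^ cc s).im |cos φ| |sin φ| (by positivity)
      ((Complex.abs_re_le_norm (zz s p - (p : ℂ) ^ cc s)).trans hn)
      ((Complex.abs_im_le_norm (zz s p - (p : ℂ) ^ cc s)).trans hn) ?_ ?_ t1 t2 t3
    · rw [r1, abs_mul, abs_mul, abs_of_nonneg (by positivity)]; simp
    · rw [r2, abs_mul, abs_mul, abs_of_nonneg (by positivity)]; simp
  · intro p hp
    have h10 := big _ p (by omega) hp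
    obtain ⟨φ, h0, h1, h2⟩ := angle hp
    obtain ⟨r1, r2⟩ := cpow_re s (by omega : 0 < p)
    have e : tt * log p = (φ + π / 2) + k * π := by rw [h2]; push_cast; ring
    rw [e, cos_add_nat_mul_pi, cos_add_pi_div_two] at r1
    rw [e, sin_add_nat_mul_pi, sin_add_pi_div_two] at r2
    have hn := zz_near hs h10
    obtain ⟨t1, t2, t3⟩ := trig φ h0 h1
    refine fin _ _ _ ((p : ℂ) ^ cc s).im ((p : ℂ) ^ cc s).re |cos φ| |sin φ| (by positivity)
      ((Complex.abs_im_le_norm (zz s p - (p : ℂ) ^ cc s)).trans hn)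
      ((Complex.abs_re_le_norm (zz s p - (p : ℂ) ^ cc s)).trans hn) ?_ ?_ t1 t2 t3
    · rw [r2, abs_mul, abs_mul, abs_of_nonneg (by positivity)]; simp
    · rw [r1, abs_mul, abs_mul, abs_of_nonneg (by positivity)]; simp

end H77.Dv
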