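import Pool.Agent.H77.Dv1

namespace H77.Dv

open Finset Real Filter Topology

noncomputable def aa (s : ℝ) (k : ℕ) : ℝ := ((4 : ℝ) ^ (12 * k)) ^ (-s)

noncomputable def nu (s : ℝ) (k : ℕ) : ℝ :=
  0.4 * ((4 : ℝ) ^ (12 * k + 7)) ^ (-s) * (min (PP (12 * k)).card (PP (12 * k + 6)).card : ℕ)

theorem nu_nonneg (s : ℝ) (k : ℕ) : 0 ≤ nu s k := by unfold nu; positivity

theorem mem_PP {j p : ℕ} (h : p ∈ PP j) : p.Prime ∧ 4 ^ j < p ∧ p ≤ 4 ^ (j + 1) := by
  simp only [PP, mem_filter, mem_Ioc] at h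
  exact ⟨h.2, h.1⟩

theorem block {s : ℝ} (hs : 1 ≤ s) {k : ℕ} (hk : 1 ≤ k) (w : ℂ) :
    ∃ P N : Finset ℕ, (∀ p ∈ P ∪ N, p.Prime ∧ 4 ^ (12 * k) < p ∧ p ≤ 4 ^ (12 * (k + 1))) ∧
      l1 (w - ∑ p ∈ P, zz s p + ∑ p ∈ N, zz s p) ≤ max (4 * aa s k) (l1 w - nu s k) := by
  have hb : ∀ p ∈ PP (12 * k) ∪ PP (12 * k + 6),
      p.Prime ∧ 4 ^ (12 * k) < p ∧ p ≤ 4 ^ (12 * k + 7) := by
    intro p hp
    rcases mem_union.1 hp with h | h
    · have := mem_PP h
      exact ⟨this.1, this.2.1, this.2.2.trans (Nat.pow_le_pow_right (by norm_num) (by omega))⟩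
    · have := mem_PP h
      exact ⟨this.1, lt_of_le_of_lt (Nat.pow_le_pow_right (by norm_num) (by omega)) this.2.1,
        this.2.2⟩
  have hμ : ∀ p ∈ PP (12 * k) ∪ PP (12 * k + 6),
      ((4 : ℝ) ^ (12 * k + 7)) ^ (-s) ≤ (p : ℝ) ^ (-s) ∧ (p : ℝ) ^ (-s) ≤ aa s k := by
    intro p hp
    obtain ⟨h1, h2, h3⟩ := hb p hp
    exact ⟨rpow_le_rpow_of_nonpos (by exact_mod_cast h1.pos) (by exact_mod_cast h3) (by linarith),
      rpow_le_rpow_of_nonpos (by positivity) (by exact_mod_cast h2.le) (by linarith)⟩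
  obtain ⟨P, N, hP, hN, hl⟩ := greedy (zz s) (0.4 * ((4 : ℝ) ^ (12 * k + 7)) ^ (-s))
    (2 * aa s k) (by positivity) _ (PP (12 * k)) (PP (12 * k + 6)) rfl
    (disjoint_left.2 fun p h1 h2 => by
      have a := (mem_PP h1).2.2
      have b := (mem_PP h2).2.1
      have := Nat.pow_le_pow_right (by norm_num : 0 < 4) (by omega : 12 * k + 1 ≤ 12 * k + 6)
      omega)
    (fun p hp => by
      have a := (sector hs hk).1 p hp
      have b := hμ p (mem_union_left _ hp)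
      constructor <;> linarith [a.1, a.2, b.1, b.2])
    (fun p hp => by
      have a := (sector hs hk).2 p hp
      have b := hμ p (mem_union_right _ hp)
      constructor <;> linarith [a.1, a.2, b.1, b.2]) w
  refine ⟨P, N, fun p hp => ?_, ?_⟩
  · obtain ⟨h1, h2, h3⟩ := hb p (union_subset hP hN hp)
    exact ⟨h1, h2, h3.trans (Nat.pow_le_pow_right (by norm_num) (by omega))⟩
  · rw [show 4 * aa s k = 2 * (2 * aa s k) by ring]
    exact hl

theorem multi {s : ℝ} (hs : 1 ≤ s) {K : ℕ} (hK : 1 ≤ K)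
    (hstep : ∀ k ≥ K, 4 * aa s k ≤ nu s (k + 1)) (w : ℂ) (n : ℕ) :
    ∃ P N : Finset ℕ, (∀ p ∈ P ∪ N, p.Prime ∧ 4 ^ (12 * K) < p ∧ p ≤ 4 ^ (12 * (K + n + 1))) ∧
      l1 (w - ∑ p ∈ P, zz s p + ∑ p ∈ N, zz s p) ≤
        max (4 * aa s (K + n)) (l1 w - ∑ i ∈ range (n + 1), nu s (K + i)) := by
  induction n with
  | zero => simpa using block hs hK w
  | succ n ih =>
    obtain ⟨P, N, h1, h2⟩ := ih
    obtain ⟨P', N', h3, h4⟩ := block hs (k := K + (n + 1)) (by omega)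
      (w - ∑ p ∈ P, zz s p + ∑ p ∈ N, zz s p)
    have hd : ∀ p ∈ P ∪ N, p ∉ P' ∪ N' := by
      intro p a b
      have a' := (h1 p a).2.2
      have b' := (h3 p b).2.1
      rw [← add_assoc] at b'
      omega
    refine ⟨P ∪ P', N ∪ N', fun p hp => ?_, ?_⟩
    · have : p ∈ P ∪ N ∨ p ∈ P' ∪ N' := by
        simp only [mem_union] at hp ⊢; tauto
      rcases this with h | h
      · obtain ⟨a, b, c⟩ := h1 p h
        exact ⟨a, b, c.trans (Nat.pow_le_pow_right (by norm_num) (by omega))⟩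
      · obtain ⟨a, b, c⟩ := h3 p h
        exact ⟨a, lt_of_le_of_lt (Nat.pow_le_pow_right (by norm_num) (by omega)) b, c⟩
    · rw [sum_union (disjoint_left.2 fun p a b => hd p (mem_union_left _ a) (mem_union_left _ b)),
        sum_union (disjoint_left.2 fun p a b => hd p (mem_union_right _ a) (mem_union_right _ b)),
        sum_range_succ _ (n + 1)]
      have e : w - (∑ p ∈ P, zz s p + ∑ p ∈ P', zz s p) + (∑ p ∈ N, zz s p + ∑ p ∈ N', zz s p) =
          w - ∑ p ∈ P, zz s p + ∑ p ∈ N, zz s p - ∑ p ∈ P', zz s p + ∑ p ∈ N', zz s p := by ring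
      rw [e]
      refine h4.trans (max_le (le_max_left _ _) ?_)
      have h5 := hstep (K + n) (by omega)
      have h6 : 0 ≤ aa s (K + (n + 1)) := by unfold aa; positivity
      rcases le_max_iff.1 h2 with h | h
      · refine le_max_of_le_left ?_
        rw [add_assoc] at h5
        linarith
      · exact le_max_of_le_right (by linarith)

theorem aa_le {s : ℝ} (hs : 1 ≤ s) (k : ℕ) : aa s k ≤ 1 / (k + 1) := by
  unfold aa
  have h1 : (1 : ℝ) ≤ 4 ^ (12 * k) := one_le_pow₀ (by norm_num)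
  refine (rpow_le_rpow_of_exponent_le h1 (by linarith : -s ≤ -1)).trans ?_
  rw [rpow_neg_one, one_div]
  refine inv_anti₀ (by positivity) ?_
  have : k + 1 ≤ 4 ^ (12 * k) :=
    (Nat.lt_pow_self (by norm_num : 1 < 4)).trans_le (Nat.pow_le_pow_right (by norm_num) (by omega))
  exact_mod_cast this

theorem approx {s : ℝ} (hs : 1 ≤ s) {K : ℕ} (hK : 1 ≤ K)
    (hstep : ∀ k ≥ K, 4 * aa s k ≤ nu s (k + 1)) (w : ℂ) (n1 : ℕ)
    (hw : l1 w ≤ ∑ i ∈ range n1, nu s (K + i)) {δ : ℝ} (hδ : 0 < δ) :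
    ∃ P N : Finset ℕ, (∀ p ∈ P ∪ N, p.Prime ∧ 4 ^ (12 * K) < p) ∧
      ‖w - ∑ p ∈ P, zz s p + ∑ p ∈ N, zz s p‖ < δ := by
  obtain ⟨m, hm⟩ := exists_nat_one_div_lt (by linarith : 0 < δ / 4)
  obtain ⟨P, N, h1, h2⟩ := multi hs hK hstep w (n1 + m)
  refine ⟨P, N, fun p hp => ⟨(h1 p hp).1, (h1 p hp).2.1⟩, ?_⟩
  refine (Complex.norm_le_abs_re_add_abs_im _).trans_lt (lt_of_le_of_lt h2 (max_lt ?_ ?_))
  · have a := aa_le hs (K + (n1 + m))
    have b : (1 : ℝ) / ((K + (n1 + m) : ℕ) + 1) ≤ 1 / (m + 1) := by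
      apply one_div_le_one_div_of_le (by positivity)
      have : m ≤ K + (n1 + m) := by omega
      exact_mod_cast Nat.add_le_add_right this 1
    linarith
  · have : ∑ i ∈ range n1, nu s (K + i) ≤ ∑ i ∈ range (n1 + m + 1), nu s (K + i) :=
      sum_le_sum_of_subset_of_nonneg (range_mono (by omega)) fun _ _ _ => nu_nonneg _ _
    linarith

theorem nu_low {k : ℕ} (a : (4 : ℝ) ^ (12 * k) ≤ (PP (12 * k)).card * (2 * ((12 * k : ℕ) + 1)))
    (b : (4 : ℝ) ^ (12 * k + 6) ≤ (PP (12 * k + 6)).card * (2 * ((12 * k + 6 : ℕ) + 1))) :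
    (1 / 4 ^ 10 : ℝ) * (1 / (k + 1)) ≤ nu 1 k := by
  have c : (4 : ℝ) ^ (12 * k) ≤ 4 ^ (12 * k + 6) := pow_le_pow_right₀ (by norm_num) (by omega)
  have d : (4 : ℝ) ^ (12 * k) ≤
      (min (PP (12 * k)).card (PP (12 * k + 6)).card : ℕ) * (24 * (k + 1)) := by
    push_cast at a b
    rcases le_total (PP (12 * k)).card (PP (12 * k + 6)).card with h | h
    · rw [min_eq_left h]
      exact a.trans (mul_le_mul_of_nonneg_left (by linarith) (by positivity))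
    · rw [min_eq_right h]
      exact (c.trans b).trans (mul_le_mul_of_nonneg_left (by linarith) (by positivity))
  unfold nu
  generalize ((min (PP (12 * k)).card (PP (12 * k + 6)).card : ℕ) : ℝ) = M at d
  rw [rpow_neg_one, pow_add]
  have e : (0 : ℝ) < 4 ^ (12 * k) := by positivity
  generalize (4 : ℝ) ^ (12 * k) = X at d e
  have f : (0 : ℝ) < k + 1 := by positivity
  rw [mul_one_div, div_le_iff₀ f]
  have g : 0.4 * (X * 4 ^ 7)⁻¹ * M * (k + 1) = (M * (24 * (k + 1))) * (0.4 / 24 / 4 ^ 7) / X := by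
    field_simp
  rw [g, le_div_iff₀ e]
  generalize M * (24 * (k + 1)) = Y at d
  norm_num
  linarith

theorem nu_cont (k : ℕ) : Continuous fun s : ℝ => nu s k := by
  unfold nu
  refine (continuous_const.mul ?_).mul continuous_const
  exact (continuous_const_rpow (a := (4 : ℝ) ^ (12 * k + 7)) (by positivity)).comp continuous_neg

theorem nu_step {s : ℝ} (h2 : s < 2) {k : ℕ} (a : 4 ^ 41 ≤ (PP (12 * (k + 1))).card)
    (b : 4 ^ 41 ≤ (PP (12 * (k + 1) + 6)).card) : 9 * aa s k ≤ nu s (k + 1) := by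
  unfold nu
  generalize (PP (12 * (k + 1))).card = A at a ⊢
  generalize (PP (12 * (k + 1) + 6)).card = B at b ⊢
  have c : ((4 : ℝ) ^ 41) ≤ (min A B : ℕ) := by
    have := (Nat.cast_le (α := ℝ)).2 (le_min a b)
    rwa [Nat.cast_pow, Nat.cast_ofNat] at this
  generalize ((min A B : ℕ) : ℝ) = M at c ⊢
  clear a b
  have d : ((4 : ℝ) ^ (12 * (k + 1) + 7)) ^ (-s) = aa s k * ((4 : ℝ) ^ 19) ^ (-s) := by
    unfold aa
    rw [← mul_rpow (by positivity) (by positivity), ← pow_add,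
      show 12 * (k + 1) + 7 = 12 * k + 19 by ring]
  have e : (1 / 4 ^ 38 : ℝ) ≤ ((4 : ℝ) ^ 19) ^ (-s) := by
    refine le_trans (le_of_eq ?_) (rpow_le_rpow_of_exponent_le (by norm_num)
      (by linarith : -(2 : ℝ) ≤ -s))
    rw [rpow_neg (by positivity), rpow_two]
    norm_num
  have f : 0 ≤ aa s k := by unfold aa; positivity
  rw [d]
  generalize ((4 : ℝ) ^ 19) ^ (-s) = E at e ⊢
  generalize aa s k = x at f ⊢
  have g := mul_le_mul e c (by norm_num) (le_trans (by norm_num) e)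
  have g' : (64 : ℝ) ≤ E * M := le_trans (by norm_num) g
  have h := mul_le_mul_of_nonneg_left g' f
  linarith

theorem params : ∃ (s : ℝ) (K n1 : ℕ), 1 < s ∧ 1 ≤ K ∧ (∀ k ≥ K, 9 * aa s k ≤ nu s (k + 1)) ∧
    24 ≤ ∑ i ∈ range n1, nu s (K + i) := by
  obtain ⟨j0, hj⟩ := cheb2
  obtain ⟨K, hK⟩ : ∃ K, K = j0 + 1 := ⟨_, rfl⟩
  have hlow : ∀ k ≥ K, (1 / 4 ^ 10 : ℝ) * (1 / (k + 1)) ≤ nu 1 k := fun k hk =>
    nu_low (hj (12 * k) (by omega)).1 (hj (12 * k + 6) (by omega)).1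
  obtain ⟨n1, hn1⟩ : ∃ n1 : ℕ, 24 < ∑ i ∈ range n1, nu 1 (K + i) := by
    have ht := Real.tendsto_sum_range_one_div_nat_succ_atTop
    obtain ⟨n, hn⟩ := (ht.eventually (eventually_gt_atTop
      (24 * 4 ^ 10 + ∑ i ∈ range K, (1 / ((i : ℝ) + 1))))).exists_forall_of_atTop
    refine ⟨n, ?_⟩
    have h1 := hn (K + n) (by omega)
    rw [sum_range_add _ K n] at h1
    have h2 : ∑ i ∈ range n, (1 / 4 ^ 10 : ℝ) * (1 / (((K + i : ℕ) : ℝ) + 1)) ≤
        ∑ i ∈ range n, nu 1 (K + i) := sum_le_sum fun i _ => hlow _ (by omega)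
    rw [← mul_sum] at h2
    linarith
  have hc : Continuous fun s : ℝ => ∑ i ∈ range n1, nu s (K + i) :=
    continuous_finsetSum _ fun i _ => nu_cont _
  have hev : ∀ᶠ s in 𝓝[>] (1 : ℝ), 24 < ∑ i ∈ range n1, nu s (K + i) :=
    nhdsWithin_le_nhds (hc.continuousAt.eventually (lt_mem_nhds hn1))
  obtain ⟨s, h1, h2⟩ := (hev.and (Ioo_mem_nhdsGT (by norm_num : (1 : ℝ) < 2))).exists
  exact ⟨s, K, n1, h2.1, by omega, fun k hk =>
    nu_step h2.2 (hj _ (by omega)).2 (hj _ (by omega)).2, h1.le⟩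

end H77.Dv
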