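import Pool.Agent.H77.Dv2

namespace H77.Dv

open Finset Real Filter Topology

noncomputable def sg (c : ℂ) (n : ℕ) : ℂ := ∑ d ∈ n.divisors, (d : ℂ) ^ c

noncomputable def pw (c : ℂ) (hc : c ≠ 0) : ArithmeticFunction ℂ :=
  ⟨fun n => (n : ℂ) ^ c, by simp [hc]⟩

theorem sg_mul {c : ℂ} (hc : c ≠ 0) {m n : ℕ} (h : m.Coprime n) :
    sg c (m * n) = sg c m * sg c n := by
  have h1 : (pw c hc).IsMultiplicative := ⟨by simp [pw], fun {a b} _ => by
    simp only [pw, ArithmeticFunction.coe_mk, Nat.cast_mul]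
    exact Complex.natCast_mul_natCast_cpow a b c⟩
  have h2 := (h1.mul ArithmeticFunction.isMultiplicative_zeta.natCast).map_mul_of_coprime h
  simp only [ArithmeticFunction.coe_mul_zeta_apply] at h2
  exact h2

theorem sg_pow (c : ℂ) {q : ℕ} (hq : q.Prime) (a : ℕ) :
    sg c (q ^ a) = ∑ i ∈ range (a + 1), ((q : ℂ) ^ c) ^ i := by
  unfold sg
  rw [Nat.sum_divisors_prime_pow hq]
  refine sum_congr rfl fun i _ => ?_
  rw [← Complex.cpow_nat_mul, Complex.natCast_cpow_natCast_mul, Nat.cast_pow]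

theorem cc_ne (s : ℝ) : cc s ≠ 0 := fun h => tt_pos.ne' (congrArg Complex.im h)

theorem norm_z {s : ℝ} (hs : 1 ≤ s) {q : ℕ} (hq : 2 ≤ q) : ‖(q : ℂ) ^ cc s‖ ≤ 1 / 2 := by
  rw [Complex.norm_natCast_cpow_of_pos (by omega)]
  have hq' : (2 : ℝ) ≤ q := by exact_mod_cast hq
  refine (rpow_le_rpow_of_exponent_le (by linarith) (show -s ≤ -1 by linarith)).trans ?_
  rw [rpow_neg_one, one_div]
  exact inv_anti₀ (by norm_num) hq'

theorem sg_prod {s : ℝ} (hs : 1 ≤ s) (P : Finset ℕ) (hP : ∀ p ∈ P, p.Prime) :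
    sg (cc s) (∏ p ∈ P, p) = Complex.exp (∑ p ∈ P, zz s p) := by
  induction P using Finset.induction_on with
  | empty => simp [sg]
  | insert p P hp ih =>
    have hpp := hP p (mem_insert_self _ _)
    have hP' : ∀ q ∈ P, q.Prime := fun q hq => hP q (mem_insert_of_mem hq)
    rw [prod_insert hp, sum_insert hp, Complex.exp_add, sg_mul (cc_ne s), ih hP']
    · congr 1
      have := sg_pow (cc s) hpp 1
      rw [pow_one] at this
      rw [this, zz, Complex.exp_log]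
      · simp [sum_range_succ]
      · intro h
        have h1 := norm_z hs hpp.two_le
        rw [show (p : ℂ) ^ cc s = -1 by linear_combination h] at h1
        norm_num at h1
    · exact Nat.Coprime.prod_right fun q hq =>
        (Nat.coprime_primes hpp (hP' q hq)).2 fun h => hp (h ▸ hq)

theorem geom_bd {z : ℂ} (hz : ‖z‖ ≤ 1 / 2) (a : ℕ) :
    1 / 3 ≤ ‖∑ i ∈ range (a + 1), z ^ i‖ ∧ ‖∑ i ∈ range (a + 1), z ^ i‖ ≤ 3 := by
  have h := congrArg norm (mul_neg_geom_sum z (a + 1))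
  rw [norm_mul] at h
  have h1 : ‖z ^ (a + 1)‖ ≤ 1 / 2 := by
    rw [norm_pow, pow_succ]
    have := pow_le_one₀ (n := a) (norm_nonneg z) (by linarith)
    nlinarith [norm_nonneg z, pow_nonneg (norm_nonneg z) a]
  have h2 := norm_sub_le (1 : ℂ) z
  have h3 := norm_sub_norm_le (1 : ℂ) z
  have h4 := norm_sub_le (1 : ℂ) (z ^ (a + 1))
  have h5 := norm_sub_norm_le (1 : ℂ) (z ^ (a + 1))
  rw [norm_one] at h2 h3 h4 h5
  have h6 := norm_nonneg (∑ i ∈ range (a + 1), z ^ i)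
  constructor <;> nlinarith

theorem l1_le (w : ℂ) : l1 w ≤ 2 * ‖w‖ := by
  unfold l1; linarith [Complex.abs_re_le_norm w, Complex.abs_im_le_norm w]

theorem ratio {z : ℂ} (hz : ‖z‖ ≤ 1 / 2) (a : ℕ) : ∃ w : ℂ,
    ∑ i ∈ range (a + 1 + 1), z ^ i = (∑ i ∈ range (a + 1), z ^ i) * Complex.exp w ∧
    l1 w ≤ 24 ∧ (‖z‖ ≤ 1 / 6 → l1 w ≤ 9 * ‖z‖) := by
  obtain ⟨h1, h2⟩ := geom_bd hz a
  obtain ⟨h3, h4⟩ := geom_bd hz (a + 1)
  have hs := sum_range_succ (fun i => z ^ i) (a + 1)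
  generalize ∑ i ∈ range (a + 1 + 1), z ^ i = v at *
  generalize ∑ i ∈ range (a + 1), z ^ i = u at *
  have hu : u ≠ 0 := norm_pos_iff.1 (by linarith)
  have hv : v ≠ 0 := norm_pos_iff.1 (by linarith)
  refine ⟨Complex.log (v / u), ?_, ?_, fun h6 => ?_⟩
  · rw [Complex.exp_log (div_ne_zero hv hu)]; field_simp
  · unfold l1
    rw [Complex.log_re, Complex.log_im, norm_div]
    have a1 := Complex.abs_arg_le_pi (v / u)
    have a2 := pi_lt_four
    have hu' : 0 < ‖u‖ := by linarith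
    have hv' : 0 < ‖v‖ := by linarith
    have a3 : |log (‖v‖ / ‖u‖)| ≤ 8 := by
      rw [abs_le]
      constructor
      · have := log_le_sub_one_of_pos (div_pos hu' hv')
        rw [← inv_div, log_inv] at this
        have b : (‖v‖ / ‖u‖)⁻¹ ≤ 9 := by rw [inv_div, div_le_iff₀ hv']; linarith
        linarith
      · have := log_le_sub_one_of_pos (div_pos hv' hu')
        have b : ‖v‖ / ‖u‖ ≤ 9 := by rw [div_le_iff₀ hu']; linarith
        linarith
    linarith
  · have e : v / u = 1 + z ^ (a + 1) / u := by rw [hs]; field_simp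
    have b : ‖z ^ (a + 1) / u‖ ≤ 3 * ‖z‖ := by
      rw [norm_div, div_le_iff₀ (by linarith), norm_pow, pow_succ]
      have := pow_le_one₀ (n := a) (norm_nonneg z) (by linarith)
      nlinarith [norm_nonneg z, pow_nonneg (norm_nonneg z) a]
    have c := Complex.norm_log_one_add_half_le_self (z := z ^ (a + 1) / u) (by linarith)
    rw [e]
    linarith [l1_le (Complex.log (1 + z ^ (a + 1) / u))]

/-- All prime factors of `x` exceed `q`. -/
def Rough (m x : ℕ) : Prop := x ≠ 0 ∧ ∀ p, p.Prime → p ∣ x → m ≤ p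

theorem overlap : ∃ s : ℝ, 1 < s ∧ ∀ q : ℕ, q.Prime → ∀ a : ℕ, ∀ δ > 0, ∃ (x y : ℕ) (e : ℂ),
    Rough (q + 1) x ∧ Rough (q + 1) y ∧ ‖e‖ < δ ∧
    sg (cc s) (q ^ (a + 1)) * sg (cc s) y = sg (cc s) (q ^ a) * sg (cc s) x * Complex.exp e := by
  obtain ⟨s, K, n1, hs, hK, hstep, hsum⟩ := params
  refine ⟨s, hs, fun q hq a δ hδ => ?_⟩
  obtain ⟨w, hw, hw1, hw2⟩ := ratio (norm_z hs.le hq.two_le) a
  have h4 : ∀ k ≥ K, 4 * aa s k ≤ nu s (k + 1) := fun k hk => by
    have : 0 ≤ aa s k := by unfold aa; positivity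
    linarith [hstep k hk]
  obtain ⟨P, N, hPN, he⟩ : ∃ P N : Finset ℕ, (∀ p ∈ P ∪ N, p.Prime ∧ q < p) ∧
      ‖w - ∑ p ∈ P, zz s p + ∑ p ∈ N, zz s p‖ < δ := by
    by_cases hqK : q ≤ 4 ^ (12 * K)
    · obtain ⟨P, N, h1, h2⟩ := approx hs.le hK h4 w n1 (hw1.trans hsum) hδ
      exact ⟨P, N, fun p hp => ⟨(h1 p hp).1, hqK.trans_lt (h1 p hp).2⟩, h2⟩
    · have hex : ∃ k, q ≤ 4 ^ (12 * (K + k + 1)) :=
        ⟨q, (Nat.lt_pow_self (by norm_num : 1 < 4)).le.trans
          (Nat.pow_le_pow_right (by norm_num) (by omega))⟩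
      have hk := Nat.find_spec hex
      have hk' : 4 ^ (12 * (K + Nat.find hex)) < q := by
        rcases h : Nat.find hex with _ | j
        · simpa using hqK
        · have := Nat.find_min hex (m := j) (by omega)
          rw [← add_assoc]; omega
      generalize Nat.find hex = k at hk hk'
      have hn : ‖(q : ℂ) ^ cc s‖ ≤ aa s (K + k) := by
        rw [Complex.norm_natCast_cpow_of_pos hq.pos]
        exact rpow_le_rpow_of_nonpos (by positivity) (by exact_mod_cast hk'.le)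
          (show -s ≤ 0 by linarith)
      have h6 : ‖(q : ℂ) ^ cc s‖ ≤ 1 / 6 := by
        rw [Complex.norm_natCast_cpow_of_pos hq.pos]
        have := Nat.pow_le_pow_right (by norm_num : 0 < 4) (by omega : 2 ≤ 12 * (K + k))
        have hq' : (6 : ℝ) ≤ q := by exact_mod_cast (by omega : 6 ≤ q)
        refine (rpow_le_rpow_of_exponent_le (by linarith) (show -s ≤ -1 by linarith)).trans ?_
        rw [rpow_neg_one, one_div]
        exact inv_anti₀ (by norm_num) hq'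
      obtain ⟨P, N, h1, h2⟩ := approx hs.le (K := K + k + 1) (by omega)
        (fun j hj => h4 j (by omega)) w 1
        (by rw [sum_range_one]; linarith [hw2 h6, hstep (K + k) (by omega)]) hδ
      exact ⟨P, N, fun p hp => ⟨(h1 p hp).1, hk.trans_lt (h1 p hp).2⟩, h2⟩
  have hr : ∀ S : Finset ℕ, S ⊆ P ∪ N → Rough (q + 1) (∏ p ∈ S, p) := fun S hS =>
    ⟨prod_ne_zero_iff.2 fun p hp => (hPN p (hS hp)).1.ne_zero, fun p hp hd => by
      obtain ⟨r, hr, hd'⟩ := (Prime.dvd_finsetProd_iff hp.prime _).1 hd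
      rw [(Nat.prime_dvd_prime_iff_eq hp (hPN r (hS hr)).1).1 hd']
      exact (hPN r (hS hr)).2⟩
  refine ⟨_, _, _, hr P subset_union_left, hr N subset_union_right, he, ?_⟩
  rw [sg_pow _ hq, sg_pow _ hq, hw, sg_prod hs.le _ fun p hp => (hPN p (mem_union_left _ hp)).1,
    sg_prod hs.le _ fun p hp => (hPN p (mem_union_right _ hp)).1, mul_assoc, mul_assoc,
    ← Complex.exp_add, ← Complex.exp_add]
  congr 2
  ring

theorem summ {s : ℝ} (hs : 1 < s) : Summable fun d : ℕ => ‖(d : ℂ) ^ cc s‖ := by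
  simp_rw [Complex.norm_natCast_cpow_of_re_ne_zero _ (show (cc s).re ≠ 0 by
    show -s ≠ 0; linarith)]
  exact Real.summable_nat_rpow.2 (show -s < -1 by linarith)

theorem sg_bd {s : ℝ} (hs : 1 < s) : ∃ Z : ℝ, 0 < Z ∧ ∀ n, ‖sg (cc s) n‖ ≤ Z :=
  ⟨∑' d : ℕ, ‖(d : ℂ) ^ cc s‖ + 1, by positivity, fun n =>
    (norm_sum_le _ _).trans (((summ hs).sum_le_tsum _ fun _ _ => norm_nonneg _).trans
      (by linarith))⟩

theorem sg_tail {s : ℝ} (hs : 1 < s) {ε : ℝ} (hε : 0 < ε) :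
    ∃ M : ℕ, ∀ n, Rough M n → ‖sg (cc s) n - 1‖ < ε := by
  obtain ⟨S, hS⟩ := summable_iff_vanishing_norm.1 (summ hs).of_norm ε hε
  refine ⟨S.sup id + 1, fun n hn => ?_⟩
  have h1 : 1 ∈ n.divisors := Nat.one_mem_divisors.2 hn.1
  have : sg (cc s) n - 1 = ∑ d ∈ n.divisors.erase 1, (d : ℂ) ^ cc s := by
    rw [sg, ← add_sum_erase _ _ h1]; simp
  rw [this]
  refine hS _ (disjoint_left.2 fun d hd hd' => ?_)
  obtain ⟨h2, h3⟩ := mem_erase.1 hd
  have h4 := hn.2 _ (Nat.minFac_prime h2) ((Nat.minFac_dvd d).trans (Nat.dvd_of_mem_divisors h3))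
  have h5 := Nat.minFac_le (Nat.pos_of_mem_divisors h3)
  have h6 : d ≤ S.sup id := le_sup (f := id) hd'
  omega

theorem cop {m a b : ℕ} (ha : ∀ p, p.Prime → p ∣ a → p < m) (hb : Rough m b) : a.Coprime b :=
  Nat.coprime_of_dvd fun p hp h1 h2 => absurd (ha p hp h1) (not_lt.2 (hb.2 p hp h2))

theorem chain : ∃ s : ℝ, 1 < s ∧ ∀ (φ : ℕ → Prop) (δ : ℝ), 0 < δ →
    (∀ n n', n ≠ 0 → n' ≠ 0 → ‖sg (cc s) n - sg (cc s) n'‖ < δ → (φ n ↔ φ n')) →
    ∀ n, n ≠ 0 → (φ n ↔ φ 1) := by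
  obtain ⟨s, hs, hov⟩ := overlap
  refine ⟨s, hs, fun φ δ hδ hφ => ?_⟩
  obtain ⟨Z, hZ, hb⟩ := sg_bd hs
  obtain ⟨M, hM⟩ := sg_tail hs (div_pos hδ hZ)
  have main : ∀ m ≤ M, ∀ n0, n0 ≠ 0 → (∀ p, p.Prime → p ∣ n0 → p < m) → ∀ n, Rough m n →
      (φ (n0 * n) ↔ φ n0) := by
    intro m hm
    induction hm using Nat.decreasingInduction with
    | self =>
      intro n0 h0 h1 n hn
      refine hφ _ _ (mul_ne_zero h0 hn.1) h0 ?_
      rw [sg_mul (cc_ne s) (cop h1 hn), ← mul_sub_one, norm_mul]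
      have := hM n hn
      rw [lt_div_iff₀ hZ] at this
      nlinarith [hb n0, norm_nonneg (sg (cc s) n - 1)]
    | of_succ q hq ih =>
      intro n0 h0 h1 n hn
      by_cases hp : q.Prime
      · have hsm : ∀ a p, p.Prime → p ∣ n0 * q ^ a → p < q + 1 := by
          intro a p hpp hd
          rcases (Nat.Prime.dvd_mul hpp).1 hd with h | h
          · exact (h1 p hpp h).trans (Nat.lt_succ_self _)
          · rw [(Nat.prime_dvd_prime_iff_eq hpp hp).1 (hpp.dvd_of_dvd_pow h)]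
            exact Nat.lt_succ_self _
        have hne : ∀ a, n0 * q ^ a ≠ 0 := fun a => mul_ne_zero h0 (pow_ne_zero _ hp.ne_zero)
        have hcq : ∀ a, n0.Coprime (q ^ a) := fun a => Nat.Coprime.pow_right _
          ((Nat.Prime.coprime_iff_not_dvd hp).2 fun h => lt_irrefl _ (h1 q hp h)).symm
        have hpow : ∀ a, φ (n0 * q ^ a) ↔ φ n0 := by
          intro a
          induction a with
          | zero => simp
          | succ a iha =>
            obtain ⟨x, y, e, hx, hy, he, heq⟩ := hov q hp a (min 1 (δ / Z / 2)) (by positivity)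
            rw [← iha, ← ih _ (hne a) (hsm a) x hx, ← ih _ (hne (a + 1)) (hsm _) y hy]
            refine hφ _ _ (mul_ne_zero (hne _) hy.1) (mul_ne_zero (hne _) hx.1) ?_
            have e1 : sg (cc s) (n0 * q ^ (a + 1) * y) =
                sg (cc s) (n0 * q ^ a * x) * Complex.exp e := by
              rw [sg_mul (cc_ne s) (cop (hsm _) hy), sg_mul (cc_ne s) (cop (hsm _) hx),
                sg_mul (cc_ne s) (hcq _), sg_mul (cc_ne s) (hcq _), mul_assoc, heq]
              ring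
            rw [e1, ← mul_sub_one, norm_mul]
            have h2 := Complex.norm_exp_sub_one_le (he.le.trans (min_le_left _ _))
            have h3 := he.trans_le (min_le_right _ _)
            rw [lt_div_iff₀ two_pos, lt_div_iff₀ hZ] at h3
            nlinarith [hb (n0 * q ^ a * x), norm_nonneg (Complex.exp e - 1), norm_nonneg e,
              norm_nonneg (sg (cc s) (n0 * q ^ a * x))]
        obtain ⟨a, n', hnd, rfl⟩ := Nat.exists_eq_pow_mul_and_not_dvd hn.1 q hp.ne_one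
        rw [← mul_assoc, ih _ (hne a) (hsm a) n' ⟨right_ne_zero_of_mul hn.1, fun p hpp hd => ?_⟩,
          hpow]
        exact lt_of_le_of_ne (hn.2 p hpp (hd.mul_left _)) fun h => hnd (h ▸ hd)
      · exact ih n0 h0 (fun p hpp hd => (h1 p hpp hd).trans (Nat.lt_succ_self _)) n
          ⟨hn.1, fun p hpp hd => lt_of_le_of_ne (hn.2 p hpp hd) fun h => hp (h ▸ hpp)⟩
  intro n hn
  simpa using main 0 (Nat.zero_le _) 1 one_ne_zero
    (fun p hp hd => absurd (Nat.dvd_one.1 hd) hp.ne_one) n ⟨hn, fun _ _ _ => Nat.zero_le _⟩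

end H77.Dv
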