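import Pool.Agent.H77.EcDefs

namespace Pool.Agent.H77.Ec

open Classical

/-- Words over `0, 1, 2`. -/
def Sm (w : List ℕ) : Prop := ∀ a ∈ w, a < 3

/-- Words over `0, 1, 2` without two equal adjacent letters. -/
def K (w : List ℕ) : Prop := Sm w ∧ w.IsChain (· ≠ ·)

/-- Rich words. -/
def Good (w : List ℕ) : Prop :=
  K w ∧ w.head? = some 0 ∧ w.getLast? = some 0 ∧ 1 ∈ w ∧ 2 ∈ w

theorem fix_of_image {n : ℕ} {φ : Fin n → Fin n} (hφ : Monotone φ) (I : Finset (Fin n))
    (h : I.image φ = I) : ∀ i ∈ I, φ i = i := by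
  have hinj : Set.InjOn φ I := Finset.card_image_iff.1 (by rw [h])
  have hm : ∀ i : I, φ i ∈ I := fun i => by
    have := Finset.mem_image_of_mem φ i.2
    rwa [h] at this
  let ψ : I → I := fun i => ⟨φ i, hm i⟩
  have hs : StrictMono ψ := fun a b hab =>
    lt_of_le_of_ne (hφ hab.le) fun e => hab.ne (Subtype.ext (hinj a.2 b.2 (congrArg Subtype.val e)))
  intro i hi
  exact congrArg Subtype.val (le_antisymm (hs.apply_le (x := ⟨i, hi⟩)) hs.le_apply)

theorem mono_fold {n : ℕ} {U : Finset ℕ} {δ : Fin n → ℕ → Fin n}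
    (hδ : ∀ a ∈ U, Monotone fun z => δ z a) (w : List ℕ) (hw : Over U w) :
    Monotone fun z => w.foldl δ z := by
  induction w with
  | nil => exact monotone_id
  | cons a w ih => exact (ih fun b hb => hw b (by simp [hb])).comp (hδ a (hw a (by simp)))

/-- A letter different from `0` and from the argument. -/
def cc (y : ℕ) : ℕ := if y = 1 then 2 else 1

theorem good_join {w : List ℕ} (hw : Good w) {x y : ℕ} (hx : x < 3) (hy : y < 3) (hxy : y ≠ x) :
    Good (w ++ [cc y, y, x, cc x] ++ w) := by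
  obtain ⟨⟨h1, h2⟩, h3, h4, h5, h6⟩ := hw
  have c1 : ∀ z, cc z < 3 ∧ cc z ≠ 0 ∧ cc z ≠ z := fun z => by unfold cc; split_ifs <;> omega
  refine ⟨⟨?_, ?_⟩, by simp [List.head?_append, h3], by rw [List.getLast?_append, h4]; rfl,
    by simp [h5], by simp [h6]⟩
  · intro a ha
    simp only [List.mem_append, List.mem_cons, List.not_mem_nil, or_false] at ha
    rcases ha with (ha | rfl | rfl | rfl | rfl) | ha
    · exact h1 a ha
    · exact (c1 _).1
    · exact hy
    · exact hx
    · exact (c1 _).1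
    · exact h1 a ha
  · rw [List.isChain_append, List.isChain_append]
    refine ⟨⟨h2, ?_, ?_⟩, h2, ?_⟩
    · simp [(c1 y).2.2, hxy, (c1 x).2.2.symm]
    · simp [h4, (c1 y).2.1.symm]
    · simp [h3, List.getLast?_append, (c1 x).2.1]

theorem key {U : Finset ℕ} {S : Set (List ℕ)} (hS : Ordered U S) :
    ∃ r : List ℕ → ℕ, (∀ u w, u <:+: w → r w ≤ r u) ∧ ∀ w₀, Good w₀ →
      (∀ w, Good w → w₀ <:+: w → r w = r w₀) → ∀ P Q, P ++ w₀ ++ Q ∈ S →
        ∃ m₁ m₂ x, Sm (m₁ ++ x :: x :: m₂) ∧ P ++ (m₁ ++ x :: x :: m₂) ++ Q ∈ S := by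
  obtain ⟨n, z₀, F, δ, hδ, hS⟩ := hS
  refine ⟨fun w => (Finset.univ.image fun z => w.foldl δ z).card, ?_, ?_⟩
  · rintro u w ⟨p, q, rfl⟩
    calc (Finset.univ.image fun z => (p ++ u ++ q).foldl δ z).card
        ≤ ((Finset.univ.image fun z => u.foldl δ z).image fun z => q.foldl δ z).card := by
          apply Finset.card_le_card
          intro y hy
          simp only [Finset.mem_image, Finset.mem_univ, true_and, List.foldl_append] at hy ⊢
          obtain ⟨z, rfl⟩ := hy
          exact ⟨_, ⟨_, rfl⟩, rfl⟩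
      _ ≤ _ := Finset.card_image_le
  intro w₀ hg hst P Q hPQ
  obtain ⟨hO, hF⟩ := (hS _).1 hPQ
  have hU : ∀ a, a < 3 → a ∈ U := by
    intro a ha
    apply hO
    have h0 : 0 ∈ w₀ := List.mem_of_mem_head? (by rw [hg.2.1]; rfl)
    have : a ∈ w₀ := by
      interval_cases a
      exacts [h0, hg.2.2.2.1, hg.2.2.2.2]
    simp [this]
  have c1 : ∀ z, cc z < 3 := fun z => by unfold cc; split_ifs <;> omega
  have hw : Over U w₀ := fun a ha => hU a (hg.1.1 a ha)
  have hβ : ∀ x, x < 3 → Monotone fun z => ([x, cc x] ++ w₀).foldl δ z := fun x hx =>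
    mono_fold hδ _ fun a ha => by
      simp only [List.mem_append, List.mem_cons, List.not_mem_nil, or_false] at ha
      rcases ha with (rfl | rfl) | ha
      exacts [hU _ hx, hU _ (c1 _), hw a ha]
  have hE : ∀ x y, x < 3 → y < 3 → y ≠ x → ∀ z,
      ([x, cc x] ++ w₀).foldl δ ((w₀ ++ [cc y, y]).foldl δ z) = w₀.foldl δ z := by
    intro x y hx hy hxy z
    have hj := good_join hg hx hy hxy
    have hr := hst _ hj ⟨[], [cc y, y, x, cc x] ++ w₀, by simp⟩
    set I := Finset.univ.image fun z => w₀.foldl δ z with hI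
    have hm : Monotone fun z => ([cc y, y, x, cc x] ++ w₀).foldl δ z :=
      mono_fold hδ _ fun a ha => hU a (hj.1.1 a (by
        rw [List.append_assoc]; exact List.mem_append_right _ ha))
    have e : (Finset.univ.image fun z => (w₀ ++ [cc y, y, x, cc x] ++ w₀).foldl δ z) =
        I.image fun z => ([cc y, y, x, cc x] ++ w₀).foldl δ z := by
      rw [hI, Finset.image_image]
      congr 1
      funext z
      simp only [List.foldl_append, Function.comp]
    have h2 : I.image (fun z => ([cc y, y, x, cc x] ++ w₀).foldl δ z) = I := by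
      apply Finset.eq_of_subset_of_card_le
      · intro t ht
        obtain ⟨s, -, rfl⟩ := Finset.mem_image.1 ht
        rw [List.foldl_append]
        exact Finset.mem_image_of_mem _ (Finset.mem_univ _)
      · rw [← e]; exact hr.ge
    have := fix_of_image hm I h2 (w₀.foldl δ z) (Finset.mem_image_of_mem _ (Finset.mem_univ _))
    simpa [List.foldl_append] using this
  set z := P.foldl δ z₀ with hz
  have mid : ∃ x, x < 3 ∧
      ([x, cc x] ++ w₀).foldl δ ((w₀ ++ [cc x, x]).foldl δ z) = w₀.foldl δ z := by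
    let p : ℕ → Fin n := fun y => (w₀ ++ [cc y, y]).foldl δ z
    have btw : ∀ x y t, x < 3 → y < 3 → t < 3 → y ≠ x → t ≠ x → p y ≤ p x → p x ≤ p t →
        ∃ x, x < 3 ∧ ([x, cc x] ++ w₀).foldl δ ((w₀ ++ [cc x, x]).foldl δ z) = w₀.foldl δ z :=
      fun x y t hx hy ht h1 h2 h3 h4 => ⟨x, hx, le_antisymm
        ((hβ x hx h4).trans (hE x t hx ht h2 z).le) ((hE x y hx hy h1 z).ge.trans (hβ x hx h3))⟩
    rcases le_total (p 0) (p 1) with h1 | h1 <;> rcases le_total (p 1) (p 2) with h2 | h2 <;>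
      rcases le_total (p 0) (p 2) with h3 | h3
    · exact btw 1 0 2 (by omega) (by omega) (by omega) (by omega) (by omega) h1 h2
    · exact btw 1 0 2 (by omega) (by omega) (by omega) (by omega) (by omega) h1 h2
    · exact btw 2 0 1 (by omega) (by omega) (by omega) (by omega) (by omega) h3 h2
    · exact btw 0 2 1 (by omega) (by omega) (by omega) (by omega) (by omega) h3 h1
    · exact btw 0 1 2 (by omega) (by omega) (by omega) (by omega) (by omega) h1 h3
    · exact btw 2 1 0 (by omega) (by omega) (by omega) (by omega) (by omega) h2 h3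
    · exact btw 1 2 0 (by omega) (by omega) (by omega) (by omega) (by omega) h2 h1
    · exact btw 1 2 0 (by omega) (by omega) (by omega) (by omega) (by omega) h2 h1
  obtain ⟨x, hx, hm⟩ := mid
  have hsm : Sm ((w₀ ++ [cc x]) ++ x :: x :: (cc x :: w₀)) := by
    intro a ha
    simp only [List.mem_append, List.mem_cons, List.not_mem_nil, or_false] at ha
    rcases ha with (ha | rfl) | rfl | rfl | rfl | ha
    exacts [hg.1.1 a ha, c1 _, hx, hx, c1 _, hg.1.1 a ha]
  refine ⟨w₀ ++ [cc x], cc x :: w₀, x, hsm, (hS _).2 ⟨fun a ha => ?_, ?_⟩⟩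
  · rcases List.mem_append.1 ha with ha | ha
    · rcases List.mem_append.1 ha with ha | ha
      · exact hO a (by simp [ha])
      · exact hU a (hsm a ha)
    · exact hO a (by simp [ha])
  · simp only [List.foldl_append, List.foldl_cons, List.foldl_nil, ← hz] at hF hm ⊢
    rw [hm]
    exact hF

theorem stable {ι : Type} (l : List ι) (r : ι → List ℕ → ℕ)
    (hr : ∀ i ∈ l, ∀ u w, u <:+: w → r i w ≤ r i u) :
    ∃ w₀, Good w₀ ∧ ∀ i ∈ l, ∀ w, Good w → w₀ <:+: w → r i w = r i w₀ := by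
  induction l with
  | nil => exact ⟨[0, 1, 2, 0], ⟨⟨by simp [Sm], by simp⟩, rfl, rfl, by simp, by simp⟩, by simp⟩
  | cons j l ih =>
    obtain ⟨w₀, h0, h1⟩ := ih fun i hi => hr i (by simp [hi])
    have hex : ∃ m, ∃ w, Good w ∧ w₀ <:+: w ∧ r j w = m := ⟨_, w₀, h0, List.infix_refl _, rfl⟩
    obtain ⟨w₁, h2, h3, h4⟩ := Nat.find_spec hex
    refine ⟨w₁, h2, fun i hi w hw hi' => ?_⟩
    rcases List.mem_cons.1 hi with rfl | hi
    · refine le_antisymm (hr i (by simp) _ _ hi') ?_
      rw [h4]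
      exact Nat.find_min' hex ⟨w, hw, h3.trans hi', rfl⟩
    · rw [h1 i hi w hw (h3.trans hi'), h1 i hi w₁ h2 h3]

end Pool.Agent.H77.Ec
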