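import Pool.Agent.H77.EcA

namespace Pool.Agent.H77.Ec

open Classical

/-- The witness language. -/
def LL : Set (List ℕ) := {w | Sm w ∨ ∃ u, K u ∧ w = 3 :: (u ++ [3])}

theorem over_iff (w : List ℕ) : Over {0, 1, 2} w ↔ Sm w := by
  simp only [Over, Sm, Finset.mem_insert, Finset.mem_singleton]
  exact forall₂_congr fun a _ => by omega

/-- The witness grammar. -/
def G0 : Gram := ⟨{0, 1, 2, 3}, [[]],
  [⟨{0, 1, 2}, {w | Sm w}, [([], [0]), ([], [1]), ([], [2])]⟩, ⟨{0, 1, 2}, {w | K w}, [([3], [3])]⟩]⟩

theorem gen_sm (w : List ℕ) (hw : Sm w) : Gen G0 w := by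
  induction w using List.reverseRecOn with
  | nil => exact Gen.ax _ (by simp [G0])
  | append_singleton w a ih =>
    have h1 : Sm w := fun b hb => hw b (by simp [hb])
    have h2 : a < 3 := hw a (by simp)
    exact Gen.step w ⟨{0, 1, 2}, {w | Sm w}, [([], [0]), ([], [1]), ([], [2])]⟩ ([], [a]) (ih h1)
      (by simp [G0]) h1 (by interval_cases a <;> simp)

theorem gen_G0 : LL = {w | Gen G0 w} := by
  ext w
  constructor
  · rintro (h | ⟨u, hu, rfl⟩)
    · exact gen_sm w h
    · exact Gen.step u ⟨{0, 1, 2}, {w | K w}, [([3], [3])]⟩ ([3], [3]) (gen_sm u hu.1)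
        (by simp [G0]) hu (by simp)
  · intro h
    induction h with
    | ax w hw =>
      left
      simp only [G0, List.mem_singleton] at hw
      simp [hw, Sm]
    | step x p c _ hp hx hc _ =>
      simp only [G0, List.mem_cons, List.not_mem_nil, or_false] at hp
      rcases hp with rfl | rfl
      · left
        simp only [List.mem_cons, List.not_mem_nil, or_false] at hc
        intro a ha
        rcases hc with rfl | rfl | rfl <;>
        · simp only [List.nil_append, List.mem_append, List.mem_singleton] at ha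
          rcases ha with ha | rfl
          · exact hx a ha
          · omega
      · right
        simp only [List.mem_singleton] at hc
        subst hc
        exact ⟨x, hx, rfl⟩

theorem chain_iff (w : List ℕ) : w.IsChain (· ≠ ·) ↔
    ∀ j, j + 2 ≤ w.length → ((w.drop j).take 2).IsChain (· ≠ ·) := by
  constructor
  · intro h j _
    exact (h.drop j).take 2
  · intro h
    rw [List.isChain_iff_getElem]
    intro i hi
    have := h i (by omega)
    rw [List.isChain_iff_getElem] at this
    have := this 0 (by simp; omega)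
    simpa using this

theorem in_slt : LL ∈ EC (SLT 2) := by
  refine ⟨G0, ⟨by simp [G0, Over], fun p hp => ?_⟩, gen_G0⟩
  simp only [G0, List.mem_cons, List.not_mem_nil, or_false] at hp
  rcases hp with rfl | rfl
  · refine ⟨by decide, ⟨fun w hw => (over_iff w).2 hw, Set.univ, Set.univ, Set.univ,
      fun w hw _ => by simpa using (over_iff w).1 hw⟩, by simp [G0, Over]⟩
  · refine ⟨by decide, ⟨fun w hw => (over_iff w).2 hw.1, {u | u.IsChain (· ≠ ·)},
      {u | u.IsChain (· ≠ ·)}, {u | u.IsChain (· ≠ ·)}, fun w hw hl => ?_⟩, by simp [G0, Over]⟩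
    simp only [Set.mem_setOf_eq]
    constructor
    · intro h
      exact ⟨h.2.take 2, h.2.drop _, fun j _ _ => (h.2.drop j).take 2⟩
    · rintro ⟨h1, h2, h3⟩
      refine ⟨(over_iff w).1 hw, (chain_iff w).2 fun j hj => ?_⟩
      rcases Nat.eq_zero_or_pos j with rfl | hj0
      · simpa using h1
      · rcases hj.eq_or_lt with e | hlt
        · have : j = w.length - 2 := by omega
          rw [this]
          exact h2.take 2
        · exact h3 j hj0 hlt

theorem last_step {G : Gram} {w : List ℕ} (h : Gen G w) : w ∈ G.A ∨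
    ∃ x, ∃ p ∈ G.P, ∃ c ∈ p.C, Gen G x ∧ x ∈ p.S ∧ w = c.1 ++ x ++ c.2 ∧ (c.1 ≠ [] ∨ c.2 ≠ []) := by
  induction h with
  | ax w hw => exact Or.inl hw
  | step x p c hx hp hS hc ih =>
    by_cases h0 : c.1 ≠ [] ∨ c.2 ≠ []
    · exact Or.inr ⟨x, p, hp, c, hc, hx, hS, rfl, h0⟩
    · push Not at h0
      simpa [h0.1, h0.2] using ih

/-- Padding. -/
def pad : ℕ → List ℕ
  | 0 => []
  | n + 1 => 0 :: 1 :: pad n

theorem pad_len (n : ℕ) : (pad n).length = 2 * n := by
  induction n with
  | zero => rfl
  | succ n ih => simp [pad, ih]; omega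

theorem pad_K (n : ℕ) {w : List ℕ} (hw : K w) (h0 : w.head? = some 0) :
    K (pad n ++ w) ∧ (pad n ++ w).head? = some 0 := by
  induction n with
  | zero => exact ⟨hw, h0⟩
  | succ n ih =>
    refine ⟨⟨fun a ha => ?_, ?_⟩, rfl⟩
    · simp only [pad, List.cons_append, List.mem_cons] at ha
      rcases ha with rfl | rfl | ha
      exacts [by omega, by omega, ih.1.1 a ha]
    · simp only [pad, List.cons_append]
      rw [List.isChain_cons_cons, List.isChain_cons]
      exact ⟨by omega, by simp [ih.2], ih.1.2⟩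

theorem split3 {u x v P w Q : List ℕ} (e : u ++ x ++ v = P ++ w ++ Q) (h1 : u.length ≤ P.length)
    (h2 : v.length ≤ Q.length) : ∃ P' Q', x = P' ++ w ++ Q' := by
  have a1 : u <+: P := List.prefix_of_prefix_length_le ⟨x ++ v, by rw [← List.append_assoc, e]⟩
    ⟨w ++ Q, by rw [← List.append_assoc]⟩ h1
  have a2 : v <:+ Q := List.suffix_of_suffix_length_le ⟨u ++ x, e⟩ ⟨P ++ w, rfl⟩ h2
  obtain ⟨P', rfl⟩ := a1
  obtain ⟨Q', rfl⟩ := a2
  refine ⟨P', Q', ?_⟩
  simp only [List.append_assoc, List.append_cancel_left_eq] at e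
  simpa only [← List.append_assoc, List.append_cancel_right_eq] using e

theorem not_ord : LL ∉ EC Ordered := by
  rintro ⟨G, ⟨-, hG⟩, hL⟩
  have hL' : ∀ w, Gen G w ↔ w ∈ LL := fun w => by rw [hL]; rfl
  have hk : ∀ p : Pair, ∃ r : List ℕ → ℕ, p ∈ G.P → (∀ u w, u <:+: w → r w ≤ r u) ∧ ∀ w₀, Good w₀ →
      (∀ w, Good w → w₀ <:+: w → r w = r w₀) → ∀ P Q, P ++ w₀ ++ Q ∈ p.S →
        ∃ m₁ m₂ x, Sm (m₁ ++ x :: x :: m₂) ∧ P ++ (m₁ ++ x :: x :: m₂) ++ Q ∈ p.S := fun p => by
    by_cases hp : p ∈ G.P
    · obtain ⟨r, hr⟩ := key (hG p hp).2.1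
      exact ⟨r, fun _ => hr⟩
    · exact ⟨fun _ => 0, fun h => absurd h hp⟩
  choose r hr using hk
  obtain ⟨w₀, hg, hst⟩ := stable G.P r fun p hp => (hr p hp).1
  obtain ⟨N, hN1, hN2⟩ : ∃ N, (∀ w ∈ G.A, w.length ≤ N) ∧
      ∀ p ∈ G.P, ∀ c ∈ p.C, c.1.length ≤ N ∧ c.2.length ≤ N := by
    refine ⟨(G.A.map List.length).sum +
      ((G.P.flatMap Pair.C).map fun c => c.1.length + c.2.length).sum, fun w hw => ?_,
      fun p hp c hc => ?_⟩
    · have := List.single_le_sum (l := G.A.map List.length) (fun _ _ => Nat.zero_le _) _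
        (List.mem_map_of_mem hw)
      omega
    · have := List.single_le_sum (l := (G.P.flatMap Pair.C).map fun c => c.1.length + c.2.length)
        (fun _ _ => Nat.zero_le _) _ (List.mem_map_of_mem (List.mem_flatMap.2 ⟨p, hp, hc⟩))
      omega
  have k1 : K (w₀ ++ (1 :: pad N)) := by
    have h := (pad_K N (w := []) ⟨by simp [Sm], by simp⟩)
    have h2 := pad_K N (w := [0]) ⟨by simp [Sm], by simp⟩ rfl
    refine ⟨fun a ha => ?_, ?_⟩
    · simp only [List.mem_append, List.mem_cons] at ha
      rcases ha with ha | rfl | ha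
      exacts [hg.1.1 a ha, by omega, h2.1.1 a (by simp [ha])]
    · rw [List.isChain_append]
      refine ⟨hg.1.2, ?_, by simp [hg.2.2.1]⟩
      have : (1 :: (pad N ++ [0])).IsChain (· ≠ ·) := by
        rw [List.isChain_cons]
        exact ⟨by simp [h2.2], h2.1.2⟩
      exact List.IsChain.left_of_append (l₁ := 1 :: pad N) (l₂ := [0]) this
  have k2 := (pad_K N k1 (by simp [List.head?_append, hg.2.1])).1
  set M := pad N ++ (w₀ ++ (1 :: pad N)) with hM
  have lM : 4 * N < M.length := by simp [hM, pad_len]; omega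
  have c3 : ∀ u, Sm u → u.count 3 = 0 := fun u hu =>
    List.count_eq_zero.2 fun h => absurd (hu 3 h) (by omega)
  rcases last_step ((hL' _).2 (Or.inr ⟨M, k2, rfl⟩)) with h | ⟨x, p, hp, c, hc, hx, hS, e, hne⟩
  · have := hN1 _ h
    simp at this
    omega
  obtain ⟨l1, l2⟩ := hN2 p hp c hc
  obtain ⟨u, v⟩ := c
  simp only at e hne l1 l2
  rcases (hL' x).1 hx with hx' | ⟨y, -, rfl⟩
  · have hx0 : x ≠ [] := by
      rintro rfl
      have := congrArg List.length e
      simp at this
      omega
    obtain ⟨u', rfl⟩ : ∃ u', u = 3 :: u' := by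
      cases u with
      | nil =>
        obtain ⟨a, t, rfl⟩ := List.exists_cons_of_ne_nil hx0
        have := hx' a (by simp)
        simp at e
        omega
      | cons a u' => exact ⟨u', by simp at e; rw [e.1]⟩
    obtain ⟨P', Q', rfl⟩ := split3 (u := 3 :: u') (x := x) (v := v) (P := 3 :: pad N) (w := w₀)
      (Q := 1 :: pad N ++ [3]) (by rw [← e, hM]; simp) (by simp [pad_len] at l1 ⊢; omega)
      (by simp [pad_len]; omega)
    obtain ⟨m₁, m₂, z, h1, h2⟩ := (hr p hp).2 w₀ hg (hst p hp) P' Q' hS
    have h3 : Sm (P' ++ (m₁ ++ z :: z :: m₂) ++ Q') := by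
      intro a ha
      rcases List.mem_append.1 ha with ha | ha
      · rcases List.mem_append.1 ha with ha | ha
        · exact hx' a (by simp [ha])
        · exact h1 a ha
      · exact hx' a (by simp [ha])
    rcases (hL' _).1 (Gen.step _ p (3 :: u', v) ((hL' _).2 (Or.inl h3)) hp h2 hc) with
      h4 | ⟨t, ht, h4⟩
    · exact absurd (h4 3 (by simp)) (by omega)
    · have h5 : (t ++ [3]).IsChain (· ≠ ·) := by
        rw [List.isChain_append]
        refine ⟨ht.2, by simp, fun a ha => ?_⟩
        have := ht.1 a (List.mem_of_mem_getLast? ha)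
        simp
        omega
      simp only [List.cons_append, List.cons.injEq, true_and] at h4
      rw [← h4] at h5
      have e6 : u' ++ (P' ++ (m₁ ++ z :: z :: m₂) ++ Q') ++ v =
          (u' ++ P' ++ m₁) ++ (z :: z :: (m₂ ++ Q' ++ v)) := by simp
      rw [e6] at h5
      exact (List.isChain_cons_cons.1 h5.right_of_append).1 rfl
  · have h1 := congrArg (List.count 3) e
    simp only [List.count_cons, List.count_append, c3 M k2.1, List.count_nil] at h1
    simp only [BEq.rfl, if_true] at h1
    have hu : u = [] := by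
      cases u with
      | nil => rfl
      | cons a u' =>
        simp only [List.cons_append, List.cons.injEq] at e
        rw [← e.1] at h1
        simp at h1
        omega
    have hv : v = [] := by
      induction v using List.reverseRecOn with
      | nil => rfl
      | append_singleton v' a _ =>
        have h2 := congrArg List.getLast? e
        rw [← List.cons_append, List.getLast?_append, ← List.append_assoc, List.getLast?_append] at h2
        simp only [List.getLast?_singleton, Option.some_or, Option.some.injEq] at h2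
        rw [← h2] at h1
        simp at h1
        omega
    simp [hu, hv] at hne

end Pool.Agent.H77.Ec
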