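import Mathlib

/-! External contextual grammars with selection.  Letters are natural numbers, alphabets are
finite sets of them. -/

namespace Pool.Agent.H77.Ec

/-- `w` is a word over the alphabet `U`. -/
def Over (U : Finset ℕ) (w : List ℕ) : Prop := ∀ a ∈ w, a ∈ U

/-- `S` is an ordered language over `U`: accepted by a complete DFA whose states are totally
ordered with every letter of `U` acting monotonically. -/
def Ordered (U : Finset ℕ) (S : Set (List ℕ)) : Prop :=
  ∃ (n : ℕ) (z₀ : Fin n) (F : Set (Fin n)) (δ : Fin n → ℕ → Fin n),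
    (∀ a ∈ U, Monotone fun z => δ z a) ∧ ∀ w, w ∈ S ↔ Over U w ∧ w.foldl δ z₀ ∈ F

/-- `S` is a strictly locally `k`-testable language over `U`. -/
def SLT (k : ℕ) (U : Finset ℕ) (S : Set (List ℕ)) : Prop :=
  (∀ w ∈ S, Over U w) ∧ ∃ B I E : Set (List ℕ), ∀ w, Over U w → k ≤ w.length →
    (w ∈ S ↔ w.take k ∈ B ∧ w.drop (w.length - k) ∈ E ∧
      ∀ j, 1 ≤ j → j + k + 1 ≤ w.length → (w.drop j).take k ∈ I)

/-- A selection pair: subalphabet `U`, selection language `S`, finitely many contexts `C`. -/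
structure Pair : Type where
  U : Finset ℕ
  S : Set (List ℕ)
  C : List (List ℕ × List ℕ)

/-- A contextual grammar: alphabet, axioms, selection pairs. -/
structure Gram : Type where
  V : Finset ℕ
  A : List (List ℕ)
  P : List Pair

/-- The grammar is over its alphabet and its selection languages lie in the family `𝓛`. -/
def Gram.In (𝓛 : Finset ℕ → Set (List ℕ) → Prop) (G : Gram) : Prop :=
  (∀ w ∈ G.A, Over G.V w) ∧
    ∀ p ∈ G.P, p.U ⊆ G.V ∧ 𝓛 p.U p.S ∧ ∀ c ∈ p.C, Over G.V c.1 ∧ Over G.V c.2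

/-- The words generated in the external mode. -/
inductive Gen (G : Gram) : List ℕ → Prop
  | ax (w : List ℕ) : w ∈ G.A → Gen G w
  | step (x : List ℕ) (p : Pair) (c : List ℕ × List ℕ) :
      Gen G x → p ∈ G.P → x ∈ p.S → c ∈ p.C → Gen G (c.1 ++ x ++ c.2)

/-- The family of languages generated with selection languages from `𝓛`. -/
def EC (𝓛 : Finset ℕ → Set (List ℕ) → Prop) : Set (Set (List ℕ)) :=
  {L | ∃ G : Gram, G.In 𝓛 ∧ L = {w | Gen G w}}

end Pool.Agent.H77.Ec
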