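import Pool.Agent.H77.EqdDefs

/-! Two pieces do not suffice. -/

namespace H77.Eqd

open Set Filter Topology

theorem dsq (x y : P) : dist x y ^ 2 = (x 0 - y 0) ^ 2 + (x 1 - y 1) ^ 2 := by
  rw [EuclideanSpace.dist_eq, Real.sq_sqrt (by positivity)]
  simp [Fin.sum_univ_two, Real.dist_eq]

theorem diam_S {x y : P} (hx : x ∈ S) (hy : y ∈ S) : dist x y ^ 2 ≤ 2 := by
  obtain ⟨a1, a2, a3, a4⟩ := hx
  obtain ⟨b1, b2, b3, b4⟩ := hy
  rw [dsq]; nlinarith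

theorem center {x y z : P} (hx : x ∈ S) (hy : y ∈ S) (h : dist x y ^ 2 = 2)
    (h1 : dist z x ^ 2 = 1 / 2) (h2 : dist z y ^ 2 = 1 / 2) : z = !₂[1 / 2, 1 / 2] := by
  obtain ⟨a1, a2, a3, a4⟩ := hx
  obtain ⟨b1, b2, b3, b4⟩ := hy
  rw [dsq] at h h1 h2
  have e0 : (x 0 - y 0) ^ 2 = 1 := by nlinarith
  have e1 : (x 1 - y 1) ^ 2 = 1 := by nlinarith
  have f0 : x 0 + y 0 = 1 := by nlinarith [sq_nonneg (x 0 + y 0 - 1)]
  have f1 : x 1 + y 1 = 1 := by nlinarith [sq_nonneg (x 1 + y 1 - 1)]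
  have g : (2 * z 0 - x 0 - y 0) ^ 2 + (2 * z 1 - x 1 - y 1) ^ 2 = 0 := by nlinarith
  have g0 : 2 * z 0 - x 0 - y 0 = 0 := by nlinarith [sq_nonneg (2 * z 1 - x 1 - y 1)]
  have g1 : 2 * z 1 - x 1 - y 1 = 0 := by nlinarith [sq_nonneg (2 * z 0 - x 0 - y 0)]
  ext i; fin_cases i <;> simp <;> linarith

theorem closed_S : IsClosed S := by
  unfold S
  simp only [setOf_and]
  refine (isClosed_le ?_ ?_).inter ((isClosed_le ?_ ?_).inter
    ((isClosed_le ?_ ?_).inter (isClosed_le ?_ ?_))) <;> fun_prop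

theorem aux {a₁ a₂ b₁ b₂ : Set P} {h₁ h₂ : P ≃ᵢ P} (s₁ : a₁ ⊆ S) (s₂ : a₂ ⊆ S)
    (d : Disjoint a₁ a₂) (t : T ⊆ b₁ ∪ b₂) (m₁ : MapsTo h₁ b₁ a₁) (m₂ : MapsTo h₂ b₂ a₂)
    {ε : ℝ} (he : ε ^ 2 = 1) (hp : !₂[ε, 1] ∈ b₁) (hr : !₂[0, 0] ∈ b₁) : False := by
  have ab : |ε| = 1 := by rw [← sq_eq_sq₀ (abs_nonneg _) zero_le_one, sq_abs, he, one_pow]
  have k : ∀ s : ℝ, 0 < s → s ≤ 1 → !₂[-ε * s, s] ∈ b₂ := fun s s0 s1 => by
    refine (t (a := !₂[-ε * s, s]) ⟨by simp [abs_mul, ab, abs_of_pos s0], by simpa⟩).resolve_left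
      fun h => ?_
    have := diam_S (s₁ (m₁ h)) (s₁ (m₁ hp))
    rw [h₁.dist_eq, dsq] at this
    simp at this
    nlinarith
  have r2 : h₂ !₂[0, 0] ∈ S := by
    have c : Continuous fun s : ℝ => h₂ !₂[-ε * s, s] := h₂.continuous.comp (by fun_prop)
    have := (c.tendsto 0).mono_left (nhdsWithin_le_nhds (s := Ioi 0))
    simp only [mul_zero] at this
    refine closed_S.mem_of_tendsto this ?_
    filter_upwards [Ioc_mem_nhdsGT one_pos] with s hs using s₂ (m₂ (k s hs.1 hs.2))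
  have q := k 1 one_pos le_rfl
  have c2 := center (z := h₂ !₂[-ε * (1 / 2), 1 / 2]) r2 (s₂ (m₂ q))
    (by rw [h₂.dist_eq, dsq]; simp; linarith) (by rw [h₂.dist_eq, dsq]; simp; nlinarith)
    (by rw [h₂.dist_eq, dsq]; simp; nlinarith)
  have c1 := center (z := h₁ !₂[ε * (1 / 2), 1 / 2]) (s₁ (m₁ hr)) (s₁ (m₁ hp))
    (by rw [h₁.dist_eq, dsq]; simp; linarith) (by rw [h₁.dist_eq, dsq]; simp; nlinarith)
    (by rw [h₁.dist_eq, dsq]; simp; nlinarith)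
  have m : !₂[ε * (1 / 2), 1 / 2] ∈ b₁ := by
    refine (t (a := !₂[ε * (1 / 2), 1 / 2]) ⟨by simp [abs_mul, ab], by norm_num⟩).resolve_right
      fun h => ?_
    have := diam_S (s₂ (m₂ h)) (s₂ (m₂ q))
    rw [h₂.dist_eq, dsq] at this
    simp at this
    nlinarith
  exact disjoint_left.1 d (c1 ▸ m₁ m) (c2 ▸ m₂ (k _ (by norm_num) (by norm_num)))

theorem not_two : ¬ Equi 2 S T := by
  rintro ⟨a, b, g, ha, hb, da, -, hg⟩
  have s : ∀ i, a i ⊆ S := fun i => ha ▸ subset_iUnion a i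
  have m : ∀ i, MapsTo (g i).symm (b i) (a i) := fun i y hy => by
    obtain ⟨x, hx, rfl⟩ := hg i ▸ hy
    simpa using hx
  have t : T ⊆ b 0 ∪ b 1 := fun y hy => by
    obtain ⟨i, hi⟩ := mem_iUnion.1 (hb ▸ hy)
    fin_cases i
    exacts [.inl hi, .inr hi]
  have t' : T ⊆ b 1 ∪ b 0 := union_comm (b 0) _ ▸ t
  have far : ∀ i, !₂[1, 1] ∈ b i → !₂[-1, 1] ∈ b i → False := fun i h1 h2 => by
    have := diam_S (s i (m i h1)) (s i (m i h2))
    rw [(g i).symm.dist_eq, dsq] at this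
    simp at this
    linarith
  have d : Disjoint (a 0) (a 1) := da (by decide)
  rcases t (a := !₂[0, 0]) ⟨by simp, by simp⟩ with r | r <;>
    rcases t (a := !₂[1, 1]) ⟨by simp, by simp⟩ with p | p <;>
    rcases t (a := !₂[-1, 1]) ⟨by simp, by simp⟩ with q | q
  · exact far 0 p q
  · exact aux (s 0) (s 1) d t (m 0) (m 1) (by norm_num) p r
  · exact aux (s 0) (s 1) d t (m 0) (m 1) (by norm_num) q r
  · exact far 1 p q
  · exact far 0 p q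
  · exact aux (s 1) (s 0) d.symm t' (m 1) (m 0) (by norm_num) q r
  · exact aux (s 1) (s 0) d.symm t' (m 1) (m 0) (by norm_num) p r
  · exact far 1 p q

end H77.Eqd
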