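import Pool.Agent.H77.EqdDefs

/-! The isometries and the absorbing orbit used for four pieces. -/

namespace H77.Eqd

open Set Complex ComplexConjugate

noncomputable def mkR (u a : ℂ) (h : ‖u‖ = 1) : ℂ ≃ᵢ ℂ where
  toFun z := a + u * z
  invFun w := (w - a) / u
  left_inv z := by have : u ≠ 0 := by rintro rfl; simp at h
                   field_simp; ring
  right_inv w := by have : u ≠ 0 := by rintro rfl; simp at h
                    field_simp; ring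
  isometry_toFun := Isometry.of_dist_eq fun x y => by
    simp only [dist_eq_norm, add_sub_add_left_eq_sub, ← mul_sub, norm_mul, h, one_mul]

noncomputable def ω : ℂ := ⟨16 / 65, 63 / 65⟩
noncomputable def ζ : ℂ := ⟨√2 / 2, √2 / 2⟩
noncomputable def O : ℂ := ⟨558 / 275 - 903 / 550 * √2, -411 / 275 + 427 / 275 * √2⟩
noncomputable def c : ℂ := ⟨-7 / 50, 7 / 50⟩

theorem s2 : √2 * √2 = 2 := Real.mul_self_sqrt (by norm_num)
theorem s_lo : 1.41421 < √2 := Real.lt_sqrt_of_sq_lt (by norm_num)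
theorem s_hi : √2 < 1.41422 := (Real.sqrt_lt' (by norm_num)).2 (by norm_num)

theorem nω : ‖ω‖ = 1 := by
  rw [norm_eq_sqrt_sq_add_sq]; simp only [ω]; norm_num

theorem nζ : ‖-ζ‖ = 1 := by
  rw [norm_neg, norm_eq_sqrt_sq_add_sq, Real.sqrt_eq_one]; simp only [ζ]; linarith [s2]

noncomputable def Rho : ℂ ≃ᵢ ℂ := mkR ω (O - ω * O) nω
noncomputable def Rot : ℂ ≃ᵢ ℂ := mkR (-I) 0 (by simp)
noncomputable def G : ℂ ≃ᵢ ℂ := conjLIE.toIsometryEquiv.trans (mkR (-ζ) (1 + I) nζ)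
noncomputable def Psi : ℂ ≃ᵢ ℂ := Rho.trans (Rot.trans G)

theorem Rho_def (z : ℂ) : Rho z = O + ω * (z - O) := by
  change O - ω * O + ω * z = _; ring
theorem Rot_def (z : ℂ) : Rot z = -I * z := zero_add _
theorem G_def (z : ℂ) : G z = 1 + I + -ζ * conj z := rfl
theorem Psi_def (z : ℂ) : Psi z = G (Rot (Rho z)) := rfl

theorem Psi_c : I * Psi c = O := by
  rw [Psi_def, G_def, Rot_def, Rho_def]
  apply Complex.ext <;> simp [ω, ζ, O, c] <;> linarith [s2]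

theorem Psi_O : Psi O = ⟨-1207 / 550 + 969 / 550 * √2, 599 / 550 - 147 / 550 * √2⟩ := by
  rw [Psi_def, G_def, Rot_def, Rho_def, sub_self, mul_zero, add_zero]
  apply Complex.ext <;> simp [ζ, O] <;> linarith [s2]

theorem Psi_sub (y : ℂ) : I * Psi y - O = ζ * conj ω * conj (y - c) := by
  rw [← Psi_c]
  simp only [Psi_def, G_def, Rot_def, Rho_def, map_mul, map_add, map_sub, map_neg, conj_I]
  linear_combination (-ζ * conj ω * (conj y - conj c)) * I_mul_I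

theorem ω_ord (m : ℕ) : ω ^ (m + 1) ≠ 1 := by
  have k : ∀ m : ℕ, ∃ a b : ℤ, (65 * ω) ^ m = ⟨a, b⟩ ∧ (a + 2 * b) % 5 ≠ 0 := by
    intro m
    induction m with
    | zero => exact ⟨1, 0, by simp [Complex.ext_iff], by norm_num⟩
    | succ m ih =>
      obtain ⟨a, b, h1, h2⟩ := ih
      refine ⟨16 * a - 63 * b, 63 * a + 16 * b, ?_, by omega⟩
      rw [pow_succ, h1]
      apply Complex.ext <;> simp [ω] <;> ring
  intro h
  obtain ⟨a, b, h1, h2⟩ := k (m + 1)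
  rw [mul_pow, h, mul_one, show (65 : ℂ) ^ (m + 1) = ((65 ^ (m + 1) : ℤ) : ℂ) by push_cast; rfl] at h1
  have e1 := congrArg re h1
  have e2 := congrArg im h1
  simp only [intCast_re, intCast_im] at e1 e2
  have a1 : 65 ^ (m + 1) = a := by exact_mod_cast e1
  have b1 : 0 = b := by exact_mod_cast e2
  rw [← a1, ← b1, pow_succ] at h2
  omega

def J : Set ℂ := {z | (z.re = -z.im ∧ 0 ≤ z.im ∧ z.im < 1 - √2 / 2 ∧ z.im ≠ 7 / 50) ∨
  (z.re = 7 / 50 ∧ z.im = 7 / 50)}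

theorem J_bd {y : ℂ} (h : y ∈ J) : ‖y - c‖ ≤ 7 / 25 ∧ ∃ r : ℝ, 0 < r ∧ conj (y - c) ^ 8 = r := by
  rcases h with ⟨h1, h2, h3, h4⟩ | ⟨h1, h2⟩
  · have e : y - c = ((y.im - 7 / 50 : ℝ) : ℂ) * (-1 + I) := by
      apply Complex.ext <;> simp [c, h1]; ring
    have n := sub_ne_zero.2 h4
    refine ⟨?_, 16 * (y.im - 7 / 50) ^ 8, by positivity, ?_⟩
    · rw [norm_eq_sqrt_sq_add_sq, Real.sqrt_le_left (by norm_num)]
      simp [c, h1]; nlinarith [s_lo]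
    · rw [e, map_mul, conj_ofReal, mul_pow, show conj (-1 + I) ^ 8 = 16 by
        simp [Complex.ext_iff, pow_succ]; norm_num]
      push_cast; ring
  · have e : y - c = ((7 / 25 : ℝ) : ℂ) := by
      apply Complex.ext <;> simp [c, h1, h2]; norm_num
    refine ⟨by rw [e, norm_real]; norm_num, (7 / 25) ^ 8, by positivity, ?_⟩
    rw [e, conj_ofReal]; push_cast; rfl

def W : Set ℂ := {z | ∃ n : ℕ, ∃ y ∈ J, z = O + ω ^ n * (I * Psi y - O)}

theorem ball_bd {z o : ℂ} (h : ‖z - o‖ ≤ 7 / 25) : |z.re - o.re| ≤ 7 / 25 ∧ |z.im - o.im| ≤ 7 / 25 ∧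
    |z.re - o.re + (z.im - o.im)| ≤ 0.397 ∧ |z.re - o.re - (z.im - o.im)| ≤ 0.397 := by
  rw [norm_eq_sqrt_sq_add_sq, Real.sqrt_le_left (by norm_num), sub_re, sub_im] at h
  refine ⟨?_, ?_, ?_, ?_⟩ <;> refine abs_le_of_sq_le_sq ?_ (by norm_num) <;>
    nlinarith [sq_nonneg (z.re - o.re), sq_nonneg (z.im - o.im),
      sq_nonneg (z.re - o.re + (z.im - o.im)), sq_nonneg (z.re - o.re - (z.im - o.im))]

theorem W_norm {z : ℂ} (h : z ∈ W) : ‖z - O‖ ≤ 7 / 25 := by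
  obtain ⟨n, y, hy, rfl⟩ := h
  have := nζ
  rw [norm_neg] at this
  rw [add_sub_cancel_left, Psi_sub]
  simpa only [norm_mul, norm_pow, nω, this, norm_conj, one_pow, one_mul] using (J_bd hy).1

theorem W_in {z : ℂ} (h : z ∈ W) : -z.im < z.re ∧ z.re < 0 ∧ z.im < 1 := by
  obtain ⟨h1, h2, h3, -⟩ := ball_bd (W_norm h)
  rw [abs_le] at h1 h2 h3
  simp only [O] at h1 h2 h3
  refine ⟨?_, ?_, ?_⟩ <;> linarith [s_lo, s_hi, h1.2, h2.2, h3.1]

theorem W'_in {z : ℂ} (h : z ∈ Psi '' W) : 0 < z.re ∧ z.re < z.im ∧ z.im < 1 := by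
  obtain ⟨w, hw, rfl⟩ := h
  have := W_norm hw
  rw [← dist_eq_norm, ← Psi.dist_eq, dist_eq_norm, Psi_O] at this
  obtain ⟨h1, h2, -, h3⟩ := ball_bd this
  rw [abs_le] at h1 h2 h3
  simp only at h1 h2 h3
  refine ⟨?_, ?_, ?_⟩ <;> linarith [s_lo, s_hi, h1.1, h2.2, h3.2]

theorem W_iff (z : ℂ) : I * z ∈ W ↔ z ∈ Psi '' J ∨ I * z ∈ Rho '' W := by
  constructor
  · rintro ⟨n, y, hy, h⟩
    rcases n with _ | n
    · exact .inl ⟨y, hy, mul_left_cancel₀ I_ne_zero (by rw [h]; ring)⟩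
    · exact .inr ⟨_, ⟨n, y, hy, rfl⟩, by rw [h, Rho_def]; ring⟩
  · rintro (⟨y, hy, rfl⟩ | ⟨_, ⟨n, y, hy, rfl⟩, h⟩)
    · exact ⟨0, y, hy, by ring⟩
    · exact ⟨n + 1, y, hy, by rw [← h, Rho_def]; ring⟩

theorem W_dis {z : ℂ} (h1 : z ∈ Psi '' J) (h2 : I * z ∈ Rho '' W) : False := by
  obtain ⟨y, hy, rfl⟩ := h1
  obtain ⟨_, ⟨n, y', hy', rfl⟩, h⟩ := h2
  have z0 : ζ * conj ω ≠ 0 := by
    have := nζ
    rw [norm_neg] at this
    rw [← norm_ne_zero_iff, norm_mul, norm_conj, nω, this]; norm_num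
  have e : conj (y - c) = ω ^ (n + 1) * conj (y' - c) := by
    refine mul_left_cancel₀ z0 ?_
    rw [← Psi_sub, ← h, Rho_def, Psi_sub]; ring
  obtain ⟨-, r, r0, hr⟩ := J_bd hy
  obtain ⟨-, r', r0', hr'⟩ := J_bd hy'
  rw [e, mul_pow, hr'] at hr
  have := congrArg norm hr
  simp only [norm_mul, norm_pow, nω, one_pow, one_mul, norm_real, Real.norm_of_nonneg r0.le,
    Real.norm_of_nonneg r0'.le] at this
  rw [this] at hr
  refine ω_ord (8 * n + 7) (mul_right_cancel₀ (ofReal_ne_zero.2 r0.ne') ?_)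
  rw [show ω ^ (8 * n + 7 + 1) = (ω ^ (n + 1)) ^ 8 by ring, one_mul, hr]

end H77.Eqd
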