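import Mathlib

/-! Equidecomposability of the unit square and the right isosceles triangle of area one. -/

namespace H77.Eqd

/-- The Euclidean plane. -/
abbrev P := EuclideanSpace ℝ (Fin 2)

/-- `A` and `B` are equidecomposable using `n` pieces: there are partitions of `A` and `B` into
`n` pairwise disjoint sets and isometries of the plane carrying the pieces onto the pieces. -/
def Equi (n : ℕ) (A B : Set P) : Prop :=
  ∃ (a b : Fin n → Set P) (g : Fin n → P ≃ᵢ P), (⋃ i, a i) = A ∧ (⋃ i, b i) = B ∧
    Pairwise (fun i j => Disjoint (a i) (a j)) ∧ Pairwise (fun i j => Disjoint (b i) (b j)) ∧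
    ∀ i, g i '' a i = b i

/-- The closed unit square. -/
def S : Set P := {p | 0 ≤ p 0 ∧ p 0 ≤ 1 ∧ 0 ≤ p 1 ∧ p 1 ≤ 1}

/-- The closed right isosceles triangle with vertices `(0,0)`, `(1,1)`, `(-1,1)`: its legs have
length `√2` and its hypotenuse has length `2`. -/
def T : Set P := {p | |p 0| ≤ p 1 ∧ p 1 ≤ 1}

end H77.Eqd
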