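import Pool.Agent.H77.FcqDefs

namespace Pool.Agent.H77.Fcq

open Classical RegularExpression

variable {σ : Type}

/-- A property of words given by a regular expression. -/
def RegP (P : List σ → Prop) : Prop := ∃ γ : RegularExpression σ, ∀ w, w ∈ γ.matches' ↔ P w

theorem RegP.or {P Q : List σ → Prop} (hP : RegP P) (hQ : RegP Q) : RegP fun w => P w ∨ Q w := by
  obtain ⟨γ, h⟩ := hP
  obtain ⟨δ, k⟩ := hQ
  exact ⟨γ + δ, fun w => by rw [matches'_add, Language.mem_add, h, k]⟩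

theorem RegP.congr {P Q : List σ → Prop} (hP : RegP P) (e : ∀ w, P w ↔ Q w) : RegP Q := by
  obtain ⟨γ, h⟩ := hP
  exact ⟨γ, fun w => (h w).trans (e w)⟩

theorem RegP.mul {P Q : List σ → Prop} (hP : RegP P) (hQ : RegP Q) :
    RegP fun w => ∃ u v, P u ∧ Q v ∧ u ++ v = w := by
  obtain ⟨γ, h⟩ := hP
  obtain ⟨δ, k⟩ := hQ
  refine ⟨γ * δ, fun w => ?_⟩
  rw [matches'_mul, Language.mem_mul]
  constructor
  · rintro ⟨u, hu, v, hv, e⟩
    exact ⟨u, v, (h u).1 hu, (k v).1 hv, e⟩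
  · rintro ⟨u, v, hu, hv, e⟩
    exact ⟨u, (h u).2 hu, v, (k v).2 hv, e⟩

theorem reg_nil : RegP fun w : List σ => w = [] :=
  ⟨1, fun w => by rw [matches'_epsilon, Language.mem_one]⟩

theorem reg_char (a : σ) : RegP fun w : List σ => w = [a] :=
  ⟨char a, fun w => by rw [matches'_char]; rfl⟩

theorem reg_list (l : List σ) : RegP fun w : List σ => ∃ a ∈ l, w = [a] := by
  induction l with
  | nil => exact ⟨0, fun w => by simp⟩
  | cons a l ih => exact ((reg_char a).or ih).congr fun w => by simp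

theorem reg_one [Finite σ] : RegP fun w : List σ => w.length = 1 := by
  have := Fintype.ofFinite σ
  refine (reg_list (Finset.univ : Finset σ).toList).congr fun w => ?_
  simp [List.length_eq_one_iff]

theorem reg_even [Finite σ] : RegP fun w : List σ => w.length % 2 = 0 := by
  obtain ⟨γ, h⟩ := (reg_one (σ := σ)).mul reg_one
  refine ⟨γ.star, fun w => ?_⟩
  rw [matches'_star, Language.mem_kstar]
  constructor
  · rintro ⟨L, rfl, hL⟩
    induction L with
    | nil => rfl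
    | cons y L ih =>
      obtain ⟨u, v, hu, hv, rfl⟩ := (h y).1 (hL y (by simp))
      have := ih fun z hz => hL z (by simp [hz])
      simp only [List.flatten_cons, List.length_append] at this ⊢
      omega
  · intro hw
    induction hn : w.length using Nat.strong_induction_on generalizing w with
    | _ n ih =>
      match w, hw, hn with
      | [], _, _ => exact ⟨[], rfl, by simp⟩
      | [_], hw, _ => simp at hw
      | a :: b :: t, hw, hn =>
        obtain ⟨L, e, hL⟩ := ih t.length (by simp at hn; omega) t (by simp at hw; omega) rfl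
        refine ⟨[a, b] :: L, by simp [e], fun y hy => ?_⟩
        rcases List.mem_cons.1 hy with rfl | hy
        · exact (h _).2 ⟨[a], [b], rfl, rfl, rfl⟩
        · exact hL y hy

theorem reg_odd [Finite σ] : RegP fun w : List σ => w.length % 2 = 1 := by
  refine ((reg_one (σ := σ)).mul reg_even).congr fun w => ⟨?_, fun hw => ?_⟩
  · rintro ⟨u, v, hu, hv, rfl⟩
    simp only [List.length_append]
    omega
  · cases w with
    | nil => simp at hw
    | cons a t => exact ⟨[a], t, rfl, by simp at hw; omega, rfl⟩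

theorem reg_ne [Finite σ] (c : Prop) : RegP fun w : List σ => w ≠ [] ∨ c := by
  have h1 : RegP fun _ : List σ => True :=
    (reg_even.or reg_odd).congr fun w => by simp; omega
  by_cases hc : c
  · exact h1.congr fun w => by simp [hc]
  · refine ((reg_one (σ := σ)).mul h1).congr fun w => ⟨?_, fun hw => ?_⟩
    · rintro ⟨u, v, hu, -, rfl⟩
      left
      intro e
      have := congrArg List.length e
      simp only [List.length_append, List.length_nil] at this
      omega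
    · cases w with
      | nil => simp [hc] at hw
      | cons a t => exact ⟨[a], t, rfl, trivial, rfl⟩

/-- A property of substitutions given by a query. -/
def Df (P : (ℕ → List σ) → Prop) : Prop := ∃ φ : CQ σ, ∀ h, φ.Sat h ↔ P h

theorem Df.congr {P Q : (ℕ → List σ) → Prop} (hP : Df P) (e : ∀ w, P w ↔ Q w) : Df Q := by
  obtain ⟨γ, h⟩ := hP
  exact ⟨γ, fun w => (h w).trans (e w)⟩

theorem df_true : Df fun _ : ℕ → List σ => True := ⟨⟨[], []⟩, fun h => by simp [CQ.Sat]⟩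

theorem Df.and {P Q : (ℕ → List σ) → Prop} (hP : Df P) (hQ : Df Q) : Df fun h => P h ∧ Q h := by
  obtain ⟨φ, h1⟩ := hP
  obtain ⟨ψ, h2⟩ := hQ
  refine ⟨⟨φ.eqs ++ ψ.eqs, φ.regs ++ ψ.regs⟩, fun h => ?_⟩
  beta_reduce
  rw [← h1, ← h2]
  simp only [CQ.Sat, List.mem_append, or_imp, forall_and]
  tauto

theorem df_all {ι : Type} (l : List ι) {P : ι → (ℕ → List σ) → Prop} (hP : ∀ i, Df (P i)) :
    Df fun h => ∀ i ∈ l, P i h := by
  induction l with
  | nil => exact df_true.congr fun h => by simp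
  | cons a l ih => exact ((hP a).and ih).congr fun h => by simp

theorem df_imp (c : Prop) {P : (ℕ → List σ) → Prop} (hP : Df P) : Df fun h => c → P h := by
  by_cases hc : c
  · exact hP.congr fun h => by simp [hc]
  · exact df_true.congr fun h => by simp [hc]

theorem df_eq (x : ℕ) (l : List ℕ) : Df fun h : ℕ → List σ => h x = l.flatMap h :=
  ⟨⟨[(x, l.map Sum.inl)], []⟩, fun h => by simp [CQ.Sat, ev, List.flatMap_map]⟩

theorem df_eq2 (x y z : ℕ) : Df fun h : ℕ → List σ => h x = h y ++ h z :=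
  (df_eq x [y, z]).congr fun h => by simp

theorem df_eq3 (x y z t : ℕ) : Df fun h : ℕ → List σ => h x = h y ++ h z ++ h t :=
  (df_eq x [y, z, t]).congr fun h => by simp

theorem df_reg (x : ℕ) {P : List σ → Prop} (hP : RegP P) : Df fun h : ℕ → List σ => P (h x) := by
  obtain ⟨γ, hγ⟩ := hP
  exact ⟨⟨[], [(x, γ)]⟩, fun h => by simp [CQ.Sat, hγ]⟩

/-- The parity gadget: `g 0` is a factor of `W`, and `g 0` is empty only if `W` is. -/
def T (W : List σ) (g : ℕ → List σ) : Prop :=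
  W = g 1 ++ g 0 ++ g 2 ∧ g 0 = g 3 ++ g 4 ∧ g 5 = g 1 ++ g 3 ∧ g 0 = g 6 ++ g 7 ∧
    g 8 = g 1 ++ g 6 ∧ g 0 = g 10 ++ g 9 ∧ g 11 = g 9 ++ g 2 ∧ g 0 = g 13 ++ g 12 ∧
    g 14 = g 12 ++ g 2 ∧ (g 5).length % 2 = 0 ∧ (g 8 = [] ∨ (g 8).length % 2 = 1) ∧
    (g 11).length % 2 = 0 ∧ (g 14 = [] ∨ (g 14).length % 2 = 1)

theorem df_T [Finite σ] (x : ℕ) (j : ℕ → ℕ) :
    Df fun h : ℕ → List σ => T (h x) fun k => h (j k) :=
  (df_eq3 _ _ _ _).and <| (df_eq2 _ _ _).and <| (df_eq2 _ _ _).and <| (df_eq2 _ _ _).and <|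
    (df_eq2 _ _ _).and <| (df_eq2 _ _ _).and <| (df_eq2 _ _ _).and <| (df_eq2 _ _ _).and <|
    (df_eq2 _ _ _).and <| (df_reg _ reg_even).and <| (df_reg _ (reg_nil.or reg_odd)).and <|
    (df_reg _ reg_even).and (df_reg _ (reg_nil.or reg_odd))

theorem T_sound {W : List σ} {g : ℕ → List σ} (h : T W g) (h0 : g 0 = []) : W = [] := by
  obtain ⟨h1, h2, h3, h4, h5, h6, h7, h8, h9, h10, h11, h12, h13⟩ := h
  rw [← List.length_eq_zero_iff] at h0 h11 h13 ⊢
  apply_fun List.length at h1 h2 h3 h4 h5 h6 h7 h8 h9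
  simp only [List.length_append] at *
  omega

theorem T_nil : T ([] : List σ) fun _ => [] := by simp [T]

theorem split_pre (p y : List σ) (hy : y ≠ []) (r : ℕ) (hr : r < 2) :
    ∃ a b, y = a ++ b ∧ (p ++ a).length % 2 = r := by
  obtain ⟨c, t, rfl⟩ := List.exists_cons_of_ne_nil hy
  by_cases h : p.length % 2 = r
  · exact ⟨[], c :: t, rfl, by simpa using h⟩
  · exact ⟨[c], t, rfl, by simp; omega⟩

theorem split_suf (q y : List σ) (hy : y ≠ []) (r : ℕ) (hr : r < 2) :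
    ∃ a b, y = a ++ b ∧ (b ++ q).length % 2 = r := by
  obtain ⟨c, t, rfl⟩ := List.exists_cons_of_ne_nil hy
  by_cases h : (t ++ q).length % 2 = r
  · exact ⟨[c], t, rfl, h⟩
  · exact ⟨[], c :: t, rfl, by simp at h ⊢; omega⟩

theorem T_complete {W y : List σ} (hW : y <:+: W) :
    ∃ g : ℕ → List σ, (∀ k, g k <:+: W) ∧ g 0 = y ∧ (y ≠ [] → T W g) := by
  by_cases hy : y = []
  · exact ⟨fun _ => [], fun _ => List.nil_infix, hy.symm, fun h => absurd hy h⟩
  obtain ⟨p, q, rfl⟩ := hW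
  obtain ⟨a1, b1, e1, l1⟩ := split_pre p y hy 0 (by omega)
  obtain ⟨a2, b2, e2, l2⟩ := split_pre p y hy 1 (by omega)
  obtain ⟨a3, b3, e3, l3⟩ := split_suf q y hy 0 (by omega)
  obtain ⟨a4, b4, e4, l4⟩ := split_suf q y hy 1 (by omega)
  refine ⟨fun k => [y, p, q, a1, b1, p ++ a1, a2, b2, p ++ a2, b3, a3, b3 ++ q, b4, a4,
    b4 ++ q].getD k [], fun k => ?_, rfl, fun _ =>
      ⟨rfl, e1, rfl, e2, rfl, e3, rfl, e4, rfl, l1, Or.inr l2, l3, Or.inr l4⟩⟩
  have key : ∀ z ∈ [y, p, q, a1, b1, p ++ a1, a2, b2, p ++ a2, b3, a3, b3 ++ q, b4, a4,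
    b4 ++ q], z <:+: p ++ y ++ q := by
    simp only [List.forall_mem_cons]
    refine ⟨⟨p, q, rfl⟩, ⟨[], y ++ q, by simp⟩, ⟨p ++ y, [], by simp⟩,
      ⟨p, b1 ++ q, by simp [e1]⟩, ⟨p ++ a1, q, by simp [e1]⟩, ⟨[], b1 ++ q, by simp [e1]⟩,
      ⟨p, b2 ++ q, by simp [e2]⟩, ⟨p ++ a2, q, by simp [e2]⟩, ⟨[], b2 ++ q, by simp [e2]⟩,
      ⟨p ++ a3, q, by simp [e3]⟩, ⟨p, b3 ++ q, by simp [e3]⟩, ⟨p ++ a3, [], by simp [e3]⟩,
      ⟨p ++ a4, q, by simp [e4]⟩, ⟨p, b4 ++ q, by simp [e4]⟩, ⟨p ++ a4, [], by simp [e4]⟩,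
      by simp⟩
  beta_reduce
  rw [List.getD_eq_getElem?_getD]
  cases hk : [y, p, q, a1, b1, p ++ a1, a2, b2, p ++ a2, b3, a3, b3 ++ q, b4, a4,
    b4 ++ q][k]? with
  | none => exact List.nil_infix
  | some z => exact key z (List.mem_of_getElem? hk)

end Pool.Agent.H77.Fcq
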