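import Pool.Agent.H77.FcqA

namespace Pool.Agent.H77.Fcq

open Classical RegularExpression

variable {σ : Type}

/-- The terminals occurring in the equations. -/
def terms (φ : CQ σ) : List σ := φ.eqs.flatMap fun e => e.2.filterMap Sum.getRight?

theorem mem_terms {φ : CQ σ} {a : σ} : a ∈ terms φ ↔ ∃ e ∈ φ.eqs, Sum.inr a ∈ e.2 := by
  simp [terms, List.mem_flatMap, List.mem_filterMap, Sum.getRight?_eq_some_iff]

/-- The relaxed copy of a query. -/
def Side (φ : CQ σ) (G : Option (ℕ ⊕ σ) → ℕ → List σ) : Prop :=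
  (∀ e ∈ φ.eqs, G (some (.inl e.1)) 0 = e.2.flatMap fun s => G (some s) 0) ∧
  (∀ r ∈ φ.regs, (G (some (.inl r.1)) 0 ∈ r.2.matches' ∨ G (some (.inl r.1)) 0 = []) ∧
    ([] ∉ r.2.matches' → T (G (some (.inl 0)) 0) (G (some (.inl r.1))))) ∧
  (∀ a ∈ terms φ, (G (some (.inr a)) 0 = [a] ∨ G (some (.inr a)) 0 = []) ∧
    T (G (some (.inl 0)) 0) (G (some (.inr a)))) ∧
  T (G (some (.inl 0)) 0) (G none)

theorem df_side [Finite σ] (φ : CQ σ) (j : Option (ℕ ⊕ σ) → ℕ → ℕ) :
    Df fun h : ℕ → List σ => Side φ fun s k => h (j s k) := by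
  refine (df_all _ fun e => ?_).and <| (df_all _ fun r => ?_).and <|
    (df_all _ fun a => ?_).and (df_T _ _)
  · exact (df_eq (j (some (.inl e.1)) 0) (e.2.map fun s => j (some s) 0)).congr fun h => by
      rw [List.flatMap_map]
  · exact (df_reg _ (RegP.or ⟨r.2, fun _ => Iff.rfl⟩ reg_nil)).and (df_imp _ (df_T _ _))
  · exact (df_reg _ ((reg_char a).or reg_nil)).and (df_T _ _)

theorem side_nil (φ : CQ σ) : Side φ fun _ _ => [] :=
  ⟨fun _ _ => by simp, fun _ _ => ⟨Or.inr rfl, fun _ => T_nil⟩, fun _ _ => ⟨Or.inr rfl, T_nil⟩,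
    T_nil⟩

theorem side_sound {φ : CQ σ} {G : Option (ℕ ⊕ σ) → ℕ → List σ} (hS : Side φ G)
    (hW : G (some (.inl 0)) 0 ≠ []) (hs : ∀ s, G s 0 <:+: G (some (.inl 0)) 0) :
    G (some (.inl 0)) 0 ∈ φ.lang := by
  obtain ⟨h1, h2, h3, -⟩ := hS
  refine ⟨fun x => G (some (.inl x)) 0, fun x => hs _, ⟨fun e he => ?_, fun r hr => ?_⟩, rfl⟩
  · refine (h1 e he).trans ?_
    rw [ev]
    apply List.flatMap_congr
    intro s hs'
    cases s with
    | inl x => rfl
    | inr a =>
      obtain ⟨h4, h5⟩ := h3 a (mem_terms.2 ⟨e, he, hs'⟩)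
      exact h4.resolve_right fun h0 => hW (T_sound h5 h0)
  · obtain ⟨h4, h5⟩ := h2 r hr
    rcases h4 with h4 | h4
    · exact h4
    · by_contra hn
      beta_reduce at hn
      rw [h4] at hn
      exact hW (T_sound (h5 hn) h4)

theorem side_complete {φ : CQ σ} {W : List σ} (hL : W ∈ φ.lang) (hW : W ≠ []) :
    ∃ G : Option (ℕ ⊕ σ) → ℕ → List σ, (∀ s k, G s k <:+: W) ∧ G (some (.inl 0)) 0 = W ∧
      (G none 0).length = 1 ∧ Side φ G := by
  obtain ⟨h, hs, ⟨h1, h2⟩, rfl⟩ := hL
  obtain ⟨c, t, hc⟩ := List.exists_cons_of_ne_nil hW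
  let val : Option (ℕ ⊕ σ) → List σ := fun s =>
    match s with
    | none => [c]
    | some (.inl x) => h x
    | some (.inr a) => if a ∈ terms φ then [a] else []
  have hv : ∀ s, val s <:+: h 0 := by
    rintro (_ | x | a)
    · exact ⟨[], t, by simp [val, hc]⟩
    · exact hs x
    · simp only [val]
      split_ifs with ha
      · obtain ⟨e, he, hae⟩ := mem_terms.1 ha
        refine List.IsInfix.trans ?_ (hs e.1)
        rw [h1 e he, ev]
        obtain ⟨l1, l2, hl⟩ := List.append_of_mem hae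
        exact ⟨l1.flatMap (Sum.elim h fun a => [a]), l2.flatMap (Sum.elim h fun a => [a]),
          by simp [hl]⟩
      · exact List.nil_infix
  choose G g1 g2 g3 using fun s => T_complete (hv s)
  have g0 : G (some (.inl 0)) 0 = h 0 := g2 _
  refine ⟨G, g1, g0, by rw [g2]; rfl, fun e he => ?_, fun r hr => ⟨Or.inl ?_, fun hn => ?_⟩,
    fun a ha => ⟨Or.inl ?_, ?_⟩, ?_⟩
  · simp only [g2]
    refine (h1 e he).trans ?_
    rw [ev]
    apply List.flatMap_congr
    intro s hs'
    cases s with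
    | inl x => rfl
    | inr a => simp [val, mem_terms.2 ⟨e, he, hs'⟩]
  · rw [g2]; exact h2 r hr
  · rw [g0]
    refine g3 _ fun h0 => hn ?_
    have := h2 r hr
    rwa [show h r.1 = [] from h0] at this
  · rw [g2]; simp [val, ha]
  · rw [g0]
    exact g3 _ (by simp [val, ha])
  · rw [g0]
    exact g3 _ (by simp [val])

theorem union2 [Finite σ] (φ ψ : CQ σ) : ∃ χ : CQ σ, χ.lang = φ.lang ∪ ψ.lang := by
  obtain ⟨ι0, hι0⟩ := exists_injective_nat (Bool × Option (ℕ ⊕ σ) × ℕ)
  let ι : Bool × Option (ℕ ⊕ σ) × ℕ → ℕ := fun z => ι0 z + 2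
  have hι : Function.Injective ι := fun a b e => hι0 (by simpa [ι] using e)
  obtain ⟨χ, hχ⟩ := (df_side φ fun s k => ι (false, s, k)).and <|
    (df_side ψ fun s k => ι (true, s, k)).and <|
    (df_eq2 0 (ι (false, some (.inl 0), 0)) (ι (true, some (.inl 0), 0))).and <|
    (df_eq2 1 (ι (false, none, 0)) (ι (true, none, 0))).and <|
    (df_reg 1 (reg_one.or reg_nil)).and (df_reg 0 (reg_ne ([] ∈ φ.lang ∪ ψ.lang)))
  have build : ∀ (W : List σ) (G : Bool → Option (ℕ ⊕ σ) → ℕ → List σ),
      (∀ b s k, G b s k <:+: W) → Side φ (G false) → Side ψ (G true) →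
      W = G false (some (.inl 0)) 0 ++ G true (some (.inl 0)) 0 →
      G false none 0 ++ G true none 0 <:+: W →
      ((G false none 0 ++ G true none 0).length = 1 ∨ G false none 0 ++ G true none 0 = []) →
      (W ≠ [] ∨ [] ∈ φ.lang ∪ ψ.lang) → W ∈ χ.lang := by
    intro W G h1 h2 h3 h4 h5 h6 h7
    let h : ℕ → List σ := Function.extend ι (fun z => G z.1 z.2.1 z.2.2)
      fun n => if n = 0 then W else G false none 0 ++ G true none 0
    have e : ∀ b s k, h (ι (b, s, k)) = G b s k := fun b s k => hι.extend_apply _ _ _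
    have e0 : h 0 = W := by
      simp only [h]
      rw [Function.extend_apply' _ _ _ (by simp [ι])]
      simp
    have e1 : h 1 = G false none 0 ++ G true none 0 := by
      simp only [h]
      rw [Function.extend_apply' _ _ _ (by simp [ι])]
      simp
    refine ⟨h, fun x => ?_, (hχ h).2 ?_, e0⟩
    · rw [e0]
      by_cases hx : ∃ z, ι z = x
      · obtain ⟨⟨b, s, k⟩, rfl⟩ := hx
        rw [e]; exact h1 _ _ _
      · simp only [h]
        rw [Function.extend_apply' _ _ _ hx]
        split_ifs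
        · exact List.infix_refl _
        · exact h5
    · simp only [e, e0, e1]
      exact ⟨h2, h3, h4, trivial, h6, h7⟩
  refine ⟨χ, Set.ext fun W => ⟨?_, fun hW => ?_⟩⟩
  · rintro ⟨h, hs, hS, rfl⟩
    obtain ⟨h1, h2, h3, h4, h5, h6⟩ := (hχ h).1 hS
    by_cases h0 : h 0 = []
    · rw [h0]
      exact h6.resolve_left (not_not.2 h0)
    have h7 : h (ι (false, none, 0)) = [] ∨ h (ι (true, none, 0)) = [] := by
      rw [h4] at h5
      rw [← List.length_eq_zero_iff] at h5
      rw [← List.length_eq_zero_iff, ← List.length_eq_zero_iff]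
      simp only [List.length_append] at h5
      omega
    rcases h7 with h7 | h7
    · have h8 : h (ι (false, some (.inl 0), 0)) = [] := T_sound h1.2.2.2 h7
      rw [h8, List.nil_append] at h3
      right
      rw [h3]
      exact side_sound h2 (by rw [← h3]; exact h0) fun s => by rw [← h3]; exact hs _
    · have h8 : h (ι (true, some (.inl 0), 0)) = [] := T_sound h2.2.2.2 h7
      rw [h8, List.append_nil] at h3
      left
      rw [h3]
      exact side_sound h1 (by rw [← h3]; exact h0) fun s => by rw [← h3]; exact hs _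
  · by_cases h0 : W = []
    · subst h0
      exact build [] (fun _ _ _ => []) (fun _ _ _ => List.nil_infix) (side_nil _) (side_nil _)
        rfl List.nil_infix (Or.inr rfl) (Or.inr hW)
    rcases hW with hW | hW
    · obtain ⟨G, g1, g2, g3, g4⟩ := side_complete hW h0
      refine build W (fun b => cond b (fun _ _ => []) G) (fun b s k => ?_) g4 (side_nil _)
        (by simp [g2]) (by simpa using g1 _ _) (Or.inl (by simpa using g3)) (Or.inl h0)
      cases b
      · exact g1 _ _
      · exact List.nil_infix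
    · obtain ⟨G, g1, g2, g3, g4⟩ := side_complete hW h0
      refine build W (fun b => cond b G fun _ _ => []) (fun b s k => ?_) (side_nil _) g4
        (by simp [g2]) (by simpa using g1 _ _) (Or.inl (by simpa using g3)) (Or.inl h0)
      cases b
      · exact List.nil_infix
      · exact g1 _ _

theorem unionL [Finite σ] (Φ : List (CQ σ)) : ∃ χ : CQ σ, χ.lang = ⋃ φ ∈ Φ, φ.lang := by
  induction Φ with
  | nil =>
    refine ⟨⟨[], [(0, 0)]⟩, Set.ext fun W => ?_⟩
    simp [CQ.lang, CQ.Sat]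
  | cons φ Φ ih =>
    obtain ⟨χ, h⟩ := ih
    obtain ⟨χ', h'⟩ := union2 φ χ
    exact ⟨χ', by rw [h', h]; simp⟩

end Pool.Agent.H77.Fcq
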