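import Mathlib

/-! FC[REG] conjunctive queries and their languages.  Variables are numbers; `0` is the universe
variable. -/

namespace Pool.Agent.H77.Fcq

variable {σ : Type}

/-- The value of a pattern over variables (`inl`) and terminals (`inr`) under a substitution. -/
def ev (h : ℕ → List σ) (U : List (ℕ ⊕ σ)) : List σ :=
  U.flatMap (Sum.elim h fun a => [a])

/-- An FC[REG]-CQ: finitely many equations `x = α` and regular constraints `y ∈ γ`. -/
structure CQ (σ : Type) : Type where
  eqs : List (ℕ × List (ℕ ⊕ σ))
  regs : List (ℕ × RegularExpression σ)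

/-- The substitution satisfies all equations and regular constraints. -/
def CQ.Sat (φ : CQ σ) (h : ℕ → List σ) : Prop :=
  (∀ e ∈ φ.eqs, h e.1 = ev h e.2) ∧ ∀ r ∈ φ.regs, h r.1 ∈ r.2.matches'

/-- The language: values of the universe variable under safe satisfying substitutions. -/
def CQ.lang (φ : CQ σ) : Set (List σ) :=
  {w | ∃ h : ℕ → List σ, (∀ x, h x <:+: h 0) ∧ φ.Sat h ∧ h 0 = w}

end Pool.Agent.H77.Fcq
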