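import Pool.Agent.H77.FraDefs
import Pool.Agent.H69.Fr1

namespace Pool.Agent.H77.Fra

open Polynomial Subgroup
open scoped commutatorElement

/-- `g` is detected by a torsion-free nilpotent group -/
def Det {G : Type} [Group G] (g : G) : Prop :=
  ∃ (N : Type) (_ : Group N) (φ : G →* N),
    Group.IsNilpotent N ∧ (∀ x : N, IsOfFinOrder x → x = 1) ∧ φ g ≠ 1

theorem Det.comp {G H : Type} [Group G] [Group H] (f : G →* H) {g : G} (h : Det (f g)) : Det g := by
  obtain ⟨N, _, φ, h1, h2, h3⟩ := h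
  exact ⟨N, inferInstance, φ.comp f, h1, h2, h3⟩

theorem res_of_det {G : Type} [Group G] (h : ∀ g : G, g ≠ 1 → Det g) : ResTFN G := by
  intro g hg
  obtain ⟨N, _, φ, h1, h2, h3⟩ := h g hg
  refine ⟨φ.range, inferInstance, φ.rangeRestrict, φ.rangeRestrict_surjective, inferInstance,
    fun x hx => ?_, fun e => h3 (by simpa using congrArg Subtype.val e)⟩
  exact Subtype.ext (h2 x.1 (φ.range.subtype.isOfFinOrder hx))

section filt
variable {S : Type} [Ring S]

def J (k : ℕ) (p : S[X]) : Prop := ∀ d < k, p.coeff d = 0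

theorem J.mul {k l : ℕ} {p q : S[X]} (hp : J k p) (hq : J l q) : J (k + l) (p * q) := by
  intro d hd
  rw [coeff_mul]
  refine Finset.sum_eq_zero fun x hx => ?_
  have := Finset.HasAntidiagonal.mem_antidiagonal.1 hx
  by_cases h : x.1 < k
  · rw [hp _ h, zero_mul]
  · rw [hq x.2 (by omega), mul_zero]

theorem J.zero (p : S[X]) : J 0 p := fun _ h => absurd h (Nat.not_lt_zero _)
theorem J.add {k : ℕ} {p q : S[X]} (hp : J k p) (hq : J k q) : J k (p + q) :=
  fun d hd => by rw [coeff_add, hp d hd, hq d hd, add_zero]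
theorem J.sub {k : ℕ} {p q : S[X]} (hp : J k p) (hq : J k q) : J k (p - q) :=
  fun d hd => by rw [coeff_sub, hp d hd, hq d hd, sub_zero]
theorem J.neg {k : ℕ} {p : S[X]} (hp : J k p) : J k (-p) :=
  fun d hd => by rw [coeff_neg, hp d hd, neg_zero]
theorem J.mono {k l : ℕ} {p : S[X]} (h : l ≤ k) (hp : J k p) : J l p :=
  fun d hd => hp d (by omega)
theorem J.mul_right {k : ℕ} {p : S[X]} (hp : J k p) (q : S[X]) : J k (p * q) :=
  hp.mul (J.zero q)
theorem J.mul_left {k : ℕ} {p : S[X]} (hp : J k p) (q : S[X]) : J k (q * p) := by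
  simpa using (J.zero q).mul hp

variable {G : Type} [Group G] (ρ : G →* S[X])

def KK (k : ℕ) : Subgroup G where
  carrier := {g | J k (ρ g - 1)}
  one_mem' := by intro d _; simp
  mul_mem' {a b} ha hb := by
    have : ρ (a * b) - 1 = (ρ a - 1) * ρ b + (ρ b - 1) := by rw [map_mul]; noncomm_ring
    show J k _
    rw [this]
    exact (J.mul_right ha _).add hb
  inv_mem' {a} ha := by
    have : ρ a⁻¹ - 1 = -((ρ a - 1) * ρ a⁻¹) := by
      rw [sub_mul, ← map_mul, mul_inv_cancel, map_one]; noncomm_ring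
    show J k _
    rw [this]
    exact (J.mul_right ha _).neg

theorem mem_KK {k : ℕ} {g : G} : g ∈ KK ρ k ↔ J k (ρ g - 1) := Iff.rfl

instance KK_normal (k : ℕ) : (KK ρ k).Normal := ⟨fun a ha g => by
  have : ρ (g * a * g⁻¹) - 1 = ρ g * (ρ a - 1) * ρ g⁻¹ := by
    rw [mul_sub, sub_mul, mul_one, ← map_mul ρ g g⁻¹, mul_inv_cancel, map_one, map_mul, map_mul]
  rw [mem_KK, this]
  exact (J.mul_left ha _).mul_right _⟩

theorem KK_comm {k : ℕ} {a b : G} (ha : a ∈ KK ρ k) (hb : b ∈ KK ρ 1) : ⁅a, b⁆ ∈ KK ρ (k + 1) := by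
  have e : ρ (b * a) * ρ (a⁻¹ * b⁻¹) = 1 := by rw [← map_mul]; simp [mul_assoc]
  have : ρ ⁅a, b⁆ - 1 = ((ρ a - 1) * (ρ b - 1) - (ρ b - 1) * (ρ a - 1)) * ρ (a⁻¹ * b⁻¹) := by
    have e2 : (ρ a - 1) * (ρ b - 1) - (ρ b - 1) * (ρ a - 1) = ρ (a * b) - ρ (b * a) := by
      rw [map_mul, map_mul]; noncomm_ring
    rw [e2, sub_mul, e, ← map_mul, commutatorElement_def, mul_assoc (a * b)]
  rw [mem_KK, this]
  refine J.mul_right (J.sub (J.mul ha hb) ?_) _
  rw [add_comm]
  exact J.mul hb ha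

theorem pow_J {k : ℕ} {a : S[X]} (ha : J (k + 1) a) (m : ℕ) :
    J (k + 2) ((1 + a) ^ m - 1 - m • a) := by
  induction m with
  | zero => intro d _; simp
  | succ m ih =>
    have : (1 + a) ^ (m + 1) - 1 - (m + 1) • a =
        (1 + a) * ((1 + a) ^ m - 1 - m • a) + m • (a * a) := by
      rw [pow_succ', add_smul, one_smul, ← mul_smul_comm m a a]
      generalize m • a = b
      noncomm_ring
    rw [this]
    refine (ih.mul_left _).add ?_
    intro d hd
    rw [coeff_smul, (ha.mul ha) d (by omega), smul_zero]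

theorem det_of_poly (tf : ∀ (m : ℕ) (s : S), m ≠ 0 → m • s = 0 → s = 0)
    (h1 : ∀ g, J 1 (ρ g - 1)) {g : G} (hg : ρ g ≠ 1) : Det g := by
  obtain ⟨n, hn⟩ : ∃ n, g ∉ KK ρ (n + 1) := by
    by_contra hc
    push Not at hc
    apply hg
    rw [← sub_eq_zero]
    ext d
    exact hc d d (by omega)
  refine ⟨G ⧸ KK ρ (n + 1), inferInstance, QuotientGroup.mk' _, ?_, ?_, ?_⟩
  · rw [Subgroup.nilpotent_iff_lowerCentralSeries]
    refine ⟨n, ?_⟩
    have key : ∀ k, (⊤ : Subgroup G).lowerCentralSeries k ≤ KK ρ (k + 1) := by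
      intro k
      induction k with
      | zero => exact fun g _ => h1 g
      | succ k ih =>
        rw [Subgroup.lowerCentralSeries_succ, commutator_le]
        exact fun a ha b _ => KK_comm ρ (ih ha) (h1 b)
    rw [← map_top_of_surjective _ (QuotientGroup.mk'_surjective (KK ρ (n + 1))),
      ← map_lowerCentralSeries, Subgroup.map_eq_bot_iff, QuotientGroup.ker_mk']
    exact key n
  · intro x hx
    obtain ⟨x, rfl⟩ := QuotientGroup.mk'_surjective _ x
    obtain ⟨m, hm, e⟩ := isOfFinOrder_iff_pow_eq_one.1 hx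
    rw [← map_pow] at e
    have e' : x ^ m ∈ KK ρ (n + 1) := (QuotientGroup.eq_one_iff _).1 e
    refine (QuotientGroup.eq_one_iff _).2 ?_
    have key : ∀ k ≤ n, x ∈ KK ρ (k + 1) := by
      intro k hk
      induction k with
      | zero => exact h1 x
      | succ k ih =>
        have hx1 : J (k + 1) (ρ x - 1) := ih (by omega)
        have h2 := pow_J hx1 m
        rw [add_sub_cancel, ← map_pow] at h2
        have h3 : J (k + 2) (ρ (x ^ m) - 1) := J.mono (by omega) e'
        have h4 := h3.sub h2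
        rw [sub_sub_cancel] at h4
        intro d hd
        have := h4 d hd
        rw [coeff_smul] at this
        exact tf m _ hm.ne' this
    exact key n le_rfl
  · exact fun e => hn ((QuotientGroup.eq_one_iff _).1 e)

end filt

/-- the unit `1 + e` for a square zero element -/
def un {R : Type} [Ring R] (e : R) (h : e * e = 0) : Rˣ :=
  ⟨1 + e, 1 - e, by rw [add_mul, mul_sub, mul_sub, h]; simp, by
    rw [sub_mul, mul_add, mul_add, h]; simp⟩

theorem CX_mul {S : Type} [Ring S] (a b : S) : (C a * X) * (C b * X) = C (a * b) * X ^ 2 := by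
  rw [mul_assoc, ← mul_assoc X, X_mul_C, C_mul, sq]; simp only [mul_assoc]

/-- polynomial representation of a free group -/
noncomputable def prep {S : Type} [Ring S] {α : Type} (e : α → S) (h : ∀ x, e x * e x = 0) :
    FreeGroup α →* (S[X])ˣ :=
  FreeGroup.lift fun x => un (C (e x) * X) (by rw [CX_mul, h]; simp)

theorem prep_J {S : Type} [Ring S] {α : Type} (e : α → S) (h : ∀ x, e x * e x = 0)
    (g : FreeGroup α) : J 1 (((Units.coeHom _).comp (prep e h)) g - 1) := by
  have : (⊤ : Subgroup (FreeGroup α)) ≤ KK ((Units.coeHom _).comp (prep e h)) 1 := by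
    rw [← FreeGroup.closure_range_of, closure_le]
    rintro _ ⟨x, rfl⟩ d hd
    obtain rfl : d = 0 := by omega
    simp [prep, un]
  exact this (mem_top g)

open Matrix MatrixGroups Pool.Agent.H69.Fr Pointwise

def uu (i : ℕ) : SL(2, ℤ) :=
  ⟨!![1 + 2 * (3 * i), -2 * (3 * i) ^ 2; 2, 1 - 2 * (3 * i)], by rw [det_fin_two_of]; ring⟩

theorem uu_smul (i : ℕ) (v : nz) :
    (uu i • v).1 0 - 3 * i * (uu i • v).1 1 = v.1 0 - 3 * i * v.1 1 ∧
    (uu i • v).1 1 = v.1 1 + 2 * (v.1 0 - 3 * i * v.1 1) := by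
  have e : (uu i • v).1 = (uu i).1 *ᵥ v.1 := rfl
  rw [e]
  simp [uu, mulVec, dotProduct, Fin.sum_univ_two]
  constructor <;> ring

theorem ab1 {w y : ℤ} (h : w * w ≤ w * y) : |w| ≤ |y| := by
  rw [← sq_le_sq]; nlinarith [sq_nonneg (w - y)]

theorem ab2 {w y : ℤ} (h : w * y < -(w * w)) : |w| ≤ |y| := by
  rw [← sq_le_sq]; nlinarith [sq_nonneg (w + y)]

theorem uu_inj : Function.Injective (FreeGroup.lift uu) := by
  refine FreeGroup.injective_lift_of_ping_pong uu
    (fun i => {v : nz | (v.1 0 - 3 * i * v.1 1) * (v.1 0 - 3 * i * v.1 1) ≤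
      (v.1 0 - 3 * i * v.1 1) * v.1 1})
    (fun i => {v : nz | (v.1 0 - 3 * i * v.1 1) * v.1 1 <
      -((v.1 0 - 3 * i * v.1 1) * (v.1 0 - 3 * i * v.1 1))}) (fun i => ?_)
    (fun i j h => ?_) (fun i j h => ?_) (fun i j => ?_) (fun i => ?_) (fun i => ?_)
  · exact ⟨⟨![3 * i, 1], fun h => by simpa using congrFun h 1⟩, by simp⟩
  · exact Set.disjoint_left.2 fun v a b => sep (by rw [le_abs]; omega) (ab1 a) (ab1 b)
  · exact Set.disjoint_left.2 fun v a b => sep (by rw [le_abs]; omega) (ab2 a) (ab2 b)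
  · refine Set.disjoint_left.2 fun v a b => ?_
    by_cases h : i = j
    · subst h
      simp only [Set.mem_ofPred_eq] at a b
      nlinarith [mul_self_nonneg (v.1 0 - 3 * i * v.1 1)]
    · exact sep (by rw [le_abs]; omega) (ab1 a) (ab2 b)
  · rintro _ ⟨v, hv, rfl⟩
    simp only [Set.mem_compl_iff, Set.mem_ofPred_eq, not_lt] at hv ⊢
    rw [(uu_smul i v).1, (uu_smul i v).2]
    nlinarith
  · rintro _ ⟨v, hv, rfl⟩
    simp only [Set.mem_compl_iff, Set.mem_ofPred_eq, not_le, Pi.inv_apply] at hv ⊢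
    have := uu_smul i ((uu i)⁻¹ • v)
    rw [smul_inv_smul] at this
    rw [this.1, this.2] at hv
    nlinarith

def nn (i : ℕ) : Matrix (Fin 2) (Fin 2) ℤ := !![3 * i, -(3 * i) ^ 2; 1, -(3 * i)]

theorem nn_sq (i : ℕ) : nn i * nn i = 0 := by
  ext a b
  fin_cases a <;> fin_cases b <;> simp [nn, Matrix.mul_apply, Fin.sum_univ_two] <;> ring

theorem mat_tf {n : Type} (m : ℕ) (s : Matrix n n ℤ) (hm : m ≠ 0) (h : m • s = 0) : s = 0 := by
  ext a b
  have := congrFun (congrFun h a) b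
  simpa [hm] using this

theorem det_free_nat (w : FreeGroup ℕ) (hw : w ≠ 1) : Det w := by
  refine det_of_poly ((Units.coeHom _).comp (prep nn nn_sq)) mat_tf (prep_J nn nn_sq) fun e => hw ?_
  apply uu_inj
  rw [map_one]
  let ev : (Matrix (Fin 2) (Fin 2) ℤ)[X] →+* Matrix (Fin 2) (Fin 2) ℤ :=
    eval₂RingHom' (RingHom.id _) 2 (fun a => (Commute.ofNat_right a 2))
  have key : (Units.map ev.toMonoidHom).comp (prep nn nn_sq) =
      (SpecialLinearGroup.toGL : SL(2, ℤ) →* GL (Fin 2) ℤ).comp (FreeGroup.lift uu) := by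
    refine FreeGroup.ext_hom _ _ fun i => Units.ext ?_
    have : ev (1 + C (nn i) * X) = (uu i).1 := by
      rw [map_add, map_one, map_mul]
      have e1 : ev (C (nn i)) = nn i := eval₂_C _ _
      have e2 : ev X = 2 := eval₂_X _ _
      rw [e1, e2, show (2 : Matrix (Fin 2) (Fin 2) ℤ) = 1 + 1 by norm_num, mul_add, mul_one]
      ext a b
      fin_cases a <;> fin_cases b <;> simp [nn, uu] <;> ring
    simpa [prep, un] using this
  have h1 : prep nn nn_sq w = 1 := Units.ext e
  have h2 := DFunLike.congr_fun key w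
  simp only [MonoidHom.comp_apply, h1, map_one] at h2
  ext a b
  have := congrArg (fun A : GL (Fin 2) ℤ => A.1 a b) h2
  simpa using this.symm

theorem det_free {α : Type} [Countable α] (w : FreeGroup α) (hw : w ≠ 1) : Det w := by
  obtain ⟨f, hf⟩ := Countable.exists_injective_nat α
  refine Det.comp (FreeGroup.map f) (det_free_nat _ fun e => hw ?_)
  exact FreeGroup.map_injective hf (by simpa using e)

end Pool.Agent.H77.Fra
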