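import Pool.Agent.H77.FraA

namespace Pool.Agent.H77.Fra

open Subgroup
open scoped commutatorElement

section free
variable {α : Type} [DecidableEq α]

inductive Conn : Finset (FreeGroup α) → Prop
  | base : Conn {1}
  | pos {T : Finset (FreeGroup α)} {u : FreeGroup α} (x : α) :
      Conn T → u ∈ T → Conn (insert (FreeGroup.of x * u) T)
  | neg {T : Finset (FreeGroup α)} {u : FreeGroup α} (x : α) :
      Conn T → u ∈ T → Conn (insert ((FreeGroup.of x)⁻¹ * u) T)

theorem Conn.one_mem {T : Finset (FreeGroup α)} (h : Conn T) : 1 ∈ T := by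
  induction h with
  | base => simp
  | pos x _ _ ih => exact Finset.mem_insert_of_mem ih
  | neg x _ _ ih => exact Finset.mem_insert_of_mem ih

theorem conn_exists (w : FreeGroup α) : ∃ T, Conn T ∧ w ∈ T := by
  have : w ∈ closure (Set.range (FreeGroup.of : α → FreeGroup α)) := by
    rw [FreeGroup.closure_range_of]; trivial
  induction this using closure_induction_left with
  | one => exact ⟨_, Conn.base, by simp⟩
  | mul_left x hx y _ ih =>
    obtain ⟨a, rfl⟩ := hx
    obtain ⟨T, h1, h2⟩ := ih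
    exact ⟨_, h1.pos a h2, by simp⟩
  | inv_mul_cancel x hx y _ ih =>
    obtain ⟨a, rfl⟩ := hx
    obtain ⟨T, h1, h2⟩ := ih
    exact ⟨_, h1.neg a h2, by simp⟩

theorem of_pow_inj (x : α) : Function.Injective fun k : ℕ => (FreeGroup.of x) ^ k := by
  intro k l h
  have := congrArg (FreeGroup.lift fun _ : α => Multiplicative.ofAdd (1 : ℤ)) h
  simp only [map_pow, FreeGroup.lift_apply_of, ← ofAdd_nsmul] at this
  simpa using this

theorem conn_grow (x : α) {T : Finset (FreeGroup α)} (h : Conn T) :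
    ∃ T', Conn T' ∧ T ⊆ T' ∧ T'.card = T.card + 1 := by
  by_cases hc : ∀ u ∈ T, FreeGroup.of x * u ∈ T
  · exfalso
    have : ∀ k : ℕ, (FreeGroup.of x) ^ k ∈ T := by
      intro k
      induction k with
      | zero => simpa using h.one_mem
      | succ k ih => rw [pow_succ']; exact hc _ ih
    exact Set.infinite_of_injective_forall_mem (of_pow_inj x) this T.finite_toSet
  · push Not at hc
    obtain ⟨u, hu, hn⟩ := hc
    exact ⟨_, h.pos x hu, Finset.subset_insert _ _, Finset.card_insert_of_notMem hn⟩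

theorem conn_grow' (x : α) {T : Finset (FreeGroup α)} (h : Conn T) (k : ℕ) :
    ∃ T', Conn T' ∧ T ⊆ T' ∧ T'.card = T.card + k := by
  induction k with
  | zero => exact ⟨T, h, subset_rfl, rfl⟩
  | succ k ih =>
    obtain ⟨T1, h1, h2, h3⟩ := ih
    obtain ⟨T2, h4, h5, h6⟩ := conn_grow x h1
    exact ⟨T2, h4, h2.trans h5, by omega⟩

theorem conn_act {T : Finset (FreeGroup α)} (σ : FreeGroup α →* Equiv.Perm T)
    (hσ : ∀ x (t : T) (h : FreeGroup.of x * t.1 ∈ T), σ (FreeGroup.of x) t = ⟨_, h⟩)
    (h1 : 1 ∈ T) {S : Finset (FreeGroup α)} (hS : Conn S) (hST : S ⊆ T) :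
    ∀ u (hu : u ∈ S), σ u ⟨1, h1⟩ = ⟨u, hST hu⟩ := by
  induction hS with
  | base => intro u hu; obtain rfl := Finset.mem_singleton.1 hu; simp
  | @pos S v x _ hv ih =>
    intro u hu
    have hs : S ⊆ T := (Finset.subset_insert _ _).trans hST
    rcases Finset.mem_insert.1 hu with rfl | h
    · rw [map_mul, Equiv.Perm.mul_apply, ih hs v hv]
      exact hσ x ⟨v, hs hv⟩ (hST hu)
    · exact ih hs u h
  | @neg S v x _ hv ih =>
    intro u hu
    have hs : S ⊆ T := (Finset.subset_insert _ _).trans hST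
    rcases Finset.mem_insert.1 hu with rfl | h
    · rw [map_mul, Equiv.Perm.mul_apply, ih hs v hv, map_inv, Equiv.Perm.inv_eq_iff_eq,
        hσ x ⟨_, hST hu⟩ (by simpa using hs hv)]
      simp
    · exact ih hs u h

theorem coatom_of_prime {G : Type} [Group G] {M : Subgroup G} (h : M.index.Prime) : IsCoatom M := by
  refine ⟨fun e => ?_, fun K hK => ?_⟩
  · rw [e, index_top] at h; exact Nat.not_prime_one h
  · have e := relIndex_mul_index hK.le
    rcases (Nat.dvd_prime h).1 (Dvd.intro_left _ e) with h1 | h1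
    · exact index_eq_one.1 h1
    · exfalso
      rw [h1] at e
      have : M.relIndex K = 1 := by
        have := h.pos
        nlinarith [Nat.eq_of_mul_eq_mul_right this (e.trans (one_mul _).symm)]
      exact hK.not_ge (relIndex_eq_one.1 this)

theorem frattini_free : frattini (FreeGroup α) = ⊥ := by
  rw [eq_bot_iff]
  intro w hw
  rw [mem_bot]
  by_contra hne
  obtain ⟨x⟩ : Nonempty α := by
    by_contra hc
    rw [not_nonempty_iff] at hc
    exact hne (Subsingleton.elim _ _)
  obtain ⟨T0, h0, hw0⟩ := conn_exists w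
  obtain ⟨p, hp1, hp⟩ := Nat.exists_infinite_primes T0.card
  obtain ⟨T, hT, hs, hc⟩ := conn_grow' x h0 (p - T0.card)
  have hc' : T.card = p := by omega
  have ex : ∀ x : α, ∃ s : Equiv.Perm T,
      ∀ (t : T) (h : FreeGroup.of x * t.1 ∈ T), s t = ⟨_, h⟩ := by
    intro x
    obtain ⟨s, hs⟩ := Equiv.Perm.exists_extending_pair
      (f := fun a : {t : T // FreeGroup.of x * t.1 ∈ T} => a.1)
      (g := fun a : {t : T // FreeGroup.of x * t.1 ∈ T} => (⟨_, a.2⟩ : T))
      Subtype.val_injective (fun a b e => by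
        have := congrArg Subtype.val e
        exact Subtype.ext (Subtype.ext (mul_left_cancel this)))
    exact ⟨s, fun t h => hs ⟨t, h⟩⟩
  choose s hs' using ex
  let σ : FreeGroup α →* Equiv.Perm T := FreeGroup.lift s
  have key := conn_act σ (fun x t h => by simpa [σ] using hs' x t h) hT.one_mem hT subset_rfl
  letI : MulAction (FreeGroup α) T := MulAction.compHom T σ
  have sm : ∀ (g : FreeGroup α) (t : T), g • t = σ g t := fun _ _ => rfl
  have hi : (MulAction.stabilizer (FreeGroup α) (⟨1, hT.one_mem⟩ : T)).index = p := by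
    rw [MulAction.index_stabilizer]
    have : MulAction.orbit (FreeGroup α) (⟨1, hT.one_mem⟩ : T) = Set.univ :=
      Set.eq_univ_of_forall fun t => ⟨t.1, key t.1 t.2⟩
    rw [this, Set.ncard_univ, Nat.card_eq_fintype_card, Fintype.card_coe, hc']
  have := frattini_le_coatom (coatom_of_prime (hi ▸ hp)) hw
  rw [MulAction.mem_stabilizer_iff, sm, key w (hs hw0)] at this
  exact hne (congrArg Subtype.val this)

end free

theorem mem_frattini_of_central {G : Type} [Group G] {z : G} (hz : z ∈ center G)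
    (hc : z ∈ commutator G) : z ∈ frattini G := by
  simp only [frattini, Order.radical, mem_iInf]
  intro M hM
  by_contra hn
  have hM' : IsCoatom M := hM
  haveI : (zpowers z).Normal := ⟨fun a ha g => by
    have : a ∈ center G := (zpowers_le.2 hz) ha
    rwa [mem_center_iff.1 this g, mul_inv_cancel_right]⟩
  have ht : M ⊔ zpowers z = ⊤ := hM'.2 _ (lt_of_le_of_ne le_sup_left fun e =>
    hn (e ▸ mem_sup_right (mem_zpowers z)))
  apply hn
  refine (show commutator G ≤ M from ?_) hc
  rw [commutator_def, commutator_le]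
  intro g _ h _
  obtain ⟨a, ha, u, hu, rfl⟩ := mem_sup_of_normal_right.1 (ht ▸ mem_top g)
  obtain ⟨b, hb, v, hv, rfl⟩ := mem_sup_of_normal_right.1 (ht ▸ mem_top h)
  have hu' := mem_center_iff.1 ((zpowers_le.2 hz) hu)
  have hv' := mem_center_iff.1 ((zpowers_le.2 hz) hv)
  have : ⁅a * u, b * v⁆ = ⁅a, b⁆ := by
    simp only [commutatorElement_def, mul_inv_rev]
    rw [mul_assoc a u, ← hu' (b * v), mul_assoc, mul_assoc, mul_assoc, mul_assoc, mul_assoc,
      mul_inv_cancel_left, ← mul_assoc v, ← hv' a⁻¹]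
    group
  rw [this, commutatorElement_def]
  exact M.mul_mem (M.mul_mem (M.mul_mem ha hb) (M.inv_mem ha)) (M.inv_mem hb)

section torus
variable {Y : Type}

/-- the free group on `b = none`, `a = some none` and `Y` -/
abbrev FF (Y : Type) : Type := FreeGroup (Option (Option Y))

def ga : FF Y := FreeGroup.of (some none)
def gb : FF Y := FreeGroup.of none
def zz : FF Y := ⁅(ga : FF Y), (gb : FF Y)⁆

def ph (N : ℕ) : FF Y →* FreeGroup (Option Y) :=
  FreeGroup.lift fun o => o.elim (FreeGroup.of none ^ N) FreeGroup.of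

theorem ph_surj (N : ℕ) : Function.Surjective (ph N : FF Y →* _) := by
  rw [← MonoidHom.range_eq_top, eq_top_iff, ← FreeGroup.closure_range_of, closure_le]
  rintro _ ⟨x, rfl⟩
  exact ⟨FreeGroup.of (some x), by simp [ph]⟩

theorem ph_zz (N : ℕ) : ph N (zz : FF Y) = 1 := by
  rw [zz, map_commutatorElement, commutatorElement_eq_one_iff_commute]
  simp only [ph, ga, gb, FreeGroup.lift_apply_of, Option.elim]
  exact Commute.self_pow _ _

def sh {A : Type} [AddCommGroup A] (v : A) : Equiv.Perm (FreeGroup (Y × A) × A) where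
  toFun s := (s.1, s.2 + v)
  invFun s := (s.1, s.2 - v)
  left_inv s := by simp
  right_inv s := by simp

def lm {A : Type} (y : Y) : Equiv.Perm (FreeGroup (Y × A) × A) where
  toFun s := (FreeGroup.of (y, s.2) * s.1, s.2)
  invFun s := ((FreeGroup.of (y, s.2))⁻¹ * s.1, s.2)
  left_inv s := by simp
  right_inv s := by simp

def t2 : FF Y →* Equiv.Perm (FreeGroup (Y × (ℤ × ℤ)) × (ℤ × ℤ)) :=
  FreeGroup.lift fun o => o.elim (sh (0, 1)) fun o' => o'.elim (sh (1, 0)) lm

def t1 : FreeGroup (Option Y) →* Equiv.Perm (FreeGroup (Y × ℤ) × ℤ) :=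
  FreeGroup.lift fun o => o.elim (sh 1) lm

theorem sh_pow (N : ℕ) (s : FreeGroup (Y × ℤ) × ℤ) : (sh (1 : ℤ) ^ N) s = (s.1, s.2 + N) := by
  induction N with
  | zero => simp
  | succ N ih => rw [pow_succ', Equiv.Perm.mul_apply, ih]; simp [sh, add_assoc]

/-- equivariance along generators -/
theorem equi {α A B G : Type} [Group G] [MulAction G B] (t : FreeGroup α →* Equiv.Perm A)
    (f : FreeGroup α →* G) (e : A → B)
    (h : ∀ x s, e (t (FreeGroup.of x) s) = f (FreeGroup.of x) • e s) (g : FreeGroup α) (s : A) :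
    e (t g s) = f g • e s := by
  induction g using FreeGroup.induction_on generalizing s with
  | C1 => simp
  | of x => exact h x s
  | inv_of x ih =>
    rw [map_inv, map_inv, eq_inv_smul_iff, ← ih]; simp
  | mul x y hx hy => rw [map_mul, map_mul, Equiv.Perm.mul_apply, hx, hy, mul_smul]

def th (N : ℕ) (s : FreeGroup (Y × (ℤ × ℤ)) × (ℤ × ℤ)) : FreeGroup (Y × ℤ) × ℤ :=
  (FreeGroup.map (fun q : Y × (ℤ × ℤ) => (q.1, q.2.1 + (N : ℤ) * q.2.2)) s.1,
    s.2.1 + (N : ℤ) * s.2.2)

theorem th_equi (N : ℕ) (g : FF Y) (s) : th N (t2 g s) = t1 (ph N g) (th N s) := by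
  refine equi t2 (t1.comp (ph N)) (th N) (fun x s => ?_) g s
  rcases x with _ | _ | y
  · simp only [t2, t1, ph, FreeGroup.lift_apply_of, Option.elim, MonoidHom.comp_apply, map_pow,
      Equiv.Perm.smul_def, sh_pow]
    simp [th, sh]; ring
  · simp only [t2, t1, ph, FreeGroup.lift_apply_of, Option.elim, MonoidHom.comp_apply,
      Equiv.Perm.smul_def]
    simp [th, sh]; ring
  · simp only [t2, t1, ph, FreeGroup.lift_apply_of, Option.elim, MonoidHom.comp_apply,
      Equiv.Perm.smul_def]
    simp [th, lm]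

theorem map_eq_one {β γ : Type} (f : β → γ) (L : List (β × Bool))
    (hf : Set.InjOn f {b | b ∈ L.map Prod.fst}) (h : FreeGroup.map f (FreeGroup.mk L) = 1) :
    FreeGroup.mk L = 1 := by
  rcases L.eq_nil_or_concat with rfl | ⟨L', b, hL⟩
  · rfl
  haveI : Nonempty β := ⟨b.1⟩
  have := congrArg (FreeGroup.map (Function.invFunOn f {b | b ∈ L.map Prod.fst})) h
  rw [map_one, FreeGroup.map.mk, FreeGroup.map.mk, List.map_map] at this
  rw [← this]
  congr 1
  conv_lhs => rw [← List.map_id L]
  refine List.map_congr_left fun q hq => ?_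
  simp only [id, Function.comp]
  rw [hf.leftInvOn_invFunOn (List.mem_map_of_mem hq)]

theorem mem_nc_of_ph {f : FF Y} (h : ∀ N, ph N f = 1) : f ∈ normalClosure {(zz : FF Y)} := by
  classical
  let π := QuotientGroup.mk' (normalClosure {(zz : FF Y)})
  have hab : Commute (π ga) (π gb) := by
    rw [← commutatorElement_eq_one_iff_commute, ← map_commutatorElement]
    exact (QuotientGroup.eq_one_iff _).2 (subset_normalClosure rfl)
  let A : ℤ × ℤ → _ := fun v => π ga ^ v.1 * π gb ^ v.2
  let σ : FreeGroup (Y × (ℤ × ℤ)) →* _ :=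
    FreeGroup.lift fun q => (A q.2)⁻¹ * π (FreeGroup.of (some (some q.1))) * A q.2
  have key := equi t2 π (fun s => A s.2 * σ s.1) (fun x s => by
    rcases x with _ | _ | y
    · simp only [t2, FreeGroup.lift_apply_of, Option.elim, smul_eq_mul]
      show A (s.2 + (0, 1)) * σ s.1 = π gb * _
      simp only [A, Prod.fst_add, Prod.snd_add, add_zero]
      rw [add_comm, zpow_add, zpow_one, ← mul_assoc, (hab.zpow_left _).eq]
      simp only [mul_assoc]
    · simp only [t2, FreeGroup.lift_apply_of, Option.elim, smul_eq_mul]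
      show A (s.2 + (1, 0)) * σ s.1 = π ga * _
      simp only [A, Prod.fst_add, Prod.snd_add, add_zero]
      rw [add_comm, zpow_add, zpow_one]
      simp only [mul_assoc]
    · simp only [t2, FreeGroup.lift_apply_of, Option.elim, smul_eq_mul]
      show A s.2 * σ (FreeGroup.of (y, s.2) * s.1) = _
      simp only [σ, map_mul, FreeGroup.lift_apply_of]
      group) f (1, 0)
  have h2 : ∀ N, th N (t2 f (1, 0)) = (1, 0) := fun N => by
    rw [th_equi, h N]; simp [th]
  generalize t2 f (1, 0) = s at key h2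
  obtain ⟨w, m, n⟩ := s
  have e0 : m + ((0 : ℕ) : ℤ) * n = 0 := congrArg Prod.snd (h2 0)
  have e1 : m + ((1 : ℕ) : ℤ) * n = 0 := congrArg Prod.snd (h2 1)
  obtain rfl : m = 0 := by simpa using e0
  obtain rfl : n = 0 := by simpa using e1
  obtain rfl : w = 1 := by
    obtain ⟨L, rfl⟩ := Quot.exists_rep w
    obtain ⟨B, hB⟩ : ∃ B : ℕ, ∀ q ∈ L.map Prod.fst, |q.2.1| < B := by
      obtain ⟨B, hB⟩ := ((L.map Prod.fst).finite_toSet.image fun q => q.2.1.natAbs).bddAbove
      refine ⟨B + 1, fun q hq => ?_⟩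
      have := hB ⟨q, hq, rfl⟩
      simp only at this
      rw [Int.abs_eq_natAbs]; omega
    refine map_eq_one _ L ?_ (congrArg Prod.fst (h2 (2 * B)))
    rintro ⟨y, a, b⟩ h1 ⟨y', a', b'⟩ h1' e
    have ha := abs_lt.1 (hB _ h1)
    have ha' := abs_lt.1 (hB _ h1')
    simp only [Prod.mk.injEq] at e ha ha' ⊢
    obtain ⟨rfl, e⟩ := e
    push_cast at e
    have : b = b' := by
      rcases lt_trichotomy b b' with h | h | h
      · nlinarith
      · exact h
      · nlinarith
    subst this
    exact ⟨rfl, by linarith, rfl⟩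
  simp only [A, zpow_zero, map_one, mul_one, smul_eq_mul, Prod.fst_zero, Prod.snd_zero] at key
  exact (QuotientGroup.eq_one_iff _).1 key.symm

end torus

end Pool.Agent.H77.Fra
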