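import Pool.Agent.H77.FraB

namespace Pool.Agent.H77.Fra

open Subgroup
open scoped commutatorElement

theorem comm_central {E : Type} [Group E] {u v : E} (hu : u ∈ center E) (hv : v ∈ center E)
    (a b : E) : ⁅a * u, b * v⁆ = ⁅a, b⁆ := by
  have hu' := mem_center_iff.1 hu
  have hv' := mem_center_iff.1 hv
  simp only [commutatorElement_def, mul_inv_rev]
  rw [mul_assoc a u, ← hu' (b * v), mul_assoc, mul_assoc, mul_assoc, mul_assoc, mul_assoc,
    mul_inv_cancel_left, ← mul_assoc v, ← hv' a⁻¹]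
  group

theorem central_of_mem {E : Type} [Group E] (A : Subgroup E) [A.Normal] {u : E} (hu : u ∈ A) :
    QuotientGroup.mk' ⁅A, (⊤ : Subgroup E)⁆ u ∈ center (E ⧸ ⁅A, (⊤ : Subgroup E)⁆) := by
  rw [mem_center_iff]
  intro g
  obtain ⟨g, rfl⟩ := QuotientGroup.mk'_surjective _ g
  symm
  rw [← commutatorElement_eq_one_iff_mul_comm, ← map_commutatorElement]
  exact (QuotientGroup.eq_one_iff _).2 (commutator_mem_commutator hu (mem_top g))

theorem bil {E : Type} [Group E] (A : Subgroup E) [A.Normal] {a c : E} (ha : ∀ f, ⁅a, f⁆ ∈ A)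
    (hc : c ∈ commutator E) : ⁅a, c⁆ ∈ ⁅A, (⊤ : Subgroup E)⁆ := by
  let π := QuotientGroup.mk' ⁅A, (⊤ : Subgroup E)⁆
  have : commutator E ≤ (centralizer {π a}).comap π := by
    rw [commutator_def, commutator_le]
    intro x _ y _
    rw [mem_comap, mem_centralizer_singleton_iff, map_commutatorElement]
    have h1 : ∀ x, π a * π x * (π a)⁻¹ = π x * π (x⁻¹ * ⁅a, x⁆ * x) := by
      intro x
      simp only [← map_inv, ← map_mul]
      congr 1
      simp only [commutatorElement_def]; group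
    have h2 : ∀ x, π (x⁻¹ * ⁅a, x⁆ * x) ∈ center _ := fun x =>
      central_of_mem A (by simpa using ‹A.Normal›.conj_mem _ (ha x) x⁻¹)
    have h3 : π a * ⁅π x, π y⁆ * (π a)⁻¹ = ⁅π x, π y⁆ := by
      rw [conjugate_commutatorElement, h1, h1, comm_central (h2 x) (h2 y)]
    rw [mul_inv_eq_iff_eq_mul] at h3
    exact h3.symm
  have h := this hc
  rw [mem_comap, mem_centralizer_singleton_iff] at h
  rw [← QuotientGroup.eq_one_iff]
  show π ⁅a, c⁆ = 1
  rw [map_commutatorElement, commutatorElement_eq_one_iff_mul_comm]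
  exact h.symm

theorem comm_mul_left {E : Type} [Group E] (a b c : E) :
    ⁅a * b, c⁆ = a * ⁅b, c⁆ * a⁻¹ * ⁅a, c⁆ := by simp only [commutatorElement_def]; group

theorem comm_mul_right {E : Type} [Group E] (a b c : E) :
    ⁅a, b * c⁆ = ⁅a, b⁆ * (b * ⁅a, c⁆ * b⁻¹) := by simp only [commutatorElement_def]; group

section main
variable {Y : Type} (p q : Option (Option Y) → Option (Option Y))

abbrev gam (G : Type) [Group G] (n : ℕ) : Subgroup G := (⊤ : Subgroup G).lowerCentralSeries n

def rr (x : Option (Option Y)) : FF Y :=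
  FreeGroup.of x * ⁅FreeGroup.of (p x), FreeGroup.of (q x)⁆⁻¹

def rho : FF Y →* FF Y := FreeGroup.lift (rr p q)

def N1 (Y : Type) : Subgroup (FF Y) :=
  normalClosure (Set.range fun x => ⁅(zz : FF Y), FreeGroup.of x⁆)

instance : (N1 Y).Normal := normalClosure_normal

def KK0 : Subgroup (FF Y) :=
  normalClosure (Set.range (rr p q) ∪ Set.range fun x => ⁅(zz : FF Y), FreeGroup.of x⁆)

instance : (KK0 p q).Normal := normalClosure_normal

theorem N1_le : N1 Y ≤ KK0 p q := normalClosure_mono Set.subset_union_right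

theorem zz_central : QuotientGroup.mk' (N1 Y) zz ∈ center (FF Y ⧸ N1 Y) := by
  rw [mem_center_iff]
  intro g
  obtain ⟨g, rfl⟩ := QuotientGroup.mk'_surjective _ g
  have : (⊤ : Subgroup (FF Y)) ≤
      (centralizer {QuotientGroup.mk' (N1 Y) zz}).comap (QuotientGroup.mk' (N1 Y)) := by
    rw [← FreeGroup.closure_range_of, closure_le]
    rintro _ ⟨x, rfl⟩
    rw [SetLike.mem_coe, mem_comap, mem_centralizer_singleton_iff]
    symm
    rw [← commutatorElement_eq_one_iff_mul_comm, ← map_commutatorElement]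
    exact (QuotientGroup.eq_one_iff _).2 (subset_normalClosure ⟨x, rfl⟩)
  exact mem_centralizer_singleton_iff.1 (this (mem_top g))

theorem zz_comm (f : FF Y) : ⁅(zz : FF Y), f⁆ ∈ N1 Y := by
  rw [← QuotientGroup.eq_one_iff]
  show QuotientGroup.mk' (N1 Y) _ = 1
  rw [map_commutatorElement, commutatorElement_eq_one_iff_mul_comm]
  exact (mem_center_iff.1 zz_central _).symm

theorem rho_mem (f : FF Y) : rho p q f ∈ KK0 p q := by
  have : (⊤ : Subgroup (FF Y)) ≤ (KK0 p q).comap (rho p q) := by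
    rw [← FreeGroup.closure_range_of, closure_le]
    rintro _ ⟨x, rfl⟩
    rw [SetLike.mem_coe, mem_comap, rho, FreeGroup.lift_apply_of]
    exact subset_normalClosure (Or.inl ⟨x, rfl⟩)
  exact this (mem_top f)

def yy : ℕ → Option (Option Y) → FF Y
  | 0 => FreeGroup.of
  | k + 1 => fun x => FreeGroup.of x * ⁅yy k (p x), yy k (q x)⁆

def Kn : ℕ → Subgroup (FF Y)
  | 0 => KK0 p q
  | n + 1 => ⁅Kn n, ⊤⁆

instance Kn_normal (n : ℕ) : (Kn p q n).Normal := by
  induction n with
  | zero => exact (inferInstance : (KK0 p q).Normal)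
  | succ n ih => exact (inferInstance : (⁅Kn p q n, (⊤ : Subgroup (FF Y))⁆).Normal)

theorem Kn_le (n : ℕ) : Kn p q n ≤ gam (FF Y) n := by
  induction n with
  | zero => exact le_top
  | succ n ih => exact commutator_mono ih le_rfl

theorem rho_gam (n : ℕ) {f : FF Y} (hf : f ∈ gam (FF Y) n) : rho p q f ∈ Kn p q n := by
  induction n generalizing f with
  | zero => exact rho_mem p q f
  | succ n ih =>
    have : gam (FF Y) (n + 1) ≤ (Kn p q (n + 1)).comap (rho p q) := by
      rw [gam, Subgroup.lowerCentralSeries_succ, commutator_le]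
      intro a ha b _
      rw [mem_comap, map_commutatorElement]
      exact commutator_mem_commutator (ih ha) (mem_top _)
    exact this hf

theorem rho_ab (f : FF Y) : (rho p q f)⁻¹ * f ∈ commutator (FF Y) := by
  have : (QuotientGroup.mk' (commutator (FF Y))).comp (rho p q) =
      QuotientGroup.mk' (commutator (FF Y)) := by
    refine FreeGroup.ext_hom _ _ fun x => ?_
    rw [MonoidHom.comp_apply, rho, FreeGroup.lift_apply_of, rr, map_mul, map_inv]
    have : QuotientGroup.mk' (commutator (FF Y)) ⁅FreeGroup.of (p x), FreeGroup.of (q x)⁆ = 1 :=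
      (QuotientGroup.eq_one_iff _).2 (commutator_mem_commutator (mem_top _) (mem_top _))
    rw [this, inv_one, mul_one]
  exact QuotientGroup.eq.1 (DFunLike.congr_fun this f)

theorem stepC (n : ℕ) : Kn p q n ≤ ((rho p q).range ⊓ Kn p q n) ⊔ Kn p q (n + 1) := by
  induction n with
  | zero =>
    have hle : ((rho p q).range ⊓ Kn p q 0) ⊔ Kn p q 1 ≤ Kn p q 0 :=
      sup_le inf_le_right (commutator_le_left _ _)
    haveI : (((rho p q).range ⊓ Kn p q 0) ⊔ Kn p q 1).Normal := ⟨fun a ha g => by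
      have : g * a * g⁻¹ = a * ⁅a⁻¹, g⁆ := by simp only [commutatorElement_def]; group
      rw [this]
      exact mul_mem ha (mem_sup_right
        (commutator_mem_commutator (inv_mem (hle ha)) (mem_top g)))⟩
    refine normalClosure_le_normal ?_
    rintro _ (⟨x, rfl⟩ | ⟨x, rfl⟩)
    · refine mem_sup_left ⟨⟨FreeGroup.of x, by simp [rho]⟩, ?_⟩
      exact subset_normalClosure (Or.inl ⟨x, rfl⟩)
    · refine mem_sup_right ?_
      have e : (FreeGroup.of x : FF Y) =
          rho p q (FreeGroup.of x) * ((rho p q (FreeGroup.of x))⁻¹ * FreeGroup.of x) := by group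
      show ⁅(zz : FF Y), FreeGroup.of x⁆ ∈ Kn p q 1
      rw [e, comm_mul_right]
      refine mul_mem ?_ ((Kn_normal p q 1).conj_mem _ ?_ _)
      · rw [← commutatorElement_inv]
        exact inv_mem (commutator_mem_commutator (rho_mem p q _) (mem_top _))
      · exact bil (KK0 p q) (fun f => N1_le p q (zz_comm f)) (rho_ab p q _)
  | succ n ih =>
    show ⁅Kn p q n, ⊤⁆ ≤ _
    rw [commutator_le]
    intro k hk f _
    obtain ⟨s, ⟨hs1, hs2⟩, k', hk', rfl⟩ := mem_sup_of_normal_right.1 (ih hk)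
    have e : f = rho p q f * ((rho p q f)⁻¹ * f) := by group
    rw [comm_mul_left]
    refine mul_mem (mem_sup_right ((Kn_normal p q _).conj_mem _
      (commutator_mem_commutator hk' (mem_top _)) _)) ?_
    rw [e, comm_mul_right]
    refine mul_mem (mem_sup_left ⟨?_, commutator_mem_commutator hs2 (mem_top _)⟩)
      (mem_sup_right ((Kn_normal p q _).conj_mem _ ?_ _))
    · obtain ⟨t, rfl⟩ := hs1
      exact ⟨⁅t, f⁆, map_commutatorElement _ _ _⟩
    · exact bil (Kn p q (n + 1)) (fun f => commutator_mem_commutator hs2 (mem_top _))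
        (rho_ab p q _)

theorem lemA (n : ℕ) : KK0 p q ≤ (rho p q).range ⊔ Kn p q n := by
  induction n with
  | zero => exact le_sup_right
  | succ n ih =>
    exact ih.trans (sup_le le_sup_left ((stepC p q n).trans
      (sup_le_sup_right inf_le_left _)))

theorem yy_step (k : ℕ) (x) : (yy p q k x)⁻¹ * yy p q (k + 1) x ∈ gam (FF Y) (k + 1) := by
  induction k generalizing x with
  | zero =>
    simp only [yy]
    rw [inv_mul_cancel_left]
    exact commutator_mem_commutator (mem_top _) (mem_top _)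
  | succ k ih =>
    rw [← QuotientGroup.eq]
    let π := QuotientGroup.mk' ⁅gam (FF Y) (k + 1), (⊤ : Subgroup (FF Y))⁆
    show π _ = π _
    have e : ∀ x, π (yy p q (k + 1) x) = π (yy p q k x) * π ((yy p q k x)⁻¹ * yy p q (k + 1) x) :=
      fun x => by rw [← map_mul, mul_inv_cancel_left]
    show π (FreeGroup.of x * ⁅yy p q k (p x), yy p q k (q x)⁆) =
      π (FreeGroup.of x * ⁅yy p q (k + 1) (p x), yy p q (k + 1) (q x)⁆)
    rw [map_mul, map_mul, map_commutatorElement, map_commutatorElement, e, e,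
      comm_central (central_of_mem _ (ih _)) (central_of_mem _ (ih _))]

theorem gam_map {G H : Type} [Group G] [Group H] (f : G →* H) (n : ℕ) {g : G}
    (hg : g ∈ gam G n) : f g ∈ gam H n := by
  have : (gam G n).map f ≤ gam H n := by
    rw [gam, map_lowerCentralSeries]
    exact lowerCentralSeries_mono n le_top
  exact this (mem_map_of_mem f hg)

theorem gam_surj {G H : Type} [Group G] [Group H] (f : G →* H) (hf : Function.Surjective f)
    (n : ℕ) {h : H} (hh : h ∈ gam H n) : ∃ g ∈ gam G n, f g = h := by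
  have : (gam G n).map f = gam H n := by
    rw [gam, map_lowerCentralSeries, map_top_of_surjective _ hf]
  rw [← this] at hh
  exact hh

theorem lemB (n : ℕ) {f : FF Y} (hf : rho p q f ∈ gam (FF Y) n) : f ∈ gam (FF Y) n := by
  let π := QuotientGroup.mk' (gam (FF Y) n)
  have : π.comp ((FreeGroup.lift (yy p q n)).comp (rho p q)) = π := by
    refine FreeGroup.ext_hom _ _ fun x => ?_
    have h1 : π (yy p q n x) = π (yy p q (n + 1) x) :=
      QuotientGroup.eq.2 (Subgroup.lowerCentralSeries_antitone _ (Nat.le_succ n) (yy_step p q n x))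
    simp only [MonoidHom.comp_apply, rho, FreeGroup.lift_apply_of, rr, map_mul, map_inv,
      map_commutatorElement]
    rw [h1]
    simp only [yy, map_mul, map_commutatorElement, mul_inv_cancel_right]
  have h2 := DFunLike.congr_fun this f
  rw [← QuotientGroup.eq_one_iff]
  exact h2.symm.trans ((QuotientGroup.eq_one_iff _).2 (gam_map (FreeGroup.lift (yy p q n)) n hf))

theorem inter (n : ℕ) {k : FF Y} (h1 : k ∈ KK0 p q) (h2 : k ∈ gam (FF Y) n) : k ∈ Kn p q n := by
  obtain ⟨_, ⟨f, rfl⟩, k', hk', rfl⟩ := mem_sup_of_normal_right.1 (lemA p q n h1)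
  refine mul_mem (rho_gam p q n (lemB p q n ?_)) hk'
  simpa using mul_mem h2 (inv_mem (Kn_le p q n hk'))

theorem perf (n : ℕ) : (⊤ : Subgroup (FF Y)) ≤ KK0 p q ⊔ gam (FF Y) n := by
  induction n with
  | zero => exact le_sup_right
  | succ n ih =>
    rw [← FreeGroup.closure_range_of, closure_le]
    rintro _ ⟨x, rfl⟩
    have e : (FreeGroup.of x : FF Y) = rr p q x * ⁅FreeGroup.of (p x), FreeGroup.of (q x)⁆ := by
      rw [rr, inv_mul_cancel_right]
    rw [SetLike.mem_coe, e]
    refine mul_mem (mem_sup_left (subset_normalClosure (Or.inl ⟨x, rfl⟩))) ?_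
    obtain ⟨k, hk, g, hg, e2⟩ := mem_sup_of_normal_right.1 (ih (mem_top (FreeGroup.of (p x))))
    rw [← e2, comm_mul_left]
    refine mul_mem (mem_sup_right ((inferInstance : (gam (FF Y) (n + 1)).Normal).conj_mem _
      (commutator_mem_commutator hg (mem_top _)) _)) (mem_sup_left ?_)
    exact commutator_le_left _ _ (commutator_mem_commutator hk (mem_top _))

/-- the big group -/
abbrev HH (Y : Type) : Type := (FF Y ⧸ N1 Y) × FF Y

/-- the fibre product -/
def PP : Subgroup (HH Y) :=
  MonoidHom.eqLocus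
    ((QuotientGroup.map (N1 Y) (KK0 p q) (MonoidHom.id _) (N1_le p q)).comp (MonoidHom.fst _ _))
    ((QuotientGroup.mk' (KK0 p q)).comp (MonoidHom.snd _ _))

theorem mem_PP (f f' : FF Y) :
    ((QuotientGroup.mk' (N1 Y) f, f') : HH Y) ∈ PP p q ↔ f⁻¹ * f' ∈ KK0 p q :=
  QuotientGroup.eq

def dg : FF Y →* PP p q :=
  ((QuotientGroup.mk' (N1 Y)).prod (MonoidHom.id _)).codRestrict _ fun f =>
    (mem_PP p q f f).2 (by simp)

theorem dg_val (f : FF Y) : (dg p q f).1 = (QuotientGroup.mk' (N1 Y) f, f) := rfl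

theorem inr_mem {k : FF Y} (hk : k ∈ KK0 p q) : ((1, k) : HH Y) ∈ PP p q :=
  (mem_PP p q 1 k).2 (by simpa using hk)

theorem Kn_gam (n : ℕ) : Kn p q n ≤ ((gam (PP p q) n).map (PP p q).subtype).comap
    (MonoidHom.inr _ _) := by
  induction n with
  | zero => exact fun k hk => ⟨⟨(1, k), inr_mem p q hk⟩, mem_top _, rfl⟩
  | succ n ih =>
    show ⁅Kn p q n, ⊤⁆ ≤ _
    rw [commutator_le]
    intro k hk f _
    obtain ⟨a, ha, e⟩ := ih hk
    refine ⟨⁅a, dg p q f⁆, commutator_mem_commutator ha (mem_top _), ?_⟩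
    rw [map_commutatorElement, e]
    ext
    · simp [commutatorElement_def, dg_val]
    · simp [commutatorElement_def, dg_val]

theorem decomp (a : PP p q) (f : FF Y) (hf : QuotientGroup.mk' (N1 Y) f = a.1.1) :
    a.1.2 * f⁻¹ ∈ KK0 p q ∧ a.1 = (1, a.1.2 * f⁻¹) * (dg p q f).1 := by
  constructor
  · have : ((QuotientGroup.mk' (N1 Y) f, a.1.2) : HH Y) ∈ PP p q := by rw [hf]; exact a.2
    simpa [mul_assoc] using
      (inferInstance : (KK0 p q).Normal).conj_mem _ ((mem_PP p q _ _).1 this) f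
  · ext
    · simp [dg_val, ← hf]
    · simp [dg_val]

theorem same : SameLCS (PP p q) (HH Y) := by
  intro n
  refine ⟨MulEquiv.ofBijective (QuotientGroup.map _ _ (PP p q).subtype
    fun g hg => gam_map _ n hg) ⟨?_, ?_⟩⟩
  · rw [injective_iff_map_eq_one]
    intro a ha
    obtain ⟨a, rfl⟩ := QuotientGroup.mk'_surjective _ a
    have ha' : a.1 ∈ gam (HH Y) n := (QuotientGroup.eq_one_iff _).1 ha
    refine (QuotientGroup.eq_one_iff _).2 ?_
    obtain ⟨f, hf, e⟩ := gam_surj _ (QuotientGroup.mk'_surjective (N1 Y)) n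
      (gam_map (MonoidHom.fst _ _) n ha')
    obtain ⟨h1, h2⟩ := decomp p q a f e
    obtain ⟨b, hb, e2⟩ := Kn_gam p q n (inter p q n h1
      (mul_mem (gam_map (MonoidHom.snd _ _) n ha') (inv_mem hf)))
    have : a = b * dg p q f := Subtype.ext (h2.trans (by rw [coe_mul]; congr 1; exact e2.symm))
    rw [this]
    exact mul_mem hb (gam_map _ n hf)
  · intro h
    obtain ⟨⟨g, f'⟩, rfl⟩ := QuotientGroup.mk'_surjective _ h
    obtain ⟨f, rfl⟩ := QuotientGroup.mk'_surjective _ g
    obtain ⟨k, hk, c, hc, e⟩ := mem_sup_of_normal_right.1 (perf p q n (mem_top (f⁻¹ * f')))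
    refine ⟨QuotientGroup.mk' _ ⟨(QuotientGroup.mk' _ f, f * k), (mem_PP p q _ _).2
      (by simpa using hk)⟩, QuotientGroup.eq.2 ?_⟩
    have : c = (f * k)⁻¹ * f' := by rw [mul_inv_rev, mul_assoc, ← e]; simp
    have h2 := gam_map (MonoidHom.inr (FF Y ⧸ N1 Y) (FF Y)) n hc
    rw [this] at h2
    simpa using h2

theorem PP_fg [Finite Y] : Group.FG (PP p q) := by
  rw [Group.fg_iff_subgroup_fg, Subgroup.fg_iff]
  let S : Set (HH Y) := Set.range (fun x => (dg p q (FreeGroup.of x)).1) ∪
    (Set.range (fun x => (1, rr p q x)) ∪ Set.range fun x => (1, ⁅(zz : FF Y), FreeGroup.of x⁆))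
  refine ⟨S, le_antisymm ?_ ?_, (Set.finite_range _).union
    ((Set.finite_range _).union (Set.finite_range _))⟩
  · rw [closure_le]
    rintro _ (⟨x, rfl⟩ | ⟨x, rfl⟩ | ⟨x, rfl⟩)
    · exact (dg p q _).2
    · exact inr_mem p q (subset_normalClosure (Or.inl ⟨x, rfl⟩))
    · exact inr_mem p q (subset_normalClosure (Or.inr ⟨x, rfl⟩))
  · have hd : ∀ f, (dg p q f).1 ∈ closure S := by
      intro f
      have : (⊤ : Subgroup (FF Y)) ≤ (closure S).comap ((PP p q).subtype.comp (dg p q)) := by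
        rw [← FreeGroup.closure_range_of, closure_le]
        rintro _ ⟨x, rfl⟩
        exact subset_closure (Or.inl ⟨x, rfl⟩)
      exact this (mem_top f)
    haveI : ((closure S).comap (MonoidHom.inr (FF Y ⧸ N1 Y) (FF Y))).Normal := ⟨fun k hk g => by
      have := mul_mem (mul_mem (hd g) hk) (inv_mem (hd g))
      rw [mem_comap]
      convert this using 1
      ext
      · simp [dg_val]
      · simp [dg_val]⟩
    have hk : KK0 p q ≤ (closure S).comap (MonoidHom.inr (FF Y ⧸ N1 Y) (FF Y)) := by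
      refine normalClosure_le_normal ?_
      rintro _ (⟨x, rfl⟩ | ⟨x, rfl⟩)
      · exact subset_closure (Or.inr (Or.inl ⟨x, rfl⟩))
      · exact subset_closure (Or.inr (Or.inr ⟨x, rfl⟩))
    intro a ha
    obtain ⟨f, hf⟩ := QuotientGroup.mk'_surjective _ a.1
    obtain ⟨h1, h2⟩ := decomp p q ⟨a, ha⟩ f hf
    have h3 : a = (1, a.2 * f⁻¹) * (dg p q f).1 := h2
    rw [h3]
    exact mul_mem (hk h1) (hd f)

/-- the maps onto free groups -/
def phb (N : ℕ) : FF Y ⧸ N1 Y →* FreeGroup (Option Y) :=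
  QuotientGroup.lift _ (ph N) (show N1 Y ≤ (ph N).ker from normalClosure_le_normal (by
    rintro _ ⟨x, rfl⟩
    simp [ph_zz]))

theorem mem_zp {g : FF Y ⧸ N1 Y} (h : ∀ N, phb N g = 1) :
    ∃ k : ℤ, g = QuotientGroup.mk' (N1 Y) (zz ^ k) := by
  obtain ⟨f, rfl⟩ := QuotientGroup.mk'_surjective _ g
  haveI : (zpowers (QuotientGroup.mk' (N1 Y) zz)).Normal := ⟨fun a ha g => by
    have : a ∈ center _ := (zpowers_le.2 zz_central) ha
    rwa [mem_center_iff.1 this g, mul_inv_cancel_right]⟩
  have : normalClosure {(zz : FF Y)} ≤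
      (zpowers (QuotientGroup.mk' (N1 Y) zz)).comap (QuotientGroup.mk' (N1 Y)) :=
    normalClosure_le_normal (by rintro _ rfl; exact mem_zpowers _)
  obtain ⟨k, hk⟩ := this (mem_nc_of_ph h)
  exact ⟨k, by rw [map_zpow]; exact hk.symm⟩

theorem frat_PP (hz : ∀ k : ℤ, (zz : FF Y) ^ k ∈ KK0 p q → k = 0) : frattini (PP p q) = ⊥ := by
  classical
  rw [eq_bot_iff]
  intro a ha
  have h2 : a.1.2 = 1 := by
    have := frattini_le_comap_frattini_of_surjective
      (φ := (MonoidHom.snd _ _).comp (PP p q).subtype) (fun f => ⟨dg p q f, rfl⟩) ha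
    rwa [frattini_free, mem_comap, mem_bot] at this
  obtain ⟨k, hk⟩ := mem_zp (g := a.1.1) fun N => by
    have := frattini_le_comap_frattini_of_surjective
      (φ := (phb N).comp ((MonoidHom.fst _ _).comp (PP p q).subtype)) (fun f => by
        obtain ⟨g, rfl⟩ := ph_surj N f
        exact ⟨dg p q g, rfl⟩) ha
    rwa [frattini_free, mem_comap, mem_bot] at this
  have h3 : ((QuotientGroup.mk' (N1 Y) (zz ^ k), 1) : HH Y) ∈ PP p q := by
    rw [← hk, ← h2]; exact a.2
  rw [mem_PP, mul_one, inv_mem_iff] at h3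
  obtain rfl := hz k h3
  rw [mem_bot]
  exact Subtype.ext (Prod.ext (by simpa using hk) h2)

theorem frat_HH (hz : ∀ k : ℤ, (zz : FF Y) ^ k ∈ KK0 p q → k = 0) : frattini (HH Y) ≠ ⊥ := by
  intro e
  have : ((QuotientGroup.mk' (N1 Y) zz, 1) : HH Y) ∈ frattini (HH Y) := by
    refine mem_frattini_of_central ?_ ?_
    · rw [mem_center_iff]
      intro g
      exact Prod.ext (mem_center_iff.1 zz_central _) (by simp)
    · have : ((QuotientGroup.mk' (N1 Y) zz, 1) : HH Y) =
          ⁅((QuotientGroup.mk' (N1 Y) ga, 1) : HH Y), ((QuotientGroup.mk' (N1 Y) gb, 1) : HH Y)⁆ := by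
        ext
        · simp [zz, commutatorElement_def]
        · simp [commutatorElement_def]
      rw [this]
      exact commutator_mem_commutator (mem_top _) (mem_top _)
  rw [e, mem_bot] at this
  have h1 : (zz : FF Y) ∈ N1 Y := (QuotientGroup.eq_one_iff _).1 (congrArg Prod.fst this)
  exact one_ne_zero (hz 1 (by simpa using N1_le p q h1))

end main

end Pool.Agent.H77.Fra
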