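import Pool.Agent.H77.FraC

namespace Pool.Agent.H77.Fra

open Subgroup
open scoped commutatorElement

section ring
variable {R : Type} [Ring R]

theorem un_comm {e f : R} (he : e * e = 0) (hf : f * f = 0) (hfe : f * e = 0)
    (h : (e * f) * (e * f) = 0) : ⁅un e he, un f hf⁆ = un (e * f) h := by
  rw [commutatorElement_def, mul_inv_eq_iff_eq_mul, mul_inv_eq_iff_eq_mul]
  ext
  simp only [un, Units.val_mul]
  have : (1 + e * f) * (1 + f) * (1 + e) =
      (1 + e) * (1 + f) + (f * e + e * (f * f) + e * (f * e) + e * (f * f) * e) := by noncomm_ring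
  rw [this, hfe, hf]; simp

theorem un_commute {e g : R} (he : e * e = 0) (hg : g * g = 0) (h1 : g * e = 0) (h2 : e * g = 0) :
    ⁅un g hg, un e he⁆ = 1 := by
  rw [commutatorElement_eq_one_iff_mul_comm]
  ext
  simp only [un, Units.val_mul, mul_add, add_mul, h1, h2, mul_one, one_mul]
  abel

theorem un_pow {g : R} (hg : g * g = 0) (k : ℕ) : (un g hg ^ k).1 = 1 + k • g := by
  induction k with
  | zero => simp
  | succ k ih =>
    rw [pow_succ, Units.val_mul, ih]
    simp only [un, add_mul, mul_add, smul_mul_assoc, hg, add_smul]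
    simp [add_assoc]

theorem un_zpow {g : R} (hg : g * g = 0) (tf : ∀ m : ℕ, m • g = 0 → m = 0) (k : ℤ)
    (h : un g hg ^ k = 1) : k = 0 := by
  have : un g hg ^ k.natAbs = 1 := by
    rcases Int.natAbs_eq k with e | e
    · rw [← zpow_natCast, ← e, h]
    · rw [← zpow_natCast, ← inv_eq_one, ← zpow_neg, ← e, h]
  have h2 := un_pow hg k.natAbs
  rw [this, Units.val_one, left_eq_add] at h2
  exact Int.natAbs_eq_zero.1 (tf _ h2)

end ring

abbrev M5 : Type := Matrix (Fin 5) (Fin 5) ℤ

def EE (i j : Fin 5) : M5 := Matrix.of fun a b => if a = i ∧ b = j then 1 else 0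

def ix : Option (Option (Fin 10)) → Fin 5 × Fin 5
  | none => (1, 4)
  | some none => (0, 1)
  | some (some y) => ![(0, 2), (0, 3), (2, 4), (3, 4), (1, 2), (1, 3), (2, 1), (2, 3), (3, 1),
      (3, 2)] y

def pp : Option (Option (Fin 10)) → Option (Option (Fin 10))
  | none => some (some 4)
  | some none => some (some 0)
  | some (some y) => ![some none, some none, some (some 6), some (some 8), some (some 5),
      some (some 4), some (some 7), some (some 6), some (some 9), some (some 8)] y

def qq : Option (Option (Fin 10)) → Option (Option (Fin 10))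
  | none => some (some 2)
  | some none => some (some 6)
  | some (some y) => ![some (some 4), some (some 5), none, none, some (some 9),
      some (some 7), some (some 8), some (some 5), some (some 6), some (some 4)] y

theorem EE_mul (i j k l : Fin 5) : EE i j * EE k l = if j = k then EE i l else 0 := by
  ext a b
  simp only [EE, Matrix.mul_apply, Matrix.of_apply, mul_ite, mul_one, mul_zero]
  rw [Finset.sum_eq_single k (fun c _ hc => by simp [hc]) (by simp)]
  by_cases h : j = k
  · subst h; by_cases h1 : a = i <;> by_cases h2 : b = l <;> simp [h1, h2]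
  · simp [h, Ne.symm h]

def ee (x : Option (Option (Fin 10))) : M5 := EE (ix x).1 (ix x).2

theorem ee_sq (x) : ee x * ee x = 0 := by
  rw [ee, EE_mul, if_neg]; revert x; decide

theorem ee_pq (x) : ee (pp x) * ee (qq x) = ee x := by
  have : ∀ x, (ix (pp x)).2 = (ix (qq x)).1 ∧ (ix (pp x)).1 = (ix x).1 ∧
    (ix (qq x)).2 = (ix x).2 := by decide
  rw [ee, ee, EE_mul, if_pos (this x).1, (this x).2.1, (this x).2.2, ee]

theorem ee_qp (x) : ee (qq x) * ee (pp x) = 0 := by
  rw [ee, ee, EE_mul, if_neg]; revert x; decide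

theorem ee_ab : ee (some none) * ee none = EE 0 4 := by
  rw [ee, ee, EE_mul, if_pos]; rfl; rfl

theorem ee_ba : ee none * ee (some none) = 0 := by
  rw [ee, ee, EE_mul, if_neg]; decide

theorem ee_z (x) : ee x * EE 0 4 = 0 := by
  rw [ee, EE_mul, if_neg]; revert x; decide

theorem z_ee (x) : EE 0 4 * ee x = 0 := by
  rw [ee, EE_mul, if_neg]; revert x; decide

theorem z_z : EE 0 4 * EE 0 4 = 0 := by
  rw [EE_mul, if_neg]; decide

theorem z_tf (m : ℕ) (h : m • EE 0 4 = 0) : m = 0 := by
  have := congrFun (congrFun h 0) 4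
  simpa [EE] using this

theorem un_congr {R : Type} [Ring R] {e f : R} (h : e = f) (he : e * e = 0) :
    un e he = un f (h ▸ he) := by subst h; rfl

theorem hz (k : ℤ) (h : (zz : FF (Fin 10)) ^ k ∈ KK0 pp qq) : k = 0 := by
  let ev : FF (Fin 10) →* M5ˣ := FreeGroup.lift fun x => un (ee x) (ee_sq x)
  have e1 : ev zz = un (EE 0 4) z_z := by
    rw [zz, map_commutatorElement]
    simp only [ev, ga, gb, FreeGroup.lift_apply_of]
    rw [un_comm _ _ ee_ba (by rw [ee_ab, z_z]), un_congr ee_ab]
  have : KK0 pp qq ≤ ev.ker := by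
    refine normalClosure_le_normal ?_
    rintro _ (⟨x, rfl⟩ | ⟨x, rfl⟩)
    · rw [SetLike.mem_coe, MonoidHom.mem_ker, rr, map_mul, map_inv, map_commutatorElement,
        mul_inv_eq_one]
      simp only [ev, FreeGroup.lift_apply_of]
      rw [un_comm _ _ (ee_qp x) (by rw [ee_pq, ee_sq]), un_congr (ee_pq x)]
    · rw [SetLike.mem_coe, MonoidHom.mem_ker, map_commutatorElement, e1]
      simp only [ev, FreeGroup.lift_apply_of]
      exact un_commute _ _ (z_ee x) (ee_z x)
  have h2 := this h
  rw [MonoidHom.mem_ker, map_zpow, e1] at h2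
  exact un_zpow _ z_tf k h2

open Polynomial in
theorem det_zz' {S : Type} [Ring S] (tf : ∀ (m : ℕ) (s : S), m ≠ 0 → m • s = 0 → s = 0)
    (A B : S) (hA : A * A = 0) (hB : B * B = 0) (hBA : B * A = 0) (hZ : A * B ≠ 0)
    {Y : Type} (k : ℤ) (hk : k ≠ 0) : Det (QuotientGroup.mk' (N1 Y) (zz ^ k)) := by
  let e : Option (Option Y) → S := fun o => o.elim B fun o' => o'.elim A fun _ => 0
  have he : ∀ x, e x * e x = 0 := by
    rintro (_ | _ | y)
    · exact hB
    · exact hA
    · exact zero_mul _
  have h1 : ∀ x, e x * (A * B) = 0 := by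
    rintro (_ | _ | y)
    · show B * (A * B) = 0
      rw [← mul_assoc, hBA, zero_mul]
    · show A * (A * B) = 0
      rw [← mul_assoc, hA, zero_mul]
    · exact zero_mul _
  have h2 : ∀ x, (A * B) * e x = 0 := by
    rintro (_ | _ | y)
    · show A * B * B = 0
      rw [mul_assoc, hB, mul_zero]
    · show A * B * A = 0
      rw [mul_assoc, hBA, mul_zero]
    · exact mul_zero _
  have z_z : (A * B) * (A * B) = 0 := by
    rw [mul_assoc, ← mul_assoc B, hBA, zero_mul, mul_zero]
  have hzz : (C (A * B) * X ^ 2 : S[X]) * (C (A * B) * X ^ 2) = 0 := by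
    rw [mul_assoc, ← mul_assoc (X ^ 2), X_pow_mul, mul_assoc, ← mul_assoc, ← C_mul, z_z]; simp
  have hab : (C (e (some none)) * X) * (C (e none) * X) = C (A * B) * X ^ 2 := CX_mul _ _
  have e1 : prep e he zz = un (C (A * B) * X ^ 2) hzz := by
    rw [zz, map_commutatorElement]
    simp only [prep, ga, gb, FreeGroup.lift_apply_of]
    have hba : (C (e none) * X) * (C (e (some none)) * X) = 0 := by
      rw [CX_mul, show e none * e (some none) = 0 from hBA, C_0, zero_mul]
    have h4 : (C (e (some none)) * X) * (C (e none) * X) *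
        ((C (e (some none)) * X) * (C (e none) * X)) = 0 := by rw [hab, hzz]
    refine (un_comm _ _ hba h4).trans ?_
    ext1
    simp only [un, hab]
  have hker : N1 Y ≤ ((Units.coeHom _).comp (prep e he)).ker := by
    refine normalClosure_le_normal ?_
    rintro _ ⟨x, rfl⟩
    rw [SetLike.mem_coe, MonoidHom.mem_ker, MonoidHom.comp_apply, map_commutatorElement, e1]
    simp only [prep, FreeGroup.lift_apply_of]
    rw [un_commute, map_one]
    · rw [mul_assoc, ← mul_assoc (X ^ 2), X_pow_mul, mul_assoc, ← mul_assoc, ← C_mul, h2]; simp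
    · rw [mul_assoc, ← mul_assoc X, X_mul_C, mul_assoc, ← mul_assoc, ← C_mul, h1]; simp
  refine det_of_poly (QuotientGroup.lift _ _ hker) tf (fun g => ?_) fun h => hk ?_
  · obtain ⟨g, rfl⟩ := QuotientGroup.mk'_surjective _ g
    exact prep_J e he g
  · have h3 : prep e he (zz ^ k) = 1 := Units.ext h
    rw [map_zpow, e1] at h3
    refine un_zpow _ (fun m hm => ?_) k h3
    by_contra hm0
    have := congrArg (fun t => coeff t 2) hm
    simp only [coeff_smul, coeff_C_mul, coeff_X_pow_self, mul_one, coeff_zero] at this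
    exact hZ (tf m _ hm0 this)

theorem det_zz {Y : Type} (k : ℤ) (hk : k ≠ 0) : Det (QuotientGroup.mk' (N1 Y) (zz ^ k)) :=
  det_zz' mat_tf (ee (some none)) (ee none) (ee_sq _) (ee_sq _) ee_ba
    (fun h => one_ne_zero (z_tf 1 (by rw [← ee_ab, h, smul_zero]))) k hk

theorem det_HH {Y : Type} [Finite Y] (g : HH Y) (hg : g ≠ 1) : Det g := by
  by_cases h2 : g.2 = 1
  · refine Det.comp (MonoidHom.fst _ _) ?_
    by_cases h : ∀ N, phb N g.1 = 1
    · obtain ⟨k, hk⟩ := mem_zp h
      show Det g.1
      rw [hk]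
      refine det_zz k ?_
      rintro rfl
      exact hg (Prod.ext (by simpa using hk) h2)
    · push Not at h
      obtain ⟨N, hN⟩ := h
      exact Det.comp (phb N) (det_free _ hN)
  · exact Det.comp (MonoidHom.snd _ _) (det_free _ h2)

theorem main : ∃ (G H : Type) (_ : Group G) (_ : Group H), Group.FG G ∧ Group.FG H ∧
    ResTFN G ∧ ResTFN H ∧ SameLCS G H ∧ frattini G = ⊥ ∧ frattini H ≠ ⊥ :=
  ⟨PP pp qq, HH (Fin 10), inferInstance, inferInstance, PP_fg pp qq, inferInstance,
    res_of_det fun g hg => Det.comp (PP pp qq).subtype (det_HH _ fun e => hg (Subtype.ext e)),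
    res_of_det det_HH, same pp qq, frat_PP pp qq hz, frat_HH pp qq hz⟩

end Pool.Agent.H77.Fra
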