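import Mathlib

namespace Pool.Agent.H77.Fra

/-- Residually torsion-free nilpotent: every `g ≠ 1` survives under some homomorphism onto a
torsion-free nilpotent group. -/
def ResTFN (G : Type) [Group G] : Prop :=
  ∀ g : G, g ≠ 1 → ∃ (N : Type) (_ : Group N) (φ : G →* N), Function.Surjective φ ∧
    Group.IsNilpotent N ∧ (∀ x : N, IsOfFinOrder x → x = 1) ∧ φ g ≠ 1

/-- Same lower central sequence: the quotients by all terms of the lower central series are
isomorphic (index `0` is the whole group). -/
def SameLCS (G H : Type) [Group G] [Group H] : Prop :=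
  ∀ n : ℕ, Nonempty ((G ⧸ (⊤ : Subgroup G).lowerCentralSeries n) ≃*
    (H ⧸ (⊤ : Subgroup H).lowerCentralSeries n))

end Pool.Agent.H77.Fra
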