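import Mathlib

set_option autoImplicit false

namespace Pool.Agent.H77.Gleason

open Filter Topology MeasureTheory

def p : ℕ → ℕ
  | 0 => 1
  | 1 => 2
  | n + 2 => (n + 3) ^ 3 * p (n + 1) + p n

def r : ℕ → ℤ
  | 0 => 0
  | 1 => 1
  | n + 2 => (n + 3) ^ 3 * r (n + 1) + r n

theorem p_grow (n : ℕ) : (n + 3) ^ 3 * p (n + 1) ≤ p (n + 2) := Nat.le_add_right _ _

theorem p_step (n : ℕ) : (n + 2) * p n ≤ p (n + 1) := by
  cases n with
  | zero => decide
  | succ n => exact (Nat.mul_le_mul_right _ (Nat.le_self_pow (by norm_num) _)).trans (p_grow n)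

theorem p_pos (n : ℕ) : 0 < p n := by
  induction n with
  | zero => decide
  | succ n ih => exact lt_of_lt_of_le (by positivity) (p_step n)

theorem p_posR (n : ℕ) : (0 : ℝ) < p n := by exact_mod_cast p_pos n

theorem p_two (n : ℕ) : (2 : ℝ) * p n ≤ p (n + 1) := by
  have : 2 * p n ≤ p (n + 1) := (Nat.mul_le_mul_right _ (by omega)).trans (p_step n)
  exact_mod_cast this

theorem p_mono : Monotone p := monotone_nat_of_le_succ fun n =>
  (Nat.le_mul_of_pos_left _ (by omega)).trans (p_step n)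

theorem p_cop (n : ℕ) : Nat.gcd (p n) (p (n + 1)) = 1 := by
  induction n with
  | zero => decide
  | succ n ih => rw [p, Nat.gcd_mul_right_add_right, Nat.gcd_comm, ih]

theorem det (n : ℕ) : r (n + 1) * p n - r n * p (n + 1) = (-1) ^ n := by
  induction n with
  | zero => decide
  | succ n ih =>
    rw [r, p, pow_succ (-1), ← ih]
    push_cast
    ring

noncomputable def q (n : ℕ) : ℝ := r n / p n

theorem q_dist (n : ℕ) : dist (q n) (q (n + 1)) = 1 / (p n * p (n + 1)) := by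
  have h1 := p_posR n
  have h2 := p_posR (n + 1)
  have h : (r (n + 1) : ℝ) * p n - r n * p (n + 1) = (-1) ^ n := by exact_mod_cast det n
  have : q (n + 1) - q n = (-1) ^ n / (p n * p (n + 1)) := by
    rw [← h, q, q]
    field_simp
  rw [dist_comm, Real.dist_eq, this, abs_div, abs_neg_one_pow, abs_of_pos (by positivity)]

theorem q_geo (n j : ℕ) :
    dist (q (n + j)) (q (n + (j + 1))) ≤ 2 / (p n * p (n + 1)) / 2 / 2 ^ j := by
  have h1 := p_posR n
  have h2 := p_posR (n + 1)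
  have a : ∀ j, (2 : ℝ) ^ j * p n ≤ p (n + j) := fun j => by
    induction j with
    | zero => simp
    | succ j ih =>
      have := p_two (n + j)
      rw [pow_succ, ← add_assoc]
      linarith
  have b : (p (n + 1) : ℝ) ≤ p (n + j + 1) := by exact_mod_cast p_mono (by omega)
  rw [← add_assoc, q_dist]
  have e : (2 : ℝ) / (p n * p (n + 1)) / 2 / 2 ^ j = 1 / (2 ^ j * p n * p (n + 1)) := by
    field_simp
  rw [e]
  exact one_div_le_one_div_of_le (by positivity)
    (mul_le_mul (a j) b h2.le (p_posR _).le)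

theorem exists_th : ∃ θ : ℝ, ∀ n, dist (q n) θ ≤ 2 / (p n * p (n + 1)) := by
  have hc : CauchySeq q := by
    refine cauchySeq_of_le_geometric_two (C := 2 / (p 0 * p (0 + 1))) fun j => ?_
    simpa using q_geo 0 j
  obtain ⟨θ, hθ⟩ := cauchySeq_tendsto_of_complete hc
  refine ⟨θ, fun n => ?_⟩
  have := dist_le_of_le_geometric_two_of_tendsto₀ (f := fun j => q (n + j)) (q_geo n)
    (a := θ) (by simpa only [add_comm n] using (tendsto_add_atTop_iff_nat n).2 hθ)
  simpa using this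

noncomputable def f (θ : ℝ) (z : ℤ) : ℝ := ‖((z * θ : ℝ) : UnitAddCircle)‖

theorem f_add (θ : ℝ) (z w : ℤ) : f θ (z + w) ≤ f θ z + f θ w := by
  simp only [f, Int.cast_add, add_mul, AddCircle.coe_add]
  exact norm_add_le _ _

theorem f_sub (θ : ℝ) (z w : ℤ) : |f θ z - f θ w| ≤ f θ (z - w) := by
  simp only [f, Int.cast_sub, sub_mul, AddCircle.coe_sub]
  exact abs_norm_sub_norm_le _ _

theorem f_le (θ : ℝ) (z j : ℤ) : f θ z ≤ |z * θ - j| := by
  rw [f, UnitAddCircle.norm_eq]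
  exact round_le _ _

noncomputable def dl (n : ℕ) : ℝ := 2 * (n + 1) / p (n + 1)

theorem dl_anti : Antitone dl := antitone_nat_of_succ_le fun n => by
  have := p_two (n + 1)
  have := p_posR (n + 1)
  rw [dl, dl, div_le_div_iff₀ (p_posR _) (p_posR _)]
  push_cast
  nlinarith

def P (θ : ℝ) (z : ℤ) (c : ℝ) : Prop :=
  ∀ n : ℕ, ∃ u w : ℤ, z = u + w ∧ |(u : ℝ)| ≤ c * (n * p n) ∧ f θ w ≤ c * dl n

theorem P.add {θ : ℝ} {z z' : ℤ} {c c' : ℝ} (h : P θ z c) (h' : P θ z' c') :
    P θ (z + z') (c + c') := fun n => by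
  obtain ⟨u, w, e, h1, h2⟩ := h n
  obtain ⟨u', w', e', h3, h4⟩ := h' n
  refine ⟨u + u', w + w', by rw [e, e']; ring, ?_, ?_⟩
  · push_cast
    have := abs_add_le (u : ℝ) u'
    linarith
  · have := f_add θ w w'
    linarith

theorem dl_nn (n : ℕ) : 0 ≤ dl n := by unfold dl; positivity

theorem P.mono {θ : ℝ} {z : ℤ} {c c' : ℝ} (h : P θ z c) (hc : c ≤ c') : P θ z c' := fun n => by
  obtain ⟨u, w, e, h1, h2⟩ := h n
  exact ⟨u, w, e, h1.trans (mul_le_mul_of_nonneg_right hc (by positivity)),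
    h2.trans (mul_le_mul_of_nonneg_right hc (dl_nn n))⟩

theorem P_zero (θ : ℝ) : P θ 0 0 := fun _ => ⟨0, 0, rfl, by simp, by simp [f]⟩

theorem P_single {θ : ℝ} (hθ : ∀ n, dist (q n) θ ≤ 2 / (p n * p (n + 1))) (i : ℕ) (c : ℤ) :
    P θ (c * p i) (|(c : ℝ)| * (1 / (i + 1))) := fun n => by
  have h1 := p_posR i
  have h2 := p_posR (i + 1)
  by_cases h : i < n
  · refine ⟨c * p i, 0, by simp, ?_, by simp only [f]; simp; have := dl_nn n; positivity⟩
    have a1 : (i : ℝ) + 1 ≤ n := by exact_mod_cast h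
    have a2 : (p i : ℝ) ≤ p n := by exact_mod_cast p_mono h.le
    push_cast
    rw [abs_mul, mul_assoc, abs_of_pos h1]
    refine mul_le_mul_of_nonneg_left ?_ (abs_nonneg _)
    rw [one_div, ← div_eq_inv_mul, le_div_iff₀ (by positivity)]
    nlinarith
  · refine ⟨0, c * p i, by simp, by simp; positivity, (f_le θ _ (c * r i)).trans ?_⟩
    have a1 := hθ i
    have a2 := dl_anti (not_lt.1 h)
    have e : ((c * p i : ℤ) : ℝ) * θ - (c * r i : ℤ) = c * (p i * (θ - q i)) := by
      push_cast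
      rw [q]
      field_simp
    rw [e, abs_mul, abs_mul, mul_assoc, abs_of_pos h1]
    refine mul_le_mul_of_nonneg_left ?_ (abs_nonneg _)
    rw [dist_comm, Real.dist_eq] at a1
    calc (p i : ℝ) * |θ - q i| ≤ p i * (2 / (p i * p (i + 1))) :=
          mul_le_mul_of_nonneg_left a1 h1.le
      _ = 1 / (i + 1) * dl i := by rw [dl]; field_simp
      _ ≤ _ := mul_le_mul_of_nonneg_left a2 (by positivity)

def T (θ : ℝ) (M : ℕ) (n : ℕ) : Set ℝ :=
  ⋃ u ∈ Finset.Icc (-((M * (n * p n) : ℕ) : ℤ)) (M * (n * p n) : ℕ),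
    Metric.closedBall (f θ u) (M * dl n)

theorem T_closed (θ : ℝ) (M n : ℕ) : IsClosed (T θ M n) :=
  isClosed_biUnion_finset fun _ _ => Metric.isClosed_closedBall

theorem mem_T {θ : ℝ} {z : ℤ} {M : ℕ} (h : P θ z M) (n : ℕ) : f θ z ∈ T θ M n := by
  obtain ⟨u, w, e, h1, h2⟩ := h n
  have : |u| ≤ ((M * (n * p n) : ℕ) : ℤ) := by exact_mod_cast h1
  refine Set.mem_biUnion (Finset.mem_coe.2 (Finset.mem_Icc.2 (abs_le.1 this))) ?_
  rw [Metric.mem_closedBall, Real.dist_eq]
  refine (f_sub θ z u).trans ?_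
  rwa [e, add_sub_cancel_left]

theorem T_null (θ : ℝ) (M : ℕ) : volume (⋂ n, T θ M n) = 0 := by
  have key : ∀ n : ℕ, volume (⋂ n, T θ M n) ≤
      ENNReal.ofReal ((2 * M + 1) * (4 * M) / ((n : ℝ) + 1)) := by
    intro n
    refine (measure_mono (Set.iInter_subset _ (n + 1))).trans
      ((measure_biUnion_finset_le _ _).trans ?_)
    simp only [Real.volume_closedBall, Finset.sum_const, Int.card_Icc, nsmul_eq_mul]
    rw [← ENNReal.ofReal_natCast, ← ENNReal.ofReal_mul (by positivity)]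
    refine ENNReal.ofReal_le_ofReal ?_
    have e : (((M * ((n + 1) * p (n + 1)) : ℕ) : ℤ) + 1 - -((M * ((n + 1) * p (n + 1)) : ℕ) : ℤ)).toNat
        = 2 * (M * ((n + 1) * p (n + 1))) + 1 := by omega
    rw [e, dl]
    have h1 : (1 : ℝ) ≤ p (n + 1) := by exact_mod_cast p_pos (n + 1)
    have h2 : ((n : ℝ) + 3) ^ 3 * p (n + 1) ≤ p (n + 2) := by exact_mod_cast p_grow n
    have h3 := p_posR (n + 2)
    have hn : (0 : ℝ) ≤ n := by positivity
    have hM : (0 : ℝ) ≤ M := by positivity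
    push_cast
    have h4 : 2 * (M * ((n + 1) * p (n + 1)) : ℝ) + 1 ≤ (2 * M + 1) * ((n + 1) * p (n + 1)) := by
      nlinarith
    have h5 : ((n : ℝ) + 1) * p (n + 1) * (n + 1 + 1) * (n + 1) ≤ p (n + 2) := by
      refine le_trans ?_ h2
      have : ((n : ℝ) + 1) * (n + 1 + 1) * (n + 1) ≤ (n + 3) ^ 3 := by nlinarith [sq_nonneg (n : ℝ)]
      nlinarith
    refine (mul_le_mul_of_nonneg_right h4 (by positivity)).trans ?_
    rw [le_div_iff₀ (by positivity)]
    calc _ = (2 * M + 1) * (4 * M) * (((n : ℝ) + 1) * p (n + 1) * (n + 1 + 1) * (n + 1) / p (n + 2)) := by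
          field_simp
          ring
      _ ≤ _ := mul_le_of_le_one_right (by positivity) ((div_le_one h3).2 h5)
  have lim : Tendsto (fun n : ℕ => ENNReal.ofReal ((2 * M + 1) * (4 * M) / ((n : ℝ) + 1))) atTop
      (𝓝 0) := by
    rw [← ENNReal.ofReal_zero]
    refine ENNReal.tendsto_ofReal ?_
    simpa only [mul_one_div, mul_zero] using
      (tendsto_one_div_add_atTop_nhds_zero_nat (𝕜 := ℝ)).const_mul ((2 * (M : ℝ) + 1) * (4 * M))
  exact le_antisymm (ge_of_tendsto' lim key) zero_le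

theorem main :
    ∃ p : ℕ → ℕ, ∃ a : ℕ → ℝ,
      a 0 = 1 ∧ StrictAnti a ∧ Tendsto a atTop (𝓝 0) ∧
      (∀ n, 0 < p n) ∧
      (∀ n, 1 ≤ a n * ((p (n + 1) : ℝ) / (p n : ℝ) - 1)) ∧
      (∀ m : ℕ, ∃ s : Finset ℕ, (∀ n ∈ s, m < n) ∧ s.gcd p = 1) ∧
      ∃ X : Set ℤ, X.Nonempty ∧ Xᶜ.Nonempty ∧
        ∀ N : ℤ → ℝ,
          (∀ z : ℤ, N z = sInf {r : ℝ | ∃ k : ℕ →₀ ℤ,
              (k.sum (fun i c => c * (p i : ℤ))) = z ∧
              r = k.sum (fun i c => |(c : ℝ)| * a i)}) →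
          ∀ x y : ℕ → ℤ, (∀ i, x i ∈ X) → (∀ i, y i ∈ Xᶜ) →
            ¬ (Summable (fun i => N (x i - x (i + 1))) ∧
               Summable (fun i => N (y i - y (i + 1))) ∧
               Summable (fun i => N (x i - y i))) := by
  obtain ⟨θ, hθ⟩ := exists_th
  have f1 : 0 < f θ 1 := by
    have := hθ 1
    rw [f, UnitAddCircle.norm_eq, abs_pos, sub_ne_zero]
    intro h
    simp only [Int.cast_one, one_mul] at h
    rw [h, Real.dist_eq, abs_le] at this
    norm_num [q, p, r] at this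
    have a1 : (0 : ℝ) < round θ := by linarith
    have a2 : (round θ : ℝ) < 1 := by linarith
    have a3 : 0 < round θ := by exact_mod_cast a1
    have a4 : round θ < 1 := by exact_mod_cast a2
    omega
  obtain ⟨ρ, hρ, hT⟩ : ∃ ρ ∈ Set.Ioo 0 (f θ 1), ρ ∉ ⋃ M, ⋂ n, T θ M n := by
    by_contra h
    push Not at h
    have := measure_mono_null h (measure_iUnion_null (T_null θ))
    simp [f1.not_ge] at this
  refine ⟨p, fun n => 1 / ((n : ℝ) + 1), by simp,
    strictAnti_nat_of_succ_lt fun n => Nat.one_div_lt_one_div (by omega),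
    tendsto_one_div_add_atTop_nhds_zero_nat, p_pos, fun n => ?_, fun m => ⟨{m + 1, m + 2}, ?_, ?_⟩,
    {z | f θ z < ρ}, ⟨0, by simpa [f] using hρ.1⟩, ⟨1, hρ.2.not_gt⟩, ?_⟩
  · have h : ((n : ℝ) + 2) * p n ≤ p (n + 1) := by exact_mod_cast p_step n
    have := (le_div_iff₀ (p_posR n)).2 h
    beta_reduce
    rw [one_div, ← div_eq_inv_mul, le_div_iff₀ (by positivity)]
    linarith
  · simp
  · simpa [gcd_eq_nat_gcd] using p_cop (m + 1)
  rintro N hN x y hx hy ⟨s1, -, s3⟩
  have hP : ∀ z c, N z < c → P θ z c := by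
    intro z c hc
    rw [hN] at hc
    have hex := exists_lt_of_csInf_lt ?_ hc
    swap
    · exact ⟨_, Finsupp.single 0 z, by simp [p], rfl⟩
    obtain ⟨_, ⟨k, rfl, rfl⟩, h⟩ := hex
    refine P.mono ?_ h.le
    unfold Finsupp.sum
    induction k.support using Finset.induction_on with
    | empty => exact P_zero θ
    | insert i s hi ih =>
      rw [Finset.sum_insert hi, Finset.sum_insert hi]
      exact (P_single hθ i _).add ih
  have N0 : ∀ z, 0 ≤ N z := fun z => by
    rw [hN]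
    refine Real.sInf_nonneg ?_
    rintro _ ⟨k, -, rfl⟩
    exact Finset.sum_nonneg fun i _ => by positivity
  have hf : ∀ z, f θ z ≤ N z * dl 0 := fun z => by
    refine le_of_forall_pos_le_add fun ε hε => ?_
    obtain ⟨u, w, e, h1, h2⟩ := hP z (N z + ε) (by linarith) 0
    obtain rfl : u = 0 := by simpa using h1
    have : dl 0 = 1 := by norm_num [dl, p]
    rw [this] at h2 ⊢
    rw [zero_add] at e
    subst e
    linarith
  have hc : CauchySeq fun i => f θ (x i) :=
    cauchySeq_of_dist_le_of_summable _ (fun i => (f_sub θ _ _).trans (hf _)) (s1.mul_right _)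
  obtain ⟨L, hL⟩ := cauchySeq_tendsto_of_complete hc
  have hL' : Tendsto (fun i => f θ (y i)) atTop (𝓝 L) := by
    refine hL.congr_dist (squeeze_zero (fun _ => dist_nonneg)
      (fun i => (f_sub θ _ _).trans (hf _)) ?_)
    simpa using s3.tendsto_atTop_zero.mul_const (dl 0)
  obtain rfl : L = ρ := le_antisymm (le_of_tendsto' hL fun i => (hx i).le)
    (ge_of_tendsto' hL' fun i => not_lt.1 (hy i))
  have hx' : ∀ i, P θ (x i) (N (x 0) + 1 + ∑ j ∈ Finset.range i,
      (N (x j - x (j + 1)) + (1 / 2) ^ j)) := by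
    intro i
    induction i with
    | zero => simpa using hP _ _ (lt_add_one _)
    | succ i ih =>
      have h := hP (x i - x (i + 1)) (N (x i - x (i + 1)) + (1 / 2) ^ i)
        (lt_add_of_pos_right _ (by positivity))
      have h' : P θ (x (i + 1) - x i) (N (x i - x (i + 1)) + (1 / 2) ^ i) := fun n => by
        obtain ⟨u, w, e, h1, h2⟩ := h n
        refine ⟨-u, -w, by linarith, by simpa using h1, ?_⟩
        simpa [f] using h2
      have := ih.add h'
      rw [add_sub_cancel, add_assoc (N (x 0) + 1), ← Finset.sum_range_succ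
        fun j => N (x j - x (j + 1)) + (1 / 2) ^ j] at this
      exact this
  have s4 := s1.add summable_geometric_two
  obtain ⟨M, hM⟩ := exists_nat_ge (N (x 0) + 1 + ∑' j, (N (x j - x (j + 1)) + (1 / 2) ^ j))
  refine hT (Set.mem_iUnion.2 ⟨M, Set.mem_iInter.2 fun n => (T_closed θ M n).mem_of_tendsto hL
    (Eventually.of_forall fun i => mem_T ((hx' i).mono (le_trans ?_ hM)) n)⟩)
  have := s4.sum_le_tsum (Finset.range i) fun j _ => add_nonneg (N0 _) (by positivity)
  linarith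

end Pool.Agent.H77.Gleason
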