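import Mathlib

set_option autoImplicit false

namespace Pool.Agent.H77.GrpInRing

open Filter Topology

section Abstract

variable {G R : Type} [Group G] [Ring R]

theorem comm_eq (f : G →ₙ* R) (a b : G) :
    f (a * b * a⁻¹ * b⁻¹) - f 1 =
      ((f a - f 1) * (f b - f 1) - (f b - f 1) * (f a - f 1)) * f (a⁻¹ * b⁻¹) := by
  simp only [sub_mul, mul_sub, ← map_mul, mul_one, one_mul]
  have h1 : b * a * (a⁻¹ * b⁻¹) = 1 := by group
  have h2 : a * b * (a⁻¹ * b⁻¹) = a * b * a⁻¹ * b⁻¹ := by group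
  rw [h1, h2]
  abel

theorem conj_eq (f : G →ₙ* R) (σ : R) (b k : G) (hk : Commute σ (f k⁻¹)) :
    σ * (f b - f 1) = f k⁻¹ * (σ * (f (k * b * k⁻¹) - f 1)) * f k := by
  rw [← mul_assoc (f k⁻¹), ← hk.eq, mul_assoc, mul_assoc]
  congr 1
  simp only [sub_mul, mul_sub, ← map_mul, mul_one, one_mul]
  have h1 : k⁻¹ * (k * b * k⁻¹ * k) = b := by group
  rw [h1, inv_mul_cancel]

theorem comm_sum (f : G →ₙ* R) (s x : G) (n : ℕ) (h : Commute s x) :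
    Commute (∑ j ∈ Finset.range n, f (s ^ j)) (f x) := by
  refine Commute.sum_left _ _ _ fun j _ => ?_
  change f (s ^ j) * f x = f x * f (s ^ j)
  rw [← map_mul, ← map_mul, (h.pow_left j).eq]

theorem tele (f : G →ₙ* R) (s : G) (n : ℕ) :
    (∑ j ∈ Finset.range n, f (s ^ j)) * (f s - f 1) = f (s ^ n) - f 1 := by
  rw [Finset.sum_mul]
  have : ∀ j, f (s ^ j) * (f s - f 1) = f (s ^ (j + 1)) - f (s ^ j) := fun j => by
    rw [mul_sub, ← map_mul, ← map_mul, mul_one, pow_succ]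
  simp only [this]
  rw [Finset.sum_range_sub (fun j => f (s ^ j)), pow_zero]

variable [TopologicalSpace G] [IsTopologicalGroup G] [TopologicalSpace R] [IsTopologicalRing R]

theorem nhds5 (S : Set (G × G × G × G × G)) (hS : S ∈ 𝓝 ((1, 1, 1, 1, 1) : G × G × G × G × G)) :
    ∃ U ∈ 𝓝 (1 : G), ∀ a ∈ U, ∀ b ∈ U, ∀ c ∈ U, ∀ d ∈ U, ∀ e ∈ U, (a, b, c, d, e) ∈ S := by
  obtain ⟨U1, h1, S1, hS1, k1⟩ := mem_nhds_prod_iff.1 hS
  obtain ⟨U2, h2, S2, hS2, k2⟩ := mem_nhds_prod_iff.1 hS1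
  obtain ⟨U3, h3, S3, hS3, k3⟩ := mem_nhds_prod_iff.1 hS2
  obtain ⟨U4, h4, U5, h5, k4⟩ := mem_nhds_prod_iff.1 hS3
  refine ⟨U1 ∩ U2 ∩ U3 ∩ U4 ∩ U5,
    inter_mem (inter_mem (inter_mem (inter_mem h1 h2) h3) h4) h5, ?_⟩
  intro a ha b hb c hc d hd e he
  exact k1 ⟨ha.1.1.1.1, k2 ⟨hb.1.1.1.2, k3 ⟨hc.1.1.2, k4 ⟨hd.1.2, he.2⟩⟩⟩⟩

/-- `b` can be conjugated into every neighbourhood of `1` by elements of `U` commuting with `s`. -/
def Shrink (U : Set G) (s b : G) : Prop :=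
  ∀ U' ∈ 𝓝 (1 : G), ∃ k ∈ U, Commute s k ∧ k * b * k⁻¹ ∈ U'

theorem key (f : G →ₙ* R) (hf : Continuous f) (t : G)
    (H : ∀ U ∈ 𝓝 (1 : G), ∃ (n : ℕ) (s a₁ b₁ a₂ b₂ : G), s ^ n = t ∧
      s = (a₁ * b₁ * a₁⁻¹ * b₁⁻¹) * (a₂ * b₂ * a₂⁻¹ * b₂⁻¹) ∧
      a₁ ∈ U ∧ b₁ ∈ U ∧ a₂ ∈ U ∧ b₂ ∈ U ∧
      Commute s a₁ ∧ Commute s b₁ ∧ Commute s a₂ ∧ Commute s b₂ ∧
      Shrink U s b₁ ∧ Shrink U s b₂) :
    ∀ W ∈ 𝓝 (0 : R), f t - f 1 ∈ W := by
  intro W hW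
  obtain ⟨W', hW', hWW⟩ := exists_nhds_zero_half hW
  let Θ : (G × G × G × G × G) × R → R := fun p =>
    f (p.1.1 * p.1.2.1 * p.1.1⁻¹ * p.1.2.1⁻¹) *
      (((f p.1.2.2.2.1 - f 1) * (f p.1.2.2.1⁻¹ * p.2 * f p.1.2.2.1) -
        (f p.1.2.2.1⁻¹ * p.2 * f p.1.2.2.1) * (f p.1.2.2.2.1 - f 1)) *
          f (p.1.2.2.2.1⁻¹ * p.1.2.2.2.2⁻¹))
  have hΘ : Continuous Θ := by
    simp only [Θ]
    fun_prop
  have h0 : Θ ((1, 1, 1, 1, 1), 0) = 0 := by simp [Θ]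
  have hev : Θ ⁻¹' W' ∈ 𝓝 (((1, 1, 1, 1, 1), 0) : (G × G × G × G × G) × R) :=
    hΘ.continuousAt.preimage_mem_nhds (by rwa [h0])
  obtain ⟨S, hS, V, hV, hSV⟩ := mem_nhds_prod_iff.1 hev
  obtain ⟨U, hU, hUS⟩ := nhds5 S hS
  obtain ⟨n, s, a₁, b₁, a₂, b₂, hsn, hs, ha₁, hb₁, ha₂, hb₂, ca₁, cb₁, ca₂, cb₂, sh₁, sh₂⟩ :=
    H U hU
  set σ : R := ∑ j ∈ Finset.range n, f (s ^ j) with hσ
  have hU' : (fun g => σ * (f g - f 1)) ⁻¹' V ∈ 𝓝 (1 : G) := by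
    have : Continuous fun g => σ * (f g - f 1) := by fun_prop
    exact this.continuousAt.preimage_mem_nhds (by simpa using hV)
  have one_mem : (1 : G) ∈ U := mem_of_mem_nhds hU
  have step : ∀ a' ∈ U, ∀ b' ∈ U, ∀ a ∈ U, ∀ b ∈ U, Commute s a → Shrink U s b →
      f (a' * b' * a'⁻¹ * b'⁻¹) * (σ * (f (a * b * a⁻¹ * b⁻¹) - f 1)) ∈ W' := by
    intro a' ha' b' hb' a ha b hb ca sh
    obtain ⟨k, hk, ck, hkb⟩ := sh _ hU'
    have hm : Θ ((a', b', k, a, b), σ * (f (k * b * k⁻¹) - f 1)) ∈ W' :=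
      hSV (Set.mk_mem_prod (hUS a' ha' b' hb' k hk a ha b hb) hkb)
    simp only [Θ] at hm
    rw [← conj_eq f σ b k (comm_sum f s _ n ck.inv_right)] at hm
    have c1 : Commute σ (f a - f 1) :=
      (comm_sum f s a n ca).sub_right (comm_sum f s 1 n (Commute.one_right s))
    rw [comm_eq f a b]
    convert hm using 2
    rw [← mul_assoc (f a - f 1) σ, ← c1.eq]
    noncomm_ring
  have e1 := step 1 one_mem 1 one_mem a₁ ha₁ b₁ hb₁ ca₁ sh₁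
  have e2 := step a₁ ha₁ b₁ hb₁ a₂ ha₂ b₂ hb₂ ca₂ sh₂
  have hsum := hWW _ e1 _ e2
  convert hsum using 1
  rw [← hsn, ← tele f s n, ← hσ]
  have c1 : Commute σ (f (a₁ * b₁ * a₁⁻¹ * b₁⁻¹)) :=
    comm_sum f s _ n (((ca₁.mul_right cb₁).mul_right ca₁.inv_right).mul_right cb₁.inv_right)
  have c0 : Commute σ (f 1) := comm_sum f s 1 n (Commute.one_right s)
  simp only [mul_one, inv_one]
  rw [← mul_assoc (f 1) σ, ← c0.eq, ← mul_assoc (f _) σ, ← c1.eq, mul_assoc σ, mul_assoc σ,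
    ← mul_add]
  congr 1
  simp only [mul_sub, ← map_mul, mul_one, one_mul]
  rw [← hs]
  abel

end Abstract

/-- The discrete coordinate set. -/
abbrev Z : Type := ℤ × ℕ

abbrev X : Type := (ℕ → Z) × ℝ

/-- Closeness of order `N` on `X`. -/
def Cl (N : ℕ) (p q : X) : Prop := (∀ i < N, p.1 i = q.1 i) ∧ |p.2 - q.2| ≤ 1 / 2 ^ N

theorem Cl.refl (N : ℕ) (p : X) : Cl N p p := ⟨fun _ _ => rfl, by simp⟩

theorem Cl.symm {N : ℕ} {p q : X} (h : Cl N p q) : Cl N q p :=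
  ⟨fun i hi => (h.1 i hi).symm, by rw [abs_sub_comm]; exact h.2⟩

theorem Cl.mono {N M : ℕ} {p q : X} (hNM : N ≤ M) (h : Cl M p q) : Cl N p q :=
  ⟨fun i hi => h.1 i (hi.trans_le hNM), h.2.trans
    (one_div_le_one_div_of_le (by positivity) (pow_le_pow_right₀ (by norm_num) hNM))⟩

theorem Cl.trans {N : ℕ} {p q r : X} (h : Cl (N + 1) p q) (h' : Cl (N + 1) q r) : Cl N p r := by
  refine ⟨fun i hi => (h.1 i (by omega)).trans (h'.1 i (by omega)), ?_⟩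
  have h1 := h.2
  have h2 := h'.2
  have h3 : |p.2 - r.2| ≤ |p.2 - q.2| + |q.2 - r.2| := abs_sub_le _ _ _
  have h4 : (1 : ℝ) / 2 ^ (N + 1) + 1 / 2 ^ (N + 1) = 1 / 2 ^ N := by
    field_simp
    ring
  linarith

/-- Uniform continuity for the closeness relations. -/
def UC (g : X → X) : Prop := ∀ N, ∃ M, ∀ p q, Cl M p q → Cl N (g p) (g q)

theorem UC.comp {g h : X → X} (hg : UC g) (hh : UC h) : UC (g ∘ h) := fun N => by
  obtain ⟨M, hM⟩ := hg N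
  obtain ⟨L, hL⟩ := hh M
  exact ⟨L, fun p q hpq => hM _ _ (hL _ _ hpq)⟩

/-- The group of uniform automorphisms of `X`. -/
def K : Subgroup (Equiv.Perm X) where
  carrier := {g | UC g ∧ UC (g⁻¹ : Equiv.Perm X)}
  one_mem' := ⟨fun N => ⟨N, fun _ _ h => h⟩, fun N => ⟨N, fun _ _ h => h⟩⟩
  mul_mem' := by
    intro a b ha hb
    refine ⟨ha.1.comp hb.1, ?_⟩
    rw [mul_inv_rev]
    exact hb.2.comp ha.2
  inv_mem' := by
    intro a ha
    exact ⟨ha.2, by rw [inv_inv]; exact ha.1⟩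

def G : Type := K

instance : Group G := inferInstanceAs (Group K)

def ap (g : G) : Equiv.Perm X := g.1

theorem ap_mul (g h : G) : ap (g * h) = ap g * ap h := rfl
theorem ap_inv (g : G) : ap g⁻¹ = (ap g)⁻¹ := rfl
theorem ap_one : ap 1 = 1 := rfl
theorem G_ext {g h : G} (e : ∀ p, ap g p = ap h p) : g = h := Subtype.ext (Equiv.ext e)

def B (N : ℕ) : Set G := {g | ∀ p, Cl N (ap g p) p}

def basis : GroupFilterBasis G where
  sets := Set.range B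
  nonempty := ⟨B 0, 0, rfl⟩
  inter_sets := by
    rintro _ _ ⟨N, rfl⟩ ⟨M, rfl⟩
    exact ⟨B (max N M), ⟨_, rfl⟩, fun g hg =>
      ⟨fun p => (hg p).mono (le_max_left _ _), fun p => (hg p).mono (le_max_right _ _)⟩⟩
  one' := by
    rintro _ ⟨N, rfl⟩
    exact fun p => Cl.refl N p
  mul' := by
    rintro _ ⟨N, rfl⟩
    refine ⟨B (N + 1), ⟨_, rfl⟩, ?_⟩
    rintro _ ⟨g, hg, h, hh, rfl⟩ p
    exact (hg _).trans (hh p)
  inv' := by
    rintro _ ⟨N, rfl⟩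
    refine ⟨B N, ⟨_, rfl⟩, fun g hg p => ?_⟩
    have := (hg ((ap g)⁻¹ p)).symm
    simpa [ap_inv] using this
  conj' := by
    rintro h _ ⟨N, rfl⟩
    obtain ⟨M, hM⟩ := h.2.1 N
    refine ⟨B M, ⟨_, rfl⟩, fun g hg p => ?_⟩
    have : Cl N (ap h (ap g ((ap h)⁻¹ p))) (ap h ((ap h)⁻¹ p)) := hM _ _ (hg ((ap h)⁻¹ p))
    simpa [ap_mul, ap_inv] using this

instance : TopologicalSpace G := basis.topology
instance : IsTopologicalGroup G := basis.isTopologicalGroup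

theorem mem_nhds_one {U : Set G} : U ∈ 𝓝 (1 : G) ↔ ∃ N, B N ⊆ U := by
  rw [basis.nhds_one_hasBasis.mem_iff]
  constructor
  · rintro ⟨_, ⟨N, rfl⟩, h⟩
    exact ⟨N, h⟩
  · rintro ⟨N, h⟩
    exact ⟨B N, ⟨N, rfl⟩, h⟩

def aP (n : ℕ) (φ : Z → ℝ) : Equiv.Perm X where
  toFun p := (p.1, p.2 + φ (p.1 n))
  invFun p := (p.1, p.2 - φ (p.1 n))
  left_inv p := by simp
  right_inv p := by simp

def a (n : ℕ) (φ : Z → ℝ) : G := ⟨aP n φ, by
  constructor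
  · intro N
    refine ⟨max N (n + 1), fun p q h => ⟨fun i hi => h.1 i (by omega), ?_⟩⟩
    have := (h.mono (le_max_left _ _)).2
    simpa [aP, h.1 n (by omega)] using this
  · intro N
    refine ⟨max N (n + 1), fun p q h => ⟨fun i hi => h.1 i (by omega), ?_⟩⟩
    have := (h.mono (le_max_left _ _)).2
    simpa [aP, Equiv.Perm.inv_def, h.1 n (by omega)] using this⟩

def bP (n : ℕ) (β : Equiv.Perm Z) : Equiv.Perm X where
  toFun p := (Function.update p.1 n (β (p.1 n)), p.2)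
  invFun p := (Function.update p.1 n (β.symm (p.1 n)), p.2)
  left_inv p := by simp
  right_inv p := by simp

theorem upd_uc (n : ℕ) (β : Z → Z) :
    UC fun p : X => (Function.update p.1 n (β (p.1 n)), p.2) := fun N =>
  ⟨N, fun p q h => ⟨fun i hi => by
    by_cases hin : i = n
    · subst hin
      simp [h.1 i hi]
    · simp [Function.update_of_ne hin, h.1 i hi], h.2⟩⟩

def b (n : ℕ) (β : Equiv.Perm Z) : G := ⟨bP n β, upd_uc n β, upd_uc n β.symm⟩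

def kP (n m : ℕ) : Equiv.Perm X where
  toFun p := (p.1 ∘ Equiv.swap n m, p.2)
  invFun p := (p.1 ∘ Equiv.swap n m, p.2)
  left_inv p := by simp [Function.comp_def]
  right_inv p := by simp [Function.comp_def]

theorem swap_uc (n m : ℕ) : UC fun p : X => (p.1 ∘ Equiv.swap n m, p.2) := fun N =>
  ⟨max N (max n m + 1), fun p q h => ⟨fun i hi => h.1 _ (by
    rw [Equiv.swap_apply_def]
    split_ifs <;> omega), (h.mono (le_max_left _ _)).2⟩⟩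

def k (n m : ℕ) : G := ⟨kP n m, swap_uc n m, swap_uc n m⟩

theorem ap_a (n : ℕ) (φ : Z → ℝ) (p : X) : ap (a n φ) p = (p.1, p.2 + φ (p.1 n)) := rfl
theorem ap_a_inv (n : ℕ) (φ : Z → ℝ) (p : X) : (ap (a n φ))⁻¹ p = (p.1, p.2 - φ (p.1 n)) := rfl
theorem ap_b (n : ℕ) (β : Equiv.Perm Z) (p : X) :
    ap (b n β) p = (Function.update p.1 n (β (p.1 n)), p.2) := rfl
theorem ap_b_inv (n : ℕ) (β : Equiv.Perm Z) (p : X) :
    (ap (b n β))⁻¹ p = (Function.update p.1 n (β.symm (p.1 n)), p.2) := rfl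
theorem ap_k (n m : ℕ) (p : X) : ap (k n m) p = (p.1 ∘ Equiv.swap n m, p.2) := rfl
theorem ap_k_inv (n m : ℕ) (p : X) : (ap (k n m))⁻¹ p = (p.1 ∘ Equiv.swap n m, p.2) := rfl

/-- Translation by `r`. -/
def sh (r : ℝ) : G := a 0 fun _ => r

theorem ap_sh (r : ℝ) (p : X) : ap (sh r) p = (p.1, p.2 + r) := rfl

theorem sh_pow (r : ℝ) (n : ℕ) : sh r ^ n = sh (n * r) := by
  induction n with
  | zero => exact G_ext fun p => by simp [ap_sh, ap_one]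
  | succ n ih =>
    rw [pow_succ, ih]
    refine G_ext fun p => ?_
    simp only [ap_mul, Equiv.Perm.mul_apply, ap_sh]
    push_cast
    congr 1
    ring

theorem sh_a (r : ℝ) (n : ℕ) (φ : Z → ℝ) : Commute (sh r) (a n φ) :=
  G_ext fun p => by
    simp only [ap_mul, Equiv.Perm.mul_apply, ap_sh, ap_a]
    congr 1
    ring

theorem sh_b (r : ℝ) (n : ℕ) (β : Equiv.Perm Z) : Commute (sh r) (b n β) :=
  G_ext fun _ => rfl

theorem sh_k (r : ℝ) (n m : ℕ) : Commute (sh r) (k n m) :=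
  G_ext fun _ => rfl

theorem a_mem (N n : ℕ) (φ : Z → ℝ) (h : ∀ z, |φ z| ≤ 1 / 2 ^ N) : a n φ ∈ B N := fun p =>
  ⟨fun _ _ => rfl, by simpa [ap_a] using h _⟩

theorem b_mem (N : ℕ) (β : Equiv.Perm Z) : b N β ∈ B N := fun p =>
  ⟨fun i hi => by simp [ap_b, Function.update_of_ne hi.ne], by simp [ap_b]⟩

theorem shrink (N : ℕ) (r : ℝ) (β : Equiv.Perm Z) {U : Set G} (hU : B N ⊆ U) :
    Shrink U (sh r) (b N β) := by
  intro U' hU'
  obtain ⟨M, hM⟩ := mem_nhds_one.1 hU'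
  refine ⟨k N (max N M), hU fun p => ⟨fun i hi => ?_, by simp [ap_k]⟩, sh_k _ _ _,
    hM fun p => ⟨fun i hi => ?_, by
      simp only [ap_mul, ap_inv, Equiv.Perm.mul_apply, ap_k, ap_k_inv, ap_b]
      simp⟩⟩
  · simp only [ap_k, Function.comp]
    rw [Equiv.swap_apply_of_ne_of_ne hi.ne (by omega)]
  · simp only [ap_mul, ap_inv, Equiv.Perm.mul_apply, ap_k, ap_k_inv, ap_b, Function.comp]
    have : Equiv.swap N (max N M) i ≠ N := by
      rw [Equiv.swap_apply_def]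
      split_ifs <;> omega
    rw [Function.update_of_ne this]
    simp

theorem comm_ab (n : ℕ) (φ : Z → ℝ) (β : Equiv.Perm Z) (p : X) :
    ap (a n φ * b n β * (a n φ)⁻¹ * (b n β)⁻¹) p =
      (p.1, p.2 + (φ (p.1 n) - φ (β.symm (p.1 n)))) := by
  simp only [ap_mul, ap_inv, Equiv.Perm.mul_apply, ap_a, ap_a_inv, ap_b, ap_b_inv]
  simp
  ring

theorem exists_flip : ∃ π : Equiv.Perm Z, ∀ z, (π z).1 = 0 ↔ ¬ z.1 = 0 := by
  classical
  haveI : Infinite {z : Z // z.1 = 0} :=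
    Infinite.of_injective (fun n : ℕ => (⟨(0, n), rfl⟩ : {z : Z // z.1 = 0}))
      fun _ _ h => by simpa using h
  haveI : Infinite {z : Z // ¬ z.1 = 0} :=
    Infinite.of_injective (fun n : ℕ => (⟨(1, n), one_ne_zero⟩ : {z : Z // ¬ z.1 = 0}))
      fun _ _ h => by simpa using h
  obtain ⟨e⟩ : Nonempty ({z : Z // z.1 = 0} ≃ {z : Z // ¬ z.1 = 0}) := nonempty_equiv_of_countable
  refine ⟨(Equiv.sumCompl fun z : Z => z.1 = 0).symm.trans ((Equiv.sumCongr e e.symm).trans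
    ((Equiv.sumComm _ _).trans (Equiv.sumCompl fun z : Z => z.1 = 0))), fun z => ?_⟩
  by_cases hz : z.1 = 0
  · have := (e ⟨z, hz⟩).2
    simpa [Equiv.sumCompl_symm_apply_of_pos (p := fun z : Z => z.1 = 0) hz, hz] using this
  · have := (e.symm ⟨z, hz⟩).2
    simpa [Equiv.sumCompl_symm_apply_of_neg (p := fun z : Z => z.1 = 0) hz, hz] using this

def β₀ : Equiv.Perm Z := (Equiv.addRight (1 : ℤ)).prodCongr (Equiv.refl ℕ)

theorem β₀_symm (z : Z) : (β₀.symm z).1 = z.1 - 1 := by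
  simp [β₀, sub_eq_add_neg]

theorem hyp : ∀ U ∈ 𝓝 (1 : G), ∃ (n : ℕ) (s a₁ b₁ a₂ b₂ : G), s ^ n = sh 1 ∧
      s = (a₁ * b₁ * a₁⁻¹ * b₁⁻¹) * (a₂ * b₂ * a₂⁻¹ * b₂⁻¹) ∧
      a₁ ∈ U ∧ b₁ ∈ U ∧ a₂ ∈ U ∧ b₂ ∈ U ∧
      Commute s a₁ ∧ Commute s b₁ ∧ Commute s a₂ ∧ Commute s b₂ ∧
      Shrink U s b₁ ∧ Shrink U s b₂ := by
  intro U hU
  obtain ⟨N, hN⟩ := mem_nhds_one.1 hU
  obtain ⟨π, hπ⟩ := exists_flip
  let φ : Z → ℝ := fun z => if 0 ≤ z.1 then 1 / 2 ^ N else 0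
  have hφ : ∀ z, |φ z| ≤ 1 / 2 ^ N := fun z => by
    simp only [φ]
    split_ifs
    · rw [abs_of_nonneg (by positivity)]
    · simp
  have hd : ∀ z, φ z - φ (β₀.symm z) = if z.1 = 0 then 1 / 2 ^ N else 0 := fun z => by
    simp only [φ, β₀_symm]
    split_ifs <;> first | omega | simp
  refine ⟨2 ^ N, sh (1 / 2 ^ N), a N φ, b N β₀, a N (φ ∘ π), b N (π⁻¹ * β₀ * π), ?_, ?_,
    hN (a_mem N N φ hφ), hN (b_mem N _), hN (a_mem N N _ fun z => hφ _), hN (b_mem N _),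
    sh_a _ _ _, sh_b _ _ _, sh_a _ _ _, sh_b _ _ _, shrink N _ _ hN, shrink N _ _ hN⟩
  · rw [sh_pow]
    congr 1
    push_cast
    field_simp
  · refine G_ext fun p => ?_
    rw [ap_mul, Equiv.Perm.mul_apply, comm_ab, comm_ab, ap_sh]
    have e : π ((π⁻¹ * β₀ * π).symm (p.1 N)) = β₀.symm (π (p.1 N)) := by
      rw [← Equiv.Perm.inv_def, ← Equiv.Perm.inv_def]
      simp
    simp only [Function.comp, e, hd, hπ]
    split_ifs <;> simp

theorem main :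
    ¬ (∀ (G : Type) [Group G] [TopologicalSpace G] [IsTopologicalGroup G],
      ∃ (R : Type) (_ : Ring R) (_ : TopologicalSpace R),
        IsTopologicalRing R ∧ ∃ f : G →ₙ* R, Topology.IsEmbedding f) := by
  intro H
  obtain ⟨R, _, _, _, f, hf⟩ := H G
  have hB : B 1 ∈ 𝓝 (1 : G) := mem_nhds_one.2 ⟨1, subset_rfl⟩
  rw [hf.isInducing.nhds_eq_comap, mem_comap] at hB
  obtain ⟨O, hO, hOB⟩ := hB
  have hW : (fun x => x + f 1) ⁻¹' O ∈ 𝓝 (0 : R) :=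
    (continuous_add_const _).continuousAt.preimage_mem_nhds (by simpa using hO)
  have h1 := key f hf.continuous (sh 1) hyp _ hW
  have h2 : sh 1 ∈ B 1 := hOB (by simpa using h1)
  have h3 := (h2 (fun _ => (0, 0), 0)).2
  simp [ap_sh] at h3
  norm_num at h3

end Pool.Agent.H77.GrpInRing
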