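import Mathlib

/-! The trace norm and the Hlawka defects. -/

namespace H77.Hl

open Matrix
open scoped MatrixOrder ComplexOrder

variable {n : ℕ}

/-- The trace norm (Schatten `1`-norm) `tr |X|`, where `|X|` is the positive semidefinite square
root of `Xᴴ X`; it is the sum of the singular values of `X`. -/
noncomputable def tn (X : Matrix (Fin n) (Fin n) ℂ) : ℝ := (CFC.sqrt (Xᴴ * X)).trace.re

/-- `D₂(X, Y)` for the trace norm. -/
noncomputable def D2 (X Y : Matrix (Fin n) (Fin n) ℂ) : ℝ := tn X + tn Y - tn (X + Y)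

/-- `D₃(X, Y, Z)` for the trace norm. -/
noncomputable def D3 (X Y Z : Matrix (Fin n) (Fin n) ℂ) : ℝ :=
  tn X + tn Y + tn Z - tn (X + Y + Z)

end H77.Hl
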