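import Mathlib

set_option autoImplicit false

namespace Pool.Agent.H77.Incl

/-- Words: the free semigroup on the countably infinite alphabet `ℕ`. -/
abbrev Word := FreeSemigroup ℕ

/-- The semigroup `T` satisfies the identical inclusion `u ∈ V`: under every assignment of the
letters, the value of `u` equals the value of some word of `V`. -/
def Sat (T : Semigrp.{0}) (u : Word) (V : Set Word) : Prop :=
  ∀ φ : ℕ → T, ∃ v ∈ V, FreeSemigroup.lift φ u = FreeSemigroup.lift φ v

/-- A class of semigroups is an inclusive variety if it consists of all semigroups satisfying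
some set of identical inclusions. -/
def IsInclVariety (𝒱 : Set Semigrp.{0}) : Prop :=
  ∃ I : Set (Word × Set Word), 𝒱 = {T | ∀ p ∈ I, Sat T p.1 p.2}

/-- The inclusive variety generated by `S`. -/
def gen (S : Semigrp.{0}) : Set Semigrp.{0} :=
  {T | ∀ (u : Word) (V : Set Word), Sat S u V → Sat T u V}

end Pool.Agent.H77.Incl
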