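import Pool.Agent.H77.InclDefs

set_option autoImplicit false

namespace Pool.Agent.H77.Incl

inductive S6 | a | a2 | b | c | bc | z
  deriving DecidableEq, Fintype

def S6.mul : S6 → S6 → S6
  | .a, .a => .a2
  | .b, .c => .bc
  | _, _ => .z

instance : Mul S6 := ⟨S6.mul⟩
instance : Semigroup S6 where
  mul_assoc := by decide

lemma lift_long {T : Type} [Semigroup T] (o : T) (h : ∀ x y z : T, x * y * z = o) (φ : ℕ → T)
    (x y z : ℕ) (l : List ℕ) : FreeSemigroup.lift φ ⟨x, y :: z :: l⟩ = o := by
  change List.foldl (fun a b => a * φ b) (φ x * φ y * φ z) l = o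
  have ho : ∀ t, o * t = o := fun t => by
    conv_lhs => rw [← h t t t]
    exact h _ _ _
  rw [h]
  induction l with
  | nil => rfl
  | cons a l ih => simpa [List.foldl, ho] using ih

lemma lift_one {T : Type} [Semigroup T] (φ : ℕ → T) (x : ℕ) :
    FreeSemigroup.lift φ ⟨x, []⟩ = φ x := rfl

lemma lift_two {T : Type} [Semigroup T] (φ : ℕ → T) (x y : ℕ) :
    FreeSemigroup.lift φ ⟨x, [y]⟩ = φ x * φ y := rfl

lemma S6_nil : ∀ x y z : S6, x * y * z = .z := by decide

lemma mem_gen {T : Type} [Semigroup T] (o : T) (h : ∀ x y z : T, x * y * z = o) :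
    Semigrp.of T ∈ gen (Semigrp.of S6) := by
  intro u V hS φ
  change ℕ → T at φ
  change ∀ φ : ℕ → S6, ∃ v ∈ V, FreeSemigroup.lift φ u = FreeSemigroup.lift φ v at hS
  change ∃ v ∈ V, FreeSemigroup.lift φ u = FreeSemigroup.lift φ v
  obtain ⟨x, _ | ⟨y, _ | ⟨z, l⟩⟩⟩ := u
  · obtain ⟨v, hv, e⟩ := hS (fun i => if i = x then .a else .z)
    refine ⟨v, hv, ?_⟩
    obtain ⟨x', _ | ⟨y', _ | ⟨z', l'⟩⟩⟩ := v
    · rw [lift_one, lift_one] at e ⊢
      by_cases hx : x' = x
      · rw [hx]
      · simp [hx] at e
    · rw [lift_one, lift_two] at e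
      exfalso
      revert e
      split_ifs <;> first | decide | contradiction
    · rw [lift_one, lift_long _ S6_nil] at e
      simp at e
  · by_cases hxy : x = y
    · subst hxy
      obtain ⟨v, hv, e⟩ := hS (fun i => if i = x then .a else .z)
      refine ⟨v, hv, ?_⟩
      obtain ⟨x', _ | ⟨y', _ | ⟨z', l'⟩⟩⟩ := v
      · rw [lift_two, lift_one] at e
        exfalso
        revert e
        split_ifs <;> first | decide | contradiction
      · rw [lift_two, lift_two] at e ⊢
        by_cases hx : x' = x
        · by_cases hy : y' = x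
          · rw [hx, hy]
          · exfalso; revert e; simp only [hx, hy, if_true, if_false]; decide
        · exfalso; revert e; simp only [hx, if_true, if_false]; split_ifs <;> decide
      · rw [lift_two, lift_long _ S6_nil] at e
        exfalso; revert e; simp only [if_true]; decide
    · obtain ⟨v, hv, e⟩ := hS (fun i => if i = x then .b else if i = y then .c else .z)
      have hyx : ¬ y = x := fun e => hxy e.symm
      refine ⟨v, hv, ?_⟩
      obtain ⟨x', _ | ⟨y', _ | ⟨z', l'⟩⟩⟩ := v
      · rw [lift_two, lift_one] at e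
        exfalso; revert e; simp only [hyx, if_true, if_false]; split_ifs <;> decide
      · rw [lift_two, lift_two] at e ⊢
        by_cases hx : x' = x
        · by_cases hy : y' = y
          · rw [hx, hy]
          · exfalso; revert e; simp only [hx, hy, hyx, if_true, if_false]; split_ifs <;> decide
        · exfalso; revert e; simp only [hx, hyx, if_true, if_false]; split_ifs <;> decide
      · rw [lift_two, lift_long _ S6_nil] at e
        exfalso; revert e; simp only [hyx, if_true, if_false]; decide
  · obtain ⟨v, hv, e⟩ := hS (fun _ => .a)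
    refine ⟨v, hv, ?_⟩
    rw [lift_long _ S6_nil] at e
    obtain ⟨x', _ | ⟨y', _ | ⟨z', l'⟩⟩⟩ := v
    · rw [lift_one] at e; cases e
    · rw [lift_two] at e; cases e
    · rw [lift_long o h, lift_long o h]

inductive M (n : ℕ) | v (i : Fin n) | p | z
  deriving DecidableEq

def M.mul {n : ℕ} : M n → M n → M n
  | .v i, .v j => if i = j then .z else .p
  | _, _ => .z

instance (n : ℕ) : Mul (M n) := ⟨M.mul⟩

lemma M_nil (n : ℕ) (x y z : M n) : x * y * z = .z := by
  change M.mul (M.mul x y) z = .z
  cases x <;> cases y <;> simp only [M.mul]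
  split_ifs <;> rfl

lemma M_nil' (n : ℕ) (x y z : M n) : x * (y * z) = .z := by
  change M.mul x (M.mul y z) = .z
  cases y <;> cases z <;> cases x <;> simp only [M.mul] <;> split_ifs <;> rfl

instance (n : ℕ) : Semigroup (M n) where
  mul_assoc x y z := by rw [M_nil, M_nil']

def pairs (m : ℕ) : Set Word := {w | ∃ i j, i < j ∧ j ≤ m ∧ w = ⟨i, [j]⟩}

lemma sat_iff (n m : ℕ) (hm : 0 < m) : Sat (Semigrp.of (M n)) ⟨0, [0, 0]⟩ (pairs m) ↔ n ≤ m := by
  change (∀ φ : ℕ → M n, ∃ v ∈ pairs m,
    FreeSemigroup.lift φ ⟨0, [0, 0]⟩ = FreeSemigroup.lift φ v) ↔ _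
  constructor
  · intro h
    by_contra hlt
    push Not at hlt
    obtain ⟨_, ⟨i, j, hij, hj, rfl⟩, e⟩ := h (fun i => if h : i < n then .v ⟨i, h⟩ else .z)
    rw [lift_long _ (M_nil n), lift_two, dif_pos (by omega : i < n), dif_pos (by omega : j < n)]
      at e
    change _ = M.mul _ _ at e
    simp only [M.mul, Fin.mk.injEq] at e
    rw [if_neg (by omega)] at e
    cases e
  · intro h φ
    by_contra hc
    push Not at hc
    have key : ∀ i j, i < j → j ≤ m → φ i * φ j ≠ .z := by
      intro i j hij hj e
      apply hc _ ⟨i, j, hij, hj, rfl⟩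
      rw [lift_long _ (M_nil n), lift_two, e]
    have hv : ∀ i : Fin (m + 1), ∃ k, φ i = .v k := by
      intro i
      rcases Nat.eq_zero_or_pos i with h0 | h0
      · have := key i m (by omega) le_rfl
        revert this
        cases φ i with
        | v k => exact fun _ => ⟨k, rfl⟩
        | p => exact fun h => absurd rfl h
        | z => exact fun h => absurd rfl h
      · have := key 0 i h0 (by omega)
        revert this
        cases φ i with
        | v k => exact fun _ => ⟨k, rfl⟩
        | p => cases φ 0 <;> exact fun h => absurd rfl h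
        | z => cases φ 0 <;> exact fun h => absurd rfl h
    choose f hf using hv
    have : Function.Injective f := by
      intro i j e
      by_contra hne
      rcases lt_or_gt_of_ne hne with h | h
      · apply key i j h (by omega)
        rw [hf, hf, e]
        change M.mul _ _ = _
        simp [M.mul]
      · apply key j i h (by omega)
        rw [hf, hf, e]
        change M.mul _ _ = _
        simp [M.mul]
    have := Fintype.card_le_of_injective f this
    simp at this
    omega

def chain (m : ℕ) : Set Semigrp.{0} :=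
  {T | T ∈ gen (Semigrp.of S6) ∧ Sat T ⟨0, [0, 0]⟩ (pairs (m + 1))}

lemma chain_var (m : ℕ) : IsInclVariety (chain m) := by
  refine ⟨insert (⟨0, [0, 0]⟩, pairs (m + 1)) {p | Sat (Semigrp.of S6) p.1 p.2}, ?_⟩
  ext T
  simp only [chain, gen, Set.mem_setOf_eq, Set.mem_insert_iff, forall_eq_or_imp, Prod.forall]
  exact and_comm

lemma mem_chain (n m : ℕ) : Semigrp.of (M n) ∈ chain m ↔ n ≤ m + 1 := by
  rw [← sat_iff n (m + 1) (by omega)]
  exact ⟨fun h => h.2, fun h => ⟨mem_gen _ (M_nil n), h⟩⟩

lemma chain_inj : Function.Injective chain := by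
  intro n m e
  have h1 := (mem_chain (n + 1) m).1 (e ▸ (mem_chain (n + 1) n).2 le_rfl)
  have h2 := (mem_chain (m + 1) n).1 (e ▸ (mem_chain (m + 1) m).2 le_rfl)
  omega

theorem main : ∃ S : Semigrp.{0}, Finite S ∧
    {𝒱 : Set Semigrp.{0} | IsInclVariety 𝒱 ∧ 𝒱 ⊆ gen S}.Infinite :=
  ⟨Semigrp.of S6, inferInstanceAs (Finite S6),
    Set.infinite_of_injective_forall_mem chain_inj (fun m => ⟨chain_var m, fun _ h => h.1⟩)⟩

end Pool.Agent.H77.Incl
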