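import Mathlib

/-! Interval splitting strategies, recorded by their cut points. -/

namespace H77.Is

/-- The endpoints of the intervals of `I_t`: `0`, `1` and the first `t - 1` cut points. -/
noncomputable def ends (c : ℕ → ℝ) (t : ℕ) : Finset ℝ :=
  insert 0 (insert 1 ((Finset.range (t - 1)).image c))

/-- The lengths of the intervals of `I_t` (differences of consecutive endpoints). -/
def lengths (c : ℕ → ℝ) (t : ℕ) : Set ℝ :=
  {l | ∃ a ∈ ends c t, ∃ b ∈ ends c t, a < b ∧ (∀ x ∈ ends c t, x ≤ a ∨ b ≤ x) ∧ l = b - a}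

/-- `c 0, …, c (n - 2)` are the cut points of a strategy of length `n`. -/
def IsStrategy (c : ℕ → ℝ) (n : ℕ) : Prop :=
  (∀ i < n - 1, c i ∈ Set.Ioo (0 : ℝ) 1) ∧ Set.InjOn c {i | i < n - 1}

end H77.Is
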