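import Mathlib

/-! Points, spatial lattices and minimal join-covers. -/

namespace H77.Jc

variable {L : Type*} [CompleteLattice L]

/-- `p` is a point (completely join-irreducible): `{x | x < p}` has a largest element. -/
def IsPoint (p : L) : Prop := ∃ c, IsGreatest {x | x < p} c

/-- Every element is a join of points. -/
def Spatial (L : Type*) [CompleteLattice L] : Prop :=
  ∀ a : L, ∃ S : Set L, (∀ x ∈ S, IsPoint x) ∧ sSup S = a

/-- `X` refines `Y`. -/
def Refines (X Y : Finset L) : Prop := ∀ x ∈ X, ∃ y ∈ Y, x ≤ y

/-- `E` is a join-cover of `p`. -/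
def JoinCover (p : L) (E : Finset L) : Prop := p ≤ E.sup id

/-- `E` is a minimal join-cover of `p`. -/
def MinimalJoinCover (p : L) (E : Finset L) : Prop :=
  JoinCover p E ∧ ∀ X : Finset L, JoinCover p X → Refines X E → E ⊆ X

end H77.Jc
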