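import Mathlib

set_option autoImplicit false

namespace Pool.Agent.H77.Kt

open Finset RealInnerProductSpace

variable {V : Type} [NormedAddCommGroup V] [InnerProductSpace ℝ V]

def Pr (P : V →L[ℝ] V) : Prop := (∀ v, P (P v) = P v) ∧ ∀ v w, ⟪P v, w⟫ = ⟪v, P w⟫

theorem Pr.sq {P : V →L[ℝ] V} (h : Pr P) (v : V) : ⟪P v, v⟫ = ‖P v‖ ^ 2 := by
  rw [← real_inner_self_eq_norm_sq, h.2 v (P v), h.1, h.2]

theorem Pr.compl {P : V →L[ℝ] V} (h : Pr P) : Pr (1 - P) :=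
  ⟨fun v => by simp [h.1], fun v w => by simp [inner_sub_left, inner_sub_right, h.2]⟩

theorem amgm (x y : V) : 2 * ⟪x, y⟫ ≤ ‖x‖ ^ 2 + ‖y‖ ^ 2 := by
  nlinarith [norm_sub_sq_real x y, sq_nonneg ‖x - y‖]

theorem amgm' (x y : V) (c : ℝ) : 2 * c * ⟪x, y⟫ ≤ ‖x‖ ^ 2 + c ^ 2 * ‖y‖ ^ 2 := by
  have := amgm x (c • y)
  rwa [inner_smul_right, norm_smul, mul_pow, Real.norm_eq_abs, sq_abs, ← mul_assoc] at this

theorem pair {P Q R : V →L[ℝ] V} (hP : Pr P) (hQ : Pr Q) (hR : Pr R) (h1 : ∀ v, P (R v) = R v)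
    (h2 : ∀ v, Q (R v) = R v)
    (h : ∀ x y, P x = x → Q y = y → R x = 0 → 5 * ⟪x, y⟫ ≤ ‖x‖ ^ 2 + ‖y‖ ^ 2) (v : V) :
    0 ≤ 5 * ⟪v - P v, v - Q v⟫ + ‖v - P v‖ ^ 2 + ‖v - Q v‖ ^ 2 ∧ (P v = v → Q v = v → R v = v) := by
  obtain ⟨x, hx⟩ : ∃ x, x = v - R v := ⟨_, rfl⟩
  have a : R (P x) = 0 := ext_inner_right ℝ fun w => by
    rw [hR.2, hP.2, h1, ← hR.2, hx, map_sub, hR.1, sub_self, inner_zero_left]
  have b := h _ _ (hP.1 x) (hQ.1 x) a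
  have c := amgm' (P x + Q x) x (7 / 5)
  have d := amgm' ((1 - P) x + (1 - Q) x) x (3 / 5)
  rw [inner_add_left, hP.sq, hQ.sq, norm_add_sq_real] at c
  rw [inner_add_left, hP.compl.sq, hQ.compl.sq, norm_add_sq_real] at d
  have e : ∀ {P : V →L[ℝ] V}, Pr P → ‖(1 - P) x‖ ^ 2 = ‖x‖ ^ 2 - ‖P x‖ ^ 2 := fun h => by
    rw [← h.compl.sq, ← h.sq]; simp [inner_sub_left]
  have e1 := e hP
  have e2 := e hQ
  have f : ∀ {P : V →L[ℝ] V}, (∀ v, P (R v) = R v) → (1 - P) x = v - P v := fun h => by simp [hx, h]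
  rw [f h1] at d e1
  rw [f h2] at d e2
  refine ⟨by linarith, fun k1 k2 => ?_⟩
  rw [k1, sub_self, norm_zero] at e1
  rw [k2, sub_self, norm_zero] at e2
  have : ‖x‖ ^ 2 = 0 := by nlinarith [sq_nonneg ‖x‖]
  exact (sub_eq_zero.1 (hx ▸ norm_eq_zero.1 (pow_eq_zero_iff two_ne_zero |>.1 this))).symm

theorem three [CompleteSpace V] (Q : Fin 3 → V →L[ℝ] V) (hQ : ∀ k, Pr (Q k))
    (h : ∀ k v, 0 ≤ 5 * ⟪Q k v, Q (k + 1) v⟫ + ‖Q k v‖ ^ 2 + ‖Q (k + 1) v‖ ^ 2)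
    (h0 : ∀ v, (∀ k, Q k v = 0) → v = 0) (v : V) : ‖v‖ ^ 2 ≤ 5 * ∑ k, ‖Q k v‖ ^ 2 := by
  have s : ∀ v, ⟪(∑ k, Q k) v, v⟫ = ∑ k, ‖Q k v‖ ^ 2 := fun v => by
    simp [sum_inner, (hQ _).sq]
  have t : ∀ v w, ⟪(∑ k, Q k) v, w⟫ = ∑ k, ⟪Q k v, Q k w⟫ := fun v w => by
    simp [sum_inner, ← (hQ _).2, (hQ _).1]
  have d : (∑ k, Q k).range.topologicalClosure = ⊤ := by
    rw [Submodule.topologicalClosure_eq_top_iff, eq_bot_iff]
    intro v hv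
    have := (s v).symm.trans (hv _ ⟨v, rfl⟩)
    exact h0 v fun k => by simpa using (sum_eq_zero_iff_of_nonneg fun _ _ => by positivity).1 this k (mem_univ k)
  refine closure_minimal (s := (∑ k, Q k).range) (t := {v | ‖v‖ ^ 2 ≤ 5 * ∑ k, ‖Q k v‖ ^ 2}) ?_
    (isClosed_le (by fun_prop) (by fun_prop)) (d.ge Submodule.mem_top)
  rintro x ⟨w, e⟩
  have e : (∑ k, Q k) w = x := e
  have a : ‖x‖ ^ 2 = ∑ k, ⟪Q k w, Q k x⟫ := by rw [← t, e, real_inner_self_eq_norm_sq]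
  have b : ∑ k, ‖Q k w‖ ^ 2 ≤ 5 * ‖x‖ ^ 2 := by
    have h1 := h 0 w
    have h2 := h 1 w
    have h3 := h 2 w
    simp only [← e, Fin.sum_univ_three, ContinuousLinearMap.add_apply, norm_add_sq_real, inner_add_left]
    rw [real_inner_comm] at h3
    simp only [Fin.reduceAdd, zero_add] at h1 h2 h3
    linarith
  have c := fun k => amgm' (Q k x) (Q k w) (1 / 5)
  have c0 := c 0
  have c1 := c 1
  have c2 := c 2
  simp only [Fin.sum_univ_three, real_inner_comm (Q _ x), Set.mem_setOf] at *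
  linarith

variable {K : Type} [Group K] [Fintype K] (π : K →* V →L[ℝ] V)

noncomputable def avg : V →L[ℝ] V := (Fintype.card K : ℝ)⁻¹ • ∑ g, π g

theorem avg_fix (g : K) (v : V) : π g (avg π v) = avg π v := by
  simp only [avg, ContinuousLinearMap.smul_apply, ContinuousLinearMap.sum_apply, map_smul, map_sum]
  congr 1
  exact Fintype.sum_equiv (Equiv.mulLeft g) _ _ fun x => by simp

theorem avg_of_fix {v : V} (h : ∀ g, π g v = v) : avg π v = v := by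
  simp [avg, h, ← Nat.cast_smul_eq_nsmul ℝ, smul_smul]

theorem avg_pr (h : ∀ g v w, ⟪π g v, π g w⟫ = ⟪v, w⟫) : Pr (avg π) := by
  refine ⟨fun v => avg_of_fix π fun g => avg_fix π g v, fun v w => ?_⟩
  simp only [avg, ContinuousLinearMap.smul_apply, ContinuousLinearMap.sum_apply, inner_smul_left,
    inner_smul_right, sum_inner, inner_sum, conj_trivial]
  congr 1
  refine Fintype.sum_equiv (Equiv.inv K) _ _ fun x => ?_
  rw [← h x⁻¹, ← ContinuousLinearMap.mul_apply, ← map_mul]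
  simp

theorem avg_near {v : V} {ε : ℝ} (h : ∀ g, ‖π g v - v‖ ≤ ε) : ‖v - avg π v‖ ≤ ε := by
  have p : (0 : ℝ) < Fintype.card K := by positivity
  have : v - avg π v = (Fintype.card K : ℝ)⁻¹ • ∑ g, -(π g v - v) := by
    simp [avg, smul_sub, ← Nat.cast_smul_eq_nsmul ℝ, smul_smul]
  rw [this, norm_smul, norm_inv, Real.norm_natCast, inv_mul_le_iff₀ p]
  refine (norm_sum_le _ _).trans ?_
  simpa using sum_le_card_nsmul univ (fun g => ‖-(π g v - v)‖) ε fun g _ => by rw [norm_neg]; exact h g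

end Pool.Agent.H77.Kt
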