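import Pool.Agent.H77.KtA

set_option autoImplicit false

namespace Pool.Agent.H77.Kt

open Finset RealInnerProductSpace Matrix MulAction

instance : Fact (Nat.Prime 37) := ⟨by norm_num⟩

abbrev F := ZMod 37

def H : Subgroup (SpecialLinearGroup (Fin 3) F) where
  carrier := {g | g.1ᵀ * g.1 = 1}
  one_mem' := by simp
  mul_mem' := fun {a b} (h : _ = _) (k : _ = _) => by
    change (a.1 * b.1)ᵀ * (a.1 * b.1) = 1
    rw [transpose_mul, mul_assoc, ← mul_assoc _ a.1, h, one_mul, k]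
  inv_mem' := fun {a} (h : _ = _) => by
    have e : a.1 * a⁻¹.1 = 1 := congrArg Subtype.val (mul_inv_cancel a)
    have : a⁻¹.1 = a.1ᵀ := by rw [← one_mul a⁻¹.1, ← h, mul_assoc, e, mul_one]
    change a⁻¹.1ᵀ * a⁻¹.1 = 1
    rw [this, transpose_transpose, mul_eq_one_comm.1 h]

noncomputable instance : Fintype H := .ofFinite _

def e (i : Fin 3) : Fin 3 → F := Pi.single i 1

abbrev A (i : Fin 3) : Subgroup H := stabilizer H (e i)

noncomputable instance (i : Fin 3) : Fintype (A i) := .ofFinite _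

theorem sm (g : H) (x : Fin 3 → F) : g • x = g.1.1 *ᵥ x := rfl

theorem col (g : H) (i a : Fin 3) : (g • e i) a = g.1.1 a i := by simp [sm, e]

theorem dot (g : H) (x y : Fin 3 → F) : (g • x) ⬝ᵥ (g • y) = x ⬝ᵥ y := by
  rw [sm, sm, dotProduct_mulVec, ← vecMul_transpose, vecMul_vecMul, show _ = _ from g.2, vecMul_one]

theorem ee (i j : Fin 3) : e i ⬝ᵥ e j = if i = j then 1 else 0 := by simp [e, Pi.single_apply, eq_comm]

theorem unit (g : H) (i : Fin 3) : (g • e i) ⬝ᵥ (g • e i) = 1 := by simp [dot, ee]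

theorem frame (i : Fin 3) {x y : Fin 3 → F} (h1 : x ⬝ᵥ x = 1) (h2 : y ⬝ᵥ y = 1) (h3 : x ⬝ᵥ y = 0) :
    ∃ g : H, g • e i = x ∧ g • e (i + 1) = y := by
  have h4 := dotProduct_comm x y ▸ h3
  have z : (x ⨯₃ y) ⬝ᵥ (x ⨯₃ y) = 1 := by simp [cross_dot_cross, *]
  refine ⟨⟨⟨(of fun b => ![x, y, x ⨯₃ y] (b - i))ᵀ, ?_⟩, ?_⟩, funext fun a => by simp [col],
    funext fun a => by simp [col]⟩
  · rw [det_transpose, ← z]
    fin_cases i <;> simp [det_fin_three, cross_apply, Fin.sub_def] <;> ring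
  · have : ∀ a b, ![x, y, x ⨯₃ y] a ⬝ᵥ ![x, y, x ⨯₃ y] b = if a = b then 1 else 0 := fun a b => by
      fin_cases a <;> fin_cases b <;> simp [*, dotProduct_comm (x ⨯₃ y)]
    ext a b
    simpa [mul_apply, one_apply, dotProduct] using this (a - i) (b - i)

theorem triv (i : Fin 3) {g : H} (h1 : g ∈ A i) (h2 : g ∈ A (i + 1)) : g = 1 := by
  have a := fun j => (col g i j).symm.trans (congrFun h1 j)
  have b := fun j => (col g _ j).symm.trans (congrFun h2 j)
  have c := dot g (e i) (e (i + 2))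
  have d := dot g (e (i + 1)) (e (i + 2))
  rw [h1] at c
  rw [h2] at d
  have f := (det_fin_three _).symm.trans g.1.2
  ext j k
  fin_cases i <;> simp [e, col, sm, *] at c d f <;> fin_cases j <;> fin_cases k <;>
    simp_all [e]

theorem fib (i : Fin 3) (x : Fin 3 → F) : #{g : H | g • e i = x} ≤ Fintype.card (A i) := by
  rcases (filter (fun g : H => g • e i = x) univ).eq_empty_or_nonempty with h | ⟨k, h⟩
  · simp [h]
  · rw [← card_attach]
    refine card_le_card_of_injOn (t := univ) (fun g => ⟨k⁻¹ * g.1, ?_⟩) (by simp) fun a _ b _ h => ?_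
    · rw [mem_stabilizer_iff, mul_smul, (mem_filter.1 g.2).2, ← (mem_filter.1 h).2, inv_smul_smul]
    · exact Subtype.ext (by simpa using h)

theorem dep (i : Fin 3) (x : Fin 3 → F) :
    #{g : H | g • e i = x ∨ g • e i = -x} ≤ 2 * Fintype.card (A i) := by
  rw [filter_or]
  exact (card_union_le _ _).trans (by linarith [fib i x, fib i (-x)])

theorem cardA (i : Fin 3) : 36 ≤ Fintype.card (A i) := by
  have : #{p : F × F | p.1 ^ 2 + p.2 ^ 2 = 1} = 36 := by decide +kernel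
  refine this ▸ card_le_card_of_surjOn
    (fun g : A i => ((g.1 • e (i + 1)) (i + 1), (g.1 • e (i + 1)) (i + 2))) fun p hp => ?_
  have hp : p.1 ^ 2 + p.2 ^ 2 = 1 := by simpa using hp
  obtain ⟨g, h1, h2⟩ := frame i (x := e i) (y := p.1 • e (i + 1) + p.2 • e (i + 2)) (by simp [ee])
    (by fin_cases i <;> simpa [ee, sq] using hp) (by fin_cases i <;> simp [ee])
  exact ⟨⟨g, h1⟩, by simp, by simp only [h2]; fin_cases i <;> simp [e]⟩

theorem low (i : Fin 3) (k : H) : Fintype.card (A i) * Fintype.card (A (i + 1)) ≤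
    #{g : H | (g • e i) ⬝ᵥ (k • e (i + 1)) = 0} := by
  rw [← Fintype.card_prod]
  refine card_le_card_of_injOn (fun p => k * (p.2.1 * p.1.1)) (fun p _ => ?_) fun p _ q _ h => ?_
  · have : (p.2.1 • e i) ⬝ᵥ (p.2.1 • e (i + 1)) = 0 := by rw [dot, ee]; fin_cases i <;> simp
    rw [p.2.2] at this
    simpa [mul_smul, dot, show _ = _ from p.1.2] using this
  · have h : p.2.1 * p.1.1 = q.2.1 * q.1.1 := mul_left_cancel h
    have : q.2.1⁻¹ * p.2.1 = 1 := triv i (by
      rw [show q.2.1⁻¹ * p.2.1 = q.1.1 * p.1.1⁻¹ by rw [inv_mul_eq_iff_eq_mul, ← mul_assoc, ← h]; simp]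
      exact mul_mem q.1.2 (inv_mem p.1.2)) (mul_mem (inv_mem q.2.2) p.2.2)
    rw [inv_mul_eq_one] at this
    exact Prod.ext (Subtype.ext (mul_left_cancel (this ▸ h))) (Subtype.ext this.symm)

theorem cker {B : Type} [AddCommGroup B] [Module F B] [DecidableEq B] (f : (Fin 3 → F) →ₗ[F] B)
    (h : f.range = ⊤) : #{y | f y = 0} * Nat.card B = 37 ^ 3 := by
  have := f.toAddMonoidHom.ker.card_mul_index
  rw [AddSubgroup.index_ker, AddMonoidHom.range_eq_top.2 (LinearMap.range_eq_top.1 h)] at this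
  simpa [Fintype.card_subtype] using this

theorem cnt {x z : Fin 3 → F} (h1 : x ⬝ᵥ x = 1) (h2 : z ⬝ᵥ z = 1) :
    #{y | x ⬝ᵥ y = 0 ∧ z ⬝ᵥ y = 0} = 37 + if z = x ∨ z = -x then 1332 else 0 := by
  split_ifs with h
  · have := cker (dotProductBilin F F x) (LinearMap.range_eq_top.2 fun c => ⟨c • x, by simp [h1]⟩)
    simp only [dotProductBilin_apply_apply, Nat.card_zmod] at this
    rcases h with rfl | rfl <;> simp <;> omega
  · have := cker ((dotProductBilin F F x).prod (dotProductBilin F F z)) (by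
      by_contra c
      obtain ⟨φ, c1, c2⟩ := Submodule.exists_le_ker_of_lt_top _ (lt_top_iff_ne_top.2 c)
      have a : ∀ s t, φ (s, t) = s * φ (1, 0) + t * φ (0, 1) := fun s t => by
        rw [← smul_eq_mul, ← smul_eq_mul, ← map_smul, ← map_smul, ← map_add]; simp
      have b : φ (1, 0) • x + φ (0, 1) • z = 0 := funext fun j => by
        simpa [a (x j), mul_comm] using c2 ⟨Pi.single j 1, rfl⟩
      by_cases d : φ (0, 1) = 0
      · refine c1 (LinearMap.ext fun p => ?_)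
        have : φ (1, 0) = 0 := by simpa [d, h1] using congrArg (· ⬝ᵥ x) b
        rw [a p.1 p.2, this, d]; simp
      · obtain rfl : z = (-φ (1, 0) / φ (0, 1)) • x := by
          rw [div_eq_inv_mul, mul_smul, neg_smul, eq_inv_smul_iff₀ d, eq_neg_iff_add_eq_zero, add_comm, b]
        generalize -φ (1, 0) / φ (0, 1) = r at h h2
        rcases mul_self_eq_one_iff.1 (show r * r = 1 by simpa [h1] using h2) with rfl | rfl <;> simp at h)
    simp only [LinearMap.prod_apply, Function.prod, Pi.prod, dotProductBilin_apply_apply, Prod.mk_eq_zero,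
      Nat.card_prod, Nat.card_zmod] at this
    omega

variable {V : Type} [NormedAddCommGroup V] [InnerProductSpace ℝ V] (π : H →* V →L[ℝ] V)

theorem angle (h : ∀ g v w, ⟪π g v, π g w⟫ = ⟪v, w⟫) (i : Fin 3) {v w : V}
    (hv : ∀ g ∈ A i, π g v = v) (hw : ∀ g ∈ A (i + 1), π g w = w) (h0 : ∑ g, π g v = 0) :
    5 * ⟪v, w⟫ ≤ ‖v‖ ^ 2 + ‖w‖ ^ 2 := by
  rcases le_total ⟪v, w⟫ 0 with n | n
  · nlinarith [sq_nonneg ‖v‖, sq_nonneg ‖w‖]
  have nr : ∀ g v, ‖π g v‖ ^ 2 = ‖v‖ ^ 2 := fun g v => by simp only [← real_inner_self_eq_norm_sq, h]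
  let Φ : (Fin 3 → F) → V := fun y => ∑ g with (g • e i) ⬝ᵥ y = 0, π g v
  obtain ⟨a, ha⟩ : ∃ a : ℝ, a = Fintype.card (A i) := ⟨_, rfl⟩
  obtain ⟨b, hb⟩ : ∃ a : ℝ, a = Fintype.card (A (i + 1)) := ⟨_, rfl⟩
  obtain ⟨N, hN⟩ : ∃ a : ℝ, a = Fintype.card H := ⟨_, rfl⟩
  have s1 : ∑ y, ‖Φ y‖ ^ 2 ≤ 1332 * (N * (2 * a * ‖v‖ ^ 2)) := by
    have : ∑ y, ‖Φ y‖ ^ 2 = ∑ g, ∑ k, (#{y | (g • e i) ⬝ᵥ y = 0 ∧ (k • e i) ⬝ᵥ y = 0} : ℝ) *
        ⟪π g v, π k v⟫ := by
      simp only [Φ, ← real_inner_self_eq_norm_sq, sum_inner, inner_sum, sum_filter, card_filter,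
        Nat.cast_sum, sum_mul]
      rw [sum_comm]
      refine sum_congr rfl fun g _ => ?_
      rw [sum_comm]
      refine sum_congr rfl fun k _ => sum_congr rfl fun y _ => ?_
      split_ifs with c <;> simp_all [real_inner_comm]
    simp only [this, cnt (unit _ i) (unit _ i), Nat.cast_add, add_mul, sum_add_distrib, ← mul_sum,
      ← inner_sum, h0, inner_zero_right, sum_const_zero, mul_zero, zero_add]
    rw [hN, ← nsmul_eq_mul, ← card_univ, ← sum_const, mul_sum]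
    refine sum_le_sum fun g _ => ?_
    have := sum_le_card_nsmul {k : H | k • e i = g • e i ∨ k • e i = -(g • e i)}
      (fun k => ⟪π g v, π k v⟫) (‖v‖ ^ 2) fun k _ => by linarith [amgm (π g v) (π k v), nr g v, nr k v]
    have d : (#{k : H | k • e i = g • e i ∨ k • e i = -(g • e i)} : ℝ) ≤ 2 * a := by
      rw [ha]; exact_mod_cast dep i _
    rw [nsmul_eq_mul] at this
    simp only [Nat.cast_ite, ite_mul, Nat.cast_zero, zero_mul, Nat.cast_ofNat, ← sum_filter, ← mul_sum]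
    nlinarith [sq_nonneg ‖v‖]
  have s2 : 36 * ∑ k : H, ‖Φ (k • e (i + 1))‖ ^ 2 ≤ 2 * b * ∑ y, ‖Φ y‖ ^ 2 := by
    have : ∑ p : Fˣ × H, ‖Φ (p.1.1 • p.2 • e (i + 1))‖ ^ 2 = 36 * ∑ k : H, ‖Φ (k • e (i + 1))‖ ^ 2 := by
      simp [Φ, Fintype.sum_prod_type, Nat.totient_prime (Fact.out : Nat.Prime 37)]
    rw [← this, ← sum_fiberwise (g := fun p : Fˣ × H => p.1.1 • p.2 • e (i + 1)), mul_sum]
    refine sum_le_sum fun y _ => ?_
    rw [sum_congr rfl fun p hp => by rw [(mem_filter.1 hp).2], sum_const, nsmul_eq_mul]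
    refine mul_le_mul_of_nonneg_right ?_ (by positivity)
    rcases (filter (fun p : Fˣ × H => p.1.1 • p.2 • e (i + 1) = y) univ).eq_empty_or_nonempty with
      c | ⟨q, c⟩
    · rw [c, hb]; simp
    have u : ∀ p : Fˣ × H, p.1.1 • p.2 • e (i + 1) = y → p.1.1 * p.1.1 = y ⬝ᵥ y := by
      rintro p rfl
      simp [unit]
    rw [hb]
    have := (card_le_card_of_injOn (s := {p : Fˣ × H | p.1.1 • p.2 • e (i + 1) = y}) Prod.snd
      (fun p hp => ?_) fun p hp r hr c => ?_).trans (dep (i + 1) (q.2 • e (i + 1)))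
    · exact_mod_cast this
    · have hp := (mem_filter.1 hp).2
      have c := (mem_filter.1 c).2
      refine mem_filter.2 ⟨mem_univ _, (mul_self_eq_mul_self_iff.1 ((u p hp).trans (u q c).symm)).imp
        (fun k => ?_) fun k => ?_⟩ <;> refine smul_right_injective _ p.1.ne_zero ?_ <;>
        simp only [hp] <;> simp [k, c]
    · have := congrArg (· ⬝ᵥ (r.2 • e (i + 1))) ((mem_filter.1 hp).2.trans (mem_filter.1 hr).2.symm)
      exact Prod.ext (Units.ext (by simpa [c, unit] using this)) c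
  have s3 : ∀ k : H, 740 * (a * b * ⟪v, w⟫) ≤ ‖Φ (k • e (i + 1))‖ ^ 2 + 370 ^ 2 * ‖w‖ ^ 2 := fun k => by
    have := amgm' (Φ (k • e (i + 1))) (π k w) 370
    rw [nr, sum_inner, sum_congr rfl fun g hg => show _ = ⟪v, w⟫ from ?_, sum_const, nsmul_eq_mul] at this
    · have l : a * b ≤ #{g : H | (g • e i) ⬝ᵥ (k • e (i + 1)) = 0} := by
        rw [ha, hb]; exact_mod_cast low i k
      nlinarith
    obtain ⟨r, r1, r2⟩ := frame i (unit g i) (unit k _) (mem_filter.1 hg).2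
    rw [← h r⁻¹, ← ContinuousLinearMap.mul_apply, ← ContinuousLinearMap.mul_apply, ← map_mul, ← map_mul,
      hv _ (by rw [mem_stabilizer_iff, mul_smul, ← r1, inv_smul_smul]),
      hw _ (by rw [mem_stabilizer_iff, mul_smul, ← r2, inv_smul_smul])]
  have s4 := sum_le_sum fun k (_ : k ∈ univ) => s3 k
  simp only [sum_add_distrib, sum_const, card_univ, nsmul_eq_mul, ← hN] at s4
  have a1 : 36 ≤ a := by rw [ha]; exact_mod_cast cardA i
  have b1 : 36 ≤ b := by rw [hb]; exact_mod_cast cardA _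
  have N1 : 0 < N := by rw [hN]; positivity
  have := mul_le_mul_of_nonneg_left s1 (show 0 ≤ 2 * b by positivity)
  have ab : 36 * 36 ≤ a * b := by gcongr
  refine le_of_mul_le_mul_left ?_ (show 0 < N * (a * b) by positivity)
  nlinarith [mul_le_mul_of_nonneg_left ab (show 0 ≤ N * ‖w‖ ^ 2 by positivity)]

theorem kazh [CompleteSpace V] {G : Type} [Group G] (j : Fin 3 → H →* G)
    (h1 : ∀ k, ∀ g ∈ A k, j k g = j (k + 1) g) (h2 : ⨆ k, (j k).range = ⊤) (ρ : G →* V →L[ℝ] V)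
    (h : ∀ g v w, ⟪ρ g v, ρ g w⟫ = ⟪v, w⟫) (v : V) (hv : ‖v‖ = 1)
    (k : ∀ k g, ‖ρ (j k g) v - v‖ < 1 / 4) : ∃ v : V, v ≠ 0 ∧ ∀ g : G, ρ g v = v := by
  by_contra! c
  let P := fun k => avg (ρ.comp ((j k).comp (A k).subtype))
  have p : ∀ k, Pr (P k) := fun k => avg_pr _ fun g => h _
  have f : ∀ k v, P k v = v → ∀ g ∈ A k, ρ (j k g) v = v := fun k v e g hg => by
    rw [← e]; exact avg_fix (ρ.comp ((j k).comp (A k).subtype)) ⟨g, hg⟩ v
  have q := fun k => pair (p k) (p (k + 1)) (avg_pr (ρ.comp (j (k + 1))) fun g => h _)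
    (fun v => avg_of_fix _ fun g => by
      change ρ (j k g) _ = _
      rw [h1 k g g.2]; exact avg_fix (ρ.comp (j (k + 1))) _ v)
    (fun v => avg_of_fix _ fun g => avg_fix (ρ.comp (j (k + 1))) _ v) fun x y a b e =>
    angle (ρ.comp (j (k + 1))) (fun g => h _) k (fun g hg => (h1 k g hg ▸ f k x a g hg :)) (f _ y b)
      (by simpa [avg] using e)
  have := three (fun k => 1 - P k) (fun k => (p k).compl) (fun k v => (q k v).1) (fun v e => by
    by_contra n
    obtain ⟨g, hg⟩ := c v n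
    have e : ∀ k, P k v = v := fun k => (sub_eq_zero.1 (e k)).symm
    refine hg (Subgroup.iSup_induction (C := fun g => ρ g v = v) _ (h2.ge (Subgroup.mem_top g)) ?_
      (by simp) fun a b s t => by simp [s, t])
    rintro k _ ⟨g, rfl⟩
    obtain ⟨k, rfl⟩ := add_right_surjective 1 k
    rw [← (q k v).2 (e _) (e _)]
    exact avg_fix (ρ.comp (j (k + 1))) g v) v
  have b : ∀ l, ‖(1 - P l) v‖ ^ 2 ≤ (1 / 4) ^ 2 := fun l =>
    pow_le_pow_left₀ (norm_nonneg _) (avg_near (ρ.comp ((j l).comp (A l).subtype)) (v := v)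
      fun g => (k l g).le) 2
  rw [Fin.sum_univ_three, hv] at this
  linarith [b 0, b 1, b 2]

theorem mother : ∃ (G : Type) (_ : Group G) (j : Fin 3 → H →* G),
    (∀ (V : Type) [NormedAddCommGroup V] [InnerProductSpace ℂ V] [CompleteSpace V]
      (ρ : G →* unitary (V →L[ℂ] V)), (∀ (S : Finset G) (ε : ℝ), 0 < ε →
        ∃ v : V, ‖v‖ = 1 ∧ ∀ s ∈ S, ‖(ρ s : V →L[ℂ] V) v - v‖ < ε) →
      ∃ v : V, v ≠ 0 ∧ ∀ g : G, (ρ g : V →L[ℂ] V) v = v) ∧
    ∀ (S : Type) [Group S] (ι : Fin 3 → H →* S), (∀ k, ∀ g ∈ A k, ι k g = ι (k + 1) g) →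
      ∃ f : G →* S, ∀ k g, f (j k g) = ι k g := by
  classical
  let N := Subgroup.normalClosure {x : Monoid.CoprodI fun _ : Fin 3 => H | ∃ k, ∃ g ∈ A k,
    x = (.of (i := k) g)⁻¹ * .of (i := k + 1) g}
  refine ⟨_ ⧸ N, inferInstance, fun k => (QuotientGroup.mk' N).comp (Monoid.CoprodI.of (M := fun _ => H) (i := k)),
    fun V _ _ _ ρ h => ?_, fun S _ ι h => ⟨QuotientGroup.lift N (Monoid.CoprodI.lift ι)
      (Subgroup.normalClosure_le_normal (N := MonoidHom.ker _) ?_), fun k g => by simp⟩⟩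
  · obtain ⟨v, h1, h2⟩ := h (univ.image fun p : Fin 3 × H => (QuotientGroup.mk' N) (.of (i := p.1) p.2))
      (1 / 4) (by norm_num)
    letI : InnerProductSpace ℝ V := .complexToReal
    refine kazh (fun k => (QuotientGroup.mk' N).comp (Monoid.CoprodI.of (M := fun _ => H) (i := k))) (fun k g hg =>
      QuotientGroup.eq.2 (Subgroup.subset_normalClosure ⟨k, g, hg, rfl⟩)) ?_
      ⟨⟨fun g => (ρ g).1.restrictScalars ℝ, by ext; simp⟩, fun _ _ => by ext; simp⟩
      (fun g v w => congrArg Complex.re (ContinuousLinearMap.inner_map_map_of_mem_unitary (ρ g).2 v w))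
      v h1 fun k g => h2 _ (mem_image_of_mem _ (mem_univ (k, g)))
    rw [← Monoid.CoprodI.range_eq_iSup, Monoid.CoprodI.lift_comp_of']
    exact MonoidHom.range_eq_top.2 (QuotientGroup.mk'_surjective N)
  · rintro _ ⟨k, g, hg, rfl⟩
    simp [h k g hg]

end Pool.Agent.H77.Kt
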