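import Mathlib

set_option autoImplicit false

namespace Pool.Agent.H77.Kt

open MulAction Subgroup

def Rk (Q : Type) [Group Q] : Prop := Finite Q ∧ IsSimpleGroup Q ∧
  ∃ (X : Type) (φ : Q →* Equiv.Perm X), Finite X ∧ 3 ≤ Nat.card X ∧
    (∀ a b c d : X, a ≠ b → c ≠ d → ∃ g : Q, φ g a = c ∧ φ g b = d) ∧
    ∃ (x : X) (U : Subgroup Q), (∀ u ∈ U, φ u x = x) ∧
      (∀ u ∈ U, ∀ h : Q, φ h x = x → h * u * h⁻¹ ∈ U) ∧
      ∀ y z : X, y ≠ x → z ≠ x → ∃! u : Q, u ∈ U ∧ φ u y = z

theorem rk {S X : Type} [Group S] [Finite X] [MulAction S X] [IsPretransitive S X] (U : Subgroup S)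
    {x y : X} (h0 : y ≠ x) (h1 : U ≤ stabilizer S x) (h2 : ∀ u ∈ U, ∀ h : S, h • x = x → h * u * h⁻¹ ∈ U)
    (h3 : ∀ z, z ≠ x → ∃ u ∈ U, u • y = z) (h4 : ∀ u ∈ U, u • y = y → u = 1) (h5 : U ≠ ⊥)
    [Group.IsSolvable U] (h6 : normalClosure (U : Set S) = ⊤) (h7 : U ≤ commutator S) :
    Rk (toPermHom S X).range ∧ Nat.card U ≤ Nat.card (toPermHom S X).range := by
  let f := (toPermHom S X).rangeRestrict
  have s : Function.Surjective f := MonoidHom.rangeRestrict_surjective _
  have t : ∀ a b : X, a ≠ b → ∃ g : S, g • x = a ∧ g • y = b := fun a b h => by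
    obtain ⟨g, rfl⟩ := exists_smul_eq S x a
    obtain ⟨u, k1, k2⟩ := h3 (g⁻¹ • b) (by rintro e; exact h (by rw [← e, smul_inv_smul]))
    exact ⟨g * u, by rw [mul_smul, h1 k1], by rw [mul_smul, k2, smul_inv_smul]⟩
  obtain ⟨⟨u, hu⟩, u1⟩ := ne_bot_iff_exists_ne_one.1 h5
  have u2 : u • y ≠ y := fun e => u1 (Subtype.ext (h4 u hu e))
  have u3 : u • y ≠ x := fun e => h0 (by rw [← h1 hu, smul_left_cancel_iff] at e; exact e)
  refine ⟨⟨inferInstance, { exists_pair_ne := ⟨f u, 1, fun e => u2 (congrArg (·.1 y) e)⟩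
                            eq_bot_or_eq_top_of_normal := fun N hN => ?_ }, X,
    (toPermHom S X).range.subtype, inferInstance, ?_, fun a b c d k l => ?_, x, U.map f, ?_, ?_,
    fun a b k l => ?_⟩, Nat.card_le_card_of_injective (fun u : U => f u) fun a b e => ?_⟩
  · refine or_iff_not_imp_left.2 fun n => ?_
    obtain ⟨⟨g, hg⟩, n⟩ := ne_bot_iff_exists_ne_one.1 n
    obtain ⟨g, rfl⟩ := s g
    obtain ⟨a, ha⟩ : ∃ a, g • a ≠ a := by
      by_contra! c
      exact n (Subtype.ext (Subtype.ext (Equiv.ext c)))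
    let M := N.comap f
    have tr : ∀ k : S, ∃ m ∈ M, m • x = k • x := fun k => by
      by_cases e : k • x = x
      · exact ⟨1, one_mem _, by simp [e]⟩
      obtain ⟨p, p1, p2⟩ := t _ _ ha.symm
      obtain ⟨q, q1, q2⟩ := h3 _ e
      refine ⟨(q * p⁻¹) * g * (q * p⁻¹)⁻¹, (hN.comap f).conj_mem _ hg _, ?_⟩
      simp only [mul_smul, mul_inv_rev, inv_inv, h1 (inv_mem q1), mem_stabilizer_iff.1, p1, ← p2,
        inv_smul_smul, q2, mem_stabilizer_iff.1 (h1 (inv_mem q1))]
    haveI : (U.map (QuotientGroup.mk' M)).Normal := ⟨by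
      rintro _ ⟨u, hu, rfl⟩ k
      obtain ⟨k, rfl⟩ := QuotientGroup.mk'_surjective M k
      obtain ⟨m, m1, m2⟩ := tr k
      refine ⟨_, h2 u hu (m⁻¹ * k) (by rw [mul_smul, ← m2, inv_smul_smul]), ?_⟩
      simp [(QuotientGroup.eq_one_iff m).2 m1]⟩
    have a1 : ∀ {W : Subgroup S} [W.Normal], U ≤ W → W = ⊤ := fun h =>
      top_le_iff.1 (h6.ge.trans (normalClosure_le_normal h))
    have a2 := a1 (le_comap_map (QuotientGroup.mk' M) U)
    haveI : Group.IsSolvable (S ⧸ M) := solvable_of_surjective (f := (QuotientGroup.mk' M).comp U.subtype)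
      fun k => by
        obtain ⟨k, rfl⟩ := QuotientGroup.mk'_surjective M k
        obtain ⟨u, hu, e⟩ := a2.ge (mem_top k)
        exact ⟨⟨u, hu⟩, e⟩
    rcases subsingleton_or_nontrivial (S ⧸ M) with c | c
    · rw [← map_comap_eq_self_of_surjective s N,
        show N.comap f = ⊤ from QuotientGroup.subgroup_eq_top_of_subsingleton M c]
      exact map_top_of_surjective f s
    · refine absurd ?_ (Group.IsSolvable.commutator_lt_top_of_nontrivial (S ⧸ M)).ne
      rw [_root_.commutator_def, ← map_top_of_surjective _ (QuotientGroup.mk'_surjective M), ← map_commutator,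
        ← _root_.commutator_def, a1 h7]
  · have := Nat.card_le_card_of_injective ![x, y, u • y] (by
      intro a b; fin_cases a <;> fin_cases b <;> simp [h0, u2, u3, h0.symm, u2.symm, u3.symm])
    simpa using this
  · obtain ⟨g, rfl, rfl⟩ := t a b k
    obtain ⟨g', rfl, rfl⟩ := t c d l
    exact ⟨f (g' * g⁻¹), by simp [f], by simp [f]⟩
  · rintro _ ⟨u, hu, rfl⟩
    exact h1 hu
  · rintro _ ⟨u, hu, rfl⟩ k e
    obtain ⟨k, rfl⟩ := s k
    exact ⟨_, h2 u hu k e, by simp⟩
  · obtain ⟨p, p1, rfl⟩ := h3 a k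
    obtain ⟨q, q1, rfl⟩ := h3 b l
    refine ⟨f (q * p⁻¹), ⟨mem_map_of_mem _ (mul_mem q1 (inv_mem p1)), by simp [f]⟩, ?_⟩
    rintro _ ⟨⟨r, r1, rfl⟩, e⟩
    have e : r • p • y = q • y := e
    have := h4 _ (mul_mem (inv_mem q1) (mul_mem r1 p1)) (by rw [mul_smul, mul_smul, e, inv_smul_smul])
    rw [inv_mul_eq_one] at this
    simp [this]
  · have e : a.1 • y = b.1 • y := congrArg (·.1 y) e
    have := h4 _ (mul_mem (inv_mem b.2) a.2) (by rw [mul_smul, e, inv_smul_smul])
    exact Subtype.ext (inv_mul_eq_one.1 this).symm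

open Matrix

variable {K : Type} [Field K] [StarRing K]

def J (K : Type) [Field K] : Matrix (Fin 3) (Fin 3) K := !![0, 0, 1; 0, 1, 0; 1, 0, 0]

def SU (K : Type) [Field K] [StarRing K] : Subgroup (SpecialLinearGroup (Fin 3) K) where
  carrier := {g | g.1ᴴ * J K * g.1 = J K}
  one_mem' := by simp
  mul_mem' := fun {a b} (h : _ = _) (k : _ = _) => by
    change (a.1 * b.1)ᴴ * J K * (a.1 * b.1) = J K
    rw [conjTranspose_mul, ← mul_assoc, mul_assoc _ a.1ᴴ, mul_assoc _ _ a.1, h, k]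
  inv_mem' := fun {a} (h : _ = _) => by
    have e : a.1 * a⁻¹.1 = 1 := congrArg Subtype.val (mul_inv_cancel a)
    change a⁻¹.1ᴴ * J K * a⁻¹.1 = J K
    nth_rw 1 [← h]
    rw [← mul_assoc, ← mul_assoc, ← conjTranspose_mul, mul_assoc, e]
    simp

theorem rel (g : SU K) (i j : Fin 3) : star (g.1.1 2 i) * g.1.1 0 j + star (g.1.1 1 i) * g.1.1 1 j +
    star (g.1.1 0 i) * g.1.1 2 j = J K i j := by
  rw [← show _ = _ from g.2]
  simp [J, mul_apply, Fin.sum_univ_three]

theorem ext {g h : SU K} (e : g.1.1 = h.1.1) : g = h := Subtype.ext (Subtype.ext e)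

theorem coe_mul (g h : SU K) : (g * h).1.1 = g.1.1 * h.1.1 := rfl

omit [Field K] [StarRing K] in
theorem m3 {a b c d e f g h i a' b' c' d' e' f' g' h' i' : K} (h1 : a = a') (h2 : b = b') (h3 : c = c')
    (h4 : d = d') (h5 : e = e') (h6 : f = f') (h7 : g = g') (h8 : h = h') (h9 : i = i') :
    !![a, b, c; d, e, f; g, h, i] = !![a', b', c'; d', e', f'; g', h', i'] := by subst_vars; rfl

theorem ct (a b c d e f g h i : K) : !![a, b, c; d, e, f; g, h, i]ᴴ =
    !![star a, star d, star g; star b, star e, star h; star c, star f, star i] := by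
  ext i j; fin_cases i <;> fin_cases j <;> rfl

def uu (a b : K) (h : b + star b + a * star a = 0) : SU K :=
  ⟨⟨!![1, -star a, b; 0, 1, a; 0, 0, 1], by simp [det_fin_three]⟩, by
    change _ᴴ * _ * _ = _
    simp only [J, ct, mul_fin_three]
    apply m3 <;> simp
    linear_combination h⟩

def tt (l : K) (h : l ≠ 0) : SU K :=
  ⟨⟨!![l, 0, 0; 0, star l / l, 0; 0, 0, (star l)⁻¹], by simp [det_fin_three, mul_div_cancel₀, h]⟩, by
    change _ᴴ * _ * _ = _
    simp only [J, ct, mul_fin_three]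
    apply m3 <;> simp [h]⟩

def ww : SU K := ⟨⟨!![0, 0, 1; 0, -1, 0; 1, 0, 0], by simp [det_fin_three]⟩, by
  change _ᴴ * _ * _ = _
  simp only [J, ct, mul_fin_three]
  apply m3 <;> simp⟩

theorem uu_eq {a b c d : K} {h k} (e : a = c) (e' : b = d) : uu a b h = uu c d k := by subst e e'; rfl

theorem v1 {a b c d : K} (h : b + star b + a * star a = 0) (k : d + star d + c * star c = 0) :
    b + d - star a * c + star (b + d - star a * c) + (a + c) * star (a + c) = 0 := by
  simp; linear_combination h + k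

theorem v2 {a b : K} (h : b + star b + a * star a = 0) : star b + star (star b) + -a * star (-a) = 0 := by
  simp; linear_combination h

theorem v3 {l a b : K} (h : l ≠ 0) (k : b + star b + a * star a = 0) : l * star l * b +
    star (l * star l * b) + star l ^ 2 / l * a * star (star l ^ 2 / l * a) = 0 := by
  have := star_ne_zero.2 h
  simp; field_simp; linear_combination l * star l * k

theorem v4 {a b : K} (h : b ≠ 0) (k : b + star b + a * star a = 0) :
    b + star b + a * star b / b * star (a * star b / b) = 0 ∧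
    (star b)⁻¹ + star (star b)⁻¹ + a / b * star (a / b) = 0 := by
  have := star_ne_zero.2 h
  constructor <;> simp <;> field_simp <;> linear_combination k

theorem uu_mul {a b c d : K} {h k} : uu a b h * uu c d k = uu (a + c) (b + d - star a * c) (v1 h k) :=
  ext (by simp only [coe_mul, uu, mul_fin_three]; apply m3 <;> simp <;> ring)

theorem uu_one {h} : uu (0 : K) 0 h = 1 := ext (by simp [uu, one_fin_three])

theorem uu_inv {a b : K} {h} : (uu a b h)⁻¹ = uu (-a) (star b) (v2 h) := by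
  rw [inv_eq_iff_mul_eq_one, uu_mul, ← uu_one (h := by simp)]
  exact uu_eq (by ring) (by linear_combination h)

theorem tt_mul {l m : K} (h : l ≠ 0) (k : m ≠ 0) : tt (l * m) (mul_ne_zero h k) = tt l h * tt m k :=
  ext (by simp only [coe_mul, tt, mul_fin_three]; apply m3 <;> simp <;> ring)

theorem ww_inv : (ww : SU K)⁻¹ = ww :=
  inv_eq_iff_mul_eq_one.2 (ext (by simp [coe_mul, ww, one_fin_three]))

theorem tt_uu {l a b : K} (h : l ≠ 0) (k) : tt l h * uu a b k * (tt l h)⁻¹ =
    uu (star l ^ 2 / l * a) (l * star l * b) (v3 h k) := by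
  have := star_ne_zero.2 h
  rw [mul_inv_eq_iff_eq_mul]
  refine ext ?_
  simp only [coe_mul, tt, uu, mul_fin_three]
  apply m3 <;> simp <;> field_simp

theorem nn {a b : K} (h : b ≠ 0) (k : b + star b + a * star a = 0) : tt b h * ww =
    uu (a * star b / b) b (v4 h k).1 * (ww * uu (a / b) (star b)⁻¹ (v4 h k).2 * ww) * uu a b k := by
  have := star_ne_zero.2 h
  refine ext ?_
  simp only [coe_mul, tt, uu, ww, mul_fin_three]
  apply m3 <;> simp <;> field_simp <;>
    first | ring1 | linear_combination k | linear_combination -k | linear_combination (star a) * k |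
      linear_combination (-star a) * k | linear_combination a * k | linear_combination (-a) * k |
      linear_combination b * k | linear_combination (-b) * k

def U : Subgroup (SU K) where
  carrier := {g | ∃ a b h, g = uu a b h}
  one_mem' := ⟨0, 0, by simp, uu_one.symm⟩
  mul_mem' := by rintro _ _ ⟨a, b, h, rfl⟩ ⟨c, d, k, rfl⟩; exact ⟨_, _, _, uu_mul⟩
  inv_mem' := by rintro _ ⟨a, b, h, rfl⟩; exact ⟨_, _, _, uu_inv⟩

def B : Subgroup (SU K) where
  carrier := {g | g.1.1 2 0 = 0}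
  one_mem' := by simp
  mul_mem' := fun {a b} (h : _ = _) (k : _ = _) => by
    have h1 := rel a 0 1
    have h2 := rel a 0 2
    have h3 := rel a 0 0
    have h4 := rel b 0 0
    simp_all [J, coe_mul, mul_apply, Fin.sum_univ_three]
  inv_mem' := fun {a} (h : _ = _) => by
    have h3 := rel a 0 0
    change adjugate a.1.1 2 0 = 0
    simp_all [J, adjugate_fin_three]

theorem mem_B {g : SU K} : g ∈ B ↔ g.1.1 2 0 = 0 := Iff.rfl

theorem borel {g : SU K} (h : g ∈ B) : ∃ a b k l m, g = uu a b k * tt l m := by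
  have h : g.1.1 2 0 = 0 := h
  have h1 : g.1.1 1 0 = 0 := by simpa [J, h] using rel g 0 0
  have h2 : star (g.1.1 0 0) * g.1.1 2 2 = 1 := by simpa [J, h, h1] using rel g 0 2
  have l := left_ne_zero_of_mul_eq_one h2
  have l' := star_ne_zero.1 l
  have h3 : g.1.1 2 1 = 0 := by simpa [J, h, h1, l'] using rel g 0 1
  have h4 := (eq_inv_of_mul_eq_one_right h2)
  have h5 : g.1.1 1 1 = star (g.1.1 0 0) / g.1.1 0 0 := by
    have := (det_fin_three _).symm.trans g.1.2
    simp only [h, h1, h3, h4] at this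
    field_simp at this ⊢
    linear_combination this
  have h6 := rel g 2 1
  have h7 := rel g 2 2
  simp [J, h3, h4, h5] at h6 h7
  field_simp at h6 h7
  refine ⟨g.1.1 1 2 * star (g.1.1 0 0), g.1.1 0 2 * star (g.1.1 0 0), by simp; linear_combination h7,
    _, l', ext ((eta_fin_three _).trans ?_)⟩
  simp only [coe_mul, tt, uu, mul_fin_three]
  apply m3 <;> simp [h, h1, h3, h4, h5, l']
  field_simp
  linear_combination h6

theorem bruhat {g : SU K} (h : g ∉ B) : ∃ u ∈ U, (u * ww)⁻¹ * g ∈ B := by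
  have h : g.1.1 2 0 ≠ 0 := h
  have := star_ne_zero.2 h
  have k := rel g 0 0
  refine ⟨uu (g.1.1 1 0 / g.1.1 2 0) (g.1.1 0 0 / g.1.1 2 0) (by
    simp [J] at k ⊢; field_simp; linear_combination k), ⟨_, _, _, rfl⟩, ?_⟩
  rw [_root_.mul_inv_rev, ww_inv, uu_inv, mem_B]
  simp only [coe_mul, uu, ww, mul_fin_three]
  simp [J, mul_apply, Fin.sum_univ_three] at k ⊢
  field_simp
  linear_combination k

theorem top {θ : K} (h0 : θ ≠ 0) (h1 : star θ = -θ) {R : Subgroup (SU K)} (h : U ≤ R)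
    (h' : ∀ u ∈ U, ww * u * ww ∈ R) : R = ⊤ := by
  have n : ∀ (a b : K) (k : b ≠ 0), b + star b + a * star a = 0 → tt b k * ww ∈ R := fun a b k l =>
    nn k l ▸ mul_mem (mul_mem (h ⟨_, _, _, rfl⟩) (h' _ ⟨_, _, _, rfl⟩)) (h ⟨_, _, _, rfl⟩)
  have t : ∀ (l : K) (k : l ≠ 0), tt l k ∈ R := fun l k => by
    obtain ⟨c, c0, c1, a, c2⟩ : ∃ c : K, c ≠ 0 ∧ star c = c ∧ ∃ a, l * (c * θ) + star (l * (c * θ)) +
        a * star a = 0 := by
      by_cases e : l * θ + star (l * θ) = 0
      · exact ⟨1, one_ne_zero, by simp, 0, by simpa using e⟩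
      · exact ⟨-(l * θ + star (l * θ)), neg_ne_zero.2 e, by simp [add_comm, mul_comm], l * θ + star (l * θ),
          by simp; ring⟩
    have := mul_mem (n a _ (mul_ne_zero k (mul_ne_zero c0 h0)) c2)
      (inv_mem (n 0 _ (mul_ne_zero c0 h0) (by simp [h1, c1, mul_comm])))
    simpa [tt_mul k (mul_ne_zero c0 h0), mul_assoc] using this
  have w : ww ∈ R := by simpa using mul_mem (inv_mem (t θ h0)) (n 0 θ h0 (by simp [h1]))
  have b : B ≤ R := fun g hg => by
    obtain ⟨a, b, k, l, m, rfl⟩ := borel hg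
    exact mul_mem (h ⟨_, _, _, rfl⟩) (t l m)
  refine eq_top_iff.2 fun g _ => by_contra fun c => ?_
  obtain ⟨u, k, l⟩ := bruhat fun e => c (b e)
  exact c (mul_inv_cancel_left (u * ww) g ▸ mul_mem (mul_mem (h k) w) (b l))

theorem full (h2 : (2 : K) ≠ 0) {R : Subgroup (SU K)} (h : ∀ a, ∃ b k, uu a b k ∈ R) : U ≤ R := by
  rintro _ ⟨a, b, k, rfl⟩
  obtain ⟨c, l, m⟩ := h a
  obtain ⟨d, d1, d2⟩ := h 1
  obtain ⟨e, e1, e2⟩ := h ((b - c) / 2)
  convert mul_mem (mul_mem m (mul_mem e2 d2)) (inv_mem (mul_mem d2 e2)) using 1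
  simp only [eq_mul_inv_iff_mul_eq, uu_mul]
  refine uu_eq (by ring) ?_
  simp
  field_simp
  linear_combination k - l

end Pool.Agent.H77.Kt
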