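import Pool.Agent.H77.KtB
import Pool.Agent.H77.KtC

set_option autoImplicit false

namespace Pool.Agent.H77.Kt

open MulAction Subgroup Matrix

variable {K : Type} [Field K] [StarRing K]

theorem half (h2 : (2 : K) ≠ 0) (a : K) : -(a * star a) / 2 + star (-(a * star a) / 2) + a * star a = 0 := by
  simp; field_simp; ring

theorem ex {R : Subgroup (SU K)} {a x b : K} {h} (m : uu x b h ∈ R) (e : x = a) :
    ∃ b k, uu a b k ∈ R := by subst e; exact ⟨_, _, m⟩

theorem su [Finite K] (h2 : (2 : K) ≠ 0) {θ : K} (h0 : θ ≠ 0) (h1 : star θ = -θ) {l : K} (h3 : l ≠ 0)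
    (h4 : star l ^ 2 / l ≠ 1) : Rk (toPermHom (SU K) (SU K ⧸ B)).range ∧
      Nat.card K ≤ Nat.card (toPermHom (SU K) (SU K ⧸ B)).range := by
  have i : Function.Injective fun a : K => (⟨uu a _ (half h2 a), _, _, _, rfl⟩ : U) := fun a b e =>
    congrArg (·.1.1.1 1 2) e
  have s : ∀ g : SU K, g • ((1 : SU K) : SU K ⧸ B) = ((1 : SU K) : SU K ⧸ B) ↔ g ∈ B := fun g => by
    simp [QuotientGroup.eq]
  haveI : Group.IsSolvable (U (K := K)) := by
    let φ : U (K := K) →* Multiplicative K := .mk' (fun u => .ofAdd (u.1.1.1 1 2)) (by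
      rintro ⟨_, a, b, h, rfl⟩ ⟨_, c, d, k, rfl⟩
      change Multiplicative.ofAdd ((uu a b h * uu c d k).1.1 1 2) = _
      rw [uu_mul]; rfl)
    haveI := Group.isSolvable_of_comm (G := φ.ker) (by
      rintro ⟨⟨_, a, b, h, rfl⟩, e⟩ ⟨⟨_, c, d, k, rfl⟩, f⟩
      obtain rfl : a = 0 := e
      obtain rfl : c = 0 := f
      refine Subtype.ext (Subtype.ext (show uu 0 b h * uu 0 d k = uu 0 d k * uu 0 b h from ?_))
      rw [uu_mul, uu_mul]
      exact uu_eq rfl (by rw [add_comm]))
    exact Group.isSolvable_of_ker_le_range φ.ker.subtype φ (by simp)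
  refine (rk U (x := ((1 : SU K) : SU K ⧸ B)) (y := ((ww : SU K) : SU K ⧸ B)) ?_ ?_ ?_ ?_ ?_ ?_ ?_
    (full h2 fun a => ?_)).imp_right (Nat.card_le_card_of_injective _ i).trans
  · rw [Ne, QuotientGroup.eq, ww_inv, mul_one]
    exact one_ne_zero (α := K)
  · rintro _ ⟨a, b, h, rfl⟩
    exact (s _).2 rfl
  · rintro _ ⟨a, b, h, rfl⟩ g hg
    obtain ⟨c, d, k, l, m, rfl⟩ := borel ((s g).1 hg)
    have := mul_mem (mul_mem (show uu c d k ∈ U from ⟨_, _, _, rfl⟩) ⟨_, _, _, tt_uu m h⟩)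
      (inv_mem (show uu c d k ∈ U from ⟨_, _, _, rfl⟩))
    simpa [mul_assoc] using this
  · intro z h
    obtain ⟨g, rfl⟩ := QuotientGroup.mk_surjective z
    exact (bruhat fun e => h (by simpa [QuotientGroup.eq] using e)).imp fun u k =>
      ⟨k.1, QuotientGroup.eq.2 k.2⟩
  · rintro _ ⟨a, b, h, rfl⟩ e
    have e := QuotientGroup.eq.1 e.symm
    rw [ww_inv] at e
    obtain rfl : b = 0 := by
      simpa [coe_mul, uu, ww] using (mem_B (g := ww * (uu a b h * ww))).1 e
    obtain rfl : a = 0 := by simpa using h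
    exact uu_one
  · exact ne_bot_iff_exists_ne_one.2 ⟨⟨uu 1 _ (half h2 1), _, _, _, rfl⟩, fun e => by
      simpa [uu] using congrArg (·.1.1.1 1 2) e⟩
  · exact top h0 h1 le_normalClosure fun u hu => by
      simpa [ww_inv] using normalClosure_normal.conj_mem _ (le_normalClosure hu) ww
  · have := commutator_mem_commutator (mem_top (tt l h3)) (mem_top (uu _ _ (half h2 (a / (star l ^ 2 / l - 1)))))
    rw [commutatorElement_def, tt_uu, uu_inv, uu_mul] at this
    have h4 := sub_ne_zero.2 h4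
    exact ex this (by rw [← sub_eq_add_neg, ← sub_one_mul, mul_div_cancel₀ _ h4])

def cj (P Q : Matrix (Fin 3) (Fin 3) K) (h : P * Q = 1) (k : Pᴴ * J K * P = 1) [Algebra F K] :
    H →* SU K := .mk' (fun g => ⟨⟨P * g.1.1.map (algebraMap F K) * Q, by
      rw [det_mul_right_comm, h, one_mul, ← RingHom.mapMatrix_apply, ← RingHom.map_det, g.1.2, map_one]⟩, by
    have a : (g.1.1.map (algebraMap F K))ᴴ * g.1.1.map (algebraMap F K) = 1 := by
      have : (g.1.1.map (algebraMap F K))ᴴ = g.1.1ᵀ.map (algebraMap F K) := by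
        ext i j
        exact DFunLike.congr_fun (Subsingleton.elim ((starRingEnd K).comp (algebraMap F K)) _) _
      rw [this, ← Matrix.map_mul, show _ = _ from g.2]; simp
    have b : Qᴴ * Q = J K := by
      rw [← mul_one Qᴴ, ← k, ← mul_assoc, ← mul_assoc, ← conjTranspose_mul, mul_assoc, h]; simp
    change _ᴴ * _ * _ = _
    simp only [conjTranspose_mul, ← mul_assoc]
    rw [mul_assoc _ Pᴴ, mul_assoc _ _ P, k, mul_one, mul_assoc _ _ (Matrix.map _ _), a, mul_one, b]⟩)
  fun a b => Subtype.ext (Subtype.ext (by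
    change P * (a.1.1 * b.1.1).map _ * Q = P * _ * Q * (P * _ * Q)
    simp only [Matrix.map_mul, mul_assoc]
    rw [← mul_assoc Q, mul_eq_one_comm.1 h, one_mul]))

def K0 : Matrix (Fin 3) (Fin 3) F := !![0, 1, 0; 1, 0, 19; 6, 0, -3]
def K1 : Matrix (Fin 3) (Fin 3) F := !![0, 19, -3; 1, 0, 0; 0, 1, 6]

theorem dd (z : K) (h : z * star z = 1) (k i j : Fin 3) (n : i = k ↔ j = k) :
    ![![1, 1, 1], ![z, 1, 1], ![z, z, 1]] k i * ![![1, 1, 1], ![star z, 1, 1], ![star z, star z, 1]] k j =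
    ![![1, 1, 1], ![z, 1, 1], ![z, z, 1]] (k + 1) i *
      ![![1, 1, 1], ![star z, 1, 1], ![star z, star z, 1]] (k + 1) j := by
  fin_cases k <;> fin_cases i <;> fin_cases j <;> simp [h] at n ⊢

theorem hom [Algebra F K] (z : K) (h : z * star z = 1) : ∃ ι : Fin 3 → H →* SU K,
    (∀ k, ∀ g ∈ A k, ι k g = ι (k + 1) g) ∧ ∀ k g, (ι k g).1.1 = K1.map (algebraMap F K) *
      (diagonal (![![1, 1, 1], ![z, 1, 1], ![z, z, 1]] k) * g.1.1.map (algebraMap F K) *
      diagonal (![![1, 1, 1], ![star z, 1, 1], ![star z, star z, 1]] k)) * K0.map (algebraMap F K) := by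
  have a : K1.map (algebraMap F K) * K0.map (algebraMap F K) = 1 := by
    rw [← Matrix.map_mul, show K1 * K0 = 1 by decide]; simp
  have b : (K1.map (algebraMap F K))ᴴ * J K * K1.map (algebraMap F K) = 1 := by
    have : (K1.map (algebraMap F K))ᴴ = K1ᵀ.map (algebraMap F K) := by
      ext i j
      exact DFunLike.congr_fun (Subsingleton.elim ((starRingEnd K).comp (algebraMap F K)) _) _
    rw [this, show J K = (J F).map (algebraMap F K) by ext i j; fin_cases i <;> fin_cases j <;> simp [J],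
      ← Matrix.map_mul, ← Matrix.map_mul, show K1ᵀ * J F * K1 = 1 by decide]
    simp
  have c : ∀ k, diagonal (![![1, 1, 1], ![z, 1, 1], ![z, z, 1]] k) *
      diagonal (![![1, 1, 1], ![star z, 1, 1], ![star z, star z, 1]] k) = 1 := fun k => by
    rw [diagonal_mul_diagonal, ← diagonal_one]
    congr 1
    ext i
    fin_cases k <;> fin_cases i <;> simp [h]
  have d : ∀ k, (diagonal (![![1, 1, 1], ![z, 1, 1], ![z, z, 1]] k))ᴴ =
      diagonal (![![1, 1, 1], ![star z, 1, 1], ![star z, star z, 1]] k) := fun k => by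
    rw [diagonal_conjTranspose]
    congr 1
    ext i
    fin_cases k <;> fin_cases i <;> simp
  let ι : Fin 3 → H →* SU K := fun k => cj (K1.map (algebraMap F K) * diagonal _)
    (diagonal _ * K0.map (algebraMap F K)) (by rw [mul_assoc, ← mul_assoc (diagonal _), c k, one_mul, a])
    (by rw [conjTranspose_mul, ← mul_assoc, mul_assoc _ _ᴴ, mul_assoc _ _ (Matrix.map _ _), b, mul_one, d,
      mul_eq_one_comm.1 (c k)])
  have e : ∀ k g, (ι k g).1.1 = _ := fun k g => (mul_assoc _ _ _).symm.trans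
    (by rw [mul_assoc (K1.map _), mul_assoc (K1.map _)])
  refine ⟨ι, fun k g hg => Subtype.ext (Subtype.ext ?_), e⟩
  rw [e, e]
  congr 2
  have s := fun j => (col g k j).symm.trans (congrFun hg j)
  have t : ∀ j, g.1.1 k j = if k = j then 1 else 0 := fun j => by
    rw [← ee, ← dot g, hg, ← col]; simp [Kt.e]
  ext i j
  simp only [mul_diagonal, diagonal_mul, map_apply]
  by_cases n : i = k ↔ j = k
  · rw [mul_right_comm, dd z h k i j n, mul_right_comm]
  · rw [show g.1.1 i j = 0 by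
      by_cases m : i = k
      · rw [m, t, if_neg fun e => n (by simp [m, e])]
      · rw [show j = k by tauto, s, Kt.e, Pi.single_eq_of_ne m]]
    simp

def hh (M : Matrix (Fin 3) (Fin 3) F) (h : M.det = 1 ∧ Mᵀ * M = 1) : H := ⟨⟨M, h.1⟩, h.2⟩

theorem surj [Algebra F K] (z : K) (h : z * star z = 1) (h1 : z * z ≠ 1)
    (h2 : Algebra.adjoin F {star z ^ 2 / z} = ⊤) : ∃ ι : Fin 3 → H →* SU K,
    (∀ k, ∀ g ∈ A k, ι k g = ι (k + 1) g) ∧ ∀ R : Subgroup (SU K), (∀ k g, ι k g ∈ R) → R = ⊤ := by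
  obtain ⟨ι, a, b⟩ := hom z h
  refine ⟨ι, a, fun R r => ?_⟩
  have z0 := left_ne_zero_of_mul_eq_one h
  have c : (37 : K) = 0 := by rw [← map_ofNat (algebraMap F K), show (37 : F) = 0 from rfl, map_zero]
  have c2 : (2 : K) ≠ 0 := fun e => one_ne_zero (α := K) (by linear_combination c - 18 * e)
  have d : ∀ M k, (ι 0 (hh (K0 * M * K1) k)).1.1 = M.map (algebraMap F K) := fun M k => by
    rw [b]
    simp only [hh, cons_val_zero, ← mul_assoc]
    rw [show diagonal ![(1 : K), 1, 1] = 1 by simp [one_fin_three, diagonal_fin_three], mul_one, mul_one,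
      ← Matrix.map_mul, ← Matrix.map_mul, ← mul_assoc, ← mul_assoc, mul_assoc,
      show K1 * K0 = 1 by decide, one_mul, mul_one]
  have w : ww ∈ R := by
    convert r 0 (hh (K0 * !![0, 0, 1; 0, -1, 0; 1, 0, 0] * K1) (by decide))
    refine ext ?_
    rw [d]; ext i j; fin_cases i <;> fin_cases j <;> simp [ww]
  have u : uu (1 : K) 18 (by simp; linear_combination c) ∈ R := by
    convert r 0 (hh (K0 * !![1, -1, 18; 0, 1, 1; 0, 0, 1] * K1) (by decide))
    refine ext ?_
    rw [d]; ext i j; fin_cases i <;> fin_cases j <;> simp [uu, map_ofNat]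
  have t : tt z z0 ∈ R := by
    let P := hh !![0, 0, 1; 1, 0, 0; 0, 1, 0] (by decide)
    convert mul_mem (mul_mem (r 0 P) (r 2 P)) (r 1 P)
    refine ext ?_
    have e : ∀ M : Matrix (Fin 3) (Fin 3) F, M.map (algebraMap F K) = _ := fun M => eta_fin_three _
    have s := eq_inv_of_mul_eq_one_right h
    simp only [coe_mul, b, e, P, hh, tt, K0, K1, s, map_apply]
    simp [diagonal_fin_three, map_ofNat]
    refine ⟨⟨?_, ?_, ?_⟩, ⟨?_, ?_, ?_⟩, ?_, ?_, ?_⟩ <;> field_simp <;> grind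
  let E : AddSubgroup K := ⟨⟨⟨{a | ∃ b k, uu a b k ∈ R}, fun ⟨_, _, x⟩ ⟨_, _, y⟩ =>
    ⟨_, _, uu_mul (K := K) ▸ mul_mem x y⟩⟩, 0, by simp, by rw [uu_one]; exact one_mem R⟩,
    fun ⟨_, _, x⟩ => ⟨_, _, uu_inv (K := K) ▸ inv_mem x⟩⟩
  have f : ∀ x ∈ Algebra.adjoin F {star z ^ 2 / z}, ∀ a ∈ E, x * a ∈ E := fun x hx => by
    induction hx using Algebra.adjoin_induction with
    | mem x hx =>
      rintro a ⟨_, _, y⟩
      exact hx ▸ ⟨_, _, tt_uu z0 _ ▸ mul_mem (mul_mem t y) (inv_mem t)⟩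
    | algebraMap x =>
      intro a y
      rw [← ZMod.natCast_zmod_val x, map_natCast, ← nsmul_eq_mul]
      exact nsmul_mem y _
    | add x y _ _ p q => exact fun a k => add_mul x y a ▸ add_mem (p a k) (q a k)
    | mul x y _ _ p q => exact fun a k => mul_assoc x y a ▸ p _ (q a k)
  have g : U ≤ R := full c2 fun a => mul_one a ▸ f a (h2.ge trivial) 1 ⟨_, _, u⟩
  exact top (θ := z - star z) (fun e => h1 (by rw [← h, ← sub_eq_zero.1 e])) (by simp) g
    fun u k => mul_mem (mul_mem w (g k)) w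

theorem many (n : ℕ) : ∃ (S : Type) (_ : Group S) (ι : Fin 3 → H →* S), (∀ k, ∀ g ∈ A k, ι k g = ι (k + 1) g) ∧
    (∀ R : Subgroup S, (∀ k g, ι k g ∈ R) → R = ⊤) ∧ ∃ (Q : Type) (_ : Group Q) (f : S →* Q),
      Function.Surjective f ∧ Rk Q ∧ n < Nat.card Q := by
  obtain ⟨N, hN⟩ : ∃ N, N = 37 ^ (n + 1) + 1 := ⟨_, rfl⟩
  have l : n + 1 < 37 ^ (n + 1) := Nat.lt_pow_self (by norm_num)
  haveI : NeZero N := ⟨by omega⟩
  haveI : NeZero (N : F) := ⟨by simp [hN, show (37 : F) = 0 from rfl]⟩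
  let K := CyclotomicField N F
  haveI := IsCyclotomicExtension.finite {N} F K
  haveI : Finite K := Module.finite_of_finite F
  haveI : CharP K 37 := charP_of_injective_algebraMap (algebraMap F K).injective 37
  obtain ⟨z, hz⟩ : ∃ z : K, IsPrimitiveRoot z N := ⟨_, IsCyclotomicExtension.zeta_spec N F K⟩
  let σ := iterateFrobenius K 37 (n + 1)
  have a : z * σ z = 1 := by rw [iterateFrobenius_def, ← pow_succ', ← hN, hz.pow_eq_one]
  have b := eq_inv_of_mul_eq_one_right a
  letI : StarRing K :=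
    { star := σ, star_add := map_add σ, star_mul := fun x y => by rw [map_mul, mul_comm]
      star_involutive := fun x => by
        have := (IsCyclotomicExtension.adjoin_primitive_root_eq_top (A := F) hz).ge (Algebra.mem_top (x := x))
        induction this using Algebra.adjoin_induction with
        | mem x hx => rw [hx, b, map_inv₀, b, inv_inv]
        | algebraMap x =>
          exact DFunLike.congr_fun (Subsingleton.elim ((σ.comp σ).comp (algebraMap F K)) _) _
        | add x y _ _ p q => simp_all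
        | mul x y _ _ p q => simp_all }
  have c : IsPrimitiveRoot (star z ^ 2 / z) N := by
    rw [show star z = z⁻¹ from b, div_eq_mul_inv, ← pow_succ]
    exact hz.inv.pow_of_coprime 3 (by
      rw [Nat.coprime_comm, Nat.coprime_iff_gcd_eq_one, Nat.gcd_comm, Nat.gcd_rec, hN]
      simp [Nat.add_mod, Nat.pow_mod])
  have d : z * z ≠ 1 := sq z ▸ hz.pow_ne_one_of_pos_of_lt two_ne_zero (by omega)
  obtain ⟨ι, h1, h2⟩ := surj z a d (IsCyclotomicExtension.adjoin_primitive_root_eq_top c)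
  have := su (K := K) (Ring.two_ne_zero (by rw [ringChar.eq K 37]; norm_num)) (θ := z - star z)
    (fun e => d (by rw [← a, ← show z = σ z from sub_eq_zero.1 e])) (by simp) (hz.ne_zero (by omega)) (c.ne_one (by omega))
  refine ⟨_, inferInstance, ι, h1, h2, _, inferInstance, _, MonoidHom.rangeRestrict_surjective _, this.1,
    lt_of_lt_of_le ?_ ((Nat.card_le_card_of_injective (fun i : Fin N => z ^ i.1) fun i j e =>
      Fin.ext (hz.pow_inj i.2 j.2 e)).trans this.2)⟩
  simp only [Nat.card_eq_fintype_card, Fintype.card_fin]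
  omega

end Pool.Agent.H77.Kt
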