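import Pool.Agent.H77.KurDefs

namespace H77.Kur

open Classical

/-- `G` is the free product of `K` (through `κ`) and the infinite cyclic group on `b`. -/
structure FP {K G : Type} [Group K] [Group G] (κ : K →* G) (b : G) : Prop where
  lift : ∀ (L : Type) [Group L] (f : K →* L) (l : L), ∃ F : G →* L, (∀ k, F (κ k) = f k) ∧ F b = l
  gen : ∀ (P : G → Prop), P 1 → (∀ k g, P g → P (κ k * g)) → (∀ g, P g → P (b * g)) →
    (∀ g, P g → P (b⁻¹ * g)) → ∀ g, P g

@[ext] structure W (G X L : Type) where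
  g : G
  c : X → L

instance {G X L : Type} [Group G] [MulAction G X] [Group L] : Group (W G X L) where
  mul p q := ⟨p.g * q.g, fun x => p.c (q.g • x) * q.c x⟩
  one := ⟨1, fun _ => 1⟩
  inv p := ⟨p.g⁻¹, fun x => (p.c (p.g⁻¹ • x))⁻¹⟩
  mul_assoc p q r := by
    apply W.ext
    · exact mul_assoc _ _ _
    · funext x
      show p.c (q.g • r.g • x) * q.c (r.g • x) * r.c x = p.c ((q.g * r.g) • x) * (q.c (r.g • x) * r.c x)
      rw [mul_smul, mul_assoc]
  one_mul p := by
    apply W.ext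
    · exact one_mul _
    · funext x
      exact one_mul _
  mul_one p := by
    apply W.ext
    · exact mul_one _
    · funext x
      show p.c ((1 : G) • x) * 1 = p.c x
      rw [one_smul, mul_one]
  inv_mul_cancel p := by
    apply W.ext
    · exact inv_mul_cancel _
    · funext x
      show (p.c (p.g⁻¹ • p.g • x))⁻¹ * p.c x = 1
      rw [inv_smul_smul, inv_mul_cancel]

variable {K G : Type} [Group K] [Group G] {κ : K →* G} {b : G} {X : Type} [MulAction G X]

/-- Cocycles. -/
def Coc {L : Type} [Group L] (c : G → X → L) : Prop :=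
  ∀ g h x, c (g * h) x = c g (h • x) * c h x

theorem Coc.one {L : Type} [Group L] {c : G → X → L} (hc : Coc c) (x : X) : c 1 x = 1 := by
  have := hc 1 1 x
  rw [one_mul, one_smul] at this
  exact mul_eq_left.1 this.symm

theorem Coc.inv {L : Type} [Group L] {c : G → X → L} (hc : Coc c) (g : G) (x : X) :
    c g⁻¹ x = (c g (g⁻¹ • x))⁻¹ := by
  have := hc g g⁻¹ x
  rw [mul_inv_cancel, hc.one] at this
  exact eq_inv_of_mul_eq_one_right this.symm

theorem FP.coc (h : FP κ b) {L : Type} [Group L] (cK : K → X → L) (cb : X → L)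
    (hK : ∀ k k' x, cK (k * k') x = cK k (κ k' • x) * cK k' x) :
    ∃ c : G → X → L, Coc c ∧ (∀ k x, c (κ k) x = cK k x) ∧ ∀ x, c b x = cb x := by
  let f : K →* W G X L := MonoidHom.mk' (fun k => ⟨κ k, cK k⟩) (by
    intro k k'
    apply W.ext
    · exact map_mul κ k k'
    · funext x
      exact hK k k' x)
  obtain ⟨F, hF, hb⟩ := h.lift (W G X L) f ⟨b, cb⟩
  have hg : ∀ g, (F g).g = g := by
    apply h.gen
    · rw [map_one]; rfl
    · intro k g hg
      rw [map_mul, hF]
      show κ k * (F g).g = _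
      rw [hg]
    · intro g hg
      rw [map_mul, hb]
      show b * (F g).g = _
      rw [hg]
    · intro g hg
      rw [map_mul, map_inv, hb]
      show b⁻¹ * (F g).g = _
      rw [hg]
  refine ⟨fun g => (F g).c, ?_, ?_, ?_⟩
  · intro g g' x
    show (F (g * g')).c x = _
    rw [map_mul]
    show (F g).c ((F g').g • x) * _ = _
    rw [hg]
  · intro k x
    show (F (κ k)).c x = _
    rw [hF]; rfl
  · intro x
    show (F b).c x = _
    rw [hb]

/-- One step in the coset graph, with the edge it uses. -/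
inductive St (κ : K →* G) (b : G) : X → G → Option X → Prop
  | k (y : X) (k : K) : St κ b y (κ k) none
  | b (y : X) : St κ b y b (some y)
  | bi (y : X) : St κ b y b⁻¹ (some (b⁻¹ • y))

/-- Paths all of whose edges satisfy `E`. -/
inductive Pa (κ : K →* G) (b : G) (E : Option X → Prop) (x : X) : ℕ → G → Prop
  | nil : Pa κ b E x 0 1
  | cons {n : ℕ} {g s : G} {o : Option X} : Pa κ b E x n g → St κ b (g • x) s o → E o →
      Pa κ b E x (n + 1) (s * g)

theorem St.inv {y : X} {s : G} {o : Option X} (h : St κ b y s o) : St κ b (s • y) s⁻¹ o := by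
  cases h with
  | k k => rw [← map_inv]; exact St.k _ _
  | b =>
    have := St.bi (κ := κ) (b := b) (b • y)
    rwa [inv_smul_smul] at this
  | bi => rw [inv_inv]; exact St.b _

theorem St.two {y w e : X} {s s' : G} (h : St κ b y s (some e)) (h' : St κ b w s' (some e)) :
    (w = y) ∨ (w = s • y ∧ s' = s⁻¹) := by
  have key : ∀ {y : X} {s : G}, St κ b y s (some e) → (y = e ∧ s = b) ∨ (y = b • e ∧ s = b⁻¹) := by
    intro y s h
    generalize ho : some e = o at h
    cases h with
    | k k => cases ho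
    | b => left; exact ⟨(Option.some.inj ho).symm, rfl⟩
    | bi => right; refine ⟨?_, rfl⟩; rw [Option.some.inj ho, smul_inv_smul]
  rcases key h with ⟨h1, h2⟩ | ⟨h1, h2⟩ <;> rcases key h' with ⟨h3, h4⟩ | ⟨h3, h4⟩
  · left; rw [h1, h3]
  · right; rw [h1, h2, h3, h4]; exact ⟨rfl, rfl⟩
  · right; rw [h1, h2, h3, h4, inv_smul_smul, inv_inv]; exact ⟨rfl, rfl⟩
  · left; rw [h1, h3]

theorem Pa.single {E : Option X → Prop} {y : X} {s : G} {o : Option X} (h : St κ b y s o)
    (hE : E o) : Pa κ b E y 1 s := by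
  have := Pa.cons (Pa.nil (κ := κ) (b := b) (E := E) (x := y)) (by rwa [one_smul]) hE
  rwa [mul_one] at this

theorem Pa.append {E : Option X → Prop} {x : X} {n m : ℕ} {g g' : G} (h : Pa κ b E x n g)
    (h' : Pa κ b E (g • x) m g') : Pa κ b E x (n + m) (g' * g) := by
  induction h' with
  | nil => rwa [one_mul]
  | cons _ hs hE ih =>
    rw [mul_assoc]
    exact Pa.cons ih (by rwa [mul_smul]) hE

theorem Pa.inv {E : Option X → Prop} {x : X} {n : ℕ} {g : G} (h : Pa κ b E x n g) :
    Pa κ b E (g • x) n g⁻¹ := by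
  induction h with
  | nil => rw [inv_one]; exact Pa.nil
  | @cons n g s o _ hs hE ih =>
    have h1 := Pa.single hs.inv hE
    have h2 := h1.append (m := n) (g' := g⁻¹) (by rwa [inv_smul_smul])
    rw [mul_inv_rev, mul_smul, add_comm]
    exact h2

theorem Pa.mono {E E' : Option X → Prop} (hE : ∀ o, E o → E' o) {x : X} {n : ℕ} {g : G}
    (h : Pa κ b E x n g) : Pa κ b E' x n g := by
  induction h with
  | nil => exact Pa.nil
  | cons _ hs h2 ih => exact Pa.cons ih hs (hE _ h2)

theorem Pa.split {E : Option X → Prop} (E' : Option X → Prop) {x : X} {n : ℕ} {g : G}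
    (h : Pa κ b E x n g) : Pa κ b E' x n g ∨ ∃ n2 n3 g2 g3 s o, Pa κ b E' x n2 g2 ∧
      St κ b (g2 • x) s o ∧ ¬ E' o ∧ Pa κ b E (s • g2 • x) n3 g3 ∧ g = g3 * s * g2 ∧
      n = n3 + 1 + n2 := by
  induction h with
  | nil => exact Or.inl Pa.nil
  | @cons n g s o _ hs hE ih =>
    rcases ih with ih | ⟨n2, n3, g2, g3, s', o', h1, h2, h3, h4, h5, h6⟩
    · by_cases ho : E' o
      · exact Or.inl (Pa.cons ih hs ho)
      · exact Or.inr ⟨n, 0, g, 1, s, o, ih, hs, ho, Pa.nil, by rw [one_mul], by omega⟩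
    · refine Or.inr ⟨n2, n3 + 1, g2, s * g3, s', o', h1, h2, h3, Pa.cons h4 ?_ hE, ?_, by omega⟩
      · rwa [h5, mul_smul, mul_smul] at hs
      · rw [h5]; simp only [mul_assoc]

theorem FP.path (h : FP κ b) (x : X) (g : G) : ∃ n, Pa κ b (fun _ => True) x n g := by
  revert g
  apply h.gen
  · exact ⟨0, Pa.nil⟩
  · rintro k g ⟨n, hn⟩; exact ⟨_, Pa.cons hn (St.k _ _) trivial⟩
  · rintro g ⟨n, hn⟩; exact ⟨_, Pa.cons hn (St.b _) trivial⟩
  · rintro g ⟨n, hn⟩; exact ⟨_, Pa.cons hn (St.bi _) trivial⟩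

theorem Pa.range {x : X} {n : ℕ} {g : G} (h : Pa κ b (fun o => o = none) x n g) :
    g ∈ κ.range := by
  induction h with
  | nil => exact one_mem _
  | cons _ hs hE ih =>
    refine mul_mem ?_ ih
    subst hE
    generalize ho : (none : Option X) = o at hs
    cases hs with
    | k k => exact ⟨k, rfl⟩
    | b => cases ho
    | bi => cases ho

/-- Paths avoiding the edge `e`. -/
def Av (κ : K →* G) (b : G) (e x : X) (g : G) : Prop := ∃ n, Pa κ b (fun o => o ≠ some e) x n g

theorem Av.one (e x : X) : Av κ b e x 1 := ⟨0, Pa.nil⟩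

theorem Av.mul {e x : X} {g g' : G} (h : Av κ b e x g) (h' : Av κ b e (g • x) g') :
    Av κ b e x (g' * g) := by
  obtain ⟨n, h⟩ := h
  obtain ⟨m, h'⟩ := h'
  exact ⟨_, h.append h'⟩

theorem Av.inv {e x : X} {g : G} (h : Av κ b e x g) : Av κ b e (g • x) g⁻¹ := by
  obtain ⟨n, h⟩ := h
  exact ⟨_, h.inv⟩

theorem Av.k (e x : X) (k : K) : Av κ b e x (κ k) := ⟨1, Pa.single (St.k _ _) (by simp)⟩

/-- Connected without the edge `e`. -/
def Conn (κ : K →* G) (b : G) (e x y : X) : Prop := ∃ g, Av κ b e x g ∧ g • x = y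

theorem Conn.refl (e x : X) : Conn κ b e x x := ⟨1, Av.one _ _, one_smul _ _⟩

theorem Conn.step {e x y : X} {g : G} (h : Conn κ b e x y) (h' : Av κ b e y g) :
    Conn κ b e x (g • y) := by
  obtain ⟨g', h1, rfl⟩ := h
  exact ⟨g * g', h1.mul h', mul_smul _ _ _⟩

theorem Conn.symm {e x y : X} (h : Conn κ b e x y) : Conn κ b e y x := by
  obtain ⟨g', h1, rfl⟩ := h
  exact ⟨_, h1.inv, inv_smul_smul _ _⟩

theorem Conn.trans {e x y z : X} (h : Conn κ b e x y) (h' : Conn κ b e y z) : Conn κ b e x z := by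
  obtain ⟨g', h1, rfl⟩ := h'
  exact h.step h1

theorem conn_iff {e x y : X} {g : G} (h' : Av κ b e y g) :
    Conn κ b e x (g • y) ↔ Conn κ b e x y :=
  ⟨fun h => by have := h.step h'.inv; rwa [inv_smul_smul] at this, fun h => h.step h'⟩

theorem St.sep {y e : X} {s : G} (h : St κ b y s (some e)) (hs : ¬ Conn κ b e e (b • e)) :
    ¬ Conn κ b e y (s • y) := by
  intro hc
  rcases (St.b (κ := κ) (b := b) e).two h with h1 | ⟨h1, h2⟩
  · rcases (St.b (κ := κ) (b := b) e).two h.inv with h3 | ⟨h3, h4⟩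
    · rcases h.two (St.bi (κ := κ) (b := b) (b • e) |> fun t => by rwa [inv_smul_smul] at t) with
        h5 | ⟨h5, _⟩
      · rw [h5, h1] at hs; exact hs (Conn.refl _ _)
      · rw [h5, h3] at hs; exact hs (Conn.refl _ _)
    · rw [h3, h1] at hc; exact hs hc
  · rw [h2, h1, inv_smul_smul] at hc; exact hs hc.symm

/-- The cutting step. -/
theorem cut (hs : ∀ e : X, ¬ Conn κ b e e (b • e)) {x : X} {n : ℕ} {g : G}
    (h : Pa κ b (fun _ => True) x n g) (hx : g • x = x) : g ∈ κ.range ∨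
      ∃ (k : K) (e : X) (s g2 g3 : G) (n2 m : ℕ), St κ b (κ k • x) s (some e) ∧
        Pa κ b (fun o => o ≠ some e) (s • κ k • x) n2 g2 ∧ g2 • s • κ k • x = s • κ k • x ∧
        n2 < n ∧ g = g3 * s⁻¹ * g2 * s * κ k ∧ m < n ∧
        Pa κ b (fun _ => True) x m (g3 * κ k) := by
  rcases h.split (fun o => o = none) with h1 | ⟨n1, n', g1, g', s, o, h1, h2, h3, h4, h5, h6⟩
  · exact Or.inl h1.range
  right
  obtain ⟨k, rfl⟩ := h1.range
  obtain ⟨e, rfl⟩ := Option.ne_none_iff_exists'.1 h3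
  have hsep := h2.sep (hs e)
  rcases h4.split (fun o => o ≠ some e) with h7 | ⟨n2, n3, g2, g3, s', o', h7, h8, h9, h10, h11, h12⟩
  · exfalso
    apply hsep
    have c1 : Conn κ b e (s • κ k • x) x := ⟨g', ⟨_, h7⟩, by
      rw [← mul_smul, ← mul_smul, ← h5, hx]⟩
    exact (c1.step (Av.k e x k)).symm
  · have ho : o' = some e := not_not.1 h9
    subst ho
    rcases h2.two h8 with h13 | ⟨h13, h14⟩
    · exfalso
      exact hsep (Conn.symm ⟨g2, ⟨_, h7⟩, h13⟩)
    · subst h14
      refine ⟨k, e, s, g2, g3, n2, n1 + n3, h2, h7, h13, by omega, by rw [h5, h11], by omega, ?_⟩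
      rw [h13, inv_smul_smul] at h10
      exact (h1.mono (fun _ _ => trivial)).append h10

theorem triv_of_sep (h : FP κ b) (hs : ∀ e : X, ¬ Conn κ b e e (b • e))
    (hK : ∀ (x : X) (k : K), κ k • x = x → κ k = 1) (x : X) (g : G) (hx : g • x = x) : g = 1 := by
  obtain ⟨n, hn⟩ := h.path x g
  induction n using Nat.strong_induction_on generalizing x g with
  | _ n ih =>
    rcases cut hs hn hx with ⟨k, rfl⟩ | ⟨k, e, s, g2, g3, n2, m, h1, h2, h3, h4, h5, h6, h7⟩
    · exact hK x k hx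
    · have h8 := ih n2 h4 _ g2 h3 (h2.mono (fun _ _ => trivial))
      have h9 : g = g3 * κ k := by rw [h5, h8]; group
      rw [h9] at hx ⊢
      exact ih m h6 x _ hx h7

theorem range_of_sep (h : FP κ b) (hs : ∀ e : X, ¬ Conn κ b e e (b • e))
    (hA : ∀ e : X, (∀ g, Av κ b e e g → g • e = e → g = 1) ∨
      (∀ g, Av κ b e (b • e) g → g • b • e = b • e → g = 1))
    (x : X) (k0 : K) (hk0 : κ k0 • x = x) (hk1 : κ k0 ≠ 1) (g : G) (hx : g • x = x) :
    g ∈ κ.range := by
  obtain ⟨n, hn⟩ := h.path x g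
  induction n using Nat.strong_induction_on generalizing g with
  | _ n ih =>
    rcases cut hs hn hx with h0 | ⟨k, e, s, g2, g3, n2, m, h1, h2, h3, h4, h5, h6, h7⟩
    · exact h0
    · have hne : κ (k * k0 * k⁻¹) ≠ 1 := by
        intro h
        apply hk1
        rw [map_mul, map_mul, map_inv] at h
        have : κ k0 = (κ k)⁻¹ * (κ k * κ k0 * (κ k)⁻¹) * κ k := by group
        rw [this, h]; group
      have hfix : κ (k * k0 * k⁻¹) • κ k • x = κ k • x := by
        rw [← mul_smul, ← map_mul, inv_mul_cancel_right, map_mul, mul_smul, hk0]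
      have h8 : g2 = 1 := by
        have hsep := h1.sep (hs e)
        rcases (St.b (κ := κ) (b := b) e).two h1 with h10 | ⟨h10, h11⟩
        · rcases (St.b (κ := κ) (b := b) e).two h1.inv with h12 | ⟨h12, _⟩
          · exfalso; rw [h12, h10] at hsep; exact hsep (Conn.refl _ _)
          · rcases hA e with h13 | h13
            · exfalso; rw [h10] at hfix; exact hne (h13 _ (Av.k _ _ _) hfix)
            · rw [h12] at h2 h3; exact h13 _ ⟨_, h2⟩ h3
        · rcases hA e with h13 | h13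
          · rw [h11, h10, inv_smul_smul] at h2 h3; exact h13 _ ⟨_, h2⟩ h3
          · exfalso; rw [h10] at hfix; exact hne (h13 _ (Av.k _ _ _) hfix)
      have h9 : g = g3 * κ k := by rw [h5, h8]; group
      rw [h9] at hx ⊢
      exact ih m h6 _ hx h7

end H77.Kur
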