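import Pool.Agent.H77.KurA

namespace H77.Kur

open Classical Monoid

variable {K G : Type} [Group K] [Group G] {κ : K →* G} {b : G} {X : Type} [MulAction G X]

/-- Loops at `z` avoiding `e`. -/
def Lp (κ : K →* G) (b : G) (e z : X) : Subgroup G where
  carrier := {g | Av κ b e z g ∧ g • z = z}
  one_mem' := ⟨Av.one _ _, one_smul _ _⟩
  mul_mem' := by
    rintro g g' ⟨h1, h2⟩ ⟨h3, h4⟩
    exact ⟨h3.mul (by rwa [h4]), by rw [mul_smul, h4, h2]⟩
  inv_mem' := by
    rintro g ⟨h1, h2⟩
    have := h1.inv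
    rw [h2] at this
    exact ⟨this, by rw [inv_smul_eq_iff, h2]⟩

theorem exists_tau (e z : X) : ∃ τ : X → G, τ z = 1 ∧
    ∀ y, Conn κ b e z y → Av κ b e z (τ y) ∧ τ y • z = y := by
  refine ⟨fun y => if y = z then 1 else if h : Conn κ b e z y then h.choose else 1, by simp, ?_⟩
  intro y hy
  by_cases h : y = z
  · simp only [h, if_true]; exact ⟨Av.one _ _, one_smul _ _⟩
  · simp only [h, if_false, hy, dif_pos]; exact hy.choose_spec

theorem exists_v (e z : X) : ∃ (τ : X → G) (v : G → X → Lp κ b e z), τ z = 1 ∧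
    (∀ y, Conn κ b e z y → Av κ b e z (τ y) ∧ τ y • z = y) ∧
    ∀ g y, Conn κ b e z y → Av κ b e y g → (v g y : G) = (τ (g • y))⁻¹ * g * τ y := by
  obtain ⟨τ, h1, h2⟩ := exists_tau (κ := κ) (b := b) e z
  refine ⟨τ, fun g y => if h : (τ (g • y))⁻¹ * g * τ y ∈ Lp κ b e z then ⟨_, h⟩ else 1, h1, h2, ?_⟩
  intro g y hy hg
  have : (τ (g • y))⁻¹ * g * τ y ∈ Lp κ b e z := by
    obtain ⟨a1, a2⟩ := h2 y hy
    obtain ⟨a3, a4⟩ := h2 _ (hy.step hg)
    refine ⟨?_, ?_⟩
    · have b1 : Av κ b e z (g * τ y) := a1.mul (by rwa [a2])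
      have b2 := a3.inv
      rw [a4] at b2
      rw [mul_assoc]
      exact b1.mul (by rwa [mul_smul, a2])
    · rw [mul_smul, mul_smul, a2, inv_smul_eq_iff, a4]
  simp only [this, dif_pos]

theorem coc_ext (h : FP κ b) (e : X) {L : Type} [Group L] (d : G → X → L) (l : L)
    (hd : ∀ g g' y, Av κ b e y g → Av κ b e (g • y) g' → d (g' * g) y = d g' (g • y) * d g y)
    (ψ : L →* G) (t : X → G) (ht : ∀ g y, Av κ b e y g → ψ (d g y) = (t (g • y))⁻¹ * g * t y)
    (hl : ψ l = (t (b • e))⁻¹ * b * t e) :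
    ∃ c : G → X → L, Coc c ∧ (∀ g y, Av κ b e y g → c g y = d g y) ∧ c b e = l ∧
      ∀ g y, ψ (c g y) = (t (g • y))⁻¹ * g * t y := by
  obtain ⟨c, hc, hk, hb⟩ := h.coc (fun k y => d (κ k) y) (fun y => if y = e then l else d b y) (by
    intro k k' x
    rw [map_mul]
    exact hd _ _ _ (Av.k _ _ _) (Av.k _ _ _))
  have d1 : ∀ y, d 1 y = 1 := by
    intro y
    have := hd 1 1 y (Av.one _ _) (Av.one _ _)
    rw [one_mul, one_smul] at this
    exact mul_eq_left.1 this.symm
  have hst : ∀ y s o, St κ b y s o → o ≠ some e → c s y = d s y := by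
    intro y s o hs ho
    cases hs with
    | k k => exact hk _ _
    | b =>
      rw [hb, if_neg]
      rintro rfl
      exact ho rfl
    | bi =>
      have hne : b⁻¹ • y ≠ e := by
        intro h; apply ho; rw [h]
      rw [hc.inv, hb, if_neg hne]
      have a1 : Av κ b e y b⁻¹ := ⟨1, Pa.single (St.bi y) ho⟩
      have a2 : Av κ b e (b⁻¹ • y) b := ⟨1, Pa.single (St.b _) ho⟩
      have := hd _ _ _ a1 a2
      rw [mul_inv_cancel, d1] at this
      exact (eq_inv_of_mul_eq_one_right this.symm).symm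
  have hb' : ∀ y, ψ (c b y) = (t (b • y))⁻¹ * b * t y := by
    intro y
    by_cases hy : y = e
    · rw [hb, if_pos hy, hl, hy]
    · rw [hb, if_neg hy]
      exact ht _ _ ⟨1, Pa.single (St.b _) (by simpa using hy)⟩
  refine ⟨c, hc, ?_, by rw [hb, if_pos rfl], ?_⟩
  · rintro g y ⟨n, hn⟩
    induction hn with
    | nil => rw [hc.one, d1]
    | cons h1 h2 h3 ih =>
      rw [hc, ih, hst _ _ _ h2 h3, hd _ _ _ ⟨_, h1⟩ ⟨1, Pa.single h2 h3⟩]
  · intro g y
    revert g
    apply h.gen
    · rw [hc.one, map_one, one_smul]; group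
    · intro k g ih
      rw [hc, map_mul, ih, hk, ht _ _ (Av.k _ _ _), mul_smul]; group
    · intro g ih
      rw [hc, map_mul, ih, hb', mul_smul]; group
    · intro g ih
      rw [hc, map_mul, ih, hc.inv, map_inv, hb', mul_smul, smul_inv_smul]; group

theorem iso_of_coc (e : X) {A B : Type} [Group A] [Group B] (α : A →* G) (β : B →* G)
    (c : G → X → Coprod A B) (hc : Coc c) (hα : ∀ a, α a • e = e) (hβ : ∀ a, β a • e = e)
    (h1 : ∀ a, c (α a) e = Coprod.inl a) (h2 : ∀ a, c (β a) e = Coprod.inr a)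
    (h3 : ∀ g, g • e = e → Coprod.lift α β (c g e) = g) :
    Nonempty (MulAction.stabilizer G e ≃* Coprod A B) := by
  let φ : MulAction.stabilizer G e →* Coprod A B := MonoidHom.mk' (fun g => c g e) (by
    intro g g'
    show c (g * g') e = _
    rw [hc, g'.2])
  let ψ : Coprod A B →* MulAction.stabilizer G e :=
    Coprod.lift (α.codRestrict _ hα) (β.codRestrict _ hβ)
  have hψ : ∀ w, (ψ w : G) = Coprod.lift α β w := by
    intro w
    have : (MulAction.stabilizer G e).subtype.comp ψ = Coprod.lift α β :=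
      Coprod.hom_ext (by ext; rfl) (by ext; rfl)
    exact DFunLike.congr_fun this w
  refine ⟨MonoidHom.toMulEquiv φ ψ ?_ ?_⟩
  · ext g
    show (ψ (c g e) : G) = g
    rw [hψ, h3 _ g.2]
  · apply Coprod.hom_ext
    · ext a; exact h1 a
    · ext a; exact h2 a

theorem conn_or (h : FP κ b) (e : X) (g : G) :
    Conn κ b e e (g • e) ∨ Conn κ b e (b • e) (g • e) := by
  obtain ⟨n, hn⟩ := h.path e g
  induction hn with
  | nil => left; rw [one_smul]; exact Conn.refl _ _
  | @cons n g s o h1 h2 h3 ih =>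
    rw [mul_smul]
    by_cases ho : o = some e
    · subst ho
      rcases (St.b (κ := κ) (b := b) e).two h2.inv with h4 | ⟨h4, _⟩
      · left; rw [h4]; exact Conn.refl _ _
      · right; rw [h4]; exact Conn.refl _ _
    · have : Av κ b e (g • e) s := ⟨1, Pa.single h2 ho⟩
      exact ih.imp (fun h => h.step this) (fun h => h.step this)

theorem split_one (h : FP κ b) (htr : ∀ x y : X, ∃ g : G, g • x = y) (e : X)
    (hs : Conn κ b e e (b • e)) :
    Nonempty (MulAction.stabilizer G e ≃* Coprod (Lp κ b e e) (Multiplicative ℤ)) := by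
  have hall : ∀ y, Conn κ b e e y := by
    intro y
    obtain ⟨g, rfl⟩ := htr e y
    exact (conn_or h e g).elim id (fun h => hs.trans h)
  obtain ⟨τ, v, h1, h2, h3⟩ := exists_v (κ := κ) (b := b) e e
  let β : Multiplicative ℤ →* G := zpowersHom G ((τ (b • e))⁻¹ * b)
  obtain ⟨c, hc, c1, c2, c3⟩ := coc_ext h e (L := Coprod (Lp κ b e e) (Multiplicative ℤ))
    (fun g y => Coprod.inl (v g y)) (Coprod.inr (Multiplicative.ofAdd 1)) (by
      intro g g' y a1 a2
      rw [← map_mul]
      congr 1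
      apply Subtype.ext
      rw [Subgroup.coe_mul, h3 _ _ (hall _) (a1.mul a2), h3 _ _ (hall _) a1, h3 _ _ (hall _) a2,
        mul_smul]
      group) (Coprod.lift (Lp κ b e e).subtype β) τ (by
      intro g y a1
      rw [Coprod.lift_apply_inl]
      exact h3 _ _ (hall _) a1) (by
      rw [Coprod.lift_apply_inr, h1, mul_one]
      simp [β])
  have hfix : ((τ (b • e))⁻¹ * b) • e = e := by
    rw [mul_smul, inv_smul_eq_iff, (h2 _ (hall _)).2]
  have hβ : ∀ a, β a • e = e := by
    intro a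
    exact (MulAction.stabilizer G e).zpow_mem hfix _
  refine iso_of_coc e (Lp κ b e e).subtype β c hc (fun a => a.2.2) hβ ?_ ?_ ?_
  · intro a
    rw [Subgroup.coe_subtype, c1 _ _ a.2.1]
    congr 1
    apply Subtype.ext
    rw [h3 _ _ (hall _) a.2.1]
    show (τ ((a : G) • e))⁻¹ * a * τ e = a
    rw [a.2.2, h1]; group
  · let φ : Multiplicative ℤ →* Coprod (Lp κ b e e) (Multiplicative ℤ) :=
      MonoidHom.mk' (fun a => c (β a) e) (by
        intro a a'
        show c (β (a * a')) e = _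
        rw [map_mul, hc, hβ])
    have : φ = Coprod.inr := by
      apply MonoidHom.ext_mint
      show c (β (Multiplicative.ofAdd 1)) e = _
      have e1 : β (Multiplicative.ofAdd 1) = (τ (b • e))⁻¹ * b := by simp [β]
      have a1 := (h2 _ (hall (b • e))).1.inv
      rw [(h2 _ (hall _)).2] at a1
      rw [e1, hc, c2, c1 _ _ a1]
      have : v (τ (b • e))⁻¹ (b • e) = 1 := by
        apply Subtype.ext
        rw [h3 _ _ (hall _) a1, ← mul_smul, hfix, h1]
        simp
      simp only [this, map_one, one_mul]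
    intro a
    exact DFunLike.congr_fun this a
  · intro g hg
    rw [c3, hg, h1]; group

theorem split_two (h : FP κ b) (htr : ∀ x y : X, ∃ g : G, g • x = y) (e : X)
    (hs : ¬ Conn κ b e e (b • e)) :
    Nonempty (MulAction.stabilizer G e ≃* Coprod (Lp κ b e e) (Lp κ b e (b • e))) := by
  have hall : ∀ y, ¬ Conn κ b e e y → Conn κ b e (b • e) y := by
    intro y hy
    obtain ⟨g, rfl⟩ := htr e y
    exact (conn_or h e g).resolve_left hy
  obtain ⟨τ, v, h1, h2, h3⟩ := exists_v (κ := κ) (b := b) e e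
  obtain ⟨τ', v', h1', h2', h3'⟩ := exists_v (κ := κ) (b := b) e (b • e)
  let β : Lp κ b e (b • e) →* G := (MulAut.conj b⁻¹).toMonoidHom.comp (Subgroup.subtype _)
  have hβ0 : ∀ a, β a = b⁻¹ * a * b := by intro a; simp [β]
  obtain ⟨c, hc, c1, c2, c3⟩ := coc_ext h e (L := Coprod (Lp κ b e e) (Lp κ b e (b • e)))
    (fun g y => if Conn κ b e e y then Coprod.inl (v g y) else Coprod.inr (v' g y)) 1 (by
      intro g g' y a1 a2
      by_cases hy : Conn κ b e e y
      · have hy' := hy.step a1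
        simp only [hy, hy', if_true]
        rw [← map_mul]
        congr 1
        apply Subtype.ext
        rw [Subgroup.coe_mul, h3 _ _ hy (a1.mul a2), h3 _ _ hy a1, h3 _ _ hy' a2, mul_smul]
        group
      · have hy' : ¬ Conn κ b e e (g • y) := by rwa [conn_iff a1]
        simp only [hy, hy', if_false]
        rw [← map_mul]
        congr 1
        apply Subtype.ext
        rw [Subgroup.coe_mul, h3' _ _ (hall _ hy) (a1.mul a2), h3' _ _ (hall _ hy) a1,
          h3' _ _ (hall _ hy') a2, mul_smul]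
        group) (Coprod.lift (Lp κ b e e).subtype β)
      (fun y => if Conn κ b e e y then τ y else τ' y * b) (by
      intro g y a1
      by_cases hy : Conn κ b e e y
      · have hy' := hy.step a1
        simp only [hy, hy', if_true]
        rw [Coprod.lift_apply_inl]
        exact h3 _ _ hy a1
      · have hy' : ¬ Conn κ b e e (g • y) := by rwa [conn_iff a1]
        simp only [hy, hy', if_false]
        rw [Coprod.lift_apply_inr, hβ0, h3' _ _ (hall _ hy) a1]
        group) (by
      simp only [hs, Conn.refl, if_true, if_false, h1, h1', map_one]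
      group)
  refine iso_of_coc e (Lp κ b e e).subtype β c hc (fun a => a.2.2) ?_ ?_ ?_ ?_
  · intro a
    rw [hβ0, mul_smul, mul_smul, a.2.2, inv_smul_smul]
  · intro a
    rw [Subgroup.coe_subtype, c1 _ _ a.2.1]
    simp only [Conn.refl, if_true]
    congr 1
    apply Subtype.ext
    rw [h3 _ _ (Conn.refl _ _) a.2.1]
    show (τ ((a : G) • e))⁻¹ * a * τ e = a
    rw [a.2.2, h1]; group
  · intro a
    rw [hβ0, hc, hc, c2, a.2.2, hc.inv, inv_smul_smul, c2, c1 _ _ a.2.1]
    simp only [hs, if_false, inv_one, one_mul, mul_one]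
    congr 1
    apply Subtype.ext
    rw [h3' _ _ (Conn.refl _ _) a.2.1, a.2.2, h1']; group
  · intro g hg
    rw [c3, hg]
    simp only [Conn.refl, if_true, h1]
    group

theorem nontriv_of {e z : X} (h : ¬ ∀ g, Av κ b e z g → g • z = z → g = 1) :
    Nontrivial (Lp κ b e z) := by
  push Not at h
  obtain ⟨g, h1, h2, h3⟩ := h
  exact ⟨⟨⟨g, h1, h2⟩, 1, fun h => h3 (congrArg Subtype.val h)⟩⟩

theorem kurosh (h : FP κ b) {H : Type} [Group H] (i : H →* G) (hi : Function.Injective i)
    (h1 : ¬ Decomp H) (h2 : ¬ Nonempty (H ≃* Multiplicative ℤ)) :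
    ∃ g : G, ∀ x, g * i x * g⁻¹ ∈ κ.range := by
  let X := G ⧸ i.range
  have htr : ∀ x y : X, ∃ g : G, g • x = y := fun x y => MulAction.exists_smul_eq G x y
  let x0 : X := ((1 : G) : G ⧸ i.range)
  have hx0 : MulAction.stabilizer G x0 = i.range := MulAction.stabilizer_quotient _
  have hiso : ∀ e : X, Nonempty (H ≃* MulAction.stabilizer G e) := by
    intro e
    obtain ⟨g, hg⟩ := htr x0 e
    have r : (MulAction.orbitRel G X) e x0 := ⟨g, hg⟩
    exact ⟨((MonoidHom.ofInjective hi).trans (MulEquiv.subgroupCongr hx0.symm)).trans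
      (MulAction.stabilizerEquivStabilizerOfOrbitRel r).symm⟩
  have hs : ∀ e : X, ¬ Conn κ b e e (b • e) := by
    intro e he
    obtain ⟨φ⟩ := split_one h htr e he
    obtain ⟨φ'⟩ := hiso e
    rcases subsingleton_or_nontrivial (Lp κ b e e) with h3 | h3
    · apply h2
      haveI : Unique (Lp κ b e e) := uniqueOfSubsingleton 1
      exact ⟨(φ'.trans φ).trans (((MulEquiv.ofUnique : Lp κ b e e ≃* PUnit.{1}).coprodCongr
        (MulEquiv.refl _)).trans (MulEquiv.punitCoprod _))⟩
    · exact h1 ⟨_, _, _, _, h3, inferInstance, ⟨φ'.trans φ⟩⟩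
  have hA : ∀ e : X, (∀ g, Av κ b e e g → g • e = e → g = 1) ∨
      (∀ g, Av κ b e (b • e) g → g • b • e = b • e → g = 1) := by
    intro e
    by_contra hc
    rw [not_or] at hc
    obtain ⟨φ⟩ := split_two h htr e (hs e)
    obtain ⟨φ'⟩ := hiso e
    exact h1 ⟨_, _, _, _, nontriv_of hc.1, nontriv_of hc.2, ⟨φ'.trans φ⟩⟩
  have hfix : ∀ x, i x • x0 = x0 := by
    intro x
    have : i x ∈ MulAction.stabilizer G x0 := by rw [hx0]; exact ⟨x, rfl⟩
    exact this
  by_cases hK : ∀ (x : X) (k : K), κ k • x = x → κ k = 1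
  · refine ⟨1, fun x => ?_⟩
    rw [triv_of_sep h hs hK x0 _ (hfix x)]
    simp
  · push Not at hK
    obtain ⟨y, k, hk0, hk1⟩ := hK
    obtain ⟨g, rfl⟩ := htr x0 y
    refine ⟨g, fun x => range_of_sep h hs hA _ k hk0 hk1 _ ?_⟩
    rw [mul_smul, mul_smul, inv_smul_smul, hfix]

end H77.Kur
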