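import Pool.Agent.H77.KurB

namespace H77.Kur

open Classical Monoid

def ga (n : ℕ) : Gam := PresentedGroup.of (Sum.inl n)

def gb (n : ℕ) : Gam := PresentedGroup.of (Sum.inr n)

theorem exists_hom {L : Type} [Group L] (a b : ℕ → L)
    (h : ∀ n, a (n + 1) * b n * (a (n + 1))⁻¹ * (b n)⁻¹ = a n) :
    ∃ F : Gam →* L, (∀ n, F (ga n) = a n) ∧ ∀ n, F (gb n) = b n := by
  have hr : ∀ r ∈ rels, FreeGroup.lift (Sum.elim a b) r = 1 := by
    rintro r ⟨n, rfl⟩
    simp only [map_mul, map_inv, FreeGroup.lift_apply_of, Sum.elim_inl, Sum.elim_inr]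
    rw [h, mul_inv_cancel]
  exact ⟨PresentedGroup.toGroup hr, fun n => PresentedGroup.toGroup.of hr,
    fun n => PresentedGroup.toGroup.of hr⟩

theorem rel (n : ℕ) : ga (n + 1) * gb n * (ga (n + 1))⁻¹ * (gb n)⁻¹ = ga n := by
  have := PresentedGroup.one_of_mem (rels := rels) ⟨n, rfl⟩
  simp only [map_mul, map_inv] at this
  exact mul_inv_eq_one.1 this

theorem gen_sub (S : Subgroup Gam) (ha : ∀ n, ga n ∈ S) (hb : ∀ n, gb n ∈ S) (g : Gam) : g ∈ S := by
  apply PresentedGroup.generated_by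
  rintro (n | n)
  · exact ha n
  · exact hb n

noncomputable def sh : Gam →* Gam :=
  (exists_hom (fun n => ga (n + 1)) (fun n => gb (n + 1)) (fun n => rel (n + 1))).choose

theorem sh_a (n : ℕ) : sh (ga n) = ga (n + 1) :=
  (exists_hom (fun n => ga (n + 1)) (fun n => gb (n + 1)) (fun n => rel (n + 1))).choose_spec.1 n

theorem sh_b (n : ℕ) : sh (gb n) = gb (n + 1) :=
  (exists_hom (fun n => ga (n + 1)) (fun n => gb (n + 1)) (fun n => rel (n + 1))).choose_spec.2 n

theorem hom_ext' {L : Type} [Group L] (F F' : Gam →* L) (ha : ∀ n, F (ga n) = F' (ga n))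
    (hb : ∀ n, F (gb n) = F' (gb n)) : F = F' := by
  refine MonoidHom.ext fun g => ?_
  exact gen_sub (F.eqLocus F') ha hb g

theorem fp : FP sh (gb 0) where
  lift := by
    intro L _ f l
    obtain ⟨F, h1, h2⟩ := exists_hom (L := L)
      (fun n => Nat.casesOn n (f (ga 0) * l * (f (ga 0))⁻¹ * l⁻¹) (fun m => f (ga m)))
      (fun n => Nat.casesOn n l (fun m => f (gb m))) (by
        rintro (_ | n)
        · rfl
        · show f (ga (n + 1)) * f (gb n) * (f (ga (n + 1)))⁻¹ * (f (gb n))⁻¹ = f (ga n)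
          rw [← map_inv, ← map_inv, ← map_mul, ← map_mul, ← map_mul, rel])
    refine ⟨F, ?_, h2 0⟩
    have : F.comp sh = f := hom_ext' _ _ (fun n => by rw [MonoidHom.comp_apply, sh_a, h1])
      (fun n => by rw [MonoidHom.comp_apply, sh_b, h2])
    exact fun k => DFunLike.congr_fun this k
  gen := by
    intro P h1 hk hb hb' g
    have key : ∀ g : Gam, (∀ x, P x → P (g * x)) ∧ (∀ x, P x → P (g⁻¹ * x)) := by
      let S : Subgroup Gam :=
        { carrier := {g | (∀ x, P x → P (g * x)) ∧ (∀ x, P x → P (g⁻¹ * x))}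
          one_mem' := by simp
          mul_mem' := by
            rintro g g' ⟨a1, a2⟩ ⟨a3, a4⟩
            refine ⟨fun x hx => ?_, fun x hx => ?_⟩
            · rw [mul_assoc]; exact a1 _ (a3 _ hx)
            · rw [mul_inv_rev, mul_assoc]; exact a4 _ (a2 _ hx)
          inv_mem' := by
            rintro g ⟨a1, a2⟩
            exact ⟨a2, by rwa [inv_inv]⟩ }
      have hs : ∀ k, sh k ∈ S := fun k => ⟨hk k, by rw [← map_inv]; exact hk _⟩
      have h0 : gb 0 ∈ S := ⟨hb, hb'⟩
      apply gen_sub S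
      · rintro (_ | n)
        · rw [← rel, ← sh_a]
          exact mul_mem (mul_mem (mul_mem (hs _) h0) (inv_mem (hs _))) (inv_mem h0)
        · rw [← sh_a]; exact hs _
      · rintro (_ | n)
        · exact h0
        · rw [← sh_b]; exact hs _
    have := (key g).1 1 h1
    rwa [mul_one] at this

noncomputable def rt : Monoid.End Gam := (fp.lift Gam (MonoidHom.id _) 1).choose

theorem rt_sh (g : Gam) : rt (sh g) = g := (fp.lift Gam (MonoidHom.id _) 1).choose_spec.1 g

theorem rt_b : rt (gb 0) = 1 := (fp.lift Gam (MonoidHom.id _) 1).choose_spec.2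

theorem sh_inj : Function.Injective sh := Function.LeftInverse.injective rt_sh

noncomputable def shE : Monoid.End Gam := sh

theorem rt_pow_sh (n : ℕ) (g : Gam) : (rt ^ n) ((shE ^ n) g) = g := by
  induction n with
  | zero => rfl
  | succ n ih =>
    rw [pow_succ rt, pow_succ' shE]
    show (rt ^ n) (rt (sh ((shE ^ n) g))) = g
    rw [rt_sh, ih]

theorem kill_mono {n m : ℕ} (h : n ≤ m) {g : Gam} (hg : (rt ^ n) g = 1) : (rt ^ m) g = 1 := by
  obtain ⟨k, rfl⟩ := Nat.exists_eq_add_of_le' h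
  rw [pow_add]
  show (rt ^ k) ((rt ^ n) g) = 1
  rw [hg, map_one]

theorem kill (g : Gam) : ∃ n, (rt ^ n) g = 1 := by
  let S : Subgroup Gam :=
    { carrier := {g | ∃ n, (rt ^ n) g = 1}
      one_mem' := ⟨0, map_one _⟩
      mul_mem' := by
        rintro g g' ⟨n, a1⟩ ⟨m, a2⟩
        exact ⟨max n m, by
          rw [map_mul, kill_mono (le_max_left _ _) a1, kill_mono (le_max_right _ _) a2, mul_one]⟩
      inv_mem' := by
        rintro g ⟨n, a1⟩
        exact ⟨n, by rw [map_inv, a1, inv_one]⟩ }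
  have hs : ∀ g, g ∈ S → sh g ∈ S := by
    rintro g ⟨n, hn⟩
    refine ⟨n + 1, ?_⟩
    rw [pow_succ rt]
    show (rt ^ n) (rt (sh g)) = 1
    rw [rt_sh, hn]
  apply gen_sub S
  · intro n
    induction n with
    | zero =>
      refine ⟨1, ?_⟩
      rw [pow_one, ← rel, map_mul, map_mul, map_mul, map_inv, map_inv, rt_b]
      group
    | succ n ih => rw [← sh_a]; exact hs _ ih
  · intro n
    induction n with
    | zero => exact ⟨1, by rw [pow_one, rt_b]⟩
    | succ n ih => rw [← sh_b]; exact hs _ ih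

theorem sub_triv {H : Type} [Group H] (i : H →* Gam) (hi : Function.Injective i)
    (h1 : ¬ Decomp H) (h2 : ¬ Nonempty (H ≃* Multiplicative ℤ)) (x : H) : x = 1 := by
  have key : ∀ n : ℕ, ∃ (g : Gam) (j : H →* Gam), Function.Injective j ∧
      ∀ x, g * i x * g⁻¹ = (shE ^ n) (j x) := by
    intro n
    induction n with
    | zero => exact ⟨1, i, hi, fun x => by simp⟩
    | succ n ih =>
      obtain ⟨g, j, hj, h3⟩ := ih
      obtain ⟨g', h4⟩ := kurosh fp j hj h1 h2
      let j' : H →* Gam := (show Gam →* Gam from rt).comp ((MulAut.conj g').toMonoidHom.comp j)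
      have h5 : ∀ x, sh (j' x) = g' * j x * g'⁻¹ := by
        intro x
        obtain ⟨y, hy⟩ := h4 x
        show sh (rt (g' * j x * g'⁻¹)) = _
        rw [← hy, rt_sh]
      refine ⟨(shE ^ n) g' * g, j', ?_, ?_⟩
      · intro x y hxy
        have := h5 x
        rw [hxy, h5 y] at this
        exact (hj (mul_left_cancel (mul_right_cancel this))).symm
      · intro x
        rw [pow_succ shE]
        show _ = (shE ^ n) (sh (j' x))
        rw [h5, map_mul, map_mul, map_inv, ← h3]
        group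
  obtain ⟨n, hn⟩ := kill (i x)
  obtain ⟨g, j, hj, h3⟩ := key n
  have := congrArg (rt ^ n) (h3 x)
  rw [rt_pow_sh, map_mul, map_mul, hn, map_inv, mul_one, mul_inv_cancel] at this
  exact hj (by rw [← this, map_one])

theorem not_decomp_of_comm {H : Type} [Group H] (h : ∀ x y : H, x * y = y * x) : ¬ Decomp H := by
  rintro ⟨A, B, _, _, hA, hB, ⟨φ⟩⟩
  obtain ⟨a, ha⟩ := exists_ne (1 : A)
  obtain ⟨b, hb⟩ := exists_ne (1 : B)
  let fA : A →* Equiv.Perm (A × B) := MonoidHom.mk' (fun a =>
    { toFun := fun p => if p.2 = 1 then (a * p.1, p.2) else p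
      invFun := fun p => if p.2 = 1 then (a⁻¹ * p.1, p.2) else p
      left_inv := by intro p; by_cases hp : p.2 = 1 <;> simp [hp]; rw [← hp]
      right_inv := by intro p; by_cases hp : p.2 = 1 <;> simp [hp]; rw [← hp] }) (by
    intro a a'
    ext1 p
    by_cases hp : p.2 = 1 <;> simp [hp, mul_assoc])
  let fB : B →* Equiv.Perm (A × B) := MonoidHom.mk' (fun a =>
    { toFun := fun p => if p.1 = 1 then (p.1, a * p.2) else p
      invFun := fun p => if p.1 = 1 then (p.1, a⁻¹ * p.2) else p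
      left_inv := by intro p; by_cases hp : p.1 = 1 <;> simp [hp]; rw [← hp]
      right_inv := by intro p; by_cases hp : p.1 = 1 <;> simp [hp]; rw [← hp] }) (by
    intro a a'
    ext1 p
    by_cases hp : p.1 = 1 <;> simp [hp, mul_assoc])
  have h1 : (Coprod.inl a : Coprod A B) * Coprod.inr b = Coprod.inr b * Coprod.inl a := by
    apply φ.symm.injective
    rw [map_mul, map_mul, h]
  have h2 := congrArg (fun w => Coprod.lift fA fB w (1, 1)) h1
  simp [fA, fB, ha, hb] at h2

theorem torsion_free (g : Gam) (hg : IsOfFinOrder g) : g = 1 := by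
  haveI : Finite (Subgroup.zpowers g) := finite_zpowers.2 hg
  have := sub_triv (Subgroup.zpowers g).subtype Subtype.val_injective
    (not_decomp_of_comm (by
      rintro ⟨_, a, rfl⟩ ⟨_, b, rfl⟩
      exact Subtype.ext (zpow_mul_comm g a b))) (by
      rintro ⟨φ⟩
      haveI : Finite (Multiplicative ℤ) := Finite.of_equiv _ φ.toEquiv
      exact not_finite (Multiplicative ℤ)) ⟨g, Subgroup.mem_zpowers g⟩
  exact congrArg Subtype.val this

theorem gb_ne : gb 0 ≠ 1 := by
  obtain ⟨F, -, h⟩ := fp.lift (Multiplicative ℤ) 1 (Multiplicative.ofAdd 1)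
  intro h0
  rw [h0, map_one] at h
  exact absurd h (by decide)

theorem not_finite_rank : ¬ FiniteKuroshRank Gam := by
  rintro ⟨n, H, _, hH, ⟨φ⟩⟩
  have h1 : ∀ i, ∃ m, ∀ x : H i, (rt ^ m) (φ.symm (CoprodI.of x)) = 1 := by
    intro i
    by_cases hc : Nonempty (H i ≃* Multiplicative ℤ)
    · obtain ⟨ψ⟩ := hc
      obtain ⟨m, hm⟩ := kill (φ.symm (CoprodI.of (ψ.symm (Multiplicative.ofAdd 1))))
      refine ⟨m, fun x => ?_⟩
      have : x = (ψ.symm (Multiplicative.ofAdd 1)) ^ (ψ x).toAdd := by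
        rw [← map_zpow, ← ofAdd_zsmul]
        simp
      rw [this, map_zpow, map_zpow, map_zpow, hm, one_zpow]
    · refine ⟨0, fun x => ?_⟩
      rw [sub_triv (φ.symm.toMonoidHom.comp CoprodI.of)
        (φ.symm.injective.comp (CoprodI.of_injective i)) (hH i).2 hc x]
      simp
  choose m hm using h1
  let M := Finset.univ.sup m
  have h2 : (show Gam →* Gam from rt ^ M).comp φ.symm.toMonoidHom = 1 := by
    apply CoprodI.ext_hom
    intro i
    ext x
    exact kill_mono (Finset.le_sup (f := m) (Finset.mem_univ i)) (hm i x)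
  have h3 := DFunLike.congr_fun h2 (φ ((shE ^ M) (gb 0)))
  apply gb_ne
  rw [← rt_pow_sh M (gb 0)]
  have h4 : (rt ^ M) (φ.symm (φ ((shE ^ M) (gb 0)))) = 1 := h3
  rwa [φ.symm_apply_apply] at h4

theorem ga_ne : ga 1 ≠ 1 := by
  obtain ⟨F, h, -⟩ := exists_hom (L := DihedralGroup 3)
    (fun n => if n % 2 = 0 then DihedralGroup.r 1 else DihedralGroup.r 2)
    (fun _ => DihedralGroup.sr 0) (by
      intro n
      rcases Nat.mod_two_eq_zero_or_one n with h | h
      · have : (n + 1) % 2 = 1 := by omega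
        simp only [h, this]; decide
      · have : (n + 1) % 2 = 0 := by omega
        simp only [h, this]; decide)
  intro h0
  have := h 1
  rw [h0, map_one] at this
  exact absurd this (by decide)

end H77.Kur
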