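import Pool.Agent.H77.KurC

namespace H77.Kur

open Classical Monoid

/-- Almost invariant integer valued functions. -/
def AIf (f : Gam → ℤ) : Prop := ∀ g, (Function.support fun x => f (x * g) - f x).Finite

theorem exists_cut (z : Gam) : ∃ s : Gam → ℤ,
    (∀ y, s (y * (gb 0 * (ga 1)⁻¹ * (gb 0)⁻¹)) = s y) ∧
    ∀ y, s y - s (y * (gb 0)⁻¹) = if y = z then 1 else 0 := by
  let θ : Gam → Multiplicative ℤ := fun w => Multiplicative.ofAdd (if w = z⁻¹ then -1 else 0)
  obtain ⟨c, hc, hk, hb⟩ := fp.coc (X := Gam) (fun k w => (θ (sh k • w))⁻¹ * θ w) θ (by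
    intro k k' x
    rw [map_mul, mul_smul]
    group)
  refine ⟨fun y => (c y⁻¹ 1).toAdd, ?_, ?_⟩
  · intro y
    have e1 : (y * (gb 0 * (ga 1)⁻¹ * (gb 0)⁻¹))⁻¹ = gb 0 * (sh (ga 0) * ((gb 0)⁻¹ * y⁻¹)) := by
      rw [sh_a]; group
    simp only [e1]
    rw [hc, hc, hc, hc.inv (gb 0), hb, hb, hk]
    simp only [smul_eq_mul, mul_assoc]
    group
  · intro y
    have e1 : (y * (gb 0)⁻¹)⁻¹ = gb 0 * y⁻¹ := by group
    simp only [e1]
    rw [hc, hb]
    simp only [θ, smul_eq_mul, mul_one, inv_inj, toAdd_mul, toAdd_ofAdd]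
    split_ifs <;> ring

theorem fin_comp {p : Gam → ℤ} (hp : (Function.support p).Finite) (g : Gam) :
    (Function.support fun y => p (y * g)).Finite :=
  hp.preimage (f := fun y => y * g) (mul_left_injective g).injOn

theorem fin_mul {p : Gam → ℤ} (hp : (Function.support p).Finite) (s : Gam → ℤ) :
    (Function.support fun y => p y * s y).Finite :=
  hp.subset (fun y hy h => hy (by simp only [h, zero_mul]))

theorem pair_shift {p : Gam → ℤ} (hp : (Function.support p).Finite) (s : Gam → ℤ) (g : Gam) :
    ∑ᶠ y, (p y - p (y * g)) * s y = ∑ᶠ y, p y * (s y - s (y * g⁻¹)) := by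
  simp only [sub_mul, mul_sub]
  rw [finsum_sub_distrib (fin_mul hp _) (fin_mul (fin_comp hp g) _),
    finsum_sub_distrib (fin_mul hp _) (fin_mul hp _)]
  congr 1
  rw [← finsum_comp_equiv (Equiv.mulRight g) (f := fun y => p y * s (y * g⁻¹))]
  simp

theorem step_zero {f : Gam → ℤ} (hf : AIf f) (h : ∀ x, f (x * ga 0) = f x) :
    (∀ x, f (x * ga 1) = f x) ∧ ∀ x, f (x * gb 0) = f x := by
  set a := ga 1 with ha
  set b := gb 0 with hb
  set c := b * a⁻¹ * b⁻¹ with hc
  let p : Gam → ℤ := fun y => f (y * a⁻¹) - f y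
  let q : Gam → ℤ := fun y => f (y * b) - f y
  have hp : (Function.support p).Finite := hf _
  have hq : (Function.support q).Finite := hf _
  have key : ∀ y, p y - p (y * b) = q y - q (y * c) := by
    intro y
    have h1 := h (y * a⁻¹)
    have e1 : y * a⁻¹ * ga 0 = y * c := by rw [← rel 0, hc]; simp only [zero_add, ← ha, ← hb]; group
    have e2 : y * c * b = y * b * a⁻¹ := by rw [hc]; group
    rw [e1] at h1
    simp only [p, q, e2, h1]
    ring
  have hp0 : ∀ z, p z = 0 := by
    intro z
    obtain ⟨s, s1, s2⟩ := exists_cut z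
    have h1 := pair_shift hp s b
    have h2 := pair_shift hq s c
    simp only [key] at h1
    rw [h1] at h2
    have s3 : ∀ y, s (y * c⁻¹) = s y := by
      intro y
      rw [← s1 (y * c⁻¹), inv_mul_cancel_right]
    rw [← hb] at s2
    simp only [s2, s3, sub_self, mul_zero, finsum_zero] at h2
    rw [finsum_eq_single _ z (fun y hy => by rw [if_neg hy, mul_zero])] at h2
    simpa using h2
  refine ⟨fun x => ?_, fun x => ?_⟩
  · have := hp0 (x * a)
    simp only [p, mul_inv_cancel_right] at this
    omega
  · by_contra hne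
    have hq0 : q x ≠ 0 := sub_ne_zero.2 hne
    have h1 : ∀ n : ℕ, q (x * c ^ n) = q x := by
      intro n
      induction n with
      | zero => simp
      | succ n ih =>
        have := key (x * c ^ n)
        rw [hp0, hp0] at this
        rw [pow_succ, ← mul_assoc, ← ih]
        omega
    have hc1 : ¬ IsOfFinOrder c := by
      intro h2
      have h3 := torsion_free c h2
      apply ga_ne
      have : a = b⁻¹ * c⁻¹ * b := by rw [hc]; group
      rw [← ha, this, h3]
      group
    have hinj : Function.Injective fun n : ℕ => x * c ^ n :=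
      (mul_right_injective x).comp (injective_pow_iff_not_isOfFinOrder.2 hc1)
    exact Set.infinite_of_injective_forall_mem hinj
      (fun n => show q (x * c ^ n) ≠ 0 by rw [h1]; exact hq0) hq

theorem sh_pow_a (n m : ℕ) : (shE ^ n) (ga m) = ga (m + n) := by
  induction n with
  | zero => rfl
  | succ n ih =>
    rw [pow_succ' shE]
    show sh ((shE ^ n) (ga m)) = _
    rw [ih, sh_a]; rfl

theorem sh_pow_b (n m : ℕ) : (shE ^ n) (gb m) = gb (m + n) := by
  induction n with
  | zero => rfl
  | succ n ih =>
    rw [pow_succ' shE]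
    show sh ((shE ^ n) (gb m)) = _
    rw [ih, sh_b]; rfl

theorem step_n {f : Gam → ℤ} (hf : AIf f) (n : ℕ) (h : ∀ x, f (x * ga n) = f x) :
    (∀ x, f (x * ga (n + 1)) = f x) ∧ ∀ x, f (x * gb n) = f x := by
  have key : ∀ y, (∀ x, f (y * (shE ^ n) (x * ga 1)) = f (y * (shE ^ n) x)) ∧
      ∀ x, f (y * (shE ^ n) (x * gb 0)) = f (y * (shE ^ n) x) := by
    intro y
    apply step_zero (f := fun x => f (y * (shE ^ n) x))
    · intro g
      have hinj : Function.Injective fun x => y * (shE ^ n) x :=
        (mul_right_injective y).comp (Function.LeftInverse.injective (rt_pow_sh n))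
      refine ((hf ((shE ^ n) g)).preimage hinj.injOn).subset ?_
      intro x hx
      simpa [mul_assoc] using hx
    · intro x
      rw [map_mul, sh_pow_a, ← mul_assoc, zero_add, h]
  refine ⟨fun y => ?_, fun y => ?_⟩
  · have := (key y).1 1
    rwa [one_mul, map_one, mul_one, sh_pow_a, add_comm] at this
  · have := (key y).2 1
    rwa [one_mul, map_one, mul_one, sh_pow_b, zero_add] at this

theorem const_of {f : Gam → ℤ} (hf : AIf f) (h : ∀ x, f (x * ga 0) = f x) (g : Gam) :
    f g = f 1 := by
  have ha : ∀ n x, f (x * ga n) = f x := by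
    intro n
    induction n with
    | zero => exact h
    | succ n ih => exact (step_n hf n ih).1
  let S : Subgroup Gam :=
    { carrier := {g | ∀ x, f (x * g) = f x}
      one_mem' := fun x => by rw [mul_one]
      mul_mem' := by
        intro g g' a1 a2 x
        rw [← mul_assoc, a2, a1]
      inv_mem' := by
        intro g a1 x
        rw [← a1 (x * g⁻¹), inv_mul_cancel_right] }
  have := gen_sub S ha (fun n => (step_n hf n (ha n)).2) g 1
  rwa [one_mul] at this

noncomputable def ind (A : AI Gam) : Gam → ℤ := fun x => if x ∈ A.1 then 1 else 0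

theorem ind_ai (A : AI Gam) : AIf (ind A) := by
  intro g
  refine (A.2 g⁻¹).subset ?_
  intro x hx
  have e : x ∈ (fun x => x * g⁻¹) '' A.1 ↔ x * g ∈ A.1 := by
    constructor
    · rintro ⟨y, hy, rfl⟩
      simpa using hy
    · intro h
      exact ⟨_, h, by simp⟩
  rw [Set.mem_symmDiff, e]
  by_cases h1 : x ∈ A.1 <;> by_cases h2 : x * g ∈ A.1 <;> simp [ind, h1, h2] at hx ⊢

theorem countable_gam : Countable Gam := by
  haveI : Countable (FreeGroup (ℕ ⊕ ℕ)) := inferInstance
  exact (QuotientGroup.mk_surjective (s := Subgroup.normalClosure rels)).countable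

theorem countable_ai : Countable (AI Gam) := by
  haveI := countable_gam
  let F : AI Gam → ℤ × (Gam →₀ ℤ) := fun A =>
    (ind A 1, Finsupp.ofSupportFinite _ (ind_ai A (ga 0)))
  refine Function.Injective.countable (f := F) ?_
  intro A B h
  have h1 : ind A 1 = ind B 1 := congrArg Prod.fst h
  have h2 : ∀ x, ind A (x * ga 0) - ind A x = ind B (x * ga 0) - ind B x :=
    fun x => DFunLike.congr_fun (congrArg Prod.snd h) x
  have h3 : AIf (fun x => ind A x - ind B x) := by
    intro g
    refine ((ind_ai A g).union (ind_ai B g)).subset ?_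
    intro x hx
    by_contra hc
    simp only [Set.mem_union, Function.mem_support, not_or, not_not] at hc hx
    omega
  have h4 := const_of h3 (fun x => by have := h2 x; omega)
  apply Subtype.ext
  ext x
  have := h4 x
  rw [h1, sub_self] at this
  by_cases a1 : x ∈ A.1 <;> by_cases a2 : x ∈ B.1 <;> simp [ind, a1, a2] at this ⊢

theorem metrizable : TopologicalSpace.MetrizableSpace (Ends Gam) := by
  haveI := countable_ai
  exact Topology.IsEmbedding.metrizableSpace
    (f := fun φ : Ends Gam => (φ.1 : AI Gam → Bool)) ⟨⟨rfl⟩, Subtype.val_injective⟩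

end H77.Kur
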