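import Mathlib

namespace H77.Kur

/-- The almost invariant subsets of `G`: those `A` with `A △ A g` finite for every `g`. -/
def AI (G : Type) [Group G] : Type :=
  {A : Set G // ∀ g : G, (symmDiff A ((fun x => x * g) '' A)).Finite}

/-- The space of ends: the Boolean homomorphisms from the algebra of almost invariant subsets to
`{false, true}` that kill the finite sets, that is the points of the Stone space of the quotient
by the ideal of finite sets. -/
def Ends (G : Type) [Group G] : Type :=
  {φ : AI G → Bool // (∀ A : AI G, A.1.Finite → φ A = false) ∧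
    (∀ A B : AI G, B.1 = A.1ᶜ → φ B = !φ A) ∧
    (∀ A B C : AI G, C.1 = A.1 ∩ B.1 → φ C = (φ A && φ B))}

/-- The Stone topology: pointwise convergence. -/
instance (G : Type) [Group G] : TopologicalSpace (Ends G) :=
  TopologicalSpace.induced (fun φ => (φ.1 : AI G → Bool)) Pi.topologicalSpace

/-- `G` is a free product of two nontrivial groups. -/
def Decomp (G : Type) [Group G] : Prop :=
  ∃ (A B : Type) (_ : Group A) (_ : Group B),
    Nontrivial A ∧ Nontrivial B ∧ Nonempty (G ≃* Monoid.Coprod A B)

/-- Freely indecomposable groups. -/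
def FreelyIndec (G : Type) [Group G] : Prop := Nontrivial G ∧ ¬ Decomp G

/-- `G` is a free product of finitely many freely indecomposable groups. -/
def FiniteKuroshRank (G : Type) [Group G] : Prop :=
  ∃ (n : ℕ) (H : Fin n → Type) (_ : ∀ i, Group (H i)),
    (∀ i, FreelyIndec (H i)) ∧ Nonempty (G ≃* Monoid.CoprodI H)

/-- The relators `a (n+1) * b n * (a (n+1))⁻¹ * (b n)⁻¹ * (a n)⁻¹`, with `a n = inl n` and
`b n = inr n`. -/
def rels : Set (FreeGroup (ℕ ⊕ ℕ)) :=
  Set.range fun n : ℕ => FreeGroup.of (Sum.inl (n + 1)) * FreeGroup.of (Sum.inr n) *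
    (FreeGroup.of (Sum.inl (n + 1)))⁻¹ * (FreeGroup.of (Sum.inr n))⁻¹ *
    (FreeGroup.of (Sum.inl n))⁻¹

/-- The group of Kurosh. -/
abbrev Gam : Type := PresentedGroup rels

end H77.Kur
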