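import Mathlib

set_option autoImplicit false

namespace Pool.Agent.H77.Lo

variable {G : Type} [Group G]

def Four (S : Subgroup G) (a y : G) : Prop := ∃ h1 ∈ S, ∃ h2 ∈ S, ∃ h3 ∈ S, ∃ h4 ∈ S,
  y = h1 * a * h1⁻¹ * (h2 * a⁻¹ * h2⁻¹) * (h3 * a * h3⁻¹) * (h4 * a⁻¹ * h4⁻¹)

structure Sys (A B : ℝ → Subgroup G) : Prop where
  comm : ∀ m, ∀ a ∈ A m, ∀ b ∈ B m, Commute a b
  cen : ∀ m g, (∀ a ∈ A m, Commute a g) → g ∈ B m
  cen' : ∀ m g, (∀ a ∈ B m, Commute a g) → g ∈ A m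
  four : ∀ m n a y, a ∉ B m → n < m → y ∈ A n → Four (A m) a y
  four' : ∀ m n a y, a ∉ A m → m < n → y ∈ B n → Four (B m) a y
  split : ∀ m n x, m < n → (∀ c ∈ A n, c ∈ B m → Commute c x) → ∃ a ∈ A m, ∃ e ∈ B n, x = a * e
  mono : ∀ m n, m ≤ n → A m ≤ A n
  mono' : ∀ m n, m ≤ n → B n ≤ B m
  disj : ∀ m, ∀ a ∈ A m, a ∈ B m → a = 1
  move : ∀ m n, ∃ h : G, (∀ a ∈ A m, h * a * h⁻¹ ∈ A n) ∧ ∀ b ∈ B n, h⁻¹ * b * h ∈ B m
  bdd : ∀ g, ∃ m, g ∈ A m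
  bdd' : ∀ g, ∃ m, g ∈ B m
  ne : ∀ m, ∃ b ∈ B m, b ≠ 1
  ne' : ∀ m, ∃ b ∈ A m, b ≠ 1

variable {A B : ℝ → Subgroup G}

theorem Sys.symm (h : Sys A B) : Sys (fun m => B (-m)) fun m => A (-m) where
  comm m a ha b hb := (h.comm _ b hb a ha).symm
  cen m := h.cen' _
  cen' m := h.cen _
  four m n a y h1 h2 := h.four' _ _ a y h1 (by linarith)
  four' m n a y h1 h2 := h.four _ _ a y h1 (by linarith)
  split m n x h1 h2 := by
    obtain ⟨a, ha, e, he, rfl⟩ := h.split (-n) (-m) x (by linarith) fun c h3 h4 => h2 c h4 h3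
    exact ⟨e, he, a, ha, (h.comm _ a (h.mono _ _ (by linarith) ha) e he).eq⟩
  mono m n h1 := h.mono' _ _ (by linarith)
  mono' m n h1 := h.mono _ _ (by linarith)
  disj m a h1 h2 := h.disj _ a h2 h1
  move m n := by
    obtain ⟨g, h1, h2⟩ := h.move (-n) (-m)
    exact ⟨g⁻¹, by simpa using h2, by simpa using h1⟩
  bdd g := (h.bdd' g).elim fun m hm => ⟨-m, by simpa using hm⟩
  bdd' g := (h.bdd g).elim fun m hm => ⟨-m, by simpa using hm⟩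
  ne m := h.ne' _
  ne' m := h.ne _

variable [Lattice G] [MulLeftMono G] [MulRightMono G]

theorem conj_le {a b : G} (c : G) (h : a ≤ b) : c * a * c⁻¹ ≤ c * b * c⁻¹ :=
  mul_le_mul_left (mul_le_mul_right h c) _

theorem comm_inf {c a b : G} (ha : Commute c a) (hb : Commute c b) : Commute c (a ⊓ b) := by
  rw [Commute, SemiconjBy, mul_inf, inf_mul, ha.eq, hb.eq]

theorem comm_sup {c a b : G} (ha : Commute c a) (hb : Commute c b) : Commute c (a ⊔ b) := by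
  rw [Commute, SemiconjBy, mul_sup, sup_mul, ha.eq, hb.eq]

theorem disj_mul {e x y : G} (he : 1 ≤ e) (hx : e ⊓ x = 1) (hy : e ⊓ y = 1) : e ⊓ (x * y) = 1 := by
  have h1 : 1 ≤ x := hx ▸ inf_le_right
  have h2 : 1 ≤ y := hy ▸ inf_le_right
  refine le_antisymm ?_ (le_inf he (one_le_mul h1 h2))
  have : e ⊓ (x * y) ≤ (e ⊓ x) * (e ⊓ y) := by
    rw [mul_inf, inf_mul, inf_mul]
    exact le_inf (le_inf (inf_le_left.trans (le_mul_of_one_le_left' he))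
      (inf_le_left.trans (le_mul_of_one_le_left' h1)))
      (le_inf (inf_le_left.trans (le_mul_of_one_le_right' h2)) inf_le_right)
  simpa [hx, hy] using this

theorem disj_pow {e x : G} (he : 1 ≤ e) (hx : e ⊓ x = 1) (n : ℕ) : e ⊓ x ^ n = 1 := by
  induction n with
  | zero => simpa using he
  | succ n ih => rw [pow_succ]; exact disj_mul he ih hx

theorem Four.le {S : Subgroup G} {a y e : G} (h : Four S a y) (h1 : a ≤ e) (h2 : a⁻¹ ≤ e)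
    (h3 : ∀ c ∈ S, Commute c e) : y ≤ e ^ 4 := by
  obtain ⟨c1, d1, c2, d2, c3, d3, c4, d4, rfl⟩ := h
  have k : ∀ c ∈ S, ∀ x ≤ e, c * x * c⁻¹ ≤ e := fun c hc x hx =>
    (conj_le c hx).trans_eq (by rw [(h3 c hc).eq]; simp)
  rw [show e ^ 4 = e * e * e * e by simp [pow_succ]]
  exact mul_le_mul' (mul_le_mul' (mul_le_mul' (k _ d1 _ h1) (k _ d2 _ h2)) (k _ d3 _ h1))
    (k _ d4 _ h2)

theorem le_of_disj {a b p : G} (h : b ⊓ a = 1) (h1 : a ≤ b * p) (h2 : 1 ≤ p) : a ≤ p := by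
  have : b * (b ⊓ a)⁻¹ * a = a ⊔ b := by rw [inv_inf, mul_sup, sup_mul]; simp
  rw [h, inv_one, mul_one] at this
  exact le_of_mul_le_mul_left' (this.trans_le (sup_le h1 (le_mul_of_one_le_right' h2)))

def D (A B : ℝ → Subgroup G) : Prop := ∃ m, ∃ c ∈ A m, ∀ y ∈ B m, y ≤ c

omit [MulLeftMono G] [MulRightMono G] in
theorem D_neg : D (fun m => A (-m)) (fun m => B (-m)) ↔ D A B :=
  ⟨fun ⟨m, h⟩ => ⟨-m, h⟩, fun ⟨m, h⟩ => ⟨-m, by simpa using h⟩⟩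

theorem Sys.sup_mem (h : Sys A B) {m : ℝ} {a b : G} (ha : a ∈ B m) (hb : b ∈ B m) :
    a ⊔ b ∈ B m :=
  h.cen _ _ fun c hc => comm_sup (h.comm _ c hc a ha) (h.comm _ c hc b hb)

theorem Sys.sup_mem' (h : Sys A B) {m : ℝ} {a b : G} (ha : a ∈ A m) (hb : b ∈ A m) :
    a ⊔ b ∈ A m :=
  h.cen' _ _ fun c hc => comm_sup (h.comm _ a ha c hc).symm (h.comm _ b hb c hc).symm

theorem Sys.pos (h : Sys A B) (m : ℝ) : ∃ b ∈ B m, 1 ≤ b ∧ b ≠ 1 := by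
  obtain ⟨b, h1, h2⟩ := h.ne m
  refine ⟨|b|ₘ, h.sup_mem h1 (inv_mem h1), one_le_mabs b, fun e => h2 ?_⟩
  exact le_antisymm (e ▸ le_mabs_self b) (inv_le_one'.1 (e ▸ inv_le_mabs b))

theorem Sys.all (h : Sys A B) (hd : D A B) (n : ℝ) : ∃ c ∈ A n, ∀ y ∈ B n, y ≤ c := by
  obtain ⟨m, c, h1, h2⟩ := hd
  obtain ⟨g, h3, h4⟩ := h.move m n
  exact ⟨_, h3 c h1, fun y hy => by simpa [mul_assoc] using conj_le g (h2 _ (h4 y hy))⟩

theorem Sys.dom (h : Sys A B) {m : ℝ} {a e : G} (ha : a ∉ B m) (he : e ∈ B m) (h1 : a ≤ e)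
    (h2 : a⁻¹ ≤ e) : D B A :=
  ⟨m - 1, e ^ 4, h.mono' _ _ (by linarith) (pow_mem he 4), fun y hy =>
    (h.four m _ a y ha (by linarith) hy).le h1 h2 fun c hc => h.comm _ c hc e he⟩

theorem Sys.notboth (h : Sys A B) (h1 : D A B) (h2 : D B A) : False := by
  obtain ⟨m, d, d1, d2⟩ := h2
  obtain ⟨c, c1, c2⟩ := h.all h1 m
  obtain ⟨b, b1, b2, b3⟩ := h.pos m
  have k1 : d * d ≤ d := (c2 _ (mul_mem d1 d1)).trans (d2 c c1)
  exact b3 (le_antisymm ((c2 b b1).trans ((d2 c c1).trans (by simpa using k1))) b2)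

theorem Sys.inf_mem (h : Sys A B) (hd : ¬D B A) {m n : ℝ} {a e : G} (ha : a ∈ A m) (he : e ∈ B n)
    (h1 : 1 ≤ a) (h2 : 1 ≤ e) (hm : m < n) : a ⊓ e ∈ B n := by
  obtain ⟨x, hx, y, hy, k⟩ := h.split m n (a ⊓ e) hm fun c c1 c2 =>
    comm_inf (h.comm _ a ha c c2).symm (h.comm _ c c1 e he)
  by_cases x1 : x ∈ B n
  · exact k ▸ mul_mem x1 hy
  refine (hd (h.dom x1 (mul_mem he (h.sup_mem hy (inv_mem hy))) ?_ ?_)).elim
  · rw [← mul_inv_eq_iff_eq_mul] at k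
    exact k ▸ mul_le_mul' inf_le_right le_sup_right
  · rw [← mul_inv_eq_iff_eq_mul] at k
    rw [← k, mul_inv_rev, inv_inv]
    exact (mul_le_of_le_one_right' (inv_le_one'.2 (le_inf h1 h2))).trans
      (le_sup_left.trans (le_mul_of_one_le_left' h2))

theorem Sys.key (h : Sys A B) (hd : D A B) {m n : ℝ} {a y : G} (ha : a ∈ A m) (hy : y ∈ B n)
    (h1 : 1 ≤ a) (h2 : a ≠ 1) (hm : m < n) : y ≤ a ^ 4 := by
  obtain ⟨c, c1, c2⟩ := h.all hd (m - 1)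
  obtain ⟨e, e1, e2, e3⟩ := h.pos ((m + n) / 2)
  have x1 := h.inf_mem (h.notboth hd) ha e1 h1 e2 (by linarith)
  have ha' := h.mono _ ((m + n) / 2) (by linarith) ha
  by_cases x2 : a ⊓ e ∈ A ((m + n) / 2)
  · have x3 := h.disj _ _ x2 x1
    obtain ⟨c1, d1, c2', d2, c3, d3, c4, d4, k⟩ :=
      h.four m _ a c (fun hb => h2 (h.disj _ _ ha hb)) (by linarith) c1
    have q : ∀ g ∈ A m, e ⊓ (g * a * g⁻¹) = 1 := fun g hg => by
      have := (h.comm _ g hg e (h.mono' _ _ (by linarith) e1)).eq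
      have k : g * (a ⊓ e) * g⁻¹ = 1 := by simp [x3]
      rwa [mul_inf, inf_mul, this, mul_inv_cancel_right, inf_comm] at k
    have i : a⁻¹ ≤ a := (inv_le_one'.2 h1).trans h1
    have := disj_mul e2 (disj_mul e2 (disj_mul e2 (q _ d1) (q _ d2)) (q _ d3)) (q _ d4)
    refine (e3 (le_antisymm (this ▸ le_inf le_rfl ?_) e2)).elim
    refine (c2 e (h.mono' _ _ (by linarith) e1)).trans (k ▸ ?_)
    exact mul_le_mul' (mul_le_mul' (mul_le_mul' le_rfl (conj_le _ i)) le_rfl) (conj_le _ i)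
  · exact (h.four' _ n _ y x2 (by linarith) hy).le inf_le_left
      ((inv_le_one'.2 (le_inf h1 e2)).trans h1) fun c hc => (h.comm _ a ha' c hc).symm

theorem Sys.total (h : Sys A B) (hd : D A B) (g : G) : 1 ≤ g ∨ g ≤ 1 := by
  by_contra hc
  push Not at hc
  obtain ⟨m, hm⟩ := h.bdd g
  obtain ⟨e, e1, e2, e3⟩ := h.pos (m + 1)
  have k1 := h.key hd (h.sup_mem' hm (one_mem _)) e1 le_sup_right
    (fun e => hc.2 (sup_eq_right.1 e)) (by linarith)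
  have k2 := h.key hd (h.sup_mem' (inv_mem hm) (one_mem _)) e1 le_sup_right
    (fun e => hc.1 (inv_le_one'.1 (sup_eq_right.1 e))) (by linarith)
  have k3 := disj_pow (one_le_oneLePart g) (oneLePart_inf_leOnePart_eq_one g) 4
  rw [inf_comm] at k3
  have k4 := disj_pow (one_le_pow_of_one_le' (one_le_leOnePart g) 4) k3 4
  exact e3 (le_antisymm (k4 ▸ le_inf k2 k1) e2)

theorem Sys.sign (h : Sys A B) (hd : D A B) {m : ℝ} {g e : G} (hg : g ∉ B m) (he : e ∈ B m)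
    (h1 : 1 ≤ g) : 1 ≤ g * e := by
  refine (h.total hd _).resolve_right fun h2 => h.notboth hd ?_
  have k : g ≤ e⁻¹ := by simpa using mul_le_mul_left h2 e⁻¹
  exact h.dom hg (inv_mem he) k ((inv_le_one'.2 h1).trans (h1.trans k))

theorem Sys.inf_one (h : Sys A B) (h1 : ¬D A B) (h2 : ¬D B A) {m n : ℝ} {a e : G} (ha : a ∈ A m)
    (he : e ∈ B n) (a1 : 1 ≤ a) (e1 : 1 ≤ e) (hm : m < n) : a ⊓ e = 1 := by
  have k := h.symm.inf_mem (mt D_neg.1 h1) (m := -n) (n := -m) (a := e) (e := a)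
    (by simpa using he) (by simpa using ha) e1 a1 (by linarith)
  rw [inf_comm, neg_neg] at k
  exact h.disj n _ (h.mono _ _ hm.le k) (h.inf_mem h2 ha he a1 e1 hm)

theorem Sys.gap (h : Sys A B) (h1 : ¬D A B) (h2 : ¬D B A) {u u' v' v : ℝ} {a s : G}
    (ha : a ∈ B u') (ha' : a ∈ A v') (a1 : 1 ≤ a) (hu : u < u') (hv : v' < v) (huv : u < v)
    (hs : ∀ c ∈ A v, c ∈ B u → Commute c s) (k : a ≤ s) : a = 1 := by
  obtain ⟨x, hx, y, hy, rfl⟩ := h.split u v s huv hs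
  have k1 := h.inf_one h1 h2 (h.sup_mem' hx (inv_mem hx)) ha (one_le_mabs x) a1 hu
  have k2 := h.inf_one h1 h2 ha' (h.sup_mem hy (inv_mem hy)) a1 (one_le_mabs y) hv
  rw [inf_comm] at k1
  exact le_antisymm (disj_mul a1 k1 k2 ▸ le_inf le_rfl
    (k.trans (mul_le_mul' le_sup_left le_sup_left))) a1

end Pool.Agent.H77.Lo
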