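import Pool.Agent.H77.LoA

set_option autoImplicit false

namespace Pool.Agent.H77.Lo

open Filter Topology Set

abbrev H := ℝ ≃o ℝ

variable (K : Subfield ℝ)

def Mob (δ : ℝ) (f : ℝ → ℝ) (x : ℝ) : Prop := ∃ a ∈ K, ∃ b ∈ K, ∃ c ∈ K, ∃ d ∈ K,
  a * d - b * c = δ ∧ ∀ᶠ y in 𝓝[≥] x, (c * y + d) * f y = a * y + b

def Loc (δ : ℝ) (f : ℝ → ℝ) (x : ℝ) : Prop := (∃ d, 0 < d ∧ HasDerivAt f d x) ∧ Mob K δ f x

def Bd (f : ℝ → ℝ) : Prop := ∃ M, ∀ x, M ≤ |x| → f x = x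

variable {K}

theorem Loc.congr {δ : ℝ} {f g : ℝ → ℝ} {x : ℝ} (h : Loc K δ f x) (e : g =ᶠ[𝓝 x] f) :
    Loc K δ g x := by
  obtain ⟨⟨d, h1, h2⟩, a, ha, b, hb, c, hc, d', hd, h3, h4⟩ := h
  refine ⟨⟨d, h1, h2.congr_of_eventuallyEq e⟩, a, ha, b, hb, c, hc, d', hd, h3, ?_⟩
  filter_upwards [h4, nhdsWithin_le_nhds e] with y h5 h6
  rw [h6, h5]

theorem tends_ge (g : H) (x : ℝ) : Tendsto g (𝓝[≥] x) (𝓝[≥] (g x)) :=
  tendsto_nhdsWithin_iff.2 ⟨g.continuous.continuousAt.mono_left nhdsWithin_le_nhds,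
    eventually_mem_nhdsWithin.mono fun _ h => g.monotone h⟩

theorem tends_gt (g : H) (x : ℝ) : Tendsto g (𝓝[>] x) (𝓝[>] (g x)) :=
  tendsto_nhdsWithin_iff.2 ⟨g.continuous.continuousAt.mono_left nhdsWithin_le_nhds,
    eventually_mem_nhdsWithin.mono fun _ h => g.strictMono h⟩

theorem mul_app (f g : H) (x : ℝ) : (f * g) x = f (g x) := rfl
theorem inv_app (f : H) (x : ℝ) : f⁻¹ (f x) = x := f.symm_apply_apply x
theorem app_inv (f : H) (x : ℝ) : f (f⁻¹ x) = x := f.apply_symm_apply x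
theorem one_app (x : ℝ) : (1 : H) x = x := rfl

theorem Loc.mul {δ ε : ℝ} {f g : H} {x : ℝ} (hf : Loc K δ f (g x)) (hg : Loc K ε g x) :
    Loc K (δ * ε) (f * g : H) x := by
  obtain ⟨⟨e, h1, h2⟩, a, ha, b, hb, c, hc, d, hd, h3, h4⟩ := hf
  obtain ⟨⟨e', k1, k2⟩, a', ha', b', hb', c', hc', d', hd', k3, k4⟩ := hg
  refine ⟨⟨_, mul_pos h1 k1, h2.comp x k2⟩, a * a' + b * c', by aesop, a * b' + b * d', by aesop,
    c * a' + d * c', by aesop, c * b' + d * d', by aesop, by rw [← h3, ← k3]; ring, ?_⟩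
  filter_upwards [k4, tends_ge g x h4] with y h5 h6
  rw [mul_app]
  have h6 : (c * g y + d) * f (g y) = a * g y + b := h6
  linear_combination (c' * y + d') * h6 + (a - c * f (g y)) * h5

theorem Loc.inv {f : H} {x : ℝ} (hf : Loc K 1 f (f⁻¹ x)) : Loc K 1 (f⁻¹ : H) x := by
  obtain ⟨⟨e, h1, h2⟩, a, ha, b, hb, c, hc, d, hd, h3, h4⟩ := hf
  refine ⟨⟨_, inv_pos.2 h1, h2.of_local_left_inverse (f⁻¹).continuous.continuousAt h1.ne'
    (.of_forall (app_inv f))⟩, d, hd, -b, neg_mem hb, -c, neg_mem hc, a, ha, by linarith, ?_⟩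
  filter_upwards [tends_ge f⁻¹ x h4] with y h6
  have h6 : (c * f⁻¹ y + d) * f (f⁻¹ y) = a * f⁻¹ y + b := h6
  rw [app_inv] at h6
  linear_combination -h6

theorem loc_aff {l m : ℝ} (hl : l ∈ K) (hm : m ∈ K) (h : 0 < l) (x : ℝ) :
    Loc K l (fun y => l * y + m) x :=
  ⟨⟨l, h, by simpa using ((hasDerivAt_id x).const_mul l).add_const m⟩,
    l, hl, m, hm, 0, zero_mem _, 1, one_mem _, by simp, by simp⟩

theorem loc_id (x : ℝ) : Loc K 1 (fun y => y) x := by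
  simpa using loc_aff (one_mem K) (zero_mem K) one_pos x

variable (K) in
def GG : Subgroup H where
  carrier := {g | Bd g ∧ ∀ x, Loc K 1 g x}
  one_mem' := ⟨⟨0, fun _ _ => rfl⟩, loc_id⟩
  mul_mem' := by
    rintro f g ⟨⟨M, h1⟩, h2⟩ ⟨⟨N, h3⟩, h4⟩
    refine ⟨⟨max M N, fun x hx => ?_⟩, fun x => by simpa using (h2 _).mul (h4 x)⟩
    rw [mul_app, h3 x (le_of_max_le_right hx), h1 x (le_of_max_le_left hx)]
  inv_mem' := by
    rintro f ⟨⟨M, h1⟩, h2⟩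
    exact ⟨⟨M, fun x hx => by conv_lhs => rw [← h1 x hx, inv_app]⟩, fun x => (h2 _).inv⟩

theorem mk {f : ℝ → ℝ} (h1 : Bd f) (h2 : ∀ x, Loc K 1 f x) : ∃ g ∈ GG K, ∀ x, g x = f x := by
  have hm : StrictMono f := strictMono_of_deriv_pos fun x => by
    obtain ⟨d, k1, k2⟩ := (h2 x).1
    rwa [k2.deriv]
  have hc : Continuous f := continuous_iff_continuousAt.2 fun x =>
    (h2 x).1.elim fun _ k => k.2.continuousAt
  obtain ⟨M, hM⟩ := id h1
  have hs : Function.Surjective f := hc.surjective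
    (tendsto_id.congr' ((eventually_ge_atTop M).mono fun x hx =>
      (hM x (hx.trans (le_abs_self x))).symm))
    (tendsto_id.congr' ((eventually_le_atBot (-M)).mono fun x hx =>
      (hM x ((le_neg.1 hx).trans (neg_le_abs x))).symm))
  exact ⟨hm.orderIsoOfSurjective f hs, ⟨h1, h2⟩, fun _ => rfl⟩

def Fx (s : Set ℝ) : Subgroup H where
  carrier := {g | ∀ x ∈ s, g x = x}
  one_mem' _ _ := rfl
  mul_mem' hf hg x hx := by rw [mul_app, hg x hx, hf x hx]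
  inv_mem' hf x hx := by conv_lhs => rw [← hf x hx, inv_app]

abbrev LL (m : ℝ) := Fx (Ici m)
abbrev RR (m : ℝ) := Fx (Iic m)

theorem LL.conj {m : ℝ} {g : H} (hg : g ∈ LL m) (h : H) : h * g * h⁻¹ ∈ LL (h m) := fun x hx => by
  rw [mul_app, mul_app, hg (h⁻¹ x) (h.le_symm_apply.2 hx), app_inv]

theorem RR.conj {m : ℝ} {g : H} (hg : g ∈ RR m) (h : H) : h * g * h⁻¹ ∈ RR (h m) := fun x hx => by
  rw [mul_app, mul_app, hg (h⁻¹ x) (h.symm_apply_le.2 hx), app_inv]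

theorem LL.mono {m n : ℝ} {g : H} (hg : g ∈ LL m) (h : m ≤ n) : g ∈ LL n :=
  fun x hx => hg x (h.trans hx)

theorem RR.mono {m n : ℝ} {g : H} (hg : g ∈ RR m) (h : n ≤ m) : g ∈ RR n :=
  fun x hx => hg x (hx.trans h)

theorem commLR {m : ℝ} {f g : H} (hf : f ∈ LL m) (hg : g ∈ RR m) : Commute f g := by
  refine DFunLike.ext _ _ fun x => ?_
  rw [mul_app, mul_app]
  rcases le_total x m with h | h
  · rw [hg x h, hg _ ((f.monotone h).trans_eq (hf m self_mem_Ici))]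
  · rw [hf x h, hf _ ((hg m self_mem_Iic).ge.trans (g.monotone h))]

noncomputable def aff (l m : ℝ) (h : 0 < l) : H :=
  (OrderIso.mulLeft₀ l h).trans (OrderIso.addRight m)

theorem aff_app (l m : ℝ) (h : 0 < l) (x : ℝ) : aff l m h x = l * x + m := rfl

theorem aff_inv (l m : ℝ) (h : 0 < l) (x : ℝ) : (aff l m h)⁻¹ x = l⁻¹ * x + -m / l := by
  apply (aff l m h).injective
  rw [app_inv, aff_app]
  field_simp
  ring

theorem bd_iff {g : H} : Bd g ↔ ∃ u v, g ∈ RR u ∧ g ∈ LL v :=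
  ⟨fun ⟨M, h⟩ => ⟨-M, M, fun x hx => h x ((le_neg.1 hx).trans (neg_le_abs x)),
    fun x hx => h x (hx.trans (le_abs_self x))⟩, fun ⟨u, v, h1, h2⟩ => ⟨max (-u) v, fun x hx => by
      rcases le_abs'.1 hx with h | h
      · exact h1 x (h.trans (neg_le.1 (le_max_left _ _)))
      · exact h2 x (le_of_max_le_right h)⟩⟩

theorem bd_conj {g : H} (hg : Bd g) (h : H) : Bd (h * g * h⁻¹ : H) := by
  obtain ⟨u, v, h1, h2⟩ := bd_iff.1 hg
  exact bd_iff.2 ⟨_, _, RR.conj h1 h, LL.conj h2 h⟩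

theorem aff_conj {l m : ℝ} (hl : l ∈ K) (hm : m ∈ K) (h : 0 < l) {g : H} (hg : g ∈ GG K) :
    aff l m h * g * (aff l m h)⁻¹ ∈ GG K ∧ (aff l m h)⁻¹ * g * aff l m h ∈ GG K := by
  have k1 : ∀ x, Loc K l (aff l m h) x := loc_aff hl hm h
  have k2 : ∀ x, Loc K l⁻¹ ((aff l m h)⁻¹ : H) x := fun x =>
    (loc_aff (inv_mem hl) (div_mem (neg_mem hm) hl) (inv_pos.2 h) x).congr
      (.of_forall (aff_inv l m h))
  exact ⟨⟨bd_conj hg.1 _, fun x => by simpa [h.ne'] using ((k1 _).mul (hg.2 _)).mul (k2 x)⟩,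
    ⟨by simpa using bd_conj hg.1 (aff l m h)⁻¹,
      fun x => by simpa [h.ne'] using ((k2 _).mul (hg.2 _)).mul (k1 x)⟩⟩

noncomputable def gl (z : ℝ) (f g : ℝ → ℝ) (x : ℝ) : ℝ := if x ≤ z then f x else g x

theorem gl_loc {z x : ℝ} {f g : ℝ → ℝ} (h1 : x < z → Loc K 1 f x) (h2 : z ≤ x → Loc K 1 g x)
    (h3 : f z = g z) (h4 : ∃ d, HasDerivAt f d z ∧ HasDerivAt g d z) :
    Loc K 1 (gl z f g) x := by
  rcases lt_trichotomy x z with h | rfl | h
  · exact (h1 h).congr ((eventually_lt_nhds h).mono fun y hy => if_pos hy.le)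
  · obtain ⟨⟨e, k1, k2⟩, a, ha, b, hb, c, hc, d', hd, k3, k4⟩ := h2 le_rfl
    obtain ⟨d, k5, k6⟩ := h4
    have e1 : ∀ y ∈ Ici x, gl x f g y = g y := fun y hy => by
      unfold gl
      split_ifs with h
      · rw [le_antisymm h hy, h3]
      · rfl
    obtain rfl := k6.unique k2
    refine ⟨⟨d, k1, ?_⟩, a, ha, b, hb, c, hc, d', hd, k3, ?_⟩
    · have := (k5.hasDerivWithinAt.congr (f₁ := gl x f g) (s := Iic x) (fun y hy => if_pos hy)
        (if_pos le_rfl)).union (k6.hasDerivWithinAt.congr e1 (e1 _ self_mem_Ici))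
      rwa [Iic_union_Ici, hasDerivWithinAt_univ] at this
    · filter_upwards [k4, self_mem_nhdsWithin] with y h5 h6
      rw [e1 y h6, h5]
  · exact (h2 h.le).congr ((eventually_gt_nhds h).mono fun y hy => if_neg (not_le.2 hy))

theorem mob_der (a b c d x : ℝ) (h : c * x + d ≠ 0) :
    HasDerivAt (fun y => (a * y + b) / (c * y + d)) ((a * d - b * c) / (c * x + d) ^ 2) x := by
  have := (((hasDerivAt_id x).const_mul a).add_const b).div
    (((hasDerivAt_id x).const_mul c).add_const d) h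
  refine this.congr_deriv ?_
  simp only [id]
  congr 1
  ring

theorem mob_loc (a b c d : ℤ) {x : ℝ} (h : c * x + d ≠ 0) (h1 : a * d - b * c = 1) :
    Loc K 1 (fun y => (a * y + b) / (c * y + d)) x := by
  have h2 : (a * d - b * c : ℝ) = 1 := by exact_mod_cast h1
  refine ⟨⟨_, by rw [h2]; positivity, mob_der a b c d x h⟩, a, by simp, b, by simp, c, by simp,
    d, by simp, h2, nhdsWithin_le_nhds ?_⟩
  filter_upwards [(show ContinuousAt (fun y : ℝ => c * y + d) x by fun_prop).eventually_ne h]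
    with y hy
  field_simp

theorem gl_der {z x d : ℝ} {f g : ℝ → ℝ} (h : x < z) (h1 : HasDerivAt f d x) :
    HasDerivAt (gl z f g) d x :=
  h1.congr_of_eventuallyEq ((eventually_lt_nhds h).mono fun _ hy => if_pos hy.le)

noncomputable def mo (a b c d : ℤ) (y : ℝ) : ℝ := (a * y + b) / (c * y + d)

noncomputable def bf : ℝ → ℝ := gl (-1) (mo 1 0 0 1) (gl (-1 / 2) (mo 2 1 (-1) 0)
  (gl 0 (mo 2 1 3 2) (gl 1 (mo 0 1 (-1) 2) (mo 1 0 0 1))))

theorem bf_loc (x : ℝ) : Loc K 1 bf x := by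
  refine gl_loc (fun _ => mob_loc _ _ _ _ (by simp) rfl) (fun _ => gl_loc
    (fun _ => mob_loc _ _ _ _ (by norm_num; linarith) rfl) (fun _ => gl_loc
    (fun _ => mob_loc _ _ _ _ (by norm_num; linarith) rfl) (fun _ => gl_loc
    (fun _ => mob_loc _ _ _ _ (by norm_num; linarith) rfl)
    (fun _ => mob_loc _ _ _ _ (by simp) rfl) ?_ ⟨1, ?_, ?_⟩) ?_ ⟨1 / 4, ?_, gl_der ?_ ?_⟩) ?_
    ⟨4, ?_, gl_der ?_ ?_⟩) ?_ ⟨1, ?_, gl_der ?_ ?_⟩
  all_goals first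
    | exact (mob_der _ _ _ _ _ (by norm_num)).congr_deriv (by norm_num)
    | norm_num [gl, mo]

structure Bump (t : H) : Prop where
  mem : t ∈ GG K
  r : t ∈ RR (-1)
  l : t ∈ LL 1
  up : ∀ x, -1 < x → x < 1 → x < t x
  p1 : ∀ x, -1 ≤ x → x ≤ -1 / 2 → t x = (2 * x + 1) / -x
  p2 : ∀ x, -1 / 2 ≤ x → x ≤ 0 → t x = (2 * x + 1) / (3 * x + 2)
  p3 : ∀ x, 0 ≤ x → x ≤ 1 → t x = 1 / (2 - x)

theorem exists_bump : ∃ t, Bump (K := K) t := by
  have p0 : ∀ x, x ≤ -1 → bf x = x := fun x h => by simp [bf, gl, mo, h]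
  have p1 : ∀ x, -1 ≤ x → x ≤ -1 / 2 → bf x = (2 * x + 1) / -x := fun x h1 h2 => by
    rcases h1.eq_or_lt with rfl | h1
    · norm_num [p0]
    · simp [bf, gl, mo, h1.not_ge, h2]
  have p2 : ∀ x, -1 / 2 ≤ x → x ≤ 0 → bf x = (2 * x + 1) / (3 * x + 2) := fun x h1 h2 => by
    rcases h1.eq_or_lt with rfl | h1
    · norm_num [p1]
    · simp [bf, gl, mo, h1.not_ge, h2, show ¬x ≤ -1 by linarith]
  have p3 : ∀ x, 0 ≤ x → x ≤ 1 → bf x = 1 / (2 - x) := fun x h1 h2 => by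
    rcases h1.eq_or_lt with rfl | h1
    · norm_num [p2]
    · simp [bf, gl, mo, h1.not_ge, h2, show ¬x ≤ -1 by linarith, show ¬x ≤ -1 / 2 by linarith,
        neg_add_eq_sub]
  have p4 : ∀ x, 1 ≤ x → bf x = x := fun x h1 => by
    rcases h1.eq_or_lt with rfl | h1
    · norm_num [p3]
    · simp [bf, gl, mo, h1.not_ge, show ¬x ≤ -1 by linarith, show ¬x ≤ -1 / 2 by linarith,
        show ¬x ≤ 0 by linarith]
  obtain ⟨t, h1, h2⟩ := mk (K := K) ⟨1, fun x hx => (le_abs'.1 hx).elim (p0 x) (p4 x)⟩ bf_loc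
  refine ⟨t, h1, fun x h => (h2 x).trans (p0 x h), fun x h => (h2 x).trans (p4 x h),
    fun x k1 k2 => ?_, by simpa only [h2] using p1, by simpa only [h2] using p2,
    by simpa only [h2] using p3⟩
  rw [h2]
  rcases le_total x (-1 / 2) with k3 | k3
  · rw [p1 x k1.le k3, lt_div_iff₀ (by linarith)]; nlinarith
  rcases le_total x 0 with k4 | k4
  · rw [p2 x k3 k4, lt_div_iff₀ (by linarith)]; nlinarith
  · rw [p3 x k4 k2.le, lt_div_iff₀ (by linarith)]; nlinarith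

end Pool.Agent.H77.Lo
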