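import Pool.Agent.H77.LoB

set_option autoImplicit false

namespace Pool.Agent.H77.Lo

open Filter Topology Set

variable {K : Subfield ℝ}

theorem two_mem : (2 : ℝ) ∈ K := by exact_mod_cast natCast_mem K 2

theorem exists_aff {p q : ℝ} (hp : p ∈ K) (hq : q ∈ K) (h : p < q) : ∃ T : H, T (-1) = p ∧
    T 1 = q ∧ (∀ x, T x = (q - p) / 2 * x + (p + q) / 2) ∧
    ∀ g ∈ GG K, T * g * T⁻¹ ∈ GG K ∧ T⁻¹ * g * T ∈ GG K :=
  ⟨aff ((q - p) / 2) ((p + q) / 2) (by linarith), by rw [aff_app]; ring, by rw [aff_app]; ring,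
    fun _ => rfl, fun _ => aff_conj (div_mem (sub_mem hq hp) two_mem)
      (div_mem (add_mem hp hq) two_mem) _⟩

theorem lt_inv_iff (T : H) {x y : ℝ} : x < T⁻¹ y ↔ T x < y := T.lt_symm_apply
theorem inv_lt_iff (T : H) {x y : ℝ} : T⁻¹ x < y ↔ x < T y := T.symm_apply_lt
theorem le_inv_iff (T : H) {x y : ℝ} : x ≤ T⁻¹ y ↔ T x ≤ y := T.le_symm_apply
theorem inv_le_iff (T : H) {x y : ℝ} : T⁻¹ x ≤ y ↔ x ≤ T y := T.symm_apply_le

theorem bump_at {p q : ℝ} (hp : p ∈ K) (hq : q ∈ K) (h : p < q) :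
    ∃ b ∈ GG K, b ∈ RR p ∧ b ∈ LL q ∧ ∀ x, p < x → x < q → x < b x := by
  obtain ⟨t, ht⟩ := exists_bump (K := K)
  obtain ⟨T, h1, h2, -, h3⟩ := exists_aff hp hq h
  refine ⟨_, (h3 t ht.mem).1, h1 ▸ RR.conj ht.r T, h2 ▸ LL.conj ht.l T, fun x k1 k2 => ?_⟩
  exact (inv_lt_iff T).1 (ht.up _ ((lt_inv_iff T).2 (h1 ▸ k1)) ((inv_lt_iff T).2 (h2 ▸ k2)))

theorem rat_btwn {u v : ℝ} (h : u < v) : ∃ p ∈ K, u < p ∧ p < v :=
  (exists_rat_btwn h).elim fun p hp => ⟨p, SubfieldClass.ratCast_mem K p, hp⟩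

theorem push {g : H} {p q x v : ℝ} (h : ∀ x, p < x → x < q → x < g x) (h1 : p < x) (h2 : v < q) :
    ∃ n : ℕ, v < (g ^ n) x := by
  by_contra hc
  push Not at hc
  have b : BddAbove (range fun n : ℕ => (g ^ n) x) := ⟨v, by rintro _ ⟨n, rfl⟩; exact hc n⟩
  refine (h _ (h1.trans_le (le_ciSup b 0)) ((ciSup_le hc).trans_lt h2)).not_ge ?_
  rw [g.map_ciSup b]
  exact ciSup_le fun n => by rw [← mul_app, ← pow_succ']; exact le_ciSup b _

theorem shrink {u u' v' v j j' : ℝ} (h1 : u < u') (h2 : v' < v) (h3 : u < j) (h4 : j < j')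
    (h5 : j' < v) : ∃ h ∈ GG K, h ∈ RR u ∧ h ∈ LL v ∧ j < h u' ∧ h v' < j' := by
  obtain ⟨p, hp, p1, p2⟩ := rat_btwn (K := K) (lt_min h1 h3)
  obtain ⟨q, hq, q1, q2⟩ := rat_btwn (K := K) (max_lt h2 h5)
  obtain ⟨r, hr, r1, r2⟩ := rat_btwn (K := K) h4
  simp only [lt_min_iff, max_lt_iff] at p2 q1
  obtain ⟨b, b1, b2, b3, b4⟩ := bump_at hp hq (by linarith)
  obtain ⟨c, c1, c2, c3, c4⟩ := bump_at hp hr (by linarith)
  obtain ⟨n, hn⟩ := push b4 p2.2 q1.1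
  have k : p < (b ^ n)⁻¹ u' := (lt_inv_iff _).2 ((pow_mem b2 n p self_mem_Iic).trans_lt p2.1)
  obtain ⟨m, hm⟩ := push c4 k r1
  refine ⟨c ^ m * (b ^ n)⁻¹, mul_mem (pow_mem c1 _) (inv_mem (pow_mem b1 _)),
    RR.mono (mul_mem (pow_mem c2 _) (inv_mem (pow_mem b2 _))) p1.le,
    mul_mem (pow_mem (LL.mono c3 (by linarith)) _) (inv_mem (pow_mem (LL.mono b3 q2.le) _)), hm, ?_⟩
  exact (((c ^ m).strictMono (((inv_lt_iff _).2 hn).trans r1)).trans_eq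
    (pow_mem c3 m r self_mem_Ici)).trans r2

noncomputable def xs (n : ℕ) : ℝ := 1 - 1 / (n + 1)

theorem xs_mono : StrictMono xs := fun m n h => by
  unfold xs
  gcongr

theorem xs_lt (n : ℕ) : xs n < 1 := sub_lt_self _ (by positivity)
theorem xs_zero : xs 0 = 0 := by simp [xs]
theorem xs_one : xs 1 = 1 / 2 := by norm_num [xs]
theorem xs_ge (n : ℕ) : 0 ≤ xs n := xs_zero ▸ xs_mono.monotone n.zero_le

theorem xs_ex {x : ℝ} (h : x < 1) : ∃ n, x < xs n := by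
  obtain ⟨n, hn⟩ := exists_nat_one_div_lt (sub_pos.2 h)
  exact ⟨n, by unfold xs; linarith⟩

theorem xs_cov {x : ℝ} (h0 : 0 ≤ x) (h : x < 1) : ∃ n, xs n ≤ x ∧ x ≤ xs (n + 1) := by
  classical
  have h1 := Nat.find_spec (xs_ex h)
  have h2 := fun m => @Nat.find_min _ _ (xs_ex h) m
  generalize Nat.find (xs_ex h) = n at h1 h2
  rcases n with _ | n
  · exact absurd (xs_zero ▸ h1) h0.not_gt
  · exact ⟨n, not_lt.1 (h2 n n.lt_succ_self), h1.le⟩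

variable {t : H}

theorem Bump.xs1 (ht : Bump (K := K) t) (n : ℕ) : t (xs n) = xs (n + 1) := by
  rw [ht.p3 _ (xs_ge n) (xs_lt n).le, xs, xs]
  have : (n : ℝ) + 1 + 1 ≠ 0 := by positivity
  rw [show 2 - (1 - 1 / ((n : ℝ) + 1)) = (n + 1 + 1) / (n + 1) by field_simp; ring]
  push_cast
  field_simp
  ring

theorem Bump.xsn (ht : Bump (K := K) t) (m n : ℕ) : (t ^ n) (xs m) = xs (m + n) := by
  induction n with
  | zero => rfl
  | succ n ih => rw [pow_succ', mul_app, ih, ht.xs1, add_assoc]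

def Sm (a : ℕ → H) : Prop := ∀ n, a n ∈ RR 0 ∧ a n ∈ LL (1 / 2)

theorem Bump.cr (ht : Bump (K := K) t) {a : ℕ → H} (ha : Sm a) (n : ℕ) :
    t ^ n * a n * (t ^ n)⁻¹ ∈ RR (xs n) := by
  simpa [ht.xsn] using RR.conj (xs_zero ▸ (ha n).1 : a n ∈ RR (xs 0)) (t ^ n)

theorem Bump.cl (ht : Bump (K := K) t) {a : ℕ → H} (ha : Sm a) (n : ℕ) :
    t ^ n * a n * (t ^ n)⁻¹ ∈ LL (xs (n + 1)) := by
  simpa [ht.xsn, add_comm] using LL.conj (xs_one ▸ (ha n).2 : a n ∈ LL (xs 1)) (t ^ n)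

def IsProd (t : H) (a : ℕ → H) (F : H) : Prop := F ∈ RR 0 ∧ F ∈ LL 1 ∧
  ∀ n x, xs n ≤ x → x ≤ xs (n + 1) → F x = (t ^ n * a n * (t ^ n)⁻¹ : H) x

theorem RR.le {m x : ℝ} {g : H} (hg : g ∈ RR m) (h : m ≤ x) : m ≤ g x :=
  (hg m self_mem_Iic).ge.trans (g.monotone h)

theorem LL.le {m x : ℝ} {g : H} (hg : g ∈ LL m) (h : x ≤ m) : g x ≤ m :=
  (g.monotone h).trans_eq (hg m self_mem_Ici)

theorem Bump.prod (ht : Bump (K := K) t) {a : ℕ → H} (ha : Sm a) (ha' : ∀ n, a n ∈ GG K) :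
    ∃ F ∈ GG K, IsProd t a F := by
  classical
  let P : ℕ → H := fun N => Nat.rec 1 (fun n p => p * (t ^ n * a n * (t ^ n)⁻¹)) N
  have ps : ∀ n, P (n + 1) = P n * (t ^ n * a n * (t ^ n)⁻¹) := fun _ => rfl
  have p1 : ∀ N, P N ∈ GG K ∧ P N ∈ RR 0 ∧ P N ∈ LL (xs N) := by
    intro N
    induction N with
    | zero => exact ⟨one_mem _, one_mem _, one_mem _⟩
    | succ n ih =>
      exact ⟨mul_mem ih.1 (mul_mem (mul_mem (pow_mem ht.mem _) (ha' n)) (inv_mem (pow_mem ht.mem _))),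
        mul_mem ih.2.1 (RR.mono (ht.cr ha n) (xs_ge n)),
        mul_mem (LL.mono ih.2.2 (xs_mono n.lt_succ_self).le) (ht.cl ha n)⟩
  have p2 : ∀ x N N', x ≤ xs N → N ≤ N' → P N' x = P N x := by
    intro x N N' h1 h2
    induction h2 with
    | refl => rfl
    | step h ih => rw [ps, mul_app, ht.cr ha _ x (h1.trans (xs_mono.monotone h)), ih]
  let F : ℝ → ℝ := fun x => if h : x < 1 then P (xs_ex h).choose x else x
  have f1 : ∀ x N, x ≤ xs N → F x = P N x := fun x N h => by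
    have h1 := h.trans_lt (xs_lt N)
    simp only [F, dif_pos h1]
    rw [← p2 x N _ h (le_max_left _ (xs_ex h1).choose),
      p2 x _ _ (xs_ex h1).choose_spec.le (le_max_right _ _)]
  have f2 : ∀ x, 1 ≤ x → F x = x := fun x h => dif_neg h.not_gt
  have f3 : ∀ x, x ≤ 0 → F x = x := fun x h => f1 x 0 (xs_zero ▸ h)
  have f4 : ∀ n x, xs n ≤ x → x ≤ xs (n + 1) → F x = (t ^ n * a n * (t ^ n)⁻¹ : H) x :=
    fun n x h1 h2 => by rw [f1 x _ h2, ps, mul_app, (p1 n).2.2 _ (RR.le (ht.cr ha n) h1)]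
  have f5 : ∀ x, 0 ≤ x → |F x - x| ≤ 2 * |x - 1| ^ 2 := fun x h => by
    rcases le_or_gt 1 x with h1 | h1
    · rw [f2 x h1, sub_self, abs_zero]; positivity
    obtain ⟨n, h2, h3⟩ := xs_cov h h1
    have h4 := RR.le (ht.cr ha n) h2
    have h5 := LL.le (ht.cl ha n) h3
    rw [← f4 n x h2 h3] at h4 h5
    have h6 : xs (n + 1) - xs n ≤ 2 * (1 - xs (n + 1)) ^ 2 := by
      simp only [xs]
      push_cast
      rw [← sub_nonneg, show 2 * (1 - (1 - 1 / ((n : ℝ) + 1 + 1))) ^ 2 -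
        (1 - 1 / (n + 1 + 1) - (1 - 1 / (n + 1))) = n / ((n + 1) * (n + 1 + 1) ^ 2) by
          field_simp; ring]
      positivity
    have := xs_lt (n + 1)
    rw [sq_abs, abs_le]
    constructor <;> nlinarith
  obtain ⟨g, g1, g2⟩ := Lo.mk (K := K) (f := F) ⟨1, fun x hx => (le_abs'.1 hx).elim
    (fun h => f3 x (by linarith)) (f2 x)⟩ fun x => by
      rcases lt_trichotomy x 1 with h | rfl | h
      · obtain ⟨N, hN⟩ := xs_ex h
        exact ((p1 N).1.2 x).congr ((eventually_lt_nhds hN).mono fun y hy => f1 y N hy.le)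
      · refine ⟨⟨1, one_pos, hasDerivAt_iff_isLittleO.2 ?_⟩, 1, one_mem _, 0, zero_mem _, 0,
          zero_mem _, 1, one_mem _, by simp, eventually_mem_nhdsWithin.mono fun y hy => by
            simp [f2 y hy]⟩
        refine (Asymptotics.IsBigO.of_bound 2 ?_).trans_isLittleO
          (Asymptotics.isLittleO_pow_sub_sub (1 : ℝ) one_lt_two)
        filter_upwards [eventually_gt_nhds one_pos] with y hy
        simpa [f2 1 le_rfl] using f5 y hy.le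
      · exact (loc_id x).congr ((eventually_gt_nhds h).mono fun y hy => f2 y hy.le)
  exact ⟨g, g1, fun x h => (g2 x).trans (f3 x h), fun x h => (g2 x).trans (f2 x h),
    fun n x h1 h2 => (g2 x).trans (f4 n x h1 h2)⟩

theorem IsProd.uniq {a : ℕ → H} {F F' : H} (h : IsProd t a F) (h' : IsProd t a F') : F = F' := by
  refine DFunLike.ext _ _ fun x => ?_
  rcases le_total x 0 with h0 | h0
  · rw [h.1 x h0, h'.1 x h0]
  rcases le_or_gt 1 x with h1 | h1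
  · rw [h.2.1 x h1, h'.2.1 x h1]
  obtain ⟨n, h2, h3⟩ := xs_cov h0 h1
  rw [h.2.2 n x h2 h3, h'.2.2 n x h2 h3]

theorem Bump.inv (ht : Bump (K := K) t) {a : ℕ → H} (ha : Sm a) {F : H} (h : IsProd t a F) :
    IsProd t (fun n => (a n)⁻¹) F⁻¹ := by
  refine ⟨inv_mem h.1, inv_mem h.2.1, fun n x h1 h2 => F.injective ?_⟩
  rw [show t ^ n * (a n)⁻¹ * (t ^ n)⁻¹ = (t ^ n * a n * (t ^ n)⁻¹)⁻¹ by group, app_inv,
    h.2.2 n _ (RR.le (inv_mem (ht.cr ha n)) h1) (LL.le (inv_mem (ht.cl ha n)) h2), app_inv]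

theorem Bump.rec' (ht : Bump (K := K) t) {a : ℕ → H} (ha : Sm a) {F : H}
    (h : IsProd t (fun n => a (n + 1)) F) : IsProd t a (a 0 * (t * F * t⁻¹)) := by
  have k : t * F * t⁻¹ ∈ RR (xs 1) := ht.xs1 0 ▸ RR.conj (xs_zero ▸ h.1) t
  refine ⟨mul_mem (ha 0).1 (RR.mono k (xs_ge 1)), mul_mem (LL.mono (ha 0).2 (by norm_num))
    (mul_mem (mul_mem ht.l h.2.1) (inv_mem ht.l)), fun n x h1 h2 => ?_⟩
  rcases n with _ | n
  · rw [mul_app, k x h2]; simp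
  · have e : (t * F * t⁻¹ : H) x = (t ^ (n + 1) * a (n + 1) * (t ^ (n + 1))⁻¹ : H) x := by
      rw [mul_app, mul_app, h.2.2 n _ ((le_inv_iff t).2 (ht.xs1 _ ▸ h1))
        ((inv_le_iff t).2 (h2.trans_eq (ht.xs1 _).symm)), ← mul_app, ← mul_app]
      congr 1
      group
    rw [mul_app, e]
    exact (ha 0).2 _ ((xs_one ▸ xs_mono.monotone (by omega : 1 ≤ n + 1)).trans
      (RR.le (ht.cr ha _) h1))

theorem Bump.comm (ht : Bump (K := K) t) {a : H} (h : a ∈ GG K) (h1 : a ∈ RR 0)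
    (h2 : a ∈ LL (1 / 2)) : ∃ s ∈ GG K, s ∈ RR 0 ∧ s ∈ LL 1 ∧ a = s * t * s⁻¹ * t⁻¹ := by
  have ha : Sm fun _ => a := fun _ => ⟨h1, h2⟩
  obtain ⟨s, s1, s2⟩ := ht.prod ha fun _ => h
  refine ⟨s, s1, s2.1, s2.2.1, ?_⟩
  have := s2.uniq (ht.rec' ha s2)
  rw [← mul_inv_eq_iff_eq_mul] at this
  rw [← this]
  group

theorem Bump.alt (ht : Bump (K := K) t) {a : H} (h : a ∈ GG K) (h1 : a ∈ RR 0)
    (h2 : a ∈ LL (1 / 2)) : ∃ w ∈ GG K, w ∈ RR 0 ∧ w = a * (t * w⁻¹ * t⁻¹) := by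
  have ha : Sm fun n => a ^ ((-1 : ℤ) ^ n) := fun _ => ⟨zpow_mem h1 _, zpow_mem h2 _⟩
  obtain ⟨s, s1, s2⟩ := ht.prod ha fun _ => zpow_mem h _
  refine ⟨s, s1, s2.1, ?_⟩
  have := ht.inv ha s2
  simp only [← zpow_neg, ← mul_neg_one ((-1 : ℤ) ^ _), ← pow_succ] at this
  simpa using s2.uniq (ht.rec' ha this)

end Pool.Agent.H77.Lo
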