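import Pool.Agent.H77.LoC

set_option autoImplicit false

namespace Pool.Agent.H77.Lo

open Filter Topology Set

variable {K : Subfield ℝ}

theorem sep {a : H} {x u v : ℝ} (h : a x ≠ x) (h1 : u < x) (h2 : x < v) : ∃ j ∈ K, ∃ j' ∈ K,
    u < j ∧ j < x ∧ x < j' ∧ j' < v ∧ (j' ≤ a j ∨ a j' ≤ j) := by
  rcases h.lt_or_gt with h | h
  · obtain ⟨j, hj, j1, j2⟩ := rat_btwn (K := K) (max_lt h1 h)
    obtain ⟨i, hi, i1, i2⟩ := rat_btwn (K := K)
      (lt_min h2 ((lt_inv_iff a).2 (lt_of_le_of_lt (le_max_right _ _) j1)))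
    exact ⟨j, hj, i, hi, (max_lt_iff.1 j1).1, j2, i1, (lt_min_iff.1 i2).1,
      Or.inr ((lt_inv_iff a).1 (lt_min_iff.1 i2).2).le⟩
  · obtain ⟨i, hi, i1, i2⟩ := rat_btwn (K := K) (lt_min h2 h)
    obtain ⟨j, hj, j1, j2⟩ := rat_btwn (K := K)
      (max_lt h1 ((inv_lt_iff a).2 (lt_min_iff.1 i2).2))
    exact ⟨j, hj, i, hi, (max_lt_iff.1 j1).1, j2, i1, (lt_min_iff.1 i2).1,
      Or.inl ((inv_lt_iff a).1 (max_lt_iff.1 j1).2).le⟩

theorem sep_comm {a f g : H} {j j' : ℝ} (h : j' ≤ a j ∨ a j' ≤ j) (f1 : f ∈ RR j) (f2 : f ∈ LL j')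
    (g1 : g ∈ RR j) (g2 : g ∈ LL j') : Commute f (a * g * a⁻¹) :=
  h.elim (fun h => commLR f2 (RR.mono (RR.conj g1 a) h))
    fun h => (commLR (LL.mono (LL.conj g2 a) h) f1).symm

theorem four_conc {a y : H} {x u v u' v' : ℝ} (h : a x ≠ x) (h1 : u < x) (h2 : x < v)
    (y1 : y ∈ GG K) (y2 : y ∈ RR u') (y3 : y ∈ LL v') (h3 : u < u') (h4 : v' < v) :
    Four (GG K ⊓ (RR u ⊓ LL v)) a y := by
  obtain ⟨j, hj, j', hj', j1, j2, j3, j4, j5⟩ := sep (K := K) h h1 h2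
  obtain ⟨T, T1, T2, -, T3⟩ := exists_aff hj hj' (j2.trans j3)
  obtain ⟨t, ht⟩ := exists_bump (K := K)
  obtain ⟨g, g1, g2, g3, g4, g5⟩ := shrink (K := K) (j := T 0) (j' := T (1 / 2)) h3 h4
    (j1.trans (T1 ▸ T.strictMono (by norm_num))) (T.strictMono (by norm_num))
    (lt_trans (T2 ▸ T.strictMono (by norm_num)) j4)
  obtain ⟨s, s1, s2, s3, e⟩ := ht.comm (T3 _ (mul_mem (mul_mem g1 y1) (inv_mem g1))).2
    (RR.mono (by simpa using RR.conj (RR.conj y2 g) T⁻¹) ((le_inv_iff T).2 g4.le))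
    (LL.mono (by simpa using LL.conj (LL.conj y3 g) T⁻¹) ((inv_le_iff T).2 g5.le))
  have a1 : T * s * T⁻¹ ∈ RR j := T1 ▸ RR.conj (RR.mono s2 (by norm_num)) T
  have a2 : T * s * T⁻¹ ∈ LL j' := T2 ▸ LL.conj s3 T
  have b1 : T * t * T⁻¹ ∈ RR j := T1 ▸ RR.conj ht.r T
  have b2 : T * t * T⁻¹ ∈ LL j' := T2 ▸ LL.conj ht.l T
  have c1 := (sep_comm j5 a1 a2 (inv_mem b1) (inv_mem b2)).eq
  have m1 : g⁻¹ ∈ GG K ⊓ (RR u ⊓ LL v) := inv_mem ⟨g1, g2, g3⟩
  have m2 : T * s * T⁻¹ ∈ GG K ⊓ (RR u ⊓ LL v) := ⟨(T3 s s1).1, RR.mono a1 j1.le, LL.mono a2 j4.le⟩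
  have m3 : T * t * T⁻¹ ∈ GG K ⊓ (RR u ⊓ LL v) :=
    ⟨(T3 t ht.mem).1, RR.mono b1 j1.le, LL.mono b2 j4.le⟩
  have e' : y = g⁻¹ * ((T * s * T⁻¹) * (T * t * T⁻¹) * (T * s * T⁻¹)⁻¹ * (T * t * T⁻¹)⁻¹) * g := by
    rw [show (T * s * T⁻¹) * (T * t * T⁻¹) * (T * s * T⁻¹)⁻¹ * (T * t * T⁻¹)⁻¹ =
      T * (s * t * s⁻¹ * t⁻¹) * T⁻¹ by group, ← e]
    group
  generalize T * s * T⁻¹ = S at *
  generalize T * t * T⁻¹ = R at *
  refine ⟨_, mul_mem m1 (mul_mem m2 m3), _, mul_mem m1 m2, _, m1, _, mul_mem m1 m3, ?_⟩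
  have c2 : a * R⁻¹ * a⁻¹ * S⁻¹ = S⁻¹ * (a * R⁻¹ * a⁻¹) := by
    rw [eq_inv_mul_iff_mul_eq, ← mul_assoc, c1]; group
  calc y = g⁻¹ * (S * R * (S⁻¹ * (a * R⁻¹ * a⁻¹)) * (a * R * a⁻¹) * R⁻¹) * g := by rw [e']; group
    _ = _ := by rw [← c2]; group

theorem fixes {g : H} {u v : ℝ} (h : ∀ b ∈ GG K, b ∈ RR u → b ∈ LL v → Commute b g)
    (huv : u < v) : ∀ x ∈ Icc u v, g x = x := by
  rw [← closure_Ioo huv.ne]
  refine EqOn.closure (f := g) (g := id) (fun x hx => by_contra fun hc => ?_) g.continuous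
    continuous_id
  obtain ⟨j, hj, j', hj', j1, j2, j3, j4, j5⟩ := sep (K := K) hc hx.1 hx.2
  obtain ⟨b, b1, b2, b3, b4⟩ := bump_at hj hj' (j2.trans j3)
  have e := DFunLike.congr_fun (h b b1 (RR.mono b2 j1.le) (LL.mono b3 j4.le)).eq x
  rw [mul_app, mul_app, j5.elim (fun k => b3 _ (k.trans (g.monotone j2.le)))
    fun k => b2 _ ((g.monotone j3.le).trans k)] at e
  exact (b4 x j2 j3).ne (g.injective e)

variable (K) in
def Sub (S : Subgroup H) : Subgroup (GG K) where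
  carrier := {g | g.1 ∈ S}
  one_mem' := S.one_mem
  mul_mem' := S.mul_mem
  inv_mem' := S.inv_mem

variable (K) in
def AA (m : ℝ) : Subgroup (GG K) := Sub K (LL m)
variable (K) in
def BB (m : ℝ) : Subgroup (GG K) := Sub K (RR m)

theorem Four.lift {S : Subgroup (GG K)} {S' : Subgroup H} {a y : GG K}
    (h : Four (GG K ⊓ S') a.1 y.1) (hS : ∀ g : GG K, g.1 ∈ S' → g ∈ S) : Four S a y := by
  obtain ⟨c1, d1, c2, d2, c3, d3, c4, d4, e⟩ := h
  exact ⟨⟨c1, d1.1⟩, hS _ d1.2, ⟨c2, d2.1⟩, hS _ d2.2, ⟨c3, d3.1⟩, hS _ d3.2, ⟨c4, d4.1⟩,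
    hS _ d4.2, Subtype.ext e⟩

theorem comm_coe {a b : GG K} : Commute a b ↔ Commute a.1 b.1 := Subtype.ext_iff

theorem notRR {a : H} {m : ℝ} (h : a ∉ RR m) : ∃ x < m, a x ≠ x := by
  by_contra hc
  push Not at hc
  exact h fun x hx => EqOn.closure (f := a) (g := id) (s := Iio m) hc a.continuous continuous_id
    (by rwa [closure_Iio])

theorem notLL {a : H} {m : ℝ} (h : a ∉ LL m) : ∃ x, m < x ∧ a x ≠ x := by
  by_contra hc
  push Not at hc
  exact h fun x hx => EqOn.closure (f := a) (g := id) (s := Ioi m) hc a.continuous continuous_id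
    (by rwa [closure_Ioi])

theorem small {u v : ℝ} (h : u < v) : ∃ b : GG K, b ∈ BB K u ∧ b ∈ AA K v ∧ b ≠ 1 := by
  obtain ⟨p, hp, p1, p2⟩ := rat_btwn (K := K) h
  obtain ⟨q, hq, q1, q2⟩ := rat_btwn (K := K) p2
  obtain ⟨b, b1, b2, b3, b4⟩ := bump_at hp hq q1
  refine ⟨⟨b, b1⟩, RR.mono b2 p1.le, LL.mono b3 q2.le, fun e => ?_⟩
  have := b4 ((p + q) / 2) (by linarith) (by linarith)
  rw [show b = 1 from congrArg Subtype.val e] at this
  exact this.ne rfl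

theorem sys : Sys (AA K) (BB K) where
  comm m a ha b hb := comm_coe.2 (commLR ha hb)
  cen m g h x hx := fixes (fun b b1 _ b3 => comm_coe.1 (h ⟨b, b1⟩ b3))
    (show x - 1 < m by linarith [mem_Iic.1 hx]) x ⟨by linarith, hx⟩
  cen' m g h x hx := fixes (fun b b1 b2 _ => comm_coe.1 (h ⟨b, b1⟩ b2))
    (show m < x + 1 by linarith [mem_Ici.1 hx]) x ⟨hx, by linarith⟩
  four m n a y h1 h2 h3 := by
    obtain ⟨x, x1, x2⟩ := notRR h1
    obtain ⟨u, -, u1, -⟩ := bd_iff.1 y.2.1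
    exact (four_conc x2 (u := min u x - 1) (by linarith [min_le_right u x]) x1 y.2 u1 h3
      (by linarith [min_le_left u x]) h2).lift fun g hg => hg.2
  four' m n a y h1 h2 h3 := by
    obtain ⟨x, x1, x2⟩ := notLL h1
    obtain ⟨-, u, -, u1⟩ := bd_iff.1 y.2.1
    exact (four_conc x2 (v := max u x + 1) x1 (by linarith [le_max_right u x]) y.2 h3 u1 h2
      (by linarith [le_max_left u x])).lift fun g hg => hg.1
  split m n g h1 h2 := by
    have k := fixes (fun b b1 b2 b3 => comm_coe.1 (h2 ⟨b, b1⟩ b3 b2)) h1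
    obtain ⟨u, -, u1, -⟩ := bd_iff.1 g.2.1
    have e1 : ∀ x ≤ n, gl m g.1 id x = g.1 x := fun x hx => by
      unfold gl
      split_ifs with h
      · rfl
      · exact (k x ⟨(not_le.1 h).le, hx⟩).symm
    have e2 : ∀ x, m ≤ x → gl m g.1 id x = x := fun x hx => by
      unfold gl
      split_ifs with h
      · exact k x ⟨hx, h.trans h1.le⟩
      · rfl
    obtain ⟨a, a1, a2⟩ := mk (K := K) (f := gl m g.1 id) ⟨max (-min u n) m, fun x hx => by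
      rcases le_abs'.1 hx with h | h
      · have := h.trans (neg_le.1 (le_max_left _ _))
        rw [e1 x (this.trans (min_le_right _ _)), u1 x (this.trans (min_le_left _ _))]
      · exact e2 x (le_of_max_le_right h)⟩ fun x => by
        rcases lt_or_ge x n with h | h
        · exact (g.2.2 x).congr ((eventually_lt_nhds h).mono fun y hy => e1 y hy.le)
        · exact (loc_id x).congr ((eventually_gt_nhds (h1.trans_le h)).mono fun y hy => e2 y hy.le)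
    refine ⟨⟨a, a1⟩, fun x hx => (a2 x).trans (e2 x hx), ⟨a, a1⟩⁻¹ * g, fun x hx => ?_, by simp⟩
    change a⁻¹ (g.1 x) = x
    rw [← e1 x hx, ← a2, inv_app]
  mono m n h a ha := LL.mono ha h
  mono' m n h a ha := RR.mono ha h
  disj m a h1 h2 := Subtype.ext (DFunLike.ext _ _ fun x => (le_total x m).elim (h2 x) (h1 x))
  move m n := by
    obtain ⟨g, g1, -, -, -, g2⟩ := shrink (K := K) (u := min m n - 2) (u' := m) (v' := m)
      (v := max m n + 1) (j := n - 1) (j' := n) (by linarith [min_le_left m n])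
      (by linarith [le_max_left m n]) (by linarith [min_le_right m n]) (by linarith)
      (by linarith [le_max_right m n])
    exact ⟨⟨g, g1⟩, fun a ha => LL.mono (LL.conj ha g) g2.le, fun b hb =>
      RR.mono (by simpa using RR.conj hb g⁻¹) ((le_inv_iff g).2 g2.le)⟩
  bdd g := (bd_iff.1 g.2.1).elim fun _ ⟨v, h⟩ => ⟨v, h.2⟩
  bdd' g := (bd_iff.1 g.2.1).elim fun u ⟨_, h⟩ => ⟨u, h.1⟩
  ne m := (small (show m < m + 1 by linarith)).elim fun b h => ⟨b, h.1, h.2.2⟩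
  ne' m := (small (show m - 1 < m by linarith)).elim fun b h => ⟨b, h.2.1, h.2.2⟩

end Pool.Agent.H77.Lo
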