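import Pool.Agent.H77.LoD

set_option autoImplicit false

namespace Pool.Agent.H77.Lo

open Filter Topology Set

variable {K : Subfield ℝ} [Lattice (GG K)] [MulLeftMono (GG K)] [MulRightMono (GG K)]

theorem not_right : ¬D (BB K) (AA K) := by
  intro hd
  obtain ⟨t, ht⟩ := exists_bump (K := K)
  obtain ⟨a, a1, a2, a3⟩ := small (K := K) (show (0 : ℝ) < 1 / 2 by norm_num)
  obtain ⟨w, w1, w2, e⟩ := ht.alt a.2 a1 a2
  lift w to GG K using w1
  let T : GG K := ⟨t, ht.mem⟩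
  have e' : w = a * (T * w * T⁻¹)⁻¹ := Subtype.ext (e.trans (by simp [T, mul_assoc]))
  have v1 : T * w * T⁻¹ ∈ BB K (1 / 2) := by
    have := RR.conj w2 t
    rwa [ht.p3 0 le_rfl zero_le_one, sub_zero] at this
  have v2 : T * w * T⁻¹ ≠ 1 := fun h => a3 (by
    rw [h, show w = 1 by simpa [mul_inv_eq_iff_eq_mul] using h] at e'
    simpa using e'.symm)
  have w3 : w ∉ AA K (1 / 2) := fun h => v2 (sys.disj _ _ (by
    have := mul_mem (inv_mem h) a2
    rwa [show w⁻¹ * a = T * w * T⁻¹ by conv_lhs => rw [e']; simp] at this) v1)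
  have sg := fun g e h1 h2 => (sys (K := K)).symm.sign (D_neg.2 hd) (m := -(1 / 2)) (g := g) (e := e)
    (by simpa using h1) (by simpa using h2)
  simp only [one_div] at sg w3 a2 v1
  rcases (sys (K := K)).symm.total (D_neg.2 hd) w with h | h
  · have := sg w a⁻¹ w3 (inv_mem a2) h
    rw [e', (sys.comm _ a a2 _ (inv_mem v1)).eq, mul_inv_cancel_right] at this
    exact v2 (le_antisymm (one_le_inv'.1 this) (by simpa using conj_le T h))
  · have := sg w⁻¹ a (by simpa using w3) a2 (one_le_inv'.2 h)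
    rw [show w⁻¹ * a = T * w * T⁻¹ by conv_lhs => rw [e']; simp] at this
    exact v2 (le_antisymm (by simpa using conj_le T h) this)

theorem small' {u v : ℝ} (h : u < v) : ∃ b : GG K, b ∈ BB K u ∧ b ∈ AA K v ∧ 1 ≤ b ∧ b ≠ 1 := by
  obtain ⟨b, h1, h3, h2⟩ := small (K := K) h
  refine ⟨|b|ₘ, sys.sup_mem h1 (inv_mem h1), sys.sup_mem' h3 (inv_mem h3), one_le_mabs b,
    fun e => h2 ?_⟩
  exact le_antisymm (e ▸ le_mabs_self b) (inv_le_one'.1 (e ▸ inv_le_mabs b))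

section
variable (hd : ¬D (AA K) (BB K))
include hd

theorem domin {p : GG K} {x : ℝ} (h1 : 1 ≤ p) (h2 : p.1 x ≠ x) : ∃ j j', j < x ∧ x < j' ∧
    ∀ a : GG K, 1 ≤ a → a ∈ BB K j → a ∈ AA K j' → a ≤ p := by
  obtain ⟨j, -, j', -, -, j2, j3, -, j5⟩ := sep (K := K) h2 (sub_one_lt x) (lt_add_one x)
  refine ⟨(j + x) / 2, (x + j') / 2, by linarith, by linarith, fun a a1 a2 a3 =>
    le_of_disj (b := p * a * p⁻¹) ?_ (by simpa using h1) h1⟩
  have k : 1 ≤ p * a * p⁻¹ := by simpa using conj_le p a1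
  rcases j5 with j5 | j5
  · rw [inf_comm]
    exact sys.inf_one hd not_right a3 (RR.conj a2 p.1) a1 k
      (lt_of_lt_of_le (by linarith) (j5.trans (p.1.monotone (by linarith))))
  · exact sys.inf_one hd not_right (LL.conj a3 p.1) a2 k a1
      (lt_of_le_of_lt ((p.1.monotone (by linarith)).trans j5) (by linarith))

theorem both {p q : GG K} {x : ℝ} (h1 : 1 ≤ p) (h2 : 1 ≤ q) (h : p ⊓ q = 1) (h3 : p.1 x ≠ x) :
    q.1 x = x := by
  by_contra h4
  obtain ⟨i, i', i1, i2, i3⟩ := domin hd h1 h3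
  obtain ⟨j, j', j1, j2, j3⟩ := domin hd h2 h4
  obtain ⟨a, a1, a2, a3, a4⟩ := small' (K := K) ((max_lt i1 j1).trans (lt_min i2 j2))
  exact a4 (le_antisymm (h ▸ le_inf
    (i3 a a3 (RR.mono a1 (le_max_left _ _)) (LL.mono a2 (min_le_left _ _)))
    (j3 a a3 (RR.mono a1 (le_max_right _ _)) (LL.mono a2 (min_le_right _ _)))) a3)

theorem below {p s : GG K} {x u v : ℝ} (h1 : 1 ≤ p) (h2 : p ≤ s) (hu : u < x) (hv : x < v)
    (h : ∀ y ∈ Icc u v, s.1 y = y) : p.1 x = x := by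
  by_contra h3
  obtain ⟨i, i', i1, i2, i3⟩ := domin hd h1 h3
  obtain ⟨a, a1, a2, a3, a4⟩ := small' (K := K) (u := max i ((u + x) / 2))
    (v := min i' ((x + v) / 2)) ((max_lt i1 (by linarith)).trans (lt_min i2 (by linarith)))
  refine a4 (sys.gap hd not_right a1 a2 a3 (u := u) (v := v) (lt_max_of_lt_right (by linarith))
    (min_lt_of_right_lt (by linarith)) (hu.trans hv) (fun c c1 c2 => comm_coe.2 ?_)
    ((i3 a a3 (RR.mono a1 (le_max_left _ _)) (LL.mono a2 (min_le_left _ _))).trans h2))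
  have huv := (hu.trans hv).le
  refine DFunLike.ext _ _ fun y => ?_
  rw [mul_app, mul_app]
  rcases le_total y u with k | k
  · rw [c2 y k, c2 _ ((s.1.monotone k).trans_eq (h u ⟨le_rfl, huv⟩))]
  rcases le_total v y with k' | k'
  · rw [c1 y k', c1 _ ((h v ⟨huv, le_rfl⟩).ge.trans (s.1.monotone k'))]
  · rw [h y ⟨k, k'⟩, h _ ⟨RR.le c2 k, LL.le c1 k'⟩]

theorem conn (g : GG K) {u v : ℝ} (h : ∀ x ∈ Ioo u v, g.1 x = x → ¬HasDerivAt g.1 1 x) :
    (∀ x ∈ Ioo u v, (g⁺ᵐ).1 x = x) ∨ ∀ x ∈ Ioo u v, (g⁻ᵐ).1 x = x := by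
  have e : ∀ y, (g⁺ᵐ).1 y = g.1 ((g⁻ᵐ).1 y) := fun y => by
    conv_lhs => rw [div_eq_iff_eq_mul.1 (oneLePart_div_leOnePart g)]
    rfl
  have b1 := fun x => both hd (x := x) (one_le_oneLePart g) (one_le_leOnePart g)
    (oneLePart_inf_leOnePart_eq_one g)
  have b2 := fun x => both hd (x := x) (one_le_leOnePart g) (one_le_oneLePart g)
    ((inf_comm _ _).trans (oneLePart_inf_leOnePart_eq_one g))
  generalize g⁺ᵐ = p at *
  generalize g⁻ᵐ = q at *
  have k : ∀ p q : GG K, (∀ x, p.1 x ≠ x → q.1 x = x) → ∀ x, (p.1 x = x → q.1 x = x ∧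
      ¬HasDerivAt p.1 1 x) → x ∈ interior {y | q.1 y = y} := by
    intro p q b x hx
    rw [mem_interior_iff_mem_nhds]
    by_cases h1 : p.1 x = x
    · obtain ⟨d, -, h2⟩ := (p.2.2 x).1
      have := (h2.sub (hasDerivAt_id x)).eventually_ne (c := 0)
        (sub_ne_zero.2 fun e => (hx h1).2 (e ▸ h2))
      rw [← nhdsNE_sup_pure]
      exact ⟨this.mono fun y hy => b y (sub_ne_zero.1 hy), (hx h1).1⟩
    · exact ((isOpen_ne_fun p.1.continuous continuous_id).eventually_mem h1).mono b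
  have := (isPreconnected_Ioo (a := u) (b := v)).subset_or_subset
    (isOpen_interior.inter isOpen_Ioo) (isOpen_interior.inter isOpen_Ioo)
    (u := interior {y | p.1 y = y} ∩ Ioo u v) (v := interior {y | q.1 y = y} ∩ Ioo u v) ?_ ?_
  · rcases this with h | h
    · exact Or.inl fun x hx => (interior_subset (h hx).1 :)
    · exact Or.inr fun x hx => (interior_subset (h hx).1 :)
  · refine disjoint_left.2 fun x h1 h2 => ?_
    have : ∀ᶠ y in 𝓝 x, g.1 y = y := by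
      filter_upwards [mem_interior_iff_mem_nhds.1 h1.1, mem_interior_iff_mem_nhds.1 h2.1]
        with y k1 k2
      rw [← k2, ← e, k1, k2]
    exact h x h1.2 this.self_of_nhds ((hasDerivAt_id x).congr_of_eventuallyEq this)
  · intro x hx
    by_cases h1 : p.1 x = x ∧ HasDerivAt p.1 1 x
    · refine Or.inl ⟨k q p b2 x fun h2 => ⟨h1.1, fun h3 => ?_⟩, hx⟩
      obtain ⟨d, -, h4⟩ := (g.2.2 x).1
      have h5 := (h2.symm ▸ h4 : HasDerivAt g.1 d (q.1 x)).comp x h3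
      rw [show g.1 ∘ q.1 = p.1 from (funext e).symm] at h5
      exact h x hx (by rw [← h2, ← e, h1.1, h2]) (by rwa [← h5.unique h1.2, mul_one])
    · by_cases h2 : q.1 x = x
      · exact Or.inr ⟨k p q b1 x fun h3 => ⟨h2, fun h4 => h1 ⟨h3, h4⟩⟩, hx⟩
      · exact Or.inl ⟨k q p b2 x fun h3 => (h2 h3).elim, hx⟩

theorem one_sign {b : GG K} {u v : ℝ} (h1 : b ∈ BB K u) (h2 : b ∈ AA K v)
    (h : ∀ x, u < x → x < v → x < b.1 x) : 1 ≤ b ∨ 1 ≤ b⁻¹ := by
  have k : ∀ p : GG K, p ∈ BB K u → p ∈ AA K v → (∀ x ∈ Ioo u v, p.1 x = x) → p = 1 :=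
    fun p p1 p2 p3 => Subtype.ext (DFunLike.ext _ _ fun x => (le_or_gt x u).elim (p1 x) fun k =>
      (le_or_gt v x).elim (p2 x) fun k' => p3 x ⟨k, k'⟩)
  rcases conn hd b (u := u) (v := v) fun x hx e => ((h x hx.1 hx.2).ne' e).elim with e | e
  · exact Or.inr (one_le_inv'.2 (oneLePart_eq_one.1 (k _ (sys.sup_mem h1 (one_mem _))
      (sys.sup_mem' h2 (one_mem _)) e)))
  · exact Or.inl (leOnePart_eq_one.1 (k _ (sys.sup_mem (inv_mem h1) (one_mem _))
      (sys.sup_mem' (inv_mem h2) (one_mem _)) e))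

theorem clash {c d : GG K} (hc : 1 ≤ c) (hd' : 1 ≤ d) (c1 : c ∈ BB K (1 / 2)) (d1 : d ∈ AA K 1)
    (c2 : c.1 2 ≠ 2) (d2 : d.1 0 ≠ 0)
    (h : ∀ x ∈ Ioo (-1 : ℝ) (5 / 2), (c * d⁻¹).1 x = x → ¬HasDerivAt (c * d⁻¹).1 1 x) : False := by
  have e : ∀ y, ((c * d⁻¹)⁺ᵐ).1 y = c.1 (d.1⁻¹ (((c * d⁻¹)⁻ᵐ).1 y)) := fun y => by
    conv_lhs => rw [div_eq_iff_eq_mul.1 (oneLePart_div_leOnePart _)]
    rfl
  have k1 := below hd (x := 0) (u := -1) (v := 1 / 2) (one_le_oneLePart (c * d⁻¹))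
    (sup_le (mul_le_of_le_one_right' (inv_le_one'.2 hd')) hc) (by norm_num) (by norm_num)
    fun y hy => c1 y hy.2
  have k2 := below hd (x := 2) (u := 1) (v := 3) (one_le_leOnePart (c * d⁻¹)) (s := d)
    (sup_le (by simpa using hc) hd') (by norm_num) (by norm_num) fun y hy => d1 y hy.1
  rcases conn hd _ h with k | k
  · have := e 2
    rw [k 2 (by norm_num), k2, (LL 1).inv_mem d1 2 (by norm_num)] at this
    exact c2 this.symm
  · have := e 0
    rw [k 0 (by norm_num), k1, ← c1 0 (by norm_num), c.1.injective.eq_iff, c1 0 (by norm_num)]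
      at this
    exact d2 (by conv_lhs => rw [this, app_inv])

end

theorem left_dom : D (AA K) (BB K) := by
  by_contra hd
  obtain ⟨t, ht⟩ := exists_bump (K := K)
  obtain ⟨T, T1, T2, T3, T4⟩ := exists_aff (K := K) (p := 1 / 2) (q := 5 / 2)
    (div_mem (one_mem _) two_mem) (div_mem (by exact_mod_cast natCast_mem K 5) two_mem) (by norm_num)
  have T5 : ∀ x, T⁻¹ x = x - 3 / 2 := fun x => T.injective (by rw [app_inv, T3]; ring)
  let b : GG K := ⟨_, (T4 t ht.mem).1⟩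
  let a : GG K := ⟨t, ht.mem⟩
  have b0 : ∀ x, b.1 x = t (x - 3 / 2) + 3 / 2 := fun x => by
    simp only [b, mul_app, T5, T3]; ring
  have b1 : b ∈ BB K (1 / 2) := T1 ▸ RR.conj ht.r T
  have b2 : b ∈ AA K (5 / 2) := T2 ▸ LL.conj ht.l T
  have b3 : ∀ x, 1 / 2 < x → x < 5 / 2 → x < b.1 x := fun x h1 h2 => by
    linarith [b0 x, ht.up (x - 3 / 2) (by linarith) (by linarith)]
  have a4 : ∀ x, x ≤ t x := fun x => (le_or_gt x (-1)).elim (fun h => (ht.r x h).ge) fun h =>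
    (le_or_gt 1 x).elim (fun h => (ht.l x h).ge) fun h' => (ht.up x h h').le
  have b4 : ∀ x, x ≤ b.1 x := fun x => by linarith [b0 x, a4 (x - 3 / 2)]
  have k : ∀ x ∈ Ioo (-1 : ℝ) (5 / 2), b.1 x = t x →
      ∃ d e, e < d ∧ HasDerivAt b.1 d x ∧ HasDerivAt t e x := by
    intro x hx e
    have h1 : 1 / 2 < x := not_le.1 fun h =>
      (ht.up x hx.1 (by linarith)).ne ((b1 x h).symm.trans e)
    have h2 : x < 1 := not_le.1 fun h => (b3 x h1 hx.2).ne' (e.trans (ht.l x h))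
    refine ⟨_, _, ?_, (mob_der (1 / 2) (1 / 4) (-1) (3 / 2) x (by linarith)).congr_of_eventuallyEq ?_,
      (mob_der 0 1 (-1) 2 x (by linarith)).congr_of_eventuallyEq ?_⟩
    · rw [div_lt_div_iff₀ (pow_pos (by linarith) _) (pow_pos (by linarith) _)]; nlinarith
    · filter_upwards [eventually_gt_nhds h1, eventually_lt_nhds h2] with y k1 k2
      rw [b0, ht.p1 _ (by linarith) (by linarith), div_add' _ _ _ (by linarith)]
      congr 1 <;> ring
    · filter_upwards [eventually_gt_nhds h1, eventually_lt_nhds h2] with y k1 k2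
      rw [ht.p3 _ (by linarith) (by linarith)]
      congr 1 <;> ring
  have n1 := (b3 2 (by norm_num) (by norm_num)).ne'
  have n2 := (ht.up 0 (by norm_num) (by norm_num)).ne'
  have n3 : b.1⁻¹ 2 ≠ 2 := fun h => n1 (by conv_lhs => rw [← h, app_inv])
  have n4 : t⁻¹ 0 ≠ 0 := fun h => n2 (by conv_lhs => rw [← h, app_inv])
  rcases one_sign hd b1 b2 b3 with hb | hb <;> rcases one_sign hd (b := a) ht.r ht.l ht.up with ha | ha
  · refine clash hd hb ha b1 ht.l n1 n2 fun x hx e h => ?_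
    have e : b.1 (t⁻¹ x) = t (t⁻¹ x) := e.trans (app_inv t x).symm
    obtain ⟨d, d', k1, k2, k3⟩ := k _ ⟨(lt_inv_iff t).2 ((ht.r _ self_mem_Iic).trans_lt hx.1),
      (inv_lt_iff t).2 (hx.2.trans_le (a4 _))⟩ e
    have := ((app_inv t x).symm ▸ h : HasDerivAt (b * a⁻¹).1 1 (t (t⁻¹ x))).comp _ k3
    rw [show (b * a⁻¹).1 ∘ t = b.1 from funext fun y => congrArg b.1 (inv_app t y)] at this
    linarith [this.unique k2]
  · refine clash hd hb ha b1 (inv_mem ht.l) n1 n4 fun x hx e _ => ?_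
    have e : b.1 (t x) = x := by simpa using e
    rcases lt_or_ge x 1 with h | h
    · linarith [ht.up x hx.1 h, b4 (t x)]
    · rw [ht.l x h] at e
      exact (b3 x (by linarith) hx.2).ne' e
  · refine clash hd hb ha (inv_mem b1) ht.l n3 n2 fun x hx e _ => ?_
    have e : t (b.1 x) = x := by
      conv_lhs => rw [← e]
      exact (congrArg t (app_inv _ _)).trans (app_inv _ _)
    rcases lt_or_ge (1 / 2) x with h | h
    · linarith [b3 x h hx.2, a4 (b.1 x)]
    · rw [b1 x h] at e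
      exact (ht.up x hx.1 (by linarith)).ne' e
  · refine clash hd hb ha (inv_mem b1) (inv_mem ht.l) n3 n4 fun x hx e h => ?_
    rw [inv_inv] at e h
    obtain ⟨d, d', k1, k2, k3⟩ := k x hx (by
      conv_lhs => rw [← e]
      exact app_inv _ _)
    have := (e.symm ▸ k2 : HasDerivAt b.1 d ((b⁻¹ * a).1 x)).comp _ h
    rw [show b.1 ∘ (b⁻¹ * a).1 = t from funext fun y => app_inv b.1 _] at this
    linarith [this.unique k3]

end Pool.Agent.H77.Lo
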