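import Pool.Agent.H77.LoE

set_option autoImplicit false

namespace Pool.Agent.H77.Lo

open Filter Topology Set

variable {K : Subfield ℝ}

def Aff (g : H) (z z' μ ν : ℝ) : Prop :=
  g z = z' ∧ ∀ᶠ y in 𝓝[>] z, (g y - z')⁻¹ = μ * (y - z)⁻¹ + ν

theorem Aff.mul {f g : H} {z z' z'' μ ν μ' ν' : ℝ} (hf : Aff f z' z'' μ' ν') (hg : Aff g z z' μ ν) :
    Aff (f * g) z z'' (μ' * μ) (μ' * ν + ν') := by
  obtain ⟨rfl, h1⟩ := hg
  refine ⟨hf.1, ?_⟩
  filter_upwards [h1, tends_gt g z hf.2] with y k1 k2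
  have k2 : (f (g y) - z'')⁻¹ = μ' * (g y - g z)⁻¹ + ν' := k2
  rw [mul_app, k2, k1]; ring

theorem Aff.inv {g : H} {z z' μ ν : ℝ} (hg : Aff g z z' μ ν) (h : μ ≠ 0) :
    Aff g⁻¹ z' z μ⁻¹ (-ν / μ) := by
  obtain ⟨rfl, h1⟩ := hg
  refine ⟨inv_app g z, ?_⟩
  have := tends_gt g⁻¹ (g z)
  rw [inv_app] at this
  filter_upwards [this h1] with y k
  have k : (g (g⁻¹ y) - g z)⁻¹ = μ * (g⁻¹ y - z)⁻¹ + ν := k
  rw [app_inv] at k
  rw [k]; field_simp; ring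

theorem aff_of_mob {g : H} {a b c d z : ℝ} (h1 : a * d - b * c = 1)
    (h : ∀ᶠ y in 𝓝[≥] z, (c * y + d) * g y = a * y + b) :
    c * z + d ≠ 0 ∧ Aff g z (g z) ((c * z + d) ^ 2) ((c * z + d) * c) := by
  have h0 := h.self_of_nhdsWithin self_mem_Ici
  refine ⟨fun e => ?_, rfl, ?_⟩
  · rw [e] at h0
    exact one_ne_zero (α := ℝ) (by linear_combination a * e + c * h0 - h1)
  · filter_upwards [nhdsWithin_mono z Ioi_subset_Ici_self h, self_mem_nhdsWithin] with y k1 k2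
    have k1 : (c * y + d) * g y = a * y + b := k1
    have k3 := sub_ne_zero.2 (g.strictMono k2).ne'
    have k4 := sub_ne_zero.2 (mem_Ioi.1 k2).ne'
    field_simp
    linear_combination (c * y + d) * h0 - (c * z + d) * k1 - (y - z) * h1

theorem Aff.der {g : H} {z z' μ ν d : ℝ} (hg : Aff g z z' μ ν) (h : HasDerivAt g d z) :
    d * μ = 1 := by
  obtain ⟨rfl, h1⟩ := hg
  have k : Tendsto (fun y => μ + ν * (y - z)) (𝓝[>] z) (𝓝 μ) :=
    (Continuous.tendsto' (by fun_prop) z μ (by simp)).mono_left nhdsWithin_le_nhds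
  refine tendsto_nhds_unique ((hasDerivAt_iff_tendsto_slope_left_right.1 h).2.mul k)
    (tendsto_const_nhds.congr' ?_)
  filter_upwards [h1, self_mem_nhdsWithin] with y k1 k2
  have k3 := sub_ne_zero.2 (g.strictMono k2).ne'
  have k4 := sub_ne_zero.2 (mem_Ioi.1 k2).ne'
  rw [slope_def_field]
  field_simp at k1 ⊢
  linarith

def Par (g : H) (z k : ℝ) : Prop := g ∈ RR z ∧ Aff g z z 1 k

theorem Par.mul {f g : H} {z k l : ℝ} (hf : Par f z k) (hg : Par g z l) : Par (f * g) z (k + l) :=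
  ⟨mul_mem hf.1 hg.1, by simpa [add_comm] using hf.2.mul hg.2⟩

theorem Par.inv {f : H} {z k : ℝ} (hf : Par f z k) : Par f⁻¹ z (-k) :=
  ⟨inv_mem hf.1, by simpa using hf.2.inv one_ne_zero⟩

theorem par_zero {f : H} {z m : ℝ} (hf : f ∈ RR m) (h : z < m) : Par f z 0 :=
  ⟨RR.mono hf h.le, hf z h.le, nhdsWithin_le_nhds ((eventually_lt_nhds h).mono fun y hy => by
    simp [hf y hy.le])⟩

theorem Par.zero {f : H} {z : ℝ} (hf : Par f z 0) : ∃ m, z < m ∧ f ∈ RR m := by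
  obtain ⟨m, h1, h2⟩ := mem_nhdsGT_iff_exists_Ioc_subset.1 hf.2.2
  exact ⟨m, h1, fun x hx => (le_or_gt x z).elim (hf.1 x) fun h => by simpa using h2 ⟨h, hx⟩⟩

theorem Par.uniq {f : H} {z k l : ℝ} (hf : Par f z k) (hg : Par f z l) : k = l := by
  obtain ⟨y, h1, h2⟩ := (hf.2.2.and hg.2.2).exists
  linarith

theorem Par.not {f : H} {z k m : ℝ} (hf : Par f z k) (hk : k ≠ 0) (h : z < m) : f ∉ RR m :=
  fun e => hk (hf.uniq (par_zero e h))

theorem Par.uniq' {f : H} {z z' k l : ℝ} (hf : Par f z k) (hg : Par f z' l) (hk : k ≠ 0)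
    (hl : l ≠ 0) : k = l := by
  obtain rfl : z = z' :=
    le_antisymm (not_lt.1 fun h => hg.not hl h hf.1) (not_lt.1 fun h => hf.not hk h hg.1)
  exact hf.uniq hg

theorem Par.conj {f h : H} {z z' k μ ν : ℝ} (hf : Par f z k) (hh : Aff h z z' μ ν) (hμ : μ ≠ 0) :
    Par (h * f * h⁻¹) z' (μ * k) := by
  refine ⟨hh.1 ▸ RR.conj hf.1 h, ?_⟩
  have := (hh.mul hf.2).mul (hh.inv hμ)
  rwa [mul_one, mul_inv_cancel₀ hμ, show μ * (-ν / μ) + (μ * k + ν) = μ * k by field_simp; ring]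
    at this

theorem exists_affK {g : H} (hg : g ∈ GG K) {z : ℝ} (hz : z ∈ K) :
    g z ∈ K ∧ ∃ e ∈ K, e ≠ 0 ∧ ∃ ν, Aff g z (g z) (e ^ 2) ν := by
  obtain ⟨a, ha, b, hb, c, hc, d, hd, h1, h2⟩ := (hg.2 z).2
  obtain ⟨h3, h4⟩ := aff_of_mob h1 h2
  refine ⟨?_, _, add_mem (mul_mem hc hz) hd, h3, _, h4⟩
  rw [eq_div_of_mul_eq h3 ((mul_comm _ _).trans (h2.self_of_nhdsWithin self_mem_Ici))]
  exact div_mem (add_mem (mul_mem ha hz) hb) (add_mem (mul_mem hc hz) hd)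

theorem exists_par {g : H} (hg : g ∈ GG K) (h : g ≠ 1) : ∃ z ∈ K, ∃ k ∈ K, k ≠ 0 ∧ Par g z k := by
  obtain ⟨u, -, u1, -⟩ := bd_iff.1 hg.1
  obtain ⟨x, hx⟩ := DFunLike.ne_iff.1 h
  have b : BddAbove {m | g ∈ RR m} := ⟨x, fun m hm => not_lt.1 fun k => hx (hm x k.le)⟩
  set z := sSup {m | g ∈ RR m}
  have z1 : g ∈ RR z := by_contra fun k => by
    obtain ⟨y, y1, y2⟩ := notRR k
    obtain ⟨m, m1, m2⟩ := exists_lt_of_lt_csSup ⟨u, u1⟩ y1
    exact y2 (m1 y m2.le)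
  obtain ⟨⟨e, -, e1⟩, a, ha, b', hb, c, hc, d, hd, h1, h2⟩ := hg.2 z
  obtain ⟨h3, h4⟩ := aff_of_mob h1 h2
  obtain rfl : e = 1 := (uniqueDiffWithinAt_Iic z).eq_deriv _ e1.hasDerivWithinAt
    ((hasDerivAt_id z).hasDerivWithinAt.congr z1 (z1 z self_mem_Iic))
  have h5 := h4.der e1
  rw [one_mul] at h5
  rw [h5, z1 z self_mem_Iic] at h4
  have h6 : c * z + d ∈ K := (sq_eq_one_iff.1 h5).elim (· ▸ one_mem K)
    (· ▸ neg_mem (one_mem K))
  have h7 : (c * z + d) * c ≠ 0 := fun k => by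
    obtain ⟨m, m1, m2⟩ := Par.zero ⟨z1, k ▸ h4⟩
    exact m1.not_ge (le_csSup b m2)
  refine ⟨z, ?_, _, mul_mem h6 hc, h7, z1, h4⟩
  rw [show z = (c * z + d - d) / c by simp [right_ne_zero_of_mul h7]]
  exact div_mem (sub_mem h6 hd) hc

theorem aff_aff (l m z : ℝ) (h : 0 < l) : Aff (aff l m h) z (l * z + m) l⁻¹ 0 :=
  ⟨rfl, .of_forall fun y => by rw [aff_app, add_zero, ← mul_inv]; congr 1; ring⟩

theorem realize {k : ℝ} (hk : k ∈ K) : ∃ g ∈ GG K, Par g 0 k := by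
  obtain ⟨t, ht⟩ := exists_bump (K := K)
  have p : Par t (-1) (-1) := by
    have := (aff_of_mob (g := t) (a := 2) (b := 1) (c := -1) (d := 0) (z := -1) (by norm_num) ?_).2
    · exact ⟨ht.r, by simpa [ht.r _ self_mem_Iic] using this⟩
    filter_upwards [self_mem_nhdsWithin, nhdsWithin_le_nhds
      (eventually_lt_nhds (show (-1 : ℝ) < -1 / 2 by norm_num))] with y h1 h2
    have h2 : y < -1 / 2 := h2
    rw [ht.p1 y h1 h2.le, add_zero, neg_one_mul, mul_div_cancel₀ _ (by linarith)]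
  have q : ∀ k ∈ K, 0 < k → ∃ g ∈ GG K, Par g 0 (-k) := fun k hk h =>
    ⟨_, (aff_conj (inv_mem hk) (inv_mem hk) (inv_pos.2 h) ht.mem).1, by
      simpa using p.conj (aff_aff k⁻¹ k⁻¹ (-1) (inv_pos.2 h)) (by simpa using h.ne')⟩
  rcases lt_trichotomy k 0 with h | rfl | h
  · simpa using q (-k) (neg_mem hk) (by linarith)
  · exact ⟨1, one_mem _, par_zero (one_mem _) one_pos⟩
  · obtain ⟨g, g1, g2⟩ := q k hk h
    exact ⟨_, inv_mem g1, by simpa using g2.inv⟩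

theorem trans_aff {x y e : ℝ} (hx : x ∈ K) (hy : y ∈ K) (he : e ∈ K) (h : x < y) (h1 : 1 / 2 ≤ e)
    (h2 : e < 2) : ∃ g ∈ GG K, ∃ ν, Aff g x y (e ^ 2) ν := by
  obtain ⟨t, ht⟩ := exists_bump (K := K)
  obtain ⟨z, rfl⟩ : ∃ z, e = 3 * z + 2 := ⟨(e - 2) / 3, by ring⟩
  have k3 : (3 : ℝ) ∈ K := by exact_mod_cast natCast_mem K 3
  have hz : z ∈ K := by simpa using div_mem (sub_mem he two_mem) k3
  have p := (aff_of_mob (g := t) (a := 2) (b := 1) (c := 3) (d := 2) (z := z) (by norm_num) ?_).2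
  · have k := sub_pos.2 (ht.up z (by linarith) (by linarith))
    have hl := div_pos (sub_pos.2 h) k
    have l1 := div_mem (sub_mem hy hx) (sub_mem (exists_affK ht.mem hz).1 hz)
    set l := (y - x) / (t z - z) with el
    have a1 := aff_aff l (x - l * z) z hl
    have a2 := aff_aff l (x - l * z) (t z) hl
    rw [add_sub_cancel] at a1
    rw [show l * t z + (x - l * z) = y by rw [el]; field_simp; ring] at a2
    have := (a2.mul p).mul (a1.inv (inv_pos.2 hl).ne')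
    rw [show l⁻¹ * (3 * z + 2) ^ 2 * l⁻¹⁻¹ = (3 * z + 2) ^ 2 by field_simp] at this
    exact ⟨_, (aff_conj l1 (sub_mem hx (mul_mem l1 hz)) hl ht.mem).1, _, this⟩
  filter_upwards [self_mem_nhdsWithin, nhdsWithin_le_nhds
    (eventually_lt_nhds (show z < 0 by linarith))] with y k1 k2
  have k1 : z ≤ y := k1
  have k2 : y < 0 := k2
  rw [ht.p2 y (by linarith) k2.le, mul_div_cancel₀ _ (by linarith)]

end Pool.Agent.H77.Lo
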