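import Pool.Agent.H77.LoF

set_option autoImplicit false

namespace Pool.Agent.H77.Lo

open Filter Topology Set

structure Cone (K : Subfield ℝ) (Q : Set ℝ) : Prop where
  sub : ∀ k ∈ Q, k ∈ K
  add : ∀ k ∈ Q, ∀ l ∈ Q, k + l ∈ Q
  zero : (0 : ℝ) ∉ Q
  tot : ∀ k ∈ K, k ≠ 0 → k ∈ Q ∨ -k ∈ Q
  sq : ∀ e ∈ K, e ≠ 0 → ∀ k ∈ Q, e ^ 2 * k ∈ Q

def IsLat {G : Type} [Group G] (r : G → G → Prop) : Prop :=
  (∀ a, r a a) ∧ (∀ a b c, r a b → r b c → r a c) ∧ (∀ a b, r a b → r b a → a = b) ∧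
  (∀ a b c d, r a b → r (c * a * d) (c * b * d)) ∧
  (∀ a b, ∃ s, r a s ∧ r b s ∧ ∀ u, r a u → r b u → r s u) ∧
  (∀ a b, ∃ t, r t a ∧ r t b ∧ ∀ u, r u a → r u b → r u t)

variable {K : Subfield ℝ} {Q : Set ℝ}

variable (K) in
def rel (Q : Set ℝ) (a b : GG K) : Prop := a = b ∨ ∃ z ∈ K, ∃ k ∈ Q, Par (a⁻¹ * b).1 z k

theorem Cone.ne (h : Cone K Q) {k : ℝ} (hk : k ∈ Q) : k ≠ 0 := fun e => h.zero (e ▸ hk)

theorem Cone.lat (h : Cone K Q) : IsLat (rel K Q) := by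
  have tr : ∀ a b c, rel K Q a b → rel K Q b c → rel K Q a c := by
    rintro a b c (rfl | ⟨z, hz, k, hk, h1⟩) h2
    · exact h2
    rcases h2 with rfl | ⟨z', hz', l, hl, h2⟩
    · exact Or.inr ⟨z, hz, k, hk, h1⟩
    right
    rw [show a⁻¹ * c = a⁻¹ * b * (b⁻¹ * c) by group]
    rcases lt_trichotomy z z' with e | rfl | e
    · exact ⟨z, hz, k, hk, add_zero k ▸ h1.mul (par_zero h2.1 e)⟩
    · exact ⟨z, hz, _, h.add k hk l hl, h1.mul h2⟩
    · exact ⟨z', hz', l, hl, zero_add l ▸ (par_zero h1.1 e).mul h2⟩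
  have inv : ∀ a b : GG K, ∀ z k, Par (a⁻¹ * b).1 z k → Par (b⁻¹ * a).1 z (-k) :=
    fun a b z k h => by simpa using h.inv
  have tot : ∀ a b, rel K Q a b ∨ rel K Q b a := fun a b => by
    by_cases e : a = b
    · exact Or.inl (Or.inl e)
    obtain ⟨z, hz, k, hk, h1, h2⟩ := exists_par (a⁻¹ * b).2 fun e' =>
      e (inv_mul_eq_one.1 (Subtype.ext e'))
    exact (h.tot k hk h1).imp (fun h3 => Or.inr ⟨z, hz, k, h3, h2⟩)
      fun h3 => Or.inr ⟨z, hz, _, h3, inv _ _ _ _ h2⟩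
  refine ⟨fun _ => Or.inl rfl, tr, ?_, ?_, fun a b => ?_, fun a b => ?_⟩
  · rintro a b (rfl | ⟨z, hz, k, hk, h1⟩) h2
    · rfl
    rcases h2 with rfl | ⟨z', hz', l, hl, h2⟩
    · rfl
    have := h.add k hk l hl
    rw [← (inv _ _ _ _ h1).uniq' h2 (neg_ne_zero.2 (h.ne hk)) (h.ne hl), add_neg_cancel] at this
    exact (h.zero this).elim
  · rintro a b c d (rfl | ⟨z, hz, k, hk, h1⟩)
    · exact Or.inl rfl
    obtain ⟨h2, e, he, e1, ν, h3⟩ := exists_affK d⁻¹.2 hz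
    refine Or.inr ⟨_, h2, _, h.sq e he e1 k hk, ?_⟩
    rw [show (c * a * d)⁻¹ * (c * b * d) = d⁻¹ * (a⁻¹ * b) * d⁻¹⁻¹ by group]
    exact h1.conj h3 (pow_ne_zero 2 e1)
  · rcases tot a b with e | e
    · exact ⟨b, e, Or.inl rfl, fun _ _ h => h⟩
    · exact ⟨a, Or.inl rfl, e, fun _ h _ => h⟩
  · rcases tot a b with e | e
    · exact ⟨a, Or.inl rfl, e, fun _ h _ => h⟩
    · exact ⟨b, e, Or.inl rfl, fun _ _ h => h⟩

theorem Cone.inj {Q' : Set ℝ} (h : Cone K Q) (h' : Cone K Q') (e : rel K Q = rel K Q') :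
    Q ⊆ Q' := fun k hk => by
  obtain ⟨g, g1, g2⟩ := realize (h.sub k hk)
  have : rel K Q 1 ⟨g, g1⟩ := Or.inr ⟨0, zero_mem _, k, hk, by simpa using g2⟩
  rcases e ▸ this with e | ⟨z, -, l, hl, h3⟩
  · exact (g2.not (h.ne hk) one_pos
      ((show 1 = g from congrArg Subtype.val e) ▸ one_mem (RR 1))).elim
  · rwa [g2.uniq' (by simpa using h3) (h.ne hk) (h'.ne hl)]

section
variable [Lattice (GG K)] [MulLeftMono (GG K)] [MulRightMono (GG K)]

def QZ (K : Subfield ℝ) [Lattice (GG K)] (z : ℝ) : Set ℝ :=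
  {k | k ≠ 0 ∧ ∃ g : GG K, 1 ≤ g ∧ Par g.1 z k}

theorem QZ.pos {z k : ℝ} (h : k ∈ QZ K z) {g : GG K} (hg : Par g.1 z k) : 1 ≤ g := by
  obtain ⟨h1, f, h2, h3⟩ := h
  obtain ⟨m, m1, m2⟩ := Par.zero (neg_add_cancel k ▸ h3.inv.mul hg)
  simpa using sys.sign left_dom (e := f⁻¹ * g) (h3.not h1 m1) m2 h2

theorem QZ.conj {z z' k μ ν : ℝ} (h : k ∈ QZ K z) {g : H} (hg : g ∈ GG K) (ha : Aff g z z' μ ν)
    (hμ : μ ≠ 0) : μ * k ∈ QZ K z' := by
  obtain ⟨h1, f, h2, h3⟩ := h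
  exact ⟨mul_ne_zero hμ h1, ⟨g, hg⟩ * f * ⟨g, hg⟩⁻¹, by simpa using h2, h3.conj ha hμ⟩

theorem QZ.eq {x y : ℝ} (hx : x ∈ K) (hy : y ∈ K) : QZ K x = QZ K y := by
  wlog h : x < y generalizing x y
  · rcases (not_lt.1 h).eq_or_lt with rfl | h
    · rfl
    · exact (this hy hx h).symm
  obtain ⟨g, g1, ν, g2⟩ := trans_aff hx hy (one_mem K) h (by norm_num) (by norm_num)
  exact Subset.antisymm (fun k hk => by simpa using QZ.conj hk g1 g2 (by simp))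
    fun k hk => by simpa using QZ.conj hk (inv_mem g1) (g2.inv (by simp)) (by simp)

theorem QZ.cone : Cone K (QZ K 0) where
  sub k := by
    rintro ⟨h1, f, -, h3⟩
    obtain ⟨z, -, l, hl, h4, h5⟩ := exists_par f.2 fun e => h3.not h1 one_pos (e ▸ one_mem _)
    rwa [h3.uniq' h5 h1 h4]
  add k hk l hl := by
    obtain ⟨h1, f, h2, h3⟩ := id hk
    obtain ⟨h4, g, h5, h6⟩ := hl
    refine ⟨fun e => ?_, f * g, one_le_mul h2 h5, h3.mul h6⟩
    have := QZ.pos hk (g := g⁻¹) (eq_neg_of_add_eq_zero_left e ▸ h6.inv)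
    exact h6.not h4 one_pos (le_antisymm (one_le_inv'.1 this) h5 ▸ one_mem _)
  zero h := h.1 rfl
  tot k hk h := by
    obtain ⟨g, g1, g2⟩ := realize hk
    exact (sys.total left_dom ⟨g, g1⟩).imp (fun e => ⟨h, _, e, g2⟩)
      fun e => ⟨neg_ne_zero.2 h, _, one_le_inv'.2 e, g2.inv⟩
  sq e he e1 := by
    let S : Submonoid ℝ :=
      { carrier := {e | ∀ k ∈ QZ K 0, e ^ 2 * k ∈ QZ K 0}
        one_mem' := by simp
        mul_mem' := fun h1 h2 k hk => by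
          rw [mul_pow, mul_assoc]; exact h1 _ (h2 k hk) }
    have s1 : ∀ e ∈ K, 1 / 2 ≤ e → e < 2 → e ∈ S := fun e he h1 h2 k hk => by
      obtain ⟨g, g1, ν, g2⟩ := trans_aff (zero_mem K) (one_mem K) he one_pos h1 h2
      exact QZ.eq (one_mem K) (zero_mem K) ▸ QZ.conj hk g1 g2 (by positivity)
    have k3 : (3 / 2 : ℝ) ∈ K := div_mem (by exact_mod_cast natCast_mem K 3) two_mem
    obtain ⟨n, h1, h2⟩ := exists_mem_Ico_zpow (abs_pos.2 e1) (show (1 : ℝ) < 3 / 2 by norm_num)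
    have p : (0 : ℝ) < (3 / 2) ^ n := by positivity
    have s2 : (3 / 2 : ℝ) ^ n ∈ S := by
      obtain ⟨m, rfl | rfl⟩ := n.eq_nat_or_neg
      · exact zpow_natCast (3 / 2 : ℝ) m ▸ pow_mem (s1 _ k3 (by norm_num) (by norm_num)) m
      · rw [zpow_neg, zpow_natCast, ← inv_pow]
        exact pow_mem (s1 _ (inv_mem k3) (by norm_num) (by norm_num)) m
    have := mul_mem s2 (s1 (|e| / (3 / 2) ^ n) (div_mem ((abs_choice e).elim (·.symm ▸ he)
      (·.symm ▸ neg_mem he)) (zpow_mem k3 n)) (by rw [le_div_iff₀ p]; linarith)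
      (by rw [div_lt_iff₀ p]; rw [zpow_add_one₀ (by norm_num)] at h2; linarith))
    rw [mul_div_cancel₀ _ p.ne'] at this
    exact sq_abs e ▸ this

theorem QZ.rel (a b : GG K) : a ≤ b ↔ rel K (QZ K 0) a b := by
  refine ⟨fun h => or_iff_not_imp_left.2 fun e => ?_, ?_⟩
  · obtain ⟨z, hz, k, hk, h1, h2⟩ := exists_par (a⁻¹ * b).2 fun e' =>
      e (inv_mul_eq_one.1 (Subtype.ext e'))
    exact ⟨z, hz, k, QZ.eq hz (zero_mem K) ▸ ⟨h1, _, by simpa using h, h2⟩, h2⟩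
  · rintro (rfl | ⟨z, hz, k, hk, h⟩)
    · rfl
    · simpa using QZ.pos (QZ.eq hz (zero_mem K) ▸ hk) h

end

theorem IsLat.cone {r : GG K → GG K → Prop} (h : IsLat r) : ∃ Q, Cone K Q ∧ rel K Q = r := by
  obtain ⟨h1, h2, h3, h4, h5, h6⟩ := h
  choose s s1 s2 s3 using h5
  choose t t1 t2 t3 using h6
  letI : Lattice (GG K) :=
    { le := r
      lt := fun a b => r a b ∧ ¬r b a
      le_refl := h1
      le_trans := h2
      le_antisymm := h3
      sup := s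
      le_sup_left := s1
      le_sup_right := s2
      sup_le := s3
      inf := t
      inf_le_left := t1
      inf_le_right := t2
      le_inf := fun a b c => t3 b c a }
  haveI : MulLeftMono (GG K) := ⟨fun c a b h => show r (c * a) (c * b) by
    simpa using h4 a b c 1 h⟩
  haveI : MulRightMono (GG K) := ⟨fun c a b h => show r (a * c) (b * c) by
    simpa using h4 a b 1 c h⟩
  exact ⟨_, QZ.cone, funext₂ fun a b => propext (QZ.rel a b).symm⟩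

end Pool.Agent.H77.Lo
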