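import Pool.Agent.H77.LoG

set_option autoImplicit false

namespace Pool.Agent.H77.Lo

open Filter Topology Set Polynomial

theorem emb {F : Type} [Field F] [CharZero F] [FiniteDimensional ℚ F] [LinearOrder F]
    [IsOrderedAddMonoid F] (hs : ∀ e : F, e ≠ 0 → ∀ x, 0 < x → 0 < e ^ 2 * x) (h1 : (0 : F) < 1) :
    ∃ σ : F →+* ℝ, StrictMono σ := by
  have mo : ∀ e : F, ∀ x y, x ≤ y → e ^ 2 * x ≤ e ^ 2 * y := fun e x y h => by
    by_cases he : e = 0
    · simp [he]
    rcases h.eq_or_lt with rfl | h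
    · rfl
    · exact sub_nonneg.1 (mul_sub (e ^ 2) y x ▸ (hs e he _ (sub_pos.2 h)).le)
  let C : {a : F // 0 < a} → Submodule ℚ F := fun a =>
    { carrier := {x | ∃ n : ℕ, |x| ≤ n • a.1}
      zero_mem' := ⟨0, by simp⟩
      add_mem' := fun ⟨m, hm⟩ ⟨n, hn⟩ =>
        ⟨m + n, (abs_add_le _ _).trans (add_nsmul a.1 m n ▸ add_le_add hm hn)⟩
      smul_mem' := fun q x ⟨n, hn⟩ => ⟨q.num.natAbs * n, by
        have e : q.den • q • x = q.num • x := by
          rw [← Nat.cast_smul_eq_nsmul ℚ, smul_smul, Rat.den_mul_eq_num, Int.cast_smul_eq_zsmul]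
        calc |q • x| = 1 • |q • x| := (one_nsmul _).symm
          _ ≤ q.den • |q • x| := nsmul_le_nsmul_left (abs_nonneg _) q.pos
          _ = q.num.natAbs • |x| := by
            rw [← abs_nsmul, e, abs_zsmul, ← natCast_zsmul, Int.natCast_natAbs]
          _ ≤ _ := by rw [mul_nsmul']; exact nsmul_le_nsmul_right hn _⟩ }
  have c1 : ∀ (a b : {a : F // 0 < a}) (e : F), e ^ 2 * a = b → ∀ x ∈ C a, e ^ 2 * x ∈ C b := by
    rintro a b e h x ⟨n, hn⟩
    refine ⟨n, ?_⟩
    rw [← h, ← mul_smul_comm, abs_le, ← mul_neg]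
    exact ⟨mo _ _ _ (abs_le.1 hn).1, mo _ _ _ (abs_le.1 hn).2⟩
  have c2 : ∀ (a b : {a : F // 0 < a}) (e : F), e ≠ 0 → e ^ 2 * a = b →
      Module.finrank ℚ (C a) ≤ Module.finrank ℚ (C b) := fun a b e he h =>
    LinearMap.finrank_le_finrank_of_injective
      (f := (LinearMap.mulLeft ℚ (e ^ 2)).restrict (c1 a b e h))
      fun x y k => Subtype.ext (mul_left_cancel₀ (pow_ne_zero 2 he) (congrArg Subtype.val k))
  have c3 : ∀ a b : {a : F // 0 < a}, a.1 ≤ b.1 → C a ≤ C b := fun a b h x ⟨n, hn⟩ =>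
    ⟨n, hn.trans (nsmul_le_nsmul_right h n)⟩
  have c4 : ∀ (a : {a : F // 0 < a}) (e : F), ∀ x ∈ C a, e ^ 2 * x ∈ C a := fun a e x hx => by
    by_cases he : e = 0
    · simp [he]
    let b : {a : F // 0 < a} := ⟨_, hs e he _ a.2⟩
    have : C a = C b := by
      rcases le_total a.1 b.1 with h | h
      · exact Submodule.eq_of_le_of_finrank_le (c3 _ _ h)
          (c2 b a e⁻¹ (inv_ne_zero he) (by simp only [b]; field_simp))
      · exact (Submodule.eq_of_le_of_finrank_le (c3 _ _ h) (c2 a b e he rfl)).symm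
    exact this ▸ c1 a b e rfl x hx
  have sq : ∀ y : F, y = ((y + 1) / 2) ^ 2 - ((y - 1) / 2) ^ 2 := fun y => by ring
  haveI : Archimedean F := ⟨fun x a ha => by
    have k : a ∈ C ⟨a, ha⟩ := ⟨1, by simp [abs_of_pos ha]⟩
    have := sub_mem (c4 _ ((x / a + 1) / 2) a k) (c4 _ ((x / a - 1) / 2) a k)
    rw [← sub_mul, ← sq, div_mul_cancel₀ _ ha.ne'] at this
    exact this.imp fun n hn => (le_abs_self x).trans hn⟩
  haveI : ZeroLEOneClass F := ⟨h1.le⟩
  let φ := Archimedean.embedReal F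
  have φ1 : φ 1 = 1 := Archimedean.embedReal_one
  have φ2 : StrictMono φ := Archimedean.embedRealFun_strictMono F
  have m1 : ∀ e x, φ (e ^ 2) * φ x ≤ φ (e ^ 2 * x) := fun e x => by
    by_cases he : e = 0
    · simp [he]
    have p : 0 < φ (e ^ 2) := by simpa using φ2 (hs e he 1 h1)
    refine not_lt.1 fun h => ?_
    obtain ⟨q, q1, q2⟩ := exists_rat_btwn ((div_lt_iff₀' p).2 h)
    have := φ2.monotone (mo e _ _ (φ2.lt_iff_lt.1 (show φ (q • 1) < φ x by
      rwa [map_rat_smul, φ1, Rat.smul_one_eq_cast])).le)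
    rw [mul_smul_comm, mul_one, map_rat_smul, Rat.smul_def] at this
    exact this.not_gt ((div_lt_iff₀ p).1 q1)
  have m2 : ∀ e x, φ (e ^ 2 * x) = φ (e ^ 2) * φ x := fun e x =>
    le_antisymm (by simpa using m1 e (-x)) (m1 e x)
  exact ⟨⟨⟨⟨φ, φ1⟩, fun x y => show φ _ = φ x * φ y by
    rw [sq x, sub_mul, map_sub, map_sub, m2, m2, sub_mul]⟩,
    map_zero φ, map_add φ⟩, φ2⟩

variable {K : Subfield ℝ}

def QQ (p : (K →+* ℝ) × ℤˣ) : Set ℝ := {k | ∃ h : k ∈ K, 0 < (p.2 : ℤ) * p.1 ⟨k, h⟩}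

theorem QQ.cone (p : (K →+* ℝ) × ℤˣ) : Cone K (QQ p) where
  sub k h := h.1
  add := fun k ⟨a, h⟩ l ⟨b, h'⟩ => ⟨add_mem a b, by
    rw [show (⟨k + l, add_mem a b⟩ : K) = ⟨k, a⟩ + ⟨l, b⟩ from rfl, map_add, mul_add]; positivity⟩
  zero := fun ⟨a, h⟩ => by simp [show (⟨0, a⟩ : K) = 0 from rfl] at h
  tot k hk h := by
    have : ((p.2 : ℤ) : ℝ) * p.1 ⟨k, hk⟩ ≠ 0 :=
      mul_ne_zero (by simp) ((_root_.map_ne_zero _).2 fun e => h (congrArg Subtype.val e))
    refine this.lt_or_gt.symm.imp (fun e => ⟨hk, e⟩) fun e => ⟨neg_mem hk, ?_⟩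
    rw [show (⟨-k, neg_mem hk⟩ : K) = -⟨k, hk⟩ from rfl, map_neg]
    linarith
  sq := fun e he h k ⟨a, h'⟩ => ⟨mul_mem (pow_mem he 2) a, by
    rw [show (⟨e ^ 2 * k, mul_mem (pow_mem he 2) a⟩ : K) = ⟨e, he⟩ ^ 2 * ⟨k, a⟩ from rfl, map_mul,
      map_pow, mul_left_comm]
    have : p.1 ⟨e, he⟩ ≠ 0 := (_root_.map_ne_zero _).2 fun e => h (congrArg Subtype.val e)
    positivity⟩

theorem QQ.inj : Function.Injective (QQ (K := K)) := by
  rintro ⟨σ, s⟩ ⟨τ, t⟩ h
  have k : ∀ x : K, 0 < (s : ℤ) * σ x ↔ 0 < (t : ℤ) * τ x := fun x => by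
    simpa [QQ] using Set.ext_iff.1 h x
  obtain rfl : s = t := by
    have := k 1
    rcases Int.units_eq_one_or s with rfl | rfl <;> rcases Int.units_eq_one_or t with rfl | rfl <;>
      simp at this ⊢
    all_goals linarith
  have k' : ∀ x : K, 0 < σ x ↔ 0 < τ x := fun x => by
    rcases Int.units_eq_one_or s with rfl | rfl
    · simpa using k x
    · simpa using k (-x)
  refine Prod.ext (RingHom.ext fun x => eq_of_forall_rat_lt_iff_lt fun q => ?_) rfl
  simpa using k' (x - q)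

theorem Cone.emb [FiniteDimensional ℚ K] {Q : Set ℝ} (h : Cone K Q) : ∃ p, QQ (K := K) p = Q := by
  classical
  wlog h1 : 1 ∈ Q generalizing Q
  · obtain ⟨p, hp⟩ := this (Q := {k | -k ∈ Q}) ⟨fun k hk => by simpa using h.sub _ hk,
      fun k hk l hl => by simpa [add_comm] using h.add _ hk _ hl, by simpa using h.zero,
      fun k hk e => by simpa [or_comm] using h.tot k hk e,
      fun e he e1 k hk => by simpa using h.sq e he e1 _ hk⟩
      ((h.tot 1 (one_mem K) one_ne_zero).resolve_left h1)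
    refine ⟨(p.1, -p.2), Set.ext fun k => ?_⟩
    rw [show k ∈ Q ↔ -k ∈ QQ p by simp [hp]]
    exact ⟨fun ⟨a, e⟩ => ⟨neg_mem a, by
      rw [show (⟨-k, neg_mem a⟩ : K) = -⟨k, a⟩ from rfl]; simpa using e⟩, fun ⟨a, e⟩ =>
      ⟨by simpa using a, by
        rw [show (⟨-k, a⟩ : K) = -⟨k, by simpa using a⟩ from rfl] at e; simpa using e⟩⟩
  let C : AddGroupCone K :=
    { carrier := {x | x = 0 ∨ x.1 ∈ Q}
      zero_mem' := Or.inl rfl
      add_mem' := by
        rintro a b (rfl | ha) (rfl | hb)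
        exacts [Or.inl (by simp), Or.inr (by simpa using hb), Or.inr (by simpa using ha),
          Or.inr (h.add _ ha _ hb)]
      eq_zero_of_mem_of_neg_mem' := by
        rintro a (rfl | ha) (hb | hb)
        exacts [rfl, rfl, neg_eq_zero.1 hb, (h.zero (by simpa using h.add _ ha _ hb)).elim] }
  haveI : HasMemOrNegMem C := ⟨fun a => by
    by_cases e : a = 0
    · exact Or.inl (Or.inl e)
    · exact (h.tot a a.2 (by simpa using e)).imp Or.inr Or.inr⟩
  have lt : ∀ x : K, (LinearOrder.mkOfAddGroupCone C).lt 0 x ↔ x.1 ∈ Q := fun x => by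
    rw [@lt_iff_le_and_ne _ (LinearOrder.mkOfAddGroupCone C).toPartialOrder]
    change (x - 0 = 0 ∨ (x - 0).1 ∈ Q) ∧ _ ↔ _
    rw [sub_zero]
    exact ⟨fun e => e.1.resolve_left e.2.symm, fun e => ⟨Or.inr e, fun e' => h.zero (by
      rwa [← e'] at e)⟩⟩
  obtain ⟨σ, hσ⟩ := @Lo.emb K _ _ _ (LinearOrder.mkOfAddGroupCone C) (IsOrderedAddMonoid.mkOfCone C)
    (fun e he x hx => (lt _).2 (h.sq e e.2 (by simpa using he) _ ((lt x).1 hx))) ((lt 1).2 h1)
  refine ⟨(σ, 1), Set.ext fun k => ⟨fun ⟨a, e⟩ => (lt ⟨k, a⟩).1 ?_, fun e => ⟨h.sub k e, ?_⟩⟩⟩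
  · exact (@StrictMono.lt_iff_lt _ _ (LinearOrder.mkOfAddGroupCone C) _ _ hσ _ _).1
      (by simpa using e)
  · simpa using hσ ((lt ⟨k, h.sub k e⟩).2 e)

theorem count [FiniteDimensional ℚ K] :
    Set.ncard {r : GG K → GG K → Prop | IsLat r} = Nat.card (K →+* ℝ) * 2 := by
  have : {r : GG K → GG K → Prop | IsLat r} = range fun p => rel K (QQ (K := K) p) := by
    refine Set.ext fun r => ⟨fun h => ?_, fun ⟨p, h⟩ => h ▸ (QQ.cone p).lat⟩
    obtain ⟨Q, h1, rfl⟩ := IsLat.cone h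
    obtain ⟨p, rfl⟩ := h1.emb
    exact ⟨p, rfl⟩
  rw [this, ← Nat.card_coe_set_eq, Nat.card_range_of_injective fun p q h => QQ.inj
    (Subset.antisymm ((QQ.cone p).inj (QQ.cone q) h) ((QQ.cone q).inj (QQ.cone p) h.symm))]
  simp

open IntermediateField in
theorem field (r : ℕ) (hr : 0 < r) :
    ∃ K : Subfield ℝ, FiniteDimensional ℚ K ∧ Nat.card (K →+* ℝ) = r := by
  classical
  let p : ℤ[X] := ∏ i ∈ Finset.range r, (X - C (8 * (i : ℤ)))
  have p1 : p.Monic := monic_prod_of_monic _ _ fun i _ => monic_X_sub_C _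
  have p2 : p.natDegree = r := by simp only [p]; rw [natDegree_finsetProd_X_sub_C_eq_card]; simp
  have f1 : (p + C 2).Monic := p1.add_of_left (degree_C_le.trans_lt (by
    rw [degree_eq_natDegree p1.ne_zero, p2]; exact_mod_cast hr))
  have f2 : (p + C 2).natDegree = r := by rw [natDegree_add_C, p2]
  have f3 : Irreducible (p + C 2) := by
    refine irreducible_of_eisenstein_criterion (P := Ideal.span {2})
      ((Ideal.span_singleton_prime two_ne_zero).2 Int.prime_two) (by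
        rw [f1.leadingCoeff, Ideal.mem_span_singleton]; decide) (fun n hn => ?_)
      (natDegree_pos_iff_degree_pos.1 (f2 ▸ hr)) ?_ f1.isPrimitive
    · have : (p + C 2).map (Int.castRingHom (ZMod 2)) = X ^ r := by
        simp only [p, Polynomial.map_add, Polynomial.map_prod, Polynomial.map_sub, map_X, map_C]
        simp [show (8 : ZMod 2) = 0 by decide, show (2 : ZMod 2) = 0 by decide, -map_ofNat,
          show Int.castRingHom (ZMod 2) 2 = 0 by decide]
      have := congrArg (coeff · n) this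
      rw [coe_lt_degree, f2] at hn
      simp only [coeff_map, coeff_X_pow, if_neg hn.ne] at this
      exact Ideal.mem_span_singleton.2 ((ZMod.intCast_zmod_eq_zero_iff_dvd _ 2).1 this)
    · rw [Ideal.span_singleton_pow, Ideal.mem_span_singleton, coeff_zero_eq_eval_zero, eval_add,
        eval_prod, Finset.prod_eq_zero (Finset.mem_range.2 hr) (by simp)]
      simp
  have root : ∀ j : ℕ, j < r → ∃ x ∈ Ioo (8 * j - 4 : ℝ) (8 * j + 4), aeval x (p + C 2) = 0 := by
    intro j hj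
    have a : p.eval (8 * (j : ℤ) - 4) * p.eval (8 * (j : ℤ) + 4) < 0 := by
      simp only [p, eval_prod, ← Finset.prod_mul_distrib, eval_sub, eval_X, eval_C]
      rw [← Finset.mul_prod_erase _ _ (Finset.mem_range.2 hj)]
      refine mul_neg_of_neg_of_pos (by ring_nf; norm_num) (Finset.prod_pos fun i hi => ?_)
      rcases (Finset.ne_of_mem_erase hi).lt_or_gt with h | h
      · exact mul_pos (by omega) (by omega)
      · exact mul_pos_of_neg_of_neg (by omega) (by omega)
    have b : ∀ x : ℤ, 4 ∣ x → 4 ∣ p.eval x := fun x hx => by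
      simp only [p, eval_prod]
      exact (hx.trans (by simp)).trans (Finset.dvd_prod_of_mem _ (Finset.mem_range.2 hr))
    have b1 := b (8 * j - 4) (by omega)
    have b2 := b (8 * j + 4) (by omega)
    have e : ∀ x : ℤ, aeval (x : ℝ) (p + C 2) = (p.eval x + 2 : ℤ) := fun x => by
      refine (aeval_algebraMap_apply ℝ x (p + C 2)).trans ?_
      rw [coe_aeval_eq_eval, eval_add, eval_C]; rfl
    have e1 := e (8 * j - 4)
    have e2 := e (8 * j + 4)
    have hc := (p + C 2).continuous_aeval (A := ℝ)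
    simp only [Int.cast_sub, Int.cast_mul, Int.cast_ofNat, Int.cast_natCast] at e1
    rw [Int.cast_add, Int.cast_mul, Int.cast_ofNat, Int.cast_natCast, Int.cast_ofNat] at e2
    rcases mul_neg_iff.1 a with h | h
    · refine intermediate_value_Ioo' (by linarith) hc.continuousOn ?_
      rw [e1, e2]
      generalize eval _ p = u at *
      generalize eval _ p = v at *
      constructor <;> norm_cast <;> omega
    · refine intermediate_value_Ioo (by linarith) hc.continuousOn ?_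
      rw [e1, e2]
      generalize eval _ p = u at *
      generalize eval _ p = v at *
      constructor <;> norm_cast <;> omega
  choose x x1 x2 using fun j : Fin r => root j j.2
  have x3 : StrictMono x := fun i j h => by
    have : (i : ℝ) + 1 ≤ j := by exact_mod_cast h
    linarith [(x1 i).2, (x1 j).1]
  let g := (p + C 2).map (algebraMap ℤ ℚ)
  have g1 : ∀ j, aeval (x j) g = 0 := fun j => by rw [aeval_map_algebraMap, x2]
  have g2 : g.Monic := f1.map _
  have i1 : IsIntegral ℚ (x ⟨0, hr⟩) := ⟨g, g2, g1 _⟩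
  have g3 : g = minpoly ℚ (x ⟨0, hr⟩) := minpoly.eq_of_irreducible_of_monic
    ((f1.irreducible_iff_irreducible_map_fraction_map).1 f3) (g1 _) g2
  refine ⟨ℚ⟮x ⟨0, hr⟩⟯.toSubfield, adjoin.finiteDimensional i1, ?_⟩
  refine (Nat.card_congr ((RingHom.equivRatAlgHom _ _).trans (algHomAdjoinIntegralEquiv ℚ i1))).trans ?_
  rw [← g3]
  refine le_antisymm ?_ ?_
  · rw [Nat.subtype_card (g.aroots ℝ).toFinset fun _ => Multiset.mem_toFinset]
    refine (Multiset.toFinset_card_le _).trans ((card_roots' _).trans ?_)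
    rw [natDegree_map, f1.natDegree_map, f2]
  · haveI : Finite {y // y ∈ g.aroots ℝ} := (g.aroots ℝ).finite_toSet
    simpa using Nat.card_le_card_of_injective (fun j : Fin r =>
      (⟨x j, mem_aroots.2 ⟨g2.ne_zero, g1 j⟩⟩ : {y // y ∈ g.aroots ℝ}))
      fun i j h => x3.injective (congrArg Subtype.val h)

end Pool.Agent.H77.Lo
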