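import Pool.Agent.H77.LocLatDefs

set_option autoImplicit false

namespace Pool.Agent.H77.LocLat

/-- Local closedness in elementary terms. -/
def LC {A X : Type} (F : Set (A → X)) : Prop :=
  ∀ f : A → X, (∀ S : Set A, S.Finite → ∃ g ∈ F, ∀ a ∈ S, g a = f a) → f ∈ F

theorem mem_closure_ptw {A X : Type} (F : Set (A → X)) (f : A → X) :
    f ∈ @closure _ (ptw A X) F ↔ ∀ S : Set A, S.Finite → ∃ g ∈ F, ∀ a ∈ S, g a = f a := by
  letI : TopologicalSpace X := ⊥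
  haveI : DiscreteTopology X := ⟨rfl⟩
  change f ∈ closure F ↔ _
  rw [mem_closure_iff_nhds]
  constructor
  · intro h S hS
    have : Set.pi S (fun a => {f a}) ∈ nhds f :=
      set_pi_mem_nhds hS fun a _ => (isOpen_discrete _).mem_nhds rfl
    obtain ⟨g, hg, hgF⟩ := h _ this
    exact ⟨g, hgF, fun a ha => hg a ha⟩
  · intro h t ht
    rw [nhds_pi, Filter.mem_pi] at ht
    obtain ⟨S, hS, u, hu, hsub⟩ := ht
    obtain ⟨g, hgF, hg⟩ := h S hS
    exact ⟨g, hsub fun a ha => by rw [hg a ha]; exact mem_of_mem_nhds (hu a), hgF⟩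

theorem closed_iff {A X : Type} (F : Set (A → X)) : @IsClosed _ (ptw A X) F ↔ LC F := by
  letI := ptw A X
  rw [← closure_subset_iff_isClosed]
  exact forall_congr' fun f => by rw [mem_closure_ptw]

theorem closed_gr_iff {X : Type} (G : Set (Equiv.Perm X)) :
    @IsClosed _ ((ptw X X).induced fun g : Equiv.Perm X => (g : X → X)) G ↔
      ∀ f : Equiv.Perm X, (∀ S : Set X, S.Finite → ∃ g ∈ G, ∀ a ∈ S, g a = f a) → f ∈ G := by
  letI := ptw X X
  letI := (ptw X X).induced fun g : Equiv.Perm X => (g : X → X)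
  rw [← closure_subset_iff_isClosed]
  refine forall_congr' fun f => ?_
  rw [closure_induced, mem_closure_ptw]
  refine imp_congr (forall_congr' fun S => imp_congr Iff.rfl ?_) Iff.rfl
  constructor
  · rintro ⟨_, ⟨g, hg, rfl⟩, h⟩
    exact ⟨g, hg, h⟩
  · rintro ⟨g, hg, h⟩
    exact ⟨_, ⟨g, hg, rfl⟩, h⟩

theorem emb_of {α β : Type} [PartialOrder α] [PartialOrder β] (Φ : α → β)
    (ho : ∀ a b, Φ a ≤ Φ b ↔ a ≤ b)
    (hj : ∀ a b N, Φ a ≤ N → Φ b ≤ N → ∃ c, a ≤ c ∧ b ≤ c ∧ Φ c ≤ N)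
    (hm : ∀ a b N, N ≤ Φ a → N ≤ Φ b → ∃ c, c ≤ a ∧ c ≤ b ∧ N ≤ Φ c) : IsLatEmb Φ := by
  refine ⟨fun a b h => le_antisymm ((ho _ _).1 h.le) ((ho _ _).1 h.ge), fun a b c => ⟨?_, ?_⟩⟩
  · intro h
    refine ⟨?_, fun N hN => ?_⟩
    · rintro _ (rfl | rfl)
      · exact (ho _ _).2 (h.1 (Or.inl rfl))
      · exact (ho _ _).2 (h.1 (Or.inr rfl))
    · obtain ⟨c', h1, h2, h3⟩ := hj a b N (hN (Or.inl rfl)) (hN (Or.inr rfl))
      refine le_trans ((ho _ _).2 (h.2 ?_)) h3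
      rintro _ (rfl | rfl)
      · exact h1
      · exact h2
  · intro h
    refine ⟨?_, fun N hN => ?_⟩
    · rintro _ (rfl | rfl)
      · exact (ho _ _).2 (h.1 (Or.inl rfl))
      · exact (ho _ _).2 (h.1 (Or.inr rfl))
    · obtain ⟨c', h1, h2, h3⟩ := hm a b N (hN (Or.inl rfl)) (hN (Or.inr rfl))
      refine le_trans h3 ((ho _ _).2 (h.2 ?_))
      rintro _ (rfl | rfl)
      · exact h1
      · exact h2

theorem IsLatEmb.comp {α β γ : Type} [PartialOrder α] [PartialOrder β] [PartialOrder γ]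
    {Φ : α → β} {Ψ : β → γ} (h1 : IsLatEmb Φ) (h2 : IsLatEmb Ψ) : IsLatEmb (Ψ ∘ Φ) :=
  ⟨h2.1.comp h1.1, fun a b c => ⟨fun h => (h2.2 _ _ _).1 ((h1.2 a b c).1 h),
    fun h => (h2.2 _ _ _).2 ((h1.2 a b c).2 h)⟩⟩

theorem emb_of_surj {α β : Type} [PartialOrder α] [PartialOrder β] (Φ : α → β)
    (ho : ∀ a b, Φ a ≤ Φ b ↔ a ≤ b) (hs : Function.Surjective Φ) : IsLatEmb Φ := by
  refine emb_of Φ ho (fun a b N h1 h2 => ?_) (fun a b N h1 h2 => ?_)
  · obtain ⟨c, rfl⟩ := hs N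
    exact ⟨c, (ho _ _).1 h1, (ho _ _).1 h2, le_rfl⟩
  · obtain ⟨c, rfl⟩ := hs N
    exact ⟨c, (ho _ _).1 h1, (ho _ _).1 h2, le_rfl⟩

/-- Transport of closed monoids along a bijection. -/
def monTr {X Y : Type} (e : Y ≃ X) (M : MonLoc Y) : MonLoc X :=
  ⟨{f | e.symm ∘ f ∘ e ∈ M.1}, by
    refine ⟨?_, ?_, ?_⟩
    · have : e.symm ∘ id ∘ e = id := by ext; simp
      change e.symm ∘ id ∘ e ∈ M.1
      rw [this]; exact M.2.1
    · intro f hf g hg
      have : e.symm ∘ (f ∘ g) ∘ e = (e.symm ∘ f ∘ e) ∘ (e.symm ∘ g ∘ e) := by ext; simp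
      change e.symm ∘ (f ∘ g) ∘ e ∈ M.1
      rw [this]; exact M.2.2.1 _ hf _ hg
    · rw [closed_iff]
      intro f hf
      refine (closed_iff _).1 M.2.2.2 _ fun S hS => ?_
      obtain ⟨g, hg, h⟩ := hf (e '' S) (hS.image _)
      exact ⟨_, hg, fun a ha => by simp [h _ ⟨a, ha, rfl⟩]⟩⟩

theorem monTr_emb {X Y : Type} (e : Y ≃ X) : IsLatEmb (monTr e) := by
  refine emb_of_surj _ (fun a b => ⟨fun h f hf => ?_, fun h f hf => h hf⟩) fun N => ?_
  · have h0 : e.symm ∘ (e ∘ f ∘ e.symm) ∘ e = f := by ext; simp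
    have : (e ∘ f ∘ e.symm) ∈ (monTr e a).1 := by
      change e.symm ∘ (e ∘ f ∘ e.symm) ∘ e ∈ a.1
      rw [h0]; exact hf
    have h2 : e.symm ∘ (e ∘ f ∘ e.symm) ∘ e ∈ b.1 := h this
    rwa [h0] at h2
  · refine ⟨monTr e.symm N, Subtype.ext (Set.ext fun f => ?_)⟩
    have h0 : e.symm.symm ∘ (e.symm ∘ f ∘ e) ∘ e.symm = f := by ext; simp
    change e.symm.symm ∘ (e.symm ∘ f ∘ e) ∘ e.symm ∈ N.1 ↔ _
    rw [h0]

/-- Transport of closed groups along a bijection. -/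
def grTr {X Y : Type} (e : Y ≃ X) (G : GrLoc Y) : GrLoc X :=
  ⟨G.1.comap (Equiv.permCongrHom e.symm).toMonoidHom, by
    rw [closed_gr_iff]
    intro f hf
    refine (closed_gr_iff _).1 G.2 _ fun S hS => ?_
    obtain ⟨g, hg, h⟩ := hf (e '' S) (hS.image _)
    exact ⟨_, hg, fun a ha => by simp [Equiv.permCongrHom, h _ ⟨a, ha, rfl⟩]⟩⟩

theorem grTr_emb {X Y : Type} (e : Y ≃ X) : IsLatEmb (grTr e) := by
  refine emb_of_surj _ (fun a b => ⟨fun h f hf => ?_, fun h f hf => h hf⟩) fun N => ?_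
  · obtain ⟨g, rfl⟩ := (Equiv.permCongrHom e.symm).surjective f
    exact h (show g ∈ (grTr e a).1 from hf)
  · refine ⟨grTr e.symm N, Subtype.ext (Subgroup.ext fun f => ?_)⟩
    have h0 : Equiv.permCongrHom e.symm.symm (Equiv.permCongrHom e.symm f) = f := by
      ext; simp [Equiv.permCongrHom]
    change Equiv.permCongrHom e.symm.symm (Equiv.permCongrHom e.symm f) ∈ N.1 ↔ _
    rw [h0]

section Q1

variable {X : Type}

abbrev Tu (X : Type) (n : ℕ) : Type := Fin (n + 1) → X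
abbrev Y (X : Type) : Type := Option (Σ n : ℕ, Tu X n)

def IsHat (n m : ℕ) (φ : Tu X n → Tu X m) (g : Y X → Y X) : Prop :=
  g none = none ∧ (∀ v, g (some ⟨n, v⟩) = some ⟨m, φ v⟩) ∧
    ∀ k v, k ≠ n → g (some ⟨k, v⟩) = none

theorem exists_hat (n m : ℕ) (φ : Tu X n → Tu X m) : ∃ g, IsHat n m φ g := by
  refine ⟨fun y => match y with
    | none => none
    | some ⟨k, v⟩ => if h : k = n then some ⟨m, φ (h ▸ v)⟩ else none, rfl, fun v => ?_,
    fun k v hk => ?_⟩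
  · simp
  · simp [hk]

theorem IsHat.unique {n m : ℕ} {φ : Tu X n → Tu X m} {g g' : Y X → Y X} (h : IsHat n m φ g)
    (h' : IsHat n m φ g') : g = g' := by
  funext y
  rcases y with _ | ⟨k, v⟩
  · rw [h.1, h'.1]
  · by_cases hk : k = n
    · subst hk; rw [h.2.1, h'.2.1]
    · rw [h.2.2 _ _ hk, h'.2.2 _ _ hk]

theorem IsHat.comp {n m l : ℕ} {φ : Tu X n → Tu X m} {ψ : Tu X m → Tu X l} {g g' : Y X → Y X}
    (h : IsHat n m φ g) (h' : IsHat m l ψ g') : IsHat n l (ψ ∘ φ) (g' ∘ g) :=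
  ⟨by simp [h.1, h'.1], fun v => by simp [h.2.1, h'.2.1],
    fun k v hk => by simp [h.2.2 k v hk, h'.1]⟩

theorem some_inj {m : ℕ} {a b : Tu X m} (h : (some ⟨m, a⟩ : Y X) = some ⟨m, b⟩) : a = b := by
  simpa using h

theorem some_fst {m k : ℕ} {a : Tu X m} {b : Tu X k} (h : (some ⟨m, a⟩ : Y X) = some ⟨k, b⟩) :
    m = k := congrArg Sigma.fst (Option.some.inj h)

def MS (C : ∀ n : ℕ, Set (Tu X n → X)) : Set (Y X → Y X) :=
  {g | g = id ∨ g = (fun _ => none) ∨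
    ∃ n m φ, IsHat n m φ g ∧ ∀ j, (fun v => φ v j) ∈ C n}

theorem MS_none {C : ∀ n : ℕ, Set (Tu X n → X)} {g : Y X → Y X} (h : g ∈ MS C) :
    g none = none := by
  rcases h with rfl | rfl | ⟨n, m, φ, h, -⟩
  · rfl
  · rfl
  · exact h.1

theorem hat_mem_iff [Nonempty X] {C : ∀ n : ℕ, Set (Tu X n → X)} {n m : ℕ}
    {φ : Tu X n → Tu X m} {g : Y X → Y X} (h : IsHat n m φ g) :
    g ∈ MS C ↔ ∀ j, (fun v => φ v j) ∈ C n := by
  refine ⟨?_, fun h' => Or.inr (Or.inr ⟨n, m, φ, h, h'⟩)⟩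
  obtain ⟨x⟩ := ‹Nonempty X›
  rintro (rfl | rfl | ⟨n', m', φ', h1, h2⟩)
  · have := h.2.2 (n + 1) (fun _ => x) (by omega)
    simp at this
  · have := h.2.1 (fun _ => x)
    simp at this
  · by_cases hn : n = n'
    · subst hn
      have hm : m = m' := some_fst ((h.2.1 fun _ => x).symm.trans (h1.2.1 fun _ => x))
      subst hm
      have : φ = φ' := funext fun v => some_inj ((h.2.1 v).symm.trans (h1.2.1 v))
      rw [this]; exact h2
    · have := (h.2.1 fun _ => x).symm.trans (h1.2.2 n (fun _ => x) hn)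
      simp at this

theorem MS_comp {C : ∀ n : ℕ, Set (Tu X n → X)} (hC : IsLocClone C) :
    ∀ f ∈ MS C, ∀ g ∈ MS C, f ∘ g ∈ MS C := by
  intro f hf g hg
  rcases hg with rfl | rfl | ⟨n, m, φ, h, hφ⟩
  · exact hf
  · exact Or.inr (Or.inl (funext fun _ => MS_none hf))
  · rcases hf with rfl | rfl | ⟨n', m', φ', h', hφ'⟩
    · exact Or.inr (Or.inr ⟨n, m, φ, h, hφ⟩)
    · exact Or.inr (Or.inl rfl)
    · by_cases hm : m = n'
      · subst hm
        exact Or.inr (Or.inr ⟨n, m', _, h.comp h', fun j => hC.2.1 _ _ _ _ (hφ' j) hφ⟩)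
      · refine Or.inr (Or.inl (funext fun y => ?_))
        rcases y with _ | ⟨k, v⟩
        · simp [h.1, h'.1]
        · by_cases hk : k = n
          · subst hk; simp [h.2.1, h'.2.2 _ _ hm]
          · simp [h.2.2 _ _ hk, h'.1]

theorem MS_LC {C : ∀ n : ℕ, Set (Tu X n → X)} (hC : IsLocClone C) : LC (MS C) := by
  intro g hg
  by_cases h0 : g = id
  · exact Or.inl h0
  by_cases h1 : g = fun _ => none
  · exact Or.inr (Or.inl h1)
  obtain ⟨y0, hy0⟩ := Function.ne_iff.1 h0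
  obtain ⟨y1, hy1⟩ := Function.ne_iff.1 h1
  have key : ∀ S : Set (Y X), S.Finite → ∃ n m φ h, IsHat n m φ h ∧
      (∀ j, (fun v => φ v j) ∈ C n) ∧ h y1 = g y1 ∧ ∀ y ∈ S, h y = g y := by
    intro S hS
    obtain ⟨h, hh, he⟩ := hg (insert y0 (insert y1 S)) ((hS.insert _).insert _)
    rcases hh with rfl | rfl | ⟨n, m, φ, h2, h3⟩
    · exact absurd (he y0 (by simp)).symm hy0
    · exact absurd (he y1 (by simp)).symm hy1
    · exact ⟨n, m, φ, h, h2, h3, he y1 (by simp), fun y hy => he y (by simp [hy])⟩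
  obtain ⟨n, m, φ0, h0', hh0, -, he0, -⟩ := key ∅ Set.finite_empty
  have hy : ∃ v, y1 = some ⟨n, v⟩ := by
    rcases y1 with _ | ⟨k, v⟩
    · exact absurd (he0.symm.trans hh0.1) hy1
    · by_cases hk : k = n
      · subst hk; exact ⟨v, rfl⟩
      · exact absurd (he0.symm.trans (hh0.2.2 _ _ hk)) hy1
  obtain ⟨v1, rfl⟩ := hy
  have key2 : ∀ S : Set (Y X), S.Finite → ∃ φ h, IsHat n m φ h ∧
      (∀ j, (fun v => φ v j) ∈ C n) ∧ ∀ y ∈ S, h y = g y := by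
    intro S hS
    obtain ⟨n', m', φ, h, h2, h3, h4, h5⟩ := key S hS
    by_cases hn : n = n'
    · subst hn
      have hm : m = m' :=
        some_fst ((hh0.2.1 v1).symm.trans (he0.trans (h4.symm.trans (h2.2.1 v1))))
      subst hm
      exact ⟨φ, h, h2, h3, h5⟩
    · exact absurd (h4.symm.trans (h2.2.2 _ _ hn)) hy1
  have : ∀ v, ∃ w, g (some ⟨n, v⟩) = some ⟨m, w⟩ := fun v => by
    obtain ⟨φ, h, h2, -, h3⟩ := key2 {some ⟨n, v⟩} (Set.finite_singleton _)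
    exact ⟨φ v, (h3 _ rfl).symm.trans (h2.2.1 v)⟩
  choose φ hφ using this
  refine Or.inr (Or.inr ⟨n, m, φ, ⟨?_, hφ, fun k v hk => ?_⟩, fun j => ?_⟩)
  · obtain ⟨φ, h, h2, -, h3⟩ := key2 {none} (Set.finite_singleton _)
    exact (h3 _ rfl).symm.trans h2.1
  · obtain ⟨φ, h, h2, -, h3⟩ := key2 {some ⟨k, v⟩} (Set.finite_singleton _)
    exact (h3 _ rfl).symm.trans (h2.2.2 _ _ hk)
  · refine (closed_iff _).1 (hC.2.2 n) _ fun T hT => ?_
    obtain ⟨φ', h, h2, h3, h4⟩ := key2 ((fun v => (some ⟨n, v⟩ : Y X)) '' T) (hT.image _)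
    refine ⟨_, h3 j, fun v hv => ?_⟩
    have := some_inj ((h2.2.1 v).symm.trans ((h4 _ ⟨v, hv, rfl⟩).trans (hφ v)))
    simp [this]

def MC (C : ClLoc X) : MonLoc (Y X) :=
  ⟨MS C.1, Or.inl rfl, MS_comp C.2, (closed_iff _).2 (MS_LC C.2)⟩

def InN (N : MonLoc (Y X)) (n m : ℕ) (φ : Tu X n → Tu X m) : Prop :=
  ∀ g, IsHat n m φ g → g ∈ N.1

theorem InN.comp {N : MonLoc (Y X)} {n m l : ℕ} {φ : Tu X n → Tu X m} {ψ : Tu X m → Tu X l}
    (h : InN N n m φ) (h' : InN N m l ψ) : InN N n l (ψ ∘ φ) := by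
  intro g hg
  obtain ⟨g1, h1⟩ := exists_hat n m φ
  obtain ⟨g2, h2⟩ := exists_hat m l ψ
  rw [hg.unique (h1.comp h2)]
  exact N.2.2.1 _ (h' _ h2) _ (h _ h1)

def EN (N : MonLoc (Y X)) (n : ℕ) : Set (Tu X n → X) :=
  {f | ∀ k (σ : Fin (n + 1) → Fin (k + 1)),
    InN N k (k + 1) (fun v => (Fin.cons (f (v ∘ σ)) v : Tu X (k + 1)))}

theorem tupling {N : MonLoc (Y X)}
    (hP : ∀ n m (τ : Fin (m + 1) → Fin (n + 1)), InN N n m (fun v => v ∘ τ)) {n k : ℕ}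
    (σ : Fin (n + 1) → Fin (k + 1)) : ∀ (r : ℕ) (g : Fin r → Tu X n → X), (∀ i, g i ∈ EN N n) →
      ∃ (l : ℕ) (φ : Tu X k → Tu X l) (τ : Fin r → Fin (l + 1)) (ρ : Fin (k + 1) → Fin (l + 1)),
        InN N k l φ ∧ (∀ v i, φ v (τ i) = g i (v ∘ σ)) ∧ ∀ v j, φ v (ρ j) = v j := by
  intro r
  induction r with
  | zero =>
    intro g _
    exact ⟨k, fun v => v ∘ id, Fin.elim0, id, hP k k id, fun _ i => i.elim0, fun _ _ => rfl⟩
  | succ r ih =>
    intro g hg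
    obtain ⟨l, φ, τ, ρ, h1, h2, h3⟩ := ih (fun i => g i.succ) fun i => hg _
    refine ⟨l + 1, _, Fin.cons 0 fun i => (τ i).succ, fun j => (ρ j).succ,
      h1.comp (hg 0 l (ρ ∘ σ)), fun v i => ?_, fun v j => by simp [h3]⟩
    refine Fin.cases ?_ (fun i => by simp [h2]) i
    have : φ v ∘ ρ ∘ σ = v ∘ σ := funext fun j => h3 v (σ j)
    simp [this]

theorem sub_EN {N : MonLoc (Y X)} {C : ClLoc X} (h : MC C ≤ N) (n : ℕ) : C.1 n ⊆ EN N n := by
  intro f hf k σ g hg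
  refine h (Or.inr (Or.inr ⟨_, _, _, hg, fun j => ?_⟩))
  refine Fin.cases ?_ (fun j => ?_) j
  · exact C.2.2.1 n k f (fun i v => v (σ i)) hf fun i => C.2.1 k (σ i)
  · exact C.2.1 k j

theorem EN_clone {N : MonLoc (Y X)} {C : ClLoc X} (h : MC C ≤ N)
    (hP : ∀ n m (τ : Fin (m + 1) → Fin (n + 1)), InN N n m (fun v => v ∘ τ)) :
    IsLocClone (EN N) := by
  refine ⟨fun n k => sub_EN h n (C.2.1 n k), fun n m f g hf hg k σ => ?_, fun n => ?_⟩
  · obtain ⟨l, φ, τ, ρ, h1, h2, h3⟩ := tupling hP σ _ g hg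
    have := (h1.comp (hf l τ)).comp
      (hP (l + 1) (k + 1) (Fin.cons 0 fun j => (ρ j).succ))
    have e : ((fun v : Tu X (l + 1) => v ∘ (Fin.cons 0 fun j => (ρ j).succ :
        Fin (k + 1 + 1) → Fin (l + 1 + 1))) ∘
        (fun v => (Fin.cons (f (v ∘ τ)) v : Tu X (l + 1))) ∘ φ) =
        fun v => (Fin.cons (f fun i => g i (v ∘ σ)) v : Tu X (k + 1)) := by
      funext v j
      refine Fin.cases ?_ (fun j => by simp [h3]) j
      have : φ v ∘ τ = fun i => g i (v ∘ σ) := funext fun i => h2 v i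
      simp [this]
    rw [e] at this
    exact this
  · rw [closed_iff]
    intro f hf k σ g hg
    refine (closed_iff _).1 N.2.2.2 _ fun S hS => ?_
    have hT : ((fun v : Tu X k => v ∘ σ) ''
        ((fun v : Tu X k => (some ⟨k, v⟩ : Y X)) ⁻¹' S)).Finite :=
      (hS.preimage fun a _ b _ hab => some_inj hab).image _
    obtain ⟨f', hf', he⟩ := hf _ hT
    obtain ⟨g', hg'⟩ := exists_hat k (k + 1)
      (fun v => (Fin.cons (f' (v ∘ σ)) v : Tu X (k + 1)))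
    refine ⟨g', hf' k σ g' hg', fun y hy => ?_⟩
    rcases y with _ | ⟨k', v⟩
    · rw [hg.1, hg'.1]
    · by_cases hk : k' = k
      · subst hk
        have : f' (v ∘ σ) = f (v ∘ σ) := he _ ⟨v, hy, rfl⟩
        rw [hg.2.1, hg'.2.1]
        simp only [this]
      · rw [hg.2.2 _ _ hk, hg'.2.2 _ _ hk]

theorem MC_emb [Nonempty X] : IsLatEmb (MC (X := X)) := by
  refine emb_of _ (fun C D => ⟨fun h n f hf => ?_, fun h g hg => ?_⟩) (fun C D N hC hD => ?_)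
    (fun C D N hC hD => ?_)
  · obtain ⟨g, hg⟩ := exists_hat n 0 (fun v _ => f v)
    exact (hat_mem_iff hg).1 (h ((hat_mem_iff hg).2 fun _ => hf)) 0
  · rcases hg with rfl | rfl | ⟨n, m, φ, h1, h2⟩
    · exact Or.inl rfl
    · exact Or.inr (Or.inl rfl)
    · exact Or.inr (Or.inr ⟨n, m, φ, h1, fun j => h n (h2 j)⟩)
  · have hP : ∀ n m (τ : Fin (m + 1) → Fin (n + 1)), InN N n m (fun v => v ∘ τ) :=
      fun n m τ g hg => hC (Or.inr (Or.inr ⟨_, _, _, hg, fun j => C.2.1 n (τ j)⟩))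
    refine ⟨⟨EN N, EN_clone hC hP⟩, sub_EN hC, sub_EN hD, ?_⟩
    rintro g (rfl | rfl | ⟨n, m, φ, h1, h2⟩)
    · exact N.2.1
    · exact hC (Or.inr (Or.inl rfl))
    · obtain ⟨l, ψ, τ, ρ, h3, h4, -⟩ := tupling hP id _ (fun j v => φ v j) h2
      have := h3.comp (hP l m τ)
      have e : (fun v : Tu X l => v ∘ τ) ∘ ψ = φ := by
        funext v j
        exact h4 v j
      rw [e] at this
      exact this g h1
  · refine ⟨⟨fun n => C.1 n ∩ D.1 n, fun n k => ⟨C.2.1 n k, D.2.1 n k⟩,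
      fun n m f g hf hg => ⟨C.2.2.1 n m f g hf.1 fun i => (hg i).1,
        D.2.2.1 n m f g hf.2 fun i => (hg i).2⟩, fun n => ?_⟩, fun n => Set.inter_subset_left,
      fun n => Set.inter_subset_right, fun g hg => ?_⟩
    · letI := ptw (Tu X n) X
      exact (C.2.2.2 n).inter (D.2.2.2 n)
    · rcases hC hg with rfl | rfl | ⟨n, m, φ, h1, h2⟩
      · exact Or.inl rfl
      · exact Or.inr (Or.inl rfl)
      · exact Or.inr (Or.inr ⟨n, m, φ, h1, fun j => ⟨h2 j, (hat_mem_iff h1).1 (hD hg) j⟩⟩)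

end Q1

theorem q1 (X : Type) [Countable X] [Infinite X] : ∃ Φ : ClLoc X → MonLoc X, IsLatEmb Φ := by
  haveI : Infinite (Y X) := Infinite.of_injective (fun x : X => (some ⟨0, fun _ => x⟩ : Y X))
    fun a b h => congrFun (some_inj h) 0
  obtain ⟨e⟩ : Nonempty (Y X ≃ X) := nonempty_equiv_of_countable
  exact ⟨_, MC_emb.comp (monTr_emb e)⟩

end Pool.Agent.H77.LocLat
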