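import Pool.Agent.H77.LocLat1

set_option autoImplicit false

namespace Pool.Agent.H77.LocLat

open Classical

noncomputable section

variable {X : Type}

abbrev I (X : Type) : Type := ℕ × List X
abbrev W (X : Type) : Type := I X →₀ ZMod 2
abbrev R (X : Type) : Type := Module.End (ZMod 2) (W X)

def dl (p : I X) : W X := Finsupp.single p 1

def lin (F : I X → W X) : R X := Finsupp.linearCombination (ZMod 2) F

@[simp] theorem lin_dl (F : I X → W X) (p : I X) : lin F (dl p) = F p := by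
  simp [lin, dl]

theorem sum_dl (w : W X) : ∑ q ∈ w.support, dl q = w := by
  conv_rhs => rw [← Finsupp.sum_single w]
  refine Finset.sum_congr rfl fun q hq => ?_
  have h : ∀ z : ZMod 2, z ≠ 0 → z = 1 := by decide
  rw [h _ (Finsupp.mem_support_iff.1 hq)]
  rfl

theorem agree {a b : R X} {w : W X} (h : ∀ p ∈ w.support, a (dl p) = b (dl p)) : a w = b w := by
  rw [← sum_dl w, map_sum, map_sum]
  exact Finset.sum_congr rfl h

theorem rext {a b : R X} (h : ∀ p, a (dl p) = b (dl p)) : a = b :=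
  LinearMap.ext fun _ => agree fun p _ => h p

theorem supp_apply {a : R X} {w : W X} {q : I X} (h : q ∈ (a w).support) :
    ∃ p ∈ w.support, q ∈ (a (dl p)).support := by
  rw [← sum_dl w, map_sum] at h
  simpa using Finsupp.support_finset_sum h

theorem supp_dl {p q : I X} (h : q ∈ (dl p).support) : q = p := by
  simpa using Finsupp.support_single_subset h

theorem wadd (w : W X) : w + w = 0 := by
  ext p
  exact CharTwo.add_self_eq_zero _

theorem radd (a : R X) : a + a = 0 := LinearMap.ext fun w => wadd _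

def Nt (s : List X → List X) : Prop := ∀ (f : X → X) (l : List X), s (l.map f) = (s l).map f

def P (s : List X → List X) : R X := lin fun p => dl (p.1, s p.2)

/-- `Q c α f` sends `(j, l)` to `(α j, f l)` if `c j` and to zero otherwise. -/
def Q (c : ℕ → Prop) (α : ℕ → ℕ) (f : X → X) : R X :=
  lin fun p => if c p.1 then dl (α p.1, p.2.map f) else 0

theorem Q_dl (c : ℕ → Prop) (α : ℕ → ℕ) (f : X → X) (p : I X) :
    Q c α f (dl p) = if c p.1 then dl (α p.1, p.2.map f) else 0 := lin_dl _ _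

theorem P_dl (s : List X → List X) (p : I X) : P s (dl p) = dl (p.1, s p.2) := lin_dl _ _

theorem Q_mul (c c' : ℕ → Prop) (α α' : ℕ → ℕ) (f f' : X → X) :
    Q c α f * Q c' α' f' = Q (fun j => c' j ∧ c (α' j)) (α ∘ α') (f ∘ f') := by
  refine rext fun p => ?_
  rw [Module.End.mul_apply, Q_dl, Q_dl]
  by_cases h : c' p.1
  · rw [if_pos h, Q_dl]
    by_cases h' : c (α' p.1) <;> simp [h, h']
  · simp [h]

theorem Q_zero {c : ℕ → Prop} (α : ℕ → ℕ) (f : X → X) (h : ∀ j, ¬ c j) : Q c α f = 0 :=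
  rext fun p => by simp [Q_dl, h]

theorem Q_congr {c c' : ℕ → Prop} {α α' : ℕ → ℕ} (f : X → X) (h : ∀ j, c j ↔ c' j)
    (h' : ∀ j, c j → α j = α' j) : Q c α f = Q c' α' f := by
  refine rext fun p => ?_
  rw [Q_dl, Q_dl]
  by_cases h1 : c p.1
  · rw [if_pos h1, if_pos ((h _).1 h1), h' _ h1]
  · rw [if_neg h1, if_neg fun h2 => h1 ((h _).2 h2)]

theorem Q_one : Q (fun _ => True) id (id : X → X) = 1 := rext fun p => by simp [Q_dl]

def e (i j : ℕ) (f : X → X) : R X := Q (fun k => k = j) (fun _ => i) f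

/-- projection -/
def pr (D : ℕ → Prop) : R X := Q D id id

def AM (M : Set (X → X)) : Set (R X) :=
  {a | (∀ s, Nt s → a * P s = P s * a) ∧
    ∀ p q, q ∈ (a (dl p)).support → ∃ f ∈ M, q.2 = p.2.map f}

theorem Q_comm (c : ℕ → Prop) (α : ℕ → ℕ) (f : X → X) {s : List X → List X} (hs : Nt s) :
    Q c α f * P s = P s * Q c α f := by
  refine rext fun p => ?_
  rw [Module.End.mul_apply, Module.End.mul_apply, P_dl, Q_dl, Q_dl]
  by_cases h : c p.1
  · rw [if_pos h, if_pos h, P_dl, hs]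
  · simp [h]

theorem Q_mem {M : Set (X → X)} (c : ℕ → Prop) (α : ℕ → ℕ) {f : X → X} (hf : f ∈ M) :
    Q c α f ∈ AM M := by
  refine ⟨fun s hs => Q_comm c α f hs, fun p q hq => ⟨f, hf, ?_⟩⟩
  rw [Q_dl] at hq
  by_cases h : c p.1
  · rw [if_pos h] at hq
    rw [supp_dl hq]
  · simp [h] at hq

theorem AM_one (M : MonLoc X) : (1 : R X) ∈ AM M.1 := Q_one ▸ Q_mem _ _ M.2.1

theorem AM_mul (M : MonLoc X) {a b : R X} (ha : a ∈ AM M.1) (hb : b ∈ AM M.1) :
    a * b ∈ AM M.1 := by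
  refine ⟨fun s hs => by rw [mul_assoc, hb.1 s hs, ← mul_assoc, ha.1 s hs, mul_assoc],
    fun p q hq => ?_⟩
  obtain ⟨r, hr, hq⟩ := supp_apply (a := a) hq
  obtain ⟨g, hg, h1⟩ := hb.2 _ _ hr
  obtain ⟨f, hf, h2⟩ := ha.2 _ _ hq
  exact ⟨f ∘ g, M.2.2.1 _ hf _ hg, by rw [h2, h1, List.map_map]⟩

theorem AM_add {M : Set (X → X)} {a b : R X} (ha : a ∈ AM M) (hb : b ∈ AM M) :
    a + b ∈ AM M := by
  refine ⟨fun s hs => by rw [add_mul, mul_add, ha.1 s hs, hb.1 s hs], fun p q hq => ?_⟩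
  rcases Finset.mem_union.1 (Finsupp.support_add hq) with h | h
  · exact ha.2 _ _ h
  · exact hb.2 _ _ h

theorem AM_mono {M N : Set (X → X)} (h : M ⊆ N) : AM M ⊆ AM N := fun _ ha =>
  ⟨ha.1, fun p q hq => (ha.2 p q hq).imp fun _ hf => ⟨h hf.1, hf.2⟩⟩

theorem LCA {M : Set (X → X)} (F : W X → W X)
    (h : ∀ S : Set (W X), S.Finite → ∃ a ∈ AM M, ∀ w ∈ S, a w = F w) :
    ∃ a ∈ AM M, ⇑a = F := by
  have hadd : ∀ x y, F (x + y) = F x + F y := by
    intro x y
    obtain ⟨a, -, ha⟩ := h {x, y, x + y} (Set.toFinite _)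
    rw [← ha x (by simp), ← ha y (by simp), ← ha (x + y) (by simp), map_add]
  refine ⟨(AddMonoidHom.mk' F hadd).toZModLinearMap 2, ⟨fun s hs => LinearMap.ext fun w => ?_,
    fun p q hq => ?_⟩, rfl⟩
  · obtain ⟨a, h1, ha⟩ := h {w, P s w} (Set.toFinite _)
    change F (P s w) = P s (F w)
    rw [← ha w (by simp), ← ha (P s w) (by simp)]
    exact congrArg (fun c : R X => c w) (h1.1 s hs)
  · obtain ⟨a, h1, ha⟩ := h {dl p} (Set.toFinite _)
    change q ∈ (F (dl p)).support at hq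
    rw [← ha _ rfl] at hq
    exact h1.2 _ _ hq

def GS (M : MonLoc X) : Subgroup (Equiv.Perm (W X)) where
  carrier := {φ | (∃ a ∈ AM M.1, ⇑a = ⇑φ) ∧ ∃ b ∈ AM M.1, ⇑b = ⇑φ⁻¹}
  one_mem' := ⟨⟨1, AM_one M, rfl⟩, ⟨1, AM_one M, rfl⟩⟩
  mul_mem' := by
    rintro φ ψ ⟨⟨a, ha, h1⟩, ⟨b, hb, h2⟩⟩ ⟨⟨a', ha', h3⟩, ⟨b', hb', h4⟩⟩
    refine ⟨⟨a * a', AM_mul M ha ha', funext fun w => ?_⟩,
      ⟨b' * b, AM_mul M hb' hb, funext fun w => ?_⟩⟩
    · rw [Module.End.mul_apply, h1, h3]; rfl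
    · rw [Module.End.mul_apply, h2, h4, mul_inv_rev]; rfl
  inv_mem' := by
    rintro φ ⟨h1, h2⟩
    exact ⟨h2, by rwa [inv_inv]⟩

def GM (M : MonLoc X) : GrLoc (W X) :=
  ⟨GS M, by
    rw [closed_gr_iff]
    intro φ hφ
    refine ⟨LCA _ fun S hS => ?_, LCA _ fun S hS => ?_⟩
    · obtain ⟨g, ⟨⟨a, ha, h1⟩, -⟩, h⟩ := hφ S hS
      exact ⟨a, ha, fun w hw => by rw [h1, h w hw]⟩
    · obtain ⟨g, ⟨-, ⟨b, hb, h1⟩⟩, h⟩ := hφ (⇑φ⁻¹ '' S) (hS.image _)
      refine ⟨b, hb, fun w hw => ?_⟩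
      rw [h1, Equiv.Perm.inv_eq_iff_eq, h _ ⟨w, hw, rfl⟩]
      simp⟩

theorem sq_one {c : R X} (h : c * c = 0) : (1 + c) * (1 + c) = 1 := by
  have : (1 + c) * (1 + c) = 1 + (c + c) + c * c := by noncomm_ring
  rw [this, radd, h]; simp

def gate (c : R X) (h : c * c = 0) : Equiv.Perm (W X) :=
  Function.Involutive.toPerm (⇑(1 + c : R X)) fun w => LinearMap.congr_fun (sq_one h) w

theorem gate_mem (M : MonLoc X) {c : R X} (h : c * c = 0) (hc : c ∈ AM M.1) :
    gate c h ∈ (GM M).1 :=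
  ⟨⟨1 + c, AM_add (AM_one M) hc, rfl⟩, ⟨1 + c, AM_add (AM_one M) hc, rfl⟩⟩

theorem e_mul_ne {i j k l : ℕ} (f g : X → X) (h : k ≠ j) : e i j f * e k l g = 0 := by
  rw [e, e, Q_mul]
  exact Q_zero _ _ fun _ h' => h h'.2

theorem e_mul (i j l : ℕ) (f g : X → X) : e i j f * e j l g = e i l (f ∘ g) := by
  rw [e, e, Q_mul]
  exact Q_congr _ (fun _ => by simp) fun _ _ => rfl

theorem GM_reflect {M N : MonLoc X} (h : GM M ≤ GM N) : M ≤ N := by
  intro f hf
  obtain ⟨⟨a, ha, h1⟩, -⟩ :=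
    h (gate_mem M (e_mul_ne f f (show 1 ≠ 0 by decide)) (Q_mem _ _ hf))
  refine (closed_iff _).1 N.2.2.2 _ fun S hS => ?_
  have : ((1, hS.toFinset.toList.map f) : I X) ∈ (a (dl (0, hS.toFinset.toList))).support := by
    rw [h1]
    change _ ∈ ((1 + e 1 0 f) (dl (0, hS.toFinset.toList))).support
    rw [LinearMap.add_apply, e, Q_dl, if_pos rfl]
    simp [dl]
  obtain ⟨g, hg, h2⟩ := ha.2 _ _ this
  refine ⟨g, hg, fun x hx => ?_⟩
  exact (List.map_inj_left.1 h2 x (by simpa using hx)).symm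

theorem AM_inter [Countable X] [Nonempty X] {A B : Set (X → X)} (hA : LC A) (hB : LC B) {a : R X}
    (ha : a ∈ AM A) (hb : a ∈ AM B) : a ∈ AM (A ∩ B) := by
  refine ⟨ha.1, fun p q hq => ?_⟩
  obtain ⟨x, hx⟩ := exists_surjective_nat X
  obtain ⟨σ, hσ⟩ := hx.hasRightInverse
  let l : ℕ → List X := fun k => Nat.rec p.2 (fun k t => x k :: t) k
  have step : ∀ k (t : List X), ∃ y, (q.1, t) ∈ (a (dl (p.1, l k))).support →
      (q.1, y :: t) ∈ (a (dl (p.1, l (k + 1)))).support := by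
    intro k t
    by_cases h : (q.1, t) ∈ (a (dl (p.1, l k))).support
    · have h1 : a (dl (p.1, l k)) = P List.tail (a (dl (p.1, l (k + 1)))) := by
        have := congrArg (fun c : R X => c (dl (p.1, l (k + 1))))
          (ha.1 List.tail fun f l => by simp)
        simp only [Module.End.mul_apply, P_dl] at this
        exact this
      rw [h1] at h
      obtain ⟨r, hr, h2⟩ := supp_apply h
      rw [P_dl] at h2
      have h3 := supp_dl h2
      obtain ⟨f, -, h4⟩ := ha.2 _ _ hr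
      have h5 : r.2 = f (x k) :: (l k).map f := h4
      refine ⟨f (x k), fun _ => ?_⟩
      have h6 : r = (q.1, f (x k) :: t) := by
        refine Prod.ext (congrArg Prod.fst h3).symm ?_
        have := congrArg Prod.snd h3
        simp only [h5, List.tail_cons] at this
        rw [h5, this]
      exact h6 ▸ hr
    · exact ⟨x 0, fun h' => absurd h' h⟩
  choose Yf hY using step
  let m : ℕ → List X := fun k => Nat.rec q.2 (fun k t => Yf k t :: t) k
  have hm : ∀ k, (q.1, m k) ∈ (a (dl (p.1, l k))).support := fun k =>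
    Nat.rec hq (fun k ih => hY k _ ih) k
  have back : ∀ (f : X → X) k, m k = (l k).map f →
      q.2 = p.2.map f ∧ ∀ j < k, f (x j) = Yf j (m j) := by
    intro f k
    induction k with
    | zero => exact fun h => ⟨h, fun j hj => absurd hj (Nat.not_lt_zero j)⟩
    | succ k ih =>
      intro h
      have h' : Yf k (m k) :: m k = f (x k) :: (l k).map f := h
      obtain ⟨h1, h2⟩ := List.cons.inj h'
      refine ⟨(ih h2).1, fun j hj => ?_⟩
      rcases Nat.lt_succ_iff_lt_or_eq.1 hj with hj | rfl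
      · exact (ih h2).2 j hj
      · exact h1.symm
  have app : ∀ C : Set (X → X), a ∈ AM C → ∀ S : Set X, S.Finite →
      ∃ g ∈ C, q.2 = p.2.map g ∧ ∀ t ∈ S, g t = Yf (σ t) (m (σ t)) := by
    intro C hC S hS
    obtain ⟨k, hk⟩ := (hS.image σ).bddAbove
    obtain ⟨g, hg, h1⟩ := hC.2 _ _ (hm (k + 1))
    refine ⟨g, hg, (back g (k + 1) h1).1, fun t ht => ?_⟩
    have := (back g (k + 1) h1).2 (σ t) (Nat.lt_succ_of_le (hk ⟨t, ht, rfl⟩))
    rwa [hσ t] at this
  refine ⟨fun t => Yf (σ t) (m (σ t)), ⟨hA _ fun S hS => ?_, hB _ fun S hS => ?_⟩, ?_⟩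
  · obtain ⟨g, hg, -, h⟩ := app A ha S hS
    exact ⟨g, hg, h⟩
  · obtain ⟨g, hg, -, h⟩ := app B hb S hS
    exact ⟨g, hg, h⟩
  · obtain ⟨g, -, h1, h⟩ := app A ha {t | t ∈ p.2} (List.finite_toSet _)
    rw [h1]
    exact List.map_congr_left h

def HS (H : GrLoc (W X)) : Submonoid (R X) where
  carrier := {a | ∃ h ∈ H.1, ⇑h = ⇑a}
  one_mem' := ⟨1, H.1.one_mem, rfl⟩
  mul_mem' := by
    rintro a b ⟨g, hg, h1⟩ ⟨h, hh, h2⟩
    exact ⟨g * h, H.1.mul_mem hg hh, funext fun w => by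
      rw [Module.End.mul_apply, ← h1, ← h2]; rfl⟩

theorem HS_closed (H : GrLoc (W X)) (φ : Equiv.Perm (W X))
    (h : ∀ S : Set (W X), S.Finite → ∃ a ∈ HS H, ∀ w ∈ S, a w = φ w) : φ ∈ H.1 := by
  refine (closed_gr_iff _).1 H.2 _ fun S hS => ?_
  obtain ⟨a, ⟨g, hg, h1⟩, h2⟩ := h S hS
  exact ⟨g, hg, fun w hw => by rw [h1, h2 w hw]⟩

theorem fin_supp {S : Set (W X)} (hS : S.Finite) : {p : I X | ∃ w ∈ S, p ∈ w.support}.Finite := by
  have := hS.biUnion (t := fun w => (w.support : Set (I X))) fun w _ => Finset.finite_toSet _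
  exact this.subset fun p ⟨w, hw, hp⟩ => Set.mem_biUnion hw hp

theorem HS_gate (H : GrLoc (W X)) {c : R X} (hc : c * c = 0)
    (h : ∀ U : Set (I X), U.Finite → ∃ F, 1 + F ∈ HS H ∧ ∀ p ∈ U, F (dl p) = c (dl p)) :
    1 + c ∈ HS H := by
  refine ⟨gate c hc, HS_closed H _ fun S hS => ?_, rfl⟩
  obtain ⟨F, h1, h2⟩ := h _ (fin_supp hS)
  refine ⟨_, h1, fun w hw => ?_⟩
  change w + F w = w + c w
  rw [agree fun p hp => h2 p ⟨w, hw, hp⟩]

def EH (H : GrLoc (W X)) : Set (X → X) := {f | ∀ i j, i ≠ j → 1 + e i j f ∈ HS H}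

theorem sub_EH {H : GrLoc (W X)} {A : MonLoc X} (h : GM A ≤ H) : A.1 ⊆ EH H :=
  fun f hf _ _ hij => ⟨_, h (gate_mem A (e_mul_ne f f hij) (Q_mem _ _ hf)), rfl⟩

theorem comm_id {a b : R X} (h1 : a * a = 0) (h2 : b * b = 0) (h3 : b * a = 0) :
    (1 + a) * (1 + b) * ((1 + a) * (1 + b)) = 1 + a * b := by
  have : (1 + a) * (1 + b) * ((1 + a) * (1 + b)) =
      1 + a * b + ((a + b + a * b) + (a + b + a * b)) + (a * a) * (1 + b) +
        (1 + a) * (b * b) + (1 + a) * (b * a) * (1 + b) := by noncomm_ring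
  rw [this, radd, h1, h2, h3]; simp

def EM (H : GrLoc (W X)) (A : MonLoc X) (h : GM A ≤ H) : MonLoc X :=
  ⟨EH H, sub_EH h A.2.1, fun f hf g hg i j hij => by
    have h1 := hf i (i + j + 1) (by omega)
    have h2 := hg (i + j + 1) j (by omega)
    have := (HS H).mul_mem ((HS H).mul_mem h1 h2) ((HS H).mul_mem h1 h2)
    rwa [comm_id (e_mul_ne _ _ (by omega)) (e_mul_ne _ _ (by omega)) (e_mul_ne _ _ hij),
      e_mul] at this, by
    rw [closed_iff]
    intro f hf i j hij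
    refine HS_gate H (e_mul_ne _ _ hij) fun U hU => ?_
    have hT : {t : X | ∃ p ∈ U, t ∈ p.2}.Finite := by
      have := hU.biUnion (t := fun p => {t : X | t ∈ p.2}) fun p _ => List.finite_toSet _
      exact this.subset fun t ⟨p, hp, ht⟩ => Set.mem_biUnion hp ht
    obtain ⟨g, hg, h1⟩ := hf _ hT
    refine ⟨_, hg i j hij, fun p hp => ?_⟩
    rw [e, e, Q_dl, Q_dl, List.map_congr_left fun t ht => h1 t ⟨p, hp, ht⟩]⟩

theorem exists_big {T : Set (List X)} (hT : T.Finite) :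
    ∃ L : List X, ∀ l ∈ T, ∃ s, Nt s ∧ s L = l := by
  induction T, hT using Set.Finite.induction_on with
  | empty => exact ⟨[], fun _ h => h.elim⟩
  | @insert l T _ _ ih =>
    obtain ⟨L, hL⟩ := ih
    refine ⟨l ++ L, ?_⟩
    rintro l' (rfl | h)
    · exact ⟨List.take l'.length, fun f t => by simp, by simp⟩
    · obtain ⟨s, h1, h2⟩ := hL _ h
      exact ⟨s ∘ List.drop l.length, fun f t => by simp [← h1 f], by simp [h2]⟩

theorem good {H : GrLoc (W X)} (D : ℕ → Prop) {c : R X} (hc : c ∈ AM (EH H))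
    (h1 : pr D * c = c) (h2 : c * pr D = 0) : 1 + c ∈ HS H := by
  refine HS_gate H (by rw [← h1, mul_assoc, ← mul_assoc c, h2]; simp) fun U hU => ?_
  obtain ⟨L, hL⟩ := exists_big (hU.image Prod.snd)
  haveI : Nonempty (X → X) := ⟨id⟩
  choose! f hf1 hf2 using hc.2
  let Good : R X → Prop := fun a => 1 + a ∈ HS H ∧ pr D * a = a ∧ a * pr D = 0 ∧
    ∀ s, Nt s → a * P s = P s * a
  have g0 : Good 0 := ⟨by simpa using (HS H).one_mem, by simp, by simp, by simp⟩
  have gadd : ∀ a b, Good a → Good b → Good (a + b) := by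
    rintro a b ⟨a1, a2, a3, a4⟩ ⟨b1, b2, b3, b4⟩
    refine ⟨?_, by rw [mul_add, a2, b2], by rw [add_mul, a3, b3, add_zero],
      fun s hs => by rw [add_mul, mul_add, a4 s hs, b4 s hs]⟩
    have h3 : a * b = 0 := by rw [← b2, ← mul_assoc, a3, zero_mul]
    have h4 : (1 + a) * (1 + b) = 1 + (a + b) + a * b := by noncomm_ring
    have := (HS H).mul_mem a1 b1
    rwa [h4, h3, add_zero] at this
  have hD : ∀ p q, q ∈ (c (dl p)).support → D q.1 := by
    intro p q hq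
    rw [← h1] at hq
    obtain ⟨r, -, hr⟩ := supp_apply (a := pr D) hq
    rw [pr, Q_dl] at hr
    by_cases h : D r.1
    · rw [if_pos h] at hr
      rw [supp_dl hr]; exact h
    · simp [h] at hr
  have kill : ∀ a : R X, a * pr D = 0 → ∀ p : I X, D p.1 → a (dl p) = 0 := by
    intro a ha p hp
    have := congrArg (fun b : R X => b (dl p)) ha
    simpa [pr, Q_dl, hp] using this
  let J : Finset ℕ := (hU.toFinset.image Prod.fst).filter fun j => ¬ D j
  let F : R X := ∑ j ∈ J, ∑ q ∈ (c (dl (j, L))).support, e q.1 j (f (j, L) q)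
  have gF : Good F := by
    refine Finset.sum_induction _ Good gadd g0 fun j hj => ?_
    refine Finset.sum_induction _ Good gadd g0 fun q hq => ?_
    have hj' : ¬ D j := (Finset.mem_filter.1 hj).2
    have hq' := hD _ _ hq
    refine ⟨hf1 _ _ hq _ _ fun h => hj' (h ▸ hq'), ?_, ?_, fun s hs => Q_comm _ _ _ hs⟩
    · rw [pr, e, Q_mul]
      exact Q_congr _ (fun _ => by simp [hq']) fun _ _ => rfl
    · rw [pr, e, Q_mul]
      exact Q_zero _ _ fun k hk => hj' (by have := hk.2; have := hk.1; simp_all)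
  refine ⟨F, gF.1, fun p hp => ?_⟩
  by_cases hpD : D p.1
  · rw [kill _ gF.2.2.1 p hpD, kill _ h2 p hpD]
  · have hJ : p.1 ∈ J := Finset.mem_filter.2
      ⟨Finset.mem_image.2 ⟨p, hU.mem_toFinset.2 hp, rfl⟩, hpD⟩
    have hb : F (dl (p.1, L)) = c (dl (p.1, L)) := by
      simp only [F, LinearMap.sum_apply]
      rw [Finset.sum_eq_single_of_mem p.1 hJ]
      · conv_rhs => rw [← sum_dl (c (dl (p.1, L)))]
        refine Finset.sum_congr rfl fun q hq => ?_
        rw [e, Q_dl, if_pos rfl, ← hf2 _ _ hq]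
      · intro j _ hj
        refine Finset.sum_eq_zero fun q _ => ?_
        rw [e, Q_dl, if_neg hj.symm]
    obtain ⟨s, hs, hsL⟩ := hL p.2 ⟨p, hp, rfl⟩
    have hp' : dl p = P s (dl (p.1, L)) := by rw [P_dl, hsL]
    have e1 := congrArg (fun b : R X => b (dl (p.1, L))) (gF.2.2.2 s hs)
    have e2 := congrArg (fun b : R X => b (dl (p.1, L))) (hc.1 s hs)
    simp only [Module.End.mul_apply] at e1 e2
    rw [hp', e1, e2, hb]

theorem GM_EM {H : GrLoc (W X)} {A : MonLoc X} (h : GM A ≤ H) : GM (EM H A h) ≤ H := by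
  rintro φ ⟨⟨a, ha, h1⟩, ⟨b, hb, h2⟩⟩
  refine HS_closed H _ fun S hS => ?_
  obtain ⟨n, hn⟩ := ((fin_supp (hS.union (hS.image a))).image Prod.fst).bddAbove
  let p : R X := pr fun j => j ≤ n
  let π : R X := pr fun j => ¬ j ≤ n
  let u : R X := Q (fun _ => True) (fun j => j + (n + 1)) id
  let d : R X := Q (fun j => ¬ j ≤ n) (fun j => j - (n + 1)) id
  have hE := (EM H A h).2.1
  have mp : p ∈ AM (EH H) := Q_mem _ _ hE
  have mu : u ∈ AM (EH H) := Q_mem _ _ hE
  have md : d ∈ AM (EH H) := Q_mem _ _ hE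
  have mm : ∀ {x y : R X}, x ∈ AM (EH H) → y ∈ AM (EH H) → x * y ∈ AM (EH H) :=
    fun hx hy => AM_mul (EM H A h) hx hy
  have du : d * u = 1 := by
    rw [Q_mul, ← Q_one]
    exact Q_congr _ (fun j => by simp; omega) fun j _ => by simp
  have dp : d * p = 0 := by
    simp only [d, p, pr]
    rw [Q_mul]
    exact Q_zero _ _ fun j hj => hj.2 hj.1
  have pu : p * u = 0 := by
    simp only [u, p, pr]
    rw [Q_mul]
    exact Q_zero _ _ fun j hj => by have := hj.2; omega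
  have pp : p * p = p := by
    simp only [p, pr]
    rw [Q_mul]
    exact Q_congr _ (fun j => by simp) fun j _ => rfl
  have πu : π * u = u := by
    simp only [u, π, pr]
    rw [Q_mul]
    exact Q_congr _ (fun j => by simp; omega) fun j _ => rfl
  have pπ : p * π = 0 := by
    simp only [p, π, pr]
    rw [Q_mul]
    exact Q_zero _ _ fun j hj => hj.1 hj.2
  have g1 : 1 + u * a * p ∈ HS H := good _ (mm (mm mu ha) mp)
    (by rw [← mul_assoc, ← mul_assoc, πu]) (by rw [mul_assoc, pπ, mul_zero])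
  have g2 : 1 + p * b * d ∈ HS H := good _ (mm (mm mp hb) md)
    (by rw [← mul_assoc, ← mul_assoc, pp]) (by rw [mul_assoc, dp, mul_zero])
  have g3 : 1 + p * d ∈ HS H := good _ (mm mp md)
    (by rw [← mul_assoc, pp]) (by rw [mul_assoc, dp, mul_zero])
  have g4 : 1 + u * p ∈ HS H := good _ (mm mu mp)
    (by rw [← mul_assoc, πu]) (by rw [mul_assoc, pπ, mul_zero])
  refine ⟨_, (HS H).mul_mem g4 ((HS H).mul_mem g3 ((HS H).mul_mem g2 g1)), fun w hw => ?_⟩
  have low : ∀ v ∈ S ∪ a '' S, p v = v := by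
    intro v hv
    refine agree (b := 1) fun q hq => ?_
    have : q.1 ≤ n := hn ⟨q, ⟨v, hv, hq⟩, rfl⟩
    simp [p, pr, Q_dl, this]
  have l1 : p w = w := low w (Or.inl hw)
  have l2 : p (a w) = a w := low _ (Or.inr ⟨w, hw, rfl⟩)
  have l3 : b (a w) = w := by rw [h1, h2]; simp
  have l4 : d w = 0 := by rw [← l1, ← Module.End.mul_apply, dp]; rfl
  have l5 : ∀ v, d (u v) = v := fun v => by rw [← Module.End.mul_apply, du]; rfl
  have l6 : ∀ v, p (u v) = 0 := fun v => by rw [← Module.End.mul_apply, pu]; rfl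
  have s1 : (1 + u * a * p) w = w + u (a w) := by simp [l1]
  have s2 : (1 + p * b * d) (w + u (a w)) = u (a w) := by
    simp only [LinearMap.add_apply, Module.End.one_apply, Module.End.mul_apply, map_add, l4, l5,
      l3, l1, map_zero, add_zero]
    rw [add_comm (u (a w)), ← add_assoc, wadd, zero_add]
  have s3 : (1 + p * d) (u (a w)) = u (a w) + a w := by simp [l5, l2]
  have s4 : (1 + u * p) (u (a w) + a w) = a w := by
    simp only [LinearMap.add_apply, Module.End.one_apply, Module.End.mul_apply, map_add, l6, l2,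
      map_zero, add_zero]
    rw [add_comm (a w), ← add_assoc, wadd, zero_add]
  rw [Module.End.mul_apply, Module.End.mul_apply, Module.End.mul_apply, s1, s2, s3, s4, h1]

theorem GM_emb [Countable X] [Nonempty X] : IsLatEmb (GM (X := X)) := by
  refine emb_of _ (fun A B => ⟨GM_reflect, fun h φ hφ => ?_⟩) (fun A B H hA hB => ?_)
    (fun A B H hA hB => ?_)
  · obtain ⟨⟨a, ha, h1⟩, ⟨b, hb, h2⟩⟩ := hφ
    exact ⟨⟨a, AM_mono h ha, h1⟩, ⟨b, AM_mono h hb, h2⟩⟩
  · exact ⟨EM H A hA, sub_EH hA, sub_EH hB, GM_EM hA⟩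
  · have cA := (closed_iff _).1 A.2.2.2
    have cB := (closed_iff _).1 B.2.2.2
    refine ⟨⟨A.1 ∩ B.1, ⟨A.2.1, B.2.1⟩, fun f hf g hg =>
      ⟨A.2.2.1 _ hf.1 _ hg.1, B.2.2.1 _ hf.2 _ hg.2⟩, ?_⟩, Set.inter_subset_left,
      Set.inter_subset_right, fun φ hφ => ?_⟩
    · letI := ptw X X
      exact A.2.2.2.inter B.2.2.2
    · obtain ⟨⟨a, ha, h1⟩, ⟨b, hb, h2⟩⟩ := hA hφ
      obtain ⟨⟨a', ha', h3⟩, ⟨b', hb', h4⟩⟩ := hB hφ
      obtain rfl : a = a' := DFunLike.coe_injective (h1.trans h3.symm)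
      obtain rfl : b = b' := DFunLike.coe_injective (h2.trans h4.symm)
      exact ⟨⟨a, AM_inter cA cB ha ha', h1⟩, ⟨b, AM_inter cA cB hb hb', h2⟩⟩

end

theorem q2 (X : Type) [Countable X] [Infinite X] : ∃ Φ : ClLoc X → GrLoc X, IsLatEmb Φ := by
  obtain ⟨Φ, hΦ⟩ := q1 X
  obtain ⟨e⟩ : Nonempty (W X ≃ X) := nonempty_equiv_of_countable
  exact ⟨_, (hΦ.comp GM_emb).comp (grTr_emb e)⟩

end Pool.Agent.H77.LocLat
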