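import Mathlib

set_option autoImplicit false

namespace Pool.Agent.H77.LocLat

/-- The product topology on `A → X`, where `X` carries the discrete topology. -/
@[reducible] def ptw (A X : Type) : TopologicalSpace (A → X) :=
  @Pi.topologicalSpace A (fun _ => X) (fun _ => ⊥)

/-- `C n` is the set of `(n+1)`-ary members of a local clone on `X`. -/
def IsLocClone {X : Type} (C : ∀ n : ℕ, Set ((Fin (n + 1) → X) → X)) : Prop :=
  (∀ n k, (fun x => x k) ∈ C n) ∧
  (∀ n m (f : (Fin (n + 1) → X) → X) (g : Fin (n + 1) → (Fin (m + 1) → X) → X),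
    f ∈ C n → (∀ i, g i ∈ C m) → (fun x => f fun i => g i x) ∈ C m) ∧
  ∀ n, @IsClosed _ (ptw (Fin (n + 1) → X) X) (C n)

/-- Local clones on `X`, ordered by inclusion. -/
abbrev ClLoc (X : Type) : Type := {C : ∀ n : ℕ, Set ((Fin (n + 1) → X) → X) // IsLocClone C}

/-- Closed transformation monoids on `X`, ordered by inclusion. -/
abbrev MonLoc (X : Type) : Type :=
  {M : Set (X → X) // id ∈ M ∧ (∀ f ∈ M, ∀ g ∈ M, f ∘ g ∈ M) ∧ @IsClosed _ (ptw X X) M}

/-- Permutation groups on `X` closed in the space of all permutations, ordered by inclusion. -/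
abbrev GrLoc (X : Type) : Type :=
  {G : Subgroup (Equiv.Perm X) //
    @IsClosed _ ((ptw X X).induced fun g : Equiv.Perm X => (g : X → X))
      (G : Set (Equiv.Perm X))}

/-- An injective map preserving binary joins and binary meets. -/
def IsLatEmb {α β : Type} [PartialOrder α] [PartialOrder β] (Φ : α → β) : Prop :=
  Function.Injective Φ ∧ ∀ a b c : α,
    (IsLUB {a, b} c → IsLUB {Φ a, Φ b} (Φ c)) ∧ (IsGLB {a, b} c → IsGLB {Φ a, Φ b} (Φ c))

end Pool.Agent.H77.LocLat
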