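import Mathlib

/-! Minimal `m`-Markoff triples. -/

namespace H77.Mk

/-- The set `O(m)` of minimal `m`-Markoff triples `(a, b, c)`. -/
def O (m : ℕ) : Set (ℕ × ℕ × ℕ) :=
  {t | 0 < t.1 ∧ t.1 ≤ t.2.1 ∧ t.2.1 ≤ t.2.2 ∧ 3 * t.1 * t.2.1 ≤ t.2.2 ∧
    t.1 ^ 2 + t.2.1 ^ 2 + t.2.2 ^ 2 = 3 * t.1 * t.2.1 * t.2.2 + m}

/-- The set `U` of integers `m > 1` with exactly one minimal triple. -/
def U : Set ℕ := {m | 1 < m ∧ (O m).ncard = 1}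

end H77.Mk
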