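import Pool.Agent.H77.NfbDefs

namespace Pool.Agent.H77.Nfb

open Polynomial TrivSqZeroExt

variable {K : Type} [Field K]

def Alg {Y : Type} [AddCommGroup Y] [Module K Y] (_m : Y →ₗ[K] Y →ₗ[K] Y) : Type := Y

section
variable {Y : Type} [AddCommGroup Y] [Module K Y] (m : Y →ₗ[K] Y →ₗ[K] Y)

instance : NonUnitalNonAssocRing (Alg m) :=
  { (inferInstance : AddCommGroup Y) with
    mul := fun x y => m x y
    left_distrib := fun x y z => (m x).map_add y z
    right_distrib := fun x y z => m.map_add₂ x y z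
    zero_mul := fun x => m.map_zero₂ x
    mul_zero := fun x => (m x).map_zero }

instance : Module K (Alg m) := (inferInstance : Module K Y)

instance : IsScalarTower K (Alg m) (Alg m) := ⟨fun a x y => m.map_smul₂ a x y⟩

instance : SMulCommClass K (Alg m) (Alg m) := ⟨fun a x y => ((m x).map_smul a y).symm⟩

end

def evm {Y : Type} (m : Y → Y → Y) (v : ℕ → Y) : FreeMagma ℕ → Y
  | .of i => v i
  | .mul a b => m (evm m v a) (evm m v b)

def ev {Y : Type} [AddCommGroup Y] [Module K Y] (e : FreeMagma ℕ → Y)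
    (f : FreeNonUnitalNonAssocAlgebra K ℕ) : Y := f.coeff.sum fun w a => a • e w

theorem sat_iff {Y : Type} [AddCommGroup Y] [Module K Y] (m : Y →ₗ[K] Y →ₗ[K] Y)
    (f : FreeNonUnitalNonAssocAlgebra K ℕ) :
    Sat K (Alg m) f ↔ ∀ v : ℕ → Y, ev (evm (fun x y => m x y) v) f = 0 := by
  refine forall_congr' fun v => ?_
  have : ∀ w, FreeMagma.lift (β := Alg m) v w = evm (fun x y => m x y) v w := by
    intro w
    induction w with
    | ih1 i => rfl
    | ih2 a b ha hb => rw [map_mul, ha, hb]; rfl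
  rw [← funext this]
  rfl

theorem map_ev {Y Z : Type} [AddCommGroup Y] [Module K Y] [AddCommGroup Z] [Module K Z]
    (L : Y →ₗ[K] Z) (e : FreeMagma ℕ → Y) (f : FreeNonUnitalNonAssocAlgebra K ℕ) :
    L (ev e f) = ev (fun w => L (e w)) f := by
  simp [ev, map_finsuppSum]

theorem ev_sub {Y : Type} [AddCommGroup Y] [Module K Y] (e : FreeMagma ℕ → Y) (a b : FreeMagma ℕ) :
    ev e (MonoidAlgebra.single a (1 : K) - MonoidAlgebra.single b 1) = e a - e b := by
  simp [ev, Finsupp.sum_sub_index, sub_smul]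

def mu {C : Type} [CommRing C] (x y : C × C × C) : C × C × C :=
  (x.1 * y.2.1 + x.2.1 * y.2.2, x.2.1 * y.2.2, 0)

/-- the three-dimensional algebra `e₁e₂ = e₁`, `e₂e₃ = e₁ + e₂` -/
def mR (K : Type) [Field K] : K × K × K →ₗ[K] K × K × K →ₗ[K] K × K × K :=
  LinearMap.mk₂ K mu (fun x y z => by ext <;> simp [mu] <;> ring)
    (fun x y z => by ext <;> simp [mu] <;> ring) (fun x y z => by ext <;> simp [mu] <;> ring)
    (fun x y z => by ext <;> simp [mu] <;> ring)

def m3 {C D : Type} [CommRing C] [CommRing D] [Algebra K C] [Algebra K D] (φ : C →ₐ[K] D) :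
    C × C × C →ₗ[K] D × D × D := φ.toLinearMap.prodMap (φ.toLinearMap.prodMap φ.toLinearMap)

theorem m3_evm {C D : Type} [CommRing C] [CommRing D] [Algebra K C] [Algebra K D] (φ : C →ₐ[K] D)
    (v : ℕ → C × C × C) (w : FreeMagma ℕ) :
    m3 φ (evm mu v w) = evm mu (fun i => m3 φ (v i)) w := by
  induction w with
  | ih1 i => rfl
  | ih2 a b ha hb =>
    show m3 φ (mu _ _) = mu _ _
    rw [← ha, ← hb]
    simp [m3, mu]

theorem ext_scal [Infinite K] {f : FreeNonUnitalNonAssocAlgebra K ℕ} (h : Sat K (Alg (mR K)) f)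
    {C : Type} [CommRing C] [Algebra K C] (v : ℕ → C × C × C) : ev (evm mu v) f = 0 := by
  let g : ℕ → _ × _ × _ := fun i => ((MvPolynomial.X (i, 0) : MvPolynomial (ℕ × Fin 3) K),
    (MvPolynomial.X (i, 1) : MvPolynomial (ℕ × Fin 3) K),
    (MvPolynomial.X (i, 2) : MvPolynomial (ℕ × Fin 3) K))
  have h1 : ∀ p : ℕ × Fin 3 → K, m3 (MvPolynomial.aeval p) (ev (evm mu g) f) = 0 := fun p => by
    rw [map_ev]
    simp only [m3_evm]
    exact (sat_iff _ _).1 h _
  have h2 : ev (evm mu g) f = 0 :=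
    Prod.ext (MvPolynomial.funext fun p => congrArg Prod.fst (h1 p) |>.trans (by simp))
      (Prod.ext (MvPolynomial.funext fun p => congrArg (·.2.1) (h1 p) |>.trans (by simp))
        (MvPolynomial.funext fun p => congrArg (·.2.2) (h1 p) |>.trans (by simp)))
  have h3 := congrArg (m3 (MvPolynomial.aeval fun j : ℕ × Fin 3 =>
    ![(v j.1).1, (v j.1).2.1, (v j.1).2.2] j.2)) h2
  rw [map_ev, map_zero] at h3
  simp only [m3_evm] at h3
  simpa [m3, g] using h3

abbrev MX (K : Type) [Field K] : Type := K × K × K × K[X] × K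

noncomputable def nu (N : ℕ) (x y : MX K) : MX K :=
  (0, 0, 0, C x.2.2.1 * X * (C y.2.1 * X) + x.2.2.2.1 * (C y.2.2.1 * X), x.1 * y.2.2.2.1.coeff N)

noncomputable def mM (K : Type) [Field K] (N : ℕ) : MX K →ₗ[K] MX K →ₗ[K] MX K :=
  LinearMap.mk₂ K (nu N) (fun x y z => by simp [nu, add_mul]; ring)
    (fun x y z => by simp [nu, smul_eq_C_mul]; constructor <;> ring)
    (fun x y z => by simp [nu, mul_add]; ring)
    (fun x y z => by simp [nu, smul_eq_C_mul]; constructor <;> ring)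

abbrev DD (K : Type) [Field K] : Type := DualNumber K[X] × DualNumber K[X] × DualNumber K[X]

noncomputable def S2 (x : MX K) : DD K := (0, inl (C x.2.2.1 * X), inr (C x.2.1 * X))

noncomputable def S3 (N : ℕ) (x : MX K) : DD K :=
  (inl (C x.1) + inr (x.2.2.2.1 + C x.2.2.2.2 * X ^ N), inr x.2.2.2.1, inl (C x.2.2.1 * X))

structure Inv (N l : ℕ) (e : MX K) (p q : DD K) : Prop where
  h1 : p.1.fst = 0
  h2 : p.2.1.fst = C e.2.2.1 * X
  h3 : p.2.2.fst = 0
  h4 : p.2.2.snd = C e.2.1 * X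
  h5 : q.1.fst = C e.1
  h6 : q.2.1.fst = 0
  h7 : q.2.2.fst = C e.2.2.1 * X
  h8 : e.2.2.2.1 = q.2.1.snd + p.1.snd
  h9 : p.1.snd.natDegree ≤ l
  h10 : l ≤ N → e.2.2.2.2 = (q.1.snd - q.2.1.snd).coeff N

theorem inv (N : ℕ) (v : ℕ → MX K) (w : FreeMagma ℕ) : Inv N w.length (evm (nu N) v w)
    (evm mu (fun i => S2 (v i)) w) (evm mu (fun i => S3 N (v i)) w) := by
  induction w with
  | ih1 i => constructor <;> simp [evm, S2, S3]
  | ih2 a b ha hb =>
    have la := FreeMagma.length_pos a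
    have lb := FreeMagma.length_pos b
    have d : ∀ c : K, (C c * X).natDegree ≤ 1 := fun c => by compute_degree
    show Inv N (a.length + b.length) (nu N _ _) (mu _ _) (mu _ _)
    constructor
    case h9 =>
      simp only [mu, snd_add, DualNumber.snd_mul, ha.h1, ha.h2, hb.h2, hb.h3, hb.h4, zero_mul,
        mul_zero, zero_add, add_zero]
      refine (natDegree_add_le _ _).trans (max_le (natDegree_mul_le.trans ?_)
        (natDegree_mul_le.trans ?_))
      · exact add_le_add ha.h9 ((d _).trans lb)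
      · exact add_le_add ((d _).trans la) ((d _).trans lb)
    case h10 =>
      intro hl
      have := coeff_eq_zero_of_natDegree_lt (hb.h9.trans_lt (by omega : b.length < N))
      simp [mu, nu, ha.h5, hb.h6, hb.h8, this]
    all_goals simp [mu, nu, ha.h1, ha.h2, ha.h6, ha.h8, hb.h2, hb.h3, hb.h4, hb.h6, hb.h7]
    ring

noncomputable def Lp : DD K →ₗ[K] MX K where
  toFun p := (0, p.2.2.snd.coeff 1, 0, p.1.snd, 0)
  map_add' x y := by simp
  map_smul' a x := by simp

noncomputable def Lq (N : ℕ) : DD K →ₗ[K] MX K where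
  toFun q := (q.1.fst.coeff 0, 0, q.2.2.fst.coeff 1, q.2.1.snd, (q.1.snd - q.2.1.snd).coeff N)
  map_add' x y := by simp; ring
  map_smul' a x := by simp; ring

theorem sat_M [Infinite K] (N : ℕ) {f : FreeNonUnitalNonAssocAlgebra K ℕ}
    (h : Sat K (Alg (mR K)) f) (hN : ∀ w ∈ f.coeff.support, w.length ≤ N) :
    Sat K (Alg (mM K N)) f := by
  rw [sat_iff]
  intro v
  have h2 := congrArg Lp (ext_scal h fun i => S2 (v i))
  have h3 := congrArg (Lq N) (ext_scal h fun i => S3 N (v i))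
  rw [map_ev, map_zero] at h2 h3
  refine Eq.trans ?_ ((congrArg₂ (· + ·) h2 h3).trans (add_zero 0))
  simp only [ev]
  rw [← Finsupp.sum_add]
  refine Finsupp.sum_congr fun w hw => ?_
  have I := inv N v w
  rw [← smul_add]
  congr 1
  show evm (nu N) v w = (_ + _, _ + _, _ + _, _ + _, _ + _)
  refine Prod.ext ?_ (Prod.ext ?_ (Prod.ext ?_ (Prod.ext ?_ ?_)))
  · simp [Lp, Lq, I.h5]
  · simp [Lp, Lq, I.h4]
  · simp [Lp, Lq, I.h7]
  · simp [Lp, Lq, I.h8, add_comm]
  · simp [Lp, Lq, I.h10 (hN w hw)]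

def it (w : FreeMagma ℕ) : ℕ → FreeMagma ℕ
  | 0 => w
  | k + 1 => .mul (it w k) (.of 2)

theorem main (K : Type) [Field K] [Infinite K] : ¬ FinBased K (Alg (mR K)) := by
  rintro ⟨S, hS, h⟩
  obtain ⟨k, hk⟩ : ∃ k, ∀ g ∈ S, ∀ w ∈ g.coeff.support, w.length ≤ k + 3 :=
    ⟨S.sup fun g => g.coeff.support.sup FreeMagma.length, fun g hg w hw =>
      ((Finset.le_sup hw).trans (Finset.le_sup (f := fun g => g.coeff.support.sup FreeMagma.length)
        hg)).trans (Nat.le_add_right _ _)⟩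
  have := h (MonoidAlgebra.single (.mul (.of 0) (it (.mul (.mul (.of 2) (.of 1)) (.of 2)) k)) 1 -
    MonoidAlgebra.single (.mul (.of 0) (it (.mul (.mul (.of 2) (.of 2)) (.of 1)) k)) 1) ?_
    (Alg (mM K (k + 3))) fun g hg => sat_M _ (hS g hg) (hk g hg)
  · rw [sat_iff] at this
    let v : ℕ → MX K := fun i => (if i = 0 then 1 else 0, if i = 1 then 1 else 0,
      if i = 2 then 1 else 0, 0, 0)
    have h1 : ∀ w j, (evm (nu (k + 3)) v (it w j)).2.2.2.1 = (evm (nu (k + 3)) v w).2.2.2.1 * X ^ j := by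
      intro w j
      induction j with
      | zero => simp [it]
      | succ j ih => simp [it, evm, nu, ih, v, pow_succ, mul_assoc]
    have h2 := congrArg (·.2.2.2.2) (this v)
    rw [ev_sub] at h2
    change (1 : K) * coeff (evm (nu (k + 3)) v (it _ k)).2.2.2.1 (k + 3) -
      1 * coeff (evm (nu (k + 3)) v (it _ k)).2.2.2.1 (k + 3) = 0 at h2
    rw [h1, h1] at h2
    simp [evm, nu, v] at h2
    rw [show (X * X * X * X ^ k : K[X]) = X ^ (k + 3) by ring] at h2
    simp at h2
  · rw [sat_iff]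
    intro v
    have h1 : ∀ w w' j, (evm mu v w).2 = (evm mu v w').2 →
        (evm mu v (it w j)).2 = (evm mu v (it w' j)).2 := by
      intro w w' j e
      induction j with
      | zero => exact e
      | succ j ih => simp [it, evm, mu, ih]
    rw [ev_sub, sub_eq_zero]
    show mu _ (evm mu v (it _ k)) = mu _ (evm mu v (it _ k))
    simp only [mu]
    rw [h1 _ (.mul (.mul (.of 2) (.of 2)) (.of 1)) k (by simp [evm, mu]; ring)]

end Pool.Agent.H77.Nfb
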