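import Mathlib

namespace Pool.Agent.H77.Nfb

/-- `f` is a polynomial identity of the (not necessarily associative) `K`-algebra `A` -/
def Sat (K A : Type) [Field K] [NonUnitalNonAssocRing A] [Module K A] [IsScalarTower K A A]
    [SMulCommClass K A A] (f : FreeNonUnitalNonAssocAlgebra K ℕ) : Prop :=
  ∀ v : ℕ → A, FreeNonUnitalNonAssocAlgebra.lift K v f = 0

/-- all identities of `R` follow from finitely many of them -/
def FinBased (K R : Type) [Field K] [NonUnitalNonAssocRing R] [Module K R] [IsScalarTower K R R]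
    [SMulCommClass K R R] : Prop :=
  ∃ S : Finset (FreeNonUnitalNonAssocAlgebra K ℕ), (∀ g ∈ S, Sat K R g) ∧
    ∀ f, Sat K R f → ∀ (A : Type) [NonUnitalNonAssocRing A] [Module K A] [IsScalarTower K A A]
      [SMulCommClass K A A], (∀ g ∈ S, Sat K A g) → Sat K A f

end Pool.Agent.H77.Nfb
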