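import Mathlib

set_option autoImplicit false

namespace Pool.Agent.H77.NubFlat

open Filter Topology Set
open scoped Pointwise

section General

variable {G : Type} [Group G] [TopologicalSpace G]

/-- Tidiness, as in the frozen statement. -/
def Tidy (a : MulAut G) (U : Subgroup G) : Prop :=
  (U : Set G) = (⋂ n : ℕ, Set.image (⇑(a ^ n)) (U : Set G)) *
      (⋂ n : ℕ, Set.image (⇑(a⁻¹ ^ n)) (U : Set G)) ∧
    IsClosed (⋃ m : ℕ, Set.image (⇑(a ^ m)) (⋂ n : ℕ, Set.image (⇑(a ^ n)) (U : Set G)))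

omit [TopologicalSpace G] in
theorem image_pow {a : MulAut G} {U : Set G} (h : a '' U = U) (n : ℕ) : (a ^ n) '' U = U := by
  induction n with
  | zero => simp
  | succ n ih =>
    rw [pow_succ, MulAut.coe_mul, Set.image_comp, h, ih]

theorem tidy_of_inv {a : MulAut G} {U : Subgroup G} (hc : IsClosed (U : Set G))
    (h : ∀ x, a x ∈ U ↔ x ∈ U) : Tidy a U := by
  have h1 : a '' (U : Set G) = U := by
    ext y
    constructor
    · rintro ⟨x, hx, rfl⟩
      exact (h x).2 hx
    · intro hy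
      exact ⟨a⁻¹ y, (h _).1 (by simpa using hy), by simp⟩
  have h2 : (a⁻¹ : MulAut G) '' (U : Set G) = U := by
    ext y
    constructor
    · rintro ⟨x, hx, rfl⟩
      exact (h _).1 (by simpa using hx)
    · intro hy
      exact ⟨a y, (h _).2 hy, by simp⟩
  constructor
  · simp only [image_pow h1, image_pow h2, iInter_const, coe_mul_coe]
  · simpa only [image_pow h1, iInter_const, iUnion_const] using hc

variable [IsTopologicalGroup G] [CompactSpace G] [T2Space G]

theorem inv_of_tidy {a : MulAut G} {U : Subgroup G} (ha : Continuous a)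
    (hU : IsClosed (U : Set G)) (h : Tidy a U) : ∀ x ∈ U, a x ∈ U := by
  have hpow : ∀ n : ℕ, Continuous (⇑(a ^ n)) := fun n => by
    induction n with
    | zero => exact continuous_id
    | succ n ih =>
      rw [pow_succ, MulAut.coe_mul]
      exact ih.comp ha
  let P : Subgroup G := ⨅ n : ℕ, U.map (a ^ n : MulAut G).toMonoidHom
  have hP : (P : Set G) = ⋂ n : ℕ, Set.image (⇑(a ^ n)) (U : Set G) := by
    simp [P, Subgroup.coe_iInf]
  have hPc : IsClosed (P : Set G) := by
    rw [hP]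
    exact isClosed_iInter fun n => (hU.isCompact.image (hpow n)).isClosed
  let S : ℕ → Subgroup G := fun m => P.map (a ^ m : MulAut G).toMonoidHom
  have hS : ∀ m, (S m : Set G) = Set.image (⇑(a ^ m)) (P : Set G) := fun m => by simp [S]
  have hSc : ∀ m, IsClosed (S m : Set G) := fun m => by
    rw [hS]
    exact (hPc.isCompact.image (hpow m)).isClosed
  have hstep : ∀ x ∈ P, a⁻¹ x ∈ P := by
    intro x hx
    rw [← SetLike.mem_coe, hP, mem_iInter] at hx ⊢
    intro n
    obtain ⟨u, hu, rfl⟩ := hx (n + 1)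
    exact ⟨u, hu, by simp [pow_succ']⟩
  have hmono : Monotone S := by
    refine monotone_nat_of_le_succ fun m => ?_
    rintro _ ⟨x, hx, rfl⟩
    exact ⟨a⁻¹ x, hstep x hx, by simp [pow_succ]⟩
  let Q : Subgroup G := ⨆ m, S m
  have hQ : (Q : Set G) = ⋃ m, (S m : Set G) := Subgroup.coe_iSup_of_directed hmono.directed_le
  have hQc : IsClosed (Q : Set G) := by
    rw [hQ]
    simp only [hS, hP]
    exact h.2
  haveI : CompactSpace Q := isCompact_iff_compactSpace.1 hQc.isCompact
  have hcov : ⋃ m, ((S m).subgroupOf Q : Set Q) = univ := by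
    refine eq_univ_of_forall fun q => ?_
    have : (q : G) ∈ ⋃ m, (S m : Set G) := hQ ▸ q.2
    obtain ⟨m, hm⟩ := mem_iUnion.1 this
    exact mem_iUnion.2 ⟨m, hm⟩
  obtain ⟨m, y, hy⟩ := nonempty_interior_of_iUnion_of_closed
    (f := fun m => ((S m).subgroupOf Q : Set Q))
    (fun m => (hSc m).preimage continuous_subtype_val) hcov
  have hopen : IsOpen ((S m).subgroupOf Q : Set Q) :=
    Subgroup.isOpen_of_mem_nhds _ (mem_interior_iff_mem_nhds.1 hy)
  obtain ⟨k, hk⟩ := isCompact_univ.elim_directed_cover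
    (fun k => ((S (m + k)).subgroupOf Q : Set Q))
    (fun k => Subgroup.isOpen_mono
      (Subgroup.subgroupOf_mono Q (hmono (Nat.le_add_right m k))) hopen)
    (fun q _ => by
      obtain ⟨j, hj⟩ := mem_iUnion.1 (hcov ▸ mem_univ q)
      exact mem_iUnion.2 ⟨j, hmono (Nat.le_add_left j m) hj⟩)
    (Monotone.directed_le fun i j hij =>
      Subgroup.subgroupOf_mono Q (hmono (Nat.add_le_add_left hij m)))
  have hfwd : ∀ x ∈ P, a x ∈ U := by
    intro x hx
    have h1 : (a ^ (m + k + 1)) x ∈ S (m + k + 1) := ⟨x, hx, rfl⟩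
    have h2 : (a ^ (m + k + 1)) x ∈ S (m + k) :=
      hk (mem_univ (⟨_, le_iSup S _ h1⟩ : Q))
    obtain ⟨z, hz, hzx⟩ := h2
    have h3 : z = a x := by
      apply (a ^ (m + k)).injective
      simpa [pow_succ] using hzx
    have h4 : z ∈ U.map (a ^ 0 : MulAut G).toMonoidHom := (iInf_le _ 0 : P ≤ _) hz
    rw [← h3]
    simpa using h4
  intro x hx
  have hx' : x ∈ (U : Set G) := hx
  rw [h.1, ← hP] at hx'
  obtain ⟨p, hp, q, hq, rfl⟩ := hx'
  obtain ⟨u, hu, rfl⟩ := mem_iInter.1 hq 1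
  simp only [map_mul]
  exact mul_mem (hfwd p hp) (by simpa using hu)

end General

abbrev Γ : Type := FreeGroup Bool

abbrev W (M : ℕ) : Type := RegularWreathProduct (Multiplicative ℚ) (Multiplicative (ZMod M))

noncomputable def ψ (M : ℕ) : Γ →* W M :=
  FreeGroup.lift fun b => match b with
    | true => ⟨1, Multiplicative.ofAdd 1⟩
    | false => ⟨Pi.mulSingle 1 (Multiplicative.ofAdd 1), 1⟩

/-- A subgroup of infinite index cut out by a linear form. -/
def L (M : ℕ) [NeZero M] (c : ZMod M → ℚ) : Subgroup (W M) where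
  carrier := {w | w.right = 1 ∧ ∑ q, c q * (w.left (Multiplicative.ofAdd q)).toAdd = 0}
  one_mem' := by simp
  mul_mem' := by
    rintro a b ⟨ha1, ha2⟩ ⟨hb1, hb2⟩
    refine ⟨by simp [ha1, hb1], ?_⟩
    simp only [RegularWreathProduct.mul_left, ha1, inv_one, one_mul, Pi.mul_apply, toAdd_mul,
      mul_add, Finset.sum_add_distrib, ha2, hb2, add_zero]
  inv_mem' := by
    rintro a ⟨ha1, ha2⟩
    refine ⟨by simp [ha1], ?_⟩
    simp only [RegularWreathProduct.inv_left, ha1, one_mul, Pi.inv_apply, toAdd_inv, mul_neg,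
      Finset.sum_neg_distrib, ha2, neg_zero]

theorem base_zpow {M : ℕ} (f : Multiplicative (ZMod M) → Multiplicative ℚ) (n : ℕ) :
    (⟨f, 1⟩ : W M) ^ n = ⟨f ^ n, 1⟩ := by
  induction n with
  | zero => rw [pow_zero, pow_zero]; rfl
  | succ n ih =>
    rw [pow_succ, ih, RegularWreathProduct.mul_def, pow_succ]
    simp

theorem top_pow {M : ℕ} (q : Multiplicative (ZMod M)) (n : ℕ) :
    (⟨1, q⟩ : W M) ^ n = ⟨1, q ^ n⟩ := by
  induction n with
  | zero => rw [pow_zero, pow_zero]; rfl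
  | succ n ih =>
    rw [pow_succ, ih, RegularWreathProduct.mul_def, pow_succ]
    simp
    rfl

theorem exists_sub (l : List Γ) : ∃ (K : Subgroup Γ) (g : Γ),
    (∀ n : ℕ, 0 < n → g ^ n ∉ K) ∧ ∀ γ ∈ l, ∃ n : ℕ, 0 < n ∧ γ ^ n ∈ K := by
  classical
  let M := l.length + 1
  let F : (ZMod M → ℚ) →ₗ[ℚ] (Fin l.length → ℚ) :=
    { toFun := fun c i => ∑ q, c q * ((ψ M (l.get i ^ M)).left (Multiplicative.ofAdd q)).toAdd
      map_add' := fun c d => by
        funext i
        simp [add_mul, Finset.sum_add_distrib]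
      map_smul' := fun r c => by
        funext i
        simp [Finset.mul_sum, mul_assoc] }
  have hker : LinearMap.ker F ≠ ⊥ := F.ker_ne_bot_of_finrank_lt (by simp [M])
  obtain ⟨c, hc, hc0⟩ := (Submodule.ne_bot_iff _).1 hker
  obtain ⟨j, hj⟩ := Function.ne_iff.1 hc0
  refine ⟨(L M c).comap (ψ M),
    FreeGroup.of true ^ j.val * FreeGroup.of false * (FreeGroup.of true ^ j.val)⁻¹, ?_, ?_⟩
  · intro n hn hmem
    have e : ψ M (FreeGroup.of true ^ j.val * FreeGroup.of false * (FreeGroup.of true ^ j.val)⁻¹) =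
        ⟨Pi.mulSingle (Multiplicative.ofAdd j) (Multiplicative.ofAdd 1), 1⟩ := by
      simp only [map_mul, map_inv, map_pow, ψ, FreeGroup.lift_apply_of, top_pow]
      rw [← ofAdd_nsmul, nsmul_eq_mul, mul_one, ZMod.natCast_zmod_val]
      ext x
      · simp [Pi.mulSingle_apply, inv_mul_eq_one, @eq_comm _ x]
      · simp
    rw [Subgroup.mem_comap, map_pow, e, base_zpow] at hmem
    have h2 := hmem.2
    rw [Finset.sum_eq_single j] at h2
    · simp at h2
      rcases h2 with h2 | h2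
      · exact hj h2
      · omega
    · intro q _ hq
      simp [Pi.mulSingle_apply, hq]
    · simp
  · intro γ hγ
    obtain ⟨i, rfl⟩ := List.get_of_mem hγ
    refine ⟨M, Nat.succ_pos _, ?_, congrFun hc i⟩
    have : (ψ M (l.get i ^ M)).right = RegularWreathProduct.rightHom (ψ M (l.get i)) ^ M := by
      rw [← map_pow, ← map_pow]
      rfl
    rw [this]
    have h1 := pow_card_eq_one (x := RegularWreathProduct.rightHom (ψ M (l.get i)))
    simpa using h1

/-- All transitive `Γ`-sets at once. -/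
def X : Type := Σ K : Subgroup Γ, Γ ⧸ K

instance : MulAction Γ X := inferInstanceAs (MulAction Γ (Σ K : Subgroup Γ, Γ ⧸ K))

def pt (K : Subgroup Γ) : X := ⟨K, ((1 : Γ) : Γ ⧸ K)⟩

theorem smul_pt (K : Subgroup Γ) (g : Γ) : g • pt K = pt K ↔ g ∈ K := by
  change (⟨K, g • ((1 : Γ) : Γ ⧸ K)⟩ : Σ K : Subgroup Γ, Γ ⧸ K) = ⟨K, ((1 : Γ) : Γ ⧸ K)⟩ ↔ _
  rw [Sigma.mk.inj_iff, heq_iff_eq, MulAction.Quotient.smul_coe, QuotientGroup.eq]
  simp

abbrev G : Type := X → Multiplicative (ZMod 2)

noncomputable def ρ : Γ →* MulAut G := mulAutArrow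

theorem ρ_apply (γ : Γ) (f : G) (x : X) : ρ γ f x = f (γ⁻¹ • x) := rfl

theorem ρ_cont (γ : Γ) : Continuous (ρ γ) :=
  continuous_pi fun x => continuous_apply (γ⁻¹ • x)

/-- Functions trivial on a set. -/
def van (S : Set X) : Subgroup G where
  carrier := {f | ∀ y ∈ S, f y = 1}
  one_mem' := fun _ _ => rfl
  mul_mem' := fun ha hb y hy => by simp [ha y hy, hb y hy]
  inv_mem' := fun ha y hy => by simp [ha y hy]

theorem van_open {S : Set X} (hS : S.Finite) : IsOpen (van S : Set G) := by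
  have : (van S : Set G) = ⋂ y ∈ S, (fun f : G => f y) ⁻¹' {1} := by
    ext f
    simp [van]
  rw [this]
  exact hS.isOpen_biInter fun y _ => (isOpen_discrete _).preimage (continuous_apply y)

theorem orbit_finite {γ : Γ} {x : X} {n : ℕ} (hn : 0 < n) (h : γ ^ n • x = x) :
    (MulAction.orbit (Subgroup.zpowers γ) x).Finite := by
  refine ((Set.finite_Ico (0 : ℤ) n).image fun k => γ ^ k • x).subset ?_
  rintro _ ⟨⟨_, k, rfl⟩, rfl⟩
  have hn' : (0 : ℤ) < n := by exact_mod_cast hn
  refine ⟨k % n, ⟨Int.emod_nonneg _ hn'.ne', Int.emod_lt_of_pos _ hn'⟩, ?_⟩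
  have h1 : (γ ^ (n : ℤ)) ^ (k / n) • x = x := by
    rw [zpow_natCast]
    exact MulAction.mem_stabilizer_iff.1 (zpow_mem (MulAction.mem_stabilizer_iff.2 h) _)
  change γ ^ (k % n) • x = γ ^ k • x
  conv_rhs => rw [← Int.emod_add_mul_ediv k n, zpow_add, zpow_mul, mul_smul, h1]

theorem tidy_orbit (γ : Γ) (x : X)
    (hcl : IsClosed (van (MulAction.orbit (Subgroup.zpowers γ) x) : Set G)) :
    Tidy (ρ γ) (van (MulAction.orbit (Subgroup.zpowers γ) x)) := by
  refine tidy_of_inv hcl fun f => ?_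
  constructor
  · intro hf y hy
    have := hf (γ • y) (MulAction.mem_orbit_of_mem_orbit
      (⟨γ, Subgroup.mem_zpowers _⟩ : Subgroup.zpowers γ) hy)
    rw [ρ_apply] at this
    simpa using this
  · intro hf y hy
    exact hf (γ⁻¹ • y) (MulAction.mem_orbit_of_mem_orbit
      (⟨γ⁻¹, inv_mem (Subgroup.mem_zpowers _)⟩ : Subgroup.zpowers γ) hy)

theorem main :
    ¬ (∀ (G : Type) [Group G] [TopologicalSpace G] [IsTopologicalGroup G]
      [LocallyCompactSpace G] [TotallyDisconnectedSpace G]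
      (H : Subgroup (MulAut G)) (tidy : MulAut G → Subgroup G → Prop),
      (∀ (a : MulAut G) (U : Subgroup G), tidy a U ↔
          ((U : Set G) =
              (⋂ n : ℕ, Set.image (⇑(a ^ n)) (U : Set G)) *
                (⋂ n : ℕ, Set.image (⇑(a⁻¹ ^ n)) (U : Set G)) ∧
            IsClosed (⋃ m : ℕ, Set.image (⇑(a ^ m))
                (⋂ n : ℕ, Set.image (⇑(a ^ n)) (U : Set G))))) →
      (∀ a ∈ H, Continuous (⇑a)) →
      H.FG →
      (∃ U : Subgroup G, IsCompact (U : Set G) ∧ IsOpen (U : Set G) ∧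
          ∀ a ∈ H, tidy a U) →
      ∃ l : List (MulAut G), l.Nodup ∧ (∀ a ∈ l, a ∈ H) ∧
        (⋂ (U : Subgroup G)
            (_ : IsCompact (U : Set G) ∧ IsOpen (U : Set G) ∧ ∀ a ∈ H, tidy a U),
            (U : Set G)) =
          (l.map (fun a => ⋂ (U : Subgroup G)
              (_ : IsCompact (U : Set G) ∧ IsOpen (U : Set G) ∧ tidy a U),
              (U : Set G))).prod) := by
  classical
  intro HH
  have hfg : ρ.range.FG := (Group.fg_iff_subgroup_fg _).1 (Group.fg_range ρ)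
  obtain ⟨l, -, hl, heq⟩ := HH G ρ.range Tidy (fun _ _ => Iff.rfl)
    (by rintro _ ⟨γ, rfl⟩; exact ρ_cont γ) hfg
    ⟨⊤, by simpa using isCompact_univ, by simp, fun a _ => tidy_of_inv (by simp) (by simp)⟩
  choose γ hγ using hl
  obtain ⟨K, g, hg, hK⟩ := exists_sub (l.attach.map fun a : {a // a ∈ l} => γ a.1 a.2)
  have hsub : ∀ l' : List (MulAut G), (∀ a ∈ l', a ∈ l) →
      (l'.map (fun a => ⋂ (U : Subgroup G)
        (_ : IsCompact (U : Set G) ∧ IsOpen (U : Set G) ∧ Tidy a U), (U : Set G))).prod ⊆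
        (van {pt K} : Set G) := by
    intro l'
    induction l' with
    | nil =>
      intro _ f hf
      simp only [List.map_nil, List.prod_nil, Set.mem_one] at hf
      rw [hf]
      exact one_mem (van {pt K})
    | cons a l' ih =>
      intro h
      rw [List.map_cons, List.prod_cons]
      rintro _ ⟨f₁, h₁, f₂, h₂, rfl⟩
      refine mul_mem ?_ (ih (fun b hb => h b (List.mem_cons_of_mem _ hb)) h₂)
      have ha := h a List.mem_cons_self
      obtain ⟨n, hn, hmem⟩ := hK (γ a ha) (List.mem_map.2 ⟨⟨a, ha⟩, List.mem_attach _ _, rfl⟩)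
      have hfin := orbit_finite hn ((smul_pt K _).2 hmem)
      have ho := van_open hfin
      have hcl := Subgroup.isClosed_of_isOpen _ ho
      have ht : Tidy a (van (MulAction.orbit (Subgroup.zpowers (γ a ha)) (pt K))) := by
        have := tidy_orbit (γ a ha) (pt K) hcl
        rwa [hγ a ha] at this
      have h3 := mem_iInter₂.1 h₁ _ ⟨hcl.isCompact, ho, ht⟩
      rintro y rfl
      exact h3 _ (MulAction.mem_orbit_self _)
  have hδ : (Pi.mulSingle (pt K) (Multiplicative.ofAdd 1) : G) ∈ (van {pt K} : Set G) := by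
    apply hsub l fun _ h => h
    rw [← heq]
    refine mem_iInter₂.2 fun U hU => ?_
    obtain ⟨S, u, hu, hSU⟩ := isOpen_pi_iff.1 hU.2.1 1 (one_mem U)
    have hinj : Function.Injective fun n : ℕ => g ^ n • pt K := by
      refine Function.Injective.of_lt_imp_ne fun i j hij he => hg (j - i) (by omega) ?_
      rw [← smul_pt]
      have : g ^ j = g ^ i * g ^ (j - i) := by rw [← pow_add]; congr 1; omega
      rw [this, mul_smul] at he
      exact (MulAction.injective _ he).symm
    obtain ⟨_, ⟨n, rfl⟩, hn⟩ := (Set.infinite_range_of_injective hinj).exists_notMem_finset S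
    have h1 : (Pi.mulSingle (g ^ n • pt K) (Multiplicative.ofAdd 1) : G) ∈ U := by
      refine hSU fun y hy => ?_
      rw [Pi.mulSingle_eq_of_ne (by rintro rfl; exact hn hy)]
      exact (hu y hy).2
    have h2 := inv_of_tidy (ρ_cont (g ^ n)⁻¹) (Subgroup.isClosed_of_isOpen _ hU.2.1)
      (hU.2.2 _ ⟨_, rfl⟩) _ h1
    have h3 : ρ (g ^ n)⁻¹ (Pi.mulSingle (g ^ n • pt K) (Multiplicative.ofAdd 1)) =
        Pi.mulSingle (pt K) (Multiplicative.ofAdd 1) := by
      funext y
      rw [ρ_apply, inv_inv]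
      simp [Pi.mulSingle_apply]
    rwa [h3] at h2
  have := hδ _ rfl
  simp at this

end Pool.Agent.H77.NubFlat
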