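import Mathlib

/-! Auxiliary facts: inverses of primitives, a smooth clamp, and the polynomials used. -/

namespace H77.Oj

open Filter Topology Set
open scoped ContDiff

theorem inv_exists (f : ℝ → ℝ) (hf : ContDiff ℝ ∞ f) (c : ℝ) (hc : 0 < c) (h : ∀ u, c ≤ f u) :
    ∃ Y S : ℝ → ℝ, (∀ u, HasDerivAt Y (f u) u) ∧ ContDiff ℝ ∞ S ∧
      (∀ y, HasDerivAt S (f (S y))⁻¹ y) ∧ (∀ u, S (Y u) = u) ∧ ∀ y, Y (S y) = y := by
  set Y : ℝ → ℝ := fun u => ∫ x in (0 : ℝ)..u, f x with hY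
  have d : ∀ u, HasDerivAt Y (f u) u := fun u =>
    (hf.continuous.integral_hasStrictDerivAt 0 u).hasDerivAt
  have dY : deriv Y = f := funext fun u => (d u).deriv
  have cd : ContDiff ℝ ∞ Y := contDiff_infty_iff_deriv.2 ⟨fun u => (d u).differentiableAt, dY ▸ hf⟩
  have sm : StrictMono Y := strictMono_of_deriv_pos fun u => by rw [dY]; linarith [h u]
  have mo : Monotone fun u => Y u - c * u := by
    have k : ∀ u, HasDerivAt (fun u => Y u - c * u) (f u - c * 1) u := fun u =>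
      (d u).sub ((hasDerivAt_id u).const_mul c)
    refine monotone_of_deriv_nonneg (fun u => (k u).differentiableAt) fun u => ?_
    rw [(k u).deriv]
    linarith [h u]
  have su : Function.Surjective Y := by
    refine cd.continuous.surjective ?_ ?_
    · refine tendsto_atTop_mono' _ (f₁ := fun u => c * u + Y 0) ?_
        (tendsto_atTop_add_const_right _ _ (tendsto_id.const_mul_atTop hc))
      filter_upwards [eventually_ge_atTop 0] with u hu
      have := mo hu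
      simp only at this
      linarith
    · refine tendsto_atBot_mono' _ (f₁ := fun u => c * u + Y 0) ?_
        (tendsto_atBot_add_const_right _ _ (tendsto_id.const_mul_atBot hc))
      filter_upwards [eventually_le_atBot 0] with u hu
      have := mo hu
      simp only at this
      linarith
  let e := (sm.orderIsoOfSurjective Y su).toHomeomorph
  have he : (e : ℝ → ℝ) = Y := rfl
  have ne : ∀ u, f u ≠ 0 := fun u => by linarith [h u]
  refine ⟨Y, e.symm, d, e.contDiff_symm_deriv ne d cd, fun y => ?_, e.symm_apply_apply,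
    e.apply_symm_apply⟩
  exact HasDerivAt.of_local_left_inverse e.symm.continuous.continuousAt (d _) (ne _)
    (Eventually.of_forall e.apply_symm_apply)

theorem clamp_exists : ∃ κ : ℝ → ℝ, ContDiff ℝ ∞ κ ∧ (∀ s, |s| < 13 / 10 → κ s = s) ∧
    ∀ s, |κ s| ≤ 3 / 2 := by
  let b : ContDiffBump (0 : ℝ) := ⟨13 / 10, 3 / 2, by norm_num, by norm_num⟩
  refine ⟨fun s => s * b s, contDiff_id.mul b.contDiff, fun s hs => ?_, fun s => ?_⟩
  · have : b s = 1 := b.one_of_mem_closedBall (by simpa [b] using hs.le)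
    simp [this]
  · by_cases hs : 3 / 2 ≤ |s|
    · have : b s = 0 := b.zero_of_le_dist (by simpa [b] using hs)
      simp only [this]; norm_num
    · rw [abs_mul, abs_of_nonneg b.nonneg]
      nlinarith [b.nonneg' s, b.le_one (x := s), abs_nonneg s]

/-- The auxiliary polynomials. -/
noncomputable def m (s : ℝ) : ℝ := 1 / 4 + s ^ 3 / 20
noncomputable def ph (s : ℝ) : ℝ := 5 / 2 - s ^ 2 / 4 - s ^ 5 / 50
noncomputable def A (s : ℝ) : ℝ := 3 / 4 - s / 10 + 3 / 25 * s ^ 3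
noncomputable def F (s : ℝ) : ℝ := 3 - s ^ 2 * A s
noncomputable def W (s : ℝ) : ℝ := A s * (6 - s ^ 2 * A s)
noncomputable def E (s : ℝ) : ℝ := 1 - 4 * m s ^ 2 * (1 - s ^ 2)

theorem cube_bd {s : ℝ} (h : |s| ≤ 3 / 2) : s ^ 2 ≤ 9 / 4 ∧ -(27 / 8) ≤ s ^ 3 ∧ s ^ 3 ≤ 27 / 8 := by
  obtain ⟨h1, h2⟩ := abs_le.1 h
  have : s ^ 2 ≤ 9 / 4 := by nlinarith
  refine ⟨this, ?_, ?_⟩ <;> nlinarith [sq_nonneg s]

theorem m_bd {s : ℝ} (h : |s| ≤ 3 / 2) : 0 < m s ∧ m s ≤ 17 / 40 := by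
  obtain ⟨_, h2, h3⟩ := cube_bd h
  unfold m; constructor <;> linarith

theorem W_bd {s : ℝ} (h : |s| ≤ 3 / 2) : 0 < W s ∧ W s ≤ 9 := by
  obtain ⟨h1, h2, h3⟩ := cube_bd h
  obtain ⟨h4, h5⟩ := abs_le.1 h
  have a1 : 0 < A s := by unfold A; linarith
  have a2 : A s ≤ 4 / 3 := by unfold A; linarith
  have a3 : s ^ 2 * A s ≤ 3 := by nlinarith [sq_nonneg s]
  have a4 : 0 ≤ s ^ 2 * A s := by positivity
  unfold W; constructor <;> nlinarith

theorem E_bd {s : ℝ} (h : |s| ≤ 3 / 2) : 1 / 4 ≤ E s := by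
  obtain ⟨h1, h2⟩ := m_bd h
  have : m s ^ 2 ≤ 3 / 16 := by nlinarith
  unfold E; nlinarith [sq_nonneg s, sq_nonneg (m s), mul_nonneg (sq_nonneg s) (sq_nonneg (m s))]

theorem sqrtW_bd {s : ℝ} (h : |s| ≤ 3 / 2) : 0 < √(W s) ∧ √(W s) ≤ 3 :=
  ⟨Real.sqrt_pos.2 (W_bd h).1, Real.sqrt_le_iff.2 ⟨by norm_num, by linarith [(W_bd h).2]⟩⟩

theorem sq_sum {s : ℝ} (h : |s| ≤ 3 / 2) : (s * √(W s)) ^ 2 + F s ^ 2 = 9 := by
  rw [mul_pow, Real.sq_sqrt (W_bd h).1.le]; unfold W F; ring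

@[fun_prop] theorem cd_m : ContDiff ℝ ∞ m := by unfold m; fun_prop
@[fun_prop] theorem cd_ph : ContDiff ℝ ∞ ph := by unfold ph; fun_prop
@[fun_prop] theorem cd_A : ContDiff ℝ ∞ A := by unfold A; fun_prop
@[fun_prop] theorem cd_F : ContDiff ℝ ∞ F := by unfold F; fun_prop
@[fun_prop] theorem cd_W : ContDiff ℝ ∞ W := by unfold W; fun_prop
@[fun_prop] theorem cd_E : ContDiff ℝ ∞ E := by unfold E; fun_prop

theorem d_ph (s : ℝ) : HasDerivAt ph (-2 * m s * s) s := by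
  have := (((hasDerivAt_pow 2 s).div_const 4).const_sub (5 / 2)).sub
    ((hasDerivAt_pow 5 s).div_const 50)
  refine HasDerivAt.congr_deriv this ?_
  unfold m; norm_num; ring

theorem d_m (s : ℝ) : HasDerivAt m (3 / 20 * s ^ 2) s := by
  have := ((hasDerivAt_pow 3 s).div_const 20).const_add (1 / 4)
  refine HasDerivAt.congr_deriv this ?_
  norm_num; ring

end H77.Oj
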