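import Pool.Agent.H77.OjA

/-! The Lyapunov-type function near the circle. -/

namespace H77.Oj

open Filter Topology Set
open scoped ContDiff

theorem zero_of_periodic {Ψ k : ℝ → ℝ} (h : ∀ t, HasDerivAt Ψ (k t * Ψ t) t) (hk : ∀ t, k t < 0)
    {T : ℝ} (hT : 0 < T) (hp : Function.Periodic Ψ T) (t : ℝ) : Ψ t = 0 := by
  have d : ∀ t, HasDerivAt (fun t => Ψ t ^ 2) (2 * k t * Ψ t ^ 2) t := fun t =>
    HasDerivAt.congr_deriv ((h t).pow 2) (by norm_num; ring)
  have an : Antitone fun t => Ψ t ^ 2 :=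
    antitone_of_deriv_nonpos (fun t => (d t).differentiableAt) fun t => by
      rw [(d t).deriv]; nlinarith [hk t, sq_nonneg (Ψ t)]
  obtain ⟨c, hc, hc0⟩ := exists_hasDerivAt_eq_zero (f := fun t => Ψ t ^ 2) (a := t - T) (b := t)
    (by linarith) (fun x _ => (d x).continuousAt.continuousWithinAt)
    (by simp only [hp.sub_eq t]) fun x _ => d x
  have h1 : Ψ c ^ 2 = 0 := by
    rcases mul_eq_zero.1 hc0 with h | h
    · linarith [hk c]
    · exact h
  have h2 := an hc.2.le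
  simp only [h1] at h2
  exact pow_eq_zero_iff two_ne_zero |>.1 (le_antisymm h2 (sq_nonneg _))

noncomputable def D (s σ : ℝ) : ℝ := 1 - 2 * m s * σ
noncomputable def a (s σ : ℝ) : ℝ := 2 * m s * (1 - s ^ 2) - σ
noncomputable def N (s σ : ℝ) : ℝ := 4 * (3 / 20 * s ^ 2) * σ * a s σ -
  1 / 40 * D s σ * ((3 * s ^ 2 * σ - σ ^ 3) * a s σ + (s ^ 3 - 3 * s * σ ^ 2) * (s * D s σ))

theorem circle_bd {s σ : ℝ} (h : σ ^ 2 + s ^ 2 = 1) :
    |s| < 13 / 10 ∧ |σ + ph s - 5 / 2| < 13 / 10 ∧ 0 < D s σ ∧ D s σ ≤ 2 ∧ N s σ < 0 := by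
  have s1 : |s| ≤ 1 := abs_le_one_iff_mul_self_le_one.2 (by nlinarith [sq_nonneg σ])
  have s2 : |σ| ≤ 1 := abs_le_one_iff_mul_self_le_one.2 (by nlinarith [sq_nonneg s])
  obtain ⟨m1, m2⟩ := m_bd (s := s) (by linarith)
  obtain ⟨s3, s4⟩ := abs_le.1 s2
  have d1 : 0 < D s σ := by unfold D; nlinarith
  have d2 : D s σ ≤ 2 := by unfold D; nlinarith
  have p5 : |s ^ 5| ≤ 1 := by rw [abs_pow]; exact pow_le_one₀ (abs_nonneg _) s1
  obtain ⟨p6, p7⟩ := abs_le.1 p5
  refine ⟨by linarith, ?_, d1, d2, ?_⟩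
  · unfold ph; rw [abs_lt]; constructor <;> nlinarith [sq_nonneg s, sq_nonneg σ]
  · have e : a s σ = -σ * D s σ := by unfold a D; linear_combination (-2 * m s) * h
    have e2 : N s σ = D s σ * (-(3 / 5) * (s * σ) ^ 2 -
        1 / 40 * D s σ * ((σ ^ 2 + s ^ 2) ^ 2 - 8 * (s * σ) ^ 2)) := by
      unfold N; rw [e]; ring
    rw [e2, h]
    refine mul_neg_of_pos_of_neg d1 ?_
    nlinarith [sq_nonneg (s * σ), mul_nonneg (sub_nonneg.2 d2) (sq_nonneg (s * σ))]

theorem on_circle {s σ τ : ℝ → ℝ} (hs : ∀ t, HasDerivAt s (τ t * a (s t) (σ t)) t)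
    (hσ : ∀ t, HasDerivAt σ (τ t * (s t * D (s t) (σ t))) t) (hτ : ∀ t, 0 < τ t)
    (hD : ∀ t, 0 < D (s t) (σ t)) (hN : ∀ t, N (s t) (σ t) < 0) {T : ℝ} (hT : 0 < T)
    (p1 : Function.Periodic s T) (p2 : Function.Periodic σ T) (t : ℝ) :
    σ t ^ 2 + s t ^ 2 = 1 := by
  have key := zero_of_periodic
    (Ψ := fun t => (σ t ^ 2 + s t ^ 2 - 1) / (1 - 2 * m (s t) * σ t) ^ 2 *
      Real.exp (-(1 / 40) * (s t ^ 3 * σ t - s t * σ t ^ 3)))
    (k := fun t => τ t * N (s t) (σ t) / D (s t) (σ t)) (fun t => ?_)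
    (fun t => div_neg_of_neg_of_pos (mul_neg_of_pos_of_neg (hτ t) (hN t)) (hD t)) hT
    (fun t => by simp only [p1 t, p2 t]) t
  · have h1 := (hD t).ne'
    unfold D at h1
    rcases mul_eq_zero.1 key with h | h
    · rcases div_eq_zero_iff.1 h with h | h
      · linarith
      · exact absurd h (pow_ne_zero _ h1)
    · exact absurd h (Real.exp_pos _).ne'
  · have h1 := (hD t).ne'
    have dm := (d_m (s t)).comp t (hs t)
    have dH := (((hσ t).pow 2).add ((hs t).pow 2)).sub_const 1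
    have dD := (((dm.const_mul 2).mul (hσ t)).const_sub 1).pow 2
    have dw := (((((hs t).pow 3).mul (hσ t)).sub ((hs t).mul ((hσ t).pow 3))).const_mul
      (-(1 / 40))).exp
    have := (dH.div dD (pow_ne_zero 2 h1)).mul dw
    refine HasDerivAt.congr_deriv this ?_
    simp only [Pi.add_apply, Pi.pow_apply, Pi.mul_apply, Pi.sub_apply, Pi.div_apply,
      Function.comp_apply]
    unfold N a
    unfold D at *
    generalize Real.exp _ = e
    generalize m (s t) = μ at *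
    norm_num
    field_simp
    ring

theorem orth {r g G : ℝ → ℝ} (hr : Differentiable ℝ r) (hg : Differentiable ℝ g)
    (hG : Differentiable ℝ G) (h : ∀ y, g y ^ 2 + G y ^ 2 = 9) (x y : ℝ) :
    deriv (fun u => g y * r u) x * deriv (fun v => g v * r x) y +
      deriv (fun u => G y * r u - 1) x * deriv (fun v => G v * r x - 1) y = 0 := by
  have a1 := (hr x).hasDerivAt
  have a2 := (hg y).hasDerivAt
  have a3 := (hG y).hasDerivAt
  have b : HasDerivAt (fun y => g y ^ 2 + G y ^ 2) _ y := (a2.pow 2).add (a3.pow 2)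
  rw [funext h] at b
  have b2 := b.unique (hasDerivAt_const y 9)
  rw [(a1.const_mul (g y)).deriv, (a2.mul_const (r x)).deriv,
    ((a1.const_mul (G y)).sub_const 1).deriv, ((a3.mul_const (r x)).sub_const 1).deriv]
  norm_num at b2
  linear_combination (r x * deriv r x / 2) * b2

theorem exists_angle {s σ : ℝ} (h : σ ^ 2 + s ^ 2 = 1) : ∃ θ, Real.cos θ = s ∧ Real.sin θ = σ := by
  have n : ‖(⟨s, σ⟩ : ℂ)‖ = 1 := by
    rw [Complex.norm_eq_sqrt_sq_add_sq]; simp only; rw [add_comm, h, Real.sqrt_one]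
  have z : (⟨s, σ⟩ : ℂ) ≠ 0 := by intro e; rw [e] at n; simp at n
  exact ⟨Complex.arg ⟨s, σ⟩, by rw [Complex.cos_arg z, n]; simp, by rw [Complex.sin_arg, n]; simp⟩

end H77.Oj
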