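import Mathlib

/-! Periodic orbits and limit cycles of a planar vector field. -/

namespace H77.Oj

/-- `γ` is a non-constant periodic integral curve of the field `X`. -/
def IsPeriodicOrbit (X : ℝ × ℝ → ℝ × ℝ) (γ : ℝ → ℝ × ℝ) : Prop :=
  (∀ t, HasDerivAt γ (X (γ t)) t) ∧ (∃ T, 0 < T ∧ Function.Periodic γ T) ∧ ∃ t, γ t ≠ γ 0

/-- `γ` is a limit cycle: a non-constant periodic orbit with an open neighbourhood containing no
other periodic orbit. -/
def IsLimitCycle (X : ℝ × ℝ → ℝ × ℝ) (γ : ℝ → ℝ × ℝ) : Prop :=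
  IsPeriodicOrbit X γ ∧ ∃ U : Set (ℝ × ℝ), IsOpen U ∧ Set.range γ ⊆ U ∧
    ∀ η, IsPeriodicOrbit X η → Set.range η ⊆ U → Set.range η = Set.range γ

end H77.Oj
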