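import Pool.Agent.H77.PGDefs

set_option autoImplicit false

namespace Pool.Agent.H77.PG

open Classical

universe u

noncomputable section

variable {G : Type u} [Group G]

abbrev PL (G : Type u) : Type u := Fin 3 → Option G
abbrev X (G : Type u) : Type u := Fin 3 → G × Bool
abbrev Rl (G : Type u) : Type u := X G → X G → Prop

def On (s : PL G) (x : X G) (t : G × Bool) : Prop := ∀ i g, s i = some g → x i = (g * t.1, t.2)
def R (s s' : PL G) : Rl G := fun x y => ∃ t, On s x t ∧ On s' y t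
def A (k : Fin 3) : Rl G := fun x y => ∀ i, i ≠ k → x i = y i
def Nz (s : PL G) : Prop := ∃ i g, s i = some g
def cp (a b : Rl G) : Rl G := fun x z => ∃ y, a x y ∧ b y z
def Rect (a : Rl G) : Prop := ∀ x y x' y', a x y → a x' y' → a x y'
def Cmp (s u : PL G) : Prop :=
  (∃ i g, s i = some g ∧ u i = some g) ∧ ∀ i g h, s i = some g → u i = some h → g = h
def sc (s : PL G) (k : G) : PL G := fun i => (s i).map (· * k)
def fg (s : PL G) (k : Fin 3) : PL G := fun i => if i = k then none else s i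
def pt (i : Fin 3) (g : G) : PL G := fun j => if j = i then some g else none
def fill (s : PL G) (t : G × Bool) (z : X G) : X G :=
  fun i => (s i).elim (z i) fun g => (g * t.1, t.2)

theorem on_fill (s : PL G) (t : G × Bool) (z : X G) : On s (fill s t z) t := fun i g h => by
  simp [fill, h]

omit [Group G] in
theorem cp_assoc (a b c : Rl G) : cp (cp a b) c = cp a (cp b c) := by
  funext x w
  exact propext ⟨fun ⟨z, ⟨y, h1, h2⟩, h3⟩ => ⟨y, h1, z, h2, h3⟩,
    fun ⟨y, h1, z, h2, h3⟩ => ⟨z, ⟨y, h1, h2⟩, h3⟩⟩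

theorem cp_R {s s' u u' : PL G} (h : Cmp s' u) : cp (R s s') (R u u') = R s u' := by
  funext x w
  refine propext ⟨?_, ?_⟩
  · rintro ⟨y, ⟨t, h1, h2⟩, t', h3, h4⟩
    obtain ⟨i, g, e1, e2⟩ := h.1
    have := (h2 i g e1).symm.trans (h3 i g e2)
    obtain rfl : t = t' := Prod.ext (mul_left_cancel (congrArg Prod.fst this))
      (congrArg Prod.snd this :)
    exact ⟨t, h1, h4⟩
  · rintro ⟨t, h1, h2⟩
    refine ⟨fill s' t (fill u t x), ⟨t, h1, on_fill _ _ _⟩, t, fun i g e => ?_, h2⟩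
    rcases e' : s' i with _ | g'
    · simp [fill, e, e']
    · simp [fill, e', h.2 i g' g e' e]

theorem on_sc (s : PL G) (k : G) (x : X G) (t : G × Bool) :
    On (sc s k) x t ↔ On s x (k * t.1, t.2) := by
  constructor
  · intro h i g e
    rw [h i (g * k) (by simp [sc, e]), mul_assoc]
  · intro h i g e
    simp only [sc, Option.map_eq_some_iff] at e
    obtain ⟨g', e, rfl⟩ := e
    rw [h i g' e, mul_assoc]

theorem R_sc (s s' : PL G) (k : G) : R (sc s k) (sc s' k) = R s s' := by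
  funext x y
  refine propext ⟨fun ⟨t, h1, h2⟩ => ⟨_, (on_sc _ _ _ _).1 h1, (on_sc _ _ _ _).1 h2⟩,
    fun ⟨t, h1, h2⟩ => ⟨(k⁻¹ * t.1, t.2), ?_, ?_⟩⟩ <;> rw [on_sc] <;> simpa

theorem Nz.sc {s : PL G} (h : Nz s) (k : G) : Nz (sc s k) := by
  obtain ⟨i, g, e⟩ := h
  exact ⟨i, g * k, by simp [PG.sc, e]⟩

theorem tri (s s' u u' : PL G) : Rect (cp (R s s') (R u u')) ∨ ∃ k, Cmp s' (sc u k) := by
  by_cases h : ∃ i g g', s' i = some g ∧ u i = some g'
  · obtain ⟨i, g, g', e, e'⟩ := h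
    by_cases h2 : Cmp s' (sc u (g'⁻¹ * g))
    · exact Or.inr ⟨_, h2⟩
    · left
      rintro x y - - ⟨z, ⟨t, -, h3⟩, t', h4, -⟩ -
      refine absurd ⟨⟨i, g, e, by simp [sc, e']⟩, fun j a b e1 e2 => ?_⟩ h2
      simp only [sc, Option.map_eq_some_iff] at e2
      obtain ⟨b', e2, rfl⟩ := e2
      have a1 : g * t.1 = g' * t'.1 := congrArg Prod.fst ((h3 i g e).symm.trans (h4 i g' e'))
      have a2 : a * t.1 = b' * t'.1 := congrArg Prod.fst ((h3 j a e1).symm.trans (h4 j b' e2))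
      refine mul_right_cancel (b := t.1) ?_
      rw [a2, mul_assoc, mul_assoc, a1, inv_mul_cancel_left]
  · left
    rintro x y x' y' ⟨z, ⟨t, h1, -⟩, -⟩ ⟨z', -, t', -, h2⟩
    refine ⟨fill s' t (fill u t' x), ⟨t, h1, on_fill _ _ _⟩, t', fun i g e => ?_, h2⟩
    rcases e' : s' i with _ | g'
    · simp [fill, e, e']
    · exact absurd ⟨i, g', g, e', e⟩ h

theorem cp_AR (k : Fin 3) (s s' : PL G) : cp (A k) (R s s') = R (fg s k) s' := by
  funext x w
  refine propext ⟨?_, ?_⟩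
  · rintro ⟨y, h1, t, h2, h3⟩
    refine ⟨t, fun i g e => ?_, h3⟩
    by_cases hi : i = k
    · simp [fg, hi] at e
    · rw [h1 i hi]
      exact h2 i g (by simpa [fg, hi] using e)
  · rintro ⟨t, h1, h2⟩
    refine ⟨fill s t x, fun i hi => ?_, t, on_fill _ _ _, h2⟩
    rcases e : s i with _ | g
    · simp [fill, e]
    · simp [fill, e, h1 i g (by simp [fg, hi, e])]

theorem flip_R (s s' : PL G) : flip (R s s') = R s' s := by
  funext x y
  exact propext ⟨fun ⟨t, a, b⟩ => ⟨t, b, a⟩, fun ⟨t, a, b⟩ => ⟨t, b, a⟩⟩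

omit [Group G] in
theorem flip_A (k : Fin 3) : flip (A (G := G) k) = A k := by
  funext x y
  exact propext ⟨fun h i hi => (h i hi).symm, fun h i hi => (h i hi).symm⟩

omit [Group G] in
theorem flip_cp (a b : Rl G) : flip (cp a b) = cp (flip b) (flip a) := by
  funext x y
  exact propext ⟨fun ⟨t, a, b⟩ => ⟨t, b, a⟩, fun ⟨t, a, b⟩ => ⟨t, b, a⟩⟩

theorem cp_RA (k : Fin 3) (s s' : PL G) : cp (R s s') (A k) = R s (fg s' k) := by
  have := congrArg flip (cp_AR k s' s)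
  rwa [flip_cp, flip_R, flip_A, flip_R] at this

omit [Group G] in
theorem cp_AA (k : Fin 3) : cp (A (G := G) k) (A k) = A k := by
  funext x y
  exact propext ⟨fun ⟨z, a, b⟩ i hi => (a i hi).trans (b i hi),
    fun h => ⟨y, h, fun _ _ => rfl⟩⟩

theorem cp_AA' {k l : Fin 3} (h : k ≠ l) :
    ∃ m, cp (A (G := G) k) (A l) = R (pt m 1) (pt m 1) := by
  obtain ⟨m, h1, h2, h3⟩ : ∃ m, m ≠ k ∧ m ≠ l ∧ ∀ i, i ≠ k → i ≠ l → i = m := by
    revert k l; decide
  refine ⟨m, ?_⟩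
  funext x y
  refine propext ⟨fun ⟨z, a, b⟩ => ⟨x m, fun i g e => ?_, fun i g e => ?_⟩, ?_⟩
  · by_cases hi : i = m <;> simp [pt, hi] at e
    simp [hi, ← e]
  · by_cases hi : i = m <;> simp [pt, hi] at e
    simp [hi, ← e, a m h1, b m h2]
  · rintro ⟨t, a, b⟩
    refine ⟨fun i => if i = k then y i else x i, fun i hi => by simp [hi], fun i hi => ?_⟩
    by_cases hk : i = k
    · simp [hk]
    · obtain rfl := h3 i hk hi
      simp [hk, a i 1 (by simp [pt]), b i 1 (by simp [pt])]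

theorem not_rect {s s' : PL G} (h : Nz s) (h' : Nz s') : ¬ Rect (R s s') := by
  intro hr
  obtain ⟨i, g, e⟩ := h
  obtain ⟨j, g', e'⟩ := h'
  let z : X G := fun _ => (1, true)
  obtain ⟨t, h1, h2⟩ := hr _ _ _ _ ⟨(1, true), on_fill s _ z, on_fill s' _ z⟩
    ⟨(1, false), on_fill s _ z, on_fill s' _ z⟩
  have a1 := congrArg Prod.snd (h1 i g e)
  have a2 := congrArg Prod.snd (h2 j g' e')
  simp only [fill, e, e', Option.elim] at a1 a2
  exact absurd (a1.trans a2.symm) (by decide)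

theorem rect_of {s : PL G} (s' : PL G) (h : ¬ Nz s) : Rect (R s s') := by
  rintro x y x' y' - ⟨t, -, h2⟩
  exact ⟨t, fun i g e => absurd ⟨i, g, e⟩ h, h2⟩

theorem not_rect_A (k : Fin 3) : ¬ Rect (A (G := G) k) := by
  intro hr
  have := hr (fun _ => (1, true)) (fun _ => (1, true)) (fun _ => (1, false)) (fun _ => (1, false))
    (fun _ _ => rfl) (fun _ _ => rfl) (k + 1) (by clear hr; revert k; decide)
  simp at this

omit [Group G] in
theorem rect_flip {a : Rl G} (h : Rect a) : Rect (flip a) :=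
  fun x y x' y' h1 h2 => h y' x' y x h2 h1

omit [Group G] in
theorem rect_l {a : Rl G} (h : Rect a) (b : Rl G) : Rect (cp a b) :=
  fun _ _ _ _ ⟨_, h1, _⟩ ⟨z', h3, h4⟩ => ⟨z', h _ _ _ _ h1 h3, h4⟩

omit [Group G] in
theorem rect_r (a : Rl G) {b : Rl G} (h : Rect b) : Rect (cp a b) :=
  fun _ _ _ _ ⟨z, h1, h2⟩ ⟨_, _, h4⟩ => ⟨z, h1, h _ _ _ _ h2 h4⟩

omit [Group G] in
theorem rect_bot : Rect (⊥ : Rl G) := fun _ _ _ _ h => h.elim

def rho (a : Rl G) : Rl G := if Rect a then ⊥ else a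

def InS (a : Rl G) : Prop := a = ⊥ ∨ (∃ k, a = A k) ∨ ∃ s s', Nz s ∧ Nz s' ∧ a = R s s'

theorem inS_R (s s' : PL G) : InS (rho (R s s')) := by
  unfold rho
  split_ifs with h
  · exact Or.inl rfl
  · refine Or.inr (Or.inr ⟨s, s', ?_, ?_, rfl⟩)
    · exact by_contra fun h' => h (rect_of _ h')
    · exact by_contra fun h' => h (flip_R s' s ▸ rect_flip (rect_of _ h'))

theorem inS_mul {a b : Rl G} (ha : InS a) (hb : InS b) : InS (rho (cp a b)) := by
  rcases ha with rfl | ⟨k, rfl⟩ | ⟨s, s', h1, h2, rfl⟩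
  · exact Or.inl (if_pos (rect_l rect_bot _))
  · rcases hb with rfl | ⟨l, rfl⟩ | ⟨u, u', h3, h4, rfl⟩
    · exact Or.inl (if_pos (rect_r _ rect_bot))
    · by_cases h : k = l
      · subst h
        rw [cp_AA, rho, if_neg (not_rect_A k)]
        exact Or.inr (Or.inl ⟨k, rfl⟩)
      · obtain ⟨m, hm⟩ := cp_AA' (G := G) h
        rw [hm]
        exact inS_R _ _
    · rw [cp_AR]
      exact inS_R _ _
  · rcases hb with rfl | ⟨l, rfl⟩ | ⟨u, u', h3, h4, rfl⟩
    · exact Or.inl (if_pos (rect_r _ rect_bot))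
    · rw [cp_RA]
      exact inS_R _ _
    · rcases tri s s' u u' with h | ⟨k, h⟩
      · exact Or.inl (if_pos h)
      · rw [← R_sc u u' k, cp_R h]
        exact inS_R _ _

def S (G : Type u) [Group G] : Type u := {a : Rl G // InS a}

instance : Semigroup (S G) where
  mul a b := ⟨rho (cp a.1 b.1), inS_mul a.2 b.2⟩
  mul_assoc a b c := by
    refine Subtype.ext ?_
    change rho (cp (rho (cp a.1 b.1)) c.1) = rho (cp a.1 (rho (cp b.1 c.1)))
    have h1 : rho (cp (rho (cp a.1 b.1)) c.1) = rho (cp (cp a.1 b.1) c.1) := by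
      by_cases h : Rect (cp a.1 b.1)
      · rw [rho, rho, rho, if_pos h, if_pos (rect_l rect_bot _), if_pos (rect_l h _)]
      · rw [rho, rho, rho, if_neg h]
    have h2 : rho (cp a.1 (rho (cp b.1 c.1))) = rho (cp a.1 (cp b.1 c.1)) := by
      by_cases h : Rect (cp b.1 c.1)
      · rw [rho, rho, rho, if_pos h, if_pos (rect_r _ rect_bot), if_pos (rect_r _ h)]
      · rw [rho, rho, rho, if_neg h]
    rw [h1, h2, cp_assoc]

theorem mul_val (a b : S G) : (a * b).1 = rho (cp a.1 b.1) := rfl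

instance : StarMul (S G) where
  star a := ⟨flip a.1, by
    rcases a.2 with h | ⟨k, h⟩ | ⟨s, s', h1, h2, h⟩ <;> rw [h]
    · exact Or.inl rfl
    · exact Or.inr (Or.inl ⟨k, flip_A k⟩)
    · exact Or.inr (Or.inr ⟨s', s, h2, h1, flip_R _ _⟩)⟩
  star_involutive _ := rfl
  star_mul a b := by
    refine Subtype.ext ?_
    change flip (rho (cp a.1 b.1)) = rho (cp (flip b.1) (flip a.1))
    rw [← flip_cp]
    by_cases h : Rect (cp a.1 b.1)
    · rw [rho, rho, if_pos h, if_pos (rect_flip h)]; rfl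
    · have h' : ¬ Rect (flip (cp a.1 b.1)) := fun h' => h (rect_flip h')
      rw [rho, rho, if_neg h, if_neg h']

def z0 : S G := ⟨⊥, Or.inl rfl⟩
def aa (k : Fin 3) : S G := ⟨A k, Or.inr (Or.inl ⟨k, rfl⟩)⟩
def rr (s s' : PL G) : S G := ⟨rho (R s s'), inS_R s s'⟩

theorem rr_val {s s' : PL G} (h : Nz s) (h' : Nz s') : (rr s s').1 = R s s' :=
  if_neg (not_rect h h')

theorem cases_S (a : S G) : a = z0 ∨ (∃ k, a = aa k) ∨ ∃ s s', Nz s ∧ Nz s' ∧ a = rr s s' := by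
  rcases a.2 with h | ⟨k, h⟩ | ⟨s, s', h1, h2, h⟩
  · exact Or.inl (Subtype.ext h)
  · exact Or.inr (Or.inl ⟨k, Subtype.ext h⟩)
  · exact Or.inr (Or.inr ⟨s, s', h1, h2, Subtype.ext (h.trans (rr_val h1 h2).symm)⟩)

theorem z0_mul (a : S G) : z0 * a = z0 := Subtype.ext (if_pos (rect_l rect_bot _))
theorem mul_z0 (a : S G) : a * z0 = z0 := Subtype.ext (if_pos (rect_r _ rect_bot))

omit [Group G] in
theorem Cmp.l {s u : PL G} (h : Cmp s u) : Nz s := let ⟨i, g, e, _⟩ := h.1; ⟨i, g, e⟩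
omit [Group G] in
theorem Cmp.r {s u : PL G} (h : Cmp s u) : Nz u := let ⟨i, g, _, e⟩ := h.1; ⟨i, g, e⟩
omit [Group G] in
theorem Nz.cmp {s : PL G} (h : Nz s) : Cmp s s :=
  ⟨let ⟨i, g, e⟩ := h; ⟨i, g, e, e⟩, fun _ _ _ e e' => Option.some.inj (e.symm.trans e')⟩

theorem rr_mul {s s' u u' : PL G} (h1 : Nz s) (h : Cmp s' u) (h2 : Nz u') :
    rr s s' * rr u u' = rr s u' :=
  Subtype.ext (by rw [mul_val, rr_val h1 h.l, rr_val h.r h2, cp_R h]; rfl)

theorem aa_rr (k : Fin 3) {s s' : PL G} (h1 : Nz s) (h2 : Nz s') :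
    aa k * rr s s' = rr (fg s k) s' :=
  Subtype.ext (by rw [mul_val, rr_val h1 h2]; exact congrArg rho (cp_AR k s s'))

theorem rr_aa (k : Fin 3) {s s' : PL G} (h1 : Nz s) (h2 : Nz s') :
    rr s s' * aa k = rr s (fg s' k) :=
  Subtype.ext (by rw [mul_val, rr_val h1 h2]; exact congrArg rho (cp_RA k s s'))

theorem aa_aa (k : Fin 3) : aa (G := G) k * aa k = aa k :=
  Subtype.ext (by rw [mul_val]; exact (congrArg rho (cp_AA k)).trans (if_neg (not_rect_A k)))

theorem star_aa (k : Fin 3) : star (aa (G := G) k) = aa k := Subtype.ext (flip_A k)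

theorem star_rr {s s' : PL G} (h1 : Nz s) (h2 : Nz s') : star (rr s s') = rr s' s :=
  Subtype.ext (by
    change flip (rr s s').1 = _
    rw [rr_val h1 h2, rr_val h2 h1, flip_R])

theorem rr_sc (s s' : PL G) (k : G) : rr (sc s k) (sc s' k) = rr s s' :=
  Subtype.ext (congrArg rho (R_sc s s' k))

theorem reg (a : S G) : a * star a * a = a := by
  rcases cases_S a with rfl | ⟨k, rfl⟩ | ⟨s, s', h1, h2, rfl⟩
  · exact mul_z0 _
  · rw [star_aa, aa_aa, aa_aa]
  · rw [star_rr h1 h2, rr_mul h1 h2.cmp h1, rr_mul h1 h1.cmp h2]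

theorem rr_ne {s s' : PL G} (h1 : Nz s) (h2 : Nz s') : rr s s' ≠ z0 := fun h => by
  have := congrArg Subtype.val h
  rw [rr_val h1 h2] at this
  exact not_rect h1 h2 (this ▸ rect_bot)

theorem cmp_of {s u : PL G} (h1 : Nz s) (h2 : Nz u) (h : rr s s * rr u u ≠ z0) :
    ∃ k, Cmp s (sc u k) :=
  (tri s s u u).resolve_left fun h' => h (Subtype.ext (by
    rw [mul_val, rr_val h1 h1, rr_val h2 h2]; exact if_pos h'))

theorem nz_of {s s' : PL G} (h : rr s s' ≠ z0) : Nz s ∧ Nz s' :=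
  ⟨by_contra fun h' => h (Subtype.ext (if_pos (rect_of _ h'))),
    by_contra fun h' => h (Subtype.ext (if_pos (flip_R s' s ▸ rect_flip (rect_of _ h'))))⟩

theorem sandwich (p : S G) (hp : p * p = p ∧ star p = p) {s : PL G} (hs : Nz s)
    (h : p * rr s s * p ≠ z0) : ∃ u, Nz u ∧ p * rr s s * p = rr u u := by
  rcases cases_S p with rfl | ⟨k, rfl⟩ | ⟨u, u', h1, h2, rfl⟩
  · exact absurd (mul_z0 _) h
  · have h3 : Nz (fg s k) := (nz_of fun h' => h (by rw [aa_rr k hs hs, h', z0_mul])).1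
    exact ⟨_, h3, by rw [aa_rr k hs hs, rr_aa k h3 hs]⟩
  · have e : rr u u' = rr u u := by
      rw [← hp.1]
      nth_rewrite 2 [← hp.2]
      rw [star_rr h1 h2, rr_mul h1 h2.cmp h1]
    rw [e] at h ⊢
    obtain ⟨k, hk⟩ := cmp_of h1 hs fun h' => h (by rw [h', z0_mul])
    refine ⟨u, h1, ?_⟩
    rw [← rr_sc s s k, rr_mul h1 hk hk.r, rr_mul h1 ⟨?_, ?_⟩ h1]
    · exact let ⟨i, g, e, e'⟩ := hk.1; ⟨i, g, e', e⟩
    · exact fun i g h e e' => (hk.2 i h g e' e).symm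

theorem rr_inj {g g' : G} (h : rr (pt 0 1) (pt 0 g) = rr (pt 0 1) (pt 0 g')) : g = g' := by
  have n : ∀ g : G, Nz (pt 0 g) := fun g => ⟨0, g, rfl⟩
  have := congrArg Subtype.val h
  rw [rr_val (n _) (n _), rr_val (n _) (n _)] at this
  let z : X G := fun _ => (1, true)
  have h1 : R (pt 0 1) (pt 0 g) (fill (pt 0 1) (1, true) z) (fill (pt 0 g) (1, true) z) :=
    ⟨_, on_fill _ _ _, on_fill _ _ _⟩
  rw [this] at h1
  obtain ⟨t, h2, h3⟩ := h1
  have a1 := congrArg Prod.fst (h2 0 1 rfl)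
  have a2 := congrArg Prod.fst (h3 0 g' rfl)
  simp [fill, pt] at a1 a2
  rw [a2, ← a1, mul_one]

end

end Pool.Agent.H77.PG
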