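import Pool.Agent.H77.PG1

set_option autoImplicit false

namespace Pool.Agent.H77.PG

open Classical

universe u

noncomputable section

section Gen

variable {T : Type u} [Mul T] [Star T]

instance : Semigroup (PGS T) := (conGen (PGRel T)).semigroup

def xx (p : Proj T) : PGS T := (conGen (PGRel T)).mkMulHom (.of p)

theorem rel_eq {a b : FreeSemigroup (Proj T)} (h : PGRel T a b) :
    (conGen (PGRel T)).mkMulHom a = (conGen (PGRel T)).mkMulHom b :=
  (Con.eq _).2 (ConGen.Rel.of _ _ h)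

theorem x_idem (p : Proj T) : xx p * xx p = xx p := rel_eq (.idem p)
theorem x_sq (p q : Proj T) : xx p * xx q * (xx p * xx q) = xx p * xx q := rel_eq (.sq p q)
theorem x_conj (p q r : Proj T) (h : r.1 = p.1 * q.1 * p.1) : xx p * xx q * xx p = xx r :=
  rel_eq (.conj p q r h)

theorem x_ind {P : PGS T → Prop} (h1 : ∀ p, P (xx p)) (h2 : ∀ y p, P y → P (y * xx p))
    (y : PGS T) : P y := by
  have key : ∀ w : FreeSemigroup (Proj T), ∀ y, P y → P (y * (conGen (PGRel T)).mkMulHom w) := by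
    intro w
    induction w with
    | ih1 p => exact fun y hy => h2 y p hy
    | ih2 p w h h' =>
      intro y hy
      rw [map_mul, ← mul_assoc]
      exact h' _ (h y hy)
  induction y using Con.induction_on with
  | H w =>
    induction w with
    | ih1 p => exact h1 p
    | ih2 p w _ _ => exact key w _ (h1 p)

theorem x_absorb (p q r : Proj T) (h : r.1 = p.1 * q.1 * p.1) : xx q * xx p = xx q * xx r := by
  have := x_sq q p
  rw [← x_conj p q r h]
  simp only [mul_assoc] at this ⊢
  exact this.symm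

theorem x_absorb' (p q r : Proj T) (h : r.1 = p.1 * q.1 * p.1) : xx p * xx q = xx r * xx q := by
  have := x_sq p q
  rw [← x_conj p q r h]
  simp only [mul_assoc] at this ⊢
  exact this.symm

theorem x_le (p q : Proj T) (h : q.1 = p.1 * q.1 * p.1) : xx q * xx p = xx q := by
  rw [x_absorb p q q h, x_idem]

theorem x_le' (p q : Proj T) (h : q.1 = p.1 * q.1 * p.1) : xx p * xx q = xx q := by
  rw [x_absorb' p q q h, x_idem]

end Gen

variable {G : Type u} [Group G]

theorem proj_sq (p q : Proj (S G)) : p.1 * q.1 * (p.1 * q.1) = p.1 * q.1 := by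
  have h := reg (p.1 * q.1)
  rw [star_mul, p.2.2, q.2.2] at h
  have e : p.1 * q.1 * (q.1 * p.1) * (p.1 * q.1) = p.1 * (q.1 * q.1) * ((p.1 * p.1) * q.1) := by
    simp only [mul_assoc]
  rwa [e, p.2.1, q.2.1] at h

def lf : FreeSemigroup (Proj (S G)) →ₙ* S G := FreeSemigroup.lift fun p : Proj (S G) => p.1

theorem lf_of (p : Proj (S G)) : lf (.of p) = p.1 := rfl

def piH : PGS (S G) →ₙ* S G where
  toFun := Quotient.lift lf fun a b h => by
    have : conGen (PGRel (S G)) ≤ Con.ker lf := by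
      refine Con.conGen_le.2 fun a b h => (Con.ker_rel _).2 ?_
      cases h with
      | idem p => simpa only [map_mul, lf_of] using p.2.1
      | sq p q => simpa only [map_mul, lf_of] using proj_sq p q
      | conj p q r h => simpa only [map_mul, lf_of] using h.symm
    exact this h
  map_mul' a b := Con.induction_on₂ a b fun a b => map_mul lf a b

theorem piH_x (p : Proj (S G)) : piH (xx p) = p.1 := rfl

def pj (s : PL G) : Proj (S G) := ⟨rr s s, by
  by_cases h : Nz s
  · exact ⟨rr_mul h h.cmp h, star_rr h h⟩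
  · have : rr s s = z0 := by_contra fun h' => h (nz_of h').1
    rw [this]
    exact ⟨z0_mul _, rfl⟩⟩

def pa (k : Fin 3) : Proj (S G) := ⟨aa k, aa_aa k, star_aa k⟩

def xs (s : PL G) : PGS (S G) := xx (pj s)

omit [Group G] in
theorem fg_none {s : PL G} {k : Fin 3} (h : s k = none) : fg s k = s := funext fun i => by
  by_cases hi : i = k <;> simp [fg, hi, h]

theorem conj_A (k : Fin 3) {s : PL G} (h : Nz s) (h' : Nz (fg s k)) :
    (pj (fg s k)).1 = (pa k).1 * (pj s).1 * (pa k).1 := by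
  change rr _ _ = aa k * rr s s * aa k
  rw [aa_rr k h h, rr_aa k h' h]

theorem xs_A {u : PL G} {k : Fin 3} (hu : Nz u) (h : u k = none) : xs u * xx (pa k) = xs u :=
  x_le _ _ (by rw [← conj_A k hu (by rwa [fg_none h]), fg_none h])

theorem A_xs {u : PL G} {k : Fin 3} (hu : Nz u) (h : u k = none) : xx (pa k) * xs u = xs u :=
  x_le' _ _ (by rw [← conj_A k hu (by rwa [fg_none h]), fg_none h])

theorem forget {u v : PL G} {k : Fin 3} (hu : Nz u) (h : u k = none) (hv : Nz v)
    (hv' : Nz (fg v k)) : xs u * xs v = xs u * (xs (fg v k) * xs v) := by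
  have := x_absorb' (pa k) (pj v) (pj (fg v k)) (conj_A k hv hv')
  rw [xs, xs, xs, ← this, ← mul_assoc]
  exact congrArg (· * _) (xs_A hu h).symm

theorem forget' {u v : PL G} {k : Fin 3} (hu : Nz u) (h : u k = none) (hv : Nz v)
    (hv' : Nz (fg v k)) : xs v * xs u = xs v * xs (fg v k) * xs u := by
  have := x_absorb (pa k) (pj v) (pj (fg v k)) (conj_A k hv hv')
  rw [xs, xs, xs, ← this, mul_assoc]
  exact congrArg (_ * ·) (A_xs hu h).symm

omit [Group G] in
theorem nz_pt (i : Fin 3) (g : G) : Nz (pt i g) := ⟨i, g, by simp [pt]⟩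

theorem sc_pt (i : Fin 3) (g h : G) : sc (pt i g) h = pt i (g * h) := funext fun j => by
  by_cases hj : j = i <;> simp [sc, pt, hj]

omit [Group G] in
theorem cmp_pt {s : PL G} {i : Fin 3} {g : G} (h : s i = some g) : Cmp s (pt i g) :=
  ⟨⟨i, g, h, by simp [pt]⟩, fun j a b e e' => by
    by_cases hj : j = i <;> simp [pt, hj] at e'
    rw [hj, h] at e
    exact (Option.some.inj e).symm.trans e'⟩

omit [Group G] in
theorem Cmp.symm {s u : PL G} (h : Cmp s u) : Cmp u s :=
  ⟨let ⟨i, g, e, e'⟩ := h.1; ⟨i, g, e', e⟩, fun i g k e e' => (h.2 i k g e' e).symm⟩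

theorem xs_sc (s : PL G) (k : G) : xs (sc s k) = xs s :=
  congrArg xx (Subtype.ext (rr_sc s s k))

def xa (i : Fin 3) : PGS (S G) := xs (pt i 1)

theorem xs_pt (i : Fin 3) (g : G) : xs (pt i g) = xa i := by
  rw [xa, ← xs_sc (pt i 1) g, sc_pt, one_mul]

theorem xs_conj {s u : PL G} (h : Cmp s u) : xs s * xs u * xs s = xs s :=
  x_conj _ _ _ (by
    change rr s s = rr s s * rr u u * rr s s
    rw [rr_mul h.l h h.r, rr_mul h.l h.symm h.l])

theorem triang {i : Fin 3} {g : G} (K : Finset (Fin 3)) : ∀ s u : PL G, s i = some g →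
    u i = some g → Cmp s u → (∀ k ∉ K, s k = u k) → xs s * (xa i * xs u) = xs s * xs u := by
  induction K using Finset.induction_on with
  | empty =>
    intro s u h1 _ _ h
    obtain rfl : s = u := funext fun k => h k (by simp)
    rw [← mul_assoc, ← xs_pt i g, xs_conj (cmp_pt h1)]
    exact (x_idem _).symm
  | insert k K _ ih =>
    intro s u h1 h2 hc h
    by_cases e : s k = u k
    · refine ih s u h1 h2 hc fun j hj => ?_
      by_cases hjk : j = k
      · rw [hjk, e]
      · exact h j (by simp [hj, hjk])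
    have hik : i ≠ k := by
      rintro rfl
      exact e (h1.trans h2.symm)
    have hp : pt i (1 : G) k = none := by simp [pt, hik.symm]
    rcases e1 : s k with _ | a
    · have h3 : fg u k i = some g := by simp [fg, hik, h2]
      have := ih s (fg u k) h1 h3 ⟨⟨i, g, h1, h3⟩, fun j a b e2 e3 => hc.2 j a b e2 (by
        by_cases hj : j = k <;> simp_all [fg])⟩ fun j hj => by
          by_cases hjk : j = k
          · simp [fg, hjk, e1]
          · simp [fg, hjk, h j (by simp [hj, hjk])]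
      rw [forget hc.l e1 hc.r ⟨i, g, h3⟩, xa, forget (nz_pt i 1) hp hc.r ⟨i, g, h3⟩,
        ← mul_assoc (xs s) (xs (fg u k)), ← this, xa]
      simp only [mul_assoc]
    · rcases e2 : u k with _ | b
      · have h3 : fg s k i = some g := by simp [fg, hik, h1]
        have := ih (fg s k) u h3 h2 ⟨⟨i, g, h3, h2⟩, fun j a b e2 e3 => hc.2 j a b (by
          by_cases hj : j = k <;> simp_all [fg]) e3⟩ fun j hj => by
            by_cases hjk : j = k
            · simp [fg, hjk, e2]
            · simp [fg, hjk, h j (by simp [hj, hjk])]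
        rw [forget' hc.r e2 hc.l ⟨i, g, h3⟩, ← mul_assoc, xa,
          forget' (nz_pt i 1) hp hc.l ⟨i, g, h3⟩, mul_assoc (xs s) (xs (fg s k)) (xs u), ← this, xa]
        simp only [mul_assoc]
      · exact absurd (by rw [e1, e2, hc.2 k a b e1 e2]) e

def two (i j : Fin 3) (g : G) : PL G := fun k => if k = i then some 1 else if k = j then some g else none

def t0 (i j : Fin 3) (g : G) : PGS (S G) := xa i * (xs (two i j g) * xa j)

theorem T_two {s : PL G} {i j : Fin 3} {a b : G} (hij : i ≠ j) (h1 : s i = some a)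
    (h2 : s j = some b) : xa i * (xs s * xa j) = t0 i j (b * a⁻¹) := by
  obtain ⟨k, hi, hj, h3⟩ : ∃ k, k ≠ i ∧ k ≠ j ∧ ∀ l, l ≠ i → l ≠ j → l = k := by
    clear h1 h2; revert i j; decide
  have e : fg s k = sc (two i j (b * a⁻¹)) a := funext fun l => by
    by_cases e1 : l = i
    · simp [fg, sc, two, e1, hi.symm, h1]
    · by_cases e2 : l = j
      · simp [fg, sc, two, e2, hj.symm, hij.symm, h2]
      · simp [fg, sc, two, h3 l e1 e2, hi, hj]
  have n1 : Nz s := ⟨i, a, h1⟩
  have n2 : Nz (fg s k) := ⟨i, a, by simp [fg, hi.symm, h1]⟩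
  have c := x_conj (pa k) (pj s) (pj (fg s k)) (conj_A k n1 n2)
  rw [t0, ← xs_sc (two i j _) a, ← e, xs, xs, ← c]
  conv_lhs => rw [xa, ← xs_A (k := k) (nz_pt i 1) (by simp [pt, hi]), xa,
    ← A_xs (k := k) (nz_pt j 1) (by simp [pt, hj])]
  simp only [mul_assoc, xa]

theorem xa_idem (i : Fin 3) : xa (G := G) i * xa i = xa i := x_idem _

theorem T_mul {s : PL G} {i j k : Fin 3} {b : G} (h2 : s j = some b) :
    xa i * (xs s * xa j) * (xa j * (xs s * xa k)) = xa i * (xs s * xa k) := by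
  have := xs_conj (cmp_pt h2)
  rw [xs_pt] at this
  conv_rhs => rw [← this]
  simp only [mul_assoc]
  rw [← mul_assoc (xa j) (xa j), xa_idem]

theorem t0_mul {i j k : Fin 3} (hij : i ≠ j) (hjk : j ≠ k) (hik : i ≠ k) (g h : G) :
    t0 i j g * t0 j k h = t0 i k (h * g) := by
  let s : PL G := fun l => if l = i then some 1 else if l = j then some g else some (h * g)
  have a1 : s i = some 1 := by simp [s]
  have a2 : s j = some g := by simp [s, hij.symm]
  have a3 : s k = some (h * g) := by simp [s, hik.symm, hjk.symm]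
  have := T_mul (i := i) (k := k) a2
  rw [T_two hij a1 a2, T_two hjk a2 a3, T_two hik a1 a3] at this
  simpa using this

theorem T_self {s : PL G} {i : Fin 3} {a : G} (h : s i = some a) : xa i * (xs s * xa i) = xa i := by
  have := xs_conj (cmp_pt h).symm
  rwa [xs_pt, mul_assoc] at this

theorem t0_inv {i j : Fin 3} (hij : i ≠ j) : t0 i j (1 : G) * t0 j i 1 = xa i := by
  have a1 : two i j (1 : G) i = some 1 := by simp [two]
  have a2 : two i j (1 : G) j = some 1 := by simp [two, hij.symm]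
  have := T_mul (i := i) (k := i) a2
  rw [T_two hij a1 a2, T_two hij.symm a2 a1, T_self a1] at this
  simpa using this

def tt (i j : Fin 3) (g : G) : PGS (S G) :=
  if i = j then t0 i (i + 1) g * t0 (i + 1) i 1 else t0 i j g

theorem third {i j : Fin 3} (h : i ≠ j) : ∃ k, k ≠ i ∧ k ≠ j ∧ (i + 1 = j ∨ i + 1 = k) := by
  revert i j; decide

theorem t0_back {i j : Fin 3} (hij : i ≠ j) (g h : G) : t0 i j g * t0 j i h = tt i i (h * g) := by
  obtain ⟨k, hi, hj, h3⟩ := third hij
  have key : ∀ g h : G, t0 i j g * t0 j i h = t0 i k (h * g) * t0 k i 1 := fun g h => by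
    rw [← t0_mul hij hj.symm hi.symm, mul_assoc, t0_mul hj.symm hi hij.symm, one_mul]
  rw [tt, if_pos rfl]
  rcases h3 with h3 | h3 <;> rw [h3]
  · rw [key, key, one_mul]
  · exact key g h

theorem tt_ne {i j : Fin 3} (h : i ≠ j) (g : G) : tt i j g = t0 i j g := if_neg h

theorem tt_mul (i j k : Fin 3) (g h : G) : tt i j g * tt j k h = tt i k (h * g) := by
  have l1 : ∀ {i j : Fin 3}, i ≠ j → ∀ g h : G, tt i i g * t0 i j h = t0 i j (h * g) := by
    intro i j hij g h
    obtain ⟨k, hi, hj, -⟩ := third hij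
    have := t0_back hi.symm g 1
    rw [one_mul] at this
    rw [← this, mul_assoc, t0_mul hi hij hj, t0_mul hi.symm hj hij, mul_one]
  by_cases hij : i = j
  · subst hij
    by_cases hik : i = k
    · subst hik
      have h1 : i ≠ i + 1 := by revert i; decide
      have := t0_back h1 h 1
      rw [one_mul] at this
      rw [← this, ← mul_assoc, l1 h1, t0_back h1, one_mul]
    · rw [tt_ne hik, tt_ne hik, l1 hik]
  · by_cases hjk : j = k
    · subst hjk
      obtain ⟨k, hi, hj, -⟩ := third hij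
      have := t0_back hj.symm h 1
      rw [one_mul] at this
      rw [tt_ne hij, tt_ne hij, ← this, ← mul_assoc, t0_mul hij hj.symm hi.symm,
        t0_mul hi.symm hj hij, one_mul]
    · by_cases hik : i = k
      · subst hik
        rw [tt_ne hij, tt_ne hjk, t0_back hij]
      · rw [tt_ne hij, tt_ne hjk, tt_ne hik, t0_mul hij hjk hik]

theorem tt_one (i : Fin 3) : tt i i (1 : G) = xa i := by
  rw [tt, if_pos rfl, t0_inv (by revert i; decide)]

theorem T_tt {s : PL G} {i j : Fin 3} {a b : G} (h1 : s i = some a) (h2 : s j = some b) :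
    xa i * (xs s * xa j) = tt i j (b * a⁻¹) := by
  by_cases hij : i = j
  · subst hij
    obtain rfl : a = b := Option.some.inj (h1.symm.trans h2)
    rw [T_self h1, mul_inv_cancel, tt_one]
  · rw [T_two hij h1 h2, tt_ne hij]

theorem tt_xa (i j : Fin 3) (g : G) : tt i j g * xa j = tt i j g := by
  rw [← tt_one, tt_mul, one_mul]

theorem step {j : Fin 3} {g a : G} {s u : PL G} (h : s j = some a) (hu : Nz u)
    (h0 : rr s s * rr u u ≠ z0) : ∃ i g' b, u i = some b ∧ s i ≠ none ∧
      tt 0 j g * xs s * xs u = tt 0 i g' * xs u := by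
  obtain ⟨k, hk⟩ := cmp_of ⟨j, a, h⟩ hu h0
  obtain ⟨i, c, e1, e2⟩ := hk.1
  have := triang Finset.univ s _ e1 e2 hk (by simp)
  rw [xs_sc] at this
  simp only [sc, Option.map_eq_some_iff] at e2
  obtain ⟨b, e2, -⟩ := e2
  refine ⟨i, c * a⁻¹ * g, b, e2, by simp [e1], ?_⟩
  rw [mul_assoc, ← this, ← tt_xa, ← tt_mul 0 j i, ← T_tt h e1]
  simp only [mul_assoc]

theorem nf (y : PGS (S G)) : piH (xa 0 * y) ≠ z0 →
    ∃ j g a s, s j = some a ∧ xa 0 * y = tt 0 j g * xs s := by
  have key : ∀ (w : PGS (S G)) (p : Proj (S G)), (∃ j g a s, s j = some a ∧ w = tt 0 j g * xs s) →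
      piH (w * xx p) ≠ z0 → ∃ j g a s, s j = some a ∧ w * xx p = tt 0 j g * xs s := by
    rintro _ p ⟨j, g, a, s, h1, rfl⟩ h0
    have hs : Nz s := ⟨j, a, h1⟩
    have n1 : rr s s * p.1 ≠ z0 := fun h => h0 (by
      rw [mul_assoc, map_mul, map_mul, xs, piH_x, piH_x]
      exact (congrArg (_ * ·) h).trans (mul_z0 _))
    have sq : rr s s * (p.1 * rr s s * p.1) = rr s s * p.1 := by
      have := proj_sq (pj s) p
      simp only [mul_assoc] at this ⊢
      exact this
    obtain ⟨u, hu, e⟩ := sandwich p.1 p.2 hs fun h => n1 (by rw [← sq, h, mul_z0])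
    obtain ⟨i, g', b, e1, -, e2⟩ := step (g := g) h1 hu (by rwa [← e, sq])
    refine ⟨i, g', b, u, e1, ?_⟩
    rw [← e2, mul_assoc, mul_assoc]
    exact congrArg (_ * ·) (x_absorb p (pj s) (pj u) e.symm)
  induction y using x_ind with
  | h1 p => exact key _ p ⟨0, 1, 1, pt 0 1, rfl, by rw [tt_one]; exact (xa_idem 0).symm⟩
  | h2 y p ih =>
    intro h
    rw [← mul_assoc] at h ⊢
    exact key _ p (ih fun h' => h (by rw [map_mul, h', z0_mul])) h

theorem piH_t0 {i j : Fin 3} (hij : i ≠ j) (g : G) : piH (t0 i j g) = rr (pt i 1) (pt j g) := by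
  have a1 : two i j g i = some 1 := by simp [two]
  have a2 : two i j g j = some g := by simp [two, hij.symm]
  rw [t0, ← xs_pt j g, map_mul, map_mul]
  change rr _ _ * (rr _ _ * rr _ _) = _
  rw [rr_mul ⟨i, 1, a1⟩ (cmp_pt a2) (nz_pt _ _), rr_mul (nz_pt _ _) (cmp_pt a1).symm (nz_pt _ _)]

theorem piH_tt (g : G) : piH (tt 0 0 g) = rr (pt 0 1) (pt 0 g) := by
  rw [tt, if_pos rfl, map_mul, piH_t0 (by decide), piH_t0 (by decide), ← rr_sc (pt (0 + 1) 1) _ g,
    sc_pt, sc_pt, one_mul, rr_mul (nz_pt _ _) (nz_pt _ _).cmp (nz_pt _ _)]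

def phi : G →ₙ* PGS (S G) where
  toFun g := tt 0 0 g⁻¹
  map_mul' g h := by rw [tt_mul, mul_inv_rev]

theorem main (G : Type u) [Group G] : ∃ (T : Type u) (_ : Semigroup T) (_ : StarMul T),
    (∀ a : T, a * star a * a = a) ∧ ∃ (e : PGS T) (φ : G →ₙ* PGS T), e * e = e ∧
      Function.Injective φ ∧ ∀ a, a ∈ Set.range φ ↔ HRel a e := by
  refine ⟨S G, inferInstance, inferInstance, reg, xa 0, phi, xa_idem 0, fun g h e => ?_,
    fun a => ⟨?_, ?_⟩⟩
  · have := congrArg piH e
    change piH (tt 0 0 g⁻¹) = piH (tt 0 0 h⁻¹) at this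
    rw [piH_tt, piH_tt] at this
    exact inv_injective (rr_inj this)
  · rintro ⟨g, rfl⟩
    change HRel (tt 0 0 g⁻¹) _
    rw [← tt_one]
    exact ⟨Or.inr ⟨tt 0 0 g⁻¹, by rw [tt_mul, mul_one]⟩,
      Or.inr ⟨tt 0 0 g, by rw [tt_mul, mul_inv_cancel]⟩,
      Or.inr ⟨tt 0 0 g⁻¹, by rw [tt_mul, one_mul]⟩,
      Or.inr ⟨tt 0 0 g, by rw [tt_mul, inv_mul_cancel]⟩⟩
  · rintro ⟨h1, h2, h3, -⟩
    have e1 : xa 0 * a = a := by
      rcases h1 with rfl | ⟨u, rfl⟩
      · exact xa_idem 0
      · rw [← mul_assoc, xa_idem]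
    have e2 : a * xa 0 = a := by
      rcases h3 with rfl | ⟨u, rfl⟩
      · exact xa_idem 0
      · rw [mul_assoc, xa_idem]
    have n0 : piH (xa (G := G) 0) ≠ z0 := rr_ne (nz_pt _ _) (nz_pt _ _)
    have n1 : piH a ≠ z0 := by
      rcases h2 with h | ⟨u, h⟩
      · rwa [← h]
      · exact fun h' => n0 (by rw [h, map_mul, h', z0_mul])
    obtain ⟨j, g, b, s, h4, h5⟩ := nf a (by rwa [e1])
    rw [e1] at h5
    obtain ⟨i, g', c, h6, -, h7⟩ := step (g := g) h4 (nz_pt 0 1) fun h => n1 (by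
      rw [← e2, h5, mul_assoc, map_mul, map_mul]
      exact (congrArg (_ * ·) h).trans (mul_z0 _))
    obtain rfl : i = 0 := by
      by_contra hi
      simp [pt, hi] at h6
    refine ⟨g'⁻¹, ?_⟩
    change tt 0 0 g'⁻¹⁻¹ = a
    rw [inv_inv, ← e2, h5, ← tt_xa]
    exact h7.symm

end

end Pool.Agent.H77.PG
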