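import Mathlib

set_option autoImplicit false

namespace Pool.Agent.H77.PG

universe u

/-- Projections of a `*`-semigroup. -/
def Proj (S : Type u) [Mul S] [Star S] : Type u := {p : S // p * p = p ∧ star p = p}

/-- The defining relations of the free projection-generated regular `*`-semigroup. -/
inductive PGRel (S : Type u) [Mul S] [Star S] :
    FreeSemigroup (Proj S) → FreeSemigroup (Proj S) → Prop
  | idem (p : Proj S) : PGRel S (.of p * .of p) (.of p)
  | sq (p q : Proj S) : PGRel S (.of p * .of q * (.of p * .of q)) (.of p * .of q)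
  | conj (p q r : Proj S) : r.1 = p.1 * q.1 * p.1 → PGRel S (.of p * .of q * .of p) (.of r)

/-- The semigroup `PG(P(S))`, given by its presentation. -/
abbrev PGS (S : Type u) [Mul S] [Star S] : Type u := (conGen (PGRel S)).Quotient

/-- Green's relation `H`. -/
def HRel {T : Type u} [Mul T] (a b : T) : Prop :=
  (a = b ∨ ∃ u, a = b * u) ∧ (b = a ∨ ∃ u, b = a * u) ∧
    (a = b ∨ ∃ u, a = u * b) ∧ (b = a ∨ ∃ u, b = u * a)

end Pool.Agent.H77.PG
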