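import Mathlib

set_option autoImplicit false
open scoped Topology Pointwise

namespace Pool.Agent.H77.Para

/-- Every locally finite family of nonempty open sets is finite. -/
def Pseudocompact (X : Type) [TopologicalSpace X] : Prop :=
  ∀ 𝒰 : Set (Set X), (∀ U ∈ 𝒰, IsOpen U ∧ U.Nonempty) →
    LocallyFinite (fun U : 𝒰 => (U : Set X)) → 𝒰.Finite

/-- There is a dense set `D` each infinite subset of which has an accumulation point. -/
def CountablyPracompact (X : Type) [TopologicalSpace X] : Prop :=
  ∃ D : Set X, Dense D ∧ ∀ B ⊆ D, B.Infinite → ∃ p : X, ∀ U ∈ 𝓝 p, (U ∩ B).Infinite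

/-- Every neighbourhood of the unit contains a positive power of each element. -/
def TopologicallyPeriodic (G : Type) [Group G] [TopologicalSpace G] : Prop :=
  ∀ x : G, ∀ U ∈ 𝓝 (1 : G), ∃ n : ℕ, 1 ≤ n ∧ x ^ n ∈ U

/-- Countably many left translates of each neighbourhood of the unit cover the group. -/
def LeftOmegaPrecompact (G : Type) [Group G] [TopologicalSpace G] : Prop :=
  ∀ U ∈ 𝓝 (1 : G), ∃ F : Set G, F.Countable ∧ F * U = Set.univ

end Pool.Agent.H77.Para
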