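import Pool.Agent.H77.ParaDefs

set_option autoImplicit false
open scoped Topology Pointwise
open Polynomial

namespace Pool.Agent.H77.Para

lemma CountablyPracompact.pseudocompact {X : Type} [TopologicalSpace X]
    (h : CountablyPracompact X) : Pseudocompact X := by
  obtain ⟨D, hD, hacc⟩ := h
  intro 𝒰 hU hlf
  by_contra hinf
  have : ∀ U : 𝒰, ∃ x ∈ D, x ∈ (U : Set X) := fun U =>
    hD.exists_mem_open (hU U U.2).1 (hU U U.2).2
  choose f hfD hfU using this
  haveI : Infinite 𝒰 := Set.infinite_coe_iff.2 hinf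
  by_cases hr : (Set.range f).Finite
  · haveI := hr.to_subtype
    obtain ⟨y, hy⟩ := Finite.exists_infinite_fiber (Set.rangeFactorization f)
    have h1 := hlf.point_finite (y : X)
    apply (Set.infinite_coe_iff.1 hy)
    apply h1.subset
    intro U hU'
    have : f U = y := congrArg Subtype.val hU'
    exact this ▸ hfU U
  · obtain ⟨p, hp⟩ := hacc (Set.range f) (by rintro _ ⟨U, rfl⟩; exact hfD U) hr
    obtain ⟨N, hN, hfin⟩ := hlf p
    apply hp N hN
    apply (hfin.image f).subset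
    rintro _ ⟨hx, U, rfl⟩
    exact ⟨U, ⟨f U, hfU U, hx⟩, rfl⟩

abbrev T := AddCircle (1 : ℝ)

lemma exists_rat (a u δ : ℝ) (hu : u ≠ 0) (hδ : 0 < δ) : ∃ r : ℚ, r ≠ 0 ∧ |r * u - a| < δ := by
  have hp : 0 < δ / |u| := div_pos hδ (abs_pos.2 hu)
  have key : ∀ r : ℝ, a / u - δ / |u| < r → r < a / u + δ / |u| → |r * u - a| < δ := by
    intro r h1 h2
    have : |r - a / u| < δ / |u| := abs_lt.2 ⟨by linarith, by linarith⟩
    rw [lt_div_iff₀ (abs_pos.2 hu), ← abs_mul, sub_mul, div_mul_cancel₀ _ hu] at this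
    exact this
  obtain ⟨r1, h1, h2⟩ := exists_rat_btwn (show a / u - δ / |u| < a / u by linarith)
  obtain ⟨r2, h3, h4⟩ := exists_rat_btwn (show a / u < a / u + δ / |u| by linarith)
  by_cases h : r1 = 0
  · refine ⟨r2, ?_, key _ (by linarith) h4⟩
    rintro rfl
    rw [h] at h2
    linarith
  · exact ⟨r1, h, key _ h1 (by linarith)⟩

lemma exists_data : ∃ (c : ℕ → T →+ ℚ) (d : ℕ → T),
    (∀ x, ∃ N, ∀ n, N ≤ n → c n x = 0) ∧
    (∀ n m, c m (d n) = if m = n then 1 / ((n : ℚ) + 2) else 0) ∧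
    ∀ (x : T) (ε : ℝ), 0 < ε → ∀ N, ∃ n, N ≤ n ∧ ‖d n - x‖ < ε := by
  obtain ⟨t, ht⟩ : ∃ t : ℝ, Transcendental ℚ t :=
    ⟨liouvilleNumber 2, fun h => transcendental_liouvilleNumber (m := 2) le_rfl
      ((IsFractionRing.isAlgebraic_iff ℤ ℚ ℝ).2 (by simpa using h))⟩
  have t0 : t ≠ 0 := by rintro rfl; exact ht isAlgebraic_zero
  obtain ⟨ρ, hρ⟩ := LinearMap.exists_leftInverse_of_injective
    (aeval t : ℚ[X] →ₐ[ℚ] ℝ).toLinearMap
    (LinearMap.ker_eq_bot.2 (transcendental_iff_injective.1 ht))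
  have hρ' : ∀ p : ℚ[X], ρ (aeval t p) = p := fun p => LinearMap.congr_fun hρ p
  obtain ⟨s, hs⟩ := exists_surjective_nat ℚ
  have : ∀ n : ℕ, ∃ r : ℚ, r ≠ 0 ∧ |r * t ^ (n + 1) - s (Nat.unpair n).1| < 1 / ((n : ℝ) + 1) :=
    fun n => exists_rat _ _ _ (pow_ne_zero _ t0) (by positivity)
  choose r hr0 hr using this
  let C : ℕ → ℝ →+ ℚ := fun n =>
    AddMonoidHom.mk' (fun x => (ρ x).coeff (n + 1) / (r n * ((n : ℚ) + 2)))
      (fun x y => by rw [map_add, coeff_add, add_div])
  have hC1 : ∀ n, C n 1 = 0 := by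
    intro n
    have : ρ 1 = 1 := by simpa using hρ' 1
    simp [C, this, coeff_one]
  let c : ℕ → T →+ ℚ := fun n => QuotientAddGroup.lift _ (C n) (by
    rintro _ ⟨k, rfl⟩
    simp only [AddMonoidHom.mem_ker]
    rw [map_zsmul, hC1, smul_zero])
  have hc : ∀ n (x : ℝ), c n (x : T) = C n x := fun n x => rfl
  refine ⟨c, fun n => ((r n * t ^ (n + 1) : ℝ) : T), ?_, ?_, ?_⟩
  · intro x
    induction x using QuotientAddGroup.induction_on with | H x => ?_
    refine ⟨(ρ x).natDegree, fun n hn => ?_⟩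
    rw [hc]
    simp [C, coeff_eq_zero_of_natDegree_lt (show (ρ x).natDegree < n + 1 by omega)]
  · intro n m
    rw [hc]
    have : ρ (r n * t ^ (n + 1)) = monomial (n + 1) (r n) := by
      rw [← hρ' (monomial (n + 1) (r n)), aeval_monomial]; rfl
    simp only [C, AddMonoidHom.mk'_apply, this, coeff_monomial]
    by_cases h : m = n
    · subst h
      have := hr0 m
      simp only [if_true]
      field_simp
    · rw [if_neg (by omega), if_neg h, zero_div]
  · intro x ε hε N
    induction x using QuotientAddGroup.induction_on with | H x => ?_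
    obtain ⟨q, hq⟩ := exists_rat_near x (half_pos hε)
    obtain ⟨i, rfl⟩ := hs q
    obtain ⟨K, hK⟩ := exists_nat_one_div_lt (half_pos hε)
    refine ⟨Nat.pair i (max N K), (le_max_left N K).trans (Nat.right_le_pair _ _), ?_⟩
    have h1 := hr (Nat.pair i (max N K))
    rw [Nat.unpair_pair] at h1
    have h2 : K ≤ Nat.pair i (max N K) := (le_max_right N K).trans (Nat.right_le_pair _ _)
    have h3 : 1 / ((Nat.pair i (max N K) : ℝ) + 1) ≤ 1 / ((K : ℝ) + 1) :=
      Nat.one_div_le_one_div h2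
    rw [← QuotientAddGroup.mk_sub]
    refine lt_of_le_of_lt (QuotientAddGroup.norm_mk_le_norm) ?_
    rw [Real.norm_eq_abs]
    have := abs_lt.1 h1
    have := abs_lt.1 hq
    rw [abs_lt]
    constructor <;> simp only at * <;> linarith

section
variable (c : ℕ → T →+ ℚ)

/-- top non-integral coordinate -/
noncomputable def top (x : T) : ℕ := sSup {n | Int.fract (c n x) ≠ 0}

/-- fractional part of the top coordinate -/
noncomputable def q (x : T) : ℚ := Int.fract (c (top c x) x)

variable {c} (hc : ∀ x, ∃ N, ∀ n, N ≤ n → c n x = 0)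
include hc

lemma bdd (x : T) : BddAbove {n | Int.fract (c n x) ≠ 0} := by
  obtain ⟨N, hN⟩ := hc x
  refine ⟨N, fun n hn => ?_⟩
  by_contra h
  exact hn (by rw [hN n (by omega)]; simp)

lemma above (x : T) (m : ℕ) (h : top c x < m) : Int.fract (c m x) = 0 := by
  by_contra h'
  exact absurd (le_csSup (bdd hc x) h') (not_le.2 h)

lemma top_zero (x : T) (h : Int.fract (c (top c x) x) = 0) : top c x = 0 := by
  by_cases he : {n | Int.fract (c n x) ≠ 0}.Nonempty
  · exact absurd h (Nat.sSup_mem he (bdd hc x))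
  · rw [Set.not_nonempty_iff_eq_empty] at he
    simp [top, he]

lemma le_q (x : T) (m : ℕ) (h : top c x ≤ m) : Int.fract (c m x) ≤ q c x := by
  rcases h.eq_or_lt with rfl | h
  · exact le_rfl
  · rw [above hc x m h]; exact Int.fract_nonneg _

lemma q_eq (x : T) (n : ℕ) (h1 : ∀ m, n < m → Int.fract (c m x) = 0)
    (h2 : Int.fract (c n x) ≠ 0) : q c x = Int.fract (c n x) := by
  have : top c x = n := by
    apply le_antisymm
    · apply csSup_le ⟨n, h2⟩
      intro m hm
      by_contra h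
      exact hm (h1 m (not_le.1 h))
    · exact le_csSup (bdd hc x) h2
  rw [q, this]

lemma q_add (x y : T) : q c (x + y) ≤ q c x + q c y := by
  by_cases h : max (top c x) (top c y) ≤ top c (x + y)
  · rw [q, map_add]
    exact (Int.fract_add_le _ _).trans (add_le_add (le_q hc x _ ((le_max_left _ _).trans h))
      (le_q hc y _ ((le_max_right _ _).trans h)))
  · push Not at h
    set N := max (top c x) (top c y) with hN
    have h0 := above hc (x + y) N h
    have h1 : Int.fract (c N x) ≠ 0 ∨ Int.fract (c N y) ≠ 0 := by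
      rcases max_choice (top c x) (top c y) with e | e
      · left; intro h'; rw [hN, e] at h' h; have := top_zero hc x h'; omega
      · right; intro h'; rw [hN, e] at h' h; have := top_zero hc y h'; omega
    obtain ⟨z, hz⟩ := Int.fract_add (c N x) (c N y)
    rw [← map_add, h0] at hz
    have a1 := Int.fract_nonneg (c N x)
    have a2 := Int.fract_nonneg (c N y)
    have hz0 : (z : ℚ) < 0 := by
      rcases h1 with h1 | h1
      · have := lt_of_le_of_ne a1 h1.symm; linarith
      · have := lt_of_le_of_ne a2 h1.symm; linarith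
    have hz1 : z ≤ -1 := by have : z < 0 := by exact_mod_cast hz0
                            omega
    have hz2 : (z : ℚ) ≤ -1 := by exact_mod_cast hz1
    have b1 := le_q hc x N (le_max_left _ _)
    have b2 := le_q hc y N (le_max_right _ _)
    have : q c (x + y) < 1 := Int.fract_lt_one _
    linarith

omit hc in
lemma q_nonneg (x : T) : 0 ≤ q c x := Int.fract_nonneg _

omit hc in
lemma q_int (x : T) (h : ∀ n, Int.fract (c n x) = 0) : q c x = 0 := h _

end

/-- the underlying group -/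
def G : Type := Multiplicative T

noncomputable instance : CommGroup G := inferInstanceAs (CommGroup (Multiplicative T))

/-- underlying point -/
def G.pt (x : G) : T := Multiplicative.toAdd (α := T) x
def G.mk (x : T) : G := Multiplicative.ofAdd (α := T) x

/-- topology from an asymmetric norm -/
def topo (ν : G → ℝ) : TopologicalSpace G where
  IsOpen U := ∀ x ∈ U, ∃ ε, 0 < ε ∧ ∀ y, ν y < ε → x * y ∈ U
  isOpen_univ := fun _ _ => ⟨1, one_pos, fun _ _ => trivial⟩
  isOpen_inter := by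
    intro s t hs ht x hx
    obtain ⟨a, ha, h1⟩ := hs x hx.1
    obtain ⟨b, hb, h2⟩ := ht x hx.2
    exact ⟨min a b, lt_min ha hb, fun y hy =>
      ⟨h1 y (hy.trans_le (min_le_left _ _)), h2 y (hy.trans_le (min_le_right _ _))⟩⟩
  isOpen_sUnion := by
    rintro S hS x ⟨U, hU, hx⟩
    obtain ⟨a, ha, h1⟩ := hS U hU x hx
    exact ⟨a, ha, fun y hy => ⟨U, hU, h1 y hy⟩⟩

lemma mem_nhds_topo (ν : G → ℝ) (h0 : ν 1 = 0) (hs : ∀ x y, ν (x * y) ≤ ν x + ν y) (x : G)
    (U : Set G) : U ∈ @nhds G (topo ν) x ↔ ∃ ε, 0 < ε ∧ ∀ y, ν y < ε → x * y ∈ U := by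
  letI := topo ν
  rw [mem_nhds_iff]
  constructor
  · rintro ⟨V, hV, ho, hx⟩
    obtain ⟨ε, hε, h⟩ := ho x hx
    exact ⟨ε, hε, fun y hy => hV (h y hy)⟩
  · rintro ⟨ε, hε, h⟩
    refine ⟨{z | ν (x⁻¹ * z) < ε}, fun z hz => ?_, ?_, ?_⟩
    · simpa using h _ hz
    · intro z hz
      refine ⟨ε - ν (x⁻¹ * z), sub_pos.2 hz, fun y hy => ?_⟩
      have := hs (x⁻¹ * z) y
      simp only [Set.mem_setOf_eq, ← mul_assoc]
      linarith
    · simp [h0, hε]

theorem main : ∃ (G : Type) (_ : CommGroup G) (_ : TopologicalSpace G),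
    ContinuousMul G ∧ T2Space G ∧ TopologicallyPeriodic G ∧ CountablyPracompact G ∧
      Pseudocompact G ∧ LeftOmegaPrecompact G ∧ ¬ ContinuousInv G := by
  obtain ⟨c, d, hc, hd, hdense⟩ := exists_data
  let ν : G → ℝ := fun x => ‖x.pt‖ + q c x.pt
  have h0 : ν 1 = 0 := by
    have : (1 : G).pt = 0 := rfl
    simp only [ν, this, norm_zero, zero_add]
    rw [q_int 0 (by simp)]; simp
  have hs : ∀ x y, ν (x * y) ≤ ν x + ν y := by
    intro x y
    have : (x * y).pt = x.pt + y.pt := rfl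
    simp only [ν, this]
    have h1 := norm_add_le x.pt y.pt
    have h2 : ((q c (x.pt + y.pt) : ℚ) : ℝ) ≤ q c x.pt + q c y.pt := by
      exact_mod_cast q_add hc x.pt y.pt
    linarith
  have hge : ∀ x, ‖x.pt‖ ≤ ν x := fun x => by
    have : (0 : ℝ) ≤ q c x.pt := by exact_mod_cast q_nonneg x.pt
    simp only [ν]; linarith
  have hfr : ∀ n : ℕ, Int.fract (1 / ((n : ℚ) + 2)) = 1 / ((n : ℚ) + 2) := fun n =>
    Int.fract_eq_self.2 ⟨by positivity, by
      rw [div_lt_one (by positivity)]; have : (0 : ℚ) ≤ n := n.cast_nonneg; linarith⟩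
  have hconv : ∀ (p : T) (ε : ℝ), 0 < ε → ∃ N, ∀ n, N ≤ n → (q c (d n - p) : ℝ) < ε := by
    intro p ε hε
    obtain ⟨N, hN⟩ := hc p
    obtain ⟨K, hK⟩ := exists_nat_one_div_lt hε
    refine ⟨max N K, fun n hn => ?_⟩
    have h1 : N ≤ n := (le_max_left _ _).trans hn
    have h2 : K ≤ n := (le_max_right _ _).trans hn
    have e : c n (d n - p) = 1 / ((n : ℚ) + 2) := by rw [map_sub, hd, hN n h1]; simp
    rw [q_eq hc _ n (fun m hm => by
      rw [map_sub, hd, hN m (by omega), if_neg (by omega)]; simp) (by rw [e, hfr]; positivity),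
      e, hfr]
    refine lt_of_le_of_lt ?_ hK
    push_cast
    apply one_div_le_one_div_of_le (by positivity)
    have : (K : ℝ) ≤ n := by exact_mod_cast h2
    linarith
  have happ : ∀ (p : G) (ε : ℝ), 0 < ε → ∃ n, ν (p⁻¹ * G.mk (d n)) < ε := by
    intro p ε hε
    obtain ⟨N, hN⟩ := hconv p.pt _ (half_pos hε)
    obtain ⟨n, hn, h⟩ := hdense p.pt _ (half_pos hε) N
    refine ⟨n, ?_⟩
    have : (p⁻¹ * G.mk (d n)).pt = d n - p.pt := by
      change -p.pt + d n = _
      abel
    simp only [ν, this]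
    linarith [hN n hn]
  letI := topo ν
  have mem := mem_nhds_topo ν h0 hs
  have prac : CountablyPracompact G := by
    refine ⟨Set.range (fun n => G.mk (d n)), ?_, ?_⟩
    · intro p
      rw [mem_closure_iff_nhds]
      intro U hU
      obtain ⟨ε, hε, h⟩ := (mem p U).1 hU
      obtain ⟨n, hn⟩ := happ p ε hε
      exact ⟨G.mk (d n), by simpa using h _ hn, n, rfl⟩
    · intro B hB hinf
      have hinf' : (G.pt '' B).Infinite := hinf.image (fun a _ b _ e => e)
      have hne : (Filter.cofinite ⊓ Filter.principal (G.pt '' B)).NeBot :=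
        Filter.cofinite_inf_principal_neBot_iff.2 hinf'
      obtain ⟨p, hp⟩ := exists_clusterPt_of_compactSpace
        (Filter.cofinite ⊓ Filter.principal (G.pt '' B))
      refine ⟨G.mk p, fun U hU => ?_⟩
      obtain ⟨ε, hε, h⟩ := (mem _ U).1 hU
      obtain ⟨N, hN⟩ := hconv p _ (half_pos hε)
      have h1 : (Metric.ball p (ε / 2) ∩ (G.pt '' B)).Infinite := by
        intro hfin
        have := (clusterPt_iff_nonempty.1 hp) (Metric.ball_mem_nhds p (half_pos hε))
          (Filter.inter_mem_inf hfin.compl_mem_cofinite (Filter.mem_principal_self _))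
        obtain ⟨z, hz1, hz2, hz3⟩ := this
        exact hz2 ⟨hz1, hz3⟩
      have h2 := h1.diff ((Set.finite_lt_nat N).image d)
      refine Set.Infinite.of_image G.pt (h2.mono ?_)
      rintro _ ⟨⟨hz1, z, hz2, rfl⟩, hz3⟩
      refine ⟨z, ⟨?_, hz2⟩, rfl⟩
      obtain ⟨n, rfl⟩ := hB hz2
      have hnN : N ≤ n := by
        by_contra hlt
        exact hz3 ⟨n, not_le.1 hlt, rfl⟩
      have e : ((G.mk p)⁻¹ * G.mk (d n)).pt = d n - p := by
        change -p + d n = _
        abel
      have := h ((G.mk p)⁻¹ * G.mk (d n)) (by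
        simp only [ν, e]
        have hz : ‖d n - p‖ < ε / 2 := by rwa [Metric.mem_ball, dist_eq_norm] at hz1
        linarith [hN n hnN])
      simpa using this
  refine ⟨G, inferInstance, inferInstance, ⟨?_⟩, ?_, ?_, prac, prac.pseudocompact, ?_, ?_⟩
  · rw [continuous_iff_continuousAt]
    rintro ⟨x, y⟩ U hU
    obtain ⟨ε, hε, h⟩ := (mem _ U).1 hU
    rw [Filter.mem_map, nhds_prod_eq, Filter.mem_prod_iff]
    refine ⟨{z | ν (x⁻¹ * z) < ε / 2}, (mem _ _).2 ⟨ε / 2, half_pos hε, fun w hw => by simpa⟩,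
      {z | ν (y⁻¹ * z) < ε / 2}, (mem _ _).2 ⟨ε / 2, half_pos hε, fun w hw => by simpa⟩, ?_⟩
    rintro ⟨a, b⟩ ⟨ha, hb⟩
    have := h ((x⁻¹ * a) * (y⁻¹ * b)) (by
      have := hs (x⁻¹ * a) (y⁻¹ * b)
      simp only [Set.mem_setOf_eq] at ha hb
      linarith)
    have e : x * y * ((x⁻¹ * a) * (y⁻¹ * b)) = a * b := by
      rw [mul_mul_mul_comm x y, mul_inv_cancel_left, mul_inv_cancel_left]
    simp only at this
    rw [e] at this
    exact this
  · refine T2Space.of_injective_continuous (f := G.pt) (fun a b e => e) ?_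
    rw [continuous_iff_continuousAt]
    intro x U hU
    obtain ⟨ε, hε, h⟩ := Metric.mem_nhds_iff.1 hU
    refine (mem _ _).2 ⟨ε, hε, fun y hy => h ?_⟩
    change x.pt + y.pt ∈ _
    rw [Metric.mem_ball, dist_eq_norm, add_sub_cancel_left]
    exact (hge y).trans_lt hy
  · intro x U hU
    obtain ⟨ε, hε, h⟩ := (mem _ U).1 hU
    obtain ⟨N, hN⟩ := hc x.pt
    obtain ⟨K, hK⟩ := exists_nat_one_div_lt hε
    let m : ℕ := ∏ n ∈ Finset.range N, (c n x.pt).den
    have hm : 0 < m := Finset.prod_pos (fun n _ => (c n x.pt).den_pos)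
    obtain ⟨j, hj, hj'⟩ := AddCircle.exists_norm_nsmul_le (m • x.pt) (n := K + 1) (by omega)
    refine ⟨m * j, Nat.mul_pos hm hj.1, ?_⟩
    have e : (x ^ (m * j)).pt = j • m • x.pt := by
      change (m * j) • x.pt = _
      rw [mul_nsmul]
    have := h (x ^ (m * j)) (by
      simp only [ν, e]
      rw [q_int]
      · push_cast at hj' ⊢
        have : (1 : ℝ) / (K + 1 + 1) ≤ 1 / (K + 1) :=
          one_div_le_one_div_of_le (by positivity) (by linarith)
        linarith
      · intro n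
        rw [map_nsmul, map_nsmul]
        by_cases hn : n < N
        · obtain ⟨k, hk⟩ : (c n x.pt).den ∣ m :=
            Finset.dvd_prod_of_mem _ (Finset.mem_range.2 hn)
          have : j • m • c n x.pt = ((j * k * (c n x.pt).num : ℤ) : ℚ) := by
            rw [hk]
            push_cast
            rw [← Rat.den_mul_eq_num]
            simp only [nsmul_eq_mul]
            push_cast
            ring
          rw [this, Int.fract_intCast]
        · rw [hN n (by omega)]; simp)
    simpa using this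
  · intro U hU
    obtain ⟨ε, hε, h⟩ := (mem _ U).1 hU
    refine ⟨Set.range (fun n => (G.mk (d n))⁻¹), Set.countable_range _, ?_⟩
    rw [Set.eq_univ_iff_forall]
    intro z
    obtain ⟨n, hn⟩ := happ z⁻¹ ε hε
    refine ⟨_, ⟨n, rfl⟩, _, h _ hn, ?_⟩
    simp [mul_comm z]
  · intro hinv
    have h1 : {z : G | ν z < 1 / 2} ∈ 𝓝 (1 : G)⁻¹ := by
      rw [inv_one]
      exact (mem _ _).2 ⟨1 / 2, by norm_num, fun y hy => by simpa using hy⟩
    obtain ⟨ε, hε, h⟩ := (mem _ _).1 (continuous_inv.continuousAt h1)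
    obtain ⟨n, hn⟩ := happ 1 ε hε
    have h2 := h _ hn
    simp only [inv_one, one_mul, Set.mem_preimage, Set.mem_setOf_eq] at h2
    have e : ((G.mk (d n))⁻¹).pt = -d n := rfl
    have e1 : c n (-d n) = -(1 / ((n : ℚ) + 2)) := by rw [map_neg, hd]; simp
    have e2 : Int.fract (c n (-d n)) = 1 - 1 / ((n : ℚ) + 2) := by
      rw [e1, Int.fract_neg (by rw [hfr]; positivity), hfr]
    have e3 : 1 / ((n : ℚ) + 2) ≤ 1 / 2 :=
      one_div_le_one_div_of_le (by norm_num) (by have : (0 : ℚ) ≤ n := n.cast_nonneg; linarith)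
    have e4 : (1 / 2 : ℚ) ≤ q c (-d n) := by
      rw [q_eq hc _ n (fun m hm => by rw [map_neg, hd, if_neg (by omega)]; simp)
        (by rw [e2]; intro h; linarith), e2]
      linarith
    have e5 : (1 / 2 : ℝ) ≤ q c (-d n) := by
      have : ((1 / 2 : ℚ) : ℝ) ≤ q c (-d n) := by exact_mod_cast e4
      simpa using this
    simp only [ν, e] at h2
    linarith [norm_nonneg (-d n)]

end Pool.Agent.H77.Para
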