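import Mathlib

set_option autoImplicit false
open scoped Pointwise

namespace Pool.Agent.H77.PowLocal

/-- `X` is invariant under translation by `k`. -/
def Per (k : ℕ) (X : Set ℤ) : Prop := ∀ z : ℤ, z ∈ X ↔ z + k ∈ X

/-- Singletons `{n}` (with degree `n`) and nonempty periodic subsets of `ℤ` (degree `⊤`). -/
@[ext] structure E where
  X : Set ℤ
  d : ℕ∞
  ok : (∃ n : ℕ, X = {(n : ℤ)} ∧ d = n) ∨ (d = ⊤ ∧ X.Nonempty ∧ ∃ k : ℕ, 0 < k ∧ Per k X)

lemma Per.add_right {k : ℕ} {X : Set ℤ} (h : Per k X) (Y : Set ℤ) : Per k (X + Y) := by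
  intro z
  constructor
  · rintro ⟨x, hx, y, hy, rfl⟩
    exact ⟨x + k, (h x).1 hx, y, hy, by ring⟩
  · rintro ⟨x, hx, y, hy, e⟩
    refine ⟨x - k, (h _).2 (by simpa using hx), y, hy, ?_⟩
    simp only at e ⊢
    linarith

lemma Per.mul {k : ℕ} {X : Set ℤ} (h : Per k X) (m : ℕ) : Per (k * m) X := by
  induction m with
  | zero => intro z; simp
  | succ m ih =>
    intro z
    rw [ih z, h]
    push_cast
    ring_nf

lemma Per.int {k : ℕ} {X : Set ℤ} (h : Per k X) (m : ℤ) (z : ℤ) : z ∈ X ↔ z + k * m ∈ X := by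
  obtain ⟨n, rfl | rfl⟩ := Int.eq_nat_or_neg m
  · have := h.mul n z
    simpa using this
  · have := h.mul n (z + k * -(n : ℤ))
    rw [this]
    push_cast
    ring_nf

lemma E.ne (x : E) : x.X.Nonempty := by
  rcases x.ok with ⟨n, h, -⟩ | ⟨-, h, -⟩
  · rw [h]; exact Set.singleton_nonempty _
  · exact h

noncomputable instance : Mul E where
  mul x y := ⟨x.X + y.X, x.d + y.d, by
    rcases x.ok with ⟨n, h, h'⟩ | ⟨h, -, k, hk, hp⟩
    · rcases y.ok with ⟨m, g, g'⟩ | ⟨g, -, k, hk, hp⟩
      · left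
        refine ⟨n + m, ?_, ?_⟩
        · rw [h, g]; simp
        · rw [h', g']; simp
      · right
        refine ⟨by simp [g], x.ne.add y.ne, k, hk, ?_⟩
        rw [add_comm]; exact hp.add_right _
    · right
      exact ⟨by simp [h], x.ne.add y.ne, k, hk, hp.add_right _⟩⟩

@[simp] lemma mul_X (x y : E) : (x * y).X = x.X + y.X := rfl
@[simp] lemma mul_d (x y : E) : (x * y).d = x.d + y.d := rfl

noncomputable instance : Semigroup E where
  mul_assoc x y z := by
    ext1 <;> simp [add_assoc]

abbrev K := ℕ →₀ ZMod 2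

/-- Vectors of weight at most one. -/
def B : Set K := {v | v.support.card ≤ 1}

lemma B_zero : (0 : K) ∈ B := by simp [B]

lemma card_le_of_mem (n : ℕ) : ∀ v ∈ n • B, v.support.card ≤ n := by
  induction n with
  | zero =>
    intro v hv
    simp only [zero_nsmul, Set.mem_zero] at hv
    simp [hv]
  | succ n ih =>
    intro v hv
    rw [succ_nsmul] at hv
    obtain ⟨a, ha, b, hb, rfl⟩ := hv
    have h1 := ih a ha
    have h2 : b.support.card ≤ 1 := hb
    have h3 := Finset.card_le_card (Finsupp.support_add (g₁ := a) (g₂ := b))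
    have h4 := Finset.card_union_le a.support b.support
    simp only
    omega

lemma exists_mem (n : ℕ) : ∃ v ∈ n • B, v.support = Finset.range n := by
  induction n with
  | zero => exact ⟨0, by simp [Set.mem_zero], by simp⟩
  | succ n ih =>
    obtain ⟨v, hv, hs⟩ := ih
    have hsing : (Finsupp.single n (1 : ZMod 2)).support = {n} :=
      Finsupp.support_single _ one_ne_zero
    refine ⟨v + Finsupp.single n 1, ?_, ?_⟩
    · rw [succ_nsmul]
      exact ⟨v, hv, _, by simp [B, hsing], rfl⟩
    · rw [Finsupp.support_add_eq, hs, hsing, Finset.range_add_one, Finset.insert_eq,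
        Finset.union_comm]
      rw [hs, hsing]
      simp

/-- The second coordinate of the embedding. -/
def C (d : ℕ∞) : Set K := if d = ⊤ then Set.univ else d.toNat • B

lemma C_nat (n : ℕ) : C n = n • B := by simp [C]
lemma C_top : C ⊤ = Set.univ := by simp [C]

lemma C_ne (d : ℕ∞) : (C d).Nonempty := by
  induction d using ENat.recTopCoe with
  | top => simp [C_top]
  | coe n => rw [C_nat]; obtain ⟨v, hv, -⟩ := exists_mem n; exact ⟨v, hv⟩

lemma C_add (d e : ℕ∞) : C (d + e) = C d + C e := by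
  induction d using ENat.recTopCoe with
  | top => rw [top_add, C_top, Set.univ_add (C_ne e)]
  | coe n =>
    induction e using ENat.recTopCoe with
    | top => rw [add_top, C_top, Set.add_univ (C_ne _)]
    | coe m => rw [← Nat.cast_add, C_nat, C_nat, C_nat, add_nsmul]

lemma C_inj : Function.Injective C := by
  have key : ∀ (n : ℕ) (e : ℕ∞), C n = C e → e ≤ n := by
    intro n e h
    induction e using ENat.recTopCoe with
    | top =>
      exfalso
      obtain ⟨v, -, hs⟩ := exists_mem (n + 1)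
      have : v ∈ n • B := by rw [← C_nat, h, C_top]; trivial
      have := card_le_of_mem n v this
      rw [hs, Finset.card_range] at this
      omega
    | coe m =>
      obtain ⟨v, hv, hs⟩ := exists_mem m
      have : v ∈ n • B := by rw [← C_nat, h, C_nat]; exact hv
      have := card_le_of_mem n v this
      rw [hs, Finset.card_range] at this
      exact_mod_cast this
  intro d e h
  induction d using ENat.recTopCoe with
  | top =>
    induction e using ENat.recTopCoe with
    | top => rfl
    | coe m => exact absurd (key m ⊤ h.symm) (by simp)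
  | coe n =>
    induction e using ENat.recTopCoe with
    | top => exact absurd (key n ⊤ h) (by simp)
    | coe m => exact le_antisymm (key m n h.symm) (key n m h)

/-- Elements of degree `⊤` are `N`-periodic. -/
def SN (N : ℕ) : Subsemigroup E where
  carrier := {x | x.d = ⊤ → Per N x.X}
  mul_mem' := by
    intro x y hx hy h
    simp only [mul_d, mul_X] at h ⊢
    rcases WithTop.add_eq_top.1 h with h | h
    · exact (hx h).add_right _
    · rw [add_comm]; exact (hy h).add_right _

lemma exists_N (F : Finset E) : ∃ N : ℕ, 0 < N ∧ ∀ x ∈ F, x ∈ SN N := by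
  classical
  induction F using Finset.induction_on with
  | empty => exact ⟨1, one_pos, by simp⟩
  | insert a F _ ih =>
    obtain ⟨N, hN, h⟩ := ih
    rcases a.ok with ⟨n, -, h'⟩ | ⟨-, -, k, hk, hp⟩
    · refine ⟨N, hN, ?_⟩
      intro x hx
      rcases Finset.mem_insert.1 hx with rfl | hx
      · intro e; rw [h'] at e; exact absurd e (by simp)
      · exact h x hx
    · refine ⟨N * k, Nat.mul_pos hN hk, ?_⟩
      intro x hx
      rcases Finset.mem_insert.1 hx with rfl | hx
      · intro _; rw [mul_comm]; exact hp.mul N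
      · intro e; exact (h x hx e).mul k

/-- The embedding on the additive side. -/
def phi (N : ℕ) (x : E) : Set (ZMod N × K) := ((fun z : ℤ => (z : ZMod N)) '' x.X) ×ˢ C x.d

lemma phi_mul (N : ℕ) (x y : E) : phi N (x * y) = phi N x + phi N y := by
  unfold phi
  rw [Set.prod_add_prod_comm, mul_X, mul_d, C_add]
  congr 1
  exact Set.image_add (Int.castAddHom (ZMod N))

lemma phi_inj (N : ℕ) (x y : E) (hx : x ∈ SN N) (hy : y ∈ SN N) (h : phi N x = phi N y) :
    x = y := by
  unfold phi at h
  have hne : (((fun z : ℤ => (z : ZMod N)) '' x.X) ×ˢ C x.d).Nonempty :=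
    (x.ne.image _).prod (C_ne _)
  obtain ⟨h1, h2⟩ := (Set.prod_eq_prod_iff_of_nonempty hne).1 h
  have hd := C_inj h2
  have sub : ∀ x y : E, y ∈ SN N → y.d = ⊤ →
      (fun z : ℤ => (z : ZMod N)) '' x.X = (fun z : ℤ => (z : ZMod N)) '' y.X → x.X ⊆ y.X := by
    intro x y hy ht e z hz
    have : (z : ZMod N) ∈ (fun z : ℤ => (z : ZMod N)) '' y.X := e ▸ ⟨z, hz, rfl⟩
    obtain ⟨w, hw, e'⟩ := this
    obtain ⟨c, hc⟩ := (ZMod.intCast_eq_intCast_iff_dvd_sub w z N).1 e'
    have := ((hy ht).int c w).1 hw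
    rwa [← hc, add_sub_cancel] at this
  ext1
  · by_cases ht : x.d = ⊤
    · exact Set.Subset.antisymm (sub x y hy (hd ▸ ht) h1) (sub y x hx ht h1.symm)
    · rcases x.ok with ⟨n, e, e'⟩ | ⟨e, -⟩
      · rcases y.ok with ⟨m, g, g'⟩ | ⟨g, -⟩
        · rw [e', g'] at hd
          have : n = m := by exact_mod_cast hd
          rw [e, g, this]
        · exact absurd (hd.trans g) ht
      · exact absurd e ht
  · exact hd

lemma local_embed (T : Subsemigroup E) (hT : ∃ F : Finset E, Subsemigroup.closure (F : Set E) = T) :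
    ∃ (G : Type) (_ : Group G), Monoid.IsTorsion G ∧
      ∃ f : T →ₙ* Set G, Function.Injective f := by
  obtain ⟨F, rfl⟩ := hT
  obtain ⟨N, hN, h⟩ := exists_N F
  have hle : Subsemigroup.closure (F : Set E) ≤ SN N := Subsemigroup.closure_le.2 h
  refine ⟨Multiplicative (ZMod N × K), inferInstance, ?_, ⟨fun x => {g | g.toAdd ∈ phi N x}, ?_⟩, ?_⟩
  · intro g
    rw [isOfFinOrder_iff_pow_eq_one]
    refine ⟨2 * N, by omega, ?_⟩
    apply Multiplicative.toAdd.injective
    rw [toAdd_pow, toAdd_one]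
    ext i
    · simp
    · have : (2 : ZMod 2) = 0 := rfl
      simp [this]
  · intro x y
    ext g
    simp only [MulMemClass.coe_mul, phi_mul, Set.mem_setOf_eq, Set.mem_mul, Set.mem_add]
    constructor
    · rintro ⟨a, ha, b, hb, e⟩
      exact ⟨Multiplicative.ofAdd a, ha, Multiplicative.ofAdd b, hb, by
        apply Multiplicative.toAdd.injective; simpa using e⟩
    · rintro ⟨a, ha, b, hb, rfl⟩
      exact ⟨_, ha, _, hb, rfl⟩
  · intro x y e
    apply Subtype.ext
    apply phi_inj N _ _ (hle x.2) (hle y.2)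
    ext a
    have := Set.ext_iff.1 e (Multiplicative.ofAdd a)
    simpa using this

/-- The singleton `{n}`. -/
def sing (n : ℕ) : E := ⟨{(n : ℤ)}, n, Or.inl ⟨n, rfl, rfl⟩⟩

/-- The coset `i + kℤ`. -/
def cos (k : ℕ) (hk : 0 < k) (i : ℤ) : E :=
  ⟨{z | (k : ℤ) ∣ z - i}, ⊤, Or.inr ⟨rfl, ⟨i, by simp⟩, k, hk, by
    intro z
    simp only [Set.mem_setOf_eq]
    rw [show z + k - i = (z - i) + k by ring]
    exact (dvd_add_left (dvd_refl _)).symm⟩⟩

lemma sing_mul (n m : ℕ) : sing n * sing m = sing (n + m) := by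
  ext1 <;> simp [sing]

lemma sing_cos (n k : ℕ) (hk : 0 < k) (i : ℤ) : sing n * cos k hk i = cos k hk (i + n) := by
  ext1
  · ext z
    simp only [sing, cos, mul_X, Set.singleton_add, Set.mem_image, Set.mem_setOf_eq]
    constructor
    · rintro ⟨w, hw, rfl⟩
      convert hw using 1; ring
    · intro hz
      exact ⟨z - n, by convert hz using 1; ring, by ring⟩
  · simp [sing, cos]

lemma no_embed : ¬ ∃ (G : Type) (_ : Group G), Monoid.IsTorsion G ∧
    ∃ f : E →ₙ* Set G, Function.Injective f := by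
  rintro ⟨G, _, hG, f, hf⟩
  have hne : (f (sing 1)).Nonempty := by
    by_contra h
    rw [Set.not_nonempty_iff_eq_empty] at h
    have : f (sing 2) = f (sing 1) := by
      rw [show sing 2 = sing 1 * sing 1 from (sing_mul 1 1).symm, map_mul, h]; simp
    have := congrArg E.d (hf this)
    simp [sing] at this
  obtain ⟨g, hg⟩ := hne
  have hpow : ∀ n : ℕ, g ^ (n + 1) ∈ f (sing (n + 1)) := by
    intro n
    induction n with
    | zero => simpa using hg
    | succ n ih =>
      rw [← sing_mul, map_mul, pow_succ]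
      exact Set.mul_mem_mul ih hg
  obtain ⟨n, hn, e⟩ := isOfFinOrder_iff_pow_eq_one.1 (hG g)
  obtain ⟨m, rfl⟩ : ∃ m, n = m + 1 := ⟨n - 1, by omega⟩
  have h1 : (1 : G) ∈ f (sing (m + 1)) := e ▸ hpow m
  have hk : 0 < m + 2 := by omega
  have step : ∀ i : ℤ, f (cos (m + 2) hk i) ⊆ f (cos (m + 2) hk (i + (m + 1 : ℕ))) := by
    intro i x hx
    rw [← sing_cos, map_mul]
    exact ⟨1, h1, x, hx, one_mul x⟩
  have steps : ∀ (j : ℕ) (i : ℤ),
      f (cos (m + 2) hk i) ⊆ f (cos (m + 2) hk (i + j * (m + 1 : ℕ))) := by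
    intro j i
    induction j with
    | zero => simp
    | succ j ih =>
      refine ih.trans ((step _).trans ?_)
      apply subset_of_eq
      congr 2
      push_cast; ring
  have back : cos (m + 2) hk (((m + 1 : ℕ) : ℤ) + (m + 1 : ℕ) * (m + 1 : ℕ)) = cos (m + 2) hk 0 := by
    ext1
    · ext z
      simp only [cos, Set.mem_setOf_eq]
      rw [show z - (((m + 1 : ℕ) : ℤ) + (m + 1 : ℕ) * (m + 1 : ℕ))
        = (z - 0) + ((m + 2 : ℕ) : ℤ) * (-(m + 1 : ℕ)) by push_cast; ring]
      exact dvd_add_left (Dvd.intro _ rfl)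
    · rfl
  have e1 := step 0
  have e2 := steps (m + 1) ((m + 1 : ℕ) : ℤ)
  rw [back] at e2
  rw [zero_add] at e1
  have e3 := congrArg E.X (hf (Set.Subset.antisymm e1 e2))
  have : (0 : ℤ) ∈ (cos (m + 2) hk ((m + 1 : ℕ) : ℤ)).X := by
    rw [← e3]; simp [cos]
  simp only [cos, Set.mem_setOf_eq, zero_sub, dvd_neg] at this
  have := Int.le_of_dvd (by positivity) this
  push_cast at this
  omega

end Pool.Agent.H77.PowLocal
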