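import Mathlib

set_option autoImplicit false
open scoped Pointwise

namespace Pool.Agent.H77.PowPeriodic

/-- Formal terms: base generators, idempotent zeros, sums, and the two halves of a splitting. -/
inductive W (S : Type) : Type
  | base (x : S) : W S
  | idem (e : S) : W S
  | mul (u v : W S) : W S
  | left (u : W S) (a b : S) : W S
  | right (u : W S) (a b : S) : W S

abbrev C := AddCircle (1 : ℚ)

variable {S : Type} [CommMonoid S]

/-- label -/
def lab : W S → S
  | .base x => x
  | .idem e => e
  | .mul u v => lab u * lab v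
  | .left _ a _ => a
  | .right _ _ b => b

/-- validity -/
def Val : W S → Prop
  | .base _ => True
  | .idem e => IsIdempotentElem e
  | .mul u v => Val u ∧ Val v
  | .left u a b => Val u ∧ lab u = a * b
  | .right u a b => Val u ∧ lab u = a * b

/-- weight -/
def wt : W S → ℕ
  | .base _ => 1
  | .idem _ => 0
  | .mul u v => wt u + wt v + 1
  | .left u _ _ => wt u + 1
  | .right u _ _ => wt u + 1

/-- the coordinate attached to a term -/
def key : W S → W S
  | .right u a b => .left u a b
  | w => w

variable (p : S → ℕ)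

/-- an exponent killing the value -/
def ord : W S → ℕ
  | .base x => 2 * p x
  | .idem _ => 1
  | .mul u v => ord u * ord v
  | .left u a b => ord u * (p a * p b)
  | .right u a b => ord u * (p a * p b)

/-- the class of `1/n` -/
def inv (n : ℕ) : C := (((1 : ℚ) / n : ℚ) : C)

/-- value -/
noncomputable def mu : W S → (W S →₀ C)
  | .base x => Finsupp.single (.base x) (inv (2 * p x))
  | .idem _ => 0
  | .mul u v => mu u + mu v
  | .left u a b => Finsupp.single (.left u a b) (inv (ord p u * (p a * p b)))
  | .right u a b => mu u - Finsupp.single (.left u a b) (inv (ord p u * (p a * p b)))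

lemma addOrderOf_inv {n : ℕ} (h : 0 < n) : addOrderOf (inv n) = n :=
  AddCircle.addOrderOf_period_div h

lemma nsmul_inv {n : ℕ} (h : 0 < n) : n • inv n = 0 := by
  have := addOrderOf_nsmul_eq_zero (inv n)
  rwa [addOrderOf_inv h] at this

omit [CommMonoid S] in
lemma wt_key (w : W S) : wt (key w) = wt w := by cases w <;> rfl

variable {p}

omit [CommMonoid S] in
lemma ord_pos (hp : ∀ x, 0 < p x) (w : W S) : 0 < ord p w := by
  induction w with
  | base x => have := hp x; simp only [ord]; omega
  | idem e => simp [ord]
  | mul u v hu hv => exact Nat.mul_pos hu hv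
  | left u a b hu => exact Nat.mul_pos hu (Nat.mul_pos (hp a) (hp b))
  | right u a b hu => exact Nat.mul_pos hu (Nat.mul_pos (hp a) (hp b))

omit [CommMonoid S] in
lemma ord_smul (hp : ∀ x, 0 < p x) (w : W S) : ord p w • mu p w = 0 := by
  induction w with
  | base x =>
    simp only [ord, mu, Finsupp.smul_single]
    rw [nsmul_inv (n := 2 * p x) (ord_pos hp (.base x))]; simp
  | idem e => simp [mu]
  | mul u v hu hv =>
    simp only [ord, mu, smul_add]
    rw [mul_nsmul (mu p u), hu, mul_nsmul' (mu p v), hv]; simp
  | left u a b _ =>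
    simp only [ord, mu, Finsupp.smul_single]
    rw [nsmul_inv (n := ord p u * (p a * p b)) (ord_pos hp (.left u a b))]; simp
  | right u a b hu =>
    simp only [ord, mu, smul_sub, Finsupp.smul_single]
    rw [nsmul_inv (n := ord p u * (p a * p b)) (ord_pos hp (.left u a b)), mul_nsmul (mu p u), hu]; simp

omit [CommMonoid S] in
lemma supp (w : W S) : ∀ k, mu p w k ≠ 0 → wt k < wt w ∨ k = key w := by
  classical
  induction w with
  | base x =>
    intro k h
    right
    by_contra hk
    exact h (Finsupp.single_eq_of_ne hk)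
  | idem e => intro k h; simp [mu] at h
  | mul u v hu hv =>
    intro k h
    left
    have : mu p u k ≠ 0 ∨ mu p v k ≠ 0 := by
      by_contra hh
      push Not at hh
      simp [mu, hh.1, hh.2] at h
    simp only [wt]
    rcases this with h | h
    · rcases hu k h with h | h
      · omega
      · rw [h, wt_key]; omega
    · rcases hv k h with h | h
      · omega
      · rw [h, wt_key]; omega
  | left u a b _ =>
    intro k h
    right
    by_contra hk
    exact h (Finsupp.single_eq_of_ne hk)
  | right u a b hu =>
    intro k h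
    by_cases hk : k = .left u a b
    · exact Or.inr hk
    · left
      have : mu p u k ≠ 0 := by
        intro h0
        apply h
        simp [mu, h0, Finsupp.single_eq_of_ne hk]
      simp only [wt]
      rcases hu k this with h | h
      · omega
      · rw [h, wt_key]; omega

variable (p)

/-- total value, label and weight of a multiset of terms -/
noncomputable def muM (M : Multiset (W S)) : W S →₀ C := (M.map (mu p)).sum
def labM (M : Multiset (W S)) : S := (M.map lab).prod
def wtM (M : Multiset (W S)) : ℕ := (M.map wt).sum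

variable {p}

omit [CommMonoid S] in
lemma muM_apply [DecidableEq (W S)] (M : Multiset (W S)) (t k : W S)
    (h : ∀ w ∈ M, w ≠ t → mu p w k = 0) : muM p M k = M.count t • mu p t k := by
  induction M using Multiset.induction_on with
  | empty => simp [muM]
  | cons a M ih =>
    have ih := ih (fun w hw => h w (Multiset.mem_cons_of_mem hw))
    simp only [muM, Multiset.map_cons, Multiset.sum_cons, Finsupp.add_apply] at ih ⊢
    rw [ih]
    by_cases ha : a = t
    · subst ha
      rw [Multiset.count_cons_self, succ_nsmul, add_comm]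
    · rw [h a (Multiset.mem_cons_self _ _) ha, Multiset.count_cons_of_ne (Ne.symm ha), zero_add]

/-- The conclusion of a reduction step. -/
def Red (p : S → ℕ) (M : Multiset (W S)) : Prop :=
  ∃ M' : Multiset (W S), (∀ w ∈ M', Val w) ∧ muM p M' = muM p M ∧ labM M' = labM M ∧
    wtM M' < wtM M

lemma red_rep (hp : ∀ x, 0 < p x) (M : Multiset (W S)) (hM : ∀ w ∈ M, Val w) (t k : W S)
    (ht : t ∈ M) (hwt : 0 < wt t) (h : ∀ w ∈ M, w ≠ t → mu p w k = 0)
    (ho : addOrderOf (mu p t k) = ord p t) (hi : IsIdempotentElem (lab t ^ ord p t))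
    (h0 : muM p M k = 0) : Red p M := by
  classical
  rw [muM_apply M t k h, ← addOrderOf_dvd_iff_nsmul_eq_zero, ho] at h0
  have hc := Nat.le_of_dvd (Multiset.count_pos.2 ht) h0
  obtain ⟨R, rfl⟩ := Multiset.le_iff_exists_add.1 (Multiset.le_count_iff_replicate_le.1 hc)
  refine ⟨.idem (lab t ^ ord p t) ::ₘ R, ?_, ?_, ?_, ?_⟩
  · intro w hw
    rcases Multiset.mem_cons.1 hw with rfl | hw
    · exact hi
    · exact hM w (Multiset.mem_add.2 (Or.inr hw))
  · simp [muM, mu, ord_smul hp]
  · simp [labM, lab]
  · have := Nat.mul_pos (ord_pos hp t) hwt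
    simp [wtM, wt, this]

lemma red (hp : ∀ x, 0 < p x) (hi : ∀ x, IsIdempotentElem (x ^ p x))
    (M : Multiset (W S)) (hM : ∀ w ∈ M, Val w) (t : W S)
    (ht : t ∈ M) (hmax : ∀ w ∈ M, wt w ≤ wt t) (hwt : 0 < wt t)
    (h0 : muM p M (key t) = 0) : Red p M := by
  classical
  have hk : ∀ w ∈ M, mu p w (key t) ≠ 0 → key t = key w := by
    intro w hw h
    rcases supp w _ h with h | h
    · rw [wt_key] at h
      exact absurd (hmax w hw) (by omega)
    · exact h
  have pair : ∀ u a b, W.left u a b ∈ M → W.right u a b ∈ M → Red p M := by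
    intro u a b h1 h2
    obtain ⟨M1, rfl⟩ := Multiset.exists_cons_of_mem h1
    have h3 : W.right u a b ∈ M1 := by
      rcases Multiset.mem_cons.1 h2 with h | h
      · cases h
      · exact h
    obtain ⟨M2, rfl⟩ := Multiset.exists_cons_of_mem h3
    have hv : Val u ∧ lab u = a * b := hM _ h1
    refine ⟨u ::ₘ M2, ?_, ?_, ?_, ?_⟩
    · intro w hw
      rcases Multiset.mem_cons.1 hw with rfl | hw
      · exact hv.1
      · exact hM w (Multiset.mem_cons_of_mem (Multiset.mem_cons_of_mem hw))
    · simp only [muM, mu, Multiset.map_cons, Multiset.sum_cons]; abel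
    · simp [labM, lab, hv.2, mul_assoc]
    · simp only [wtM, wt, Multiset.map_cons, Multiset.sum_cons]; omega
  cases t with
  | base x =>
    refine red_rep hp M hM _ _ ht hwt ?_ ?_ ?_ h0
    · intro w hw hne
      by_contra h
      have := hk w hw h
      cases w <;> simp_all [key]
    · simp only [mu, key, Finsupp.single_eq_same]
      exact addOrderOf_inv (ord_pos hp (.base x))
    · simp only [lab, ord]
      rw [mul_comm, pow_mul]
      exact (hi x).pow 2
  | idem e => simp [wt] at hwt
  | mul u v =>
    obtain ⟨M1, rfl⟩ := Multiset.exists_cons_of_mem ht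
    have hv : Val u ∧ Val v := hM _ ht
    refine ⟨u ::ₘ v ::ₘ M1, ?_, ?_, ?_, ?_⟩
    · intro w hw
      rcases Multiset.mem_cons.1 hw with rfl | hw
      · exact hv.1
      rcases Multiset.mem_cons.1 hw with rfl | hw
      · exact hv.2
      · exact hM w (Multiset.mem_cons_of_mem hw)
    · simp only [muM, mu, Multiset.map_cons, Multiset.sum_cons]; abel
    · simp [labM, lab, mul_assoc]
    · simp only [wtM, wt, Multiset.map_cons, Multiset.sum_cons]; omega
  | left u a b =>
    by_cases h2 : W.right u a b ∈ M
    · exact pair u a b ht h2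
    refine red_rep hp M hM _ _ ht hwt ?_ ?_ ?_ h0
    · intro w hw hne
      by_contra h
      have := hk w hw h
      cases w <;> simp_all [key]
    · simp only [mu, key, Finsupp.single_eq_same]
      exact addOrderOf_inv (ord_pos hp (.left u a b))
    · simp only [lab, ord]
      rw [show ord p u * (p a * p b) = p a * (ord p u * p b) by ring, pow_mul]
      exact (hi a).pow _
  | right u a b =>
    by_cases h2 : W.left u a b ∈ M
    · exact pair u a b h2 ht
    refine red_rep hp M hM _ _ ht hwt ?_ ?_ ?_ h0
    · intro w hw hne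
      by_contra h
      have := hk w hw h
      cases w <;> simp_all [key]
    · have : mu p u (.left u a b) = 0 := by
        by_contra h
        rcases supp u _ h with h | h
        · simp only [wt] at h; omega
        · have := congrArg wt h
          rw [wt_key] at this
          simp only [wt] at this; omega
      simp only [mu, key, Finsupp.sub_apply, Finsupp.single_eq_same, this, zero_sub,
        addOrderOf_neg]
      exact addOrderOf_inv (ord_pos hp (.left u a b))
    · simp only [lab, ord]
      rw [show ord p u * (p a * p b) = p b * (ord p u * p a) by ring, pow_mul]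
      exact (hi b).pow _

lemma all_idem (M : Multiset (W S)) (hM : ∀ w ∈ M, Val w) (h : ∀ w ∈ M, wt w = 0) :
    muM p M = 0 ∧ IsIdempotentElem (labM M) := by
  induction M using Multiset.induction_on with
  | empty => simp [muM, labM, IsIdempotentElem.one]
  | cons a M ih =>
    have ih := ih (fun w hw => hM w (Multiset.mem_cons_of_mem hw))
      (fun w hw => h w (Multiset.mem_cons_of_mem hw))
    have h1 := hM a (Multiset.mem_cons_self _ _)
    have h2 := h a (Multiset.mem_cons_self _ _)
    cases a with
    | idem e =>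
      simp only [muM, labM, Multiset.map_cons, Multiset.sum_cons, Multiset.prod_cons, mu, lab,
        zero_add] at ih ⊢
      exact ⟨ih.1, IsIdempotentElem.mul h1 ih.2⟩
    | _ => simp [wt] at h2

lemma zero_case (hp : ∀ x, 0 < p x) (hi : ∀ x, IsIdempotentElem (x ^ p x)) (n : ℕ) :
    ∀ M : Multiset (W S), wtM M = n → (∀ w ∈ M, Val w) → muM p M = 0 →
      IsIdempotentElem (labM M) := by
  induction n using Nat.strong_induction_on with
  | _ n ih =>
    intro M hn hM h0
    by_cases he : M = 0
    · subst he; simp [labM, IsIdempotentElem.one]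
    obtain ⟨t, ht, hmax⟩ := Multiset.exists_max_image wt he
    by_cases hwt : wt t = 0
    · exact (all_idem (p := p) M hM (fun w hw => by have := hmax w hw; omega)).2
    obtain ⟨M', h1, h2, h3, h4⟩ := red hp hi M hM t ht hmax (by omega) (by simp [h0])
    rw [← h3]
    exact ih _ (hn ▸ h4) M' rfl h1 (h2.trans h0)

lemma base_case (hp : ∀ x, 0 < p x) (hi : ∀ x, IsIdempotentElem (x ^ p x)) (x : S) (n : ℕ) :
    ∀ M : Multiset (W S), wtM M = n → (∀ w ∈ M, Val w) → muM p M = mu p (.base x) →
      ∃ e, IsIdempotentElem e ∧ labM M = x * e := by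
  have hne : mu p (W.base x) ≠ 0 := by
    intro h
    have h1 : inv (2 * p x) = 0 := by simpa [mu] using h
    have h2 := addOrderOf_inv (ord_pos hp (W.base x))
    simp only [ord] at h2
    rw [h1, addOrderOf_zero] at h2
    omega
  induction n using Nat.strong_induction_on with
  | _ n ih =>
    intro M hn hM h0
    by_cases he : M = 0
    · subst he
      exact absurd h0.symm (by simpa [muM] using hne)
    obtain ⟨t, ht, hmax⟩ := Multiset.exists_max_image wt he
    by_cases hwt : wt t = 0
    · have := (all_idem (p := p) M hM (fun w hw => by have := hmax w hw; omega)).1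
      exact absurd (h0.symm.trans this) hne
    by_cases hx : t = .base x
    · subst hx
      obtain ⟨M1, rfl⟩ := Multiset.exists_cons_of_mem ht
      refine ⟨labM M1, zero_case hp hi _ M1 rfl
        (fun w hw => hM w (Multiset.mem_cons_of_mem hw)) ?_, by simp [labM, lab]⟩
      simpa [muM] using h0
    obtain ⟨M', h1, h2, h3, h4⟩ := red hp hi M hM t ht hmax (by omega) (by
      rw [h0]
      apply Finsupp.single_eq_of_ne
      cases t <;> simp_all [key])
    rw [← h3]
    exact ih _ (hn ▸ h4) M' rfl h1 (h2.trans h0)

theorem monoid_case (hp : ∀ x, 0 < p x) (hi : ∀ x, IsIdempotentElem (x ^ p x)) :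
    ∃ (G : Type) (_ : CommGroup G), Monoid.IsTorsion G ∧
      ∃ f : S →ₙ* Set G, Function.Injective f ∧ ∀ s : S, (f s).Nonempty := by
  have tors : ∀ c : C, IsOfFinAddOrder c := by
    intro c
    induction c using QuotientAddGroup.induction_on with
    | H q =>
      rw [isOfFinAddOrder_iff_nsmul_eq_zero]
      refine ⟨q.den, q.den_pos, ?_⟩
      change q.den • ((q : ℚ) : AddCircle (1 : ℚ)) = 0
      rw [← AddCircle.coe_nsmul, AddCircle.coe_eq_zero_iff]
      exact ⟨q.num, by simp [Rat.den_mul_eq_num]⟩
  let A : S → Set (Multiplicative (W S →₀ C)) :=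
    fun x => {g | ∃ w, Val w ∧ lab w = x ∧ mu p w = g.toAdd}
  have sub : ∀ x y, A x = A y → ∃ e, IsIdempotentElem e ∧ y = x * e := by
    intro x y h
    have : Multiplicative.ofAdd (mu p (W.base x)) ∈ A y := h ▸ ⟨.base x, trivial, rfl, rfl⟩
    obtain ⟨w, h1, h2, h3⟩ := this
    have := base_case hp hi x _ {w} rfl (by simpa using h1) (by simpa [muM] using h3)
    simpa [labM, h2] using this
  refine ⟨Multiplicative (W S →₀ C), inferInstance, ?_, ⟨A, ?_⟩, ?_, ?_⟩
  · intro g
    change IsOfFinOrder (Multiplicative.ofAdd g.toAdd)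
    rw [isOfFinOrder_ofAdd_iff]
    generalize g.toAdd = v
    induction v using Finsupp.induction_linear with
    | zero => exact IsOfFinAddOrder.zero
    | add f g hf hg => exact hf.add hg
    | single a c => exact (Finsupp.singleAddHom a).isOfFinAddOrder (tors c)
  · intro x y
    ext g
    constructor
    · rintro ⟨w, h1, h2, h3⟩
      refine ⟨Multiplicative.ofAdd (mu p (.left w x y)), ⟨.left w x y, ⟨h1, h2⟩, rfl, rfl⟩,
        Multiplicative.ofAdd (mu p (.right w x y)), ⟨.right w x y, ⟨h1, h2⟩, rfl, rfl⟩, ?_⟩
      apply Multiplicative.toAdd.injective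
      simp [mu, h3]
    · rintro ⟨a, ⟨u, h1, h2, h3⟩, b, ⟨v, g1, g2, g3⟩, rfl⟩
      exact ⟨.mul u v, ⟨h1, g1⟩, by simp [lab, h2, g2], by simp [mu, h3, g3]⟩
  · intro x y h
    obtain ⟨e, he, h1⟩ := sub x y h
    obtain ⟨f, -, h2⟩ := sub y x h.symm
    have h3 : x = x * f * e := by rw [mul_right_comm, ← h1, ← h2]
    calc x = x * f * e := h3
      _ = x * f * e * e := by rw [mul_assoc _ e e, he.eq]
      _ = y := by rw [← h3, ← h1]
  · intro s
    exact ⟨Multiplicative.ofAdd (mu p (.base s)), .base s, trivial, rfl, rfl⟩

lemma exists_idem_pow {M : Type} [Monoid M] (x : M) (h : (Set.range fun n : ℕ => x ^ n).Finite) :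
    ∃ n, 0 < n ∧ IsIdempotentElem (x ^ n) := by
  have : ¬ Function.Injective fun n : ℕ => x ^ n := fun hinj =>
    Set.infinite_range_of_injective hinj h
  obtain ⟨i, j, hij, e⟩ : ∃ i j : ℕ, i < j ∧ x ^ i = x ^ j := by
    by_contra hc
    push Not at hc
    apply this
    intro i j e
    rcases lt_trichotomy i j with h | h | h
    · exact absurd e (hc i j h)
    · exact h
    · exact absurd e.symm (hc j i h)
  obtain ⟨d, rfl⟩ := Nat.exists_eq_add_of_lt hij
  have key : ∀ k, x ^ i = x ^ (i + k * (d + 1)) := by
    intro k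
    induction k with
    | zero => simp
    | succ k ih =>
      rw [show i + (k + 1) * (d + 1) = (i + d + 1) + k * (d + 1) by ring, pow_add, ← e,
        ← pow_add, ← ih]
  refine ⟨(i + 1) * (d + 1), by positivity, ?_⟩
  have h1 : (i + 1) * (d + 1) = i + (i * d + d + 1) := by ring
  unfold IsIdempotentElem
  calc x ^ ((i + 1) * (d + 1)) * x ^ ((i + 1) * (d + 1))
      = x ^ (i + (i + 1) * (d + 1)) * x ^ (i * d + d + 1) := by
        rw [← pow_add, ← pow_add]; congr 1; ring
    _ = x ^ ((i + 1) * (d + 1)) := by rw [← key, ← pow_add, h1]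

theorem main (S : Type) [CommSemigroup S]
    (h : ∀ x : S, (Subsemigroup.closure ({x} : Set S) : Set S).Finite) :
    ∃ (G : Type) (_ : CommGroup G), Monoid.IsTorsion G ∧
      ∃ f : S →ₙ* Set G, Function.Injective f ∧ ∀ s : S, (f s).Nonempty := by
  have : ∀ x : WithOne S, ∃ n, 0 < n ∧ IsIdempotentElem (x ^ n) := by
    intro x
    induction x using WithOne.recOneCoe with
    | one => exact ⟨1, one_pos, by simp [IsIdempotentElem.one]⟩
    | coe s =>
      apply exists_idem_pow
      apply (((h s).image (fun y : S => (y : WithOne S))).insert 1).subset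
      rintro _ ⟨n, rfl⟩
      induction n with
      | zero => simp
      | succ n ih =>
        right
        have hs : s ∈ Subsemigroup.closure ({s} : Set S) := Subsemigroup.subset_closure rfl
        rcases ih with ih | ⟨y, hy, e⟩
        · exact ⟨s, hs, by simp only at ih ⊢; rw [pow_succ, ih, one_mul]⟩
        · exact ⟨y * s, mul_mem hy hs, by simp only at e ⊢; rw [pow_succ, ← e, WithOne.coe_mul]⟩
  choose p hp hi using this
  obtain ⟨G, _, hG, f, hf, hne⟩ := monoid_case hp hi
  exact ⟨G, inferInstance, hG, f.comp WithOne.coeMulHom,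
    hf.comp (fun a b e => WithOne.coe_inj.1 e), fun s => hne _⟩

end Pool.Agent.H77.PowPeriodic
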