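import Pool.Agent.H77.QVDefs

set_option autoImplicit false

namespace Pool.Agent.H77.QV

open FirstOrder FirstOrder.Language Structure

theorem emb_of {α β : Type 1} [PartialOrder α] [PartialOrder β] (Φ : α → β)
    (ho : ∀ a b, Φ a ≤ Φ b ↔ a ≤ b)
    (hj : ∀ a b N, Φ a ≤ N → Φ b ≤ N → ∃ c, a ≤ c ∧ b ≤ c ∧ Φ c ≤ N)
    (hm : ∀ a b N, N ≤ Φ a → N ≤ Φ b → ∃ c, c ≤ a ∧ c ≤ b ∧ N ≤ Φ c) : IsLatEmb Φ := by
  refine ⟨fun a b h => le_antisymm ((ho _ _).1 h.le) ((ho _ _).1 h.ge), fun a b c => ⟨?_, ?_⟩⟩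
  · intro h
    refine ⟨?_, fun N hN => ?_⟩
    · rintro _ (rfl | rfl)
      · exact (ho _ _).2 (h.1 (Or.inl rfl))
      · exact (ho _ _).2 (h.1 (Or.inr rfl))
    · obtain ⟨c', h1, h2, h3⟩ := hj a b N (hN (Or.inl rfl)) (hN (Or.inr rfl))
      refine le_trans ((ho _ _).2 (h.2 ?_)) h3
      rintro _ (rfl | rfl)
      · exact h1
      · exact h2
  · intro h
    refine ⟨?_, fun N hN => ?_⟩
    · rintro _ (rfl | rfl)
      · exact (ho _ _).2 (h.1 (Or.inl rfl))
      · exact (ho _ _).2 (h.1 (Or.inr rfl))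
    · obtain ⟨c', h1, h2, h3⟩ := hm a b N (hN (Or.inl rfl)) (hN (Or.inr rfl))
      refine le_trans h3 ((ho _ _).2 (h.2 ?_))
      rintro _ (rfl | rfl)
      · exact h1
      · exact h2

theorem IsLatEmb.comp {α β γ : Type 1} [PartialOrder α] [PartialOrder β] [PartialOrder γ]
    {Φ : α → β} {Ψ : β → γ} (h1 : IsLatEmb Φ) (h2 : IsLatEmb Ψ) : IsLatEmb (Ψ ∘ Φ) :=
  ⟨h2.1.comp h1.1, fun a b c => ⟨fun h => (h2.2 _ _ _).1 ((h1.2 a b c).1 h),
    fun h => (h2.2 _ _ _).2 ((h1.2 a b c).2 h)⟩⟩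

variable {L : FirstOrder.Language.{0, 0}} {α β : Type}

def Atom.map (g : α → β) : Atom L α → Atom L β
  | .eq s t => .eq (s.relabel g) (t.relabel g)
  | .rel r ts => .rel r fun i => (ts i).relabel g

theorem holds_map {M : Type} [L.Structure M] (g : α → β) (v : β → M) (a : Atom L α) :
    (a.map g).Holds v ↔ a.Holds (v ∘ g) := by
  cases a <;> simp [Atom.map, Atom.Holds]

theorem term_fin (t : L.Term α) : ∃ S : Set α, S.Finite ∧ ∀ (M : Type) [L.Structure M]
    (v w : α → M), (∀ a ∈ S, v a = w a) → t.realize v = t.realize w := by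
  induction t with
  | var a => exact ⟨{a}, Set.finite_singleton _, fun M _ v w h => h a rfl⟩
  | func f ts ih =>
    choose S h1 h2 using ih
    refine ⟨⋃ i, S i, Set.finite_iUnion h1, fun M _ v w h => ?_⟩
    simp only [Term.realize]
    exact congrArg _ (funext fun i => h2 i M v w fun a ha => h a (Set.mem_iUnion.2 ⟨i, ha⟩))

theorem atom_fin (a : Atom L α) : ∃ S : Set α, S.Finite ∧ ∀ (M : Type) [L.Structure M]
    (v w : α → M), (∀ a ∈ S, v a = w a) → a.Holds v → a.Holds w := by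
  cases a with
  | eq s t =>
    obtain ⟨S, h1, h2⟩ := term_fin s
    obtain ⟨T, h3, h4⟩ := term_fin t
    refine ⟨S ∪ T, h1.union h3, fun M _ v w h h' => ?_⟩
    change _ = _ at h' ⊢
    rw [← h2 M v w fun a ha => h a (Or.inl ha), ← h4 M v w fun a ha => h a (Or.inr ha), h']
  | rel r ts =>
    choose S h1 h2 using fun i => term_fin (ts i)
    refine ⟨⋃ i, S i, Set.finite_iUnion h1, fun M _ v w h h' => ?_⟩
    have : (fun i => (ts i).realize v) = fun i => (ts i).realize w :=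
      funext fun i => h2 i M v w fun a ha => h a (Set.mem_iUnion.2 ⟨i, ha⟩)
    change RelMap r _ at h' ⊢
    rwa [← this]

def Valid (A : Sys L) (Γ : List (Atom L α)) (a : Atom L α) : Prop :=
  ∀ v : α → A, (∀ γ ∈ Γ, γ.Holds v) → a.Holds v

def Mod (C : Set (Sys L)) : Set (Sys L) := {A | ∀ q, (∀ B ∈ C, Sat B q) → Sat A q}

theorem Mod_QV (C : Set (Sys L)) : IsQV (Mod C) := ⟨{q | ∀ B ∈ C, Sat B q}, rfl⟩

theorem sub_Mod (C : Set (Sys L)) : C ⊆ Mod C := fun A hA _ h => h A hA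

theorem Mod_sub {C M : Set (Sys L)} (hM : IsQV M) (h : C ⊆ M) : Mod C ⊆ M := by
  obtain ⟨T, rfl⟩ := hM
  exact fun A hA q hq => hA q fun B hB => h hB q hq

theorem Mod_valid {C : Set (Sys L)} {A : Sys L} (hA : A ∈ Mod C) (Γ : List (Atom L α))
    (a : Atom L α) (h : ∀ B ∈ C, Valid B Γ a) : Valid A Γ a := by
  intro v hv
  choose S h1 h2 using fun a : Atom L α => atom_fin a
  have hS : (⋃ γ ∈ {γ | γ ∈ a :: Γ}, S γ).Finite :=
    (List.finite_toSet _).biUnion fun γ _ => h1 γ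
  obtain ⟨r, hr⟩ := Set.countable_iff_exists_injOn.1 hS.countable
  have hi : Function.Injective fun x : (⋃ γ ∈ {γ | γ ∈ a :: Γ}, S γ) => r x :=
    fun x y hxy => Subtype.ext (hr x.2 y.2 hxy)
  let u : ℕ → A := Function.extend (fun x : (⋃ γ ∈ {γ | γ ∈ a :: Γ}, S γ) => r x)
    (fun x : (⋃ γ ∈ {γ | γ ∈ a :: Γ}, S γ) => v x)
    fun _ => Classical.arbitrary A
  have hu : ∀ γ ∈ a :: Γ, ∀ x ∈ S γ, (u ∘ r) x = v x := fun γ hγ x hx =>
    hi.extend_apply (fun x : (⋃ γ ∈ {γ | γ ∈ a :: Γ}, S γ) => v x) (fun _ => Classical.arbitrary A)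
      ⟨x, Set.mem_biUnion (s := {γ | γ ∈ a :: Γ}) hγ hx⟩
  have := hA (Γ.map (Atom.map r), a.map r) (fun B hB w hw => (holds_map _ _ _).2
    (h B hB _ fun γ hγ => (holds_map _ _ _).1 (hw _ (List.mem_map_of_mem hγ)))) u ?_
  · exact h2 a A _ _ (hu a List.mem_cons_self) ((holds_map _ _ _).1 this)
  · intro b hb
    obtain ⟨γ, hγ, rfl⟩ := List.mem_map.1 hb
    exact (holds_map _ _ _).2 (h2 γ A _ _
      (fun x hx => (hu γ (List.mem_cons_of_mem _ hγ) x hx).symm) (hv γ hγ))

theorem holds_hom {A B : Type} [L.Structure A] [L.Structure B] (h : A →[L] B) {v : α → A}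
    {a : Atom L α} (ha : a.Holds v) : a.Holds (h ∘ v) := by
  cases a with
  | eq s t =>
    change _ = _ at ha ⊢
    rw [HomClass.realize_term, HomClass.realize_term, ha]
  | rel r ts =>
    change RelMap r _ at ha ⊢
    simp only [HomClass.realize_term]
    exact h.map_rel r _ ha

def Joint {A B C : Type} [L.Structure A] [L.Structure B] [L.Structure C] (h : A →[L] B)
    (g : A →[L] C) : Prop :=
  (∀ x y, h x = h y → g x = g y → x = y) ∧
    ∀ n (r : L.Relations n) x, RelMap r (h ∘ x) → RelMap r (g ∘ x) → RelMap r x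

theorem holds_joint {A B C : Type} [L.Structure A] [L.Structure B] [L.Structure C]
    {h : A →[L] B} {g : A →[L] C} (hj : Joint h g) {v : α → A}
    {a : Atom L α} (ha : a.Holds (h ∘ v)) (hb : a.Holds (g ∘ v)) : a.Holds v := by
  cases a with
  | eq s t =>
    change _ = _ at ha hb ⊢
    rw [HomClass.realize_term, HomClass.realize_term] at ha hb
    exact hj.1 _ _ ha hb
  | rel r ts =>
    change RelMap r _ at ha hb ⊢
    simp only [HomClass.realize_term] at ha hb
    exact hj.2 _ r _ ha hb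

theorem sat_joint {A B C : Sys L} {h : A →[L] B} {g : A →[L] C} (hj : Joint h g) {q : QI L}
    (hB : Sat B q) (hC : Sat C q) : Sat A q := fun _ hv =>
  holds_joint hj (hB _ fun a ha => holds_hom h (hv a ha)) (hC _ fun a ha => holds_hom g (hv a ha))

theorem sat_iff {A B : Sys L} (g : A →[L] B) (hj : Joint g g) (hs : Function.Surjective g)
    (q : QI L) : Sat B q ↔ Sat A q := by
  refine ⟨fun h => sat_joint hj h h, fun h w hw => ?_⟩
  obtain ⟨v, rfl⟩ := hs.comp_left w
  exact holds_hom g (h v fun a ha => holds_joint hj (hw a ha) (hw a ha))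

section Refl

variable (M : Set (Sys L)) (A : Sys L)

def Der (a : Atom L A) : Prop :=
  ∃ Γ : List (Atom L A), (∀ γ ∈ Γ, γ.Holds id) ∧ ∀ B ∈ M, Valid B Γ a

variable {M A}

theorem Der.of_holds {a : Atom L A} (h : a.Holds id) : Der M A a :=
  ⟨[a], by simpa using h, fun B _ v hv => hv a List.mem_cons_self⟩

theorem Der.cons {Γ : List (Atom L A)} {a : Atom L A} (hΓ : ∀ γ ∈ Γ, Der M A γ)
    (h : ∀ B ∈ M, Valid B Γ a) : Der M A a := by
  have : ∃ Δ : List (Atom L A), (∀ γ ∈ Δ, γ.Holds id) ∧ ∀ γ ∈ Γ, ∀ B ∈ M, Valid B Δ γ := by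
    clear h
    induction Γ with
    | nil => exact ⟨[], by simp, by simp⟩
    | cons b Γ ih =>
      obtain ⟨Δ, h1, h2⟩ := ih fun γ hγ => hΓ γ (List.mem_cons_of_mem _ hγ)
      obtain ⟨Δ', h3, h4⟩ := hΓ b List.mem_cons_self
      refine ⟨Δ ++ Δ', fun γ hγ => (List.mem_append.1 hγ).elim (h1 γ) (h3 γ), ?_⟩
      intro γ hγ B hB v hv
      rcases List.mem_cons.1 hγ with rfl | hγ
      · exact h4 B hB v fun δ hδ => hv δ (List.mem_append_right _ hδ)
      · exact h2 γ hγ B hB v fun δ hδ => hv δ (List.mem_append_left _ hδ)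
  obtain ⟨Δ, h1, h2⟩ := this
  exact ⟨Δ, h1, fun B hB v hv => h B hB v fun γ hγ => h2 γ hγ B hB v hv⟩

theorem Der.fam {n : ℕ} {g : Fin n → Atom L A} {b a : Atom L A} (hg : ∀ i, Der M A (g i))
    (hb : Der M A b)
    (h : ∀ B : Sys L, ∀ v : A → B, (∀ i, (g i).Holds v) → b.Holds v → a.Holds v) : Der M A a := by
  refine Der.cons (Γ := b :: List.ofFn g) ?_ fun B _ v hv => h B v
    (fun i => hv _ (List.mem_cons_of_mem _ (List.mem_ofFn.2 ⟨i, rfl⟩))) (hv _ List.mem_cons_self)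
  intro γ hγ
  rcases List.mem_cons.1 hγ with rfl | hγ
  · exact hb
  · obtain ⟨i, rfl⟩ := List.mem_ofFn.1 hγ
    exact hg i

variable (M A)

def sd : Setoid A where
  r a b := Der M A (.eq (.var a) (.var b))
  iseqv := ⟨fun _ => Der.of_holds rfl,
    fun {a b} h => Der.fam (n := 0) (g := Fin.elim0) (fun i => i.elim0) h
      fun _ _ _ h => Eq.symm h,
    fun {a b c} h h' => Der.fam (n := 1) (g := fun _ => .eq (.var a) (.var b)) (fun _ => h) h'
      fun _ _ h h' => Eq.trans (h 0) h'⟩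

def Rf : Type := Quotient (sd M A)

noncomputable instance : L.Structure (Rf M A) where
  funMap f x := Quotient.mk _ (funMap f fun i => (x i).out)
  RelMap r x := Der M A (.rel r fun i => .var (x i).out)

instance : Nonempty (Rf M A) := ⟨Quotient.mk _ (Classical.arbitrary A)⟩

theorem der_tm (t : L.Term A) : Der M A (.eq t (.var (t.realize id))) := Der.of_holds rfl

theorem rel_iff {n : ℕ} (r : L.Relations n) (x : Fin n → A) :
    RelMap (M := Rf M A) r (fun i => Quotient.mk _ (x i)) ↔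
      Der M A (.rel r fun i => .var (x i)) := by
  have h : ∀ i, Der M A (.eq (.var (Quotient.mk (sd M A) (x i)).out) (.var (x i))) :=
    fun i => Quotient.mk_out (s := sd M A) (x i)
  constructor
  · intro h'
    refine Der.fam h h' fun B v h1 h2 => ?_
    have : (fun i => v (Quotient.mk (sd M A) (x i)).out) = fun i => v (x i) := funext h1
    change RelMap r (fun i => v (Quotient.mk (sd M A) (x i)).out) at h2
    rw [this] at h2
    exact h2
  · intro h'
    refine Der.fam h h' fun B v h1 h2 => ?_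
    have : (fun i => v (Quotient.mk (sd M A) (x i)).out) = fun i => v (x i) := funext h1
    change RelMap r (fun i => v (Quotient.mk (sd M A) (x i)).out)
    rw [this]
    exact h2

noncomputable def mkH : A →[L] Rf M A where
  toFun := Quotient.mk _
  map_fun' {n} f x := by
    refine Quotient.sound ?_
    have h : ∀ i, Der M A (.eq (.var (Quotient.mk (sd M A) (x i)).out) (.var (x i))) :=
      fun i => Quotient.mk_out (s := sd M A) (x i)
    have h1 := der_tm M A (.func f fun i => .var (x i))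
    have h2 := der_tm M A (.func f fun i => .var (Quotient.mk (sd M A) (x i)).out)
    have h3 : Der M A (.eq (.func f fun i => .var (Quotient.mk (sd M A) (x i)).out)
        (.var (funMap f x))) := by
      refine Der.fam h h1 fun B v h1 h2 => ?_
      have : (fun i => v (Quotient.mk (sd M A) (x i)).out) = fun i => v (x i) := funext h1
      change funMap f (fun i => v (Quotient.mk (sd M A) (x i)).out) = _
      rw [this]
      exact h2
    exact Der.fam (n := 1) (fun _ => h3) h2 fun B v h1 h2 => Eq.trans (h1 0).symm h2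
  map_rel' {n} r x h := (rel_iff M A r x).2 (Der.of_holds h)

theorem holds_iff (a : Atom L A) : a.Holds (mkH M A ∘ id) ↔ Der M A a := by
  cases a with
  | eq s t =>
    change _ = _ ↔ _
    rw [HomClass.realize_term, HomClass.realize_term]
    have h : ∀ i : Fin 2, Der M A (.eq (![s, t] i) (.var ((![s, t] i).realize id))) :=
      fun i => der_tm M A _
    constructor
    · intro h'
      exact Der.fam h (Quotient.exact h') fun B v h1 h2 =>
        Eq.trans (h1 0) (Eq.trans h2 (h1 1).symm)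
    · intro h'
      exact Quotient.sound (Der.fam h h' fun B v h1 h2 =>
        Eq.trans (h1 0).symm (Eq.trans h2 (h1 1)))
  | rel r ts =>
    change RelMap r _ ↔ _
    simp only [HomClass.realize_term]
    refine (rel_iff M A r _).trans ⟨fun h' => ?_, fun h' => ?_⟩
    · refine Der.fam (fun i => der_tm M A (ts i)) h' fun B v h1 h2 => ?_
      have : (fun i => (ts i).realize v) = fun i => v ((ts i).realize id) := funext h1
      change RelMap r _
      rw [this]
      exact h2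
    · refine Der.fam (fun i => der_tm M A (ts i)) h' fun B v h1 h2 => ?_
      have : (fun i => (ts i).realize v) = fun i => v ((ts i).realize id) := funext h1
      change RelMap r _ at h2
      rw [this] at h2
      exact h2

noncomputable def RfS : Sys L := Theory.ModelType.of ∅ (Rf M A)

theorem RfS_mem (hM : IsQV M) : RfS M A ∈ M := by
  refine Mod_sub hM le_rfl fun q hq u hu => ?_
  have hs : Function.Surjective (mkH M A) := Quotient.mk_surjective
  obtain ⟨w, rfl⟩ := hs.comp_left u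
  have key : ∀ a : Atom L ℕ, a.Holds (mkH M A ∘ w) ↔ Der M A (a.map w) := fun a => by
    rw [← holds_iff, holds_map]; rfl
  refine (key _).2 (Der.cons (Γ := q.1.map (Atom.map w)) ?_ fun B hB v hv => ?_)
  · intro γ hγ
    obtain ⟨a, ha, rfl⟩ := List.mem_map.1 hγ
    exact (key _).1 (hu a ha)
  · exact (holds_map _ _ _).2
      (hq B hB _ fun a ha => (holds_map _ _ _).1 (hv _ (List.mem_map_of_mem ha)))

end Refl

theorem refl_joint {M N : Set (Sys L)} {A : Sys L} (hA : A ∈ Mod (M ∪ N)) :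
    Joint (mkH M A) (mkH N A) := by
  have key : ∀ a : Atom L A, a.Holds (mkH M A ∘ id) → a.Holds (mkH N A ∘ id) → a.Holds id := by
    intro a h1 h2
    obtain ⟨Γ, h3, h4⟩ := (holds_iff M A a).1 h1
    obtain ⟨Δ, h5, h6⟩ := (holds_iff N A a).1 h2
    refine Mod_valid hA (Γ ++ Δ) a ?_ id
      fun γ hγ => (List.mem_append.1 hγ).elim (h3 γ) (h5 γ)
    rintro B (hB | hB) v hv
    · exact h4 B hB v fun δ hδ => hv δ (List.mem_append_left _ hδ)
    · exact h6 B hB v fun δ hδ => hv δ (List.mem_append_right _ hδ)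
  exact ⟨fun x y => key (.eq (.var x) (.var y)), fun n r x => key (.rel r fun i => .var (x i))⟩

theorem univ_QV : IsQV (Set.univ : Set (Sys L)) := ⟨∅, by simp⟩

theorem interp {L' : FirstOrder.Language.{0, 0}} (enc : Sys L → Type → Sys L') (K : Set (Sys L'))
    (hK : IsQV K) (henc : ∀ A Z, enc A Z ∈ K) (red : ∀ D : Sys L', D ∈ K → Sys L)
    (pr : ∀ (D : Sys L') hD, D → red D hD) (hpr : ∀ D hD, Function.Surjective (pr D hD))
    (tr : Atom L ℕ → Atom L' ℕ)
    (htr : ∀ (D : Sys L') hD a (v : ℕ → D), (tr a).Holds v ↔ a.Holds (pr D hD ∘ v))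
    (hsat : ∀ A Z q, Sat (red (enc A Z) (henc A Z)) q ↔ Sat A q)
    (hc : ∀ (D : Sys L') hD (A B : Sys L) (h : red D hD →[L] A) (g : red D hD →[L] B), Joint h g →
      ∃ (H : D →[L'] enc A D) (G : D →[L'] enc B D), Joint H G)
    (M : Set (Sys L)) (hM : IsQV M) :
    ∃ Φ : Lq M → Lq (Set.univ : Set (Sys L')), IsLatEmb Φ := by
  have ha : ∀ D hD (q : QI L), Sat D (q.1.map tr, tr q.2) ↔ Sat (red D hD) q := by
    intro D hD q
    constructor
    · intro h w hw
      obtain ⟨v, rfl⟩ := (hpr D hD).comp_left w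
      refine (htr D hD _ v).1 (h v fun b hb => ?_)
      obtain ⟨a, ha, rfl⟩ := List.mem_map.1 hb
      exact (htr D hD _ v).2 (hw a ha)
    · intro h v hv
      exact (htr D hD _ v).2 (h _ fun a ha => (htr D hD _ v).1 (hv _ (List.mem_map_of_mem ha)))
  have hq : ∀ N : Set (Sys L), IsQV N → IsQV {D | ∃ hD : D ∈ K, red D hD ∈ N} := by
    rintro _ ⟨T, rfl⟩
    obtain ⟨T', rfl⟩ := hK
    refine ⟨T' ∪ (fun q : QI L => (q.1.map tr, tr q.2)) '' T, Set.ext fun D => ⟨?_, ?_⟩⟩
    · rintro ⟨hD, h⟩ q (hq | ⟨q, hq, rfl⟩)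
      · exact hD q hq
      · exact (ha D hD q).2 (h q hq)
    · intro h
      exact ⟨fun q hq => h q (Or.inl hq), fun q hq => (ha D _ q).1 (h _ (Or.inr ⟨q, hq, rfl⟩))⟩
  have he : ∀ N : Set (Sys L), IsQV N → ∀ A Z, red (enc A Z) (henc A Z) ∈ N ↔ A ∈ N := by
    rintro _ ⟨T, rfl⟩ A Z
    exact forall_congr' fun q => imp_congr Iff.rfl (hsat A Z q)
  refine ⟨fun N => ⟨_, hq N.1 N.2.1, Set.subset_univ _⟩, emb_of _ (fun a b => ⟨fun h A hA => ?_,
    fun h D ⟨hD, h'⟩ => ⟨hD, h h'⟩⟩) (fun a b N h1 h2 => ?_) (fun a b N h1 h2 => ?_)⟩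
  · obtain ⟨_, h'⟩ := h (show enc A Unit ∈ _ from ⟨henc A Unit, (he _ a.2.1 A Unit).2 hA⟩)
    exact (he _ b.2.1 A Unit).1 h'
  · refine ⟨⟨Mod (a.1 ∪ b.1), Mod_QV _, Mod_sub hM (Set.union_subset a.2.2 b.2.2)⟩,
      fun A hA => sub_Mod _ (Or.inl hA), fun A hA => sub_Mod _ (Or.inr hA), ?_⟩
    rintro D ⟨hD, h⟩
    obtain ⟨H, G, hj⟩ := hc D hD (RfS a.1 (red D hD)) (RfS b.1 (red D hD)) _ _ (refl_joint h)
    have m1 : enc (RfS a.1 (red D hD)) D ∈ N.1 :=
      h1 ⟨henc _ D, (he _ a.2.1 _ D).2 (RfS_mem _ _ a.2.1)⟩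
    have m2 : enc (RfS b.1 (red D hD)) D ∈ N.1 :=
      h2 ⟨henc _ D, (he _ b.2.1 _ D).2 (RfS_mem _ _ b.2.1)⟩
    exact Mod_sub N.2.1 le_rfl fun q hq => sat_joint hj (hq _ m1) (hq _ m2)
  · refine ⟨⟨a.1 ∩ b.1, ?_, Set.inter_subset_left.trans a.2.2⟩, Set.inter_subset_left,
      Set.inter_subset_right, fun D hD => ?_⟩
    · obtain ⟨T, hT⟩ := a.2.1
      obtain ⟨T', hT'⟩ := b.2.1
      refine ⟨T ∪ T', ?_⟩
      rw [hT, hT']
      exact Set.ext fun A => ⟨fun h q hq => hq.elim (h.1 q) (h.2 q),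
        fun h => ⟨fun q hq => h q (Or.inl hq), fun q hq => h q (Or.inr hq)⟩⟩
    · obtain ⟨hK', h3⟩ := h1 hD
      obtain ⟨_, h4⟩ := h2 hD
      exact ⟨hK', h3, h4⟩

/-- The term algebra. -/
instance termStr : L.Structure (L.Term α) where
  funMap f x := .func f x
  RelMap _ _ := False

def rz {M : Type} [L.Structure M] (v : α → M) : L.Term α →[L] M where
  toFun t := t.realize v
  map_fun' _ _ := rfl
  map_rel' _ _ h := h.elim

@[simp] theorem rz_var {M : Type} [L.Structure M] (v : α → M) (a : α) :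
    rz (L := L) v (.var a) = v a := rfl

theorem horn {C : Set (Sys L)} {D : Sys L} (hD : D ∈ Mod C) {ι : Type} [Finite ι]
    (s t : ι → L.Term α) (s0 t0 : L.Term α)
    (h : ∀ B ∈ C, ∀ v : α → B, (∀ i, rz v (s i) = rz v (t i)) → rz v s0 = rz v t0)
    (v : α → D) (hv : ∀ i, rz v (s i) = rz v (t i)) : rz v s0 = rz v t0 := by
  haveI := Fintype.ofFinite ι
  refine Mod_valid hD (Finset.univ.toList.map fun i => .eq (s i) (t i)) (.eq s0 t0)
    (fun B hB w hw => h B hB w fun i => hw _ (List.mem_map_of_mem (by simp))) v fun γ hγ => ?_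
  obtain ⟨i, -, rfl⟩ := List.mem_map.1 hγ
  exact hv i

theorem idt {C : Set (Sys L)} {D : Sys L} (hD : D ∈ Mod C) (s0 t0 : L.Term α)
    (h : ∀ B ∈ C, ∀ v : α → B, rz v s0 = rz v t0) (v : α → D) : rz v s0 = rz v t0 :=
  horn hD (ι := Empty) Empty.elim Empty.elim s0 t0 (fun B hB v _ => h B hB v) v fun i => i.elim

end Pool.Agent.H77.QV
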