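import Pool.Agent.H77.QV1

set_option autoImplicit false

namespace Pool.Agent.H77.QV

open FirstOrder FirstOrder.Language Structure Classical

noncomputable section

abbrev Rl (L : FirstOrder.Language.{0, 0}) : Type := Σ n, L.Relations n

inductive F1 (L : FirstOrder.Language.{0, 0}) : ℕ → Type
  | fn {n : ℕ} (f : L.Functions n) : F1 L n
  | e : F1 L 1
  | d (r : Rl L) : F1 L 2
  | p (r : Rl L) (b : Bool) : F1 L (r.1 + 1)
  | pi (r : Rl L) (j : Fin r.1) : F1 L 1

def L1 (L : FirstOrder.Language.{0, 0}) : FirstOrder.Language.{0, 0} := ⟨F1 L, fun _ => Empty⟩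

variable {L : FirstOrder.Language.{0, 0}}

theorem L1_fin [Finite L.Symbols] : Finite (Σ n, (L1 L).Functions n) := by
  haveI : Finite (Rl L) := Finite.of_injective (β := L.Symbols) Sum.inr Sum.inr_injective
  haveI : Finite (Σ n, L.Functions n) :=
    Finite.of_injective (β := L.Symbols) Sum.inl Sum.inl_injective
  refine Finite.of_surjective
    (α := (Σ n, L.Functions n) ⊕ Unit ⊕ Rl L ⊕ (Rl L × Bool) ⊕ (Σ r : Rl L, Fin r.1))
    (Sum.elim (fun f => ⟨f.1, F1.fn f.2⟩) (Sum.elim (fun _ => ⟨1, F1.e⟩) (Sum.elim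
      (fun r => ⟨2, F1.d r⟩) (Sum.elim (fun r => ⟨_, F1.p r.1 r.2⟩)
        fun r => ⟨1, F1.pi r.1 r.2⟩)))) ?_
  rintro ⟨n, f⟩
  cases f with
  | fn f => exact ⟨.inl ⟨n, f⟩, rfl⟩
  | e => exact ⟨.inr (.inl ()), rfl⟩
  | d r => exact ⟨.inr (.inr (.inl r)), rfl⟩
  | p r b => exact ⟨.inr (.inr (.inr (.inl (r, b)))), rfl⟩
  | pi r j => exact ⟨.inr (.inr (.inr (.inr ⟨r, j⟩))), rfl⟩

section Ops

variable {D D' : Type} [(L1 L).Structure D] [(L1 L).Structure D']

def fo {n : ℕ} (f : L.Functions n) (x : Fin n → D) : D := funMap (L := L1 L) (F1.fn f) x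
variable (L) in
def eo (x : D) : D := funMap (L := L1 L) F1.e ![x]
def dd (r : Rl L) (x y : D) : D := funMap (L := L1 L) (F1.d r) ![x, y]
def po (r : Rl L) (b : Bool) (x : D) (y : Fin r.1 → D) : D :=
  funMap (L := L1 L) (F1.p r b) (Fin.cons x y)
def pio (r : Rl L) (j : Fin r.1) (x : D) : D := funMap (L := L1 L) (F1.pi r j) ![x]

@[simp] theorem map_fo (h : D →[L1 L] D') {n : ℕ} (f : L.Functions n) (x : Fin n → D) :
    h (fo f x) = fo f fun i => h (x i) := h.map_fun _ _
@[simp] theorem map_eo (h : D →[L1 L] D') (x : D) : h (eo L x) = eo L (h x) :=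
  (h.map_fun _ _).trans (congrArg _ (funext fun i => by fin_cases i; rfl))
@[simp] theorem map_dd (h : D →[L1 L] D') (r : Rl L) (x y : D) :
    h (dd r x y) = dd r (h x) (h y) :=
  (h.map_fun _ _).trans (congrArg _ (funext fun i => by fin_cases i <;> rfl))
@[simp] theorem map_po (h : D →[L1 L] D') (r : Rl L) (b : Bool) (x : D) (y : Fin r.1 → D) :
    h (po r b x y) = po r b (h x) fun j => h (y j) :=
  (h.map_fun _ _).trans (congrArg _ (funext fun i => Fin.cases rfl (fun _ => rfl) i))
@[simp] theorem map_pio (h : D →[L1 L] D') (r : Rl L) (j : Fin r.1) (x : D) :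
    h (pio r j x) = pio r j (h x) :=
  (h.map_fun _ _).trans (congrArg _ (funext fun i => by fin_cases i; rfl))

def mkHom (H : D → D') (h1 : ∀ n (f : L.Functions n) x, H (fo f x) = fo f fun i => H (x i))
    (h2 : ∀ x, H (eo L x) = eo L (H x)) (h3 : ∀ (r : Rl L) x y, H (dd r x y) = dd r (H x) (H y))
    (h4 : ∀ (r : Rl L) b x y, H (po r b x y) = po r b (H x) fun j => H (y j))
    (h5 : ∀ (r : Rl L) j x, H (pio r j x) = pio r j (H x)) : D →[L1 L] D' where
  toFun := H
  map_rel' r := r.elim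
  map_fun' {n} f x := by
    cases f with
    | fn f => exact h1 _ f x
    | e =>
      obtain ⟨a, rfl⟩ : ∃ a, x = ![a] := ⟨x 0, funext fun i => by fin_cases i; rfl⟩
      exact (h2 a).trans (congrArg _ (funext fun i => by fin_cases i; rfl))
    | d r =>
      obtain ⟨a, b, rfl⟩ : ∃ a b, x = ![a, b] :=
        ⟨x 0, x 1, funext fun i => by fin_cases i <;> rfl⟩
      exact (h3 r a b).trans (congrArg _ (funext fun i => by fin_cases i <;> rfl))
    | p r b =>
      obtain ⟨a, y, rfl⟩ : ∃ a y, x = Fin.cons a y := ⟨_, _, (Fin.cons_self_tail x).symm⟩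
      exact (h4 r b a y).trans (congrArg _ (funext fun i => Fin.cases rfl (fun _ => rfl) i))
    | pi r j =>
      obtain ⟨a, rfl⟩ : ∃ a, x = ![a] := ⟨x 0, funext fun i => by fin_cases i; rfl⟩
      exact (h5 r j a).trans (congrArg _ (funext fun i => by fin_cases i; rfl))

end Ops

def En (A : Sys L) (Z : Type) : Type := A × ∀ r : Rl L, (Fin r.1 → A) × (Bool ⊕ Z)

def io {A : Sys L} (Z : Type) (a : A) : En A Z := (a, fun _ => (fun _ => a, .inl true))

instance (A : Sys L) (Z : Type) : Nonempty (En A Z) := ⟨io Z (Classical.arbitrary A)⟩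

instance (A : Sys L) (Z : Type) : (L1 L).Structure (En A Z) where
  funMap {n} f x := match n, f, x with
    | _, .fn f, x => io Z (funMap f fun i => (x i).1)
    | _, .e, x => io Z (x 0).1
    | _, .d r, x => ((x 0).1, Function.update (x 0).2 r ((x 1).2 r))
    | _, .p r b, x => ((x 0).1, Function.update (x 0).2 r (fun j => (x j.succ).1,
        .inl (b || decide (RelMap r.2 fun j => (x j.succ).1))))
    | _, .pi r j, x => io Z (((x 0).2 r).1 j)
  RelMap r := r.elim

section EnOps

variable {A : Sys L} {Z : Type}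

theorem fo_en {n : ℕ} (f : L.Functions n) (x : Fin n → En A Z) :
    fo f x = io Z (funMap f fun i => (x i).1) := rfl
theorem eo_en (x : En A Z) : eo L x = io Z x.1 := rfl
theorem dd_en (r : Rl L) (x y : En A Z) :
    dd r x y = (x.1, Function.update x.2 r (y.2 r)) := rfl
theorem po_en (r : Rl L) (b : Bool) (x : En A Z) (y : Fin r.1 → En A Z) :
    po r b x y = (x.1, Function.update x.2 r (fun j => (y j).1,
      .inl (b || decide (RelMap r.2 fun j => (y j).1)))) := rfl
theorem pio_en (r : Rl L) (j : Fin r.1) (x : En A Z) : pio r j x = io Z ((x.2 r).1 j) := rfl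
theorem io_1 (a : A) : (io Z a).1 = a := rfl
theorem io_2 (a : A) (r : Rl L) : (io Z a).2 r = (fun _ => a, .inl true) := rfl

end EnOps

def enc1 (A : Sys L) (Z : Type) : Sys (L1 L) := Theory.ModelType.of ∅ (En A Z)

def K1 (L : FirstOrder.Language.{0, 0}) : Set (Sys (L1 L)) := Mod {D | ∃ A Z, D = enc1 A Z}

theorem idt1 {α : Type} {D : Sys (L1 L)} (hD : D ∈ K1 L) (s0 t0 : (L1 L).Term α)
    (h : ∀ (A : Sys L) (Z : Type) (v : α → En A Z), rz v s0 = rz v t0) (v : α → D) :
    rz v s0 = rz v t0 :=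
  idt hD s0 t0 (by rintro _ ⟨A, Z, rfl⟩ v; exact h A Z v) v

section Ax

variable {D : Sys (L1 L)} (hD : D ∈ K1 L)
include hD

theorem E1 (x : D) : eo L (eo L x) = eo L x := by
  simpa using idt1 hD (eo L (eo L (.var ()))) (eo L (.var ())) (fun A Z v => by
    simp [eo_en, io_1]) fun _ => x

theorem E2 {n : ℕ} (f : L.Functions n) (x : Fin n → D) : eo L (fo f x) = fo f x := by
  simpa using idt1 hD (eo L (fo f .var)) (fo f .var) (fun A Z v => by
    simp [eo_en, fo_en, io_1]) x

theorem E3 {n : ℕ} (f : L.Functions n) (x : Fin n → D) :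
    fo f (fun i => eo L (x i)) = fo f x := by
  simpa using idt1 hD (fo f fun i => eo L (.var i)) (fo f .var) (fun A Z v => by
    simp [eo_en, fo_en, io_1]) x

theorem D1 (r : Rl L) (x y : D) : eo L (dd r x y) = eo L x := by
  simpa using idt1 hD (eo L (dd r (.var 0) (.var 1))) (eo L (.var 0)) (fun A Z v => by
    simp [eo_en, dd_en]) ![x, y]

theorem D2 (r : Rl L) (z x y : D) : dd r z (dd r x y) = dd r z y := by
  simpa using idt1 hD (dd r (.var 0) (dd r (.var 1) (.var 2))) (dd r (.var 0) (.var 2))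
    (fun A Z v => by simp [dd_en]) ![z, x, y]

theorem D3 {r r' : Rl L} (h : r ≠ r') (z x y : D) : dd r z (dd r' x y) = dd r z x := by
  simpa using idt1 hD (dd r (.var 0) (dd r' (.var 1) (.var 2))) (dd r (.var 0) (.var 1))
    (fun A Z v => by simp [dd_en, Function.update_of_ne h]) ![z, x, y]

theorem D4 [Finite (Rl L)] (z x y : D) (h1 : eo L x = eo L y) (h2 : ∀ r : Rl L, dd r z x = dd r z y) :
    x = y := by
  have := horn hD (ι := Option (Rl L)) (α := Fin 3)
    (fun i => i.elim (eo L (.var 1)) fun r => dd r (.var 0) (.var 1))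
    (fun i => i.elim (eo L (.var 2)) fun r => dd r (.var 0) (.var 2)) (.var 1) (.var 2) ?_
    ![z, x, y] ?_
  · simpa using this
  · rintro _ ⟨A, Z, rfl⟩ v hv
    have key : ∀ w : Fin 3 → En A Z, eo L (w 1) = eo L (w 2) →
        (∀ r : Rl L, dd r (w 0) (w 1) = dd r (w 0) (w 2)) → w 1 = w 2 := by
      intro w h3 h4
      refine Prod.ext (congrArg Prod.fst h3 :) (funext fun r => ?_)
      have := congrFun (congrArg Prod.snd (h4 r)) r
      simpa [dd_en] using this
    have h3 := hv none
    simp only [Option.elim, map_eo, rz_var] at h3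
    refine key v h3 fun r => ?_
    have h4 := hv (some r)
    simp only [Option.elim, map_dd, rz_var] at h4
    exact h4
  · rintro (_ | r)
    · simpa using h1
    · simpa using h2 r

theorem P1 (r : Rl L) (b : Bool) (x : D) (y : Fin r.1 → D) : eo L (po r b x y) = eo L x := by
  simpa using idt1 hD (eo L (po r b (.var none) fun j => .var (some j))) (eo L (.var none))
    (fun A Z v => by simp [eo_en, po_en]) fun i => i.elim x y

theorem P2 (r : Rl L) (b : Bool) (z x : D) (y : Fin r.1 → D) :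
    dd r z (po r b x y) = po r b z y := by
  simpa using idt1 hD (dd r (.var (.inl 0)) (po r b (.var (.inl 1)) fun j => .var (.inr j)))
    (po r b (.var (.inl 0)) fun j => .var (.inr j))
    (fun A Z v => by simp [dd_en, po_en]) (Sum.elim ![z, x] y)

theorem P3 {r r' : Rl L} (h : r ≠ r') (b : Bool) (z x : D) (y : Fin r'.1 → D) :
    dd r z (po r' b x y) = dd r z x := by
  simpa using idt1 hD (dd r (.var (.inl 0)) (po r' b (.var (.inl 1)) fun j => .var (.inr j)))
    (dd r (.var (.inl 0)) (.var (.inl 1)))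
    (fun A Z v => by simp [dd_en, po_en, Function.update_of_ne h]) (Sum.elim ![z, x] y)

theorem P4 (r : Rl L) (b : Bool) (x : D) (y : Fin r.1 → D) :
    po r b x (fun j => eo L (y j)) = po r b x y := by
  simpa using idt1 hD (po r b (.var none) fun j => eo L (.var (some j)))
    (po r b (.var none) fun j => .var (some j))
    (fun A Z v => by simp only [map_po, map_eo, rz_var]; rfl) fun i => i.elim x y

theorem Q1 (r : Rl L) (j : Fin r.1) (z x : D) : pio r j (dd r z x) = pio r j x := by
  simpa using idt1 hD (pio r j (dd r (.var 0) (.var 1))) (pio r j (.var 1))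
    (fun A Z v => by simp [pio_en, dd_en]) ![z, x]

theorem Q2 (r : Rl L) (j : Fin r.1) (x : D) : eo L (pio r j x) = pio r j x := by
  simpa using idt1 hD (eo L (pio r j (.var ()))) (pio r j (.var ()))
    (fun A Z v => by simp [pio_en, eo_en, io_1]) fun _ => x

theorem Q3 (r : Rl L) (j : Fin r.1) (b : Bool) (x : D) (y : Fin r.1 → D) :
    pio r j (po r b x y) = eo L (y j) := by
  simpa using idt1 hD (pio r j (po r b (.var none) fun j => .var (some j)))
    (eo L (.var (some j))) (fun A Z v => by simp [eo_en, po_en, pio_en]) fun i => i.elim x y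

theorem I1 (r : Rl L) (z x : D) : dd r z (eo L x) = po r true z fun _ => x := by
  simpa using idt1 hD (dd r (.var 0) (eo L (.var 1))) (po r true (.var 0) fun _ => .var 1)
    (fun A Z v => by simp [po_en, dd_en, eo_en, io_2]) ![z, x]

end Ax

def Fx (D : Sys (L1 L)) (_ : D ∈ K1 L) : Type := {x : D // eo L x = x}

def pr1 (D : Sys (L1 L)) (hD : D ∈ K1 L) (x : D) : Fx D hD := ⟨eo L x, E1 hD x⟩

instance (D : Sys (L1 L)) (hD : D ∈ K1 L) : Nonempty (Fx D hD) :=
  ⟨pr1 D hD (Classical.arbitrary D)⟩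

instance (D : Sys (L1 L)) (hD : D ∈ K1 L) : L.Structure (Fx D hD) where
  funMap f y := ⟨fo f fun i => (y i).1, E2 hD _ _⟩
  RelMap {n} r y := po ⟨n, r⟩ true (Classical.arbitrary D) (fun i => (y i).1) =
    po ⟨n, r⟩ false (Classical.arbitrary D) fun i => (y i).1

def red1 (D : Sys (L1 L)) (hD : D ∈ K1 L) : Sys L := Theory.ModelType.of ∅ (Fx D hD)

def trT : L.Term ℕ → (L1 L).Term ℕ
  | .var n => eo L (.var n)
  | .func f ts => fo f fun i => trT (ts i)

def trA : Atom L ℕ → Atom (L1 L) ℕ
  | .eq s t => .eq (trT s) (trT t)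
  | .rel (n := n) r ts => .eq (po ⟨n, r⟩ true (.var 0) fun i => trT (ts i))
      (po ⟨n, r⟩ false (.var 0) fun i => trT (ts i))

theorem trT_rz (D : Sys (L1 L)) (hD : D ∈ K1 L) (v : ℕ → D) (t : L.Term ℕ) :
    rz v (trT t) = (t.realize (M := Fx D hD) (pr1 D hD ∘ v)).1 := by
  induction t with
  | var n => simp [trT, pr1]
  | func f ts ih =>
    simp only [trT, map_fo, ih]
    rfl

theorem po_indep {D : Sys (L1 L)} (hD : D ∈ K1 L) {r : Rl L} {x : D} {y : Fin r.1 → D} (z : D)
    (h : po r true x y = po r false x y) : po r true z y = po r false z y := by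
  rw [← P2 hD r true z x, h, P2 hD]

theorem trA_iff (D : Sys (L1 L)) (hD : D ∈ K1 L) (a : Atom L ℕ) (v : ℕ → D) :
    (trA a).Holds v ↔ a.Holds (M := Fx D hD) (pr1 D hD ∘ v) := by
  cases a with
  | eq s t =>
    change rz v _ = rz v _ ↔ _ = _
    rw [trT_rz D hD, trT_rz D hD]
    exact Subtype.ext_iff.symm
  | @rel n r ts =>
    change rz v (po ⟨n, r⟩ true (.var 0) fun i => trT (ts i)) =
      rz v (po ⟨n, r⟩ false (.var 0) fun i => trT (ts i)) ↔ _
    simp only [map_po, trT_rz D hD]
    exact ⟨po_indep hD _, po_indep hD _⟩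

theorem enc1_mem (A : Sys L) (Z : Type) : enc1 A Z ∈ K1 L := sub_Mod _ ⟨A, Z, rfl⟩

theorem rel_io (A : Sys L) (Z : Type) {n : ℕ} (r : L.Relations n) (x : Fin n → A) (z : En A Z) :
    po ⟨n, r⟩ true z (fun i => io Z (x i)) = po ⟨n, r⟩ false z (fun i => io Z (x i)) ↔
      RelMap r x := by
  constructor
  · intro h
    have := congrFun (congrArg Prod.snd h) ⟨n, r⟩
    simpa [po_en, io_1] using this
  · intro h
    simp [po_en, io_1, h]

def ioH (A : Sys L) (Z : Type) : A →[L] red1 (enc1 A Z) (enc1_mem A Z) where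
  toFun a := ⟨io Z a, rfl⟩
  map_fun' _ _ := rfl
  map_rel' r x h := (rel_io A Z r x _).2 h

theorem sat1 (A : Sys L) (Z : Type) (q : QI L) :
    Sat (red1 (enc1 A Z) (enc1_mem A Z)) q ↔ Sat A q :=
  sat_iff (ioH A Z) ⟨fun _ _ h _ => congrArg (fun x => x.1.1) h,
    fun _ r x h _ => (rel_io A Z r x _).1 h⟩ (fun x => ⟨x.1.1, Subtype.ext x.2⟩) q

def lb {Z : Type} (R : Prop) (P Q X : Z) : Bool ⊕ Z :=
  if X = P ∨ (R ∧ X = Q) then .inl true else if X = Q then .inl false else .inr X

theorem lb_inj {Z : Type} {R S : Prop} {P Q X Y : Z} (h : R → S → P = Q)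
    (h1 : lb R P Q X = lb R P Q Y) (h2 : lb S P Q X = lb S P Q Y) : X = Y := by
  unfold lb at h1 h2
  split_ifs at h1 h2 <;> grind

section Lift

variable {D : Sys (L1 L)} {hD : D ∈ K1 L} {A : Sys L} (h : Fx D hD →[L] A)

def G1 (r : Rl L) (x : D) : (Fin r.1 → A) × (Bool ⊕ D) :=
  (fun j => h (pr1 D hD (pio r j x)),
    lb (RelMap r.2 fun j => h (pr1 D hD (pio r j x)))
      (po r true (Classical.arbitrary D) fun j => pio r j x)
      (po r false (Classical.arbitrary D) fun j => pio r j x) (dd r (Classical.arbitrary D) x))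

theorem G1_congr {r : Rl L} {x y : D}
    (e : dd r (Classical.arbitrary D) x = dd r (Classical.arbitrary D) y) :
    G1 h r x = G1 h r y := by
  have : ∀ j, pio r j x = pio r j y := fun j => by rw [← Q1 hD r j _ x, e, Q1 hD]
  simp only [G1, this, e]

theorem pr1_eo (x : D) : pr1 D hD (eo L x) = pr1 D hD x := Subtype.ext (E1 hD x)

theorem G1_po (r : Rl L) (b : Bool) (x : D) (y : Fin r.1 → D) :
    G1 h r (po r b x y) = (fun j => h (pr1 D hD (y j)),
      .inl (b || decide (RelMap r.2 fun j => h (pr1 D hD (y j))))) := by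
  simp only [G1, Q3 hD, pr1_eo, P4 hD, P2 hD]
  refine Prod.ext rfl ?_
  cases b
  · by_cases hR : RelMap r.2 fun j => h (pr1 D hD (y j))
    · simp [lb, hR]
    · have : po r false (Classical.arbitrary D) y ≠ po r true (Classical.arbitrary D) y := by
        intro e
        refine hR (h.map_rel r.2 (fun j => pr1 D hD (y j)) ?_)
        change po r true _ (fun j => eo L (y j)) = po r false _ (fun j => eo L (y j))
        rw [P4 hD, P4 hD, e]
      simp [lb, hR, this]
  · simp [lb]

def H1 (x : D) : En A D := (h (pr1 D hD x), fun r => G1 h r x)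

theorem H1_eo (x : D) : H1 h (eo L x) = io D (h (pr1 D hD x)) := by
  refine Prod.ext (congrArg h (pr1_eo x)) (funext fun r => ?_)
  change G1 h r (eo L x) = _
  rw [G1_congr h (y := po r true (Classical.arbitrary D) fun _ => x) (by rw [I1 hD, P2 hD]),
    G1_po]
  rfl

def HH : D →[L1 L] En A D := mkHom (H1 h)
  (fun n f x => by
    rw [← E2 hD, H1_eo]
    refine congrArg (io D) (Eq.trans (congrArg h ?_) (h.map_fun f fun i => pr1 D hD (x i)))
    exact Subtype.ext ((E2 hD f x).trans (E3 hD f x).symm))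
  (H1_eo h)
  (fun r x y => by
    refine Prod.ext (congrArg h (Subtype.ext (D1 hD r x y))) (funext fun r' => ?_)
    change G1 h r' _ = Function.update (fun r => G1 h r x) r (G1 h r y) r'
    by_cases e : r' = r
    · subst e
      rw [Function.update_self]
      exact G1_congr h (D2 hD _ _ _ _)
    · rw [Function.update_of_ne e]
      exact G1_congr h (D3 hD e _ _ _))
  (fun r b x y => by
    refine Prod.ext (congrArg h (Subtype.ext (P1 hD r b x y))) (funext fun r' => ?_)
    change G1 h r' _ = Function.update (fun r => G1 h r x) r (fun j => h (pr1 D hD (y j)),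
      .inl (b || decide (RelMap r.2 fun j => h (pr1 D hD (y j))))) r'
    by_cases e : r' = r
    · subst e
      rw [Function.update_self]
      exact G1_po h _ _ _ _
    · rw [Function.update_of_ne e]
      exact G1_congr h (P3 hD e _ _ _ _))
  (fun r j x => by
    rw [← Q2 hD, H1_eo]
    rfl)

end Lift

theorem step1 [Finite L.Symbols] (M : Set (Sys L)) (hM : IsQV M) :
    ∃ Φ : Lq M → Lq (Set.univ : Set (Sys (L1 L))), IsLatEmb Φ := by
  haveI : Finite (Rl L) := Finite.of_injective (β := L.Symbols) Sum.inr Sum.inr_injective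
  refine interp enc1 (K1 L) (Mod_QV _) enc1_mem red1 pr1
    (fun D hD x => ⟨x.1, Subtype.ext x.2⟩) trA trA_iff sat1 ?_ M hM
  intro D hD A B h g hj
  refine ⟨HH h, HH g, fun x y e1 e2 => ?_, fun _ r => r.elim⟩
  have a1 : h (pr1 D hD x) = h (pr1 D hD y) := congrArg Prod.fst e1
  have a2 : g (pr1 D hD x) = g (pr1 D hD y) := congrArg Prod.fst e2
  refine D4 hD (Classical.arbitrary D) x y (congrArg Subtype.val (hj.1 _ _ a1 a2)) fun r => ?_
  have b1 : G1 h r x = G1 h r y := congrFun (congrArg Prod.snd e1) r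
  have b2 : G1 g r x = G1 g r y := congrFun (congrArg Prod.snd e2) r
  have c : ∀ j, pio r j x = pio r j y := fun j => by
    have := congrArg Subtype.val
      (hj.1 _ _ (congrFun (congrArg Prod.fst b1) j) (congrFun (congrArg Prod.fst b2) j))
    rw [← Q2 hD r j x, ← Q2 hD r j y]
    exact this
  have c1 := congrArg Prod.snd b1
  have c2 := congrArg Prod.snd b2
  simp only [G1, c] at c1 c2
  refine lb_inj (fun r1 r2 => ?_) c1 c2
  have := hj.2 _ r.2 (fun j => pr1 D hD (pio r j y)) r1 r2
  rw [← P4 hD r true, ← P4 hD r false]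
  exact this

end

end Pool.Agent.H77.QV
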