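import Pool.Agent.H77.QV2

set_option autoImplicit false

namespace Pool.Agent.H77.QV

open FirstOrder FirstOrder.Language Structure Classical

noncomputable section

inductive F0 : ℕ → Type
  | s : F0 1
  | F : F0 1
  | m : F0 2

def L0 : FirstOrder.Language.{0, 0} := ⟨F0, fun _ => Empty⟩

theorem L0_fin : Finite L0.Symbols := by
  refine Finite.of_surjective (α := Fin 3)
    ![Sum.inl ⟨1, F0.s⟩, Sum.inl ⟨1, F0.F⟩, Sum.inl ⟨2, F0.m⟩] ?_
  rintro (⟨n, f⟩ | ⟨n, r⟩)
  · cases f
    · exact ⟨0, rfl⟩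
    · exact ⟨1, rfl⟩
    · exact ⟨2, rfl⟩
  · exact r.elim

abbrev Fn (L : FirstOrder.Language.{0, 0}) : Type := Σ n, L.Functions n

structure Dat (L : FirstOrder.Language.{0, 0}) where
  K : ℕ
  un : ℕ → Option (Fn L)
  sl : Fn L → ℕ
  hsl : ∀ f, un (sl f) = some f
  hle : ∀ f, sl f ≤ K
  har : ∀ f : Fn L, f.1 ≤ K

variable {L : FirstOrder.Language.{0, 0}}

theorem exists_dat [Finite (Fn L)] : Nonempty (Dat L) := by
  obtain ⟨sl, hsl⟩ := exists_injective_nat (Fn L)
  obtain ⟨N, hN⟩ := (Set.finite_range fun f : Fn L => sl f + f.1).bddAbove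
  refine ⟨⟨N, Function.extend sl some fun _ => none, sl, fun f => hsl.extend_apply _ _ f,
    fun f => ?_, fun f => ?_⟩⟩
  · have := hN ⟨f, rfl⟩
    simp only at this
    omega
  · have := hN ⟨f, rfl⟩
    simp only at this
    omega

section Ops

variable {D D' : Type} [L0.Structure D] [L0.Structure D']

def so (x : D) : D := funMap (L := L0) F0.s ![x]
def Fo (x : D) : D := funMap (L := L0) F0.F ![x]
def mo (x y : D) : D := funMap (L := L0) F0.m ![x, y]

def TT (K : ℕ) (u : ℕ → D) : ℕ → D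
  | 0 => u 0
  | m + 1 => mo (u (K - m)) (TT K u m)

def tup (K : ℕ) (u : ℕ → D) : D := TT K u (K + 1)
def ee (K : ℕ) (x : D) : D := tup K fun _ => x
def co (K j : ℕ) (x : D) : D := ee K (so^[j] x)
def pad {n : ℕ} (y : Fin n → D) (z : D) (j : ℕ) : D := if h : j < n then y ⟨j, h⟩ else z
def fs (T : Dat L) (f : Fn L) (y : Fin f.1 → D) (z : D) : D :=
  co T.K (T.sl f) (Fo (tup T.K (pad y z)))

@[simp] theorem map_so (h : D →[L0] D') (x : D) : h (so x) = so (h x) :=
  (h.map_fun _ _).trans (congrArg _ (funext fun i => by fin_cases i; rfl))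
@[simp] theorem map_Fo (h : D →[L0] D') (x : D) : h (Fo x) = Fo (h x) :=
  (h.map_fun _ _).trans (congrArg _ (funext fun i => by fin_cases i; rfl))
@[simp] theorem map_mo (h : D →[L0] D') (x y : D) : h (mo x y) = mo (h x) (h y) :=
  (h.map_fun _ _).trans (congrArg _ (funext fun i => by fin_cases i <;> rfl))
theorem map_TT (h : D →[L0] D') (K : ℕ) (u : ℕ → D) (m : ℕ) :
    h (TT K u m) = TT K (fun j => h (u j)) m := by
  induction m with
  | zero => rfl
  | succ m ih => simp [TT, ih]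
@[simp] theorem map_tup (h : D →[L0] D') (K : ℕ) (u : ℕ → D) :
    h (tup K u) = tup K fun j => h (u j) := map_TT _ _ _ _
@[simp] theorem map_ee (h : D →[L0] D') (K : ℕ) (x : D) : h (ee K x) = ee K (h x) :=
  map_tup _ _ _
theorem map_it (h : D →[L0] D') (j : ℕ) (x : D) : h (so^[j] x) = so^[j] (h x) := by
  induction j generalizing x with
  | zero => rfl
  | succ j ih => simp [ih]
@[simp] theorem map_co (h : D →[L0] D') (K j : ℕ) (x : D) : h (co K j x) = co K j (h x) := by
  rw [co, map_ee, map_it, co]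
@[simp] theorem map_fs (h : D →[L0] D') (T : Dat L) (f : Fn L) (y : Fin f.1 → D) (z : D) :
    h (fs T f y z) = fs T f (fun i => h (y i)) (h z) := by
  have : (fun j => h (pad y z j)) = pad (fun i => h (y i)) (h z) := funext fun j => by
    unfold pad
    split_ifs <;> rfl
  simp [fs, this]

def mkHom0 (H : D → D') (h1 : ∀ x, H (so x) = so (H x)) (h2 : ∀ x, H (Fo x) = Fo (H x))
    (h3 : ∀ x y, H (mo x y) = mo (H x) (H y)) : D →[L0] D' where
  toFun := H
  map_rel' r := r.elim
  map_fun' {n} f x := by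
    cases f with
    | s =>
      obtain ⟨a, rfl⟩ : ∃ a, x = ![a] := ⟨x 0, funext fun i => by fin_cases i; rfl⟩
      exact (h1 a).trans (congrArg _ (funext fun i => by fin_cases i; rfl))
    | F =>
      obtain ⟨a, rfl⟩ : ∃ a, x = ![a] := ⟨x 0, funext fun i => by fin_cases i; rfl⟩
      exact (h2 a).trans (congrArg _ (funext fun i => by fin_cases i; rfl))
    | m =>
      obtain ⟨a, b, rfl⟩ : ∃ a b, x = ![a, b] :=
        ⟨x 0, x 1, funext fun i => by fin_cases i <;> rfl⟩
      exact (h3 a b).trans (congrArg _ (funext fun i => by fin_cases i <;> rfl))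

end Ops

def cl (K j : ℕ) : Fin (K + 1) := ⟨min j K, by omega⟩

theorem cl_val (K : ℕ) (j : Fin (K + 1)) : cl K j = j := Fin.ext (by simp [cl]; omega)

def Mp (T : Dat L) (A : Sys L) : Type := Fin (T.K + 1) → A

instance (T : Dat L) (A : Sys L) : Nonempty (Mp T A) := ⟨fun _ => Classical.arbitrary A⟩

instance (T : Dat L) (A : Sys L) : L0.Structure (Mp T A) where
  funMap {n} f x := match n, f, x with
    | _, .s, x => fun j => x 0 (cl T.K (j + 1))
    | _, .F, x => fun j => (T.un j).elim (x 0 j) fun f => funMap f.2 fun i => x 0 (cl T.K i)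
    | _, .m, x => fun j => if j.1 = 0 then x 0 j else x 1 (cl T.K (j - 1))
  RelMap r := r.elim

section EnOps

variable {T : Dat L} {A : Sys L}

def cs (T : Dat L) {A : Sys L} (a : A) : Mp T A := fun _ => a

theorem so_en (x : Mp T A) (j : Fin (T.K + 1)) : so x j = x (cl T.K (j + 1)) := rfl
theorem Fo_en (x : Mp T A) (j : Fin (T.K + 1)) :
    Fo x j = (T.un j).elim (x j) fun f => funMap f.2 fun i => x (cl T.K i) := rfl
theorem mo_en (x y : Mp T A) (j : Fin (T.K + 1)) :
    mo x y j = if j.1 = 0 then x j else y (cl T.K (j - 1)) := rfl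

theorem TT_en (u : ℕ → Mp T A) (m : ℕ) (hm : m ≤ T.K + 1) (j : Fin (T.K + 1)) (hj : j.1 < m) :
    TT T.K u m j = u (T.K + 1 - m + j) 0 := by
  induction m generalizing j with
  | zero => omega
  | succ m ih =>
    rw [TT, mo_en]
    by_cases h : j.1 = 0
    · rw [if_pos h, show j = 0 from Fin.ext h]
      simp
    · rw [if_neg h, ih (by omega) _ (by simp [cl]; omega)]
      have : T.K + 1 - m + (cl T.K (j.1 - 1)).1 = T.K + 1 - (m + 1) + j.1 := by
        simp [cl]; omega
      rw [this]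

theorem tup_en (u : ℕ → Mp T A) (j : Fin (T.K + 1)) : tup T.K u j = u j 0 := by
  rw [tup, TT_en u _ le_rfl j j.2]
  simp

theorem ee_en (x : Mp T A) : ee T.K x = cs T (x 0) := funext fun j => tup_en _ j

theorem it_en (m : ℕ) (x : Mp T A) (j : Fin (T.K + 1)) : (so^[m] x) j = x (cl T.K (j + m)) := by
  induction m generalizing j with
  | zero => rw [Nat.add_zero, cl_val]; rfl
  | succ m ih =>
    rw [Function.iterate_succ_apply', so_en, ih]
    exact congrArg x (Fin.ext (by simp [cl]; omega))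

theorem co_en (j : ℕ) (x : Mp T A) : co T.K j x = cs T (x (cl T.K j)) := by
  rw [co, ee_en, it_en]
  simp

theorem fs_en (f : Fn L) (y : Fin f.1 → Mp T A) (z : Mp T A) :
    fs T f y z = cs T (funMap f.2 fun i => y i 0) := by
  have h1 : (cl T.K (T.sl f)).1 = T.sl f := by have := T.hle f; simp [cl]; omega
  rw [fs, co_en, Fo_en, h1, T.hsl]
  refine congrArg (fun w => cs T (funMap f.2 w)) (funext fun i => ?_)
  have h2 : (cl T.K i).1 = i := by have := T.har f; have := i.2; simp [cl]; omega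
  rw [tup_en, h2, pad, dif_pos i.2]

end EnOps

variable (T : Dat L)

def enc2 (A : Sys L) (_ : Type) : Sys L0 := Theory.ModelType.of ∅ (Mp T A)

def K2 : Set (Sys L0) := Mod {D | ∃ A Z, D = enc2 T A Z}

variable {T}

theorem idt2 {α : Type} {D : Sys L0} (hD : D ∈ K2 T) (s0 t0 : L0.Term α)
    (h : ∀ (A : Sys L) (v : α → Mp T A), rz v s0 = rz v t0) (v : α → D) :
    rz v s0 = rz v t0 :=
  idt hD s0 t0 (by rintro _ ⟨A, Z, rfl⟩ v; exact h A v) v

section Ax

variable {D : Sys L0} (hD : D ∈ K2 T)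
include hD

theorem B1 (j : ℕ) (x : D) : ee T.K (co T.K j x) = co T.K j x := by
  simpa using idt2 hD (ee T.K (co T.K j (.var ()))) (co T.K j (.var ())) (fun A v => by
    simp only [map_ee, map_co, ee_en, co_en]; rfl) fun _ => x

theorem B2 (x : D) : tup T.K (fun j => co T.K j x) = x := by
  simpa using idt2 hD (tup T.K fun j => co T.K j (.var ())) (.var ()) (fun A v => by
    simp only [map_tup, map_co, rz_var]
    funext j
    rw [tup_en, co_en, cs, cl_val]) fun _ => x

theorem B3 (j : Fin (T.K + 1)) (x : D) : co T.K j (so x) = co T.K (cl T.K (j + 1)) x := by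
  simpa using idt2 hD (co T.K j (so (.var ()))) (co T.K (cl T.K (j + 1)) (.var ())) (fun A v => by
    simp only [map_so, map_co, co_en, so_en, cl_val]) fun _ => x

theorem B4 (x y : D) : co T.K 0 (mo x y) = co T.K 0 x := by
  simpa using idt2 hD (co T.K 0 (mo (.var 0) (.var 1))) (co T.K 0 (.var 0)) (fun A v => by
    simp only [map_mo, map_co, co_en, mo_en]
    simp [cl]) ![x, y]

theorem B5 (j : Fin (T.K + 1)) (hj : j.1 ≠ 0) (x y : D) :
    co T.K j (mo x y) = co T.K (cl T.K (j - 1)) y := by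
  simpa using idt2 hD (co T.K j (mo (.var 0) (.var 1))) (co T.K (cl T.K (j - 1)) (.var 1))
    (fun A v => by simp only [map_mo, map_co, co_en, mo_en, cl_val, if_neg hj]) ![x, y]

theorem B6 (j : Fin (T.K + 1)) (hj : T.un j = none) (x : D) :
    co T.K j (Fo x) = co T.K j x := by
  simpa using idt2 hD (co T.K j (Fo (.var ()))) (co T.K j (.var ())) (fun A v => by
    simp only [map_Fo, map_co, co_en, Fo_en, cl_val, hj, Option.elim]) fun _ => x

theorem B7 (j : Fin (T.K + 1)) (f : Fn L) (hj : T.un j = some f) (x z : D) :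
    co T.K j (Fo x) = fs T f (fun i => co T.K (cl T.K i) x) z := by
  simpa using idt2 hD (co T.K j (Fo (.var 0)))
    (fs T f (fun i => co T.K (cl T.K i) (.var 0)) (.var 1)) (fun A v => by
    simp only [map_Fo, map_co, map_fs, co_en, Fo_en, fs_en, cl_val, hj, Option.elim]
    rfl) ![x, z]

theorem B8 (f : Fn L) (y : Fin f.1 → D) (z z' : D) : fs T f y z = fs T f y z' := by
  simpa using idt2 hD (fs T f (fun i => .var (.inr i)) (.var (.inl 0)))
    (fs T f (fun i => .var (.inr i)) (.var (.inl 1))) (fun A v => by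
    simp only [map_fs, fs_en]) (Sum.elim ![z, z'] y)

end Ax

def Fy (D : Sys L0) (_ : D ∈ K2 T) : Type := {x : D // ee T.K x = x}

def cc (D : Sys L0) (hD : D ∈ K2 T) (j : ℕ) (x : D) : Fy D hD := ⟨co T.K j x, B1 hD j x⟩

instance (D : Sys L0) (hD : D ∈ K2 T) : Nonempty (Fy D hD) :=
  ⟨cc D hD 0 (Classical.arbitrary D)⟩

instance (D : Sys L0) (hD : D ∈ K2 T) : L.Structure (Fy D hD) where
  funMap {n} f y := ⟨fs T ⟨n, f⟩ (fun i => (y i).1) (Classical.arbitrary D), B1 hD _ _⟩
  RelMap _ _ := True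

def red2 (D : Sys L0) (hD : D ∈ K2 T) : Sys L := Theory.ModelType.of ∅ (Fy D hD)

variable (T) in
def trU : L.Term ℕ → L0.Term ℕ
  | .var n => co T.K 0 (.var n)
  | .func (l := n) f ts => fs T ⟨n, f⟩ (fun i => trU (ts i)) (.var 0)

variable (T) in
def trB : Atom L ℕ → Atom L0 ℕ
  | .eq s t => .eq (trU T s) (trU T t)
  | .rel _ _ => .eq (.var 0) (.var 0)

theorem trU_rz (D : Sys L0) (hD : D ∈ K2 T) (v : ℕ → D) (t : L.Term ℕ) :
    rz v (trU T t) = (t.realize (M := Fy D hD) (cc D hD 0 ∘ v)).1 := by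
  induction t with
  | var n => simp [trU, cc]
  | func f ts ih =>
    simp only [trU, map_fs, ih]
    exact B8 hD _ _ _ _

theorem trB_iff (D : Sys L0) (hD : D ∈ K2 T) (a : Atom L ℕ) (v : ℕ → D) :
    (trB T a).Holds v ↔ a.Holds (M := Fy D hD) (cc D hD 0 ∘ v) := by
  cases a with
  | eq s t =>
    change rz v _ = rz v _ ↔ _ = _
    rw [trU_rz D hD, trU_rz D hD]
    exact Subtype.ext_iff.symm
  | rel r ts => exact ⟨fun _ => trivial, fun _ => rfl⟩

theorem enc2_mem (A : Sys L) (Z : Type) : enc2 T A Z ∈ K2 T := sub_Mod _ ⟨A, Z, rfl⟩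

def csH (A : Sys L) (Z : Type) : A →[L] red2 (enc2 T A Z) (enc2_mem A Z) where
  toFun a := ⟨cs T a, ee_en _⟩
  map_fun' f x := Subtype.ext (fs_en (T := T) ⟨_, f⟩ (fun i => cs T (x i)) _).symm
  map_rel' _ _ _ := trivial

theorem sat2 (hL : ∀ n, IsEmpty (L.Relations n)) (A : Sys L) (Z : Type) (q : QI L) :
    Sat (red2 (enc2 T A Z) (enc2_mem A Z)) q ↔ Sat A q :=
  sat_iff (csH A Z) ⟨fun _ _ h _ => congrArg (fun x => x.1 0) h,
    fun n r => (hL n).elim r⟩ (fun x => ⟨x.1 0, Subtype.ext ((ee_en _).symm.trans x.2)⟩) q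

def H2 {D : Sys L0} {hD : D ∈ K2 T} {A : Sys L} (h : Fy D hD →[L] A) : D →[L0] Mp T A :=
  mkHom0 (fun x j => h (cc D hD j x))
    (fun x => funext fun j => congrArg h (Subtype.ext (B3 hD j x)))
    (fun x => funext fun j => by
      rw [Fo_en]
      rcases hj : T.un j with _ | f
      · exact congrArg h (Subtype.ext (B6 hD j hj x))
      · exact (congrArg h (Subtype.ext (B7 hD j f hj x _))).trans
          (h.map_fun f.2 fun i => cc D hD (cl T.K i) x))
    (fun x y => funext fun j => by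
      rw [mo_en]
      by_cases hj : j.1 = 0
      · rw [if_pos hj]
        refine congrArg h (Subtype.ext ?_)
        change co T.K j _ = co T.K j _
        rw [hj, B4 hD]
      · rw [if_neg hj]
        exact congrArg h (Subtype.ext (B5 hD j hj x y)))

theorem TT_congr {D : Type} [L0.Structure D] (K : ℕ) {u w : ℕ → D} (h : ∀ j ≤ K, u j = w j)
    (m : ℕ) : TT K u m = TT K w m := by
  induction m with
  | zero => exact h 0 (Nat.zero_le _)
  | succ m ih => rw [TT, TT, ih, h _ (Nat.sub_le _ _)]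

theorem step2 [Finite (Fn L)] (hL : ∀ n, IsEmpty (L.Relations n)) (M : Set (Sys L))
    (hM : IsQV M) : ∃ Φ : Lq M → Lq (Set.univ : Set (Sys L0)), IsLatEmb Φ := by
  obtain ⟨T⟩ := exists_dat (L := L)
  refine interp (enc2 T) (K2 T) (Mod_QV _) enc2_mem red2 (fun D hD => cc D hD 0)
    (fun D hD x => ⟨x.1, Subtype.ext x.2⟩) (trB T) trB_iff (sat2 hL) ?_ M hM
  intro D hD A B h g hj
  refine ⟨H2 h, H2 g, fun x y e1 e2 => ?_, fun _ r => r.elim⟩
  rw [← B2 hD x, ← B2 hD y]
  refine TT_congr _ (fun j hj' => ?_) _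
  exact congrArg Subtype.val (hj.1 (cc D hD j x) (cc D hD j y)
    (congrFun e1 ⟨j, by omega⟩) (congrFun e2 ⟨j, by omega⟩))

end

theorem main : ∃ (L₀ : FirstOrder.Language.{0, 0}) (_ : Finite L₀.Symbols) (K : Set (Sys L₀)),
    IsQV K ∧ ∀ L : FirstOrder.Language.{0, 0}, Finite L.Symbols → ∀ M : Set (Sys L), IsQV M →
      ∃ Φ : Lq M → Lq K, IsLatEmb Φ := by
  refine ⟨L0, L0_fin, Set.univ, univ_QV, fun L _ M hM => ?_⟩
  obtain ⟨Φ, h1⟩ := step1 M hM
  haveI := L1_fin (L := L)
  obtain ⟨Ψ, h2⟩ := step2 (L := L1 L) (fun _ => inferInstanceAs (IsEmpty Empty)) _ univ_QV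
  exact ⟨_, h1.comp h2⟩

end Pool.Agent.H77.QV
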