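import Mathlib

set_option autoImplicit false

namespace Pool.Agent.H77.QV

open FirstOrder FirstOrder.Language

/-- Algebraic systems of signature `L`: nonempty `L`-structures. -/
abbrev Sys (L : FirstOrder.Language.{0, 0}) : Type 1 := Theory.ModelType.{0, 0, 0} (∅ : L.Theory)

/-- Atomic formulas with variables from `α`. -/
inductive Atom (L : FirstOrder.Language.{0, 0}) (α : Type) : Type
  | eq : L.Term α → L.Term α → Atom L α
  | rel : {n : ℕ} → L.Relations n → (Fin n → L.Term α) → Atom L α

/-- Truth of an atomic formula under a valuation. -/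
def Atom.Holds {L : FirstOrder.Language.{0, 0}} {α M : Type} [L.Structure M] (v : α → M) : Atom L α → Prop
  | .eq s t => s.realize v = t.realize v
  | .rel r ts => Structure.RelMap r fun i => (ts i).realize v

/-- A quasi-identity: a finite list of premises and a conclusion. -/
abbrev QI (L : FirstOrder.Language.{0, 0}) : Type := List (Atom L ℕ) × Atom L ℕ

/-- The system `A` satisfies the quasi-identity `q`. -/
def Sat {L : FirstOrder.Language.{0, 0}} (A : Sys L) (q : QI L) : Prop :=
  ∀ v : ℕ → A, (∀ a ∈ q.1, a.Holds v) → q.2.Holds v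

/-- A class axiomatised by quasi-identities. -/
def IsQV {L : FirstOrder.Language.{0, 0}} (K : Set (Sys L)) : Prop :=
  ∃ T : Set (QI L), K = {A | ∀ q ∈ T, Sat A q}

/-- The subquasivarieties of `K`, ordered by inclusion. -/
abbrev Lq {L : FirstOrder.Language.{0, 0}} (K : Set (Sys L)) : Type 1 :=
  {N : Set (Sys L) // IsQV N ∧ N ⊆ K}

/-- An injective map preserving binary joins and binary meets. -/
def IsLatEmb {α β : Type 1} [PartialOrder α] [PartialOrder β] (Φ : α → β) : Prop :=
  Function.Injective Φ ∧ ∀ a b c : α,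
    (IsLUB {a, b} c → IsLUB {Φ a, Φ b} (Φ c)) ∧ (IsGLB {a, b} c → IsGLB {Φ a, Φ b} (Φ c))

end Pool.Agent.H77.QV
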