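import Pool.Agent.H77.QbDefs

namespace Pool.Agent.H77.Qb

open Classical

variable {m l : ℕ}

def Vt (m l : ℕ) : Type :=
  {x : ℕ × ℕ // x.1 ≤ m ∧ ((0 < x.2 ∧ x.2 < 2 * l) ∨ (x.1 = 0 ∧ (x.2 = 0 ∨ x.2 = 2 * l)))}

def Ed (m l : ℕ) : Type := {x : ℕ × ℕ // x.1 ≤ m ∧ x.2 < 2 * l}

instance : Finite (Vt m l) :=
  Set.Finite.to_subtype ((Finset.range (m + 1) ×ˢ Finset.range (2 * l + 1)).finite_toSet.subset
    fun x (hx : x.1 ≤ m ∧ _) => by simp; omega)

instance : Finite (Ed m l) :=
  Set.Finite.to_subtype ((Finset.range (m + 1) ×ˢ Finset.range (2 * l + 1)).finite_toSet.subset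
    fun x (hx : x.1 ≤ m ∧ _) => by simp; omega)

def vtx (i j : ℕ) (hi : i ≤ m) (hj : j ≤ 2 * l) : Vt m l :=
  ⟨(if 0 < j ∧ j < 2 * l then i else 0, j), by dsimp only; split_ifs <;> omega⟩

def col (v : Vt m l) (k : ℕ × ℕ) : Prop :=
  v.1.1 = k.1 ∧ k.2 < l ∧ k.2 < v.1.2 ∧ v.1.2 ≤ k.2 + l

theorem col_vtx (i j : ℕ) (hi : i ≤ m) (hj : j ≤ 2 * l) (k : ℕ × ℕ) :
    col (vtx i j hi hj) k ↔ i = k.1 ∧ k.2 < l ∧ k.2 < j ∧ j ≤ k.2 + l := by
  simp only [col, vtx]; split_ifs <;> omega

def lab (e : Ed m l) : ℕ × ℕ := (e.1.1, if e.1.2 < l then e.1.2 else e.1.2 - l)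

noncomputable def ep (e : Ed m l) (s : Prop) : Vt m l :=
  vtx e.1.1 (if (s ↔ e.1.2 < l) then e.1.2 + 1 else e.1.2) e.2.1
    (by have := e.2.2; split_ifs <;> omega)

theorem col_ep (e : Ed m l) (s : Prop) : col (ep e s) (lab e) = s := by
  have := e.2.2
  rw [ep, col_vtx, lab]
  by_cases hs : s <;> by_cases h : e.1.2 < l <;> simp [hs, h] <;> omega

theorem col_ep' (e : Ed m l) (s : Prop) {k : ℕ × ℕ} (hk : k ≠ lab e) :
    col (ep e s) k = col (ep e True) k := by
  have := e.2.2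
  have h' : ¬ (k.1 = e.1.1 ∧ k.2 = (lab e).2) := fun h => hk (Prod.ext h.1 h.2)
  rw [ep, ep, col_vtx, col_vtx]
  simp only [lab] at h'
  apply propext
  split_ifs at h' ⊢ <;> omega

def BB (m l : ℕ) : Type := Vt m l ⊕ Ed m l

instance : Finite (BB m l) := inferInstanceAs (Finite (Vt m l ⊕ Ed m l))

noncomputable def sg : BB m l → ℕ × ℕ → Option Prop
  | .inl v, k => some (col v k)
  | .inr e, k => if k = lab e then none else some (col (ep e True) k)

noncomputable def mu : BB m l → BB m l → BB m l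
  | .inl v, _ => .inl v
  | .inr e, b => (sg b (lab e)).elim (.inr e) fun s => .inl (ep e s)

theorem sg_mu (a b : BB m l) (k : ℕ × ℕ) : sg (mu a b) k = (sg a k).or (sg b k) := by
  rcases a with v | e
  · rfl
  · simp only [mu]
    by_cases hk : k = lab e
    · subst hk
      cases h : sg b (lab e) <;> simp [sg, col_ep]
    · cases h : sg b (lab e) <;> simp [sg, hk, col_ep' e _ hk]

noncomputable instance : Semigroup (BB m l) where
  mul := mu
  mul_assoc a b c := by
    show mu (mu a b) c = mu a (mu b c)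
    rcases a with v | e
    · rfl
    · show mu ((sg b (lab e)).elim _ _) c = (sg (mu b c) (lab e)).elim _ _
      rw [sg_mu]
      cases h : sg b (lab e) <;> rfl

def ch (g : ℕ → ℕ) : BB m l → Prop
  | .inl v => v.1.2 ≤ g v.1.1
  | .inr e => e.1.2 ≤ g e.1.1

theorem ch_mu {g : ℕ → ℕ} (hg : ∀ i, g i < 2 * l) (a b : BB m l)
    (ha : ∀ e : Ed m l, a = .inr e → e.1.2 ≠ g e.1.1) : ch g (a * b) ↔ ch g a := by
  show ch g (mu a b) ↔ _
  rcases a with v | e
  · rfl
  · simp only [mu]
    cases h : sg b (lab e)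
    · rfl
    · have := ha e rfl
      have := hg 0
      have := hg e.1.1
      simp only [Option.elim, ch, ep, vtx]
      split_ifs <;> omega

theorem ari {i j i' j' : ℕ} (h : ∀ k : ℕ × ℕ, i = k.1 ∧ k.2 < l ∧ k.2 < j ∧ j ≤ k.2 + l →
    i' = k.1 ∧ k.2 < l ∧ k.2 < j' ∧ j' ≤ k.2 + l) (h0 : 0 < j) (h1 : j < 2 * l) :
    i = i' ∧ ((j ≤ l ∧ j ≤ j' ∧ j' ≤ l) ∨ (l < j ∧ l ≤ j' ∧ j' ≤ j)) := by
  by_cases hj : j ≤ l
  · have a := h (i, j - 1) (by dsimp only; omega)
    have b := h (i, 0) (by dsimp only; omega)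
    dsimp only at a b
    omega
  · have a := h (i, j - l) (by dsimp only; omega)
    have b := h (i, l - 1) (by dsimp only; omega)
    dsimp only at a b
    omega

theorem sep (hl : 2 ≤ l) {g : ℕ → ℕ} (hg : ∀ i, g i < 2 * l) {a b : BB m l}
    (h : ∀ k, sg a k = sg b k) (hc : ch g a ↔ ch g b) : a = b := by
  rcases a with ⟨⟨i, j⟩, hv⟩ | ⟨⟨i, j⟩, he⟩ <;> rcases b with ⟨⟨i', j'⟩, hv'⟩ | ⟨⟨i', j'⟩, he'⟩
  · simp only [sg, Option.some.injEq, eq_iff_iff, col, ch] at h hc hv hv'
    have h1 := ari (fun k => (h k).1)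
    have h2 := ari (fun k => (h k).2)
    obtain ⟨rfl, rfl⟩ : i = i' ∧ j = j' := by
      clear h
      by_cases h0 : i = 0 ∧ i' = 0
      · obtain ⟨rfl, rfl⟩ := h0
        have := hg 0
        omega
      · clear hc
        omega
    rfl
  · simpa [sg] using h (lab ⟨(i', j'), he'⟩)
  · simpa [sg] using h (lab ⟨(i, j), he⟩)
  · have h1 : lab ⟨(i, j), he⟩ = lab ⟨(i', j'), he'⟩ := by
      by_contra hn
      simpa [sg, hn] using h (lab ⟨(i, j), he⟩)
    have h2 : ∀ k, k ≠ lab ⟨(i, j), he⟩ →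
        (col (ep ⟨(i, j), he⟩ True) k ↔ col (ep ⟨(i', j'), he'⟩ True) k) := fun k hk => by
      simpa [sg, hk, ← h1] using h k
    have h3 := h2 (i, 0)
    have h4 := h2 (i, 1)
    simp only [ep, col_vtx, lab, Prod.mk.injEq, ne_eq, true_iff, true_and] at h1 h3 h4 he he'
    obtain ⟨rfl, rfl⟩ : i = i' ∧ j = j' := by split_ifs at h1 h3 h4 <;> omega
    rfl

theorem glue {S : Type} [Semigroup S] [Finite S] (hm : Nat.card S ≤ m) (f : BB m l → S)
    (hf : ∀ a b, f a * f b = f (mu a b)) :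
    f (.inl (vtx 0 0 m.zero_le (Nat.zero_le _))) = f (.inl (vtx 0 (2 * l) m.zero_le le_rfl)) := by
  by_contra hn
  have h1 : ∀ i : Fin (m + 1), ∃ e : Ed m l, e.1.1 = i ∧
      f (.inl (ep e True)) ≠ f (.inl (ep e False)) := by
    intro i
    by_contra! h
    have hi : i.1 ≤ m := by omega
    have h2 : ∀ j (hj : j ≤ 2 * l), f (.inl (vtx 0 0 m.zero_le (Nat.zero_le _))) =
        f (.inl (vtx i j hi hj)) := by
      intro j hj
      induction j with
      | zero => simp [vtx]
      | succ j ih =>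
        rw [ih (by omega)]
        have := h ⟨(i, j), hi, by omega⟩ rfl
        by_cases hjl : j < l
        · simpa [ep, hjl] using this.symm
        · simpa [ep, hjl] using this
    exact hn ((h2 _ le_rfl).trans (by simp [vtx]))
  choose e he hne using h1
  obtain ⟨i, i', hii, h⟩ : ∃ i i', i ≠ i' ∧ f (.inr (e i)) = f (.inr (e i')) := by
    by_contra! h
    have := Nat.card_le_card_of_injective (fun i => f (.inr (e i))) fun i i' hh => by
      by_contra hc
      exact h i i' hc hh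
    simp at this
    omega
  have h2 : ∀ s, f (.inl (ep (e i) s)) = f (.inl (ep (e i') False)) := fun s => by
    have e1 : mu (.inr (e i)) (.inl (ep (e i) s)) = .inl (ep (e i) s) := by
      show Sum.inl (ep _ (col _ _)) = _
      rw [col_ep]
    have e2 : mu (.inr (e i')) (.inl (ep (e i) s)) = .inl (ep (e i') False) := by
      show Sum.inl (ep _ (col _ _)) = _
      congr 2
      rw [ep, col_vtx, eq_iff_iff, iff_false]
      exact fun t => hii (Fin.ext ((he i).symm.trans (t.1.trans (he i'))))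
    rw [← e2, ← hf, ← h, hf, e1]
  exact hne i ((h2 _).trans (h2 _).symm)

theorem sat_B {S : Type} [Semigroup S] (hS : HasL S) (hl : 2 ≤ l) {q : QI} (hq : QSat S q)
    (H : Finset ℕ) (hH : H.card < 2 * l) (h1 : ∀ p ∈ q.1, p.1.head ∈ H ∧ p.2.head ∈ H)
    (h2 : q.2.1.head ∈ H ∧ q.2.2.head ∈ H) : QSat (BB m l) q := by
  intro φ hφ
  obtain ⟨e, p, r, hep, her, hpr, ht⟩ := hS
  have hg : ∀ i, ∃ j, j < 2 * l ∧ ∀ x ∈ H, ∀ d : Ed m l, φ (.of x) = .inr d → d.1 ≠ (i, j) := by
    intro i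
    let t : BB m l → ℕ := Sum.elim (fun _ => 0) fun d => d.1.2
    obtain ⟨j, hj, hj'⟩ := Finset.exists_mem_notMem_of_card_lt_card
      (s := H.image fun x => t (φ (.of x))) (t := Finset.range (2 * l))
      (Finset.card_image_le.trans_lt (by simpa using hH))
    exact ⟨j, Finset.mem_range.1 hj, fun x hx d hd hd' =>
      hj' (Finset.mem_image.2 ⟨x, hx, by simp [hd, t, hd']⟩)⟩
  choose g hg hg' using hg
  have hc : ∀ w : FreeSemigroup ℕ, w.head ∈ H → (ch g (φ w) ↔ ch g (φ (.of w.head))) := by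
    intro w
    induction w using FreeSemigroup.recOnMul with
    | ih1 x => exact fun _ => Iff.rfl
    | ih2 x y _ _ =>
      intro hx
      rw [map_mul]
      exact ch_mu hg _ _ fun d hd hd' => hg' d.1.1 x hx d hd (Prod.ext rfl hd')
  have pp := ht p (by simp)
  have rr := ht r (by simp)
  have ee := ht e (by simp)
  clear ht
  refine sep hl hg (fun k => ?_) ?_
  · let ι : Option Prop → S := fun o => o.elim e fun s => if s then p else r
    have hι : Function.Injective ι := by
      rintro (_ | s) (_ | s') h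
      · rfl
      · simp only [ι, Option.elim] at h
        split_ifs at h <;> contradiction
      · simp only [ι, Option.elim] at h
        split_ifs at h
        exacts [absurd h.symm hep, absurd h.symm her]
      · simp only [ι, Option.elim] at h
        split_ifs at h with a1 a2 a2
        exacts [congrArg some (propext (iff_of_true a1 a2)), absurd h hpr, absurd h.symm hpr,
          congrArg some (propext (iff_of_false a1 a2))]
    have hm : ∀ a b, ι (a.or b) = ι a * ι b := by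
      rintro (_ | s) (_ | s') <;> simp only [ι, Option.elim, Option.or] <;> (try split_ifs) <;>
        simp [pp, rr, ee]
    exact hι (hq ⟨fun w => ι (sg (φ w) k), fun a b => by rw [map_mul, ← hm, ← sg_mu]; rfl⟩
      fun p hp => congrArg (fun b => ι (sg b k)) (hφ p hp))
  · have := hq ⟨fun w => if ch g (φ (.of w.head)) then p else r, fun a b => by
      simp only [FreeSemigroup.head_mul]
      split_ifs <;> simp [pp, rr]⟩ fun p hp => by
        show ite _ _ _ = ite _ _ _
        simp only [← hc _ (h1 p hp).1, ← hc _ (h1 p hp).2, hφ p hp]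
    change ite _ _ _ = ite _ _ _ at this
    simp only [← hc _ h2.1, ← hc _ h2.2] at this
    split_ifs at this with a1 a2 a2
    exacts [iff_of_true a1 a2, absurd this hpr, absurd this.symm hpr, iff_of_false a1 a2]

theorem mainL {S : Type} [Semigroup S] [Finite S] (hS : HasL S) : ¬ FinQB S := by
  rintro ⟨T, hT, h⟩
  let H : Finset ℕ := T.biUnion fun g => (insert g.2 g.1).biUnion fun p => {p.1.head, p.2.head}
  let l := H.card + 2
  let m := Nat.card S
  obtain ⟨ι, hι⟩ := Countable.exists_injective_nat (BB m l)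
  have := Fintype.ofFinite (BB m l)
  let x : BB m l := .inl (vtx 0 0 m.zero_le (Nat.zero_le _))
  let y : BB m l := .inl (vtx 0 (2 * l) m.zero_le le_rfl)
  have : Nonempty (BB m l) := ⟨x⟩
  have h1 := h (Finset.univ.image fun p : BB m l × BB m l =>
      (.of (ι p.1) * .of (ι p.2), .of (ι (p.1 * p.2))), .of (ι x), .of (ι y))
    (fun φ hφ => glue le_rfl (fun b => φ (.of (ι b))) fun a b => by
      rw [← map_mul]
      exact hφ _ (Finset.mem_image.2 ⟨(a, b), Finset.mem_univ _, rfl⟩)) (BB m l)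
    (fun g hg => sat_B hS (by omega) (hT g hg) H (by omega)
      (fun p hp => by
        simp only [H, Finset.mem_biUnion]
        exact ⟨⟨g, hg, p, by simp [hp], by simp⟩, ⟨g, hg, p, by simp [hp], by simp⟩⟩)
      (by
        simp only [H, Finset.mem_biUnion]
        exact ⟨⟨g, hg, g.2, by simp, by simp⟩, ⟨g, hg, g.2, by simp, by simp⟩⟩))
    (FreeSemigroup.lift (Function.invFun ι)) fun p hp => by
      obtain ⟨⟨a, b⟩, -, rfl⟩ := Finset.mem_image.1 hp
      simp [Function.leftInverse_invFun hι _]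
  simp only [FreeSemigroup.lift_of, Function.leftInverse_invFun hι _] at h1
  have h2 : 0 = 2 * l := congrArg (fun v : Vt m l => v.1.2) (Sum.inl_injective h1)
  omega

open MulOpposite

def rv (w : FreeSemigroup ℕ) : FreeSemigroup ℕ :=
  unop (FreeSemigroup.lift (fun x => op (FreeSemigroup.of x)) w)

theorem rv_mul (a b : FreeSemigroup ℕ) : rv (a * b) = rv b * rv a := by simp [rv]

theorem rv_rv (w : FreeSemigroup ℕ) : rv (rv w) = w := by
  induction w using FreeSemigroup.recOnMul with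
  | ih1 x => rfl
  | ih2 x y hx hy => rw [rv_mul, rv_mul, hx, hy]

noncomputable def rq (q : QI) : QI := (q.1.image fun p => (rv p.1, rv p.2), rv q.2.1, rv q.2.2)

theorem sat_rq {A : Type} [Semigroup A] {q : QI} : QSat A (rq q) ↔ QSat Aᵐᵒᵖ q := by
  constructor
  · intro h φ hφ
    have := h ⟨fun w => unop (φ (rv w)), fun a b => by simp [rv_mul]⟩ fun p hp => by
      obtain ⟨p', hp', rfl⟩ := Finset.mem_image.1 hp
      simpa [rv_rv] using hφ p' hp'
    simpa [rq, rv_rv] using this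
  · intro h φ hφ
    simpa [rq] using h ⟨fun w => op (φ (rv w)), fun a b => by simp [rv_mul]⟩ fun p hp =>
      congrArg op (hφ _ (Finset.mem_image.2 ⟨p, hp, rfl⟩))

theorem sat_rq' {A : Type} [Semigroup A] {q : QI} : QSat Aᵐᵒᵖ (rq q) ↔ QSat A q := by
  rw [← sat_rq]
  simp [rq, Finset.image_image, Function.comp_def, rv_rv]

theorem mainR {S : Type} [Semigroup S] [Finite S] (hS : HasR S) : ¬ FinQB S := by
  rintro ⟨T, hT, h⟩
  obtain ⟨e, p, q, h1, h2, h3, h4⟩ := hS
  have : Finite Sᵐᵒᵖ := Finite.of_equiv _ opEquiv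
  refine mainL (S := Sᵐᵒᵖ) ⟨op e, op p, op q, by simpa, by simpa, by simpa, fun a ha => ?_⟩
    ⟨T.image rq, fun g hg => ?_, fun g hg A _ hA => ?_⟩
  · have := h4 (unop a) (by rcases ha with rfl | rfl | rfl <;> simp)
    exact ⟨congrArg op this.2.1, congrArg op this.1, congrArg op this.2.2.1, congrArg op this.2.2.2⟩
  · obtain ⟨g', hg', rfl⟩ := Finset.mem_image.1 hg
    exact sat_rq'.2 (hT g' hg')
  · exact sat_rq'.1 (h _ (sat_rq.2 hg) Aᵐᵒᵖ fun t ht =>
      sat_rq.1 (hA _ (Finset.mem_image_of_mem _ ht)))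

end Pool.Agent.H77.Qb
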