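import Mathlib

namespace Pool.Agent.H77.Qb

/-- a quasi-identity: finitely many premises `u = v` and a conclusion, all pairs of words -/
abbrev QI : Type :=
  Finset (FreeSemigroup ℕ × FreeSemigroup ℕ) × FreeSemigroup ℕ × FreeSemigroup ℕ

/-- the quasi-identity `q` is true in the semigroup `A` -/
def QSat (A : Type) [Semigroup A] (q : QI) : Prop :=
  ∀ φ : FreeSemigroup ℕ →ₙ* A, (∀ p ∈ q.1, φ p.1 = φ p.2) → φ q.2.1 = φ q.2.2

/-- the quasi-identities of `S` have a finite basis -/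
def FinQB (S : Type) [Semigroup S] : Prop :=
  ∃ T : Finset QI, (∀ g ∈ T, QSat S g) ∧
    ∀ q, QSat S q → ∀ (A : Type) [Semigroup A], (∀ g ∈ T, QSat A g) → QSat A q

/-- `S` contains a copy `{e, p, q}` of `L`: an identity and two left zeros -/
def HasL (S : Type) [Semigroup S] : Prop :=
  ∃ e p q : S, e ≠ p ∧ e ≠ q ∧ p ≠ q ∧
    ∀ a, a = e ∨ a = p ∨ a = q → e * a = a ∧ a * e = a ∧ p * a = p ∧ q * a = q

/-- `S` contains a copy `{e, p, q}` of `R`: an identity and two right zeros -/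
def HasR (S : Type) [Semigroup S] : Prop :=
  ∃ e p q : S, e ≠ p ∧ e ≠ q ∧ p ≠ q ∧
    ∀ a, a = e ∨ a = p ∨ a = q → e * a = a ∧ a * e = a ∧ a * p = p ∧ a * q = q

end Pool.Agent.H77.Qb
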