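import Pool.Agent.H77.QfDefs

namespace H77.Qf

open Polynomial

abbrev H := Quaternion ℝ

theorem unit_of_right {p w : H[X]} {c : H} (hc : c ≠ 0) (h : p * w = C c) : IsUnit p := by
  have h1 : p * (w * C c⁻¹) = 1 := by rw [← mul_assoc, h, ← C_mul, mul_inv_cancel₀ hc, C_1]
  have hp : p ≠ 0 := by rintro rfl; simp at h1
  have h2 : (w * C c⁻¹) * p = 1 := by
    apply mul_left_cancel₀ hp
    rw [← mul_assoc, h1, one_mul, mul_one]
  exact ⟨⟨p, w * C c⁻¹, h1, h2⟩, rfl⟩

theorem unit_of_left {p w : H[X]} {c : H} (hc : c ≠ 0) (h : w * p = C c) : IsUnit p := by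
  have h1 : (C c⁻¹ * w) * p = 1 := by rw [mul_assoc, h, ← C_mul, inv_mul_cancel₀ hc, C_1]
  have hp : p ≠ 0 := by rintro rfl; simp at h1
  have h2 : p * (C c⁻¹ * w) = 1 := by
    apply mul_right_cancel₀ hp
    rw [mul_assoc, h1, one_mul, mul_one]
  exact ⟨⟨p, C c⁻¹ * w, h2, h1⟩, rfl⟩

theorem irr_lin (a0 a1 x y x' y' : H[X]) (c c' : H) (h1 : a1 ≠ 0) (hc : c ≠ 0) (hc' : c' ≠ 0)
    (hr : a0 * x + a1 * y = C c) (hl : x' * a0 + y' * a1 = C c') :
    Irreducible (C a1 * X + C a0 : R) ∧ (C a1 * X + C a0 : R).natDegree ≤ 1 := by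
  have hd : (C a1 * X + C a0 : R).natDegree = 1 := natDegree_linear h1
  refine ⟨⟨?_, ?_⟩, hd.le⟩
  · intro hu
    have := natDegree_eq_zero_of_isUnit hu
    omega
  · intro P Q h
    have hne : (C a1 * X + C a0 : R) ≠ 0 := by
      intro h0; rw [h0] at hd; simp at hd
    have hP : P ≠ 0 := by rintro rfl; simp at h; exact hne (by simpa using h)
    have hQ : Q ≠ 0 := by rintro rfl; simp at h; exact hne (by simpa using h)
    have hdeg := natDegree_mul hP hQ
    rw [← h, hd] at hdeg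
    have c0 : a0 = (P * Q).coeff 0 := by rw [← h]; simp
    have c1 : a1 = (P * Q).coeff 1 := by rw [← h]; simp [coeff_X, coeff_C]
    rcases Nat.eq_zero_or_pos P.natDegree with h0 | h0
    · left
      obtain ⟨p, rfl⟩ := natDegree_eq_zero.1 h0
      rw [coeff_C_mul] at c0 c1
      refine (unit_of_right (w := Q.coeff 0 * x + Q.coeff 1 * y) hc ?_).map C
      rw [← hr, c0, c1]; noncomm_ring
    · right
      obtain ⟨q, rfl⟩ := natDegree_eq_zero.1 (show Q.natDegree = 0 by omega)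
      rw [coeff_mul_C] at c0 c1
      refine (unit_of_left (w := x' * P.coeff 0 + y' * P.coeff 1) hc' ?_).map C
      rw [← hl, c0, c1]; noncomm_ring

theorem irr_u (a : H) : Irreducible (C (X - C a) : R) ∧ (C (X - C a) : R).natDegree ≤ 1 := by
  have hd : (X - C a : H[X]).natDegree = 1 := natDegree_X_sub_C a
  have hne : (X - C a : H[X]) ≠ 0 := X_sub_C_ne_zero a
  refine ⟨⟨?_, ?_⟩, by simp⟩
  · intro hu
    have := natDegree_eq_zero_of_isUnit (isUnit_C.1 hu)
    omega
  · intro P Q h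
    have hne' : (C (X - C a) : R) ≠ 0 := C_ne_zero.2 hne
    have hP : P ≠ 0 := by rintro rfl; exact hne' (by simpa using h)
    have hQ : Q ≠ 0 := by rintro rfl; exact hne' (by simpa using h)
    have hdeg := natDegree_mul hP hQ
    rw [← h, natDegree_C] at hdeg
    obtain ⟨p, rfl⟩ := natDegree_eq_zero.1 (show P.natDegree = 0 by omega)
    obtain ⟨q, rfl⟩ := natDegree_eq_zero.1 (show Q.natDegree = 0 by omega)
    rw [← C_mul, C_inj] at h
    have hp : p ≠ 0 := by rintro rfl; exact hP (by simp)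
    have hq : q ≠ 0 := by rintro rfl; exact hQ (by simp)
    have hdeg := natDegree_mul hp hq
    rw [← h, hd] at hdeg
    rcases Nat.eq_zero_or_pos p.natDegree with h0 | h0
    · left
      obtain ⟨c, rfl⟩ := natDegree_eq_zero.1 h0
      have : c ≠ 0 := by rintro rfl; exact hp (by simp)
      exact ((IsUnit.mk0 c this).map C).map C
    · right
      obtain ⟨c, rfl⟩ := natDegree_eq_zero.1 (show q.natDegree = 0 by omega)
      have : c ≠ 0 := by rintro rfl; exact hq (by simp)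
      exact ((IsUnit.mk0 c this).map C).map C

def q4 {F : Type} [CommRing F] (a b c d : F) : Quaternion F := ⟨a, b, c, d⟩

section
variable {F : Type} [CommRing F]

theorem q4_inj {a b c d a' b' c' d' : F} :
    q4 a b c d = q4 a' b' c' d' ↔ a = a' ∧ b = b' ∧ c = c' ∧ d = d' := by
  constructor
  · intro h
    exact ⟨congrArg QuaternionAlgebra.re h, congrArg QuaternionAlgebra.imI h,
      congrArg QuaternionAlgebra.imJ h, congrArg QuaternionAlgebra.imK h⟩
  · rintro ⟨rfl, rfl, rfl, rfl⟩; rfl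

theorem q4_zero : (0 : Quaternion F) = q4 0 0 0 0 := rfl

theorem q4_one : (1 : Quaternion F) = q4 1 0 0 0 := rfl

theorem q4_add (a b c d a' b' c' d' : F) :
    q4 a b c d + q4 a' b' c' d' = q4 (a + a') (b + b') (c + c') (d + d') := rfl

theorem q4_sub (a b c d a' b' c' d' : F) :
    q4 a b c d - q4 a' b' c' d' = q4 (a - a') (b - b') (c - c') (d - d') := by
  ext <;> simp [q4]

theorem q4_mul (a b c d a' b' c' d' : F) :
    q4 a b c d * q4 a' b' c' d' = q4 (a * a' - b * b' - c * c' - d * d')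
      (a * b' + b * a' + c * d' - d * c') (a * c' - b * d' + c * a' + d * b')
      (a * d' + b * c' - c * b' + d * a') := by
  ext <;> simp [q4]

end

noncomputable def cx : H →+* Quaternion ℂ where
  toFun q := q4 q.re q.imI q.imJ q.imK
  map_one' := by
    show q4 ((1 : ℝ) : ℂ) ((0 : ℝ) : ℂ) ((0 : ℝ) : ℂ) ((0 : ℝ) : ℂ) = _
    rw [q4_one]; simp
  map_zero' := by
    show q4 ((0 : ℝ) : ℂ) ((0 : ℝ) : ℂ) ((0 : ℝ) : ℂ) ((0 : ℝ) : ℂ) = _
    rw [q4_zero]; simp
  map_add' p q := by rw [q4_add]; simp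
  map_mul' p q := by rw [q4_mul]; simp

theorem cx_q4 (a b c d : ℝ) : cx (q4 a b c d) = q4 (a : ℂ) b c d := rfl

noncomputable def io : Quaternion ℂ := (Complex.I : ℂ)

theorem io_comm (q : Quaternion ℂ) : Commute q io := (Quaternion.coe_commutes _ _).symm

noncomputable def ev : R →+* Quaternion ℂ :=
  eval₂RingHom' (eval₂RingHom' cx io (fun _ => io_comm _)) io (fun _ => io_comm _)

theorem ev_C (c : H) : ev (C (C c)) = cx c := by simp [ev]

theorem ev_u : ev (C X) = io := by simp [ev]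

theorem ev_v : ev X = io := by simp [ev]

theorem not_sim {A B : R} (hA : ev A = 0) (hB : ev B ≠ 0) : ¬ Similar A B := by
  rintro ⟨φ⟩
  obtain ⟨x, hx⟩ := Submodule.Quotient.mk_surjective _ (φ.symm (Submodule.Quotient.mk 1))
  obtain ⟨y, hy⟩ := Submodule.Quotient.mk_surjective _ (φ (Submodule.Quotient.mk 1))
  have key : ∀ z ∈ Submodule.span R {A}, ev z = 0 := by
    intro z hz
    obtain ⟨w, rfl⟩ := Submodule.mem_span_singleton.1 hz
    rw [smul_eq_mul, map_mul, hA, mul_zero]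
  have h1 : ev (B * x) = 0 := by
    apply key
    rw [← Submodule.Quotient.mk_eq_zero, ← smul_eq_mul, Submodule.Quotient.mk_smul, hx,
      ← map_smul, ← Submodule.Quotient.mk_smul, smul_eq_mul, mul_one,
      (Submodule.Quotient.mk_eq_zero _).2 (Submodule.mem_span_singleton_self B), map_zero]
  have h2 : ev (y * x - 1) = 0 := by
    apply key
    rw [← Submodule.Quotient.eq, ← smul_eq_mul, Submodule.Quotient.mk_smul, hx,
      ← map_smul, ← Submodule.Quotient.mk_smul, smul_eq_mul, mul_one, hy, φ.symm_apply_apply]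
  rw [map_sub, map_mul, map_one, sub_eq_zero] at h2
  rw [map_mul] at h1
  have h3 : Quaternion.normSq (ev y) * Quaternion.normSq (ev x) = 1 := by
    rw [← map_mul, h2, map_one]
  apply hB
  have h4 : ev B * (ev x * star (ev x)) = 0 := by rw [← mul_assoc, h1, zero_mul]
  rw [Quaternion.self_mul_star] at h4
  have h5 : ev B * ((Quaternion.normSq (ev x) * Quaternion.normSq (ev y) : ℂ) : Quaternion ℂ) = 0 := by
    rw [Quaternion.coe_mul, ← mul_assoc, h4, zero_mul]
  rwa [mul_comm (Quaternion.normSq (ev x)), h3, Quaternion.coe_one, mul_one] at h5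

def qi : H := q4 0 1 0 0

noncomputable def pU : R := C (X - C qi)

noncomputable def pA : R :=
  C (C (q4 0 0 0 1) * X + C (q4 1 0 (-1) 0)) * X + C (C (q4 (-1) 0 1 0) * X + C (q4 0 0 0 1))

noncomputable def pB : R :=
  C (C (q4 0 0 0 1) * X + C (q4 1 0 1 0)) * X + C (C (q4 (-1) 0 1 0) * X + C (q4 0 0 0 (-1)))

theorem lin_mul (a b c : H) : (C a * X + C b) * C c = C (a * c) * X + C (b * c) := by
  rw [add_mul, mul_assoc, X_mul_C, ← mul_assoc, ← C_mul, ← C_mul]

theorem mul_lin (a b c : H) : C c * (C a * X + C b) = C (c * a) * X + C (c * b) := by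
  rw [mul_add, ← mul_assoc, ← C_mul, ← C_mul]

theorem lin_add (a b c d : H) (h : a + c = 0) :
    (C a * X + C b) + (C c * X + C d) = C (b + d) := by
  have : (C a * X + C b) + (C c * X + C d) = C (a + c) * X + C (b + d) := by
    rw [C_add, C_add, add_mul]; abel
  rw [this, h]; simp

theorem lin_ne (b : H) : (C (q4 0 0 0 1 : H) * X + C b : H[X]) ≠ 0 := by
  intro h
  have := congrArg (fun p => p.coeff 1) h
  simp only [coeff_add, coeff_C_mul, coeff_X_one, mul_one, coeff_C_succ, add_zero, coeff_zero] at this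
  rw [q4_zero, q4_inj] at this
  norm_num at this

theorem irr_A : Irreducible pA ∧ pA.natDegree ≤ 1 := by
  refine irr_lin _ _ (C (q4 0 (-1) 0 (-1))) (C (q4 (-2) 0 0 0)) (C (q4 0 1 0 (-1)))
    (C (q4 (-2) 0 0 0)) _ _
    (lin_ne _) ?_ ?_ (by rw [lin_mul, lin_mul, lin_add]; norm_num [q4_mul, q4_add]; rfl)
    (by rw [mul_lin, mul_lin, lin_add]; norm_num [q4_mul, q4_add]; rfl)
  · rw [q4_zero]; norm_num [q4_mul, q4_add, q4_inj]
  · rw [q4_zero]; norm_num [q4_mul, q4_add, q4_inj]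

theorem irr_B : Irreducible pB ∧ pB.natDegree ≤ 1 := by
  refine irr_lin _ _ (C (q4 0 (-1) 0 (-1))) (C (q4 (-2) 0 0 0)) (C (q4 0 1 0 (-1)))
    (C (q4 (-2) 0 0 0)) _ _
    (lin_ne _) ?_ ?_ (by rw [lin_mul, lin_mul, lin_add]; norm_num [q4_mul, q4_add]; rfl)
    (by rw [mul_lin, mul_lin, lin_add]; norm_num [q4_mul, q4_add]; rfl)
  · rw [q4_zero]; norm_num [q4_mul, q4_add, q4_inj]
  · rw [q4_zero]; norm_num [q4_mul, q4_add, q4_inj]

theorem lin_comm (a b d : H) (h1 : b - qi * a = d - a * qi) (h2 : qi * b = d * qi) :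
    (X - C qi) * (C a * X + C b) = (C a * X + C d) * (X - C qi) := by
  have e1 : (X - C qi) * (C a * X + C b) = C a * X * X + C (b - qi * a) * X - C (qi * b) := by
    rw [sub_mul, mul_add, mul_add, ← mul_assoc, X_mul_C, X_mul_C, C_sub, C_mul, C_mul]
    noncomm_ring
  have e2 : (C a * X + C d) * (X - C qi) = C a * X * X + C (d - a * qi) * X - C (d * qi) := by
    rw [mul_sub, add_mul, add_mul, mul_assoc (C a) X (C qi), X_mul_C, C_sub, C_mul, C_mul]
    noncomm_ring
  rw [e1, e2, h1, h2]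

theorem prod_eq : pU * pA = pB * pU := by
  unfold pU pA pB
  rw [mul_add, add_mul, ← mul_assoc, mul_assoc _ X (C _), X_mul_C, ← mul_assoc, ← C_mul, ← C_mul,
    ← C_mul, ← C_mul, lin_comm _ _ (q4 1 0 1 0), lin_comm _ _ (q4 0 0 0 (-1))] <;>
  norm_num [qi, q4_mul, q4_sub]

theorem io_eq : io = q4 Complex.I 0 0 0 := rfl

theorem ev_lin (a b : H) : ev (C (C a * X + C b)) = cx a * io + cx b := by
  rw [C_add, C_mul, map_add, map_mul, ev_C, ev_C, ev_u]

theorem ev_A : ev pA = 0 := by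
  unfold pA
  rw [map_add, map_mul, ev_lin, ev_lin, ev_v, io_eq, q4_zero]
  norm_num [cx_q4, q4_mul, q4_add, q4_inj]

theorem ev_B : ev pB ≠ 0 := by
  unfold pB
  rw [map_add, map_mul, ev_lin, ev_lin, ev_v, io_eq, q4_zero]
  norm_num [cx_q4, q4_mul, q4_add, q4_inj]

theorem ev_U : ev pU ≠ 0 := by
  unfold pU
  rw [C_sub, map_sub, ev_u, ev_C, io_eq, q4_zero]
  norm_num [qi, cx_q4, q4_sub, q4_inj]

theorem main : ∃ (F : R) (A B : Fin 2 → R), F ≠ 0 ∧ Admissible F A ∧ Admissible F B ∧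
    ∃ i, ∀ j, ¬ Similar (A i) (B j) := by
  refine ⟨pU * pA, ![pU, pA], ![pB, pU], mul_ne_zero (irr_u qi).1.ne_zero irr_A.1.ne_zero,
    ⟨by simp, ?_⟩, ⟨by simp [prod_eq], ?_⟩, 1, ?_⟩
  · intro i
    fin_cases i
    · exact irr_u qi
    · exact irr_A
  · intro i
    fin_cases i
    · exact irr_B
    · exact irr_u qi
  · intro j
    fin_cases j
    · exact not_sim ev_A ev_B
    · exact not_sim ev_A ev_U

end H77.Qf
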