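import Mathlib

namespace Pool.Agent.H77.Qf

/-! the fixed field of the automorphisms of the complex numbers -/

theorem ext_aut {A : Type} [Field A] [Algebra A ℂ] {ι : Type} {v : ι → ℂ}
    (hv : IsTranscendenceBasis A v) (e : MvPolynomial ι A ≃+* MvPolynomial ι A) :
    ∃ σ : ℂ ≃+* ℂ, ∀ p, σ (MvPolynomial.aeval v p) = MvPolynomial.aeval v (e p) := by
  letI := IsAlgClosed.isAlgClosure_of_transcendence_basis v hv
  let f := hv.1.aevalEquiv.toRingEquiv
  refine ⟨IsAlgClosure.equivOfEquiv ℂ ℂ (f.symm.trans (e.trans f)), fun p => ?_⟩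
  have h : ∀ p, MvPolynomial.aeval v p = algebraMap _ ℂ (f p) := fun p =>
    (hv.1.algebraMap_aevalEquiv p).symm
  rw [h, IsAlgClosure.equivOfEquiv_algebraMap, h]
  simp

theorem rat_of_fixed (z : ℂ) (h : ∀ σ : ℂ ≃+* ℂ, σ z = z) : ∃ q : ℚ, (q : ℂ) = z := by
  by_cases hz : IsAlgebraic ℚ z
  · obtain ⟨s, hs⟩ := exists_isTranscendenceBasis (algebraicClosure ℚ ℂ) ℂ
    have hz' : z ∈ algebraicClosure ℚ ℂ := (mem_algebraicClosure_iff).2 hz
    haveI : IsGalois ℚ (algebraicClosure ℚ ℂ) :=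
      @IsAlgClosure.isGalois ℚ _ _ _ _ (algebraicClosure.isAlgClosure ℚ ℂ) _
    have : (⟨z, hz'⟩ : algebraicClosure ℚ ℂ) ∈ Set.range (algebraMap ℚ _) := by
      rw [InfiniteGalois.mem_range_algebraMap_iff_fixed]
      intro f
      obtain ⟨σ, hσ⟩ := ext_aut hs (MvPolynomial.mapEquiv s f.toRingEquiv)
      have := hσ (MvPolynomial.C ⟨z, hz'⟩)
      simp only [MvPolynomial.aeval_C, MvPolynomial.mapEquiv_apply, MvPolynomial.map_C] at this
      exact Subtype.ext ((this.symm.trans (h σ)))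
    obtain ⟨q, hq⟩ := this
    exact ⟨q, by simpa using congrArg Subtype.val hq⟩
  · exfalso
    have hi : AlgebraicIndepOn ℚ id ({z} : Set ℂ) := by
      rw [AlgebraicIndepOn, algebraicIndependent_unique_type_iff]
      exact hz
    obtain ⟨s, hs1, hs⟩ := exists_isTranscendenceBasis_superset hi
    let n : MvPolynomial s ℚ →ₐ[ℚ] MvPolynomial s ℚ := MvPolynomial.aeval fun i => -MvPolynomial.X i
    have hn : n.comp n = AlgHom.id _ _ := by ext; simp [n]
    obtain ⟨σ, hσ⟩ := ext_aut hs (AlgEquiv.ofAlgHom n n hn hn).toRingEquiv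
    have := hσ (MvPolynomial.X ⟨z, hs1 rfl⟩)
    simp only [MvPolynomial.aeval_X] at this
    rw [h σ] at this
    have e : z = -z := this.trans (by
      show MvPolynomial.aeval _ (n (MvPolynomial.X _)) = _
      simp [n])
    apply hz
    rw [self_eq_neg.1 e]
    exact isAlgebraic_zero

/-! norms from the three quadratic subfields of Q(i, sqrt 17) -/

def Nm (d : ℤ) : Subgroup ℚˣ where
  carrier := {x | ∃ u v : ℚ, (x : ℚ) = u ^ 2 - d * v ^ 2}
  one_mem' := ⟨1, 0, by simp⟩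
  mul_mem' := by
    rintro x y ⟨u, v, h⟩ ⟨u', v', h'⟩
    exact ⟨u * u' + d * v * v', u * v' + v * u', by rw [Units.val_mul, h, h']; ring⟩
  inv_mem' := by
    rintro x ⟨u, v, h⟩
    refine ⟨u / x, v / x, ?_⟩
    have := x.ne_zero
    rw [Units.val_inv_eq_inv_val, div_pow, div_pow, ← mul_div_assoc, ← sub_div, ← h]
    field_simp

def HN : Subgroup ℚˣ := Nm 17 ⊔ (Nm (-1) ⊔ Nm (-17))

theorem sq_mem (x : ℚˣ) : x ^ 2 ∈ HN :=
  Subgroup.mem_sup_left ⟨x, 0, by simp⟩

theorem sq_mod (p : ℕ) [Fact p.Prime] : ∃ d : ℤ, (d = 17 ∨ d = -1 ∨ d = -17) ∧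
    IsSquare (d : ZMod p) := by
  by_cases h1 : IsSquare ((17 : ℤ) : ZMod p)
  · exact ⟨17, Or.inl rfl, h1⟩
  by_cases h2 : IsSquare ((-1 : ℤ) : ZMod p)
  · exact ⟨-1, Or.inr (Or.inl rfl), h2⟩
  refine ⟨-17, Or.inr (Or.inr rfl), ?_⟩
  have e1 := (legendreSym.eq_neg_one_iff p).2 h1
  have e2 := (legendreSym.eq_neg_one_iff p).2 h2
  have e3 : legendreSym p (-17) = 1 := by
    rw [show (-17 : ℤ) = 17 * -1 by norm_num, legendreSym.mul, e1, e2]; norm_num
  by_contra hc
  rw [(legendreSym.eq_neg_one_iff p).2 hc] at e3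
  norm_num at e3

theorem small_norm (p : ℕ) (hp : p.Prime) (h : 20 ≤ p) : ∃ (m : ℤ) (x : ℚˣ), x ∈ HN ∧
    m.natAbs < p ∧ (x : ℚ) = p * m := by
  haveI := Fact.mk hp
  obtain ⟨d, hd, a, ha⟩ := sq_mod p
  have h1 : ((a.valMinAbs ^ 2 - d : ℤ) : ZMod p) = 0 := by
    push_cast; rw [ha]; ring
  obtain ⟨m, hm⟩ := (ZMod.intCast_zmod_eq_zero_iff_dvd _ _).1 h1
  have h2 := ZMod.natAbs_valMinAbs_le a
  generalize a.valMinAbs = b at hm h2
  have h3 : b ^ 2 - d ≠ 0 := by
    intro e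
    rcases hd with rfl | rfl | rfl
    · have : b ≤ 4 ∧ -4 ≤ b := by constructor <;> nlinarith
      obtain ⟨h4, h5⟩ := this
      interval_cases b <;> simp at e
    · nlinarith
    · nlinarith
  have h4 : 2 * |b| ≤ p := by rw [Int.abs_eq_natAbs]; omega
  have h5 : 4 * b ^ 2 ≤ (p : ℤ) ^ 2 := by nlinarith [sq_abs b, abs_nonneg b]
  refine ⟨m, Units.mk0 ((b ^ 2 - d : ℤ) : ℚ) (by exact_mod_cast h3), ?_, ?_, ?_⟩
  · have : Units.mk0 ((b ^ 2 - d : ℤ) : ℚ) (by exact_mod_cast h3) ∈ Nm d := ⟨b, 1, by simp⟩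
    rcases hd with rfl | rfl | rfl
    · exact Subgroup.mem_sup_left this
    · exact Subgroup.mem_sup_right (Subgroup.mem_sup_left this)
    · exact Subgroup.mem_sup_right (Subgroup.mem_sup_right this)
  · have h20 : (20 : ℤ) ≤ p := by exact_mod_cast h
    have : -(p : ℤ) < m ∧ m < p := by
      constructor
      · rcases hd with rfl | rfl | rfl <;> nlinarith
      · rcases hd with rfl | rfl | rfl <;> nlinarith
    omega
  · rw [Units.val_mk0, hm]; push_cast; ring

theorem finite_quot : Finite (ℚˣ ⧸ HN) := by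
  let S : Set ℚˣ := {x | ∃ n : ℤ, n.natAbs < 20 ∧ (x : ℚ) = n}
  have hS : S.Finite := by
    refine Set.Finite.of_finite_image (f := Units.val) ?_ Units.val_injective.injOn
    refine ((Set.finite_Icc (-20 : ℤ) 20).image (Int.cast : ℤ → ℚ)).subset ?_
    rintro _ ⟨x, ⟨n, hn, e⟩, rfl⟩
    exact ⟨n, by constructor <;> omega, e.symm⟩
  let K := HN ⊔ Subgroup.closure S
  have hint : ∀ (k : ℕ) (n : ℤ) (x : ℚˣ), n.natAbs = k → (x : ℚ) = n → x ∈ K := by
    intro k
    induction k using Nat.strong_induction_on with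
    | _ k ih =>
      intro n x hk hx
      by_cases h20 : k < 20
      · exact Subgroup.mem_sup_right (Subgroup.subset_closure ⟨n, by omega, hx⟩)
      have hm1 : (-1 : ℚˣ) ∈ K :=
        Subgroup.mem_sup_right (Subgroup.subset_closure ⟨-1, by simp, by simp⟩)
      have red : ∀ y : ℚˣ, (y : ℚ) = k → y ∈ K → x ∈ K := by
        intro y hy hyK
        rcases Int.natAbs_eq n with e | e
        · have : x = y := Units.ext (by rw [hx, hy, e, hk]; simp)
          rwa [this]
        · have : x = -1 * y := Units.ext (by rw [hx, e, hk]; simp [hy])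
          rw [this]; exact K.mul_mem hm1 hyK
      have hk0 : (k : ℚ) ≠ 0 := by exact_mod_cast (by omega : k ≠ 0)
      refine red (Units.mk0 k hk0) rfl ?_
      by_cases hp : k.Prime
      · obtain ⟨m, y, hy, hm, e⟩ := small_norm k hp (by omega)
        have hm0 : (m : ℚ) ≠ 0 := fun h => y.ne_zero (by rw [e, h, mul_zero])
        have : Units.mk0 (k : ℚ) hk0 = y * (Units.mk0 (m : ℚ) hm0)⁻¹ := by
          rw [eq_mul_inv_iff_mul_eq]; exact Units.ext e.symm
        rw [this]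
        exact K.mul_mem (Subgroup.mem_sup_left hy) (K.inv_mem (ih _ hm m _ rfl rfl))
      · obtain ⟨a, b, ha, hb, e⟩ := (Nat.not_prime_iff_exists_mul_eq (by omega)).1 hp
        have ha0 : (a : ℚ) ≠ 0 := by
          exact_mod_cast (fun h => by rw [h] at e; omega : a ≠ 0)
        have hb0 : (b : ℚ) ≠ 0 := by
          exact_mod_cast (fun h => by rw [h] at e; omega : b ≠ 0)
        have : Units.mk0 (k : ℚ) hk0 = Units.mk0 (a : ℚ) ha0 * Units.mk0 (b : ℚ) hb0 :=
          Units.ext (by simp [← e])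
        rw [this]
        exact K.mul_mem (ih a ha a _ rfl (by simp)) (ih b hb b _ rfl (by simp))
  have hK : K = ⊤ := by
    rw [eq_top_iff]
    intro x _
    have h1 : (x.1.num : ℚ) ≠ 0 := by exact_mod_cast Rat.num_ne_zero.2 x.ne_zero
    have h2 : ((x.1.den : ℤ) : ℚ) ≠ 0 := by exact_mod_cast x.1.den_ne_zero
    have : x = Units.mk0 _ h1 * (Units.mk0 _ h2)⁻¹ := by
      rw [eq_mul_inv_iff_mul_eq]; exact Units.ext (by simp)
    rw [this]
    exact K.mul_mem (hint _ _ _ rfl rfl) (K.inv_mem (hint _ _ _ rfl rfl))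
  haveI : Group.FG (ℚˣ ⧸ HN) := by
    rw [Group.fg_iff]
    refine ⟨QuotientGroup.mk' HN '' S, ?_, hS.image _⟩
    rw [← MonoidHom.map_closure, ← Subgroup.map_top_of_surjective _ (QuotientGroup.mk'_surjective HN),
      ← hK, Subgroup.map_sup, QuotientGroup.map_mk'_self, bot_sup_eq]
  refine CommGroup.finite_of_fg_torsion _ fun x => ?_
  obtain ⟨x, rfl⟩ := QuotientGroup.mk'_surjective _ x
  exact isOfFinOrder_iff_pow_eq_one.2 ⟨2, two_pos, by
    rw [← map_pow]; exact (QuotientGroup.eq_one_iff _).2 (sq_mem x)⟩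

open Classical in
noncomputable def cnt (P : ℕ → Prop) (n : ℕ) : ℕ := n.primeFactorsList.countP fun p => P p

theorem cnt_mul (P : ℕ → Prop) {a b : ℕ} (ha : a ≠ 0) (hb : b ≠ 0) :
    cnt P (a * b) = cnt P a + cnt P b := by
  rw [cnt, (Nat.perm_primeFactorsList_mul ha hb).countP_eq, List.countP_append]; rfl

open Classical in
theorem cnt_prime (P : ℕ → Prop) {p : ℕ} (hp : p.Prime) : cnt P p = if P p then 1 else 0 := by
  rw [cnt, Nat.primeFactorsList_prime hp]; by_cases h : P p <;> simp [h]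

theorem even_cnt (P : ℕ → Prop) (d : ℤ) (hP : ∀ p, p.Prime → P p → ¬ IsSquare (d : ZMod p)) :
    ∀ (k : ℕ) (u v : ℤ), (u ^ 2 - d * v ^ 2).natAbs = k → k ≠ 0 → Even (cnt P k) := by
  intro k
  induction k using Nat.strong_induction_on with
  | _ k ih =>
    intro u v hk h0
    by_cases h : ∃ p, p.Prime ∧ P p ∧ p ∣ k
    · obtain ⟨p, hp, hPp, hd⟩ := h
      haveI := Fact.mk hp
      have h1 : ((u ^ 2 - d * v ^ 2 : ℤ) : ZMod p) = 0 :=
        (ZMod.intCast_zmod_eq_zero_iff_dvd _ _).2 (Int.natCast_dvd.2 (hk ▸ hd))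
      push_cast at h1
      have hv : (v : ZMod p) = 0 := by
        by_contra hv
        exact hP p hp hPp ⟨u / v, by field_simp; linear_combination -h1⟩
      have hu : (u : ZMod p) = 0 := by
        rw [hv] at h1; simpa using h1
      obtain ⟨u', rfl⟩ := (ZMod.intCast_zmod_eq_zero_iff_dvd _ _).1 hu
      obtain ⟨v', rfl⟩ := (ZMod.intCast_zmod_eq_zero_iff_dvd _ _).1 hv
      have e : k = p * (p * (u' ^ 2 - d * v' ^ 2).natAbs) := by
        rw [← hk, show (p * u') ^ 2 - d * (p * v') ^ 2 = p * (p * (u' ^ 2 - d * v' ^ 2)) by ring]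
        simp [Int.natAbs_mul]
      have h2 : (u' ^ 2 - d * v' ^ 2).natAbs ≠ 0 := fun h => h0 (by rw [e, h]; simp)
      have h3 := hp.two_le
      have := ih _ (by
        rw [e]
        exact lt_of_lt_of_le (lt_mul_of_one_lt_left (Nat.pos_of_ne_zero h2) h3)
          (Nat.le_mul_of_pos_left _ hp.pos)) u' v' rfl h2
      rw [e, cnt_mul _ hp.ne_zero (mul_ne_zero hp.ne_zero h2), cnt_mul _ hp.ne_zero h2,
        ← add_assoc]
      exact (Even.add_self _).add this
    · have : cnt P k = 0 := by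
        rw [cnt, List.countP_eq_zero]
        intro p hp hq
        exact h ⟨p, Nat.prime_of_mem_primeFactorsList hp, by simpa using hq,
          Nat.dvd_of_mem_primeFactorsList hp⟩
      rw [this]; exact Even.zero

theorem cnt_mod (n : ℕ) : n % 2 = 1 → (n % 4 = 1 ↔ Even (cnt (fun p => p % 4 = 3) n)) := by
  induction n using induction_on_primes with
  | zero => simp
  | one => simp [cnt]
  | prime_mul p a hp ih =>
    intro h
    have hp2 : p % 2 = 1 := Nat.odd_iff.1 (Nat.odd_mul.1 (Nat.odd_iff.2 h)).1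
    have ha2 : a % 2 = 1 := Nat.odd_iff.1 (Nat.odd_mul.1 (Nat.odd_iff.2 h)).2
    rw [cnt_mul _ hp.ne_zero (by omega), cnt_prime _ hp, Nat.even_add, ← ih ha2, Nat.mul_mod]
    have h1 : p % 4 = 1 ∨ p % 4 = 3 := by omega
    have h2 : a % 4 = 1 ∨ a % 4 = 3 := by omega
    rcases h1 with h1 | h1 <;> rcases h2 with h2 | h2 <;> simp [h1, h2]

theorem even_mu : ∀ (k : ℕ) (u v : ℤ), (u ^ 2 + 17 * v ^ 2).natAbs = k → k ≠ 0 →
    Even (cnt (fun p => p % 4 = 3) k) := by
  intro k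
  induction k using Nat.strong_induction_on with
  | _ k ih =>
    intro u v hk h0
    have hk' : (k : ℤ) = u ^ 2 + 17 * v ^ 2 := by
      rw [← hk, Int.natAbs_of_nonneg (by positivity)]
    have c2 : cnt (fun p => p % 4 = 3) 2 = 0 := by rw [cnt_prime _ Nat.prime_two]; simp
    obtain ⟨a, rfl | rfl⟩ := Int.even_or_odd' u <;> obtain ⟨b, rfl | rfl⟩ := Int.even_or_odd' v
    · have e : k = 2 * (2 * (a ^ 2 + 17 * b ^ 2).natAbs) := by
        rw [← hk, show (2 * a) ^ 2 + 17 * (2 * b) ^ 2 = 2 * (2 * (a ^ 2 + 17 * b ^ 2)) by ring]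
        simp [Int.natAbs_mul]
      have := ih (a ^ 2 + 17 * b ^ 2).natAbs (by omega) a b rfl (by omega)
      rwa [e, cnt_mul _ two_ne_zero (by omega), cnt_mul _ two_ne_zero (by omega), c2, zero_add,
        zero_add]
    · have : (k : ℤ) = 4 * (a ^ 2 + 17 * (b ^ 2 + b) + 4) + 1 := by rw [hk']; ring
      exact (cnt_mod k (by omega)).1 (by omega)
    · have : (k : ℤ) = 4 * (a ^ 2 + a + 17 * b ^ 2) + 1 := by rw [hk']; ring
      exact (cnt_mod k (by omega)).1 (by omega)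
    · obtain ⟨s, hs⟩ := Int.even_mul_succ_self a
      obtain ⟨t, ht⟩ := Int.even_mul_succ_self b
      have : (k : ℤ) = 2 * (4 * (s + 17 * t + 2) + 1) := by
        rw [hk']; linear_combination 4 * hs + 68 * ht
      have e : k = 2 * (k / 2) := by omega
      rw [e, cnt_mul _ two_ne_zero (by omega), c2, zero_add]
      exact (cnt_mod _ (by omega)).1 (by omega)

def bad (p : ℕ) : Prop := p % 4 = 3 ∧ ¬ IsSquare ((17 : ℤ) : ZMod p)

theorem neg_one_nsq {p : ℕ} (hp : p.Prime) (h : p % 4 = 3) : ¬ IsSquare ((-1 : ℤ) : ZMod p) := by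
  haveI := Fact.mk hp
  intro hs
  exact ZMod.exists_sq_eq_neg_one_iff.1 (by simpa using hs) h

theorem even_bad (d : ℤ) (hd : d = 17 ∨ d = -1 ∨ d = -17) (u v : ℤ)
    (h0 : (u ^ 2 - d * v ^ 2).natAbs ≠ 0) : Even (cnt bad (u ^ 2 - d * v ^ 2).natAbs) := by
  rcases hd with rfl | rfl | rfl
  · exact even_cnt bad 17 (fun p _ h => h.2) _ u v rfl h0
  · exact even_cnt bad (-1) (fun p hp h => neg_one_nsq hp h.1) _ u v rfl h0
  · have h1 := even_cnt (fun p => p % 4 = 3 ∧ IsSquare ((17 : ℤ) : ZMod p)) (-17)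
      (fun p hp h hs => by
        haveI := Fact.mk hp
        have h17 : ((17 : ℤ) : ZMod p) ≠ 0 := by
          intro e
          have := (Nat.prime_dvd_prime_iff_eq hp (by norm_num : Nat.Prime 17)).1
            (Int.natCast_dvd_natCast.1 ((ZMod.intCast_zmod_eq_zero_iff_dvd _ _).1 e))
          omega
        obtain ⟨a, ha⟩ := h.2
        obtain ⟨b, hb⟩ := hs
        have ha0 : a ≠ 0 := fun e => h17 (by rw [ha, e, mul_zero])
        refine neg_one_nsq hp h.1 ⟨b / a, ?_⟩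
        push_cast at ha hb ⊢
        field_simp
        linear_combination hb + ha) _ u v rfl h0
    have h2 := even_mu _ u v (show _ = (u ^ 2 - (-17) * v ^ 2).natAbs by congr 1; ring) h0
    generalize (u ^ 2 - (-17) * v ^ 2).natAbs = k at h1 h2
    have : cnt (fun p => p % 4 = 3) k = cnt bad k +
        cnt (fun p => p % 4 = 3 ∧ IsSquare ((17 : ℤ) : ZMod p)) k := by
      simp only [cnt]
      induction k.primeFactorsList with
      | nil => rfl
      | cons p l ih =>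
        simp only [List.countP_cons, ih, bad]
        by_cases a : p % 4 = 3 <;> by_cases b : IsSquare ((17 : ℤ) : ZMod p) <;>
          simp only [a, b] <;> simp <;> omega
    rw [this, Nat.even_add] at h2
    exact h2.2 h1

/-- the elements whose bad part is even -/
def Ev : Subgroup ℚˣ where
  carrier := {x | ∃ (a : ℤ) (b : ℕ), b ≠ 0 ∧ (x : ℚ) * b ^ 2 = a ∧ Even (cnt bad a.natAbs)}
  one_mem' := ⟨1, 1, one_ne_zero, by simp, by simp [cnt]⟩
  mul_mem' := by
    rintro x y ⟨a, b, hb, h, e⟩ ⟨a', b', hb', h', e'⟩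
    have ha : a ≠ 0 := by
      rintro rfl
      exact mul_ne_zero x.ne_zero (pow_ne_zero 2 (Nat.cast_ne_zero.2 hb)) (by simpa using h)
    have ha' : a' ≠ 0 := by
      rintro rfl
      exact mul_ne_zero y.ne_zero (pow_ne_zero 2 (Nat.cast_ne_zero.2 hb')) (by simpa using h')
    refine ⟨a * a', b * b', mul_ne_zero hb hb', by push_cast; rw [← h, ← h']; ring, ?_⟩
    rw [Int.natAbs_mul, cnt_mul _ (by omega) (by omega)]
    exact e.add e'
  inv_mem' := by
    rintro x ⟨a, b, hb, h, e⟩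
    have ha : a ≠ 0 := by
      rintro rfl
      exact mul_ne_zero x.ne_zero (pow_ne_zero 2 (Nat.cast_ne_zero.2 hb)) (by simpa using h)
    refine ⟨a * (b * b), a.natAbs, by omega, ?_, ?_⟩
    · have := x.ne_zero
      rw [Units.val_inv_eq_inv_val, Nat.cast_natAbs, Int.cast_abs, sq_abs]
      push_cast
      rw [← h]; field_simp
    · rw [Int.natAbs_mul, Int.natAbs_mul, Int.natAbs_natCast,
        cnt_mul _ (by omega) (mul_ne_zero hb hb), cnt_mul _ hb hb]
      exact e.add (Even.add_self _)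

theorem Nm_le (d : ℤ) (hd : d = 17 ∨ d = -1 ∨ d = -17) : Nm d ≤ Ev := by
  rintro x ⟨u, v, h⟩
  have e : (x : ℚ) * ((u.den * v.den : ℕ) : ℚ) ^ 2 =
      (((u.num * v.den) ^ 2 - d * (v.num * u.den) ^ 2 : ℤ) : ℚ) := by
    push_cast
    rw [h, ← Rat.mul_den_eq_num u, ← Rat.mul_den_eq_num v]; ring
  have h0 : u.den * v.den ≠ 0 := mul_ne_zero u.den_ne_zero v.den_ne_zero
  refine ⟨_, _, h0, e, even_bad d hd _ _ fun h1 => ?_⟩
  rw [Int.natAbs_eq_zero.1 h1] at e
  exact mul_ne_zero x.ne_zero (pow_ne_zero 2 (Nat.cast_ne_zero.2 h0)) (by simpa using e)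

theorem three_not : Units.mk0 (3 : ℚ) three_ne_zero ∉ HN := by
  intro h
  have : HN ≤ Ev := sup_le (Nm_le _ (by simp)) (sup_le (Nm_le _ (by simp)) (Nm_le _ (by simp)))
  obtain ⟨a, b, hb, h, e⟩ := this h
  have ha : a = 3 * (b * b) := by
    have : (a : ℚ) = ((3 * (b * b) : ℤ) : ℚ) := by rw [← h]; push_cast; simp; ring
    exact_mod_cast this
  have b3 : bad 3 := ⟨rfl, by decide⟩
  rw [ha, Int.natAbs_mul, Int.natAbs_mul, Int.natAbs_natCast,
    cnt_mul _ (by simp) (mul_ne_zero hb hb), cnt_mul _ hb hb,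
    show Int.natAbs 3 = 3 from rfl, cnt_prime _ Nat.prime_three, if_pos b3, Nat.even_add] at e
  exact Nat.not_even_one (e.2 (Even.add_self _))

end Pool.Agent.H77.Qf
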