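import Pool.Agent.H77.QfAO

namespace Pool.Agent.H77.Qf

abbrev J : Type := Fin 3 × Fin 3
def pa : Fin 3 → Fin 3 := ![0, 1, 0]
def pb : Fin 3 → Fin 3 := ![1, 2, 2]
def rk (j : J) : ℕ := 3 * j.1.1 + j.2.1
def good (k : J × J) : Prop := rk k.1 < rk k.2 ∧ ¬ (k.1.1 = k.2.1 ∧ k.1.2 = 1 ∧ k.2.2 = 2)
instance : DecidablePred good := fun k => by unfold good; infer_instance
abbrev Kp : Type := {k : J × J // good k}
abbrev V (F : Type) : Type := F × F × (J → F)
abbrev W (F : Type) : Type := F × (J → F) × (Kp → F)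
def edge (i : Fin 3) : J × J := ((pa i, 0), (pb i, 0))
theorem good_edge : ∀ i, good (edge i) := by decide

section
variable {F : Type} [Field F]

def mm (x y : J → F) (j k : J) : F := x j * y k - x k * y j

def brE (c : Fin 3 → F) (x y : J → F) : Kp → F := fun k =>
  mm x y k.1.1 k.1.2 + ∑ i, if k.1 = edge i then c i * mm x y (i, 1) (i, 2) else 0

def br (θ : (J → F) →ₗ[F] (J → F)) (c : Fin 3 → F) (x y : V F) : W F :=
  (x.1 * y.2.1 - x.2.1 * y.1,
    x.1 • y.2.2 - y.1 • x.2.2 + θ (x.2.1 • y.2.2 - y.2.1 • x.2.2), brE c x.2.2 y.2.2)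

theorem brE_add_left (c : Fin 3 → F) (x x' y : J → F) :
    brE c (x + x') y = brE c x y + brE c x' y := by
  ext k
  simp only [brE, mm, Pi.add_apply]
  rw [add_add_add_comm, ← Finset.sum_add_distrib]
  congr 1
  · ring
  · refine Finset.sum_congr rfl fun i _ => ?_
    split_ifs <;> ring

theorem brE_smul_left (c : Fin 3 → F) (a : F) (x y : J → F) :
    brE c (a • x) y = a • brE c x y := by
  ext k
  simp only [brE, mm, Pi.smul_apply, smul_eq_mul, mul_add, Finset.mul_sum]
  congr 1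
  · ring
  · refine Finset.sum_congr rfl fun i _ => ?_
    split_ifs <;> ring

theorem brE_swap (c : Fin 3 → F) (x y : J → F) : brE c y x = -brE c x y := by
  ext k
  simp only [brE, mm, Pi.neg_apply, neg_add, ← Finset.sum_neg_distrib]
  congr 1
  · ring
  · refine Finset.sum_congr rfl fun i _ => ?_
    split_ifs <;> ring

theorem br_swap (θ : (J → F) →ₗ[F] (J → F)) (c : Fin 3 → F) (x y : V F) :
    br θ c y x = -br θ c x y := by
  refine Prod.ext ?_ (Prod.ext ?_ (brE_swap _ _ _))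
  · simp only [br, Prod.fst_neg]; ring
  · simp only [br, Prod.snd_neg, Prod.fst_neg, map_sub]; abel

theorem br_add_left (θ : (J → F) →ₗ[F] (J → F)) (c : Fin 3 → F) (x x' y : V F) :
    br θ c (x + x') y = br θ c x y + br θ c x' y := by
  refine Prod.ext ?_ (Prod.ext ?_ (brE_add_left _ _ _ _))
  · simp only [br, Prod.fst_add, Prod.snd_add]; ring
  · simp only [br, Prod.snd_add, Prod.fst_add, map_sub, add_smul, smul_add, map_add]; abel

theorem br_smul_left (θ : (J → F) →ₗ[F] (J → F)) (c : Fin 3 → F) (a : F) (x y : V F) :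
    br θ c (a • x) y = a • br θ c x y := by
  refine Prod.ext ?_ (Prod.ext ?_ (brE_smul_left _ _ _ _))
  · simp only [br, Prod.smul_fst, Prod.smul_snd, smul_eq_mul]; ring
  · simp only [br, Prod.smul_fst, Prod.smul_snd, smul_eq_mul, map_sub, map_smul, smul_add,
      smul_sub, smul_smul, mul_comm]

def B (θ : (J → F) →ₗ[F] (J → F)) (c : Fin 3 → F) : V F →ₗ[F] V F →ₗ[F] W F :=
  LinearMap.mk₂ F (br θ c) (br_add_left θ c) (br_smul_left θ c)
    (fun x y y' => by rw [br_swap, br_add_left, br_swap θ c y, br_swap θ c y', neg_add])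
    (fun a x y => by rw [br_swap, br_smul_left, br_swap θ c y, smul_neg])

theorem B_apply (θ : (J → F) →ₗ[F] (J → F)) (c : Fin 3 → F) (x y : V F) :
    B θ c x y = br θ c x y := rfl

theorem B_self (θ : (J → F) →ₗ[F] (J → F)) (c : Fin 3 → F) (x : V F) : B θ c x x = 0 := by
  refine Prod.ext ?_ (Prod.ext ?_ ?_)
  · simp [B_apply, br, mul_comm]
  · simp [B_apply, br]
  · ext k; simp [B_apply, br, brE, mm, mul_comm]

def vs : V F := (1, 0, 0)
def vt : V F := (0, 1, 0)
def iE : (J → F) →ₗ[F] V F := (LinearMap.inr F _ _).comp (LinearMap.inr F _ _)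
theorem iE_apply (v : J → F) : iE v = (0, 0, v) := rfl
def ve (j : J) : V F := iE (Pi.single j 1)

/-- the defining relations -/
structure Rel {X : Type} [AddCommGroup X] [Module F X] (θ : (J → F) →ₗ[F] (J → F))
    (c : Fin 3 → F) (b : V F →ₗ[F] V F →ₗ[F] X) : Prop where
  alt : ∀ x, b x x = 0
  r1 : ∀ v, b vt (iE v) = b vs (iE (θ v))
  r2 : ∀ i, b (ve (i, 1)) (ve (i, 2)) = c i • b (ve (edge i).1) (ve (edge i).2)

def GG {X : Type} [AddCommGroup X] [Module F X] (b : V F →ₗ[F] V F →ₗ[F] X) : W F →ₗ[F] X where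
  toFun w := w.1 • b vs vt + b vs (iE w.2.1) + ∑ k : Kp, w.2.2 k • b (ve k.1.1) (ve k.1.2)
  map_add' w w' := by
    simp only [Prod.fst_add, Prod.snd_add, add_smul, map_add, Pi.add_apply, Finset.sum_add_distrib]
    abel
  map_smul' a w := by
    simp only [Prod.smul_fst, Prod.smul_snd, smul_eq_mul, map_smul, Pi.smul_apply, smul_add,
      Finset.smul_sum, mul_smul, RingHom.id_apply]

theorem sum_lt {X : Type} [AddCommGroup X] (f : J × J → X) (h0 : ∀ j, f (j, j) = 0) :
    ∑ k, f k = ∑ k with rk k.1 < rk k.2, (f k + f k.swap) := by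
  rw [Finset.sum_add_distrib, ← Finset.sum_filter_add_sum_filter_not Finset.univ
    (fun k : J × J => rk k.1 < rk k.2)]
  congr 1
  rw [← Finset.sum_filter_add_sum_filter_not _ (fun k : J × J => k.1 = k.2),
    Finset.sum_eq_zero, zero_add]
  · refine Finset.sum_nbij' Prod.swap Prod.swap ?_ ?_ ?_ ?_ ?_
    · decide
    · decide
    · simp
    · simp
    · simp
  · rintro ⟨j, k⟩ h
    obtain rfl : j = k := (Finset.mem_filter.1 h).2
    exact h0 j

theorem sum_split {X : Type} [AddCommGroup X] (f : J × J → X) :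
    ∑ k with rk k.1 < rk k.2, f k = ∑ k : Kp, f k.1 + ∑ i : Fin 3, f ((i, 1), (i, 2)) := by
  rw [← Finset.sum_filter_add_sum_filter_not _ good]
  refine congrArg₂ (· + ·) ?_ ?_
  · exact Finset.sum_subtype _ (by decide) _
  · rw [show Finset.filter (fun k => ¬ good k) (Finset.filter (fun k : J × J => rk k.1 < rk k.2)
      Finset.univ) = Finset.univ.image (fun i : Fin 3 => (((i, 1), (i, 2)) : J × J)) by decide,
      Finset.sum_image (by decide)]

theorem iE_sum (x : J → F) : iE x = ∑ j, x j • ve j := by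
  simp only [ve, ← map_smul, ← map_sum]
  congr 1
  ext j
  simp [Pi.single_apply]

theorem V_dec (x : V F) : x = x.1 • vs + x.2.1 • vt + iE x.2.2 := by
  simp [vs, vt, iE_apply]

theorem Rel.univ {X : Type} [AddCommGroup X] [Module F X] {θ : (J → F) →ₗ[F] (J → F)}
    {c : Fin 3 → F} {b : V F →ₗ[F] V F →ₗ[F] X} (h : Rel θ c b) (x y : V F) :
    GG b (B θ c x y) = b x y := by
  have sw : ∀ x y, b y x = -b x y := by
    intro x y
    have := h.alt (x + y)
    simp only [map_add, LinearMap.add_apply, h.alt, zero_add, add_zero] at this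
    exact eq_neg_of_add_eq_zero_left this
  have hE : ∀ x y : J → F, ∑ k : Kp, brE c x y k • b (ve k.1.1) (ve k.1.2) = b (iE x) (iE y) := by
    intro x y
    have e1 : b (iE x) (iE y) = ∑ k : J × J, (x k.1 * y k.2) • b (ve k.1) (ve k.2) := by
      rw [iE_sum x, iE_sum y, Fintype.sum_prod_type (α₁ := J) (α₂ := J)]
      simp only [map_sum (b _), map_sum b, map_smul, LinearMap.sum_apply, LinearMap.smul_apply,
        Finset.smul_sum, smul_smul]
    rw [e1, sum_lt _ (fun j => by simp [h.alt]), sum_split]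
    simp only [brE, add_smul, Finset.sum_add_distrib, Finset.sum_smul]
    rw [Finset.sum_comm (s := Finset.univ (α := Kp)), ← Finset.sum_add_distrib,
      ← Finset.sum_add_distrib]
    congr 1
    · refine Finset.sum_congr rfl fun k _ => ?_
      simp only [Prod.fst_swap, Prod.snd_swap, mm]
      rw [sw (ve k.1.1), sub_smul, smul_neg, sub_eq_add_neg]
    · refine Finset.sum_congr rfl fun i _ => ?_
      rw [Finset.sum_eq_single ⟨edge i, good_edge i⟩ (fun k _ hk => by
        rw [if_neg (fun e => hk (Subtype.ext e)), zero_smul]) (by simp), if_pos rfl]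
      simp only [Prod.fst_swap, Prod.snd_swap, mm]
      rw [sw (ve (i, 1)), h.r2, smul_neg, smul_smul, smul_smul, ← neg_smul, ← add_smul]
      congr 1; ring
  show (br θ c x y).1 • b vs vt + b vs (iE (br θ c x y).2.1) + ∑ k : Kp, brE c x.2.2 y.2.2 k • _ = _
  rw [hE]
  conv_rhs => rw [V_dec x, V_dec y]
  simp only [br, map_add, map_sub, map_smul, LinearMap.add_apply, LinearMap.smul_apply, h.alt,
    ← h.r1, sw vs vt, sw vs (iE _), sw vt (iE _)]
  module

theorem mm_single (a b j k : J) : mm (Pi.single a (1 : F)) (Pi.single b 1) j k =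
    (if j = a ∧ k = b then 1 else 0) - if k = a ∧ j = b then 1 else 0 := by
  simp only [mm, Pi.single_apply, ite_and]
  congr 1 <;> split_ifs <;> simp

theorem B_ve (θ : (J → F) →ₗ[F] (J → F)) (c : Fin 3 → F) (k : Kp) :
    B θ c (ve k.1.1) (ve k.1.2) = (0, 0, Pi.single k 1) := by
  refine Prod.ext (by simp [B_apply, br, ve, iE_apply]) (Prod.ext
    (by simp [B_apply, br, ve, iE_apply]) ?_)
  ext k'
  have h1 : ¬ (k'.1.2 = k.1.1 ∧ k'.1.1 = k.1.2) := fun h => by
    have := k.2.1; have := k'.2.1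
    rw [h.1, h.2] at this; omega
  have h2 : ∀ (k : J × J) (i : Fin 3), good k → ¬ ((i, 1) = k.1 ∧ (i, 2) = k.2) ∧
    ¬ ((i, 2) = k.1 ∧ (i, 1) = k.2) := by decide
  simp only [B_apply, br, ve, iE_apply, brE, mm_single]
  rw [Finset.sum_eq_zero fun i _ => by
    rw [if_neg (h2 k.1 i k.2).1, if_neg (h2 k.1 i k.2).2]
    simp]
  rw [if_neg h1, Pi.single_apply]
  by_cases e : k' = k
  · subst e; simp
  · rw [if_neg e, if_neg (fun h => e (Subtype.ext (Prod.ext h.1 h.2)))]; simp

theorem GG_B (θ : (J → F) →ₗ[F] (J → F)) (c : Fin 3 → F) (w : W F) : GG (B θ c) w = w := by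
  show w.1 • B θ c vs vt + B θ c vs (iE w.2.1) + ∑ k : Kp, w.2.2 k • B θ c (ve k.1.1) (ve k.1.2) = w
  simp only [B_ve]
  have e0 : ∀ x : J → F, brE c 0 x = 0 := fun x => by
    simpa using brE_smul_left c 0 x x
  refine Prod.ext ?_ (Prod.ext ?_ ?_)
  · simp [B_apply, br, vs, vt, iE_apply, Prod.fst_sum]
  · simp [B_apply, br, vs, vt, iE_apply, Prod.fst_sum, Prod.snd_sum]
  · ext k
    simp [B_apply, br, vs, vt, iE_apply, Prod.snd_sum, e0, Pi.single_apply]

theorem W_ind (θ : (J → F) →ₗ[F] (J → F)) (c : Fin 3 → F) (U : Submodule F (W F))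
    (h : ∀ x y, B θ c x y ∈ U) (w : W F) : w ∈ U := by
  rw [← GG_B θ c w]
  exact U.add_mem (U.add_mem (U.smul_mem _ (h _ _)) (h _ _))
    (U.sum_mem fun k _ => U.smul_mem _ (h _ _))

theorem Rel_B (θ : (J → F) →ₗ[F] (J → F)) (c : Fin 3 → F) : Rel θ c (B θ c) where
  alt := B_self θ c
  r1 v := by
    have e0 : ∀ x : J → F, brE c 0 x = 0 := fun x => by
      simpa using brE_smul_left c 0 x x
    simp [B_apply, br, vs, vt, iE_apply, e0]
  r2 i := by
    rw [B_ve θ c ⟨edge i, good_edge i⟩]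
    refine Prod.ext (by simp [B_apply, br, ve, iE_apply]) (Prod.ext
      (by simp [B_apply, br, ve, iE_apply]) ?_)
    ext k
    have h2 : ∀ (k : J × J) (i : Fin 3), good k → ¬ (k.2 = (i, 2) ∧ k.1 = (i, 1)) ∧
      ¬ (k.1 = (i, 2) ∧ k.2 = (i, 1)) := by decide
    have h3 : ∀ i j : Fin 3, edge i = edge j → i = j := by decide
    simp only [B_apply, br, ve, iE_apply, brE, mm, Pi.single_apply, mul_ite, mul_one, mul_zero,
      ← ite_and, Prod.smul_snd, Pi.smul_apply, smul_eq_mul]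
    rw [if_neg (h2 k.1 i k.2).1, if_neg (h2 k.1 i k.2).2, Finset.sum_eq_single i]
    · simp [Subtype.ext_iff]
    · intro j _ hj; simp [hj]
    · simp

theorem iso_W {θ θ' : (J → F) →ₗ[F] (J → F)} {c c' : Fin 3 → F} (h : V F →ₗ[F] V F)
    (hs : Function.Surjective h) (hr : Rel θ' c' ((B θ c).compl₁₂ h h)) :
    ∃ G : W F ≃ₗ[F] W F, ∀ x y, G (B θ' c' x y) = B θ c (h x) (h y) := by
  have hG : Function.Surjective (GG ((B θ c).compl₁₂ h h)) := by
    rw [← LinearMap.range_eq_top, eq_top_iff]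
    intro w _
    refine W_ind θ c _ (fun x y => ?_) w
    obtain ⟨x, rfl⟩ := hs x
    obtain ⟨y, rfl⟩ := hs y
    exact ⟨_, hr.univ x y⟩
  exact ⟨LinearEquiv.ofBijective _ ⟨LinearMap.injective_iff_surjective.2 hG, hG⟩, hr.univ⟩

/-- block maps -/
def bm (π a b c d : Fin 3 → F) : (J → F) →ₗ[F] (J → F) where
  toFun x j := ![π j.1 * x (j.1, 0), a j.1 * x (j.1, 1) + b j.1 * x (j.1, 2),
    c j.1 * x (j.1, 1) + d j.1 * x (j.1, 2)] j.2
  map_add' x y := by
    ext ⟨i, k⟩; fin_cases k <;> simp <;> ring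
  map_smul' r x := by
    ext ⟨i, k⟩; fin_cases k <;> simp <;> ring

@[simp] theorem bm0 (π a b c d : Fin 3 → F) (x : J → F) (i : Fin 3) :
    bm π a b c d x (i, 0) = π i * x (i, 0) := rfl
@[simp] theorem bm1 (π a b c d : Fin 3 → F) (x : J → F) (i : Fin 3) :
    bm π a b c d x (i, 1) = a i * x (i, 1) + b i * x (i, 2) := rfl
@[simp] theorem bm2 (π a b c d : Fin 3 → F) (x : J → F) (i : Fin 3) :
    bm π a b c d x (i, 2) = c i * x (i, 1) + d i * x (i, 2) := rfl

theorem J_ext {x y : J → F} (h0 : ∀ i, x (i, 0) = y (i, 0)) (h1 : ∀ i, x (i, 1) = y (i, 1))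
    (h2 : ∀ i, x (i, 2) = y (i, 2)) : x = y := by
  ext ⟨i, k⟩
  fin_cases k
  · exact h0 i
  · exact h1 i
  · exact h2 i

def HM (τ : F) (m : (J → F) →ₗ[F] (J → F)) : V F →ₗ[F] V F :=
  (τ • LinearMap.id).prodMap ((τ • LinearMap.id).prodMap m)

theorem HM_apply (τ : F) (m : (J → F) →ₗ[F] (J → F)) (x : V F) :
    HM τ m x = (τ * x.1, τ * x.2.1, m x.2.2) := rfl

theorem HM_ve0 (τ : F) (π a b c d : Fin 3 → F) (i : Fin 3) :
    HM τ (bm π a b c d) (ve (i, 0)) = π i • ve (i, 0) := by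
  refine Prod.ext (by simp [HM_apply, ve, iE_apply]) (Prod.ext (by simp [HM_apply, ve, iE_apply])
    (J_ext (fun j => ?_) (fun j => ?_) fun j => ?_)) <;>
  by_cases h : j = i <;> simp [HM_apply, ve, iE_apply, Pi.single_apply, h]

theorem HM_ve1 (τ : F) (π a b c d : Fin 3 → F) (i : Fin 3) :
    HM τ (bm π a b c d) (ve (i, 1)) = a i • ve (i, 1) + c i • ve (i, 2) := by
  refine Prod.ext (by simp [HM_apply, ve, iE_apply]) (Prod.ext (by simp [HM_apply, ve, iE_apply])
    (J_ext (fun j => ?_) (fun j => ?_) fun j => ?_)) <;>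
  by_cases h : j = i <;> simp [HM_apply, ve, iE_apply, Pi.single_apply, h]

theorem HM_ve2 (τ : F) (π a b c d : Fin 3 → F) (i : Fin 3) :
    HM τ (bm π a b c d) (ve (i, 2)) = b i • ve (i, 1) + d i • ve (i, 2) := by
  refine Prod.ext (by simp [HM_apply, ve, iE_apply]) (Prod.ext (by simp [HM_apply, ve, iE_apply])
    (J_ext (fun j => ?_) (fun j => ?_) fun j => ?_)) <;>
  by_cases h : j = i <;> simp [HM_apply, ve, iE_apply, Pi.single_apply, h]

theorem Rel_HM {X : Type} [AddCommGroup X] [Module F X] {θ θ' : (J → F) →ₗ[F] (J → F)}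
    {e e' : Fin 3 → F} {bb : V F →ₗ[F] V F →ₗ[F] X} (h : Rel θ e bb) (τ : F)
    (π a b c d : Fin 3 → F) (h1 : ∀ v, θ (bm π a b c d v) = bm π a b c d (θ' v))
    (h2 : ∀ i, (a i * d i - b i * c i) * e i = e' i * (π (pa i) * π (pb i))) :
    Rel θ' e' (bb.compl₁₂ (HM τ (bm π a b c d)) (HM τ (bm π a b c d))) where
  alt x := h.alt _
  r1 v := by
    have e1 : HM τ (bm π a b c d) vt = τ • vt := by simp [HM_apply, vt]
    have e2 : HM τ (bm π a b c d) vs = τ • vs := by simp [HM_apply, vs]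
    have e3 : ∀ v, HM τ (bm π a b c d) (iE v) = iE (bm π a b c d v) := by
      simp [HM_apply, iE_apply]
    simp only [LinearMap.compl₁₂_apply, e1, e2, e3, map_smul, LinearMap.smul_apply, h.r1, h1]
  r2 i := by
    have sw : bb (ve (i, 2)) (ve (i, 1)) = -bb (ve (i, 1)) (ve (i, 2)) := by
      have := h.alt (ve (i, 1) + ve (i, 2))
      simp only [map_add, LinearMap.add_apply, h.alt, zero_add, add_zero] at this
      exact eq_neg_of_add_eq_zero_left this
    simp only [LinearMap.compl₁₂_apply, edge, HM_ve0, HM_ve1, HM_ve2, map_add, map_smul,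
      LinearMap.add_apply, LinearMap.smul_apply, h.alt, sw, h.r2 i, smul_smul, smul_zero, smul_neg,
      zero_add, add_zero, ← neg_smul, ← add_smul]
    congr 1
    linear_combination h2 i

theorem HM_bij {τ : F} {π a b c d : Fin 3 → F} (hτ : τ ≠ 0) (hπ : ∀ i, π i ≠ 0)
    (hd : ∀ i, a i * d i - b i * c i ≠ 0) : Function.Bijective (HM τ (bm π a b c d)) := by
  have : Function.Injective (HM τ (bm π a b c d)) := by
    rw [injective_iff_map_eq_zero]
    intro x hx
    rw [HM_apply] at hx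
    have h1 : τ * x.1 = 0 := congrArg Prod.fst hx
    have h2 : τ * x.2.1 = 0 := congrArg (fun t => t.2.1) hx
    have h3 : bm π a b c d x.2.2 = 0 := congrArg (fun t => t.2.2) hx
    refine Prod.ext ((mul_eq_zero.1 h1).resolve_left hτ)
      (Prod.ext ((mul_eq_zero.1 h2).resolve_left hτ) (J_ext (fun i => ?_) (fun i => ?_) fun i => ?_))
    · exact (mul_eq_zero.1 (congrFun h3 (i, 0))).resolve_left (hπ i)
    · have e1 := congrFun h3 (i, 1)
      have e2 := congrFun h3 (i, 2)
      simp only [bm1, bm2, Pi.zero_apply] at e1 e2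
      exact (mul_eq_zero.1 (by linear_combination d i * e1 - b i * e2)).resolve_left (hd i)
    · have e1 := congrFun h3 (i, 1)
      have e2 := congrFun h3 (i, 2)
      simp only [bm1, bm2, Pi.zero_apply] at e1 e2
      exact (mul_eq_zero.1 (by linear_combination a i * e2 - c i * e1)).resolve_left (hd i)
  exact ⟨this, LinearMap.injective_iff_surjective.1 this⟩

end

end Pool.Agent.H77.Qf
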