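import Pool.Agent.H77.QfB

namespace Pool.Agent.H77.Qf

section
variable {F : Type} [Field F]

def dg (α : J → F) : (J → F) →ₗ[F] (J → F) := LinearMap.pi fun j => α j • LinearMap.proj j
@[simp] theorem dg_apply (α x : J → F) (j : J) : dg α x j = α j * x j := rfl

theorem mm_zero {c : Fin 3 → F} (hc : ∀ i, c i ≠ 0) {x y : J → F} (h : brE c x y = 0) (j k : J) :
    mm x y j k = 0 := by
  have sw : ∀ j k, mm x y j k = 0 → mm x y k j = 0 := fun j k e => by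
    simp only [mm] at e ⊢; linear_combination -e
  have h1 : ∀ j k, good (j, k) → (∀ i, (j, k) ≠ edge i) → mm x y j k = 0 := by
    intro j k hg he
    have := congrFun h ⟨(j, k), hg⟩
    simp only [brE, Pi.zero_apply] at this
    rwa [Finset.sum_eq_zero fun i _ => if_neg (he i), add_zero] at this
  have h2 : ∀ i, mm x y (edge i).1 (edge i).2 + c i * mm x y (i, 1) (i, 2) = 0 := by
    intro i
    have := congrFun h ⟨edge i, good_edge i⟩
    have h3 : ∀ i j : Fin 3, edge i = edge j → i = j := by decide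
    simp only [brE, Pi.zero_apply] at this
    rwa [Finset.sum_eq_single i (fun j _ hj => if_neg fun e => hj (h3 _ _ e).symm) (by simp),
      if_pos rfl] at this
  have h3 : ∀ i, mm x y (i, 1) (i, 2) = 0 := by
    intro i
    have q : ∀ i m : Fin 3, ∀ l : Fin 3, l ≠ 0 →
        (good ((m, 0), (i, l)) ∧ ∀ n, ((m, 0), (i, l)) ≠ edge n) ∨
        (good ((i, l), (m, 0)) ∧ ∀ n, ((i, l), (m, 0)) ≠ edge n) := by decide
    have q' : ∀ m l : Fin 3, l ≠ 0 → mm x y (m, 0) (i, l) = 0 := fun m l hl =>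
      (q i m l hl).elim (fun t => h1 _ _ t.1 t.2) fun t => sw _ _ (h1 _ _ t.1 t.2)
    have a1 := q' (pa i) 1 (by decide)
    have a2 := q' (pa i) 2 (by decide)
    have a3 := h2 i
    have : c i * (mm x y (i, 1) (i, 2)) ^ 2 = 0 := by
      simp only [mm, edge] at a1 a2 a3 ⊢
      linear_combination (x (i, 1) * y (i, 2) - x (i, 2) * y (i, 1)) * a3 -
        (x (pb i, 0) * y (i, 2) - x (i, 2) * y (pb i, 0)) * a1 +
        (x (pb i, 0) * y (i, 1) - x (i, 1) * y (pb i, 0)) * a2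
    exact pow_eq_zero_iff two_ne_zero |>.1 ((mul_eq_zero.1 this).resolve_left (hc i))
  have h4 : ∀ i, mm x y (edge i).1 (edge i).2 = 0 := fun i => by simpa [h3 i] using h2 i
  have cl : ∀ j k : J, j = k ∨ (good (j, k) ∧ ∀ i, (j, k) ≠ edge i) ∨
      (good (k, j) ∧ ∀ i, (k, j) ≠ edge i) ∨ ∃ i, (j, k) = edge i ∨ (k, j) = edge i ∨
      (j = (i, 1) ∧ k = (i, 2)) ∨ (k = (i, 1) ∧ j = (i, 2)) := by decide
  rcases cl j k with rfl | t | t | ⟨i, t | t | ⟨rfl, rfl⟩ | ⟨rfl, rfl⟩⟩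
  · simp [mm, mul_comm]
  · exact h1 _ _ t.1 t.2
  · exact sw _ _ (h1 _ _ t.1 t.2)
  · have := h4 i; rw [← t] at this; exact this
  · have := h4 i; rw [← t] at this; exact sw _ _ this
  · exact h3 i
  · exact sw _ _ (h3 i)

def Pl (α : J → F) (k : J) (x : V F) : Prop :=
  x.1 + α k * x.2.1 = 0 ∧ ∀ j, j ≠ k → x.2.2 j = 0

theorem comm_pair {α : J → F} (hα : Function.Injective α) {c : Fin 3 → F} (hc : ∀ i, c i ≠ 0)
    {x y : V F} (h : B (dg α) c x y = 0) (ind : ∀ a b : F, a • x + b • y = 0 → a = 0 ∧ b = 0) :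
    ∃ k, Pl α k x ∧ Pl α k y := by
  obtain ⟨xs, xt, X⟩ := x
  obtain ⟨ys, yt, Y⟩ := y
  have e1 : xs * yt - xt * ys = 0 := congrArg Prod.fst h
  have e2 : ∀ j, xs * Y j - ys * X j + α j * (xt * Y j - yt * X j) = 0 := fun j =>
    congrFun (congrArg (fun t => t.2.1) h) j
  have e3 : ∀ j k, X j * Y k - X k * Y j = 0 := mm_zero hc (congrArg (fun t => t.2.2) h)
  have ind' : ∀ a b : F, a * xs + b * ys = 0 → a * xt + b * yt = 0 →
      (∀ j, a * X j + b * Y j = 0) → a = 0 ∧ b = 0 := fun a b h1 h2 h3 =>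
    ind a b (Prod.ext h1 (Prod.ext h2 (funext h3)))
  by_cases h0 : ∀ k, X k = 0 ∧ Y k = 0
  · exfalso
    have t1 := ind' ys (-xs) (by ring) (by linear_combination -e1) fun j => by simp [h0 j]
    have t2 := ind' yt (-xt) (by linear_combination e1) (by ring) fun j => by simp [h0 j]
    exact one_ne_zero (ind' 1 0 (by simpa using t1.2) (by simpa using t2.2)
      fun j => by simp [h0 j]).1
  · obtain ⟨k, hk⟩ := not_forall.1 h0
    have hv : Y k * xt - X k * yt ≠ 0 := by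
      intro hv
      have := ind' (Y k) (-X k) (by linear_combination e2 k - α k * hv) (by linear_combination hv)
        fun j => by linear_combination e3 j k
      exact hk ⟨by simpa using this.2, this.1⟩
    have hj : ∀ j, j ≠ k → (α j - α k) * (Y k * xt - X k * yt) ≠ 0 := fun j hj =>
      mul_ne_zero (sub_ne_zero.2 (hα.ne hj)) hv
    refine ⟨k, ⟨?_, fun j h => ?_⟩, ⟨?_, fun j h => ?_⟩⟩
    · refine (mul_eq_zero.1 ?_).resolve_left hv
      show _ * (xs + α k * xt) = 0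
      linear_combination xt * e2 k - X k * e1
    · refine (mul_eq_zero.1 ?_).resolve_left (hj j h)
      show _ * X j = 0
      linear_combination X k * e2 j - X j * e2 k + (xs + α j * xt) * e3 j k
    · refine (mul_eq_zero.1 ?_).resolve_left hv
      show _ * (ys + α k * yt) = 0
      linear_combination yt * e2 k - Y k * e1
    · refine (mul_eq_zero.1 ?_).resolve_left (hj j h)
      show _ * Y j = 0
      linear_combination Y k * e2 j - Y j * e2 k + (ys + α j * yt) * e3 j k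

def ix (a b : J) : J × J :=
  if a.1 = b.1 ∧ a.2 ≠ 0 ∧ b.2 ≠ 0 then edge a.1 else if rk a < rk b then (a, b) else (b, a)

theorem supp {c : Fin 3 → F} (hc : ∀ i, c i ≠ 0) {a b : J} (h : a ≠ b) (k : Kp) :
    brE c (Pi.single a 1) (Pi.single b 1) k ≠ 0 ↔ k.1 = ix a b := by
  have h1 : ∀ k' : Kp, brE c (Pi.single k'.1.1 1) (Pi.single k'.1.2 1) k ≠ 0 ↔ k.1 = k'.1 := by
    intro k'
    have : brE c (Pi.single k'.1.1 1) (Pi.single k'.1.2 1) = Pi.single k' 1 :=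
      congrArg (fun t => t.2.2) (B_ve (dg 0) c k')
    rw [this, Pi.single_apply, ← Subtype.ext_iff]
    simp
  have h2 : ∀ i, brE c (Pi.single (i, 1) 1) (Pi.single (i, 2) 1) k ≠ 0 ↔ k.1 = edge i := by
    intro i
    have : brE c (Pi.single (i, 1) 1) (Pi.single (i, 2) 1) =
        c i • brE c (Pi.single (edge i).1 1) (Pi.single (edge i).2 1) :=
      congrArg (fun t => t.2.2) ((Rel_B (dg 0) c).r2 i)
    rw [this, Pi.smul_apply, smul_eq_mul, mul_ne_zero_iff_left (hc i)]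
    exact h1 ⟨edge i, good_edge i⟩
  have cl : ∀ a b : J, a ≠ b → (good (a, b) ∧ ix a b = (a, b)) ∨ (good (b, a) ∧ ix a b = (b, a)) ∨
      ∃ i, ix a b = edge i ∧ ((a = (i, 1) ∧ b = (i, 2)) ∨ (b = (i, 1) ∧ a = (i, 2))) := by decide
  rcases cl a b h with t | t | ⟨i, t, ⟨rfl, rfl⟩ | ⟨rfl, rfl⟩⟩
  · rw [t.2]; exact h1 ⟨(a, b), t.1⟩
  · rw [t.2, brE_swap, Pi.neg_apply, neg_ne_zero]; exact h1 ⟨(b, a), t.1⟩
  · rw [t]; exact h2 i
  · rw [t, brE_swap, Pi.neg_apply, neg_ne_zero]; exact h2 i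

theorem good_ix : ∀ a b : J, a ≠ b → good (ix a b) := by decide

theorem ix_eq : ∀ a b a' b' : J, a ≠ a' → a ≠ b' → ix a b = ix a' b' →
    (a.2 ≠ 0 ∧ a'.2 = 0 ∧ b'.2 = 0) ∨ (a'.2 ≠ 0 ∧ b'.2 ≠ 0 ∧ a'.1 = b'.1) := by
  decide +kernel

end

theorem mob {a b c d x y δ : ℂ} (hf : (x - 1) ^ 2 = 17) (hg : (y - 1) ^ 2 = δ)
    (hF : x * a - b + y * (x * c - d) = 0) :
    let r2 := (a + c) ^ 2 - δ * c ^ 2
    let p := -2 * (a + c) * (b + d) + 2 * δ * c * d + 2 * r2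
    let q := (b + d) ^ 2 - δ * d ^ 2 + 16 * r2
    (-16) * p ^ 2 + 2 * p * q + q ^ 2 = 0 := by
  intro r2 p q
  have hR : p * x + q = 0 := by
    simp only [p, q, r2]
    linear_combination (x * c - d) ^ 2 * hg -
      (x * a - b + y * (x * c - d) - 2 * (x * a - b + (x * c - d))) * hF -
      ((a + c) ^ 2 - δ * c ^ 2) * hf
  linear_combination (p * (2 - x) + q) * hR + p ^ 2 * hf

theorem mob' {t a b c d x y : ℂ} (ht : t ≠ 0) (hf : (x - 1) ^ 2 = 17)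
    (hg : (y - 1) ^ 2 = 17 ∨ (y - 1) ^ 2 = -1 ∨ (y - 1) ^ 2 = -17)
    (hF : t * (x * a - b + y * (x * c - d)) = 0)
    (h : (a = -1 ∧ b = 0 ∧ c = 0 ∧ d = 1) ∨ (a = -1 ∧ b = -1 ∧ c = -3 ∧ d = 1) ∨
      (a = -1 ∧ b = 1 ∧ c = 3 ∧ d = 1) ∨ (a = 1 ∧ b = -1 ∧ c = 3 ∧ d = 1) ∨
      (a = 1 ∧ b = 1 ∧ c = -3 ∧ d = 1)) : False := by
  have hF' := (mul_eq_zero.1 hF).resolve_left ht
  rcases hg with hg | hg | hg <;> have := mob hf hg hF' <;>
  rcases h with ⟨rfl, rfl, rfl, rfl⟩ | ⟨rfl, rfl, rfl, rfl⟩ | ⟨rfl, rfl, rfl, rfl⟩ |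
    ⟨rfl, rfl, rfl, rfl⟩ | ⟨rfl, rfl, rfl, rfl⟩ <;> norm_num at this

def dl : Fin 3 → ℤ := ![17, -1, -17]
def ap : Fin 3 → ℤ := ![0, 1, -1]

theorem Pl_rep {α : J → ℂ} {k : J} {x : V ℂ} (hx : Pl α k x) :
    x = (-α k * x.2.1, x.2.1, x.2.2 k • Pi.single k 1) := by
  refine Prod.ext (by linear_combination hx.1) (Prod.ext rfl (funext fun j => ?_))
  by_cases h : j = k
  · simp [h]
  · simp [h, hx.2 j h]

theorem Pl_zero {α : J → ℂ} {k : J} {x : V ℂ} (hx : Pl α k x) (a : x.2.1 = 0) (b : x.2.2 k = 0) :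
    x = 0 := by
  rw [Pl_rep hx, a, b]; simp

theorem Pl_comb {α : J → ℂ} {k : J} {x y : V ℂ} (a b : ℂ) (hx : Pl α k x) (hy : Pl α k y) :
    Pl α k (a • x + b • y) := ⟨by
  simp only [Prod.fst_add, Prod.snd_add, Prod.smul_fst, Prod.smul_snd, smul_eq_mul]
  linear_combination a * hx.1 + b * hy.1, fun j hj => by simp [hx.2 j hj, hy.2 j hj]⟩

theorem Pl_det {α : J → ℂ} {k : J} {x y : V ℂ} (hx : Pl α k x) (hy : Pl α k y)
    (ind : ∀ a b : ℂ, a • x + b • y = 0 → a = 0 ∧ b = 0) :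
    x.2.1 * y.2.2 k - x.2.2 k * y.2.1 ≠ 0 := by
  intro hD
  have t1 := ind (y.2.2 k) (-x.2.2 k) (Pl_zero (Pl_comb _ _ hx hy) (by
      simp only [Prod.fst_add, Prod.snd_add, Prod.smul_fst, Prod.smul_snd, smul_eq_mul]
      linear_combination hD) (by
      simp only [Prod.snd_add, Prod.smul_snd, smul_eq_mul, Pi.add_apply, Pi.smul_apply]
      ring))
  have t2 := ind (y.2.1) (-x.2.1) (Pl_zero (Pl_comb _ _ hx hy) (by
      simp only [Prod.fst_add, Prod.snd_add, Prod.smul_fst, Prod.smul_snd, smul_eq_mul]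
      ring) (by
      simp only [Prod.snd_add, Prod.smul_snd, smul_eq_mul, Pi.add_apply, Pi.smul_apply]
      linear_combination -hD))
  exact one_ne_zero (ind 0 1 (by simpa using Pl_zero hy t2.1 t1.1)).2

theorem Pl_three {α : J → ℂ} {k : J} {u v w : V ℂ} (hu : Pl α k u) (hv : Pl α k v)
    (hw : Pl α k w) : ∃ a b : ℂ, (u.2.1 * v.2.2 k - u.2.2 k * v.2.1) • w = a • u + b • v := by
  refine ⟨w.2.1 * v.2.2 k - w.2.2 k * v.2.1, u.2.1 * w.2.2 k - u.2.2 k * w.2.1, ?_⟩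
  have := Pl_zero (Pl_comb 1 (-(u.2.1 * v.2.2 k - u.2.2 k * v.2.1))
    (Pl_comb (w.2.1 * v.2.2 k - w.2.2 k * v.2.1) (u.2.1 * w.2.2 k - u.2.2 k * w.2.1) hu hv) hw) (by
      simp only [Prod.fst_add, Prod.snd_add, Prod.smul_fst, Prod.smul_snd, smul_eq_mul]
      ring) (by
      simp only [Prod.snd_add, Prod.smul_snd, smul_eq_mul, Pi.add_apply, Pi.smul_apply]
      ring)
  rw [one_smul, neg_smul, add_neg_eq_zero] at this
  exact this.symm

theorem step1 {α : J → ℂ} (hα : Function.Injective α) {c c' : Fin 3 → ℂ}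
    (hc' : ∀ i, c' i ≠ 0) (g : V ℂ →ₗ[ℂ] V ℂ) (hg : Function.Injective g)
    (hr : Rel (dg α) c ((B (dg α) c').compl₁₂ g g)) :
    ∃ (π : J → J) (μ ν : J → ℂ), Function.Injective π ∧ (g vs).2.2 = 0 ∧ (g vt).2.2 = 0 ∧
      (∀ j, μ j ≠ 0) ∧ (∀ j, g (ve j) = (-α (π j) * ν j, ν j, μ j • Pi.single (π j) 1)) ∧
      ∀ j, α j * (g vs).1 - (g vt).1 + α (π j) * (α j * (g vs).2.1 - (g vt).2.1) = 0 := by
  have hz : ∀ x, g x = 0 → x = 0 := (injective_iff_map_eq_zero g).1 hg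
  have ind : ∀ j (a b : ℂ), a • g (α j • vs - vt) + b • g (ve j) = 0 → a = 0 ∧ b = 0 := by
    intro j a b h
    rw [← map_smul, ← map_smul, ← map_add] at h
    have h1 := congrArg (fun t => t.2.1) (hz _ h)
    have h2 := congrArg (fun t => t.2.2 j) (hz _ h)
    simpa [vs, vt, ve, iE_apply] using And.intro h1 h2
  have ex : ∀ j, ∃ k, Pl α k (g (α j • vs - vt)) ∧ Pl α k (g (ve j)) := by
    intro j
    refine comm_pair hα hc' ?_ (ind j)
    have h1 := hr.r1 (Pi.single j 1)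
    have h2 : dg α (Pi.single j 1) = α j • Pi.single j 1 := by
      ext k; by_cases h : k = j <;> simp [h]
    rw [h2, map_smul, map_smul] at h1
    simp only [LinearMap.compl₁₂_apply] at h1
    simp only [map_sub, map_smul, LinearMap.sub_apply, LinearMap.smul_apply, ve, h1, sub_self]
  choose π h1 h2 using ex
  have hD := fun j => Pl_det (h1 j) (h2 j) (ind j)
  have hπ : Function.Injective π := by
    intro j k e
    by_contra hne
    obtain ⟨a, b, h⟩ := Pl_three (h1 j) (h2 j) (e ▸ h2 k)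
    have hDj := hD j
    generalize (g (α j • vs - vt)).2.1 * (g (ve j)).2.2 (π j) -
      (g (α j • vs - vt)).2.2 (π j) * (g (ve j)).2.1 = D at h hDj
    rw [← map_smul, ← map_smul, ← map_smul, ← map_add] at h
    have h3 := congrArg (fun t => t.2.2 k) (hg h)
    exact hDj (by simpa [vs, vt, ve, iE_apply, Pi.single_apply, Ne.symm hne] using h3)
  have hE : ∀ m, (g vs).2.2 m = 0 ∧ (g vt).2.2 m = 0 := by
    intro m
    have q : ∀ j, m ≠ π j → α j * (g vs).2.2 m - (g vt).2.2 m = 0 := fun j hj => by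
      simpa using (h1 j).2 m hj
    have key : ∀ j k, j ≠ k → m ≠ π j → m ≠ π k → (g vs).2.2 m = 0 ∧ (g vt).2.2 m = 0 := by
      intro j k hjk a b
      have h5 : (g vs).2.2 m = 0 := (mul_eq_zero.1 (show (α j - α k) * _ = 0 by
        linear_combination q j a - q k b)).resolve_left (sub_ne_zero.2 (hα.ne hjk))
      exact ⟨h5, by linear_combination α j * h5 - q j a⟩
    by_cases a : m = π (0, 0)
    · exact key (1, 0) (2, 0) (by decide) (a ▸ hπ.ne (by decide)) (a ▸ hπ.ne (by decide))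
    by_cases b : m = π (1, 0)
    · exact key (0, 0) (2, 0) (by decide) a (b ▸ hπ.ne (by decide))
    · exact key (0, 0) (1, 0) (by decide) a b
  refine ⟨π, fun j => (g (ve j)).2.2 (π j), fun j => (g (ve j)).2.1, hπ, funext fun m => (hE m).1,
    funext fun m => (hE m).2, fun j e => hD j ?_, fun j => Pl_rep (h2 j), fun j => ?_⟩
  · rw [show (g (ve j)).2.2 (π j) = 0 from e, map_sub, map_smul]
    simp [hE]
  · simpa using (h1 j).1

theorem dis : ∀ i : Fin 3, ((i, 1) : J) ≠ (i, 2) ∧ ((i, 1) : J) ≠ (pa i, 0) ∧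
    ((i, 1) : J) ≠ (pb i, 0) ∧ ((i, 2) : J) ≠ (pa i, 0) ∧ ((i, 2) : J) ≠ (pb i, 0) ∧
    ((pa i, 0) : J) ≠ (pb i, 0) := by decide

theorem step2 {α : J → ℂ} (hα : Function.Injective α) {c c' : Fin 3 → ℂ} (hc : ∀ i, c i ≠ 0)
    {π : J → J} {μ ν : J → ℂ} (hπ : Function.Injective π) (hμ : ∀ j, μ j ≠ 0) (X : J → V ℂ)
    (ge : ∀ j, X j = (-α (π j) * ν j, ν j, μ j • Pi.single (π j) 1))
    (r2 : ∀ i, B (dg α) c' (X (i, 1)) (X (i, 2)) = c i • B (dg α) c' (X (pa i, 0)) (X (pb i, 0)))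
    (j : J) : ν j = 0 := by
  have cmp : ∀ a b m, (B (dg α) c' (X a) (X b)).2.1 m =
      ν a * (α m - α (π a)) * (if m = π b then μ b else 0) -
      ν b * (α m - α (π b)) * (if m = π a then μ a else 0) := by
    intro a b m
    rw [ge a, ge b]
    simp only [B_apply, br, Pi.add_apply, Pi.sub_apply, Pi.smul_apply, dg_apply, smul_eq_mul,
      Pi.single_apply, mul_ite, mul_one, mul_zero]
    split_ifs <;> ring
  have nz : ∀ a b, a ≠ b → (α (π b) - α (π a)) * μ b ≠ 0 := fun a b h =>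
    mul_ne_zero (sub_ne_zero.2 ((hα.comp hπ).ne h.symm)) (hμ b)
  have hν : ∀ i, ν (i, 1) = 0 ∧ ν (i, 2) = 0 ∧ ν (pa i, 0) = 0 ∧ ν (pb i, 0) = 0 := by
    intro i
    obtain ⟨d1, d2, d3, d4, d5, d6⟩ := dis i
    have q := fun m => congrArg (fun t => t.2.1 m) (r2 i)
    simp only [Prod.smul_snd, Prod.smul_fst, Pi.smul_apply, cmp, smul_eq_mul] at q
    have q1 := q (π (i, 2))
    have q2 := q (π (i, 1))
    have q3 := q (π (pb i, 0))
    have q4 := q (π (pa i, 0))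
    simp only [hπ.eq_iff, d1, d2, d3, d4, d5, d6, d1.symm, d2.symm, d3.symm, d4.symm, d5.symm,
      d6.symm, if_true, if_false, mul_zero, sub_zero, zero_sub, sub_self] at q1 q2 q3 q4
    refine ⟨(mul_eq_zero.1 ?_).resolve_right (nz _ _ d1),
      (mul_eq_zero.1 ?_).resolve_right (nz _ _ d1.symm),
      (mul_eq_zero.1 ?_).resolve_right (mul_ne_zero (hc i) (nz _ _ d6)),
      (mul_eq_zero.1 ?_).resolve_right (mul_ne_zero (hc i) (nz _ _ d6.symm))⟩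
    · linear_combination q1
    · linear_combination -q2
    · linear_combination -q3
    · linear_combination q4
  obtain ⟨i, l⟩ := j
  fin_cases l
  · fin_cases i
    · exact (hν 0).2.2.1
    · exact (hν 0).2.2.2
    · exact (hν 1).2.2.2
  · exact (hν i).1
  · exact (hν i).2.1

theorem tri1 : ∀ a b c : J, a ≠ b → a ≠ c → b ≠ c → a.2 ≠ 0 ∧ b.2 ≠ 0 ∧ a.1 = b.1 →
    (b.2 = 0 ∨ (c.2 ≠ 0 ∧ b.1 = c.1)) → False := by
  decide +kernel

theorem tri2 : ∀ a b c : Fin 3, a ≠ b → a ≠ c → b ≠ c →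
    ((a = 0 ∧ b = 1 ∧ c = 2) ∨ (a = 0 ∧ b = 2 ∧ c = 1) ∨ (a = 1 ∧ b = 0 ∧ c = 2) ∨
     (a = 2 ∧ b = 1 ∧ c = 0) ∨ (a = 1 ∧ b = 2 ∧ c = 0) ∨ (a = 2 ∧ b = 0 ∧ c = 1)) := by
  intro a b c
  fin_cases a <;> fin_cases b <;> fin_cases c <;> simp

theorem tri (a b c x : J) (h1 : a ≠ b) (h2 : a ≠ c) (h3 : b ≠ c)
    (h4 : (x.2 ≠ 0 ∧ a.2 = 0 ∧ b.2 = 0) ∨ (a.2 ≠ 0 ∧ b.2 ≠ 0 ∧ a.1 = b.1))
    (h5 : b.2 = 0 ∧ c.2 = 0 ∨ (b.2 ≠ 0 ∧ c.2 ≠ 0 ∧ b.1 = c.1)) : x.2 ≠ 0 ∧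
    ((a = (0, 0) ∧ b = (1, 0) ∧ c = (2, 0)) ∨ (a = (0, 0) ∧ b = (2, 0) ∧ c = (1, 0)) ∨
     (a = (1, 0) ∧ b = (0, 0) ∧ c = (2, 0)) ∨ (a = (2, 0) ∧ b = (1, 0) ∧ c = (0, 0)) ∨
     (a = (1, 0) ∧ b = (2, 0) ∧ c = (0, 0)) ∨ (a = (2, 0) ∧ b = (0, 0) ∧ c = (1, 0))) := by
  rcases h4 with ⟨hx, ha, hb⟩ | h4
  · have hc : c.2 = 0 := h5.elim (fun h => h.2) fun h => absurd hb h.1
    obtain ⟨a, _⟩ := a
    obtain ⟨b, _⟩ := b
    obtain ⟨c, _⟩ := c
    subst ha hb hc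
    simpa [hx] using tri2 a b c (by simpa using h1) (by simpa using h2) (by simpa using h3)
  · exact (tri1 a b c h1 h2 h3 h4 (h5.imp (fun h => h.1) fun h => h.2)).elim

theorem step3 {a b c d x y A0 A1 A2 : ℂ} (hac : a = 0 → c = 0 → False) (hf : (x - 1) ^ 2 = 17)
    (hy : (y - 1) ^ 2 = 17 ∨ (y - 1) ^ 2 = -1 ∨ (y - 1) ^ 2 = -17)
    (e0 : 0 * a - b + A0 * (0 * c - d) = 0) (e1 : 1 * a - b + A1 * (1 * c - d) = 0)
    (e2 : -1 * a - b + A2 * (-1 * c - d) = 0) (e3 : x * a - b + y * (x * c - d) = 0)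
    (t : (A0 = 0 ∧ A1 = 1 ∧ A2 = -1) ∨ (A0 = 0 ∧ A1 = -1 ∧ A2 = 1) ∨ (A0 = 1 ∧ A1 = 0 ∧ A2 = -1) ∨
      (A0 = -1 ∧ A1 = 1 ∧ A2 = 0) ∨ (A0 = 1 ∧ A1 = -1 ∧ A2 = 0) ∨ (A0 = -1 ∧ A1 = 0 ∧ A2 = 1)) :
    b = 0 ∧ c = 0 ∧ d = a := by
  have fin : ∀ a' b' c' d' : ℂ, a = a' * d → b = b' * d → c = c' * d →
      d = d' * d → ((a' = -1 ∧ b' = 0 ∧ c' = 0 ∧ d' = 1) ∨ (a' = -1 ∧ b' = -1 ∧ c' = -3 ∧ d' = 1) ∨
      (a' = -1 ∧ b' = 1 ∧ c' = 3 ∧ d' = 1) ∨ (a' = 1 ∧ b' = -1 ∧ c' = 3 ∧ d' = 1) ∨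
      (a' = 1 ∧ b' = 1 ∧ c' = -3 ∧ d' = 1)) → False := by
    intro a' b' c' d' ha hb hc hd h
    refine mob' (t := d) (fun e => hac (by rw [ha, e, mul_zero]) (by rw [hc, e, mul_zero])) hf hy
      ?_ h
    linear_combination e3 - x * ha + hb - y * x * hc + y * hd
  rcases t with ⟨rfl, rfl, rfl⟩ | ⟨rfl, rfl, rfl⟩ | ⟨rfl, rfl, rfl⟩ | ⟨rfl, rfl, rfl⟩ |
    ⟨rfl, rfl, rfl⟩ | ⟨rfl, rfl, rfl⟩
  · exact ⟨by linear_combination -e0, by linear_combination (e1 + e2) / 2 - e0,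
      by linear_combination (e2 - e1) / 2⟩
  · exact (fin (-1) 0 0 1 (by linear_combination (e1 - e2) / 2) (by linear_combination -e0)
      (by linear_combination e0 - (e1 + e2) / 2) (by ring) (by simp)).elim
  · exact (fin (-1) (-1) (-3) 1 (by linear_combination e1 - e0) (by linear_combination -e0)
      (by linear_combination e2 + e1 - 2 * e0) (by ring) (by simp)).elim
  · exact (fin (-1) 1 3 1 (by linear_combination e0 - e2) (by linear_combination -e0)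
      (by linear_combination e1 + e2 - 2 * e0) (by ring) (by simp)).elim
  · exact (fin 1 (-1) 3 1 (by linear_combination e0 - e2) (by linear_combination -e0)
      (by linear_combination 2 * e0 - e1 - e2) (by ring) (by simp)).elim
  · exact (fin 1 1 (-3) 1 (by linear_combination e1 - e0) (by linear_combination -e0)
      (by linear_combination 2 * e0 - e1 - e2) (by ring) (by simp)).elim

theorem rigid {α : J → ℂ} (hα : Function.Injective α) (hP : ∀ i, α (i, 0) = ap i)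
    (hV : ∀ i l, l ≠ 0 → (α (i, l) - 1) ^ 2 = dl i) {c c' : Fin 3 → ℂ} (hc : ∀ i, c i ≠ 0)
    (hc' : ∀ i, c' i ≠ 0) (g : V ℂ →ₗ[ℂ] V ℂ) (hg : Function.Injective g)
    (hr : Rel (dg α) c ((B (dg α) c').compl₁₂ g g)) :
    ∃ (τ : ℂ) (μ : J → ℂ), τ ≠ 0 ∧ (∀ j, μ j ≠ 0) ∧ g = HM τ (dg μ) ∧
      ∀ i, μ (i, 1) * μ (i, 2) * c' i = c i * (μ (pa i, 0) * μ (pb i, 0)) := by
  obtain ⟨π, μ, ν, hπ, hs, ht, hμ, ge, mo⟩ := step1 hα hc' g hg hr
  have r2 : ∀ i, B (dg α) c' (g (ve (i, 1))) (g (ve (i, 2))) =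
      c i • B (dg α) c' (g (ve (pa i, 0))) (g (ve (pb i, 0))) := hr.r2
  have hν := step2 hα hc hπ hμ (fun j => g (ve j)) ge r2
  have ge' : ∀ j, g (ve j) = μ j • ve (π j) := fun j => by
    rw [ge, hν]; simp [ve, iE_apply]
  have r3 : ∀ i, (μ (i, 1) * μ (i, 2)) • B (dg α) c' (ve (π (i, 1))) (ve (π (i, 2))) =
      (c i * (μ (pa i, 0) * μ (pb i, 0))) •
        B (dg α) c' (ve (π (pa i, 0))) (ve (π (pb i, 0))) := fun i => by
    have := r2 i
    simp only [ge', map_smul, LinearMap.smul_apply, smul_smul] at this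
    rw [mul_comm (μ (i, 1)), mul_comm (μ (pa i, 0))]
    exact this
  have cb : ∀ i, ((π (i, 1)).2 ≠ 0 ∧ (π (pa i, 0)).2 = 0 ∧ (π (pb i, 0)).2 = 0) ∨
      ((π (pa i, 0)).2 ≠ 0 ∧ (π (pb i, 0)).2 ≠ 0 ∧ (π (pa i, 0)).1 = (π (pb i, 0)).1) := by
    intro i
    obtain ⟨d1, d2, d3, d4, d5, d6⟩ := dis i
    refine ix_eq _ (π (i, 2)) _ _ (hπ.ne d2) (hπ.ne d3) ?_
    have q := congrArg (fun t => t.2.2 ⟨_, good_ix _ _ (hπ.ne d1)⟩) (r3 i)
    have q1 := (supp hc' (hπ.ne d1) ⟨_, good_ix _ _ (hπ.ne d1)⟩).2 rfl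
    refine (supp hc' (hπ.ne d6) ⟨_, good_ix _ _ (hπ.ne d1)⟩).1 fun e => ?_
    simp only [Prod.smul_snd, Pi.smul_apply, smul_eq_mul, B_apply, br, ve, iE_apply] at q
    rw [e, mul_zero] at q
    exact mul_ne_zero (mul_ne_zero (hμ _) (hμ _)) q1 q
  obtain ⟨t0, t⟩ := tri (π (0, 0)) (π (1, 0)) (π (2, 0)) (π (0, 1)) (hπ.ne (by decide))
    (hπ.ne (by decide)) (hπ.ne (by decide)) (cb 0) ((cb 1).imp_left fun h => h.2)
  have p0 : α (0, 0) = 0 := by simpa [ap] using hP 0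
  have p1 : α (1, 0) = 1 := by simpa [ap] using hP 1
  have p2 : α (2, 0) = -1 := by simpa [ap] using hP 2
  have hf : (α (0, 1) - 1) ^ 2 = 17 := by simpa [dl] using hV 0 1 (by decide)
  have hy : (α (π (0, 1)) - 1) ^ 2 = 17 ∨ (α (π (0, 1)) - 1) ^ 2 = -1 ∨
      (α (π (0, 1)) - 1) ^ 2 = -17 := by
    have h : (α (π (0, 1)) - 1) ^ 2 = dl (π (0, 1)).1 := hV (π (0, 1)).1 (π (0, 1)).2 t0
    rw [h]
    generalize (π (0, 1)).1 = i
    fin_cases i <;> simp [dl]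
  have hs' : (g vs).1 = 0 → (g vs).2.1 = 0 → False := fun a b => by
    have : g vs = g 0 := by rw [map_zero]; exact Prod.ext a (Prod.ext b hs)
    simpa [vs] using hg this
  obtain ⟨hb, hc0, hd⟩ := step3 (A0 := α (π (0, 0))) (A1 := α (π (1, 0))) (A2 := α (π (2, 0)))
    hs' hf hy (p0 ▸ mo (0, 0)) (p1 ▸ mo (1, 0)) (p2 ▸ mo (2, 0)) (mo (0, 1)) (by
      rcases t with t | t | t | t | t | t <;> simp [t.1, t.2.1, t.2.2, p0, p1, p2])
  have ha : (g vs).1 ≠ 0 := fun e => hs' e hc0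
  have hid : ∀ j, π j = j := fun j => hα ((mul_left_inj' ha).1 (by
    have := mo j
    rw [hb, hc0, hd] at this
    linear_combination -this))
  refine ⟨(g vs).1, μ, ha, hμ, LinearMap.ext fun x => ?_, fun i => ?_⟩
  · have e1 : g vs = (g vs).1 • vs := by
      conv_lhs => rw [V_dec (g vs), hc0, hs, map_zero, zero_smul, add_zero, add_zero]
    have e2 : g vt = (g vs).1 • vt := by
      conv_lhs => rw [V_dec (g vt), hb, hd, ht, map_zero, zero_smul, zero_add, add_zero]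
    generalize (g vs).1 = τ at e1 e2
    conv_lhs => rw [V_dec x, iE_sum]
    simp only [map_add, map_smul, map_sum, e1, e2, ge', hid, smul_smul]
    rw [← iE_sum (fun j => x.2.2 j * μ j), HM_apply]
    refine Prod.ext ?_ (Prod.ext ?_ (funext fun j => ?_)) <;> simp [vs, vt, iE_apply, mul_comm]
  · have := r3 i
    simp only [hid] at this
    rw [(Rel_B _ _).r2 i, smul_smul, B_ve _ _ ⟨edge i, good_edge i⟩] at this
    have e2 : B (dg α) c' (ve (pa i, 0)) (ve (pb i, 0)) =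
        (0, 0, Pi.single ⟨edge i, good_edge i⟩ 1) := B_ve (dg α) c' ⟨edge i, good_edge i⟩
    rw [e2] at this
    simpa using congrArg (fun t => t.2.2 ⟨edge i, good_edge i⟩) this

end Pool.Agent.H77.Qf
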