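import Pool.Agent.H77.QfC

namespace Pool.Agent.H77.Qf

open scoped TensorProduct

section
variable {F : Type} [Field F]

def th (F : Type) [Field F] : (J → F) →ₗ[F] (J → F) :=
  bm (fun i => (ap i : F)) 1 (fun i => (dl i : F)) 1 1

def Hm (τ : F) (π a b : Fin 3 → F) : V F →ₗ[F] V F := HM τ (bm π a (fun i => dl i * b i) b a)

theorem Rel.comp {X Y : Type} [AddCommGroup X] [Module F X] [AddCommGroup Y] [Module F Y]
    {θ : (J → F) →ₗ[F] (J → F)} {c : Fin 3 → F} {b : V F →ₗ[F] V F →ₗ[F] X} (h : Rel θ c b)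
    (G : X →ₗ[F] Y) {b' : V F →ₗ[F] V F →ₗ[F] Y} (e : ∀ x y, b' x y = G (b x y)) : Rel θ c b' where
  alt x := by rw [e, h.alt, map_zero]
  r1 v := by rw [e, e, h.r1]
  r2 i := by rw [e, e, h.r2, map_smul]

theorem Rel_Hm {X : Type} [AddCommGroup X] [Module F X] {e e' : Fin 3 → F}
    {bb : V F →ₗ[F] V F →ₗ[F] X} (h : Rel (th F) e bb) (τ : F) (π a b : Fin 3 → F)
    (h2 : ∀ i, (a i ^ 2 - dl i * b i ^ 2) * e i = e' i * (π (pa i) * π (pb i))) :
    Rel (th F) e' (bb.compl₁₂ (Hm τ π a b) (Hm τ π a b)) :=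
  Rel_HM h τ _ _ _ _ _ (fun v => J_ext (fun i => by simp [th]; ring) (fun i => by simp [th]; ring)
    fun i => by simp [th]; ring) fun i => by linear_combination h2 i

theorem Hm_bij {τ : F} {π a b : Fin 3 → F} (hτ : τ ≠ 0) (hπ : ∀ i, π i ≠ 0)
    (hd : ∀ i, a i ^ 2 - dl i * b i ^ 2 ≠ 0) : Function.Bijective (Hm τ π a b) :=
  HM_bij hτ hπ fun i e => hd i (by linear_combination e)

end

theorem rigid' {c c' : Fin 3 → ℂ} (hc : ∀ i, c i ≠ 0) (hc' : ∀ i, c' i ≠ 0) (g : V ℂ →ₗ[ℂ] V ℂ)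
    (hg : Function.Injective g) (hr : Rel (th ℂ) c ((B (th ℂ) c').compl₁₂ g g)) :
    ∃ (τ : ℂ) (π a b : Fin 3 → ℂ), g = Hm τ π a b ∧
      ∀ i, (a i ^ 2 - dl i * b i ^ 2) * c' i = c i * (π (pa i) * π (pb i)) := by
  choose r hr2 using fun i => IsAlgClosed.exists_pow_nat_eq (dl i : ℂ) two_pos
  have hr0 : ∀ i, r i ≠ 0 := fun i e => by
    have := hr2 i
    rw [e] at this
    have h : ∀ i, dl i ≠ 0 := by decide
    exact h i (by exact_mod_cast (by simpa using this.symm : (dl i : ℂ) = 0))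
  let α : J → ℂ := fun j => ![(ap j.1 : ℂ), 1 + r j.1, 1 - r j.1] j.2
  have a0 : ∀ i, α (i, 0) = ap i := fun _ => rfl
  have a1 : ∀ i, α (i, 1) = 1 + r i := fun _ => rfl
  have a2 : ∀ i, α (i, 2) = 1 - r i := fun _ => rfl
  have hV : ∀ i l, l ≠ 0 → (α (i, l) - 1) ^ 2 = dl i := by
    intro i l hl
    fin_cases l
    · exact absurd rfl hl
    · exact (by rw [← hr2]; ring : (1 + r i - 1) ^ 2 = (dl i : ℂ))
    · exact (by rw [← hr2]; ring : (1 - r i - 1) ^ 2 = (dl i : ℂ))
  have hα : Function.Injective α := by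
    let n : J → ℤ := fun j => if j.2 = 0 then (ap j.1 - 1) ^ 2 else dl j.1
    have hn : ∀ j, (α j - 1) ^ 2 = n j := by
      rintro ⟨i, l⟩
      by_cases hl : l = 0
      · subst hl; simp [n, a0]
      · simp [n, hl, hV i l hl]
    have q : ∀ j k : J, n j = n k → j = k ∨ (j = (j.1, 1) ∧ k = (j.1, 2)) ∨
      (j = (j.1, 2) ∧ k = (j.1, 1)) := by decide
    intro j k e
    rcases q j k (by exact_mod_cast (hn j).symm.trans (e ▸ hn k)) with h | h | h
    · exact h
    · rw [h.1, h.2, a1, a2] at e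
      exact absurd (by linear_combination e / 2) (hr0 j.1)
    · rw [h.1, h.2, a1, a2] at e
      exact absurd (by linear_combination -e / 2) (hr0 j.1)
  let D : V ℂ →ₗ[ℂ] V ℂ := HM 1 (bm 1 r r 1 (-1))
  let E : V ℂ →ₗ[ℂ] V ℂ := HM 1 (bm 1 1 r 1 (-r))
  have hD : Function.Bijective D := HM_bij one_ne_zero (by simp) fun i e =>
    hr0 i (by simp only [Pi.neg_apply, Pi.one_apply] at e; linear_combination -e / 2)
  have hE : Function.Bijective E := HM_bij one_ne_zero (by simp) fun i e =>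
    hr0 i (by simp only [Pi.neg_apply, Pi.one_apply] at e; linear_combination -e / 2)
  have h1 := Rel_HM (θ' := dg α) (e' := fun i => -2 * r i * c i) hr 1 1 r r 1 (-1)
    (fun v => J_ext (fun i => by simp [th, a0])
      (fun i => by simp [th, a1, a2, ← hr2]; ring) fun i => by simp [th, a1, a2]; ring)
    fun i => by simp; ring
  have h2 := Rel_HM (θ' := th ℂ) (e' := c') (Rel_B (dg α) fun i => c' i / (-2 * r i)) 1 1 1 r 1 (-r)
    (fun v => J_ext (fun i => by simp [th, a0])
      (fun i => by simp [th, a1, ← hr2]; ring) fun i => by simp [th, a2, ← hr2]; ring)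
    fun i => by have := hr0 i; simp; field_simp; ring
  obtain ⟨τ, μ, -, -, e, hrel⟩ := rigid hα a0 hV (c := fun i => -2 * r i * c i)
    (c' := fun i => c' i / (-2 * r i))
    (fun i => mul_ne_zero (mul_ne_zero (by norm_num) (hr0 i)) (hc i))
    (fun i => div_ne_zero (hc' i) (mul_ne_zero (by norm_num) (hr0 i))) (E ∘ₗ g ∘ₗ D)
    (hE.1.comp (hg.comp hD.1)) (h1.comp _ fun x y => (h2.univ _ _).symm)
  refine ⟨τ, fun i => μ (i, 0), fun i => (μ (i, 1) + μ (i, 2)) / (4 * r i),
    fun i => (μ (i, 1) - μ (i, 2)) / (4 * r i ^ 2), LinearMap.ext fun x => ?_, fun i => ?_⟩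
  · obtain ⟨y, rfl⟩ := hD.2 x
    apply hE.1
    rw [show E (g (D y)) = HM τ (dg μ) y from LinearMap.congr_fun e y]
    simp only [E, D, Hm, HM_apply, one_mul]
    congr 2
    refine J_ext (fun i => by simp) (fun i => ?_) fun i => ?_
    · have := hr0 i
      simp [← hr2]; field_simp; ring
    · have := hr0 i
      simp [← hr2]; field_simp; ring
  · have := hrel i
    have h0 := hr0 i
    rw [← hr2]
    field_simp at this ⊢
    linear_combination -4 * this

section
variable {F K : Type} [Field F] [Field K]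

def LA (F : Type) [Field F] (_c : Fin 3 → F) : Type := V F × W F

def BR (c : Fin 3 → F) : V F × W F →ₗ[F] V F × W F →ₗ[F] V F × W F :=
  ((B (th F) c).compl₁₂ (LinearMap.fst _ _ _) (LinearMap.fst _ _ _)).compr₂ (LinearMap.inr _ _ _)

theorem BR_apply (c : Fin 3 → F) (x y : V F × W F) : BR c x y = (0, B (th F) c x.1 y.1) := rfl

instance (c : Fin 3 → F) : LieRing (LA F c) :=
  { (inferInstance : AddCommGroup (V F × W F)) with
    bracket := fun x y => BR c x y
    add_lie := fun x y z => (BR c).map_add₂ x y z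
    lie_add := fun x y z => (BR c x).map_add y z
    lie_self := fun x => by
      show BR c x x = 0
      rw [BR_apply, B_self]; rfl
    leibniz_lie := fun x y z => by
      show BR c x (BR c y z) = BR c (BR c x y) z + BR c y (BR c x z)
      simp [BR_apply] }

instance (c : Fin 3 → F) : LieAlgebra F (LA F c) :=
  { (inferInstance : Module F (V F × W F)) with
    lie_smul := fun t x y => (BR c x).map_smul t y }

instance (c : Fin 3 → F) : FiniteDimensional F (LA F c) :=
  (inferInstance : FiniteDimensional F (V F × W F))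

theorem lie_def (c : Fin 3 → F) (x y : LA F c) : ⁅x, y⁆ = BR c x y := rfl

/-- the underlying space -/
def toP (c : Fin 3 → F) : LA F c ≃ₗ[F] V F × W F := LinearEquiv.refl _ _

theorem toP_lie (c : Fin 3 → F) (x y : LA F c) : toP c ⁅x, y⁆ = BR c (toP c x) (toP c y) := rfl

theorem fr (F : Type) [Field F] : Module.finrank F (V F × W F) = 21 + Fintype.card Kp := by
  simp [Module.finrank_prod]; ring

theorem fr' (c : Fin 3 → F) : Module.finrank F (LA F c) = 21 + Fintype.card Kp := fr F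

theorem W_ext {X : Type} [AddCommGroup X] [Module F X] (c : Fin 3 → F) (P Q : W F →ₗ[F] X)
    (h : ∀ x y, P (B (th F) c x y) = Q (B (th F) c x y)) (w : W F) : P w = Q w :=
  W_ind (th F) c (LinearMap.eqLocus P Q) h w

/-- homomorphisms out of the model algebra -/
def outHom {N : Type} [LieRing N] [LieAlgebra F N] (hN : ∀ x y z : N, ⁅⁅x, y⁆, z⁆ = 0)
    (c : Fin 3 → F) (f : V F →ₗ[F] N)
    (h : Rel (th F) c ((LieModule.toEnd F N N : N →ₗ[F] N →ₗ[F] N).compl₁₂ f f)) :
    LA F c →ₗ⁅F⁆ N :=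
  { (f.coprod (GG ((LieModule.toEnd F N N : N →ₗ[F] N →ₗ[F] N).compl₁₂ f f))) ∘ₗ
      (toP c).toLinearMap with
    map_lie' := fun {x y} => by
      have hc : ∀ w (z : N), ⁅GG ((LieModule.toEnd F N N : N →ₗ[F] N →ₗ[F] N).compl₁₂ f f) w, z⁆ = 0 := by
        intro w z
        exact W_ext c ((LieModule.toEnd F N N : N →ₗ[F] N →ₗ[F] N).flip z ∘ₗ GG _) 0
          (fun x y => by rw [LinearMap.comp_apply, h.univ]; exact hN _ _ _) w
      have hc' : ∀ w (z : N), ⁅z, GG ((LieModule.toEnd F N N : N →ₗ[F] N →ₗ[F] N).compl₁₂ f f) w⁆ = 0 :=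
        fun w z => by rw [← lie_skew, hc, neg_zero]
      show f 0 + GG _ (B (th F) c x.1 y.1) = ⁅f x.1 + GG _ x.2, f y.1 + GG _ y.2⁆
      rw [h.univ, map_zero, zero_add, add_lie, lie_add, hc, hc', add_zero, add_zero]
      rfl }

theorem iso_LA {c c' : Fin 3 → F} (π a b : Fin 3 → F) (hπ : ∀ i, π i ≠ 0)
    (hd : ∀ i, a i ^ 2 - dl i * b i ^ 2 ≠ 0)
    (h2 : ∀ i, (a i ^ 2 - dl i * b i ^ 2) * c i = c' i * (π (pa i) * π (pb i))) :
    Nonempty (LA F c' ≃ₗ⁅F⁆ LA F c) := by
  have hb := Hm_bij one_ne_zero hπ hd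
  obtain ⟨G, hG⟩ := iso_W _ hb.2 (Rel_Hm (Rel_B _ c) 1 π a b h2)
  exact ⟨{ (toP c').trans (((LinearEquiv.ofBijective _ hb).prodCongr G).trans (toP c).symm) with
    map_lie' := fun {x y} => Prod.ext (map_zero (Hm 1 π a b)) (hG _ _) }⟩

def cE {ι : Type} (f : F →+* K) : (ι → F) →ₛₗ[f] (ι → K) where
  toFun x j := f (x j)
  map_add' x y := by ext; simp
  map_smul' a x := by ext; simp

@[simp] theorem cE_apply {ι : Type} (f : F →+* K) (x : ι → F) (j : ι) : cE f x j = f (x j) := rfl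

def cV (f : F →+* K) : V F →ₛₗ[f] V K where
  toFun x := (f x.1, f x.2.1, cE f x.2.2)
  map_add' x y := by simp
  map_smul' a x := by simp [map_smulₛₗ]

def cW (f : F →+* K) : W F →ₛₗ[f] W K where
  toFun x := (f x.1, cE f x.2.1, cE f x.2.2)
  map_add' x y := by simp
  map_smul' a x := by simp [map_smulₛₗ]

def cL (f : F →+* K) : V F × W F →ₛₗ[f] V K × W K where
  toFun x := (cV f x.1, cW f x.2)
  map_add' x y := by simp
  map_smul' a x := by simp [map_smulₛₗ]

theorem cV_apply (f : F →+* K) (x : V F) : cV f x = (f x.1, f x.2.1, cE f x.2.2) := rfl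
theorem cW_apply (f : F →+* K) (x : W F) : cW f x = (f x.1, cE f x.2.1, cE f x.2.2) := rfl
theorem cL_apply (f : F →+* K) (x : V F × W F) : cL f x = (cV f x.1, cW f x.2) := rfl

theorem cE_th (f : F →+* K) (x : J → F) : cE f (th F x) = th K (cE f x) :=
  J_ext (fun i => by simp [th]) (fun i => by simp [th]) fun i => by simp [th]

theorem cW_B (f : F →+* K) (c : Fin 3 → F) (x y : V F) :
    cW f (B (th F) c x y) = B (th K) (fun i => f (c i)) (cV f x) (cV f y) := by
  refine Prod.ext (by simp [cW_apply, cV_apply, B_apply, br]) (Prod.ext ?_ ?_)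
  · simp only [cW_apply, cV_apply, B_apply, br, map_add, map_sub, map_smulₛₗ, cE_th,
      RingHom.id_apply]
  · ext k
    simp [cW_apply, cV_apply, B_apply, br, brE, mm, apply_ite f]

theorem cL_BR (f : F →+* K) (c : Fin 3 → F) (x y : V F × W F) :
    cL f (BR c x y) = BR (fun i => f (c i)) (cL f x) (cL f y) := by
  simp only [BR_apply, cL_apply, cW_B, map_zero]

theorem cE_inj {ι : Type} (f : F →+* K) : Function.Injective (cE f : (ι → F) → _) :=
  fun _ _ e => funext fun j => f.injective (congrFun e j)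

theorem cV_inj (f : F →+* K) : Function.Injective (cV f) := fun _ _ e =>
  Prod.ext (f.injective (congrArg Prod.fst e)) (Prod.ext (f.injective (congrArg (·.2.1) e))
    (cE_inj f (congrArg (·.2.2) e)))

theorem cW_inj (f : F →+* K) : Function.Injective (cW f) := fun _ _ e =>
  Prod.ext (f.injective (congrArg Prod.fst e)) (Prod.ext (cE_inj f (congrArg (·.2.1) e))
    (cE_inj f (congrArg (·.2.2) e)))

theorem cL_inj (f : F →+* K) : Function.Injective (cL f) := fun _ _ e =>
  Prod.ext (cV_inj f (congrArg Prod.fst e)) (cW_inj f (congrArg Prod.snd e))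

theorem span_cL (f : F →+* K) (U : Submodule K (V K × W K)) (h : ∀ x, cL f x ∈ U) : U = ⊤ := by
  rw [eq_top_iff]
  rintro ⟨⟨a, b, x⟩, ⟨c, y, w⟩⟩ _
  have : (((a, b, x), (c, y, w)) : V K × W K) = a • cL f ((1, 0, 0), 0) + b • cL f ((0, 1, 0), 0) +
      ∑ j, x j • cL f ((0, 0, Pi.single j 1), 0) + c • cL f (0, (1, 0, 0)) +
      ∑ j, y j • cL f (0, (0, Pi.single j 1, 0)) + ∑ k, w k • cL f (0, (0, 0, Pi.single k 1)) := by
    refine Prod.ext (Prod.ext ?_ (Prod.ext ?_ (funext fun j => ?_)))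
      (Prod.ext ?_ (Prod.ext (funext fun j => ?_) (funext fun j => ?_))) <;>
    simp [cL_apply, cV_apply, cW_apply, Prod.fst_sum, Prod.snd_sum, Pi.single_apply, apply_ite f]
  rw [this]
  refine U.add_mem (U.add_mem (U.add_mem (U.add_mem (U.add_mem ?_ ?_) ?_) ?_) ?_) ?_
  all_goals first
    | exact U.smul_mem _ (h _)
    | exact U.sum_mem fun _ _ => U.smul_mem _ (h _)

theorem base_change [CharZero K] (c : Fin 3 → ℚ) :
    Nonempty (K ⊗[ℚ] LA ℚ c ≃ₗ⁅K⁆ LA K fun i => (c i : K)) := by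
  let l : LA ℚ c →ₗ[ℚ] V K × W K :=
    (cL (Rat.castHom K)).toAddMonoidHom.toRatLinearMap ∘ₗ (toP c).toLinearMap
  let L : K ⊗[ℚ] LA ℚ c →ₗ[K] V K × W K := l.liftBaseChange K
  have hs : Function.Surjective L := by
    rw [← LinearMap.range_eq_top]
    exact span_cL (Rat.castHom K) _ fun x => ⟨1 ⊗ₜ (toP c).symm x, by simp [L, l]⟩
  have hb : Function.Bijective L := ⟨(LinearMap.injective_iff_surjective_of_finrank_eq_finrank
    (by rw [Module.finrank_baseChange, fr', fr])).2 hs, hs⟩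
  refine ⟨{ (LinearEquiv.ofBijective L hb).trans (toP _).symm with map_lie' := fun {x y} => ?_ }⟩
  show L ⁅x, y⁆ = BR _ (L x) (L y)
  induction x using TensorProduct.induction_on with
  | zero => simp
  | add x x' h h' => simp only [add_lie, map_add, h, h', LinearMap.add_apply]
  | tmul s x =>
    induction y using TensorProduct.induction_on with
    | zero => simp
    | add y y' h h' => simp only [lie_add, map_add, h, h']
    | tmul t y =>
      rw [LieAlgebra.ExtendScalars.bracket_tmul]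
      simp only [L, LinearMap.liftBaseChange_tmul, map_smul, LinearMap.smul_apply, smul_smul]
      rw [mul_comm t s]
      congr 1
      exact cL_BR (Rat.castHom K) c _ _

end

end Pool.Agent.H77.Qf
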