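import Mathlib

namespace H77.Qf

/-- The ring `ℍ[u,v]`, built as `ℍ[u][v]`: the inner variable is `u`, the outer one is `v`. -/
abbrev R : Type := Polynomial (Polynomial (Quaternion ℝ))

/-- Similarity in the sense of Ore: `R/RA` and `R/RB` are isomorphic left `R`-modules. -/
def Similar (A B : R) : Prop :=
  Nonempty ((R ⧸ Submodule.span R {A}) ≃ₗ[R] (R ⧸ Submodule.span R {B}))

/-- An admissible factorization of `F`: an ordered product of irreducible polynomials of degree at
most one in `v`. -/
def Admissible (F : R) {m : ℕ} (A : Fin m → R) : Prop :=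
  F = (List.ofFn A).prod ∧ ∀ i, Irreducible (A i) ∧ (A i).natDegree ≤ 1

end H77.Qf
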