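import Pool.Agent.H77.QfD

namespace Pool.Agent.H77.Qf

open scoped TensorProduct

def Spans {N X : Type} (K : Type) [Field K] [AddCommGroup X] [Module K X] (u : N → X) : Prop :=
  ∀ U : Submodule K X, (∀ x, u x ∈ U) → U = ⊤

theorem lift_surj {N X K : Type} [Field K] [CharZero K] [AddCommGroup N] [Module ℚ N]
    [AddCommGroup X] [Module K X] [Module ℚ X] [IsScalarTower ℚ K X] (u : N →ₗ[ℚ] X)
    (h : Spans K u) : Function.Surjective (u.liftBaseChange K) := by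
  rw [← LinearMap.range_eq_top]
  exact h _ fun x => ⟨1 ⊗ₜ x, by simp⟩

theorem Spans.cL {N F K : Type} [Field F] [Field K] (f : F →+* K) {u : N → V F × W F}
    (h : Spans F u) : Spans K fun n => cL f (u n) := fun U hU =>
  span_cL f U fun x => by
    have : U.comap (Qf.cL f) = ⊤ := h _ hU
    exact (this.ge Submodule.mem_top : x ∈ U.comap (Qf.cL f))

theorem Spans.ne {N X K : Type} [Field K] [AddCommGroup X] [Module K X] {u : N → X}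
    (h : Spans K u) (l : X →ₗ[K] K) (x : X) (hx : l x ≠ 0) : ∃ n, l (u n) ≠ 0 := by
  by_contra! e
  exact hx ((h (LinearMap.ker l) e).ge Submodule.mem_top : x ∈ LinearMap.ker l)

theorem ext_lem {N : Type} [LieRing N] [LieAlgebra ℚ N]
    (hd : Module.finrank ℚ N = 21 + Fintype.card Kp) {c c' : Fin 3 → ℂ} (hc : ∀ i, c i ≠ 0)
    (hc' : ∀ i, c' i ≠ 0) (u u' : N →ₗ[ℚ] V ℂ × W ℂ) (hu : ∀ x y, u ⁅x, y⁆ = BR c (u x) (u y))
    (hu' : ∀ x y, u' ⁅x, y⁆ = BR c' (u' x) (u' y)) (su : Spans ℂ u) (su' : Spans ℂ u') :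
    ∃ (τ : ℂ) (π a b : Fin 3 → ℂ), Function.Injective (Hm τ π a b) ∧
      (∀ n, (u' n).1 = Hm τ π a b (u n).1) ∧
      ∀ i, (a i ^ 2 - dl i * b i ^ 2) * c' i = c i * (π (pa i) * π (pb i)) := by
  have : Module.Finite ℚ N := Module.finite_of_finrank_pos (by omega)
  have hs := lift_surj u su
  have hb : Function.Bijective (u.liftBaseChange ℂ) :=
    ⟨(LinearMap.injective_iff_surjective_of_finrank_eq_finrank
      (by rw [Module.finrank_baseChange, hd, fr])).2 hs, hs⟩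
  let Γ : V ℂ × W ℂ →ₗ[ℂ] V ℂ × W ℂ :=
    u'.liftBaseChange ℂ ∘ₗ (LinearEquiv.ofBijective _ hb).symm.toLinearMap
  have hΓ : ∀ n, Γ (u n) = u' n := fun n => by
    have : (LinearEquiv.ofBijective _ hb).symm (u n) = 1 ⊗ₜ n := by
      rw [LinearEquiv.symm_apply_eq]; simp
    simp [Γ, this]
  have sΓ : Function.Surjective Γ := (lift_surj u' su').comp (LinearEquiv.surjective _)
  have hbr : ∀ x y, Γ (BR c x y) = BR c' (Γ x) (Γ y) := by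
    have h1 : ∀ n y, Γ (BR c (u n) y) = BR c' (Γ (u n)) (Γ y) := fun n y =>
      ((su (LinearMap.eqLocus (Γ ∘ₗ BR c (u n)) (BR c' (Γ (u n)) ∘ₗ Γ)) fun m => by
        show Γ (BR c (u n) (u m)) = BR c' (Γ (u n)) (Γ (u m))
        rw [← hu, hΓ, hΓ, hΓ, hu']).ge Submodule.mem_top : y ∈ LinearMap.eqLocus _ _)
    exact fun x y => ((su (LinearMap.eqLocus (Γ ∘ₗ (BR c).flip y) ((BR c').flip (Γ y) ∘ₗ Γ))
      fun m => h1 m y).ge Submodule.mem_top : x ∈ LinearMap.eqLocus _ _)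
  have h0 : ∀ w, (Γ (0, w)).1 = 0 := fun w =>
    W_ext c (LinearMap.fst _ _ _ ∘ₗ Γ ∘ₗ LinearMap.inr _ _ _) 0
      (fun x y => congrArg Prod.fst (hbr (x, 0) (y, 0))) w
  let g : V ℂ →ₗ[ℂ] V ℂ := LinearMap.fst _ _ _ ∘ₗ Γ ∘ₗ LinearMap.inl _ _ _
  have hg : ∀ x, (Γ x).1 = g x.1 := fun x => by
    have : x = (x.1, 0) + (0, x.2) := by simp
    conv_lhs => rw [this, map_add, Prod.fst_add, h0, add_zero]
    rfl
  have ig : Function.Injective g := LinearMap.injective_iff_surjective.2 fun v => by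
    obtain ⟨x, hx⟩ := sΓ (v, 0)
    exact ⟨x.1, by rw [← hg, hx]⟩
  obtain ⟨τ, π, a, b, e, h⟩ := rigid' hc hc' g ig ((Rel_B _ c).comp
    (LinearMap.snd _ _ _ ∘ₗ Γ ∘ₗ LinearMap.inr _ _ _) fun x y =>
      (congrArg Prod.snd (hbr (x, 0) (y, 0))).symm)
  exact ⟨τ, π, a, b, e ▸ ig, fun n => by rw [← hΓ, hg, e], h⟩

theorem Rel.of_inj {F X Y : Type} [Field F] [AddCommGroup X] [Module F X] [AddCommGroup Y]
    [Module F Y] {θ : (J → F) →ₗ[F] (J → F)} {c : Fin 3 → F} {b : V F →ₗ[F] V F →ₗ[F] X}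
    (G : X →ₗ[F] Y) (hG : Function.Injective G) (h : Rel θ c (b.compr₂ G)) : Rel θ c b where
  alt x := hG (by rw [map_zero]; exact h.alt x)
  r1 v := hG (h.r1 v)
  r2 i := hG (by rw [map_smul]; exact h.r2 i)

theorem dl_nsq (i : Fin 3) (q : ℚ) : q ^ 2 ≠ dl i := by
  intro e
  have h : IsSquare (dl i) := Rat.isSquare_intCast_iff.1 ⟨q, by rw [← e, sq]⟩
  obtain ⟨r, hr⟩ := h
  fin_cases i
  · have : r * r = 17 := hr.symm
    have h1 : r ≤ 4 := by nlinarith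
    have h2 : -4 ≤ r := by nlinarith
    interval_cases r <;> omega
  · have : r * r = -1 := hr.symm
    nlinarith
  · have : r * r = -17 := hr.symm
    nlinarith

theorem rat_V (w : V ℂ) (h : ∀ σ : ℂ ≃+* ℂ, cV σ.toRingHom w = w) :
    ∃ v, cV (Rat.castHom ℂ) v = w := by
  obtain ⟨p, hp⟩ := rat_of_fixed w.1 fun σ => congrArg Prod.fst (h σ)
  obtain ⟨q, hq⟩ := rat_of_fixed w.2.1 fun σ => congrArg (·.2.1) (h σ)
  choose r hr using fun j => rat_of_fixed (w.2.2 j) fun σ => congrFun (congrArg (·.2.2) (h σ)) j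
  exact ⟨(p, q, r), Prod.ext hp (Prod.ext hq (funext hr))⟩

theorem descent {N : Type} [LieRing N] [LieAlgebra ℚ N]
    (hd : Module.finrank ℚ N = 21 + Fintype.card Kp) (u : N →ₗ[ℚ] V ℂ × W ℂ)
    (iu : Function.Injective u) (hu : ∀ x y, u ⁅x, y⁆ = BR 1 (u x) (u y)) (su : Spans ℂ u) :
    ∃ c : Fin 3 → ℚ, (∀ i, c i ≠ 0) ∧ Nonempty (LA ℚ c ≃ₗ⁅ℚ⁆ N) := by
  have : Module.Finite ℚ N := Module.finite_of_finrank_pos (by omega)
  have key := fun σ : ℂ ≃+* ℂ => ext_lem hd (c := 1) (c' := 1) (by simp) (by simp) u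
    ((cL σ.toRingHom).toAddMonoidHom.toRatLinearMap ∘ₗ u) hu
    (fun x y => by
      show cL _ (u ⁅x, y⁆) = BR 1 (cL _ (u x)) (cL _ (u y))
      rw [hu, cL_BR]
      congr 3
      ext i; simp) su (su.cL σ.toRingHom)
  choose τ π a b hi he hn using key
  replace he : ∀ (σ : ℂ ≃+* ℂ) n, cV σ.toRingHom (u n).1 = Hm (τ σ) (π σ) (a σ) (b σ) (u n).1 := he
  simp only [Pi.one_apply, mul_one, one_mul] at hn
  obtain ⟨n0, hκ⟩ := su.ne (LinearMap.fst _ _ _ ∘ₗ LinearMap.fst _ _ _) (vs, 0) (by simp [vs])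
  have hco := fun j : J => su.ne (LinearMap.proj j ∘ₗ LinearMap.snd _ _ _ ∘ₗ LinearMap.snd _ _ _ ∘ₗ
    LinearMap.fst _ _ _) (ve j, 0) (by simp [ve, iE_apply])
  choose nn hnn using hco
  set κ := (u n0).1.1 with eκ
  let π0 : Fin 3 → ℂ := fun i => (u (nn (i, 0))).1.2.2 (i, 0)
  let a0 : Fin 3 → ℂ := fun i => (u (nn (i, 2))).1.2.2 (i, 1)
  let b0 : Fin 3 → ℂ := fun i => (u (nn (i, 2))).1.2.2 (i, 2)
  replace hκ : κ ≠ 0 := hκ
  have hπ0 : ∀ i, π0 i ≠ 0 := fun i => hnn (i, 0)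
  have hb0 : ∀ i, b0 i ≠ 0 := fun i => hnn (i, 2)
  have s1 : ∀ σ : ℂ ≃+* ℂ, σ κ = τ σ * κ := fun σ => congrArg Prod.fst (he σ n0)
  have s2 : ∀ (σ : ℂ ≃+* ℂ) i, σ (π0 i) = π σ i * π0 i := fun σ i =>
    congrFun (congrArg (·.2.2) (he σ (nn (i, 0)))) (i, 0)
  have s3 : ∀ (σ : ℂ ≃+* ℂ) i, σ (a0 i) = a σ i * a0 i + dl i * b σ i * b0 i := fun σ i =>
    congrFun (congrArg (·.2.2) (he σ (nn (i, 2)))) (i, 1)
  have s4 : ∀ (σ : ℂ ≃+* ℂ) i, σ (b0 i) = b σ i * a0 i + a σ i * b0 i := fun σ i =>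
    congrFun (congrArg (·.2.2) (he σ (nn (i, 2)))) (i, 2)
  have hν : ∀ i, a0 i ^ 2 - dl i * b0 i ^ 2 ≠ 0 := fun i e => by
    have h0 := hb0 i
    obtain ⟨q, hq⟩ := rat_of_fixed (a0 i / b0 i) fun σ => by
      rw [map_div₀, div_eq_div_iff ((map_ne_zero σ).2 h0) h0, s3, s4]
      linear_combination -b σ i * e
    apply dl_nsq i q
    have : (q : ℂ) ^ 2 = dl i := by
      rw [hq]; field_simp; linear_combination e
    exact_mod_cast this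
  have hc := fun i => rat_of_fixed ((a0 i ^ 2 - dl i * b0 i ^ 2) / (π0 (pa i) * π0 (pb i)))
    fun σ => by
      have h1 := mul_ne_zero (hπ0 (pa i)) (hπ0 (pb i))
      rw [map_div₀, div_eq_div_iff ((map_ne_zero σ).2 h1) h1]
      simp only [map_sub, map_mul, map_pow, map_intCast, s2, s3, s4]
      linear_combination (a0 i ^ 2 - dl i * b0 i ^ 2) * (π0 (pa i) * π0 (pb i)) * hn σ i
  choose c hc using hc
  have hc2 : ∀ i, (a0 i ^ 2 - dl i * b0 i ^ 2) * (1 : Fin 3 → ℂ) i =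
      (Rat.castHom ℂ (c i)) * (π0 (pa i) * π0 (pb i)) := fun i => by
    rw [Rat.coe_castHom, hc, div_mul_cancel₀ _ (mul_ne_zero (hπ0 _) (hπ0 _)), Pi.one_apply, mul_one]
  refine ⟨c, fun i e => hν i (by simpa [e] using hc2 i), ?_⟩
  have hb := Hm_bij hκ hπ0 hν
  obtain ⟨G, hG⟩ := iso_W _ hb.2 (Rel_Hm (Rel_B _ 1) κ π0 a0 b0 hc2)
  have hp : ∀ n, ∃ v, Hm κ π0 a0 b0 (cV (Rat.castHom ℂ) v) = (u n).1 := fun n => by
    obtain ⟨w, hw⟩ := hb.2 (u n).1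
    obtain ⟨v, rfl⟩ := rat_V w fun σ => hb.1 (hi σ (by
      rw [hw, ← he, ← hw]
      simp only [Hm, HM_apply, cV_apply]
      refine Prod.ext ?_ (Prod.ext ?_ (J_ext (fun i => ?_) (fun i => ?_) fun i => ?_))
      all_goals try simp only [cE_apply, bm0, bm1, bm2]
      all_goals simp [s1, s2, s3, s4]
      all_goals ring))
    exact ⟨v, hw⟩
  choose p hp using hp
  let ι : V ℚ →ₗ[ℚ] V ℂ := ((Hm κ π0 a0 b0).toAddMonoidHom.comp
    (cV (Rat.castHom ℂ)).toAddMonoidHom).toRatLinearMap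
  have hι : Function.Injective ι := hb.1.comp (cV_inj _)
  replace hp : ∀ n, ι (p n) = (u n).1 := hp
  let p' : N →ₗ[ℚ] V ℚ :=
    { toFun := p
      map_add' := fun x y => hι (by simp [hp])
      map_smul' := fun x y => hι (by simp [hp]) }
  have hr : LinearMap.range p' = ⊤ := by
    apply Submodule.eq_top_of_finrank_eq
    refine le_antisymm (Submodule.finrank_le _) ?_
    have h1 := LinearMap.finrank_le_finrank_of_surjective (lift_surj (K := ℂ)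
      (ι ∘ₗ (LinearMap.range p').subtype) fun U hU => by
        have := su (U.comap (LinearMap.fst _ _ _)) fun n => by
          show (u n).1 ∈ U
          rw [← hp]; exact hU ⟨p n, n, rfl⟩
        exact eq_top_iff.2 fun x _ =>
          (this.ge Submodule.mem_top : (x, 0) ∈ U.comap (LinearMap.fst ℂ (V ℂ) (W ℂ))))
    rw [Module.finrank_baseChange] at h1
    simpa using h1
  obtain ⟨f, hf⟩ := p'.exists_rightInverse_of_surjective hr
  have hf' : ∀ v, (u (f v)).1 = ι v := fun v => by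
    rw [← hp]; exact congrArg ι (LinearMap.congr_fun hf v)
  let T : W ℚ →ₗ[ℚ] V ℂ × W ℂ := (((LinearMap.inr ℂ _ _) ∘ₗ G.toLinearMap).toAddMonoidHom.comp
    (cW (Rat.castHom ℂ)).toAddMonoidHom).toRatLinearMap
  have hT : ∀ w, T w = (0, G (cW (Rat.castHom ℂ) w)) := fun _ => rfl
  have hb' : ∀ x y, u ⁅f x, f y⁆ = T (B (th ℚ) c x y) := fun x y => by
    rw [hu, BR_apply, hT, cW_B, hG, hf', hf']; rfl
  have hN : ∀ x y z : N, ⁅⁅x, y⁆, z⁆ = 0 := fun x y z => iu (by simp [hu, BR_apply])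
  have hR : Rel (th ℚ) c ((LieModule.toEnd ℚ N N : N →ₗ[ℚ] N →ₗ[ℚ] N).compl₁₂ f f) :=
    Rel.of_inj u iu ((Rel_B _ c).comp T hb')
  have hi' : Function.Injective (outHom hN c f hR) := by
    rw [injective_iff_map_eq_zero]
    rintro ⟨v, w⟩ e
    have e1 : u (f v) +
        u (GG ((LieModule.toEnd ℚ N N : N →ₗ[ℚ] N →ₗ[ℚ] N).compl₁₂ f f) w) = 0 := by
      rw [← map_add, ← u.map_zero]; exact congrArg u e
    have e2 : u (GG ((LieModule.toEnd ℚ N N : N →ₗ[ℚ] N →ₗ[ℚ] N).compl₁₂ f f) w) = T w :=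
      W_ext c (u ∘ₗ GG _) T (fun x y => by rw [LinearMap.comp_apply, hR.univ]; exact hb' x y) w
    rw [e2, hT] at e1
    have e3 : v = 0 := hι (by simpa [hf'] using congrArg Prod.fst e1)
    subst e3
    have e4 : w = 0 := cW_inj (Rat.castHom ℂ) (by simpa using congrArg Prod.snd e1)
    subst e4
    rfl
  exact ⟨LieEquiv.ofBijective _ ⟨hi', (LinearMap.injective_iff_surjective_of_finrank_eq_finrank
    (f := (outHom hN c f hR).toLinearMap) (by rw [fr', hd])).1 hi'⟩⟩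

theorem form {N : Type} [LieRing N] [LieAlgebra ℚ N] (φ : LA ℝ 1 ≃ₗ⁅ℝ⁆ ℝ ⊗[ℚ] N) :
    ∃ c : Fin 3 → ℚ, (∀ i, c i ≠ 0) ∧ Nonempty (LA ℚ c ≃ₗ⁅ℚ⁆ N) := by
  let ψ : ℝ ⊗[ℚ] N ≃ₗ[ℝ] V ℝ × W ℝ := φ.symm.toLinearEquiv.trans (toP 1)
  let u0 : N →+ V ℝ × W ℝ :=
    ψ.toLinearMap.toAddMonoidHom.comp (TensorProduct.mk ℚ ℝ N 1).toAddMonoidHom
  have e0 : ∀ n, u0 n = ψ (1 ⊗ₜ n) := fun _ => rfl
  have su : Spans ℝ u0 := fun U hU => eq_top_iff.2 fun x _ => by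
    obtain ⟨y, rfl⟩ := ψ.surjective x
    induction y using TensorProduct.induction_on with
    | zero => simp
    | add x x' h h' => rw [map_add]; exact U.add_mem (h trivial) (h' trivial)
    | tmul s x =>
      rw [show s ⊗ₜ[ℚ] x = s • ((1 : ℝ) ⊗ₜ[ℚ] x) by simp [TensorProduct.smul_tmul'], map_smul]
      exact U.smul_mem _ (hU x)
  refine descent ?_ ((cL Complex.ofRealHom).toAddMonoidHom.comp u0).toRatLinearMap ?_
    (fun x y => ?_) (su.cL Complex.ofRealHom)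
  · rw [← Module.finrank_baseChange (R := ℝ), ← φ.toLinearEquiv.finrank_eq, fr']
  · refine (cL_inj _).comp ((injective_iff_map_eq_zero u0).2 fun n hn => ?_)
    rw [e0, map_eq_zero_iff _ ψ.injective] at hn
    exact (Module.FaithfullyFlat.one_tmul_eq_zero_iff _ _ n).1 hn
  · show cL _ (u0 ⁅x, y⁆) = BR 1 (cL _ (u0 x)) (cL _ (u0 y))
    have : u0 ⁅x, y⁆ = BR 1 (u0 x) (u0 y) := by
      rw [e0, e0, e0, show (1 : ℝ) ⊗ₜ[ℚ] ⁅x, y⁆ = ⁅(1 : ℝ) ⊗ₜ[ℚ] x, (1 : ℝ) ⊗ₜ[ℚ] y⁆ by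
        rw [LieAlgebra.ExtendScalars.bracket_tmul, one_mul]]
      exact congrArg (toP 1) (φ.symm.map_lie _ _)
    rw [this, cL_BR]
    congr 3

def cd (d : ℚˣ) : Fin 3 → ℚ := ![d, 1, 1]

theorem cd_ne (d : ℚˣ) (i : Fin 3) : cd d i ≠ 0 := by
  fin_cases i <;> simp [cd]

theorem normal {c : Fin 3 → ℚ} (hc : ∀ i, c i ≠ 0) :
    ∃ q : ℚˣ ⧸ HN, Nonempty (LA ℚ c ≃ₗ⁅ℚ⁆ LA ℚ (cd q.out)) := by
  let d : ℚˣ := Units.mk0 (c 0 / (c 1 * c 2)) (div_ne_zero (hc 0) (mul_ne_zero (hc 1) (hc 2)))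
  refine ⟨d, ?_⟩
  obtain ⟨⟨h, hh⟩, e⟩ := QuotientGroup.mk_out_eq_mul HN d
  rw [e]
  obtain ⟨x0, h0, y, hy, rfl⟩ := Subgroup.mem_sup.1 hh
  obtain ⟨x1, ⟨a1, b1, h1⟩, x2, ⟨a2, b2, h2⟩, rfl⟩ := Subgroup.mem_sup.1 hy
  obtain ⟨a0, b0, h0'⟩ := inv_mem h0
  have n0 := x0.ne_zero
  have n1 := x1.ne_zero
  have n2 := x2.ne_zero
  have := hc 0
  have := hc 1
  have := hc 2
  have hd : ∀ i, ![a0, a1, a2] i ^ 2 - dl i * ![b0, b1, b2] i ^ 2 = ![(x0 : ℚ)⁻¹, x1, x2] i := by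
    intro i
    fin_cases i
    · exact h0'.symm.trans (Units.val_inv_eq_inv_val _)
    · exact h1.symm
    · exact h2.symm
  refine iso_LA ![x2 / c 2, x1 / c 1, 1] ![a0, a1, a2] ![b0, b1, b2] (fun i => ?_) (fun i => ?_)
    fun i => ?_
  · fin_cases i <;> simp [hc]
  · rw [hd]; fin_cases i <;> simp
  · rw [hd]; fin_cases i <;> simp [cd, d, pa, pb] <;> field_simp

theorem real_iso (d : ℚˣ) : Nonempty (LA ℝ 1 ≃ₗ⁅ℝ⁆ ℝ ⊗[ℚ] LA ℚ (cd d)) := by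
  obtain ⟨e⟩ := base_change (K := ℝ) (cd d)
  have h17 : √17 ^ 2 = 17 := Real.sq_sqrt (by norm_num)
  have h0 : √17 ≠ 0 := by positivity
  have hd : ∀ i, ![(((d : ℚ) : ℝ) + 1) / 2, 1, 1] i ^ 2 -
      dl i * ![(((d : ℚ) : ℝ) - 1) / (2 * √17), 0, 0] i ^ 2 = cd d i := by
    intro i
    fin_cases i
    · show ((((d : ℚ) : ℝ) + 1) / 2) ^ 2 - ((17 : ℤ) : ℝ) * ((((d : ℚ) : ℝ) - 1) / (2 * √17)) ^ 2 =
        ((d : ℚ) : ℝ)
      rw [div_pow, div_pow, mul_pow, h17]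
      push_cast
      ring
    · simp [cd]
    · simp [cd]
  obtain ⟨e'⟩ := iso_LA (c := 1) (c' := fun i => (cd d i : ℝ)) 1 _ _ (by simp)
    (fun i => by rw [hd]; exact_mod_cast cd_ne d i) fun i => by rw [hd]; simp
  exact ⟨e'.symm.trans e.symm⟩

theorem non_iso {d d' : ℚˣ} (f : LA ℚ (cd d) ≃ₗ⁅ℚ⁆ LA ℚ (cd d')) : d⁻¹ * d' ∈ HN := by
  let l : V ℚ × W ℚ →ₗ[ℚ] V ℂ × W ℂ := (cL (Rat.castHom ℂ)).toAddMonoidHom.toRatLinearMap
  obtain ⟨τ, π, a, b, hi, he, hn⟩ := ext_lem (fr' _) (c := fun i => Rat.castHom ℂ (cd d i))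
    (c' := fun i => Rat.castHom ℂ (cd d' i)) (fun i => (map_ne_zero _).2 (cd_ne d i))
    (fun i => (map_ne_zero _).2 (cd_ne d' i)) (l ∘ₗ (toP _).toLinearMap)
    (l ∘ₗ (toP _).toLinearMap ∘ₗ f.toLinearEquiv.toLinearMap) (fun x y => cL_BR _ _ _ _)
    (fun x y => (congrArg (fun z => l (toP _ z)) (f.map_lie x y)).trans (cL_BR _ _ _ _))
    (span_cL _) fun U hU => span_cL (Rat.castHom ℂ) U fun x => by
      have : l x ∈ U := by simpa using hU (f.symm ((toP _).symm x))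
      exact this
  replace he : ∀ n : V ℚ × W ℚ, cV (Rat.castHom ℂ) (toP _ (f n)).1 =
    Hm τ π a b (cV (Rat.castHom ℂ) n.1) := he
  have r0 : ∀ i, ∃ q : ℚ, (q : ℂ) = π i := fun i =>
    ⟨_, (congrFun (congrArg (·.2.2) (he (ve (i, 0), 0))) (i, 0)).trans
      (by simp [Hm, HM_apply, cV_apply, ve, iE_apply])⟩
  have r1 : ∀ i, ∃ q : ℚ, (q : ℂ) = a i := fun i =>
    ⟨_, (congrFun (congrArg (·.2.2) (he (ve (i, 1), 0))) (i, 1)).trans
      (by simp [Hm, HM_apply, cV_apply, ve, iE_apply])⟩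
  have r2 : ∀ i, ∃ q : ℚ, (q : ℂ) = b i := fun i =>
    ⟨_, (congrFun (congrArg (·.2.2) (he (ve (i, 1), 0))) (i, 2)).trans
      (by simp [Hm, HM_apply, cV_apply, ve, iE_apply])⟩
  have hπ : ∀ i, π i ≠ 0 := fun i e => by
    have : ve (i, 0) = (0 : V ℂ) := hi (by rw [Hm, HM_ve0, e, zero_smul, map_zero])
    simpa [ve, iE_apply] using congrFun (congrArg (·.2.2) this) (i, 0)
  choose p hp using r0
  choose s hs using r1
  choose t ht using r2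
  have hp0 : ∀ i, p i ≠ 0 := fun i e => hπ i (by rw [← hp, e, Rat.cast_zero])
  have hq : ∀ i, (s i ^ 2 - dl i * t i ^ 2) * cd d' i = cd d i * (p (pa i) * p (pb i)) := fun i => by
    have := hn i
    rw [← hp, ← hp, ← hs, ← ht, Rat.coe_castHom] at this
    exact_mod_cast this
  have hν : ∀ i, s i ^ 2 - dl i * t i ^ 2 ≠ 0 := fun i e =>
    mul_ne_zero (cd_ne d i) (mul_ne_zero (hp0 _) (hp0 _)) (by rw [← hq, e, zero_mul])
  have hm : ∀ i, Units.mk0 _ (hν i) ∈ HN := by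
    intro i
    fin_cases i
    · exact Subgroup.mem_sup_left ⟨_, _, rfl⟩
    · exact Subgroup.mem_sup_right (Subgroup.mem_sup_left ⟨_, _, rfl⟩)
    · exact Subgroup.mem_sup_right (Subgroup.mem_sup_right ⟨_, _, rfl⟩)
  have : d⁻¹ * d' = (Units.mk0 _ (hν 0))⁻¹ * Units.mk0 _ (hν 1) * Units.mk0 _ (hν 2) *
      (Units.mk0 _ (hp0 2) ^ 2)⁻¹ := by
    ext
    have e0 : (s 0 ^ 2 - dl 0 * t 0 ^ 2) * d' = d * (p 0 * p 1) := hq 0
    have e1 : (s 1 ^ 2 - dl 1 * t 1 ^ 2) * 1 = 1 * (p 1 * p 2) := hq 1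
    have e2 : (s 2 ^ 2 - dl 2 * t 2 ^ 2) * 1 = 1 * (p 0 * p 2) := hq 2
    have := hν 0
    have := hp0 2
    have := d.ne_zero
    rw [mul_one, one_mul] at e1 e2
    simp only [Units.val_mul, Units.val_inv_eq_inv_val, Units.val_mk0, Units.val_pow_eq_pow_val, e1,
      e2]
    field_simp
    linear_combination e0
  rw [this]
  exact mul_mem (mul_mem (mul_mem (inv_mem (hm 0)) (hm 1)) (hm 2)) (inv_mem (sq_mem _))

theorem nilp : LieModule.lowerCentralSeries ℝ (LA ℝ 1) (LA ℝ 1) 2 = ⊥ := by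
  let Z : LieIdeal ℝ (LA ℝ 1) := LieAlgebra.center ℝ (LA ℝ 1)
  have h1 : LieModule.lowerCentralSeries ℝ (LA ℝ 1) (LA ℝ 1) 1 ≤ Z := by
    rw [LieModule.lowerCentralSeries_succ, LieSubmodule.lie_le_iff]
    intro x _ y _ z
    show BR 1 z (BR 1 x y) = 0
    simp [BR_apply]
  rw [LieModule.lowerCentralSeries_succ, LieSubmodule.lie_eq_bot_iff]
  exact fun x _ y hy => h1 hy x

theorem main : ∃ (L : Type) (_ : LieRing L) (_ : LieAlgebra ℝ L),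
      FiniteDimensional ℝ L ∧
      (∃ n : ℕ, LieModule.lowerCentralSeries ℝ L L n = ⊥) ∧
      ∃ k : ℕ, 1 < k ∧
        ∃ (M : Fin k → Type) (_ : ∀ i, LieRing (M i)) (_ : ∀ i, LieAlgebra ℚ (M i)),
          (∀ i, Nonempty (L ≃ₗ⁅ℝ⁆ ℝ ⊗[ℚ] M i)) ∧
          (∀ i j, Nonempty (M i ≃ₗ⁅ℚ⁆ M j) → i = j) ∧
          ∀ (N : Type) (_ : LieRing N) (_ : LieAlgebra ℚ N),
            Nonempty (L ≃ₗ⁅ℝ⁆ ℝ ⊗[ℚ] N) → ∃ i, Nonempty (N ≃ₗ⁅ℚ⁆ M i) := by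
  have := finite_quot
  have : Nontrivial (ℚˣ ⧸ HN) := ⟨⟨(Units.mk0 (3 : ℚ) three_ne_zero : ℚˣ), 1, fun e =>
    three_not ((QuotientGroup.eq_one_iff _).1 e)⟩⟩
  let e := Finite.equivFin (ℚˣ ⧸ HN)
  refine ⟨LA ℝ 1, inferInstance, inferInstance, inferInstance, ⟨2, nilp⟩, Nat.card (ℚˣ ⧸ HN),
    Finite.one_lt_card, fun i => LA ℚ (cd (e.symm i).out), inferInstance, inferInstance,
    fun i => real_iso _, fun i j ⟨f⟩ => e.symm.injective ?_, fun N _ _ ⟨φ⟩ => ?_⟩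
  · rw [← (e.symm i).out_eq, ← (e.symm j).out_eq]
    exact QuotientGroup.eq.2 (non_iso f)
  · obtain ⟨c, hc, ⟨f⟩⟩ := form φ
    obtain ⟨q, ⟨g⟩⟩ := normal hc
    obtain ⟨i, rfl⟩ := e.symm.surjective q
    exact ⟨i, ⟨f.symm.trans g⟩⟩

end Pool.Agent.H77.Qf
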