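import Pool.Agent.H77.QvDefs

namespace H77.Qv

open Module

/-- The implication behind the quasi-identity. -/
def Hopf (K : Type*) [Lattice K] : Prop :=
  ∀ a b c g : K, c ⊓ a = a ⊓ b → c ⊓ b = a ⊓ b → g ⊓ b = a ⊓ b → c ⊔ a = a ⊔ b → c ⊔ b = a ⊔ b →
    g ⊔ b = a ⊔ b → g ⊔ a = a ⊔ b → g ⊓ a = a ⊓ b

def qH : List (Tm × Tm) :=
  [(.inf (.var 2) (.var 0), .inf (.var 0) (.var 1)), (.inf (.var 2) (.var 1), .inf (.var 0) (.var 1)),
   (.inf (.var 3) (.var 1), .inf (.var 0) (.var 1)), (.sup (.var 2) (.var 0), .sup (.var 0) (.var 1)),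
   (.sup (.var 2) (.var 1), .sup (.var 0) (.var 1)), (.sup (.var 3) (.var 1), .sup (.var 0) (.var 1)),
   (.sup (.var 3) (.var 0), .sup (.var 0) (.var 1))]

def qC : Tm × Tm := (.inf (.var 3) (.var 0), .inf (.var 0) (.var 1))

theorem holds_iff (K : Type*) [Lattice K] : Holds K qH qC ↔ Hopf K := by
  constructor
  · intro h a b c g h1 h2 h3 h4 h5 h6 h7
    apply h (fun n => if n = 0 then a else if n = 1 then b else if n = 2 then c else g)
    simp [qH, Tm.eval, h1, h2, h3, h4, h5, h6, h7]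
  · intro h x hx
    simp only [qH, List.forall_mem_cons, Tm.eval] at hx
    obtain ⟨h1, h2, h3, h4, h5, h6, h7, -⟩ := hx
    exact h _ _ _ _ h1 h2 h3 h4 h5 h6 h7

theorem hopf_fd {W : Type} [AddCommGroup W] [Module ℚ W] (a b c g : Submodule ℚ W)
    [FiniteDimensional ℚ (a ⊔ b : Submodule ℚ W)] (h1 : c ⊓ a = a ⊓ b) (h2 : c ⊓ b = a ⊓ b)
    (h3 : g ⊓ b = a ⊓ b) (h4 : c ⊔ a = a ⊔ b) (h5 : c ⊔ b = a ⊔ b) (h6 : g ⊔ b = a ⊔ b)
    (h7 : g ⊔ a = a ⊔ b) : g ⊓ a = a ⊓ b := by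
  haveI : FiniteDimensional ℚ a := Submodule.finiteDimensional_of_le (le_sup_left : a ≤ a ⊔ b)
  haveI : FiniteDimensional ℚ b := Submodule.finiteDimensional_of_le (le_sup_right : b ≤ a ⊔ b)
  haveI : FiniteDimensional ℚ c := Submodule.finiteDimensional_of_le (h4 ▸ le_sup_left : c ≤ a ⊔ b)
  haveI : FiniteDimensional ℚ g := Submodule.finiteDimensional_of_le (h7 ▸ le_sup_left : g ≤ a ⊔ b)
  have e1 := Submodule.finrank_sup_add_finrank_inf_eq c a
  have e2 := Submodule.finrank_sup_add_finrank_inf_eq c b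
  have e3 := Submodule.finrank_sup_add_finrank_inf_eq g b
  have e4 := Submodule.finrank_sup_add_finrank_inf_eq g a
  have e5 := Submodule.finrank_sup_add_finrank_inf_eq a b
  rw [h1, h4] at e1
  rw [h2, h5] at e2
  rw [h3, h6] at e3
  rw [h7] at e4
  symm
  apply Submodule.eq_of_le_of_finrank_eq
  · exact le_inf (h3 ▸ inf_le_left) inf_le_left
  · omega

abbrev V : Type := (ℕ → ℚ) × (ℕ → ℚ)

def pr (n : ℕ) : V →ₗ[ℚ] (Fin n → ℚ) × (Fin n → ℚ) where
  toFun v := (fun i => v.1 i, fun i => v.2 i)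
  map_add' _ _ := rfl
  map_smul' _ _ := rfl

def D (n : ℕ) : Submodule ℚ V := LinearMap.ker (pr n)

theorem mem_D {n : ℕ} {v : V} : v ∈ D n ↔ ∀ i < n, v.1 i = 0 ∧ v.2 i = 0 := by
  constructor
  · intro h i hi
    exact ⟨congrFun (congrArg Prod.fst h) ⟨i, hi⟩, congrFun (congrArg Prod.snd h) ⟨i, hi⟩⟩
  · intro h
    exact Prod.ext (funext fun i => (h i i.2).1) (funext fun i => (h i i.2).2)

theorem D_anti {n m : ℕ} (h : n ≤ m) : D m ≤ D n :=
  fun _ hv => mem_D.2 fun i hi => mem_D.1 hv i (by omega)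

theorem cof_inf {X Y : Submodule ℚ V} (hX : ∃ n, D n ≤ X) (hY : ∃ n, D n ≤ Y) :
    ∃ n, D n ≤ X ⊓ Y := by
  obtain ⟨n, hn⟩ := hX
  obtain ⟨m, hm⟩ := hY
  exact ⟨max n m, le_inf ((D_anti (le_max_left _ _)).trans hn) ((D_anti (le_max_right _ _)).trans hm)⟩

def LL : Sublattice (Submodule ℚ V) where
  carrier := {X | FiniteDimensional ℚ X ∨ ∃ n, D n ≤ X}
  supClosed' := by
    rintro X (hX | ⟨n, hX⟩) Y (hY | ⟨m, hY⟩)
    · exact Or.inl (Submodule.finiteDimensional_sup X Y)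
    · exact Or.inr ⟨m, hY.trans le_sup_right⟩
    · exact Or.inr ⟨n, hX.trans le_sup_left⟩
    · exact Or.inr ⟨n, hX.trans le_sup_left⟩
  infClosed' := by
    rintro X (hX | hX) Y (hY | hY)
    · exact Or.inl (Submodule.finiteDimensional_inf_left X Y)
    · exact Or.inl (Submodule.finiteDimensional_inf_left X Y)
    · exact Or.inl (Submodule.finiteDimensional_inf_right X Y)
    · exact Or.inr (cof_inf hX hY)

theorem modular_LL : IsModularLattice LL :=
  ⟨fun {x} y {z} h => IsModularLattice.sup_inf_le_assoc_of_le (x := x.1) y.1 (z := z.1) h⟩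

theorem map_inf' {W : Type} [AddCommGroup W] [Module ℚ W] (π : V →ₗ[ℚ] W) {X Y : Submodule ℚ V}
    (hX : LinearMap.ker π ≤ X) : (X ⊓ Y).map π = X.map π ⊓ Y.map π := by
  apply le_antisymm (Submodule.map_inf_le _)
  rintro _ ⟨⟨x, hx, rfl⟩, y, hy, hxy⟩
  refine ⟨y, ⟨?_, hy⟩, hxy⟩
  have : y - x ∈ X := hX (by rw [LinearMap.mem_ker, map_sub, hxy, sub_self])
  simpa using add_mem this hx

theorem hopf_LL : Hopf LL := by
  rintro ⟨a, ha⟩ ⟨b, hb⟩ ⟨c, hc⟩ ⟨g, hg⟩ h1 h2 h3 h4 h5 h6 h7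
  apply Subtype.ext
  replace h1 : c ⊓ a = a ⊓ b := congrArg Subtype.val h1
  replace h2 : c ⊓ b = a ⊓ b := congrArg Subtype.val h2
  replace h3 : g ⊓ b = a ⊓ b := congrArg Subtype.val h3
  replace h4 : c ⊔ a = a ⊔ b := congrArg Subtype.val h4
  replace h5 : c ⊔ b = a ⊔ b := congrArg Subtype.val h5
  replace h6 : g ⊔ b = a ⊔ b := congrArg Subtype.val h6
  replace h7 : g ⊔ a = a ⊔ b := congrArg Subtype.val h7
  show g ⊓ a = a ⊓ b
  by_cases ho : ∃ n, D n ≤ a ⊓ b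
  · obtain ⟨n, hn⟩ := ho
    have ka : LinearMap.ker (pr n) ≤ a := hn.trans inf_le_left
    have kc : LinearMap.ker (pr n) ≤ c := hn.trans (h1 ▸ inf_le_left)
    have kg : LinearMap.ker (pr n) ≤ g := hn.trans (h3 ▸ inf_le_left)
    have := hopf_fd (a.map (pr n)) (b.map (pr n)) (c.map (pr n)) (g.map (pr n))
      (by rw [← map_inf' _ kc, ← map_inf' _ ka, h1]) (by rw [← map_inf' _ kc, ← map_inf' _ ka, h2])
      (by rw [← map_inf' _ kg, ← map_inf' _ ka, h3])
      (by rw [← Submodule.map_sup, ← Submodule.map_sup, h4])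
      (by rw [← Submodule.map_sup, ← Submodule.map_sup, h5])
      (by rw [← Submodule.map_sup, ← Submodule.map_sup, h6])
      (by rw [← Submodule.map_sup, ← Submodule.map_sup, h7])
    rw [← map_inf' _ kg, ← map_inf' _ ka] at this
    rw [← Submodule.comap_map_eq_self (f := pr n) (p := g ⊓ a) (le_inf kg ka), this,
      Submodule.comap_map_eq_self hn]
  · have : FiniteDimensional ℚ (a ⊔ b : Submodule ℚ V) := by
      rcases ha with ha | ha
      · rcases hb with hb | hb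
        · exact Submodule.finiteDimensional_sup a b
        · rcases hc with hc | hc
          · rw [← h4]; exact Submodule.finiteDimensional_sup c a
          · exact absurd (h2 ▸ cof_inf hc hb) ho
      · rcases hb with hb | hb
        · rcases hc with hc | hc
          · rw [← h5]; exact Submodule.finiteDimensional_sup c b
          · exact absurd (h1 ▸ cof_inf hc ha) ho
        · exact absurd (cof_inf ha hb) ho
    exact hopf_fd a b c g h1 h2 h3 h4 h5 h6 h7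

theorem fd_split {U U' X : Submodule ℚ V} (hX : FiniteDimensional ℚ X) (h : X ≤ U ⊔ U') :
    ∃ Y Y' : Submodule ℚ V, FiniteDimensional ℚ Y ∧ FiniteDimensional ℚ Y' ∧ Y ≤ U ∧ Y' ≤ U' ∧
      X ≤ Y ⊔ Y' := by
  obtain ⟨S, hS⟩ : X.FG := (Submodule.fg_iff_finiteDimensional X).2 hX
  have h1 : ∀ s : S, ∃ y ∈ U, ∃ z ∈ U', y + z = s := fun s =>
    Submodule.mem_sup.1 (h (hS ▸ Submodule.subset_span s.2))
  choose y hy z hz hyz using h1
  refine ⟨Submodule.span ℚ (Set.range y), Submodule.span ℚ (Set.range z),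
    FiniteDimensional.span_of_finite ℚ (Set.finite_range y),
    FiniteDimensional.span_of_finite ℚ (Set.finite_range z), ?_, ?_, ?_⟩
  · rw [Submodule.span_le]; rintro _ ⟨s, rfl⟩; exact hy s
  · rw [Submodule.span_le]; rintro _ ⟨s, rfl⟩; exact hz s
  · rw [← hS, Submodule.span_le]
    intro s hs
    have := hyz ⟨s, hs⟩
    exact Submodule.mem_sup.2 ⟨_, Submodule.subset_span ⟨⟨s, hs⟩, rfl⟩, _,
      Submodule.subset_span ⟨⟨s, hs⟩, rfl⟩, this⟩

section
variable {K : Type*} [CompleteLattice K] (f : LatticeHom LL K)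

def DL (n : ℕ) : LL := ⟨D n, Or.inr ⟨n, le_rfl⟩⟩

def oo : K := ⨅ n, f (DL n)

def Ph (U : Submodule ℚ V) : K :=
  oo f ⊔ ⨆ X : {X : Submodule ℚ V // FiniteDimensional ℚ X ∧ X ≤ U}, f ⟨X.1, Or.inl X.2.1⟩

theorem le_Ph {U X : Submodule ℚ V} (hX : FiniteDimensional ℚ X) (h : X ≤ U) :
    f ⟨X, Or.inl hX⟩ ≤ Ph f U :=
  le_sup_of_le_right (le_iSup
    (fun X : {X : Submodule ℚ V // FiniteDimensional ℚ X ∧ X ≤ U} => f ⟨X.1, Or.inl X.2.1⟩)
    ⟨X, hX, h⟩)

theorem Ph_sup (U U' : Submodule ℚ V) : Ph f U ⊔ Ph f U' = Ph f (U ⊔ U') := by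
  apply le_antisymm
  · refine sup_le (sup_le le_sup_left (iSup_le ?_)) (sup_le le_sup_left (iSup_le ?_))
    · exact fun X => le_Ph f X.2.1 (X.2.2.trans le_sup_left)
    · exact fun X => le_Ph f X.2.1 (X.2.2.trans le_sup_right)
  · refine sup_le (le_sup_of_le_left le_sup_left) (iSup_le ?_)
    rintro ⟨X, hX, h⟩
    obtain ⟨Y, Y', h1, h2, h3, h4, h5⟩ := fd_split hX h
    refine le_trans ?_ (sup_le_sup (le_Ph f h1 h3) (le_Ph f h2 h4))
    rw [← map_sup]
    exact OrderHomClass.mono f h5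

theorem Ph_le {U : Submodule ℚ V} (n : ℕ) : Ph f U ≤ f ⟨U ⊔ D n, Or.inr ⟨n, le_sup_right⟩⟩ := by
  refine sup_le ((iInf_le _ n).trans (OrderHomClass.mono f ?_)) (iSup_le fun X => ?_)
  · exact (le_sup_right : D n ≤ U ⊔ D n)
  · exact OrderHomClass.mono f (X.2.2.trans le_sup_left : X.1 ≤ U ⊔ D n)

theorem Ph_inf {U U' : Submodule ℚ V} (h : ∀ n, (U ⊔ D (n + 1)) ⊓ (U' ⊔ D (n + 1)) ≤ D n) :
    Ph f U ⊓ Ph f U' = oo f := by
  apply le_antisymm
  · refine le_iInf fun n => ?_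
    refine (inf_le_inf (Ph_le f (n + 1)) (Ph_le f (n + 1))).trans ?_
    rw [← map_inf]
    exact OrderHomClass.mono f (h n)
  · exact le_inf le_sup_left le_sup_left

end

def sA : Submodule ℚ V where
  carrier := {v | v.2 = 0}
  zero_mem' := rfl
  add_mem' := by intro x y hx hy; simp_all
  smul_mem' := by intro r x hx; simp_all

def sB : Submodule ℚ V where
  carrier := {v | v.1 = 0}
  zero_mem' := rfl
  add_mem' := by intro x y hx hy; simp_all
  smul_mem' := by intro r x hx; simp_all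

def sC : Submodule ℚ V where
  carrier := {v | v.2 = v.1}
  zero_mem' := rfl
  add_mem' := by intro x y hx hy; simp_all
  smul_mem' := by intro r x hx; simp_all

def sG : Submodule ℚ V where
  carrier := {v | ∀ i, v.2 i = v.1 (i + 1)}
  zero_mem' := fun _ => rfl
  add_mem' := by intro x y hx hy; simp_all
  smul_mem' := by intro r x hx; simp_all

theorem sup_D {U : Submodule ℚ V} {n : ℕ} {v : V} (h : v ∈ U ⊔ D n) :
    ∃ u ∈ U, ∀ i < n, v.1 i = u.1 i ∧ v.2 i = u.2 i := by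
  obtain ⟨u, hu, w, hw, rfl⟩ := Submodule.mem_sup.1 h
  refine ⟨u, hu, fun i hi => ?_⟩
  obtain ⟨h1, h2⟩ := mem_D.1 hw i hi
  simp [h1, h2]

theorem top_of {U U' : Submodule ℚ V} (h : ∀ v : V, ∃ u ∈ U, v - u ∈ U') : U ⊔ U' = ⊤ := by
  rw [eq_top_iff]
  intro v _
  obtain ⟨u, h1, h2⟩ := h v
  exact Submodule.mem_sup.2 ⟨u, h1, _, h2, by simp⟩

theorem not_hopf {K : Type*} [CompleteLattice K] (f : LatticeHom LL K)
    (hf : Function.Injective f) : ¬ Hopf K := by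
  intro h
  have tAB : sA ⊔ sB = ⊤ := top_of fun v => ⟨(v.1, 0), rfl, show v.1 - v.1 = 0 from sub_self _⟩
  have tCA : sC ⊔ sA = ⊤ := top_of fun v => ⟨(v.2, v.2), rfl, show v.2 - v.2 = 0 from sub_self _⟩
  have tCB : sC ⊔ sB = ⊤ := top_of fun v => ⟨(v.1, v.1), rfl, show v.1 - v.1 = 0 from sub_self _⟩
  have tGB : sG ⊔ sB = ⊤ := top_of fun v =>
    ⟨(v.1, fun i => v.1 (i + 1)), fun _ => rfl, show v.1 - v.1 = 0 from sub_self _⟩
  have tGA : sG ⊔ sA = ⊤ := top_of fun v =>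
    ⟨(fun i => v.2 (i - 1), v.2), fun _ => rfl, show v.2 - v.2 = 0 from sub_self _⟩
  have iAB : Ph f sA ⊓ Ph f sB = oo f := Ph_inf f (by
    rintro n v ⟨h1, h2⟩
    obtain ⟨u, hu, h1⟩ := sup_D h1
    obtain ⟨w, hw, h2⟩ := sup_D h2
    refine mem_D.2 fun i hi => ⟨?_, ?_⟩
    · rw [(h2 i (by omega)).1]; exact congrFun hw i
    · rw [(h1 i (by omega)).2]; exact congrFun hu i)
  have iCA : Ph f sC ⊓ Ph f sA = oo f := Ph_inf f (by
    rintro n v ⟨h1, h2⟩
    obtain ⟨u, hu, h1⟩ := sup_D h1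
    obtain ⟨w, hw, h2⟩ := sup_D h2
    refine mem_D.2 fun i hi => ?_
    have a1 := h1 i (by omega)
    have a2 := h2 i (by omega)
    have a3 : u.2 i = u.1 i := congrFun hu i
    have a4 : w.2 i = 0 := congrFun hw i
    constructor <;> linarith [a1.1, a1.2, a2.1, a2.2])
  have iCB : Ph f sC ⊓ Ph f sB = oo f := Ph_inf f (by
    rintro n v ⟨h1, h2⟩
    obtain ⟨u, hu, h1⟩ := sup_D h1
    obtain ⟨w, hw, h2⟩ := sup_D h2
    refine mem_D.2 fun i hi => ?_
    have a1 := h1 i (by omega)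
    have a2 := h2 i (by omega)
    have a3 : u.2 i = u.1 i := congrFun hu i
    have a4 : w.1 i = 0 := congrFun hw i
    constructor <;> linarith [a1.1, a1.2, a2.1, a2.2])
  have iGB : Ph f sG ⊓ Ph f sB = oo f := Ph_inf f (by
    rintro n v ⟨h1, h2⟩
    obtain ⟨u, hu, h1⟩ := sup_D h1
    obtain ⟨w, hw, h2⟩ := sup_D h2
    refine mem_D.2 fun i hi => ?_
    have a1 := h1 i (by omega)
    have a2 := h2 i (by omega)
    have b1 := h1 (i + 1) (by omega)
    have b2 := h2 (i + 1) (by omega)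
    have a3 : u.2 i = u.1 (i + 1) := hu i
    have a4 : w.1 i = 0 := congrFun hw i
    have a5 : w.1 (i + 1) = 0 := congrFun hw (i + 1)
    constructor <;> linarith [a1.1, a1.2, a2.1, a2.2, b1.1, b2.1])
  have key := h (Ph f sA) (Ph f sB) (Ph f sC) (Ph f sG) (by rw [iCA, iAB]) (by rw [iCB, iAB])
    (by rw [iGB, iAB]) (by rw [Ph_sup, Ph_sup, tCA, tAB]) (by rw [Ph_sup, Ph_sup, tCB, tAB])
    (by rw [Ph_sup, Ph_sup, tGB, tAB]) (by rw [Ph_sup, Ph_sup, tGA, tAB])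
  let e : V := (fun i => if i = 0 then 1 else 0, 0)
  have he : FiniteDimensional ℚ (Submodule.span ℚ {e}) := inferInstance
  have h1 : f ⟨_, Or.inl he⟩ ≤ f (DL 1) := by
    refine le_trans ?_ (iInf_le (fun n => f (DL n)) 1)
    show _ ≤ oo f
    rw [← iAB, ← key]
    refine le_inf (le_Ph f he ?_) (le_Ph f he ?_)
    · rw [Submodule.span_singleton_le_iff_mem]
      intro i
      simp [e]
    · rw [Submodule.span_singleton_le_iff_mem]
      rfl
  have h2 : (⟨_, Or.inl he⟩ : LL) ⊓ DL 1 = ⟨_, Or.inl he⟩ := hf (by rw [map_inf, inf_eq_left.2 h1])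
  have h3 : Submodule.span ℚ {e} ≤ D 1 := inf_eq_left.1 (congrArg Subtype.val h2)
  have h4 := (mem_D.1 (h3 (Submodule.mem_span_singleton_self e)) 0 (by omega)).1
  simp [e] at h4

end H77.Qv
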