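import Mathlib

namespace H77.Qv

universe u v

/-- Lattice terms in the variables `0, 1, 2, …`. -/
inductive Tm : Type
  | var : ℕ → Tm
  | inf : Tm → Tm → Tm
  | sup : Tm → Tm → Tm

/-- The value of a term under an assignment. -/
def Tm.eval {K : Type u} [Lattice K] (x : ℕ → K) : Tm → K
  | Tm.var n => x n
  | Tm.inf s t => s.eval x ⊓ t.eval x
  | Tm.sup s t => s.eval x ⊔ t.eval x

/-- The quasi-identity with hypotheses `H` and conclusion `c` holds in `K`. -/
def Holds (K : Type u) [Lattice K] (H : List (Tm × Tm)) (c : Tm × Tm) : Prop :=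
  ∀ x : ℕ → K, (∀ p ∈ H, p.1.eval x = p.2.eval x) → c.1.eval x = c.2.eval x

/-- `K` lies in the quasivariety generated by `L`. -/
def InQ (K : Type u) [Lattice K] (L : Type v) [Lattice L] : Prop :=
  ∀ H c, Holds L H c → Holds K H c

end H77.Qv
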