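import Mathlib

set_option autoImplicit false

namespace Pool.Agent.H77.Qw

open Polynomial Set Filter Topology

section
variable {R : Type} [CommRing R]

noncomputable def sh (R : Type) [CommRing R] : Module.End R (ℤ → R) := LinearMap.funLeft R R (· + 1)

noncomputable def act (p : R[X]) (f : ℤ → R) : ℤ → R := aeval (sh R) p f

theorem act_mul (p q : R[X]) (f : ℤ → R) : act (p * q) f = act p (act q f) := by simp [act]
theorem act_add (p q : R[X]) (f : ℤ → R) (i : ℤ) : act (p + q) f i = act p f i + act q f i := by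
  simp [act]
theorem act_sub (p q : R[X]) (f : ℤ → R) (i : ℤ) : act (p - q) f i = act p f i - act q f i := by
  simp [act]
theorem act_X (f : ℤ → R) (i : ℤ) : act X f i = f (i + 1) := by simp [act, sh]
theorem act_C (c : R) (f : ℤ → R) (i : ℤ) : act (C c) f i = c * f i := by simp [act]
theorem act_zero (f : ℤ → R) (i : ℤ) : act 0 f i = 0 := by simp [act]

theorem sh_pow (k : ℕ) (f : ℤ → R) (i : ℤ) : (sh R ^ k) f i = f (i + k) := by
  induction k generalizing i with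
  | zero => simp
  | succ k ih => rw [pow_succ', Module.End.mul_apply, sh, LinearMap.funLeft_apply, ← sh, ih]; congr 1; push_cast; ring

theorem act_pow (k : ℕ) (f : ℤ → R) (i : ℤ) : act (X ^ k) f i = f (i + k) := by simp [act, sh_pow]

theorem act_sum {p : R[X]} {n : ℕ} (h : p.natDegree ≤ n) (f : ℤ → R) (i : ℤ) :
    act p f i = ∑ k ∈ Finset.range (n + 1), p.coeff k * f (i + k) := by
  simp [act, aeval_eq_sum_range' (Nat.lt_succ_of_le h), sh_pow]

theorem act_aff (p : R[X]) (f : ℤ → R) (c : R) (s i : ℤ) :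
    act p (fun i => c * f (i + s)) i = c * act p f (i + s) := by
  simp only [act_sum le_rfl, Finset.mul_sum, add_right_comm i s, mul_left_comm]

theorem act_congr {p : R[X]} {n : ℕ} (h : p.natDegree ≤ n) {f g : ℤ → R} {i : ℤ}
    (e : ∀ j, i ≤ j → j ≤ i + n → f j = g j) : act p f i = act p g i := by
  simp only [act_sum h]
  exact Finset.sum_congr rfl fun k hk => by
    rw [e _ (by omega) (by have := Finset.mem_range.1 hk; omega)]

theorem act_rev {p : R[X]} {n : ℕ} (h : p.natDegree ≤ n) (f : ℤ → R) (i : ℤ) :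
    act p (fun i => f (-i)) i = act (reflect n p) f (-i - n) := by
  rw [act_sum h, act_sum (natDegree_reflect_le.trans (max_le le_rfl h)), ← Finset.sum_range_reflect]
  refine Finset.sum_congr rfl fun k hk => ?_
  have := Finset.mem_range.1 hk
  rw [coeff_reflect, revAt_le (by omega)]
  congr 2
  omega

end

def Good {R : Type} [CommRing R] [LE R] (Φ : Set R[X]) (L : ℕ) (f : ℤ → R) : Prop :=
  ∀ p ∈ Φ, ∀ i j : ℤ, |i - j| ≤ (L : ℤ) → 0 ≤ act p f i * act p f j

variable {Φ : Set ℝ[X]} {L D : ℕ} {f g : ℤ → ℝ}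

theorem Good.aff (h : Good Φ L f) (c : ℝ) (s : ℤ) : Good Φ L fun i => c * f (i + s) :=
  fun p hp i j k => by
    rw [act_aff, act_aff, mul_mul_mul_comm]
    exact mul_nonneg (mul_self_nonneg c) (h p hp _ _ (by simpa using k))

theorem Good.rev (hD : ∀ p ∈ Φ, p.natDegree ≤ D) (h : Good (reflect D '' Φ) L f) :
    Good Φ L fun i => f (-i) := fun p hp i j k => by
  rw [act_rev (hD p hp), act_rev (hD p hp)]
  exact h _ (mem_image_of_mem _ hp) _ _ (by rw [abs_le] at k ⊢; omega)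

theorem Good.glue (hD : ∀ p ∈ Φ, p.natDegree ≤ D) (h : Good Φ L f) (h' : Good Φ L g) {N : ℤ}
    {u : ℤ → ℝ} (e : ∀ i ≤ N + L + D, u i = f i) (e' : ∀ i, N ≤ i → u i = g i) : Good Φ L u := by
  intro p hp i j k
  have k' := abs_le.1 k
  by_cases c : i ≤ N ∨ j ≤ N
  · rw [act_congr (hD p hp) fun x _ _ => e x (by omega),
      act_congr (hD p hp) fun x _ _ => e x (by omega)]
    exact h p hp i j k
  · rw [act_congr (hD p hp) fun x _ _ => e' x (by omega),
      act_congr (hD p hp) fun x _ _ => e' x (by omega)]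
    exact h' p hp i j k

def Near (ρ ε : ℝ) (f : ℤ → ℝ) : Prop := ∀ i, 0 ≤ f i ∧ |f (i + 1) - ρ * f i| ≤ ε * f i

theorem approx {ρ : ℝ} (hρ : 0 ≤ ρ) (p : ℝ[X]) : ∀ η, 0 < η → ∀ᶠ ε in 𝓝[>] (0 : ℝ), ∀ f, Near ρ ε f →
    ∀ i, |act p f i - p.eval ρ * f i| ≤ η * f i := by
  induction p using Polynomial.recOnHorner with
  | M0 => exact fun η h => .of_forall fun ε f hf i => by simpa [act_zero] using mul_nonneg h.le (hf i).1
  | MC p a _ _ ih =>
    exact fun η h => (ih η h).mono fun ε k f hf i => by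
      simpa [act_add, act_C, add_mul] using k f hf i
  | MX p _ ih =>
    intro η h
    have t : Tendsto (fun ε : ℝ => |p.eval ρ| * ε) (𝓝[>] 0) (𝓝 0) :=
      (Continuous.tendsto' (by fun_prop) 0 0 (by simp)).mono_left nhdsWithin_le_nhds
    filter_upwards [ih (η / 2 / (ρ + 1)) (by positivity), t (Iic_mem_nhds (half_pos h)),
      nhdsWithin_le_nhds (Iic_mem_nhds one_pos)] with ε k k1 k2 f hf i
    have k1 : |p.eval ρ| * ε ≤ η / 2 := k1
    have k2 : ε ≤ 1 := k2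
    have a := k f hf (i + 1)
    have b : f (i + 1) ≤ (ρ + 1) * f i := by nlinarith [(abs_le.1 (hf i).2).2, (hf i).1]
    have c : |p.eval ρ * (f (i + 1) - ρ * f i)| ≤ η / 2 * f i := by
      rw [abs_mul]
      nlinarith [mul_le_mul_of_nonneg_left (hf i).2 (abs_nonneg (p.eval ρ)), (hf i).1]
    have d := mul_le_mul_of_nonneg_left b (show 0 ≤ η / 2 / (ρ + 1) by positivity)
    rw [← mul_assoc, div_mul_cancel₀ _ (by positivity)] at d
    rw [mul_comm p, act_mul, act_X, eval_mul, eval_X]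
    rw [abs_le] at a c ⊢
    constructor <;> nlinarith [a.1, a.2, c.1, c.2]

theorem sign {ρ : ℝ} (hρ : 0 ≤ ρ) {p : ℝ[X]} (h : p.eval ρ ≠ 0) : ∀ᶠ ε in 𝓝[>] (0 : ℝ), ∀ f,
    Near ρ ε f → ∀ i j, 0 ≤ act p f i * act p f j := by
  refine (approx hρ p _ (abs_pos.2 h)).mono fun ε k f hf i j => ?_
  have a := abs_le.1 (k f hf i)
  have b := abs_le.1 (k f hf j)
  rcases h.lt_or_gt with h | h
  · rw [abs_of_neg h] at a b
    exact mul_nonneg_of_nonpos_of_nonpos (by linarith) (by linarith)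
  · rw [abs_of_pos h] at a b
    exact mul_nonneg (by linarith) (by linarith)

def Tr (Φ : Set ℝ[X]) (L : ℕ) (r s : ℝ) : Prop := ∃ (f : ℤ → ℝ) (M N : ℤ) (A C : ℝ), 0 < A ∧ 0 < C ∧
  (∀ i ≤ M, f i = A * r ^ i) ∧ (∀ i, N ≤ i → f i = C * s ^ i) ∧
  (∀ i, 0 ≤ f i ∧ s * f i ≤ f (i + 1) ∧ f (i + 1) ≤ r * f i) ∧ Good Φ L f

theorem Tr.rev {r s : ℝ} (hD : ∀ p ∈ Φ, p.natDegree ≤ D) (h : Tr (reflect D '' Φ) L r s)
    (hr : 0 < r) (hs : 0 < s) : Tr Φ L s⁻¹ r⁻¹ := by
  obtain ⟨f, M, N, A, C, h1, h2, h3, h4, h5, h6⟩ := h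
  refine ⟨_, -N, -M, C, A, h2, h1, fun i hi => by simp [h4 (-i) (by omega)],
    fun i hi => by simp [h3 (-i) (by omega)], fun i => ⟨(h5 _).1, ?_, ?_⟩, h6.rev hD⟩
  · simpa [inv_mul_le_iff₀ hr] using (h5 (-(i + 1))).2.2
  · simpa [le_inv_mul_iff₀ hs] using (h5 (-(i + 1))).2.1

theorem Tr.trans {r s u : ℝ} (hD : ∀ p ∈ Φ, p.natDegree ≤ D) (h : Tr Φ L r s) (h' : Tr Φ L s u)
    (hs : 0 < s) (hr : s ≤ r) (hu : u ≤ s) : Tr Φ L r u := by
  obtain ⟨f, M, N, A, C, h1, h2, h3, h4, h5, h6⟩ := h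
  obtain ⟨g, M', N', A', C', k1, k2, k3, k4, k5, k6⟩ := h'
  obtain ⟨t, ht⟩ : ∃ t, t = M' - (N + L + D) := ⟨_, rfl⟩
  obtain ⟨c, hc, e⟩ : ∃ c, 0 < c ∧ c * (A' * s ^ t) = C :=
    ⟨C / (A' * s ^ t), by positivity, div_mul_cancel₀ _ (by positivity)⟩
  let w : ℤ → ℝ := fun i => if i ≤ N + L + D then f i else c * g (i + t)
  have w1 : ∀ i ≤ N + L + D, w i = f i := fun i hi => if_pos hi
  have w2 : ∀ i, N ≤ i → w i = c * g (i + t) := fun i hi => by
    by_cases k : i ≤ N + L + D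
    · rw [w1 i k, h4 i hi, k3 _ (by omega), ← e, zpow_add₀ hs.ne']; ring
    · exact if_neg k
  obtain ⟨B, B1, B2⟩ : ∃ B, 0 < B ∧ ∀ i, 0 < i → 0 < i + t → N' ≤ i + t → c * g (i + t) = B * u ^ i := by
    have : 0 ≤ u ^ (2 * (max N' 1) + 1) := by
      have := (k5 (2 * (max N' 1) + 1)).1
      rwa [k4 _ (by omega), mul_nonneg_iff_of_pos_left k2] at this
    rcases lt_trichotomy u 0 with h | rfl | h
    · exact absurd (Odd.zpow_neg ⟨_, rfl⟩ h) this.not_gt
    · exact ⟨1, one_pos, fun i a b d => by simp [k4 _ d, zero_zpow _ a.ne', zero_zpow _ b.ne']⟩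
    · exact ⟨c * C' * u ^ t, by positivity, fun i a b d => by rw [k4 _ d, zpow_add₀ h.ne']; ring⟩
  refine ⟨w, min M N, max (max N 1) (max N' 1 - t), A, B, h1, B1,
    fun i hi => (w1 i (by omega)).trans (h3 i (by omega)),
    fun i hi => (w2 i (by omega)).trans (B2 i (by omega) (by omega) (by omega)), fun i => ?_,
    h6.glue hD (k6.aff c t) w1 w2⟩
  rcases lt_or_ge i N with k | k
  · rw [w1 i (by omega), w1 _ (by omega)]
    exact ⟨(h5 i).1, (mul_le_mul_of_nonneg_right hu (h5 i).1).trans (h5 i).2.1, (h5 i).2.2⟩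
  · rw [w2 i k, w2 _ (by omega), add_right_comm]
    obtain ⟨a, b, d⟩ := k5 (i + t)
    exact ⟨by positivity, by nlinarith, by nlinarith [mul_le_mul_of_nonneg_right hr a]⟩

theorem cut {r : ℝ} (hr : 0 < r) : ∃ f, Near 0 r f ∧ (Good Φ L f → Tr Φ L r 0) := by
  have : ∀ i : ℤ, 0 ≤ (if i ≤ 0 then r ^ i else 0) ∧ (if i + 1 ≤ 0 then r ^ (i + 1) else 0) ≤
      r * if i ≤ 0 then r ^ i else 0 := fun i => by
    refine ⟨by positivity, ?_⟩
    split_ifs
    · rw [zpow_add_one₀ hr.ne', mul_comm]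
    · omega
    · positivity
    · simp
  exact ⟨fun i => if i ≤ 0 then r ^ i else 0, fun i => ⟨(this i).1, by
    rw [zero_mul, sub_zero, abs_of_nonneg (this _).1]; exact (this i).2⟩, fun h =>
    ⟨_, 0, 1, 1, 1, one_pos, one_pos, fun i hi => by simp [hi], fun i hi => by
      rw [if_neg (by omega), zero_zpow _ (by omega), mul_zero],
      fun i => ⟨(this i).1, by simpa using (this (i + 1)).1, (this i).2⟩, h⟩⟩

theorem base (hΦ : Φ.Finite) : ∀ᶠ ε in 𝓝[>] (0 : ℝ), Tr Φ L ε 0 := by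
  have : ∀ p ∈ Φ, ∀ᶠ ε in 𝓝[>] (0 : ℝ), ∀ f, Near 0 ε f → ∀ i j, 0 ≤ act p f i * act p f j := by
    intro p _
    by_cases hp : p = 0
    · simp [hp, act_zero]
    obtain ⟨q, h1, h2⟩ := exists_eq_pow_rootMultiplicity_mul_and_not_dvd p hp 0
    refine (sign le_rfl (mt dvd_iff_isRoot.2 h2)).mono fun ε k f hf i j => ?_
    rw [h1, C_0, sub_zero, act_mul, act_pow, act_pow]
    exact k f hf _ _
  filter_upwards [(eventually_all_finite hΦ).2 this, self_mem_nhdsWithin] with ε k hε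
  obtain ⟨f, h1, h2⟩ := cut (Φ := Φ) (L := L) hε
  exact h2 fun p hp i j _ => k p hp f h1 i j

theorem step (ih : ∀ Ψ : Set ℝ[X], Ψ.Finite → (∀ p ∈ Ψ, p.degree < D) → ∀ r, 0 < r → Tr Ψ L r 0)
    (hΦ : Φ.Finite) (hD : ∀ p ∈ Φ, p.natDegree ≤ D) {ρ : ℝ} (hρ : 0 < ρ) :
    ∃ ε, 0 < ε ∧ ∀ r ∈ Icc ρ (ρ + ε), Tr Φ L r ρ := by
  have : ∀ p ∈ Φ, ∀ᶠ ε in 𝓝[>] (0 : ℝ), p.eval ρ ≠ 0 → ∀ f, Near ρ ε f →
      ∀ i j, 0 ≤ act p f i * act p f j := fun p _ => by
    by_cases hp : p.eval ρ = 0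
    · simp [hp]
    · exact (sign hρ.le hp).mono fun ε k _ => k
  obtain ⟨ε, k, hε⟩ := (((eventually_all_finite hΦ).2 this).and self_mem_nhdsWithin).exists
  refine ⟨ε, hε, fun r hr => ?_⟩
  have r0 := hρ.trans_le hr.1
  obtain ⟨g, M, N, A, C', h1, -, h3, h4, h5, h6⟩ := ih ((· /ₘ (X - C ρ)) '' Φ) (hΦ.image _) (by
    rintro _ ⟨p, hp, rfl⟩
    by_cases e : p = 0
    · simp [e]
    · exact (degree_divByMonic_lt p _ e (by simp)).trans_le
        (degree_le_of_natDegree_le (hD p hp))) r r0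
  let F : ℕ → ℝ := fun k => Nat.rec (A * r ^ M) (fun k x => ρ * x + (r - ρ) * g (M + k)) k
  let f : ℤ → ℝ := fun i => if i ≤ M then A * r ^ i else F (i - M).toNat
  have f0 : ∀ i ≤ M, f i = A * r ^ i := fun i hi => if_pos hi
  have f1 : ∀ k : ℕ, f (M + k) = F k := fun k => by
    rcases k with _ | k
    · simp [f0, F]
    · refine (if_neg (by omega)).trans ?_
      rw [add_sub_cancel_left, Int.toNat_natCast]
  have f2 : ∀ i, f (i + 1) = ρ * f i + (r - ρ) * g i := fun i => by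
    rcases lt_or_ge i M with h | h
    · rw [f0 _ h, f0 _ h.le, h3 _ h.le, zpow_add_one₀ r0.ne']; ring
    · obtain ⟨k, rfl⟩ := Int.le.dest h
      rw [add_assoc, ← Nat.cast_succ, f1, f1]
  have d := sub_nonneg.2 hr.1
  have f3 : ∀ i, 0 < f i ∧ g i ≤ f i := fun i => by
    rcases le_total i M with h | h
    · rw [f0 i h, h3 i h]; exact ⟨by positivity, le_rfl⟩
    · induction i, h using Int.le_induction with
      | base => rw [f0 _ le_rfl, h3 _ le_rfl]; exact ⟨by positivity, le_rfl⟩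
      | succ i _ ih =>
        rw [f2]
        exact ⟨add_pos_of_pos_of_nonneg (mul_pos hρ ih.1) (mul_nonneg d (h5 i).1),
          by nlinarith [(h5 i).2.2, ih.2]⟩
  have f4 : ∀ i, 0 ≤ f i ∧ ρ * f i ≤ f (i + 1) ∧ f (i + 1) ≤ r * f i := fun i => by
    rw [f2]
    exact ⟨(f3 i).1.le, by nlinarith [(h5 i).1], by nlinarith [(f3 i).2]⟩
  refine ⟨f, M, max N 1, A, f (max N 1) / ρ ^ max N 1, h1, div_pos (f3 _).1 (by positivity), f0,
    fun i hi => ?_, f4, fun p hp i j hij => ?_⟩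
  · induction i, hi using Int.le_induction with
    | base => rw [div_mul_cancel₀ _ (by positivity)]
    | succ i hi ih =>
      rw [f2, h4 i (by omega), zero_zpow _ (by omega), ih, zpow_add_one₀ hρ.ne']; ring
  · by_cases e : p.eval ρ = 0
    · have : act (X - C ρ) f = fun i => (r - ρ) * g (i + 0) := funext fun i => by
        rw [act_sub, act_X, act_C, f2]; simp
      rw [← mul_divByMonic_eq_iff_isRoot.2 e, mul_comm (X - C ρ), act_mul, this]
      exact h6.aff _ _ _ (mem_image_of_mem _ hp) i j hij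
    · refine k p hp e f (fun i => ⟨(f4 i).1, ?_⟩) i j
      rw [abs_of_nonneg (sub_nonneg.2 (f4 i).2.1)]
      nlinarith [(f4 i).2.2, (f4 i).1, hr.2]

theorem half (D : ℕ) : ∀ Φ : Set ℝ[X], Φ.Finite → (∀ p ∈ Φ, p.degree < D) → ∀ r, 0 < r →
    Tr Φ L r 0 := by
  induction D with
  | zero =>
    intro Φ _ h r hr
    obtain ⟨f, -, h2⟩ := cut (Φ := Φ) (L := L) hr
    exact h2 fun p hp i j _ => by
      simp [show p = 0 by simpa using h p hp, act_zero]
  | succ D ih =>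
    intro Φ hΦ h
    have hD : ∀ p ∈ Φ, p.natDegree ≤ D := fun p hp =>
      natDegree_le_of_degree_le (Order.le_of_lt_succ (h p hp))
    by_contra hc
    push Not at hc
    obtain ⟨e, e1, e2⟩ := mem_nhdsGT_iff_exists_Ioc_subset.1 (base (L := L) hΦ)
    have b : e ∈ lowerBounds {r | 0 < r ∧ ¬Tr Φ L r 0} := fun r hr =>
      not_lt.1 fun k => hr.2 (e2 ⟨hr.1, k.le⟩)
    obtain ⟨ρ, p1, p2⟩ := Real.exists_isGLB (s := {r | 0 < r ∧ ¬Tr Φ L r 0}) hc ⟨e, b⟩
    have p0 : 0 < ρ := lt_of_lt_of_le e1 (p2 b)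
    obtain ⟨ε, h1, h2⟩ := step ih hΦ hD p0
    obtain ⟨δ, h3, h4⟩ := step ih (hΦ.image (reflect D)) (by
      rintro _ ⟨p, hp, rfl⟩
      exact natDegree_reflect_le.trans (max_le le_rfl (hD p hp))) (inv_pos.2 p0)
    have s0 : 0 < ρ⁻¹ + δ := by positivity
    have s1 : (ρ⁻¹ + δ)⁻¹ < ρ := inv_lt_of_inv_lt₀ p0 (by linarith)
    have t := (h4 _ ⟨by linarith, le_rfl⟩).rev hD s0 (inv_pos.2 p0)
    rw [inv_inv] at t
    have t' := t.trans hD (by_contra fun k => s1.not_ge (p1 ⟨inv_pos.2 s0, k⟩)) (inv_pos.2 s0)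
      s1.le (inv_pos.2 s0).le
    have : ρ + ε ≤ ρ := p2 fun r hr => not_lt.1 fun k =>
      hr.2 ((h2 r ⟨p1 hr, k.le⟩).trans hD t' p0 (p1 hr) p0.le)
    linarith

theorem real (hΦ : Φ.Finite) : ∃ f : ℤ → ℝ, (Function.support f).Finite ∧ f ≠ 0 ∧ Good Φ L f := by
  obtain ⟨D, hD⟩ := (hΦ.image natDegree).bddAbove
  have hD : ∀ p ∈ Φ, p.natDegree ≤ D := fun p hp => hD (mem_image_of_mem _ hp)
  have k : ∀ p : ℝ[X], p.natDegree ≤ D → p.degree < (D + 1 : ℕ) := fun p hp =>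
    (degree_le_of_natDegree_le hp).trans_lt (by exact_mod_cast D.lt_succ_self)
  obtain ⟨g, M', N', A', C', k1, -, k3, k4, -, k6⟩ := half (L := L) _ Φ hΦ (fun p hp => k p (hD p hp)) 1 one_pos
  obtain ⟨f, M, N, A, C, h1, -, h3, h4, -, h6⟩ := half (L := L) _ _ (hΦ.image (reflect D)) (by
    rintro _ ⟨p, hp, rfl⟩
    exact k _ (natDegree_reflect_le.trans (max_le le_rfl (hD p hp)))) 1 one_pos
  obtain ⟨t, ht⟩ : ∃ t, t = M' - (-M + L + D) := ⟨_, rfl⟩
  let w : ℤ → ℝ := fun i => if i ≤ -M + L + D then f (-i) else A / A' * g (i + t)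
  have w1 : ∀ i ≤ -M + L + D, w i = f (-i) := fun i hi => if_pos hi
  have w2 : ∀ i, -M ≤ i → w i = A / A' * g (i + t) := fun i hi => by
    by_cases k : i ≤ -M + L + D
    · rw [w1 i k, h3 _ (by omega), k3 _ (by omega)]; simp [k1.ne']
    · exact if_neg k
  refine ⟨w, (finite_Icc (min (-M) (-max N 1)) (max (-M) (max N' 1 - t))).subset fun i hi => ?_,
    fun e => ?_, (h6.rev hD).glue hD (k6.aff _ t) w1 w2⟩
  · refine ⟨not_lt.1 fun c => hi ?_, not_lt.1 fun c => hi ?_⟩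
    · rw [w1 i (by omega), h4 _ (by omega), zero_zpow _ (by omega), mul_zero]
    · rw [w2 i (by omega), k4 _ (by omega), zero_zpow _ (by omega), mul_zero, mul_zero]
  · have := w1 (-M) (by omega)
    rw [e, h3 _ (by omega)] at this
    simp [h1.ne] at this

theorem rat_fun {A : Set ℝ} (hA : A.Finite) : ∃ φ : ℝ →ₗ[ℚ] ℚ, ∀ a ∈ A, 0 < a → 0 < φ a := by
  let b := Module.Basis.ofVectorSpace ℚ ℝ
  have o : IsOpen (⋂ a ∈ A ∩ Ioi 0, {x : _ → ℝ | 0 < (b.repr a).sum fun i c => c * x i}) :=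
    (hA.inter_of_left _).isOpen_biInter fun a _ => isOpen_lt continuous_const (by
      unfold Finsupp.sum; fun_prop)
  obtain ⟨q, hq⟩ := (DenseRange.piMap fun _ => Rat.denseRange_cast (𝕜 := ℝ)).exists_mem_open o
    ⟨b, mem_iInter₂.2 fun a ha => by
      have := b.linearCombination_repr a
      simp only [Finsupp.linearCombination_apply, Rat.smul_def] at this
      exact mem_setOf.2 (this.symm ▸ ha.2)⟩
  refine ⟨b.constr ℚ q, fun a h1 h2 => ?_⟩
  have := mem_iInter₂.1 hq a ⟨h1, h2⟩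
  simp only [mem_setOf, Pi.map_apply, Finsupp.sum] at this
  rw [Module.Basis.constr_apply]
  exact_mod_cast this

theorem act_fin {R : Type} [CommRing R] {f : ℤ → R} (h : (Function.support f).Finite) (p : R[X]) :
    (Function.support (act p f)).Finite := by
  refine ((Finset.range (p.natDegree + 1)).finite_toSet.biUnion fun k _ =>
    h.preimage (add_left_injective (k : ℤ)).injOn).subset fun i hi => ?_
  rw [Function.mem_support, act_sum le_rfl] at hi
  obtain ⟨k, h1, h2⟩ := Finset.exists_ne_zero_of_sum_ne_zero hi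
  exact mem_biUnion h1 (right_ne_zero_of_mul h2)

theorem int {Φ : Set ℤ[X]} (hΦ : Φ.Finite) (L : ℕ) :
    ∃ f : ℤ → ℤ, (Function.support f).Finite ∧ f ≠ 0 ∧ Good Φ L f := by
  obtain ⟨f, h1, h2, h3⟩ := real (L := L) (hΦ.image (Polynomial.map (Int.castRingHom ℝ)))
  obtain ⟨i0, h2⟩ := Function.ne_iff.1 h2
  obtain ⟨φ, hφ⟩ := rat_fun (A := (|·|) '' insert (f i0) (⋃ p ∈ Φ, act (p.map (Int.castRingHom ℝ)) f ''
    Function.support (act (p.map (Int.castRingHom ℝ)) f)))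
    (((hΦ.biUnion fun p _ => (act_fin h1 _).image _).insert _).image _)
  obtain ⟨c, hc⟩ := IsLocalization.exist_integer_multiples_of_finset (nonZeroDivisors ℤ)
    (h1.toFinset.image fun i => φ (f i))
  have c0 : ((c : ℤ) : ℚ) ≠ 0 := by simpa using nonZeroDivisors.coe_ne_zero c
  have : ∀ i, ∃ z : ℤ, (z : ℚ) = c * φ (f i) := fun i => by
    by_cases e : f i = 0
    · exact ⟨0, by simp [e]⟩
    · exact (hc _ (Finset.mem_image_of_mem _ (h1.mem_toFinset.2 e))).imp fun z hz => by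
        simpa using hz
  choose g hg using this
  have k : ∀ a, |a| ∈ _ → (0 < a → 0 < φ a) ∧ (a < 0 → φ a < 0) := fun a ha =>
    ⟨fun h => by simpa [abs_of_pos h] using hφ _ ha (abs_pos.2 h.ne'),
      fun h => by simpa [abs_of_neg h] using hφ _ ha (abs_pos.2 h.ne)⟩
  refine ⟨g, h1.subset fun i hi e => hi (by simpa [e] using hg i), fun e => ?_, fun p hp i j hij => ?_⟩
  · have a := k _ (mem_image_of_mem _ (mem_insert _ _))
    have := hg i0
    simp only [e, Pi.zero_apply, Int.cast_zero, zero_eq_mul, c0, false_or] at this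
    exact (Ne.lt_or_gt h2).elim (fun h => (a.2 h).ne this) fun h => (a.1 h).ne' this
  have e : ∀ i, ((act p g i : ℤ) : ℚ) = c * φ (act (p.map (Int.castRingHom ℝ)) f i) := fun i => by
    rw [act_sum le_rfl, act_sum natDegree_map_le]
    simp only [Finset.mul_sum, hg, coeff_map, eq_intCast, ← zsmul_eq_mul (f _), map_sum, map_zsmul,
      Int.cast_sum, Int.cast_mul, zsmul_eq_mul (φ _), mul_left_comm]
  have s : ∀ i, act (p.map (Int.castRingHom ℝ)) f i ≠ 0 → _ := fun i h =>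
    k _ (mem_image_of_mem _ (mem_insert_of_mem _ (mem_biUnion hp (mem_image_of_mem _ h))))
  have := h3 _ (mem_image_of_mem _ hp) i j hij
  rw [← Int.cast_nonneg_iff (R := ℚ), Int.cast_mul, e, e, mul_mul_mul_comm]
  refine mul_nonneg (mul_self_nonneg _) ?_
  have a := s i
  have b := s j
  generalize act _ f i = x at *
  generalize act _ f j = y at *
  rcases lt_trichotomy x 0 with u | rfl | u <;> rcases lt_trichotomy y 0 with v | rfl | v
  any_goals simp
  · exact (mul_pos_of_neg_of_neg ((a u.ne).2 u) ((b v.ne).2 v)).le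
  · exact absurd (mul_neg_of_neg_of_pos u v) this.not_gt
  · exact absurd (mul_neg_of_pos_of_neg u v) this.not_gt
  · exact (mul_pos ((a u.ne').1 u) ((b v.ne').1 v)).le

theorem seq : ∃ f : ℕ → ℤ → ℤ, (∀ n, (Function.support (f n)).Finite ∧ f n ≠ 0) ∧
    ∀ (p : ℤ[X]) (L : ℕ), ∀ᶠ n in atTop, ∀ i j : ℤ, |i - j| ≤ L →
      0 ≤ act p (f n) i * act p (f n) j := by
  haveI : Countable ℤ[X] := (AddMonoidAlgebra.coeff_injective.comp toFinsupp_injective).countable
  obtain ⟨e, he⟩ := exists_surjective_nat ℤ[X]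
  choose f h1 h2 h3 using fun n => int ((finite_Iic n).image e) n
  refine ⟨f, fun n => ⟨h1 n, h2 n⟩, fun p L => ?_⟩
  obtain ⟨m, rfl⟩ := he p
  filter_upwards [eventually_ge_atTop m, eventually_ge_atTop L] with n a b i j h
  exact h3 n _ (mem_image_of_mem _ a) i j (h.trans (by exact_mod_cast b))

end Pool.Agent.H77.Qw
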