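import Pool.Agent.H77.QwA

set_option autoImplicit false

namespace Pool.Agent.H77.Qw

open Polynomial Set Filter Function

def WW : Subgroup (Equiv.Perm (ℤ × ℤ)) where
  carrier := {σ | ∃ (n : ℤ) (f : ℤ → ℤ), (support f).Finite ∧ ∀ a b, σ (a, b) = (a + n, b + f a)}
  one_mem' := ⟨0, 0, by simp, by simp⟩
  mul_mem' := by
    rintro σ τ ⟨n, f, h1, h2⟩ ⟨m, g, h3, h4⟩
    refine ⟨m + n, fun a => g a + f (a + m), (h3.union (h1.preimage
      (add_left_injective m).injOn)).subset (support_add _ _), fun a b => ?_⟩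
    simp [h2, h4, add_assoc]
  inv_mem' := by
    rintro σ ⟨n, f, h1, h2⟩
    refine ⟨-n, fun a => -f (a + -n), (h1.preimage (add_left_injective (-n)).injOn).subset
      fun a ha => by simpa using ha, fun a b => ?_⟩
    rw [Equiv.Perm.inv_eq_iff_eq, h2]
    simp

def tp (g : WW) : ℤ := (g.1 (0, 0)).1
def bs (g : WW) (a : ℤ) : ℤ := (g.1 (a, 0)).2

theorem app (g : WW) (a b : ℤ) : g.1 (a, b) = (a + tp g, b + bs g a) := by
  obtain ⟨n, f, -, h⟩ := g.2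
  simp [tp, bs, h]

theorem fin (g : WW) : (support (bs g)).Finite := by
  obtain ⟨n, f, h1, h⟩ := g.2
  rwa [show bs g = f from funext fun a => by simp [bs, h]]

def mk (n : ℤ) (f : ℤ → ℤ) (h : (support f).Finite) : WW :=
  ⟨⟨fun p => (p.1 + n, p.2 + f p.1), fun p => (p.1 - n, p.2 - f (p.1 - n)), fun p => by simp,
    fun p => by simp⟩, n, f, h, fun _ _ => rfl⟩

@[simp] theorem tp_mk (n : ℤ) (f : ℤ → ℤ) (h) : tp (mk n f h) = n := zero_add n
@[simp] theorem bs_mk (n : ℤ) (f : ℤ → ℤ) (h) (a : ℤ) : bs (mk n f h) a = f a := zero_add _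

theorem tp_mul (g h : WW) : tp (g * h) = tp g + tp h := by
  change (g.1 (h.1 (0, 0))).1 = _
  simp [app, add_comm]

theorem bs_mul (g h : WW) (a : ℤ) : bs (g * h) a = bs h a + bs g (a + tp h) := by
  change (g.1 (h.1 (a, 0))).2 = _
  simp [app]

theorem tp_inv (g : WW) : tp g⁻¹ = -tp g := by
  have : tp (1 : WW) = _ := inv_mul_cancel g ▸ tp_mul g⁻¹ g
  exact eq_neg_of_add_eq_zero_left this.symm

theorem bs_inv (g : WW) (a : ℤ) : bs g⁻¹ a = -bs g (a + -tp g) := by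
  have : bs (1 : WW) a = _ := mul_inv_cancel g ▸ bs_mul g g⁻¹ a
  exact tp_inv g ▸ eq_neg_of_add_eq_zero_left this.symm

def ev (g : WW) (ω : ℤ × ℤ) : ℤ ×ₗ ℤ := toLex (g.1 ω)

noncomputable instance : Max WW := ⟨fun g h => if tp g < tp h then h else if tp h < tp g then g else
  mk (tp g) (fun a => bs g a ⊔ bs h a) (((fin g).union (fin h)).subset (support_sup _ _))⟩
noncomputable instance : Min WW := ⟨fun g h => if tp g < tp h then g else if tp h < tp g then h else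
  mk (tp g) (fun a => bs g a ⊓ bs h a) (((fin g).union (fin h)).subset (support_inf _ _))⟩
instance : LE WW := ⟨fun g h => ev g ≤ ev h⟩
instance : LT WW := ⟨fun g h => ev g < ev h⟩

theorem ev_le {g h : WW} (k : tp g < tp h) : ev g ≤ ev h := fun ⟨a, b⟩ =>
  (Prod.Lex.toLex_lt_toLex.2 (Or.inl (by simpa [app] using k))).le

theorem ev_sup (g h : WW) : ev (g ⊔ h) = ev g ⊔ ev h := by
  change ev (ite _ _ _) = _
  split_ifs with h1 h2
  · exact (sup_eq_right.2 (ev_le h1)).symm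
  · exact (sup_eq_left.2 (ev_le h2)).symm
  · refine funext fun ⟨a, b⟩ => ?_
    simp only [Pi.sup_apply, ev, app, tp_mk, bs_mk, show tp h = tp g by omega]
    rcases le_total (bs g a) (bs h a) with k | k <;> simp [k, Prod.Lex.toLex_le_toLex]

theorem ev_inf (g h : WW) : ev (g ⊓ h) = ev g ⊓ ev h := by
  change ev (ite _ _ _) = _
  split_ifs with h1 h2
  · exact (inf_eq_left.2 (ev_le h1)).symm
  · exact (inf_eq_right.2 (ev_le h2)).symm
  · refine funext fun ⟨a, b⟩ => ?_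
    simp only [Pi.inf_apply, ev, app, tp_mk, bs_mk, show tp h = tp g by omega]
    rcases le_total (bs g a) (bs h a) with k | k <;> simp [k, Prod.Lex.toLex_le_toLex]

theorem ev_inj : Injective ev := fun _ _ h => Subtype.ext (Equiv.ext fun ω => congrFun h ω)

noncomputable instance : Lattice WW := ev_inj.lattice ev Iff.rfl Iff.rfl ev_sup ev_inf

theorem le_iff {g h : WW} : g ≤ h ↔ tp g < tp h ∨ tp g = tp h ∧ ∀ a, bs g a ≤ bs h a := by
  change (∀ ω, ev g ω ≤ ev h ω) ↔ _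
  simp only [Prod.forall, ev, app, Prod.Lex.toLex_le_toLex, add_lt_add_iff_left, add_right_inj,
    add_le_add_iff_left, forall_const, forall_or_left, forall_and]

instance : MulLeftMono WW := ⟨fun c a b h => by
  simp only [le_iff, tp_mul, bs_mul] at h ⊢
  exact h.imp (by omega) fun h => ⟨by omega, fun i => by simpa [h.1] using h.2 i⟩⟩
instance : MulRightMono WW := ⟨fun c _ _ h ω => h (c.1 ω)⟩

abbrev GG := Germ (atTop : Filter ℕ) WW

instance : MulLeftMono GG := ⟨fun c a b => Germ.inductionOn₃ c a b fun c _ _ h =>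
  Eventually.mono h fun n k => mul_le_mul_right k (c n)⟩
instance : MulRightMono GG := ⟨fun c a b => Germ.inductionOn₃ c a b fun c _ _ h =>
  Eventually.mono h fun n k => mul_le_mul_left k (c n)⟩

section E
variable {K K' : Type} [Group K] [Lattice K] {k m : ℕ}
  (u v : Fin (m + 1) → Fin (m + 1) → FreeGroup (Fin k))

def E (x : Fin k → K) : K := Finset.univ.sup' Finset.univ_nonempty fun i =>
  Finset.univ.inf' Finset.univ_nonempty fun j => FreeGroup.lift x (u i j)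

theorem E_app [Lattice K'] (φ : K → K') (h1 : ∀ a b, φ (a ⊔ b) = φ a ⊔ φ b)
    (h2 : ∀ a b, φ (a ⊓ b) = φ a ⊓ φ b) (x : Fin k → K) : φ (E u x) =
    Finset.univ.sup' Finset.univ_nonempty fun i =>
      Finset.univ.inf' Finset.univ_nonempty fun j => φ (FreeGroup.lift x (u i j)) := by
  rw [E, Finset.apply_sup'_eq_sup'_comp _ φ h1]
  exact Finset.sup'_congr _ rfl fun i _ => Finset.apply_inf'_eq_inf'_comp _ φ h2

omit [Lattice K] in
theorem lift_map [Group K'] (φ : K →* K') (x : Fin k → K) (w : FreeGroup (Fin k)) :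
    φ (FreeGroup.lift x w) = FreeGroup.lift (fun l => φ (x l)) w :=
  FreeGroup.lift_unique (φ.comp (FreeGroup.lift x)) (by simp)

theorem E_map [Group K'] [Lattice K'] (φ : K →* K') (h1 : ∀ a b, φ (a ⊔ b) = φ a ⊔ φ b)
    (h2 : ∀ a b, φ (a ⊓ b) = φ a ⊓ φ b) (x : Fin k → K) : φ (E u x) = E u fun l => φ (x l) := by
  simp only [E_app u φ h1 h2, lift_map]; rfl

def QI (K : Type) [Group K] [Lattice K] : Prop := ∀ x : Fin k → K, E u x = 1 → E v x = 1

theorem qW (h : ∀ x : Fin k → Equiv.Perm (ℤ × ℤ),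
    (∀ l, ∃ n : ℤ, ∃ f : ℤ →₀ ℤ, ∀ a b : ℤ, x l (a, b) = (a + n, b + f a)) →
    (∀ ω : ℤ × ℤ, Finset.univ.sup' Finset.univ_nonempty (fun i => Finset.univ.inf'
      Finset.univ_nonempty (fun j => toLex ((FreeGroup.lift x (u i j)) ω))) = toLex ω) →
    (∀ ω : ℤ × ℤ, Finset.univ.sup' Finset.univ_nonempty (fun i => Finset.univ.inf'
      Finset.univ_nonempty (fun j => toLex ((FreeGroup.lift x (v i j)) ω))) = toLex ω)) :
    QI u v WW := fun x hx => by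
  have e : ∀ u : Fin (m + 1) → Fin (m + 1) → FreeGroup (Fin k), ∀ ω, ev (E u x) ω = _ := fun u ω =>
    E_app u (ev · ω) (fun a b => congrFun (ev_sup a b) ω) (fun a b => congrFun (ev_inf a b) ω) x
  have l : ∀ w, (FreeGroup.lift x w).1 = _ := lift_map WW.subtype x
  simp only [ev, l] at e
  refine ev_inj (funext fun ω => (e v ω).trans (h _ (fun l => ⟨_, .ofSupportFinite _ (fin (x l)),
    app (x l)⟩) (fun ω => ?_) ω))
  exact (e u ω).symm.trans (by rw [hx]; rfl)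

theorem qG (h : QI u v K) : QI u v (Germ (atTop : Filter ℕ) K) := fun x hx => by
  have : ∀ l, ∃ X : ℕ → K, (X : Germ (atTop : Filter ℕ) K) = x l := fun l =>
    Germ.inductionOn (x l) fun X => ⟨X, rfl⟩
  choose X hX using this
  obtain rfl := funext hX
  have e := fun u => E_map (m := m) u (Germ.coeMulHom (M := K) (atTop : Filter ℕ)) (fun _ _ => rfl)
    (fun _ _ => rfl) X
  have d := fun u n => E_map (m := m) u (Pi.evalMonoidHom (fun _ : ℕ => K) n) (fun _ _ => rfl)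
    (fun _ _ => rfl) X
  simp only [Germ.coe_coeMulHom, Pi.evalMonoidHom_apply] at e d
  rw [← e, ← Germ.coe_one, Germ.coe_eq] at hx ⊢
  exact hx.mono fun n k => (d v n).trans (h _ ((d u n).symm.trans k))

end E

section H
variable (f : ℕ → ℤ → ℤ)

def MM : AddSubgroup (ℕ → ℤ → ℤ) where
  carrier := {m | ∃ (p : ℤ[X]) (s : ℤ), ∀ n j, m n j = act p (f n) (j - s)}
  zero_mem' := ⟨0, 0, fun _ _ => (act_zero _ _).symm⟩
  add_mem' := by
    rintro a b ⟨p, s, h⟩ ⟨q, t, k⟩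
    refine ⟨X ^ (max s t - s).toNat * p + X ^ (max s t - t).toNat * q, max s t, fun n j => ?_⟩
    rw [act_add, act_mul, act_mul, act_pow, act_pow, Pi.add_apply, Pi.add_apply, h, k]
    congr 2 <;> omega
  neg_mem' := by
    rintro a ⟨p, s, h⟩
    exact ⟨0 - p, s, fun n j => by rw [act_sub, act_zero, zero_sub, Pi.neg_apply, Pi.neg_apply, h]⟩

theorem MM_sh {m : ℕ → ℤ → ℤ} (h : m ∈ MM f) (k : ℤ) : (fun n j => m n (j + k)) ∈ MM f := by
  obtain ⟨p, s, h⟩ := h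
  exact ⟨p, s - k, fun n j => (h _ _).trans (by congr 1; ring)⟩

def P (x : ℕ → WW) : Prop := ∃ (k : ℤ) (S : Set (ℕ → ℤ → ℤ)), S.Finite ∧ (∀ m ∈ S, m ∈ MM f) ∧
  ∀ L : ℕ, ∀ᶠ n in atTop, tp (x n) = k ∧ ∀ i : ℤ, ∃ m ∈ S, ∀ j : ℤ, |i - j| ≤ (L : ℤ) →
    bs (x n) j = m n j

def HH : Subgroup GG where
  carrier := {y | ∃ x : ℕ → WW, P f x ∧ y = x}
  one_mem' := ⟨1, ⟨0, {0}, finite_singleton _, by simp, fun _ => .of_forall fun _ =>
    ⟨rfl, fun _ => ⟨0, rfl, fun _ _ => rfl⟩⟩⟩, rfl⟩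
  mul_mem' := by
    rintro _ _ ⟨x, ⟨k, S, h1, h2, h3⟩, rfl⟩ ⟨y, ⟨l, T, k1, k2, k3⟩, rfl⟩
    refine ⟨x * y, ⟨k + l, image2 (fun a b => b + fun n j => a n (j + l)) S T, h1.image2 _ k1,
      forall_mem_image2.2 fun a ha b hb => add_mem (k2 b hb) (MM_sh f (h2 a ha) l), fun L => ?_⟩, rfl⟩
    filter_upwards [h3 L, k3 L] with n a b
    refine ⟨by rw [Pi.mul_apply, tp_mul, a.1, b.1], fun i => ?_⟩
    obtain ⟨c, c1, c2⟩ := a.2 (i + l)
    obtain ⟨d, d1, d2⟩ := b.2 i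
    exact ⟨_, mem_image2_of_mem c1 d1, fun j hj => by
      rw [Pi.mul_apply, bs_mul, b.1, d2 j hj, c2 _ (by simpa using hj)]; rfl⟩
  inv_mem' := by
    rintro _ ⟨x, ⟨k, S, h1, h2, h3⟩, rfl⟩
    refine ⟨x⁻¹, ⟨-k, (fun a => -fun n j => a n (j + -k)) '' S, h1.image _,
      forall_mem_image.2 fun a ha => neg_mem (MM_sh f (h2 a ha) _), fun L => ?_⟩, rfl⟩
    filter_upwards [h3 L] with n a
    refine ⟨by rw [Pi.inv_apply, tp_inv, a.1], fun i => ?_⟩
    obtain ⟨c, c1, c2⟩ := a.2 (i + -k)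
    exact ⟨_, mem_image_of_mem _ c1, fun j hj => by
      rw [Pi.inv_apply, bs_inv, a.1, c2 _ (by simpa using hj)]; rfl⟩

def Sg : Prop := ∀ (p : ℤ[X]) (L : ℕ), ∀ᶠ n in atTop, ∀ i j : ℤ, |i - j| ≤ (L : ℤ) →
  0 ≤ act p (f n) i * act p (f n) j

variable {f}

theorem Sg.mm (h : Sg f) {m : ℕ → ℤ → ℤ} (hm : m ∈ MM f) (L : ℕ) :
    ∀ᶠ n in atTop, ∀ i j : ℤ, |i - j| ≤ (L : ℤ) → 0 ≤ m n i * m n j := by
  obtain ⟨p, s, e⟩ := hm
  exact (h p L).mono fun n k i j c => by rw [e, e]; exact k _ _ (by simpa using c)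

theorem Sg.sup (h : Sg f) {x y : GG} (hx : x ∈ HH f) (hy : y ∈ HH f) : x ⊔ y ∈ HH f := by
  obtain ⟨x, ⟨k, S, h1, h2, h3⟩, rfl⟩ := id hx
  obtain ⟨y, ⟨l, T, k1, k2, k3⟩, rfl⟩ := id hy
  rcases lt_trichotomy k l with c | rfl | c
  · rwa [sup_eq_right.2 (Germ.coe_le.2 (((h3 0).and (k3 0)).mono fun n a =>
      le_iff.2 (Or.inl (by rwa [a.1.1, a.2.1]))))]
  swap
  · rwa [sup_eq_left.2 (Germ.coe_le.2 (((h3 0).and (k3 0)).mono fun n a =>
      le_iff.2 (Or.inl (by rwa [a.1.1, a.2.1]))))]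
  refine ⟨x ⊔ y, ⟨k, S ∪ T, h1.union k1, fun m hm => hm.elim (h2 m) (k2 m), fun L => ?_⟩, rfl⟩
  filter_upwards [h3 L, k3 L, (eventually_all_finite h1).2 fun a ha => (eventually_all_finite k1).2
    fun b hb => h.mm (sub_mem (h2 a ha) (k2 b hb)) (2 * L)] with n a b s
  have e : (x ⊔ y) n = mk _ _ _ := (if_neg (by rw [a.1, b.1]; omega)).trans
    (if_neg (by rw [a.1, b.1]; omega))
  refine ⟨by rw [e, tp_mk, a.1], fun i => ?_⟩
  obtain ⟨c, c1, c2⟩ := a.2 i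
  obtain ⟨d, d1, d2⟩ := b.2 i
  by_cases z : ∀ j : ℤ, |i - j| ≤ (L : ℤ) → c n j ≤ d n j
  · exact ⟨d, Or.inr d1, fun j hj => by rw [e, bs_mk, c2 j hj, d2 j hj, sup_eq_right.2 (z j hj)]⟩
  · push Not at z
    obtain ⟨j0, z1, z2⟩ := z
    refine ⟨c, Or.inl c1, fun j hj => ?_⟩
    have := s c c1 d d1 j0 j (by rw [abs_le] at z1 hj ⊢; omega)
    rw [e, bs_mk, c2 j hj, d2 j hj, sup_eq_left.2
      (sub_nonneg.1 (nonneg_of_mul_nonneg_right this (sub_pos.2 z2)))]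

theorem Sg.rep (h : Sg f) {x y : GG} (hx : x ∈ HH f) (hy : y ∈ HH f) : x ⊓ y⁻¹ * x⁻¹ * y ≤ 1 := by
  obtain ⟨x, ⟨k, S, h1, h2, h3⟩, rfl⟩ := hx
  obtain ⟨y, ⟨l, T, -, -, k3⟩, rfl⟩ := hy
  refine (Germ.coe_le (f := x ⊓ y⁻¹ * x⁻¹ * y) (g := 1)).2 ?_
  filter_upwards [h3 l.natAbs, k3 0, (eventually_all_finite h1).2 fun a ha => h.mm (h2 a ha) l.natAbs]
    with n a b s
  change x n ⊓ (y n)⁻¹ * (x n)⁻¹ * y n ≤ 1
  have t : tp ((y n)⁻¹ * (x n)⁻¹ * y n) = -k := by simp [tp_mul, tp_inv, a.1]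
  rcases lt_trichotomy k 0 with c | rfl | c
  · exact inf_le_left.trans (le_iff.2 (Or.inl (a.1.trans_lt c)))
  swap
  · exact inf_le_right.trans (le_iff.2 (Or.inl (t.trans_lt (neg_lt_zero.2 c))))
  have e : x n ⊓ (y n)⁻¹ * (x n)⁻¹ * y n = mk _ _ _ := (if_neg (by rw [a.1, t]; omega)).trans
    (if_neg (by rw [a.1, t]; omega))
  refine le_iff.2 (Or.inr ⟨by rw [e, tp_mk, a.1]; rfl, fun i => ?_⟩)
  obtain ⟨c, c1, c2⟩ := a.2 i
  have := s c c1 i (i + l) (by simp)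
  rw [← c2 i (by simp), ← c2 _ (by simp)] at this
  rw [e, bs_mk]
  simp only [bs_mul, bs_inv, tp_inv, a.1, b.1, neg_zero, add_zero, add_neg_cancel_right]
  change _ ≤ 0
  rcases mul_nonneg_iff.1 this with z | z <;> omega

end H

theorem main : ∃ (H : Type) (_ : Group H) (_ : Lattice H) (_ : MulLeftMono H) (_ : MulRightMono H),
    (∃ a b : H, a * b ≠ b * a) ∧ (∀ x y : H, x ⊓ y⁻¹ * x⁻¹ * y ≤ 1) ∧
    ∀ (k m : ℕ) (u v : Fin (m + 1) → Fin (m + 1) → FreeGroup (Fin k)), QI u v WW → QI u v H := by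
  obtain ⟨f, h1, h2⟩ := seq
  have h : Sg f := h2
  letI : Lattice (HH f) := Subtype.lattice (fun _ _ => h.sup) fun x y hx hy => by
    have := inv_mem (h.sup (inv_mem hx) (inv_mem hy))
    rwa [inv_sup, inv_inv, inv_inv] at this
  refine ⟨HH f, inferInstance, inferInstance, ⟨fun c _ _ k => mul_le_mul_right (α := GG) k c⟩,
    ⟨fun c _ _ k => mul_le_mul_left (α := GG) k c⟩,
    ⟨⟨_, fun n => mk 0 (f n) (h1 n).1, ⟨0, {f}, finite_singleton _, ?_, fun _ => .of_forall fun n =>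
      ⟨rfl, fun _ => ⟨f, rfl, fun _ _ => bs_mk _ _ _ _⟩⟩⟩, rfl⟩,
    ⟨_, fun _ => mk 1 0 (by simp), ⟨1, {0}, finite_singleton _, by simp, fun _ => .of_forall fun n =>
      ⟨rfl, fun _ => ⟨0, rfl, fun _ _ => rfl⟩⟩⟩, rfl⟩, fun e => ?_⟩,
    fun x y => h.rep x.2 y.2, fun k m u v q x hx => Subtype.ext ?_⟩
  · rintro _ rfl
    exact ⟨1, 0, fun n j => by simp [act]⟩
  · obtain ⟨n, hn⟩ := (Germ.coe_eq.1 (congrArg Subtype.val e)).exists
    have k : ∀ j, f n (j + 1) = f n j := fun j => by simpa [bs_mul] using congrArg (bs · j) hn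
    obtain ⟨i, hi⟩ := ne_iff.1 (h1 n).2
    refine infinite_univ ((h1 n).1.subset fun j _ => ?_)
    have : ∀ j, f n j = f n 0 := fun j => Int.induction_on j rfl (fun j a => (k j).trans a)
      fun j a => by rw [← k, sub_add_cancel, a]
    exact fun z => hi ((this i).trans ((this j).symm.trans z))
  · have e := fun u => E_map (m := m) u (HH f).subtype (fun _ _ => rfl) (fun _ _ => rfl) x
    exact (e v).trans (qG u v q _ ((e u).symm.trans (congrArg Subtype.val hx)))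

def v0 : Fin 2 → Fin 2 → FreeGroup (Fin 2) :=
  ![![.of 0, (.of 1)⁻¹ * (.of 0)⁻¹ * .of 1], ![1, 1]]

theorem qi_iff (K : Type) [Group K] [Lattice K] :
    QI (m := 1) (fun _ _ => 1) v0 K ↔ ∀ x y : K, x ⊓ y⁻¹ * x⁻¹ * y ≤ 1 := by
  have e : ∀ x : Fin 2 → K, E (m := 1) v0 x = 1 ↔ x 0 ⊓ (x 1)⁻¹ * (x 0)⁻¹ * x 1 ≤ 1 := fun x => by
    simp [E, v0, Fin.univ_succ]
  exact ⟨fun h x y => (e ![x, y]).1 (h _ (by simp [E])), fun h x _ => (e x).2 (h _ _)⟩

theorem notW : ¬∀ x y : WW, x ⊓ y⁻¹ * x⁻¹ * y ≤ 1 := fun h => by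
  have := h (mk 0 (fun a => if a = 0 then 1 else if a = 1 then -1 else 0)
    ((toFinite {0, 1}).subset fun a ha => by by_contra c; simp_all)) (mk 1 0 (by simp)) (0, 0)
  rw [ev_inf] at this
  revert this
  decide

end Pool.Agent.H77.Qw
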