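import Mathlib

/-! The continuous-time quantum walk on a path and its mixing matrix. -/

namespace H77.Qwm

/-- The adjacency matrix of the path `P_n`. -/
def adj (n : ℕ) : Matrix (Fin n) (Fin n) ℂ :=
  fun a b => if a.val + 1 = b.val ∨ b.val + 1 = a.val then 1 else 0

/-- The mixing matrix `M(t)`, with entries `|U(t)_{ab}|²` where `U(t) = exp(i t A)`. -/
noncomputable def mix (n : ℕ) (t : ℝ) (a b : Fin n) : ℝ :=
  ‖NormedSpace.exp ((Complex.I * t) • adj n) a b‖ ^ 2

end H77.Qwm
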