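import Pool.Agent.H77.QwmDefs

namespace H77.Qwm

open Real Finset Matrix MeasureTheory

def d (n : ℕ) (x : ℤ) : ℤ := if x = 0 ∨ x = 2 * (n + 1) ∨ x = -(2 * (n + 1)) then 1 else 0

def p (x : ℤ) : ℤ := if x % 2 = 0 then 1 else 0

theorem csum (n : ℕ) (m : ℤ) (l : -(4 * (n + 1)) < m) (u : m < 4 * (n + 1)) :
    ∑ a : Fin n, cos (m * (((a : ℕ) + 1) * (π / (n + 1)))) = (n + 1) * d n m - p m := by
  have N : (n + 1 : ℝ) ≠ 0 := Nat.cast_add_one_ne_zero n
  by_cases h1 : m = 0 ∨ m = 2 * (n + 1) ∨ m = -(2 * (n + 1))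
  · obtain ⟨k, rfl⟩ : ∃ k : ℤ, m = 2 * (n + 1) * k := by
      rcases h1 with h | h | h
      exacts [⟨0, by rw [h]; ring⟩, ⟨1, by rw [h]; ring⟩, ⟨-1, by rw [h]; ring⟩]
    have : ∀ a : Fin n, cos (((2 * (n + 1) * k : ℤ) : ℝ) * (((a : ℕ) + 1) * (π / (n + 1)))) = 1 :=
      fun a => by
      rw [show ((2 * (n + 1) * k : ℤ) : ℝ) * (((a : ℕ) + 1) * (π / (n + 1))) =
        ((k * ((a : ℕ) + 1) : ℤ) : ℝ) * (2 * π) by push_cast; field_simp, cos_int_mul_two_pi]
    simp only [this]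
    rw [d, if_pos h1, p, if_pos (by rw [mul_assoc]; omega)]; simp
  set β := π / (n + 1) with hβ
  have hb : π = (n + 1) * β := by rw [hβ]; field_simp
  have s0 : sin (m * (β / 2)) ≠ 0 := fun h => by
    obtain ⟨k, hk⟩ := sin_eq_zero_iff.1 h
    have b0 : β ≠ 0 := div_ne_zero pi_ne_zero N
    have : ((2 * (n + 1) * k : ℤ) : ℝ) = m :=
      mul_right_cancel₀ b0 (by push_cast; rw [hb] at hk; linarith)
    have : 2 * (n + 1) * k = m := by exact_mod_cast this
    have k1 : k < 2 := by nlinarith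
    have k2 : -2 < k := by nlinarith
    interval_cases k <;> omega
  have t : ∀ q : ℕ, 2 * sin (m * (β / 2)) * ∑ a ∈ range q, cos (m * ((a + 1) * β)) =
      sin ((2 * q + 1) * (m * (β / 2))) - sin (m * (β / 2)) := fun q => by
    induction q with
    | zero => simp
    | succ q ih =>
      rw [sum_range_succ, mul_add, ih]
      have e1 : (2 * ((q + 1 : ℕ) : ℝ) + 1) * (m * (β / 2)) =
        m * ((q + 1) * β) + m * (β / 2) := by push_cast; ring
      have e2 : (2 * (q : ℝ) + 1) * (m * (β / 2)) =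
        m * ((q + 1) * β) - m * (β / 2) := by ring
      rw [e1, e2, sin_add, sin_sub]; ring
  have t1 := t n
  rw [show (2 * (n : ℝ) + 1) * (m * (β / 2)) = m * π - m * (β / 2) by rw [hb]; ring,
    sin_sub, sin_int_mul_pi, cos_int_mul_pi] at t1
  rw [Fin.sum_univ_eq_sum_range (fun a => cos (m * ((a + 1) * β))) n]
  refine mul_left_cancel₀ (mul_ne_zero two_ne_zero s0) ?_
  rw [t1, d, if_neg h1, p]
  split_ifs with h2
  · rw [Even.neg_one_zpow (Int.even_iff.2 h2)]; push_cast; ring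
  · rw [Odd.neg_one_zpow (Int.odd_iff.2 (by omega))]; push_cast; ring

noncomputable def S (n : ℕ) : Matrix (Fin n) (Fin n) ℂ :=
  fun a r => (sin ((((r : ℕ) + 1 : ℤ) : ℝ) * (((a : ℕ) + 1) * (π / (n + 1)))) : ℝ)

def kk (n : ℕ) (j : ℤ) (r s : Fin n) : ℤ := d n (j + (r : ℕ) - (s : ℕ)) +
  d n (j - (r : ℕ) + (s : ℕ)) - d n (j + (r : ℕ) + (s : ℕ) + 2) - d n (j - (r : ℕ) - (s : ℕ) - 2)

noncomputable def e (n : ℕ) (j : ℤ) (a : Fin n) : ℝ := cos (j * (((a : ℕ) + 1) * (π / (n + 1))))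

variable {n : ℕ}

theorem Ksum (j : ℤ) (h0 : 0 ≤ j) (h1 : j ≤ n) (r s : Fin n) :
    ∑ a, (e n j a : ℂ) * S n a r * S n a s = (n + 1) * kk n j r s / 4 := by
  have hr := r.2
  have hs := s.2
  have par : p (j + (r : ℕ) - (s : ℕ)) + p (j - (r : ℕ) + (s : ℕ)) -
      p (j + (r : ℕ) + (s : ℕ) + 2) - p (j - (r : ℕ) - (s : ℕ) - 2) = 0 := by
    unfold p; split_ifs <;> omega
  have par' : (p (j + (r : ℕ) - (s : ℕ)) + p (j - (r : ℕ) + (s : ℕ)) -
      p (j + (r : ℕ) + (s : ℕ) + 2) - p (j - (r : ℕ) - (s : ℕ) - 2) : ℝ) = 0 := by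
    exact_mod_cast par
  have c1 := csum n (j + (r : ℕ) - (s : ℕ)) (by omega) (by omega)
  have c2 := csum n (j - (r : ℕ) + (s : ℕ)) (by omega) (by omega)
  have c3 := csum n (j + (r : ℕ) + (s : ℕ) + 2) (by omega) (by omega)
  have c4 := csum n (j - (r : ℕ) - (s : ℕ) - 2) (by omega) (by omega)
  have : ((n + 1) * kk n j r s : ℝ) = ∑ a : Fin n, 4 * (e n j a *
      sin ((((r : ℕ) + 1 : ℤ) : ℝ) * (((a : ℕ) + 1) * (π / (n + 1)))) *
      sin ((((s : ℕ) + 1 : ℤ) : ℝ) * (((a : ℕ) + 1) * (π / (n + 1))))) := by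
    simp only [kk, Int.cast_sub (d _ _), Int.cast_sub (_ - d _ _), Int.cast_sub (_ + d _ _),
      Int.cast_add (d _ _)]
    refine (?_ : _ = _ + _ - _ - _).trans ((congrArg₂ (· - ·) (congrArg₂ (· - ·)
      (congrArg₂ (· + ·) c1 c2) c3) c4).symm.trans ?_)
    · linear_combination par'
    simp only [← sum_add_distrib, ← sum_sub_distrib, e]
    refine sum_congr rfl fun a _ => ?_
    generalize ((a : ℕ) + 1) * (π / (n + 1)) = y
    push_cast
    rw [show (j + (r : ℕ) - (s : ℕ)) * y = j * y + (((r : ℕ) + 1) * y - ((s : ℕ) + 1) * y) by ring,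
      show (j - (r : ℕ) + (s : ℕ)) * y = j * y - (((r : ℕ) + 1) * y - ((s : ℕ) + 1) * y) by ring,
      show (j + (r : ℕ) + (s : ℕ) + 2) * y = j * y + (((r : ℕ) + 1) * y + ((s : ℕ) + 1) * y) by ring,
      show (j - (r : ℕ) - (s : ℕ) - 2) * y = j * y - (((r : ℕ) + 1) * y + ((s : ℕ) + 1) * y) by ring]
    generalize ((r : ℕ) + 1) * y = u
    generalize ((s : ℕ) + 1) * y = v
    simp only [cos_add, cos_sub]; ring
  have h2 := congrArg (fun x : ℝ => (x : ℂ)) this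
  simp only [← mul_sum] at h2
  simp only [S]
  push_cast at h2 ⊢
  rw [h2]; ring

noncomputable def θ (n x : ℕ) : ℝ := 2 * cos (x * (π / (n + 1)))

theorem sy (a b : Fin n) : S n a b = S n b a := by simp only [S]; congr 2; push_cast; ring

theorem kk0 (r s : Fin n) : kk n 0 r s = if r = s then 2 else 0 := by
  have hr := r.2
  have hs := s.2
  simp only [kk, d, Fin.ext_iff]; split_ifs <;> omega

theorem SS : S n * ((2 / (n + 1) : ℂ) • S n) = 1 := by
  have N : (n + 1 : ℂ) ≠ 0 := Nat.cast_add_one_ne_zero n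
  ext r s
  have := Ksum 0 le_rfl (by omega) r s
  simp only [e, Int.cast_zero, zero_mul, cos_zero, Complex.ofReal_one, one_mul, kk0] at this
  rw [Matrix.mul_smul, Matrix.smul_apply, mul_apply, one_apply]
  simp only [sy r, this]
  split_ifs
  · simp only [smul_eq_mul]; field_simp; norm_num
  · simp

theorem AS : adj n * S n = S n * diagonal fun r : Fin n => (θ n ((r : ℕ) + 1) : ℂ) := by
  have N : (n + 1 : ℝ) ≠ 0 := Nat.cast_add_one_ne_zero n
  ext a r
  set y : ℝ := ((r : ℕ) + 1) * (π / (n + 1)) with hy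
  have k : ∀ σ : ℕ → ℂ, σ 0 = 0 → σ (n + 1) = 0 → ∀ a : Fin n,
      ∑ b : Fin n, adj n a b * σ (b + 1) = σ a + σ (a + 2) := fun σ h0 h1 a => by
    have ha := a.2
    have : ∀ b : Fin n, adj n a b * σ (b + 1) = (if (b : ℕ) + 1 = a then σ a else 0) +
        if (b : ℕ) = a + 1 then σ (a + 2) else 0 := fun b => by
      simp only [adj]
      split_ifs with h1 h2 h3 h4 h5 h6 h7 <;> first | omega | simp [*] | skip
    simp only [this, sum_add_distrib]
    congr 1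
    · rcases h : (a : ℕ) with _ | c
      · simp [h0]
      · rw [Fintype.sum_eq_single (⟨c, by omega⟩ : Fin n) fun b hb =>
          if_neg fun h => hb (Fin.ext (show (b : ℕ) = c by omega))]
        simp
    · by_cases h : (a : ℕ) + 1 < n
      · rw [Fintype.sum_eq_single (⟨a + 1, h⟩ : Fin n) fun b hb =>
          if_neg fun h => hb (Fin.ext h)]
        simp
      · rw [show (a : ℕ) + 2 = n + 1 by omega, h1]; simp
  have s : ∀ b : Fin n, S n b r = (sin ((((b : ℕ) + 1 : ℕ) : ℝ) * y) : ℝ) := fun b => by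
    simp only [S, hy]; congr 2; push_cast; ring
  rw [mul_diagonal, mul_apply]
  simp only [s]
  rw [k (fun n => (sin (n * y) : ℝ)) (by simp) (by
    rw [show ((n + 1 : ℕ) : ℝ) * y = ((r : ℕ) + 1 : ℕ) * π by rw [hy]; push_cast; field_simp,
      sin_nat_mul_pi]; simp)]
  rw [θ, Nat.cast_add_one (r : ℕ), ← hy]
  norm_cast
  rw [show ((a : ℕ) : ℝ) * y = ((a : ℕ) + 1 : ℕ) * y - y by push_cast; ring,
    show (((a : ℕ) + 2 : ℕ) : ℝ) * y = ((a : ℕ) + 1 : ℕ) * y + y by push_cast; ring, sin_add, sin_sub]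
  ring

theorem U_eq (t : ℝ) (a b : Fin n) : NormedSpace.exp ((Complex.I * t) • adj n) a b =
    2 / (n + 1) * ∑ r, S n a r * Complex.exp (Complex.I * t * θ n ((r : ℕ) + 1)) * S n b r := by
  have u : IsUnit (S n) := IsUnit.of_mul_eq_one _ SS
  have i : (S n)⁻¹ = (2 / (n + 1) : ℂ) • S n := inv_eq_right_inv SS
  have : (Complex.I * t) • adj n =
      S n * diagonal (fun r : Fin n => Complex.I * t * θ n ((r : ℕ) + 1)) * (S n)⁻¹ := by
    rw [← Matrix.mul_one (adj n), ← SS, ← Matrix.mul_assoc, AS, ← i, ← Matrix.smul_mul,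
      ← Matrix.mul_smul, ← diagonal_smul]
    rfl
  rw [this, Matrix.exp_conj _ _ u, Matrix.exp_diagonal, i, Matrix.mul_smul, Matrix.smul_apply,
    mul_apply]
  simp only [mul_diagonal, Pi.coe_exp, ← Complex.exp_eq_exp_ℂ, smul_eq_mul, sy _ b]

noncomputable def G (n : ℕ) (t : ℝ) (i j : ℤ) : ℝ := ∑ a, ∑ b, e n i a * e n j b * mix n t a b

theorem G_eq (t : ℝ) (i j : ℤ) (i0 : 0 ≤ i) (i1 : i ≤ n) (j0 : 0 ≤ j) (j1 : j ≤ n) :
    (G n t i j : ℂ) = 1 / 4 * ∑ r, ∑ s, (kk n i r s * kk n j r s : ℤ) *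
      Complex.exp (Complex.I * t * (θ n ((r : ℕ) + 1) - θ n ((s : ℕ) + 1))) := by
  have N : (n + 1 : ℂ) ≠ 0 := Nat.cast_add_one_ne_zero n
  have m : ∀ a b, (mix n t a b : ℂ) = 4 / (n + 1) ^ 2 * ∑ r, ∑ s, S n a r * S n a s *
      (S n b r * S n b s) *
      Complex.exp (Complex.I * t * (θ n ((r : ℕ) + 1) - θ n ((s : ℕ) + 1))) := fun a b => by
    rw [mix, ← Complex.normSq_eq_norm_sq, ← Complex.mul_conj, U_eq, map_mul, map_sum,
      mul_mul_mul_comm, sum_mul_sum]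
    congr 1
    · rw [map_div₀, map_add, map_one, map_ofNat, map_natCast]; field_simp; norm_num
    refine sum_congr rfl fun r _ => sum_congr rfl fun s _ => ?_
    simp only [map_mul, ← Complex.exp_conj, Complex.conj_I, Complex.conj_ofReal, S]
    rw [mul_sub, sub_eq_add_neg, Complex.exp_add]; ring_nf
  have k : ∀ r s, ((kk n i r s * kk n j r s : ℤ) : ℂ) = 16 / (n + 1) ^ 2 *
      ∑ a, ∑ b, e n i a * S n a r * S n a s * (e n j b * S n b r * S n b s) := fun r s => by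
    rw [← sum_mul_sum, Ksum i i0 i1, Ksum j j0 j1]; push_cast; field_simp; norm_num
  simp only [k, G]
  push_cast
  simp only [m, mul_sum, sum_mul]
  simp only [← Fintype.sum_prod_type']
  exact Fintype.sum_equiv ⟨fun x => (x.2.2.1, x.2.2.2, x.1, x.2.1),
    fun x => (x.2.2.1, x.2.2.2, x.1, x.2.1), fun _ => rfl, fun _ => rfl⟩ _ _ fun x => by
      simp only [Equiv.coe_fn_mk]; ring

end H77.Qwm
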