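import Pool.Agent.H77.QwmGen

namespace H77.Qwm

open Real Finset Matrix MeasureTheory

variable {n : ℕ}

def ind (r s : Fin n) (a b : ℕ) : ℤ := if (r : ℕ) + 1 = a ∧ (s : ℕ) + 1 = b then 1 else 0

theorem pick (F : ℕ → ℕ → ℂ) (a b : ℕ) (a0 : 1 ≤ a) (a1 : a ≤ n) (b0 : 1 ≤ b) (b1 : b ≤ n) :
    ∑ r : Fin n, ∑ s : Fin n, (ind r s a b : ℂ) * F ((r : ℕ) + 1) ((s : ℕ) + 1) = F a b := by
  obtain ⟨a, rfl⟩ : ∃ c, a = c + 1 := ⟨a - 1, by omega⟩
  obtain ⟨b, rfl⟩ : ∃ c, b = c + 1 := ⟨b - 1, by omega⟩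
  rw [Fintype.sum_eq_single (⟨a, a1⟩ : Fin n) fun r hr => sum_eq_zero fun s _ => by
      rw [ind, if_neg fun h => hr (Fin.ext (show (r : ℕ) = a by omega))]; simp,
    Fintype.sum_eq_single (⟨b, b1⟩ : Fin n) fun s hs => by
      rw [ind, if_neg fun h => hs (Fin.ext (show (s : ℕ) = b by omega))]; simp]
  simp [ind]

theorem kk_eq (j : ℤ) (h0 : 0 ≤ j) (h1 : j ≤ n) (r s : Fin n) : kk n j r s =
    (if (s : ℤ) = j + r then 1 else 0) + (if (r : ℤ) = j + s then 1 else 0) -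
    (if j + r + s = 2 * n then 1 else 0) - (if j = r + s + 2 then 1 else 0) := by
  have hr := r.2
  have hs := s.2
  simp only [kk, d]
  exact congrArg₂ (· - ·) (congrArg₂ (· - ·) (congrArg₂ (· + ·) (if_congr (by omega) rfl rfl)
    (if_congr (by omega) rfl rfl)) (if_congr (by omega) rfl rfl)) (if_congr (by omega) rfl rfl)

theorem prod8 {A1 A2 A3 A4 B1 B2 B3 B4 C1 C2 C3 C4 : Prop} [Decidable A1] [Decidable A2]
    [Decidable A3] [Decidable A4] [Decidable B1] [Decidable B2] [Decidable B3] [Decidable B4]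
    [Decidable C1] [Decidable C2] [Decidable C3] [Decidable C4]
    (e1 : C1 ↔ A2 ∧ B4) (e2 : C2 ↔ A1 ∧ B4) (e3 : C3 ↔ A2 ∧ B3) (e4 : C4 ↔ A1 ∧ B3)
    (n1 : B1 ∨ B2 → ¬A1 ∧ ¬A2 ∧ ¬A3 ∧ ¬A4) (n2 : A3 ∨ A4 → ¬B3 ∧ ¬B4) :
    ((if A1 then 1 else 0) + (if A2 then 1 else 0) - (if A3 then 1 else 0) -
      (if A4 then 1 else 0) : ℤ) * ((if B1 then 1 else 0) + (if B2 then 1 else 0) -
      (if B3 then 1 else 0) - (if B4 then 1 else 0)) = -((if C1 then 1 else 0) +
      (if C2 then 1 else 0) + (if C3 then 1 else 0) + (if C4 then 1 else 0)) := by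
  by_cases hb : B1 ∨ B2
  · obtain ⟨h1, h2, h3, h4⟩ := n1 hb
    simp [e1, e2, e3, e4, h1, h2, h3, h4]
  obtain ⟨b1, b2⟩ := not_or.1 hb
  by_cases ha : A3 ∨ A4
  · obtain ⟨h1, h2⟩ := n2 ha
    simp [e1, e2, e3, e4, b1, b2, h1, h2]
  obtain ⟨a3, a4⟩ := not_or.1 ha
  by_cases a1 : A1 <;> by_cases a2 : A2 <;> by_cases b3 : B3 <;> by_cases b4 : B4 <;>
    simp [e1, e2, e3, e4, a1, a2, a3, a4, b1, b2, b3, b4]

theorem θneg (x y : ℕ) (h : x + y = n + 1) : θ n x = -θ n y := by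
  have N : (n + 1 : ℝ) ≠ 0 := Nat.cast_add_one_ne_zero n
  have h' : (x : ℝ) = n + 1 - y := by rw [eq_sub_iff_add_eq]; exact_mod_cast h
  rw [θ, θ, h', show (n + 1 - y : ℝ) * (π / (n + 1)) = π - y * (π / (n + 1)) by field_simp,
    cos_pi_sub]; ring

theorem Gpair (t : ℝ) (i j : ℤ) (R T : ℕ) (h1 : 1 ≤ T) (h2 : T ≤ R) (h3 : R + T ≤ n)
    (hi : i = R - T) (hj : j = R + T) :
    (G n t i j : ℂ) = -(Complex.exp (Complex.I * t * (θ n R - θ n T : ℝ)) +
      Complex.exp (-(Complex.I * t * (θ n R - θ n T : ℝ)))) / 2 := by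
  obtain ⟨P, hP⟩ : ∃ P, P + T = n + 1 := ⟨n + 1 - T, by omega⟩
  obtain ⟨Q, hQ⟩ : ∃ Q, Q + R = n + 1 := ⟨n + 1 - R, by omega⟩
  have k : ∀ r s : Fin n, kk n i r s * kk n j r s =
      -(ind r s R T + ind r s T R + ind r s P Q + ind r s Q P) := fun r s => by
    have hr := r.2
    have hs := s.2
    rw [kk_eq i (by omega) (by omega), kk_eq j (by omega) (by omega)]
    simp only [ind]
    exact prod8 (by omega) (by omega) (by omega) (by omega) (by omega) (by omega)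
  rw [G_eq t i j (by omega) (by omega) (by omega) (by omega)]
  simp only [k]
  push_cast
  simp only [neg_mul, add_mul, sum_neg_distrib, sum_add_distrib]
  have q := pick (n := n) fun a b => Complex.exp (Complex.I * t * (θ n a - θ n b))
  rw [q R T (by omega) (by omega) (by omega) (by omega),
    q T R (by omega) (by omega) (by omega) (by omega),
    q P Q (by omega) (by omega) (by omega) (by omega),
    q Q P (by omega) (by omega) (by omega) (by omega), θneg P T hP, θneg Q R hQ]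
  push_cast
  ring_nf

theorem Gsymm (t : ℝ) (i j : ℤ) (i0 : 0 ≤ i) (i1 : i ≤ n) (j0 : 0 ≤ j) (j1 : j ≤ n) :
    G n t i j = G n t j i := by
  apply Complex.ofReal_injective
  rw [G_eq t i j i0 i1 j0 j1, G_eq t j i j0 j1 i0 i1]
  simp only [mul_comm (kk n i _ _)]

theorem G0even (t : ℝ) (j : ℤ) (T : ℕ) (h1 : 1 ≤ T) (h3 : T + T ≤ n) (hj : j = T + T) :
    G n t 0 j = -1 := by
  apply Complex.ofReal_injective
  rw [Gpair t 0 j T T h1 le_rfl h3 (by ring) hj]
  simp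

theorem G10 (t : ℝ) (h : 1 ≤ n) : G n t 1 0 = 0 := by
  apply Complex.ofReal_injective
  have k : ∀ r s : Fin n, kk n 1 r s * kk n 0 r s = 0 := fun r s => by
    rw [kk0]
    split_ifs with e
    · subst e
      rw [kk_eq 1 (by omega) (by omega), if_neg (by omega), if_neg (by omega), if_neg (by omega)]
      simp
    · simp
  rw [G_eq t 1 0 (by omega) (by omega) (by omega) (by omega)]
  simp [k]

theorem G00 (t : ℝ) : G n t 0 0 = n := by
  apply Complex.ofReal_injective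
  rw [G_eq t 0 0 (by omega) (by omega) (by omega) (by omega)]
  have : ∀ r : Fin n, ∑ s, ((kk n 0 r s * kk n 0 r s : ℤ) : ℂ) *
      Complex.exp (Complex.I * t * (θ n ((r : ℕ) + 1) - θ n ((s : ℕ) + 1))) = 4 := fun r => by
    rw [Fintype.sum_eq_single r fun s hs => by rw [kk0, if_neg hs.symm]; simp, kk0, if_pos rfl]
    norm_num
  simp only [this]
  simp
  ring

theorem Gkey (t : ℝ) (k : ℕ) (hk : 1 ≤ k) :
    G (6 * k + 5) t 2 (2 * k + 2) = G (6 * k + 5) t 1 (6 * k + 5) := by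
  apply Complex.ofReal_injective
  rw [Gpair t _ _ (k + 2) k hk (by omega) (by omega) (by push_cast; ring) (by push_cast; ring),
    Gpair t _ _ (3 * k + 3) (3 * k + 2) (by omega) (by omega) (by omega) (by push_cast; ring)
      (by push_cast; ring)]
  have : θ (6 * k + 5) (k + 2) - θ (6 * k + 5) k =
      θ (6 * k + 5) (3 * k + 3) - θ (6 * k + 5) (3 * k + 2) := by
    simp only [θ]
    set β := π / (((6 * k + 5 : ℕ) : ℝ) + 1) with hβ
    have hb : π = (6 * k + 6) * β := by rw [hβ]; push_cast; field_simp; ring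
    rw [show ((k + 2 : ℕ) : ℝ) * β = π / 6 + β by rw [hb]; push_cast; ring,
      show (k : ℝ) * β = π / 6 - β by rw [hb]; ring,
      show ((3 * k + 3 : ℕ) : ℝ) * β = π / 2 by rw [hb]; push_cast; ring,
      show ((3 * k + 2 : ℕ) : ℝ) * β = π / 2 - β by rw [hb]; push_cast; ring,
      cos_add, cos_sub, cos_pi_div_two_sub, cos_pi_div_two, sin_pi_div_six]
    ring
  rw [this]

end H77.Qwm
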