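import Pool.Agent.H77.RestrPIAux

set_option autoImplicit false

namespace Pool.Agent.H77.RestrPI

attribute [local instance] LieRing.ofAssociativeRing

/-- the Heisenberg Lie algebra over `F` -/
def H : Type := F × F × F

instance : AddCommGroup H := inferInstanceAs (AddCommGroup (F × F × F))
instance : Module F H := inferInstanceAs (Module F (F × F × F))

def br (u v : F × F × F) : F × F × F := (0, 0, u.1 * v.2.1 - u.2.1 * v.1)

instance : LieRing H where
  bracket := br
  add_lie := fun (u v w : F × F × F) => by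
    change br (u + v) w = br u w + br v w
    simp only [br, Prod.fst_add, Prod.snd_add, Prod.mk_add_mk, add_zero, Prod.mk.injEq, true_and]
    ring
  lie_add := fun (u v w : F × F × F) => by
    change br u (v + w) = br u v + br u w
    simp only [br, Prod.fst_add, Prod.snd_add, Prod.mk_add_mk, add_zero, Prod.mk.injEq, true_and]
    ring
  lie_self := fun (u : F × F × F) => by
    change br u u = (0, 0, 0)
    simp only [br, Prod.mk.injEq, true_and]
    ring
  leibniz_lie := fun (u v w : F × F × F) => by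
    change br u (br v w) = br (br u v) w + br v (br u w)
    simp [br]

instance : LieAlgebra F H where
  lie_smul := fun (t : F) (u v : F × F × F) => by
    change br u (t • v) = t • br u v
    simp only [br, Prod.smul_fst, Prod.smul_snd, smul_eq_mul, Prod.smul_mk, mul_zero,
      Prod.mk.injEq, true_and]
    ring

/-- the 3-map -/
def pm (u : H) : H := ((0, 0, (u : F × F × F).2.2) : F × F × F)

lemma lie_lie (u v w : H) : ⁅u, ⁅v, w⁆⁆ = 0 := by
  change br u (br v w) = (0, 0, 0)
  simp [br]

lemma pm_smul (a : F) (x : H) : pm (a • x) = a ^ 3 • pm x := by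
  rw [ZMod.pow_card]
  change ((0, 0, a * (x : F × F × F).2.2) : F × F × F) = a • ((0, 0, (x : F × F × F).2.2) : F × F × F)
  simp

lemma pm_ad (x y : H) : (LieAlgebra.ad F H x ^ 3) y = ⁅pm x, y⁆ := by
  have : ⁅pm x, y⁆ = 0 := by
    change br (pm x) y = (0, 0, 0)
    simp [br, pm]
  rw [this, pow_succ', Module.End.mul_apply, pow_succ', Module.End.mul_apply,
    LieAlgebra.ad_apply, LieAlgebra.ad_apply, lie_lie]

lemma pm_add (x y : H) : pm (x + y) = pm x + pm y := by
  exact Prod.ext (add_zero _).symm (Prod.ext (add_zero _).symm rfl)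

lemma cube_add {A : Type} [Ring A] (h3 : (3 : A) = 0) (u v w : A) (h : u * v - v * u = w)
    (hu : u * w = w * u) (hv : v * w = w * v) : (u + v) ^ 3 - u ^ 3 - v ^ 3 = 0 := by
  have e : v * u = u * v - w := by rw [← h]; abel
  have e1 : u * v * u = u * u * v - u * w := by rw [mul_assoc, e]; noncomm_ring
  have e2 : v * u * u = u * u * v - 2 * (u * w) := by
    rw [e, sub_mul, e1, ← hu]; noncomm_ring
  have e3 : v * u * v = u * v * v - v * w := by rw [e, sub_mul, hv]
  have e4 : v * v * u = u * v * v - 2 * (v * w) := by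
    rw [mul_assoc, e, mul_sub, ← mul_assoc, e3]; noncomm_ring
  calc (u + v) ^ 3 - u ^ 3 - v ^ 3
      = u * u * v + u * v * u + v * u * u + (u * v * v + v * u * v + v * v * u) := by
        noncomm_ring
    _ = 3 * (u * u * v - u * w + (u * v * v - v * w)) := by rw [e1, e2, e3, e4]; noncomm_ring
    _ = 0 := by rw [h3, zero_mul]

lemma three_eq {A : Type} [Ring A] [Algebra F A] : (3 : A) = 0 := by
  have : (3 : A) = algebraMap F A 3 := (map_ofNat (algebraMap F A) 3).symm
  rw [this, show (3 : F) = 0 from rfl, map_zero]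

lemma pm_jac (x y : H) :
    UniversalEnvelopingAlgebra.ι F (pm (x + y)) - UniversalEnvelopingAlgebra.ι F (pm x)
        - UniversalEnvelopingAlgebra.ι F (pm y)
      = (UniversalEnvelopingAlgebra.ι F x + UniversalEnvelopingAlgebra.ι F y) ^ 3
        - UniversalEnvelopingAlgebra.ι F x ^ 3 - UniversalEnvelopingAlgebra.ι F y ^ 3 := by
  have key : ∀ u : H, UniversalEnvelopingAlgebra.ι F u * UniversalEnvelopingAlgebra.ι F ⁅x, y⁆ =
      UniversalEnvelopingAlgebra.ι F ⁅x, y⁆ * UniversalEnvelopingAlgebra.ι F u := by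
    intro u
    have := (UniversalEnvelopingAlgebra.ι F (L := H)).map_lie u ⁅x, y⁆
    rwa [lie_lie, map_zero, Ring.lie_def, eq_comm, sub_eq_zero] at this
  rw [cube_add three_eq _ _ _ ((UniversalEnvelopingAlgebra.ι F (L := H)).map_lie x y).symm
    (key x) (key y), pm_add, map_add]
  abel

abbrev U := RingQuot (fun a b : UniversalEnvelopingAlgebra F H =>
  ∃ x : H, a = UniversalEnvelopingAlgebra.ι F x ^ 3 ∧ b = UniversalEnvelopingAlgebra.ι F (pm x))

def ma : M3 := !![0, 1, 0; 0, 0, 2; 0, 0, 0]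
def mb : M3 := !![0, 0, 0; 1, 0, 0; 0, 1, 0]

def rep (u : F × F × F) : M3 := u.1 • ma + u.2.1 • mb + u.2.2 • 1

lemma rep_add (u v : F × F × F) : rep (u + v) = rep u + rep v := by
  simp only [rep, Prod.fst_add, Prod.snd_add, add_smul]; abel

lemma rep_smul (c : F) (u : F × F × F) : rep (c • u) = c • rep u := by
  simp [rep, mul_smul]

lemma rep_lie : ∀ u v : F × F × F, rep (br u v) = rep u * rep v - rep v * rep u := by
  decide +kernel

lemma rep_cube : ∀ u : F × F × F, rep u ^ 3 = rep (0, 0, u.2.2) := by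
  decide +kernel

theorem exists_R : ∃ R : NonUnitalSubalgebra F U,
    (∀ r : Fin 4 → U, (∀ i, r i ∈ R) → S 4 r = 0) ∧
    ∃ r : Fin 2 → U, (∀ i, r i ∈ R) ∧ ∀ t : ℕ, 1 ≤ t → S 2 r ^ t ≠ 0 := by
  let φ : H →ₗ⁅F⁆ M3 :=
    { toFun := rep
      map_add' := rep_add
      map_smul' := rep_smul
      map_lie' := fun {u v} => rep_lie u v }
  let Φ : U →ₐ[F] M3 :=
    RingQuot.liftAlgHom F ⟨UniversalEnvelopingAlgebra.lift F φ, by
      rintro _ _ ⟨x, rfl, rfl⟩
      rw [map_pow, UniversalEnvelopingAlgebra.lift_ι_apply, UniversalEnvelopingAlgebra.lift_ι_apply]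
      exact rep_cube x⟩
  let j : H → U := fun x => RingQuot.mkAlgHom F _ (UniversalEnvelopingAlgebra.ι F x)
  have hΦ : ∀ x, Φ (j x) = rep x := by
    intro x
    simp only [Φ, j, RingQuot.liftAlgHom_mkAlgHom_apply, UniversalEnvelopingAlgebra.lift_ι_apply]
    rfl
  have hlie : ∀ x y, j x * j y - j y * j x = j ⁅x, y⁆ := by
    intro x y
    have := (UniversalEnvelopingAlgebra.ι F (L := H)).map_lie x y
    simp only [j, this, Ring.lie_def, map_sub, map_mul]
  have hcube : ∀ x, j x ^ 3 = j (pm x) := by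
    intro x
    simp only [j, ← map_pow]
    exact RingQuot.mkAlgHom_rel F ⟨x, rfl, rfl⟩
  have j0 : j 0 = 0 := by simp [j]
  let x : H := ((1, 0, 0) : F × F × F)
  let y : H := ((0, 1, 0) : F × F × F)
  let z : H := ((0, 0, 1) : F × F × F)
  obtain ⟨X, hX⟩ : ∃ X, X = j x := ⟨_, rfl⟩
  obtain ⟨Y, hY⟩ : ∃ Y, Y = j y := ⟨_, rfl⟩
  obtain ⟨Z, hZ⟩ : ∃ Z, Z = j z := ⟨_, rfl⟩
  have r1 : X * Y = Y * X + Z := by
    have := hlie x y
    rw [show ⁅x, y⁆ = z from rfl, ← hX, ← hY, ← hZ] at this
    rw [← this]; abel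
  have r2 : X * Z = Z * X := by
    have := hlie x z
    rwa [show ⁅x, z⁆ = 0 from rfl, j0, ← hX, ← hZ, sub_eq_zero] at this
  have r3 : Y * Z = Z * Y := by
    have := hlie y z
    rwa [show ⁅y, z⁆ = 0 from rfl, j0, ← hY, ← hZ, sub_eq_zero] at this
  have r4 : X * (X * X) = 0 := by
    have := hcube x
    rwa [show pm x = 0 from rfl, j0, ← hX, pow_three] at this
  have r5 : Y * (Y * Y) = 0 := by
    have := hcube y
    rwa [show pm y = 0 from rfl, j0, ← hY, pow_three] at this
  have r6 : Z * (Z * Z) = Z := by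
    have := hcube z
    rwa [show pm z = z from rfl, ← hZ, pow_three] at this
  have s1 : ∀ w, X * (Y * w) = Y * (X * w) + Z * w := fun w => by
    rw [← mul_assoc, r1, add_mul, mul_assoc]
  have s2 : ∀ w, X * (Z * w) = Z * (X * w) := fun w => by rw [← mul_assoc, r2, mul_assoc]
  have s3 : ∀ w, Y * (Z * w) = Z * (Y * w) := fun w => by rw [← mul_assoc, r3, mul_assoc]
  have s4 : ∀ w, X * (X * (X * w)) = 0 := fun w => by
    rw [← mul_assoc X X w, ← mul_assoc, r4, zero_mul]
  have s5 : ∀ w, Y * (Y * (Y * w)) = 0 := fun w => by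
    rw [← mul_assoc Y Y w, ← mul_assoc, r5, zero_mul]
  have s6 : ∀ w, Z * (Z * (Z * w)) = Z * w := fun w => by
    rw [← mul_assoc Z Z w, ← mul_assoc, r6]
  have t3 : ∀ w : U, w + w = -w := fun w => by
    have : (3 : U) * w = 0 := by rw [three_eq, zero_mul]
    rw [eq_neg_iff_add_eq_zero, ← this]; noncomm_ring
  obtain ⟨θ, θ1, θ2⟩ := exists_theta (-(Z * (X * X))) (Z * (Y * Y))
    (by simp only [neg_mul, mul_neg, neg_neg, mul_assoc, s2, s4, mul_zero])
    (by simp only [mul_assoc, s3, s5, mul_zero])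
    (by
      simp only [neg_mul, mul_neg, neg_neg, mul_assoc]
      simp only [s1, s2, s3, s4, r4, s6, mul_add, mul_zero, zero_add, add_zero]
      exact t3 _)
    (by
      simp only [neg_mul, mul_neg, mul_assoc]
      simp only [s1, r1, s2, s3, r3, s5, r5, s6, mul_add, mul_zero, zero_add, add_zero]
      rw [t3, neg_neg])
  refine ⟨NonUnitalAlgHom.range θ, ?_, ![θ !![0, 1; 0, 0], θ !![0, 0; 1, 0]], ?_, ?_⟩
  · intro r hr
    choose s hs using hr
    have : r = fun i => θ (s i) := funext fun i => (hs i).symm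
    rw [this, S4_map, S4_M2, map_zero]
  · intro i
    fin_cases i
    · exact ⟨_, rfl⟩
    · exact ⟨_, rfl⟩
  · intro t ht h
    have h1 := congrArg Φ h
    have h2 : Φ (S 2 ![θ !![0, 1; 0, 0], θ !![0, 0; 1, 0]]) =
        S 2 ![-(rep z * (rep x * rep x)), rep z * (rep y * rep y)] := by
      simp only [S, map_sum, map_zsmul, map_list_prod, List.map_ofFn]
      congr 1
      funext σ
      congr 3
      funext i
      simp only [Function.comp]
      generalize σ i = l
      fin_cases l
      · simp [θ1, hX, hZ, hΦ]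
      · simp [θ2, hY, hZ, hΦ]
    rw [map_pow, map_zero, h2] at h1
    have h3 : IsIdempotentElem
        (S 2 ![-(rep z * (rep x * rep x)), rep z * (rep y * rep y)] ^ 2) := by
      unfold IsIdempotentElem
      decide +kernel
    have h4 := h3.pow_eq (n := t) (by omega)
    rw [← pow_mul, mul_comm, pow_mul, h1] at h4
    revert h4
    decide +kernel

end Pool.Agent.H77.RestrPI
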