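import Mathlib

set_option autoImplicit false

namespace Pool.Agent.H77.RestrPI

abbrev F := ZMod 3

instance : Fact (Nat.Prime 3) := ⟨by norm_num⟩

abbrev M2 := Matrix (Fin 2) (Fin 2) F
abbrev M3 := Matrix (Fin 3) (Fin 3) F

lemma exists_theta {A : Type} [Ring A] [Algebra F A] (p q : A) (h1 : p * p = 0) (h2 : q * q = 0)
    (h3 : p * q * p = p) (h4 : q * p * q = q) :
    ∃ θ : M2 →ₙₐ[F] A, θ !![0, 1; 0, 0] = p ∧ θ !![0, 0; 1, 0] = q := by
  have a1 : ∀ w, p * (p * w) = 0 := fun w => by rw [← mul_assoc, h1, zero_mul]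
  have a2 : ∀ w, q * (q * w) = 0 := fun w => by rw [← mul_assoc, h2, zero_mul]
  have a3 : p * (q * p) = p := by rw [← mul_assoc, h3]
  have a4 : q * (p * q) = q := by rw [← mul_assoc, h4]
  refine ⟨{ toFun := fun X => X 0 0 • (p * q) + X 0 1 • p + X 1 0 • q + X 1 1 • (q * p)
            map_smul' := fun c X => by simp [smul_add, mul_smul]
            map_zero' := by simp
            map_add' := fun X Y => by simp only [Matrix.add_apply, add_smul]; abel
            map_mul' := fun X Y => ?_ }, by simp, by simp⟩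
  simp only [Matrix.mul_apply, Fin.sum_univ_two, mul_add, add_mul, smul_mul_assoc,
    mul_smul_comm, mul_assoc, a1, a2, a3, a4, h1, h2, mul_zero, smul_zero, add_zero, zero_add]
  module

/-- the standard polynomial as a function -/
def S {A : Type} [Ring A] (n : ℕ) (r : Fin n → A) : A :=
  ∑ σ : Equiv.Perm (Fin n), ((Equiv.Perm.sign σ : ℤˣ) : ℤ) • (List.ofFn fun i => r (σ i)).prod

lemma S4_expand {A : Type} [Ring A] (r : Fin 4 → A) : S 4 r =
   r 0 * (r 1 * (r 2 * r 3 - r 3 * r 2) - r 2 * (r 1 * r 3 - r 3 * r 1) + r 3 * (r 1 * r 2 - r 2 * r 1))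
 - r 1 * (r 0 * (r 2 * r 3 - r 3 * r 2) - r 2 * (r 0 * r 3 - r 3 * r 0) + r 3 * (r 0 * r 2 - r 2 * r 0))
 + r 2 * (r 0 * (r 1 * r 3 - r 3 * r 1) - r 1 * (r 0 * r 3 - r 3 * r 0) + r 3 * (r 0 * r 1 - r 1 * r 0))
 - r 3 * (r 0 * (r 1 * r 2 - r 2 * r 1) - r 1 * (r 0 * r 2 - r 2 * r 0) + r 2 * (r 0 * r 1 - r 1 * r 0)) := by
  simp only [S, Finset.univ_perm_fin_succ, Finset.sum_map, Equiv.toEmbedding_apply, Fintype.sum_prod_type, Fin.sum_univ_succ, List.ofFn_succ,
    Equiv.Perm.decomposeFin.symm_sign, Equiv.Perm.decomposeFin_symm_apply_zero, Equiv.Perm.decomposeFin_symm_apply_succ]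
  simp [Equiv.swap_apply_def]
  noncomm_ring

lemma S4_M2 (r : Fin 4 → M2) : S 4 r = 0 := by
  rw [S4_expand]
  ext i j
  fin_cases i <;> fin_cases j <;> simp [Matrix.mul_apply, Fin.sum_univ_two] <;> ring

lemma S4_map {A : Type} [Ring A] [Algebra F A] (θ : M2 →ₙₐ[F] A) (r : Fin 4 → M2) :
    S 4 (fun i => θ (r i)) = θ (S 4 r) := by
  simp only [S4_expand, map_add, map_sub, map_mul]

lemma S_lift {A : Type} [Ring A] [Algebra F A] (n : ℕ) (r : Fin n → A) :
    FreeAlgebra.lift F r (S n (FreeAlgebra.ι F)) = S n r := by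
  simp [S, map_sum, map_list_prod, List.map_ofFn, Function.comp_def]

lemma S4_ne : S 4 (FreeAlgebra.ι F : Fin 4 → FreeAlgebra F (Fin 4)) ≠ 0 := by
  intro h
  have := S_lift (A := M3) 4
    ![Matrix.single 0 0 1, Matrix.single 0 1 1, Matrix.single 1 1 1, Matrix.single 1 2 1]
  rw [h, map_zero, S4_expand] at this
  revert this
  decide +kernel

end Pool.Agent.H77.RestrPI
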