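import Mathlib

set_option autoImplicit false
open Polynomial

namespace Pool.Agent.H77.RestrZD

abbrev K := RatFunc (ZMod 3)

instance : Fact (Nat.Prime 3) := ⟨by norm_num⟩

/-- the subfield of cubes -/
noncomputable abbrev k : Subfield K := (frobenius K 3).fieldRange

instance : CharP k 3 := Subfield.charP k 3

lemma X_notMem : (RatFunc.X : K) ∉ k := by
  rintro ⟨f, hf⟩
  have h0 : f ≠ 0 := by
    rintro rfl
    simp only [map_zero] at hf
    exact RatFunc.X_ne_zero hf.symm
  have h := congrArg RatFunc.intDegree hf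
  rw [frobenius_def, pow_succ, pow_two, RatFunc.intDegree_mul (mul_ne_zero h0 h0) h0,
    RatFunc.intDegree_mul h0 h0, RatFunc.intDegree_X] at h
  omega

attribute [local instance] LieRing.ofAssociativeRing

/-- polynomials without constant term, an abelian Lie algebra over the field of cubes -/
noncomputable def L : LieSubalgebra k K[X] where
  carrier := {P | P.coeff 0 = 0}
  add_mem' := by
    intro a b ha hb
    simp only [Set.mem_setOf_eq, coeff_add] at *
    rw [ha, hb, add_zero]
  zero_mem' := by simp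
  smul_mem' := by
    intro c a ha
    simp only [Set.mem_setOf_eq, coeff_smul] at *
    rw [ha, smul_zero]
  lie_mem' := by
    intro a b _ _
    simp [Ring.lie_def, mul_comm]

lemma memL {P : K[X]} : P ∈ L ↔ P.coeff 0 = 0 := Iff.rfl

noncomputable def pm (x : L) : L := ⟨x.1 ^ 3, by
  have := memL.1 x.2
  rw [memL, coeff_zero_eq_eval_zero] at *
  simp [this]⟩

lemma pm_iter (x : L) (n : ℕ) : (pm^[n] x).1 = x.1 ^ 3 ^ n := by
  induction n with
  | zero => simp
  | succ n ih =>
    rw [Function.iterate_succ_apply']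
    change (pm^[n] x).1 ^ 3 = _
    rw [ih, ← pow_mul, ← pow_succ]

lemma indep (x : L) (hx : x ≠ 0) : LinearIndependent k (fun n : ℕ => pm^[n] x) := by
  have h0 : x.1 ≠ 0 := fun h => hx (Subtype.ext h)
  have hd : 0 < x.1.natDegree := by
    by_contra h
    have h1 : x.1.natDegree = 0 := by omega
    rw [eq_C_of_natDegree_eq_zero h1, memL.1 x.2] at h0
    simp at h0
  have : LinearIndependent K (fun n : ℕ => x.1 ^ 3 ^ n) := by
    have ht : Transcendental K x.1 := Polynomial.transcendental _ hd.ne'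
      (mem_nonZeroDivisors_of_ne_zero (leadingCoeff_ne_zero.2 h0))
    have h1 := ((basisMonomials K).linearIndependent.comp (fun n : ℕ => 3 ^ n)
      (Nat.pow_right_injective (by norm_num : 2 ≤ 3))).map'
      (aeval x.1 : K[X] →ₐ[K] K[X]).toLinearMap
      (LinearMap.ker_eq_bot.2 (transcendental_iff_injective.1 ht))
    have e : (fun n : ℕ => x.1 ^ 3 ^ n) = (aeval x.1 : K[X] →ₐ[K] K[X]).toLinearMap ∘
        (basisMonomials K) ∘ (fun n : ℕ => 3 ^ n) := by
      funext n
      simp
    rw [e]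
    exact h1
  have h2 : LinearIndependent k (fun n : ℕ => x.1 ^ 3 ^ n) :=
    this.restrict_scalars' k
  apply LinearIndependent.of_comp L.toSubmodule.subtype
  have e : (L.toSubmodule.subtype ∘ fun n : ℕ => pm^[n] x) = fun n : ℕ => x.1 ^ 3 ^ n :=
    funext fun n => pm_iter x n
  rw [e]
  exact h2

lemma exists_psi : ∃ ψ : K →ₗ[k] k, ψ 1 = 0 ∧ ψ RatFunc.X = 1 := by
  have : (RatFunc.X : K) ∉ Submodule.span k {(1 : K)} := by
    intro h
    obtain ⟨c, hc⟩ := Submodule.mem_span_singleton.1 h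
    apply X_notMem
    rw [← hc]
    simp [Subfield.smul_def]
  obtain ⟨f, hf, hf'⟩ := Submodule.exists_dual_map_eq_bot_of_notMem this inferInstance
  have h1 : f 1 = 0 := by
    have : f 1 ∈ (Submodule.span k {(1 : K)}).map f :=
      Submodule.mem_map_of_mem (Submodule.subset_span rfl)
    rwa [hf', Submodule.mem_bot] at this
  exact ⟨(f RatFunc.X)⁻¹ • f, by simp [h1], by simp [hf]⟩

abbrev U := RingQuot (fun a b : UniversalEnvelopingAlgebra k L =>
  ∃ x : L, a = (UniversalEnvelopingAlgebra.ι k x) ^ 3 ∧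
    b = UniversalEnvelopingAlgebra.ι k (pm x))

theorem main : ¬ NoZeroDivisors U := by
  intro hU
  obtain ⟨ψ, h1, hb⟩ := exists_psi
  let J : Matrix (Fin 3) (Fin 3) k := !![0, 1, 0; 0, 0, 1; 0, 0, 0]
  have J3 : J ^ 3 = 0 := by
    ext i j; fin_cases i <;> fin_cases j <;> simp [J, pow_succ, Matrix.mul_apply, Fin.sum_univ_three]
  have J2 : J * J ≠ 0 := by
    intro h
    have := congrFun (congrFun h 0) 2
    simp [J, Matrix.mul_apply, Fin.sum_univ_three] at this
  let φ : L →ₗ⁅k⁆ Matrix (Fin 3) (Fin 3) k :=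
    { toFun := fun P => ψ (P.1.coeff 1) • J
      map_add' := fun P Q => by simp [add_smul]
      map_smul' := fun c P => by simp [mul_smul]
      map_lie' := fun {P Q} => by
        simp [Ring.lie_def, mul_comm, smul_smul] }
  let Φ : U →ₐ[k] Matrix (Fin 3) (Fin 3) k :=
    RingQuot.liftAlgHom k ⟨UniversalEnvelopingAlgebra.lift k φ, by
      rintro _ _ ⟨x, rfl, rfl⟩
      rw [map_pow, UniversalEnvelopingAlgebra.lift_ι_apply, UniversalEnvelopingAlgebra.lift_ι_apply]
      have : (x.1 ^ 3).coeff 1 = 0 := by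
        obtain ⟨Q, hQ⟩ := X_dvd_iff.2 (memL.1 x.2)
        rw [hQ, mul_pow, coeff_X_pow_mul']
        simp
      change (ψ (x.1.coeff 1) • J) ^ 3 = ψ ((x.1 ^ 3).coeff 1) • J
      rw [this, _root_.smul_pow, J3]; simp⟩
  let j : L → U := fun x => RingQuot.mkAlgHom k _ (UniversalEnvelopingAlgebra.ι k x)
  have hΦ : ∀ x, Φ (j x) = ψ (x.1.coeff 1) • J := by
    intro x
    simp only [Φ, j, RingQuot.liftAlgHom_mkAlgHom_apply, UniversalEnvelopingAlgebra.lift_ι_apply]
    rfl
  have hcomm : ∀ x y, Commute (j x) (j y) := by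
    intro x y
    have h0 : ⁅x, y⁆ = 0 := Subtype.ext (by simp [Ring.lie_def, mul_comm])
    have := (UniversalEnvelopingAlgebra.ι k (L := L)).map_lie x y
    rw [h0, map_zero, Ring.lie_def, eq_comm, sub_eq_zero] at this
    simp only [Commute, SemiconjBy, j, ← map_mul, this]
  have hcube : ∀ x, j x ^ 3 = j (pm x) := by
    intro x
    simp only [j, ← map_pow]
    exact RingQuot.mkAlgHom_rel k ⟨x, rfl, rfl⟩
  have hsm : ∀ (c : k) x, j (c • x) = c • j x := by
    intro c x
    simp only [j, map_smul]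
  let b : K := RatFunc.X
  let a : k := ⟨b ^ 3, b, rfl⟩
  let x : L := ⟨X, by simp [memL]⟩
  let y : L := ⟨C b * X, by simp [memL]⟩
  let z : L := ⟨C (b ^ 2) * X, by simp [memL]⟩
  have hy : pm y = a • pm x := Subtype.ext (by
    change (C b * X) ^ 3 = (b ^ 3) • (X : K[X]) ^ 3
    rw [mul_pow, ← C_pow, smul_eq_C_mul])
  have hz : pm z = (a * a) • pm x := Subtype.ext (by
    change (C (b ^ 2) * X) ^ 3 = (b ^ 3 * b ^ 3) • (X : K[X]) ^ 3
    rw [mul_pow, ← C_pow, smul_eq_C_mul]; congr 2; ring)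
  haveI : Nontrivial U := Φ.toRingHom.domain_nontrivial
  haveI : CharP U 3 := charP_of_injective_algebraMap (algebraMap k U).injective 3
  have hn : (j y * j y - j x * j z) ^ 3 = 0 := by
    rw [sub_pow_char_of_commute, (hcomm y y).mul_pow, (hcomm x z).mul_pow, hcube, hcube, hcube,
      hy, hz, hsm, hsm]
    · simp [smul_smul]
    · exact ((hcomm y x).mul_right (hcomm y z)).mul_left ((hcomm y x).mul_right (hcomm y z))
  have := congrArg Φ (pow_eq_zero_iff (by norm_num) |>.1 hn)
  rw [map_sub, map_mul, map_mul, hΦ, hΦ, hΦ, map_zero] at this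
  apply J2
  simpa [x, y, b, h1, hb] using this

theorem final : ¬ (∀ (p : ℕ) [Fact p.Prime] (k : Type) [Field k] [CharP k p]
      (L : Type) [LieRing L] [LieAlgebra k L] (pmap : L → L),
      (∃ (A : Type) (_ : Ring A) (_ : Algebra k A) (f : L →ₗ[k] A),
          Function.Injective f ∧
          (∀ x y : L, f ⁅x, y⁆ = f x * f y - f y * f x) ∧
          ∀ x : L, f (pmap x) = (f x) ^ p) →
      (∀ x : L, x ≠ 0 → LinearIndependent k (fun n : ℕ => pmap^[n] x)) →
      NoZeroDivisors (RingQuot (fun a b : UniversalEnvelopingAlgebra k L =>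
        ∃ x : L, a = (UniversalEnvelopingAlgebra.ι k x) ^ p ∧
          b = UniversalEnvelopingAlgebra.ι k (pmap x)))) := fun h =>
  main (h 3 k L pm ⟨K[X], inferInstance, inferInstance, L.toSubmodule.subtype,
    Subtype.val_injective, fun _ _ => rfl, fun _ => rfl⟩ indep)

end Pool.Agent.H77.RestrZD
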