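import Mathlib

set_option autoImplicit false

namespace Pool.Agent.H77.SemigRingTop

open Filter Topology

/-- A commutative monoid with `x l * x l = w` and all other products of non-identity
elements equal to the zero `z`. -/
inductive Mon : Type
  | e : Mon
  | x : ℕ → Mon
  | w : Mon
  | z : Mon
  deriving DecidableEq

def Mon.mul : Mon → Mon → Mon
  | .e, a => a
  | a, .e => a
  | .x l, .x m => if l = m then .w else .z
  | _, _ => .z

instance : Monoid Mon where
  mul := Mon.mul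
  one := .e
  one_mul _ := rfl
  mul_one a := by cases a <;> rfl
  mul_assoc a b c := by
    change Mon.mul (Mon.mul a b) c = Mon.mul a (Mon.mul b c)
    cases a <;> cases b <;> cases c <;> simp only [Mon.mul] <;> split_ifs <;> rfl

theorem x_mul_x (l m : ℕ) : Mon.x l * Mon.x m = if l = m then Mon.w else Mon.z := rfl
theorem w_mul_z : Mon.w * Mon.z = Mon.z := rfl
theorem z_mul_z : Mon.z * Mon.z = Mon.z := rfl

/-- The sandwich property of a topological ring. -/
def Sandwich (R : Type) [Ring R] [TopologicalSpace R] : Prop :=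
  ∀ B ∈ 𝓝 (0 : R), ∃ (N : ℕ) (D : ℕ → R), ∀ B' ∈ 𝓝 (0 : R), ∃ c ∈ B', ∃ b ∈ B,
    ∑ l ∈ Finset.range N, (c * D l) * b * (c * D l) = 1

open MonoidAlgebra in
theorem no_ext (R : Type) [Ring R] [Nontrivial R] [TopologicalSpace R] (hR : Sandwich R)
    [TopologicalSpace (MonoidAlgebra R Mon)] [IsTopologicalRing (MonoidAlgebra R Mon)]
    [T2Space (MonoidAlgebra R Mon)]
    (hc : Continuous fun r : R => (single 1 r : MonoidAlgebra R Mon)) : False := by
  have key : ∀ W ∈ 𝓝 (0 : MonoidAlgebra R Mon), single Mon.w 1 - single Mon.z 1 ∈ W := by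
    intro W hW
    let Φ : MonoidAlgebra R Mon × MonoidAlgebra R Mon → MonoidAlgebra R Mon :=
      fun p => p.1 * p.2 * p.1 * (1 - single Mon.z 1)
    have hΦ : Continuous Φ := by
      simp only [Φ]
      fun_prop
    have hev : Φ ⁻¹' W ∈ 𝓝 ((0, 0) : MonoidAlgebra R Mon × MonoidAlgebra R Mon) :=
      hΦ.continuousAt.preimage_mem_nhds (by simpa [Φ] using hW)
    obtain ⟨V₁, h₁, V₂, h₂, hV⟩ := mem_nhds_prod_iff.1 hev
    obtain ⟨N, D, hD⟩ := hR _ (hc.continuousAt.preimage_mem_nhds (by simpa using h₂))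
    have hc2 : Continuous fun r : R => (single 1 r : MonoidAlgebra R Mon) *
        ∑ l ∈ Finset.range N, single (Mon.x l) (D l) := by fun_prop
    obtain ⟨c, hcB, b, hb, hsum⟩ :=
      hD _ (hc2.continuousAt.preimage_mem_nhds (by simpa using h₁))
    have hm := hV (Set.mk_mem_prod hcB hb)
    simp only [Set.mem_preimage, Φ] at hm
    convert hm using 1
    have e1 : (single 1 c : MonoidAlgebra R Mon) * ∑ l ∈ Finset.range N, single (Mon.x l) (D l) =
        ∑ l ∈ Finset.range N, single (Mon.x l) (c * D l) := by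
      rw [Finset.mul_sum]
      simp only [single_mul_single, one_mul]
    have e2 : ∀ (g : Mon) (f : ℕ → R), (single g (∑ l ∈ Finset.range N, f l) :
        MonoidAlgebra R Mon) = ∑ l ∈ Finset.range N, single g (f l) := fun g f =>
      map_sum (singleAddHom g) f _
    conv_lhs => rw [← hsum, e2, e2, ← Finset.sum_sub_distrib]
    rw [e1, Finset.sum_mul, Finset.sum_mul, Finset.sum_mul]
    refine Finset.sum_congr rfl fun l hl => ?_
    rw [Finset.mul_sum, Finset.sum_mul, Finset.sum_eq_single_of_mem l hl]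
    · simp only [single_mul_single, mul_one, x_mul_x, if_true, mul_sub, w_mul_z, hsum]
    · intro m _ hml
      simp only [single_mul_single, mul_one, x_mul_x, if_neg hml.symm, mul_sub, z_mul_z, hsum,
        sub_self]
  have h0 : (single Mon.w 1 - single Mon.z 1 : MonoidAlgebra R Mon) = 0 := by
    by_contra hne
    exact key {single Mon.w 1 - single Mon.z 1}ᶜ
      (isOpen_compl_singleton.mem_nhds (Ne.symm hne)) rfl
  have h1 := congrArg (fun a : MonoidAlgebra R Mon => a.coeff Mon.w) (sub_eq_zero.1 h0)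
  simp at h1

abbrev M (n : ℕ) : Type := Matrix (Fin n) (Fin n) ℚ

theorem rank_add_le {n : ℕ} (A B : M n) : (A + B).rank ≤ A.rank + B.rank := by
  unfold Matrix.rank
  refine le_trans (Submodule.finrank_mono ?_)
    (Submodule.finrank_add_le_finrank_add_finrank _ _)
  rintro _ ⟨v, rfl⟩
  rw [Matrix.mulVecLin_add]
  exact Submodule.add_mem_sup ⟨v, rfl⟩ ⟨v, rfl⟩

theorem rank_neg_le {n : ℕ} (A : M n) : (-A).rank ≤ A.rank := by
  have : -A = (-1) * A := by simp
  rw [this]
  exact Matrix.rank_mul_le_right _ _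

/-- Integral matrices. -/
def I (n : ℕ) : Subring (M n) := (RingHom.mapMatrix (Int.castRingHom ℚ)).range

theorem two_pow_mem (n k : ℕ) : (2 : M n) ^ k ∈ I n :=
  pow_mem (by exact_mod_cast natCast_mem (I n) 2) k

theorem two_comm (n k : ℕ) (A : M n) : A * 2 ^ k = 2 ^ k * A :=
  ((Nat.cast_commute 2 A).pow_left k).symm.eq

/-- Sequences of rational matrices whose denominators are bounded powers of two. -/
def R₀ : Subring (∀ n, M n) where
  carrier := {x | ∃ L : ℕ, ∀ n, 2 ^ L * x n ∈ I n}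
  mul_mem' := by
    rintro a b ⟨L, hL⟩ ⟨L', hL'⟩
    refine ⟨L + L', fun n => ?_⟩
    have := mul_mem (hL n) (hL' n)
    rwa [mul_assoc, ← mul_assoc (a n), two_comm, mul_assoc, ← mul_assoc, ← pow_add] at this
  one_mem' := ⟨0, fun n => by simpa using one_mem _⟩
  add_mem' := by
    rintro a b ⟨L, hL⟩ ⟨L', hL'⟩
    refine ⟨L + L', fun n => ?_⟩
    have := add_mem (mul_mem (two_pow_mem n L') (hL n)) (mul_mem (two_pow_mem n L) (hL' n))
    rwa [← mul_assoc, ← mul_assoc, ← pow_add, ← pow_add, add_comm L' L, ← mul_add] at this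
  zero_mem' := ⟨0, fun n => by simpa using zero_mem _⟩
  neg_mem' := by
    rintro a ⟨L, hL⟩
    exact ⟨L, fun n => by simpa using neg_mem (hL n)⟩

def S : Type := R₀

instance : Ring S := inferInstanceAs (Ring R₀)

def ev (x : S) (n : ℕ) : M n := x.1 n

theorem ev_add (x y : S) (n : ℕ) : ev (x + y) n = ev x n + ev y n := rfl
theorem ev_mul (x y : S) (n : ℕ) : ev (x * y) n = ev x n * ev y n := rfl
theorem ev_neg (x : S) (n : ℕ) : ev (-x) n = - ev x n := rfl
theorem ev_zero (n : ℕ) : ev 0 n = 0 := rfl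
theorem ev_one (n : ℕ) : ev 1 n = 1 := rfl
theorem S_ext {x y : S} (h : ∀ n, ev x n = ev y n) : x = y := Subtype.ext (funext h)

/-- Basic neighbourhoods of zero: two-adically small up to a matrix of small relative rank. -/
def Nb (k : ℕ) : Set S :=
  {x | ∀ᶠ n in atTop, ∃ y ∈ I n, (ev x n - 2 ^ k * y).rank * 2 ^ k ≤ n}

theorem Nb_mono {k l : ℕ} (h : k ≤ l) : Nb l ⊆ Nb k := by
  intro x hx
  filter_upwards [hx] with n ⟨y, hy, hr⟩
  obtain ⟨d, rfl⟩ := Nat.exists_eq_add_of_le h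
  refine ⟨2 ^ d * y, mul_mem (two_pow_mem n d) hy, ?_⟩
  rw [← mul_assoc, ← pow_add]
  exact le_trans (Nat.mul_le_mul_left _ (Nat.pow_le_pow_right (by norm_num) h)) hr

theorem half {a b c k n : ℕ} (h : c ≤ a + b) (ha : a * 2 ^ (k + 1) ≤ n)
    (hb : b * 2 ^ (k + 1) ≤ n) : c * 2 ^ k ≤ n := by
  have := Nat.mul_le_mul_right (2 ^ k) h
  rw [pow_succ] at ha hb
  nlinarith

@[reducible] def basis : RingFilterBasis S where
  toAddGroupFilterBasis := addGroupFilterBasisOfComm (Set.range Nb) ⟨Nb 0, 0, rfl⟩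
    (by
      rintro _ _ ⟨k, rfl⟩ ⟨l, rfl⟩
      exact ⟨Nb (max k l), ⟨_, rfl⟩, Set.subset_inter (Nb_mono (le_max_left _ _))
        (Nb_mono (le_max_right _ _))⟩)
    (by
      rintro _ ⟨k, rfl⟩
      exact Eventually.of_forall fun n => ⟨0, zero_mem _, by simp [ev_zero]⟩)
    (by
      rintro _ ⟨k, rfl⟩
      refine ⟨Nb (k + 1), ⟨_, rfl⟩, ?_⟩
      rintro _ ⟨x, hx, x', hx', rfl⟩
      filter_upwards [hx, hx'] with n ⟨y, hy, hr⟩ ⟨y', hy', hr'⟩
      refine ⟨2 ^ 1 * (y + y'), mul_mem (two_pow_mem n 1) (add_mem hy hy'), half ?_ hr hr'⟩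
      refine le_trans (le_of_eq (congrArg Matrix.rank ?_)) (rank_add_le _ _)
      rw [ev_add, ← mul_assoc, ← pow_add, mul_add]
      abel)
    (by
      rintro _ ⟨k, rfl⟩
      refine ⟨Nb k, ⟨_, rfl⟩, fun x hx => ?_⟩
      filter_upwards [hx] with n ⟨y, hy, hr⟩
      refine ⟨-y, neg_mem hy, le_trans (Nat.mul_le_mul_right _ ?_) hr⟩
      refine le_trans (le_of_eq (congrArg Matrix.rank ?_)) (rank_neg_le _)
      rw [ev_neg, mul_neg]
      abel)
  mul' := by
    rintro _ ⟨k, rfl⟩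
    refine ⟨Nb (k + 1), ⟨_, rfl⟩, ?_⟩
    rintro _ ⟨x, hx, x', hx', rfl⟩
    filter_upwards [hx, hx'] with n ⟨y, hy, hr⟩ ⟨y', hy', hr'⟩
    refine ⟨2 ^ (k + 2) * (y * y'), mul_mem (two_pow_mem n _) (mul_mem hy hy'), half ?_ hr hr'⟩
    have e : ev (x * x') n - 2 ^ k * (2 ^ (k + 2) * (y * y')) =
        (ev x n - 2 ^ (k + 1) * y) * ev x' n +
          (2 ^ (k + 1) * y) * (ev x' n - 2 ^ (k + 1) * y') := by
      rw [ev_mul, sub_mul, mul_sub, mul_assoc (2 ^ (k + 1)) y (2 ^ (k + 1) * y'),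
        ← mul_assoc y, two_comm, mul_assoc _ y y', ← mul_assoc, ← mul_assoc (2 ^ (k + 1)) _ (y * y'),
        ← pow_add, ← pow_add, show k + (k + 2) = k + 1 + (k + 1) by omega]
      abel
    rw [e]
    exact (rank_add_le _ _).trans
      (add_le_add (Matrix.rank_mul_le_left _ _) (Matrix.rank_mul_le_right _ _))
  mul_left' := by
    rintro a _ ⟨k, rfl⟩
    obtain ⟨L, hL⟩ := a.2
    refine ⟨Nb (k + L), ⟨_, rfl⟩, fun x hx => ?_⟩
    filter_upwards [hx] with n ⟨y, hy, hr⟩
    refine ⟨(2 ^ L * ev a n) * y, mul_mem (hL n) hy, le_trans (Nat.mul_le_mul ?_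
      (Nat.pow_le_pow_right (by norm_num) (Nat.le_add_right k L))) hr⟩
    refine le_trans (le_of_eq (congrArg Matrix.rank ?_)) (Matrix.rank_mul_le_right (ev a n) _)
    rw [ev_mul, mul_sub, ← mul_assoc (ev a n), two_comm, pow_add]
    simp only [mul_assoc]
  mul_right' := by
    rintro a _ ⟨k, rfl⟩
    obtain ⟨L, hL⟩ := a.2
    refine ⟨Nb (k + L), ⟨_, rfl⟩, fun x hx => ?_⟩
    filter_upwards [hx] with n ⟨y, hy, hr⟩
    refine ⟨y * (2 ^ L * ev a n), mul_mem hy (hL n), le_trans (Nat.mul_le_mul ?_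
      (Nat.pow_le_pow_right (by norm_num) (Nat.le_add_right k L))) hr⟩
    refine le_trans (le_of_eq (congrArg Matrix.rank ?_)) (Matrix.rank_mul_le_left _ (ev a n))
    rw [ev_mul, sub_mul, ← mul_assoc y, two_comm, pow_add]
    simp only [mul_assoc]

instance : TopologicalSpace S := basis.topology
instance : IsTopologicalRing S := basis.isTopologicalRing

theorem mem_nhds_zero {U : Set S} : U ∈ 𝓝 (0 : S) ↔ ∃ k, Nb k ⊆ U := by
  rw [basis.toAddGroupFilterBasis.nhds_zero_hasBasis.mem_iff]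
  constructor
  · rintro ⟨_, ⟨N, rfl⟩, h⟩
    exact ⟨N, h⟩
  · rintro ⟨N, h⟩
    exact ⟨Nb N, ⟨N, rfl⟩, h⟩

theorem one_not_mem : (1 : S) ∉ Nb 1 := by
  intro h
  obtain ⟨n, ⟨_, ⟨y, rfl⟩, hr⟩, hn⟩ := (h.and (eventually_gt_atTop 0)).exists
  have e : ev 1 n - 2 ^ 1 * (RingHom.mapMatrix (Int.castRingHom ℚ)) y =
      (RingHom.mapMatrix (Int.castRingHom ℚ)) (1 - 2 * y) := by
    rw [map_sub, map_mul, map_one, ev_one, pow_one, map_ofNat]
  have hdet : (1 - 2 * y).det ≠ 0 := by
    intro h0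
    have h1 := RingHom.map_det (Int.castRingHom (ZMod 2)) (1 - 2 * y)
    rw [h0, map_zero, map_sub, map_mul, map_one, map_ofNat] at h1
    have h2 : (2 : Matrix (Fin n) (Fin n) (ZMod 2)) = 0 := by
      rw [← one_add_one_eq_two (R := Matrix (Fin n) (Fin n) (ZMod 2))]
      ext i j
      rw [Matrix.add_apply, Matrix.zero_apply]
      exact CharTwo.add_self_eq_zero _
    rw [h2, zero_mul, sub_zero, Matrix.det_one] at h1
    exact zero_ne_one h1
  have hu : IsUnit ((RingHom.mapMatrix (Int.castRingHom ℚ)) (1 - 2 * y)) := by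
    rw [Matrix.isUnit_iff_isUnit_det, ← RingHom.map_det, isUnit_iff_ne_zero]
    simpa using hdet
  rw [e, Matrix.rank_of_isUnit _ hu, Fintype.card_fin] at hr
  omega

theorem mem_I {n : ℕ} (A : M n) (h : ∀ i j, A i j = 0 ∨ A i j = 1) : A ∈ I n := by
  refine ⟨Matrix.of fun i j => if A i j = 0 then 0 else 1, ?_⟩
  ext i j
  rcases h i j with h | h <;> simp [h]

/-- The block size. -/
def q (N n : ℕ) : ℕ := n / N + 1

def Dm (N l n : ℕ) : M n := Matrix.diagonal fun i => if (i : ℕ) / q N n = l then 1 else 0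

def Tm (N n : ℕ) : M n := Matrix.of fun i j => if (i : ℕ) % q N n = j % q N n then 1 else 0

theorem rank_Tm (N n : ℕ) : (Tm N n).rank ≤ q N n := by
  have hq : 0 < q N n := Nat.succ_pos _
  let A : Matrix (Fin n) (Fin (q N n)) ℚ :=
    Matrix.of fun i s => if s = ⟨(i : ℕ) % q N n, Nat.mod_lt _ hq⟩ then 1 else 0
  have : Tm N n = A * A.transpose := by
    ext i j
    simp [Tm, A, Matrix.mul_apply, Fin.ext_iff]
    rw [Finset.sum_eq_single ⟨(i : ℕ) % q N n, Nat.mod_lt _ hq⟩]
    · simp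
    · intro b _ hb
      rw [Ne, Fin.ext_iff] at hb
      simp [hb]
    · simp
  rw [this]
  exact (Matrix.rank_mul_le_left _ _).trans (Matrix.rank_le_width _)

theorem sum_DTD (N n : ℕ) (hN : 0 < N) :
    ∑ l ∈ Finset.range N, Dm N l n * Tm N n * Dm N l n = 1 := by
  ext i j
  have hq : 0 < q N n := Nat.succ_pos _
  have hi : (i : ℕ) / q N n < N := by
    rw [Nat.div_lt_iff_lt_mul hq]
    have := Nat.lt_mul_div_succ n hN
    have := i.2
    unfold q
    omega
  rw [Matrix.sum_apply, Finset.sum_eq_single_of_mem ((i : ℕ) / q N n) (Finset.mem_range.2 hi)]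
  · simp only [Dm, Tm, Matrix.mul_diagonal, Matrix.diagonal_mul, Matrix.of_apply, if_true, one_mul,
      Matrix.one_apply]
    by_cases hij : i = j
    · subst hij
      simp
    · rw [if_neg hij]
      by_cases h1 : (i : ℕ) % q N n = j % q N n
      · have h2 : ¬ (j : ℕ) / q N n = i / q N n := by
          intro h2
          apply hij
          apply Fin.ext
          rw [← Nat.div_add_mod i (q N n), ← Nat.div_add_mod j (q N n), h1, h2]
        simp [h2]
      · simp [h1]
  · intro l _ hl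
    simp [Dm, Tm, Matrix.mul_diagonal, Matrix.diagonal_mul, hl.symm]

theorem ev_sum (N : ℕ) (f : ℕ → S) (n : ℕ) :
    ev (∑ l ∈ Finset.range N, f l) n = ∑ l ∈ Finset.range N, ev (f l) n := by
  induction N with
  | zero => simp [ev_zero]
  | succ N ih => rw [Finset.sum_range_succ, Finset.sum_range_succ, ev_add, ih]

theorem two_pow_eq (n k : ℕ) (A : M n) : (2 : M n) ^ k * A = (2 : ℚ) ^ k • A := by
  induction k with
  | zero => simp
  | succ k ih => rw [pow_succ', mul_assoc, ih, pow_succ', mul_smul, two_mul, two_smul]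

theorem sandwich_S : Sandwich S := by
  intro B hB
  obtain ⟨k, hk⟩ := mem_nhds_zero.1 hB
  refine ⟨2 ^ (k + 1), fun l => ⟨Dm (2 ^ (k + 1)) l, 0, fun n => ?_⟩, fun B' hB' => ?_⟩
  · rw [pow_zero, one_mul]
    refine mem_I _ fun i j => ?_
    simp only [Dm, Matrix.diagonal_apply]
    split_ifs <;> simp
  obtain ⟨j, hj⟩ := mem_nhds_zero.1 hB'
  refine ⟨⟨fun n => 2 ^ j, 0, fun n => by simpa using two_pow_mem n j⟩,
    hj (Eventually.of_forall fun n => ⟨1, one_mem _, by simp [ev]⟩),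
    ⟨fun n => ((2 : ℚ) ^ (j + j))⁻¹ • Tm (2 ^ (k + 1)) n, j + j, fun n => ?_⟩, hk ?_, ?_⟩
  · rw [two_pow_eq, smul_smul, mul_inv_cancel₀ (by positivity), one_smul]
    refine mem_I _ fun i j => ?_
    simp only [Tm, Matrix.of_apply]
    split_ifs <;> simp
  · filter_upwards [eventually_ge_atTop (2 ^ (k + 1))] with n hn
    refine ⟨0, zero_mem _, ?_⟩
    have h1 : (((2 : ℚ) ^ (j + j))⁻¹ • Tm (2 ^ (k + 1)) n).rank ≤ q (2 ^ (k + 1)) n := by
      rw [← one_mul (Tm _ _), ← smul_mul_assoc]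
      exact (Matrix.rank_mul_le_right _ _).trans (rank_Tm _ _)
    simp only [ev, mul_zero, sub_zero]
    refine le_trans (Nat.mul_le_mul_right _ h1) ?_
    have h2 := Nat.div_mul_le_self n (2 ^ (k + 1))
    unfold q
    rw [pow_succ] at h2 hn ⊢
    nlinarith
  · refine S_ext fun n => ?_
    rw [ev_sum, ev_one, ← sum_DTD (2 ^ (k + 1)) n (by positivity)]
    refine Finset.sum_congr rfl fun l _ => ?_
    simp only [ev_mul]
    simp only [ev, two_pow_eq, smul_mul_assoc, mul_smul_comm, smul_smul]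
    rw [pow_add]
    field_simp
    simp

theorem sandwich_R : Sandwich (SeparationQuotient S) := by
  intro B hB
  have hc := SeparationQuotient.continuous_mk (X := S)
  obtain ⟨N, D, hD⟩ := sandwich_S _ (hc.continuousAt.preimage_mem_nhds (by simpa using hB))
  refine ⟨N, fun l => SeparationQuotient.mk (D l), fun B' hB' => ?_⟩
  obtain ⟨c, hc', b, hb, hs⟩ := hD _ (hc.continuousAt.preimage_mem_nhds (by simpa using hB'))
  refine ⟨_, hc', _, hb, ?_⟩
  have := congrArg (SeparationQuotient.mkRingHom (R := S)) hs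
  simpa [map_sum] using this

instance : Nontrivial (SeparationQuotient S) := by
  refine ⟨⟨SeparationQuotient.mk 0, SeparationQuotient.mk 1, fun h => one_not_mem ?_⟩⟩
  have h1 := SeparationQuotient.mk_eq_mk.1 h
  have h2 : Nb 1 ∈ 𝓝 (0 : S) := mem_nhds_zero.2 ⟨1, subset_rfl⟩
  rw [h1.nhds_eq] at h2
  exact mem_of_mem_nhds h2

end Pool.Agent.H77.SemigRingTop
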