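import Mathlib

set_option autoImplicit false

namespace Pool.Agent.H77.Shk

universe u v

section Build

variable {H : Type u} [Group H] [MetricSpace H]

def act (g : H) (p : ℕ × H) : ℕ × H := (p.1, g * p.2)

omit [MetricSpace H] in
@[simp] theorem act_fst (g : H) (p : ℕ × H) : (act g p).1 = p.1 := rfl
omit [MetricSpace H] in
theorem act_act (g h : H) (p : ℕ × H) : act g (act h p) = act (g * h) p := by
  simp [act, mul_assoc]
omit [MetricSpace H] in
theorem act_one (p : ℕ × H) : act 1 p = p := by simp [act]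

structure Good (n : ℕ) (D : ℕ × H → ℕ × H → ℝ) : Prop where
  self : ∀ p, p.1 ≤ n → D p p = 0
  symm : ∀ p q, p.1 ≤ n → q.1 ≤ n → D p q = D q p
  tri : ∀ p q r, p.1 ≤ n → q.1 ≤ n → r.1 ≤ n → D p r ≤ D p q + D q r
  inv : ∀ g p q, p.1 ≤ n → q.1 ≤ n → D (act g p) (act g q) = D p q
  lip : ∀ m k, m ≤ n → D (m, 1) (m, k) ≤ (m + 1) * dist 1 k

def Agree (n : ℕ) (D D' : ℕ × H → ℕ × H → ℝ) : Prop :=
  ∀ p q, p.1 ≤ n → q.1 ≤ n → D' p q = D p q

def Gl {I : Type v} (x : ℝ) (a : I → ℝ) : Prop := (∀ i, x ≤ a i) ∧ ∀ r, (∀ i, r ≤ a i) → r ≤ x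

theorem Good.nn {n : ℕ} {D : ℕ × H → ℕ × H → ℝ} (h : Good n D) (p q : ℕ × H) (hp : p.1 ≤ n)
    (hq : q.1 ≤ n) : 0 ≤ D p q := by
  have := h.tri p q p hp hq hp
  rw [h.self p hp, h.symm q p hq hp] at this
  linarith

theorem extend (hl : ∀ g x y : H, dist (g * x) (g * y) = dist x y) {n : ℕ}
    {D : ℕ × H → ℕ × H → ℝ} (h : Good n D) {I : Type v} [Nonempty I]
    (pt : I → ℕ × H) (hpt : ∀ i, (pt i).1 ≤ n) (a : I → ℝ)
    (h1 : ∀ i j, D (pt i) (pt j) ≤ a i + a j)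
    (h2 : ∀ i k, ∃ j, a j + D (pt j) (act k (pt i)) ≤ a i + (n + 2) * dist 1 k) :
    ∃ D', Good (n + 1) D' ∧ Agree n D D' ∧
      ∀ z, z.1 ≤ n → Gl (D' (n + 1, 1) z) fun i => a i + D (pt i) z := by
  have a0 : ∀ i, 0 ≤ a i := fun i => by
    have := h1 i i
    rw [h.self _ (hpt i)] at this
    linarith
  let κ : ℕ × H → ℝ := fun z => ⨅ i, (a i + D (pt i) z)
  have k1 : ∀ z : ℕ × H, z.1 ≤ n → ∀ i, κ z ≤ a i + D (pt i) z := fun z hz i =>
    ciInf_le ⟨0, by rintro _ ⟨j, rfl⟩; exact add_nonneg (a0 j) (h.nn _ _ (hpt j) hz)⟩ i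
  have k2 : ∀ (z : ℕ × H) r, (∀ i, r ≤ a i + D (pt i) z) → r ≤ κ z := fun z r hr => le_ciInf hr
  let c : H → ℕ × H → ℝ := fun g z => κ (act g⁻¹ z)
  have c1 : ∀ g (z w : ℕ × H), z.1 ≤ n → w.1 ≤ n → c g w ≤ c g z + D z w := by
    intro g z w hz hw
    have := k2 (act g⁻¹ z) (c g w - D z w) fun i => by
      have e1 := k1 (act g⁻¹ w) hw i
      have e2 := h.tri (pt i) (act g⁻¹ z) (act g⁻¹ w) (hpt i) hz hw
      rw [h.inv _ _ _ hz hw] at e2
      simp only [c]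
      linarith
    simp only [c] at this ⊢
    linarith
  have c2 : ∀ g (z w : ℕ × H), z.1 ≤ n → w.1 ≤ n → D z w ≤ c g z + c g w := by
    intro g z w hz hw
    have := k2 (act g⁻¹ z) (D z w - c g w) fun i => by
      have := k2 (act g⁻¹ w) (D z w - (a i + D (pt i) (act g⁻¹ z))) fun j => by
        have e1 := h.tri (act g⁻¹ z) (pt i) (act g⁻¹ w) hz (hpt i) hw
        have e2 := h.tri (pt i) (pt j) (act g⁻¹ w) (hpt i) (hpt j) hw
        rw [h.inv _ _ _ hz hw, h.symm (act g⁻¹ z) _ hz (hpt i)] at e1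
        have := h1 i j
        linarith
      simp only [c]
      linarith
    simp only [c] at this ⊢
    linarith
  have c3 : ∀ k (z : ℕ × H), z.1 ≤ n → c 1 z ≤ c k z + (n + 2) * dist 1 k := by
    intro k z hz
    have := k2 (act k⁻¹ z) (c 1 z - (n + 2) * dist 1 k) fun i => by
      obtain ⟨j, hj⟩ := h2 i k
      have e1 := k1 z hz j
      have e2 := h.tri (pt j) (act k (pt i)) z (hpt j) (hpt i) hz
      have e3 := h.inv k (pt i) (act k⁻¹ z) (hpt i) hz
      rw [act_act, mul_inv_cancel, act_one] at e3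
      simp only [c, inv_one, act_one]
      linarith
    simp only [c] at this ⊢
    linarith
  have c4 : ∀ g k (z : ℕ × H), c (g * k) (act g z) = c k z := fun g k z => by
    simp [c, act_act]
  have c5 : ∀ g g' (z w : ℕ × H), z.1 ≤ n → w.1 ≤ n → |c g w - c g' w| ≤ c g z + c g' z := by
    intro g g' z w hz hw
    have := c1 g z w hz hw
    have := c1 g' z w hz hw
    have := c2 g z w hz hw
    have := c2 g' z w hz hw
    rw [abs_le]
    constructor <;> linarith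
  let O := {z : ℕ × H // z.1 ≤ n}
  haveI : Nonempty O := ⟨⟨(0, 1), Nat.zero_le _⟩⟩
  let s : H → H → ℝ := fun g g' => ⨆ z : O, |c g z - c g' z|
  have s1 : ∀ g g' (z : ℕ × H), z.1 ≤ n → |c g z - c g' z| ≤ s g g' := fun g g' z hz =>
    le_ciSup (f := fun z : O => |c g z - c g' z|) ⟨c g (0, 1) + c g' (0, 1), by
      rintro _ ⟨w, rfl⟩; exact c5 g g' _ _ (Nat.zero_le _) w.2⟩ ⟨z, hz⟩
  have s2 : ∀ g g' r, (∀ z : ℕ × H, z.1 ≤ n → |c g z - c g' z| ≤ r) → s g g' ≤ r :=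
    fun g g' r hr => ciSup_le fun z => hr z z.2
  have s3 : ∀ k g g', s (k * g) (k * g') ≤ s g g' := fun k g g' => s2 _ _ _ fun z hz => by
    have := s1 g g' (act k⁻¹ z) hz
    rwa [← c4 k g, ← c4 k g', act_act, mul_inv_cancel, act_one] at this
  let D' : ℕ × H → ℕ × H → ℝ := fun p q =>
    if p.1 ≤ n then (if q.1 ≤ n then D p q else c q.2 p) else
      (if q.1 ≤ n then c p.2 q else s p.2 q.2)
  refine ⟨D', ⟨fun p _ => ?_, fun p q _ _ => ?_, fun p q r _ _ _ => ?_, fun g p q _ _ => ?_,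
    fun m k hm => ?_⟩, fun p q hp hq => by simp [D', hp, hq], fun z hz => ?_⟩
  · by_cases hp : p.1 ≤ n
    · simp [D', hp, h.self p hp]
    · simp [D', hp, s]
  · by_cases hp : p.1 ≤ n <;> by_cases hq : q.1 ≤ n <;> simp only [D', hp, hq, if_true, if_false]
    · exact h.symm p q hp hq
    · simp only [s, abs_sub_comm]
  · by_cases hp : p.1 ≤ n <;> by_cases hq : q.1 ≤ n <;> by_cases hr : r.1 ≤ n <;>
      simp only [D', hp, hq, hr, if_true, if_false]
    · exact h.tri p q r hp hq hr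
    · have := c1 r.2 q p hq hp
      rw [h.symm q p hq hp] at this
      linarith
    · exact c2 _ _ _ hp hr
    · have := abs_le.1 (s1 q.2 r.2 p hp)
      linarith
    · exact c1 _ _ _ hq hr
    · exact s2 _ _ _ fun z hz => c5 _ _ _ _ hq hz
    · have := abs_le.1 (s1 p.2 q.2 r hr)
      linarith
    · refine s2 _ _ _ fun z hz => ?_
      have := abs_sub_le (c p.2 z) (c q.2 z) (c r.2 z)
      have := s1 p.2 q.2 z hz
      have := s1 q.2 r.2 z hz
      linarith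
  · by_cases hp : p.1 ≤ n <;> by_cases hq : q.1 ≤ n <;>
      simp only [D', act_fst, hp, hq, if_true, if_false]
    · exact h.inv g p q hp hq
    · exact c4 g q.2 p
    · exact c4 g p.2 q
    · refine le_antisymm (s3 g p.2 q.2) ?_
      have := s3 g⁻¹ (g * p.2) (g * q.2)
      rwa [inv_mul_cancel_left, inv_mul_cancel_left] at this
  · by_cases hp : m ≤ n
    · simp only [D', hp, if_true]
      exact h.lip m k hp
    · simp only [D', hp, if_false]
      obtain rfl : m = n + 1 := by omega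
      refine s2 _ _ _ fun z hz => ?_
      have e1 := c3 k z hz
      have e2 := c3 k⁻¹ (act k⁻¹ z) hz
      have e3 := c4 k 1 (act k⁻¹ z)
      have e4 := c4 k⁻¹ 1 z
      have e5 := hl k 1 k⁻¹
      rw [act_act, mul_inv_cancel, act_one, mul_one] at e3
      rw [mul_one] at e4
      rw [mul_one, mul_inv_cancel, dist_comm] at e5
      rw [← e5] at e2
      push_cast
      rw [abs_le]
      constructor <;> linarith
  · simp only [D', hz, Nat.not_succ_le_self, if_true, if_false, c, inv_one, act_one]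
    exact ⟨k1 z hz, k2 z⟩

theorem good0 (hl : ∀ g x y : H, dist (g * x) (g * y) = dist x y) :
    Good 0 fun p q : ℕ × H => dist p.2 q.2 :=
  ⟨fun _ _ => dist_self _, fun _ _ _ _ => dist_comm _ _, fun _ _ _ _ _ _ => dist_triangle _ _ _,
    fun _ _ _ _ _ => hl _ _ _, fun m k hm => by
      obtain rfl : m = 0 := by omega
      simp⟩

theorem Good.tr {n m : ℕ} {D D' : ℕ × H → ℕ × H → ℝ} (h : Good n D) (ha : Agree n D D')
    (hm : m ≤ n) : Good m D' := by
  refine ⟨fun p hp => ?_, fun p q hp hq => ?_, fun p q r hp hq hr => ?_, fun g p q hp hq => ?_,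
    fun j k hj => ?_⟩
  · rw [ha _ _ (hp.trans hm) (hp.trans hm), h.self _ (hp.trans hm)]
  · rw [ha _ _ (hp.trans hm) (hq.trans hm), ha _ _ (hq.trans hm) (hp.trans hm),
      h.symm _ _ (hp.trans hm) (hq.trans hm)]
  · rw [ha _ _ (hp.trans hm) (hq.trans hm), ha _ _ (hq.trans hm) (hr.trans hm),
      ha _ _ (hp.trans hm) (hr.trans hm)]
    exact h.tri _ _ _ (hp.trans hm) (hq.trans hm) (hr.trans hm)
  · rw [ha _ _ (hp.trans hm) (hq.trans hm), ha (act g p) (act g q) (hp.trans hm) (hq.trans hm),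
      h.inv _ _ _ (hp.trans hm) (hq.trans hm)]
  · rw [ha _ _ (hj.trans hm) (hj.trans hm)]
    exact h.lip _ _ (hj.trans hm)

omit [Group H] [MetricSpace H] in
theorem limit (S : ℕ → ℕ × H → ℕ × H → ℝ) (N : ℕ → ℕ) (h1 : ∀ t, t ≤ N t)
    (h2 : ∀ t, N t ≤ N (t + 1)) (h3 : ∀ t, Agree (N t) (S t) (S (t + 1))) :
    ∃ D, ∀ t, Agree (N t) (S t) D := by
  have hm : Monotone N := monotone_nat_of_le_succ h2
  have key : ∀ t t', t ≤ t' → Agree (N t) (S t) (S t') := by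
    intro t t' h
    induction t', h using Nat.le_induction with
    | base => exact fun _ _ _ _ => rfl
    | succ t' h ih =>
      exact fun p q hp hq => (h3 t' p q (hp.trans (hm h)) (hq.trans (hm h))).trans (ih p q hp hq)
  refine ⟨fun p q => S (max p.1 q.1) p q, fun t p q hp hq => ?_⟩
  rw [← key t (max t (max p.1 q.1)) (le_max_left _ _) p q hp hq,
    key (max p.1 q.1) (max t (max p.1 q.1)) (le_max_right _ _) p q
      ((le_max_left _ _).trans (h1 _)) ((le_max_right _ _).trans (h1 _))]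

end Build

structure Pat (p : ℕ → ℕ → ℝ) (k : ℕ → ℕ) (f : ℕ → ℕ → ℝ) : Prop where
  self : ∀ a, p a a = 0
  symm : ∀ a b, p a b = p b a
  tri : ∀ a b c, p a c ≤ p a b + p b c
  hk : ∀ n, k n ≤ n
  val : ∀ n c c', c ≤ k n → c' ≤ k n → p c c' ≤ f n c + f n c'
  gl : ∀ n m, m ≤ n → Gl (p (n + 1) m) fun c : {c // c ≤ k n} => f n c + p c m
  rich : ∀ K (F : ℕ → ℝ), (∀ c c', c ≤ K → c' ≤ K → p c c' ≤ F c + F c') → ∀ ε > 0, ∀ N,
    ∃ n, N ≤ n ∧ k n = K ∧ ∀ c ≤ K, F c ≤ f n c ∧ f n c ≤ F c + ε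

theorem exists_pat : ∃ p k f, Pat p k f := by
  obtain ⟨s, hs⟩ := exists_surjective_nat (Σ K : ℕ, Fin (K + 1) → ℚ)
  let iK : ℕ → ℕ := fun n => (s n.unpair.1).1
  let iF : ℕ → ℕ → ℝ := fun n c => if h : c < iK n + 1 then ((s n.unpair.1).2 ⟨c, h⟩ : ℚ) else 0
  have hl : ∀ g x y : Unit, dist (g * x) (g * y) = dist x y := fun _ _ _ => rfl
  have step : ∀ n (D : ℕ × Unit → ℕ × Unit → ℝ), Good n D → ∃ D', Good (n + 1) D' ∧
      Agree n D D' ∧ ∃ (k : ℕ) (f : ℕ → ℝ), k ≤ n ∧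
      (∀ c c', c ≤ k → c' ≤ k → D (c, 1) (c', 1) ≤ f c + f c') ∧
      (∀ m, m ≤ n → Gl (D' (n + 1, 1) (m, 1)) fun c : {c // c ≤ k} => f c + D (c, 1) (m, 1)) ∧
      (iK n ≤ n → (∀ c c', c ≤ iK n → c' ≤ iK n → D (c, 1) (c', 1) ≤ iF n c + iF n c') →
        k = iK n ∧ f = iF n) := by
    intro n D hD
    obtain ⟨k, f, h1, h2, h3⟩ : ∃ (k : ℕ) (f : ℕ → ℝ), k ≤ n ∧
        (∀ c c', c ≤ k → c' ≤ k → D (c, 1) (c', 1) ≤ f c + f c') ∧
        (iK n ≤ n → (∀ c c', c ≤ iK n → c' ≤ iK n → D (c, 1) (c', 1) ≤ iF n c + iF n c') →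
          k = iK n ∧ f = iF n) := by
      by_cases h : iK n ≤ n ∧ ∀ c c', c ≤ iK n → c' ≤ iK n → D (c, 1) (c', 1) ≤ iF n c + iF n c'
      · exact ⟨_, _, h.1, h.2, fun _ _ => ⟨rfl, rfl⟩⟩
      · refine ⟨0, fun _ => 0, Nat.zero_le _, fun c c' hc hc' => ?_, fun a b => absurd ⟨a, b⟩ h⟩
        obtain rfl : c = 0 := by omega
        obtain rfl : c' = 0 := by omega
        simp [hD.self (0, 1) (Nat.zero_le _)]
    haveI : Nonempty {c // c ≤ k} := ⟨⟨0, Nat.zero_le _⟩⟩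
    obtain ⟨D', g1, g2, g3⟩ := extend hl hD (fun c : {c // c ≤ k} => (c.1, 1))
      (fun c => c.2.trans h1) (fun c => f c) (fun i j => h2 _ _ i.2 j.2) fun i g => ⟨i, by
        have := hD.self (i.1, 1) (i.2.trans h1)
        have e : act g (i.1, (1 : Unit)) = (i.1, 1) := rfl
        rw [e, this]
        simp⟩
    exact ⟨D', g1, g2, k, f, h1, h2, fun m hm => g3 (m, 1) hm, h3⟩
  choose nx n1 n2 k f n3 n4 n5 n6 using step
  let S : ∀ n, {D : ℕ × Unit → ℕ × Unit → ℝ // Good n D} := fun n =>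
    Nat.rec (motive := fun n => {D : ℕ × Unit → ℕ × Unit → ℝ // Good n D}) ⟨_, good0 hl⟩
      (fun n T => ⟨nx n T.1 T.2, n1 n T.1 T.2⟩) n
  obtain ⟨D, hD⟩ := limit (fun n => (S n).1) id (fun _ => le_rfl) (fun _ => Nat.le_succ _)
    fun n => n2 n _ (S n).2
  have g : ∀ n, Good n D := fun n => (S n).2.tr (hD n) le_rfl
  refine ⟨fun a b => D (a, 1) (b, 1), fun n => k n _ (S n).2, fun n => f n _ (S n).2,
    fun a => (g a).self _ le_rfl,
    fun a b => (g (max a b)).symm _ _ (le_max_left _ _) (le_max_right _ _),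
    fun a b c => (g (a + b + c)).tri _ _ _ (by simp only; omega) (by simp only; omega)
      (by simp only; omega), fun n => n3 n _ _, fun n c c' hc hc' => ?_, fun n m hm => ?_,
    fun K F hF ε hε N => ?_⟩
  · rw [hD n (c, 1) (c', 1) (hc.trans (n3 n _ _)) (hc'.trans (n3 n _ _))]
    exact n4 n _ _ c c' hc hc'
  · have := n5 n _ (S n).2 m hm
    rw [hD (n + 1) (n + 1, 1) (m, 1) le_rfl (Nat.le_succ_of_le hm)]
    have e : (fun c : {c // c ≤ k n _ (S n).2} => f n _ (S n).2 c + D (c, 1) (m, 1)) =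
        fun c : {c // c ≤ k n _ (S n).2} => f n _ (S n).2 c + (S n).1 (c, 1) (m, 1) :=
      funext fun c => by rw [hD n (c, 1) (m, 1) (c.2.trans (n3 n _ _)) hm]
    rw [e]
    exact this
  · choose q hq using fun c : Fin (K + 1) => exists_rat_btwn (show F c < F c + ε by linarith)
    obtain ⟨i, hi⟩ := hs ⟨K, q⟩
    have e1 : iK (Nat.pair i (N + K)) = K := by simp [iK, hi]
    have e2 : ∀ c ≤ K, F c ≤ iF (Nat.pair i (N + K)) c ∧ iF (Nat.pair i (N + K)) c ≤ F c + ε := by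
      intro c hc
      have : ∀ (t : Σ K : ℕ, Fin (K + 1) → ℚ) (h : c < t.1 + 1), t = ⟨K, q⟩ →
          F c ≤ (t.2 ⟨c, h⟩ : ℚ) ∧ (t.2 ⟨c, h⟩ : ℚ) ≤ F c + ε := by
        rintro _ h rfl
        exact ⟨(hq ⟨c, h⟩).1.le, (hq ⟨c, h⟩).2.le⟩
      simp only [iF]
      rw [dif_pos (by omega)]
      exact this _ _ (by simp [hi])
    have e3 := Nat.right_le_pair i (N + K)
    obtain ⟨e4, e5⟩ := n6 (Nat.pair i (N + K)) _ (S _).2 (by omega) fun c c' hc hc' => by
      rw [← hD _ (c, 1) (c', 1) (by simp only [id]; omega) (by simp only [id]; omega)]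
      have := hF c c' (by omega) (by omega)
      have := (e2 c (by omega)).1
      have := (e2 c' (by omega)).1
      linarith
    exact ⟨Nat.pair i (N + K), by omega, e4.trans e1, fun c hc => by rw [e5]; exact e2 c hc⟩

end Pool.Agent.H77.Shk
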