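import Pool.Agent.H77.Shk1

set_option autoImplicit false

namespace Pool.Agent.H77.Shk

open Filter Topology

universe u

section Phase

variable {H : Type u} [Group H] [MetricSpace H] {p : ℕ → ℕ → ℝ} {k : ℕ → ℕ} {f : ℕ → ℕ → ℝ}

def Mt (p : ℕ → ℕ → ℝ) (n : ℕ) (D : ℕ × H → ℕ × H → ℝ) : Prop :=
  ∀ a b, a ≤ n → b ≤ n → D (a, 1) (b, 1) = p a b

theorem Mt.succ (hp : Pat p k f) {n : ℕ} {D D' : ℕ × H → ℕ × H → ℝ} (hm : Mt p n D)
    (hg : Good (n + 1) D') (ha : Agree n D D')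
    (h : ∀ m ≤ n, D' (n + 1, 1) (m, 1) = p (n + 1) m) : Mt p (n + 1) D' := by
  intro a b h1 h2
  by_cases e1 : a ≤ n <;> by_cases e2 : b ≤ n
  · rw [ha _ _ e1 e2, hm a b e1 e2]
  · obtain rfl : b = n + 1 := by omega
    rw [hg.symm _ _ h1 h2, h a e1, hp.symm]
  · obtain rfl : a = n + 1 := by omega
    exact h b e2
  · obtain rfl : a = n + 1 := by omega
    obtain rfl : b = n + 1 := by omega
    rw [hg.self _ h1, hp.self]

theorem lip_mono {m n : ℕ} (h : m ≤ n) (g : H) :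
    ((m : ℝ) + 1) * dist 1 g ≤ (n + 2) * dist 1 g := by
  have : (m : ℝ) ≤ n := by exact_mod_cast h
  exact mul_le_mul_of_nonneg_right (by linarith) dist_nonneg

theorem wait (hl : ∀ g x y : H, dist (g * x) (g * y) = dist x y) (hp : Pat p k f) {n : ℕ}
    {D : ℕ × H → ℕ × H → ℝ} (hg : Good n D) (hm : Mt p n D) (y : ℕ × H) (hy : y.1 ≤ n) (m : ℕ)
    (hnm : n ≤ m) : ∃ D', Good m D' ∧ Mt p m D' ∧ Agree n D D' ∧
      ∀ j ≤ m, ∀ r, (∀ c ≤ n, r ≤ p j c + D y (c, 1)) → r ≤ D' y (j, 1) := by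
  induction m, hnm using Nat.le_induction with
  | base =>
    refine ⟨D, hg, hm, fun _ _ _ _ => rfl, fun j hj r hr => ?_⟩
    have := hr j hj
    rwa [hp.self, zero_add] at this
  | succ m hnm ih =>
    obtain ⟨E, e1, e2, e3, e4⟩ := ih
    have hk := hp.hk m
    haveI : Nonempty {c // c ≤ k m} := ⟨⟨0, Nat.zero_le _⟩⟩
    obtain ⟨D', g1, g2, g3⟩ := extend hl e1 (fun c : {c // c ≤ k m} => (c.1, 1))
      (fun c => c.2.trans hk) (fun c => f m c)
      (fun i j => by
        rw [e2 _ _ (i.2.trans hk) (j.2.trans hk)]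
        exact hp.val m _ _ i.2 j.2)
      fun i g => ⟨i, by
        have := e1.lip i g (i.2.trans hk)
        have := lip_mono (i.2.trans hk) g
        simp only [act, mul_one]
        linarith⟩
    refine ⟨D', g1, e2.succ hp g1 g2 fun j hj => ?_, fun a b ha hb => ?_, fun j hj r hr => ?_⟩
    · refine le_antisymm ((hp.gl m j hj).2 _ fun c => ?_) ((g3 (j, 1) hj).2 _ fun c => ?_)
      · beta_reduce
        rw [← e2 _ _ (c.2.trans hk) hj]
        exact (g3 (j, 1) hj).1 c
      · beta_reduce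
        rw [e2 _ _ (c.2.trans hk) hj]
        exact (hp.gl m j hj).1 c
    · rw [g2 a b (ha.trans hnm) (hb.trans hnm), e3 a b ha hb]
    · by_cases h : j ≤ m
      · rw [g2 y (j, 1) (hy.trans hnm) h]
        exact e4 j h r hr
      · obtain rfl : j = m + 1 := by omega
        rw [g1.symm y (m + 1, 1) (by omega) le_rfl]
        refine (g3 y (hy.trans hnm)).2 r fun b => ?_
        have := e4 b (b.2.trans hk) (r - f m b) fun c hc => by
          have := hr c hc
          have := (hp.gl m c (hc.trans hnm)).1 b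
          linarith
        beta_reduce
        rw [e1.symm (b.1, 1) y (b.2.trans hk) (hy.trans hnm)]
        linarith

theorem exists_L [IsTopologicalGroup H] (hl : ∀ g x y : H, dist (g * x) (g * y) = dist x y)
    {n : ℕ} {D : ℕ × H → ℕ × H → ℝ} (hg : Good n D) (y : ℕ × H) (hy : y.1 ≤ n) {ε : ℝ}
    (hε : 0 < ε) : ∃ L : ℕ, ∀ g : H, D y (act g y) ≤ L * dist 1 g + ε := by
  obtain ⟨j, h⟩ := y
  have e1 : ∀ g : H, D (j, h) (act g (j, h)) ≤ (j + 1) * dist 1 (h⁻¹ * g * h) := fun g => by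
    have := hg.inv h (j, 1) (j, h⁻¹ * g * h) hy hy
    simp only [act, mul_one, ← mul_assoc, mul_inv_cancel, one_mul] at this ⊢
    rw [this]
    simpa only [mul_assoc] using hg.lip j (h⁻¹ * g * h) hy
  have hc : ContinuousAt (fun g : H => ((j : ℝ) + 1) * dist 1 (h⁻¹ * g * h)) 1 := by fun_prop
  obtain ⟨δ, hδ, e2⟩ := Metric.continuousAt_iff.1 hc ε hε
  obtain ⟨L, hL⟩ := exists_nat_ge ((j + 1) * (1 + 2 * dist 1 h / δ))
  refine ⟨L, fun g => (e1 g).trans ?_⟩
  have d0 : 0 ≤ dist 1 g := dist_nonneg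
  by_cases hgd : dist g 1 < δ
  · have := e2 hgd
    simp only [mul_one, inv_mul_cancel, dist_self, mul_zero, dist_zero_right,
      Real.norm_eq_abs] at this
    have := le_abs_self (((j : ℝ) + 1) * dist 1 (h⁻¹ * g * h))
    have : (0 : ℝ) ≤ L * dist 1 g := by positivity
    linarith
  · rw [not_lt, dist_comm] at hgd
    have t1 : dist 1 (h⁻¹ * g * h) ≤ 2 * dist 1 h + dist 1 g := by
      have a1 := hl h 1 (h⁻¹ * g * h)
      have a2 := hl g 1 h
      have a3 := dist_triangle4 h 1 g (g * h)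
      simp only [mul_one, ← mul_assoc, mul_inv_cancel, one_mul] at a1 a2
      rw [dist_comm h 1] at a3
      linarith
    have t2 : 2 * dist 1 h ≤ 2 * dist 1 h / δ * dist 1 g := by
      rw [div_mul_eq_mul_div, le_div_iff₀ hδ]
      exact mul_le_mul_of_nonneg_left hgd (by positivity)
    have t3 := mul_le_mul_of_nonneg_right hL d0
    have t4 : ((j : ℝ) + 1) * dist 1 (h⁻¹ * g * h) ≤
        (j + 1) * (2 * dist 1 h / δ * dist 1 g + dist 1 g) :=
      mul_le_mul_of_nonneg_left (by linarith) (by positivity)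
    nlinarith

theorem phase [IsTopologicalGroup H] (hl : ∀ g x y : H, dist (g * x) (g * y) = dist x y)
    (hp : Pat p k f) {n : ℕ} {D : ℕ × H → ℕ × H → ℝ} (hg : Good n D) (hm : Mt p n D)
    (y : ℕ × H) (hy : y.1 ≤ n) {ε : ℝ} (hε : 0 < ε) :
    ∃ n' D', n + 1 ≤ n' ∧ Good n' D' ∧ Mt p n' D' ∧ Agree n D D' ∧ D' (n', 1) y ≤ 2 * ε := by
  obtain ⟨L, hL⟩ := exists_L hl hg y hy hε
  obtain ⟨m, m1, m2, m3⟩ := hp.rich n (fun c => D y (c, 1)) (fun c c' hc hc' => by
    rw [← hm c c' hc hc', hg.symm y (c, 1) hy hc]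
    exact hg.tri _ _ _ hc hy hc') ε hε (n + L)
  have hnm : n ≤ m := by omega
  obtain ⟨E, e1, e2, e3, e4⟩ := wait hl hp hg hm y hy m hnm
  have hym := hy.trans hnm
  have f1 : ∀ j ≤ m, E y (j, 1) ≤ p (m + 1) j := fun j hj => (hp.gl m j hj).2 _ fun c => by
    have hc : c.1 ≤ n := m2 ▸ c.2
    have := e1.tri y (c, 1) (j, 1) hym (hc.trans hnm) hj
    rw [e2 _ _ (hc.trans hnm) hj, e3 y (c, 1) hy hc] at this
    have := (m3 c hc).1
    linarith
  have f2 : ∀ j ≤ m, p (m + 1) j ≤ E y (j, 1) + ε := fun j hj => by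
    have := e4 j hj (p (m + 1) j - ε) fun c hc => by
      have := (hp.gl m j hj).1 ⟨c, m2 ▸ hc⟩
      have := (m3 c hc).2
      rw [hp.symm j c]
      simp only at *
      linarith
    linarith
  have f3 : ∀ g : H, E y (act g y) ≤ L * dist 1 g + ε := fun g => by
    rw [e3 y (act g y) hy hy]
    exact hL g
  have f4 : ∀ (j : ℕ) (g : H), j ≤ m → E (j, 1) (act g y) ≤ p (m + 1) j + (L * dist 1 g + 2 * ε) :=
    fun j g hj => by
      have := e1.tri (j, 1) y (act g y) hj hym hym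
      rw [e1.symm (j, 1) y hj hym] at this
      have := f1 j hj
      have := f3 g
      linarith
  have hLm : (L : ℝ) ≤ m + 2 := by
    have : (L : ℝ) ≤ m := by exact_mod_cast (by omega : L ≤ m)
    linarith
  have hex := extend hl e1 (I := {j // j ≤ m} ⊕ H)
    (Sum.elim (fun j => (j.1, 1)) fun g => act g y)
    (by rintro (j | g); exacts [j.2, hym])
    (Sum.elim (fun j => p (m + 1) j) fun g => L * dist 1 g + 2 * ε) ?_ ?_
  · obtain ⟨D', g1, g2, g3⟩ := hex
    refine ⟨m + 1, D', by omega, g1, e2.succ hp g1 g2 fun j hj => ?_, fun a b ha hb => ?_, ?_⟩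
    · refine le_antisymm ?_ ((g3 (j, 1) hj).2 _ ?_)
      · have := (g3 (j, 1) hj).1 (.inl ⟨j, hj⟩)
        simp only [Sum.elim_inl] at this
        rwa [e1.self (j, 1) hj, add_zero] at this
      · rintro (i | g)
        · simp only [Sum.elim_inl]
          rw [e2 _ _ i.2 hj]
          exact hp.tri _ _ _
        · simp only [Sum.elim_inr]
          have := e1.tri y (act g y) (j, 1) hym hym hj
          have := f2 j hj
          have := f3 g
          linarith
    · rw [g2 a b (ha.trans hnm) (hb.trans hnm), e3 a b ha hb]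
    · have := (g3 y hym).1 (.inr 1)
      simpa [act_one, e1.self y hym] using this
  · rintro (i | g) (j | g') <;> simp only [Sum.elim_inl, Sum.elim_inr]
    · rw [e2 _ _ i.2 j.2, hp.symm (m + 1) i]
      exact hp.tri _ _ _
    · exact f4 i g' i.2
    · rw [e1.symm (act g y) (j.1, 1) hym j.2, add_comm]
      exact f4 j g j.2
    · have a1 := e1.inv g y (act (g⁻¹ * g') y) hym hym
      rw [act_act, mul_inv_cancel_left] at a1
      have a2 := f3 (g⁻¹ * g')
      have a3 := hl g 1 (g⁻¹ * g')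
      rw [mul_one, mul_inv_cancel_left] at a3
      have a4 := dist_triangle_left g g' 1
      have a5 : (L : ℝ) * dist g g' ≤ L * (dist 1 g + dist 1 g') :=
        mul_le_mul_of_nonneg_left a4 (by positivity)
      rw [← a3] at a2
      linarith
  · rintro (i | g) g'
    · refine ⟨.inl i, ?_⟩
      have := e1.lip i g' i.2
      have := lip_mono i.2 g'
      simp only [Sum.elim_inl, act, mul_one]
      linarith
    · refine ⟨.inr (g' * g), ?_⟩
      simp only [Sum.elim_inr, act_act]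
      rw [e1.self (act (g' * g) y) hym]
      have a3 := hl g' 1 g
      rw [mul_one] at a3
      have a4 := dist_triangle 1 g' (g' * g)
      have a5 : (L : ℝ) * dist 1 (g' * g) ≤ L * (dist 1 g' + dist 1 g) :=
        mul_le_mul_of_nonneg_left (by linarith) (by positivity)
      have a6 := mul_le_mul_of_nonneg_right hLm (dist_nonneg (x := 1) (y := g'))
      linarith

theorem space [IsTopologicalGroup H] [TopologicalSpace.SeparableSpace H]
    (hl : ∀ g x y : H, dist (g * x) (g * y) = dist x y) (hp : Pat p k f) :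
    ∃ D : ℕ × H → ℕ × H → ℝ, (∀ n, Good n D) ∧ (∀ a b, D (a, 1) (b, 1) = p a b) ∧
      (∀ g h, D (0, g) (0, h) = dist g h) ∧ ∀ y, ∀ ε > 0, ∃ n, D (n, 1) y ≤ ε := by
  obtain ⟨s, hs⟩ := TopologicalSpace.exists_dense_seq H
  let tg : ℕ → ℕ × H := fun t => (t.unpair.1, s t.unpair.2.unpair.1)
  let ep : ℕ → ℝ := fun t => 1 / ((t.unpair.2.unpair.2 : ℝ) + 1)
  let St := fun t => {x : ℕ × (ℕ × H → ℕ × H → ℝ) // t ≤ x.1 ∧ Good x.1 x.2 ∧ Mt p x.1 x.2}
  have step : ∀ t (x : St t), ∃ x' : St (t + 1), x.1.1 ≤ x'.1.1 ∧ Agree x.1.1 x.1.2 x'.1.2 ∧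
      x'.1.2 (x'.1.1, 1) (tg t) ≤ 2 * ep t := by
    rintro t ⟨⟨n, D⟩, h1, h2, h3⟩
    obtain ⟨n', D', a1, a2, a3, a4, a5⟩ := phase hl hp h2 h3 (tg t)
      ((Nat.unpair_left_le t).trans h1) (show 0 < ep t from Nat.one_div_pos_of_nat)
    exact ⟨⟨(n', D'), (Nat.succ_le_succ h1).trans a1, a2, a3⟩, (Nat.le_succ _).trans a1, a4, a5⟩
  choose nx n1 n2 n3 using step
  let S : ∀ t, St t := fun t => Nat.rec (motive := St) ⟨(0, _), le_rfl, good0 hl, fun a b ha hb => by
    obtain rfl : a = 0 := by omega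
    obtain rfl : b = 0 := by omega
    simp [hp.self]⟩ nx t
  obtain ⟨D, hD⟩ := limit (fun t => (S t).1.2) (fun t => (S t).1.1) (fun t => (S t).2.1)
    (fun t => n1 t (S t)) fun t => n2 t (S t)
  have g : ∀ n, Good n D := fun n => (S n).2.2.1.tr (hD n) (S n).2.1
  refine ⟨D, g, fun a b => ?_, fun a b => hD 0 (0, a) (0, b) le_rfl le_rfl, ?_⟩
  · have ha := (le_max_left a b).trans (S (max a b)).2.1
    have hb := (le_max_right a b).trans (S (max a b)).2.1
    rw [hD (max a b) (a, 1) (b, 1) ha hb]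
    exact (S (max a b)).2.2.2 a b ha hb
  · rintro ⟨j, h⟩ ε hε
    obtain ⟨l, hl'⟩ := exists_nat_one_div_lt (show 0 < ε / 4 by linarith)
    have hc : ContinuousAt (fun g : H => ((j : ℝ) + 1) * dist g h) h := by fun_prop
    obtain ⟨δ, hδ, e2⟩ := Metric.continuousAt_iff.1 hc (ε / 2) (by linarith)
    obtain ⟨i, hi⟩ := hs.exists_dist_lt h hδ
    rw [dist_comm] at hi
    have e3 := e2 hi
    simp only [dist_self, mul_zero, dist_zero_right, Real.norm_eq_abs] at e3
    have e4 := le_abs_self (((j : ℝ) + 1) * dist (s i) h)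
    let t := Nat.pair j (Nat.pair i l)
    have t1 : tg t = (j, s i) := by simp [tg, t]
    have t2 : ep t = 1 / ((l : ℝ) + 1) := by simp [ep, t]
    have t3 : j ≤ (S (t + 1)).1.1 :=
      ((Nat.left_le_pair _ _).trans (Nat.le_succ t)).trans (S (t + 1)).2.1
    have t4 : D ((S (t + 1)).1.1, 1) (j, s i) ≤ 2 * (1 / ((l : ℝ) + 1)) := by
      rw [hD (t + 1) _ (j, s i) le_rfl t3, ← t1, ← t2]
      exact n3 t (S t)
    have t5 := (g (S (t + 1)).1.1).tri ((S (t + 1)).1.1, 1) (j, s i) (j, h) le_rfl t3 t3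
    have t6 := (g j).inv (s i) (j, 1) (j, (s i)⁻¹ * h) le_rfl le_rfl
    have t7 := (g j).lip j ((s i)⁻¹ * h) le_rfl
    have t8 := hl (s i) 1 ((s i)⁻¹ * h)
    simp only [act, mul_one, mul_inv_cancel_left] at t6 t8
    rw [← t8, ← t6] at t7
    exact ⟨(S (t + 1)).1.1, by linarith⟩

end Phase

end Pool.Agent.H77.Shk
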