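import Pool.Agent.H77.Shk2

set_option autoImplicit false

namespace Pool.Agent.H77.Shk

open Filter Topology UniformSpace

universe u

noncomputable section

section Grp

variable {U : Type} [MetricSpace U] {x : ℕ → U}

def Gp (_ : DenseRange x) : Type := U ≃ᵢ U

variable {hx : DenseRange x}

instance : Group (Gp hx) := inferInstanceAs (Group (U ≃ᵢ U))

def ap (g : Gp hx) (u : U) : U := (show U ≃ᵢ U from g) u

theorem ap_mul (g h : Gp hx) (u : U) : ap (g * h) u = ap g (ap h u) := rfl
theorem ap_one (u : U) : ap (1 : Gp hx) u = u := rfl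
theorem ap_dist (g : Gp hx) (u v : U) : dist (ap g u) (ap g v) = dist u v :=
  IsometryEquiv.dist_eq _ u v

def w (g h : Gp hx) (n : ℕ) : ℝ := min (dist (ap g (x n)) (ap h (x n))) 1 / (n + 1)

theorem w_le (g h : Gp hx) (n : ℕ) : w g h n ≤ 1 / (n + 1) :=
  div_le_div_of_nonneg_right (min_le_right _ _) (by positivity)

theorem w_le' (g h : Gp hx) (n : ℕ) : w g h n ≤ dist (ap g (x n)) (ap h (x n)) := by
  have h0 : 0 ≤ min (dist (ap g (x n)) (ap h (x n))) 1 := le_min dist_nonneg zero_le_one
  exact (div_le_self h0 (by simp)).trans (min_le_left _ _)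

def dd (g h : Gp hx) : ℝ := max (dist (ap g (x 0)) (ap h (x 0))) (⨆ n, w g h n)

theorem le_dd (g h : Gp hx) (n : ℕ) : w g h n ≤ dd g h := by
  refine le_max_of_le_right (le_ciSup ⟨1, ?_⟩ n)
  rintro _ ⟨m, rfl⟩
  exact (w_le g h m).trans (div_le_self zero_le_one (by simp))

theorem dd_le {g h : Gp hx} {r : ℝ} (h0 : dist (ap g (x 0)) (ap h (x 0)) ≤ r)
    (h1 : ∀ n, w g h n ≤ r) : dd g h ≤ r := max_le h0 (ciSup_le h1)

theorem lt_of_dd {g h : Gp hx} {n : ℕ} {ε : ℝ} (h1 : dd g h < min ε 1 / (n + 1)) :
    dist (ap g (x n)) (ap h (x n)) < ε := by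
  have := (div_lt_div_iff_of_pos_right (by positivity)).1 ((le_dd g h n).trans_lt h1)
  rcases min_lt_iff.1 (this.trans_le (min_le_right _ _)) with h2 | h2
  · rw [min_eq_left h2.le] at this
    exact this.trans_le (min_le_left _ _)
  · exact absurd h2 (lt_irrefl _)

instance : MetricSpace (Gp hx) where
  dist := dd
  dist_self g := by simp [dd, w]
  dist_comm g h := by simp only [dd, w, dist_comm]
  dist_triangle g h k := by
    refine dd_le ((dist_triangle _ (ap h (x 0)) _).trans
      (add_le_add (le_max_left _ _) (le_max_left _ _))) fun n => ?_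
    refine le_trans ?_ (add_le_add (le_dd g h n) (le_dd h k n))
    rw [w, w, w, ← add_div]
    refine div_le_div_of_nonneg_right ?_ (by positivity)
    have := dist_triangle (ap g (x n)) (ap h (x n)) (ap k (x n))
    have := dist_nonneg (x := ap g (x n)) (y := ap h (x n))
    have := dist_nonneg (x := ap h (x n)) (y := ap k (x n))
    simp only [min_def]
    split_ifs <;> linarith
  eq_of_dist_eq_zero {g h} e := by
    refine IsometryEquiv.ext fun u => congrFun (hx.equalizer (IsometryEquiv.continuous _)
      (IsometryEquiv.continuous _) (funext fun n => ?_)) u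
    refine eq_of_forall_dist_le fun ε hε => (lt_of_dd (g := g) (h := h) ?_).le
    rw [show dd g h = 0 from e]
    positivity

theorem dist_def (g h : Gp hx) : dist g h = dd g h := rfl

theorem left_inv (g a b : Gp hx) : dist (g * a) (g * b) = dist a b := by
  simp only [dist_def, dd, w, ap_mul, ap_dist]

theorem tend1 {α : Type} {l : Filter α} {F : α → Gp hx} {g : Gp hx} :
    Tendsto F l (𝓝 g) ↔ ∀ n, Tendsto (fun a => ap (F a) (x n)) l (𝓝 (ap g (x n))) := by
  simp only [Metric.tendsto_nhds]
  constructor
  · intro h n ε hε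
    exact (h (min ε 1 / (n + 1)) (by positivity)).mono fun a ha => lt_of_dd ha
  · intro h ε hε
    obtain ⟨N, hN⟩ := exists_nat_one_div_lt (half_pos hε)
    have := (Filter.eventually_all_finset (Finset.range (N + 1))).2
      fun n _ => h n (ε / 2) (half_pos hε)
    refine this.mono fun a ha => lt_of_le_of_lt (dd_le (ha 0 (by simp)).le fun n => ?_)
      (half_lt_self hε)
    by_cases hn : n < N + 1
    · exact (w_le' _ _ n).trans (ha n (Finset.mem_range.2 hn)).le
    · refine (w_le _ _ n).trans (le_trans ?_ hN.le)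
      exact Nat.one_div_le_one_div (by omega)

theorem tend2 {α : Type} {l : Filter α} {F : α → Gp hx} {g : Gp hx} (h : Tendsto F l (𝓝 g))
    (u : U) : Tendsto (fun a => ap (F a) u) l (𝓝 (ap g u)) := by
  rw [Metric.tendsto_nhds]
  intro ε hε
  obtain ⟨n, hn⟩ := hx.exists_dist_lt u (show 0 < ε / 3 by linarith)
  refine (Metric.tendsto_nhds.1 (tend1.1 h n) (ε / 3) (by linarith)).mono fun a ha => ?_
  have := dist_triangle4 (ap (F a) u) (ap (F a) (x n)) (ap g (x n)) (ap g u)
  rw [ap_dist, ap_dist, dist_comm (x n)] at this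
  linarith

instance : IsTopologicalGroup (Gp hx) where
  continuous_mul := continuous_iff_continuousAt.2 fun a => tend1.2 fun n => by
    rw [tendsto_iff_dist_tendsto_zero]
    have h1 := tendsto_iff_dist_tendsto_zero.1 (tend2 (continuous_snd.tendsto a) (x n))
    have h2 := tendsto_iff_dist_tendsto_zero.1 (tend2 (continuous_fst.tendsto a) (ap a.2 (x n)))
    refine squeeze_zero (fun _ => dist_nonneg) (fun b => ?_) (by simpa using h1.add h2)
    have := dist_triangle (ap b.1 (ap b.2 (x n))) (ap b.1 (ap a.2 (x n))) (ap a.1 (ap a.2 (x n)))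
    rwa [ap_dist] at this
  continuous_inv := continuous_iff_continuousAt.2 fun a => tend1.2 fun n => by
    rw [tendsto_iff_dist_tendsto_zero]
    have h1 := tendsto_iff_dist_tendsto_zero.1 (tend2 (continuous_id.tendsto a) (ap a⁻¹ (x n)))
    refine h1.congr fun b => ?_
    rw [← ap_dist b (ap b⁻¹ _), ← ap_mul b b⁻¹, ← ap_mul (id a), mul_inv_cancel, dist_comm]
    simp

theorem sep : TopologicalSpace.SeparableSpace (Gp hx) := by
  haveI : TopologicalSpace.SeparableSpace U := ⟨⟨_, Set.countable_range x, hx⟩⟩
  have : IsInducing fun (g : Gp hx) n => ap g (x n) := by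
    refine isInducing_iff_nhds.2 fun g => le_antisymm ?_ ?_
    · exact tendsto_iff_comap.1 (tendsto_pi_nhds.2 (tend1.1 tendsto_id))
    · exact (tend1 (F := id)).2 (tendsto_pi_nhds.1 tendsto_comap)
  haveI := this.secondCountableTopology
  infer_instance

end Grp

structure PM (ι : Type u) where
  d : ι → ι → ℝ
  self : ∀ a, d a a = 0
  symm : ∀ a b, d a b = d b a
  tri : ∀ a b c, d a c ≤ d a b + d b c

def PM.T {ι : Type u} (_ : PM ι) : Type u := ι

instance {ι : Type u} (P : PM ι) : PseudoMetricSpace P.T where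
  dist := P.d
  dist_self := P.self
  dist_comm := P.symm
  dist_triangle := P.tri

def lift {H X : Type u} [Group H] [PseudoMetricSpace X] (a : H → X → X)
    (h1 : ∀ g, Isometry (a g)) (h2 : ∀ g h y, a g (a h y) = a (g * h) y) (h3 : ∀ y, a 1 y = y) :
    H →* (Completion X ≃ᵢ Completion X) :=
  have key : ∀ g h y, Completion.map (a g) (Completion.map (a h) y) =
      Completion.map (a (g * h)) y := fun g h y => by
    have := Completion.map_comp (h1 g).uniformContinuous (h1 h).uniformContinuous
    rw [show a g ∘ a h = a (g * h) from funext (h2 g h)] at this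
    exact congrFun this y
  have one : ∀ y, Completion.map (a 1) y = y := fun y => by
    rw [show a 1 = id from funext h3, Completion.map_id]; rfl
  MonoidHom.mk' (fun g => ⟨⟨Completion.map (a g), Completion.map (a g⁻¹),
    fun y => by rw [key, inv_mul_cancel, one], fun y => by rw [key, mul_inv_cancel, one]⟩,
    (h1 g).completion_map⟩) fun g h => IsometryEquiv.ext fun y => (key g h y).symm

theorem lift_coe {H X : Type u} [Group H] [PseudoMetricSpace X] (a : H → X → X)
    (h1 : ∀ g, Isometry (a g)) (h2 : ∀ g h y, a g (a h y) = a (g * h) y) (h3 : ∀ y, a 1 y = y)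
    (g : H) (y : X) : lift a h1 h2 h3 g (y : Completion X) = (a g y : X) :=
  Completion.map_coe (h1 g).uniformContinuous y

end

theorem main : ∃ (G : Type) (_ : Group G) (_ : MetricSpace G), IsTopologicalGroup G ∧
    (∀ g x y : G, dist (g * x) (g * y) = dist x y) ∧ TopologicalSpace.SeparableSpace G ∧
    ∀ (H : Type u) [Group H] [MetricSpace H] [IsTopologicalGroup H]
      [TopologicalSpace.SeparableSpace H], (∀ g x y : H, dist (g * x) (g * y) = dist x y) →
      ∃ φ : H →* G, ∀ x y, dist (φ x) (φ y) = dist x y := by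
  obtain ⟨p, k, f, hp⟩ := exists_pat
  let P : PM ℕ := ⟨p, hp.self, hp.symm, hp.tri⟩
  have hx : DenseRange (fun n : ℕ => ((show P.T from n) : Completion P.T)) :=
    Completion.denseRange_coe (α := P.T)
  refine ⟨Gp hx, inferInstance, inferInstance, inferInstance, left_inv, sep, ?_⟩
  intro H _ _ _ _ hl
  obtain ⟨D, g, d1, d2, d3⟩ := space hl hp
  let Q : PM (ℕ × H) := ⟨D, fun a => (g a.1).self _ le_rfl,
    fun a b => (g (max a.1 b.1)).symm _ _ (le_max_left _ _) (le_max_right _ _),
    fun a b c => (g (a.1 + b.1 + c.1)).tri _ _ _ (by omega) (by omega) (by omega)⟩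
  have hi : ∀ (h : H) (a b : ℕ × H), D (act h a) (act h b) = D a b := fun h a b =>
    (g (max a.1 b.1)).inv _ _ _ (le_max_left _ _) (le_max_right _ _)
  let Ψ := lift (X := Q.T) act (fun h => Isometry.of_dist_eq (hi h)) act_act act_one
  let y : P.T → Q.T := fun n => (n, 1)
  have hy : Isometry y := Isometry.of_dist_eq d1
  have hm : Isometry (Completion.map y) := hy.completion_map
  have hd : DenseRange y := Metric.denseRange_iff.2 fun z r hr => by
    obtain ⟨n, hn⟩ := d3 z (r / 2) (half_pos hr)
    exact ⟨n, by rw [dist_comm]; exact lt_of_le_of_lt hn (half_lt_self hr)⟩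
  have hs : Function.Surjective (Completion.map y) := by
    have h1 : DenseRange (Completion.map y) := by
      refine DenseRange.of_comp (g := ((↑) : P.T → Completion P.T)) ?_
      rw [show Completion.map y ∘ ((↑) : P.T → Completion P.T) = (↑) ∘ y from
        funext (Completion.map_coe hy.uniformContinuous)]
      exact Completion.denseRange_coe.comp hd (Completion.continuous_coe _)
    rw [← Set.range_eq_univ, ← hm.isClosedEmbedding.isClosed_range.closure_eq]
    exact h1.closure_range
  let e : Completion P.T ≃ᵢ Completion Q.T := ⟨Equiv.ofBijective _ ⟨hm.injective, hs⟩, hm⟩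
  let φ : H →* Gp hx := MonoidHom.mk' (fun h => (e.trans (Ψ h)).trans e.symm) fun a b =>
    IsometryEquiv.ext fun u => by
      change e.symm (Ψ (a * b) (e u)) = e.symm (Ψ a (e (e.symm (Ψ b (e u)))))
      rw [e.apply_symm_apply, map_mul]
      rfl
  have key : ∀ (a b : H) (n : ℕ), dist (ap (φ a) ((show P.T from n) : Completion P.T))
      (ap (φ b) ((show P.T from n) : Completion P.T)) = D (n, a) (n, b) := by
    intro a b n
    change dist (e.symm (Ψ a (Completion.map y _))) (e.symm (Ψ b (Completion.map y _))) = _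
    rw [e.symm.dist_eq, Completion.map_coe hy.uniformContinuous, lift_coe, lift_coe,
      Completion.dist_eq]
    change D (n, a * 1) (n, b * 1) = _
    rw [mul_one, mul_one]
  refine ⟨φ, fun a b => le_antisymm (dd_le ((key a b 0).trans (d2 a b)).le fun n => ?_) ?_⟩
  · rw [w, key, div_le_iff₀ (by positivity)]
    refine (min_le_left _ _).trans ?_
    have t6 := hi a (n, 1) (n, a⁻¹ * b)
    have t7 := (g n).lip n (a⁻¹ * b) le_rfl
    have t8 := hl a 1 (a⁻¹ * b)
    simp only [act, mul_one, mul_inv_cancel_left] at t6 t8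
    rw [← t8, ← t6] at t7
    linarith
  · rw [← d2 a b, ← key a b 0]
    exact le_max_left _ _

end Pool.Agent.H77.Shk
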