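import Pool.Agent.H77.SymDefs

set_option autoImplicit false

namespace Pool.Agent.H77.Sym

open Equiv Filter Topology Set
open scoped commutatorElement

theorem seq_nat {α : Type} (P : ℕ → α → Prop) (r : α → α → Prop)
    (h : ∀ n (S : Set α), S.Finite → ∃ y, P n y ∧ ∀ x ∈ S, r x y) :
    ∃ f : ℕ → α, (∀ n, P n (f n)) ∧ ∀ m n, m < n → r (f m) (f n) := by
  choose g h1 h2 using h
  let S : ℕ → {S : Set α // S.Finite} := fun n =>
    Nat.rec ⟨∅, finite_empty⟩ (fun n T => ⟨insert (g n T.1 T.2) T.1, T.2.insert _⟩) n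
  refine ⟨fun n => g n (S n).1 (S n).2, fun n => h1 _ _ _, fun m n hmn => h2 _ _ _ _ ?_⟩
  induction n, hmn using Nat.le_induction with
  | base => exact mem_insert _ _
  | succ n _ ih => exact mem_insert_of_mem _ ih

theorem seq_cnt {α K : Type} [Countable K] [Nonempty K] (P : K → α → Prop) (r : α → α → Prop)
    (hr : ∀ x y, r x y → r y x) (h : ∀ k (S : Set α), S.Finite → ∃ y, P k y ∧ ∀ x ∈ S, r x y) :
    ∃ f : K → α, (∀ k, P k (f k)) ∧ ∀ k l, k ≠ l → r (f k) (f l) := by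
  obtain ⟨e, he⟩ := exists_injective_nat K
  obtain ⟨f, h1, h2⟩ := seq_nat (fun n y => ∀ k, e k = n → P k y) r fun n S hS => by
    by_cases hn : ∃ k, e k = n
    · obtain ⟨k, rfl⟩ := hn
      obtain ⟨y, a, b⟩ := h k S hS
      exact ⟨y, fun l hl => he hl ▸ a, b⟩
    · obtain ⟨y, -, b⟩ := h (Classical.arbitrary K) S hS
      exact ⟨y, fun l hl => absurd ⟨l, hl⟩ hn, b⟩
  refine ⟨fun k => f (e k), fun k => h1 _ k rfl, fun k l hkl => ?_⟩
  rcases lt_or_gt_of_ne (he.ne hkl) with h | h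
  · exact h2 _ _ h
  · exact hr _ _ (h2 _ _ h)

variable {X : Type}

theorem ext_perm [Countable X] {s : Set X} (f : X → X) (hf : InjOn f s) (h1 : sᶜ.Infinite)
    (h2 : (f '' s)ᶜ.Infinite) : ∃ g : Perm X, ∀ x ∈ s, g x = f x := by
  haveI := h1.to_subtype
  let e : s ↪ X := ⟨fun x => f x, fun x y h => Subtype.ext (hf x.2 y.2 h)⟩
  have : range e = f '' s := (image_eq_range f s).symm
  haveI : Infinite ((range e)ᶜ : Set X) := by rw [this]; exact h2.to_subtype
  obtain ⟨g, hg⟩ := Cardinal.extend_function e nonempty_equiv_of_countable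
  exact ⟨g, fun x hx => hg ⟨x, hx⟩⟩

theorem emb_into {K : Type} [Countable K] {M : Set X} (hM : M.Infinite) :
    ∃ e : K ↪ X, ∀ k, e k ∈ M := by
  obtain ⟨e, he⟩ := exists_injective_nat K
  exact ⟨⟨fun k => hM.natEmbedding M (e k), fun a b h =>
    he ((hM.natEmbedding M).injective (Subtype.ext h))⟩, fun k => Subtype.property _⟩

theorem conj_into [Countable X] [Infinite X] {C M : Set X} (hC : Cᶜ.Infinite) (hM : M.Infinite) :
    ∃ g : Perm X, ∀ x ∈ C, g x ∈ M := by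
  obtain ⟨e, he⟩ := emb_into (K := X ⊕ X) hM
  obtain ⟨g, hg⟩ := ext_perm (s := C) (fun x => e (.inl x))
    (fun a _ b _ h => by simpa using h) hC
    (infinite_of_injective_forall_mem (f := fun x => e (.inr x))
      (fun a b h => by simpa using h) fun x ⟨y, _, h⟩ => by simpa using h)
  exact ⟨g, fun x hx => by rw [hg x hx]; exact he _⟩

theorem via_surj (j : X ↪ X) (g : Perm X) (h : ∀ x ∉ range j, g x = x) :
    ∃ σ : Perm X, g = σ.viaEmbedding j := by
  have key : ∀ g : Perm X, (∀ x ∉ range j, g x = x) → ∀ p, ∃ q, j q = g (j p) := by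
    intro g h p
    by_contra h'
    exact h' ⟨p, (g.injective (h _ h')).symm⟩
  choose f hf using key g h
  choose f' hf' using key g⁻¹ fun x hx => by rw [Perm.inv_eq_iff_eq, h x hx]
  refine ⟨⟨f, f', fun p => j.injective (by rw [hf', hf]; simp),
    fun p => j.injective (by rw [hf, hf']; simp)⟩, Perm.ext fun x => ?_⟩
  by_cases hx : x ∈ range j
  · obtain ⟨p, rfl⟩ := hx
    rw [Perm.viaEmbedding_apply, ← hf]; rfl
  · rw [Perm.viaEmbedding_apply_of_notMem _ _ _ hx, h x hx]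

theorem via_move {I : Type} {ι : I ↪ X} {a : Perm I} {x : X} (h : a.viaEmbedding ι x ≠ x) :
    ∃ i, x = ι i ∧ a i ≠ i := by
  by_cases hx : x ∈ range ι
  · obtain ⟨i, rfl⟩ := hx
    exact ⟨i, rfl, fun h' => h (by rw [Perm.viaEmbedding_apply, h'])⟩
  · exact absurd (Perm.viaEmbedding_apply_of_notMem _ _ _ hx) h

def PW (u : ℕ → Perm X) : Prop := ∀ x, ∀ᶠ n in atTop, u n x = x

def Nb (u : ℕ → Perm X) (p : X) : Set X := {q | q = p ∨ ∃ n, q = u n p}

theorem fin_val {u : ℕ → X} {p : X} (h : ∀ᶠ n in atTop, u n = p) :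
    {q | q = p ∨ ∃ n, q = u n}.Finite := by
  obtain ⟨N, hN⟩ := eventually_atTop.1 h
  refine (((finite_lt_nat N).image u).insert p).subset ?_
  rintro q (rfl | ⟨n, rfl⟩)
  · exact mem_insert _ _
  · by_cases hn : n < N
    · exact mem_insert_of_mem _ ⟨n, hn, rfl⟩
    · exact Or.inl (hN n (not_lt.1 hn))

theorem sparse {K : Type} [Countable K] [Nonempty K] {u : ℕ → Perm X} (hu : PW u)
    (P : K → X → Prop) (h : ∀ k (F : Set X), F.Finite → ∃ x ∉ F, P k x) :
    ∃ f : K ↪ X, (∀ k, P k (f k)) ∧ ∀ k l, k ≠ l → Disjoint (Nb u (f k)) (Nb u (f l)) := by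
  obtain ⟨f, h1, h2⟩ := seq_cnt P (fun x y => Disjoint (Nb u x) (Nb u y))
    (fun _ _ h => h.symm) fun k S hS => by
      have a : ∀ q, {y | y = q ∨ ∃ n, y = (u n)⁻¹ q}.Finite := fun q =>
        fin_val ((hu q).mono fun n hn => by rw [Perm.inv_eq_iff_eq, hn])
      obtain ⟨y, hy, hP⟩ := h k _ (hS.biUnion fun x _ => (fin_val (hu x)).biUnion fun q _ => a q)
      refine ⟨y, hP, fun x hx => disjoint_left.2 fun q h1 h2 => hy ?_⟩
      refine mem_biUnion hx (mem_biUnion (s := Nb u x) h1 ?_)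
      rcases h2 with rfl | ⟨n, rfl⟩
      · exact Or.inl rfl
      · exact Or.inr ⟨n, by simp⟩
  refine ⟨⟨f, fun k l hkl => by_contra fun h => ?_⟩, h1, h2⟩
  exact disjoint_left.1 (h2 k l h) (Or.inl rfl) (Or.inl hkl)

theorem lemZ [Infinite X] {u : ℕ → Perm X} (hu : PW u) (P : ℕ → X → Prop)
    (h : ∀ s (F : Set X), F.Finite → ∃ x ∉ F, P s x) :
    ∃ (b : Perm X) (A : Set X) (x : ℕ → X), Aᶜ.Infinite ∧ Function.Injective x ∧
      (∀ n, ∀ q ∉ A, ⁅u n, b⁆ q = q) ∧ ∀ s, P s (x s) ∧ ∀ n, u n (x s) ≠ x s →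
        ⁅u n, b⁆ (u n (x s)) ≠ u n (x s) := by
  obtain ⟨f, h1, h2⟩ := sparse (K := ℕ × Option Bool) hu
    (fun k x => k.2 = some true → P k.1 x) fun k F hF => by
      obtain ⟨x, a, b⟩ := h k.1 F hF
      exact ⟨x, a, fun _ => b⟩
  let c : Perm (ℕ × Option Bool) := prodCongrRight fun _ => optionCongr boolNot
  let A : Set X := {q | ∃ s t, q ∈ Nb u (f (s, some t))}
  have hb : ∀ q, c.viaEmbedding f q ≠ q → ∃ s t, q = f (s, some t) := by
    intro q hq
    obtain ⟨⟨s, _ | t⟩, rfl, h⟩ := via_move hq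
    · exact absurd rfl h
    · exact ⟨s, t, rfl⟩
  refine ⟨c.viaEmbedding f, A, fun s => f (s, some true),
    infinite_of_injective_forall_mem (f := fun s => f (s, none))
      (fun a b h => by simpa using h) fun s ⟨s', t, h⟩ =>
        disjoint_left.1 (h2 (s, none) (s', some t) (by simp)) (Or.inl rfl) h,
    fun a b h => by simpa using h, fun n q hq => ?_, fun s => ⟨h1 (s, some true) rfl, fun n hn => ?_⟩⟩
  · have a1 : c.viaEmbedding f q = q := by_contra fun h =>
      let ⟨s, t, e⟩ := hb q h; hq ⟨s, t, Or.inl e⟩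
    have a2 : c.viaEmbedding f ((u n)⁻¹ q) = (u n)⁻¹ q := by_contra fun h =>
      let ⟨s, t, e⟩ := hb _ h; hq ⟨s, t, Or.inr ⟨n, by rw [← e]; simp⟩⟩
    have a3 : (c.viaEmbedding f)⁻¹ q = q := by rw [Perm.inv_eq_iff_eq, a1]
    simp only [commutatorElement_def, Perm.mul_apply, a2, a3]
    simp
  · have a1 : c.viaEmbedding f (u n (f (s, some true))) = u n (f (s, some true)) :=
      by_contra fun h => by
        obtain ⟨s', t, e⟩ := hb _ h
        by_cases hk : (s, some true) = (s', some t)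
        · exact hn (e.trans (congrArg f hk.symm))
        · exact disjoint_left.1 (h2 _ _ hk) (Or.inr ⟨n, rfl⟩) (Or.inl e)
    have a3 : (c.viaEmbedding f)⁻¹ (u n (f (s, some true))) = u n (f (s, some true)) := by
      rw [Perm.inv_eq_iff_eq, a1]
    simp only [commutatorElement_def, Perm.mul_apply, a3]
    simp [Perm.viaEmbedding_apply, c]

theorem split [Infinite X] {v : ℕ → Perm X} (hv : PW v) : ∃ (R R' : Set X) (w : ℕ → Perm X),
    R.Infinite ∧ R'.Infinite ∧ PW w ∧ (∀ n, ∀ x ∈ R', w n x = x) ∧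
      ∀ n, ∀ x ∈ R, w n x = v n x := by
  classical
  obtain ⟨f, -, h2⟩ := sparse (K := ℕ × Bool) hv (fun _ _ => True) fun _ F hF =>
    let ⟨x, hx⟩ := hF.infinite_compl.nonempty; ⟨x, hx, trivial⟩
  let R : Set X := range fun s => f (s, true)
  have a : ∀ n k l, v n (f k) = f l → k = l := fun n k l h => by_contra fun h' =>
    disjoint_left.1 (h2 k l h') (Or.inr ⟨n, rfl⟩) (Or.inl h)
  let w0 : ℕ → X → X := fun n q =>
    if q ∈ R then v n q else if (v n).symm q ∈ R then (v n).symm q else q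
  have inv : ∀ n, Function.Involutive (w0 n) := by
    intro n q
    by_cases h1 : q ∈ R
    · by_cases h3 : v n q ∈ R
      · obtain ⟨s, rfl⟩ := h1
        obtain ⟨s', e⟩ := h3
        have := a n _ _ e.symm
        have e' : v n (f (s, true)) = f (s, true) := by rw [← e, this]
        have hm : f (s, true) ∈ R := ⟨s, rfl⟩
        simp [w0, e', hm]
      · simp [w0, h1, h3]
    · by_cases h3 : (v n).symm q ∈ R <;> simp [w0, h1, h3]
  refine ⟨R, range fun s => f (s, false), fun n => (inv n).toPerm,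
    infinite_range_of_injective fun a b h => by simpa using h,
    infinite_range_of_injective fun a b h => by simpa using h,
    fun x => (hv x).mono fun n hn => ?_, ?_, fun n x hx => if_pos hx⟩
  · have : (v n).symm x = x := by rw [symm_apply_eq, hn]
    simp [w0, hn, this]
  · rintro n _ ⟨s, rfl⟩
    have h1 : f (s, false) ∉ R := fun ⟨s', e⟩ => by simpa using e
    have h3 : (v n).symm (f (s, false)) ∉ R := fun ⟨s', e⟩ => by
      have := a n (s', true) (s, false) (by simp only at e; rw [e]; simp)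
      simp at this
    simp [w0, h1, h3]

theorem cut {G : Type} [Group G] (A A' w B : G) (h1 : Commute w A')
    (h2 : Commute (w * A⁻¹ * w⁻¹) B) : ⁅⁅A * A', w⁆, B⁆ = ⁅A, B⁆ := by
  have e : ⁅A * A', w⁆ = A * (w * A⁻¹ * w⁻¹) := by
    rw [commutatorElement_def, mul_assoc A A' w, ← h1.eq]
    group
  rw [e, commutatorElement_def, commutatorElement_def, mul_assoc A, h2.eq]
  group

abbrev I (X : Type) : Type := ℕ × ℤ × X

def Phi : (ℕ → ℤ → Perm X) →* Perm (I X) :=
  MonoidHom.mk' (fun g => prodCongrRight fun n => prodCongrRight (g n)) fun _ _ => rfl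

theorem Phi_apply (g : ℕ → ℤ → Perm X) (i : I X) : Phi g i = (i.1, i.2.1, g i.1 i.2.1 i.2.2) := rfl

def sh : Perm (I X) := prodCongrRight fun _ => prodCongr (Equiv.addRight 1) (Equiv.refl X)

theorem sh_conj (g : ℕ → ℤ → Perm X) : sh * Phi g * sh⁻¹ = Phi fun n k => g n (k - 1) := by
  rw [mul_inv_eq_iff_eq_mul]
  ext i <;> simp [sh, Phi_apply]

def jj (ι : I X ↪ X) (n : ℕ) : X ↪ X := ⟨fun p => ι (n, 0, p), fun a b h => by simpa using h⟩

theorem cut' (ι : I X ↪ X) (w : Perm X) (n : ℕ) (a : ℕ → ℤ → Perm X) (b : Perm (I X))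
    (h1 : ∀ k p, a n k p ≠ p → w (ι (n, k, p)) ∉ range ι)
    (h2 : ∀ m k p, m ≠ n → w (ι (m, k, p)) = ι (m, k, p)) :
    ⁅⁅(Phi a).viaEmbedding ι, w⁆, b.viaEmbedding ι⁆ =
      Perm.viaEmbeddingHom ι ⁅Phi (Pi.mulSingle n (a n)), b⁆ := by
  have e : a = Pi.mulSingle n (a n) * Function.update a n 1 := funext fun m => by
    by_cases h : m = n
    · subst h; simp
    · simp [h]
  rw [map_commutatorElement]
  conv_lhs => rw [e, ← Perm.viaEmbeddingHom_apply, map_mul, map_mul]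
  refine cut _ _ _ _ (Perm.Disjoint.commute fun x => ?_) (Perm.Disjoint.commute fun x => ?_)
  · refine or_iff_not_imp_right.2 fun h => ?_
    obtain ⟨⟨m, k, p⟩, rfl, h'⟩ := via_move h
    refine h2 m k p ?_
    rintro rfl
    exact h' (by rw [Phi_apply, Function.update_self]; rfl)
  · refine or_iff_not_imp_right.2 fun h => ?_
    obtain ⟨i, rfl, -⟩ := via_move h
    have : (Phi (Pi.mulSingle n (a n))).viaEmbedding ι (w⁻¹ (ι i)) = w⁻¹ (ι i) := by
      by_contra h
      obtain ⟨⟨m, k, p⟩, e', h⟩ := via_move h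
      by_cases hm : m = n
      · subst hm
        refine h1 k p (by simpa [Phi_apply] using h) ⟨i, ?_⟩
        rw [← e']; simp
      · simp [Phi_apply, hm] at h
    rw [Perm.mul_apply, Perm.mul_apply, ← Perm.eq_inv_iff_eq, Perm.inv_eq_iff_eq]
    exact this.symm

def Dec (v : Perm X) (P x y : ℤ → Perm X) : Prop :=
  ∀ k, P k * (P (k - 1))⁻¹ * ⁅x k, y k⁆ = if k = 0 then v else 1

theorem dec_all (v : Perm X) : Dec v (fun k => if 0 ≤ k then v else 1) 1 1 := fun k => by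
  rcases lt_trichotomy k 0 with h | rfl | h
  · simp [h.not_ge, h.ne, show ¬ 1 ≤ k by omega]
  · simp
  · simp [h.le, h.ne', show 1 ≤ k by omega]

theorem dec_even [DecidableEq X] {v : Perm X} (hv : v ∈ evenFin X) : ∃ P x y, Dec v P x y ∧
    {d : ℤ × X | P d.1 d.2 ≠ d.2 ∨ x d.1 d.2 ≠ d.2}.Finite := by
  have key : ∃ P x y : ℕ → Perm X, P 0 = v ∧ (∀ k, P k = ⁅x k, y k⁆ * P (k + 1)) ∧
      {d : ℕ × X | P d.1 d.2 ≠ d.2}.Finite ∧ {d : ℕ × X | x d.1 d.2 ≠ d.2}.Finite := by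
    have fs : ∀ s : Perm X, s.IsSwap → {p | s p ≠ p}.Finite := by
      rintro _ ⟨a, b, -, rfl⟩
      exact (toFinite {a, b}).subset fun p hp => swap_apply_ne_self_iff.1 hp |>.2
    have cons : ∀ (g : Perm X) (Q : ℕ → Perm X), {p | g p ≠ p}.Finite →
        {d : ℕ × X | Q d.1 d.2 ≠ d.2}.Finite →
        {d : ℕ × X | (Nat.casesOn d.1 g Q : Perm X) d.2 ≠ d.2}.Finite := by
      intro g Q h1 h2
      refine ((h1.image fun p => (0, p)).union (h2.image fun d => (d.1 + 1, d.2))).subset ?_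
      rintro ⟨_ | k, p⟩ h
      · exact Or.inl ⟨p, h, rfl⟩
      · exact Or.inr ⟨(k, p), h, rfl⟩
    have step : ∀ s t v : Perm X, s.IsSwap → t.IsSwap →
        (∃ P x y : ℕ → Perm X, P 0 = v ∧ (∀ k, P k = ⁅x k, y k⁆ * P (k + 1)) ∧
          {d : ℕ × X | P d.1 d.2 ≠ d.2}.Finite ∧ {d : ℕ × X | x d.1 d.2 ≠ d.2}.Finite) →
        ∃ P x y : ℕ → Perm X, P 0 = s * t * v ∧ (∀ k, P k = ⁅x k, y k⁆ * P (k + 1)) ∧
          {d : ℕ × X | P d.1 d.2 ≠ d.2}.Finite ∧ {d : ℕ × X | x d.1 d.2 ≠ d.2}.Finite := by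
      rintro s t _ hs ht ⟨P, x, y, rfl, h1, h2, h3⟩
      obtain ⟨c, hc⟩ : ∃ c, c * s⁻¹ * c⁻¹ = t := by
        obtain ⟨a, b, hab, rfl⟩ := hs
        obtain ⟨a', b', hab', rfl⟩ := ht
        exact isConj_iff.1 (Perm.isConj_swap hab hab')
      refine ⟨fun k => Nat.casesOn k (s * t * P 0) P, fun k => Nat.casesOn k s x,
        fun k => Nat.casesOn k c y, rfl, ?_, cons _ _ ?_ h2, cons _ _ (fs s hs) h3⟩
      · rintro (_ | k)
        · simp only [commutatorElement_def, ← hc, mul_assoc]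
          rfl
        · exact h1 k
      · refine (((fs s hs).union (fs t ht)).union (h2.image Prod.snd)).subset fun p hp => ?_
        by_contra h
        simp only [mem_union, not_or, mem_setOf_eq, not_not] at h
        have : P 0 p = p := by_contra fun h' => h.2 ⟨(0, p), h', rfl⟩
        exact hp (by simp [this, h.1.1, h.1.2])
    refine Subgroup.closure_induction_left (p := fun v _ => ∃ P x y : ℕ → Perm X, P 0 = v ∧
      (∀ k, P k = ⁅x k, y k⁆ * P (k + 1)) ∧ {d : ℕ × X | P d.1 d.2 ≠ d.2}.Finite ∧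
      {d : ℕ × X | x d.1 d.2 ≠ d.2}.Finite) ⟨1, 1, 1, rfl, by simp, by simp, by simp⟩ ?_ ?_ hv
    · rintro _ ⟨s, t, hs, ht, rfl⟩ v _ h
      exact step s t v hs ht h
    · rintro _ ⟨s, t, hs, ht, rfl⟩ v _ h
      have i : ∀ s : Perm X, s.IsSwap → s⁻¹ = s := by
        rintro _ ⟨a, b, -, rfl⟩
        rfl
      rw [mul_inv_rev, i s hs, i t ht]
      exact step t s v ht hs h
  obtain ⟨P, x, y, h0, h1, h2, h3⟩ := key
  refine ⟨fun k => if 0 ≤ k then P k.toNat else 1, fun k => if 1 ≤ k then x (k - 1).toNat else 1,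
    fun k => y (k - 1).toNat, fun k => ?_, ?_⟩
  · rcases lt_trichotomy k 0 with h | rfl | h
    · simp [h.not_ge, h.ne, show ¬ 1 ≤ k by omega]
    · simp [h0]
    · obtain ⟨m, rfl⟩ : ∃ m : ℕ, k = m + 1 := ⟨(k - 1).toNat, by omega⟩
      have e : ((m : ℤ) + 1).toNat = m + 1 := by omega
      simp only [h.le, h.ne', if_true, if_false, add_sub_cancel_right, Int.toNat_natCast, e,
        Int.natCast_nonneg, le_add_iff_nonneg_left, h1 m]
      group
  · refine ((h2.image fun d => ((d.1 : ℤ), d.2)).union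
      (h3.image fun d => ((d.1 : ℤ) + 1, d.2))).subset ?_
    rintro ⟨k, p⟩ (h | h)
    · by_cases hk : 0 ≤ k
      · exact Or.inl ⟨(k.toNat, p), by simpa [hk] using h, by simp [hk]⟩
      · simp [hk] at h
    · by_cases hk : 1 ≤ k
      · exact Or.inr ⟨((k - 1).toNat, p), by simpa [hk] using h, by simp; omega⟩
      · simp [hk] at h

end Pool.Agent.H77.Sym
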