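import Pool.Agent.H77.Sym1

set_option autoImplicit false

namespace Pool.Agent.H77.Sym

open Equiv Filter Topology Set
open scoped commutatorElement

variable {X : Type} [TopologicalSpace (Perm X)] [IsTopologicalGroup (Perm X)]

abbrev Null (u : ℕ → Perm X) : Prop := Tendsto u atTop (𝓝 1)

omit [IsTopologicalGroup (Perm X)] in
theorem pick [FirstCountableTopology (Perm X)] (Q : ℕ → Perm X → Prop)
    (h : ∀ n, ∀ U ∈ 𝓝 (1 : Perm X), ∃ z ∈ U, Q n z) : ∃ u, Null u ∧ ∀ n, Q n (u n) := by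
  obtain ⟨B, hB⟩ := (𝓝 (1 : Perm X)).exists_antitone_basis
  choose u h1 h2 using fun n => h n (B n) (hB.mem n)
  exact ⟨u, hB.tendsto h1, h2⟩

theorem null_conj {u : ℕ → Perm X} (h : Null u) (g : Perm X) : Null fun n => g * u n * g⁻¹ := by
  simpa using (h.const_mul g).mul_const g⁻¹

theorem null_cl {u : ℕ → Perm X} (h : Null u) (g : Perm X) : Null fun n => ⁅u n, g⁆ := by
  simpa [commutatorElement_def] using ((h.mul_const g).mul h.inv).mul_const g⁻¹

theorem null_cr {u : ℕ → Perm X} (h : Null u) (g : Perm X) : Null fun n => ⁅g, u n⁆ := by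
  simpa [commutatorElement_def] using ((h.const_mul g).mul_const g⁻¹).mul h.inv

theorem gaughan [Infinite X] [T2Space (Perm X)] (x : X) : ∀ᶠ g in 𝓝 (1 : Perm X), g x = x := by
  classical
  have key : ∀ y z, y ≠ x → z ≠ x → y ≠ z → ∀ᶠ g in 𝓝 (1 : Perm X),
      g x = x ∨ g y = x ∨ g x = z ∨ g y = z := by
    intro y z h1 h2 h3
    have o : IsOpen {g : Perm X | g * swap x y * g⁻¹ * swap x z ≠
        swap x z * (g * swap x y * g⁻¹)} := isOpen_ne_fun (by fun_prop) (by fun_prop)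
    refine mem_of_superset (o.mem_nhds fun h => ?_) fun g hg => by_contra fun h => hg ?_
    · have := congrArg (· x) h
      simp [swap_apply_of_ne_of_ne h1 h3, swap_apply_of_ne_of_ne h2 h3.symm, h3.symm] at this
    · rw [← swap_apply_apply]
      refine Perm.Disjoint.commute fun q => by_contra fun h' => h ?_
      rw [not_or] at h'
      have a := (swap_apply_ne_self_iff.1 h'.1).2
      have b := (swap_apply_ne_self_iff.1 h'.2).2
      simp only [mem_setOf_eq]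
      grind
  obtain ⟨e, he⟩ := emb_into (K := ℕ) (finite_singleton x).infinite_compl
  have d : ∀ a b, a ≠ b → e a ≠ e b := fun a b h => e.injective.ne h
  have k := fun a b h => key (e a) (e b) (he a) (he b) (d a b h)
  filter_upwards [k 0 2 (by decide), k 0 3 (by decide), k 0 4 (by decide), k 1 2 (by decide),
    k 1 3 (by decide), k 1 4 (by decide)] with g h1 h2 h3 h4 h5 h6
  have := g.injective.ne (d 0 1 (by decide))
  have := d 2 3 (by decide)
  have := d 2 4 (by decide)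
  have := d 3 4 (by decide)
  grind

theorem null_pw [Infinite X] [T2Space (Perm X)] {u : ℕ → Perm X} (h : Null u) : PW u :=
  fun x => h.eventually (gaughan x)

theorem key {w v : ℕ → Perm X} (hw : Null w) (ι : I X ↪ X) (P x y : ℕ → ℤ → Perm X)
    (hd : ∀ n, Dec (v n) (P n) (x n) (y n))
    (h1 : ∀ n k p, P n k p ≠ p ∨ x n k p ≠ p → w n (ι (n, k, p)) ∉ range ι)
    (h2 : ∀ n m k p, m ≠ n → w n (ι (m, k, p)) = ι (m, k, p)) :
    Null fun n => (v n).viaEmbedding (jj ι n) := by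
  have a := (null_cl (null_cr hw ((Phi P).viaEmbedding ι)) (sh.viaEmbedding ι)).mul
    (null_cl (null_cr hw ((Phi x).viaEmbedding ι)) ((Phi y).viaEmbedding ι))
  rw [one_mul] at a
  refine a.congr fun n => ?_
  rw [cut' ι _ n P _ (fun k p h => h1 n k p (Or.inl h)) (h2 n),
    cut' ι _ n x _ (fun k p h => h1 n k p (Or.inr h)) (h2 n), ← map_mul,
    ← map_commutatorElement, commutatorElement_def, mul_assoc _ sh, mul_assoc _ _ sh⁻¹,
    ← map_inv, sh_conj, ← map_mul, ← map_mul]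
  have e : (Pi.mulSingle n (P n) * fun m k => (Pi.mulSingle n (P n) : ℕ → ℤ → Perm X)⁻¹ m (k - 1)) *
      ⁅(Pi.mulSingle n (x n) : ℕ → ℤ → Perm X), y⁆ =
      fun m k => if m = n ∧ k = 0 then v n else 1 := by
    funext m k
    by_cases hm : m = n
    · subst hm
      simpa [commutatorElement_def] using hd m k
    · simp [hm, commutatorElement_def]
  rw [e]
  ext q
  by_cases hq : q ∈ range ι
  · obtain ⟨⟨m, k, p⟩, rfl⟩ := hq
    rw [Perm.viaEmbeddingHom_apply, Perm.viaEmbedding_apply, Phi_apply]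
    by_cases h : m = n ∧ k = 0
    · obtain ⟨rfl, rfl⟩ := h
      simp only [and_self, if_true]
      exact (Perm.viaEmbedding_apply (v m) (jj ι m) p).symm
    · rw [Perm.viaEmbedding_apply_of_notMem]
      · simp [h]
      · rintro ⟨p', e⟩
        simp only [jj, Function.Embedding.coeFn_mk, EmbeddingLike.apply_eq_iff_eq,
          Prod.mk.injEq] at e
        exact h ⟨e.1.symm, e.2.1.symm⟩
  · rw [Perm.viaEmbeddingHom_apply, Perm.viaEmbedding_apply_of_notMem _ _ _ hq,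
      Perm.viaEmbedding_apply_of_notMem]
    rintro ⟨p, e⟩
    exact hq ⟨_, e⟩

theorem move [Countable X] [Infinite X] (Q : Perm X → Prop) (hQ : ∀ g z, Q z → Q (g * z * g⁻¹))
    {A M : Set X} (hA : Aᶜ.Infinite) (hM : M.Infinite)
    (h : ∀ U ∈ 𝓝 (1 : Perm X), ∃ z ∈ U, Q z ∧ ∀ x ∉ A, z x = x) :
    ∀ U ∈ 𝓝 (1 : Perm X), ∃ z ∈ U, Q z ∧ ∀ x ∉ M, z x = x := by
  intro U hU
  obtain ⟨g, hg⟩ := conj_into hA hM
  have c : Continuous fun z : Perm X => g * z * g⁻¹ := by fun_prop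
  obtain ⟨z, h1, h2, h3⟩ := h _ (c.continuousAt.preimage_mem_nhds (by simpa using hU))
  refine ⟨_, h1, hQ g z h2, fun x hx => ?_⟩
  rw [Perm.mul_apply, Perm.mul_apply, h3 _ fun h => hx (by simpa using hg _ h)]
  simp

omit [TopologicalSpace (Perm X)] [IsTopologicalGroup (Perm X)] in
theorem blocks {K : Type} [Countable K] {N : Set X} (hN : N.Infinite) : ∃ M : K → Set X,
    (∀ i, (M i).Infinite) ∧ (∀ i, M i ⊆ N) ∧ ∀ i j x, x ∈ M i → x ∈ M j → i = j := by
  obtain ⟨e, he⟩ := emb_into (K := K × ℕ) hN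
  refine ⟨fun i => range fun s => e (i, s),
    fun i => infinite_range_of_injective fun a b h => by simpa using h, ?_, ?_⟩
  · rintro i _ ⟨s, rfl⟩
    exact he _
  · rintro i j _ ⟨s, rfl⟩ ⟨t, h⟩
    simp only [EmbeddingLike.apply_eq_iff_eq, Prod.mk.injEq] at h
    exact h.1.symm

omit [TopologicalSpace (Perm X)] [IsTopologicalGroup (Perm X)] in
theorem conj_moves (g z : Perm X) : {x | (g * z * g⁻¹) x ≠ x} = g '' {x | z x ≠ x} := by
  ext x
  obtain ⟨y, rfl⟩ := g.surjective x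
  simp

variable [Countable X] [Infinite X] [T2Space (Perm X)] [FirstCountableTopology (Perm X)]

theorem caseA1 (h : ∀ U ∈ 𝓝 (1 : Perm X), ∃ z ∈ U, {x | z x ≠ x}.Infinite) {N : Set X}
    (hN : N.Infinite) {U : Set (Perm X)} (hU : U ∈ 𝓝 1) :
    ∃ j : X ↪ X, range j ⊆ N ∧ ∀ σ : Perm X, σ.viaEmbedding j ∈ U := by
  obtain ⟨u, hu, h1⟩ := pick (fun _ z => {x | z x ≠ x}.Infinite) fun _ => h
  obtain ⟨b, A, x, hA, hx, h2, h3⟩ := lemZ (null_pw hu) (fun s x => u (Nat.unpair s).1 x ≠ x)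
    fun s F hF => let ⟨x, a, b⟩ := ((h1 (Nat.unpair s).1).diff hF).nonempty; ⟨x, b, a⟩
  have J : ∀ U ∈ 𝓝 (1 : Perm X), ∃ z ∈ U, {x | z x ≠ x}.Infinite ∧ ∀ x ∉ A, z x = x := by
    intro U hU
    obtain ⟨n, hn⟩ := ((null_cl hu b).eventually hU).exists
    refine ⟨_, hn, infinite_of_injective_forall_mem (f := fun t => u n (x (Nat.pair n t)))
      (fun a b h => by simpa using hx ((u n).injective h)) fun t => (h3 _).2 n ?_, h2 n⟩
    simpa using (h3 (Nat.pair n t)).1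
  obtain ⟨M, m1, m2, m3⟩ := blocks (K := ℕ) hN
  obtain ⟨w, hw, h4⟩ := pick (fun n z => {x | z x ≠ x}.Infinite ∧ ∀ x ∉ M n, z x = x) fun n =>
    move _ (fun g z hz => by rw [conj_moves]; exact hz.image g.injective.injOn) hA (m1 n) J
  obtain ⟨ι, i1, i2⟩ := sparse (K := I X) (null_pw hw) (fun i x => w i.1 x ≠ x)
    fun i F hF => let ⟨x, a, b⟩ := ((h4 i.1).1.diff hF).nonempty; ⟨x, b, a⟩
  have i3 : ∀ i, ι i ∈ M i.1 := fun i => by_contra fun h => i1 i ((h4 _).2 _ h)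
  by_contra hc
  have : ∀ n, ∃ σ : Perm X, σ.viaEmbedding (jj ι n) ∉ U := fun n => by_contra fun h' =>
    hc ⟨jj ι n, by rintro _ ⟨p, rfl⟩; exact m2 n (i3 (n, 0, p)),
      fun σ => by_contra fun h => h' ⟨σ, h⟩⟩
  choose v hv using this
  have := key hw ι _ _ _ (fun n => dec_all (v n)) ?_ ?_
  · obtain ⟨n, hn⟩ := (this.eventually hU).exists
    exact hv n hn
  · rintro n k p - ⟨l, e⟩
    by_cases hl : l = (n, k, p)
    · exact i1 (n, k, p) (by rw [← e, hl])
    · exact disjoint_left.1 (i2 _ _ hl) (Or.inl rfl) (Or.inr ⟨n, e⟩)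
  · exact fun n m k p hm => (h4 n).2 _ fun h => hm (m3 _ _ _ (i3 (m, k, p)) h)

theorem caseA2 (h : ∀ U ∈ 𝓝 (1 : Perm X), ∃ z ∈ U, {x | z x ≠ x}.Infinite) :
    ∃ M : Set X, M.Infinite ∧ ∀ v, PW v → (∀ n, ∀ x ∉ M, v n x = x) → Null v := by
  obtain ⟨B, hB⟩ := (𝓝 (1 : Perm X)).exists_antitone_basis
  let x0 : X := Classical.arbitrary X
  choose g g1 g2 using fun (n : ℕ) (j : X ↪ X) =>
    caseA1 h ((infinite_range_of_injective j.injective).diff (finite_singleton (j x0))) (hB.mem n)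
  let j : ℕ → X ↪ X := fun n => Nat.rec (Function.Embedding.refl X) g n
  have a : ∀ m n, m < n → range (j n) ⊆ range (j m) \ {j m x0} := by
    intro m n hmn
    induction n, hmn using Nat.le_induction with
    | base => exact g1 m (j m)
    | succ n _ ih => exact ((g1 n (j n)).trans diff_subset).trans ih
  refine ⟨range fun n => j n x0, infinite_range_of_injective fun m n e => by_contra fun h => ?_,
    fun v hv hs => hB.1.tendsto_right_iff.2 fun k _ => ?_⟩
  · rcases lt_or_gt_of_ne h with h | h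
    · exact (a m n h ⟨x0, rfl⟩).2 e.symm
    · exact (a n m h ⟨x0, rfl⟩).2 e
  · filter_upwards [(eventually_all_finite (finite_le_nat (k + 1))).2 fun m _ => hv (j m x0)]
      with n hn
    obtain ⟨σ, e⟩ := via_surj (j (k + 1)) (v n) fun x hx => by_contra fun h' => by
      obtain ⟨m, rfl⟩ : x ∈ range fun n => j n x0 := by_contra fun h => h' (hs n x h)
      exact h' (hn m (not_lt.1 fun h => hx (a _ _ h ⟨x0, rfl⟩).1))
    rw [e]
    exact g2 k (j k) σ

omit [TopologicalSpace (Perm X)] [IsTopologicalGroup (Perm X)] [Infinite X] [T2Space (Perm X)]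
  [FirstCountableTopology (Perm X)] in
theorem exhaust [Nonempty X] {v : ℕ → Perm X} {e : ℕ → X} (he : Function.Surjective e)
    (h : ∀ n m, m < n → v n (e m) = e m) : PW v := fun x => by
  obtain ⟨m, rfl⟩ := he x
  exact (eventually_gt_atTop m).mono fun n hn => h n m hn

theorem caseA (h : ∀ U ∈ 𝓝 (1 : Perm X), ∃ z ∈ U, {x | z x ≠ x}.Infinite) {U : Set (Perm X)}
    (hU : U ∈ 𝓝 1) : ∃ F : Set X, F.Finite ∧ ∀ g : Perm X, (∀ x ∈ F, g x = x) → g ∈ U := by
  obtain ⟨M, hM, h1⟩ := caseA2 h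
  have h2 : ∀ R : Set X, R.Infinite → ∀ v, PW v → (∀ n, ∀ x ∈ R, v n x = x) → Null v := by
    intro R hR v hv hs
    obtain ⟨g, hg⟩ := conj_into (C := Rᶜ) (by simpa using hR) hM
    have := null_conj (h1 (fun n => g * v n * g⁻¹)
      (fun x => (hv (g⁻¹ x)).mono fun n hn => by simp only [Perm.mul_apply, hn]; simp)
      fun n x hx => ?_) g⁻¹
    · simpa [mul_assoc] using this
    · rw [Perm.mul_apply, Perm.mul_apply, hs n _ (by_contra fun h => hx (by simpa using hg _ h))]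
      simp
  by_contra hc
  obtain ⟨e, he⟩ := exists_surjective_nat X
  have : ∀ n, ∃ g : Perm X, (∀ x ∈ e '' {m | m < n}, g x = x) ∧ g ∉ U := fun n =>
    by_contra fun h' => hc ⟨_, (finite_lt_nat n).image e, fun g hg => by_contra fun h =>
      h' ⟨g, hg, h⟩⟩
  choose v v1 v2 using this
  have hv : PW v := exhaust he fun n m h => v1 n _ ⟨m, h, rfl⟩
  obtain ⟨R, R', w, hR, hR', hw, w1, w2⟩ := split hv
  have a := (h2 R' hR' w hw w1).mul (h2 R hR (fun n => (w n)⁻¹ * v n)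
    (fun x => ((hv x).and (hw x)).mono fun n hn => by
      rw [Perm.mul_apply, hn.1, Perm.inv_eq_iff_eq, hn.2])
    fun n x hx => by rw [Perm.mul_apply, Perm.inv_eq_iff_eq, w2 n x hx])
  obtain ⟨n, hn⟩ := (a.eventually (by simpa using hU : U ∈ 𝓝 (1 * 1))).exists
  have hn' : w n * ((w n)⁻¹ * v n) ∈ U := hn
  exact v2 n (by simpa using hn')

omit [Countable X] [Infinite X] [T2Space (Perm X)] [FirstCountableTopology (Perm X)] in
theorem prodm {K : Type} (M : K → Set X) (m3 : ∀ i j x, x ∈ M i → x ∈ M j → i = j)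
    (J : ∀ i, ∀ U ∈ 𝓝 (1 : Perm X), ∃ z ∈ U, z ≠ 1 ∧ ∀ x ∉ M i, z x = x) {D : Set K}
    (hD : D.Finite) : ∀ U ∈ 𝓝 (1 : Perm X), ∃ w ∈ U, (∀ x, (∀ d ∈ D, x ∉ M d) → w x = x) ∧
      ∀ d ∈ D, ∃ x ∈ M d, w x ≠ x ∧ w x ∈ M d := by
  induction D, hD using Set.Finite.induction_on with
  | empty => exact fun U hU => ⟨1, mem_of_mem_nhds hU, fun _ _ => rfl, by simp⟩
  | @insert d D hd _ ih =>
    intro U hU
    obtain ⟨V, hV, hVU⟩ := exists_nhds_one_split hU
    obtain ⟨w, w1, w2, w3⟩ := ih V hV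
    obtain ⟨z, z1, z2, z3⟩ := J d V hV
    refine ⟨z * w, hVU z z1 w w1, fun x hx => ?_, ?_⟩
    · rw [Perm.mul_apply, w2 x fun d hd => hx d (mem_insert_of_mem _ hd),
        z3 x (hx d (mem_insert _ _))]
    · rintro d' (rfl | hd')
      · obtain ⟨x, hx⟩ : ∃ x, z x ≠ x := by_contra fun h =>
          z2 (Perm.ext fun x => by_contra fun h' => h ⟨x, h'⟩)
        have a : x ∈ M d' := by_contra fun h => hx (z3 x h)
        have b : w x = x := w2 x fun i hi h => hd (m3 _ _ x h a ▸ hi)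
        refine ⟨x, a, by rwa [Perm.mul_apply, b], ?_⟩
        rw [Perm.mul_apply, b]
        exact by_contra fun h => hx (z.injective (z3 _ h))
      · obtain ⟨x, a, b, c⟩ := w3 d' hd'
        have : z (w x) = w x := z3 _ fun h => hd (m3 _ _ _ c h ▸ hd')
        exact ⟨x, a, by rwa [Perm.mul_apply, this], by rwa [Perm.mul_apply, this]⟩

omit [TopologicalSpace (Perm X)] [IsTopologicalGroup (Perm X)] [Infinite X] [T2Space (Perm X)]
  [FirstCountableTopology (Perm X)] [Countable X] in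
theorem even_fin [DecidableEq X] {v : Perm X} (hv : v ∈ evenFin X) : {x | v x ≠ x}.Finite := by
  have : v ∈ Subgroup.closure {σ : Perm X | σ.IsSwap} := by
    refine (Subgroup.closure_le _).2 ?_ hv
    rintro _ ⟨s, t, hs, ht, rfl⟩
    exact mul_mem (Subgroup.subset_closure hs) (Subgroup.subset_closure ht)
  exact mem_closure_isSwap'.1 this

theorem caseB [DecidableEq X] (h : ∀ U ∈ 𝓝 (1 : Perm X), ∃ z ∈ U, z ≠ 1) {U : Set (Perm X)}
    (hU : U ∈ 𝓝 1) :
    ∃ F : Set X, F.Finite ∧ ∀ g ∈ evenFin X, (∀ x ∈ F, g x = x) → g ∈ U := by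
  obtain ⟨u, hu, h1⟩ := pick (fun _ z => z ≠ 1) fun _ => h
  obtain ⟨b, A, x, hA, -, h2, h3⟩ := lemZ (null_pw hu) (fun s x => ∃ n ≥ s, u n x ≠ x)
    fun s F hF => by
      obtain ⟨n, a, b⟩ := (((eventually_all_finite hF).2 fun x _ => null_pw hu x).and
        (eventually_ge_atTop s)).exists
      obtain ⟨x, hx⟩ : ∃ x, u n x ≠ x := by_contra fun h =>
        h1 n (Perm.ext fun x => by_contra fun h' => h ⟨x, h'⟩)
      exact ⟨x, fun h => hx (a x h), n, b, hx⟩
  have J : ∀ U ∈ 𝓝 (1 : Perm X), ∃ z ∈ U, z ≠ 1 ∧ ∀ x ∉ A, z x = x := by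
    intro U hU
    obtain ⟨s, hs⟩ := eventually_atTop.1 ((null_cl hu b).eventually hU)
    obtain ⟨n, a, c⟩ := (h3 s).1
    exact ⟨_, hs n a, fun e => (h3 s).2 n c (by rw [e]; rfl), h2 n⟩
  obtain ⟨M, m1, -, m3⟩ := blocks (K := I X) (infinite_univ (α := X))
  by_contra hc
  obtain ⟨e, he⟩ := exists_surjective_nat X
  obtain ⟨v, v1, v2⟩ := seq_cnt (K := ℕ × Bool)
    (fun _ (g : Perm X) => g ∈ evenFin X ∧ g ∉ U)
    (fun g g' => {x | g x ≠ x}.Finite → {x | g' x ≠ x}.Finite → Perm.Disjoint g g')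
    (fun _ _ h a b => (h b a).symm) fun _ S hS => by
      have fi : {x | ∃ g ∈ S, {x | g x ≠ x}.Finite ∧ g x ≠ x}.Finite :=
        ((hS.subset (sep_subset _ fun g => {x | g x ≠ x}.Finite)).biUnion
          (t := fun g : Perm X => {x | g x ≠ x}) fun g hg => hg.2).subset fun x ⟨g, a, b, c⟩ => mem_iUnion₂.2 ⟨g, ⟨a, b⟩, c⟩
      by_contra h'
      refine hc ⟨_, fi, fun g hg hF => by_contra fun hU => h' ⟨g, ⟨hg, hU⟩, fun g' hg' a _ x => ?_⟩⟩
      exact or_iff_not_imp_left.2 fun h => hF x ⟨g', hg', a, h⟩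
  have v3 : ∀ k l x, v k x ≠ x → v l x ≠ x → k = l := fun k l x a b => by_contra fun h =>
    (v2 k l h (even_fin (v1 k).1) (even_fin (v1 l).1) x).elim a b
  choose P y z d1 d2 using fun n => dec_even (v1 (n, true)).1
  obtain ⟨w, hw, h4⟩ := pick _ fun n => prodm M m3 (fun i =>
    move _ (fun g z hz => by simpa using hz) hA (m1 i) J) ((d2 n).image fun d => (n, d))
  have : ∀ i : I X, ∃ q ∈ M i, P i.1 i.2.1 i.2.2 ≠ i.2.2 ∨ y i.1 i.2.1 i.2.2 ≠ i.2.2 →
      w i.1 q ≠ q ∧ w i.1 q ∈ M i := fun i => by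
    by_cases hi : P i.1 i.2.1 i.2.2 ≠ i.2.2 ∨ y i.1 i.2.1 i.2.2 ≠ i.2.2
    · obtain ⟨q, a, b⟩ := (h4 i.1).2 i ⟨i.2, hi, rfl⟩
      exact ⟨q, a, fun _ => b⟩
    · obtain ⟨q, a⟩ := (m1 i).nonempty
      exact ⟨q, a, fun h => absurd h hi⟩
  choose f f1 f2 using this
  let ι : I X ↪ X := ⟨f, fun i j h => m3 i j _ (f1 i) (h ▸ f1 j)⟩
  have k := key hw ι P y z d1 ?_ ?_
  · have : ∀ n, ∃ x, v (n, false) x ≠ x := fun n => by_contra fun h => (v1 (n, false)).2
      (by rw [show v (n, false) = 1 from Perm.ext fun x => by_contra fun h' => h ⟨x, h'⟩]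
          exact mem_of_mem_nhds hU)
    choose r hr using this
    choose! c hc using fun x (h : x ∈ {x | ∃ n, v (n, true) x ≠ x}) => h
    obtain ⟨g, hg⟩ := ext_perm (s := {x | ∃ n, v (n, true) x ≠ x}) (fun x => ι (c x, 0, x))
      (fun a _ b _ h => by simpa using (show c a = c b ∧ a = b by simpa using h).2)
      (infinite_of_injective_forall_mem (f := r)
        (fun a b h => congrArg Prod.fst (v3 _ _ _ (hr a) (h ▸ hr b)))
        fun n ⟨m, h⟩ => by simpa using v3 _ _ _ (hr n) h)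
      (infinite_of_injective_forall_mem (f := fun x => ι (0, 1, x))
        (fun a b h => by simpa using h) fun x ⟨y, _, h⟩ => by simpa using h)
    have g1 : ∀ n x, v (n, true) x ≠ x → g x = jj ι n x := fun n x h => by
      have : c x = n := by simpa using v3 _ _ _ (hc x ⟨n, h⟩) h
      rw [hg x ⟨n, h⟩, this]; rfl
    have g2 : ∀ n, g⁻¹ * (v (n, true)).viaEmbedding (jj ι n) * g⁻¹⁻¹ = v (n, true) := by
      intro n
      ext x
      rw [inv_inv, Perm.mul_apply, Perm.mul_apply, Perm.inv_eq_iff_eq]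
      by_cases hx : v (n, true) x = x
      · rw [hx]
        by_contra h
        obtain ⟨i, a, b⟩ := via_move h
        rw [← g1 n i b] at a
        exact b (g.injective a ▸ hx)
      · rw [g1 n x hx, Perm.viaEmbedding_apply, g1 n _ fun h => hx ((v _).injective h)]
    obtain ⟨n, hn⟩ := ((null_conj k g⁻¹).eventually hU).exists
    exact (v1 (n, true)).2 (g2 n ▸ hn)
  · rintro n k p h ⟨l, e⟩
    have a := f2 (n, k, p) h
    have : l = (n, k, p) := m3 _ _ _ (f1 l) (by have := a.2; rw [show f l = _ from e]; exact this)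
    exact a.1 (by rw [this] at e; exact e.symm)
  · refine fun n m k p hm => (h4 n).1 _ ?_
    rintro _ ⟨d, -, rfl⟩ h
    exact hm (congrArg Prod.fst (m3 _ _ _ (f1 (m, k, p)) h))

omit [TopologicalSpace (Perm X)] [IsTopologicalGroup (Perm X)] [T2Space (Perm X)]
  [FirstCountableTopology (Perm X)] [Countable X] in
theorem parity [DecidableEq X] {g z : Perm X} (hg : g ∈ finitary X) (hz : z ∈ finitary X)
    (h1 : g ∉ evenFin X) (h2 : z ∉ evenFin X) : z⁻¹ * g ∈ evenFin X := by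
  obtain ⟨a, b, hab⟩ := exists_pair_ne X
  let E := Subgroup.closure
    {g : Equiv.Perm X | ∃ s t : Equiv.Perm X, s.IsSwap ∧ t.IsSwap ∧ g = s * t}
  have hs : (swap a b).IsSwap := ⟨a, b, hab, rfl⟩
  have key : ∀ g ∈ finitary X, g ∈ E ∨ swap a b * g ∈ E := by
    intro g hg
    have st : ∀ t g : Perm X, t.IsSwap → g ∈ E ∨ swap a b * g ∈ E →
        t * g ∈ E ∨ swap a b * (t * g) ∈ E := by
      rintro t g ht (h | h)
      · exact Or.inr (mul_assoc _ t g ▸ mul_mem (Subgroup.subset_closure ⟨_, _, hs, ht, rfl⟩) h)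
      · have := mul_mem (Subgroup.subset_closure ⟨_, _, ht, hs, rfl⟩ : _ ∈ E) h
        rw [mul_assoc, swap_mul_self_mul] at this
        exact Or.inl this
    refine Subgroup.closure_induction_left (p := fun g _ => g ∈ E ∨ swap a b * g ∈ E)
      (Or.inl (one_mem _)) (fun t ht g _ => st t g ht) ?_ (mem_closure_isSwap'.2 hg)
    rintro _ ⟨c, d, h, rfl⟩ g _
    exact st _ g ⟨c, d, h, rfl⟩
  have := mul_mem (inv_mem ((key z hz).resolve_left h2)) ((key g hg).resolve_left h1)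
  rwa [mul_inv_rev, mul_assoc, inv_mul_cancel_left] at this

theorem main [DecidableEq X] :
    ∃ N ∈ ({{1}, evenFin X, finitary X, univ} : Set (Set (Perm X))), ∀ U : Set (Perm X),
      U ∈ 𝓝 1 ↔ ∃ F : Finset X, {g | g ∈ N ∧ ∀ x ∈ F, g x = x} ⊆ U := by
  have st : ∀ F : Set X, F.Finite → {g : Perm X | ∀ x ∈ F, g x = x} ∈ 𝓝 1 := fun F hF =>
    (eventually_all_finite hF).2 fun x _ => gaughan x
  have fin : ∀ N ∈ 𝓝 (1 : Perm X), (∀ U ∈ 𝓝 (1 : Perm X), ∃ F : Set X, F.Finite ∧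
      ∀ g ∈ N, (∀ x ∈ F, g x = x) → g ∈ U) → ∀ U : Set (Perm X),
      U ∈ 𝓝 1 ↔ ∃ F : Finset X, {g | g ∈ N ∧ ∀ x ∈ F, g x = x} ⊆ U := by
    refine fun N hN h U => ⟨fun hU => ?_, fun ⟨F, hF⟩ =>
      mem_of_superset (inter_mem hN (st F F.finite_toSet)) hF⟩
    obtain ⟨F, a, b⟩ := h U hU
    exact ⟨a.toFinset, fun g hg => b g hg.1 fun x hx => hg.2 x (a.mem_toFinset.2 hx)⟩
  have nb : ∀ N : Set (Perm X), N ∉ 𝓝 1 → ∀ U ∈ 𝓝 (1 : Perm X), ∃ z ∈ U, z ∉ N :=
    fun N hN U hU => by_contra fun h => hN (mem_of_superset hU fun z hz => by_contra fun h' =>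
      h ⟨z, hz, h'⟩)
  by_cases h1 : {1} ∈ 𝓝 (1 : Perm X)
  · exact ⟨_, by simp, fin _ h1 fun U hU => ⟨∅, finite_empty, fun g hg _ =>
      hg ▸ mem_of_mem_nhds hU⟩⟩
  by_cases h2 : evenFin X ∈ 𝓝 (1 : Perm X)
  · exact ⟨_, by simp, fin _ h2 fun U hU => caseB (nb _ h1) hU⟩
  by_cases h3 : finitary X ∈ 𝓝 (1 : Perm X)
  · refine ⟨_, by simp, fin _ h3 fun U hU => ?_⟩
    obtain ⟨V, hV, hVU⟩ := exists_nhds_one_split hU
    obtain ⟨F, a, b⟩ := caseB (nb _ h1) hV
    obtain ⟨z, ⟨⟨z1, z2⟩, z3⟩, z4⟩ := nb _ h2 _ (inter_mem (inter_mem hV h3) (st F a))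
    refine ⟨F, a, fun g hg hF => ?_⟩
    by_cases he : g ∈ evenFin X
    · simpa using hVU 1 (mem_of_mem_nhds hV) g (b g he hF)
    · simpa using hVU z z1 _ (b _ (parity hg z2 he z4) fun x hx => by
        rw [Perm.mul_apply, hF x hx, Perm.inv_eq_iff_eq, z3 x hx])
  · refine ⟨univ, by simp, fin _ univ_mem fun U hU => ?_⟩
    obtain ⟨F, a, b⟩ := caseA (nb _ h3) hU
    exact ⟨F, a, fun g _ => b g⟩

end Pool.Agent.H77.Sym
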