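import Mathlib

set_option autoImplicit false

namespace Pool.Agent.H77.Sym

/-- Finitary even permutations: the subgroup generated by products of two transpositions. -/
def evenFin (X : Type) [DecidableEq X] : Set (Equiv.Perm X) :=
  Subgroup.closure {g : Equiv.Perm X | ∃ s t : Equiv.Perm X, s.IsSwap ∧ t.IsSwap ∧ g = s * t}

/-- Finitary permutations: those moving finitely many points. -/
def finitary (X : Type) : Set (Equiv.Perm X) := {g | {x | g x ≠ x}.Finite}

end Pool.Agent.H77.Sym
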