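import Mathlib

set_option autoImplicit false

namespace Pool.Agent.H77.T2

/-- Operations of arity `n + 1` on the natural numbers. -/
abbrev Op (n : ℕ) : Type := (Fin (n + 1) → ℕ) → ℕ

/-- A clone on `ℕ`: `C n` is the set of its members of arity `n + 1`; it contains all
projections and is closed under composition. -/
structure IsClone (C : ∀ n, Set (Op n)) : Prop where
  proj : ∀ (n : ℕ) (i : Fin (n + 1)), (fun x => x i) ∈ C n
  comp : ∀ (n m : ℕ) (f : Op n) (g : Fin (n + 1) → Op m), f ∈ C n → (∀ i, g i ∈ C m) →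
    (fun x => f fun i => g i x) ∈ C m

/-- The binary operations that are nowhere 1-1: there are no unary `u, v` such that
`(x, y) ↦ f (u x, v y)` is injective on `{x < y}` or injective on `{x > y}`. -/
def T2 : Set (Op 1) :=
  {f | ¬ ∃ u v : ℕ → ℕ,
    Set.InjOn (fun p : ℕ × ℕ => f ![u p.1, v p.2]) {p | p.1 < p.2} ∨
    Set.InjOn (fun p : ℕ × ℕ => f ![u p.1, v p.2]) {p | p.2 < p.1}}

/-- The clone generated by a set `S` of binary operations: the intersection of all clones
containing `S`. -/
def gen (S : Set (Op 1)) (n : ℕ) : Set (Op n) :=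
  {f | ∀ C : ∀ m, Set (Op m), IsClone C → S ⊆ C 1 → f ∈ C n}

end Pool.Agent.H77.T2
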