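import Pool.Agent.H77.T2Defs

set_option autoImplicit false

namespace Pool.Agent.H77.T2

open Filter Set

def Δ : Set (ℕ × ℕ) := {p | p.2 < p.1}

def sel (b : Bool) (p : ℕ × ℕ) : ℕ := if b then p.1 else p.2

/-- Nowhere 1-1 operations of arbitrary arity. -/
def NW {n : ℕ} (f : Op n) : Prop :=
  ∀ (u : Fin (n + 1) → ℕ → ℕ) (s : Fin (n + 1) → Bool),
    ¬ InjOn (fun p => f fun i => u i (sel (s i) p)) Δ

theorem NW.subst {n m : ℕ} {f : Op n} (hf : NW f) (σ : Fin (n + 1) → Fin (m + 1))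
    (w : Fin (n + 1) → ℕ → ℕ) : NW (fun x : Fin (m + 1) → ℕ => f fun i => w i (x (σ i))) :=
  fun u s h => hf (fun i => w i ∘ u (σ i)) (fun i => s (σ i)) h

theorem not_inj_of_col {F : ℕ × ℕ → ℕ} (j : ℕ) {S : Set ℕ} (hS : S.Finite)
    (h : ∀ i, j < i → F (i, j) ∈ S) : ¬ InjOn F Δ := by
  intro hF
  have hinj : Function.Injective fun k : ℕ => F (j + 1 + k, j) := by
    intro a b hab
    have := hF (show (j + 1 + a, j) ∈ Δ by simp [Δ]; omega)
      (show (j + 1 + b, j) ∈ Δ by simp [Δ]; omega) hab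
    simpa using this
  exact (infinite_range_of_injective hinj) (hS.subset (by
    rintro _ ⟨k, rfl⟩
    exact h _ (by omega)))

theorem shift {F : ℕ × ℕ → ℕ} (hF : InjOn F Δ) : ∃ N, ∀ p ∈ Δ, N ≤ p.2 → F p ≠ 0 := by
  by_cases h : ∃ q ∈ Δ, F q = 0
  · obtain ⟨q, hq, hq0⟩ := h
    refine ⟨q.2 + 1, fun p hp hN h0 => ?_⟩
    have := hF hp hq (h0.trans hq0.symm)
    subst this
    omega
  · exact ⟨0, fun p hp _ h0 => h ⟨p, hp, h0⟩⟩

theorem sel_map (b : Bool) (φ : ℕ → ℕ) (p : ℕ × ℕ) : sel b (φ p.1, φ p.2) = φ (sel b p) := by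
  cases b <;> rfl

theorem inj_sub {F : ℕ × ℕ → ℕ} (hF : InjOn F Δ) {φ : ℕ → ℕ} (hφ : StrictMono φ) :
    InjOn (fun p : ℕ × ℕ => F (φ p.1, φ p.2)) Δ := by
  intro p hp q hq h
  have := hF (show (φ p.1, φ p.2) ∈ Δ from hφ hp) (show (φ q.1, φ q.2) ∈ Δ from hφ hq) h
  simp only [Prod.mk.injEq] at this
  exact Prod.ext (hφ.injective this.1) (hφ.injective this.2)

theorem NW.restrict {n : ℕ} {f g : Op n} (hf : NW f) (h : ∀ x, g x = f x ∨ g x = 0) : NW g := by
  intro u s hg
  obtain ⟨N, hN⟩ := shift hg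
  have hφ : StrictMono fun k : ℕ => k + N := fun a b hab => by simpa using hab
  refine hf (fun i k => u i (k + N)) s ((inj_sub hg hφ).congr fun p hp => ?_)
  have h0 := hN (p.1 + N, p.2 + N) (hφ hp) (by simp)
  simp only [sel_map _ (fun k => k + N)] at h0 ⊢
  exact (h _).resolve_right h0

theorem nw_iff {f : Op 1} : NW f ↔ f ∈ T2 := by
  constructor
  · rintro hf ⟨u, v, h | h⟩
    · refine hf ![u, v] ![false, true] fun p hp q hq e => ?_
      have := h (show p.swap ∈ {p : ℕ × ℕ | p.1 < p.2} from hp)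
        (show q.swap ∈ {p : ℕ × ℕ | p.1 < p.2} from hq) (by
          have e' : ∀ r : ℕ × ℕ, (fun i => ![u, v] i (sel (![false, true] i) r)) =
              ![u r.swap.1, v r.swap.2] := fun r => by
            funext i
            fin_cases i <;> rfl
          simpa only [e'] using e)
      exact Prod.swap_injective this
    · refine hf ![u, v] ![true, false] (h.congr fun p _ => ?_)
      have e' : (fun i => ![u, v] i (sel (![true, false] i) p)) = ![u p.1, v p.2] := by
        funext i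
        fin_cases i <;> rfl
      simp only [e']
  · intro hf u s h
    have e : ∀ p, (fun i => u i (sel (s i) p)) = ![u 0 (sel (s 0) p), u 1 (sel (s 1) p)] :=
      fun p => by
        funext i
        fin_cases i <;> rfl
    simp only [e] at h
    cases h0 : s 0 <;> cases h1 : s 1 <;> simp only [h0, h1, sel] at h
    · have := h (show (1, 0) ∈ Δ by simp [Δ]) (show (2, 0) ∈ Δ by simp [Δ]) rfl
      simp at this
    · refine hf ⟨u 0, u 1, Or.inl fun p hp q hq e => ?_⟩
      exact Prod.swap_injective (h (show p.swap ∈ Δ from hp) (show q.swap ∈ Δ from hq) e)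
    · exact hf ⟨u 0, u 1, Or.inr h⟩
    · have := h (show (2, 0) ∈ Δ by simp [Δ]) (show (2, 1) ∈ Δ by simp [Δ]) rfl
      simp at this

theorem crit {g : ℕ → ℕ → ℕ} (h1 : ∀ y, (range fun z => g z y).Finite)
    (h2 : ∀ y z z', z < y → z' < y → g z y = g z' y) : NW (fun x : Fin 2 → ℕ => g (x 0) (x 1)) := by
  intro u s
  cases hs1 : s 1
  · refine not_inj_of_col 0 (h1 (u 1 0)) fun i _ => ?_
    simp only [hs1, sel]
    exact ⟨_, rfl⟩
  · cases hs0 : s 0
    · by_cases hb : ∃ i, 1 < i ∧ max (u 0 0) (u 0 1) < u 1 i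
      · obtain ⟨i, hi, hm⟩ := hb
        intro h
        have := h (show (i, 0) ∈ Δ by simp [Δ]; omega) (show (i, 1) ∈ Δ from hi) (by
          simp only [hs0, hs1, sel]
          exact h2 _ _ _ (by simpa using (max_lt_iff.1 hm).1) (by simpa using (max_lt_iff.1 hm).2))
        simp at this
      · push Not at hb
        refine not_inj_of_col 1 (S := ⋃ y ∈ Iic (max (u 0 0) (u 0 1)), range fun z => g z y)
          ((finite_Iic _).biUnion fun y _ => h1 y) fun i hi => ?_
        simp only [hs0, hs1, sel]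
        exact mem_biUnion (hb i hi) ⟨_, rfl⟩
    · intro h
      have := h (show (2, 0) ∈ Δ by simp [Δ]) (show (2, 1) ∈ Δ by simp [Δ]) (by
        simp only [hs0, hs1, sel]
        rfl)
      simp at this

theorem nw_unary (f : Op 0) : NW f := by
  intro u s h
  have e : ∀ p, (fun i => u i (sel (s i) p)) = fun _ => u 0 (sel (s 0) p) := fun p => by
    funext i
    fin_cases i
    rfl
  simp only [e] at h
  cases h0 : s 0 <;> simp only [h0, sel] at h
  · have := h (show (1, 0) ∈ Δ by simp [Δ]) (show (2, 0) ∈ Δ by simp [Δ]) rfl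
    simp at this
  · have := h (show (2, 0) ∈ Δ by simp [Δ]) (show (2, 1) ∈ Δ by simp [Δ]) rfl
    simp at this

theorem nw_max : NW (fun x : Fin 2 → ℕ => max (x 0) (x 1)) := by
  have h := crit (g := fun z y => if z < y then y else 0)
    (fun y => (Set.toFinite {y, 0}).subset (by
      rintro _ ⟨z, rfl⟩
      by_cases h : z < y <;> simp [h]))
    (fun y z z' h h' => by simp [h, h'])
  intro u s hi
  cases hs0 : s 0 <;> cases hs1 : s 1 <;> simp only [hs0, hs1, sel] at hi
  · have := hi (show (1, 0) ∈ Δ by simp [Δ]) (show (2, 0) ∈ Δ by simp [Δ]) rfl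
    simp at this
  · by_cases hb : ∃ i, 1 < i ∧ max (u 0 0) (u 0 1) ≤ u 1 i
    · obtain ⟨i, hi', hm⟩ := hb
      have := hi (show (i, 0) ∈ Δ by simp [Δ]; omega) (show (i, 1) ∈ Δ from hi') (by
        simp only [Bool.false_eq_true, if_false, if_true]
        rw [max_eq_right (le_of_max_le_left hm), max_eq_right (le_of_max_le_right hm)])
      simp at this
    · push Not at hb
      refine not_inj_of_col 1 (finite_Iic (max (u 0 0) (u 0 1))) (fun i hi' => ?_) hi
      simp only [Bool.false_eq_true, if_false, if_true, mem_Iic]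
      exact max_le (le_max_right _ _) (hb i hi').le
  · by_cases hb : ∃ i, 1 < i ∧ max (u 1 0) (u 1 1) ≤ u 0 i
    · obtain ⟨i, hi', hm⟩ := hb
      have := hi (show (i, 0) ∈ Δ by simp [Δ]; omega) (show (i, 1) ∈ Δ from hi') (by
        simp only [Bool.false_eq_true, if_false, if_true]
        rw [max_eq_left (le_of_max_le_left hm), max_eq_left (le_of_max_le_right hm)])
      simp at this
    · push Not at hb
      refine not_inj_of_col 1 (finite_Iic (max (u 1 0) (u 1 1))) (fun i hi' => ?_) hi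
      simp only [Bool.false_eq_true, if_false, if_true, mem_Iic]
      exact max_le (hb i hi').le (le_max_right _ _)
  · have := hi (show (2, 0) ∈ Δ by simp [Δ]) (show (2, 1) ∈ Δ by simp [Δ]) rfl
    simp at this

section Gen

variable {C : ∀ n, Set (Op n)} (hC : IsClone C) (hT : T2 ⊆ C 1)
include hC hT

theorem bin_mem {n : ℕ} {g : ℕ → ℕ → ℕ} (hg : NW (fun x : Fin 2 → ℕ => g (x 0) (x 1)))
    {a b : Op n} (ha : a ∈ C n) (hb : b ∈ C n) : (fun x => g (a x) (b x)) ∈ C n :=
  hC.comp 1 n _ ![a, b] (hT (nw_iff.1 hg)) (fun i => by fin_cases i <;> assumption)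

theorem un_mem (f : Op 0) : f ∈ C 0 := by
  have h := bin_mem hC hT (g := fun a _ => f fun _ => a)
    ((nw_unary f).subst (fun _ => 0) fun _ => id) (hC.proj 0 0) (hC.proj 0 0)
  have e : (fun x : Fin 1 → ℕ => f fun _ => x 0) = f := by
    funext x
    congr 1
    funext i
    fin_cases i
    rfl
  rwa [e] at h

theorem zero_mem (n : ℕ) : (fun _ => 0 : Op n) ∈ C n :=
  hC.comp 0 n (fun _ => 0) (fun _ x => x 0) (un_mem hC hT _) fun _ => hC.proj n 0

theorem sup_mem {n : ℕ} {ι : Type} (S : Finset ι) (F : ι → Op n) (hF : ∀ i, F i ∈ C n) :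
    (fun x => S.sup fun i => F i x) ∈ C n := by
  classical
  induction S using Finset.induction_on with
  | empty => simpa using zero_mem hC hT n
  | insert a S _ ih =>
    simp only [Finset.sup_insert]
    exact bin_mem hC hT (g := max) nw_max (hF a) ih

end Gen

/-- The region where coordinate `0` is the largest and coordinate `1` the second largest. -/
def Reg {n : ℕ} (x : Fin (n + 2) → ℕ) : Prop := x 1 ≤ x 0 ∧ ∀ i : Fin n, x i.succ.succ ≤ x 1

def mk {n : ℕ} (z y : ℕ) (w : Fin n → ℕ) : Fin (n + 2) → ℕ := Fin.cons z (Fin.cons y w)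

@[simp] theorem mk_zero {n : ℕ} (z y : ℕ) (w : Fin n → ℕ) : mk z y w 0 = z := rfl
@[simp] theorem mk_one {n : ℕ} (z y : ℕ) (w : Fin n → ℕ) : mk z y w 1 = y := rfl
@[simp] theorem mk_ss {n : ℕ} (z y : ℕ) (w : Fin n → ℕ) (i : Fin n) :
    mk z y w i.succ.succ = w i := rfl

theorem mk_eta {n : ℕ} (x : Fin (n + 2) → ℕ) : mk (x 0) (x 1) (fun i => x i.succ.succ) = x := by
  funext i
  refine Fin.cases rfl (fun j => Fin.cases rfl (fun _ => rfl) j) i

theorem finite_box {α : Type} {S : Set α} (hS : S.Finite) (c : ℕ) :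
    {t : α → ℕ | (∀ w, t w ≤ c) ∧ ∀ w, w ∉ S → t w = 0}.Finite := by
  haveI := hS.to_subtype
  refine Set.Finite.of_injOn (f := fun t => S.restrict t) (t := {r | ∀ w, r w ∈ Iic c})
    (fun t ht w => ht.1 w) (fun t ht t' ht' e => ?_) (Finite.pi' fun _ => finite_Iic c)
  funext w
  by_cases hw : w ∈ S
  · exact congrFun e ⟨w, hw⟩
  · rw [ht.2 w hw, ht'.2 w hw]

theorem small {C : ∀ n, Set (Op n)} (hC : IsClone C) (hT : T2 ⊆ C 1) {n : ℕ}
    (IH : ∀ g : Op n, NW g → g ∈ C n) (h : Op (n + 1)) (b : ℕ → ℕ)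
    (h0 : ∀ x, ¬ Reg x → h x = 0) (hb : ∀ x, h x ≤ b (x 1))
    (hN : ∀ α β : ℕ → ℕ, NW fun x : Fin (n + 1) → ℕ => h (mk (α (x 0)) (β (x 0)) (Fin.tail x))) :
    h ∈ C (n + 1) := by
  classical
  let τ : ℕ → ℕ → (Fin n → ℕ) → ℕ := fun z y w => h (mk z y w)
  let rep : ℕ → ℕ → ℕ := fun z y => Nat.find (⟨z, rfl⟩ : ∃ z', τ z' y = τ z y)
  have hrep : ∀ z y, τ (rep z y) y = τ z y := fun z y =>
    Nat.find_spec (⟨z, rfl⟩ : ∃ z', τ z' y = τ z y)
  have hrep2 : ∀ z z' y, τ z y = τ z' y → rep z y = rep z' y := fun z z' y e => by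
    simp only [rep, e]
  have hfin : ∀ y, (range fun z => τ z y).Finite := fun y => by
    refine (finite_box (finite_Iic (fun _ : Fin n => y)) (b y)).subset ?_
    rintro _ ⟨z, rfl⟩
    exact ⟨fun w => hb (mk z y w), fun w hw => h0 _ fun hr => hw fun i => hr.2 i⟩
  have hE : NW fun x : Fin 2 → ℕ => Nat.pair (x 1) (rep (x 0) (x 1)) := by
    refine crit (g := fun z y => Nat.pair y (rep z y)) (fun y => ?_) fun y z z' hz hz' => ?_
    · refine ((hfin y).image fun t => Nat.pair y (if ht : ∃ z, τ z y = t then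
        rep ht.choose y else 0)).subset ?_
      rintro _ ⟨z, rfl⟩
      refine ⟨τ z y, ⟨z, rfl⟩, ?_⟩
      have ht : ∃ z', τ z' y = τ z y := ⟨z, rfl⟩
      simp only [dif_pos ht]
      rw [hrep2 _ _ _ ht.choose_spec]
    · rw [hrep2 z z' y]
      funext w
      exact (h0 _ fun hr => absurd hr.1 (by simpa using hz)).trans
        (h0 _ fun hr => absurd hr.1 (by simpa using hz')).symm
  have hG := IH _ (hN (fun e => e.unpair.2) fun e => e.unpair.1)
  have hE' := bin_mem hC hT (g := fun z y => Nat.pair y (rep z y)) hE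
    (hC.proj (n + 1) 0) (hC.proj (n + 1) 1)
  have := hC.comp n (n + 1) _ (Fin.cons (fun x => Nat.pair (x 1) (rep (x 0) (x 1)))
    fun i x => x i.succ.succ) hG (fun i => Fin.cases hE' (fun j => hC.proj _ _) i)
  have e : h = fun x => h (mk (rep (x 0) (x 1)) (x 1) fun i => x i.succ.succ) := by
    funext x
    have := congrFun (hrep (x 0) (x 1)) fun i => x i.succ.succ
    simp only [τ, mk_eta] at this
    exact this.symm
  rw [e]
  simp only [Fin.cons_zero, Nat.unpair_pair] at this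
  exact this

theorem nw_mk {n : ℕ} {h : Op (n + 1)} (hh : NW h) (α β : ℕ → ℕ) :
    NW fun x : Fin (n + 1) → ℕ => h (mk (α (x 0)) (β (x 0)) (Fin.tail x)) := by
  have := hh.subst (m := n) (Fin.cons 0 (Fin.cons 0 Fin.succ)) (Fin.cons α (Fin.cons β fun _ => id))
  have e : ∀ x : Fin (n + 1) → ℕ, (fun i => (Fin.cons α (Fin.cons β fun _ => id) :
      Fin (n + 2) → ℕ → ℕ) i (x ((Fin.cons 0 (Fin.cons 0 Fin.succ) :
        Fin (n + 2) → Fin (n + 1)) i))) = mk (α (x 0)) (β (x 0)) (Fin.tail x) := fun x => by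
    funext i
    refine Fin.cases rfl (fun j => Fin.cases rfl (fun _ => rfl) j) i
  simpa only [e] using this

open Classical in
theorem region {C : ∀ n, Set (Op n)} (hC : IsClone C) (hT : T2 ⊆ C 1) {n : ℕ}
    (IH : ∀ g : Op n, NW g → g ∈ C n) (f : Op (n + 1)) (hf : NW f) :
    (fun x => if Reg x then f x else 0) ∈ C (n + 1) := by
  have hA : (fun x => if Reg x ∧ f x ≤ x 1 then f x else 0) ∈ C (n + 1) := by
    refine small hC hT IH _ id (fun x hx => if_neg fun h => hx h.1) (fun x => ?_)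
      (nw_mk (h := fun x => if Reg x ∧ f x ≤ x 1 then f x else 0) (hf.restrict fun x => ?_))
    · split_ifs with h
      · exact h.2
      · exact Nat.zero_le _
    · split_ifs <;> simp
  obtain ⟨e⟩ : Nonempty ((Fin (n + 1) → ℕ) ≃ ℕ) := nonempty_equiv_of_countable
  have hex : ∀ x : Fin (n + 2) → ℕ, ∃ c, f (Fin.cons (x 0) (e.symm c)) = f x := fun x =>
    ⟨e (Fin.tail x), by simp⟩
  let p : Op (n + 1) := fun x => if Reg x ∧ x 1 < f x then Nat.find (hex x) + 1 else 0
  let b : ℕ → ℕ := fun y => (Fintype.piFinset fun _ : Fin (n + 1) => Finset.Iic y).sup e + 1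
  have hpb : ∀ x, p x ≤ b (x 1) := fun x => by
    simp only [p]
    split_ifs with h
    · refine Nat.succ_le_succ ((Nat.find_min' (hex x) (m := e (Fin.tail x)) (by simp)).trans ?_)
      refine Finset.le_sup (f := e) (Fintype.mem_piFinset.2 fun i => ?_)
      rw [Finset.mem_Iic]
      exact Fin.cases le_rfl (fun j => h.1.2 j) i
    · exact Nat.zero_le _
  have hp : p ∈ C (n + 1) := by
    refine small hC hT IH p b (fun x hx => if_neg fun h => hx h.1) hpb fun α β u s hi => ?_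
    cases hs : s 0
    · refine not_inj_of_col 0 (finite_Iic (b (β (u 0 0)))) (fun i _ => ?_) hi
      have := hpb (mk (α (u 0 (sel (s 0) (i, 0)))) (β (u 0 (sel (s 0) (i, 0))))
        (Fin.tail fun k => u k (sel (s k) (i, 0))))
      simpa [hs, sel] using this
    · obtain ⟨N, hN⟩ := shift hi
      let X : ℕ × ℕ → Fin (n + 2) → ℕ := fun q =>
        mk (α (u 0 q.1)) (β (u 0 q.1)) (Fin.tail fun k => u k (sel (s k) q))
      have hX : ∀ q, mk (α (u 0 (sel (s 0) q))) (β (u 0 (sel (s 0) q)))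
          (Fin.tail fun k => u k (sel (s k) q)) = X q := fun q => by simp only [X, hs, sel]; rfl
      simp only [hX] at hi hN
      by_cases hb : ∃ Y i₀, ∀ i, i₀ < i → β (u 0 i) ≤ Y
      · obtain ⟨Y, i₀, hY⟩ := hb
        refine not_inj_of_col i₀ (S := ⋃ y ∈ Iic Y, Iic (b y))
          ((finite_Iic _).biUnion fun y _ => finite_Iic _) (fun i hi' => ?_) hi
        exact mem_biUnion (hY i hi') (hpb (X (i, i₀)))
      · push Not at hb
        let M : ℕ → ℕ := fun i => (Finset.Iic i ×ˢ Finset.Iic i).sup fun q => f (X q)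
        choose nxt h1 h2 using fun i => hb (M i) i
        let φ : ℕ → ℕ := fun k => nxt^[k] N
        have hφs : ∀ k, φ (k + 1) = nxt (φ k) := fun k => Function.iterate_succ_apply' _ _ _
        have hφ : StrictMono φ := strictMono_nat_of_lt_succ fun k => by rw [hφs]; exact h1 _
        have hφN : ∀ k, N ≤ φ k := fun k => hφ.monotone (Nat.zero_le k)
        have hB : ∀ q ∈ Δ, Reg (X (φ q.1, φ q.2)) ∧ β (u 0 (φ q.1)) < f (X (φ q.1, φ q.2)) := by
          intro q hq
          by_contra hc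
          exact hN (φ q.1, φ q.2) (hφ hq) (hφN _) (if_neg hc)
        have hlt : ∀ q ∈ Δ, ∀ q' ∈ Δ, q.1 < q'.1 →
            f (X (φ q.1, φ q.2)) < f (X (φ q'.1, φ q'.2)) := by
          intro q hq q' hq' hqq
          obtain ⟨c, hc⟩ : ∃ c, q'.1 = c + 1 := ⟨q'.1 - 1, by omega⟩
          refine lt_trans (lt_of_le_of_lt ?_ (h2 (φ c))) (by rw [← hφs, ← hc]; exact (hB q' hq').2)
          refine Finset.le_sup (f := fun q => f (X q)) (Finset.mem_product.2 ⟨?_, ?_⟩)
          · exact Finset.mem_Iic.2 (hφ.monotone (by omega))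
          · have : q.2 < q.1 := hq
            exact Finset.mem_Iic.2 (hφ.monotone (by omega))
        have hinj : InjOn (fun q : ℕ × ℕ => f (X (φ q.1, φ q.2))) Δ := by
          intro q hq q' hq' he
          rcases lt_trichotomy q.1 q'.1 with h | h | h
          · exact absurd he (hlt q hq q' hq' h).ne
          · refine inj_sub hi hφ hq hq' ?_
            have e1 : X (φ q.1, φ q.2) 0 = X (φ q'.1, φ q'.2) 0 := by simp only [X, mk_zero, h]
            have b1 : Reg (X (φ q.1, φ q.2)) ∧ X (φ q.1, φ q.2) 1 < f (X (φ q.1, φ q.2)) := hB q hq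
            have b2 : Reg (X (φ q'.1, φ q'.2)) ∧ X (φ q'.1, φ q'.2) 1 < f (X (φ q'.1, φ q'.2)) :=
              hB q' hq'
            simp only [p, if_pos b1, if_pos b2]
            congr 1
            refine le_antisymm (Nat.find_min' _ ?_) (Nat.find_min' _ ?_)
            · rw [e1, Nat.find_spec (hex (X (φ q'.1, φ q'.2)))]
              exact he.symm
            · rw [← e1, Nat.find_spec (hex (X (φ q.1, φ q.2)))]
              exact he
          · exact absurd he (hlt q' hq' q hq h).ne'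
        refine nw_mk hf α β (fun k => u k ∘ φ) s (hinj.congr fun q _ => ?_)
        beta_reduce
        rw [← hX]
        simp only [sel_map, Function.comp]
  have hg : NW fun x : Fin 2 → ℕ =>
      if x 1 = 0 then 0 else f (Fin.cons (x 0) (e.symm (x 1 - 1))) := by
    have h1 := hf.subst (m := 1) (Fin.cons 0 fun _ => 1) (Fin.cons id fun i c => e.symm (c - 1) i)
    refine h1.restrict fun x => ?_
    split_ifs
    · exact Or.inr rfl
    · left
      congr 1
      funext i
      refine Fin.cases rfl (fun _ => rfl) i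
  have hB := bin_mem hC hT (g := fun z c => if c = 0 then 0 else f (Fin.cons z (e.symm (c - 1))))
    hg (hC.proj (n + 1) 0) hp
  have hmax := bin_mem hC hT (g := max) nw_max hA hB
  have e2 : (fun x => if Reg x then f x else 0) = fun x =>
      max (if Reg x ∧ f x ≤ x 1 then f x else 0)
        (if p x = 0 then 0 else f (Fin.cons (x 0) (e.symm (p x - 1)))) := by
    funext x
    by_cases hr : Reg x
    · by_cases hle : f x ≤ x 1
      · have : p x = 0 := if_neg fun h => absurd h.2 (not_lt.2 hle)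
        simp [hr, hle, this]
      · have : p x = Nat.find (hex x) + 1 := if_pos ⟨hr, not_le.1 hle⟩
        simp [hr, hle, this, Nat.find_spec (hex x)]
    · have : p x = 0 := if_neg fun h => hr h.1
      simp [hr, this]
  rw [e2]
  exact hmax

theorem exists_reg {n : ℕ} (x : Fin (n + 2) → ℕ) : ∃ σ : Equiv.Perm (Fin (n + 2)), Reg (x ∘ σ) := by
  have hm := Tuple.monotone_sort (fun i => OrderDual.toDual (x i))
  refine ⟨Tuple.sort fun i => OrderDual.toDual (x i), ?_, fun i => ?_⟩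
  · exact hm (Fin.zero_le 1)
  · exact hm (show (1 : Fin (n + 2)) ≤ i.succ.succ from Fin.succ_le_succ_iff.2 (Fin.zero_le _))

theorem nw_mem {C : ∀ n, Set (Op n)} (hC : IsClone C) (hT : T2 ⊆ C 1) :
    ∀ (n : ℕ) (f : Op n), NW f → f ∈ C n := by
  classical
  intro n
  induction n with
  | zero => exact fun f _ => un_mem hC hT f
  | succ n IH =>
    intro f hf
    have h1 : ∀ σ : Equiv.Perm (Fin (n + 2)),
        (fun x => if Reg (x ∘ σ) then f x else 0) ∈ C (n + 1) := fun σ => by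
      have h2 := region hC hT IH _ (hf.subst σ.symm fun _ => id)
      have h3 := hC.comp (n + 1) (n + 1) _ (fun i x => x (σ i)) h2 fun i => hC.proj _ _
      simp only [id, Equiv.apply_symm_apply] at h3
      exact h3
    have h4 := sup_mem hC hT Finset.univ _ h1
    have e : f = fun x => Finset.univ.sup fun σ : Equiv.Perm (Fin (n + 2)) =>
        if Reg (x ∘ σ) then f x else 0 := by
      funext x
      obtain ⟨σ, hσ⟩ := exists_reg x
      refine le_antisymm ?_ (Finset.sup_le fun τ _ => by split_ifs <;> simp)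
      exact le_trans (by simp [hσ]) (Finset.le_sup (Finset.mem_univ σ))
    rw [e]
    exact h4

theorem diag (A : ℕ → ℕ → Prop) (hA : ∀ m, ∀ᶠ x in hyperfilter ℕ, A m x) :
    ∃ φ : ℕ → ℕ, StrictMono φ ∧ ∀ a, ∃ m, A m (φ a) ∧ ∀ b < a, φ b ≤ m := by
  have h : ∀ m, ∃ x, m < x ∧ A m x := fun m =>
    (((eventually_gt_atTop m).filter_mono Nat.hyperfilter_le_atTop).and (hA m)).exists
  choose nxt h1 h2 using h
  let φ : ℕ → ℕ := fun k => nxt^[k + 1] 0
  have hφs : ∀ k, φ (k + 1) = nxt (φ k) := fun k => Function.iterate_succ_apply' _ _ _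
  have hφ : StrictMono φ := strictMono_nat_of_lt_succ fun k => by rw [hφs]; exact h1 _
  refine ⟨φ, hφ, fun a => ?_⟩
  cases a with
  | zero => exact ⟨0, h2 0, fun b hb => absurd hb (Nat.not_lt_zero b)⟩
  | succ a => exact ⟨φ a, by rw [hφs]; exact h2 _, fun b hb => hφ.monotone (by omega)⟩

theorem ev_le {P : ℕ → ℕ → Prop} (h : ∀ y, ∀ᶠ x in hyperfilter ℕ, P y x) (m : ℕ) :
    ∀ᶠ x in hyperfilter ℕ, ∀ y ≤ m, P y x :=
  (eventually_all_finite (finite_Iic m)).2 fun y _ => h y

theorem ev_imp {Q : Prop} {P : ℕ → Prop} (h : Q → ∀ᶠ x in hyperfilter ℕ, P x) :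
    ∀ᶠ x in hyperfilter ℕ, Q → P x := by
  by_cases hQ : Q
  · exact (h hQ).mono fun _ hx _ => hx
  · exact Eventually.of_forall fun _ hq => absurd hq hQ

theorem canon (g : ℕ × ℕ → ℕ)
    (h : ∀ φ : ℕ → ℕ, StrictMono φ → ¬ InjOn (fun p : ℕ × ℕ => g (φ p.1, φ p.2)) Δ) :
    ∃ φ : ℕ → ℕ, StrictMono φ ∧ ∃ (a : ℕ → ℕ) (s : Bool),
      ∀ p ∈ Δ, g (φ p.1, φ p.2) = a (sel s p) := by
  let Cst : ℕ → Prop := fun y => ∃ c, ∀ᶠ x in hyperfilter ℕ, g (x, y) = c
  let Sim : ℕ → ℕ → Prop := fun y y' => ∀ᶠ x in hyperfilter ℕ, g (x, y) = g (x, y')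
  rcases (hyperfilter ℕ).em Cst with h1 | h1
  · classical
    let c : ℕ → ℕ := fun y => if hy : Cst y then hy.choose else 0
    obtain ⟨φ, hφ, hA⟩ := diag (fun m x => Cst x ∧ ∀ y ≤ m, Cst y → g (x, y) = c y) fun m =>
      h1.and (ev_le (fun y => ev_imp fun hy => by simpa only [c, dif_pos hy] using hy.choose_spec) m)
    refine ⟨φ, hφ, c ∘ φ, false, fun p hp => ?_⟩
    obtain ⟨m, hm, hb⟩ := hA p.1
    obtain ⟨_, hm', _⟩ := hA p.2
    exact hm.2 _ (hb _ hp) hm'.1
  · by_cases h2 : ∃ y₀, ∀ᶠ y in hyperfilter ℕ, Sim y y₀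
    · obtain ⟨y₀, h2⟩ := h2
      obtain ⟨φ, hφ, hA⟩ := diag (fun m x => Sim x y₀ ∧ ∀ y ≤ m, Sim y y₀ → g (x, y) = g (x, y₀))
        fun m => h2.and (ev_le (fun y => ev_imp fun hy => hy) m)
      refine ⟨φ, hφ, fun k => g (φ k, y₀), true, fun p hp => ?_⟩
      obtain ⟨m, hm, hb⟩ := hA p.1
      obtain ⟨_, hm', _⟩ := hA p.2
      exact hm.2 _ (hb _ hp) hm'.1
    · have h3 : ∀ y₀, ∀ᶠ y in hyperfilter ℕ, ¬ Sim y y₀ := fun y₀ =>
        Ultrafilter.eventually_not.2 fun h => h2 ⟨y₀, h⟩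
      obtain ⟨φ, hφ, hA⟩ := diag (fun m x => ¬ Cst x ∧ (∀ y ≤ m, ¬ Sim x y) ∧
          (∀ y ≤ m, ∀ y' ≤ m, ¬ Sim y y' → g (x, y) ≠ g (x, y')) ∧
          ∀ y ≤ m, ∀ y' ≤ m, ∀ y'' ≤ m, ¬ Cst y → g (x, y) ≠ g (y', y'')) fun m =>
        h1.and ((ev_le h3 m).and ((ev_le (fun y => ev_le (fun y' => ev_imp fun hy =>
          Ultrafilter.eventually_not.2 hy) m) m).and
          (ev_le (fun y => ev_le (fun y' => ev_le (fun y'' => ev_imp fun hy =>
            Ultrafilter.eventually_not.2 fun h => hy ⟨_, h⟩) m) m) m)))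
      have hlt : ∀ p ∈ Δ, ∀ q ∈ Δ, p.1 < q.1 → g (φ q.1, φ q.2) ≠ g (φ p.1, φ p.2) := by
        intro p hp q hq hpq
        obtain ⟨m, hm, hb⟩ := hA q.1
        obtain ⟨_, hm', _⟩ := hA q.2
        exact hm.2.2.2 _ (hb _ hq) _ (hb _ hpq) _ (hb _ (lt_trans hp hpq)) hm'.1
      have hsim : ∀ a b, b < a → ¬ Sim (φ a) (φ b) := by
        intro a b hab
        obtain ⟨m, hm, hb⟩ := hA a
        exact hm.2.1 _ (hb _ hab)
      refine absurd (fun p hp q hq he => ?_) (h φ hφ)
      rcases lt_trichotomy p.1 q.1 with h4 | h4 | h4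
      · exact absurd he.symm (hlt p hp q hq h4)
      · refine Prod.ext h4 ?_
        by_contra hne
        obtain ⟨m, hm, hb⟩ := hA p.1
        refine hm.2.2.1 _ (hb _ hp) _ (hb q.2 (by rw [h4]; exact hq)) ?_ (by simpa [h4] using he)
        rcases lt_or_gt_of_ne hne with h5 | h5
        · exact fun hs => hsim _ _ h5 (hs.mono fun _ => Eq.symm)
        · exact hsim _ _ h5
      · exact absurd he (hlt q hq p hp h4)

theorem canon_fin {ι : Type} (S : Finset ι) (g : ι → ℕ × ℕ → ℕ)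
    (h : ∀ i (φ : ℕ → ℕ), StrictMono φ → ¬ InjOn (fun p : ℕ × ℕ => g i (φ p.1, φ p.2)) Δ) :
    ∃ φ : ℕ → ℕ, StrictMono φ ∧ ∀ i ∈ S, ∃ (a : ℕ → ℕ) (s : Bool),
      ∀ p ∈ Δ, g i (φ p.1, φ p.2) = a (sel s p) := by
  classical
  induction S using Finset.induction_on with
  | empty => exact ⟨id, strictMono_id, by simp⟩
  | insert j S _ ih =>
    obtain ⟨φ, hφ, hS⟩ := ih
    obtain ⟨ψ, hψ, a, s, ha⟩ := canon (fun p => g j (φ p.1, φ p.2))
      fun ψ hψ => h j (φ ∘ ψ) (hφ.comp hψ)
    refine ⟨φ ∘ ψ, hφ.comp hψ, fun i hi => ?_⟩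
    rcases Finset.mem_insert.1 hi with rfl | hi
    · exact ⟨a, s, ha⟩
    · obtain ⟨a', s', ha'⟩ := hS i hi
      refine ⟨a' ∘ ψ, s', fun p hp => ?_⟩
      have := ha' (ψ p.1, ψ p.2) (hψ hp)
      rwa [sel_map] at this

theorem nw_clone : IsClone fun n => {f : Op n | NW f} where
  proj n i := (nw_unary fun x => x 0).subst (fun _ => i) fun _ => id
  comp n m f g hf hg := by
    intro u s hi
    obtain ⟨φ, hφ, hc⟩ := canon_fin Finset.univ
      (fun i p => g i fun k => u k (sel (s k) p)) fun i φ _ h =>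
        hg i (fun k j => u k (φ j)) s (by simpa only [sel_map] using h)
    choose a t ha using fun i => hc i (Finset.mem_univ i)
    refine hf a t ((inj_sub hi hφ).congr fun p hp => ?_)
    simp only [ha _ p hp]

theorem gen_eq (n : ℕ) : gen T2 n = {f | NW f} :=
  Subset.antisymm (fun _ hf => hf _ nw_clone fun _ h => nw_iff.2 h)
    fun f hf _ hC hT => nw_mem hC hT n f hf

theorem main : IsGreatest {D : ∀ n, Set (Op n) | IsClone D ∧ D 1 = T2} (gen T2) := by
  constructor
  · refine ⟨?_, ?_⟩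
    · rw [show gen T2 = fun n => {f : Op n | NW f} from funext gen_eq]
      exact nw_clone
    · rw [gen_eq]
      exact Set.ext fun _ => nw_iff
  · rintro D ⟨hD, hD1⟩ n f hf
    rw [gen_eq]
    intro u s hi
    have h1 : (fun x : Fin 2 → ℕ => f fun i => u i (x (if s i then 0 else 1))) ∈ D 1 :=
      hD.comp n 1 f _ hf fun i => by
        rw [hD1]
        exact nw_iff.1 ((nw_unary fun x => u i (x 0)).subst (fun _ => if s i then 0 else 1)
          fun _ => id)
    rw [hD1] at h1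
    refine h1 ⟨id, id, Or.inr (hi.congr fun p _ => ?_)⟩
    beta_reduce
    congr 1
    funext i
    cases s i <;> rfl

end Pool.Agent.H77.T2
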