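import Mathlib

set_option autoImplicit false

namespace Pool.Agent.H77.TLSum

open Filter Topology

abbrev V : Type := ℕ →₀ ℤ

/-- The group `V × V`, written multiplicatively. -/
def G : Type := Multiplicative (V × V)

noncomputable instance : CommGroup G := inferInstanceAs (CommGroup (Multiplicative (V × V)))
noncomputable instance : Lattice G := inferInstanceAs (Lattice (V × V))

def fst (g : G) : V := (Multiplicative.toAdd g).1
def snd (g : G) : V := (Multiplicative.toAdd g).2
def mk (x y : V) : G := Multiplicative.ofAdd (x, y)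

@[simp] theorem fst_mk (x y : V) : fst (mk x y) = x := rfl
@[simp] theorem snd_mk (x y : V) : snd (mk x y) = y := rfl
@[simp] theorem fst_mul (g h : G) : fst (g * h) = fst g + fst h := rfl
@[simp] theorem snd_mul (g h : G) : snd (g * h) = snd g + snd h := rfl
@[simp] theorem fst_inv (g : G) : fst g⁻¹ = - fst g := rfl
@[simp] theorem snd_inv (g : G) : snd g⁻¹ = - snd g := rfl
@[simp] theorem fst_one : fst 1 = 0 := rfl
@[simp] theorem snd_one : snd 1 = 0 := rfl
@[simp] theorem fst_sup (g h : G) : fst (g ⊔ h) = fst g ⊔ fst h := rfl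
@[simp] theorem snd_sup (g h : G) : snd (g ⊔ h) = snd g ⊔ snd h := rfl
@[simp] theorem fst_inf (g h : G) : fst (g ⊓ h) = fst g ⊓ fst h := rfl
@[simp] theorem snd_inf (g h : G) : snd (g ⊓ h) = snd g ⊓ snd h := rfl

theorem le_iff (g h : G) : g ≤ h ↔ fst g ≤ fst h ∧ snd g ≤ snd h := Iff.rfl

theorem ext' {g h : G} (h1 : fst g = fst h) (h2 : snd g = snd h) : g = h :=
  Prod.ext h1 h2

instance : MulLeftMono G := ⟨fun a b c h => by
  rw [le_iff] at h ⊢
  exact ⟨by simpa using h.1, by simpa using h.2⟩⟩

instance : MulRightMono G := ⟨fun a b c h => by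
  change b * a ≤ c * a
  rw [le_iff] at h ⊢
  exact ⟨by simpa using h.1, by simpa using h.2⟩⟩

/-- Discrete copy of `V`. -/
def D : Type := Multiplicative V

noncomputable instance : CommGroup D := inferInstanceAs (CommGroup (Multiplicative V))
instance : TopologicalSpace D := ⊥
instance : DiscreteTopology D := ⟨rfl⟩
instance : IsTopologicalGroup D where
  continuous_mul := continuous_of_discreteTopology
  continuous_inv := continuous_of_discreteTopology

noncomputable def emb : G →* (ℕ → Multiplicative ℤ) × D where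
  toFun g := (fun k => Multiplicative.ofAdd (fst g k), (Multiplicative.ofAdd (fst g - snd g) : Multiplicative V))
  map_one' := by
    refine Prod.ext (funext fun k => rfl) ?_
    change Multiplicative.ofAdd (fst 1 - snd 1) = (1 : Multiplicative V)
    simp
  map_mul' g h := by
    refine Prod.ext (funext fun k => rfl) ?_
    change Multiplicative.ofAdd (fst (g * h) - snd (g * h)) =
      (Multiplicative.ofAdd (fst g - snd g) * Multiplicative.ofAdd (fst h - snd h) : Multiplicative V)
    rw [← ofAdd_add]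
    congr 1
    simp only [fst_mul, snd_mul]
    abel

noncomputable instance : TopologicalSpace G := TopologicalSpace.induced emb inferInstance

instance : IsTopologicalGroup G := topologicalGroup_induced emb

theorem cont_emb : Continuous emb := continuous_induced_dom

theorem ev_fst (g : G) (k : ℕ) : ∀ᶠ h in 𝓝 g, fst h k = fst g k := by
  have h1 : Continuous fun h : G => (emb h).1 k :=
    (continuous_apply k).comp (continuous_fst.comp cont_emb)
  have h2 := h1.continuousAt (x := g)
  rw [ContinuousAt, nhds_discrete (Multiplicative ℤ), tendsto_pure] at h2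
  exact h2.mono fun h hh => hh

theorem ev_diff (g : G) : ∀ᶠ h in 𝓝 g, fst h - snd h = fst g - snd g := by
  have h1 : Continuous fun h : G => (emb h).2 := continuous_snd.comp cont_emb
  have h2 := h1.continuousAt (x := g)
  rw [ContinuousAt, nhds_discrete D, tendsto_pure] at h2
  exact h2.mono fun h hh => hh

theorem ev_snd (g : G) (k : ℕ) : ∀ᶠ h in 𝓝 g, snd h k = snd g k := by
  filter_upwards [ev_fst g k, ev_diff g] with h h1 h2
  have := DFunLike.congr_fun h2 k
  simp only [Finsupp.coe_sub, Pi.sub_apply] at this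
  omega

theorem tendsto_of {X : Type} {l : Filter X} {f : X → G} {g : G}
    (h1 : ∀ k, ∀ᶠ x in l, fst (f x) k = fst g k)
    (h2 : ∀ᶠ x in l, fst (f x) - snd (f x) = fst g - snd g) : Tendsto f l (𝓝 g) := by
  rw [nhds_induced, tendsto_comap_iff, nhds_prod_eq, tendsto_prod_iff']
  constructor
  · rw [tendsto_pi_nhds]
    intro k
    rw [nhds_discrete, tendsto_pure]
    exact (h1 k).mono fun x hx => congrArg Multiplicative.ofAdd hx
  · rw [nhds_discrete, tendsto_pure]
    exact h2.mono fun x hx => congrArg Multiplicative.ofAdd hx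

theorem cont_op (op : ℤ → ℤ → ℤ) (F : G × G → G)
    (hF1 : ∀ p k, fst (F p) k = op (fst p.1 k) (fst p.2 k))
    (hF2 : ∀ p k, snd (F p) k = op (snd p.1 k) (snd p.2 k)) : Continuous F := by
  classical
  rw [continuous_iff_continuousAt]
  rintro ⟨g, h⟩
  have a1 : ∀ k, ∀ᶠ p : G × G in 𝓝 (g, h), fst p.1 k = fst g k := fun k =>
    (continuous_fst.tendsto (g, h)).eventually (ev_fst g k)
  have a2 : ∀ k, ∀ᶠ p : G × G in 𝓝 (g, h), fst p.2 k = fst h k := fun k =>
    (continuous_snd.tendsto (g, h)).eventually (ev_fst h k)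
  have a3 : ∀ᶠ p : G × G in 𝓝 (g, h), fst p.1 - snd p.1 = fst g - snd g :=
    (continuous_fst.tendsto (g, h)).eventually (ev_diff g)
  have a4 : ∀ᶠ p : G × G in 𝓝 (g, h), fst p.2 - snd p.2 = fst h - snd h :=
    (continuous_snd.tendsto (g, h)).eventually (ev_diff h)
  apply tendsto_of
  · intro k
    filter_upwards [a1 k, a2 k] with p h1 h2
    rw [hF1, hF1, h1, h2]
  · have a5 : ∀ᶠ p : G × G in 𝓝 (g, h), ∀ k ∈ (fst g - snd g).support ∪ (fst h - snd h).support,
        fst p.1 k = fst g k ∧ fst p.2 k = fst h k :=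
      (eventually_all_finset _).2 fun k _ => (a1 k).and (a2 k)
    filter_upwards [a3, a4, a5] with p h3 h4 h5
    ext k
    have e3 := DFunLike.congr_fun h3 k
    have e4 := DFunLike.congr_fun h4 k
    simp only [Finsupp.coe_sub, Pi.sub_apply] at e3 e4 ⊢
    rw [hF1, hF1, hF2, hF2]
    by_cases hk : k ∈ (fst g - snd g).support ∪ (fst h - snd h).support
    · obtain ⟨b1, b2⟩ := h5 k hk
      have c1 : snd p.1 k = snd g k := by omega
      have c2 : snd p.2 k = snd h k := by omega
      rw [b1, b2, c1, c2]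
    · simp only [Finset.mem_union, Finsupp.mem_support_iff, Finsupp.coe_sub, Pi.sub_apply,
        not_or, not_not] at hk
      have c1 : snd p.1 k = fst p.1 k := by omega
      have c2 : snd p.2 k = fst p.2 k := by omega
      have c3 : snd g k = fst g k := by omega
      have c4 : snd h k = fst h k := by omega
      simp only [c1, c2, c3, c4, sub_self]

instance : TopologicalLattice G where
  continuous_inf := cont_op (· ⊓ ·) _ (fun _ _ => rfl) (fun _ _ => rfl)
  continuous_sup := cont_op (· ⊔ ·) _ (fun _ _ => rfl) (fun _ _ => rfl)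

def A : Subgroup G where
  carrier := {g | snd g = 0}
  mul_mem' := by
    intro a b ha hb
    simp only [Set.mem_setOf_eq, snd_mul] at *
    rw [ha, hb, add_zero]
  one_mem' := rfl
  inv_mem' := by
    intro a ha
    simp only [Set.mem_setOf_eq, snd_inv] at *
    rw [ha, neg_zero]

def B : Subgroup G where
  carrier := {g | fst g = 0}
  mul_mem' := by
    intro a b ha hb
    simp only [Set.mem_setOf_eq, fst_mul] at *
    rw [ha, hb, add_zero]
  one_mem' := rfl
  inv_mem' := by
    intro a ha
    simp only [Set.mem_setOf_eq, fst_inv] at *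
    rw [ha, neg_zero]

theorem mem_A {g : G} : g ∈ A ↔ snd g = 0 := Iff.rfl
theorem mem_B {g : G} : g ∈ B ↔ fst g = 0 := Iff.rfl

theorem closed_A : IsClosed (A : Set G) := by
  rw [← isOpen_compl_iff, isOpen_iff_mem_nhds]
  intro g hg
  have : ∃ k, snd g k ≠ 0 := by
    by_contra hc
    push Not at hc
    exact hg (Finsupp.ext hc)
  obtain ⟨k, hk⟩ := this
  filter_upwards [ev_snd g k] with h hh hA
  rw [SetLike.mem_coe, mem_A] at hA
  rw [hA] at hh
  exact hk hh.symm

theorem closed_B : IsClosed (B : Set G) := by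
  rw [← isOpen_compl_iff, isOpen_iff_mem_nhds]
  intro g hg
  have : ∃ k, fst g k ≠ 0 := by
    by_contra hc
    push Not at hc
    exact hg (Finsupp.ext hc)
  obtain ⟨k, hk⟩ := this
  filter_upwards [ev_fst g k] with h hh hB
  rw [SetLike.mem_coe, mem_B] at hB
  rw [hB] at hh
  exact hk hh.symm

noncomputable def d (n : ℕ) : G := mk (Finsupp.single n 1) (Finsupp.single n 1)

theorem d_tendsto : Tendsto d atTop (𝓝 1) := by
  apply tendsto_of
  · intro k
    filter_upwards [eventually_gt_atTop k] with n hn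
    simp [d, Finsupp.single_apply, hn.ne']
  · exact Eventually.of_forall fun n => by simp [d]

theorem main :
    ¬ (∀ (G : Type) [Group G] [Lattice G] [MulLeftMono G] [MulRightMono G]
      [TopologicalSpace G] [IsTopologicalGroup G] [TopologicalLattice G]
      (A B : Subgroup G),
      A.Normal → B.Normal →
      IsClosed (A : Set G) → IsClosed (B : Set G) →
      (∀ x ∈ A, ∀ y ∈ A, x ⊔ y ∈ A ∧ x ⊓ y ∈ A) →
      (∀ x ∈ B, ∀ y ∈ B, x ⊔ y ∈ B ∧ x ⊓ y ∈ B) →
      ∀ φ : (↥A × ↥B) → G, (∀ p, φ p = (p.1 : G) * (p.2 : G)) →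
      Function.Bijective φ →
      (∀ p q : ↥A × ↥B, p ≤ q ↔ φ p ≤ φ q) →
      ∃ e : (↥A × ↥B) ≃ₜ G, ∀ p, e p = φ p) := by
  intro H
  have f1 : ∀ p : ↥A × ↥B, fst ((p.1 : G) * (p.2 : G)) = fst (p.1 : G) := fun p => by
    rw [fst_mul, mem_B.1 p.2.2, add_zero]
  have f2 : ∀ p : ↥A × ↥B, snd ((p.1 : G) * (p.2 : G)) = snd (p.2 : G) := fun p => by
    rw [snd_mul, mem_A.1 p.1.2, zero_add]
  obtain ⟨e, he⟩ := H G A B inferInstance inferInstance closed_A closed_B
    (fun x hx y hy => by
      rw [mem_A] at *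
      simp [mem_A, hx, hy])
    (fun x hx y hy => by
      rw [mem_B] at *
      simp [mem_B, hx, hy])
    (fun p => (p.1 : G) * (p.2 : G)) (fun _ => rfl)
    (by
      constructor
      · intro p q hpq
        have e1 := congrArg fst hpq
        have e2 := congrArg snd hpq
        simp only [f1, f2] at e1 e2
        refine Prod.ext (Subtype.ext (ext' e1 ?_)) (Subtype.ext (ext' ?_ e2))
        · rw [mem_A.1 p.1.2, mem_A.1 q.1.2]
        · rw [mem_B.1 p.2.2, mem_B.1 q.2.2]
      · intro g
        refine ⟨(⟨mk (fst g) 0, rfl⟩, ⟨mk 0 (snd g), rfl⟩), ext' ?_ ?_⟩ <;> simp)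
    (fun p q => by
      rw [le_iff, f1, f1, f2, f2, Prod.le_def, ← Subtype.coe_le_coe, ← Subtype.coe_le_coe,
        le_iff, le_iff, mem_A.1 p.1.2, mem_A.1 q.1.2, mem_B.1 p.2.2, mem_B.1 q.2.2]
      simp)
  have hc : Continuous fun g : G => ((e.symm g).1 : G) :=
    continuous_subtype_val.comp (continuous_fst.comp e.symm.continuous)
  have hv : ∀ g : G, fst ((e.symm g).1 : G) = fst g := fun g => by
    have := he (e.symm g)
    rw [e.apply_symm_apply] at this
    rw [← f1, ← this]
  have ht := (hc.tendsto 1).comp d_tendsto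
  have := (ht.eventually (ev_diff _)).exists
  obtain ⟨n, hn⟩ := this
  simp only [Function.comp, hv, mem_A.1 (e.symm _).1.2, sub_zero, d, fst_mk, fst_one] at hn
  have := DFunLike.congr_fun hn n
  simp at this

end Pool.Agent.H77.TLSum
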