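import Pool.Agent.H77.TgDefs

namespace H77.Tg

open Set Metric

universe u

theorem exists_level {X : Type u} [MetricSpace X] {ε : ℝ} (hε : 0 < ε) :
    ∃ C : Set (Set X), (∀ U ∈ C, IsOpen U ∧ U.Nonempty ∧ ∃ y, U ⊆ ball y ε) ∧
      (∀ x, ∃ U ∈ C, x ∈ U) ∧ ∀ U ∈ C, ∀ W ∈ C, U ⊆ W → U = W := by
  obtain ⟨v, vo, vc, vl, vs⟩ := precise_refinement (fun y : X => ball y ε) (fun _ => isOpen_ball)
    (eq_univ_of_forall fun x => mem_iUnion.2 ⟨x, mem_ball_self hε⟩)
  refine ⟨{U | U ∈ range v ∧ U.Nonempty ∧ ∀ W ∈ range v, U ⊆ W → U = W}, ?_, ?_, ?_⟩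
  · rintro U ⟨⟨y, rfl⟩, h2, -⟩
    exact ⟨vo y, h2, y, vs y⟩
  · intro x
    have hf : (v '' {i | x ∈ v i}).Finite := (vl.point_finite x).image v
    obtain ⟨i, hi⟩ := mem_iUnion.1 (vc.symm ▸ mem_univ x : x ∈ ⋃ i, v i)
    obtain ⟨U, hU⟩ := hf.exists_maximal ⟨v i, i, hi, rfl⟩
    obtain ⟨j, hj, rfl⟩ := hU.1
    refine ⟨v j, ⟨⟨j, rfl⟩, ⟨x, hj⟩, ?_⟩, hj⟩
    rintro _ ⟨k, rfl⟩ hk
    exact subset_antisymm hk (hU.2 ⟨k, hk hj, rfl⟩ hk)
  · rintro U ⟨-, -, h⟩ W ⟨hW, -, -⟩ hUW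
    exact h W hW hUW

theorem of_metric (X : Type u) [MetricSpace X] [CompleteSpace X] : StronglyTelgarsky X := by
  have h := fun n : ℕ => exists_level (X := X) (ε := 1 / ((n : ℝ) + 1)) Nat.one_div_pos_of_nat
  choose C h1 h2 h3 using h
  have hd : ∀ ε > 0, ∃ N : ℕ, ∀ n ≥ N, ∀ U ∈ C n, ∀ x ∈ U, ∀ y ∈ U, dist x y < ε := by
    intro ε hε
    obtain ⟨N, hN⟩ := exists_nat_one_div_lt (half_pos hε)
    refine ⟨N, fun n hn U hU x hx y hy => ?_⟩
    obtain ⟨-, -, z, hz⟩ := h1 n U hU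
    have a1 := mem_ball.1 (hz hx)
    have a2 := mem_ball.1 (hz hy)
    have a3 : 1 / ((n : ℝ) + 1) ≤ 1 / ((N : ℝ) + 1) := Nat.one_div_le_one_div hn
    have := dist_triangle_right x y z
    linarith
  refine ⟨⋃ n, C n, ?_, ?_, ?_⟩
  · apply TopologicalSpace.isTopologicalBasis_of_isOpen_of_nhds
    · intro U hU
      obtain ⟨n, hn⟩ := mem_iUnion.1 hU
      exact (h1 n U hn).1
    · intro x U hx hU
      obtain ⟨ε, hε, hb⟩ := Metric.isOpen_iff.1 hU x hx
      obtain ⟨N, hN⟩ := hd ε hε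
      obtain ⟨W, hW, hxW⟩ := h2 N x
      exact ⟨W, mem_iUnion.2 ⟨N, hW⟩, hxW, fun y hy => hb (hN N le_rfl W hW y hy x hxW)⟩
  · intro U hU
    obtain ⟨n, hn⟩ := mem_iUnion.1 hU
    exact (h1 n U hn).2.1
  · intro s hs hn
    choose l hl using fun n => mem_iUnion.1 (hs n)
    have hcl : ∀ n, closure (s (n + 1)) ⊆ s n := fun n => (hn n).trans interior_subset
    have hanti : Antitone s := antitone_nat_of_succ_le fun n => subset_closure.trans (hcl n)
    choose x hx using fun n => (h1 _ _ (hl n)).2.1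
    by_cases hinf : ∃ m, {k | l k = m}.Infinite
    · obtain ⟨m, hm⟩ := hinf
      obtain ⟨k0, hk0⟩ := hm.nonempty
      refine ⟨x k0, mem_iInter.2 fun n => ?_⟩
      obtain ⟨k, hk, hlt⟩ := hm.exists_gt (max n k0)
      have e : s k = s k0 := h3 m _ (hk ▸ hl k) _ (hk0 ▸ hl k0)
        (hanti ((le_max_right _ _).trans hlt.le))
      exact hanti ((le_max_left _ _).trans hlt.le) (e ▸ hx k0)
    · push Not at hinf
      have hc : CauchySeq x := by
        rw [Metric.cauchySeq_iff']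
        intro ε hε
        obtain ⟨N, hN⟩ := hd ε hε
        have hfin : (⋃ m ∈ Finset.range N, {k | l k = m}).Finite :=
          (Finset.range N).finite_toSet.biUnion fun m _ => hinf m
        obtain ⟨k, hk⟩ := hfin.infinite_compl.nonempty
        have hk' : N ≤ l k := by
          by_contra hlt
          exact hk (mem_biUnion (show l k ∈ Finset.range N by simpa using hlt) rfl)
        exact ⟨k, fun n hn => hN _ hk' _ (hl k) _ (hanti hn (hx n)) _ (hx k)⟩
      obtain ⟨z, hz⟩ := cauchySeq_tendsto_of_complete hc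
      refine ⟨z, mem_iInter.2 fun n => hcl n (mem_closure_of_tendsto hz ?_)⟩
      exact Filter.eventually_atTop.2 ⟨n + 1, fun k hk => hanti hk (hx k)⟩

theorem main (X : Type u) [TopologicalSpace X] [TopologicalSpace.IsCompletelyMetrizableSpace X] :
    StronglyTelgarsky X := by
  letI := TopologicalSpace.upgradeIsCompletelyMetrizable X
  exact of_metric X

end H77.Tg
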