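import Mathlib

namespace H77.Tg

universe u

/-- `X` has a base of non-empty open sets in which every nested sequence has a common point. -/
def StronglyTelgarsky (X : Type u) [TopologicalSpace X] : Prop :=
  ∃ B : Set (Set X), TopologicalSpace.IsTopologicalBasis B ∧ (∀ U ∈ B, U.Nonempty) ∧
    ∀ s : ℕ → Set X, (∀ n, s n ∈ B) → (∀ n, closure (s (n + 1)) ⊆ interior (s n)) →
      (⋂ n, s n).Nonempty

end H77.Tg
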