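import Pool.Agent.H77.TlhDefs

namespace Pool.Agent.H77.Tlh

open Classical Filter

theorem lock (M : List ℕ → ℕ) {A : Set ℕ} (hA : A.Nonempty)
    (h : ∀ μ : ℕ → ℕ, Set.range μ = A → ∃ i s₀, ∀ s, s₀ ≤ s → M ((List.range s).map μ) = i) :
    ∃ σ : List ℕ, (∀ x ∈ σ, x ∈ A) ∧ ∀ τ : List ℕ, (∀ x ∈ τ, x ∈ A) → M (σ ++ τ) = M σ := by
  by_contra hn
  push Not at hn
  have hg : ∀ σ : List ℕ, ∃ τ : List ℕ, (∀ x ∈ σ, x ∈ A) →
      (∀ x ∈ τ, x ∈ A) ∧ M (σ ++ τ) ≠ M σ := fun σ => by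
    by_cases hσ : ∀ x ∈ σ, x ∈ A
    · obtain ⟨τ, h⟩ := hn σ hσ
      exact ⟨τ, fun _ => h⟩
    · exact ⟨[], fun h => absurd h hσ⟩
  choose g hg using hg
  obtain ⟨a, ha⟩ := (Set.to_countable A).exists_eq_range hA
  let f : ℕ → List ℕ := fun n => Nat.rec [] (fun n l => (l ++ [a n]) ++ g (l ++ [a n])) n
  have fs : ∀ n, f (n + 1) = (f n ++ [a n]) ++ g (f n ++ [a n]) := fun n => rfl
  have h1 : ∀ n, (∀ x ∈ f n, x ∈ A) → ∀ x ∈ f n ++ [a n], x ∈ A := fun n h x hx => by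
    rcases List.mem_append.1 hx with hx | hx
    · exact h x hx
    · rw [List.mem_singleton.1 hx, ha]; exact ⟨n, rfl⟩
  have h2 : ∀ n, ∀ x ∈ f n, x ∈ A := by
    intro n
    induction n with
    | zero => intro x hx; exact absurd hx List.not_mem_nil
    | succ n ih =>
      intro x hx
      rw [fs] at hx
      rcases List.mem_append.1 hx with hx | hx
      · exact h1 n ih x hx
      · exact (hg _ (h1 n ih)).1 x hx
  have h3 : ∀ n, n ≤ (f n).length := by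
    intro n
    induction n with
    | zero => exact Nat.zero_le _
    | succ n ih => rw [fs]; simp; omega
  have h4 : ∀ n m, n ≤ m → f n <+: f m := by
    intro n m hnm
    induction hnm with
    | refl => exact List.prefix_refl _
    | step _ ih => exact ih.trans ⟨_, by rw [fs, List.append_assoc]⟩
  let μ : ℕ → ℕ := fun k => (f (k + 1)).getD k 0
  have h5 : ∀ (l : List ℕ) n, l <+: f n → (List.range l.length).map μ = l := by
    intro l n hl
    apply List.ext_getElem (by simp)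
    intro k hk1 hk2
    have e1 := (hl.trans (h4 n (n + (k + 1)) (by omega))).getElem hk2
    have e2 := (h4 (k + 1) (n + (k + 1)) (by omega)).getElem (h3 (k + 1))
    simp only [List.getElem_map, List.getElem_range, μ]
    rw [List.getD_eq_getElem _ _ (h3 (k + 1)), e1, e2]
  have h6 : ∀ n, f n ++ [a n] <+: f (n + 1) := fun n => ⟨_, (fs n).symm⟩
  obtain ⟨i, s₀, hs⟩ := h μ (by
    ext x
    constructor
    · rintro ⟨k, rfl⟩
      simp only [μ]
      rw [List.getD_eq_getElem _ _ (h3 (k + 1))]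
      exact h2 (k + 1) _ (List.getElem_mem _)
    · intro hx
      rw [ha] at hx
      obtain ⟨n, rfl⟩ := hx
      have : a n ∈ f n ++ [a n] := by simp
      rw [← h5 (f n ++ [a n]) (n + 1) (h6 n)] at this
      obtain ⟨k, -, hk⟩ := List.mem_map.1 this
      exact ⟨k, hk⟩)
  have e1 := hs _ (show s₀ ≤ (f s₀ ++ [a s₀]).length by have := h3 s₀; simp; omega)
  have e2 := hs _ (show s₀ ≤ (f (s₀ + 1)).length by have := h3 (s₀ + 1); omega)
  rw [h5 _ (s₀ + 1) (h6 s₀)] at e1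
  rw [h5 _ (s₀ + 1) (List.prefix_refl _), fs] at e2
  exact (hg _ (h1 s₀ (h2 s₀))).2 (e2.trans e1.symm)

theorem extend (σ : List ℕ) {B : Set ℕ} (hB : B.Nonempty) (hσ : ∀ x ∈ σ, x ∈ B) :
    ∃ μ : ℕ → ℕ, Set.range μ = B ∧ ∀ s, ∃ τ : List ℕ, (∀ x ∈ τ, x ∈ B) ∧
      (List.range (σ.length + s)).map μ = σ ++ τ := by
  obtain ⟨b, hb⟩ := (Set.to_countable B).exists_eq_range hB
  refine ⟨fun k => if h : k < σ.length then σ[k] else b (k - σ.length), ?_, fun s =>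
    ⟨(List.range s).map b, ?_, ?_⟩⟩
  · ext x
    constructor
    · rintro ⟨k, rfl⟩
      simp only
      split_ifs
      · exact hσ _ (List.getElem_mem _)
      · rw [hb]; exact ⟨_, rfl⟩
    · intro hx
      rw [hb] at hx
      obtain ⟨n, rfl⟩ := hx
      exact ⟨σ.length + n, by simp⟩
  · intro x hx
    obtain ⟨k, -, rfl⟩ := List.mem_map.1 hx
    rw [hb]; exact ⟨_, rfl⟩
  · rw [List.range_add, List.map_append, List.map_map]
    congr 1
    · apply List.ext_getElem (by simp)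
      intro k h1 h2
      simp [h2]
    · apply List.map_congr_left
      intro k _
      simp

variable {W : ℕ → Set ℕ} {E F : ℕ → ℕ → Prop}

/-- The tell-tale condition. -/
def Tell (W : ℕ → Set ℕ) (E : ℕ → ℕ → Prop) (K : Set (Set ℕ)) : Prop :=
  ∀ e, W e ∈ K → ∃ D : Finset ℕ, ↑D ⊆ W e ∧ ∀ e', W e' ∈ K → ↑D ⊆ W e' → W e' ⊆ W e → E e' e

theorem tell_of_learn (hE : Equivalence E) {K : Set (Set ℕ)} (hK : ∀ A ∈ K, A.Nonempty)
    (h : Learnable W E K) : Tell W E K := by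
  obtain ⟨M, hM⟩ := h
  intro e he
  obtain ⟨σ, h1, h2⟩ := lock M (hK _ he) fun μ hμ => by
    obtain ⟨i, h, -⟩ := hM e he μ hμ
    exact ⟨i, h⟩
  have key : ∀ e', W e' ∈ K → (∀ x ∈ σ, x ∈ W e') → W e' ⊆ W e → E (M σ) e' := by
    intro e' he' h3 h4
    obtain ⟨μ, hμ, h5⟩ := extend σ (hK _ he') h3
    obtain ⟨i, ⟨s₀, h6⟩, h7⟩ := hM e' he' μ hμ
    obtain ⟨τ, h8, h9⟩ := h5 s₀
    have := h6 (σ.length + s₀) (by omega)
    rw [h9, h2 τ fun x hx => h4 (h8 x hx)] at this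
    rwa [this]
  refine ⟨σ.toFinset, fun x hx => h1 x (by simpa using hx), fun e' he' h3 h4 => ?_⟩
  exact hE.trans (hE.symm (key e' he' (fun x hx => h3 (by simpa using hx)) h4))
    (key e he h1 subset_rfl)

theorem learn_of_tell (hE : Equivalence E) {K : Set (Set ℕ)} (h : Tell W E K) :
    Learnable W E K := by
  have h' : ∀ e, ∃ D : Finset ℕ, W e ∈ K →
      ↑D ⊆ W e ∧ ∀ e', W e' ∈ K → ↑D ⊆ W e' → W e' ⊆ W e → E e' e := fun e => by
    by_cases he : W e ∈ K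
    · obtain ⟨D, hD⟩ := h e he
      exact ⟨D, fun _ => hD⟩
    · exact ⟨∅, fun h => absurd h he⟩
  choose D hD using h'
  let C : List ℕ → ℕ → Prop := fun σ e => W e ∈ K ∧ (∀ x ∈ D e, x ∈ σ) ∧ ∀ x ∈ σ, x ∈ W e
  refine ⟨fun σ => if h : ∃ e, C σ e then Nat.find h else 0, fun e he μ hμ => ?_⟩
  have hP : ∃ j, W j ∈ K ∧ ↑(D j) ⊆ W e ∧ W e ⊆ W j := ⟨e, he, (hD e he).1, subset_rfl⟩
  have hi := Nat.find_spec hP
  have ev : ∀ x ∈ W e, ∀ᶠ s in atTop, x ∈ (List.range s).map μ := by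
    intro x hx
    rw [← hμ] at hx
    obtain ⟨k, rfl⟩ := hx
    exact eventually_atTop.2 ⟨k + 1, fun s hs => List.mem_map_of_mem (List.mem_range.2 hs)⟩
  have sub : ∀ s, ∀ x ∈ (List.range s).map μ, x ∈ W e := fun s x hx => by
    obtain ⟨k, -, rfl⟩ := List.mem_map.1 hx
    rw [← hμ]; exact ⟨k, rfl⟩
  have e1 : ∀ᶠ s in atTop, ∀ x ∈ D (Nat.find hP), x ∈ (List.range s).map μ :=
    (eventually_all_finset _).2 fun x hx => ev x (hi.2.1 hx)
  have e2 : ∀ᶠ s in atTop, ∀ j ∈ Finset.range (Nat.find hP), ¬ C ((List.range s).map μ) j := by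
    refine (eventually_all_finset _).2 fun j hj => ?_
    have hj := Nat.find_min hP (Finset.mem_range.1 hj)
    by_cases h1 : W e ⊆ W j
    · exact Eventually.of_forall fun s hc => hj ⟨hc.1, fun x hx => sub s x (hc.2.1 x hx), h1⟩
    · obtain ⟨x, hx, hx'⟩ := Set.not_subset.1 h1
      exact (ev x hx).mono fun s hs hc => hx' (hc.2.2 x hs)
  obtain ⟨s₀, hs⟩ := eventually_atTop.1 (e1.and e2)
  refine ⟨Nat.find hP, ⟨s₀, fun s h => ?_⟩, hE.symm ((hD _ hi.1).2 e he hi.2.1 hi.2.2)⟩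
  have hc : C ((List.range s).map μ) (Nat.find hP) :=
    ⟨hi.1, (hs s h).1, fun x hx => hi.2.2 (sub s x hx)⟩
  simp only
  rw [dif_pos ⟨_, hc⟩, Nat.find_eq_iff]
  exact ⟨hc, fun j hj => (hs s h).2 j (Finset.mem_range.2 hj)⟩

/-- Near every set, `E`-equivalence to it implies `F`-equivalence to it. -/
def Germ (W : ℕ → Set ℕ) (E F : ℕ → ℕ → Prop) : Prop :=
  ∀ e, ∃ D : Finset ℕ, ↑D ⊆ W e ∧ ∀ e', ↑D ⊆ W e' → W e' ⊆ W e → E e' e → F e' e

theorem le_of_germ (hE : Tol W E) (hF : Tol W F) (h : Germ W E F) : LeL W E F := by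
  intro K hK hL
  refine learn_of_tell hF.1 fun e he => ?_
  obtain ⟨D, h1, h2⟩ := tell_of_learn hE.1 (fun A hA => (hK A hA).1) hL e he
  obtain ⟨D', h3, h4⟩ := h e
  refine ⟨D ∪ D', by simp [h1, h3], fun e' he' h5 h6 => ?_⟩
  rw [Finset.coe_union, Set.union_subset_iff] at h5
  exact h4 e' h5.2 h6 (h2 e' he' h5.1 h6)

theorem germ_of_le (hE : Tol W E) (hF : Tol W F) (h : LeL W E F) : Germ W E F := by
  intro e
  rcases (W e).eq_empty_or_nonempty with h0 | ⟨x, hx⟩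
  · exact ⟨∅, by simp, fun e' _ h2 _ => hF.2 _ _ (by rw [h0] at h2 ⊢; simpa using h2)⟩
  let K : Set (Set ℕ) := {A | x ∈ A ∧ ∃ e', A = W e' ∧ E e' e}
  have hK : ∀ A ∈ K, A.Nonempty ∧ ∃ e, A = W e := fun A ⟨h1, e', h2, _⟩ => ⟨⟨x, h1⟩, e', h2⟩
  have hL : Learnable W E K := ⟨fun _ => e, fun e' ⟨_, e'', h2, h3⟩ μ _ =>
    ⟨e, ⟨0, fun _ _ => rfl⟩, hE.1.symm (hE.1.trans (hE.2 _ _ h2) h3)⟩⟩
  obtain ⟨D, h1, h2⟩ := tell_of_learn hF.1 (fun A hA => (hK A hA).1) (h K hK hL) e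
    ⟨hx, e, rfl, hE.1.refl e⟩
  refine ⟨insert x D, by simp [Set.insert_subset_iff, hx, h1], fun e' h3 h4 h5 => ?_⟩
  rw [Finset.coe_insert, Set.insert_subset_iff] at h3
  exact h2 e' ⟨h3.1, e', rfl, h5⟩ h3.2 h4

end Pool.Agent.H77.Tlh
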