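import Pool.Agent.H77.TlhA

namespace Pool.Agent.H77.Tlh

open Classical

variable {W : ℕ → Set ℕ} {E F : ℕ → ℕ → Prop}

/-- The least element of `A` missing in `B`, for proper subsets `B` of `A`. -/
noncomputable def vv (A B : Set ℕ) : Option ℕ :=
  if B ⊆ A ∧ (A \ B).Nonempty then some (sInf (A \ B)) else none

theorem vv_local {A B : Set ℕ} (h : B ≠ A) :
    ∃ D : Finset ℕ, ↑D ⊆ B ∧ ∀ B', ↑D ⊆ B' → B' ⊆ B → vv A B' = vv A B := by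
  by_cases h1 : B ⊆ A
  · have h2 : (A \ B).Nonempty := Set.diff_nonempty.2 fun h2 => h (h1.antisymm h2)
    have h3 := Nat.sInf_mem h2
    refine ⟨(Finset.range (sInf (A \ B))).filter (· ∈ B), fun x hx => by
      simp at hx; exact hx.2, fun B' h4 h5 => ?_⟩
    have h6 : sInf (A \ B) ∈ A \ B' := ⟨h3.1, fun hh => h3.2 (h5 hh)⟩
    rw [vv, vv, if_pos ⟨h5.trans h1, _, h6⟩, if_pos ⟨h1, h2⟩]
    congr 1
    refine le_antisymm (Nat.sInf_le h6) ?_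
    by_contra hlt
    push Not at hlt
    have h7 := Nat.sInf_mem (⟨_, h6⟩ : (A \ B').Nonempty)
    have h8 := Nat.notMem_of_lt_sInf hlt
    refine h7.2 (h4 ?_)
    simp only [Finset.coe_filter, Finset.mem_range, Set.mem_setOf_eq]
    exact ⟨hlt, by_contra fun hh => h8 ⟨h7.1, hh⟩⟩
  · obtain ⟨x, hx, hx'⟩ := Set.not_subset.1 h1
    refine ⟨{x}, by simpa using hx, fun B' h4 _ => ?_⟩
    rw [vv, vv, if_neg fun hh => hx' (hh.1 (h4 (by simp))), if_neg fun hh => h1 hh.1]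

theorem vv_big {A B : Set ℕ} {n : ℕ} (h : vv A B = some n) (D : Finset ℕ) (h1 : ↑D ⊆ A)
    (h2 : ∀ x ∈ D, x < n) : ↑D ⊆ B ∧ B ⊆ A := by
  unfold vv at h
  split_ifs at h with h3
  obtain rfl := Option.some.inj h
  exact ⟨fun x hx => by_contra fun hh => Nat.notMem_of_lt_sInf (h2 x hx) ⟨h1 hx, hh⟩, h3.1⟩

theorem halves {N : Set ℕ} (hN : ∀ m, ∃ n ∈ N, m < n) :
    ∃ S : Set ℕ, (∀ m, ∃ n ∈ N, m < n ∧ n ∈ S) ∧ ∀ m, ∃ n ∈ N, m < n ∧ n ∉ S := by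
  have hI : (setOf (· ∈ N)).Infinite := Set.infinite_of_forall_exists_gt hN
  have hs := Nat.nth_strictMono hI
  refine ⟨{n | ∃ k, n = Nat.nth (· ∈ N) (2 * k)}, fun m => ⟨_, Nat.nth_mem_of_infinite hI
    (2 * (m + 1)), lt_of_lt_of_le (by omega) (hs.le_apply), m + 1, rfl⟩,
    fun m => ⟨_, Nat.nth_mem_of_infinite hI (2 * m + 1), lt_of_lt_of_le (by omega) hs.le_apply,
      fun ⟨k, hk⟩ => by have := hs.injective hk; omega⟩⟩

theorem dense (hE : Tol W E) (hF : Tol W F) (h : LtL W E F) :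
    ∃ G, Tol W G ∧ LtL W E G ∧ LtL W G F := by
  have g1 := germ_of_le hE hF h.1
  have g2 : ¬ Germ W F E := fun g => h.2 (le_of_germ hF hE g)
  simp only [Germ, not_forall, not_exists, not_and] at g2
  obtain ⟨a, ha⟩ := g2
  obtain ⟨S, hS1, hS2⟩ := halves (N := {n | ∃ b, vv (W a) (W b) = some n ∧ F b a ∧ ¬ E b a})
    fun m => by
      obtain ⟨b, h1, h2, h3, h4⟩ := ha ((Finset.range (m + 1)).filter (· ∈ W a))
        (fun x hx => by simp at hx; exact hx.2)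
      have h5 : (W a \ W b).Nonempty :=
        Set.diff_nonempty.2 fun h5 => h4 (hE.2 _ _ (h2.antisymm h5))
      refine ⟨sInf (W a \ W b), ⟨b, by rw [vv, if_pos ⟨h2, h5⟩], h3, h4⟩, ?_⟩
      by_contra hle
      have h6 := Nat.sInf_mem h5
      refine h6.2 (h1 ?_)
      simp only [Finset.coe_filter, Finset.mem_range, Set.mem_setOf_eq]
      exact ⟨by omega, h6.1⟩
  let good : ℕ → Prop := fun b => F b a ∧ (E b a ∨ ∃ n ∈ S, vv (W a) (W b) = some n)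
  let G : ℕ → ℕ → Prop := fun b c => (good b ∧ good c) ∨
    (¬ good b ∧ ¬ good c ∧ E b c ∧ F b c ∧ vv (W a) (W b) = vv (W a) (W c))
  have ga : good a := ⟨hF.1.refl a, Or.inl (hE.1.refl a)⟩
  have tr : ∀ b c, E b c → F b c → vv (W a) (W b) = vv (W a) (W c) → G b c := by
    intro b c h1 h2 h3
    have : good b ↔ good c := by
      simp only [good, h3]
      exact and_congr ⟨hF.1.trans (hF.1.symm h2), hF.1.trans h2⟩
        (or_congr ⟨hE.1.trans (hE.1.symm h1), hE.1.trans h1⟩ Iff.rfl)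
    by_cases hb : good b
    · exact Or.inl ⟨hb, this.1 hb⟩
    · exact Or.inr ⟨hb, fun hc => hb (this.2 hc), h1, h2, h3⟩
  have hG : Tol W G := by
    refine ⟨⟨fun b => tr b b (hE.1.refl b) (hF.1.refl b) rfl, ?_, ?_⟩,
      fun b c e => tr b c (hE.2 _ _ e) (hF.2 _ _ e) (by rw [e])⟩
    · rintro b c (⟨h1, h2⟩ | ⟨h1, h2, h3, h4, h5⟩)
      · exact Or.inl ⟨h2, h1⟩
      · exact Or.inr ⟨h2, h1, hE.1.symm h3, hF.1.symm h4, h5.symm⟩
    · rintro b c d (⟨h1, h2⟩ | ⟨h1, h2, h3, h4, h5⟩) (⟨k1, k2⟩ | ⟨k1, k2, k3, k4, k5⟩)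
      · exact Or.inl ⟨h1, k2⟩
      · exact absurd h2 k1
      · exact absurd k1 h2
      · exact Or.inr ⟨h1, k2, hE.1.trans h3 k3, hF.1.trans h4 k4, h5.trans k5⟩
  have bd : ∀ (D : Finset ℕ) n, D.sup id < n → ∀ x ∈ D, x < n := fun D n hn x hx =>
    lt_of_le_of_lt (Finset.le_sup (f := id) hx) hn
  refine ⟨G, hG, ⟨le_of_germ hE hG fun p => ?_, fun hl => ?_⟩,
    ⟨le_of_germ hG hF fun p => ⟨∅, by simp, ?_⟩, fun hl => ?_⟩⟩
  · obtain ⟨D, h1, h2⟩ := g1 p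
    by_cases hp : W p = W a
    · refine ⟨D, h1, fun q h3 h4 h5 => Or.inl ⟨⟨hF.1.trans (h2 q h3 h4 h5) (hF.2 _ _ hp),
        Or.inl (hE.1.trans h5 (hE.2 _ _ hp))⟩, hF.2 _ _ hp, Or.inl (hE.2 _ _ hp)⟩⟩
    · obtain ⟨D', h6, h7⟩ := vv_local hp
      refine ⟨D ∪ D', by simp [h1, h6], fun q h3 h4 h5 => ?_⟩
      rw [Finset.coe_union, Set.union_subset_iff] at h3
      exact tr q p h5 (h2 q h3.1 h4 h5) (h7 _ h3.2 h4)
  · obtain ⟨D, h1, h2⟩ := germ_of_le hG hE hl a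
    obtain ⟨n, ⟨b, h3, h4, h5⟩, h6, h7⟩ := hS1 (D.sup id)
    obtain ⟨h8, h9⟩ := vv_big h3 D h1 (bd D n h6)
    exact h5 (h2 b h8 h9 (Or.inl ⟨⟨h4, Or.inr ⟨n, h7, h3⟩⟩, ga⟩))
  · rintro q - - (⟨h1, h2⟩ | ⟨-, -, -, h1, -⟩)
    · exact hF.1.trans h1.1 (hF.1.symm h2.1)
    · exact h1
  · obtain ⟨D, h1, h2⟩ := germ_of_le hF hG hl a
    obtain ⟨n, ⟨b, h3, h4, h5⟩, h6, h7⟩ := hS2 (D.sup id)
    obtain ⟨h8, h9⟩ := vv_big h3 D h1 (bd D n h6)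
    rcases h2 b h8 h9 h4 with ⟨⟨-, k | ⟨m, k1, k2⟩⟩, -⟩ | ⟨-, k, -⟩
    · exact h5 k
    · rw [h3] at k2
      exact h7 (Option.some.inj k2 ▸ k1)
    · exact k ga

end Pool.Agent.H77.Tlh
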