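import Mathlib

/-! Tolerant learning of families of c.e. sets. -/

namespace Pool.Agent.H77.Tlh

/-- The standard numbering of the c.e. sets: domains of the partial computable functions. -/
def Wce (e : ℕ) : Set ℕ := {x | ((Denumerable.ofNat Nat.Partrec.Code e).eval x).Dom}

variable (W : ℕ → Set ℕ)

/-- A tolerance relation: an equivalence relation containing equality of the sets `W e`. -/
def Tol (E : ℕ → ℕ → Prop) : Prop := Equivalence E ∧ ∀ e e', W e = W e' → E e e'

/-- Some learner (any function on finite sequences) converges on every enumeration of every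
member of `K` to an index `E`-related to the indices of that member. -/
def Learnable (E : ℕ → ℕ → Prop) (K : Set (Set ℕ)) : Prop :=
  ∃ M : List ℕ → ℕ, ∀ e, W e ∈ K → ∀ μ : ℕ → ℕ, Set.range μ = W e →
    ∃ i, (∃ s₀, ∀ s, s₀ ≤ s → M ((List.range s).map μ) = i) ∧ E i e

/-- `E ≤_Learn F`: every `E`-learnable family of nonempty sets `W e` is `F`-learnable. -/
def LeL (E F : ℕ → ℕ → Prop) : Prop :=
  ∀ K : Set (Set ℕ), (∀ A ∈ K, A.Nonempty ∧ ∃ e, A = W e) → Learnable W E K → Learnable W F K

/-- `E <_Learn F`. -/
def LtL (E F : ℕ → ℕ → Prop) : Prop := LeL W E F ∧ ¬ LeL W F E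

end Pool.Agent.H77.Tlh
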