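import Mathlib

/-! One linear rule simulating a finite graph of linear instructions: basic term lemmas. -/

namespace Pool.Agent.H77.Trs

inductive T : Type
  | v (i j : ℕ) : T
  | F (a b : T) : T
  | P (a b : T) : T
  | G (a : T) : T
  | E : T
  | N : T

namespace T

def sb (θ : ℕ × ℕ → T) : T → T
  | v i j => θ (i, j)
  | F a b => F (a.sb θ) (b.sb θ)
  | P a b => P (a.sb θ) (b.sb θ)
  | G a => G (a.sb θ)
  | E => E
  | N => N

def vs : T → List (ℕ × ℕ)
  | v i j => [(i, j)]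
  | F a b => a.vs ++ b.vs
  | P a b => a.vs ++ b.vs
  | G a => a.vs
  | E => []
  | N => []

inductive St (l r : T) : T → T → Prop
  | root (θ : ℕ × ℕ → T) : St l r (l.sb θ) (r.sb θ)
  | F1 {a a' : T} (b : T) : St l r a a' → St l r (F a b) (F a' b)
  | F2 (a : T) {b b' : T} : St l r b b' → St l r (F a b) (F a b')
  | P1 {a a' : T} (b : T) : St l r a a' → St l r (P a b) (P a' b)
  | P2 (a : T) {b b' : T} : St l r b b' → St l r (P a b) (P a b')
  | G1 {a a' : T} : St l r a a' → St l r (G a) (G a')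

/-- built from pairs, constants and variables only -/
def Pl : T → Prop
  | v _ _ => True
  | P a b => a.Pl ∧ b.Pl
  | E => True
  | N => True
  | _ => False

/-- shape matching -/
def mt : T → T → Prop
  | v _ _, _ => True
  | F a b, F a' b' => mt a a' ∧ mt b b'
  | P a b, P a' b' => mt a a' ∧ mt b b'
  | E, E => True
  | N, N => True
  | _, _ => False

theorem sb_congr {θ θ' : ℕ × ℕ → T} : ∀ t : T, (∀ x ∈ t.vs, θ x = θ' x) → t.sb θ = t.sb θ'
  | v i j, h => h _ (by simp [vs])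
  | F a b, h => by
    simp only [sb]
    rw [sb_congr a fun x hx => h x (by simp [vs, hx]), sb_congr b fun x hx => h x (by simp [vs, hx])]
  | P a b, h => by
    simp only [sb]
    rw [sb_congr a fun x hx => h x (by simp [vs, hx]), sb_congr b fun x hx => h x (by simp [vs, hx])]
  | G a, h => by simp only [sb]; rw [sb_congr a h]
  | E, _ => rfl
  | N, _ => rfl

theorem glue {a b a' b' : T} (h : (a.vs ++ b.vs).Nodup) {θ θ' : ℕ × ℕ → T} (h1 : a.sb θ = a')
    (h2 : b.sb θ' = b') : ∃ η, a.sb η = a' ∧ b.sb η = b' := by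
  classical
  refine ⟨fun x => if x ∈ a.vs then θ x else θ' x, ?_, ?_⟩
  · rw [← h1]; exact sb_congr a fun x hx => if_pos hx
  · rw [← h2]
    exact sb_congr b fun x hx => if_neg fun hx' => (List.nodup_append.1 h).2.2 x hx' x hx rfl

theorem exists_sb : ∀ p t : T, p.vs.Nodup → mt p t → ∃ θ, p.sb θ = t := by
  intro p
  induction p with
  | v i j => exact fun t _ _ => ⟨fun _ => t, rfl⟩
  | F a b ia ib =>
    intro t hn hm
    cases t with
    | F a' b' =>
      obtain ⟨θ, h1⟩ := ia a' (List.nodup_append.1 hn).1 hm.1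
      obtain ⟨θ', h2⟩ := ib b' (List.nodup_append.1 hn).2.1 hm.2
      obtain ⟨η, e1, e2⟩ := glue hn h1 h2
      exact ⟨η, by simp only [sb, e1, e2]⟩
    | _ => exact hm.elim
  | P a b ia ib =>
    intro t hn hm
    cases t with
    | P a' b' =>
      obtain ⟨θ, h1⟩ := ia a' (List.nodup_append.1 hn).1 hm.1
      obtain ⟨θ', h2⟩ := ib b' (List.nodup_append.1 hn).2.1 hm.2
      obtain ⟨η, e1, e2⟩ := glue hn h1 h2
      exact ⟨η, by simp only [sb, e1, e2]⟩
    | _ => exact hm.elim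
  | G a _ => intro t _ hm; cases t <;> exact hm.elim
  | E => intro t _ hm; cases t <;> first | exact ⟨fun _ => N, rfl⟩ | exact hm.elim
  | N => intro t _ hm; cases t <;> first | exact ⟨fun _ => N, rfl⟩ | exact hm.elim

/-- the list of cells `c s, …, c (s + k - 1)` followed by `t` -/
def ml (c : ℕ → T) : ℕ → ℕ → T → T
  | _, 0, t => t
  | s, k + 1, t => F (c s) (ml c (s + 1) k t)

theorem ml_add (c : ℕ → T) : ∀ (a s b : ℕ) (t : T), ml c s (a + b) t = ml c s a (ml c (s + a) b t)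
  | 0, s, b, t => by simp [ml]
  | a + 1, s, b, t => by
    rw [show a + 1 + b = (a + b) + 1 by omega]
    simp only [ml]
    rw [ml_add c a, show s + 1 + a = s + (a + 1) by omega]

theorem ml_sb (c : ℕ → T) (θ : ℕ × ℕ → T) : ∀ (k s : ℕ) (t : T),
    (ml c s k t).sb θ = ml (fun i => (c i).sb θ) s k (t.sb θ)
  | 0, _, _ => rfl
  | k + 1, s, t => by simp only [ml, sb, ml_sb c θ k]

theorem ml_inj {c c' : ℕ → T} : ∀ (k s s' : ℕ) {t t' : T}, ml c s k t = ml c' s' k t' →
    ∀ i < k, c (s + i) = c' (s' + i)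
  | 0, _, _, _, _, _, _, h => by omega
  | k + 1, s, s', t, t', h, i, hi => by
    simp only [ml, F.injEq] at h
    rcases i with _ | i
    · exact h.1
    · have := ml_inj k _ _ h.2 i (by omega)
      rwa [show s + 1 + i = s + (i + 1) by omega, show s' + 1 + i = s' + (i + 1) by omega] at this

theorem ml_mt {c c' : ℕ → T} (x y : ℕ) : ∀ (k s s' : ℕ) (t : T),
    (∀ i < k, mt (c (s + i)) (c' (s' + i))) → mt (ml c s k (v x y)) (ml c' s' k t)
  | 0, _, _, t, _ => by simp [ml, mt]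
  | k + 1, s, s', t, h => by
    refine ⟨h 0 (by omega), ml_mt x y k _ _ t fun i hi => ?_⟩
    have := h (i + 1) (by omega)
    rwa [show s + 1 + i = s + (i + 1) by omega, show s' + 1 + i = s' + (i + 1) by omega]

theorem mem_ml {c : ℕ → T} {x : ℕ × ℕ} : ∀ (k s : ℕ) (t : T),
    x ∈ (ml c s k t).vs ↔ (∃ i, s ≤ i ∧ i < s + k ∧ x ∈ (c i).vs) ∨ x ∈ t.vs
  | 0, s, t => by
    simp only [ml]
    exact ⟨Or.inr, fun h => h.elim (fun ⟨i, a, b, _⟩ => by omega) id⟩
  | k + 1, s, t => by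
    simp only [ml, vs, List.mem_append, mem_ml k]
    constructor
    · rintro (h | ⟨i, a, b, h⟩ | h)
      · exact Or.inl ⟨s, le_rfl, by omega, h⟩
      · exact Or.inl ⟨i, by omega, by omega, h⟩
      · exact Or.inr h
    · rintro (⟨i, a, b, h⟩ | h)
      · by_cases e : i = s
        · exact Or.inl (e ▸ h)
        · exact Or.inr (Or.inl ⟨i, by omega, by omega, h⟩)
      · exact Or.inr (Or.inr h)

theorem nodup_ml {c : ℕ → T} (h : ℕ × ℕ → ℕ) : ∀ (k s : ℕ) (t : T),
    (∀ i, s ≤ i → i < s + k → (c i).vs.Nodup ∧ ∀ x ∈ (c i).vs, h x = i) → t.vs.Nodup →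
    (∀ x ∈ t.vs, s + k ≤ h x) → (ml c s k t).vs.Nodup
  | 0, _, _, _, h2, _ => h2
  | k + 1, s, t, h1, h2, h3 => by
    simp only [ml, vs]
    refine List.nodup_append.2 ⟨(h1 s le_rfl (by omega)).1, nodup_ml h k _ t
      (fun i a b => h1 i (by omega) (by omega)) h2 fun x hx => by have := h3 x hx; omega, ?_⟩
    rintro x hx _ hy rfl
    have e := (h1 s le_rfl (by omega)).2 x hx
    rcases (mem_ml k _ t).1 hy with ⟨i, a, b, hi⟩ | hi
    · have := (h1 i (by omega) (by omega)).2 x hi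
      omega
    · have := h3 x hi
      omega

inductive Sub : T → T → Prop
  | rf (t : T) : Sub t t
  | F1 {a u : T} (b : T) : Sub a u → Sub (F a b) u
  | F2 (a : T) {b u : T} : Sub b u → Sub (F a b) u
  | G1 {a u : T} : Sub a u → Sub (G a) u

theorem Sub.trans {a b c : T} (h : Sub a b) (h' : Sub b c) : Sub a c := by
  induction h with
  | rf => exact h'
  | F1 b _ ih => exact .F1 b (ih h')
  | F2 a _ ih => exact .F2 a (ih h')
  | G1 _ ih => exact .G1 (ih h')

theorem Sub.step {l r t u u' : T} (h : Sub t u) (hs : St l r u u') :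
    ∃ t', St l r t t' ∧ Sub t' u' := by
  induction h with
  | rf => exact ⟨_, hs, .rf _⟩
  | F1 b _ ih => obtain ⟨t', h1, h2⟩ := ih hs; exact ⟨_, .F1 b h1, .F1 b h2⟩
  | F2 a _ ih => obtain ⟨t', h1, h2⟩ := ih hs; exact ⟨_, .F2 a h1, .F2 a h2⟩
  | G1 _ ih => obtain ⟨t', h1, h2⟩ := ih hs; exact ⟨_, .G1 h1, .G1 h2⟩

theorem sub_ml (c : ℕ → T) : ∀ (k s : ℕ) (t : T), Sub (ml c s k t) t
  | 0, _, _ => .rf _
  | k + 1, s, t => .F2 _ (sub_ml c k _ t)

theorem exists_seq {l r : T} (Q : (ℕ × ℕ → T) → Prop) (θ0 : ℕ × ℕ → T) (h0 : Q θ0)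
    (h : ∀ θ, Q θ → ∃ θ', Q θ' ∧ Sub (r.sb θ) (l.sb θ')) :
    ∃ t : ℕ → T, ∀ i, St l r (t i) (t (i + 1)) := by
  have key : ∀ t : {t : T // ∃ θ, Q θ ∧ Sub t (l.sb θ)},
      ∃ t' : {t : T // ∃ θ, Q θ ∧ Sub t (l.sb θ)}, St l r t.1 t'.1 := by
    rintro ⟨t, θ, h1, h2⟩
    obtain ⟨t', a, b⟩ := h2.step (St.root (r := r) θ)
    obtain ⟨θ', c, d⟩ := h θ h1
    exact ⟨⟨t', θ', c, b.trans d⟩, a⟩
  choose f hf using key
  refine ⟨fun i => (f^[i] ⟨_, θ0, h0, .rf _⟩).1, fun i => ?_⟩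
  simp only [Function.iterate_succ_apply']
  exact hf _

/-- the skeleton of a cell -/
def sk : T → T
  | P a b => P a.sk b.sk
  | E => E
  | _ => N

def sp : T → List T
  | F a b => a.sk :: b.sp
  | _ => []

theorem sk_sb (θ : ℕ × ℕ → T) : ∀ t : T, t.Pl → (t.sb θ).sk = t.sb fun x => (θ x).sk
  | v _ _, _ => rfl
  | P a b, h => by simp only [sb, sk, sk_sb θ a h.1, sk_sb θ b h.2]
  | E, _ => rfl
  | N, _ => rfl
  | F _ _, h => h.elim
  | G _, h => h.elim

theorem St.sk_eq {a b r t t' : T} (h : St (F a b) (G r) t t') : t'.sk = t.sk := by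
  induction h with
  | P1 _ _ ih => simp only [sk, ih]
  | P2 _ _ ih => simp only [sk, ih]
  | _ => rfl

theorem St.sp_le {a b r t t' : T} (h : St (F a b) (G r) t t') : t'.sp <+: t.sp := by
  induction h with
  | root θ => exact List.nil_prefix
  | F1 _ h _ => simp only [sp, h.sk_eq]; exact List.prefix_rfl
  | F2 _ _ ih => simp only [sp]; exact (List.prefix_cons_inj _).2 ih
  | _ => exact List.prefix_rfl

theorem sp_ml (c : ℕ → T) : ∀ (k s : ℕ) (t : T),
    (ml c s k t).sp = (List.range' s k).map (fun i => (c i).sk) ++ t.sp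
  | 0, _, _ => rfl
  | k + 1, s, t => by simp only [ml, sp, sp_ml c k, List.range'_succ, List.map_cons, List.cons_append]

def mu (wt : List T → ℕ) : T → ℕ
  | F a b => wt (F a b).sp + a.mu wt + b.mu wt
  | P a b => a.mu wt + b.mu wt
  | G a => a.mu wt
  | _ => 0

def ws (wt : List T → ℕ) (θ : ℕ × ℕ → T) (t : T) : ℕ := (t.vs.map fun x => (θ x).mu wt).sum

theorem ws_le (wt : List T → ℕ) (θ : ℕ × ℕ → T) : ∀ t : T, ws wt θ t ≤ (t.sb θ).mu wt
  | v _ _ => by simp [ws, vs, sb]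
  | F a b => by
    have := ws_le wt θ a; have := ws_le wt θ b
    simp only [ws, vs, sb, mu, List.map_append, List.sum_append] at *; omega
  | P a b => by
    have := ws_le wt θ a; have := ws_le wt θ b
    simp only [ws, vs, sb, mu, List.map_append, List.sum_append] at *; omega
  | G a => ws_le wt θ a
  | E => le_rfl
  | N => le_rfl

theorem ws_pl (wt : List T → ℕ) (θ : ℕ × ℕ → T) : ∀ t : T, t.Pl → (t.sb θ).mu wt = ws wt θ t
  | v _ _, _ => by simp [ws, vs, sb]
  | P a b, h => by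
    have := ws_pl wt θ a h.1; have := ws_pl wt θ b h.2
    simp only [ws, vs, sb, mu, List.map_append, List.sum_append] at *; omega
  | E, _ => rfl
  | N, _ => rfl
  | F _ _, h => h.elim
  | G _, h => h.elim

theorem mu_ml (wt : List T → ℕ) (θ : ℕ × ℕ → T) (c : ℕ → T) (hc : ∀ i, (c i).Pl) (M : ℕ) :
    ∀ (k s : ℕ), (∀ i < k, wt ((ml c (s + i) (k - i) N).sb θ).sp ≤ M) →
      ((ml c s k N).sb θ).mu wt ≤ k * M + ws wt θ (ml c s k N)
  | 0, _, _ => by simp [ml, sb, mu]
  | k + 1, s, h => by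
    have h0 := h 0 (by omega)
    have h1 := mu_ml wt θ c hc M k (s + 1) fun i hi => by
      have := h (i + 1) (by omega)
      rwa [show s + (i + 1) = s + 1 + i by omega, show k + 1 - (i + 1) = k - i by omega] at this
    have h2 := ws_pl wt θ _ (hc s)
    simp only [ws, vs, sb, mu, ml, List.map_append, List.sum_append, add_zero, Nat.sub_zero,
      Nat.succ_mul] at *
    omega

theorem ws_mono (wt : List T → ℕ) (θ : ℕ × ℕ → T) {a b : T} (h : a.vs.Nodup)
    (h' : ∀ x ∈ a.vs, x ∈ b.vs) : ws wt θ a ≤ ws wt θ b := by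
  obtain ⟨L, h1, h2⟩ := List.subperm_of_subset h h'
  unfold ws
  rw [← (h1.map _).sum_eq]
  exact (h2.map _).sum_le_sum fun _ _ => Nat.zero_le _

theorem term_of {a b r : T} (wt : List T → ℕ) (hw : ∀ L L', L' <+: L → wt L' ≤ wt L)
    (h : ∀ θ, ((G r).sb θ).mu wt < ((F a b).sb θ).mu wt) :
    ¬ ∃ t : ℕ → T, ∀ i, St (F a b) (G r) (t i) (t (i + 1)) := by
  have key : ∀ t t', St (F a b) (G r) t t' → t'.mu wt < t.mu wt := by
    intro t t' hs
    induction hs with
    | root θ => exact h θ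
    | F1 y hs ih => have := hw _ _ (St.F1 y hs).sp_le; simp only [mu]; omega
    | F2 y hs ih => have := hw _ _ (St.F2 y hs).sp_le; simp only [mu]; omega
    | P1 y hs ih => simp only [mu]; omega
    | P2 y hs ih => simp only [mu]; omega
    | G1 hs ih => exact ih
  rintro ⟨t, ht⟩
  have : ∀ i, (t i).mu wt + i ≤ (t 0).mu wt := by
    intro i
    induction i with
    | zero => rfl
    | succ i ih => have := key _ _ (ht i); omega
  have := this ((t 0).mu wt + 1)
  omega

end T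

end Pool.Agent.H77.Trs
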