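import Pool.Agent.H77.TrsB

/-! The single linear rule simulating a graph of linear instructions. -/

namespace Pool.Agent.H77.Trs

open T

structure Ok (n : ℕ) (lam rho : ℕ → T) (D : T) (al : ℕ → ℕ → Prop) : Prop where
  pos : 0 < n
  pl : ∀ q, (lam q).Pl
  pr : ∀ q, (rho q).Pl
  dpl : D.Pl
  dvs : D.vs = []
  nl : ∀ q, (lam q).vs.Nodup
  nr : ∀ q, (rho q).vs.Nodup
  lv : ∀ q, ∀ x ∈ (lam q).vs, x.1 = q ∧ 2 ≤ x.2
  rv : ∀ q, ∀ x ∈ (rho q).vs, x ∈ (lam q).vs
  dm : ∀ q < n, mt (lam q) D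
  lt : ∀ q q', al q q' → q < n ∧ q' < n

variable (n : ℕ) (lam rho : ℕ → T) (D : T) (al : ℕ → ℕ → Prop)

def cl (i : ℕ) : T :=
  P (if i < n then lam i else v i 2) (P (if i = 0 then E else v i 0) (v i 1))

def lhs : T := ml (cl n lam) 0 (n * n) (v (n * n) 0)

open Classical in
noncomputable def cr (p : ℕ) : T :=
  P (if p % n = n - 1 ∧ p / n < n then rho (p / n) else D)
    (P (if al (p / n) (n - 1 - p % n) then v (n * (n - 1 - p % n) + p / n) 1 else N)
      (if p % n = n - 1 then E else N))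

noncomputable def rhs : T := G (ml (cr n rho D al) 0 (n * n + n * n) N)

variable {n lam rho D al}

theorem md {a b : ℕ} (h : b < n) : (n * a + b) % n = b := by
  rw [Nat.mul_add_mod, Nat.mod_eq_of_lt h]

theorem dv {a b : ℕ} (h : b < n) : (n * a + b) / n = a := by
  rw [Nat.mul_add_div (by omega), Nat.div_eq_of_lt h, add_zero]

theorem lt_sq {a b : ℕ} (ha : a < n) (hb : b < n) : n * a + b < n * n := by
  have : n * (a + 1) ≤ n * n := Nat.mul_le_mul_left _ ha
  rw [Nat.mul_succ] at this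
  omega

theorem md_eq {a r c y : ℕ} (hr : r < n) (hy : y < n) :
    (n * a + r + (n * c + y)) % n = n - 1 ↔ y = n - 1 - r := by
  by_cases h : r + y < n
  · rw [show n * a + r + (n * c + y) = n * (a + c) + (r + y) by ring, md h]
    omega
  · have e : n * a + r + (n * c + y) = n * (a + c + 1) + (r + y - n) := by
      rw [Nat.mul_add, Nat.mul_add]; omega
    rw [e, md (by omega)]
    omega

theorem Ok.cl_pl (h : Ok n lam rho D al) (i : ℕ) : (cl n lam i).Pl := by
  refine ⟨?_, ?_, trivial⟩ <;> split_ifs <;> first | exact h.pl _ | trivial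

theorem Ok.cr_pl (h : Ok n lam rho D al) (i : ℕ) : (cr n rho D al i).Pl := by
  refine ⟨?_, ?_, ?_⟩ <;> split_ifs <;> first | exact h.pr _ | exact h.dpl | trivial

theorem Ok.nodup_l (h : Ok n lam rho D al) : (lhs n lam).vs.Nodup := by
  refine nodup_ml Prod.fst _ _ _ (fun i _ _ => ?_) (by simp [vs]) (by simp [vs])
  have a := h.nl i
  have b := h.lv i
  unfold cl
  split_ifs <;> simp only [vs, List.nodup_append, List.mem_append, List.mem_cons] <;> grind

theorem Ok.nodup_r (h : Ok n lam rho D al) : (rhs n rho D al).vs.Nodup := by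
  refine nodup_ml (fun x => if x.2 = 1 then n * (x.1 % n) + (n - 1 - x.1 / n) else n * x.1 + (n - 1))
    _ _ _ (fun p _ _ => ?_) (by simp [vs]) (by simp [vs])
  have a := h.nr (p / n)
  have b := fun x hx => h.lv (p / n) x (h.rv (p / n) x hx)
  have c := h.lt (p / n) (n - 1 - p % n)
  have d := Nat.div_add_mod p n
  have e := Nat.mod_lt p h.pos
  have f : p / n < n → (n * (n - 1 - p % n) + p / n) % n = p / n := md
  have g : p / n < n → (n * (n - 1 - p % n) + p / n) / n = n - 1 - p % n := dv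
  have := h.dvs
  unfold cr
  split_ifs <;> simp only [vs, List.nodup_append, List.mem_append, List.mem_cons] <;> grind

theorem Ok.sub (h : Ok n lam rho D al) : ∀ x ∈ (rhs n rho D al).vs, x ∈ (lhs n lam).vs := by
  intro x hx
  rcases (mem_ml _ _ _).1 hx with ⟨p, -, -, hp⟩ | hp
  swap
  · simp [vs] at hp
  refine (mem_ml _ _ _).2 (Or.inl ?_)
  have := h.dvs
  have e := Nat.mod_lt p h.pos
  simp only [cr, vs, List.mem_append] at hp
  rcases hp with hp | hp | hp
  · split_ifs at hp with h1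
    · refine ⟨p / n, Nat.zero_le _, ?_, ?_⟩
      · have := lt_sq (a := 0) h.pos h1.2
        omega
      · simp only [cl, vs, List.mem_append, if_pos h1.2]
        exact Or.inl (h.rv _ _ hp)
    · simp [this] at hp
  · split_ifs at hp with h1
    · refine ⟨n * (n - 1 - p % n) + p / n, Nat.zero_le _, ?_, ?_⟩
      · have := lt_sq (h.lt _ _ h1).2 (h.lt _ _ h1).1
        omega
      · simp only [cl, vs, List.mem_append]
        exact Or.inr (Or.inr hp)
    · simp [vs] at hp
  · split_ifs at hp <;> simp [vs] at hp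

theorem Ok.lhs_eq (h : Ok n lam rho D al) : ∃ a b, lhs n lam = F a b := by
  obtain ⟨k, hk⟩ : ∃ k, n * n = k + 1 := ⟨n * n - 1, by have := Nat.mul_pos h.pos h.pos; omega⟩
  exact ⟨_, _, by rw [lhs, hk]; rfl⟩

theorem sb_ground (θ : ℕ × ℕ → T) {t : T} (h : t.vs = []) : t.sb θ = t := by
  have : ∀ t : T, t.sb (fun x => v x.1 x.2) = t := by
    intro t; induction t <;> simp_all [sb]
  rw [sb_congr (θ' := fun x => v x.1 x.2) t (by simp [h]), this]

theorem Ok.nonterm (h : Ok n lam rho D al) (I : ℕ → T → Prop)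
    (hI : ∀ q d, I q d → q < n ∧ mt (lam q) d ∧
      ∀ θ, (lam q).sb θ = d → ∃ q', al q q' ∧ I q' ((rho q).sb θ)) (q0 : ℕ) (d0 : T)
    (h0 : I q0 d0) : ∃ t : ℕ → T, ∀ i, St (lhs n lam) (rhs n rho D al) (t i) (t (i + 1)) := by
  obtain ⟨θ1, h1⟩ := exists_sb _ _ (h.nl q0) (hI _ _ h0).2.1
  refine exists_seq (fun θ => ∃ q, I q ((lam q).sb θ) ∧ ∀ q' < n, θ (n * q' + q, 1) = E)
    (fun x => if x.2 = 1 then E else θ1 x) ⟨q0, ?_, fun _ _ => if_pos rfl⟩ ?_
  · rw [sb_congr (θ' := θ1) _ fun x hx => if_neg (by have := h.lv _ _ hx; omega), h1]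
    exact h0
  rintro θ ⟨q, h1, h2⟩
  obtain ⟨hq, -, h3⟩ := hI _ _ h1
  obtain ⟨q', h4, h5⟩ := h3 θ rfl
  obtain ⟨hq', h6, -⟩ := hI _ _ h5
  have hr : n - 1 - q' < n := by omega
  have ho := lt_sq hq hr
  set o := n * q + (n - 1 - q') with hoe
  let c' : ℕ → T := fun p => (cr n rho D al p).sb θ
  have hd : o + q' = n * q + (n - 1) := by omega
  have hm : mt (lhs n lam) (ml c' o (n * n) (ml c' (o + n * n) (n * n - o) N)) := by
    refine ml_mt _ _ _ _ _ _ fun i hi => ?_
    simp only [c', cr, cl, sb, zero_add]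
    refine ⟨?_, ?_, trivial⟩
    · split_ifs with a b
      · obtain rfl : i = q' := by
          have := (md_eq (a := q) (c := 0) hr a).1 (by simpa using b.1)
          omega
        rw [hd, dv (by omega)]
        exact h6
      · rw [sb_ground _ h.dvs]; exact h.dm _ a
      · trivial
      · trivial
    · split_ifs with a b
      · subst a
        simp only [add_zero, hoe, md hr, dv hr, show n - 1 - (n - 1 - q') = q' by omega, sb,
          h2 q' hq']
        trivial
      · subst a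
        simp only [add_zero, hoe, md hr, dv hr, show n - 1 - (n - 1 - q') = q' by omega] at b
        exact b h4
      · trivial
      · trivial
  obtain ⟨θ', hθ⟩ := exists_sb _ _ h.nodup_l hm
  have hc := hθ
  rw [lhs, ml_sb] at hc
  have hc := ml_inj _ _ _ hc
  refine ⟨θ', ⟨q', ?_, fun q'' hq'' => ?_⟩, ?_⟩
  · have := hc q' (by have := lt_sq (a := 0) h.pos hq'; omega)
    simp only [c', cr, cl, sb, zero_add, if_pos hq', hd, md (show n - 1 < n by omega),
      dv (show n - 1 < n by omega), hq, and_self, if_true, P.injEq] at this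
    rw [this.1]; exact h5
  · have := hc _ (lt_sq hq'' hq')
    have e : (o + (n * q'' + q')) % n = n - 1 := (md_eq hr hq').2 (by omega)
    simp only [c', cr, cl, sb, zero_add, e, if_true, P.injEq] at this
    exact this.2.2
  · rw [hθ, rhs]
    refine .G1 ?_
    rw [ml_sb, show n * n + n * n = o + (n * n + (n * n - o)) by omega, ml_add _ o, zero_add,
      ml_add _ (n * n)]
    exact sub_ml _ _ _ _

def p1 : T → T
  | P a _ => a
  | _ => N

def p2 : T → T
  | P _ b => b
  | _ => N

variable (n) in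
open Classical in
noncomputable def rk (Φ : ℕ → T → ℕ) (f : ℕ → T) : ℕ :=
  ((Finset.range n ×ˢ Finset.range n).filter fun y => p2 (p2 (f (n * y.2 + y.1))) = E).sup
    fun y => Φ y.1 (p1 (f y.1)) + 1

variable (n) in
open Classical in
noncomputable def gw (Φ : ℕ → T → ℕ) (f : ℕ → T) : ℕ :=
  if p1 (p2 (f 0)) = E then (n * n + n * n + 1) ^ rk n Φ f else 0

variable (n) in
noncomputable def wt (Φ : ℕ → T → ℕ) (L : List T) : ℕ :=
  if n * n ≤ L.length then gw n Φ fun i => L.getD i N else 0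

theorem gw_congr (hn : 0 < n) (Φ : ℕ → T → ℕ) {f f' : ℕ → T} (h : ∀ i < n * n, f i = f' i) :
    gw n Φ f = gw n Φ f' := by
  classical
  have : rk n Φ f = rk n Φ f' := by
    unfold rk
    refine Finset.sup_congr (Finset.filter_congr fun y hy => ?_) fun y hy => ?_
    · simp only [Finset.mem_product, Finset.mem_range] at hy
      rw [h _ (lt_sq hy.2 hy.1)]
    · simp only [Finset.mem_filter, Finset.mem_product, Finset.mem_range] at hy
      rw [h _ (by have := lt_sq (a := 0) hn hy.1.1; omega)]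
  unfold gw
  rw [this, h 0 (Nat.mul_pos hn hn)]

theorem wt_mono (hn : 0 < n) (Φ : ℕ → T → ℕ) (L L' : List T) (h : L' <+: L) :
    wt n Φ L' ≤ wt n Φ L := by
  obtain ⟨t, rfl⟩ := h
  unfold wt
  split_ifs with a b
  · refine (gw_congr hn Φ fun i hi => ?_).le
    rw [List.getD_append _ _ _ _ (by omega)]
  · simp at b; omega
  all_goals exact Nat.zero_le _

theorem wt_map (hn : 0 < n) (Φ : ℕ → T → ℕ) (c : ℕ → T) (s k : ℕ) (t : List T) (h : n * n ≤ k) :
    wt n Φ ((List.range' s k).map c ++ t) = gw n Φ fun i => c (s + i) := by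
  unfold wt
  rw [if_pos (by simp; omega)]
  refine gw_congr hn Φ fun i hi => ?_
  rw [List.getD_append _ _ _ _ (by simp; omega), List.getD_eq_getElem _ _ (by simp; omega)]
  simp

theorem Ok.rk_lt (h : Ok n lam rho D al) {Φ : ℕ → T → ℕ}
    (hΦ : ∀ θ q q', al q q' → Φ q' ((rho q).sb θ) < Φ q ((lam q).sb θ)) (θ : ℕ × ℕ → T) (o : ℕ)
    (he : p1 (p2 ((cr n rho D al (o + 0)).sb θ)) = E) :
    rk n Φ (fun j => (cr n rho D al (o + j)).sb θ) < rk n Φ fun i => (cl n lam (0 + i)).sb θ := by
  classical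
  have hr := Nat.mod_lt o h.pos
  have ho := Nat.div_add_mod o n
  simp only [cr, sb, p1, p2, add_zero] at he
  split_ifs at he with a
  swap
  · cases he
  obtain ⟨h1, h2⟩ := h.lt _ _ a
  have h3 := hΦ θ _ _ a
  have A : Φ (o / n) ((lam (o / n)).sb θ) + 1 ≤ rk n Φ fun i => (cl n lam (0 + i)).sb θ := by
    refine le_trans ?_ (Finset.le_sup (b := (o / n, n - 1 - o % n)) ?_)
    · simp only [cl, sb, p1, zero_add, if_pos h1, le_rfl]
    · simp only [Finset.mem_filter, Finset.mem_product, Finset.mem_range, cl, sb, p2, zero_add]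
      exact ⟨⟨h1, h2⟩, he⟩
  refine lt_of_le_of_lt (b := Φ (n - 1 - o % n) ((rho (o / n)).sb θ) + 1) ?_ (by omega)
  refine Finset.sup_le fun y hy => ?_
  simp only [Finset.mem_filter, Finset.mem_product, Finset.mem_range, cr, sb, p2] at hy
  obtain ⟨⟨b1, b2⟩, b3⟩ := hy
  split_ifs at b3 with b
  swap
  · cases b3
  have e : y.1 = n - 1 - o % n := (md_eq (a := o / n) hr b1).1 (by rw [ho]; exact b)
  have e' : o + y.1 = n * (o / n) + (n - 1) := by omega
  simp only [cr, sb, p1, e', md (show n - 1 < n by omega), dv (show n - 1 < n by omega), h1,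
    and_self, if_true]
  rw [e]

theorem Ok.term (h : Ok n lam rho D al) (Φ : ℕ → T → ℕ)
    (hΦ : ∀ θ q q', al q q' → Φ q' ((rho q).sb θ) < Φ q ((lam q).sb θ)) :
    ¬ ∃ t : ℕ → T, ∀ i, St (lhs n lam) (rhs n rho D al) (t i) (t (i + 1)) := by
  obtain ⟨a, b, hl⟩ := h.lhs_eq
  have key : ∀ θ, ((rhs n rho D al).sb θ).mu (wt n Φ) < ((lhs n lam).sb θ).mu (wt n Φ) := by
    intro θ
    set R := rk n Φ fun i => (cl n lam (0 + i)).sb fun x => (θ x).sk with hR
    set B := n * n + n * n + 1 with hB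
    have h1 : wt n Φ ((lhs n lam).sb θ).sp = B ^ R := by
      rw [lhs, ml_sb, sp_ml, wt_map h.pos _ _ _ _ _ le_rfl]
      simp only [sk_sb _ _ (h.cl_pl _)]
      rw [gw, if_pos (by simp [cl, sb, p1, p2])]
    have h2 : B ^ R + ws (wt n Φ) θ (lhs n lam) ≤ ((lhs n lam).sb θ).mu (wt n Φ) := by
      rw [← h1, hl]
      have := ws_le (wt n Φ) θ a
      have := ws_le (wt n Φ) θ b
      simp only [ws, vs, sb, mu, List.map_append, List.sum_append] at *
      omega
    have h3 := mu_ml (wt n Φ) θ _ h.cr_pl (B ^ R / B) (n * n + n * n) 0 fun i hi => by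
      rw [ml_sb, sp_ml]
      by_cases hk : n * n ≤ n * n + n * n - i
      · rw [wt_map h.pos _ _ _ _ _ hk]
        simp only [sk_sb _ _ (h.cr_pl _)]
        rw [gw]
        split_ifs with he
        · have := h.rk_lt hΦ _ _ he
          rw [Nat.le_div_iff_mul_le (by omega), ← pow_succ]
          exact Nat.pow_le_pow_right (by omega) this
        · exact Nat.zero_le _
      · rw [wt, if_neg (by simpa [sb, sp] using hk)]
        exact Nat.zero_le _
    have h4 := ws_mono (wt n Φ) θ h.nodup_r h.sub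
    have h5 : (n * n + n * n) * (B ^ R / B) < B ^ R := by
      have a1 : B * (B ^ R / B) ≤ B ^ R := Nat.mul_div_le _ _
      have a2 : 0 < B ^ R := by positivity
      rw [hB, Nat.succ_mul, ← hB] at a1
      rcases Nat.eq_zero_or_pos (B ^ R / B) with e | e
      · rw [e]; exact a2
      · omega
    have h6 : ws (wt n Φ) θ (rhs n rho D al) = ws (wt n Φ) θ (ml (cr n rho D al) 0 (n * n + n * n) N) :=
      rfl
    have h7 : ((rhs n rho D al).sb θ).mu (wt n Φ) =
      ((ml (cr n rho D al) 0 (n * n + n * n) N).sb θ).mu (wt n Φ) := rfl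
    omega
  rw [hl] at key ⊢
  exact term_of (wt n Φ) (wt_mono h.pos Φ) key

end Pool.Agent.H77.Trs
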