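import Pool.Agent.H77.TrsA
import Pool.Agent.H77.TrsC

/-! The register machine with a step budget and restart, as linear instructions. -/

namespace Pool.Agent.H77.Trs

open T Function Pool.Agent.H38.CM

def num : ℕ → T
  | 0 => P N (P E N)
  | k + 1 => P E (P N (num k))

def U : T := P E (P E N)

def ul : ℕ → T
  | 0 => N
  | k + 1 => P U (ul k)

def lst (f : ℕ → ℕ) : ℕ → ℕ → T
  | _, 0 => N
  | s, k + 1 => P (num (f s)) (lst f (s + 1) k)

def cnt : T → ℕ
  | P E (P _ t) => cnt t + 1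
  | _ => 0

def rp (q : ℕ) (t : T) : ℕ → ℕ → T
  | j, 0 => P t (v q j)
  | j, r + 1 => P (v q j) (rp q t (j + 1) r)

def lp (q k : ℕ) : T :=
  if k = 1 then P E (P (v q 6) (v q 5)) else if k = 2 then P (v q 6) (P E (v q 5)) else v q 5

def rr (q k : ℕ) : T := if k = 0 then P E (P N (v q 5)) else if k = 2 then num 0 else v q 5

theorem num_inj : ∀ {a b : ℕ}, num a = num b → a = b
  | 0, 0, _ => rfl
  | 0, _ + 1, h => by cases h
  | _ + 1, 0, h => by cases h
  | a + 1, b + 1, h => by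
    simp only [num, P.injEq, true_and] at h
    rw [num_inj h]

theorem num_pl : ∀ a, (num a).Pl
  | 0 => by simp [num, Pl]
  | a + 1 => by simp [num, Pl, num_pl a]

theorem num_vs : ∀ a, (num a).vs = []
  | 0 => rfl
  | a + 1 => by simp [num, vs, num_vs a]

theorem lst_pl (f : ℕ → ℕ) : ∀ k s, (lst f s k).Pl
  | 0, _ => trivial
  | k + 1, s => ⟨num_pl _, lst_pl f k _⟩

theorem lst_vs (f : ℕ → ℕ) : ∀ k s, (lst f s k).vs = []
  | 0, _ => rfl
  | k + 1, s => by simp [lst, vs, num_vs, lst_vs f k]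

theorem ul_pl : ∀ k, (ul k).Pl
  | 0 => trivial
  | k + 1 => ⟨by simp [U, Pl], ul_pl k⟩

theorem ul_vs : ∀ k, (ul k).vs = []
  | 0 => rfl
  | k + 1 => by simp [ul, U, vs, ul_vs k]

theorem lst_congr {f g : ℕ → ℕ} : ∀ k s, (∀ i, s ≤ i → f i = g i) → lst f s k = lst g s k
  | 0, _, _ => rfl
  | k + 1, s, h => by
    simp only [lst, h s le_rfl, lst_congr k (s + 1) fun i hi => h i (by omega)]

theorem rp_pl {q : ℕ} {t : T} (h : t.Pl) : ∀ r j, (rp q t j r).Pl
  | 0, _ => ⟨h, trivial⟩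
  | r + 1, j => ⟨trivial, rp_pl h r _⟩

theorem mem_rp {q : ℕ} {t : T} {x : ℕ × ℕ} : ∀ r j,
    x ∈ (rp q t j r).vs ↔ x ∈ t.vs ∨ (x.1 = q ∧ j ≤ x.2 ∧ x.2 ≤ j + r)
  | 0, j => by simp only [rp, vs, List.mem_append, List.mem_singleton]; grind
  | r + 1, j => by simp only [rp, vs, List.mem_append, List.mem_singleton, mem_rp r]; grind

theorem nodup_rp {q : ℕ} {t : T} (h : t.vs.Nodup) : ∀ r j, (∀ x ∈ t.vs, x.2 < j) →
    (rp q t j r).vs.Nodup
  | 0, j, h' => by simp only [rp, vs, List.nodup_append]; grind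
  | r + 1, j, h' => by
    have := nodup_rp (q := q) h r (j + 1) fun x hx => by have := h' x hx; omega
    simp only [rp, vs, List.nodup_append, mem_rp]; grind

theorem mt_rp_ul {q : ℕ} {t : T} (h : T.mt t U) : ∀ r j k, r < k → T.mt (rp q t j r) (ul k)
  | _, _, 0, hk => by omega
  | 0, j, k + 1, _ => ⟨h, trivial⟩
  | r + 1, j, k + 1, hk => ⟨trivial, mt_rp_ul h r _ k (by omega)⟩

theorem mt_rp_lst {q : ℕ} {t : T} {f : ℕ → ℕ} : ∀ r j k s, r < k → T.mt t (num (f (s + r))) →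
    T.mt (rp q t j r) (lst f s k)
  | _, _, 0, _, hk, _ => by omega
  | 0, j, k + 1, s, _, h => ⟨h, trivial⟩
  | r + 1, j, k + 1, s, hk, h =>
    ⟨trivial, mt_rp_lst r _ k _ (by omega) (by rwa [show s + 1 + r = s + (r + 1) by omega])⟩

theorem rp_lst {q : ℕ} {t : T} {f : ℕ → ℕ} {θ : ℕ × ℕ → T} : ∀ r j k s,
    (rp q t j r).sb θ = lst f s k → t.sb θ = num (f (s + r)) ∧
      ∀ t' m, T.sb θ t' = num m → (rp q t' j r).sb θ = lst (update f (s + r) m) s k
  | 0, _, 0, _, h => by cases h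
  | _ + 1, _, 0, _, h => by cases h
  | 0, j, k + 1, s, h => by
    simp only [rp, sb, lst, P.injEq] at h
    refine ⟨h.1, fun t' m hm => ?_⟩
    simp only [rp, sb, lst, hm, h.2, add_zero, update_self]
    rw [lst_congr (g := update f s m) k (s + 1) fun i hi => (update_of_ne (by omega) _ _).symm]
  | r + 1, j, k + 1, s, h => by
    simp only [rp, sb, lst, P.injEq] at h
    obtain ⟨h1, h2⟩ := rp_lst r _ k _ h.2
    rw [show s + 1 + r = s + (r + 1) by omega] at h1 h2
    refine ⟨h1, fun t' m hm => ?_⟩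
    simp only [rp, sb, lst, h.1, h2 t' m hm]
    rw [update_of_ne (by omega)]

theorem lp_num {q k a : ℕ} {θ : ℕ × ℕ → T} (h : (lp q k).sb θ = num a) :
    cond k a ∧ (rr q k).sb θ = num (nw k a) := by
  unfold lp at h
  unfold cond rr nw
  split_ifs at h ⊢ <;> rcases a with _ | a <;> simp_all [sb, num]

theorem mt_lp {q k a : ℕ} (h : cond k a) : T.mt (lp q k) (num a) := by
  unfold lp
  unfold cond at h
  split_ifs <;> rcases a with _ | a <;> simp_all [T.mt, num]

variable (k z : ℕ) (kd rg : ℕ → ℕ) (al : ℕ → ℕ → Prop) (x : ℕ)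

def lam (q : ℕ) : T :=
  if q = z then P (v q 2) (P (v q 4) (v q 5))
  else P (P E (P (v q 3) (v q 2))) (P (v q 4) (rp q (lp q (kd q)) 7 (rg q)))

def rho (q : ℕ) : T :=
  if q = z then P (v q 4) (P (num 0) (lst (init x) 0 k))
  else P (v q 2) (P (P E (P N (v q 4))) (rp q (rr q (kd q)) 7 (rg q)))

def dum : T := P U (P U (ul k))

variable {k z kd rg al}

theorem ok {n : ℕ} (hz : z < n) (hr : ∀ q, rg q < k) (ha : ∀ q q', al q q' → q < n ∧ q' < n) :
    Ok n (lam z kd rg) (rho k z kd rg x) (dum k) al := by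
  have l1 : ∀ q c, (lp q c).Pl ∧ (lp q c).vs.Nodup ∧ T.mt (lp q c) U ∧ (q, 5) ∈ (lp q c).vs ∧
      ∀ y ∈ (lp q c).vs, y = (q, 5) ∨ y = (q, 6) := by
    intro q c; unfold lp; split_ifs <;> simp [Pl, vs, T.mt, U]
  have l2 : ∀ q c, (rr q c).Pl ∧ (rr q c).vs.Nodup ∧ ∀ y ∈ (rr q c).vs, y = (q, 5) := by
    intro q c; unfold rr; split_ifs <;> simp [Pl, vs, num]
  refine ⟨by omega, fun q => ?_, fun q => ?_, ?_, ?_, fun q => ?_, fun q => ?_, fun q => ?_,
    fun q => ?_, fun q _ => ?_, ha⟩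
  · unfold lam; split_ifs <;> simp [Pl, rp_pl (l1 _ _).1]
  · unfold rho; split_ifs <;> simp [Pl, rp_pl (l2 _ _).1, num_pl, lst_pl]
  · simp [dum, U, Pl, ul_pl]
  · simp [dum, U, vs, ul_vs]
  · have a := l1 q (kd q)
    have := nodup_rp (q := q) a.2.1 (rg q) 7 (by grind)
    unfold lam
    split_ifs <;> simp only [vs, List.nodup_append, List.mem_append, mem_rp] <;> grind
  · have a := l2 q (kd q)
    have := nodup_rp (q := q) a.2.1 (rg q) 7 (by grind)
    unfold rho
    split_ifs <;> simp only [vs, List.nodup_append, List.mem_append, mem_rp, num_vs, lst_vs] <;>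
      grind
  · have a := l1 q (kd q)
    unfold lam
    split_ifs <;> simp only [vs, List.mem_append, mem_rp] <;> grind
  · have a := l1 q (kd q)
    have b := l2 q (kd q)
    unfold lam rho
    split_ifs <;> simp only [vs, List.mem_append, mem_rp, num_vs, lst_vs] <;> grind
  · have := mt_rp_ul (q := q) (l1 q (kd q)).2.2.1 (rg q) 7 k (hr q)
    unfold lam dum
    split_ifs <;> simp [T.mt, U, this]

variable (z kd rg al) in
inductive TH : ℕ → T → Prop
  | stop (t : T) : TH z t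
  | step {q q' : ℕ} (θ : ℕ × ℕ → T) : q ≠ z → al q q' →
      TH q' ((rp q (rr q (kd q)) 7 (rg q)).sb θ) → TH q ((rp q (lp q (kd q)) 7 (rg q)).sb θ)

theorem TH.rh {q : ℕ} {t : T} (h : TH z kd rg al q t) :
    ∀ f, t = lst f 0 k → ∃ m, RH z kd rg al q f m := by
  induction h with
  | stop t => exact fun f _ => ⟨0, .stop f⟩
  | step θ h1 h2 _ ih =>
    intro f hf
    obtain ⟨a, b⟩ := rp_lst _ _ _ _ hf
    rw [zero_add] at a b
    obtain ⟨c, d⟩ := lp_num a
    obtain ⟨m, hm⟩ := ih _ (b _ _ d)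
    exact ⟨m + 1, .step h1 c h2 hm⟩

theorem term_iff {n : ℕ} (hz : z < n) (hr : ∀ q, rg q < k)
    (ha : ∀ q q', al q q' → q < n ∧ q' < n) :
    (∃ t : ℕ → T, ∀ i, St (lhs n (lam z kd rg)) (rhs n (rho k z kd rg x) (dum k) al)
      (t i) (t (i + 1))) ↔ ∃ q m, al z q ∧ RH z kd rg al q (init x) m := by
  classical
  constructor
  · intro h
    by_contra hn
    refine (ok x hz hr ha).term (fun q d => if TH z kd rg al q (p2 (p2 d)) then
      2 * cnt (p1 d) + cnt (p1 (p2 d)) + 2 else cnt (p1 d)) ?_ h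
    intro θ q q' hq
    by_cases e : q = z
    · subst e
      have : ¬ TH q kd rg al q' (lst (init x) 0 k) := fun h' => by
        obtain ⟨m, hm⟩ := h'.rh _ rfl
        exact hn ⟨q', m, hq, hm⟩
      simp only [lam, rho, if_true, sb, p1, p2, sb_ground θ (lst_vs _ _ _), this, TH.stop, if_false]
      omega
    · have := TH.step (kd := kd) (rg := rg) θ e hq
      simp only [lam, rho, if_neg e, sb, p1, p2, cnt]
      split_ifs <;> first | omega | tauto
  · rintro ⟨q0, M, h1, h2⟩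
    refine (ok x hz hr ha).nonterm (fun q d => q < n ∧ ∃ b c f,
      d = P (num b) (P (num c) (lst f 0 k)) ∧ RH z kd rg al q f b ∧ b + c = M) ?_ q0 _
      ⟨(ha _ _ h1).2, M, 0, init x, rfl, h2, rfl⟩
    rintro q d ⟨hq, b, c, f, rfl, h3, h4⟩
    refine ⟨hq, ?_⟩
    cases h3 with
    | stop =>
      refine ⟨by simp [lam, T.mt], fun θ hθ => ⟨q0, h1, (ha _ _ h1).2, M, 0, init x, ?_, h2, rfl⟩⟩
      simp only [lam, if_true, sb, P.injEq] at hθ
      simp only [rho, if_true, sb, hθ.2.1, sb_ground θ (lst_vs _ _ _), sb_ground θ (num_vs _)]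
      rw [← h4, zero_add]
    | @step _ q' m _ a1 a2 a3 a4 =>
      have := mt_rp_lst (q := q) (f := f) (rg q) 7 k 0 (hr q) 
        (by rw [zero_add]; exact mt_lp (q := q) a2)
      refine ⟨by simp [lam, a1, T.mt, num, this], fun θ hθ =>
        ⟨q', a3, (ha _ _ a3).2, m, c + 1, _, ?_, a4, by omega⟩⟩
      simp only [lam, if_neg a1, sb, num, P.injEq] at hθ
      obtain ⟨a, b⟩ := rp_lst _ _ _ _ hθ.2.2
      rw [zero_add] at a b
      simp only [rho, if_neg a1, sb, num, hθ.1.2.2, hθ.2.1, b _ _ (lp_num a).2]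

end Pool.Agent.H77.Trs
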