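import Mathlib

/-! First-order terms over a finite signature, one-rule rewriting, termination. -/

namespace Pool.Agent.H77.Trs

/-- Terms over the signature whose `f`-th symbol has arity `σ.get f`; variables are numbers. -/
inductive Tm (σ : List ℕ) : Type
  | var (n : ℕ) : Tm σ
  | app (f : Fin σ.length) (ts : Fin (σ.get f) → Tm σ) : Tm σ

variable {σ : List ℕ}

/-- Apply a substitution. -/
def Tm.subst (θ : ℕ → Tm σ) : Tm σ → Tm σ
  | .var n => θ n
  | .app f ts => .app f fun i => (ts i).subst θ

/-- The list of all variable occurrences. -/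
def Tm.vars : Tm σ → List ℕ
  | .var n => [n]
  | .app _ ts => (List.ofFn fun i => (ts i).vars).flatten

/-- The term as a string (Polish form): `0, n` for variable `n`, `f + 1` for symbol `f`. -/
def Tm.enc : Tm σ → List ℕ
  | .var n => [0, n]
  | .app f ts => (f.val + 1) :: (List.ofFn fun i => (ts i).enc).flatten

/-- One rewrite step with the rule `l → r` at any position. -/
inductive Step (l r : Tm σ) : Tm σ → Tm σ → Prop
  | root (θ : ℕ → Tm σ) : Step l r (l.subst θ) (r.subst θ)
  | arg (f : Fin σ.length) (ts : Fin (σ.get f) → Tm σ) (i : Fin (σ.get f)) (t : Tm σ) :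
      Step l r (ts i) t → Step l r (.app f ts) (.app f (Function.update ts i t))

/-- `l → r` is a rewrite rule which is left-linear and right-linear. -/
def LinearRule (l r : Tm σ) : Prop :=
  (∀ n, l ≠ .var n) ∧ (∀ x ∈ r.vars, x ∈ l.vars) ∧ l.vars.Nodup ∧ r.vars.Nodup

/-- There is no infinite rewrite sequence. -/
def Terminating (l r : Tm σ) : Prop :=
  ¬ ∃ t : ℕ → Tm σ, ∀ i, Step l r (t i) (t (i + 1))

end Pool.Agent.H77.Trs
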