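import Pool.Agent.H77.TrsD
import Pool.Agent.H77.TrsDefs

/-! Transfer to terms over a signature, and computability of the family of rules. -/

namespace Pool.Agent.H77.Trs

open T Function Pool.Agent.H38.CM

def sg : List ℕ := [2, 2, 1, 0, 0]

def toTm : T → Tm sg
  | .v i j => .var (Nat.pair i j)
  | .F a b => .app ⟨0, by decide⟩ (![toTm a, toTm b] : Fin 2 → Tm sg)
  | .P a b => .app ⟨1, by decide⟩ (![toTm a, toTm b] : Fin 2 → Tm sg)
  | .G a => .app ⟨2, by decide⟩ (![toTm a] : Fin 1 → Tm sg)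
  | .E => .app ⟨3, by decide⟩ (![] : Fin 0 → Tm sg)
  | .N => .app ⟨4, by decide⟩ (![] : Fin 0 → Tm sg)

def mk : ℕ → List T → T
  | 0, [a, b] => F a b
  | 1, [a, b] => P a b
  | 2, [a] => G a
  | 3, _ => E
  | _, _ => N

def ofTm : Tm sg → T
  | .var m => v m.unpair.1 m.unpair.2
  | .app f ts => mk f (List.ofFn fun i => ofTm (ts i))

def en : T → List ℕ
  | .v i j => [0, Nat.pair i j]
  | .F a b => 1 :: (en a ++ en b)
  | .P a b => 2 :: (en a ++ en b)
  | .G a => 3 :: en a
  | .E => [4]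
  | .N => [5]

theorem ofFn2 {α β : Type} (g : α → β) (a b : α) :
    (List.ofFn fun i : Fin 2 => g (![a, b] i)) = [g a, g b] := by simp [List.ofFn_succ]

theorem ofFn1 {α β : Type} (g : α → β) (a : α) :
    (List.ofFn fun i : Fin 1 => g (![a] i)) = [g a] := by simp [List.ofFn_succ]

theorem enc_to : ∀ t : T, (toTm t).enc = en t
  | .v _ _ => rfl
  | .F a b => by
    refine (congrArg (fun L => 1 :: List.flatten L) (ofFn2 Tm.enc _ _)).trans ?_
    simp [en, enc_to a, enc_to b]
  | .P a b => by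
    refine (congrArg (fun L => 2 :: List.flatten L) (ofFn2 Tm.enc _ _)).trans ?_
    simp [en, enc_to a, enc_to b]
  | .G a => by
    refine (congrArg (fun L => 3 :: List.flatten L) (ofFn1 Tm.enc _)).trans ?_
    simp [en, enc_to a]
  | .E => rfl
  | .N => rfl

theorem vars_to : ∀ t : T, (toTm t).vars = t.vs.map fun x => Nat.pair x.1 x.2
  | .v _ _ => rfl
  | .F a b => by
    refine (congrArg List.flatten (ofFn2 Tm.vars _ _)).trans ?_
    simp [vs, vars_to a, vars_to b]
  | .P a b => by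
    refine (congrArg List.flatten (ofFn2 Tm.vars _ _)).trans ?_
    simp [vs, vars_to a, vars_to b]
  | .G a => by
    refine (congrArg List.flatten (ofFn1 Tm.vars _)).trans ?_
    simp [vs, vars_to a]
  | .E => rfl
  | .N => rfl

theorem of_to : ∀ t : T, ofTm (toTm t) = t
  | .v _ _ => by simp [toTm, ofTm]
  | .F a b => (congrArg (mk 0) (ofFn2 ofTm _ _)).trans (by simp [mk, of_to a, of_to b])
  | .P a b => (congrArg (mk 1) (ofFn2 ofTm _ _)).trans (by simp [mk, of_to a, of_to b])
  | .G a => (congrArg (mk 2) (ofFn1 ofTm _)).trans (by simp [mk, of_to a])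
  | .E => rfl
  | .N => rfl

theorem to_sb (θ : ℕ × ℕ → T) : ∀ t : T,
    toTm (t.sb θ) = (toTm t).subst fun m => toTm (θ m.unpair)
  | .v _ _ => by simp [toTm, sb, Tm.subst]
  | .F a b => by
    simp only [sb, toTm, Tm.subst, to_sb θ a, to_sb θ b]
    congr 1; funext i; fin_cases i <;> rfl
  | .P a b => by
    simp only [sb, toTm, Tm.subst, to_sb θ a, to_sb θ b]
    congr 1; funext i; fin_cases i <;> rfl
  | .G a => by
    simp only [sb, toTm, Tm.subst, to_sb θ a]
    congr 1; funext i; fin_cases i; rfl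
  | .E => by simp only [sb, toTm, Tm.subst]; congr 1; funext i; fin_cases i
  | .N => by simp only [sb, toTm, Tm.subst]; congr 1; funext i; fin_cases i

theorem mk_sb (θ : ℕ × ℕ → T) (f : ℕ) (L : List T) : (mk f L).sb θ = mk f (L.map (sb θ)) := by
  rcases f with _ | _ | _ | _ | f <;> rcases L with _ | ⟨a, _ | ⟨b, _ | ⟨c, L⟩⟩⟩ <;> rfl

theorem of_subst (θ : ℕ → Tm sg) : ∀ t : Tm sg,
    ofTm (t.subst θ) = (ofTm t).sb fun x => ofTm (θ (Nat.pair x.1 x.2))
  | .var m => by simp [Tm.subst, ofTm, sb]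
  | .app f ts => by
    simp only [Tm.subst, ofTm, mk_sb, List.map_ofFn]
    congr 2; funext i; exact of_subst θ (ts i)

theorem step_to {l r t t' : T} (h : St l r t t') : Step (toTm l) (toTm r) (toTm t) (toTm t') := by
  have u0 : ∀ a a' b : Tm sg, (![a', b] : Fin 2 → Tm sg) = update ![a, b] 0 a' := by
    intro a a' b; funext i; fin_cases i <;> rfl
  have u1 : ∀ a b b' : Tm sg, (![a, b'] : Fin 2 → Tm sg) = update ![a, b] 1 b' := by
    intro a a' b; funext i; fin_cases i <;> rfl
  have u2 : ∀ a a' : Tm sg, (![a'] : Fin 1 → Tm sg) = update ![a] 0 a' := by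
    intro a a'; funext i; fin_cases i; rfl
  induction h with
  | root θ => rw [to_sb, to_sb]; exact .root _
  | @F1 a a' b _ ih =>
    simp only [toTm]; rw [u0 (toTm a) (toTm a')]
    exact Step.arg (σ := sg) ⟨0, by decide⟩ ![toTm a, toTm b] (0 : Fin 2) _ ih
  | @F2 a b b' _ ih =>
    simp only [toTm]; rw [u1 (toTm a) (toTm b) (toTm b')]
    exact Step.arg (σ := sg) ⟨0, by decide⟩ ![toTm a, toTm b] (1 : Fin 2) _ ih
  | @P1 a a' b _ ih =>
    simp only [toTm]; rw [u0 (toTm a) (toTm a')]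
    exact Step.arg (σ := sg) ⟨1, by decide⟩ ![toTm a, toTm b] (0 : Fin 2) _ ih
  | @P2 a b b' _ ih =>
    simp only [toTm]; rw [u1 (toTm a) (toTm b) (toTm b')]
    exact Step.arg (σ := sg) ⟨1, by decide⟩ ![toTm a, toTm b] (1 : Fin 2) _ ih
  | @G1 a a' _ ih =>
    simp only [toTm]; rw [u2 (toTm a) (toTm a')]
    exact Step.arg (σ := sg) ⟨2, by decide⟩ ![toTm a] (0 : Fin 1) _ ih

theorem step_of {l r t t' : Tm sg} (h : Step l r t t') :
    St (ofTm l) (ofTm r) (ofTm t) (ofTm t') := by
  induction h with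
  | root θ => rw [of_subst, of_subst]; exact .root _
  | arg f ts i t _ ih =>
    simp only [ofTm]
    fin_cases f
    · change Fin 2 at i
      change Fin 2 → Tm sg at ts
      change St _ _ (mk 0 (List.ofFn fun j : Fin 2 => ofTm (ts j)))
        (mk 0 (List.ofFn fun j : Fin 2 => ofTm (update ts i t j)))
      fin_cases i
      · simpa [List.ofFn_succ, mk] using St.F1 _ ih
      · simpa [List.ofFn_succ, mk] using St.F2 _ ih
    · change Fin 2 at i
      change Fin 2 → Tm sg at ts
      change St _ _ (mk 1 (List.ofFn fun j : Fin 2 => ofTm (ts j)))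
        (mk 1 (List.ofFn fun j : Fin 2 => ofTm (update ts i t j)))
      fin_cases i
      · simpa [List.ofFn_succ, mk] using St.P1 _ ih
      · simpa [List.ofFn_succ, mk] using St.P2 _ ih
    · change Fin 1 at i
      change Fin 1 → Tm sg at ts
      change St _ _ (mk 2 (List.ofFn fun j : Fin 1 => ofTm (ts j)))
        (mk 2 (List.ofFn fun j : Fin 1 => ofTm (update ts i t j)))
      fin_cases i
      simpa [List.ofFn_succ, mk] using St.G1 ih
    · exact i.elim0
    · exact i.elim0

theorem term_to (l r : T) :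
    Terminating (toTm l) (toTm r) ↔ ¬ ∃ t : ℕ → T, ∀ i, St l r (t i) (t (i + 1)) := by
  refine not_congr ⟨fun ⟨t, h⟩ => ⟨fun i => ofTm (t i), fun i => ?_⟩,
    fun ⟨t, h⟩ => ⟨fun i => toTm (t i), fun i => step_to (h i)⟩⟩
  have := step_of (h i)
  rwa [of_to, of_to] at this

theorem Ok.rule {n : ℕ} {lam rho : ℕ → T} {D : T} {al : ℕ → ℕ → Prop} (h : Ok n lam rho D al) :
    LinearRule (toTm (lhs n lam)) (toTm (rhs n rho D al)) := by
  have inj : Injective fun x : ℕ × ℕ => Nat.pair x.1 x.2 := fun x y e =>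
    Prod.ext (Nat.pair_eq_pair.1 e).1 (Nat.pair_eq_pair.1 e).2
  refine ⟨fun m => ?_, ?_, ?_, ?_⟩
  · obtain ⟨a, b, e⟩ := h.lhs_eq
    rw [e]; intro e'; cases e'
  · simp only [vars_to, List.mem_map]
    rintro _ ⟨y, hy, rfl⟩
    exact ⟨y, h.sub y hy, rfl⟩
  · rw [vars_to]; exact h.nodup_l.map inj
  · rw [vars_to]; exact h.nodup_r.map inj

def CF (f : ℕ → T) : Prop := Primrec fun x => en (f x)

theorem CF.const (t : T) : CF fun _ => t := Primrec.const _

theorem CF.P {f g : ℕ → T} (a : CF f) (b : CF g) : CF fun x => P (f x) (g x) :=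
  Primrec.list_cons.comp (Primrec.const 2) (Primrec.list_append.comp a b)

theorem CF.F {f g : ℕ → T} (a : CF f) (b : CF g) : CF fun x => F (f x) (g x) :=
  Primrec.list_cons.comp (Primrec.const 1) (Primrec.list_append.comp a b)

theorem CF.G {f : ℕ → T} (a : CF f) : CF fun x => G (f x) :=
  Primrec.list_cons.comp (Primrec.const 3) a

theorem CF.num : CF Trs.num := by
  have : Primrec fun x : ℕ => (Nat.rec (en (Trs.num 0)) (fun _ L => [2, 4, 2, 5] ++ L) x : List ℕ) :=
    Primrec.nat_rec₁ _ (Primrec.list_append.comp (Primrec.const _) Primrec.snd).to₂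
  refine this.of_eq fun x => ?_
  induction x with
  | zero => rfl
  | succ x ih => simp only [ih]; rfl

theorem CF.lst : ∀ k s, CF fun x => lst (init x) s k
  | 0, _ => .const _
  | k + 1, s => by
    refine CF.P (f := fun x => Trs.num (init x s)) ?_ (CF.lst k (s + 1))
    by_cases h : s = 0
    · subst h; simpa [init] using CF.num
    · simpa [init, h] using CF.const _

theorem CF.ml {c : ℕ → ℕ → T} (h : ∀ p, CF fun x => c x p) : ∀ k s, CF fun x => ml (c x) s k N
  | 0, _ => .const _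
  | k + 1, s => (h s).F (CF.ml h k (s + 1))

theorem CF.rhs (n k z : ℕ) (kd rg : ℕ → ℕ) (al : ℕ → ℕ → Prop) :
    CF fun x => rhs n (rho k z kd rg x) (dum k) al := by
  refine (CF.ml (fun p => CF.P ?_ (.const _)) _ _).G
  split_ifs
  · unfold rho
    split_ifs
    · exact (CF.const _).P ((CF.const _).P (CF.lst _ _))
    · exact .const _
  · exact .const _

theorem main : ¬ ∃ D : List ℕ × List ℕ → Bool, Computable D ∧ ∀ l r : Tm sg, LinearRule l r →
    (D (l.enc, r.enc) = true ↔ Terminating l r) := by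
  rintro ⟨D, h1, h2⟩
  obtain ⟨n, k, z, kd, rg, al, hz, hr, ha, hu⟩ := exists_rm
  refine hu (ComputablePred.not (p := fun x => D (en (lhs n (lam z kd rg)),
    en (rhs n (rho k z kd rg x) (dum k) al)) = true) ?_ |>.of_eq fun x => ?_)
  · refine ⟨inferInstance, ?_⟩
    simpa using h1.comp ((Computable.const _).pair (CF.rhs n k z kd rg al).to_comp)
  · rw [← enc_to, ← enc_to, h2 _ _ (ok x hz hr ha).rule, term_to, not_not, term_iff x hz hr ha]

end Pool.Agent.H77.Trs
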