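import Mathlib

set_option autoImplicit false

namespace Pool.Agent.H77.WIS

/-- An algebra with two binary operations. -/
structure Alg : Type 1 where
  carrier : Type
  imp : carrier → carrier → carrier
  comp : carrier → carrier → carrier

/-- Homomorphisms of such algebras. -/
def IsHom (A B : Alg) (h : A.carrier → B.carrier) : Prop :=
  ∀ x y, h (A.imp x y) = B.imp (h x) (h y) ∧ h (A.comp x y) = B.comp (h x) (h y)

/-- Direct products. -/
def Alg.pi {ι : Type} (A : ι → Alg) : Alg where
  carrier := ∀ i, (A i).carrier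
  imp x y := fun i => (A i).imp (x i) (y i)
  comp x y := fun i => (A i).comp (x i) (y i)

/-- The algebra of all weakening relations on a poset. -/
def W (P : Type) [PartialOrder P] : Alg where
  carrier := {R : P → P → Prop // ∀ x' x y y', x' ≤ x → R x y → y ≤ y' → R x' y'}
  imp R S := ⟨fun x y => ∀ x' y', x' ≤ x → y ≤ y' → R.1 x' y' → S.1 x' y',
    fun _ _ _ _ h1 h h2 _ _ h3 h4 => h _ _ (h3.trans h1) (h2.trans h4)⟩
  comp R S := ⟨fun x z => ∃ y, R.1 x y ∧ S.1 y z,
    fun _ _ _ _ h1 ⟨y, h, h'⟩ h2 => ⟨y, R.2 _ _ _ _ h1 h le_rfl, S.2 _ _ _ _ le_rfl h' h2⟩⟩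

/-- `A` is isomorphic to a subalgebra of a product of members of the class `C`. -/
def InSP (C : Alg → Prop) (A : Alg) : Prop :=
  ∃ (ι : Type) (B : ι → Alg), (∀ i, C (B i)) ∧
    ∃ f : A.carrier → (Alg.pi B).carrier, Function.Injective f ∧ IsHom A (Alg.pi B) f

/-- `B` is a homomorphic image of a subalgebra of a product of members of `C`. -/
def InHSP (C : Alg → Prop) (B : Alg) : Prop :=
  ∃ A, InSP C A ∧ ∃ h : A.carrier → B.carrier, Function.Surjective h ∧ IsHom A B h

/-- Representable weakening implication semigroups. -/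
def K : Alg → Prop := InSP fun A => ∃ (P : Type) (_ : PartialOrder P), A = W P

/-- Terms in three variables. -/
inductive Term : Type
  | var : Fin 3 → Term
  | imp : Term → Term → Term
  | comp : Term → Term → Term

/-- Evaluation of a term. -/
def Term.eval (A : Alg) (v : Fin 3 → A.carrier) : Term → A.carrier
  | .var i => v i
  | .imp s t => A.imp (s.eval A v) (t.eval A v)
  | .comp s t => A.comp (s.eval A v) (t.eval A v)

/-- `d` is a discriminator term on `A`. -/
def IsDiscr (d : Term) (A : Alg) : Prop :=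
  ∀ a b c : A.carrier, (a = b → d.eval A ![a, b, c] = c) ∧ (a ≠ b → d.eval A ![a, b, c] = a)

end Pool.Agent.H77.WIS
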