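import Pool.Agent.H77.WISDefs

set_option autoImplicit false

namespace Pool.Agent.H77.WIS

theorem eval_hom {A B : Alg} {h : A.carrier → B.carrier} (hh : IsHom A B h)
    (v : Fin 3 → A.carrier) (t : Term) : h (t.eval A v) = t.eval B (fun i => h (v i)) := by
  induction t with
  | var i => rfl
  | imp s t hs ht => simp only [Term.eval, (hh _ _).1, hs, ht]
  | comp s t hs ht => simp only [Term.eval, (hh _ _).2, hs, ht]

theorem eval_pi {ι : Type} (A : ι → Alg) (v : Fin 3 → (Alg.pi A).carrier) (t : Term) (i : ι) :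
    t.eval (Alg.pi A) v i = t.eval (A i) (fun j => v j i) := by
  induction t with
  | var j => rfl
  | imp s t hs ht => exact congrArg₂ (A i).imp hs ht
  | comp s t hs ht => exact congrArg₂ (A i).comp hs ht

/-- The Maltsev identities. -/
def Mal (d : Term) (A : Alg) : Prop :=
  ∀ a b : A.carrier, d.eval A ![a, a, b] = b ∧ d.eval A ![a, b, b] = a

theorem vec_map {α β : Type} (h : α → β) (a b c : α) :
    (fun i => h (![a, b, c] i)) = ![h a, h b, h c] := by
  funext i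
  fin_cases i <;> rfl

theorem mal_hsp {C : Alg → Prop} {d : Term} (hd : ∀ A, C A → IsDiscr d A) {B : Alg}
    (hB : InHSP C B) : Mal d B := by
  obtain ⟨A, ⟨ι, D, hD, f, hf, hfh⟩, h, hs, hh⟩ := hB
  have h1 : ∀ i, Mal d (D i) := fun i a b => ⟨(hd _ (hD i) a a b).1 rfl, by
    by_cases e : a = b
    · rw [(hd _ (hD i) a b b).1 e, e]
    · exact (hd _ (hD i) a b b).2 e⟩
  have h2 : Mal d A := fun a b => by
    constructor
    · apply hf
      rw [eval_hom hfh, vec_map f]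
      funext i
      rw [eval_pi, vec_map fun x : (Alg.pi D).carrier => x i]
      exact (h1 i _ _).1
    · apply hf
      rw [eval_hom hfh, vec_map f]
      funext i
      rw [eval_pi, vec_map fun x : (Alg.pi D).carrier => x i]
      exact (h1 i _ _).2
  intro a b
  obtain ⟨a, rfl⟩ := hs a
  obtain ⟨b, rfl⟩ := hs b
  rw [← vec_map h, ← vec_map h, ← eval_hom hh, ← eval_hom hh, (h2 a b).1, (h2 a b).2]
  exact ⟨rfl, rfl⟩

theorem K_sub (P : Type) [PartialOrder P] (A : Alg) (f : A.carrier → (W P).carrier)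
    (hf : Function.Injective f) (hh : IsHom A (W P) f) : K A :=
  ⟨Unit, fun _ => W P, fun _ => ⟨P, inferInstance, rfl⟩, fun a _ => f a,
    fun _ _ e => hf (congrFun e ()), fun x y =>
      ⟨funext fun _ => (hh x y).1, funext fun _ => (hh x y).2⟩⟩

/-- A two-element antichain. -/
def P2 : Type := Bool

instance : PartialOrder P2 where
  le x y := x = y
  le_refl _ := rfl
  le_trans _ _ _ := Eq.trans
  le_antisymm _ _ h _ := h

def B2 : Alg := ⟨Bool, fun x y => !x || y, fun x y => x || y⟩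

theorem K_B2 : K B2 := by
  refine K_sub P2 B2 (fun b => ⟨fun x y => b = true ∨ x = y, ?_⟩) ?_ ?_
  · rintro _ _ _ _ rfl h rfl
    exact h
  · intro a b e
    have := congrFun (congrFun (congrArg Subtype.val e) true) false
    revert this
    cases a <;> cases b <;> simp
  · intro a b
    constructor
    · refine Subtype.ext (funext fun x => funext fun y => propext ?_)
      change ((!a || b) = true ∨ x = y) ↔ ∀ x' y' : P2, x' = x → y = y' →
        (a = true ∨ x' = y') → (b = true ∨ x' = y')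
      cases a <;> cases b <;> simp
    · refine Subtype.ext (funext fun x => funext fun y => propext ?_)
      change ((a || b) = true ∨ x = y) ↔ ∃ z : P2, (a = true ∨ x = z) ∧ (b = true ∨ z = y)
      haveI : Nonempty P2 := ⟨x⟩
      cases a <;> cases b <;> simp

theorem B2_var (t : Term) : ∃ i, ∀ v : Fin 3 → Bool, v i = true → t.eval B2 v = true := by
  induction t with
  | var i => exact ⟨i, fun _ h => h⟩
  | imp s t _ ht =>
    obtain ⟨i, hi⟩ := ht
    exact ⟨i, fun v h => by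
      change (!(s.eval B2 v) || t.eval B2 v) = true
      rw [hi v h, Bool.or_true]⟩
  | comp s t _ ht =>
    obtain ⟨i, hi⟩ := ht
    exact ⟨i, fun v h => by
      change ((s.eval B2 v) || t.eval B2 v) = true
      rw [hi v h, Bool.or_true]⟩

theorem not_discr : ¬ ∃ (C : Alg → Prop) (d : Term), (∀ A, C A → IsDiscr d A) ∧
    ∀ A, K A → InHSP C A := by
  rintro ⟨C, d, hd, hK⟩
  have hm := mal_hsp hd (hK _ K_B2)
  obtain ⟨i, hi⟩ := B2_var d
  have h1 : d.eval B2 ![true, true, false] = false := (hm true false).1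
  have h2 : d.eval B2 ![false, true, true] = false := (hm false true).2
  fin_cases i
  · rw [hi _ rfl] at h1
    exact Bool.noConfusion h1
  · rw [hi _ rfl] at h1
    exact Bool.noConfusion h1
  · rw [hi _ rfl] at h2
    exact Bool.noConfusion h2

theorem quasi {A : Alg} (hA : K A) (a c₁ c₂ c : A.carrier)
    (h1 : A.comp a (A.imp a a) = A.imp a a)
    (h2 : A.imp (A.comp c₁ a) (A.imp (A.comp c₂ a) c) = A.imp a a) :
    A.imp c₁ (A.imp c₂ (A.comp c (A.imp a a))) = A.imp a a := by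
  obtain ⟨ι, D, hD, f, hf, hh⟩ := hA
  apply hf
  have e1 := congrArg f h1
  have e2 := congrArg f h2
  simp only [(hh _ _).1, (hh _ _).2] at e1 e2 ⊢
  funext i
  have g1 := congrFun e1 i
  have g2 := congrFun e2 i
  change (D i).comp (f a i) ((D i).imp (f a i) (f a i)) = (D i).imp (f a i) (f a i) at g1
  change (D i).imp ((D i).comp (f c₁ i) (f a i)) ((D i).imp ((D i).comp (f c₂ i) (f a i)) (f c i)) =
    (D i).imp (f a i) (f a i) at g2
  change (D i).imp (f c₁ i) ((D i).imp (f c₂ i) ((D i).comp (f c i) ((D i).imp (f a i) (f a i)))) =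
    (D i).imp (f a i) (f a i)
  generalize f a i = α at *
  generalize f c₁ i = γ₁ at *
  generalize f c₂ i = γ₂ at *
  generalize f c i = γ at *
  obtain ⟨P, _, e⟩ := hD i
  revert α γ₁ γ₂ γ
  rw [e]
  intro α g1 γ₁ γ₂ γ g2
  have top : ∀ x y, ((W P).imp α α).1 x y := fun _ _ _ _ _ _ h => h
  refine Subtype.ext (funext fun x => funext fun y => propext ⟨fun _ => top x y, fun _ => ?_⟩)
  intro x' y' _ _ k1 x'' y'' hx hy k2
  obtain ⟨z, hz, -⟩ : ((W P).comp α ((W P).imp α α)).1 y'' y'' := by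
    rw [g1]
    exact top _ _
  have k3 : ((W P).imp ((W P).comp γ₁ α) ((W P).imp ((W P).comp γ₂ α) γ)).1 x'' z := by
    rw [g2]
    exact top _ _
  exact ⟨z, k3 _ _ le_rfl le_rfl ⟨y'', γ₁.2 _ _ _ _ hx k1 hy, hz⟩ _ _ le_rfl le_rfl
    ⟨y'', k2, hz⟩, top _ _⟩

/-- The poset `y₁, y₂ < n` with one more isolated point `w`. -/
inductive P4 : Type
  | y₁ | y₂ | n | w
  deriving DecidableEq, Fintype

instance : PartialOrder P4 where
  le x y := x = y ∨ (y = .n ∧ (x = .y₁ ∨ x = .y₂))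
  le_refl _ := Or.inl rfl
  le_trans := by decide
  le_antisymm := by decide

theorem P4_le {x y : P4} : x ≤ y ↔ x = y ∨ (y = .n ∧ (x = .y₁ ∨ x = .y₂)) := Iff.rfl

theorem P4_min {x u : P4} (hu : u ≠ .n) (h : x ≤ u) : x = u :=
  (P4_le.1 h).resolve_right fun h => hu h.1

def Good (R : (W P4).carrier) : Prop :=
  ∀ u, u ≠ .n → R.1 u .n → R.1 u .y₁ ∨ R.1 u .y₂

theorem up₁ (R : (W P4).carrier) {u : P4} (h : R.1 u .y₁) : R.1 u .n :=
  R.2 _ _ _ _ le_rfl h (Or.inr ⟨rfl, Or.inl rfl⟩)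

theorem up₂ (R : (W P4).carrier) {u : P4} (h : R.1 u .y₂) : R.1 u .n :=
  R.2 _ _ _ _ le_rfl h (Or.inr ⟨rfl, Or.inr rfl⟩)

theorem comp_row {R : (W P4).carrier} (hR : Good R) (S : (W P4).carrier) {u v : P4} (hu : u ≠ .n) :
    ((W P4).comp R S).1 u v ↔ ∃ y, y ≠ .n ∧ R.1 u y ∧ S.1 y v := by
  constructor
  · rintro ⟨y, h1, h2⟩
    by_cases hy : y = .n
    · subst hy
      rcases hR u hu h1 with h | h
      · exact ⟨.y₁, by decide, h, S.2 _ _ _ _ (Or.inr ⟨rfl, Or.inl rfl⟩) h2 le_rfl⟩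
      · exact ⟨.y₂, by decide, h, S.2 _ _ _ _ (Or.inr ⟨rfl, Or.inr rfl⟩) h2 le_rfl⟩
    · exact ⟨y, hy, h1, h2⟩
  · rintro ⟨y, _, h⟩
    exact ⟨y, h⟩

theorem imp_row (R S : (W P4).carrier) {u v : P4} (hu : u ≠ .n) :
    ((W P4).imp R S).1 u v ↔ ∀ y, v ≤ y → R.1 u y → S.1 u y := by
  constructor
  · exact fun h y hy => h u y le_rfl hy
  · intro h x y hx hy
    rw [P4_min hu hx]
    exact h y hy

def A4 : Alg where
  carrier := {R : (W P4).carrier // Good R}
  imp R S := ⟨(W P4).imp R.1 S.1, fun u hu h => by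
    rw [imp_row _ _ hu] at h
    rw [imp_row _ _ hu, imp_row _ _ hu]
    have hn := h _ le_rfl
    by_cases hS : S.1.1 u .n
    · rcases S.2 u hu hS with h1 | h1
      · left
        intro y hy _
        rcases P4_le.1 hy with rfl | ⟨rfl, _⟩
        · exact h1
        · exact hS
      · right
        intro y hy _
        rcases P4_le.1 hy with rfl | ⟨rfl, _⟩
        · exact h1
        · exact hS
    · left
      intro y hy hR
      rcases P4_le.1 hy with rfl | ⟨rfl, _⟩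
      · exact absurd (hn (up₁ _ hR)) hS
      · exact hn hR⟩
  comp R S := ⟨(W P4).comp R.1 S.1, fun u hu h => by
    rw [comp_row R.2 _ hu] at h
    obtain ⟨y, hy, h1, h2⟩ := h
    exact (S.2 y hy h2).imp (fun h => ⟨y, h1, h⟩) fun h => ⟨y, h1, h⟩⟩

theorem K_A4 : K A4 := K_sub P4 A4 Subtype.val Subtype.val_injective fun _ _ => ⟨rfl, rfl⟩

def rel : Setoid A4.carrier where
  r R S := ∀ u v, u ≠ P4.n → (R.1.1 u v ↔ S.1.1 u v)
  iseqv := ⟨fun _ _ _ _ => Iff.rfl, fun h u v hu => (h u v hu).symm,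
    fun h h' u v hu => (h u v hu).trans (h' u v hu)⟩

def B4 : Alg where
  carrier := Quotient rel
  imp := Quotient.map₂ A4.imp fun R R' hR S S' hS u v hu => by
    change ((W P4).imp R.1 S.1).1 u v ↔ ((W P4).imp R'.1 S'.1).1 u v
    rw [imp_row _ _ hu, imp_row _ _ hu]
    exact forall_congr' fun y => by rw [hR u y hu, hS u y hu]
  comp := Quotient.map₂ A4.comp fun R R' hR S S' hS u v hu => by
    change ((W P4).comp R.1 S.1).1 u v ↔ ((W P4).comp R'.1 S'.1).1 u v
    rw [comp_row R.2 _ hu, comp_row R'.2 _ hu]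
    exact exists_congr fun y => and_congr_right fun hy => by rw [hR u y hu, hS y v hy]

def mkR (r : P4 → P4 → Prop) (h1 : ∀ x' x y y', x' ≤ x → r x y → y ≤ y' → r x' y')
    (h2 : ∀ u, u ≠ .n → r u .n → r u .y₁ ∨ r u .y₂) : A4.carrier := ⟨⟨r, h1⟩, h2⟩

instance (x y : P4) : Decidable (x ≤ y) := decidable_of_iff _ P4_le.symm

def a4 : A4.carrier :=
  mkR (fun u v => ((u = .y₁ ∨ u = .w) ∧ v = .w) ∨ (u = .y₂ ∧ (v = .y₁ ∨ v = .n)))
    (by decide) (by decide)
def c1 : A4.carrier := mkR (fun _ v => v = .y₁ ∨ v = .n) (by decide) (by decide)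
def c2 : A4.carrier := mkR (fun _ v => v = .y₂ ∨ v = .n) (by decide) (by decide)
def c0 : A4.carrier := mkR (fun _ _ => False) (by decide) (by decide)

theorem not_K_B4 : ¬ K B4 := by
  intro h
  have := quasi h (Quotient.mk rel a4) (Quotient.mk rel c1) (Quotient.mk rel c2)
    (Quotient.mk rel c0) (Quotient.sound ?_) (Quotient.sound ?_)
  · have h1 := Quotient.exact this .w .n (by decide)
    obtain ⟨y, hy, -⟩ := h1.2 (fun _ _ _ _ h => h) .w .n le_rfl le_rfl (Or.inr rfl) .w .n le_rfl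
      le_rfl (Or.inr rfl)
    exact hy
  · intro u v hu
    refine ⟨fun _ _ _ _ _ h => h, fun _ => ?_⟩
    cases u
    · exact ⟨.w, Or.inl ⟨Or.inl rfl, rfl⟩, fun _ _ _ _ h => h⟩
    · exact ⟨.n, Or.inr ⟨rfl, Or.inr rfl⟩, fun _ _ _ _ h => h⟩
    · exact absurd rfl hu
    · exact ⟨.w, Or.inl ⟨Or.inr rfl, rfl⟩, fun _ _ _ _ h => h⟩
  · intro u v _
    refine ⟨fun _ _ _ _ _ h => h, fun _ => ?_⟩
    rintro x y _ _ ⟨z, h1, h2⟩ x' y' _ hy ⟨z', h3, h4⟩
    change z = .y₁ ∨ z = .n at h1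
    change z' = .y₂ ∨ z' = .n at h3
    change ((z = .y₁ ∨ z = .w) ∧ y = .w) ∨ (z = .y₂ ∧ (y = .y₁ ∨ y = .n)) at h2
    change ((z' = .y₁ ∨ z' = .w) ∧ y' = .w) ∨ (z' = .y₂ ∧ (y' = .y₁ ∨ y' = .n)) at h4
    exfalso
    have key : ∀ y y' z z' : P4, y ≤ y' → (z = .y₁ ∨ z = .n) → (z' = .y₂ ∨ z' = .n) →
        (((z = .y₁ ∨ z = .w) ∧ y = .w) ∨ (z = .y₂ ∧ (y = .y₁ ∨ y = .n))) →
        (((z' = .y₁ ∨ z' = .w) ∧ y' = .w) ∨ (z' = .y₂ ∧ (y' = .y₁ ∨ y' = .n))) → False := by
      decide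
    exact key _ _ _ _ hy h1 h3 h2 h4

theorem not_variety : ∃ A B : Alg, K A ∧
    (∃ h : A.carrier → B.carrier, Function.Surjective h ∧ IsHom A B h) ∧ ¬ K B :=
  ⟨A4, B4, K_A4, ⟨Quotient.mk rel, Quotient.mk_surjective, fun _ _ => ⟨rfl, rfl⟩⟩, not_K_B4⟩

end Pool.Agent.H77.WIS
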