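import Pool.Agent.H77.WeqDefs

namespace Pool.Agent.H77.Weq

open Classical

variable {σ : Type}

/-- Greedy left-to-right replacement of the factor `u` by `v`. -/
noncomputable def rho (u v : List σ) : List σ → List σ
  | [] => []
  | a :: t =>
    if u ≠ [] ∧ u <+: a :: t then v ++ rho u v (t.drop (u.length - 1)) else a :: rho u v t
termination_by w => w.length
decreasing_by
  all_goals simp
  all_goals omega

variable {u v : List σ}

theorem rho_nil : rho u v [] = [] := by rw [rho]

theorem rho_pre (hu : u ≠ []) (t : List σ) : rho u v (u ++ t) = v ++ rho u v t := by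
  obtain ⟨a, u', rfl⟩ := List.exists_cons_of_ne_nil hu
  rw [List.cons_append, rho, if_pos ⟨hu, ⟨t, by simp⟩⟩]
  simp

theorem rho_cons (a : σ) (t : List σ) (h : ¬ u <+: a :: t) :
    rho u v (a :: t) = a :: rho u v t := by
  rw [rho, if_neg (fun hh => h hh.2)]

theorem rho_ind (hu : u ≠ []) {P : List σ → Prop} (h0 : P [])
    (h1 : ∀ t, P t → P (u ++ t)) (h2 : ∀ a t, ¬ u <+: a :: t → P t → P (a :: t)) (w : List σ) :
    P w := by
  induction hn : w.length using Nat.strong_induction_on generalizing w with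
  | _ n ih =>
    cases w with
    | nil => exact h0
    | cons a t =>
      by_cases h : u <+: a :: t
      · obtain ⟨s, hs⟩ := h
        rw [← hs]
        refine h1 s (ih s.length ?_ s rfl)
        have := congrArg List.length hs
        have h3 := List.length_pos_of_ne_nil hu
        simp only [List.length_append] at this
        omega
      · exact h2 a t h (ih t.length (by simp at hn; omega) t rfl)

theorem rho_len (hu : u ≠ []) (hl : v.length = u.length) (w : List σ) :
    (rho u v w).length = w.length := by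
  induction w using rho_ind hu with
  | h0 => rw [rho_nil]
  | h1 t ih => rw [rho_pre hu]; simp [ih, hl]
  | h2 a t h ih => rw [rho_cons a t h]; simp [ih]

theorem rho_ne (hu : u ≠ []) (hl : v.length = u.length) (huv : u ≠ v) (w : List σ)
    (hw : u <:+: w) : rho u v w ≠ w := by
  induction w using rho_ind hu with
  | h0 => exact absurd (List.infix_nil.1 hw) hu
  | h1 t _ =>
    rw [rho_pre hu]
    intro h
    exact huv (List.append_inj h hl).1.symm
  | h2 a t h ih =>
    rw [rho_cons a t h]
    intro h'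
    rcases List.infix_cons_iff.1 hw with h3 | h3
    · exact h h3
    · exact ih h3 (List.cons.inj h').2

theorem rho_dfa {Q : Type} (M : DFA σ Q) (hu : u ≠ [])
    (he : ∀ s, M.evalFrom s u = M.evalFrom s v) (w : List σ) :
    ∀ s, M.evalFrom s (rho u v w) = M.evalFrom s w := by
  induction w using rho_ind hu with
  | h0 => intro s; rw [rho_nil]
  | h1 t ih =>
    intro s
    rw [rho_pre hu, DFA.evalFrom_of_append, DFA.evalFrom_of_append, ih, he]
  | h2 a t h ih =>
    intro s
    rw [rho_cons a t h]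
    exact ih (M.step s a)

/-- `u` occurs across the boundary between `w₁` and `w₂`. -/
def Cross (u w₁ w₂ : List σ) : Prop :=
  ∃ a b : List σ, a ≠ [] ∧ b ≠ [] ∧ u = a ++ b ∧ a <:+ w₁ ∧ b <+: w₂

theorem rho_app (hu : u ≠ []) (w₂ w₁ : List σ) (hc : ¬ Cross u w₁ w₂) :
    rho u v (w₁ ++ w₂) = rho u v w₁ ++ rho u v w₂ := by
  induction w₁ using rho_ind hu with
  | h0 => simp [rho_nil]
  | h1 t ih =>
    rw [List.append_assoc, rho_pre hu, rho_pre hu, ih, List.append_assoc]
    rintro ⟨a, b, ha, hb, e, h1, h2⟩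
    exact hc ⟨a, b, ha, hb, e, h1.trans (List.suffix_append _ _), h2⟩
  | h2 c t h ih =>
    have h' : ¬ u <+: c :: (t ++ w₂) := by
      intro h'
      rw [← List.cons_append] at h'
      rcases List.prefix_or_prefix_of_prefix h' (List.prefix_append (c :: t) w₂) with h3 | h3
      · exact h h3
      · obtain ⟨b, hb⟩ := h3
        refine hc ⟨c :: t, b, by simp, ?_, hb.symm, List.suffix_refl _, ?_⟩
        · rintro rfl
          exact h (by rw [← hb]; simp)
        · rw [← hb] at h'
          exact (List.prefix_append_right_inj _).1 h'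
    rw [List.cons_append, rho_cons c _ h', rho_cons c t h, ih, List.cons_append]
    rintro ⟨a, b, ha, hb, e, h1, h2⟩
    exact hc ⟨a, b, ha, hb, e, h1.trans (List.suffix_cons _ _), h2⟩

theorem rho_single (h2 : 2 ≤ u.length) (a : σ) : rho u v [a] = [a] := by
  rw [rho_cons a [], rho_nil]
  intro h
  have := h.length_le
  simp at this
  omega

/-- At most `k` words of length `k` cross a given boundary. -/
theorem cross_card (w₁ w₂ : List σ) (k : ℕ) :
    ∃ B : Finset (List σ), B.card ≤ k ∧ ∀ u : List σ, u.length = k → u ∉ B → ¬ Cross u w₁ w₂ := by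
  refine ⟨(Finset.range k).image fun j => w₁.drop (w₁.length - j) ++ w₂.take (k - j),
    Finset.card_image_le.trans (by simp), ?_⟩
  rintro u hk hB ⟨a, b, -, hb, e, ⟨p, h1⟩, ⟨q, h2⟩⟩
  apply hB
  have hb' := List.length_pos_of_ne_nil hb
  have hl : a.length + b.length = k := by rw [← hk, e]; simp
  refine Finset.mem_image.2 ⟨a.length, Finset.mem_range.2 (by omega), ?_⟩
  subst h1 h2
  have e1 : (p ++ a).length - a.length = p.length := by simp
  have e2 : k - a.length = b.length := by omega
  rw [e1, e2, e]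
  simp

theorem ev_rho (h : ℕ → List σ) (k : ℕ) (hk : 2 ≤ k) (U : List (ℕ ⊕ σ)) :
    ∃ B : Finset (List σ), B.card ≤ U.length * k ∧ ∀ u v : List σ, u.length = k → u ∉ B →
      ev (fun x => rho u v (h x)) U = rho u v (ev h U) := by
  induction U with
  | nil => exact ⟨∅, by simp, fun u v _ _ => by simp [ev, rho_nil]⟩
  | cons s U ih =>
    obtain ⟨B, hB, ih⟩ := ih
    obtain ⟨C, hC, hc⟩ := cross_card (Sum.elim h (fun a => [a]) s) (ev h U) k
    refine ⟨C ∪ B, (Finset.card_union_le _ _).trans (by simp [Nat.add_mul]; omega), ?_⟩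
    intro u v hu hn
    rw [Finset.mem_union, not_or] at hn
    have hu0 : u ≠ [] := by rintro rfl; simp at hu; omega
    have e : ∀ g : ℕ → List σ, ev g (s :: U) = Sum.elim g (fun a => [a]) s ++ ev g U :=
      fun g => by simp [ev]
    rw [e, e, rho_app hu0 _ _ (hc u hu hn.1), ih u v hu hn.2]
    congr 1
    cases s with
    | inl x => rfl
    | inr a => exact (rho_single (by omega) a).symm

theorem mismatch : ∀ w w' : List σ, w ≠ w' → w.length = w'.length →
    ∃ p a b s s', a ≠ b ∧ w = p ++ a :: s ∧ w' = p ++ b :: s'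
  | [], [], h, _ => absurd rfl h
  | [], _ :: _, _, h => by simp at h
  | _ :: _, [], _, h => by simp at h
  | a :: t, b :: t', h, hl => by
    by_cases hab : a = b
    · subst hab
      obtain ⟨p, c, d, s, s', h1, h2, h3⟩ := mismatch t t' (fun e => h (by rw [e]))
        (by simpa using hl)
      exact ⟨a :: p, c, d, s, s', h1, by rw [h2]; rfl, by rw [h3]; rfl⟩
    · exact ⟨[], a, b, t, t', hab, rfl, rfl⟩

theorem rho_inj (w w' : List σ) (k : ℕ) (hk : 2 ≤ k) :
    ∃ B : Finset (List σ), B.card ≤ 4 * k ∧ ∀ u v : List σ, u.length = k → v.length = k →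
      u ∉ B → rho u v w = rho u v w' → w = w' := by
  by_cases hw : w = w'
  · exact ⟨∅, by simp, fun _ _ _ _ _ _ => hw⟩
  by_cases hl : w.length = w'.length
  · obtain ⟨p, a, b, s, s', hab, rfl, rfl⟩ := mismatch w w' hw hl
    obtain ⟨B1, h1, c1⟩ := cross_card p (a :: s) k
    obtain ⟨B2, h2, c2⟩ := cross_card [a] s k
    obtain ⟨B3, h3, c3⟩ := cross_card p (b :: s') k
    obtain ⟨B4, h4, c4⟩ := cross_card [b] s' k
    refine ⟨(B1 ∪ B2) ∪ (B3 ∪ B4), ?_, ?_⟩
    · have := Finset.card_union_le (B1 ∪ B2) (B3 ∪ B4)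
      have := Finset.card_union_le B1 B2
      have := Finset.card_union_le B3 B4
      omega
    · intro u v hu _ hn e
      simp only [Finset.mem_union, not_or] at hn
      have hu0 : u ≠ [] := by rintro rfl; simp at hu; omega
      have e2 := rho_app (v := v) hu0 _ _ (c2 u hu hn.1.2)
      have e4 := rho_app (v := v) hu0 _ _ (c4 u hu hn.2.2)
      rw [rho_single (by omega)] at e2 e4
      simp only [List.singleton_append] at e2 e4
      rw [rho_app hu0 _ _ (c1 u hu hn.1.1), rho_app hu0 _ _ (c3 u hu hn.2.1), e2, e4] at e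
      exact absurd (List.cons.inj (List.append_cancel_left e)).1 hab
  · refine ⟨∅, by simp, fun u v hu hv _ e => absurd ?_ hl⟩
    have hu0 : u ≠ [] := by rintro rfl; simp at hu; omega
    rw [← rho_len hu0 (hv.trans hu.symm) w, e, rho_len hu0 (hv.trans hu.symm)]

theorem lin_rho (h : ℕ → List σ) (hu : u ≠ []) (hl : v.length = u.length) (c : List (ℤ × ℕ)) :
    lin (fun x => rho u v (h x)) c = lin h c := by
  simp only [lin, rho_len hu hl]

/-- The exchange lemma. -/
theorem exchange (f : Fm σ) : ∃ (T : Type) (_ : Finite T) (τ : List σ → T) (N : ℕ),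
    ∀ (h : ℕ → List σ) (k : ℕ), 2 ≤ k → ∃ B : Finset (List σ), B.card ≤ N * k ∧
      ∀ u v : List σ, u.length = k → v.length = k → u ∉ B → τ u = τ v →
        (f.Sat (fun x => rho u v (h x)) ↔ f.Sat h) := by
  induction f with
  | eq U V =>
    refine ⟨Unit, inferInstance, fun _ => (), U.length + V.length + 4, fun h k hk => ?_⟩
    obtain ⟨B1, h1, c1⟩ := ev_rho h k hk U
    obtain ⟨B2, h2, c2⟩ := ev_rho h k hk V
    obtain ⟨B3, h3, c3⟩ := rho_inj (ev h U) (ev h V) k hk
    refine ⟨B1 ∪ B2 ∪ B3, ?_, fun u v hu hv hn _ => ?_⟩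
    · have := Finset.card_union_le (B1 ∪ B2) B3
      have := Finset.card_union_le B1 B2
      rw [Nat.add_mul, Nat.add_mul]
      omega
    · simp only [Finset.mem_union, not_or] at hn
      simp only [Fm.Sat]
      rw [c1 u v hu hn.1.1, c2 u v hu hn.1.2]
      exact ⟨c3 u v hu hv hn.2, fun e => by rw [e]⟩
  | reg x R hR =>
    obtain ⟨Q, _, M, rfl⟩ := hR
    refine ⟨Q → Q, inferInstance, fun w s => M.evalFrom s w, 0, fun h k hk =>
      ⟨∅, by simp, fun u v hu _ _ e => ?_⟩⟩
    have hu0 : u ≠ [] := by rintro rfl; simp at hu; omega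
    simp only [Fm.Sat, DFA.mem_accepts, DFA.eval]
    rw [rho_dfa M hu0 (fun s => congrFun e s)]
  | lenEq c n =>
    refine ⟨Unit, inferInstance, fun _ => (), 0, fun h k hk =>
      ⟨∅, by simp, fun u v hu hv _ _ => ?_⟩⟩
    have hu0 : u ≠ [] := by rintro rfl; simp at hu; omega
    simp only [Fm.Sat, lin_rho h hu0 (hv.trans hu.symm)]
  | lenLe c n =>
    refine ⟨Unit, inferInstance, fun _ => (), 0, fun h k hk =>
      ⟨∅, by simp, fun u v hu hv _ _ => ?_⟩⟩
    have hu0 : u ≠ [] := by rintro rfl; simp at hu; omega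
    simp only [Fm.Sat, lin_rho h hu0 (hv.trans hu.symm)]
  | not f ih =>
    obtain ⟨T, _, τ, N, ih⟩ := ih
    refine ⟨T, inferInstance, τ, N, fun h k hk => ?_⟩
    obtain ⟨B, h1, c⟩ := ih h k hk
    exact ⟨B, h1, fun u v hu hv hn e => not_congr (c u v hu hv hn e)⟩
  | and f g ihf ihg =>
    obtain ⟨T, _, τ, N, ihf⟩ := ihf
    obtain ⟨T', _, τ', N', ihg⟩ := ihg
    refine ⟨T × T', inferInstance, fun w => (τ w, τ' w), N + N', fun h k hk => ?_⟩
    obtain ⟨B, h1, c⟩ := ihf h k hk
    obtain ⟨B', h1', c'⟩ := ihg h k hk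
    refine ⟨B ∪ B', (Finset.card_union_le _ _).trans (by rw [Nat.add_mul]; omega),
      fun u v hu hv hn e => ?_⟩
    rw [Finset.mem_union, not_or] at hn
    exact and_congr (c u v hu hv hn.1 (Prod.mk.inj e).1) (c' u v hu hv hn.2 (Prod.mk.inj e).2)
  | or f g ihf ihg =>
    obtain ⟨T, _, τ, N, ihf⟩ := ihf
    obtain ⟨T', _, τ', N', ihg⟩ := ihg
    refine ⟨T × T', inferInstance, fun w => (τ w, τ' w), N + N', fun h k hk => ?_⟩
    obtain ⟨B, h1, c⟩ := ihf h k hk
    obtain ⟨B', h1', c'⟩ := ihg h k hk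
    refine ⟨B ∪ B', (Finset.card_union_le _ _).trans (by rw [Nat.add_mul]; omega),
      fun u v hu hv hn e => ?_⟩
    rw [Finset.mem_union, not_or] at hn
    exact or_congr (c u v hu hv hn.1 (Prod.mk.inj e).1) (c' u v hu hv hn.2 (Prod.mk.inj e).2)

end Pool.Agent.H77.Weq
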