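import Pool.Agent.H77.WeqA

namespace Pool.Agent.H77.Weq

open Classical

variable {σ : Type}

/-- Bit `r` of `s` as a letter. -/
def bitL (a b : σ) (s r : ℕ) : σ := if s / 2 ^ r % 2 = 1 then a else b

/-- An infinite word containing every word over `a, b` as a factor. -/
def om (a b : σ) (n : ℕ) : σ := bitL a b n.unpair.2 n.unpair.1

/-- Its initial segment of length `n`. -/
def W (a b : σ) (n : ℕ) : List σ := (List.range n).map (om a b)

/-- The binary word of length `k` with code `c`. -/
def wd (a b : σ) (k c : ℕ) : List σ := (List.range k).map (bitL a b c)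

theorem bitL_eq (a b : σ) (s r : ℕ) : bitL a b s r = if s.testBit r then a else b := by
  unfold bitL
  rw [Nat.testBit_eq_decide_div_mod_eq]
  simp

theorem wd_inj {a b : σ} (hab : a ≠ b) (k : ℕ) {c d : ℕ} (hc : c < 2 ^ k) (hd : d < 2 ^ k)
    (e : wd a b k c = wd a b k d) : c = d := by
  apply Nat.eq_of_testBit_eq
  intro i
  by_cases hi : i < k
  · have := (List.map_inj_left.1 e) i (List.mem_range.2 hi)
    rw [bitL_eq, bitL_eq] at this
    cases h1 : c.testBit i <;> cases h2 : d.testBit i <;> simp_all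
  · have h2 : 2 ^ k ≤ 2 ^ i := Nat.pow_le_pow_right (by norm_num) (by omega)
    rw [Nat.testBit_lt_two_pow (by omega), Nat.testBit_lt_two_pow (by omega)]

theorem wd_infix (a b : σ) (k c : ℕ) (hc : c < 2 ^ k) :
    wd a b k c <:+: W a b (2 ^ (k + 1) * 2 ^ (k + 1)) := by
  set s := 2 ^ k + c with hs
  have hk : k < 2 ^ k := Nat.lt_two_pow_self
  have h1 : s + 1 ≤ 2 ^ (k + 1) := by rw [pow_succ]; omega
  have h2 : s * s + k ≤ 2 ^ (k + 1) * 2 ^ (k + 1) := by
    have := Nat.mul_le_mul h1 h1
    nlinarith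
  obtain ⟨m, hm⟩ := Nat.exists_eq_add_of_le h2
  refine ⟨(List.range (s * s)).map (om a b),
    ((List.range m).map (fun i => s * s + k + i)).map (om a b), ?_⟩
  rw [W, hm, List.range_add, List.range_add, List.map_append, List.map_append]
  congr 2
  rw [List.map_map, wd]
  apply List.map_congr_left
  intro r hr
  have hr := List.mem_range.1 hr
  have e : s * s + r = Nat.pair r s := by rw [Nat.pair, if_pos (by omega)]
  simp only [Function.comp, e, om, Nat.unpair_pair, bitL_eq]
  rw [hs, Nat.testBit_two_pow_add_gt hr]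

theorem big (N t : ℕ) : ∃ k, 2 ≤ k ∧ N * k + t < 2 ^ k := by
  refine ⟨2 * (N + t + 1), by omega, ?_⟩
  have h1 : N + t + 1 < 2 ^ (N + t + 1) := Nat.lt_two_pow_self
  have h2 : 2 * (N + t) < 2 ^ (N + t + 1) := by
    have : N + t < 2 ^ (N + t) := Nat.lt_two_pow_self
    rw [pow_succ]; omega
  have h3 : 2 ^ (2 * (N + t + 1)) = 2 ^ (N + t + 1) * 2 ^ (N + t + 1) := by
    rw [two_mul, pow_add]
  rw [h3]
  have := Nat.mul_le_mul (Nat.succ_le_of_lt h1) (Nat.succ_le_of_lt h2)
  nlinarith

theorem not_expr {a b : σ} (hab : a ≠ b) (f : Fm σ) (x : ℕ) :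
    S f x ≠ {w | w = W a b w.length} := by
  intro hS
  obtain ⟨T, _, τ, N, hx⟩ := exchange f
  have := Fintype.ofFinite T
  obtain ⟨k, hk, hb⟩ := big N (Fintype.card T)
  set n := 2 ^ (k + 1) * 2 ^ (k + 1) with hn
  have hW : W a b n ∈ S f x := by
    rw [hS]
    simp [W]
  obtain ⟨h, hs, hh⟩ := hW
  obtain ⟨B, hB, hx⟩ := hx h k hk
  set A := (Finset.range (2 ^ k)).image (wd a b k) with hA
  have cA : A.card = 2 ^ k := by
    rw [hA, Finset.card_image_of_injOn, Finset.card_range]
    intro c hc d hd e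
    exact wd_inj hab k (by simpa using hc) (by simpa using hd) e
  have c2 : (Finset.univ : Finset T).card < (A \ B).card := by
    have := Finset.le_card_sdiff B A
    rw [Finset.card_univ]
    omega
  obtain ⟨u, hu, v, hv, huv, e⟩ := Finset.exists_ne_map_eq_of_card_lt_of_maps_to c2
    (f := τ) (fun _ _ => Finset.mem_univ _)
  obtain ⟨hu1, hu2⟩ := Finset.mem_sdiff.1 hu
  obtain ⟨c, hc, rfl⟩ := Finset.mem_image.1 hu1
  obtain ⟨d, -, rfl⟩ := Finset.mem_image.1 (Finset.mem_sdiff.1 hv).1
  have l1 : (wd a b k c).length = k := by simp [wd]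
  have l2 : (wd a b k d).length = k := by simp [wd]
  have hu0 : wd a b k c ≠ [] := by intro e; rw [e] at l1; simp at l1; omega
  have h2 : rho (wd a b k c) (wd a b k d) (W a b n) ∈ S f x :=
    ⟨_, (hx _ _ l1 l2 hu2 e).2 hs, by simp only [hh]⟩
  rw [hS] at h2
  simp only [Set.mem_setOf_eq] at h2
  rw [rho_len hu0 (l2.trans l1.symm)] at h2
  refine rho_ne hu0 (l2.trans l1.symm) huv _ (wd_infix a b k c (Finset.mem_range.1 hc)) ?_
  rw [h2]
  simp [W, hn]

theorem W_prim [Primcodable σ] (a b : σ) : Primrec (W a b) := by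
  have hp : Primrec₂ fun x y : ℕ => x ^ y := Primrec₂.unpaired'.1 Nat.Primrec.pow
  have h1 : Primrec (om a b) := by
    unfold om bitL
    refine Primrec.ite (Primrec.eq.comp (Primrec.nat_mod.comp (Primrec.nat_div.comp
      (Primrec.snd.comp Primrec.unpair) (hp.comp (Primrec.const 2)
        (Primrec.fst.comp Primrec.unpair))) (Primrec.const 2)) (Primrec.const 1))
      (Primrec.const a) (Primrec.const b)
  exact Primrec.list_map Primrec.list_range (h1.comp Primrec.snd).to₂

theorem L_comp [Primcodable σ] (a b : σ) :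
    ComputablePred fun w : List σ => w = W a b w.length :=
  (Primrec.eq.comp Primrec.id ((W_prim a b).comp Primrec.list_length)).computablePred

end Pool.Agent.H77.Weq
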