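import Mathlib

/-! Quantifier-free formulas over word equations, regular constraints and length constraints. -/

namespace Pool.Agent.H77.Weq

variable {σ : Type}

/-- The value of a word over variables (`inl`) and letters (`inr`) under an assignment. -/
def ev (h : ℕ → List σ) (U : List (ℕ ⊕ σ)) : List σ :=
  U.flatMap (Sum.elim h fun a => [a])

/-- The linear form `Σ cᵢ |h xᵢ|` given by the list of pairs `(cᵢ, xᵢ)`. -/
def lin (h : ℕ → List σ) (c : List (ℤ × ℕ)) : ℤ :=
  (c.map fun p => p.1 * ((h p.2).length : ℤ)).sum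

/-- Boolean combinations of word equations, regular constraints and length constraints. -/
inductive Fm (σ : Type) : Type
  | eq (U V : List (ℕ ⊕ σ)) : Fm σ
  | reg (x : ℕ) (R : Language σ) (hR : R.IsRegular) : Fm σ
  | lenEq (c : List (ℤ × ℕ)) (k : ℤ) : Fm σ
  | lenLe (c : List (ℤ × ℕ)) (k : ℤ) : Fm σ
  | not (f : Fm σ) : Fm σ
  | and (f g : Fm σ) : Fm σ
  | or (f g : Fm σ) : Fm σ

/-- The assignment `h` satisfies the formula. -/
def Fm.Sat (h : ℕ → List σ) : Fm σ → Prop
  | .eq U V => ev h U = ev h V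
  | .reg x R _ => h x ∈ R
  | .lenEq c k => lin h c = k
  | .lenLe c k => lin h c ≤ k
  | .not f => ¬ f.Sat h
  | .and f g => f.Sat h ∧ g.Sat h
  | .or f g => f.Sat h ∨ g.Sat h

/-- The language `S(f, x)` of values of `x` under satisfying assignments. -/
def S (f : Fm σ) (x : ℕ) : Set (List σ) := {w | ∃ h : ℕ → List σ, f.Sat h ∧ h x = w}

end Pool.Agent.H77.Weq
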