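import Mathlib

set_option autoImplicit false

namespace Pool.Agent.H77.YBE

/-- `r × id` on `Y³`. -/
def r12 {Y : Type} (r : Y × Y → Y × Y) (p : Y × Y × Y) : Y × Y × Y :=
  ((r (p.1, p.2.1)).1, (r (p.1, p.2.1)).2, p.2.2)

/-- `id × r` on `Y³`. -/
def r23 {Y : Type} (r : Y × Y → Y × Y) (p : Y × Y × Y) : Y × Y × Y := (p.1, r p.2)

/-- A non-degenerate set-theoretic solution of the Yang-Baxter (braid) equation on `Y`;
`r (x, y) = (λ_x y, ρ_y x)`. -/
structure Sol (Y : Type) where
  r : Y × Y → Y × Y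
  braid : r12 r ∘ r23 r ∘ r12 r = r23 r ∘ r12 r ∘ r23 r
  left_bij : ∀ x, Function.Bijective fun y => (r (x, y)).1
  right_bij : ∀ y, Function.Bijective fun x => (r (x, y)).2

/-- Morphisms of solutions. -/
def IsMorphism {Y Z : Type} (s : Sol Y) (t : Sol Z) (f : Y → Z) : Prop :=
  Prod.map f f ∘ s.r = t.r ∘ Prod.map f f

/-- `(F, s)` with `i : X → F` is a free solution on `X`. -/
def IsFree {X F : Type} (s : Sol F) (i : X → F) : Prop :=
  ∀ (Z : Type) (t : Sol Z) (f : X → Z), ∃! h : F → Z, IsMorphism s t h ∧ h ∘ i = f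

/-- The relators `x y (λ_x y · ρ_y x)⁻¹` of the structure group. -/
def rels {Y : Type} (s : Sol Y) : Set (FreeGroup Y) :=
  {w | ∃ x y : Y, w = FreeGroup.of x * FreeGroup.of y *
    (FreeGroup.of (s.r (x, y)).1 * FreeGroup.of (s.r (x, y)).2)⁻¹}

/-- The canonical map of a solution into its structure group. -/
def toStructureGroup {Y : Type} (s : Sol Y) : Y → PresentedGroup (rels s) := PresentedGroup.of

end Pool.Agent.H77.YBE
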