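import Pool.Agent.H77.YBEDefs

set_option autoImplicit false

namespace Pool.Agent.H77.YBE

inductive Tm (X : Type) : Type
  | var (x : X) : Tm X
  | lam (a b : Tm X) : Tm X
  | rho (a b : Tm X) : Tm X
  | ilam (a b : Tm X) : Tm X
  | irho (a b : Tm X) : Tm X

variable {X : Type}

noncomputable def Sol.il {Z : Type} (t : Sol Z) (a b : Z) : Z :=
  (Equiv.ofBijective _ (t.left_bij a)).symm b

noncomputable def Sol.ir {Z : Type} (t : Sol Z) (a b : Z) : Z :=
  (Equiv.ofBijective _ (t.right_bij b)).symm a

lemma Sol.l_il {Z : Type} (t : Sol Z) (a b : Z) : (t.r (a, t.il a b)).1 = b :=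
  (Equiv.ofBijective _ (t.left_bij a)).apply_symm_apply b
lemma Sol.il_l {Z : Type} (t : Sol Z) (a b : Z) : t.il a (t.r (a, b)).1 = b :=
  (Equiv.ofBijective _ (t.left_bij a)).symm_apply_apply b
lemma Sol.r_ir {Z : Type} (t : Sol Z) (a b : Z) : (t.r (t.ir a b, b)).2 = a :=
  (Equiv.ofBijective _ (t.right_bij b)).apply_symm_apply a
lemma Sol.ir_r {Z : Type} (t : Sol Z) (a b : Z) : t.ir (t.r (a, b)).2 b = a :=
  (Equiv.ofBijective _ (t.right_bij b)).symm_apply_apply a

noncomputable def ev {Z : Type} (t : Sol Z) (f : X → Z) : Tm X → Z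
  | .var x => f x
  | .lam a b => (t.r (ev t f a, ev t f b)).1
  | .rho a b => (t.r (ev t f a, ev t f b)).2
  | .ilam a b => t.il (ev t f a) (ev t f b)
  | .irho a b => t.ir (ev t f a) (ev t f b)

def sem (X : Type) : Setoid (Tm X) where
  r a b := ∀ (Z : Type) (t : Sol Z) (f : X → Z), ev t f a = ev t f b
  iseqv := ⟨fun _ _ _ _ => rfl, fun h Z t f => (h Z t f).symm,
    fun h g Z t f => (h Z t f).trans (g Z t f)⟩

abbrev FS (X : Type) := Quotient (sem X)

def qlam : FS X → FS X → FS X :=
  Quotient.map₂ Tm.lam (fun _ _ h _ _ g Z t f => by simp only [ev]; rw [h Z t f, g Z t f])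
def qrho : FS X → FS X → FS X :=
  Quotient.map₂ Tm.rho (fun _ _ h _ _ g Z t f => by simp only [ev]; rw [h Z t f, g Z t f])
def qilam : FS X → FS X → FS X :=
  Quotient.map₂ Tm.ilam (fun _ _ h _ _ g Z t f => by simp only [ev]; rw [h Z t f, g Z t f])
def qirho : FS X → FS X → FS X :=
  Quotient.map₂ Tm.irho (fun _ _ h _ _ g Z t f => by simp only [ev]; rw [h Z t f, g Z t f])

def fsol (X : Type) : Sol (FS X) where
  r p := (qlam p.1 p.2, qrho p.1 p.2)
  braid := by
    funext ⟨a, b, c⟩
    induction a using Quotient.inductionOn with | _ a => ?_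
    induction b using Quotient.inductionOn with | _ b => ?_
    induction c using Quotient.inductionOn with | _ c => ?_
    simp only [Function.comp, r12, r23, Prod.mk.injEq]
    refine ⟨Quotient.sound ?_, Quotient.sound ?_, Quotient.sound ?_⟩
    · intro Z t f
      exact congrArg (fun p => p.1) (congrFun t.braid (ev t f a, ev t f b, ev t f c))
    · intro Z t f
      exact congrArg (fun p => p.2.1) (congrFun t.braid (ev t f a, ev t f b, ev t f c))
    · intro Z t f
      exact congrArg (fun p => p.2.2) (congrFun t.braid (ev t f a, ev t f b, ev t f c))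
  left_bij x := by
    refine Function.bijective_iff_has_inverse.2 ⟨qilam x, fun y => ?_, fun y => ?_⟩
    · induction x using Quotient.inductionOn with | _ a => ?_
      induction y using Quotient.inductionOn with | _ b => ?_
      exact Quotient.sound (fun Z t f => t.il_l _ _)
    · induction x using Quotient.inductionOn with | _ a => ?_
      induction y using Quotient.inductionOn with | _ b => ?_
      exact Quotient.sound (fun Z t f => t.l_il _ _)
  right_bij y := by
    refine Function.bijective_iff_has_inverse.2 ⟨fun x => qirho x y, fun x => ?_, fun x => ?_⟩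
    · induction x using Quotient.inductionOn with | _ a => ?_
      induction y using Quotient.inductionOn with | _ b => ?_
      exact Quotient.sound (fun Z t f => t.ir_r _ _)
    · induction x using Quotient.inductionOn with | _ a => ?_
      induction y using Quotient.inductionOn with | _ b => ?_
      exact Quotient.sound (fun Z t f => t.r_ir _ _)

lemma fsol_free (X : Type) : IsFree (fsol X) (fun x => Quotient.mk (sem X) (.var x)) := by
  intro Z t f
  refine ⟨Quotient.lift (ev t f) (fun a b h => h Z t f), ⟨?_, rfl⟩, ?_⟩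
  · funext ⟨a, b⟩
    induction a using Quotient.inductionOn with | _ a => ?_
    induction b using Quotient.inductionOn with | _ b => ?_
    rfl
  · rintro h ⟨hm, hi⟩
    have hl : ∀ a b, h (qlam a b) = (t.r (h a, h b)).1 :=
      fun a b => congrArg Prod.fst (congrFun hm (a, b))
    have hr : ∀ a b, h (qrho a b) = (t.r (h a, h b)).2 :=
      fun a b => congrArg Prod.snd (congrFun hm (a, b))
    funext a
    induction a using Quotient.inductionOn with | _ a => ?_
    change h ⟦a⟧ = ev t f a
    induction a with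
    | var x => exact congrFun hi x
    | lam a b ha hb => exact (hl ⟦a⟧ ⟦b⟧).trans (by rw [ha, hb]; rfl)
    | rho a b ha hb => exact (hr ⟦a⟧ ⟦b⟧).trans (by rw [ha, hb]; rfl)
    | ilam a b ha hb =>
      have e : qlam (⟦a⟧ : FS X) ⟦.ilam a b⟧ = ⟦b⟧ := Quotient.sound (fun Z t f => t.l_il _ _)
      have := hl ⟦a⟧ ⟦.ilam a b⟧
      rw [e, ha, hb] at this
      simp only [ev]
      rw [this, t.il_l]
    | irho a b ha hb =>
      have e : qrho (⟦.irho a b⟧ : FS X) ⟦b⟧ = ⟦a⟧ := Quotient.sound (fun Z t f => t.r_ir _ _)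
      have := hr ⟦.irho a b⟧ ⟦b⟧
      rw [e, ha, hb] at this
      simp only [ev]
      rw [this, t.ir_r]

/-- The permutation solution `r (a, b) = (b, !a)` on `Bool`. -/
def perm : Sol Bool where
  r p := (p.2, !p.1)
  braid := by funext ⟨a, b, c⟩; rfl
  left_bij x := Function.bijective_id
  right_bij y := by
    change Function.Bijective (fun x : Bool => !x)
    decide

theorem not_inj {F : Type} [Nonempty X] (s : Sol F) (i : X → F) (h : IsFree s i) :
    ¬ Function.Injective (toStructureGroup s) := by
  intro hinj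
  obtain ⟨x⟩ := ‹Nonempty X›
  obtain ⟨φ, ⟨hm, -⟩, -⟩ := h Bool perm (fun _ => true)
  set a := i x
  set y := s.il a a
  have e1 : (s.r (a, y)).1 = a := s.l_il a a
  have rel : (PresentedGroup.mk (rels s) (FreeGroup.of a * FreeGroup.of y *
      (FreeGroup.of (s.r (a, y)).1 * FreeGroup.of (s.r (a, y)).2)⁻¹)) = 1 :=
    PresentedGroup.one_of_mem ⟨a, y, rfl⟩
  rw [e1, map_mul, map_inv, map_mul, map_mul, mul_inv_eq_one, mul_right_inj] at rel
  have e2 : y = (s.r (a, y)).2 := hinj rel
  have m := congrFun hm (a, y)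
  have m1 : φ (s.r (a, y)).1 = φ y := congrArg Prod.fst m
  have m2 : φ (s.r (a, y)).2 = !φ a := congrArg Prod.snd m
  rw [e1] at m1
  rw [← e2, ← m1] at m2
  simp at m2

end Pool.Agent.H77.YBE
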